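import Pool.Agent.Helper12.LVM.C03

/- Helper6.CO.KeyLin -/
section
/-! # CO-KEY: the flag -/

set_option autoImplicit false

namespace Pool.Agent.Helper6.CO

open scoped BigOperators

/-- A basis modulo `V₀` compatible with a ranking of the indices in which the blocks are
intervals. -/
theorem exists_flag {E V κ ι : Type*} [Field E] [AddCommGroup V] [Module E V] [Fintype κ]
    [Fintype ι] (bl : κ → ι) (V₀ : Submodule E V) (C : κ → V) :
    ∃ (r : κ → ℕ) (S : Set κ),
      (∀ c : κ → E, (∀ t ∉ S, c t = 0) → ∑ t, c t • C t ∈ V₀ → c = 0) ∧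
      (∀ t, C t ∈ V₀ ⊔ Submodule.span E (C '' {s | s ∈ S ∧ r s ≤ r t})) ∧
      (∀ s t t', bl t = bl t' → bl s ≠ bl t → r s ≤ r t → r s < r t') ∧
      Function.Injective r := by
  classical
  set N := Fintype.card κ with hN
  set r : κ → ℕ := fun t => (Fintype.equivFin ι (bl t) : ℕ) * N + (Fintype.equivFin κ t : ℕ)
    with hr
  have he : ∀ t, (Fintype.equivFin κ t : ℕ) < N := fun t => (Fintype.equivFin κ t).2
  have hinj : Function.Injective r := by
    intro s t h
    have h1 : (Fintype.equivFin κ s : ℕ) = (Fintype.equivFin κ t : ℕ) := by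
      have h2 : r s % N = r t % N := by rw [h]
      simp only [hr] at h2
      rwa [Nat.mul_add_mod', Nat.mul_add_mod', Nat.mod_eq_of_lt (he s),
        Nat.mod_eq_of_lt (he t)] at h2
    exact (Fintype.equivFin κ).injective (Fin.ext h1)
  set S : Set κ := {t | C t ∉ V₀ ⊔ Submodule.span E (C '' {s | r s < r t})} with hS
  refine ⟨r, S, ?_, ?_, ?_, hinj⟩
  · intro c hc hmem
    by_contra hne
    have hne' : (Finset.univ.filter fun t => c t ≠ 0).Nonempty := by
      obtain ⟨t, ht⟩ := Function.ne_iff.1 hne
      exact ⟨t, Finset.mem_filter.2 ⟨Finset.mem_univ t, ht⟩⟩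
    obtain ⟨t, ht, hmax⟩ := Finset.exists_max_image _ r hne'
    have htc : c t ≠ 0 := (Finset.mem_filter.1 ht).2
    have htS : t ∈ S := by
      by_contra h
      exact htc (hc t h)
    apply htS
    have h1 : c t • C t ∈ V₀ ⊔ Submodule.span E (C '' {s | r s < r t}) := by
      have h2 : c t • C t = ∑ s, c s • C s - ∑ s ∈ Finset.univ.erase t, c s • C s := by
        rw [← Finset.add_sum_erase _ _ (Finset.mem_univ t), add_sub_cancel_right]
      rw [h2]
      refine sub_mem (Submodule.mem_sup_left hmem) (Submodule.mem_sup_right ?_)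
      refine sum_mem fun s hs => ?_
      by_cases hs0 : c s = 0
      · rw [hs0, zero_smul]
        exact zero_mem _
      · refine Submodule.smul_mem _ _ (Submodule.subset_span ⟨s, ?_, rfl⟩)
        have h3 := hmax s (Finset.mem_filter.2 ⟨Finset.mem_univ s, hs0⟩)
        exact lt_of_le_of_ne h3 fun h => (Finset.ne_of_mem_erase hs) (hinj h)
    have h2 := Submodule.smul_mem _ (c t)⁻¹ h1
    rwa [smul_smul, inv_mul_cancel₀ htc, one_smul] at h2
  · have key : ∀ m t, r t = m → C t ∈ V₀ ⊔ Submodule.span E (C '' {s | s ∈ S ∧ r s ≤ r t}) := by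
      intro m
      induction m using Nat.strong_induction_on with
      | _ m ih =>
        intro t ht
        by_cases htS : t ∈ S
        · exact Submodule.mem_sup_right (Submodule.subset_span ⟨t, ⟨htS, le_rfl⟩, rfl⟩)
        · have h1 : C t ∈ V₀ ⊔ Submodule.span E (C '' {s | r s < r t}) := by
            by_contra h
            exact htS h
          refine (sup_le le_sup_left ?_ : V₀ ⊔ Submodule.span E (C '' {s | r s < r t}) ≤ _) h1
          rw [Submodule.span_le]
          rintro _ ⟨s, hs, rfl⟩
          have h2 := ih (r s) (by rw [← ht]; exact hs) s rfl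
          refine (sup_le_sup_left (Submodule.span_mono (Set.image_mono ?_)) V₀) h2
          rintro s' ⟨h3, h4⟩
          exact ⟨h3, h4.trans hs.le⟩
    exact fun t => key _ t rfl
  · intro s t t' h1 h2 h3
    have h4 : (Fintype.equivFin ι (bl s) : ℕ) < (Fintype.equivFin ι (bl t) : ℕ) := by
      refine lt_of_le_of_ne ?_ fun h => h2 ((Fintype.equivFin ι).injective (Fin.ext h))
      by_contra h
      have h5 : (Fintype.equivFin ι (bl t) : ℕ) + 1 ≤ (Fintype.equivFin ι (bl s) : ℕ) := by omega
      have h6 := Nat.mul_le_mul_right N h5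
      have h7 := he t
      simp only [hr] at h3
      rw [add_mul, one_mul] at h6
      omega
    have h5 := Nat.mul_le_mul_right N (Nat.succ_le_of_lt h4)
    have h6 := he s
    simp only [hr]
    rw [← h1]
    rw [Nat.succ_mul] at h5
    omega

/-- coefficients of an element of a span, supported on the given set -/
theorem exists_coef {E V J : Type*} [Field E] [AddCommGroup V] [Module E V] [Fintype J]
    (v : J → V) (T : Set J) {z : V} (hz : z ∈ Submodule.span E (v '' T)) :
    ∃ f : J → E, (∀ j ∉ T, f j = 0) ∧ ∑ j, f j • v j = z := by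
  classical
  induction hz using Submodule.span_induction with
  | mem x h =>
    obtain ⟨j, hj, rfl⟩ := h
    refine ⟨Pi.single j 1, fun i hi => ?_, ?_⟩
    · exact Pi.single_eq_of_ne (fun h => hi (by rw [h]; exact hj)) _
    · rw [Finset.sum_eq_single j]
      · rw [Pi.single_eq_same, one_smul]
      · intro i _ hi
        rw [Pi.single_eq_of_ne hi, zero_smul]
      · intro h
        exact absurd (Finset.mem_univ j) h
  | zero => exact ⟨0, fun _ _ => rfl, by simp⟩
  | add x y _ _ hx hy =>
    obtain ⟨f, hf, rfl⟩ := hx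
    obtain ⟨g, hg, rfl⟩ := hy
    refine ⟨f + g, fun j hj => ?_, ?_⟩
    · rw [Pi.add_apply, hf j hj, hg j hj, add_zero]
    · simp only [Pi.add_apply, add_smul, Finset.sum_add_distrib]
  | smul a x _ hx =>
    obtain ⟨f, hf, rfl⟩ := hx
    refine ⟨a • f, fun j hj => ?_, ?_⟩
    · rw [Pi.smul_apply, hf j hj, smul_zero]
    · rw [Finset.smul_sum]
      exact Finset.sum_congr rfl fun j _ => by rw [Pi.smul_apply, smul_eq_mul, mul_smul]

theorem left_rows_le {E σ κ Q : Type*} [Field E] [Fintype κ] [DecidableEq κ] [Fintype Q]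
    (C : Q → σ → E) (w : ℕ)
    (hm : ∀ (r : Fin (w + 2) → σ) (c : Fin (w + 2) → Q),
      Matrix.det (Matrix.of fun s t => C (c t) (r s)) = 0)
    (K : κ → σ → E) (hK : ∀ t, K t ∈ Submodule.span E (Set.range C)) (M : Matrix κ κ E)
    (hM : M.det ≠ 0) (S : Finset κ) (ρ : κ → σ) (hS : ∀ s ∈ S, ∀ t, M s t = K t (ρ s)) :
    S.card ≤ w + 1 := by
  by_contra hcon
  have hcard : w + 2 ≤ S.card := by omega
  let f : Fin (w + 2) → κ := fun i => (S.equivFin.symm (Fin.castLE hcard i) : S)
  have hf : Function.Injective f := by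
    intro i j hij
    have h1 := S.equivFin.symm.injective (Subtype.ext hij)
    exact Fin.castLE_injective hcard h1
  have hfS : ∀ i, f i ∈ S := fun i => (S.equivFin.symm (Fin.castLE hcard i)).2
  have hlin : LinearIndependent E fun i : Fin (w + 2) => fun q : Q => C q (ρ (f i)) := by
    rw [Fintype.linearIndependent_iff]
    intro c hc
    have h1 : LinearIndependent E fun i : Fin (w + 2) => M (f i) :=
      (Matrix.linearIndependent_rows_of_det_ne_zero hM).comp f hf
    rw [Fintype.linearIndependent_iff] at h1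
    refine h1 c ?_
    funext t
    obtain ⟨T, hT⟩ := (Submodule.mem_span_range_iff_exists_fun E).1 (hK t)
    simp only [Finset.sum_apply, Pi.smul_apply, smul_eq_mul, Pi.zero_apply]
    have h2 : ∀ i, M (f i) t = ∑ q, T q * C q (ρ (f i)) := by
      intro i
      rw [hS _ (hfS i), ← hT]
      simp
    calc ∑ i, c i * M (f i) t = ∑ q, T q * ∑ i, c i * C q (ρ (f i)) := by
          simp only [h2, Finset.mul_sum]
          rw [Finset.sum_comm]
          exact Finset.sum_congr rfl fun q _ => Finset.sum_congr rfl fun i _ => by ring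
      _ = 0 := by
          apply Finset.sum_eq_zero
          intro q _
          have h3 := congrFun hc q
          simp only [Finset.sum_apply, Pi.smul_apply, smul_eq_mul, Pi.zero_apply] at h3
          rw [h3, mul_zero]
  obtain ⟨c, _, hc⟩ := Pool.Agent.Helper8.LG.exists_minor _ hlin
  apply hc
  have h4 := hm (fun s => ρ (f s)) c
  rw [← Matrix.det_transpose] at h4
  exact h4

/-- linear independence of the union of a basis of `V₀` and of multiples of a basis
modulo `V₀` -/
theorem li_sum {E V κ B : Type*} [Field E] [AddCommGroup V] [Module E V] [Fintype κ]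
    (v : B → V) (C : κ → V) (S : Set κ) (g : κ → E) (hg : ∀ t ∈ S, g t ≠ 0)
    (hv : LinearIndependent E v)
    (hF1 : ∀ c : κ → E, (∀ t ∉ S, c t = 0) →
      ∑ t, c t • C t ∈ Submodule.span E (Set.range v) → c = 0) :
    LinearIndependent E (Sum.elim v fun t : S => g t • C t) := by
  classical
  have hS : ∀ f : S → E, ∑ t : S, f t • (g t • C t) ∈ Submodule.span E (Set.range v) →
      f = 0 := by
    intro f hf
    have h1 : ∑ t : S, f t • (g t • C t) =
        ∑ t : κ, (if h : t ∈ S then f ⟨t, h⟩ * g t else 0) • C t := by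
      refine Fintype.sum_of_injective Subtype.val Subtype.val_injective _ _ ?_ ?_
      · intro t ht
        rw [dif_neg (fun h => ht ⟨⟨t, h⟩, rfl⟩), zero_smul]
      · rintro ⟨t, ht⟩
        rw [dif_pos ht, mul_smul]
    rw [h1] at hf
    have h2 := hF1 _ (fun t ht => dif_neg ht) hf
    funext t
    have h3 := congrFun h2 t
    rw [dif_pos t.2] at h3
    exact (mul_eq_zero.1 h3).resolve_right (hg t t.2)
  refine LinearIndependent.sum_type hv ?_ ?_
  · rw [Fintype.linearIndependent_iff]
    intro f hf
    have h1 := hS f (by rw [hf]; exact zero_mem _)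
    intro t
    rw [h1]
    rfl
  · rw [Submodule.disjoint_def]
    intro z hz1 hz2
    obtain ⟨f, hf⟩ := (Submodule.mem_span_range_iff_exists_fun E).1 hz2
    have h1 := hS f (by rw [hf]; exact hz1)
    rw [← hf, h1]
    simp

end Pool.Agent.Helper6.CO
end
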