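import Pool.Agent.Helper12.LVM.C08

/- Helper6.CO.Defs -/
section
/-!
# CO: forms depending polynomially on moving forms, definitions

`F_i = F0_i(X, H_t : bl t = i)`: the coefficients of the `H_t` move, `F0_i` has coefficients
in `k`, and `p t` are the coefficients of `dF0_i/dY_t (X, H)`.
-/

set_option autoImplicit false

namespace Pool.Agent.Helper6.CO

open scoped BigOperators
open Pool.Agent.Helper8.LG

section

variable {E : Type*} [Field E] {σ ι κ P τ : Type*}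

/-- The chain rule: `(D_s F_i)(x) = ∑_(bl t = i) m_t(x) (D_s H_t)(x)`; here `a i`, `p t`, `h t`
are the coefficients of `F_i`, `m_t`, `H_t`. -/
structure Mov [Fintype σ] [DecidableEq σ] [Fintype κ] [DecidableEq ι] (bl : κ → ι) (d : ι → ℕ)
    (b q : κ → ℕ) (a : (i : ι) → Sym σ (d i) → E) (p : (t : κ) → Sym σ (b t) → E)
    (h : (t : κ) → Sym σ (q t) → E) (D : P → Derivation ℤ E E) : Prop where
  deg : ∀ t, d (bl t) = b t + q t
  der : ∀ (s : P) (i : ι) (x : σ → E), ∑ J, D s (a i J) * mon x J =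
    ∑ t, if bl t = i then form (p t) x * ∑ J, D s (h t J) * mon x J else 0

/-- The coefficients `a i J` of `F_i` are polynomials `Q i J` over `k` in the coefficients
`h t J` of the `H_t`, and the partial derivatives of `F_i` with respect to the coefficients
of `H_t` are the products of the monomials with `m_t`. -/
structure Fam (k : Type*) [Field k] [Algebra k E] [Fintype σ] [DecidableEq σ] [Fintype κ]
    [DecidableEq ι] (bl : κ → ι) (d : ι → ℕ)
    (b q : κ → ℕ) (a : (i : ι) → Sym σ (d i) → E) (p : (t : κ) → Sym σ (b t) → E)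
    (h : (t : κ) → Sym σ (q t) → E)
    (Q : (i : ι) → Sym σ (d i) → MvPolynomial (Ix σ q) k) : Prop where
  deg : ∀ t, d (bl t) = b t + q t
  eq : ∀ i J, MvPolynomial.aeval (fun s : Ix σ q => h s.1 s.2) (Q i J) = a i J
  der : ∀ i J (s : Ix σ q),
    MvPolynomial.aeval (fun s : Ix σ q => h s.1 s.2) (MvPolynomial.pderiv s (Q i J)) =
      if bl s.1 = i then
        ∑ J' : Sym σ (b s.1),
          if (J' : Multiset σ) + (s.2 : Multiset σ) = (J : Multiset σ) then p s.1 J' else 0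
      else 0

/-- `q'_i = min(d_i, 2 q_i + 1)` for the forms whose `m_t` have no common zero, `q_i` for
the others -/
def qm [DecidableEq ι] (Y : Finset ι) (d q : ι → ℕ) (i : ι) : ℕ :=
  if i ∈ Y then min (d i) (2 * q i + 1) else q i

/-- At the valuation ring `O`, for every `i ∈ Y` some `m_t`, `bl t = i`, is not small at
`O`-primitive coordinates of the point `x`. -/
def Nul [Fintype σ] [DecidableEq σ] (bl : κ → ι) {b : κ → ℕ} (p : (t : κ) → Sym σ (b t) → E)
    (Y : Finset ι) (O : ValuationSubring E) (Δ : E) (x : σ → E) : Prop :=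
  ∀ i ∈ Y, ∀ j, x j ≠ 0 → (∀ l, x l / x j ∈ O) → ∃ t, bl t = i ∧
    form (p t) (fun l => x l / x j) ≠ 0 ∧ Δ * (form (p t) fun l => x l / x j)⁻¹ ∈ O

/-- The conclusion of the key lemma: `G x_l` is integral up to a power of `Δ` at all valuation
rings where `Δ` bounds the derivations, the corrections, the rows and the `m_t`. -/
def KeyC [Fintype σ] [DecidableEq σ] [Fintype ι] [Fintype τ] (bl : κ → ι) (d e : ι → ℕ)
    {b : κ → ℕ} (a : (i : ι) → Sym σ (d i) → E) (p : (t : κ) → Sym σ (b t) → E)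
    (D : P → Derivation ℤ E E) (θ : τ → P → E) (Z Y : Finset ι) (u : ι → E) (x : σ → E)
    (G : E) : Prop :=
  ∀ (O : ValuationSubring E) (Δ : E), Bdd D Δ O → (∀ j s, Δ * θ j s ∈ O) →
      (∀ i ∉ Z, RowBdd D Δ O x (form (a i)) (u i) (e i)) → Nul bl p Y O Δ x →
      ∀ l, Δ ^ (2 * (Fintype.card σ + Fintype.card ι + Fintype.card τ)) * (G * x l) ∈ O

/-- The numerical hypotheses: `Z` and `C` are disjoint, `d_i > 0`, `0 < q_i ≤ deg H_t`,
`d_i = m_i e_i` for `i ∈ C`, `e_i = 0` for `i ∉ C`, and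
`∑ q'_i + |Z| - ∑ e_i ≥ 2 w + 2 + c`. -/
structure NumC [Fintype ι] [DecidableEq ι] (bl : κ → ι) (q : κ → ℕ) (d q₀ e m : ι → ℕ)
    (Z C Y : Finset ι) (w c : ℕ) : Prop where
  pos : ∀ i, 0 < d i
  posq : ∀ i, 0 < q₀ i
  le : ∀ t, q₀ (bl t) ≤ q t
  disj : ∀ i ∈ C, i ∉ Z
  deg : ∀ i ∈ C, d i = m i * e i
  e0 : ∀ i ∉ C, e i = 0
  ineq : 2 * w + 2 + c + ∑ i, e i ≤ ∑ i, qm Y d q₀ i + Z.card

end

end Pool.Agent.Helper6.CO
end

/- Helper6.CO.KeyDefs -/
section
/-! # CO-KEY: definitions for the linear algebra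

The rows are `(σ ⊕ ι) ⊕ τ`: the coordinates of the point, the forms, the corrections. -/

set_option autoImplicit false

namespace Pool.Agent.Helper6.CO

open Pool.Agent.Helper8.LG

open scoped BigOperators

variable {E : Type*} [Field E] {σ ι κ τ : Type*} [Fintype σ] [DecidableEq σ]
  [DecidableEq ι]

/-- the Euler column `(x; d_i; 0)`, zero in the rows of `Z` -/
def eul (d : ι → ℕ) (Z : Finset ι) (x : σ → E) : (σ ⊕ ι) ⊕ τ → E :=
  Sum.elim (Sum.elim x fun i => if i ∈ Z then 0 else (d i : E)) fun _ => 0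

/-- the column `(D_s x; D_s F_i(x) / F_i(x); θ_s)` of an index `s`, zero in the rows of `Z` -/
def cv (n : κ → ℕ) {d : ι → ℕ} (a : (i : ι) → Sym σ (d i) → E)
    (D : Ix σ (fun t => n t + 1) → Derivation ℤ E E)
    (θ : τ → Ix σ (fun t => n t + 1) → E) (Z : Finset ι) (x : σ → E)
    (s : Ix σ (fun t => n t + 1)) : (σ ⊕ ι) ⊕ τ → E :=
  Sum.elim (Sum.elim (fun l => D s (x l)) fun i =>
    if i ∈ Z then 0 else D s (form (a i) x) / form (a i) x) fun j => θ j s

/-- the column of the linear syzygy `x_j ∂_(I + e_l) - x_l ∂_(I + e_j)`,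
`s = (t, I, j, l)` -/
def syz (n : κ → ℕ) {d : ι → ℕ} (a : (i : ι) → Sym σ (d i) → E)
    (D : Ix σ (fun t => n t + 1) → Derivation ℤ E E)
    (θ : τ → Ix σ (fun t => n t + 1) → E) (Z : Finset ι) (x : σ → E)
    (s : Σ t : κ, Sym σ (n t) × σ × σ) : (σ ⊕ ι) ⊕ τ → E :=
  x s.2.2.1 • cv n a D θ Z x ⟨s.1, s.2.2.2 ::ₛ s.2.1⟩ -
    x s.2.2.2 • cv n a D θ Z x ⟨s.1, s.2.2.1 ::ₛ s.2.1⟩

/-- multiplication of the `x`-rows by `c` -/
def phi (c : E) : ((σ ⊕ ι) ⊕ τ → E) →ₗ[E] ((σ ⊕ ι) ⊕ τ → E) :=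
  LinearMap.pi fun r =>
    (Sum.elim (Sum.elim (fun _ => c) fun _ => 1) (fun _ => 1) r : E) • LinearMap.proj r

end Pool.Agent.Helper6.CO
end
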