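import Mathlib
import Pool.Agent.Helper12.LVM.C01

/- Helper8.LG.KeyMinor -/
section
/-! # LG-K1: a non-vanishing maximal minor -/

set_option autoImplicit false

namespace Pool.Agent.Helper8.LG

theorem exists_minor {E ρ κ : Type*} [Field E] [Finite ρ] [Fintype κ] [DecidableEq κ]
    (v : κ → ρ → E) (hv : LinearIndependent E v) :
    ∃ r : κ → ρ, Function.Injective r ∧
      Matrix.det (Matrix.of fun s t => v t (r s)) ≠ 0 := by
  classical
  have : Fintype ρ := Fintype.ofFinite ρ
  obtain ⟨M, hM⟩ : ∃ M : Matrix κ ρ E, M = Matrix.of v := ⟨_, rfl⟩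
  have hrow : LinearIndependent E M.row := by
    rw [hM]
    exact hv
  have hrank : M.rank = Fintype.card κ := hrow.rank_matrix
  have hspan : Submodule.span E (Set.range M.col) = ⊤ := by
    apply Submodule.eq_top_of_finrank_eq
    rw [← Matrix.rank_eq_finrank_span_cols, hrank, Module.finrank_fintype_fun_eq_card]
  obtain ⟨b, hb1, hb2, hb3⟩ := exists_linearIndependent E (Set.range M.col)
  have htop : ⊤ ≤ Submodule.span E (Set.range (Subtype.val : b → κ → E)) := by
    rw [Subtype.range_coe, hb2, hspan]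
  let B : Module.Basis b E (κ → E) := Module.Basis.mk hb3 htop
  let e : b ≃ κ := B.indexEquiv (Pi.basisFun E κ)
  have hch : ∀ s : κ, ∃ j : ρ, M.col j = ((e.symm s : b) : κ → E) := fun s => hb1 (e.symm s).2
  choose r hr using hch
  have hinj : Function.Injective r := by
    intro s s' h
    have h1 : ((e.symm s : b) : κ → E) = ((e.symm s' : b) : κ → E) := by
      rw [← hr s, ← hr s', h]
    exact e.symm.injective (Subtype.ext h1)
  refine ⟨r, hinj, ?_⟩
  have hli : LinearIndependent E (Matrix.of fun s t => v t (r s)).row := by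
    have h1 : (Matrix.of fun s t => v t (r s)).row = fun s => ((e.symm s : b) : κ → E) := by
      funext s
      rw [← hr s, hM]
      rfl
    rw [h1]
    exact hb3.comp _ e.symm.injective
  have hunit := Matrix.linearIndependent_rows_iff_isUnit.mp hli
  exact ((Matrix.isUnit_iff_isUnit_det _).mp hunit).ne_zero

end Pool.Agent.Helper8.LG
end

/- Helper74.LG.KeyAux -/
section
/-!
# Linear algebra lemmas for LG-KEY
-/

set_option autoImplicit false

namespace Pool.Agent.Helper74.LG

open scoped BigOperators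

/-- The determinant of a matrix which is triangular for a rank function. -/
theorem det_tri {κ E : Type*} [Fintype κ] [DecidableEq κ] [CommRing E] (T : Matrix κ κ E)
    (b : κ → ℕ) (g : κ → E) (hdiag : ∀ t, T t t = g t)
    (hoff : ∀ t' t, t' ≠ t → b t ≤ b t' → T t' t = 0) : T.det = ∏ t, g t := by
  have hT : T.BlockTriangular b := fun i j hij => hoff i j (fun h => by
    rw [h] at hij
    exact lt_irrefl _ hij) hij.le
  rw [hT.det]
  have h1 : ∀ a, (T.toSquareBlock b a).det = ∏ t : {t // b t = a}, g t := by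
    intro a
    have h2 : T.toSquareBlock b a = Matrix.diagonal fun t : {t // b t = a} => g t := by
      ext i j
      rw [Matrix.toSquareBlock_def, Matrix.of_apply, Matrix.diagonal_apply]
      by_cases h : i = j
      · rw [if_pos h, h, hdiag]
      · rw [if_neg h]
        refine hoff _ _ (fun h' => h (Subtype.ext h')) ?_
        rw [i.2, j.2]
    rw [h2, Matrix.det_diagonal]
  rw [Finset.prod_congr rfl fun a _ => h1 a]
  have h3 : ∀ a, ∏ t : {t // b t = a}, g t = ∏ t ∈ Finset.univ.filter (fun t => b t = a), g t := by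
    intro a
    rw [Finset.prod_subtype (Finset.univ.filter (fun t => b t = a)) (p := fun t => b t = a)]
    intro t
    simp
  rw [Finset.prod_congr rfl fun a _ => h3 a]
  exact Finset.prod_fiberwise_of_maps_to (fun t _ => Finset.mem_image_of_mem b (Finset.mem_univ t))
    g

/-- A determinant with entries in a subring lies in the subring. -/
theorem det_mem {κ E : Type*} [Fintype κ] [DecidableEq κ] [CommRing E] (O : Subring E)
    (T : Matrix κ κ E) (h : ∀ s t, T s t ∈ O) : T.det ∈ O := by
  rw [Matrix.det_apply]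
  refine sum_mem fun p _ => ?_
  rw [Units.smul_def]
  exact zsmul_mem (prod_mem fun i _ => h _ _) _

/-- A coordinate of maximal value. -/
theorem exists_max_coord {E σ : Type*} [Field E] [Fintype σ] (O : ValuationSubring E)
    (x : σ → E) (i₀ : σ) (hx : x i₀ ≠ 0) : ∃ j, x j ≠ 0 ∧ ∀ l, x l / x j ∈ O := by
  have : Nonempty σ := ⟨i₀⟩
  obtain ⟨j, hj⟩ := Finite.exists_max fun l => O.valuation (x l)
  have hj0 : x j ≠ 0 := by
    intro h
    have h1 := hj i₀
    rw [h, map_zero] at h1
    exact hx ((O.valuation).zero_iff.1 (le_zero_iff.1 h1))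
  refine ⟨j, hj0, fun l => ?_⟩
  rw [← O.valuation_le_one_iff, map_div₀]
  exact div_le_one_of_le₀ (hj l) zero_le

/-- Choice of a basis of a span which contains a given non-zero vector. -/
theorem exists_basis_part {E V S : Type*} [Field E] [AddCommGroup V] [Module E V] (v₀ : V)
    (h₀ : v₀ ≠ 0) (f : S → V) : ∃ b : Set (Option S), none ∈ b ∧
      LinearIndependent E (fun o : b => (o : Option S).elim v₀ f) ∧
      ∀ s, f s ∈ Submodule.span E (Set.range fun o : b => (o : Option S).elim v₀ f) := by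
  obtain ⟨b, _, h1, h2, h3⟩ := exists_linearIndepOn_extension (K := E)
    (v := fun o : Option S => o.elim v₀ f) (s := {none}) (t := Set.univ)
    (by
      rw [linearIndepOn_singleton_iff]
      exact h₀) (Set.subset_univ _)
  refine ⟨b, h1 rfl, h3, fun s => ?_⟩
  have h4 := h2 ⟨some s, trivial, rfl⟩
  rwa [Set.image_eq_range] at h4

end Pool.Agent.Helper74.LG
end

/- Helper8.LG.KeyDefs -/
section
/-! # LG-KEY: definitions for the linear algebra

The rows are `(σ ⊕ ι) ⊕ τ`: the coordinates of the point, the forms, the corrections. -/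

set_option autoImplicit false

namespace Pool.Agent.Helper8.LG

open scoped BigOperators

variable {E : Type*} [Field E] {σ ι τ : Type*} [Fintype σ] [DecidableEq σ]
  [DecidableEq ι]

/-- the Euler column `(x; d_i; 0)`, zero in the rows of `Z` -/
def eul (n : ι → ℕ) (Z : Finset ι) (x : σ → E) : (σ ⊕ ι) ⊕ τ → E :=
  Sum.elim (Sum.elim x fun i => if i ∈ Z then 0 else ((n i + 1 : ℕ) : E)) fun _ => 0

/-- the column `(D_s x; D_s F_i(x) / F_i(x); θ_s)` of an index `s`, zero in the rows of `Z` -/
def cv (n : ι → ℕ) (a : (i : ι) → Sym σ (n i + 1) → E)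
    (D : Ix σ (fun i => n i + 1) → Derivation ℤ E E)
    (θ : τ → Ix σ (fun i => n i + 1) → E) (Z : Finset ι) (x : σ → E)
    (s : Ix σ (fun i => n i + 1)) : (σ ⊕ ι) ⊕ τ → E :=
  Sum.elim (Sum.elim (fun l => D s (x l)) fun i =>
    if i ∈ Z then 0 else D s (form (a i) x) / form (a i) x) fun j => θ j s

/-- the column of the linear syzygy `x_j ∂_(I + e_l) - x_l ∂_(I + e_j)`,
`s = (i, I, j, l)` -/
def syz (n : ι → ℕ) (a : (i : ι) → Sym σ (n i + 1) → E)
    (D : Ix σ (fun i => n i + 1) → Derivation ℤ E E)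
    (θ : τ → Ix σ (fun i => n i + 1) → E) (Z : Finset ι) (x : σ → E)
    (s : Σ i : ι, Sym σ (n i) × σ × σ) : (σ ⊕ ι) ⊕ τ → E :=
  x s.2.2.1 • cv n a D θ Z x ⟨s.1, s.2.2.2 ::ₛ s.2.1⟩ -
    x s.2.2.2 • cv n a D θ Z x ⟨s.1, s.2.2.1 ::ₛ s.2.1⟩

/-- multiplication of the `x`-rows by `c` -/
def phi (c : E) : ((σ ⊕ ι) ⊕ τ → E) →ₗ[E] ((σ ⊕ ι) ⊕ τ → E) :=
  LinearMap.pi fun r =>
    (Sum.elim (Sum.elim (fun _ => c) fun _ => 1) (fun _ => 1) r : E) • LinearMap.proj r

end Pool.Agent.Helper8.LG
end

/- Helper8.LG.KeyPath -/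
section
/-! # LG-K2: modulo the linear syzygies all columns of one form are proportional -/

set_option autoImplicit false

namespace Pool.Agent.Helper8.LG

open scoped BigOperators

section path

variable {R M τ : Type*} [CommRing R] [AddCommGroup M] [Module R M]

/-- a function on multisets of one size, extended by zero -/
private noncomputable def K2_ext (m : ℕ) (V : Sym τ m → M) (s : Multiset τ) : M := by
  classical
  exact if h : s.card = m then V (Sym.mk s h) else 0

private theorem K2_ext_coe (m : ℕ) (V : Sym τ m → M) (J : Sym τ m) :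
    K2_ext m V (J : Multiset τ) = V J := by
  have h : (J : Multiset τ).card = m := J.2
  unfold K2_ext
  rw [dif_pos h]
  rfl

private theorem K2_path (m : ℕ) (V : Sym τ (m + 1) → M) (W : Submodule R M) (x : τ → R)
    (hW : ∀ (I : Sym τ m) (j l : τ), x j • V (l ::ₛ I) - x l • V (j ::ₛ I) ∈ W) (j₀ : τ)
    (s : Multiset τ) : ∀ t : Multiset τ, s.card + t.card = m + 1 →
      x j₀ ^ s.card • K2_ext (m + 1) V (s + t) -
        (s.map x).prod • K2_ext (m + 1) V (Multiset.replicate s.card j₀ + t) ∈ W := by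
  induction s using Multiset.induction_on with
  | empty =>
    intro t _
    simp
  | cons l s ih =>
    intro t ht
    rw [Multiset.card_cons] at ht
    have h1 := ih (l ::ₘ t) (by rw [Multiset.card_cons]; omega)
    have hI : (Multiset.replicate s.card j₀ + t).card = m := by
      rw [Multiset.card_add, Multiset.card_replicate]; omega
    have h2 := hW (Sym.mk (Multiset.replicate s.card j₀ + t) hI) j₀ l
    rw [← K2_ext_coe (m + 1) V, ← K2_ext_coe (m + 1) V, Sym.coe_cons, Sym.coe_cons] at h2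
    have h3 := W.add_mem (W.smul_mem (x j₀) h1) (W.smul_mem (s.map x).prod h2)
    have e1 : s + l ::ₘ t = l ::ₘ s + t := by
      rw [Multiset.add_cons, Multiset.cons_add]
    have e2 : Multiset.replicate s.card j₀ + l ::ₘ t =
        l ::ₘ (Multiset.replicate s.card j₀ + t) := by
      rw [Multiset.add_cons]
    have e3 : Multiset.replicate (s.card + 1) j₀ + t =
        j₀ ::ₘ (Multiset.replicate s.card j₀ + t) := by
      rw [Multiset.replicate_succ, Multiset.cons_add]
    rw [e1, e2, Sym.coe_mk] at h3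
    rw [Multiset.card_cons, e3, Multiset.map_cons, Multiset.prod_cons]
    have e5 : x j₀ ^ (s.card + 1) • K2_ext (m + 1) V (l ::ₘ s + t) -
        (x l * (s.map x).prod) • K2_ext (m + 1) V
          (j₀ ::ₘ (Multiset.replicate s.card j₀ + t)) =
        x j₀ • (x j₀ ^ s.card • K2_ext (m + 1) V (l ::ₘ s + t) -
          (s.map x).prod • K2_ext (m + 1) V
            (l ::ₘ (Multiset.replicate s.card j₀ + t))) +
        (s.map x).prod • (x j₀ • K2_ext (m + 1) V
            (l ::ₘ (Multiset.replicate s.card j₀ + t)) -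
          x l • K2_ext (m + 1) V
            (j₀ ::ₘ (Multiset.replicate s.card j₀ + t))) := by
      module
    rw [e5]
    exact h3

private theorem K2_main (m : ℕ) (V : Sym τ (m + 1) → M) (W : Submodule R M) (x : τ → R)
    (hW : ∀ (I : Sym τ m) (j l : τ), x j • V (l ::ₛ I) - x l • V (j ::ₛ I) ∈ W) (j₀ : τ)
    (J : Sym τ (m + 1)) :
    x j₀ ^ (m + 1) • V J - mon x J • V (Sym.replicate (m + 1) j₀) ∈ W := by
  have hc : (J : Multiset τ).card = m + 1 := J.2
  have h := K2_path m V W x hW j₀ (J : Multiset τ) 0 (by rw [hc]; simp)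
  rw [hc, add_zero, add_zero, K2_ext_coe] at h
  have hr : (Multiset.replicate (m + 1) j₀ : Multiset τ) =
      ((Sym.replicate (m + 1) j₀ : Sym τ (m + 1)) : Multiset τ) := by
    rw [Sym.coe_replicate]
  rw [hr, K2_ext_coe] at h
  exact h

end path

variable {E : Type*} [Field E] {σ ι τ : Type*} [Fintype σ] [DecidableEq σ]
  [DecidableEq ι]

theorem cv_sub_mem (n : ι → ℕ) (a : (i : ι) → Sym σ (n i + 1) → E)
    (D : Ix σ (fun i => n i + 1) → Derivation ℤ E E)
    (θ : τ → Ix σ (fun i => n i + 1) → E) (Z : Finset ι) (x : σ → E)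
    (j₀ : σ) (i : ι) (J : Sym σ (n i + 1)) :
    x j₀ ^ (n i + 1) • cv n a D θ Z x ⟨i, J⟩ -
      mon x J • cv n a D θ Z x ⟨i, Sym.replicate (n i + 1) j₀⟩ ∈
      Submodule.span E (Set.range (syz n a D θ Z x)) := by
  refine K2_main (n i) (fun J => cv n a D θ Z x ⟨i, J⟩) _ x ?_ j₀ J
  intro I j l
  exact Submodule.subset_span ⟨⟨i, I, j, l⟩, rfl⟩

end Pool.Agent.Helper8.LG
end

/- Helper12.LVF.H8.LG.KeyFun -/
section
/-! # LG-K3: the functionals -/

set_option autoImplicit false

namespace Pool.Agent.Helper8.LG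

open scoped BigOperators

variable {E : Type*} [Field E] {σ ι τ : Type*} [Fintype σ] [DecidableEq σ]
  [DecidableEq ι]

theorem kf_grad_multiset (x : σ → E) (s : Multiset σ) :
    ∃ g : σ → E, (∀ δ : Derivation ℤ E E, δ (s.map x).prod = ∑ l, g l * δ (x l)) ∧
      ∑ l, g l * x l = (Multiset.card s : E) * (s.map x).prod := by
  induction s using Multiset.induction_on with
  | empty => exact ⟨fun _ => 0, by intro δ; simp, by simp⟩
  | cons j s ih =>
    obtain ⟨g, hg, he⟩ := ih
    refine ⟨fun l => x j * g l + (if l = j then (s.map x).prod else 0), ?_, ?_⟩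
    · intro δ
      rw [Multiset.map_cons, Multiset.prod_cons, Derivation.leibniz, hg δ]
      simp only [smul_eq_mul, add_mul, ite_mul, zero_mul, Finset.sum_add_distrib,
        Finset.sum_ite_eq', Finset.mem_univ, if_true, Finset.mul_sum, mul_assoc]
    · rw [Multiset.map_cons, Multiset.prod_cons, Multiset.card_cons]
      simp only [add_mul, ite_mul, zero_mul, Finset.sum_add_distrib,
        Finset.sum_ite_eq', Finset.mem_univ, if_true, mul_assoc]
      rw [← Finset.mul_sum, he]
      push_cast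
      ring

theorem kf_grad_form {m : ℕ} (a : Sym σ m → E) (x : σ → E) :
    ∃ g : σ → E, (∀ δ : Derivation ℤ E E,
        δ (form a x) = ∑ J, δ (a J) * mon x J + ∑ l, g l * δ (x l)) ∧
      ∑ l, g l * x l = (m : E) * form a x := by
  choose g hg he using fun J : Sym σ m => kf_grad_multiset x (J : Multiset σ)
  refine ⟨fun l => ∑ J, a J * g J l, ?_, ?_⟩
  · intro δ
    unfold form
    rw [map_sum]
    have h1 : ∀ J : Sym σ m, δ (a J * mon x J) =
        δ (a J) * mon x J + ∑ l, a J * g J l * δ (x l) := by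
      intro J
      rw [Derivation.leibniz]
      unfold mon
      rw [hg J δ]
      simp only [smul_eq_mul, Finset.mul_sum, mul_assoc]
      rw [add_comm, mul_comm (δ (a J))]
    simp only [h1]
    rw [Finset.sum_add_distrib, Finset.sum_comm (f := fun J l => a J * g J l * δ (x l))]
    simp only [Finset.sum_mul]
  · unfold form
    simp only [Finset.sum_mul]
    rw [Finset.sum_comm, Finset.mul_sum]
    refine Finset.sum_congr rfl fun J _ => ?_
    have h2 := he J
    rw [Sym.card_coe] at h2
    simp only [mul_assoc]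
    rw [← Finset.mul_sum, h2]
    unfold mon
    ring

theorem kf_mon_cons {m : ℕ} (x : σ → E) (j : σ) (I : Sym σ m) :
    mon x (j ::ₛ I) = x j * mon x I := by
  unfold mon
  rw [Sym.coe_cons, Multiset.map_cons, Multiset.prod_cons]

theorem exists_functional [Fintype ι] [Fintype τ] (n : ι → ℕ)
    (a : (i : ι) → Sym σ (n i + 1) → E)
    (D : Ix σ (fun i => n i + 1) → Derivation ℤ E E)
    (jj : τ → Ix σ (fun i => n i + 1)) (θ : τ → Ix σ (fun i => n i + 1) → E)
    (hD : Dual (fun i => n i + 1) a D jj θ) (Z : Finset ι) (x : σ → E)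
    (hZ : ∀ i ∈ Z, form (a i) x = 0) (hU : ∀ i ∉ Z, form (a i) x ≠ 0) :
    ∃ lam : ((σ ⊕ ι) ⊕ τ → E) →ₗ[E] (ι → E), lam (eul n Z x) = 0 ∧
      (∀ (i : ι) (J : Sym σ (n i + 1)),
        lam (cv n a D θ Z x ⟨i, J⟩) = Pi.single i (-mon x J)) ∧
      ∀ s, lam (syz n a D θ Z x s) = 0 := by
  choose g hg he using fun i : ι => kf_grad_form (a i) x
  let lam : ((σ ⊕ ι) ⊕ τ → E) →ₗ[E] (ι → E) := LinearMap.pi fun i =>
    (∑ l, g i l • (LinearMap.proj (Sum.inl (Sum.inl l)) : ((σ ⊕ ι) ⊕ τ → E) →ₗ[E] E)) -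
      (if i ∈ Z then (0 : E) else form (a i) x) •
        (LinearMap.proj (Sum.inl (Sum.inr i)) : ((σ ⊕ ι) ⊕ τ → E) →ₗ[E] E) -
      ∑ j, (if (jj j).1 = i then mon x (jj j).2 else 0) •
        (LinearMap.proj (Sum.inr j) : ((σ ⊕ ι) ⊕ τ → E) →ₗ[E] E)
  have hlam : ∀ (v : (σ ⊕ ι) ⊕ τ → E) (i : ι), lam v i = ∑ l, g i l * v (Sum.inl (Sum.inl l)) -
      (if i ∈ Z then (0 : E) else form (a i) x) * v (Sum.inl (Sum.inr i)) -
      ∑ j, (if (jj j).1 = i then mon x (jj j).2 else 0) * v (Sum.inr j) := by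
    intro v i
    show ((∑ l, g i l • (LinearMap.proj (Sum.inl (Sum.inl l)) : ((σ ⊕ ι) ⊕ τ → E) →ₗ[E] E)) -
      (if i ∈ Z then (0 : E) else form (a i) x) •
        (LinearMap.proj (Sum.inl (Sum.inr i)) : ((σ ⊕ ι) ⊕ τ → E) →ₗ[E] E) -
      ∑ j, (if (jj j).1 = i then mon x (jj j).2 else 0) •
        (LinearMap.proj (Sum.inr j) : ((σ ⊕ ι) ⊕ τ → E) →ₗ[E] E)) v = _
    rw [LinearMap.sub_apply, LinearMap.sub_apply, LinearMap.sum_apply, LinearMap.sum_apply,
      LinearMap.smul_apply, LinearMap.proj_apply, smul_eq_mul]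
    simp only [LinearMap.smul_apply, LinearMap.proj_apply, smul_eq_mul]
  have hcv : ∀ (s : Ix σ (fun i => n i + 1)) (i : ι),
      lam (cv n a D θ Z x s) i = -∑ J, D s (a i J) * mon x J -
        ∑ j, (if (jj j).1 = i then mon x (jj j).2 else 0) * θ j s := by
    intro s i
    rw [hlam]
    have h1 := hg i (D s)
    simp only [cv, Sum.elim_inl, Sum.elim_inr]
    by_cases hi : i ∈ Z
    · rw [if_pos hi, hZ i hi, map_zero] at *
      rw [zero_mul, sub_zero]
      linear_combination -h1
    · rw [if_neg hi, if_neg hi, mul_div_cancel₀ _ (hU i hi), h1]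
      ring
  -- the coefficient form of `D_s F_i`
  have hsum : ∀ (s : Ix σ (fun i => n i + 1)) (i : ι), ∑ J, D s (a i J) * mon x J =
      (if s.1 = i then mon x s.2 else 0) -
        ∑ j, (if (jj j).1 = i then mon x (jj j).2 else 0) * θ j s := by
    intro s i
    have h1 : ∀ J : Sym σ (n i + 1), D s (a i J) * mon x J =
        (if s = ⟨i, J⟩ then mon x J else 0) -
          ∑ j, if jj j = ⟨i, J⟩ then θ j s * mon x J else 0 := by
      intro J
      rw [hD s ⟨i, J⟩, sub_mul, Finset.sum_mul]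
      congr 1
      · split_ifs <;> simp
      · refine Finset.sum_congr rfl fun j _ => ?_
        split_ifs <;> simp
    have h2 : ∀ (q : Ix σ (fun i => n i + 1)) (f : E),
        ∑ J : Sym σ (n i + 1), (if q = ⟨i, J⟩ then f * mon x J else 0) =
          f * if q.1 = i then mon x q.2 else 0 := by
      rintro ⟨k, K⟩ f
      by_cases hk : k = i
      · subst hk
        rw [Finset.sum_eq_single K]
        · simp
        · intro J _ hJ
          rw [if_neg]
          intro h
          apply hJ
          have := eq_of_heq (Sigma.mk.inj h).2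
          exact this.symm
        · intro h
          exact absurd (Finset.mem_univ K) h
      · rw [Finset.sum_eq_zero]
        · simp [hk]
        · intro J _
          rw [if_neg]
          intro h
          exact hk (Sigma.mk.inj h).1
    rw [Finset.sum_congr rfl fun J _ => h1 J, Finset.sum_sub_distrib, Finset.sum_comm]
    congr 1
    · have h3 := h2 s 1
      simpa using h3
    · refine Finset.sum_congr rfl fun j _ => ?_
      rw [h2 (jj j) (θ j s), mul_comm]
  have hcvD : ∀ (i : ι) (J : Sym σ (n i + 1)),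
      lam (cv n a D θ Z x ⟨i, J⟩) = Pi.single i (-mon x J) := by
    intro i J
    funext k
    rw [hcv, hsum]
    by_cases hk : k = i
    · subst hk
      rw [Pi.single_eq_same, if_pos rfl]
      ring
    · rw [Pi.single_eq_of_ne hk, if_neg (fun h => hk h.symm)]
      ring
  refine ⟨lam, ?_, hcvD, ?_⟩
  · funext i
    rw [hlam]
    have h1 := he i
    simp only [eul, Sum.elim_inl, Sum.elim_inr, Pi.zero_apply, mul_zero, Finset.sum_const_zero,
      sub_zero]
    rw [h1]
    by_cases hi : i ∈ Z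
    · rw [if_pos hi, hZ i hi]
      ring
    · rw [if_neg hi, if_neg hi]
      ring
  · rintro ⟨i, I, j, l⟩
    simp only [syz, map_sub, map_smul, hcvD, kf_mon_cons]
    funext k
    by_cases hk : k = i
    · subst hk
      simp only [Pi.sub_apply, Pi.smul_apply, Pi.single_eq_same, smul_eq_mul, Pi.zero_apply]
      ring
    · simp only [Pi.sub_apply, Pi.smul_apply, Pi.single_eq_of_ne hk, smul_eq_mul, Pi.zero_apply]
      ring

/-- change of normalisation -/
theorem eul_scale (n : ι → ℕ) (Z : Finset ι) (x : σ → E) (c : E) (hc : c ≠ 0) :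
    (eul n Z x : (σ ⊕ ι) ⊕ τ → E) = phi c (eul n Z fun l => x l / c) := by
  funext r
  rcases r with (l | i) | j
  · simp only [eul, phi, LinearMap.pi_apply, LinearMap.smul_apply, LinearMap.proj_apply,
      Sum.elim_inl, smul_eq_mul]
    field_simp
  · simp only [eul, phi, LinearMap.pi_apply, LinearMap.smul_apply, LinearMap.proj_apply,
      Sum.elim_inl, Sum.elim_inr, smul_eq_mul, one_mul]
  · simp only [eul, phi, LinearMap.pi_apply, LinearMap.smul_apply, LinearMap.proj_apply,
      Sum.elim_inr, smul_eq_mul, one_mul]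

theorem kf_form_scale {m : ℕ} (a : Sym σ m → E) (x : σ → E) (c : E) (hc : c ≠ 0) :
    form a x = c ^ m * form a (fun l => x l / c) := by
  unfold form
  rw [Finset.mul_sum]
  refine Finset.sum_congr rfl fun J _ => ?_
  have h1 : mon x J = c ^ m * mon (fun l => x l / c) J := by
    unfold mon
    have h2 : ((J : Multiset σ).map fun l => x l) =
        (J : Multiset σ).map fun l => c * (x l / c) := by
      refine Multiset.map_congr rfl fun l _ => ?_
      field_simp
    have h3 : ((J : Multiset σ).map x) = ((J : Multiset σ).map fun l => x l) := rfl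
    rw [h3, h2, Multiset.prod_map_mul, Multiset.map_const', Multiset.prod_replicate,
      Sym.card_coe]
  rw [h1]
  ring

theorem kf_logderiv (δ : Derivation ℤ E E) (c f : E) (m : ℕ) (hc : c ≠ 0) (hf : f ≠ 0) :
    δ (c ^ (m + 1) * f) / (c ^ (m + 1) * f) = δ f / f + δ c / c * ((m + 1 : ℕ) : E) := by
  rw [Derivation.leibniz, Derivation.leibniz_pow]
  simp only [smul_eq_mul, nsmul_eq_mul, Nat.add_sub_cancel]
  field_simp
  ring

theorem cv_scale (n : ι → ℕ) (a : (i : ι) → Sym σ (n i + 1) → E)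
    (D : Ix σ (fun i => n i + 1) → Derivation ℤ E E)
    (θ : τ → Ix σ (fun i => n i + 1) → E) (Z : Finset ι) (x : σ → E)
    (hU : ∀ i ∉ Z, form (a i) x ≠ 0) (c : E) (hc : c ≠ 0) (s : Ix σ (fun i => n i + 1)) :
    cv n a D θ Z x s =
      phi c (cv n a D θ Z (fun l => x l / c) s) + (D s c / c) • eul n Z x := by
  funext r
  set δ := D s with hδ
  rcases r with (l | i) | j
  · simp only [eul, cv, phi, LinearMap.pi_apply, LinearMap.smul_apply, LinearMap.proj_apply,
      Sum.elim_inl, smul_eq_mul, Pi.add_apply, Pi.smul_apply]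
    have h1 : x l = c * (x l / c) := by (clear * - hc; field_simp)
    have h2 : δ (x l) = c * δ (x l / c) + (x l / c) * δ c := by
      conv_lhs => rw [h1]
      rw [Derivation.leibniz]
      simp only [smul_eq_mul]
    rw [h2]
    ring
  · simp only [eul, cv, phi, LinearMap.pi_apply, LinearMap.smul_apply, LinearMap.proj_apply,
      Sum.elim_inl, Sum.elim_inr, smul_eq_mul, one_mul, Pi.add_apply, Pi.smul_apply]
    by_cases hi : i ∈ Z
    · simp only [if_pos hi]
      ring
    · simp only [if_neg hi]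
      have h1 := kf_form_scale (a i) x c hc
      have h2 : form (a i) (fun l => x l / c) ≠ 0 := by
        intro h0
        apply hU i hi
        rw [h1, h0, mul_zero]
      have h3 := kf_logderiv δ c (form (a i) (fun l => x l / c)) (n i) hc h2
      rw [← h1] at h3
      exact h3
  · simp only [eul, cv, phi, LinearMap.pi_apply, LinearMap.smul_apply, LinearMap.proj_apply,
      Sum.elim_inr, smul_eq_mul, one_mul, Pi.add_apply, Pi.smul_apply, mul_zero, add_zero]

theorem syz_scale (n : ι → ℕ) (a : (i : ι) → Sym σ (n i + 1) → E)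
    (D : Ix σ (fun i => n i + 1) → Derivation ℤ E E)
    (θ : τ → Ix σ (fun i => n i + 1) → E) (Z : Finset ι) (x : σ → E)
    (hU : ∀ i ∉ Z, form (a i) x ≠ 0) (c : E) (hc : c ≠ 0)
    (s : Σ i : ι, Sym σ (n i) × σ × σ) :
    ∃ b : E, syz n a D θ Z x s = c • phi c (syz n a D θ Z (fun l => x l / c) s) +
      b • eul n Z x := by
  obtain ⟨i, I, j, l⟩ := s
  refine ⟨x j * (D ⟨i, l ::ₛ I⟩ c / c) - x l * (D ⟨i, j ::ₛ I⟩ c / c), ?_⟩
  simp only [syz]
  rw [cv_scale n a D θ Z x hU c hc ⟨i, l ::ₛ I⟩, cv_scale n a D θ Z x hU c hc ⟨i, j ::ₛ I⟩]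
  funext r
  simp only [map_sub, map_smul, Pi.sub_apply, Pi.smul_apply, Pi.add_apply, smul_eq_mul]
  have h1 : x j = c * (x j / c) := by field_simp
  have h2 : x l = c * (x l / c) := by field_simp
  field_simp
  ring

end Pool.Agent.Helper8.LG
end

/- Helper12.LVF.H8.LG.Key -/
section
/-! # LG-KEY: the linear algebra -/

set_option autoImplicit false

namespace Pool.Agent.Helper8.LG

open scoped BigOperators

private theorem left_rows_le {E σ κ Q : Type*} [Field E] [Fintype κ] [DecidableEq κ] [Fintype Q]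
    (C : Q → σ → E) (w : ℕ)
    (hm : ∀ (r : Fin (w + 2) → σ) (c : Fin (w + 2) → Q),
      Matrix.det (Matrix.of fun s t => C (c t) (r s)) = 0)
    (K : κ → σ → E) (hK : ∀ t, K t ∈ Submodule.span E (Set.range C)) (M : Matrix κ κ E)
    (hM : M.det ≠ 0) (S : Finset κ) (ρ : κ → σ) (hS : ∀ s ∈ S, ∀ t, M s t = K t (ρ s)) :
    S.card ≤ w + 1 := by
  by_contra hcon
  have hcard : w + 2 ≤ S.card := by omega
  let f : Fin (w + 2) → κ := fun i => (S.equivFin.symm (Fin.castLE hcard i) : S)
  have hf : Function.Injective f := by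
    intro i j hij
    have h1 := S.equivFin.symm.injective (Subtype.ext hij)
    exact Fin.castLE_injective hcard h1
  have hfS : ∀ i, f i ∈ S := fun i => (S.equivFin.symm (Fin.castLE hcard i)).2
  have hlin : LinearIndependent E fun i : Fin (w + 2) => fun q : Q => C q (ρ (f i)) := by
    rw [Fintype.linearIndependent_iff]
    intro c hc
    have h1 : LinearIndependent E fun i : Fin (w + 2) => M (f i) :=
      (Matrix.linearIndependent_rows_of_det_ne_zero hM).comp f hf
    rw [Fintype.linearIndependent_iff] at h1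
    refine h1 c ?_
    funext t
    obtain ⟨T, hT⟩ := (Submodule.mem_span_range_iff_exists_fun E).1 (hK t)
    simp only [Finset.sum_apply, Pi.smul_apply, smul_eq_mul, Pi.zero_apply]
    have h2 : ∀ i, M (f i) t = ∑ q, T q * C q (ρ (f i)) := by
      intro i
      rw [hS _ (hfS i), ← hT]
      simp
    calc ∑ i, c i * M (f i) t = ∑ q, T q * ∑ i, c i * C q (ρ (f i)) := by
          simp only [h2, Finset.mul_sum]
          rw [Finset.sum_comm]
          exact Finset.sum_congr rfl fun q _ => Finset.sum_congr rfl fun i _ => by ring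
      _ = 0 := by
          apply Finset.sum_eq_zero
          intro q _
          have h3 := congrFun hc q
          simp only [Finset.sum_apply, Pi.smul_apply, smul_eq_mul, Pi.zero_apply] at h3
          rw [h3, mul_zero]
  obtain ⟨c, _, hc⟩ := exists_minor _ hlin
  apply hc
  have h4 := hm (fun s => ρ (f s)) c
  rw [← Matrix.det_transpose] at h4
  exact h4

private theorem sum_single_smul {E κ V : Type*} [Semiring E] [AddCommMonoid V] [Module E V]
    [Fintype κ] [DecidableEq κ] (t : κ) (c : E) (v : κ → V) :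
    ∑ t', (Pi.single t c : κ → E) t' • v t' = c • v t := by
  rw [Finset.sum_eq_single t]
  · rw [Pi.single_eq_same]
  · intro t' _ h
    rw [Pi.single_eq_of_ne h, zero_smul]
  · intro h
    exact absurd (Finset.mem_univ t) h

section

variable {E : Type*} [Field E] {σ ι Tt : Type*} [Fintype σ] [DecidableEq σ] [DecidableEq ι]
  (n : ι → ℕ) (a : (i : ι) → Sym σ (n i + 1) → E)
  (D : Ix σ (fun i => n i + 1) → Derivation ℤ E E)
  (θ : Tt → Ix σ (fun i => n i + 1) → E) (Z : Finset ι) (x : σ → E)

omit [Fintype σ] [DecidableEq σ] [DecidableEq ι] in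
private theorem phi_inj {c : E} (hc : c ≠ 0) :
    Function.Injective (phi (σ := σ) (ι := ι) (τ := Tt) c) := by
  intro f g h
  funext r
  have h1 := congrFun h r
  rcases r with (l | i) | j
  · simp only [phi, LinearMap.pi_apply, LinearMap.smul_apply, LinearMap.proj_apply, Sum.elim_inl,
      smul_eq_mul] at h1
    exact mul_left_cancel₀ hc h1
  · simpa only [phi, LinearMap.pi_apply, LinearMap.smul_apply, LinearMap.proj_apply, Sum.elim_inl,
      Sum.elim_inr, smul_eq_mul, one_mul] using h1
  · simpa only [phi, LinearMap.pi_apply, LinearMap.smul_apply, LinearMap.proj_apply, Sum.elim_inr,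
      smul_eq_mul, one_mul] using h1

omit [Fintype σ] [DecidableEq σ] [DecidableEq ι] in
private theorem phi_apply (c : E) (f : (σ ⊕ ι) ⊕ Tt → E) (r : (σ ⊕ ι) ⊕ Tt) :
    phi c f r = (Sum.elim (Sum.elim (fun _ => c) (fun _ => 1)) (fun _ => 1) r : E) * f r := rfl

omit [Fintype σ] [DecidableEq σ] in
private theorem eul_row {i : ι} (hi : i ∈ Z) :
    (eul n Z x : (σ ⊕ ι) ⊕ Tt → E) (Sum.inl (Sum.inr i)) = 0 := by
  simp [eul, hi]

private theorem cv_row (s : Ix σ (fun i => n i + 1)) {i : ι} (hi : i ∈ Z) :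
    cv n a D θ Z x s (Sum.inl (Sum.inr i)) = 0 := by
  simp [cv, hi]

private theorem syz_row (s : Σ i : ι, Sym σ (n i) × σ × σ) {i : ι} (hi : i ∈ Z) :
    syz n a D θ Z x s (Sum.inl (Sum.inr i)) = 0 := by
  simp [syz, cv_row n a D θ Z x _ hi]

/-- the column indexed by `o` -/
private def colF (o : Option (Σ i : ι, Sym σ (n i) × σ × σ)) : (σ ⊕ ι) ⊕ Tt → E :=
  o.elim (eul n Z x) (syz n a D θ Z x)

/-- the column indexed by `i` -/
private def colR (j : σ) (i : ι) : (σ ⊕ ι) ⊕ Tt → E :=
  cv n a D θ Z x ⟨i, Sym.replicate (n i + 1) j⟩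

omit [Fintype σ] [DecidableEq σ] in
private theorem mon_rep (x : σ → E) (m : ℕ) (j : σ) : mon x (Sym.replicate m j) = x j ^ m := by
  simp [mon, Sym.coe_replicate]

variable {n a D θ Z x}

private theorem span_tilde (b : Set (Option (Σ i : ι, Sym σ (n i) × σ × σ))) (hb0 : none ∈ b)
    (hbsp : ∀ s, syz n a D θ Z x s ∈
      Submodule.span E (Set.range fun o : b => colF n a D θ Z x (o : Option _)))
    (hU : ∀ i ∉ Z, form (a i) x ≠ 0) {c : E} (hc : c ≠ 0)
    (s : Σ i : ι, Sym σ (n i) × σ × σ) :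
    syz n a D θ Z (fun l => x l / c) s ∈
      Submodule.span E (Set.range fun o : b => colF n a D θ Z (fun l => x l / c) (o : Option _)) := by
  set W := Submodule.span E
    (Set.range fun o : b => colF n a D θ Z (fun l => x l / c) (o : Option _)) with hW
  have h0 : eul n Z (fun l => x l / c) ∈ W := Submodule.subset_span ⟨⟨none, hb0⟩, rfl⟩
  have h0' : (eul n Z x : (σ ⊕ ι) ⊕ Tt → E) ∈ W.map (phi c) := by
    rw [eul_scale n Z x c hc]
    exact Submodule.mem_map_of_mem h0
  have h1 : Submodule.span E (Set.range fun o : b => colF n a D θ Z x (o : Option _)) ≤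
      W.map (phi c) := by
    rw [Submodule.span_le]
    rintro _ ⟨⟨o, ho⟩, rfl⟩
    rcases o with _ | s'
    · exact h0'
    · obtain ⟨bb, hbb⟩ := syz_scale n a D θ Z x hU c hc s'
      change syz n a D θ Z x s' ∈ W.map (phi c)
      rw [hbb]
      exact add_mem (Submodule.smul_mem _ _ (Submodule.mem_map_of_mem
        (Submodule.subset_span ⟨⟨some s', ho⟩, rfl⟩))) (Submodule.smul_mem _ _ h0')
  obtain ⟨bb, hbb⟩ := syz_scale n a D θ Z x hU c hc s
  have h2 := h1 (hbsp s)
  have h3 : c • phi c (syz n a D θ Z (fun l => x l / c) s) ∈ W.map (phi c) := by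
    have h4 := sub_mem h2 (Submodule.smul_mem _ bb h0')
    rwa [hbb, add_sub_cancel_right] at h4
  have h5 : phi c (syz n a D θ Z (fun l => x l / c) s) ∈ W.map (phi c) := by
    have h6 := Submodule.smul_mem _ c⁻¹ h3
    rwa [smul_smul, inv_mul_cancel₀ hc, one_smul] at h6
  obtain ⟨y, hy, hy2⟩ := h5
  rw [← phi_inj hc hy2]
  exact hy

/-- the column indexed by `t` -/
private def colK (n : ι → ℕ) (a : (i : ι) → Sym σ (n i + 1) → E)
    (D : Ix σ (fun i => n i + 1) → Derivation ℤ E E)
    (θ : Tt → Ix σ (fun i => n i + 1) → E) (Z : Finset ι)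
    (b : Set (Option (Σ i : ι, Sym σ (n i) × σ × σ))) (x : σ → E) (j : σ) :
    (b ⊕ ι) → (σ ⊕ ι) ⊕ Tt → E :=
  Sum.elim (fun o : b => colF n a D θ Z x (o : Option _)) (colR n a D θ Z x j)

private def rkK {S : Type*} (b : Set (Option S)) : (b ⊕ ι) → ℕ :=
  Sum.elim (fun o : b => (o : Option S).elim 0 fun _ => 1) fun _ => 2

private def gK (n : ι → ℕ) {S : Type*} (b : Set (Option S)) (c : E) : (b ⊕ ι) → E :=
  Sum.elim (fun o : b => (o : Option S).elim 1 fun _ => c) fun i => (c ^ (n i + 1))⁻¹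

private theorem exists_T [Fintype ι] (b : Set (Option (Σ i : ι, Sym σ (n i) × σ × σ)))
    [Fintype b] [DecidableEq (b ⊕ ι)] (hb0 : none ∈ b)
    (hbsp : ∀ s, syz n a D θ Z x s ∈
      Submodule.span E (Set.range fun o : b => colF n a D θ Z x (o : Option _)))
    (hU : ∀ i ∉ Z, form (a i) x ≠ 0) (i₀ : σ) (hx : x i₀ = 1) (j₀ : σ) (hj : x j₀ ≠ 0)
    (t : b ⊕ ι) :
    ∃ τ : (b ⊕ ι) → E,
      colK n a D θ Z b x i₀ t =
        ∑ t', τ t' • phi (x j₀) (colK n a D θ Z b (fun l => x l / x j₀) j₀ t') ∧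
      τ t = gK n b (x j₀) t ∧ ∀ t', t' ≠ t → rkK b t ≤ rkK b t' → τ t' = 0 := by
  set c := x j₀ with hc
  set xt : σ → E := fun l => x l / c with hxt
  set N : b ⊕ ι := Sum.inl ⟨none, hb0⟩ with hN
  have hN1 : phi c (colK n a D θ Z b xt j₀ N) = eul n Z x := (eul_scale n Z x c hj).symm
  rcases t with ⟨o, ho⟩ | i
  · rcases o with _ | s
    · refine ⟨Pi.single N 1, ?_, ?_, ?_⟩
      · rw [sum_single_smul, one_smul, hN1]
        rfl
      · rw [← hN, Pi.single_eq_same]
        rfl
      · intro t' ht _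
        rw [Pi.single_eq_of_ne ht]
    · obtain ⟨bb, hbb⟩ := syz_scale n a D θ Z x hU c hj s
      have hne : (Sum.inl ⟨some s, ho⟩ : b ⊕ ι) ≠ N := by
        intro h
        have h1 := congrArg Subtype.val (Sum.inl_injective h)
        cases h1
      refine ⟨Pi.single (Sum.inl ⟨some s, ho⟩) c + Pi.single N bb, ?_, ?_, ?_⟩
      · simp only [Pi.add_apply, add_smul, Finset.sum_add_distrib, sum_single_smul]
        rw [hN1]
        exact hbb
      · rw [Pi.add_apply, Pi.single_eq_same, Pi.single_eq_of_ne hne, add_zero]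
        rfl
      · intro t' ht hrk
        have h1 : t' ≠ N := by
          intro h
          rw [h] at hrk
          change 1 ≤ 0 at hrk
          omega
        rw [Pi.add_apply, Pi.single_eq_of_ne ht, Pi.single_eq_of_ne h1, add_zero]
  · have h1 := cv_sub_mem n a D θ Z xt j₀ i (Sym.replicate (n i + 1) i₀)
    have hxj : xt j₀ = 1 := div_self hj
    rw [hxj, one_pow, one_smul, mon_rep] at h1
    have h2 : Submodule.span E (Set.range (syz n a D θ Z xt)) ≤
        Submodule.span E (Set.range fun o : b => colF n a D θ Z xt (o : Option _)) := by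
      rw [Submodule.span_le]
      rintro _ ⟨s, rfl⟩
      exact span_tilde b hb0 hbsp hU hj s
    obtain ⟨cf, hcf⟩ := (Submodule.mem_span_range_iff_exists_fun E).1 (h2 h1)
    have hxi : xt i₀ ^ (n i + 1) = (c ^ (n i + 1))⁻¹ := by
      rw [hxt]
      simp only
      rw [hx, one_div, inv_pow]
    rw [hxi] at hcf
    have h3 : cv n a D θ Z xt ⟨i, Sym.replicate (n i + 1) i₀⟩ =
        (c ^ (n i + 1))⁻¹ • colK n a D θ Z b xt j₀ (Sum.inr i) +
          ∑ o : b, cf o • colK n a D θ Z b xt j₀ (Sum.inl o) := by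
      have h4 : ∑ o : b, cf o • colK n a D θ Z b xt j₀ (Sum.inl o) =
          cv n a D θ Z xt ⟨i, Sym.replicate (n i + 1) i₀⟩ -
            (c ^ (n i + 1))⁻¹ • cv n a D θ Z xt ⟨i, Sym.replicate (n i + 1) j₀⟩ := hcf
      rw [h4]
      change _ = (c ^ (n i + 1))⁻¹ • cv n a D θ Z xt ⟨i, Sym.replicate (n i + 1) j₀⟩ + _
      abel
    set bb := D ⟨i, Sym.replicate (n i + 1) i₀⟩ c / c with hbb
    have h5 : colK n a D θ Z b x i₀ (Sum.inr i) =
        (c ^ (n i + 1))⁻¹ • phi c (colK n a D θ Z b xt j₀ (Sum.inr i)) +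
          ∑ o : b, cf o • phi c (colK n a D θ Z b xt j₀ (Sum.inl o)) +
            bb • phi c (colK n a D θ Z b xt j₀ N) := by
      rw [hN1]
      have h6 := cv_scale n a D θ Z x hU c hj ⟨i, Sym.replicate (n i + 1) i₀⟩
      rw [h3, map_add, map_smul, map_sum] at h6
      simp only [map_smul] at h6
      exact h6
    have hNr : (Sum.inr i : b ⊕ ι) ≠ N := Sum.inr_ne_inl
    refine ⟨Pi.single (Sum.inr i) (c ^ (n i + 1))⁻¹ + Sum.elim cf 0 + Pi.single N bb, ?_, ?_, ?_⟩
    · simp only [Pi.add_apply, add_smul, Finset.sum_add_distrib, sum_single_smul]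
      rw [h5]
      congr 2
      rw [Fintype.sum_sum_type]
      simp
    · rw [Pi.add_apply, Pi.add_apply, Pi.single_eq_same, Pi.single_eq_of_ne hNr, add_zero]
      simp [gK]
    · intro t' ht hrk
      rcases t' with o | i'
      · exfalso
        rcases o with ⟨_ | s, ho⟩
        · change 2 ≤ 0 at hrk
          omega
        · change 2 ≤ 1 at hrk
          omega
      · have h7 : (Sum.inr i' : b ⊕ ι) ≠ N := Sum.inr_ne_inl
        rw [Pi.add_apply, Pi.add_apply, Pi.single_eq_of_ne ht, Pi.single_eq_of_ne h7]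
        simp

/-- the weights of the rows -/
private def wt (u : ι → E) (e : ι → ℕ) (c : E) : (σ ⊕ ι) ⊕ Tt → E :=
  Sum.elim (Sum.elim (fun _ => 1) fun i => u i / c ^ e i) fun _ => 1

private theorem entry_mem (b : Set (Option (Σ i : ι, Sym σ (n i) × σ × σ)))
    (u : ι → E) (e : ι → ℕ) (c : E) (j₀ : σ) (O : ValuationSubring E) (Δ : E)
    (xt : σ → E) (hxt : ∀ l, xt l ∈ O) (hD : Bdd D Δ O) (hθ : ∀ j s, Δ * θ j s ∈ O)
    (r : (σ ⊕ ι) ⊕ Tt)
    (hr : ∀ i, r = Sum.inl (Sum.inr i) → i ∉ Z ∧ Δ * (u i / c ^ e i) ∈ O ∧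
      ∀ p, Δ * (u i / c ^ e i * (D p (form (a i) xt) / form (a i) xt)) ∈ O) (t : b ⊕ ι) :
    Δ * (wt u e c r * colK n a D θ Z b xt j₀ t r) ∈ O := by
  have h1 : Δ * (wt u e c r * eul n Z xt r) ∈ O := by
    rcases r with (l | i) | j
    · simp only [wt, eul, Sum.elim_inl, one_mul]
      exact mul_mem hD.1 (hxt l)
    · obtain ⟨h2, h3, _⟩ := hr i rfl
      simp only [wt, eul, Sum.elim_inl, Sum.elim_inr, if_neg h2]
      rw [← mul_assoc]
      exact mul_mem h3 (natCast_mem O _)
    · simp only [wt, eul, Sum.elim_inr, mul_zero]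
      exact zero_mem O
  have h2 : ∀ p, Δ * (wt u e c r * cv n a D θ Z xt p r) ∈ O := by
    intro p
    rcases r with (l | i) | j
    · simp only [wt, cv, Sum.elim_inl, one_mul]
      exact hD.2 p _ (hxt l)
    · obtain ⟨h2, _, h3⟩ := hr i rfl
      simp only [wt, cv, Sum.elim_inl, Sum.elim_inr, if_neg h2]
      exact h3 p
    · simp only [wt, cv, Sum.elim_inr, one_mul]
      exact hθ j p
  rcases t with ⟨o, ho⟩ | i
  · rcases o with _ | s
    · exact h1
    · have h3 : colK n a D θ Z b xt j₀ (Sum.inl ⟨some s, ho⟩) r =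
          xt s.2.2.1 * cv n a D θ Z xt ⟨s.1, s.2.2.2 ::ₛ s.2.1⟩ r -
            xt s.2.2.2 * cv n a D θ Z xt ⟨s.1, s.2.2.1 ::ₛ s.2.1⟩ r := rfl
      have h4 := sub_mem (mul_mem (hxt s.2.2.1) (h2 ⟨s.1, s.2.2.2 ::ₛ s.2.1⟩))
        (mul_mem (hxt s.2.2.2) (h2 ⟨s.1, s.2.2.1 ::ₛ s.2.1⟩))
      rw [h3]
      have h5 : Δ * (wt u e c r * (xt s.2.2.1 * cv n a D θ Z xt ⟨s.1, s.2.2.2 ::ₛ s.2.1⟩ r -
            xt s.2.2.2 * cv n a D θ Z xt ⟨s.1, s.2.2.1 ::ₛ s.2.1⟩ r)) =
          xt s.2.2.1 * (Δ * (wt u e c r * cv n a D θ Z xt ⟨s.1, s.2.2.2 ::ₛ s.2.1⟩ r)) -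
            xt s.2.2.2 * (Δ * (wt u e c r * cv n a D θ Z xt ⟨s.1, s.2.2.1 ::ₛ s.2.1⟩ r)) := by
        ring
      rw [h5]
      exact h4
  · exact h2 _

/-- the columns are linearly independent -/
private theorem li_K [Fintype ι] [Fintype Tt] (jj : Tt → Ix σ (fun i => n i + 1))
    (hD : Dual (fun i => n i + 1) a D jj θ)
    (hZ : ∀ i ∈ Z, form (a i) x = 0) (hU : ∀ i ∉ Z, form (a i) x ≠ 0)
    (b : Set (Option (Σ i : ι, Sym σ (n i) × σ × σ)))
    (hbli : LinearIndependent E fun o : b => colF n a D θ Z x (o : Option _))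
    (i₀ : σ) (hx : x i₀ = 1) : LinearIndependent E (colK n a D θ Z b x i₀) := by
  obtain ⟨lam, hl1, hl2, hl3⟩ := exists_functional n a D jj θ hD Z x hZ hU
  have hlF : ∀ o : b, lam (colF n a D θ Z x (o : Option _)) = 0 := by
    rintro ⟨o, ho⟩
    rcases o with _ | s
    · exact hl1
    · exact hl3 s
  have hlR : ∀ i, lam (colR n a D θ Z x i₀ i) = Pi.single i (-1) := by
    intro i
    rw [colR, hl2, mon_rep, hx, one_pow]
  have key1 : ∀ f : ι → E, lam (∑ i, f i • colR n a D θ Z x i₀ i) = -f := by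
    intro f
    rw [map_sum]
    simp only [map_smul, hlR]
    funext i
    rw [Finset.sum_apply, Finset.sum_eq_single i]
    · simp
    · intro i' _ h
      rw [Pi.smul_apply, Pi.single_eq_of_ne h.symm, smul_zero]
    · intro h
      exact absurd (Finset.mem_univ i) h
  have hRli : LinearIndependent E (colR n a D θ Z x i₀) := by
    rw [Fintype.linearIndependent_iff]
    intro f hf i
    have h1 := key1 f
    rw [hf, map_zero] at h1
    have h2 := congrFun h1 i
    rw [Pi.zero_apply, Pi.neg_apply] at h2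
    exact neg_eq_zero.1 h2.symm
  refine LinearIndependent.sum_type hbli hRli ?_
  rw [Submodule.disjoint_def]
  intro z hz1 hz2
  have h1 : lam z = 0 := by
    have h2 : Submodule.span E (Set.range fun o : b => colF n a D θ Z x (o : Option _)) ≤
        LinearMap.ker lam := by
      rw [Submodule.span_le]
      rintro _ ⟨o, rfl⟩
      exact hlF o
    exact h2 hz1
  obtain ⟨f, hf⟩ := (Submodule.mem_span_range_iff_exists_fun E).1 hz2
  have h2 := key1 f
  rw [hf, h1] at h2
  have h3 : f = 0 := neg_eq_zero.1 h2.symm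
  rw [← hf, h3]
  simp

/-- the `x`-rows of the columns are combinations of `x` and the `D_p x` -/
private theorem colK_span [Fintype ι] (b : Set (Option (Σ i : ι, Sym σ (n i) × σ × σ)))
    (i₀ : σ) (t : b ⊕ ι) : (fun l => colK n a D θ Z b x i₀ t (Sum.inl (Sum.inl l))) ∈
      Submodule.span E (Set.range (col D x)) := by
  have h1 : ∀ q, col D x q ∈ Submodule.span E (Set.range (col D x)) :=
    fun q => Submodule.subset_span ⟨q, rfl⟩
  rcases t with ⟨o, ho⟩ | i
  · rcases o with _ | s
    · exact h1 none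
    · exact sub_mem (Submodule.smul_mem _ (x s.2.2.1) (h1 (some ⟨s.1, s.2.2.2 ::ₛ s.2.1⟩)))
        (Submodule.smul_mem _ (x s.2.2.2) (h1 (some ⟨s.1, s.2.2.1 ::ₛ s.2.1⟩)))
  · exact h1 (some ⟨i, Sym.replicate (n i + 1) i₀⟩)

private theorem colK_zero (b : Set (Option (Σ i : ι, Sym σ (n i) × σ × σ)))
    (i₀ : σ) (t : b ⊕ ι) {i : ι} (hi : i ∈ Z) : colK n a D θ Z b x i₀ t (Sum.inl (Sum.inr i)) = 0 := by
  rcases t with ⟨o, ho⟩ | i'
  · rcases o with _ | s
    · exact eul_row (Tt := Tt) n Z x hi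
    · exact syz_row n a D θ Z x s hi
  · exact cv_row n a D θ Z x _ hi

omit [DecidableEq ι] in
private theorem prod_gK [Fintype ι] {S : Type*} (b : Set (Option S)) [Fintype b]
    (hb0 : none ∈ b) (c : E) (hc : c ≠ 0) :
    (∏ t, gK n b c t) * (c * c ^ ∑ i, (n i + 1)) = c ^ Fintype.card b := by
  classical
  rw [Fintype.prod_sum_type]
  have h1 : ∏ i : ι, gK n b c (Sum.inr i) = (c ^ ∑ i, (n i + 1))⁻¹ := by
    rw [← Finset.prod_pow_eq_pow_sum, ← Finset.prod_inv_distrib]
    rfl
  have h2 : (∏ o : b, gK n b c (Sum.inl o)) * c = c ^ Fintype.card b := by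
    rw [← Finset.mul_prod_erase Finset.univ _ (Finset.mem_univ (⟨none, hb0⟩ : b))]
    have h3 : gK n b c (Sum.inl ⟨none, hb0⟩) = 1 := rfl
    rw [h3, one_mul, Finset.prod_congr rfl (g := fun _ => c)]
    · rw [Finset.prod_const, Finset.card_erase_of_mem (Finset.mem_univ _), Finset.card_univ,
        ← pow_succ]
      congr 1
      have h5 : 0 < Fintype.card b := Fintype.card_pos_iff.2 ⟨⟨none, hb0⟩⟩
      exact Nat.sub_add_cancel h5
    · rintro ⟨o, ho⟩ h
      rcases o with _ | s
      · exact absurd rfl (Finset.ne_of_mem_erase h)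
      · rfl
  rw [h1]
  have h4 : c ^ ∑ i, (n i + 1) ≠ 0 := pow_ne_zero _ hc
  calc (∏ o : b, gK n b c (Sum.inl o)) * (c ^ ∑ i, (n i + 1))⁻¹ * (c * c ^ ∑ i, (n i + 1))
      = ((∏ o : b, gK n b c (Sum.inl o)) * c) * ((c ^ ∑ i, (n i + 1))⁻¹ * c ^ ∑ i, (n i + 1)) := by
        ring
    _ = c ^ Fintype.card b := by rw [inv_mul_cancel₀ h4, mul_one, h2]

end

private theorem key_aux {E : Type*} [Field E] {σ ι Tt : Type*} [Fintype σ] [DecidableEq σ]
    [Fintype ι] [DecidableEq ι] [Fintype Tt] (n e : ι → ℕ)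
    (a : (i : ι) → Sym σ (n i + 1) → E)
    (D : Ix σ (fun i => n i + 1) → Derivation ℤ E E)
    (jj : Tt → Ix σ (fun i => n i + 1)) (θ : Tt → Ix σ (fun i => n i + 1) → E)
    (hD : Dual (fun i => n i + 1) a D jj θ)
    (Z : Finset ι) (x : σ → E) (i₀ : σ) (hx : x i₀ = 1)
    (hZ : ∀ i ∈ Z, form (a i) x = 0) (hU : ∀ i ∉ Z, form (a i) x ≠ 0)
    (u : ι → E) (hu : ∀ i ∉ Z, u i ≠ 0)
    (w : ℕ) (hw : 2 * w + 2 + Fintype.card Tt + ∑ i, e i ≤ ∑ i, (n i + 1) + Z.card)
    (hm : MinorsVanish D x w) :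
    ∃ G : E, G ≠ 0 ∧ KeyG (fun i => n i + 1) e a D θ Z u x G := by
  classical
  have heul : (eul n Z x : (σ ⊕ ι) ⊕ Tt → E) ≠ 0 := by
    intro h
    have h1 := congrFun h (Sum.inl (Sum.inl i₀))
    simp only [eul, Sum.elim_inl, Pi.zero_apply, hx] at h1
    exact one_ne_zero h1
  obtain ⟨b, hb0, hbli, hbsp⟩ := Helper74.LG.exists_basis_part (E := E) (eul n Z x) heul
    (syz n a D θ Z x)
  have : Fintype b := Fintype.ofFinite b
  have hK := li_K jj hD hZ hU b hbli i₀ hx
  obtain ⟨r, hrinj, hrdet⟩ := exists_minor _ hK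
  have hrZ : ∀ s i, r s = Sum.inl (Sum.inr i) → i ∉ Z := by
    intro s i hs hi
    apply hrdet
    refine Matrix.det_eq_zero_of_row_eq_zero s fun t => ?_
    rw [Matrix.of_apply, hs]
    exact colK_zero b i₀ t hi
  set uw : (σ ⊕ ι) ⊕ Tt → E := Sum.elim (Sum.elim (fun _ => 1) u) (fun _ => 1) with huw
  set ee : (σ ⊕ ι) ⊕ Tt → ℕ := Sum.elim (Sum.elim (fun _ => 0) e) (fun _ => 0) with hee
  set isx : (σ ⊕ ι) ⊕ Tt → Bool :=
    Sum.elim (Sum.elim (fun _ => true) (fun _ => false)) (fun _ => false) with hisx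
  -- counting
  set lft : Finset (b ⊕ ι) := Finset.univ.filter fun s => isx (r s) = true with hlft
  set rgt : Finset (b ⊕ ι) := Finset.univ.filter fun s => ¬ isx (r s) = true with hrgt
  have hn' : lft.card ≤ w + 1 := by
    refine left_rows_le (col D x) w hm (fun t l => colK n a D θ Z b x i₀ t (Sum.inl (Sum.inl l)))
      (colK_span b i₀) _ hrdet lft
      (fun s => Sum.elim (Sum.elim id (fun _ => i₀)) (fun _ => i₀) (r s)) ?_
    intro s hs t
    rw [hlft, Finset.mem_filter] at hs
    rcases h : r s with (l | i) | j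
    · simp [h]
    · rw [h] at hs
      simp [hisx] at hs
    · rw [h] at hs
      simp [hisx] at hs
  have hq' : rgt.card + Z.card ≤ Fintype.card ι + Fintype.card Tt := by
    have h1 : rgt.image r ⊆ ((Finset.univ \ Z).map ⟨fun i => Sum.inl (Sum.inr i),
          Sum.inl_injective.comp Sum.inr_injective⟩) ∪
        (Finset.univ : Finset Tt).map ⟨Sum.inr, Sum.inr_injective⟩ := by
      intro y hy
      rw [Finset.mem_image] at hy
      obtain ⟨s, hs, rfl⟩ := hy
      rw [hrgt, Finset.mem_filter] at hs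
      rw [Finset.mem_union]
      rcases h : r s with (l | i) | j
      · rw [h] at hs
        simp [hisx] at hs
      · left
        rw [Finset.mem_map]
        exact ⟨i, Finset.mem_sdiff.2 ⟨Finset.mem_univ i, hrZ s i h⟩, rfl⟩
      · right
        rw [Finset.mem_map]
        exact ⟨j, Finset.mem_univ j, rfl⟩
    have h2 := (Finset.card_le_card h1).trans (Finset.card_union_le _ _)
    rw [Finset.card_image_of_injective _ hrinj, Finset.card_map, Finset.card_map,
      Finset.card_sdiff_of_subset (Finset.subset_univ Z), Finset.card_univ,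
      Finset.card_univ] at h2
    have h3 : Z.card ≤ Fintype.card ι := Finset.card_le_univ Z
    omega
  have hcard : Fintype.card b + Fintype.card ι = lft.card + rgt.card := by
    rw [← Fintype.card_sum, ← Finset.card_univ (α := b ⊕ ι)]
    exact (Finset.card_filter_add_card_filter_not _).symm
  have hesum : ∑ s, ee (r s) ≤ ∑ i, e i := by
    calc ∑ s, ee (r s) = ∑ y ∈ Finset.univ.image r, ee y :=
          (Finset.sum_image fun _ _ _ _ h => hrinj h).symm
      _ ≤ ∑ y, ee y := Finset.sum_le_sum_of_subset (Finset.subset_univ _)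
      _ = ∑ i, e i := by
          rw [Fintype.sum_sum_type, Fintype.sum_sum_type]
          simp [hee]
  obtain ⟨m, hmP⟩ : ∃ m, 1 + ∑ i, (n i + 1) = (∑ s, ee (r s) + lft.card + Fintype.card b) + 1 + m :=
    Nat.exists_eq_add_of_le (by omega)
  obtain ⟨k', hk'⟩ : ∃ k', Fintype.card σ + Fintype.card ι + Fintype.card Tt =
      Fintype.card (b ⊕ ι) + k' := by
    apply Nat.exists_eq_add_of_le
    rw [← Fintype.card_sum, ← Fintype.card_sum]
    exact Fintype.card_le_of_injective r hrinj
  refine ⟨Matrix.det (Matrix.of fun s t => uw (r s) * colK n a D θ Z b x i₀ t (r s)), ?_, ?_⟩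
  · have h1 := Matrix.det_mul_column (fun s => uw (r s))
      (Matrix.of fun s t => colK n a D θ Z b x i₀ t (r s))
    simp only [Matrix.of_apply] at h1
    rw [h1]
    refine mul_ne_zero (Finset.prod_ne_zero_iff.2 fun s _ => ?_) hrdet
    rcases h : r s with (l | i) | j
    · rw [huw]
      simp
    · rw [huw]
      simpa using hu i (hrZ s i h)
    · rw [huw]
      simp
  · intro O Δ hO hθ hrow l
    obtain ⟨j₀, hj, hjO⟩ := Helper74.LG.exists_max_coord O x i₀ (by
      rw [hx]
      exact one_ne_zero)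
    set c := x j₀ with hc
    have hci : c⁻¹ ∈ O := by
      have h1 := hjO i₀
      rwa [hx, one_div] at h1
    choose τ hτ1 hτ2 hτ3 using exists_T b hb0 hbsp hU i₀ hx j₀ hj
    set Kt := colK n a D θ Z b (fun l => x l / x j₀) j₀ with hKt
    set rf : (σ ⊕ ι) ⊕ Tt → E := Sum.elim (Sum.elim (fun _ => c) (fun _ => 1)) (fun _ => 1)
      with hrf
    set N : Matrix (b ⊕ ι) (b ⊕ ι) E := Matrix.of fun s t => wt u e c (r s) * Kt t (r s) with hN
    set T : Matrix (b ⊕ ι) (b ⊕ ι) E := Matrix.of fun t' t => τ t t' with hT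
    have hTdet : T.det = ∏ t, gK n b c t :=
      Helper74.LG.det_tri T (rkK b) _ (fun t => hτ2 t) fun t' t h1 h2 => hτ3 t t' h1 h2
    have hdecomp : ∀ s, uw s = c ^ ee s * wt u e c s := by
      rintro ((s | i) | j)
      · simp [huw, hee, wt]
      · have h1 : c ^ e i ≠ 0 := pow_ne_zero _ hj
        simp only [huw, hee, wt, Sum.elim_inl, Sum.elim_inr]
        field_simp
      · simp [huw, hee, wt]
    have hmat : (Matrix.of fun s t => uw (r s) * colK n a D θ Z b x i₀ t (r s)) =
        (Matrix.of fun s t' => (c ^ ee (r s) * rf (r s)) * N s t') * T := by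
      ext s t
      rw [Matrix.mul_apply, Matrix.of_apply, hτ1 t, Finset.sum_apply, Finset.mul_sum]
      refine Finset.sum_congr rfl fun t' _ => ?_
      rw [Pi.smul_apply, smul_eq_mul, phi_apply, hdecomp]
      simp only [hN, hT, Matrix.of_apply]
      change _ * (_ * (rf (r s) * Kt t' (r s))) = _
      ring
    have hdet : Matrix.det (Matrix.of fun s t => uw (r s) * colK n a D θ Z b x i₀ t (r s)) *
        (c * c ^ ∑ i, (n i + 1)) =
        c ^ (∑ s, ee (r s) + lft.card + Fintype.card b) * N.det := by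
      rw [hmat, Matrix.det_mul, Matrix.det_mul_column, hTdet, mul_assoc, prod_gK b hb0 c hj,
        Finset.prod_mul_distrib, Finset.prod_pow_eq_pow_sum]
      have h1 : ∏ s, rf (r s) = c ^ lft.card := by
        rw [hlft, ← Finset.prod_const, Finset.prod_filter]
        refine Finset.prod_congr rfl fun s _ => ?_
        rcases h : r s with (l | i) | j <;> simp [hrf, hisx]
      rw [h1]
      ring
    set G := Matrix.det (Matrix.of fun s t => uw (r s) * colK n a D θ Z b x i₀ t (r s)) with hG
    have hG2 : G * c ^ (m + 1) = N.det := by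
      have h1 : c * c ^ ∑ i, (n i + 1) =
          c ^ (∑ s, ee (r s) + lft.card + Fintype.card b) * c ^ (m + 1) := by
        rw [← pow_succ', ← pow_add]
        congr 1
        omega
      rw [h1] at hdet
      have h2 : c ^ (∑ s, ee (r s) + lft.card + Fintype.card b) ≠ 0 := pow_ne_zero _ hj
      apply mul_left_cancel₀ h2
      rw [← hdet]
      ring
    have hNdet : Δ ^ Fintype.card (b ⊕ ι) * N.det ∈ O := by
      rw [← Matrix.det_smul]
      refine Helper74.LG.det_mem O.toSubring _ fun s t => ?_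
      rw [Matrix.smul_apply, smul_eq_mul]
      refine entry_mem (D := D) b u e c j₀ O Δ _ hjO hO hθ (r s) (fun i hi => ?_) t
      obtain ⟨h1, h2⟩ := hrow i (hrZ s i hi) j₀ hj hjO
      exact ⟨hrZ s i hi, h1, h2⟩
    have hfin : Δ ^ (Fintype.card σ + Fintype.card ι + Fintype.card Tt) * (G * x l) =
        Δ ^ k' * (c⁻¹ ^ m * (x l / c)) * (Δ ^ Fintype.card (b ⊕ ι) * N.det) := by
      have h1 : c⁻¹ ^ m * c ^ (m + 1) = c := by
        rw [pow_succ, ← mul_assoc, ← mul_pow, inv_mul_cancel₀ hj, one_pow, one_mul]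
      have h2 : x l / c * c = x l := div_mul_cancel₀ _ hj
      rw [hk', pow_add, ← hG2]
      calc Δ ^ Fintype.card (b ⊕ ι) * Δ ^ k' * (G * x l)
          = Δ ^ Fintype.card (b ⊕ ι) * Δ ^ k' * (G * (x l / c * (c⁻¹ ^ m * c ^ (m + 1)))) := by
            rw [h1, h2]
        _ = _ := by ring
    rw [hfin]
    exact mul_mem (mul_mem (pow_mem hO.1 _) (mul_mem (pow_mem hci _) (hjO l))) hNdet

theorem key {E : Type*} [Field E] {σ ι τ : Type*} [Fintype σ] [DecidableEq σ] [Fintype ι]
    [DecidableEq ι] [Fintype τ] (d e : ι → ℕ) (hd : ∀ i, 0 < d i)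
    (a : (i : ι) → Sym σ (d i) → E) (D : Ix σ d → Derivation ℤ E E)
    (jj : τ → Ix σ d) (θ : τ → Ix σ d → E) (hD : Dual d a D jj θ)
    (Z : Finset ι) (x : σ → E) (i₀ : σ) (hx : x i₀ = 1)
    (hZ : ∀ i ∈ Z, form (a i) x = 0) (hU : ∀ i ∉ Z, form (a i) x ≠ 0)
    (u : ι → E) (hu : ∀ i ∉ Z, u i ≠ 0)
    (w : ℕ) (hw : 2 * w + 2 + Fintype.card τ + ∑ i, e i ≤ ∑ i, d i + Z.card)
    (hm : MinorsVanish D x w) :
    ∃ G : E, G ≠ 0 ∧ KeyG d e a D θ Z u x G := by
  obtain ⟨n, rfl⟩ : ∃ n : ι → ℕ, d = fun i => n i + 1 :=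
    ⟨fun i => d i - 1, funext fun i => (Nat.sub_add_cancel (hd i)).symm⟩
  exact key_aux n e a D jj θ hD Z x i₀ hx hZ hU u hu w hw hm

end Pool.Agent.Helper8.LG
end

/- Helper74.LG.KeyAbs -/
section
/-!
# The linear algebra of LG-KEY in abstract form

Rows `σ ⊕ ρ` (the `x`-rows and the other rows), columns `eul`, `syz s`, `cvr i`.
-/

set_option autoImplicit false

namespace Pool.Agent.Helper74.LG

open scoped BigOperators
open Pool.Agent.Helper8.LG (exists_minor)

/-- multiplication of the `x`-rows by `c` -/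
def scl {E σ ρ : Type*} [Field E] (c : E) : (σ ⊕ ρ → E) →ₗ[E] (σ ⊕ ρ → E) :=
  LinearMap.pi fun r => (Sum.elim (fun _ => c) (fun _ => 1) r : E) • LinearMap.proj r

theorem scl_apply {E σ ρ : Type*} [Field E] (c : E) (f : σ ⊕ ρ → E) (r : σ ⊕ ρ) :
    scl c f r = (Sum.elim (fun _ => c) (fun _ => 1) r : E) * f r := rfl

theorem scl_inj {E σ ρ : Type*} [Field E] {c : E} (hc : c ≠ 0) :
    Function.Injective (scl (σ := σ) (ρ := ρ) c) := by
  intro f g h
  funext r
  have h1 := congrFun h r
  rw [scl_apply, scl_apply] at h1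
  rcases r with l | i
  · exact mul_left_cancel₀ hc h1
  · simpa using h1

theorem left_rows_le {E σ κ Q : Type*} [Field E] [Fintype κ] [DecidableEq κ] [Fintype Q]
    (C : Q → σ → E) (w : ℕ)
    (hm : ∀ (r : Fin (w + 2) → σ) (c : Fin (w + 2) → Q),
      Matrix.det (Matrix.of fun s t => C (c t) (r s)) = 0)
    (K : κ → σ → E) (hK : ∀ t, K t ∈ Submodule.span E (Set.range C)) (M : Matrix κ κ E)
    (hM : M.det ≠ 0) (S : Finset κ) (ρ : κ → σ) (hS : ∀ s ∈ S, ∀ t, M s t = K t (ρ s)) :
    S.card ≤ w + 1 := by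
  by_contra hcon
  have hcard : w + 2 ≤ S.card := by omega
  let f : Fin (w + 2) → κ := fun i => (S.equivFin.symm (Fin.castLE hcard i) : S)
  have hf : Function.Injective f := by
    intro i j hij
    have h1 := S.equivFin.symm.injective (Subtype.ext hij)
    exact Fin.castLE_injective hcard h1
  have hfS : ∀ i, f i ∈ S := fun i => (S.equivFin.symm (Fin.castLE hcard i)).2
  have hlin : LinearIndependent E fun i : Fin (w + 2) => fun q : Q => C q (ρ (f i)) := by
    rw [Fintype.linearIndependent_iff]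
    intro c hc
    have h1 : LinearIndependent E fun i : Fin (w + 2) => M (f i) :=
      (Matrix.linearIndependent_rows_of_det_ne_zero hM).comp f hf
    rw [Fintype.linearIndependent_iff] at h1
    refine h1 c ?_
    funext t
    obtain ⟨T, hT⟩ := (Submodule.mem_span_range_iff_exists_fun E).1 (hK t)
    simp only [Finset.sum_apply, Pi.smul_apply, smul_eq_mul, Pi.zero_apply]
    have h2 : ∀ i, M (f i) t = ∑ q, T q * C q (ρ (f i)) := by
      intro i
      rw [hS _ (hfS i), ← hT]
      simp
    calc ∑ i, c i * M (f i) t = ∑ q, T q * ∑ i, c i * C q (ρ (f i)) := by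
          simp only [h2, Finset.mul_sum]
          rw [Finset.sum_comm]
          exact Finset.sum_congr rfl fun q _ => Finset.sum_congr rfl fun i _ => by ring
      _ = 0 := by
          apply Finset.sum_eq_zero
          intro q _
          have h3 := congrFun hc q
          simp only [Finset.sum_apply, Pi.smul_apply, smul_eq_mul, Pi.zero_apply] at h3
          rw [h3, mul_zero]
  obtain ⟨c, _, hc⟩ := exists_minor _ hlin
  apply hc
  have h4 := hm (fun s => ρ (f s)) c
  rw [← Matrix.det_transpose] at h4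
  exact h4

theorem sum_single_smul {E κ V : Type*} [Semiring E] [AddCommMonoid V] [Module E V]
    [Fintype κ] [DecidableEq κ] (t : κ) (c : E) (v : κ → V) :
    ∑ t', (Pi.single t c : κ → E) t' • v t' = c • v t := by
  rw [Finset.sum_eq_single t]
  · rw [Pi.single_eq_same]
  · intro t' _ h
    rw [Pi.single_eq_of_ne h, zero_smul]
  · intro h
    exact absurd (Finset.mem_univ t) h

section

variable {E : Type*} [Field E] {σ ρ ι S : Type*}

/-- the columns -/
def cols (b : Set (Option S)) (eul : σ ⊕ ρ → E) (syz : S → σ ⊕ ρ → E) (cvr : ι → σ ⊕ ρ → E) :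
    (b ⊕ ι) → σ ⊕ ρ → E :=
  Sum.elim (fun o : b => (o : Option S).elim eul syz) cvr

/-- the rank function of the triangular transformation -/
def rkK (b : Set (Option S)) : (b ⊕ ι) → ℕ :=
  Sum.elim (fun o : b => (o : Option S).elim 0 fun _ => 1) fun _ => 2

/-- its diagonal -/
def gK (d : ι → ℕ) (b : Set (Option S)) (c : E) : (b ⊕ ι) → E :=
  Sum.elim (fun o : b => (o : Option S).elim 1 fun _ => c) fun i => (c ^ d i)⁻¹

/-- The transformation formulas of the columns under `x ↦ x / c`. -/
structure Trans (d : ι → ℕ) (c : E) (eul eul' : σ ⊕ ρ → E) (syz syz' : S → σ ⊕ ρ → E)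
    (cvr cvr' : ι → σ ⊕ ρ → E) : Prop where
  eul_eq : eul = scl c eul'
  syz_eq : ∀ s, ∃ bb : E, syz s = c • scl c (syz' s) + bb • eul
  cvr_eq : ∀ i, ∃ y ∈ Submodule.span E (Set.range syz'), ∃ bb : E,
    cvr i = (c ^ d i)⁻¹ • scl c (cvr' i) + scl c y + bb • eul

theorem span_tilde {d : ι → ℕ} {c : E} {eul eul' : σ ⊕ ρ → E} {syz syz' : S → σ ⊕ ρ → E}
    {cvr cvr' : ι → σ ⊕ ρ → E} (hT : Trans d c eul eul' syz syz' cvr cvr')
    (b : Set (Option S)) (hb0 : none ∈ b)
    (hbsp : ∀ s, syz s ∈ Submodule.span E (Set.range fun o : b => (o : Option S).elim eul syz))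
    (hc : c ≠ 0) (s : S) :
    syz' s ∈ Submodule.span E (Set.range fun o : b => (o : Option S).elim eul' syz') := by
  set W := Submodule.span E (Set.range fun o : b => (o : Option S).elim eul' syz') with hW
  have h0 : eul' ∈ W := Submodule.subset_span ⟨⟨none, hb0⟩, rfl⟩
  have h0' : eul ∈ W.map (scl c) := by
    rw [hT.eul_eq]
    exact Submodule.mem_map_of_mem h0
  have h1 : Submodule.span E (Set.range fun o : b => (o : Option S).elim eul syz) ≤
      W.map (scl c) := by
    rw [Submodule.span_le]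
    rintro _ ⟨⟨o, ho⟩, rfl⟩
    rcases o with _ | s'
    · exact h0'
    · obtain ⟨bb, hbb⟩ := hT.syz_eq s'
      change syz s' ∈ W.map (scl c)
      rw [hbb]
      exact add_mem (Submodule.smul_mem _ _ (Submodule.mem_map_of_mem
        (Submodule.subset_span ⟨⟨some s', ho⟩, rfl⟩))) (Submodule.smul_mem _ _ h0')
  obtain ⟨bb, hbb⟩ := hT.syz_eq s
  have h2 := h1 (hbsp s)
  have h3 : c • scl c (syz' s) ∈ W.map (scl c) := by
    have h4 := sub_mem h2 (Submodule.smul_mem _ bb h0')
    rwa [hbb, add_sub_cancel_right] at h4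
  have h5 : scl c (syz' s) ∈ W.map (scl c) := by
    have h6 := Submodule.smul_mem _ c⁻¹ h3
    rwa [smul_smul, inv_mul_cancel₀ hc, one_smul] at h6
  obtain ⟨y, hy, hy2⟩ := h5
  rw [← scl_inj hc hy2]
  exact hy

theorem exists_T [Fintype ι] {d : ι → ℕ} {c : E} {eul eul' : σ ⊕ ρ → E}
    {syz syz' : S → σ ⊕ ρ → E} {cvr cvr' : ι → σ ⊕ ρ → E}
    (hT : Trans d c eul eul' syz syz' cvr cvr')
    (b : Set (Option S)) [Fintype b] [DecidableEq (b ⊕ ι)] (hb0 : none ∈ b)
    (hbsp : ∀ s, syz s ∈ Submodule.span E (Set.range fun o : b => (o : Option S).elim eul syz))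
    (hc : c ≠ 0) (t : b ⊕ ι) :
    ∃ τ : (b ⊕ ι) → E,
      cols b eul syz cvr t = ∑ t', τ t' • scl c (cols b eul' syz' cvr' t') ∧
      τ t = gK d b c t ∧ ∀ t', t' ≠ t → rkK b t ≤ rkK b t' → τ t' = 0 := by
  set N : b ⊕ ι := Sum.inl ⟨none, hb0⟩ with hN
  have hN1 : scl c (cols b eul' syz' cvr' N) = eul := hT.eul_eq.symm
  rcases t with ⟨o, ho⟩ | i
  · rcases o with _ | s
    · refine ⟨Pi.single N 1, ?_, ?_, ?_⟩
      · rw [sum_single_smul, one_smul, hN1]
        rfl
      · rw [← hN, Pi.single_eq_same]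
        rfl
      · intro t' ht _
        rw [Pi.single_eq_of_ne ht]
    · obtain ⟨bb, hbb⟩ := hT.syz_eq s
      have hne : (Sum.inl ⟨some s, ho⟩ : b ⊕ ι) ≠ N := by
        intro h
        have h1 := congrArg Subtype.val (Sum.inl_injective h)
        cases h1
      refine ⟨Pi.single (Sum.inl ⟨some s, ho⟩) c + Pi.single N bb, ?_, ?_, ?_⟩
      · simp only [Pi.add_apply, add_smul, Finset.sum_add_distrib, sum_single_smul]
        rw [hN1]
        exact hbb
      · rw [Pi.add_apply, Pi.single_eq_same, Pi.single_eq_of_ne hne, add_zero]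
        rfl
      · intro t' ht hrk
        have h1 : t' ≠ N := by
          intro h
          rw [h] at hrk
          change 1 ≤ 0 at hrk
          omega
        rw [Pi.add_apply, Pi.single_eq_of_ne ht, Pi.single_eq_of_ne h1, add_zero]
  · obtain ⟨y, hy, bb, hbb⟩ := hT.cvr_eq i
    have h2 : Submodule.span E (Set.range syz') ≤
        Submodule.span E (Set.range fun o : b => (o : Option S).elim eul' syz') := by
      rw [Submodule.span_le]
      rintro _ ⟨s, rfl⟩
      exact span_tilde hT b hb0 hbsp hc s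
    obtain ⟨cf, hcf⟩ := (Submodule.mem_span_range_iff_exists_fun E).1 (h2 hy)
    have h5 : cols b eul syz cvr (Sum.inr i) =
        (c ^ d i)⁻¹ • scl c (cols b eul' syz' cvr' (Sum.inr i)) +
          ∑ o : b, cf o • scl c (cols b eul' syz' cvr' (Sum.inl o)) +
            bb • scl c (cols b eul' syz' cvr' N) := by
      rw [hN1]
      have h6 : scl c y = ∑ o : b, cf o • scl c (cols b eul' syz' cvr' (Sum.inl o)) := by
        rw [← hcf, map_sum]
        simp only [map_smul]
        rfl
      rw [← h6]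
      exact hbb
    have hNr : (Sum.inr i : b ⊕ ι) ≠ N := Sum.inr_ne_inl
    refine ⟨Pi.single (Sum.inr i) (c ^ d i)⁻¹ + Sum.elim cf 0 + Pi.single N bb, ?_, ?_, ?_⟩
    · simp only [Pi.add_apply, add_smul, Finset.sum_add_distrib, sum_single_smul]
      rw [h5]
      congr 2
      rw [Fintype.sum_sum_type]
      simp
    · rw [Pi.add_apply, Pi.add_apply, Pi.single_eq_same, Pi.single_eq_of_ne hNr, add_zero]
      simp [gK]
    · intro t' ht hrk
      rcases t' with o | i'
      · exfalso
        rcases o with ⟨_ | s, ho⟩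
        · change 2 ≤ 0 at hrk
          omega
        · change 2 ≤ 1 at hrk
          omega
      · have h7 : (Sum.inr i' : b ⊕ ι) ≠ N := Sum.inr_ne_inl
        rw [Pi.add_apply, Pi.add_apply, Pi.single_eq_of_ne ht, Pi.single_eq_of_ne h7]
        simp

/-- The columns are linearly independent. -/
theorem li_cols [Fintype ι] [DecidableEq ι] (b : Set (Option S)) (eul : σ ⊕ ρ → E)
    (syz : S → σ ⊕ ρ → E) (cvr : ι → σ ⊕ ρ → E) (lam : (σ ⊕ ρ → E) →ₗ[E] (ι → E))
    (hl1 : lam eul = 0) (hl2 : ∀ s, lam (syz s) = 0) (g : ι → E) (hg : ∀ i, g i ≠ 0)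
    (hl3 : ∀ i, lam (cvr i) = Pi.single i (g i))
    (hbli : LinearIndependent E fun o : b => (o : Option S).elim eul syz) :
    LinearIndependent E (cols b eul syz cvr) := by
  have hlF : ∀ o : b, lam ((o : Option S).elim eul syz) = 0 := by
    rintro ⟨o, ho⟩
    rcases o with _ | s
    · exact hl1
    · exact hl2 s
  have key1 : ∀ (f : ι → E) (i : ι), lam (∑ i, f i • cvr i) i = f i * g i := by
    intro f i
    rw [map_sum]
    simp only [map_smul, hl3]
    rw [Finset.sum_apply, Finset.sum_eq_single i]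
    · simp
    · intro i' _ h
      rw [Pi.smul_apply, Pi.single_eq_of_ne h.symm, smul_zero]
    · intro h
      exact absurd (Finset.mem_univ i) h
  have hRli : LinearIndependent E cvr := by
    rw [Fintype.linearIndependent_iff]
    intro f hf i
    have h1 := key1 f i
    rw [hf, map_zero, Pi.zero_apply] at h1
    rcases mul_eq_zero.1 h1.symm with h | h
    · exact h
    · exact absurd h (hg i)
  refine LinearIndependent.sum_type hbli hRli ?_
  rw [Submodule.disjoint_def]
  intro z hz1 hz2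
  have h1 : lam z = 0 := by
    have h2 : Submodule.span E (Set.range fun o : b => (o : Option S).elim eul syz) ≤
        LinearMap.ker lam := by
      rw [Submodule.span_le]
      rintro _ ⟨o, rfl⟩
      exact hlF o
    exact h2 hz1
  obtain ⟨f, hf⟩ := (Submodule.mem_span_range_iff_exists_fun E).1 hz2
  have h3 : ∀ i, f i = 0 := by
    intro i
    have h2 := key1 f i
    rw [hf, h1, Pi.zero_apply] at h2
    rcases mul_eq_zero.1 h2.symm with h | h
    · exact h
    · exact absurd h (hg i)
  rw [← hf]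
  exact Finset.sum_eq_zero fun i _ => by rw [h3 i, zero_smul]

theorem prod_gK [Fintype ι] (d : ι → ℕ) (b : Set (Option S)) [Fintype b]
    (hb0 : none ∈ b) (c : E) (hc : c ≠ 0) :
    (∏ t, gK d b c t) * (c * c ^ ∑ i, d i) = c ^ Fintype.card b := by
  classical
  rw [Fintype.prod_sum_type]
  have h1 : ∏ i : ι, gK d b c (Sum.inr i) = (c ^ ∑ i, d i)⁻¹ := by
    rw [← Finset.prod_pow_eq_pow_sum, ← Finset.prod_inv_distrib]
    rfl
  have h2 : (∏ o : b, gK d b c (Sum.inl o)) * c = c ^ Fintype.card b := by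
    rw [← Finset.mul_prod_erase Finset.univ _ (Finset.mem_univ (⟨none, hb0⟩ : b))]
    have h3 : gK d b c (Sum.inl ⟨none, hb0⟩) = 1 := rfl
    rw [h3, one_mul, Finset.prod_congr rfl (g := fun _ => c)]
    · rw [Finset.prod_const, Finset.card_erase_of_mem (Finset.mem_univ _), Finset.card_univ,
        ← pow_succ]
      congr 1
      have h5 : 0 < Fintype.card b := Fintype.card_pos_iff.2 ⟨⟨none, hb0⟩⟩
      exact Nat.sub_add_cancel h5
    · rintro ⟨o, ho⟩ h
      rcases o with _ | s
      · exact absurd rfl (Finset.ne_of_mem_erase h)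
      · rfl
  rw [h1]
  have h4 : c ^ ∑ i, d i ≠ 0 := pow_ne_zero _ hc
  calc (∏ o : b, gK d b c (Sum.inl o)) * (c ^ ∑ i, d i)⁻¹ * (c * c ^ ∑ i, d i)
      = ((∏ o : b, gK d b c (Sum.inl o)) * c) * ((c ^ ∑ i, d i)⁻¹ * c ^ ∑ i, d i) := by
        ring
    _ = c ^ Fintype.card b := by rw [inv_mul_cancel₀ h4, mul_one, h2]

end

/-- **The linear algebra of the key lemma.** `G` is non-zero and `G c` is integral up to a power of
`Δ` at every valuation ring containing `c⁻¹` at which the columns transformed by `x ↦ x / c`,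
weighted by `u_i / c ^ e_i` in the rows `i`, are bounded. -/
theorem key_abs {E : Type*} [Field E] {σ ρ ι S Q : Type*} [Fintype σ] [Fintype ρ] [Fintype ι]
    [DecidableEq ι] [Finite S] [Fintype Q] (d : ι → ℕ) (e : ρ → ℕ) (Z : Finset ρ)
    (eul : σ ⊕ ρ → E) (syz : S → σ ⊕ ρ → E) (cvr : ι → σ ⊕ ρ → E)
    (i₀ : σ) (heul : eul (Sum.inl i₀) ≠ 0)
    (lam : (σ ⊕ ρ → E) →ₗ[E] (ι → E)) (hl1 : lam eul = 0) (hl2 : ∀ s, lam (syz s) = 0)
    (g : ι → E) (hg : ∀ i, g i ≠ 0) (hl3 : ∀ i, lam (cvr i) = Pi.single i (g i))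
    (hz1 : ∀ i ∈ Z, eul (Sum.inr i) = 0) (hz2 : ∀ s, ∀ i ∈ Z, syz s (Sum.inr i) = 0)
    (hz3 : ∀ i', ∀ i ∈ Z, cvr i' (Sum.inr i) = 0)
    (C : Q → σ → E) (w : ℕ)
    (hm : ∀ (r : Fin (w + 2) → σ) (c : Fin (w + 2) → Q),
      Matrix.det (Matrix.of fun s t => C (c t) (r s)) = 0)
    (hC1 : (fun l => eul (Sum.inl l)) ∈ Submodule.span E (Set.range C))
    (hC2 : ∀ s, (fun l => syz s (Sum.inl l)) ∈ Submodule.span E (Set.range C))
    (hC3 : ∀ i, (fun l => cvr i (Sum.inl l)) ∈ Submodule.span E (Set.range C))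
    (u : ρ → E) (hu : ∀ i ∉ Z, u i ≠ 0)
    (hw : 2 * w + 2 + ∑ i, e i + Fintype.card ρ ≤ ∑ i, d i + Z.card + Fintype.card ι) :
    ∃ G : E, G ≠ 0 ∧ ∀ (O : ValuationSubring E) (Δ c : E) (eul' : σ ⊕ ρ → E)
      (syz' : S → σ ⊕ ρ → E) (cvr' : ι → σ ⊕ ρ → E), c ≠ 0 → c⁻¹ ∈ O → Δ ∈ O →
      Trans d c eul eul' syz syz' cvr cvr' →
      (∀ l, Δ * eul' (Sum.inl l) ∈ O) → (∀ s l, Δ * syz' s (Sum.inl l) ∈ O) →
      (∀ i l, Δ * cvr' i (Sum.inl l) ∈ O) →
      (∀ i ∉ Z, Δ * (u i / c ^ e i * eul' (Sum.inr i)) ∈ O) →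
      (∀ i ∉ Z, ∀ s, Δ * (u i / c ^ e i * syz' s (Sum.inr i)) ∈ O) →
      (∀ i ∉ Z, ∀ i', Δ * (u i / c ^ e i * cvr' i' (Sum.inr i)) ∈ O) →
      Δ ^ (Fintype.card σ + Fintype.card ρ) * (G * c) ∈ O := by
  classical
  have heul0 : eul ≠ 0 := fun h => heul (by rw [h]; rfl)
  obtain ⟨b, hb0, hbli, hbsp⟩ := exists_basis_part (E := E) eul heul0 syz
  have : Fintype b := Fintype.ofFinite b
  have hK := li_cols b eul syz cvr lam hl1 hl2 g hg hl3 hbli
  obtain ⟨r, hrinj, hrdet⟩ := exists_minor _ hK
  have hrZ : ∀ s i, r s = Sum.inr i → i ∉ Z := by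
    intro s i hs hi
    apply hrdet
    refine Matrix.det_eq_zero_of_row_eq_zero s fun t => ?_
    rw [Matrix.of_apply, hs]
    rcases t with ⟨o, ho⟩ | i'
    · rcases o with _ | s'
      · exact hz1 i hi
      · exact hz2 s' i hi
    · exact hz3 i' i hi
  set uw : σ ⊕ ρ → E := Sum.elim (fun _ => 1) u with huw
  set ee : σ ⊕ ρ → ℕ := Sum.elim (fun _ => 0) e with hee
  -- counting
  set lft : Finset (b ⊕ ι) := Finset.univ.filter fun s => (r s).isLeft = true with hlft
  set rgt : Finset (b ⊕ ι) := Finset.univ.filter fun s => ¬ (r s).isLeft = true with hrgt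
  have hn' : lft.card ≤ w + 1 := by
    refine left_rows_le C w hm (fun t l => cols b eul syz cvr t (Sum.inl l)) ?_
      _ hrdet lft (fun s => Sum.elim id (fun _ => i₀) (r s)) ?_
    · rintro (⟨o, ho⟩ | i)
      · rcases o with _ | s
        · exact hC1
        · exact hC2 s
      · exact hC3 i
    · intro s hs t
      rw [hlft, Finset.mem_filter] at hs
      rcases h : r s with l | i
      · simp [h]
      · rw [h] at hs
        simp at hs
  have hq' : rgt.card + Z.card ≤ Fintype.card ρ := by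
    have h1 : rgt.image r ⊆ (Finset.univ \ Z).map ⟨Sum.inr, Sum.inr_injective⟩ := by
      intro y hy
      rw [Finset.mem_image] at hy
      obtain ⟨s, hs, rfl⟩ := hy
      rw [hrgt, Finset.mem_filter] at hs
      rcases h : r s with l | i
      · rw [h] at hs
        simp at hs
      · rw [Finset.mem_map]
        exact ⟨i, Finset.mem_sdiff.2 ⟨Finset.mem_univ i, hrZ s i h⟩, rfl⟩
    have h2 := Finset.card_le_card h1
    rw [Finset.card_image_of_injective _ hrinj, Finset.card_map,
      Finset.card_sdiff_of_subset (Finset.subset_univ Z), Finset.card_univ] at h2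
    have h3 : Z.card ≤ Fintype.card ρ := Finset.card_le_univ Z
    omega
  have hcard : Fintype.card b + Fintype.card ι = lft.card + rgt.card := by
    rw [← Fintype.card_sum, ← Finset.card_univ (α := b ⊕ ι)]
    exact (Finset.card_filter_add_card_filter_not _).symm
  have hesum : ∑ s, ee (r s) ≤ ∑ i, e i := by
    calc ∑ s, ee (r s) = ∑ y ∈ Finset.univ.image r, ee y :=
          (Finset.sum_image fun _ _ _ _ h => hrinj h).symm
      _ ≤ ∑ y, ee y := Finset.sum_le_sum_of_subset (Finset.subset_univ _)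
      _ = ∑ i, e i := by
          rw [Fintype.sum_sum_type]
          simp [hee]
  obtain ⟨m, hmP⟩ : ∃ m, 1 + ∑ i, d i = (∑ s, ee (r s) + lft.card + Fintype.card b) + 1 + m :=
    Nat.exists_eq_add_of_le (by omega)
  obtain ⟨k', hk'⟩ : ∃ k', Fintype.card σ + Fintype.card ρ = Fintype.card (b ⊕ ι) + k' := by
    apply Nat.exists_eq_add_of_le
    rw [← Fintype.card_sum]
    exact Fintype.card_le_of_injective r hrinj
  refine ⟨Matrix.det (Matrix.of fun s t => uw (r s) * cols b eul syz cvr t (r s)), ?_, ?_⟩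
  · have h1 := Matrix.det_mul_column (fun s => uw (r s))
      (Matrix.of fun s t => cols b eul syz cvr t (r s))
    simp only [Matrix.of_apply] at h1
    rw [h1]
    refine mul_ne_zero (Finset.prod_ne_zero_iff.2 fun s _ => ?_) hrdet
    rcases h : r s with l | i
    · rw [huw]
      simp
    · rw [huw]
      simpa using hu i (hrZ s i h)
  · intro O Δ c eul' syz' cvr' hc hci hΔ hTr he1 he2 he3 he4 he5 he6
    choose τ hτ1 hτ2 hτ3 using exists_T hTr b hb0 hbsp hc
    set Kt := cols b eul' syz' cvr' with hKt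
    set rf : σ ⊕ ρ → E := Sum.elim (fun _ => c) (fun _ => 1) with hrf
    set wt : σ ⊕ ρ → E := Sum.elim (fun _ => 1) (fun i => u i / c ^ e i) with hwt
    set N : Matrix (b ⊕ ι) (b ⊕ ι) E := Matrix.of fun s t => wt (r s) * Kt t (r s) with hN
    set T : Matrix (b ⊕ ι) (b ⊕ ι) E := Matrix.of fun t' t => τ t t' with hT
    have hTdet : T.det = ∏ t, gK d b c t :=
      det_tri T (rkK b) _ (fun t => hτ2 t) fun t' t h1 h2 => hτ3 t t' h1 h2
    have hdecomp : ∀ s, uw s = c ^ ee s * wt s := by
      rintro (s | i)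
      · simp [huw, hee, hwt]
      · have h1 : c ^ e i ≠ 0 := pow_ne_zero _ hc
        simp only [huw, hee, hwt, Sum.elim_inr]
        field_simp
    have hmat : (Matrix.of fun s t => uw (r s) * cols b eul syz cvr t (r s)) =
        (Matrix.of fun s t' => (c ^ ee (r s) * rf (r s)) * N s t') * T := by
      ext s t
      rw [Matrix.mul_apply, Matrix.of_apply, hτ1 t, Finset.sum_apply, Finset.mul_sum]
      refine Finset.sum_congr rfl fun t' _ => ?_
      rw [Pi.smul_apply, smul_eq_mul, scl_apply, hdecomp]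
      simp only [hN, hT, Matrix.of_apply]
      change _ * (_ * (rf (r s) * Kt t' (r s))) = _
      ring
    have hdet : Matrix.det (Matrix.of fun s t => uw (r s) * cols b eul syz cvr t (r s)) *
        (c * c ^ ∑ i, d i) =
        c ^ (∑ s, ee (r s) + lft.card + Fintype.card b) * N.det := by
      rw [hmat, Matrix.det_mul, Matrix.det_mul_column, hTdet, mul_assoc, prod_gK d b hb0 c hc,
        Finset.prod_mul_distrib, Finset.prod_pow_eq_pow_sum]
      have h1 : ∏ s, rf (r s) = c ^ lft.card := by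
        rw [hlft, ← Finset.prod_const, Finset.prod_filter]
        refine Finset.prod_congr rfl fun s _ => ?_
        rcases h : r s with l | i <;> simp [hrf]
      rw [h1]
      ring
    set G := Matrix.det (Matrix.of fun s t => uw (r s) * cols b eul syz cvr t (r s)) with hG
    have hG2 : G * c ^ (m + 1) = N.det := by
      have h1 : c * c ^ ∑ i, d i =
          c ^ (∑ s, ee (r s) + lft.card + Fintype.card b) * c ^ (m + 1) := by
        rw [← pow_succ', ← pow_add]
        congr 1
        omega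
      rw [h1] at hdet
      have h2 : c ^ (∑ s, ee (r s) + lft.card + Fintype.card b) ≠ 0 := pow_ne_zero _ hc
      apply mul_left_cancel₀ h2
      rw [← hdet]
      ring
    have hNdet : Δ ^ Fintype.card (b ⊕ ι) * N.det ∈ O := by
      rw [← Matrix.det_smul]
      refine det_mem O.toSubring _ fun s t => ?_
      rw [Matrix.smul_apply, smul_eq_mul]
      change Δ * (wt (r s) * Kt t (r s)) ∈ O
      rcases h : r s with l | i
      · have h1 : wt (Sum.inl l) = 1 := rfl
        rw [h1, one_mul]
        rcases t with ⟨o, ho⟩ | i'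
        · rcases o with _ | s'
          · exact he1 l
          · exact he2 s' l
        · exact he3 i' l
      · have hi := hrZ s i h
        rcases t with ⟨o, ho⟩ | i'
        · rcases o with _ | s'
          · exact he4 i hi
          · exact he5 i hi s'
        · exact he6 i hi i'
    have h1 : c⁻¹ ^ m * c ^ (m + 1) = c := by
      rw [pow_succ, ← mul_assoc, ← mul_pow, inv_mul_cancel₀ hc, one_pow, one_mul]
    have hfin : Δ ^ (Fintype.card σ + Fintype.card ρ) * (G * c) =
        Δ ^ k' * c⁻¹ ^ m * (Δ ^ Fintype.card (b ⊕ ι) * N.det) := by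
      rw [hk', pow_add, ← hG2]
      calc Δ ^ Fintype.card (b ⊕ ι) * Δ ^ k' * (G * c)
          = Δ ^ Fintype.card (b ⊕ ι) * Δ ^ k' * (G * (c⁻¹ ^ m * c ^ (m + 1))) := by
            rw [h1]
        _ = _ := by ring
    rw [hfin]
    exact mul_mem (mul_mem (pow_mem hΔ _) (pow_mem hci _)) hNdet

end Pool.Agent.Helper74.LG
end

/- Helper49.LG.KeyTwo -/
section
/-!
# The linear algebra of LG-KEY for two-vectors, abstract form

Rows `σ ⊕ ρ`; columns `eul`, `syz (q, j, l) = x_j C_(q,l) - x_l C_(q,j)`, `cvr i`. The bounded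
objects are the two-vectors `x ∧ δ`, where `δ_l` is a maximal minor with one column `C_(q,l)`.
-/

set_option autoImplicit false

namespace Pool.Agent.Helper49.LG

open scoped BigOperators
open Pool.Agent.Helper8.LG (exists_minor)
open Pool.Agent.Helper74.LG (scl scl_apply scl_inj Trans det_tri
  det_mem exists_basis_part)

section

variable {E : Type*} [Field E] {σ ρ ι S K : Type*}

/-- the columns -/
def kc (f : K → S) (eul : σ ⊕ ρ → E) (syz : S → σ ⊕ ρ → E) (cvr : ι → σ ⊕ ρ → E) :
    (Option K ⊕ ι) → σ ⊕ ρ → E :=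
  Sum.elim (fun o : Option K => o.elim eul fun k => syz (f k)) cvr

/-- the rank function of the triangular transformation -/
def krk : (Option K ⊕ ι) → ℕ :=
  Sum.elim (fun o : Option K => o.elim 0 fun _ => 1) fun _ => 2

/-- its diagonal -/
def kg (d : ι → ℕ) (c : E) : (Option K ⊕ ι) → E :=
  Sum.elim (fun o : Option K => o.elim 1 fun _ => c) fun i => (c ^ d i)⁻¹

theorem k_span {d : ι → ℕ} {c : E} {eul eul' : σ ⊕ ρ → E} {syz syz' : S → σ ⊕ ρ → E}
    {cvr cvr' : ι → σ ⊕ ρ → E} (hT : Trans d c eul eul' syz syz' cvr cvr') (f : K → S)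
    (hsp : ∀ s, syz s ∈ Submodule.span E
      (Set.range fun o : Option K => o.elim eul fun k => syz (f k)))
    (hc : c ≠ 0) (s : S) :
    syz' s ∈ Submodule.span E (Set.range fun o : Option K => o.elim eul' fun k => syz' (f k)) := by
  set W := Submodule.span E (Set.range fun o : Option K => o.elim eul' fun k => syz' (f k)) with hW
  have h0 : eul' ∈ W := Submodule.subset_span ⟨none, rfl⟩
  have h0' : eul ∈ W.map (scl c) := by
    rw [hT.eul_eq]
    exact Submodule.mem_map_of_mem h0
  have h1 : Submodule.span E (Set.range fun o : Option K => o.elim eul fun k => syz (f k)) ≤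
      W.map (scl c) := by
    rw [Submodule.span_le]
    rintro _ ⟨o, rfl⟩
    rcases o with _ | k
    · exact h0'
    · obtain ⟨bb, hbb⟩ := hT.syz_eq (f k)
      change syz (f k) ∈ W.map (scl c)
      rw [hbb]
      exact add_mem (Submodule.smul_mem _ _ (Submodule.mem_map_of_mem
        (Submodule.subset_span ⟨some k, rfl⟩))) (Submodule.smul_mem _ _ h0')
  obtain ⟨bb, hbb⟩ := hT.syz_eq s
  have h2 := h1 (hsp s)
  have h3 : c • scl c (syz' s) ∈ W.map (scl c) := by
    have h4 := sub_mem h2 (Submodule.smul_mem _ bb h0')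
    rwa [hbb, add_sub_cancel_right] at h4
  have h5 : scl c (syz' s) ∈ W.map (scl c) := by
    have h6 := Submodule.smul_mem _ c⁻¹ h3
    rwa [smul_smul, inv_mul_cancel₀ hc, one_smul] at h6
  obtain ⟨y, hy, hy2⟩ := h5
  rw [← scl_inj hc hy2]
  exact hy

theorem k_exists_T [Fintype ι] [Fintype K] {d : ι → ℕ} {c : E} {eul eul' : σ ⊕ ρ → E}
    {syz syz' : S → σ ⊕ ρ → E} {cvr cvr' : ι → σ ⊕ ρ → E}
    (hT : Trans d c eul eul' syz syz' cvr cvr')
    (f : K → S) [DecidableEq (Option K ⊕ ι)]
    (hsp : ∀ s, syz s ∈ Submodule.span E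
      (Set.range fun o : Option K => o.elim eul fun k => syz (f k)))
    (hc : c ≠ 0) (t : Option K ⊕ ι) :
    ∃ τ : (Option K ⊕ ι) → E,
      kc f eul syz cvr t = ∑ t', τ t' • scl c (kc f eul' syz' cvr' t') ∧
      τ t = kg d c t ∧ ∀ t', t' ≠ t → krk t ≤ krk t' → τ t' = 0 := by
  set N : Option K ⊕ ι := Sum.inl none with hN
  have hN1 : scl c (kc f eul' syz' cvr' N) = eul := hT.eul_eq.symm
  rcases t with o | i
  · rcases o with _ | k
    · refine ⟨Pi.single N 1, ?_, ?_, ?_⟩
      · rw [Pool.Agent.Helper74.LG.sum_single_smul, one_smul, hN1]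
        rfl
      · rw [← hN, Pi.single_eq_same]
        rfl
      · intro t' ht _
        rw [Pi.single_eq_of_ne ht]
    · obtain ⟨bb, hbb⟩ := hT.syz_eq (f k)
      have hne : (Sum.inl (some k) : Option K ⊕ ι) ≠ N := by
        intro h
        have h1 := Sum.inl_injective h
        cases h1
      refine ⟨Pi.single (Sum.inl (some k)) c + Pi.single N bb, ?_, ?_, ?_⟩
      · simp only [Pi.add_apply, add_smul, Finset.sum_add_distrib, Pool.Agent.Helper74.LG.sum_single_smul]
        rw [hN1]
        exact hbb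
      · rw [Pi.add_apply, Pi.single_eq_same, Pi.single_eq_of_ne hne, add_zero]
        rfl
      · intro t' ht hrk
        have h1 : t' ≠ N := by
          intro h
          rw [h] at hrk
          change 1 ≤ 0 at hrk
          omega
        rw [Pi.add_apply, Pi.single_eq_of_ne ht, Pi.single_eq_of_ne h1, add_zero]
  · obtain ⟨y, hy, bb, hbb⟩ := hT.cvr_eq i
    have h2 : Submodule.span E (Set.range syz') ≤
        Submodule.span E (Set.range fun o : Option K => o.elim eul' fun k => syz' (f k)) := by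
      rw [Submodule.span_le]
      rintro _ ⟨s, rfl⟩
      exact k_span hT f hsp hc s
    obtain ⟨cf, hcf⟩ := (Submodule.mem_span_range_iff_exists_fun E).1 (h2 hy)
    have h5 : kc f eul syz cvr (Sum.inr i) =
        (c ^ d i)⁻¹ • scl c (kc f eul' syz' cvr' (Sum.inr i)) +
          ∑ o : Option K, cf o • scl c (kc f eul' syz' cvr' (Sum.inl o)) +
            bb • scl c (kc f eul' syz' cvr' N) := by
      rw [hN1]
      have h6 : scl c y = ∑ o : Option K, cf o • scl c (kc f eul' syz' cvr' (Sum.inl o)) := by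
        rw [← hcf, map_sum]
        simp only [map_smul]
        rfl
      rw [← h6]
      exact hbb
    have hNr : (Sum.inr i : Option K ⊕ ι) ≠ N := Sum.inr_ne_inl
    refine ⟨Pi.single (Sum.inr i) (c ^ d i)⁻¹ + Sum.elim cf 0 + Pi.single N bb, ?_, ?_, ?_⟩
    · simp only [Pi.add_apply, add_smul, Finset.sum_add_distrib, Pool.Agent.Helper74.LG.sum_single_smul]
      rw [h5]
      congr 2
      rw [Fintype.sum_sum_type]
      simp
    · rw [Pi.add_apply, Pi.add_apply, Pi.single_eq_same, Pi.single_eq_of_ne hNr, add_zero]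
      simp [kg]
    · intro t' ht hrk
      rcases t' with o | i'
      · exfalso
        rcases o with _ | k
        · change 2 ≤ 0 at hrk
          omega
        · change 2 ≤ 1 at hrk
          omega
      · have h7 : (Sum.inr i' : Option K ⊕ ι) ≠ N := Sum.inr_ne_inl
        rw [Pi.add_apply, Pi.add_apply, Pi.single_eq_of_ne ht, Pi.single_eq_of_ne h7]
        simp

theorem k_prod [Fintype ι] [Fintype K] (d : ι → ℕ) (c : E) (hc : c ≠ 0) :
    (∏ t, kg (K := K) d c t) * c ^ ∑ i, d i = c ^ Fintype.card K := by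
  rw [Fintype.prod_sum_type, Fintype.prod_option]
  have h1 : ∏ i : ι, kg (K := K) d c (Sum.inr i) = (c ^ ∑ i, d i)⁻¹ := by
    rw [← Finset.prod_pow_eq_pow_sum, ← Finset.prod_inv_distrib]
    rfl
  have h2 : ∏ k : K, kg (ι := ι) d c (Sum.inl (some k)) = c ^ Fintype.card K := by
    have h5 : ∀ k : K, kg (ι := ι) d c (Sum.inl (some k)) = c := fun _ => rfl
    simp only [h5, Finset.prod_const, Finset.card_univ]
  have h3 : kg (ι := ι) (K := K) d c (Sum.inl none) = 1 := rfl
  have h4 : c ^ ∑ i, d i ≠ 0 := pow_ne_zero _ hc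
  rw [h1, h2, h3, one_mul, mul_assoc, inv_mul_cancel₀ h4, mul_one]

end

/-- The number of `x`-rows and of other rows of a minor. -/
def nlft {κ σ ρ : Type*} [Fintype κ] (r : κ → σ ⊕ ρ) : ℕ :=
  (Finset.univ.filter fun s => (r s).isLeft = true).card

/-- **The transformed minor.** `G c^(∑ d_i) = c^(n' + |K|) N`, `N` integral up to a power of `Δ`. -/
theorem k_minor {E : Type*} [Field E] {σ ρ ι S K : Type*} [Fintype σ] [Fintype ρ] [Fintype ι]
    [Fintype K] [DecidableEq (Option K ⊕ ι)] (d : ι → ℕ) (f : K → S)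
    (eul : σ ⊕ ρ → E) (syz : S → σ ⊕ ρ → E) (cvr : ι → σ ⊕ ρ → E)
    (hsp : ∀ s, syz s ∈ Submodule.span E
      (Set.range fun o : Option K => o.elim eul fun k => syz (f k)))
    (r : (Option K ⊕ ι) → σ ⊕ ρ)
    (O : ValuationSubring E) (Δ c : E) (eul' : σ ⊕ ρ → E)
    (syz' : S → σ ⊕ ρ → E) (cvr' : ι → σ ⊕ ρ → E) (hc : c ≠ 0)
    (hTr : Trans d c eul eul' syz syz' cvr cvr')
    (he1 : ∀ l, Δ * eul' l ∈ O) (he2 : ∀ s l, Δ * syz' s l ∈ O)
    (he3 : ∀ i l, Δ * cvr' i l ∈ O) :
    ∃ N : E, Δ ^ Fintype.card (Option K ⊕ ι) * N ∈ O ∧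
      Matrix.det (Matrix.of fun s t => kc f eul syz cvr t (r s)) * c ^ ∑ i, d i =
        c ^ (nlft r + Fintype.card K) * N := by
  choose τ hτ1 hτ2 hτ3 using k_exists_T hTr f hsp hc
  set Kt := kc f eul' syz' cvr' with hKt
  set rf : σ ⊕ ρ → E := Sum.elim (fun _ => c) (fun _ => 1) with hrf
  set N : Matrix (Option K ⊕ ι) (Option K ⊕ ι) E := Matrix.of fun s t => Kt t (r s) with hN
  set T : Matrix (Option K ⊕ ι) (Option K ⊕ ι) E := Matrix.of fun t' t => τ t t' with hT
  have hTdet : T.det = ∏ t, kg d c t :=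
    det_tri T krk _ (fun t => hτ2 t) fun t' t h1 h2 => hτ3 t t' h1 h2
  have hmat : (Matrix.of fun s t => kc f eul syz cvr t (r s)) =
      (Matrix.of fun s t' => rf (r s) * N s t') * T := by
    ext s t
    rw [Matrix.mul_apply, Matrix.of_apply, hτ1 t, Finset.sum_apply]
    refine Finset.sum_congr rfl fun t' _ => ?_
    rw [Pi.smul_apply, smul_eq_mul, scl_apply]
    simp only [hN, hT, Matrix.of_apply]
    change _ * (rf (r s) * Kt t' (r s)) = _
    ring
  refine ⟨N.det, ?_, ?_⟩
  · rw [← Matrix.det_smul]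
    refine det_mem O.toSubring _ fun s t => ?_
    rw [Matrix.smul_apply, smul_eq_mul]
    change Δ * Kt t (r s) ∈ O
    rcases t with o | i'
    · rcases o with _ | k
      · exact he1 _
      · exact he2 _ _
    · exact he3 i' _
  · rw [hmat, Matrix.det_mul, Matrix.det_mul_column, hTdet, mul_assoc, k_prod d c hc]
    have h1 : ∏ s, rf (r s) = c ^ nlft r := by
      rw [nlft, ← Finset.prod_const, Finset.prod_filter]
      refine Finset.prod_congr rfl fun s _ => ?_
      rcases h : r s with l | i <;> simp [hrf]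
    rw [h1]
    ring

end Pool.Agent.Helper49.LG
end

/- Helper12.LVF.H49.LG.KeyTwoB -/
section
/-!
# The linear algebra of LG-KEY for two-vectors, abstract form: the theorem
-/

set_option autoImplicit false

namespace Pool.Agent.Helper49.LG

open scoped BigOperators
open Pool.Agent.Helper8.LG (exists_minor)
open Pool.Agent.Helper74.LG (scl scl_apply scl_inj Trans det_tri
  det_mem exists_basis_part cols li_cols)

/-- the syzygies -/
def sy {E σ R Q : Type*} [Field E] (x : σ → E) (C : Q → σ → R → E) (s : Q × σ × σ) : R → E :=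
  x s.2.1 • C s.1 s.2.2 - x s.2.2 • C s.1 s.2.1

/-- A linearly independent family of the right size in a span. -/
theorem span_of_li {E V S K : Type*} [Field E] [AddCommGroup V] [Module E V] [Fintype K]
    (v v' : K → V) (hv : LinearIndependent E v) (hv' : LinearIndependent E v')
    (h : ∀ k, v' k ∈ Submodule.span E (Set.range v)) (u : S → V)
    (hu : ∀ s, u s ∈ Submodule.span E (Set.range v)) (s : S) :
    u s ∈ Submodule.span E (Set.range v') := by
  have hle : Submodule.span E (Set.range v') ≤ Submodule.span E (Set.range v) := by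
    rw [Submodule.span_le]
    rintro _ ⟨k, rfl⟩
    exact h k
  have hfin : FiniteDimensional E (Submodule.span E (Set.range v)) :=
    FiniteDimensional.span_of_finite E (Set.finite_range v)
  have heq := Submodule.eq_of_le_of_finrank_eq hle (by
    rw [finrank_span_eq_card hv, finrank_span_eq_card hv'])
  rw [heq]
  exact hu s

/-- Linear independence from a non-zero minor. -/
theorem li_of_minor {E R κ : Type*} [Field E] [Fintype κ] [DecidableEq κ] (v : κ → R → E)
    (r : κ → R) (h : Matrix.det (Matrix.of fun s t => v t (r s)) ≠ 0) :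
    LinearIndependent E v := by
  have h1 : LinearIndependent E (Matrix.of fun s t => v t (r s)).col :=
    Matrix.linearIndependent_cols_of_det_ne_zero h
  have h2 : (Matrix.of fun s t => v t (r s)).col = (LinearMap.funLeft E E r) ∘ v := rfl
  rw [h2] at h1
  exact LinearIndependent.of_comp _ h1

/-- The two-vector version of the linear algebra of the key lemma. -/
theorem key_two_abs {E : Type*} [Field E] {σ ρ ι Q P : Type*} [Fintype σ] [DecidableEq σ]
    [Fintype ρ] [Fintype ι] [DecidableEq ι] [Finite Q] [Fintype P] (d : ι → ℕ)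
    (Z : Finset ρ) (x : σ → E) (i₀ j₁ : σ) (hx : x i₀ = 1) (hj : j₁ ≠ i₀)
    (eul : σ ⊕ ρ → E) (C : Q → σ → σ ⊕ ρ → E) (cvr : ι → σ ⊕ ρ → E)
    (heul : eul (Sum.inl i₀) ≠ 0)
    (hz1 : ∀ i ∈ Z, eul (Sum.inr i) = 0) (hz2 : ∀ q l, ∀ i ∈ Z, C q l (Sum.inr i) = 0)
    (hz3 : ∀ i', ∀ i ∈ Z, cvr i' (Sum.inr i) = 0)
    (lam : (σ ⊕ ρ → E) →ₗ[E] (ι → E)) (hl1 : lam eul = 0) (hl2 : ∀ s, lam (sy x C s) = 0)
    (g : ι → E) (hg : ∀ i, g i ≠ 0) (hl3 : ∀ i, lam (cvr i) = Pi.single i (g i))
    (Cm : P → σ → E) (w : ℕ)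
    (hm : ∀ (r : Fin (w + 2) → σ) (c : Fin (w + 2) → P),
      Matrix.det (Matrix.of fun s t => Cm (c t) (r s)) = 0)
    (hC1 : (fun l => eul (Sum.inl l)) ∈ Submodule.span E (Set.range Cm))
    (hC2 : ∀ s, (fun l => sy x C s (Sum.inl l)) ∈ Submodule.span E (Set.range Cm))
    (hC3 : ∀ i, (fun l => cvr i (Sum.inl l)) ∈ Submodule.span E (Set.range Cm))
    (hw1 : 2 * w + 1 + Fintype.card ρ ≤ ∑ i, d i + Z.card + Fintype.card ι)
    (hw2 : w + 2 ≤ ∑ i, d i) :
    ∃ δ : σ → E, (∃ j l, x j * δ l - x l * δ j ≠ 0) ∧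
      ∀ (O : ValuationSubring E) (Δ c : E) (eul' : σ ⊕ ρ → E)
      (syz' : Q × σ × σ → σ ⊕ ρ → E) (cvr' : ι → σ ⊕ ρ → E), c ≠ 0 → c⁻¹ ∈ O →
      (∀ l, x l / c ∈ O) → Δ ∈ O → Trans d c eul eul' (sy x C) syz' cvr cvr' →
      (∀ l, Δ * eul' l ∈ O) → (∀ s l, Δ * syz' s l ∈ O) → (∀ i l, Δ * cvr' i l ∈ O) →
      ∀ j l, Δ ^ (Fintype.card σ + Fintype.card ρ) * (x j * δ l - x l * δ j) ∈ O := by
  classical
  have heul0 : eul ≠ 0 := fun h => heul (by rw [h]; rfl)
  obtain ⟨b, hb0, hbli, hbsp⟩ := exists_basis_part (E := E) eul heul0 (sy x C)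
  have : Finite (Q × σ × σ) := inferInstance
  let K := {s : Q × σ × σ // some s ∈ b}
  have hKfin : Fintype K := Fintype.ofFinite K
  let f : K → Q × σ × σ := Subtype.val
  let emb : Option K → b := fun o => o.elim ⟨none, hb0⟩ fun k => ⟨some k.1, k.2⟩
  have hemb : Function.Injective emb := by
    intro o o' h
    rcases o with _ | k <;> rcases o' with _ | k'
    · rfl
    · exact absurd (congrArg Subtype.val h) (by simp [emb])
    · exact absurd (congrArg Subtype.val h) (by simp [emb])
    · have h1 := congrArg Subtype.val h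
      have h2 : k.1 = k'.1 := Option.some_injective _ h1
      rw [Subtype.ext h2]
  have hfli : LinearIndependent E
      (fun o : Option K => o.elim eul fun k => sy x C (f k)) := by
    have h1 := hbli.comp emb hemb
    have h2 : (fun o : b => (o : Option _).elim eul (sy x C)) ∘ emb =
        fun o : Option K => o.elim eul fun k => sy x C (f k) := by
      funext o
      rcases o with _ | k <;> rfl
    rwa [h2] at h1
  have hfsp : ∀ s, sy x C s ∈ Submodule.span E
      (Set.range fun o : Option K => o.elim eul fun k => sy x C (f k)) := by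
    intro s
    refine Submodule.span_mono ?_ (hbsp s)
    rintro _ ⟨⟨o, ho⟩, rfl⟩
    rcases o with _ | s'
    · exact ⟨none, rfl⟩
    · exact ⟨some ⟨s', ho⟩, rfl⟩
  have hK : LinearIndependent E (kc f eul (sy x C) cvr) := by
    have h1 := (li_cols b eul (sy x C) cvr lam hl1 hl2 g hg hl3 hbli).comp (Sum.map emb id)
      (hemb.sumMap Function.injective_id)
    have h2 : cols b eul (sy x C) cvr ∘ Sum.map emb id = kc f eul (sy x C) cvr := by
      funext t
      rcases t with (_ | k) | i <;> rfl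
    rwa [h2] at h1
  obtain ⟨r, hrinj, hrdet⟩ := exists_minor _ hK
  have hrZ : ∀ s i, r s = Sum.inr i → i ∉ Z := by
    intro s i hs hi
    apply hrdet
    refine Matrix.det_eq_zero_of_row_eq_zero s fun t => ?_
    rw [Matrix.of_apply, hs]
    rcases t with o | i'
    · rcases o with _ | k
      · exact hz1 i hi
      · change sy x C (f k) (Sum.inr i) = 0
        simp [sy, hz2 _ _ i hi]
    · exact hz3 i' i hi
  -- counting
  have hn' : nlft r ≤ w + 1 := by
    refine Pool.Agent.Helper74.LG.left_rows_le Cm w hm (fun t l => kc f eul (sy x C) cvr t (Sum.inl l)) ?_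
      _ hrdet _ (fun s => Sum.elim id (fun _ => i₀) (r s)) ?_
    · rintro (o | i)
      · rcases o with _ | k
        · exact hC1
        · exact hC2 (f k)
      · exact hC3 i
    · intro s hs t
      rw [Finset.mem_filter] at hs
      rcases h : r s with l | i
      · simp [h]
      · rw [h] at hs
        simp at hs
  have hq' : (Finset.univ.filter fun s => ¬ (r s).isLeft = true).card + Z.card ≤
      Fintype.card ρ := by
    have h1 : (Finset.univ.filter fun s => ¬ (r s).isLeft = true).image r ⊆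
        (Finset.univ \ Z).map ⟨Sum.inr, Sum.inr_injective⟩ := by
      intro y hy
      rw [Finset.mem_image] at hy
      obtain ⟨s, hs, rfl⟩ := hy
      rw [Finset.mem_filter] at hs
      rcases h : r s with l | i
      · rw [h] at hs
        simp at hs
      · rw [Finset.mem_map]
        exact ⟨i, Finset.mem_sdiff.2 ⟨Finset.mem_univ i, hrZ s i h⟩, rfl⟩
    have h2 := Finset.card_le_card h1
    rw [Finset.card_image_of_injective _ hrinj, Finset.card_map,
      Finset.card_sdiff_of_subset (Finset.subset_univ Z), Finset.card_univ] at h2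
    have h3 : Z.card ≤ Fintype.card ρ := Finset.card_le_univ Z
    omega
  have hcard : Fintype.card K + 1 + Fintype.card ι =
      nlft r + (Finset.univ.filter fun s => ¬ (r s).isLeft = true).card := by
    rw [← Fintype.card_option, ← Fintype.card_sum, ← Finset.card_univ (α := Option K ⊕ ι)]
    exact (Finset.card_filter_add_card_filter_not _).symm
  obtain ⟨k', hk'⟩ : ∃ k', Fintype.card σ + Fintype.card ρ =
      Fintype.card (Option K ⊕ ι) + k' := by
    apply Nat.exists_eq_add_of_le
    rw [← Fintype.card_sum]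
    exact Fintype.card_le_of_injective r hrinj
  by_cases hne : Nonempty K
  · -- one syzygy is varied
    obtain ⟨k₁⟩ := hne
    set q₁ := (f k₁).1 with hq₁
    set M := Matrix.of fun s t => kc f eul (sy x C) cvr t (r s) with hM
    set t₁ : Option K ⊕ ι := Sum.inl (some k₁) with ht₁
    have hup : ∀ j l, Matrix.det (Matrix.of fun s t =>
        kc (Function.update f k₁ (q₁, j, l)) eul (sy x C) cvr t (r s)) =
        x j * Matrix.det (M.updateCol t₁ fun s => C q₁ l (r s)) -
          x l * Matrix.det (M.updateCol t₁ fun s => C q₁ j (r s)) := by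
      intro j l
      have h1 : (Matrix.of fun s t =>
          kc (Function.update f k₁ (q₁, j, l)) eul (sy x C) cvr t (r s)) =
          M.updateCol t₁ ((x j • fun s => C q₁ l (r s)) + (-x l) • fun s => C q₁ j (r s)) := by
        ext s t
        rw [Matrix.updateCol_apply]
        by_cases ht : t = t₁
        · rw [if_pos ht, ht]
          have h2 : kc (Function.update f k₁ (q₁, j, l)) eul (sy x C) cvr t₁ =
              sy x C (q₁, j, l) := by
            change sy x C (Function.update f k₁ (q₁, j, l) k₁) = _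
            rw [Function.update_self]
          rw [Matrix.of_apply, h2]
          simp only [sy, Pi.sub_apply, Pi.add_apply, Pi.smul_apply, smul_eq_mul]
          ring
        · rw [if_neg ht, hM, Matrix.of_apply, Matrix.of_apply]
          rcases t with (_ | k) | i
          · rfl
          · have h3 : k ≠ k₁ := fun h => ht (by rw [h])
            change sy x C (Function.update f k₁ (q₁, j, l) k) _ = sy x C (f k) _
            rw [Function.update_of_ne h3]
          · rfl
      rw [h1, Matrix.det_updateCol_add, Matrix.det_updateCol_smul, Matrix.det_updateCol_smul]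
      ring
    refine ⟨fun l => Matrix.det (M.updateCol t₁ fun s => C q₁ l (r s)),
      ⟨(f k₁).2.1, (f k₁).2.2, ?_⟩, ?_⟩
    · rw [← hup]
      have h1 : ((q₁, (f k₁).2.1, (f k₁).2.2) : Q × σ × σ) = f k₁ := rfl
      rw [h1, Function.update_eq_self]
      exact hrdet
    · intro O Δ c eul' syz' cvr' hc hci _ hΔ hTr he1 he2 he3 j l
      rw [← hup]
      set f' := Function.update f k₁ (q₁, j, l) with hf'
      by_cases h0 : Matrix.det (Matrix.of fun s t => kc f' eul (sy x C) cvr t (r s)) = 0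
      · rw [h0, mul_zero]
        exact zero_mem O
      · have hli' : LinearIndependent E (kc f' eul (sy x C) cvr) := li_of_minor _ r h0
        have hfli' : LinearIndependent E
            (fun o : Option K => o.elim eul fun k => sy x C (f' k)) :=
          hli'.comp Sum.inl Sum.inl_injective
        have hfsp' : ∀ s, sy x C s ∈ Submodule.span E
            (Set.range fun o : Option K => o.elim eul fun k => sy x C (f' k)) := by
          refine span_of_li _ _ hfli hfli' ?_ (sy x C) hfsp
          rintro (_ | k)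
          · exact Submodule.subset_span ⟨none, rfl⟩
          · exact hfsp _
        obtain ⟨N, hN1, hN2⟩ := k_minor d f' eul (sy x C) cvr hfsp' r O Δ c eul' syz' cvr' hc
          hTr he1 he2 he3
        obtain ⟨m, hm'⟩ : ∃ m, ∑ i, d i = nlft r + Fintype.card K + m :=
          Nat.exists_eq_add_of_le (by omega)
        rw [hm', pow_add, mul_comm _ N, mul_comm (c ^ (nlft r + Fintype.card K)) (c ^ m),
          ← mul_assoc] at hN2
        have hN3 := mul_right_cancel₀ (pow_ne_zero _ hc) hN2
        have h1 : Matrix.det (Matrix.of fun s t => kc f' eul (sy x C) cvr t (r s)) =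
            c⁻¹ ^ m * N := by
          rw [← hN3, mul_comm, mul_assoc, ← mul_pow, mul_inv_cancel₀ hc, one_pow, mul_one]
        rw [h1, hk', pow_add]
        have h2 : Δ ^ Fintype.card (Option K ⊕ ι) * Δ ^ k' * (c⁻¹ ^ m * N) =
            Δ ^ k' * c⁻¹ ^ m * (Δ ^ Fintype.card (Option K ⊕ ι) * N) := by ring
        rw [h2]
        exact mul_mem (mul_mem (pow_mem hΔ _) (pow_mem hci _)) hN1
  · -- no syzygy
    have hK0 : Fintype.card K = 0 := by
      rw [Fintype.card_eq_zero_iff]
      exact not_nonempty_iff.1 hne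
    set G := Matrix.det (Matrix.of fun s t => kc f eul (sy x C) cvr t (r s)) with hG
    refine ⟨Pi.single j₁ G, ⟨i₀, j₁, ?_⟩, ?_⟩
    · rw [Pi.single_eq_same, Pi.single_eq_of_ne hj.symm, hx, one_mul, mul_zero, sub_zero]
      exact hrdet
    · intro O Δ c eul' syz' cvr' hc hci hxc hΔ hTr he1 he2 he3
      obtain ⟨N, hN1, hN2⟩ := k_minor d f eul (sy x C) cvr hfsp r O Δ c eul' syz' cvr' hc
        hTr he1 he2 he3
      obtain ⟨m, hm'⟩ : ∃ m, ∑ i, d i = nlft r + Fintype.card K + 1 + m :=
        Nat.exists_eq_add_of_le (by omega)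
      rw [hm', add_assoc _ 1 m, pow_add, mul_comm _ N,
        mul_comm (c ^ (nlft r + Fintype.card K)) (c ^ (1 + m)), ← mul_assoc] at hN2
      have hN3 := mul_right_cancel₀ (pow_ne_zero _ hc) hN2
      have h1 : G * c = c⁻¹ ^ m * N := by
        rw [← hN3, pow_add, pow_one]
        have h2 : c⁻¹ ^ m * c ^ m = 1 := by rw [← mul_pow, inv_mul_cancel₀ hc, one_pow]
        calc G * c = G * c * (c⁻¹ ^ m * c ^ m) := by rw [h2, mul_one]
          _ = _ := by ring
      have hGx : ∀ l, Δ ^ (Fintype.card σ + Fintype.card ρ) * (G * x l) ∈ O := by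
        intro l
        have h2 : G * x l = c⁻¹ ^ m * N * (x l / c) := by
          rw [← h1]
          (clear * - hc hrdet; field_simp)
        rw [h2, hk', pow_add]
        have h3 : Δ ^ Fintype.card (Option K ⊕ ι) * Δ ^ k' * (c⁻¹ ^ m * N * (x l / c)) =
            Δ ^ k' * c⁻¹ ^ m * (x l / c) * (Δ ^ Fintype.card (Option K ⊕ ι) * N) := by ring
        rw [h3]
        exact mul_mem (mul_mem (mul_mem (pow_mem hΔ _) (pow_mem hci _)) (hxc l)) hN1
      have hGx' : ∀ j l, Δ ^ (Fintype.card σ + Fintype.card ρ) *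
          (x j * (Pi.single j₁ G : σ → E) l) ∈ O := by
        intro j l
        by_cases hl : l = j₁
        · rw [hl, Pi.single_eq_same, mul_comm (x j) G]
          exact hGx j
        · rw [Pi.single_eq_of_ne hl, mul_zero, mul_zero]
          exact zero_mem O
      intro j l
      rw [mul_sub]
      exact sub_mem (hGx' j l) (hGx' l j)

end Pool.Agent.Helper49.LG
end

/- Helper12.LVF.H49.LG.Killer -/
section
/-!
# A derivation which kills few given elements and moves the forms

If fewer than `∑ (d_i + 1)` conditions are imposed, there is a combination `δ` of the `D_s`, `s` the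
monomials in two variables `x_α, x_β`, which kills the given elements and acts on the coefficients
by a non-zero family of binary forms.
-/

set_option autoImplicit false

namespace Pool.Agent.Helper49.LG

open scoped BigOperators
open Pool.Agent.Helper8.LG

section

variable {σ ι : Type*}

/-- the monomial `x_α ^ (n - r) x_β ^ r` -/
def ab (α β : σ) (n : ℕ) (r : Fin (n + 1)) : Sym σ n :=
  ⟨Multiset.replicate (n - r) α + Multiset.replicate r β, by
    rw [Multiset.card_add, Multiset.card_replicate, Multiset.card_replicate]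
    have := r.2
    omega⟩

theorem mon_ab {R : Type*} [CommMonoid R] (x : σ → R) (α β : σ) (n : ℕ) (r : Fin (n + 1)) :
    mon x (ab α β n r) = x α ^ (n - r) * x β ^ (r : ℕ) := by
  change ((Multiset.replicate (n - r) α + Multiset.replicate (r : ℕ) β).map x).prod = _
  rw [Multiset.map_add, Multiset.prod_add, Multiset.map_replicate, Multiset.map_replicate,
    Multiset.prod_replicate, Multiset.prod_replicate]

/-- the corresponding index -/
def abi (d : ι → ℕ) (α β : σ) (s : Σ i : ι, Fin (d i + 1)) : Ix σ d := ⟨s.1, ab α β (d s.1) s.2⟩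

end

/-- **The killer derivation.** -/
theorem exists_killer {E : Type*} [Field E] {σ ι τ κ : Type*} [Fintype σ] [DecidableEq σ]
    [Fintype ι] [DecidableEq ι] [Fintype τ] [Fintype κ] (d : ι → ℕ)
    (a : (i : ι) → Sym σ (d i) → E) (D : Ix σ d → Derivation ℤ E E)
    (jj : τ → Ix σ d) (θ : τ → Ix σ d → E) (hD : Dual d a D jj θ) (α β : σ) (z : κ → E)
    (hcard : Fintype.card κ + Fintype.card τ < ∑ i, (d i + 1)) :
    ∃ (f : (i : ι) → Fin (d i + 1) → E) (δ : Derivation ℤ E E), (∃ i r, f i r ≠ 0) ∧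
      (∀ m, δ (z m) = 0) ∧ ∀ (i : ι) (x : σ → E), (∀ l, δ (x l) = 0) →
        δ (form (a i) x) = ∑ r : Fin (d i + 1), f i r * (x α ^ (d i - r) * x β ^ (r : ℕ)) := by
  classical
  set Λ : ((Σ i : ι, Fin (d i + 1)) → E) →ₗ[E] (κ ⊕ τ → E) :=
    { toFun := fun f => Sum.elim (fun m => ∑ s, f s * D (abi d α β s) (z m))
        fun j => ∑ s, f s * θ j (abi d α β s)
      map_add' := fun f g => by
        funext t
        rcases t with m | j <;> simp [add_mul, Finset.sum_add_distrib]
      map_smul' := fun c f => by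
        funext t
        rcases t with m | j <;> simp [Finset.mul_sum, mul_assoc] } with hΛ
  have hker : LinearMap.ker Λ ≠ ⊥ := by
    apply LinearMap.ker_ne_bot_of_finrank_lt
    rw [Module.finrank_fintype_fun_eq_card, Module.finrank_fintype_fun_eq_card, Fintype.card_sum,
      Fintype.card_sigma]
    simpa using hcard
  obtain ⟨f, hf, hf0⟩ := (Submodule.ne_bot_iff _).1 hker
  have hf1 : ∀ m, ∑ s, f s * D (abi d α β s) (z m) = 0 := fun m =>
    congrFun (LinearMap.mem_ker.1 hf) (Sum.inl m)
  have hf2 : ∀ j, ∑ s, f s * θ j (abi d α β s) = 0 := fun j =>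
    congrFun (LinearMap.mem_ker.1 hf) (Sum.inr j)
  set δ : Derivation ℤ E E := ∑ s, f s • D (abi d α β s) with hδ
  have hδa : ∀ y, δ y = ∑ s, f s * D (abi d α β s) y := by
    intro y
    have h1 : δ y = (Derivation.coeFnAddMonoidHom δ) y := rfl
    rw [h1, hδ, map_sum, Finset.sum_apply]
    rfl
  have hδq : ∀ q : Ix σ d, δ (a q.1 q.2) = ∑ s, if abi d α β s = q then f s else 0 := by
    intro q
    rw [hδa]
    have h1 : ∀ s, f s * D (abi d α β s) (a q.1 q.2) = (if abi d α β s = q then f s else 0) -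
        ∑ j, if jj j = q then f s * θ j (abi d α β s) else 0 := by
      intro s
      rw [hD (abi d α β s) q, mul_sub, mul_ite, mul_one, mul_zero, Finset.mul_sum]
      congr 1
      exact Finset.sum_congr rfl fun j _ => by rw [mul_ite, mul_zero]
    rw [Finset.sum_congr rfl fun s _ => h1 s, Finset.sum_sub_distrib, Finset.sum_comm]
    have h2 : ∑ j, ∑ s, (if jj j = q then f s * θ j (abi d α β s) else 0) = 0 := by
      refine Finset.sum_eq_zero fun j _ => ?_
      split_ifs
      · exact hf2 j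
      · exact Finset.sum_const_zero
    rw [h2, sub_zero]
  refine ⟨fun i r => f ⟨i, r⟩, δ, ?_, fun m => by rw [hδa]; exact hf1 m, ?_⟩
  · by_contra h
    push Not at h
    exact hf0 (funext fun s => h s.1 s.2)
  · intro i x hx
    obtain ⟨g, hg, _⟩ := kf_grad_form (a i) x
    rw [hg δ, Finset.sum_eq_zero (s := Finset.univ) (f := fun l => g l * δ (x l))
      (fun l _ => by rw [hx, mul_zero]), add_zero]
    have h1 : ∀ J : Sym σ (d i), δ (a i J) * mon x J =
        ∑ s, if abi d α β s = ⟨i, J⟩ then f s * mon x J else 0 := by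
      intro J
      rw [hδq ⟨i, J⟩, Finset.sum_mul]
      exact Finset.sum_congr rfl fun s _ => by rw [ite_mul, zero_mul]
    rw [Finset.sum_congr rfl fun J _ => h1 J, Finset.sum_comm, ← Finset.univ_sigma_univ,
      Finset.sum_sigma, Finset.sum_eq_single i]
    · refine Finset.sum_congr rfl fun r _ => ?_
      rw [Finset.sum_eq_single (ab α β (d i) r)]
      · rw [if_pos (show abi d α β ⟨i, r⟩ = ⟨i, ab α β (d i) r⟩ from rfl), mon_ab]
      · intro J _ hJ
        rw [if_neg]
        intro h
        apply hJ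
        unfold abi at h
        rw [Sigma.mk.injEq] at h
        exact (eq_of_heq h.2).symm
      · intro h
        exact absurd (Finset.mem_univ _) h
    · intro i' _ hi'
      refine Finset.sum_eq_zero fun r _ => Finset.sum_eq_zero fun J _ => ?_
      rw [if_neg]
      intro h
      exact hi' (congrArg Sigma.fst h)
    · intro h
      exact absurd (Finset.mem_univ _) h

end Pool.Agent.Helper49.LG
end
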