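import Pool.Agent.Helper12.LVM.C08
import Pool.Agent.Helper12.LVM.C03
import Pool.Agent.Helper12.LVM.B01
import Pool.Agent.Helper12.LVM.B02

/- Helper6.CO.KeyPath -/
section
/-! # LG-K2: modulo the linear syzygies all columns of one form are proportional -/

set_option autoImplicit false

namespace Pool.Agent.Helper6.CO

open Pool.Agent.Helper8.LG

open scoped BigOperators

section path

variable {R M τ : Type*} [CommRing R] [AddCommGroup M] [Module R M]

/-- a function on multisets of one size, extended by zero -/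
private noncomputable def K2_ext (m : ℕ) (V : Sym τ m → M) (s : Multiset τ) : M := by
  classical
  exact if h : s.card = m then V (Sym.mk s h) else 0

private theorem K2_ext_coe (m : ℕ) (V : Sym τ m → M) (J : Sym τ m) :
    K2_ext m V (J : Multiset τ) = V J := by
  have h : (J : Multiset τ).card = m := J.2
  unfold K2_ext
  rw [dif_pos h]
  rfl

private theorem K2_path (m : ℕ) (V : Sym τ (m + 1) → M) (W : Submodule R M) (x : τ → R)
    (hW : ∀ (I : Sym τ m) (j l : τ), x j • V (l ::ₛ I) - x l • V (j ::ₛ I) ∈ W) (j₀ : τ)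
    (s : Multiset τ) : ∀ t : Multiset τ, s.card + t.card = m + 1 →
      x j₀ ^ s.card • K2_ext (m + 1) V (s + t) -
        (s.map x).prod • K2_ext (m + 1) V (Multiset.replicate s.card j₀ + t) ∈ W := by
  induction s using Multiset.induction_on with
  | empty =>
    intro t _
    simp
  | cons l s ih =>
    intro t ht
    rw [Multiset.card_cons] at ht
    have h1 := ih (l ::ₘ t) (by rw [Multiset.card_cons]; omega)
    have hI : (Multiset.replicate s.card j₀ + t).card = m := by
      rw [Multiset.card_add, Multiset.card_replicate]; omega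
    have h2 := hW (Sym.mk (Multiset.replicate s.card j₀ + t) hI) j₀ l
    rw [← K2_ext_coe (m + 1) V, ← K2_ext_coe (m + 1) V, Sym.coe_cons, Sym.coe_cons] at h2
    have h3 := W.add_mem (W.smul_mem (x j₀) h1) (W.smul_mem (s.map x).prod h2)
    have e1 : s + l ::ₘ t = l ::ₘ s + t := by
      rw [Multiset.add_cons, Multiset.cons_add]
    have e2 : Multiset.replicate s.card j₀ + l ::ₘ t =
        l ::ₘ (Multiset.replicate s.card j₀ + t) := by
      rw [Multiset.add_cons]
    have e3 : Multiset.replicate (s.card + 1) j₀ + t =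
        j₀ ::ₘ (Multiset.replicate s.card j₀ + t) := by
      rw [Multiset.replicate_succ, Multiset.cons_add]
    rw [e1, e2, Sym.coe_mk] at h3
    rw [Multiset.card_cons, e3, Multiset.map_cons, Multiset.prod_cons]
    have e5 : x j₀ ^ (s.card + 1) • K2_ext (m + 1) V (l ::ₘ s + t) -
        (x l * (s.map x).prod) • K2_ext (m + 1) V
          (j₀ ::ₘ (Multiset.replicate s.card j₀ + t)) =
        x j₀ • (x j₀ ^ s.card • K2_ext (m + 1) V (l ::ₘ s + t) -
          (s.map x).prod • K2_ext (m + 1) V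
            (l ::ₘ (Multiset.replicate s.card j₀ + t))) +
        (s.map x).prod • (x j₀ • K2_ext (m + 1) V
            (l ::ₘ (Multiset.replicate s.card j₀ + t)) -
          x l • K2_ext (m + 1) V
            (j₀ ::ₘ (Multiset.replicate s.card j₀ + t))) := by
      module
    rw [e5]
    exact h3

private theorem K2_main (m : ℕ) (V : Sym τ (m + 1) → M) (W : Submodule R M) (x : τ → R)
    (hW : ∀ (I : Sym τ m) (j l : τ), x j • V (l ::ₛ I) - x l • V (j ::ₛ I) ∈ W) (j₀ : τ)
    (J : Sym τ (m + 1)) :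
    x j₀ ^ (m + 1) • V J - mon x J • V (Sym.replicate (m + 1) j₀) ∈ W := by
  have hc : (J : Multiset τ).card = m + 1 := J.2
  have h := K2_path m V W x hW j₀ (J : Multiset τ) 0 (by rw [hc]; simp)
  rw [hc, add_zero, add_zero, K2_ext_coe] at h
  have hr : (Multiset.replicate (m + 1) j₀ : Multiset τ) =
      ((Sym.replicate (m + 1) j₀ : Sym τ (m + 1)) : Multiset τ) := by
    rw [Sym.coe_replicate]
  rw [hr, K2_ext_coe] at h
  exact h

end path

variable {E : Type*} [Field E] {σ ι κ τ : Type*} [Fintype σ] [DecidableEq σ]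
  [DecidableEq ι]

theorem cv_sub_mem (n : κ → ℕ) {d : ι → ℕ} (a : (i : ι) → Sym σ (d i) → E)
    (D : Ix σ (fun t => n t + 1) → Derivation ℤ E E)
    (θ : τ → Ix σ (fun t => n t + 1) → E) (Z : Finset ι) (x : σ → E)
    (j₀ : σ) (t : κ) (J : Sym σ (n t + 1)) :
    x j₀ ^ (n t + 1) • cv n a D θ Z x ⟨t, J⟩ -
      mon x J • cv n a D θ Z x ⟨t, Sym.replicate (n t + 1) j₀⟩ ∈
      Submodule.span E (Set.range (syz n a D θ Z x)) := by
  refine K2_main (n t) (fun J => cv n a D θ Z x ⟨t, J⟩) _ x ?_ j₀ J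
  intro I j l
  exact Submodule.subset_span ⟨⟨t, I, j, l⟩, rfl⟩

end Pool.Agent.Helper6.CO
end

/- Helper12.LVF.H6.CO.KeyFun -/
section
/-! # CO-KEY: the functionals -/

set_option autoImplicit false

namespace Pool.Agent.Helper6.CO

open Pool.Agent.Helper8.LG
open Pool.Agent.Helper8.LV (kf_grad_form kf_mon_cons kf_form_scale kf_logderiv)

open scoped BigOperators

variable {E : Type*} [Field E] {σ ι κ τ : Type*} [Fintype σ] [DecidableEq σ]
  [DecidableEq ι]

theorem exists_functional [Fintype ι] [Fintype κ] [DecidableEq κ] [Fintype τ] (bl : κ → ι)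
    (n : κ → ℕ) {d : ι → ℕ} {b : κ → ℕ}
    (a : (i : ι) → Sym σ (d i) → E) (p : (t : κ) → Sym σ (b t) → E)
    (h : (t : κ) → Sym σ (n t + 1) → E)
    (D : Ix σ (fun t => n t + 1) → Derivation ℤ E E)
    (jj : τ → Ix σ (fun t => n t + 1)) (θ : τ → Ix σ (fun t => n t + 1) → E)
    (hD : Dual (fun t => n t + 1) h D jj θ) (hM : Mov bl d b (fun t => n t + 1) a p h D)
    (Z : Finset ι) (x : σ → E)
    (hZ : ∀ i ∈ Z, form (a i) x = 0) (hU : ∀ i ∉ Z, form (a i) x ≠ 0) :
    ∃ lam : ((σ ⊕ ι) ⊕ τ → E) →ₗ[E] (ι → E), lam (eul d Z x) = 0 ∧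
      (∀ (t : κ) (J : Sym σ (n t + 1)),
        lam (cv n a D θ Z x ⟨t, J⟩) = Pi.single (bl t) (-(form (p t) x * mon x J))) ∧
      ∀ s, lam (syz n a D θ Z x s) = 0 := by
  choose g hg he using fun i : ι => Pool.Agent.Helper8.LV.kf_grad_form (a i) x
  let cor : ι → τ → E := fun i j =>
    if bl (jj j).1 = i then form (p (jj j).1) x * mon x (jj j).2 else 0
  let lam : ((σ ⊕ ι) ⊕ τ → E) →ₗ[E] (ι → E) := LinearMap.pi fun i =>
    (∑ l, g i l • (LinearMap.proj (Sum.inl (Sum.inl l)) : ((σ ⊕ ι) ⊕ τ → E) →ₗ[E] E)) -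
      (if i ∈ Z then (0 : E) else form (a i) x) •
        (LinearMap.proj (Sum.inl (Sum.inr i)) : ((σ ⊕ ι) ⊕ τ → E) →ₗ[E] E) -
      ∑ j, cor i j • (LinearMap.proj (Sum.inr j) : ((σ ⊕ ι) ⊕ τ → E) →ₗ[E] E)
  have hlam : ∀ (v : (σ ⊕ ι) ⊕ τ → E) (i : ι), lam v i = ∑ l, g i l * v (Sum.inl (Sum.inl l)) -
      (if i ∈ Z then (0 : E) else form (a i) x) * v (Sum.inl (Sum.inr i)) -
      ∑ j, cor i j * v (Sum.inr j) := by
    intro v i
    show ((∑ l, g i l • (LinearMap.proj (Sum.inl (Sum.inl l)) : ((σ ⊕ ι) ⊕ τ → E) →ₗ[E] E)) -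
      (if i ∈ Z then (0 : E) else form (a i) x) •
        (LinearMap.proj (Sum.inl (Sum.inr i)) : ((σ ⊕ ι) ⊕ τ → E) →ₗ[E] E) -
      ∑ j, cor i j • (LinearMap.proj (Sum.inr j) : ((σ ⊕ ι) ⊕ τ → E) →ₗ[E] E)) v = _
    rw [LinearMap.sub_apply, LinearMap.sub_apply, LinearMap.sum_apply, LinearMap.sum_apply,
      LinearMap.smul_apply, LinearMap.proj_apply, smul_eq_mul]
    simp only [LinearMap.smul_apply, LinearMap.proj_apply, smul_eq_mul]
  have hcv : ∀ (s : Ix σ (fun t => n t + 1)) (i : ι),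
      lam (cv n a D θ Z x s) i = -∑ J, D s (a i J) * mon x J -
        ∑ j, cor i j * θ j s := by
    intro s i
    rw [hlam]
    have h1 := hg i (D s)
    simp only [cv, Sum.elim_inl, Sum.elim_inr]
    by_cases hi : i ∈ Z
    · rw [if_pos hi, hZ i hi, map_zero] at *
      rw [zero_mul, sub_zero]
      linear_combination -h1
    · rw [if_neg hi, if_neg hi, mul_div_cancel₀ _ (hU i hi), h1]
      ring
  -- the coefficient form of `D_s H_t`
  have hsum : ∀ (s : Ix σ (fun t => n t + 1)) (t : κ), ∑ J, D s (h t J) * mon x J =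
      (if s.1 = t then mon x s.2 else 0) -
        ∑ j, (if (jj j).1 = t then mon x (jj j).2 else 0) * θ j s := by
    intro s i
    have h1 : ∀ J : Sym σ (n i + 1), D s (h i J) * mon x J =
        (if s = ⟨i, J⟩ then mon x J else 0) -
          ∑ j, if jj j = ⟨i, J⟩ then θ j s * mon x J else 0 := by
      intro J
      rw [hD s ⟨i, J⟩, sub_mul, Finset.sum_mul]
      congr 1
      · split_ifs <;> simp
      · refine Finset.sum_congr rfl fun j _ => ?_
        split_ifs <;> simp
    have h2 : ∀ (q : Ix σ (fun t => n t + 1)) (f : E),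
        ∑ J : Sym σ (n i + 1), (if q = ⟨i, J⟩ then f * mon x J else 0) =
          f * if q.1 = i then mon x q.2 else 0 := by
      rintro ⟨k, K⟩ f
      by_cases hk : k = i
      · subst hk
        rw [Finset.sum_eq_single K]
        · simp
        · intro J _ hJ
          rw [if_neg]
          intro h
          apply hJ
          have := eq_of_heq (Sigma.mk.inj h).2
          exact this.symm
        · intro h
          exact absurd (Finset.mem_univ K) h
      · rw [Finset.sum_eq_zero]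
        · simp [hk]
        · intro J _
          rw [if_neg]
          intro h
          exact hk (Sigma.mk.inj h).1
    rw [Finset.sum_congr rfl fun J _ => h1 J, Finset.sum_sub_distrib, Finset.sum_comm]
    congr 1
    · have h3 := h2 s 1
      simpa using h3
    · refine Finset.sum_congr rfl fun j _ => ?_
      rw [h2 (jj j) (θ j s), mul_comm]
  -- summation over the blocks
  have hbl : ∀ (s : Ix σ (fun t => n t + 1)) (i : ι), ∑ J, D s (a i J) * mon x J =
      (if bl s.1 = i then form (p s.1) x * mon x s.2 else 0) - ∑ j, cor i j * θ j s := by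
    intro s i
    rw [hM.der s i x]
    have h1 : ∀ (r : Ix σ (fun t => n t + 1)) (f : E),
        ∑ t, (if bl t = i then form (p t) x * ((if r.1 = t then mon x r.2 else 0) * f) else 0) =
          (if bl r.1 = i then form (p r.1) x * mon x r.2 else 0) * f := by
      intro r f
      rw [Finset.sum_eq_single r.1]
      · simp only [if_true]
        split_ifs <;> ring
      · intro t _ ht
        rw [if_neg (Ne.symm ht), zero_mul, mul_zero, ite_self]
      · intro h
        exact absurd (Finset.mem_univ _) h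
    have h2 : ∀ t, (if bl t = i then form (p t) x * ∑ J, D s (h t J) * mon x J else 0) =
        (if bl t = i then form (p t) x * ((if s.1 = t then mon x s.2 else 0) * 1) else 0) -
          ∑ j, if bl t = i then
            form (p t) x * ((if (jj j).1 = t then mon x (jj j).2 else 0) * θ j s) else 0 := by
      intro t
      rw [hsum]
      by_cases ht : bl t = i
      · simp only [if_pos ht, mul_sub, Finset.mul_sum, mul_one]
      · simp only [if_neg ht, Finset.sum_const_zero, sub_zero]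
    rw [Finset.sum_congr rfl fun t _ => h2 t, Finset.sum_sub_distrib, h1 s 1, mul_one,
      Finset.sum_comm]
    congr 1
    exact Finset.sum_congr rfl fun j _ => h1 (jj j) (θ j s)
  have hcvD : ∀ (t : κ) (J : Sym σ (n t + 1)),
      lam (cv n a D θ Z x ⟨t, J⟩) = Pi.single (bl t) (-(form (p t) x * mon x J)) := by
    intro t J
    funext k
    rw [hcv, hbl]
    by_cases hk : k = bl t
    · subst hk
      rw [Pi.single_eq_same, if_pos rfl]
      ring
    · rw [Pi.single_eq_of_ne hk, if_neg (fun h => hk h.symm)]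
      ring
  refine ⟨lam, ?_, hcvD, ?_⟩
  · funext i
    rw [hlam]
    have h1 := he i
    simp only [eul, Sum.elim_inl, Sum.elim_inr, Pi.zero_apply, mul_zero, Finset.sum_const_zero,
      sub_zero]
    rw [h1]
    by_cases hi : i ∈ Z
    · rw [if_pos hi, hZ i hi]
      ring
    · rw [if_neg hi, if_neg hi]
      ring
  · rintro ⟨t, I, j, l⟩
    simp only [syz, map_sub, map_smul, hcvD, Pool.Agent.Helper8.LV.kf_mon_cons]
    funext k
    by_cases hk : k = bl t
    · subst hk
      simp only [Pi.sub_apply, Pi.smul_apply, Pi.single_eq_same, smul_eq_mul, Pi.zero_apply]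
      ring
    · simp only [Pi.sub_apply, Pi.smul_apply, Pi.single_eq_of_ne hk, smul_eq_mul, Pi.zero_apply]
      ring

/-- change of normalisation -/
theorem eul_scale (d : ι → ℕ) (Z : Finset ι) (x : σ → E) (c : E) (hc : c ≠ 0) :
    (eul d Z x : (σ ⊕ ι) ⊕ τ → E) = phi c (eul d Z fun l => x l / c) := by
  funext r
  rcases r with (l | i) | j
  · simp only [eul, phi, LinearMap.pi_apply, LinearMap.smul_apply, LinearMap.proj_apply,
      Sum.elim_inl, smul_eq_mul]
    (clear * - hc; field_simp)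
  · simp only [eul, phi, LinearMap.pi_apply, LinearMap.smul_apply, LinearMap.proj_apply,
      Sum.elim_inl, Sum.elim_inr, smul_eq_mul, one_mul]
  · simp only [eul, phi, LinearMap.pi_apply, LinearMap.smul_apply, LinearMap.proj_apply,
      Sum.elim_inr, smul_eq_mul, one_mul]

theorem cv_scale (n : κ → ℕ) {d : ι → ℕ} (a : (i : ι) → Sym σ (d i) → E)
    (D : Ix σ (fun t => n t + 1) → Derivation ℤ E E)
    (θ : τ → Ix σ (fun t => n t + 1) → E) (Z : Finset ι) (x : σ → E)
    (hU : ∀ i ∉ Z, form (a i) x ≠ 0) (c : E) (hc : c ≠ 0) (s : Ix σ (fun t => n t + 1)) :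
    cv n a D θ Z x s =
      phi c (cv n a D θ Z (fun l => x l / c) s) + (D s c / c) • eul d Z x := by
  funext r
  set δ := D s with hδ
  rcases r with (l | i) | j
  · simp only [eul, cv, phi, LinearMap.pi_apply, LinearMap.smul_apply, LinearMap.proj_apply,
      Sum.elim_inl, smul_eq_mul, Pi.add_apply, Pi.smul_apply]
    have h1 : x l = c * (x l / c) := by field_simp
    have h2 : δ (x l) = c * δ (x l / c) + (x l / c) * δ c := by
      conv_lhs => rw [h1]
      rw [Derivation.leibniz]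
      simp only [smul_eq_mul]
    rw [h2]
    ring
  · simp only [eul, cv, phi, LinearMap.pi_apply, LinearMap.smul_apply, LinearMap.proj_apply,
      Sum.elim_inl, Sum.elim_inr, smul_eq_mul, one_mul, Pi.add_apply, Pi.smul_apply]
    by_cases hi : i ∈ Z
    · simp only [if_pos hi]
      ring
    · simp only [if_neg hi]
      have h1 := Pool.Agent.Helper8.LV.kf_form_scale (a i) x c hc
      have h2 : form (a i) (fun l => x l / c) ≠ 0 := by
        intro h0
        apply hU i hi
        rw [h1, h0, mul_zero]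
      have h3 := Pool.Agent.Helper8.LV.kf_logderiv δ c (form (a i) (fun l => x l / c)) (d i) hc h2
      rw [← h1] at h3
      exact h3
  · simp only [eul, cv, phi, LinearMap.pi_apply, LinearMap.smul_apply, LinearMap.proj_apply,
      Sum.elim_inr, smul_eq_mul, one_mul, Pi.add_apply, Pi.smul_apply, mul_zero, add_zero]

theorem syz_scale (n : κ → ℕ) {d : ι → ℕ} (a : (i : ι) → Sym σ (d i) → E)
    (D : Ix σ (fun t => n t + 1) → Derivation ℤ E E)
    (θ : τ → Ix σ (fun t => n t + 1) → E) (Z : Finset ι) (x : σ → E)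
    (hU : ∀ i ∉ Z, form (a i) x ≠ 0) (c : E) (hc : c ≠ 0)
    (s : Σ t : κ, Sym σ (n t) × σ × σ) :
    ∃ b : E, syz n a D θ Z x s = c • phi c (syz n a D θ Z (fun l => x l / c) s) +
      b • eul d Z x := by
  obtain ⟨i, I, j, l⟩ := s
  refine ⟨x j * (D ⟨i, l ::ₛ I⟩ c / c) - x l * (D ⟨i, j ::ₛ I⟩ c / c), ?_⟩
  simp only [syz]
  rw [cv_scale n a D θ Z x hU c hc ⟨i, l ::ₛ I⟩, cv_scale n a D θ Z x hU c hc ⟨i, j ::ₛ I⟩]
  funext r
  simp only [map_sub, map_smul, Pi.sub_apply, Pi.smul_apply, Pi.add_apply, smul_eq_mul]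
  have h1 : x j = c * (x j / c) := by field_simp
  have h2 : x l = c * (x l / c) := by (clear * - hc; field_simp)
  field_simp
  ring

end Pool.Agent.Helper6.CO
end

/- Helper12.LVF.H6.CO.KeyCol -/
section
/-! # CO-KEY: the columns -/

set_option autoImplicit false

namespace Pool.Agent.Helper6.CO

open Pool.Agent.Helper8.LG

open scoped BigOperators

section

variable {E : Type*} [Field E] {σ ι κ Tt : Type*} [Fintype σ] [DecidableEq σ] [DecidableEq ι]
  (n : κ → ℕ) {d : ι → ℕ} (a : (i : ι) → Sym σ (d i) → E)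
  (D : Ix σ (fun t => n t + 1) → Derivation ℤ E E)
  (θ : Tt → Ix σ (fun t => n t + 1) → E) (Z : Finset ι) (x : σ → E)

omit [Fintype σ] [DecidableEq σ] [DecidableEq ι] in
theorem phi_inj {c : E} (hc : c ≠ 0) :
    Function.Injective (phi (σ := σ) (ι := ι) (τ := Tt) c) := by
  intro f g h
  funext r
  have h1 := congrFun h r
  rcases r with (l | i) | j
  · simp only [phi, LinearMap.pi_apply, LinearMap.smul_apply, LinearMap.proj_apply, Sum.elim_inl,
      smul_eq_mul] at h1
    exact mul_left_cancel₀ hc h1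
  · simpa only [phi, LinearMap.pi_apply, LinearMap.smul_apply, LinearMap.proj_apply, Sum.elim_inl,
      Sum.elim_inr, smul_eq_mul, one_mul] using h1
  · simpa only [phi, LinearMap.pi_apply, LinearMap.smul_apply, LinearMap.proj_apply, Sum.elim_inr,
      smul_eq_mul, one_mul] using h1

omit [Fintype σ] [DecidableEq σ] [DecidableEq ι] in
theorem phi_apply (c : E) (f : (σ ⊕ ι) ⊕ Tt → E) (r : (σ ⊕ ι) ⊕ Tt) :
    phi c f r = (Sum.elim (Sum.elim (fun _ => c) (fun _ => 1)) (fun _ => 1) r : E) * f r := rfl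

omit [Fintype σ] [DecidableEq σ] in
theorem eul_row {i : ι} (hi : i ∈ Z) :
    (eul d Z x : (σ ⊕ ι) ⊕ Tt → E) (Sum.inl (Sum.inr i)) = 0 := by
  simp [eul, hi]

theorem cv_row (s : Ix σ (fun t => n t + 1)) {i : ι} (hi : i ∈ Z) :
    cv n a D θ Z x s (Sum.inl (Sum.inr i)) = 0 := by
  simp [cv, hi]

theorem syz_row (s : Σ t : κ, Sym σ (n t) × σ × σ) {i : ι} (hi : i ∈ Z) :
    syz n a D θ Z x s (Sum.inl (Sum.inr i)) = 0 := by
  simp [syz, cv_row n a D θ Z x _ hi]

/-- the column indexed by `o` -/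
def colF (o : Option (Σ t : κ, Sym σ (n t) × σ × σ)) : (σ ⊕ ι) ⊕ Tt → E :=
  o.elim (eul d Z x) (syz n a D θ Z x)

/-- the column indexed by `t` -/
def colR (j : σ) (t : κ) : (σ ⊕ ι) ⊕ Tt → E :=
  cv n a D θ Z x ⟨t, Sym.replicate (n t + 1) j⟩

omit [Fintype σ] [DecidableEq σ] in
theorem mon_rep (x : σ → E) (m : ℕ) (j : σ) : mon x (Sym.replicate m j) = x j ^ m := by
  simp [mon, Sym.coe_replicate]

variable {n a D θ Z x}

theorem span_tilde (b : Set (Option (Σ t : κ, Sym σ (n t) × σ × σ))) (hb0 : none ∈ b)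
    (hbsp : ∀ s, syz n a D θ Z x s ∈
      Submodule.span E (Set.range fun o : b => colF n a D θ Z x (o : Option _)))
    (hU : ∀ i ∉ Z, form (a i) x ≠ 0) {c : E} (hc : c ≠ 0)
    (s : Σ t : κ, Sym σ (n t) × σ × σ) :
    syz n a D θ Z (fun l => x l / c) s ∈
      Submodule.span E (Set.range fun o : b => colF n a D θ Z (fun l => x l / c) (o : Option _)) := by
  set W := Submodule.span E
    (Set.range fun o : b => colF n a D θ Z (fun l => x l / c) (o : Option _)) with hW
  have h0 : eul d Z (fun l => x l / c) ∈ W := Submodule.subset_span ⟨⟨none, hb0⟩, rfl⟩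
  have h0' : (eul d Z x : (σ ⊕ ι) ⊕ Tt → E) ∈ W.map (phi c) := by
    rw [eul_scale d Z x c hc]
    exact Submodule.mem_map_of_mem h0
  have h1 : Submodule.span E (Set.range fun o : b => colF n a D θ Z x (o : Option _)) ≤
      W.map (phi c) := by
    rw [Submodule.span_le]
    rintro _ ⟨⟨o, ho⟩, rfl⟩
    rcases o with _ | s'
    · exact h0'
    · obtain ⟨bb, hbb⟩ := syz_scale n a D θ Z x hU c hc s'
      change syz n a D θ Z x s' ∈ W.map (phi c)
      rw [hbb]
      exact add_mem (Submodule.smul_mem _ _ (Submodule.mem_map_of_mem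
        (Submodule.subset_span ⟨⟨some s', ho⟩, rfl⟩))) (Submodule.smul_mem _ _ h0')
  obtain ⟨bb, hbb⟩ := syz_scale n a D θ Z x hU c hc s
  have h2 := h1 (hbsp s)
  have h3 : c • phi c (syz n a D θ Z (fun l => x l / c) s) ∈ W.map (phi c) := by
    have h4 := sub_mem h2 (Submodule.smul_mem _ bb h0')
    rwa [hbb, add_sub_cancel_right] at h4
  have h5 : phi c (syz n a D θ Z (fun l => x l / c) s) ∈ W.map (phi c) := by
    have h6 := Submodule.smul_mem _ c⁻¹ h3
    rwa [smul_smul, inv_mul_cancel₀ hc, one_smul] at h6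
  obtain ⟨y, hy, hy2⟩ := h5
  rw [← phi_inj hc hy2]
  exact hy

/-- the column indexed by `t`; the columns of the blocks are given by their weights `g` and
their indices `f` -/
def colK (n : κ → ℕ) {d : ι → ℕ} (a : (i : ι) → Sym σ (d i) → E)
    (D : Ix σ (fun t => n t + 1) → Derivation ℤ E E)
    (θ : Tt → Ix σ (fun t => n t + 1) → E) (Z : Finset ι)
    (b : Set (Option (Σ t : κ, Sym σ (n t) × σ × σ))) (S : Set κ) (x : σ → E) (j : σ)
    (g : κ → E) (f : κ → κ) : (b ⊕ S) → (σ ⊕ ι) ⊕ Tt → E :=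
  Sum.elim (fun o : b => colF n a D θ Z x (o : Option _))
    fun t : S => g t • colR n a D θ Z x j (f t)

/-- the ranks of the columns -/
def rkK {A : Type*} (b : Set (Option A)) (S : Set κ) (r : κ → ℕ) : (b ⊕ S) → ℕ :=
  Sum.elim (fun o : b => (o : Option A).elim 0 fun _ => 1) fun t : S => 2 + r t

/-- the diagonal entries of the transition matrix -/
def gK {A : Type*} (b : Set (Option A)) (S : Set κ) (Q : κ → ℕ) (c : E) : (b ⊕ S) → E :=
  Sum.elim (fun o : b => (o : Option A).elim 1 fun _ => c) fun t : S => (c ^ Q t)⁻¹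

/-- the rows of a family of columns, spanned by `x` and the `D_p x` -/
theorem colK_span (b : Set (Option (Σ t : κ, Sym σ (n t) × σ × σ))) (S : Set κ)
    (i₀ : σ) (g : κ → E) (f : κ → κ) (t : b ⊕ S) :
    (fun l => colK n a D θ Z b S x i₀ g f t (Sum.inl (Sum.inl l))) ∈
      Submodule.span E (Set.range (col D x)) := by
  have h1 : ∀ q, col D x q ∈ Submodule.span E (Set.range (col D x)) :=
    fun q => Submodule.subset_span ⟨q, rfl⟩
  rcases t with ⟨o, ho⟩ | t
  · rcases o with _ | s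
    · exact h1 none
    · exact sub_mem (Submodule.smul_mem _ (x s.2.2.1) (h1 (some ⟨s.1, s.2.2.2 ::ₛ s.2.1⟩)))
        (Submodule.smul_mem _ (x s.2.2.2) (h1 (some ⟨s.1, s.2.2.1 ::ₛ s.2.1⟩)))
  · exact Submodule.smul_mem _ (g t) (h1 (some ⟨f t, Sym.replicate (n (f t) + 1) i₀⟩))

theorem colK_zero (b : Set (Option (Σ t : κ, Sym σ (n t) × σ × σ))) (S : Set κ)
    (i₀ : σ) (g : κ → E) (f : κ → κ) (t : b ⊕ S) {i : ι} (hi : i ∈ Z) :
    colK n a D θ Z b S x i₀ g f t (Sum.inl (Sum.inr i)) = 0 := by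
  rcases t with ⟨o, ho⟩ | t
  · rcases o with _ | s
    · exact eul_row (Tt := Tt) Z x hi
    · exact syz_row n a D θ Z x s hi
  · have h1 := cv_row n a D θ Z x ⟨f t, Sym.replicate (n (f t) + 1) i₀⟩ hi
    change g t * cv n a D θ Z x ⟨f t, Sym.replicate (n (f t) + 1) i₀⟩ (Sum.inl (Sum.inr i)) = 0
    rw [h1, mul_zero]

omit [DecidableEq ι] [Fintype σ] [DecidableEq σ] in
theorem prod_gK {A : Type*} (b : Set (Option A)) [Fintype b] (S : Set κ) [Fintype S]
    (hb0 : none ∈ b) (Q : κ → ℕ) (c : E) (hc : c ≠ 0) :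
    (∏ t, gK b S Q c t) * (c * c ^ ∑ t : S, Q t) = c ^ Fintype.card b := by
  classical
  rw [Fintype.prod_sum_type]
  have h1 : ∏ t : S, gK b S Q c (Sum.inr t) = (c ^ ∑ t : S, Q t)⁻¹ := by
    rw [← Finset.prod_pow_eq_pow_sum, ← Finset.prod_inv_distrib]
    rfl
  have h2 : (∏ o : b, gK b S Q c (Sum.inl o)) * c = c ^ Fintype.card b := by
    rw [← Finset.mul_prod_erase Finset.univ _ (Finset.mem_univ (⟨none, hb0⟩ : b))]
    have h3 : gK b S Q c (Sum.inl ⟨none, hb0⟩) = 1 := rfl
    rw [h3, one_mul, Finset.prod_congr rfl (g := fun _ => c)]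
    · rw [Finset.prod_const, Finset.card_erase_of_mem (Finset.mem_univ _), Finset.card_univ,
        ← pow_succ]
      congr 1
      have h5 : 0 < Fintype.card b := Fintype.card_pos_iff.2 ⟨⟨none, hb0⟩⟩
      exact Nat.sub_add_cancel h5
    · rintro ⟨o, ho⟩ h
      rcases o with _ | s
      · exact absurd rfl (Finset.ne_of_mem_erase h)
      · rfl
  rw [h1]
  have h4 : c ^ ∑ t : S, Q t ≠ 0 := pow_ne_zero _ hc
  calc (∏ o : b, gK b S Q c (Sum.inl o)) * (c ^ ∑ t : S, Q t)⁻¹ * (c * c ^ ∑ t : S, Q t)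
      = ((∏ o : b, gK b S Q c (Sum.inl o)) * c) * ((c ^ ∑ t : S, Q t)⁻¹ * c ^ ∑ t : S, Q t) := by
        ring
    _ = c ^ Fintype.card b := by rw [inv_mul_cancel₀ h4, mul_one, h2]

end

end Pool.Agent.Helper6.CO
end

/- Helper12.LVF.H6.CO.KeyTrans -/
section
/-! # CO-KEY: the transition between two normalisations -/

set_option autoImplicit false

namespace Pool.Agent.Helper6.CO

open Pool.Agent.Helper8.LG
open Pool.Agent.Helper8.LV (kf_form_scale)

open scoped BigOperators

section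

variable {E : Type*} [Field E] {σ ι κ Tt : Type*} [Fintype σ] [DecidableEq σ] [DecidableEq ι]
  {n : κ → ℕ} {d : ι → ℕ} {a : (i : ι) → Sym σ (d i) → E}
  {D : Ix σ (fun t => n t + 1) → Derivation ℤ E E}
  {θ : Tt → Ix σ (fun t => n t + 1) → E} {Z : Finset ι} {x : σ → E}

/-- the basis columns -/
theorem colF_mem (b : Set (Option (Σ t : κ, Sym σ (n t) × σ × σ))) (hb0 : none ∈ b)
    (hU : ∀ i ∉ Z, form (a i) x ≠ 0) {c : E} (hc : c ≠ 0) (o : b) :
    colF n a D θ Z x (o : Option _) ∈ Submodule.span E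
      (Set.range fun o : b => phi c (colF n a D θ Z (fun l => x l / c) (o : Option _))) := by
  have h0 : (eul d Z x : (σ ⊕ ι) ⊕ Tt → E) ∈ Submodule.span E
      (Set.range fun o : b => phi c (colF n a D θ Z (fun l => x l / c) (o : Option _))) := by
    rw [eul_scale d Z x c hc]
    exact Submodule.subset_span ⟨⟨none, hb0⟩, rfl⟩
  obtain ⟨o, ho⟩ := o
  rcases o with _ | s
  · exact h0
  · obtain ⟨bb, hbb⟩ := syz_scale n a D θ Z x hU c hc s
    change syz n a D θ Z x s ∈ _
    rw [hbb]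
    exact add_mem (Submodule.smul_mem _ _ (Submodule.subset_span ⟨⟨some s, ho⟩, rfl⟩))
      (Submodule.smul_mem _ _ h0)

/-- the columns of the moving forms -/
theorem colR_mem (b : Set (Option (Σ t : κ, Sym σ (n t) × σ × σ))) (hb0 : none ∈ b)
    (hbsp : ∀ s, syz n a D θ Z x s ∈
      Submodule.span E (Set.range fun o : b => colF n a D θ Z x (o : Option _)))
    (hU : ∀ i ∉ Z, form (a i) x ≠ 0) (i₀ : σ) (hx : x i₀ = 1) (j₀ : σ) (hj : x j₀ ≠ 0)
    (t : κ) :
    colR n a D θ Z x i₀ t - (x j₀ ^ (n t + 1))⁻¹ •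
        phi (x j₀) (colR n a D θ Z (fun l => x l / x j₀) j₀ t) ∈
      Submodule.span E
        (Set.range fun o : b =>
          phi (x j₀) (colF n a D θ Z (fun l => x l / x j₀) (o : Option _))) := by
  set c := x j₀ with hc
  set xt : σ → E := fun l => x l / c with hxt
  have h1 := cv_sub_mem n a D θ Z xt j₀ t (Sym.replicate (n t + 1) i₀)
  have hxj : xt j₀ = 1 := div_self hj
  rw [hxj, one_pow, one_smul, mon_rep] at h1
  have h2 : Submodule.span E (Set.range (syz n a D θ Z xt)) ≤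
      Submodule.span E (Set.range fun o : b => colF n a D θ Z xt (o : Option _)) := by
    rw [Submodule.span_le]
    rintro _ ⟨s, rfl⟩
    exact span_tilde b hb0 hbsp hU hj s
  have h3 := h2 h1
  have hxi : xt i₀ ^ (n t + 1) = (c ^ (n t + 1))⁻¹ := by
    rw [hxt]
    simp only
    rw [hx, one_div, inv_pow]
  rw [hxi] at h3
  have h4 : ∀ z, z ∈ Submodule.span E (Set.range fun o : b => colF n a D θ Z xt (o : Option _)) →
      phi c z ∈ Submodule.span E
        (Set.range fun o : b => phi c (colF n a D θ Z xt (o : Option _))) := by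
    intro z hz
    have h5 := Submodule.mem_map_of_mem (f := phi (σ := σ) (ι := ι) (τ := Tt) c) hz
    rw [Submodule.map_span, ← Set.range_comp] at h5
    exact h5
  have h6 := h4 _ h3
  rw [map_sub, map_smul] at h6
  have h7 := cv_scale n a D θ Z x hU c hj ⟨t, Sym.replicate (n t + 1) i₀⟩
  have h8 : colR n a D θ Z x i₀ t - (c ^ (n t + 1))⁻¹ • phi c (colR n a D θ Z xt j₀ t) =
      (phi c (cv n a D θ Z xt ⟨t, Sym.replicate (n t + 1) i₀⟩) -
        (c ^ (n t + 1))⁻¹ • phi c (cv n a D θ Z xt ⟨t, Sym.replicate (n t + 1) j₀⟩)) +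
        (D ⟨t, Sym.replicate (n t + 1) i₀⟩ c / c) • eul d Z x := by
    change cv n a D θ Z x ⟨t, Sym.replicate (n t + 1) i₀⟩ - _ = _
    rw [h7]
    change _ - (c ^ (n t + 1))⁻¹ • phi c (cv n a D θ Z xt ⟨t, Sym.replicate (n t + 1) j₀⟩) = _
    abel
  rw [h8]
  refine add_mem h6 (Submodule.smul_mem _ _ ?_)
  rw [eul_scale d Z x c hj]
  exact Submodule.subset_span ⟨⟨none, hb0⟩, rfl⟩

/-- In a block with only one column the columns are proportional to the values of the `m_t`,
modulo the columns of smaller rank. -/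
theorem flag_one {V : Type*} [AddCommGroup V] [Module E V] (bl : κ → ι) (V₀ : Submodule E V)
    (C : κ → V) (r : κ → ℕ) (S : Set κ)
    (hF2 : ∀ t, C t ∈ V₀ ⊔ Submodule.span E (C '' {s | s ∈ S ∧ r s ≤ r t}))
    (hF3 : ∀ s t t', bl t = bl t' → bl s ≠ bl t → r s ≤ r t → r s < r t')
    (lam : V →ₗ[E] (ι → E)) (m : κ → E) (hV : ∀ v ∈ V₀, lam v = 0)
    (hC : ∀ t, lam (C t) = Pi.single (bl t) (-(m t))) (t : κ)
    (hone : ∀ s ∈ S, bl s = bl t → s = t) (t₁ : κ) (ht₁ : bl t₁ = bl t) :
    ∃ (c : E) (v w : V), v ∈ V₀ ∧ w ∈ Submodule.span E (C '' {s | s ∈ S ∧ r s < r t}) ∧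
      C t₁ = v + w + c • C t ∧ m t₁ = c * m t := by
  have h1 : C t₁ ∈ (V₀ ⊔ Submodule.span E (C '' {s | s ∈ S ∧ r s < r t})) ⊔
      Submodule.span E {C t} := by
    refine (sup_le (le_sup_left.trans le_sup_left) ?_ :
      V₀ ⊔ Submodule.span E (C '' {s | s ∈ S ∧ r s ≤ r t₁}) ≤ _) (hF2 t₁)
    rw [Submodule.span_le]
    rintro _ ⟨s, ⟨hs1, hs2⟩, rfl⟩
    by_cases hs : bl s = bl t
    · have h2 := hone s hs1 hs
      rw [h2]
      exact Submodule.mem_sup_right (Submodule.mem_span_singleton_self _)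
    · exact Submodule.mem_sup_left (Submodule.mem_sup_right (Submodule.subset_span
        ⟨s, ⟨hs1, hF3 s t₁ t ht₁ (by rw [ht₁]; exact hs) hs2⟩, rfl⟩))
  obtain ⟨y, hy, z, hz, hyz⟩ := Submodule.mem_sup.1 h1
  obtain ⟨v, hv, w, hw, hvw⟩ := Submodule.mem_sup.1 hy
  obtain ⟨c, rfl⟩ := Submodule.mem_span_singleton.1 hz
  refine ⟨c, v, w, hv, hw, by rw [hvw, hyz], ?_⟩
  have h2 : lam w (bl t) = 0 := by
    have h3 : Submodule.span E (C '' {s | s ∈ S ∧ r s < r t}) ≤
        LinearMap.ker ((LinearMap.proj (bl t) : (ι → E) →ₗ[E] E).comp lam) := by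
      rw [Submodule.span_le]
      rintro _ ⟨s, ⟨hs1, hs2⟩, rfl⟩
      have hne : bl t ≠ bl s := by
        intro h
        have h4 := hone s hs1 h.symm
        rw [h4] at hs2
        exact lt_irrefl _ hs2
      rw [SetLike.mem_coe, LinearMap.mem_ker, LinearMap.comp_apply, LinearMap.proj_apply, hC,
        Pi.single_eq_of_ne hne]
    exact h3 hw
  have h3 := congrArg (fun z => lam z (bl t)) hyz
  rw [← hvw] at h3
  simp only [map_add, map_smul, Pi.add_apply, Pi.smul_apply, h2, hV v hv, Pi.zero_apply, hC,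
    ht₁, Pi.single_eq_same, smul_eq_mul] at h3
  linear_combination h3

theorem trans_mem [Finite κ] (bl : κ → ι) {bb : κ → ℕ} (p : (t : κ) → Sym σ (bb t) → E)
    (hdeg : ∀ t, d (bl t) = bb t + (n t + 1))
    (b : Set (Option (Σ t : κ, Sym σ (n t) × σ × σ))) (hb0 : none ∈ b)
    (hbsp : ∀ s, syz n a D θ Z x s ∈
      Submodule.span E (Set.range fun o : b => colF n a D θ Z x (o : Option _)))
    (hU : ∀ i ∉ Z, form (a i) x ≠ 0) (i₀ : σ) (hx : x i₀ = 1) (j₀ : σ) (hj : x j₀ ≠ 0)
    (r : κ → ℕ) (S : Set κ)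
    (hF2 : ∀ t, colR n a D θ Z x i₀ t ∈
      Submodule.span E (Set.range fun o : b => colF n a D θ Z x (o : Option _)) ⊔
        Submodule.span E (colR n a D θ Z x i₀ '' {s | s ∈ S ∧ r s ≤ r t}))
    (hF3 : ∀ s t t', bl t = bl t' → bl s ≠ bl t → r s ≤ r t → r s < r t')
    (lam : ((σ ⊕ ι) ⊕ Tt → E) →ₗ[E] (ι → E))
    (hV : ∀ v ∈ Submodule.span E (Set.range fun o : b => colF n a D θ Z x (o : Option _)),
      lam v = 0)
    (hC : ∀ t, lam (colR n a D θ Z x i₀ t) = Pi.single (bl t) (-(form (p t) x)))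
    (sp : ι → Prop) [DecidablePred sp]
    (hone : ∀ t ∈ S, sp (bl t) → ∀ s ∈ S, bl s = bl t → s = t)
    (hne : ∀ t ∈ S, sp (bl t) → form (p t) x ≠ 0)
    (f : ι → κ) (hf : ∀ i, sp i → bl (f i) = i ∧ form (p (f i)) (fun l => x l / x j₀) ≠ 0)
    (t : b ⊕ S) :
    colK n a D θ Z b S x i₀ (fun t => if sp (bl t) then (form (p t) x)⁻¹ else 1) id t -
      gK b S (fun t => if sp (bl t) then d (bl t) else n t + 1) (x j₀) t •
        phi (x j₀) (colK n a D θ Z b S (fun l => x l / x j₀) j₀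
          (fun t => if sp (bl t) then (form (p (f (bl t))) fun l => x l / x j₀)⁻¹ else 1)
          (fun t => if sp (bl t) then f (bl t) else t) t) ∈
      Submodule.span E ((fun t' => phi (x j₀) (colK n a D θ Z b S (fun l => x l / x j₀) j₀
          (fun t => if sp (bl t) then (form (p (f (bl t))) fun l => x l / x j₀)⁻¹ else 1)
          (fun t => if sp (bl t) then f (bl t) else t) t')) ''
            {t' | rkK b S r t' < rkK b S r t}) := by
  set c := x j₀ with hc
  set xt : σ → E := fun l => x l / c with hxt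
  set g : κ → E := fun t => if sp (bl t) then (form (p t) x)⁻¹ else 1 with hg
  set gt : κ → E := fun t => if sp (bl t) then (form (p (f (bl t))) xt)⁻¹ else 1 with hgt
  set ft : κ → κ := fun t => if sp (bl t) then f (bl t) else t with hft
  set Q : κ → ℕ := fun t => if sp (bl t) then d (bl t) else n t + 1 with hQ
  set Kt := colK n a D θ Z b S xt j₀ gt ft with hKt
  set X2 := Submodule.span E
    (Set.range fun o : b => phi c (colF n a D θ Z xt (o : Option _))) with hX2
  -- the part of the basis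
  have hX2le : ∀ m, 2 ≤ m → X2 ≤ Submodule.span E ((fun t' => phi c (Kt t')) ''
      {t' | rkK b S r t' < m}) := by
    intro m hm
    rw [hX2, Submodule.span_le]
    rintro _ ⟨o, rfl⟩
    refine Submodule.subset_span ⟨Sum.inl o, ?_, rfl⟩
    obtain ⟨o, ho⟩ := o
    rcases o with _ | s
    · change 0 < m
      omega
    · change 1 < m
      omega
  -- the other columns
  have key : ∀ (N : ℕ) (t : κ) (ht : t ∈ S), r t = N →
      g t • colR n a D θ Z x i₀ t - (c ^ Q t)⁻¹ • phi c (gt t • colR n a D θ Z xt j₀ (ft t)) ∈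
      Submodule.span E ((fun t' => phi c (Kt t')) '' {t' | rkK b S r t' < 2 + r t}) := by
    intro N
    induction N using Nat.strong_induction_on with
    | _ N ih =>
      intro t ht htN
      by_cases hsp : sp (bl t)
      · obtain ⟨hf1, hf2⟩ := hf (bl t) hsp
        obtain ⟨cc, v, w, hv, hw, h1, h2⟩ := flag_one bl _ (colR n a D θ Z x i₀) r S hF2 hF3 lam
          (fun t => form (p t) x) hV hC t (fun s hs hst => hone t ht hsp s hs hst) (f (bl t)) hf1
        have hmt : form (p t) x ≠ 0 := hne t ht hsp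
        have hm1 : form (p (f (bl t))) x = c ^ bb (f (bl t)) * form (p (f (bl t))) xt :=
          Pool.Agent.Helper8.LV.kf_form_scale (p (f (bl t))) x c hj
        have hm1' : form (p (f (bl t))) x ≠ 0 := by
          rw [hm1]
          exact mul_ne_zero (pow_ne_zero _ hj) hf2
        have hcc : cc ≠ 0 := by
          intro h
          apply hm1'
          rw [h2, h, zero_mul]
        have hgt' : g t = (form (p t) x)⁻¹ := if_pos hsp
        have hgtt : gt t = (form (p (f (bl t))) xt)⁻¹ := if_pos hsp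
        have hftt : ft t = f (bl t) := if_pos hsp
        have hQt : Q t = bb (f (bl t)) + (n (f (bl t)) + 1) := by
          rw [hQ]
          simp only [if_pos hsp]
          rw [← hdeg, hf1]
        have h3 : g t • colR n a D θ Z x i₀ t - (c ^ Q t)⁻¹ •
            phi c (gt t • colR n a D θ Z xt j₀ (ft t)) =
            (form (p (f (bl t))) x)⁻¹ • ((colR n a D θ Z x i₀ (f (bl t)) -
              (c ^ (n (f (bl t)) + 1))⁻¹ • phi c (colR n a D θ Z xt j₀ (f (bl t)))) - v - w) := by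
          have h4 : g t • colR n a D θ Z x i₀ t = (form (p (f (bl t))) x)⁻¹ •
              (colR n a D θ Z x i₀ (f (bl t)) - v - w) := by
            rw [h1, hgt']
            have h5 : v + w + cc • colR n a D θ Z x i₀ t - v - w =
                cc • colR n a D θ Z x i₀ t := by abel
            rw [h5, smul_smul, h2]
            congr 1
            field_simp
          have h6 : (c ^ Q t)⁻¹ • phi c (gt t • colR n a D θ Z xt j₀ (ft t)) =
              (form (p (f (bl t))) x)⁻¹ • ((c ^ (n (f (bl t)) + 1))⁻¹ •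
                phi c (colR n a D θ Z xt j₀ (f (bl t)))) := by
            rw [hgtt, hftt, map_smul, smul_smul, smul_smul, hQt, hm1, pow_add]
            congr 1
            have h7 : c ^ bb (f (bl t)) ≠ 0 := pow_ne_zero _ hj
            have h8 : c ^ (n (f (bl t)) + 1) ≠ 0 := pow_ne_zero _ hj
            field_simp
          rw [h4, h6, ← smul_sub]
          congr 1
          abel
        rw [h3]
        refine Submodule.smul_mem _ _ (sub_mem (sub_mem ?_ ?_) ?_)
        · exact hX2le _ (by omega) (colR_mem b hb0 hbsp hU i₀ hx j₀ hj (f (bl t)))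
        · refine hX2le _ (by omega) ?_
          have h5 : Submodule.span E (Set.range fun o : b => colF n a D θ Z x (o : Option _)) ≤
              X2 := by
            rw [Submodule.span_le]
            rintro _ ⟨o, rfl⟩
            exact colF_mem b hb0 hU hj o
          exact h5 hv
        · refine (Submodule.span_le.2 ?_ : Submodule.span E
            (colR n a D θ Z x i₀ '' {s | s ∈ S ∧ r s < r t}) ≤ _) hw
          rintro _ ⟨s, ⟨hs1, hs2⟩, rfl⟩
          have h5 := ih (r s) (by rw [← htN]; exact hs2) s hs1 rfl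
          have h6 : Submodule.span E ((fun t' => phi c (Kt t')) '' {t' | rkK b S r t' < 2 + r s}) ≤
              Submodule.span E ((fun t' => phi c (Kt t')) '' {t' | rkK b S r t' < 2 + r t}) :=
            Submodule.span_mono (Set.image_mono fun t' ht' =>
              (show rkK b S r t' < 2 + r s from ht').trans
                (show 2 + r s < 2 + r t from Nat.add_lt_add_left hs2 2))
          have h7 := h6 h5
          have h8 : (c ^ Q s)⁻¹ • phi c (gt s • colR n a D θ Z xt j₀ (ft s)) ∈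
              Submodule.span E ((fun t' => phi c (Kt t')) '' {t' | rkK b S r t' < 2 + r t}) := by
            refine Submodule.smul_mem _ _ (Submodule.subset_span ⟨Sum.inr ⟨s, hs1⟩, ?_, rfl⟩)
            change 2 + r s < 2 + r t
            omega
          have h9 := add_mem h7 h8
          rw [sub_add_cancel] at h9
          have hgs : g s ≠ 0 := by
            rw [hg]
            by_cases hsps : sp (bl s)
            · simp only [if_pos hsps]
              exact inv_ne_zero (hne s hs1 hsps)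
            · simp only [if_neg hsps]
              exact one_ne_zero
          have h10 := Submodule.smul_mem _ (g s)⁻¹ h9
          rwa [smul_smul, inv_mul_cancel₀ hgs, one_smul] at h10
      · have hgt' : g t = 1 := if_neg hsp
        have hgtt : gt t = 1 := if_neg hsp
        have hftt : ft t = t := if_neg hsp
        have hQt : Q t = n t + 1 := if_neg hsp
        rw [hgt', hgtt, hftt, hQt, one_smul, one_smul]
        exact hX2le _ (by omega) (colR_mem b hb0 hbsp hU i₀ hx j₀ hj t)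
  rcases t with ⟨o, ho⟩ | ⟨t, ht⟩
  · rcases o with _ | s
    · change eul d Z x - (1 : E) • phi c (eul d Z xt) ∈ _
      rw [one_smul, ← eul_scale d Z x c hj, sub_self]
      exact zero_mem _
    · change syz n a D θ Z x s - c • phi c (syz n a D θ Z xt s) ∈ _
      obtain ⟨bb', hbb⟩ := syz_scale n a D θ Z x hU c hj s
      rw [hbb, add_sub_cancel_left]
      refine Submodule.smul_mem _ _ ?_
      rw [eul_scale d Z x c hj]
      exact Submodule.subset_span ⟨Sum.inl ⟨none, hb0⟩, Nat.zero_lt_one, rfl⟩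
  · exact key (r t) t ht rfl

end

end Pool.Agent.Helper6.CO
end

/- Helper6.CO.KeyDet -/
section
/-! # CO-KEY: the determinant estimate -/

set_option autoImplicit false

namespace Pool.Agent.Helper6.CO

open scoped BigOperators

theorem det_est {E R J : Type*} [Field E] [Fintype J] [DecidableEq J] (O : ValuationSubring E)
    (Δ c : E) (hc : c ≠ 0) (hci : c⁻¹ ∈ O) (hΔ : Δ ∈ O) (ρ : J → R) (uw wt rf : R → E)
    (ee : R → ℕ) (hdecomp : ∀ s, uw s = c ^ ee s * wt s) (K Kt : J → R → E) (rk : J → ℕ)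
    (g : J → E) (nl : ℕ) (hrf : ∏ s, rf (ρ s) = c ^ nl)
    (hT : ∀ t, ∃ τ : J → E, (∀ r, K t r = ∑ t', τ t' * (rf r * Kt t' r)) ∧ τ t = g t ∧
      ∀ t', t' ≠ t → rk t ≤ rk t' → τ t' = 0)
    (M nb m : ℕ) (hg : (∏ t, g t) * (c * c ^ M) = c ^ nb)
    (hm : 1 + M = (∑ s, ee (ρ s) + nl + nb) + 1 + m)
    (hent : ∀ s t, Δ ^ 2 * (wt (ρ s) * Kt t (ρ s)) ∈ O) (k' n : ℕ)
    (hk : n = Fintype.card J + k') (y : E) (hy : y / c ∈ O) :
    Δ ^ (2 * n) * (Matrix.det (Matrix.of fun s t => uw (ρ s) * K t (ρ s)) * y) ∈ O := by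
  choose τ hτ1 hτ2 hτ3 using hT
  set N : Matrix J J E := Matrix.of fun s t => wt (ρ s) * Kt t (ρ s) with hN
  set T : Matrix J J E := Matrix.of fun t' t => τ t t' with hT
  have hTdet : T.det = ∏ t, g t :=
    Helper74.LG.det_tri T rk _ (fun t => hτ2 t) fun t' t h1 h2 => hτ3 t t' h1 h2
  have hmat : (Matrix.of fun s t => uw (ρ s) * K t (ρ s)) =
      (Matrix.of fun s t' => (c ^ ee (ρ s) * rf (ρ s)) * N s t') * T := by
    ext s t
    rw [Matrix.mul_apply, Matrix.of_apply, hτ1 t, Finset.mul_sum]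
    refine Finset.sum_congr rfl fun t' _ => ?_
    rw [hdecomp]
    simp only [hN, hT, Matrix.of_apply]
    ring
  have hdet : Matrix.det (Matrix.of fun s t => uw (ρ s) * K t (ρ s)) *
      (c * c ^ M) = c ^ (∑ s, ee (ρ s) + nl + nb) * N.det := by
    rw [hmat, Matrix.det_mul, Matrix.det_mul_column, hTdet, mul_assoc, hg,
      Finset.prod_mul_distrib, Finset.prod_pow_eq_pow_sum, hrf]
    ring
  set G := Matrix.det (Matrix.of fun s t => uw (ρ s) * K t (ρ s)) with hG
  have hG2 : G * c ^ (m + 1) = N.det := by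
    have h1 : c * c ^ M = c ^ (∑ s, ee (ρ s) + nl + nb) * c ^ (m + 1) := by
      rw [← pow_succ', ← pow_add]
      congr 1
      omega
    rw [h1] at hdet
    have h2 : c ^ (∑ s, ee (ρ s) + nl + nb) ≠ 0 := pow_ne_zero _ hc
    apply mul_left_cancel₀ h2
    rw [← hdet]
    ring
  have hNdet : (Δ ^ 2) ^ Fintype.card J * N.det ∈ O := by
    rw [← Matrix.det_smul]
    refine Helper74.LG.det_mem O.toSubring _ fun s t => ?_
    rw [Matrix.smul_apply, smul_eq_mul]
    exact hent s t
  have hfin : Δ ^ (2 * n) * (G * y) =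
      (Δ ^ 2) ^ k' * (c⁻¹ ^ m * (y / c)) * ((Δ ^ 2) ^ Fintype.card J * N.det) := by
    have h1 : c⁻¹ ^ m * c ^ (m + 1) = c := by
      rw [pow_succ, ← mul_assoc, ← mul_pow, inv_mul_cancel₀ hc, one_pow, one_mul]
    have h2 : y / c * c = y := div_mul_cancel₀ _ hc
    rw [hk, pow_mul, pow_add, ← hG2]
    calc (Δ ^ 2) ^ Fintype.card J * (Δ ^ 2) ^ k' * (G * y)
        = (Δ ^ 2) ^ Fintype.card J * (Δ ^ 2) ^ k' *
            (G * (y / c * (c⁻¹ ^ m * c ^ (m + 1)))) := by
          rw [h1, h2]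
      _ = _ := by ring
  rw [hfin]
  exact mul_mem (mul_mem (pow_mem (pow_mem hΔ _) _) (mul_mem (pow_mem hci _) hy)) hNdet

end Pool.Agent.Helper6.CO
end

/- Helper12.LVF.H6.CO.Key -/
section
/-! # CO: the key lemma -/

set_option autoImplicit false

namespace Pool.Agent.Helper6.CO

open Pool.Agent.Helper8.LG

open scoped BigOperators

section

variable {E : Type*} [Field E] {σ ι κ Tt : Type*} [Fintype σ] [DecidableEq σ] [DecidableEq ι]
  {n : κ → ℕ} {d : ι → ℕ} {a : (i : ι) → Sym σ (d i) → E}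
  {D : Ix σ (fun t => n t + 1) → Derivation ℤ E E}
  {θ : Tt → Ix σ (fun t => n t + 1) → E} {Z : Finset ι} {x : σ → E}

/-- the weights of the rows -/
private def wt (u : ι → E) (e : ι → ℕ) (c : E) : (σ ⊕ ι) ⊕ Tt → E :=
  Sum.elim (Sum.elim (fun _ => 1) fun i => u i / c ^ e i) fun _ => 1

private theorem entry_mem (b : Set (Option (Σ t : κ, Sym σ (n t) × σ × σ))) (S : Set κ)
    (u : ι → E) (e : ι → ℕ) (c : E) (j₀ : σ) (g : κ → E) (f : κ → κ)
    (O : ValuationSubring E) (Δ : E) (hg : ∀ t : S, Δ * g t ∈ O)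
    (xt : σ → E) (hxt : ∀ l, xt l ∈ O) (hD : Bdd D Δ O) (hθ : ∀ j s, Δ * θ j s ∈ O)
    (r : (σ ⊕ ι) ⊕ Tt)
    (hr : ∀ i, r = Sum.inl (Sum.inr i) → i ∉ Z ∧ Δ * (u i / c ^ e i) ∈ O ∧
      ∀ p, Δ * (u i / c ^ e i * (D p (form (a i) xt) / form (a i) xt)) ∈ O) (t : b ⊕ S) :
    Δ ^ 2 * (wt u e c r * colK n a D θ Z b S xt j₀ g f t r) ∈ O := by
  have h1 : Δ * (wt u e c r * eul d Z xt r) ∈ O := by
    rcases r with (l | i) | j
    · simp only [wt, eul, Sum.elim_inl, one_mul]
      exact mul_mem hD.1 (hxt l)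
    · obtain ⟨h2, h3, _⟩ := hr i rfl
      simp only [wt, eul, Sum.elim_inl, Sum.elim_inr, if_neg h2]
      rw [← mul_assoc]
      exact mul_mem h3 (natCast_mem O _)
    · simp only [wt, eul, Sum.elim_inr, mul_zero]
      exact zero_mem O
  have h2 : ∀ p, Δ * (wt u e c r * cv n a D θ Z xt p r) ∈ O := by
    intro p
    rcases r with (l | i) | j
    · simp only [wt, cv, Sum.elim_inl, one_mul]
      exact hD.2 p _ (hxt l)
    · obtain ⟨h2, _, h3⟩ := hr i rfl
      simp only [wt, cv, Sum.elim_inl, Sum.elim_inr, if_neg h2]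
      exact h3 p
    · simp only [wt, cv, Sum.elim_inr, one_mul]
      exact hθ j p
  rcases t with ⟨o, ho⟩ | t
  · rw [pow_two, mul_assoc]
    refine mul_mem hD.1 ?_
    rcases o with _ | s
    · exact h1
    · have h3 : colK n a D θ Z b S xt j₀ g f (Sum.inl ⟨some s, ho⟩) r =
          xt s.2.2.1 * cv n a D θ Z xt ⟨s.1, s.2.2.2 ::ₛ s.2.1⟩ r -
            xt s.2.2.2 * cv n a D θ Z xt ⟨s.1, s.2.2.1 ::ₛ s.2.1⟩ r := rfl
      have h4 := sub_mem (mul_mem (hxt s.2.2.1) (h2 ⟨s.1, s.2.2.2 ::ₛ s.2.1⟩))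
        (mul_mem (hxt s.2.2.2) (h2 ⟨s.1, s.2.2.1 ::ₛ s.2.1⟩))
      rw [h3]
      have h5 : Δ * (wt u e c r * (xt s.2.2.1 * cv n a D θ Z xt ⟨s.1, s.2.2.2 ::ₛ s.2.1⟩ r -
            xt s.2.2.2 * cv n a D θ Z xt ⟨s.1, s.2.2.1 ::ₛ s.2.1⟩ r)) =
          xt s.2.2.1 * (Δ * (wt u e c r * cv n a D θ Z xt ⟨s.1, s.2.2.2 ::ₛ s.2.1⟩ r)) -
            xt s.2.2.2 * (Δ * (wt u e c r * cv n a D θ Z xt ⟨s.1, s.2.2.1 ::ₛ s.2.1⟩ r)) := by
        ring
      rw [h5]
      exact h4
  · have h3 : colK n a D θ Z b S xt j₀ g f (Sum.inr t) r =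
        g t * cv n a D θ Z xt ⟨f t, Sym.replicate (n (f t) + 1) j₀⟩ r := rfl
    rw [h3]
    have h4 : Δ ^ 2 * (wt u e c r *
        (g t * cv n a D θ Z xt ⟨f t, Sym.replicate (n (f t) + 1) j₀⟩ r)) =
        (Δ * g t) * (Δ * (wt u e c r *
          cv n a D θ Z xt ⟨f t, Sym.replicate (n (f t) + 1) j₀⟩ r)) := by ring
    rw [h4]
    exact mul_mem (hg t) (h2 _)

end

/-- counting the columns -/
private theorem count {κ ι : Type*} [Fintype ι] [DecidableEq ι] (S : Set κ) [Fintype S]
    (bl : κ → ι) (d q₀ : ι → ℕ) (q : κ → ℕ) (hq : ∀ t, q₀ (bl t) ≤ q t) (Y : Finset ι)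
    (hS : ∀ i, ∃ t ∈ S, bl t = i) (sp : ι → Prop) [DecidablePred sp]
    (hsp : ∀ i, sp i ↔ i ∈ Y ∧ ∀ s ∈ S, ∀ t ∈ S, bl s = i → bl t = i → s = t) :
    ∑ i, qm Y d q₀ i + Fintype.card ι ≤
      ∑ t : S, (if sp (bl t) then d (bl t) else q t) + Fintype.card S := by
  classical
  have h1 : ∑ i, qm Y d q₀ i + Fintype.card ι = ∑ i, (qm Y d q₀ i + 1) := by
    rw [Finset.sum_add_distrib]
    simp
  have h2 : ∑ t : S, (if sp (bl t) then d (bl t) else q t) + Fintype.card S =
      ∑ t : S, ((if sp (bl t) then d (bl t) else q t) + 1) := by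
    rw [Finset.sum_add_distrib]
    simp
  rw [h1, h2, ← Finset.sum_fiberwise_of_maps_to (s := Finset.univ (α := S))
    (t := Finset.univ (α := ι)) (g := fun t : S => bl t) (fun _ _ => Finset.mem_univ _)]
  refine Finset.sum_le_sum fun i _ => ?_
  obtain ⟨t, ht, hti⟩ := hS i
  have htm : (⟨t, ht⟩ : S) ∈ Finset.univ.filter fun t : S => bl t = i :=
    Finset.mem_filter.2 ⟨Finset.mem_univ _, hti⟩
  by_cases hi : sp i
  · have h3 := Finset.single_le_sum (f := fun t : S => (if sp (bl t) then d (bl t) else q t) + 1)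
      (fun _ _ => Nat.zero_le _) htm
    refine le_trans ?_ h3
    simp only [hti, if_pos hi]
    rw [qm, if_pos ((hsp i).1 hi).1]
    exact Nat.add_le_add_right (min_le_left _ _) 1
  · by_cases hY : i ∈ Y
    · have h4 : ¬ ∀ s ∈ S, ∀ t ∈ S, bl s = i → bl t = i → s = t := fun h => hi ((hsp i).2 ⟨hY, h⟩)
      push Not at h4
      obtain ⟨s, hs, t', ht', hsi, hti', hst⟩ := h4
      have h5 : ({⟨s, hs⟩, ⟨t', ht'⟩} : Finset S) ⊆ Finset.univ.filter fun t : S => bl t = i := by
        intro y hy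
        rw [Finset.mem_insert, Finset.mem_singleton] at hy
        rcases hy with rfl | rfl
        · exact Finset.mem_filter.2 ⟨Finset.mem_univ _, hsi⟩
        · exact Finset.mem_filter.2 ⟨Finset.mem_univ _, hti'⟩
      have h6 := Finset.sum_le_sum_of_subset (f := fun t : S =>
        (if sp (bl t) then d (bl t) else q t) + 1) h5
      refine le_trans ?_ h6
      rw [Finset.sum_pair (fun h => hst (congrArg Subtype.val h))]
      simp only [hsi, hti', if_neg hi]
      rw [qm, if_pos hY]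
      have h7 := hq s
      have h8 := hq t'
      rw [hsi] at h7
      rw [hti'] at h8
      have h9 := min_le_right (d i) (2 * q₀ i + 1)
      (clear * - bl Y sp hs ht' h7 h8 h9; omega)
    · have h3 := Finset.single_le_sum
        (f := fun t : S => (if sp (bl t) then d (bl t) else q t) + 1)
        (fun _ _ => Nat.zero_le _) htm
      refine le_trans ?_ h3
      simp only [hti, if_neg hi]
      rw [qm, if_neg hY]
      have h7 := hq t
      rw [hti] at h7
      omega

private theorem key_aux {E : Type*} [Field E] {σ ι κ Tt : Type*} [Fintype σ] [DecidableEq σ]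
    [Fintype ι] [DecidableEq ι] [Fintype κ] [DecidableEq κ] [Fintype Tt] (bl : κ → ι)
    (d e q₀ : ι → ℕ) (bb n : κ → ℕ) (hq₀ : ∀ t, q₀ (bl t) ≤ n t + 1)
    (a : (i : ι) → Sym σ (d i) → E) (p : (t : κ) → Sym σ (bb t) → E)
    (h : (t : κ) → Sym σ (n t + 1) → E) (D : Ix σ (fun t => n t + 1) → Derivation ℤ E E)
    (jj : Tt → Ix σ (fun t => n t + 1)) (θ : Tt → Ix σ (fun t => n t + 1) → E)
    (hD : Dual (fun t => n t + 1) h D jj θ)
    (hM : Mov bl d bb (fun t => n t + 1) a p h D)
    (Z Y : Finset ι) (x : σ → E) (i₀ : σ) (hx : x i₀ = 1)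
    (hZ : ∀ i ∈ Z, form (a i) x = 0) (hU : ∀ i ∉ Z, form (a i) x ≠ 0)
    (hP : ∀ i, ∃ t, bl t = i ∧ form (p t) x ≠ 0)
    (u : ι → E) (hu : ∀ i ∉ Z, u i ≠ 0)
    (w : ℕ) (hw : 2 * w + 2 + Fintype.card Tt + ∑ i, e i ≤ ∑ i, qm Y d q₀ i + Z.card)
    (hm : MinorsVanish D x w) :
    ∃ G : E, G ≠ 0 ∧ KeyC bl d e a p D θ Z Y u x G := by
  classical
  have heul : (eul d Z x : (σ ⊕ ι) ⊕ Tt → E) ≠ 0 := by
    intro h
    have h1 := congrFun h (Sum.inl (Sum.inl i₀))
    simp only [eul, Sum.elim_inl, Pi.zero_apply, hx] at h1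
    exact one_ne_zero h1
  obtain ⟨b, hb0, hbli, hbsp⟩ := Helper74.LG.exists_basis_part (E := E) (eul d Z x) heul
    (syz n a D θ Z x)
  have : Fintype b := Fintype.ofFinite b
  have hbli' : LinearIndependent E fun o : b => colF n a D θ Z x o.1 := hbli
  set V₀ : Submodule E ((σ ⊕ ι) ⊕ Tt → E) :=
    Submodule.span E (Set.range fun o : b => colF n a D θ Z x (o : Option _)) with hV₀
  obtain ⟨r, S, hF1, hF2, hF3, hrinj'⟩ := exists_flag (E := E) bl V₀ (colR n a D θ Z x i₀)
  have : Fintype S := Fintype.ofFinite S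
  -- the functionals
  obtain ⟨lam, hl1, hl2, hl3⟩ := exists_functional bl n a p h D jj θ hD hM Z x hZ hU
  have hV : ∀ v ∈ V₀, lam v = 0 := by
    have h2 : V₀ ≤ LinearMap.ker lam := by
      rw [hV₀, Submodule.span_le]
      rintro _ ⟨⟨o, ho⟩, rfl⟩
      rcases o with _ | s
      · exact hl1
      · exact hl3 s
    exact fun v hv => h2 hv
  have hC : ∀ t, lam (colR n a D θ Z x i₀ t) = Pi.single (bl t) (-(form (p t) x)) := by
    intro t
    rw [colR, hl2, mon_rep, hx, one_pow, mul_one]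
  -- every block has a column
  have hlow : ∀ i v, v ∈ V₀ ⊔ Submodule.span E
      (colR n a D θ Z x i₀ '' {s | s ∈ S ∧ bl s ≠ i}) → lam v i = 0 := by
    intro i v hv
    have h3 : V₀ ⊔ Submodule.span E (colR n a D θ Z x i₀ '' {s | s ∈ S ∧ bl s ≠ i}) ≤
        LinearMap.ker ((LinearMap.proj i : (ι → E) →ₗ[E] E).comp lam) := by
      refine sup_le ?_ ?_
      · intro v hv
        rw [LinearMap.mem_ker, LinearMap.comp_apply, hV v hv]
        rfl
      · rw [Submodule.span_le]
        rintro _ ⟨s, ⟨_, hs⟩, rfl⟩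
        rw [SetLike.mem_coe, LinearMap.mem_ker, LinearMap.comp_apply, LinearMap.proj_apply, hC,
          Pi.single_eq_of_ne hs.symm]
    exact h3 hv
  have hSne : ∀ i, ∃ t ∈ S, bl t = i := by
    intro i
    by_contra hcon
    push Not at hcon
    obtain ⟨t, hti, htp⟩ := hP i
    have h1 : V₀ ⊔ Submodule.span E (colR n a D θ Z x i₀ '' {s | s ∈ S ∧ r s ≤ r t}) ≤
        V₀ ⊔ Submodule.span E (colR n a D θ Z x i₀ '' {s | s ∈ S ∧ bl s ≠ i}) :=
      sup_le_sup_left (Submodule.span_mono (Set.image_mono fun s hs =>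
        (⟨hs.1, hcon s hs.1⟩ : s ∈ S ∧ bl s ≠ i))) V₀
    have h2 := hlow i _ (h1 (hF2 t))
    rw [hC, hti, Pi.single_eq_same, neg_eq_zero] at h2
    exact htp h2
  -- the special blocks
  let sp : ι → Prop := fun i => i ∈ Y ∧ ∀ s ∈ S, ∀ t ∈ S, bl s = i → bl t = i → s = t
  have hone : ∀ t ∈ S, sp (bl t) → ∀ s ∈ S, bl s = bl t → s = t :=
    fun t ht hsp s hs hst => hsp.2 s hs t ht hst rfl
  have hne : ∀ t ∈ S, sp (bl t) → form (p t) x ≠ 0 := by
    intro t ht hsp
    obtain ⟨t₁, ht₁, htp⟩ := hP (bl t)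
    obtain ⟨cc, v, w, _, _, _, h2⟩ := flag_one bl _ (colR n a D θ Z x i₀) r S hF2 hF3 lam
      (fun t => form (p t) x) hV hC t (fun s hs hst => hone t ht hsp s hs hst) t₁ ht₁
    intro h0
    apply htp
    rw [h2, h0, mul_zero]
  set g : κ → E := fun t => if sp (bl t) then (form (p t) x)⁻¹ else 1 with hg
  have hg0 : ∀ t ∈ S, g t ≠ 0 := by
    intro t ht
    rw [hg]
    by_cases hsp : sp (bl t)
    · simp only [if_pos hsp]
      exact inv_ne_zero (hne t ht hsp)
    · simp only [if_neg hsp]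
      exact one_ne_zero
  set K := colK n a D θ Z b S x i₀ g id with hKdef
  have hK : LinearIndependent E K :=
    li_sum (fun o : b => colF n a D θ Z x o.1) (colR n a D θ Z x i₀) S g hg0 hbli' hF1
  obtain ⟨ρ, hrinj, hrdet⟩ := exists_minor _ hK
  have hrZ : ∀ s i, ρ s = Sum.inl (Sum.inr i) → i ∉ Z := by
    intro s i hs hi
    apply hrdet
    refine Matrix.det_eq_zero_of_row_eq_zero s fun t => ?_
    rw [Matrix.of_apply, hs]
    exact colK_zero b S i₀ g id t hi
  set uw : (σ ⊕ ι) ⊕ Tt → E := Sum.elim (Sum.elim (fun _ => 1) u) (fun _ => 1) with huw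
  set ee : (σ ⊕ ι) ⊕ Tt → ℕ := Sum.elim (Sum.elim (fun _ => 0) e) (fun _ => 0) with hee
  set isx : (σ ⊕ ι) ⊕ Tt → Bool :=
    Sum.elim (Sum.elim (fun _ => true) (fun _ => false)) (fun _ => false) with hisx
  -- counting
  set lft : Finset (b ⊕ S) := Finset.univ.filter fun s => isx (ρ s) = true with hlft
  set rgt : Finset (b ⊕ S) := Finset.univ.filter fun s => ¬ isx (ρ s) = true with hrgt
  have hn' : lft.card ≤ w + 1 := by
    refine left_rows_le (col D x) w hm (fun t l => K t (Sum.inl (Sum.inl l)))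
      (colK_span b S i₀ g id) _ hrdet lft
      (fun s => Sum.elim (Sum.elim id (fun _ => i₀)) (fun _ => i₀) (ρ s)) ?_
    intro s hs t
    rw [hlft, Finset.mem_filter] at hs
    rcases h : ρ s with (l | i) | j
    · simp [h]
    · rw [h] at hs
      simp [hisx] at hs
    · rw [h] at hs
      simp [hisx] at hs
  have hq' : rgt.card + Z.card ≤ Fintype.card ι + Fintype.card Tt := by
    have h1 : rgt.image ρ ⊆ ((Finset.univ \ Z).map ⟨fun i => Sum.inl (Sum.inr i),
          Sum.inl_injective.comp Sum.inr_injective⟩) ∪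
        (Finset.univ : Finset Tt).map ⟨Sum.inr, Sum.inr_injective⟩ := by
      intro y hy
      rw [Finset.mem_image] at hy
      obtain ⟨s, hs, rfl⟩ := hy
      rw [hrgt, Finset.mem_filter] at hs
      rw [Finset.mem_union]
      rcases h : ρ s with (l | i) | j
      · rw [h] at hs
        simp [hisx] at hs
      · left
        rw [Finset.mem_map]
        exact ⟨i, Finset.mem_sdiff.2 ⟨Finset.mem_univ i, hrZ s i h⟩, rfl⟩
      · right
        rw [Finset.mem_map]
        exact ⟨j, Finset.mem_univ j, rfl⟩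
    have h2 := (Finset.card_le_card h1).trans (Finset.card_union_le _ _)
    rw [Finset.card_image_of_injective _ hrinj, Finset.card_map, Finset.card_map,
      Finset.card_sdiff_of_subset (Finset.subset_univ Z), Finset.card_univ,
      Finset.card_univ] at h2
    have h3 : Z.card ≤ Fintype.card ι := Finset.card_le_univ Z
    omega
  have hcard : Fintype.card b + Fintype.card S = lft.card + rgt.card := by
    rw [← Fintype.card_sum, ← Finset.card_univ (α := b ⊕ S)]
    exact (Finset.card_filter_add_card_filter_not _).symm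
  have hesum : ∑ s, ee (ρ s) ≤ ∑ i, e i := by
    calc ∑ s, ee (ρ s) = ∑ y ∈ Finset.univ.image ρ, ee y :=
          (Finset.sum_image fun _ _ _ _ h => hrinj h).symm
      _ ≤ ∑ y, ee y := Finset.sum_le_sum_of_subset (Finset.subset_univ _)
      _ = ∑ i, e i := by
          rw [Fintype.sum_sum_type, Fintype.sum_sum_type]
          simp [hee]
  set Q : κ → ℕ := fun t => if sp (bl t) then d (bl t) else n t + 1 with hQ
  have hcount : ∑ i, qm Y d q₀ i + Fintype.card ι ≤ ∑ t : S, Q t + Fintype.card S :=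
    count S bl d q₀ (fun t => n t + 1) hq₀ Y hSne sp fun i => Iff.rfl
  obtain ⟨m, hmP⟩ : ∃ m, 1 + ∑ t : S, Q t = (∑ s, ee (ρ s) + lft.card + Fintype.card b) + 1 + m :=
    Nat.exists_eq_add_of_le (by omega)
  obtain ⟨k', hk'⟩ : ∃ k', Fintype.card σ + Fintype.card ι + Fintype.card Tt =
      Fintype.card (b ⊕ S) + k' := by
    apply Nat.exists_eq_add_of_le
    rw [← Fintype.card_sum, ← Fintype.card_sum]
    exact Fintype.card_le_of_injective ρ hrinj
  refine ⟨Matrix.det (Matrix.of fun s t => uw (ρ s) * K t (ρ s)), ?_, ?_⟩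
  · have h1 := Matrix.det_mul_column (fun s => uw (ρ s)) (Matrix.of fun s t => K t (ρ s))
    simp only [Matrix.of_apply] at h1
    rw [h1]
    refine mul_ne_zero (Finset.prod_ne_zero_iff.2 fun s _ => ?_) hrdet
    rcases h : ρ s with (l | i) | j
    · rw [huw]
      simp
    · rw [huw]
      simpa using hu i (hrZ s i h)
    · rw [huw]
      simp
  · intro O Δ hO hθ hrow hnul l
    obtain ⟨j₀, hj, hjO⟩ := Helper74.LG.exists_max_coord O x i₀ (by
      rw [hx]
      exact one_ne_zero)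
    have hf' : ∀ i, ∃ t, sp i → bl t = i ∧ form (p t) (fun l => x l / x j₀) ≠ 0 ∧
        Δ * (form (p t) fun l => x l / x j₀)⁻¹ ∈ O := by
      intro i
      by_cases hsp : sp i
      · obtain ⟨t, ht⟩ := hnul i hsp.1 j₀ hj hjO
        exact ⟨t, fun _ => ht⟩
      · obtain ⟨t, _, _⟩ := hSne i
        exact ⟨t, fun h => absurd h hsp⟩
    choose f hf using hf'
    have hci : (x j₀)⁻¹ ∈ O := by
      have h1 := hjO i₀
      rwa [hx, one_div] at h1
    have hgO : ∀ t : S, Δ * (if sp (bl t) then (form (p (f (bl t))) fun l => x l / x j₀)⁻¹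
        else 1) ∈ O := by
      intro t
      by_cases hsp : sp (bl t)
      · rw [if_pos hsp]
        exact (hf (bl t) hsp).2.2
      · rw [if_neg hsp, mul_one]
        exact hO.1
    refine det_est O Δ (x j₀) hj hci hO.1 ρ uw (wt u e (x j₀))
      (Sum.elim (Sum.elim (fun _ => x j₀) (fun _ => 1)) (fun _ => 1)) ee ?_ K
      (colK n a D θ Z b S (fun l => x l / x j₀) j₀
          (fun t => if sp (bl t) then (form (p (f (bl t))) fun l => x l / x j₀)⁻¹ else 1)
          (fun t => if sp (bl t) then f (bl t) else t)) (rkK b S r)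
      (gK b S Q (x j₀)) lft.card ?_ ?_ (∑ t : S, Q t) (Fintype.card b) m
      (prod_gK b S hb0 Q (x j₀) hj) hmP ?_ k' _ hk' (x l) (hjO l)
    · rintro ((s | i) | j)
      · simp [huw, hee, wt]
      · have h1 : x j₀ ^ e i ≠ 0 := pow_ne_zero _ hj
        simp only [huw, hee, wt, Sum.elim_inl, Sum.elim_inr]
        field_simp
      · simp [huw, hee, wt]
    · rw [hlft, ← Finset.prod_const, Finset.prod_filter]
      refine Finset.prod_congr rfl fun s _ => ?_
      rcases h : ρ s with (l | i) | j <;> simp [hisx]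
    · intro t
      have h1 := trans_mem bl p hM.deg b hb0 hbsp hU i₀ hx j₀ hj r S hF2 hF3 lam hV hC sp hone hne
        f (fun i hi => ⟨(hf i hi).1, (hf i hi).2.1⟩) t
      obtain ⟨F, hF0, hFs⟩ := exists_coef _ _ h1
      refine ⟨F + Pi.single t (gK b S Q (x j₀) t), ?_, ?_, ?_⟩
      · intro r'
        have h2 := congrFun hFs r'
        rw [Finset.sum_apply] at h2
        simp only [Pi.smul_apply, Pi.sub_apply, smul_eq_mul, phi_apply] at h2
        simp only [Pi.add_apply, add_mul, Finset.sum_add_distrib]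
        rw [h2, Finset.sum_eq_single t]
        · rw [Pi.single_eq_same]
          exact (sub_add_cancel _ _).symm
        · intro t' _ ht'
          rw [Pi.single_eq_of_ne ht', zero_mul]
        · intro h
          exact absurd (Finset.mem_univ t) h
      · rw [Pi.add_apply, Pi.single_eq_same, hF0 t (fun h => lt_irrefl (rkK b S r t) h),
          zero_add]
      · intro t' ht' hrk
        rw [Pi.add_apply, Pi.single_eq_of_ne ht', hF0 t' (fun h => absurd h (not_lt.2 hrk)),
          zero_add]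
    · intro s t
      refine entry_mem (D := D) b S u e (x j₀) j₀ _ _ O Δ hgO _ hjO hO hθ (ρ s)
        (fun i hi => ?_) t
      obtain ⟨h1, h2⟩ := hrow i (hrZ s i hi) j₀ hj hjO
      exact ⟨hrZ s i hi, h1, h2⟩

theorem key {E : Type*} [Field E] {σ ι κ τ : Type*} [Fintype σ] [DecidableEq σ] [Fintype ι]
    [DecidableEq ι] [Fintype κ] [DecidableEq κ] [Fintype τ] (bl : κ → ι) (d e q₀ : ι → ℕ)
    (b q : κ → ℕ) (hq : ∀ t, 0 < q t) (hq₀ : ∀ t, q₀ (bl t) ≤ q t)
    (a : (i : ι) → Sym σ (d i) → E) (p : (t : κ) → Sym σ (b t) → E)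
    (h : (t : κ) → Sym σ (q t) → E) (D : Ix σ q → Derivation ℤ E E)
    (jj : τ → Ix σ q) (θ : τ → Ix σ q → E) (hD : Dual q h D jj θ)
    (hM : Mov bl d b q a p h D)
    (Z Y : Finset ι) (x : σ → E) (i₀ : σ) (hx : x i₀ = 1)
    (hZ : ∀ i ∈ Z, form (a i) x = 0) (hU : ∀ i ∉ Z, form (a i) x ≠ 0)
    (hP : ∀ i, ∃ t, bl t = i ∧ form (p t) x ≠ 0)
    (u : ι → E) (hu : ∀ i ∉ Z, u i ≠ 0)
    (w : ℕ) (hw : 2 * w + 2 + Fintype.card τ + ∑ i, e i ≤ ∑ i, qm Y d q₀ i + Z.card)
    (hm : MinorsVanish D x w) :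
    ∃ G : E, G ≠ 0 ∧ KeyC bl d e a p D θ Z Y u x G := by
  obtain ⟨n, rfl⟩ : ∃ n : κ → ℕ, q = fun t => n t + 1 :=
    ⟨fun t => q t - 1, funext fun t => (Nat.sub_add_cancel (hq t)).symm⟩
  exact key_aux bl d e q₀ b n hq₀ a p h D jj θ hD hM Z Y x i₀ hx hZ hU hP u hu w hw hm

end Pool.Agent.Helper6.CO
end
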