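import Mathlib
import Pool.Agent.Helper12.LVM.C01
import Pool.Agent.Helper8.LG.SDefs
import Pool.Agent.Helper8.LV.SDefs

/- Helper8.LG.Reduce -/
section
/-! # LG-RED: reduction to a finite extension of the field of coefficients -/

set_option autoImplicit false

namespace Pool.Agent.Helper8.LG

open TensorProduct

/-- derivations with prescribed values on a transcendence basis (characteristic zero) -/
theorem red_exists_der {k L T : Type*} [Field k] [Field L] [CharZero L] [Algebra k L]
    (v : T → L) (hi : AlgebraicIndependent k v)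
    (ha : Algebra.IsAlgebraic (Algebra.adjoin k (Set.range v)) L) (f : T → L) :
    ∃ D : Derivation k L L, ∀ t, D (v t) = f t := by
  classical
  let alg : Algebra (MvPolynomial T k) L := (MvPolynomial.aeval v).toRingHom.toAlgebra
  have tow : IsScalarTower k (MvPolynomial T k) L := by
    refine IsScalarTower.of_algebraMap_eq fun x => ?_
    change algebraMap k L x = MvPolynomial.aeval v (algebraMap k (MvPolynomial T k) x)
    simp
  have hX : ∀ t, algebraMap (MvPolynomial T k) L (MvPolynomial.X t) = v t := fun t => by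
    change MvPolynomial.aeval v (MvPolynomial.X t) = v t
    simp
  have hinj : Function.Injective (algebraMap (MvPolynomial T k) L) := hi
  have : FaithfulSMul (MvPolynomial T k) L := (faithfulSMul_iff_algebraMap_injective _ _).2 hinj
  let algK : Algebra (FractionRing (MvPolynomial T k)) L := FractionRing.liftAlgebra _ _
  have towK : IsScalarTower (MvPolynomial T k) (FractionRing (MvPolynomial T k)) L :=
    FractionRing.isScalarTower_liftAlgebra _ _
  have halgR : Algebra.IsAlgebraic (MvPolynomial T k) L := by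
    constructor
    intro x
    obtain ⟨p, hp0, hp⟩ := ha.isAlgebraic x
    have hcomp : ∀ a : Algebra.adjoin k (Set.range v),
        algebraMap (MvPolynomial T k) L (hi.aevalEquiv.symm a) = a := by
      intro a
      obtain ⟨q, rfl⟩ := hi.aevalEquiv.surjective a
      rw [AlgEquiv.symm_apply_apply]
      exact (hi.algebraMap_aevalEquiv q).symm
    refine ⟨p.map (hi.aevalEquiv.symm.toRingEquiv.toRingHom), ?_, ?_⟩
    · exact (Polynomial.map_ne_zero_iff hi.aevalEquiv.symm.injective).2 hp0
    · rw [Polynomial.aeval_def, Polynomial.eval₂_map]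
      rw [Polynomial.aeval_def] at hp
      convert! hp using 2
      ext a
      exact hcomp a
  have halgK : Algebra.IsAlgebraic (FractionRing (MvPolynomial T k)) L :=
    (IsFractionRing.comap_isAlgebraic_iff (A := MvPolynomial T k)).1 halgR
  have : CharZero (FractionRing (MvPolynomial T k)) :=
    (algebraMap (FractionRing (MvPolynomial T k)) L).charZero
  have : Algebra.IsSeparable (FractionRing (MvPolynomial T k)) L := inferInstance
  have e1 : Algebra.FormallyEtale (FractionRing (MvPolynomial T k)) L :=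
    Algebra.FormallyEtale.of_isSeparable _ _
  have e2 : Algebra.FormallyEtale (MvPolynomial T k) (FractionRing (MvPolynomial T k)) :=
    Algebra.FormallyEtale.of_isLocalization (nonZeroDivisors (MvPolynomial T k))
  have e3 : Algebra.FormallyEtale (MvPolynomial T k) L :=
    Algebra.FormallyEtale.comp _ (FractionRing (MvPolynomial T k)) _
  let E := KaehlerDifferential.tensorKaehlerEquivOfFormallyEtale k (MvPolynomial T k) L
  let g : Ω[MvPolynomial T k⁄k] →ₗ[MvPolynomial T k] L :=
    (KaehlerDifferential.mvPolynomialBasis k T).constr (MvPolynomial T k) f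
  let F : Ω[L⁄k] →ₗ[L] L := (g.liftBaseChange L) ∘ₗ E.symm.toLinearMap
  refine ⟨F.compDer (KaehlerDifferential.D k L), fun t => ?_⟩
  have hD : E.symm (KaehlerDifferential.D k L (v t)) = 1 ⊗ₜ KaehlerDifferential.D k _ (MvPolynomial.X t) := by
    rw [← hX t]
    exact KaehlerDifferential.tensorKaehlerEquivOfFormallyEtale_symm_D_algebraMap _ _ _ _
  change (g.liftBaseChange L) (E.symm (KaehlerDifferential.D k L (v t))) = f t
  rw [hD, LinearMap.liftBaseChange_tmul, one_smul]
  rw [← KaehlerDifferential.mvPolynomialBasis_apply]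
  exact Module.Basis.constr_basis _ _ _ _

/-- a subfamily of a finite family which is a transcendence basis of the generated field -/
theorem red_subfamily {k L X : Type*} [Field k] [Field L] [Algebra k L] [Fintype X]
    [DecidableEq X] (A : X → L) :
    ∃ T : Finset X, AlgebraicIndependent k (fun p : T => A p) ∧
      (T.card : Cardinal) = Algebra.trdeg k (IntermediateField.adjoin k (Set.range A)) := by
  classical
  set F := IntermediateField.adjoin k (Set.range A) with hF
  let A' : X → F := fun p => ⟨A p, IntermediateField.subset_adjoin _ _ ⟨p, rfl⟩⟩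
  have htop : IntermediateField.adjoin k (Set.range A') = ⊤ := by
    apply IntermediateField.lift_injective F
    rw [IntermediateField.lift_adjoin, IntermediateField.lift_top, ← Set.range_comp]
    rfl
  have h1 : Algebra.IsAlgebraic (IntermediateField.adjoin k (Set.range A')) F := by
    rw [htop]
    constructor
    intro x
    exact isAlgebraic_algebraMap (⟨x, trivial⟩ : (⊤ : IntermediateField k F))
  have h2 : Algebra.IsAlgebraic (Algebra.adjoin k (Set.range A')) F :=
    IntermediateField.isAlgebraic_adjoin_iff_top.1 h1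
  obtain ⟨t, ht, hb⟩ := exists_isTranscendenceBasis_subset (R := k) (Set.range A')
  choose q hq using fun x : t => ht x.2
  have hqi : Function.Injective q := by
    intro x y hxy
    apply Subtype.ext
    rw [← hq x, ← hq y, hxy]
  have htf : Finite t := (Set.finite_range A').subset ht
  have : Fintype t := Fintype.ofFinite t
  refine ⟨Finset.univ.image q, ?_, ?_⟩
  · -- the inverse map
    have hmem : ∀ p : (Finset.univ.image q : Finset X), ∃ x : t, q x = p := fun p => by
      obtain ⟨x, -, hx⟩ := Finset.mem_image.1 p.2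
      exact ⟨x, hx⟩
    choose r hr using hmem
    have hri : Function.Injective r := by
      intro p p' h
      apply Subtype.ext
      rw [← hr p, ← hr p', h]
    have h3 := (hb.1.comp r hri).map' (f := F.val) F.val.injective
    convert! h3 using 1
    funext p
    change A p = F.val (r p)
    rw [← hq (r p), hr p]
    rfl
  · rw [Finset.card_image_of_injective _ hqi, ← hb.cardinalMk_eq_trdeg, Finset.card_univ,
      Cardinal.mk_fintype]

/-- extension of the field of constants -/
theorem red_extend {k₀ L X : Type*} [Field k₀] [Field L] [Algebra k₀ L]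
    (hfg : (⊤ : IntermediateField k₀ L).FG) (v : X → L) (hv : AlgebraicIndependent k₀ v) :
    ∃ k : IntermediateField k₀ L, AlgebraicIndependent k v ∧
      Algebra.IsAlgebraic (Algebra.adjoin k (Set.range v)) L ∧
      FiniteDimensional (IntermediateField.adjoin k (Set.range v)) L := by
  classical
  obtain ⟨t, ht, hb⟩ := exists_isTranscendenceBasis_superset (R := k₀) hv.coe_range
  set s : Set L := t \ Set.range v with hs
  let k : IntermediateField k₀ L := IntermediateField.adjoin k₀ s
  let e : X ⊕ s → t := Sum.elim (fun x => ⟨v x, ht ⟨x, rfl⟩⟩) fun y => ⟨y.1, y.2.1⟩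
  have he : Function.Injective e := by
    rintro (x | x) (y | y) h
    · exact congrArg Sum.inl (hv.injective (congrArg Subtype.val h))
    · exact absurd ⟨x, congrArg Subtype.val h⟩ y.2.2
    · exact absurd ⟨y, (congrArg Subtype.val h).symm⟩ x.2.2
    · have h' : (e (Sum.inr x)).1 = (e (Sum.inr y)).1 := congrArg Subtype.val h
      exact congrArg Sum.inr (Subtype.ext h')
  have h1 : AlgebraicIndependent k₀ (Sum.elim v (Subtype.val : s → L)) := by
    convert! hb.1.comp e he using 1
    funext x
    rcases x with x | x <;> rfl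
  have h2 := (AlgebraicIndependent.sumElim_iff.1 h1).2
  rw [Subtype.range_coe] at h2
  have h3 : AlgebraicIndependent k v := IntermediateField.algebraicIndependent_adjoin_iff.2 h2
  have hK : Algebra.IsAlgebraic (IntermediateField.adjoin k (Set.range v)) L := by
    have h4 := hb.isAlgebraic_field
    rw [Subtype.range_coe] at h4
    have hle : IntermediateField.adjoin k₀ t ≤
        (IntermediateField.adjoin k (Set.range v)).restrictScalars k₀ := by
      rw [IntermediateField.adjoin_le_iff]
      intro x hx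
      have key : x ∈ IntermediateField.adjoin k (Set.range v) := by
        by_cases hxv : x ∈ Set.range v
        · exact IntermediateField.subset_adjoin k (Set.range v) hxv
        · have hxk : x ∈ k := IntermediateField.subset_adjoin k₀ s ⟨hx, hxv⟩
          exact (IntermediateField.adjoin k (Set.range v)).algebraMap_mem ⟨x, hxk⟩
      exact key
    constructor
    intro x
    have h5 := h4.isAlgebraic x
    let f : IntermediateField.adjoin k₀ t →+* IntermediateField.adjoin k (Set.range v) :=
      (IntermediateField.inclusion hle).toRingHom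
    obtain ⟨p, hp0, hp⟩ := h5
    refine ⟨p.map f, (Polynomial.map_ne_zero_iff f.injective).2 hp0, ?_⟩
    rw [Polynomial.aeval_def, Polynomial.eval₂_map]
    rw [Polynomial.aeval_def] at hp
    convert! hp using 2
  refine ⟨k, h3, IntermediateField.isAlgebraic_adjoin_iff_top.1 hK, ?_⟩
  obtain ⟨S, hS, hS1⟩ := IntermediateField.fg_def.1 hfg
  have hfd : FiniteDimensional (IntermediateField.adjoin k (Set.range v))
      (IntermediateField.adjoin (IntermediateField.adjoin k (Set.range v)) S) := by
    have : Finite S := hS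
    exact IntermediateField.finiteDimensional_adjoin fun x _ =>
      (hK.isAlgebraic x).isIntegral
  have htop : IntermediateField.adjoin (IntermediateField.adjoin k (Set.range v)) S = ⊤ := by
    rw [eq_top_iff]
    intro x _
    have hx : x ∈ IntermediateField.adjoin k₀ S := by rw [hS1]; trivial
    have hle : IntermediateField.adjoin k₀ S ≤ ((IntermediateField.adjoin
        (IntermediateField.adjoin k (Set.range v)) S).restrictScalars k).restrictScalars k₀ := by
      rw [IntermediateField.adjoin_le_iff]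
      intro y hy
      have key : y ∈ IntermediateField.adjoin (IntermediateField.adjoin k (Set.range v)) S :=
        IntermediateField.subset_adjoin _ _ hy
      exact key
    have key : x ∈ ((IntermediateField.adjoin
        (IntermediateField.adjoin k (Set.range v)) S).restrictScalars k).restrictScalars k₀ :=
      hle hx
    exact key
  rw [htop] at hfd
  exact Module.Finite.equiv
    (IntermediateField.topEquiv (F := IntermediateField.adjoin k (Set.range v))
      (E := L)).toLinearEquiv

/-- reduction: `T` is a set of indices, at most `c` outside it, such that the `a_p`, `p ∈ T`, are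
algebraically independent over a suitable `k` with `L` finite over `k(a_T)`; the derivations `D_s`,
`s ∈ T`, are dual to them, `D_s = 0` for `s ∉ T`. -/
theorem reduce {k₀ L : Type*} [Field k₀] [Field L] [CharZero L] [Algebra k₀ L]
    (hfg : (⊤ : IntermediateField k₀ L).FG)
    {σ ι : Type*} [Fintype σ] [DecidableEq σ] [Fintype ι] [DecidableEq ι]
    (d : ι → ℕ) (a : (i : ι) → Sym σ (d i) → L) (c : ℕ)
    (hc : (Fintype.card (Ix σ d) : Cardinal) ≤ Algebra.trdeg k₀
      (IntermediateField.adjoin k₀ (Set.range fun p : Ix σ d => a p.1 p.2)) + c) :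
    ∃ (T : Finset (Ix σ d)) (k : IntermediateField k₀ L),
      Fintype.card {q : Ix σ d // q ∉ T} ≤ c ∧
      AlgebraicIndependent k (fun p : T => a p.1.1 p.1.2) ∧
      FiniteDimensional (IntermediateField.adjoin k (Set.range fun p : T => a p.1.1 p.1.2)) L ∧
      ∃ (D : Ix σ d → Derivation ℤ L L) (θ : {q : Ix σ d // q ∉ T} → Ix σ d → L),
        Dual d a D (fun j => j.1) θ ∧ ∀ p (c : k), D p (algebraMap k L c) = 0 := by
  classical
  obtain ⟨T, hT, hTc⟩ := red_subfamily (k := k₀) (fun p : Ix σ d => a p.1 p.2)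
  obtain ⟨k, hk1, hk2, hk3⟩ := red_extend hfg (fun p : T => a p.1.1 p.1.2) hT
  refine ⟨T, k, ?_, hk1, hk3, ?_⟩
  · rw [← hTc] at hc
    have hc' : Fintype.card (Ix σ d) ≤ T.card + c := by exact_mod_cast hc
    have h1 : Fintype.card {q : Ix σ d // q ∉ T} = Fintype.card (Ix σ d) - T.card := by
      rw [Fintype.card_subtype_compl, Fintype.card_coe]
    omega
  · have hD : ∀ s : T, ∃ D : Derivation k L L, ∀ t : T,
        D (a t.1.1 t.1.2) = if s = t then 1 else 0 := fun s =>
      red_exists_der _ hk1 hk2 (fun t : T => if s = t then (1 : L) else 0)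
    choose D hD using hD
    let D' : Ix σ d → Derivation ℤ L L := fun s =>
      if h : s ∈ T then (D ⟨s, h⟩).restrictScalars ℤ else 0
    refine ⟨D', fun j s => (if s = j.1 then 1 else 0) - D' s (a j.1.1 j.1.2), ?_, ?_⟩
    · intro s q
      by_cases hq : q ∈ T
      · have h0 : ∑ j : {q : Ix σ d // q ∉ T}, (if j.1 = q then
            ((if s = j.1 then (1 : L) else 0) - D' s (a j.1.1 j.1.2)) else 0) = 0 := by
          refine Finset.sum_eq_zero fun j _ => ?_
          rw [if_neg]
          rintro rfl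
          exact j.2 hq
        rw [h0, sub_zero]
        by_cases hs : s ∈ T
        · simp only [D', dif_pos hs]
          have := hD ⟨s, hs⟩ ⟨q, hq⟩
          simpa using this
        · simp only [D', dif_neg hs]
          rw [if_neg]
          · rfl
          · rintro rfl
            exact hs hq
      · rw [Finset.sum_eq_single (⟨q, hq⟩ : {q : Ix σ d // q ∉ T})]
        · simp
        · intro j _ hj
          rw [if_neg]
          intro h
          exact hj (Subtype.ext h)
        · intro h
          exact absurd (Finset.mem_univ _) h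
    · intro p x
      by_cases hp : p ∈ T
      · simp only [D', dif_pos hp]
        exact (D ⟨p, hp⟩).map_algebraMap x
      · simp only [D', dif_neg hp]
        rfl

end Pool.Agent.Helper8.LG
end

/- Helper8.LG.Poly -/
section
/-! # LG-POLY: homogeneous polynomials and the function `form` -/

set_option autoImplicit false

open MvPolynomial

namespace Pool.Agent.Helper8.LG

/-- the coefficients of a polynomial, indexed by multisets of size `n` -/
noncomputable def cf {K : Type*} [CommRing K] {N : ℕ} (n : ℕ)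
    (F : MvPolynomial (Fin (N + 1)) K) (J : Sym (Fin (N + 1)) n) : K :=
  coeff (Multiset.toFinsupp (J : Multiset (Fin (N + 1)))) F

theorem poly_mon_eq {R : Type*} [CommMonoid R] {N n : ℕ} (x : Fin (N + 1) → R)
    (J : Sym (Fin (N + 1)) n) :
    mon x J = ∏ i, x i ^ (Multiset.toFinsupp (J : Multiset (Fin (N + 1)))) i := by
  rw [mon, Finset.prod_multiset_map_count]
  simp only [Multiset.toFinsupp_apply]
  refine Finset.prod_subset (Finset.subset_univ _) fun i _ hi => ?_
  rw [Multiset.count_eq_zero_of_notMem (fun h => hi (Multiset.mem_toFinset.2 h)), pow_zero]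

theorem poly_toFinsupp_inj {N n : ℕ} :
    Function.Injective fun J : Sym (Fin (N + 1)) n =>
      Multiset.toFinsupp (J : Multiset (Fin (N + 1))) := fun _ _ h =>
  Subtype.ext (Multiset.toFinsupp.injective h)

theorem poly_exists_sym {N n : ℕ} (m : Fin (N + 1) →₀ ℕ) (hm : m.degree = n) :
    ∃ J : Sym (Fin (N + 1)) n, Multiset.toFinsupp (J : Multiset (Fin (N + 1))) = m := by
  refine ⟨⟨Finsupp.toMultiset m, ?_⟩, ?_⟩
  · rw [Finsupp.card_toMultiset, ← hm, Finsupp.degree_eq_sum]
    exact Finsupp.sum_fintype _ _ fun _ => rfl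
  · exact Finsupp.toMultiset_toFinsupp m

theorem form_cf {K : Type*} [CommRing K] {N : ℕ} {n : ℕ} (F : MvPolynomial (Fin (N + 1)) K)
    (hF : F.IsHomogeneous n) (x : Fin (N + 1) → K) : form (cf n F) x = eval x F := by
  classical
  have h1 : form (cf n F) x = ∑ m ∈ Finset.univ.image (fun J : Sym (Fin (N + 1)) n =>
      Multiset.toFinsupp (J : Multiset (Fin (N + 1)))), coeff m F * ∏ i, x i ^ m i := by
    rw [Finset.sum_image fun a _ b _ h => poly_toFinsupp_inj h, form]
    refine Finset.sum_congr rfl fun J _ => ?_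
    rw [poly_mon_eq, cf]
  rw [h1, eval_eq']
  symm
  refine Finset.sum_subset (fun m hm => ?_) fun m _ hm => ?_
  · have h2 : m.degree = n := by
      by_contra h
      exact (mem_support_iff.1 hm) (hF.coeff_eq_zero h)
    obtain ⟨J, hJ⟩ := poly_exists_sym m h2
    exact Finset.mem_image.2 ⟨J, Finset.mem_univ _, hJ⟩
  · rw [notMem_support_iff.1 hm, zero_mul]

/-- the monomial `X^J` -/
noncomputable def monX (K : Type*) [CommRing K] {N n : ℕ} (J : Sym (Fin (N + 1)) n) :
    MvPolynomial (Fin (N + 1)) K :=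
  mon (fun i => X i) J

theorem monX_hom (K : Type*) [CommRing K] {N n : ℕ} (J : Sym (Fin (N + 1)) n) :
    (monX K J).IsHomogeneous n := by
  have h : ∀ s : Multiset (Fin (N + 1)),
      ((s.map fun i => (X i : MvPolynomial (Fin (N + 1)) K)).prod).IsHomogeneous s.card := by
    intro s
    induction s using Multiset.induction_on with
    | empty => simpa using isHomogeneous_one (Fin (N + 1)) K
    | cons a s ih =>
      rw [Multiset.map_cons, Multiset.prod_cons, Multiset.card_cons, add_comm s.card 1]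
      exact (isHomogeneous_X K a).mul ih
  have h2 := h J.1
  rw [J.2] at h2
  exact h2

theorem eval_monX {K : Type*} [CommRing K] {N n : ℕ} (J : Sym (Fin (N + 1)) n)
    (x : Fin (N + 1) → K) : eval x (monX K J) = mon x J := by
  rw [monX, mon, mon, map_multiset_prod, Multiset.map_map]
  refine congrArg Multiset.prod (Multiset.map_congr rfl fun i _ => ?_)
  rw [Function.comp_apply, eval_X]

theorem card_Ix {N r : ℕ} (d : Fin r → ℕ) :
    Fintype.card (Ix (Fin (N + 1)) d) = ∑ i, (N + d i).choose N := by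
  rw [Fintype.card_sigma]
  refine Finset.sum_congr rfl fun i _ => ?_
  rw [Sym.card_sym_eq_choose, Fintype.card_fin]
  have h : N + 1 + d i - 1 = N + d i := by omega
  rw [h, Nat.choose_symm_add]

/-- for homogeneous polynomials all coefficients are among the `cf` -/
theorem coeffField_eq (k : Type*) {M : Type*} [Field k] [Field M] [Algebra k M] {N r : ℕ}
    (d : Fin r → ℕ) (F : Fin r → MvPolynomial (Fin (N + 1)) M)
    (hF : ∀ i, (F i).IsHomogeneous (d i)) :
    coeffField k F =
      IntermediateField.adjoin k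
        (Set.range fun p : Ix (Fin (N + 1)) d => cf (d p.1) (F p.1) p.2) := by
  refine le_antisymm (IntermediateField.adjoin_le_iff.2 ?_) (IntermediateField.adjoin_le_iff.2 ?_)
  · rintro z ⟨i, m, rfl⟩
    by_cases h : m.degree = d i
    · obtain ⟨J, hJ⟩ := poly_exists_sym m h
      refine IntermediateField.subset_adjoin _ _ ⟨⟨i, J⟩, ?_⟩
      change coeff (Multiset.toFinsupp (J : Multiset (Fin (N + 1)))) (F i) = _
      rw [hJ]
    · rw [(hF i).coeff_eq_zero h]
      exact zero_mem _
  · rintro z ⟨p, rfl⟩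
    exact IntermediateField.subset_adjoin _ _ ⟨p.1, _, rfl⟩

theorem subst_hom {K M : Type*} [CommRing K] [CommRing M] [Algebra K M] {N n : ℕ}
    (g : Matrix (Fin (N + 1)) (Fin (N + 1)) M) (F : MvPolynomial (Fin (N + 1)) K)
    (hF : F.IsHomogeneous n) : (subst g F).IsHomogeneous n := by
  have h := hF.aeval (fun i => ∑ j, MvPolynomial.C (g i j) * MvPolynomial.X j) (n := 1)
    fun i => IsHomogeneous.sum _ _ _ fun j _ => isHomogeneous_C_mul_X _ _
  rw [one_mul] at h
  exact h

theorem eval_subst {K M : Type*} [CommRing K] [CommRing M] [Algebra K M] {N : ℕ}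
    (g : Matrix (Fin (N + 1)) (Fin (N + 1)) M) (F : MvPolynomial (Fin (N + 1)) K)
    (x : Fin (N + 1) → M) : eval x (subst g F) = aeval (g.mulVec x) F := by
  have h1 : ∀ G : MvPolynomial (Fin (N + 1)) M, eval x G = aeval (R := M) x G := fun G => by
    rw [aeval_def, eval₂_eq_eval_map]
    simp
  rw [subst]
  have h2 : ((aeval (R := M) x).restrictScalars K).comp
      (aeval (R := K) fun i => ∑ j, MvPolynomial.C (g i j) * MvPolynomial.X j) =
      aeval (R := K) (g.mulVec x) := by
    refine MvPolynomial.algHom_ext fun i => ?_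
    simp only [AlgHom.comp_apply, aeval_X, AlgHom.restrictScalars_apply, map_sum, map_mul,
      aeval_C, Algebra.algebraMap_self, RingHom.id_apply, Matrix.mulVec, dotProduct]
  rw [h1, ← h2]
  rfl

/-- the monomials of `h x` are combinations of the monomials of `x` with coefficients in the ring
generated by the entries of `h` -/
theorem mon_mulVec {M : Type*} [CommRing M] {N n : ℕ}
    (h : Matrix (Fin (N + 1)) (Fin (N + 1)) M) (A : Subring M) (hA : ∀ i j, h i j ∈ A)
    (J : Sym (Fin (N + 1)) n) :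
    ∃ b : Sym (Fin (N + 1)) n → M, (∀ J', b J' ∈ A) ∧
      ∀ x : Fin (N + 1) → M, mon (h.mulVec x) J = ∑ J', b J' * mon x J' := by
  set h' : Matrix (Fin (N + 1)) (Fin (N + 1)) A := fun i j => ⟨h i j, hA i j⟩ with hh'
  set P : MvPolynomial (Fin (N + 1)) A := subst h' (monX A J) with hP
  have hP1 : P.IsHomogeneous n := subst_hom h' _ (monX_hom A J)
  refine ⟨fun J' => A.subtype (cf n P J'), fun J' => (cf n P J').2, fun x => ?_⟩
  have h1 := form_cf (map A.subtype P) (hP1.map _) x
  have h2 : ∀ J', cf n (map A.subtype P) J' = A.subtype (cf n P J') := fun J' => by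
    rw [cf, coeff_map, cf]
  rw [form] at h1
  simp only [h2] at h1
  rw [h1, hP]
  have h3 : map A.subtype (subst h' (monX A J)) = subst h (monX M J) := by
    rw [subst, subst, monX, monX, mon, mon]
    simp only [map_multiset_prod, Multiset.map_map]
    refine congrArg Multiset.prod (Multiset.map_congr rfl fun i _ => ?_)
    simp only [Function.comp_apply, aeval_X, map_sum, map_mul, map_C, map_X]
    rfl
  rw [h3, eval_subst, aeval_def, eval₂_eq_eval_map]
  have h4 : map (algebraMap M M) (monX M J) = monX M J := by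
    rw [Algebra.algebraMap_self, map_id]
  rw [h4, eval_monX]

end Pool.Agent.Helper8.LG
end

/- Helper12.LVF.H74.LG.Mason -/
section
/-!
# The Mason lemma at one valuation ring

`h` monic of degree `r ≥ 3`, `h ∣ h^D + h' q`: if `D z`, `D log h(z)` are bounded by `Δ⁻¹` then
`H = (D z - q(z)) / h(z)` and `z H` are bounded by `Δ⁻²`.
-/

set_option autoImplicit false

namespace Pool.Agent.Helper74.LG

open Polynomial

section
variable {E : Type*} [Field E]

/-- `h^D`: the derivation is applied to the coefficients. -/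
noncomputable def dc (D : Derivation ℤ E E) (f : E[X]) : E[X] := f.sum fun n a => monomial n (D a)

lemma dc_add (D : Derivation ℤ E E) (f g : E[X]) : dc D (f + g) = dc D f + dc D g := by
  unfold dc
  exact Polynomial.sum_add_index f g _ (fun i => by simp) fun i a b => by simp

lemma dc_monomial (D : Derivation ℤ E E) (n : ℕ) (a : E) :
    dc D (monomial n a) = monomial n (D a) := by
  unfold dc
  exact Polynomial.sum_monomial_index a _ (by simp)

lemma dc_coeff (D : Derivation ℤ E E) (f : E[X]) (i : ℕ) : (dc D f).coeff i = D (f.coeff i) := by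
  induction f using Polynomial.induction_on' with
  | add p q hp hq => rw [dc_add, coeff_add, coeff_add, hp, hq, map_add]
  | monomial n a =>
    rw [dc_monomial, coeff_monomial, coeff_monomial]
    split_ifs
    · rfl
    · rw [map_zero]

theorem D_eval (D : Derivation ℤ E E) (f : E[X]) (z : E) :
    D (f.eval z) = (dc D f).eval z + (derivative f).eval z * D z := by
  induction f using Polynomial.induction_on' with
  | add p q hp hq =>
    rw [dc_add, eval_add, map_add, hp, hq, derivative_add, eval_add, eval_add]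
    ring
  | monomial n a =>
    rw [dc_monomial, derivative_monomial, eval_monomial, eval_monomial, eval_monomial,
      Derivation.leibniz, Derivation.leibniz_pow]
    simp only [smul_eq_mul, nsmul_eq_mul]
    ring

lemma eval_reflect {v z : E} (hvz : v * z = 1) (N : ℕ) (f : E[X]) (hf : f.natDegree ≤ N) :
    (reflect N f).eval v = v ^ N * f.eval z := by
  refine Polynomial.induction_with_natDegree_le
    (fun f => (reflect N f).eval v = v ^ N * f.eval z) N ?_ ?_ ?_ f hf
  · simp
  · intro n a _ hn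
    rw [reflect_C_mul_X_pow, revAt_le hn]
    simp only [eval_mul, eval_C, eval_pow, eval_X]
    have h1 : v ^ N = v ^ (N - n) * v ^ n := by rw [← pow_add, Nat.sub_add_cancel hn]
    have h2 : v ^ n * z ^ n = 1 := by rw [← mul_pow, hvz, one_pow]
    rw [h1]
    linear_combination (-a * v ^ (N - n)) * h2
  · intro f g _ _ hf hg
    rw [reflect_add, eval_add, eval_add, hf, hg]
    ring

lemma eval_derivative_reflect {v z : E} (hvz : v * z = 1) (N : ℕ) (f : E[X])
    (hf : f.natDegree ≤ N) :
    v ^ 2 * (derivative (reflect N f)).eval v =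
      N * v ^ (N + 1) * f.eval z - v ^ N * (derivative f).eval z := by
  refine Polynomial.induction_with_natDegree_le
    (fun f => v ^ 2 * (derivative (reflect N f)).eval v =
      N * v ^ (N + 1) * f.eval z - v ^ N * (derivative f).eval z) N ?_ ?_ ?_ f hf
  · simp
  · intro n a _ hn
    have h1 : v ^ N = v ^ (N - n) * v ^ n := by rw [← pow_add, Nat.sub_add_cancel hn]
    have h2 : v ^ n * z ^ n = 1 := by rw [← mul_pow, hvz, one_pow]
    rw [reflect_C_mul_X_pow, revAt_le hn, derivative_C_mul_X_pow, derivative_C_mul_X_pow]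
    simp only [eval_mul, eval_C, eval_pow, eval_X]
    have e1 : v ^ 2 * (a * ((N - n : ℕ) : E) * v ^ (N - n - 1)) =
        a * ((N : E) - n) * v ^ (N - n) * v := by
      rw [Nat.cast_sub hn]
      rcases Nat.eq_zero_or_pos (N - n) with h0 | h0
      · have h3 : (N : E) - n = 0 := by
          rw [← Nat.cast_sub hn, h0, Nat.cast_zero]
        rw [h3]
        ring
      · have h3 : v ^ (N - n) = v ^ (N - n - 1) * v := by
          rw [← pow_succ, Nat.sub_add_cancel h0]
        rw [h3]
        ring
    have e2 : v ^ n * (a * (n : E) * z ^ (n - 1)) = a * n * v := by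
      rcases Nat.eq_zero_or_pos n with h0 | h0
      · rw [h0]
        simp
      · have h3 : v ^ n = v ^ (n - 1) * v := by
          rw [← pow_succ, Nat.sub_add_cancel h0]
        have h4 : v ^ (n - 1) * z ^ (n - 1) = 1 := by rw [← mul_pow, hvz, one_pow]
        rw [h3]
        linear_combination (a * n * v) * h4
    rw [e1, pow_succ, h1]
    linear_combination (-(N : E) * v ^ (N - n) * v * a) * h2 + (v ^ (N - n)) * e2
  · intro f g _ _ hf hg
    rw [reflect_add, derivative_add, eval_add, eval_add, derivative_add, eval_add, mul_add, hf, hg]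
    ring

/-- A polynomial with bounded coefficients has bounded values at integral elements. -/
lemma eval_mem (O : ValuationSubring E) (Δ : E) (f : E[X]) (hf : ∀ i, Δ * f.coeff i ∈ O) (z : E)
    (hz : z ∈ O) : Δ * f.eval z ∈ O := by
  rw [eval_eq_sum_range, Finset.mul_sum]
  refine O.toSubring.sum_mem fun i _ => ?_
  have h1 := O.mul_mem _ _ (hf i) (pow_mem hz i)
  rw [mul_assoc] at h1
  exact h1

/-- The same for `v^N f(z)`, `v z = 1`, `v` integral. -/
lemma eval_mem_inv (O : ValuationSubring E) (Δ : E) (f : E[X]) (hf : ∀ i, Δ * f.coeff i ∈ O)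
    {v z : E} (hvz : v * z = 1) (hv : v ∈ O) (N : ℕ) (hN : f.natDegree ≤ N) :
    Δ * (v ^ N * f.eval z) ∈ O := by
  rw [← eval_reflect hvz N f hN]
  refine eval_mem O Δ _ (fun i => ?_) v hv
  rw [coeff_reflect]
  exact hf _

/-- The remainder polynomial at infinity has small degree. -/
lemma natDegree_tail (D : Derivation ℤ E E) (r : ℕ) (hr : 2 ≤ r) (h q s : E[X]) (hm : h.Monic)
    (hd : h.natDegree = r) (hq : q.natDegree < r) (hs : dc D h + derivative h * q = h * s) :
    ((r : E[X]) * q - X * s).natDegree ≤ r - 2 := by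
  by_cases ht : (r : E[X]) * q - X * s = 0
  · rw [ht, natDegree_zero]
    exact Nat.zero_le _
  have h1 : ((r : E[X]) * h - X * derivative h) * q - X * dc D h =
      h * ((r : E[X]) * q - X * s) := by
    linear_combination (-X) * hs
  have h2 : ((r : E[X]) * h - X * derivative h).natDegree ≤ r - 1 := by
    rw [natDegree_le_iff_coeff_eq_zero]
    intro N hN
    have h3 : ((r : E[X]) * h).coeff N = r * h.coeff N := by
      rw [← C_eq_natCast, coeff_C_mul]
    obtain ⟨M, rfl⟩ : ∃ M, N = M + 1 := ⟨N - 1, by omega⟩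
    rw [coeff_sub, h3, coeff_X_mul, coeff_derivative]
    rcases lt_or_ge r (M + 1) with h4 | h4
    · rw [coeff_eq_zero_of_natDegree_lt (by omega : h.natDegree < M + 1)]
      ring
    · have h5 : r = M + 1 := by omega
      rw [h5]
      push_cast
      ring
  have h3 : (dc D h).natDegree ≤ r - 1 := by
    rw [natDegree_le_iff_coeff_eq_zero]
    intro N hN
    rw [dc_coeff]
    rcases lt_or_ge r N with h4 | h4
    · rw [coeff_eq_zero_of_natDegree_lt (by omega), map_zero]
    · have h5 : N = h.natDegree := by omega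
      rw [h5, hm.coeff_natDegree]
      exact D.map_one_eq_zero
  have h4 : (h * ((r : E[X]) * q - X * s)).natDegree ≤ 2 * r - 2 := by
    rw [← h1]
    refine (natDegree_sub_le _ _).trans (max_le ?_ ?_)
    · refine natDegree_mul_le.trans ?_
      omega
    · refine natDegree_mul_le.trans ?_
      rw [natDegree_X]
      omega
  rw [natDegree_mul hm.ne_zero ht, hd] at h4
  (clear * - D hr hd h4; omega)

/-- **Mason's lemma at one valuation ring.** -/
theorem mason_key (D : Derivation ℤ E E) (r : ℕ) (hr : 3 ≤ r) (h q s α β α' β' : E[X])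
    (hm : h.Monic) (hd : h.natDegree = r) (hab : α * h + β * derivative h = 1)
    (hab' : α' * h.reverse + β' * derivative h.reverse = 1) (hq : q.natDegree < r)
    (hs : dc D h + derivative h * q = h * s) (z : E) (hz : h.eval z ≠ 0) (O : ValuationSubring E)
    (Δ : E) (hD : ∀ f ∈ O, Δ * D f ∈ O) (cq : ∀ i, Δ * q.coeff i ∈ O)
    (cs : ∀ i, Δ * s.coeff i ∈ O) (cα : ∀ i, Δ * α.coeff i ∈ O) (cβ : ∀ i, Δ * β.coeff i ∈ O)
    (cα' : ∀ i, Δ * α'.coeff i ∈ O) (cβ' : ∀ i, Δ * β'.coeff i ∈ O)
    (h1 : z ∈ O → Δ * (D (h.eval z) / h.eval z) ∈ O)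
    (h2 : z ≠ 0 → z⁻¹ ∈ O → Δ * (D (h.reverse.eval z⁻¹) / h.reverse.eval z⁻¹) ∈ O) :
    Δ ^ 2 * ((D z - q.eval z) / h.eval z) ∈ O ∧
      Δ ^ 2 * (z * ((D z - q.eval z) / h.eval z)) ∈ O := by
  set H := (D z - q.eval z) / h.eval z with hH
  have hHe : H * h.eval z = D z - q.eval z := by
    rw [hH]
    exact div_mul_cancel₀ _ hz
  have hse : (dc D h).eval z + (derivative h).eval z * q.eval z = h.eval z * s.eval z := by
    have := congrArg (eval z) hs
    simpa using this
  have hDh := D_eval D h z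
  have hlog : D (h.eval z) / h.eval z = s.eval z + (derivative h).eval z * H := by
    rw [div_eq_iff hz, hDh]
    linear_combination hse - (derivative h).eval z * hHe
  by_cases hzO : z ∈ O
  · have e1 : α.eval z * h.eval z + β.eval z * (derivative h).eval z = 1 := by
      have := congrArg (eval z) hab
      simpa using this
    have e2 : Δ ^ 2 * H = (Δ * α.eval z) * (Δ * D z - Δ * q.eval z) +
        (Δ * β.eval z) * (Δ * (D (h.eval z) / h.eval z) - Δ * s.eval z) := by
      rw [hlog]
      linear_combination (-Δ ^ 2 * H) * e1 + (Δ ^ 2 * α.eval z) * hHe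
    have e3 : Δ ^ 2 * H ∈ O := by
      rw [e2]
      refine O.add_mem _ _ (O.mul_mem _ _ (eval_mem O Δ α cα z hzO)
        (O.toSubring.sub_mem (hD z hzO) (eval_mem O Δ q cq z hzO)))
        (O.mul_mem _ _ (eval_mem O Δ β cβ z hzO)
        (O.toSubring.sub_mem (h1 hzO) (eval_mem O Δ s cs z hzO)))
    refine ⟨e3, ?_⟩
    have e4 : Δ ^ 2 * (z * H) = z * (Δ ^ 2 * H) := by ring
    rw [e4]
    exact O.mul_mem _ _ hzO e3
  · have hz0 : z ≠ 0 := fun h0 => hzO (h0 ▸ O.zero_mem)
    have hv : z⁻¹ ∈ O := (O.mem_or_inv_mem z).resolve_left hzO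
    obtain ⟨m, rfl⟩ : ∃ m, r = m + 3 := ⟨r - 3, by omega⟩
    set v := z⁻¹ with hvdef
    have hvz : v * z = 1 := inv_mul_cancel₀ hz0
    have hv0 : v ≠ 0 := left_ne_zero_of_mul_eq_one hvz
    have hrev : h.reverse = reflect (m + 3) h := by
      rw [← hd]
      rfl
    have e1 : α'.eval v * h.reverse.eval v + β'.eval v * (derivative h.reverse).eval v = 1 := by
      have := congrArg (eval v) hab'
      simpa using this
    have e2 : h.reverse.eval v = v ^ (m + 3) * h.eval z := by
      rw [hrev]
      exact eval_reflect hvz _ _ hd.le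
    have e3 : (derivative h.reverse).eval v =
        v ^ (m + 1) * (((m + 3 : ℕ) : E) * v * h.eval z - (derivative h).eval z) := by
      have h3 := eval_derivative_reflect hvz (m + 3) h hd.le
      rw [← hrev] at h3
      have h4 : v ^ 2 ≠ 0 := pow_ne_zero 2 hv0
      apply mul_left_cancel₀ h4
      rw [h3]
      ring
    have e4 : D v = -(v ^ 2 * D z) := by
      have h3 : D (v * z) = 0 := by
        rw [hvz]
        exact D.map_one_eq_zero
      rw [Derivation.leibniz, smul_eq_mul, smul_eq_mul] at h3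
      have h4 : v * (v * D z + z * D v) = 0 := by rw [h3, mul_zero]
      linear_combination h4 - (D v) * hvz
    have e5 : D (h.reverse.eval v) / h.reverse.eval v =
        -(((m + 3 : ℕ) : E) * v * D z) + D (h.eval z) / h.eval z := by
      rw [e2, Derivation.leibniz, Derivation.leibniz_pow, e4]
      simp only [smul_eq_mul, nsmul_eq_mul]
      have h3 : m + 3 - 1 = m + 2 := rfl
      rw [h3]
      field_simp
      ring
    have ht := natDegree_tail D (m + 3) (by omega) h q s hm hd hq hs
    have ct : ∀ i, Δ * (((m + 3 : ℕ) : E[X]) * q - X * s).coeff i ∈ O := by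
      intro i
      rw [coeff_sub, ← C_eq_natCast, coeff_C_mul, mul_sub]
      refine O.toSubring.sub_mem ?_ ?_
      · have h3 := O.mul_mem _ _ (natCast_mem O (m + 3)) (cq i)
        rw [mul_left_comm] at h3
        exact h3
      · rcases i with _ | i
        · rw [coeff_X_mul_zero, mul_zero]
          exact O.zero_mem
        · rw [coeff_X_mul]
          exact cs i
    have h6 := eval_mem_inv O Δ _ ct hvz hv (m + 1) (by omega)
    have h7 := eval_mem_inv O Δ q cq hvz hv (m + 2) (by omega)
    have h8 := h2 hz0 hv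
    have e6 : Δ ^ 2 * (z * H) = -((Δ * α'.eval v) * (v ^ m * (Δ * D v) +
        Δ * (v ^ (m + 2) * q.eval z))) - (Δ * β'.eval v) * (v ^ m *
        (Δ * (D (h.reverse.eval v) / h.reverse.eval v)) +
        Δ * (v ^ (m + 1) * (((m + 3 : ℕ) : E[X]) * q - X * s).eval z)) := by
      rw [e5, hlog, e4]
      rw [e2, e3] at e1
      simp only [eval_sub, eval_mul, eval_X, eval_natCast]
      linear_combination (-Δ ^ 2 * z * H) * e1 +
        (Δ ^ 2 * α'.eval v * v ^ (m + 2) * H * h.eval z +
          Δ ^ 2 * β'.eval v * (((m + 3 : ℕ) : E) * v ^ (m + 1) * H * h.eval z -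
            (derivative h).eval z * H * v ^ m - v ^ m * s.eval z)) * hvz +
        (Δ ^ 2 * α'.eval v * v ^ (m + 2) +
          Δ ^ 2 * β'.eval v * ((m + 3 : ℕ) : E) * v ^ (m + 1)) * hHe
    have e7 : Δ ^ 2 * (z * H) ∈ O := by
      rw [e6]
      have hvm : v ^ m ∈ O := pow_mem hv m
      refine O.toSubring.sub_mem (O.neg_mem _ (O.mul_mem _ _ (eval_mem O Δ α' cα' v hv)
        (O.add_mem _ _ (O.mul_mem _ _ hvm (hD v hv)) h7)))
        (O.mul_mem _ _ (eval_mem O Δ β' cβ' v hv)
        (O.add_mem _ _ (O.mul_mem _ _ hvm h8) h6))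
    refine ⟨?_, e7⟩
    have e8 : Δ ^ 2 * H = v * (Δ ^ 2 * (z * H)) := by
      linear_combination (-Δ ^ 2 * H) * hvz
    rw [e8]
    exact O.mul_mem _ _ hv e7

lemma D_inv (D : Derivation ℤ E E) {v z : E} (hvz : v * z = 1) : D v = -(v ^ 2 * D z) := by
  have h3 : D (v * z) = 0 := by
    rw [hvz]
    exact D.map_one_eq_zero
  rw [Derivation.leibniz, smul_eq_mul, smul_eq_mul] at h3
  have h4 : v * (v * D z + z * D v) = 0 := by rw [h3, mul_zero]
  linear_combination h4 - (D v) * hvz

/-- If `D z = q(z)` with `deg q ≥ 3` then the leading coefficient of `q` times `z` is bounded. -/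
theorem tail_key (D : Derivation ℤ E E) (q : E[X]) (hq : 3 ≤ q.natDegree) (z : E)
    (hz : D z = q.eval z) (O : ValuationSubring E) (Δ : E) (hD : ∀ f ∈ O, Δ * D f ∈ O)
    (cq : ∀ i, Δ * q.coeff i ∈ O) : Δ * (q.leadingCoeff * z) ∈ O := by
  by_cases hzO : z ∈ O
  · rw [← mul_assoc]
    exact O.mul_mem _ _ (cq _) hzO
  · have hz0 : z ≠ 0 := fun h0 => hzO (h0 ▸ O.zero_mem)
    have hv : z⁻¹ ∈ O := (O.mem_or_inv_mem z).resolve_left hzO
    obtain ⟨m, hm⟩ : ∃ m, q.natDegree = m + 3 := ⟨q.natDegree - 3, by omega⟩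
    set v := z⁻¹ with hvdef
    have hvz : v * z = 1 := inv_mul_cancel₀ hz0
    have e1 : q.eval z = q.eraseLead.eval z + q.leadingCoeff * z ^ (m + 3) := by
      conv_lhs => rw [← eraseLead_add_C_mul_X_pow q]
      rw [hm]
      simp
    have c1 : ∀ i, Δ * q.eraseLead.coeff i ∈ O := by
      intro i
      rw [eraseLead_coeff]
      split_ifs
      · rw [mul_zero]
        exact O.zero_mem
      · exact cq i
    have h1 := eval_mem_inv O Δ q.eraseLead c1 hvz hv (m + 2) (by
      have := eraseLead_natDegree_le q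
      omega)
    have h2 := D_inv D hvz
    have h3 : v ^ (m + 2) * z ^ (m + 2) = 1 := by rw [← mul_pow, hvz, one_pow]
    have e2 : Δ * (q.leadingCoeff * z) =
        -(v ^ m * (Δ * D v)) - Δ * (v ^ (m + 2) * q.eraseLead.eval z) := by
      rw [h2, hz, e1]
      linear_combination (-Δ * q.leadingCoeff * z) * h3
    rw [e2]
    exact O.toSubring.sub_mem (O.neg_mem _ (O.mul_mem _ _ (pow_mem hv m) (hD v hv))) h1

lemma reflect_derivative (N : ℕ) (f : E[X]) (hf : f.natDegree ≤ N) :
    reflect N (derivative f) =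
      (N : E[X]) * X * reflect N f - X ^ 2 * derivative (reflect N f) := by
  refine Polynomial.induction_with_natDegree_le
    (fun f => reflect N (derivative f) =
      (N : E[X]) * X * reflect N f - X ^ 2 * derivative (reflect N f)) N ?_ ?_ ?_ f hf
  · simp
  · intro n a _ hn
    rw [reflect_C_mul_X_pow, revAt_le hn, derivative_C_mul_X_pow, derivative_C_mul_X_pow]
    have e1 : (X : E[X]) ^ 2 * (C (a * ((N - n : ℕ) : E)) * X ^ (N - n - 1)) =
        C a * ((N : E[X]) - (n : E[X])) * X ^ (N - n) * X := by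
      rcases Nat.eq_zero_or_pos (N - n) with h0 | h0
      · have h3 : (N : E[X]) - (n : E[X]) = 0 := by
          rw [← Nat.cast_sub hn, h0, Nat.cast_zero]
        rw [h3, h0]
        simp
      · have h3 : (X : E[X]) ^ (N - n) = X ^ (N - n - 1) * X := by
          rw [← pow_succ, Nat.sub_add_cancel h0]
        rw [h3, C_mul, C_eq_natCast, Nat.cast_sub hn]
        ring
    rw [e1]
    rcases Nat.eq_zero_or_pos n with h0 | h0
    · rw [h0]
      simp
      ring
    · have h4 : n - 1 ≤ N := by omega
      rw [reflect_C_mul_X_pow, revAt_le h4]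
      have h5 : N - (n - 1) = N - n + 1 := by omega
      rw [h5, C_mul, C_eq_natCast]
      ring
  · intro f g _ _ hf hg
    rw [derivative_add, reflect_add, reflect_add, derivative_add, hf, hg]
    ring

theorem coprime_reverse (h : E[X]) (hm : h.Monic) (hsep : IsCoprime h (derivative h)) :
    IsCoprime h.reverse (derivative h.reverse) := by
  obtain ⟨α, β, hab⟩ := hsep
  set r := h.natDegree with hr
  set n := max α.natDegree β.natDegree with hn
  have h1 := congrArg (reflect (n + r)) hab
  have h2 : (derivative h).natDegree ≤ r := (natDegree_derivative_le h).trans (Nat.sub_le _ _)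
  rw [reflect_add, reflect_mul α h (le_max_left _ _) le_rfl,
    reflect_mul β (derivative h) (le_max_right _ _) h2, reflect_one, reflect_derivative r h le_rfl]
    at h1
  have hrev : h.reverse = reflect r h := rfl
  rw [← hrev] at h1
  have h3 : IsCoprime h.reverse (X ^ (n + r)) := by
    refine IsCoprime.pow_right ?_
    have h4 : h.reverse.coeff 0 = 1 := by
      rw [coeff_zero_reverse]
      exact hm
    refine ⟨1, -h.reverse.divX, ?_⟩
    have h5 := divX_mul_X_add h.reverse
    rw [h4, C_1] at h5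
    linear_combination -h5
  obtain ⟨c, d, hcd⟩ := h3
  refine ⟨c + d * (reflect n α + (r : E[X]) * X * reflect n β), -(d * X ^ 2 * reflect n β), ?_⟩
  linear_combination hcd + d * h1

/-- The polynomials `q`, `s` with `h^D + h' q = h s`, `deg q < deg h`. -/
theorem exists_qs (D : Derivation ℤ E E) (h : E[X]) (hm : h.Monic) (h1 : h ≠ 1)
    (hsep : IsCoprime h (derivative h)) :
    ∃ q s : E[X], q.natDegree < h.natDegree ∧ dc D h + derivative h * q = h * s := by
  obtain ⟨α, β, hab⟩ := hsep
  refine ⟨(-(β * dc D h)) %ₘ h, α * dc D h - derivative h * ((-(β * dc D h)) /ₘ h), ?_, ?_⟩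
  · exact natDegree_modByMonic_lt _ hm h1
  · have h2 := modByMonic_add_div (-(β * dc D h)) h
    linear_combination (derivative h) * h2 - (dc D h) * hab

end

end Pool.Agent.Helper74.LG
end

/- Helper8.LV.Points -/
section
/-! # LV-PTS: from normalised points over `M` to projective points over `L` -/

set_option autoImplicit false

open MvPolynomial

namespace Pool.Agent.Helper8.LV

open scoped BigOperators LinearAlgebra.Projectivization
open Pool.Agent.Helper8.LG

private theorem pts_mon_smul {M : Type*} [Field M] {N n : ℕ} (c : M) (x : Fin (N + 1) → M)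
    (J : Sym (Fin (N + 1)) n) : mon (fun i => c * x i) J = c ^ n * mon x J := by
  rw [mon, mon, Multiset.prod_map_mul, Multiset.map_const', Multiset.prod_replicate, Sym.card_coe]

private theorem pts_mon_map {L M : Type*} [Field L] [Field M] [Algebra L M] {N n : ℕ}
    (x : Fin (N + 1) → L) (J : Sym (Fin (N + 1)) n) :
    mon (fun i => algebraMap L M (x i)) J = algebraMap L M (mon x J) := by
  rw [mon, mon, map_multiset_prod, Multiset.map_map]
  rfl

private theorem pts_eval_smul {M : Type*} [Field M] {N n : ℕ}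
    (F : MvPolynomial (Fin (N + 1)) M) (hF : F.IsHomogeneous n) (c : M)
    (x : Fin (N + 1) → M) : eval (fun i => c * x i) F = c ^ n * eval x F := by
  rw [← form_cf F hF, ← form_cf F hF, form, form, Finset.mul_sum]
  refine Finset.sum_congr rfl (fun J _ => ?_)
  rw [pts_mon_smul]
  ring

theorem points {κ L M : Type*} [CommRing κ] [Field L] [Field M] [Algebra κ M] [Algebra L M]
    {N r : ℕ} (d : Fin r → ℕ) (F : Fin r → MvPolynomial (Fin (N + 1)) L)
    (hF : ∀ i, (F i).IsHomogeneous (d i)) (g : GL (Fin (N + 1)) M) (W : Finset (Fin r))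
    (Q : (Fin (N + 1) → M) → Prop)
    (hfin : ∀ (i₀ : Fin (N + 1)) (A : Subalgebra κ M), A.FG →
      {y : Fin (N + 1) → M | y i₀ = 1 ∧ Q y ∧
        ∀ i ∈ W, eval y (subst (g : Matrix _ _ M) (F i)) ≠ 0 ∧ ∀ J : Sym (Fin (N + 1)) (d i),
          mon y J / eval y (subst (g : Matrix _ _ M) (F i)) ∈ A}.Finite)
    (A : Subalgebra κ M) (hA : A.FG) :
    {x : ℙ L (Fin (N + 1) → L) |
      (∀ i₀, (g⁻¹ : GL (Fin (N + 1)) M).1.mulVec (fun l => algebraMap L M (x.rep l)) i₀ ≠ 0 →
        Q fun i => (g⁻¹ : GL (Fin (N + 1)) M).1.mulVec (fun l => algebraMap L M (x.rep l)) i /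
          (g⁻¹ : GL (Fin (N + 1)) M).1.mulVec (fun l => algebraMap L M (x.rep l)) i₀) ∧
      ∀ i ∈ W, eval x.rep (F i) ≠ 0 ∧ ∀ J : Sym (Fin (N + 1)) (d i),
        algebraMap L M (mon x.rep J / eval x.rep (F i)) ∈ A}.Finite := by
  classical
  obtain ⟨h, hh⟩ : ∃ h : Matrix (Fin (N + 1)) (Fin (N + 1)) M,
      h = (g⁻¹ : GL (Fin (N + 1)) M).1 := ⟨_, rfl⟩
  have hgh : (g : Matrix (Fin (N + 1)) (Fin (N + 1)) M) * h = 1 := by
    rw [hh]; exact Units.mul_inv g
  rw [← hh]
  -- the coordinates over `M`
  obtain ⟨ξ, hξ⟩ : ∃ ξ : ℙ L (Fin (N + 1) → L) → Fin (N + 1) → M,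
      ξ = fun x l => algebraMap L M (x.rep l) := ⟨_, rfl⟩
  have hξ' : ∀ x : ℙ L (Fin (N + 1) → L), (fun l => algebraMap L M (x.rep l)) = ξ x := by
    intro x; rw [hξ]
  have hgy : ∀ x, (g : Matrix (Fin (N + 1)) (Fin (N + 1)) M).mulVec (h.mulVec (ξ x)) = ξ x := by
    intro x
    rw [Matrix.mulVec_mulVec, hgh, Matrix.one_mulVec]
  have hy0 : ∀ x, ∃ i₀, h.mulVec (ξ x) i₀ ≠ 0 := by
    intro x
    by_contra hne
    push Not at hne
    have h1 := hgy x
    rw [show h.mulVec (ξ x) = 0 from funext hne, Matrix.mulVec_zero, hξ] at h1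
    refine x.rep_nonzero (funext fun i => ?_)
    have h2 := congrFun h1 i
    simp only [Pi.zero_apply] at h2 ⊢
    exact (map_eq_zero_iff _ (algebraMap L M).injective).1 h2.symm
  -- the new polynomials
  have hF'h : ∀ i, (subst (g : Matrix _ _ M) (F i)).IsHomogeneous (d i) :=
    fun i => subst_hom _ _ (hF i)
  have hev : ∀ x i, eval (h.mulVec (ξ x)) (subst (g : Matrix _ _ M) (F i))
      = algebraMap L M (eval x.rep (F i)) := by
    intro x i
    rw [eval_subst, hgy, hξ]
    simp only
    rw [aeval_def]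
    exact (eval₂_comp_left (algebraMap L M) (RingHom.id L) x.rep (F i)).symm
  -- the new algebra
  obtain ⟨A', hA'⟩ : ∃ A' : Subalgebra κ M,
      A' = A ⊔ Algebra.adjoin κ (Set.range fun p : Fin (N + 1) × Fin (N + 1) => h p.1 p.2) :=
    ⟨_, rfl⟩
  have hAA' : A ≤ A' := by rw [hA']; exact le_sup_left
  have hhA' : ∀ i j, h i j ∈ A' := by
    intro i j
    rw [hA']
    exact (le_sup_right : _ ≤ A ⊔ Algebra.adjoin κ (Set.range fun p : Fin (N + 1) ×
      Fin (N + 1) => h p.1 p.2)) (Algebra.subset_adjoin ⟨(i, j), rfl⟩)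
  have hA'fg : A'.FG := by
    rw [hA']
    refine hA.sup ?_
    have h1 := Subalgebra.fg_adjoin_finset (R := κ) (A := M)
      (Finset.univ.image fun p : Fin (N + 1) × Fin (N + 1) => h p.1 p.2)
    rwa [Finset.coe_image, Finset.coe_univ, Set.image_univ] at h1
  simp only [hξ']
  -- the normalised points
  obtain ⟨S, hS⟩ : ∃ S : Fin (N + 1) → Set (Fin (N + 1) → M),
      S = fun i₀ => {y : Fin (N + 1) → M | y i₀ = 1 ∧ Q y ∧
        ∀ i ∈ W, eval y (subst (g : Matrix _ _ M) (F i)) ≠ 0 ∧ ∀ J : Sym (Fin (N + 1)) (d i),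
          mon y J / eval y (subst (g : Matrix _ _ M) (F i)) ∈ A'} := ⟨_, rfl⟩
  have hSf : ∀ i₀, (S i₀).Finite := by
    intro i₀; rw [hS]; exact hfin i₀ A' hA'fg
  refine Set.Finite.subset (s := ⋃ i₀ : Fin (N + 1), {x : ℙ L (Fin (N + 1) → L) |
    h.mulVec (ξ x) i₀ ≠ 0 ∧ (fun i => h.mulVec (ξ x) i / h.mulVec (ξ x) i₀) ∈ S i₀}) ?_ ?_
  · refine Set.finite_iUnion (fun i₀ => ?_)
    refine Set.Finite.of_injOn (f := fun x : ℙ L (Fin (N + 1) → L) =>
      fun i => h.mulVec (ξ x) i / h.mulVec (ξ x) i₀) (fun x hx => hx.2) ?_ (hSf i₀)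
    rintro x ⟨hx, -⟩ x' ⟨hx', -⟩ hxx
    simp only at hxx
    -- `c' • h ξ' = h ξ`
    obtain ⟨c', hc'⟩ : ∃ c' : M, c' • h.mulVec (ξ x') = h.mulVec (ξ x) := by
      refine ⟨h.mulVec (ξ x) i₀ / h.mulVec (ξ x') i₀, funext fun i => ?_⟩
      have h1 : h.mulVec (ξ x) i / h.mulVec (ξ x) i₀
        = h.mulVec (ξ x') i / h.mulVec (ξ x') i₀ := congrFun hxx i
      rw [Pi.smul_apply, smul_eq_mul, div_mul_eq_mul_div, mul_div_assoc, ← h1,
        mul_div_cancel₀ _ hx]
    have hc1 : ∀ i, c' * algebraMap L M (x'.rep i) = algebraMap L M (x.rep i) := by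
      have h1 := congrArg ((g : Matrix (Fin (N + 1)) (Fin (N + 1)) M).mulVec) hc'
      rw [Matrix.mulVec_smul, hgy, hgy, hξ] at h1
      intro i
      exact congrFun h1 i
    obtain ⟨i₁, hi₁⟩ : ∃ i₁, x'.rep i₁ ≠ 0 := by
      by_contra hne
      push Not at hne
      exact x'.rep_nonzero (funext hne)
    have hi₁' : algebraMap L M (x'.rep i₁) ≠ 0 :=
      (map_ne_zero_iff _ (algebraMap L M).injective).2 hi₁
    rw [← x.mk_rep, ← x'.mk_rep, Projectivization.mk_eq_mk_iff']
    refine ⟨x.rep i₁ / x'.rep i₁, ?_⟩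
    funext i
    apply (algebraMap L M).injective
    rw [Pi.smul_apply, smul_eq_mul, map_mul, map_div₀, ← hc1 i₁, ← hc1 i,
      mul_div_assoc, div_self hi₁', mul_one]
  · rintro x ⟨h1, h2⟩
    obtain ⟨i₀, hi₀⟩ := hy0 x
    rw [Set.mem_iUnion]
    refine ⟨i₀, hi₀, ?_⟩
    have hu0 : (h.mulVec (ξ x) i₀)⁻¹ ≠ 0 := inv_ne_zero hi₀
    have hrep : (fun i => h.mulVec (ξ x) i / h.mulVec (ξ x) i₀)
        = fun i => (h.mulVec (ξ x) i₀)⁻¹ * h.mulVec (ξ x) i := by
      funext i
      rw [div_eq_mul_inv, mul_comm]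
    have hevφ : ∀ i, eval (fun i => h.mulVec (ξ x) i / h.mulVec (ξ x) i₀)
        (subst (g : Matrix _ _ M) (F i))
        = (h.mulVec (ξ x) i₀)⁻¹ ^ d i * algebraMap L M (eval x.rep (F i)) := by
      intro i
      rw [hrep, pts_eval_smul _ (hF'h i), hev]
    rw [hS]
    refine ⟨div_self hi₀, h1 i₀ hi₀, fun i hi => ?_⟩
    obtain ⟨h5, h6⟩ := h2 i hi
    have hud : (h.mulVec (ξ x) i₀)⁻¹ ^ d i ≠ 0 := pow_ne_zero _ hu0
    refine ⟨?_, fun J => ?_⟩
    · rw [hevφ]
      exact mul_ne_zero hud ((map_ne_zero_iff _ (algebraMap L M).injective).2 h5)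
    · obtain ⟨b, hb, hb'⟩ := mon_mulVec h A'.toSubring hhA' J
      have h7 : mon (fun i => h.mulVec (ξ x) i / h.mulVec (ξ x) i₀) J
          / eval (fun i => h.mulVec (ξ x) i / h.mulVec (ξ x) i₀) (subst (g : Matrix _ _ M) (F i))
          = ∑ J', b J' * algebraMap L M (mon x.rep J' / eval x.rep (F i)) := by
        rw [hevφ, hrep, pts_mon_smul, mul_div_mul_left _ _ hud, hb' (ξ x), Finset.sum_div]
        refine Finset.sum_congr rfl (fun J' _ => ?_)
        rw [map_div₀, hξ]
        simp only
        rw [pts_mon_map, mul_div_assoc]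
      rw [h7]
      exact A'.sum_mem fun J' _ => A'.mul_mem (hb J') (hAA' (h6 J'))

end Pool.Agent.Helper8.LV
end

/- Helper8.LG.KPt -/
section
/-! # LG-KPT: coordinates of points, rational points over a field -/

set_option autoImplicit false

open AlgebraicGeometry CategoryTheory CategoryTheory.Limits MvPolynomial

namespace Pool.Agent.Helper8.LG

attribute [local instance] MvPolynomial.gradedAlgebra

universe u

private theorem kpt_eval_smul {N n : ℕ} {K : Type*} [CommRing K] (F : MvPolynomial (Fin (N + 1)) K)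
    (hF : F.IsHomogeneous n) (c : K) (x : Fin (N + 1) → K) :
    eval (fun i => c * x i) F = c ^ n * eval x F := by
  rw [eval_eq, eval_eq, Finset.mul_sum]
  refine Finset.sum_congr rfl fun s hs => ?_
  have h1 : ∑ i ∈ s.support, s i = n := by
    have h2 := hF (mem_support_iff.1 hs)
    simpa [Finsupp.weight_apply, Finsupp.sum] using h2
  have h3 : ∏ i ∈ s.support, (c * x i) ^ s i = c ^ n * ∏ i ∈ s.support, x i ^ s i := by
    rw [← h1, ← Finset.prod_pow_eq_pow_sum, ← Finset.prod_mul_distrib]
    exact Finset.prod_congr rfl fun i _ => mul_pow _ _ _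
  rw [h3]
  ring

/-- coordinates are unique up to a scalar -/
theorem coord_unique {N : ℕ} {K : Type u} [Field K] {z : PN N K} {x x' : Fin (N + 1) → K}
    (hx : IsCoord z x) (hx' : IsCoord z x') : ∃ c : K, c ≠ 0 ∧ ∀ i, x' i = c * x i := by
  obtain ⟨j, hj⟩ : ∃ j, x j ≠ 0 := by
    by_contra h
    push Not at h
    exact hx.1 (funext h)
  have h1 : ∀ i, x j * x' i = x i * x' j := by
    intro i
    have h2 : (C (x j) * X i - C (x i) * X j : MvPolynomial (Fin (N + 1)) K).IsHomogeneous 1 :=
      ((isHomogeneous_C_mul_X _ _).sub (isHomogeneous_C_mul_X _ _))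
    have h3 := (hx.2 1 _ h2).2 (by simp; ring)
    have h4 := (hx'.2 1 _ h2).1 h3
    simp only [map_sub, map_mul, eval_C, eval_X] at h4
    exact sub_eq_zero.1 h4
  have h5 : x' j ≠ 0 := by
    intro h
    apply hx'.1
    funext i
    have h6 := h1 i
    rw [h, mul_zero] at h6
    exact (mul_eq_zero.1 h6).resolve_left hj
  refine ⟨x' j / x j, div_ne_zero h5 hj, fun i => ?_⟩
  rw [div_mul_eq_mul_div, eq_div_iff hj]
  linear_combination h1 i

/-- scaling coordinates -/
theorem coord_smul {N : ℕ} {K : Type u} [Field K] {z : PN N K} {x : Fin (N + 1) → K}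
    (hx : IsCoord z x) (c : K) (hc : c ≠ 0) : IsCoord z fun i => c * x i := by
  refine ⟨?_, fun n F hF => ?_⟩
  · intro h
    apply hx.1
    funext i
    have h1 := congrFun h i
    exact (mul_eq_zero.1 h1).resolve_left hc
  · rw [hx.2 n F hF, kpt_eval_smul F hF]
    exact ⟨fun h => by rw [h, mul_zero], fun h => (mul_eq_zero.1 h).resolve_left (pow_ne_zero _ hc)⟩

/-- coordinates determine the point -/
theorem point_unique {N : ℕ} {K : Type u} [Field K] {z z' : PN N K} {x : Fin (N + 1) → K}
    (hx : IsCoord z x) (hx' : IsCoord z' x) : z = z' := by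
  apply ProjectiveSpectrum.ext
  apply HomogeneousIdeal.ext'
  intro n F hF
  have hF' : F.IsHomogeneous n := hF
  exact (hx.2 n F hF').trans (hx'.2 n F hF').symm

/-- a rational point of a scheme over a field is determined by its image point -/
theorem kpoint_ext {K : Type u} [Field K] {X : Scheme.{u}} (f : X ⟶ Spec (.of K))
    (p p' : Spec (.of K) ⟶ X) (hp : p ≫ f = 𝟙 _) (hp' : p' ≫ f = 𝟙 _) (t : Spec (.of K))
    (h : p t = p' t) : p = p' := by
  obtain ⟨⟨x, a⟩, rfl⟩ := (Scheme.SpecToEquivOfField K X).symm.surjective p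
  obtain ⟨⟨x', a'⟩, rfl⟩ := (Scheme.SpecToEquivOfField K X).symm.surjective p'
  simp only [Scheme.SpecToEquivOfField_symm_apply] at *
  have h1 : x = x' := by
    rw [Scheme.Hom.comp_apply, Scheme.Hom.comp_apply, Scheme.fromSpecResidueField_apply,
      Scheme.fromSpecResidueField_apply] at h
    exact h
  subst h1
  obtain ⟨b, hb⟩ : ∃ b : CommRingCat.of K ⟶ X.residueField x,
      Spec.map b = X.fromSpecResidueField x ≫ f := ⟨Spec.preimage _, Spec.map_preimage _⟩
  rw [Category.assoc, ← hb, ← Spec.map_comp] at hp hp'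
  have h2 : b ≫ a = 𝟙 _ := Spec.map_injective (by rw [hp, Spec.map_id])
  have h3 : b ≫ a' = 𝟙 _ := Spec.map_injective (by rw [hp', Spec.map_id])
  have h4 : a = a' := by
    ext y
    have h5 : ∀ k : K, a.hom (b.hom k) = k := fun k => by
      have := congrArg (fun f => f.hom k) h2
      exact this
    have h6 : ∀ k : K, a'.hom (b.hom k) = k := fun k => by
      have := congrArg (fun f => f.hom k) h3
      exact this
    have h7 : b.hom (a.hom y) = y := a.hom.injective (h5 _)
    have h8 := h6 (a.hom y)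
    rw [h7] at h8
    exact h8.symm
  rw [h4]

end Pool.Agent.Helper8.LG
end

/- Helper8.LG.ProjPt -/
section
/-! # LG-PT: rational points of projective space -/

set_option autoImplicit false

open AlgebraicGeometry CategoryTheory CategoryTheory.Limits MvPolynomial

namespace Pool.Agent.Helper8.LG

attribute [local instance] MvPolynomial.gradedAlgebra

universe u

private theorem pt_mem_away {N : ℕ} {K : Type u} [Field K] {m n : ℕ}
    (F : MvPolynomial (Fin (N + 1)) K)
    (hF : F ∈ homogeneousSubmodule (Fin (N + 1)) K m) (hm : 0 < m)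
    (ψ : HomogeneousLocalization.Away (homogeneousSubmodule (Fin (N + 1)) K) F →+* K)
    (t : Spec (.of K)) (G : MvPolynomial (Fin (N + 1)) K)
    (hG : G ∈ homogeneousSubmodule (Fin (N + 1)) K n) (hn : 0 < n) :
    G ∈ ((Spec.map (CommRingCat.ofHom ψ) ≫ Proj.awayι _ F hF hm) t).asHomogeneousIdeal ↔
      ψ (HomogeneousLocalization.Away.isLocalizationElem hF hG) = 0 := by
  have h := Proj.awayι_preimage_basicOpen (homogeneousSubmodule (Fin (N + 1)) K) hF hm hG hn
  have h1 : (Spec.map (CommRingCat.ofHom ψ) t) ∈ (Proj.awayι _ F hF hm) ⁻¹ᵁ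
      (Proj.basicOpen (homogeneousSubmodule (Fin (N + 1)) K) G) ↔
      (Spec.map (CommRingCat.ofHom ψ) t) ∈ PrimeSpectrum.basicOpen
        (HomogeneousLocalization.Away.isLocalizationElem hF hG) := by
    rw [h]
    rfl
  have h2 : (Spec.map (CommRingCat.ofHom ψ) t) ∈ (Proj.awayι _ F hF hm) ⁻¹ᵁ
      (Proj.basicOpen (homogeneousSubmodule (Fin (N + 1)) K) G) ↔
      ¬ (G ∈ ((Spec.map (CommRingCat.ofHom ψ) ≫ Proj.awayι _ F hF hm) t).asHomogeneousIdeal) :=
    Iff.rfl
  have h3 : (Spec.map (CommRingCat.ofHom ψ) t) ∈ PrimeSpectrum.basicOpen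
        (HomogeneousLocalization.Away.isLocalizationElem hF hG) ↔
      ¬ (ψ (HomogeneousLocalization.Away.isLocalizationElem hF hG) ∈ t.asIdeal) := Iff.rfl
  have h4 : t.asIdeal = (⊥ : Ideal K) := Ideal.eq_bot_of_prime _
  rw [h4] at h3
  have h5 : ψ (HomogeneousLocalization.Away.isLocalizationElem hF hG) ∈ (⊥ : Ideal K) ↔
      ψ (HomogeneousLocalization.Away.isLocalizationElem hF hG) = 0 := Ideal.mem_bot
  tauto

/-- `ψ` is the identity on the scalars -/
private theorem pt_scalar {N : ℕ} {K : Type u} [Field K] {m : ℕ}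
    (F : MvPolynomial (Fin (N + 1)) K)
    (hF : F ∈ homogeneousSubmodule (Fin (N + 1)) K m) (hm : 0 < m)
    (ψ : HomogeneousLocalization.Away (homogeneousSubmodule (Fin (N + 1)) K) F →+* K)
    (hψ : Spec.map (CommRingCat.ofHom ψ) ≫ Proj.awayι _ F hF hm ≫ PN.toSpec N K = 𝟙 _) (c : K) :
    ψ (HomogeneousLocalization.fromZeroRingHom _ _
      (algebraMap K (homogeneousSubmodule (Fin (N + 1)) K 0) c)) = c := by
  unfold PN.toSpec at hψ
  rw [Proj.awayι_toSpecZero_assoc, ← Spec.map_comp, ← Spec.map_comp, ← Spec.map_id] at hψ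
  have h := Spec.map_injective hψ
  have h1 := congrArg (fun f => f.hom c) h
  exact h1

/-- a form not in the prime of a point of `D₊(F)` -/
private theorem pt_not_mem {N : ℕ} {K : Type u} [Field K] {m : ℕ}
    (F : MvPolynomial (Fin (N + 1)) K)
    (hF : F ∈ homogeneousSubmodule (Fin (N + 1)) K m) (hm : 0 < m)
    (ψ : HomogeneousLocalization.Away (homogeneousSubmodule (Fin (N + 1)) K) F →+* K)
    (t : Spec (.of K)) :
    F ∉ ((Spec.map (CommRingCat.ofHom ψ) ≫ Proj.awayι _ F hF hm) t).asHomogeneousIdeal := by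
  rw [pt_mem_away F hF hm ψ t F hF hm]
  have h : HomogeneousLocalization.Away.isLocalizationElem hF hF = 1 := by
    ext
    rw [HomogeneousLocalization.Away.val_mk, HomogeneousLocalization.val_one]
    exact Localization.mk_self (⟨F ^ m, m, rfl⟩ : Submonoid.powers F)
  rw [h, map_one]
  exact one_ne_zero

/-- some coordinate does not vanish -/
private theorem pt_exists_X {N : ℕ} {K : Type u} [Field K] (z : PN N K) :
    ∃ j, (X j : MvPolynomial (Fin (N + 1)) K) ∉ z.asHomogeneousIdeal := by
  by_contra! h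
  refine z.not_irrelevant_le ?_
  intro p hp
  have hp1 := (HomogeneousIdeal.mem_irrelevant_iff _ _).1 hp
  have hp2 : homogeneousComponent 0 p = 0 := (decomposition.decompose'_apply p 0).symm.trans hp1
  rw [homogeneousComponent_zero, C_eq_zero] at hp2
  have h1 : p ∈ Ideal.span (MvPolynomial.X '' (Set.univ : Set (Fin (N + 1)))) := by
    rw [mem_ideal_span_X_image]
    intro m hm
    by_contra! h2
    have h3 : m = 0 := by
      ext i
      exact h2 i (Set.mem_univ i)
    rw [h3, mem_support_iff] at hm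
    exact hm hp2
  have h4 : Ideal.span (MvPolynomial.X '' (Set.univ : Set (Fin (N + 1)))) ≤
      z.asHomogeneousIdeal.toIdeal := by
    rw [Ideal.span_le]
    rintro _ ⟨i, -, rfl⟩
    exact h i
  exact h4 h1

private theorem pt_eval_hom {N n : ℕ} {K : Type u} [Field K] {S : Type u} [CommRing S]
    (G : MvPolynomial (Fin (N + 1)) K) (hG : G.IsHomogeneous n)
    (a : MvPolynomial (Fin (N + 1)) K →+* S) (s : S) :
    eval₂ (a.comp C) (fun i => a (X i) * s) G = a G * s ^ n := by
  rw [eval₂_eq']
  have e4 : ∀ d ∈ G.support, (a.comp C) (coeff d G) * ∏ i, (a (X i) * s) ^ d i =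
      a (monomial d (coeff d G)) * s ^ n := by
    intro d hd
    have h1 : ∑ i, d i = n := by
      have h2 := hG.degree_eq_sum_deg_support hd
      rw [h2]
      exact (Finset.sum_subset (Finset.subset_univ _) fun i _ hi => by
        simpa using hi).symm
    simp only [mul_pow]
    rw [Finset.prod_mul_distrib, Finset.prod_pow_eq_pow_sum, h1, ← mul_assoc]
    congr 1
    rw [monomial_eq, map_mul, Finsupp.prod_fintype _ _ (by simp), map_prod]
    simp only [map_pow]
    rfl
  rw [Finset.sum_congr rfl e4, ← Finset.sum_mul, ← map_sum, ← MvPolynomial.as_sum]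

/-- the function `X_i / X_j` -/
private noncomputable def ptY {N : ℕ} (K : Type u) [Field K] (j i : Fin (N + 1)) :
    HomogeneousLocalization.Away (homogeneousSubmodule (Fin (N + 1)) K) (X j) :=
  HomogeneousLocalization.Away.mk _ ((mem_homogeneousSubmodule 1 _).2 (isHomogeneous_X K j)) 1
    (X i) ((mem_homogeneousSubmodule _ _).2 (isHomogeneous_X K i))

/-- the scalars -/
private noncomputable def ptC {N : ℕ} (K : Type u) [Field K] (j : Fin (N + 1)) :
    K →+* HomogeneousLocalization.Away (homogeneousSubmodule (Fin (N + 1)) K) (X j) :=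
  (HomogeneousLocalization.fromZeroRingHom _ _).comp
        (algebraMap K (homogeneousSubmodule (Fin (N + 1)) K 0))

/-- dehomogenisation -/
private theorem pt_dehom {N : ℕ} {K : Type u} [Field K] (j : Fin (N + 1)) {n : ℕ}
    (G : MvPolynomial (Fin (N + 1)) K) (hG : G.IsHomogeneous n)
    (hG' : G ∈ homogeneousSubmodule (Fin (N + 1)) K (n • 1)) :
    HomogeneousLocalization.Away.mk (homogeneousSubmodule (Fin (N + 1)) K)
      ((mem_homogeneousSubmodule 1 _).2 (isHomogeneous_X K j)) n G hG' =
      eval₂ (ptC K j) (ptY K j) G := by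
  apply HomogeneousLocalization.val_injective
  have e5 : (⟨X j ^ 1, 1, rfl⟩ : Submonoid.powers (X j : MvPolynomial (Fin (N + 1)) K)) =
        ⟨X j, Submonoid.mem_powers _⟩ := Subtype.ext (pow_one _)
  have h1 := pt_eval_hom G hG (algebraMap _ (Localization.Away (X j :
    MvPolynomial (Fin (N + 1)) K))) (Localization.mk 1 ⟨X j, Submonoid.mem_powers _⟩)
  have h2 := hom_eval₂ G (ptC K j) (algebraMap _ (Localization.Away (X j :
    MvPolynomial (Fin (N + 1)) K))) (ptY K j)
  refine Eq.trans ?_ (h1.symm.trans (Eq.trans ?_ h2.symm))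
  · rw [HomogeneousLocalization.Away.val_mk, ← Localization.mk_one_eq_algebraMap,
      Localization.mk_pow, Localization.mk_mul, one_pow, mul_one, one_mul]
    rfl
  · congr 1
    · funext c
      rw [← Localization.mk_one_eq_algebraMap, Localization.mk_mul, mul_one, one_mul, ← e5]
      rfl

/-- the values of the functions `G / F` at a rational point -/
theorem away_eval {N : ℕ} {K : Type u} [Field K] {n : ℕ} (F : MvPolynomial (Fin (N + 1)) K)
    (hF : F ∈ homogeneousSubmodule (Fin (N + 1)) K n) (hn : 0 < n)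
    (ψ : HomogeneousLocalization.Away (homogeneousSubmodule (Fin (N + 1)) K) F →+* K)
    (hψ : Spec.map (CommRingCat.ofHom ψ) ≫ Proj.awayι _ F hF hn ≫ PN.toSpec N K = 𝟙 _)
    (t : Spec (.of K)) (x : Fin (N + 1) → K)
    (hx : IsCoord ((Spec.map (CommRingCat.ofHom ψ) ≫ Proj.awayι _ F hF hn) t) x)
    (G : MvPolynomial (Fin (N + 1)) K) (hG : G ∈ homogeneousSubmodule (Fin (N + 1)) K n) :
    ψ (HomogeneousLocalization.mk ⟨n, ⟨G, hG⟩, ⟨F, hF⟩, Submonoid.mem_powers F⟩) =
      eval x G / eval x F := by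
  have hF0 : eval x F ≠ 0 := fun h =>
    pt_not_mem F hF hn ψ t ((hx.2 n F ((mem_homogeneousSubmodule n F).1 hF)).2 h)
  set c : K := eval x G / eval x F with hc
  set H : MvPolynomial (Fin (N + 1)) K := G - c • F with hH
  have hHm : H ∈ homogeneousSubmodule (Fin (N + 1)) K n :=
    Submodule.sub_mem _ hG (Submodule.smul_mem _ c hF)
  have hH0 : eval x H = 0 := by
    rw [hH, map_sub, smul_eval, hc, div_mul_cancel₀ _ hF0, sub_self]
  have h1 := (pt_mem_away F hF hn ψ t H hHm hn).1
    ((hx.2 n H ((mem_homogeneousSubmodule n H).1 hHm)).2 hH0)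
  have h2 : HomogeneousLocalization.Away.isLocalizationElem hF hHm =
      (HomogeneousLocalization.mk ⟨n, ⟨H, hHm⟩, ⟨F, hF⟩, Submonoid.mem_powers F⟩ :
        HomogeneousLocalization.Away (homogeneousSubmodule (Fin (N + 1)) K) F) ^ n := by
    ext
    rw [HomogeneousLocalization.Away.val_mk, HomogeneousLocalization.val_pow,
      HomogeneousLocalization.val_mk, Localization.mk_pow]
    rfl
  rw [h2, map_pow] at h1
  have h3 := eq_zero_of_pow_eq_zero h1
  have h4 : (HomogeneousLocalization.mk ⟨n, ⟨H, hHm⟩, ⟨F, hF⟩, Submonoid.mem_powers F⟩ :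
        HomogeneousLocalization.Away (homogeneousSubmodule (Fin (N + 1)) K) F) =
      HomogeneousLocalization.mk ⟨n, ⟨G, hG⟩, ⟨F, hF⟩, Submonoid.mem_powers F⟩ -
        HomogeneousLocalization.fromZeroRingHom _ _
          (algebraMap K (homogeneousSubmodule (Fin (N + 1)) K 0) c) := by
    ext
    have e1 : (HomogeneousLocalization.fromZeroRingHom (homogeneousSubmodule (Fin (N + 1)) K)
        (Submonoid.powers F) (algebraMap K (homogeneousSubmodule (Fin (N + 1)) K 0) c)).val =
        Localization.mk (MvPolynomial.C c) 1 := rfl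
    rw [HomogeneousLocalization.val_sub, e1, HomogeneousLocalization.val_mk,
      HomogeneousLocalization.val_mk, Localization.sub_mk]
    congr 1
    · simp only [hH, smul_eq_C_mul]
      simp [mul_comm]
    · simp
  rw [h4, map_sub, pt_scalar F hF hn ψ hψ] at h3
  exact sub_eq_zero.1 h3

theorem exists_coord {N : ℕ} {K : Type u} [Field K] (p : Spec (.of K) ⟶ PN N K)
    (hp : p ≫ PN.toSpec N K = 𝟙 _) (t : Spec (.of K)) : ∃ x, IsCoord (p t) x := by
  obtain ⟨j, hj⟩ := pt_exists_X (p t)
  have hXj := (mem_homogeneousSubmodule 1 _).2 (isHomogeneous_X K j)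
  have hr : Set.range p ⊆ Set.range
      (Proj.awayι (homogeneousSubmodule (Fin (N + 1)) K) (X j) hXj one_pos) := by
    rintro _ ⟨t', rfl⟩
    have h1 : t' = t := by
      apply PrimeSpectrum.ext
      have h4 : t.asIdeal = (⊥ : Ideal K) := Ideal.eq_bot_of_prime _
      have h5 : t'.asIdeal = (⊥ : Ideal K) := Ideal.eq_bot_of_prime _
      rw [h4, h5]
    rw [h1]
    have h2 : p t ∈ (Proj.awayι (homogeneousSubmodule (Fin (N + 1)) K) (X j) hXj
        one_pos).opensRange := by
      rw [Proj.opensRange_awayι]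
      exact hj
    exact h2
  obtain ⟨ψ, hψ⟩ : ∃ ψ : HomogeneousLocalization.Away
      (homogeneousSubmodule (Fin (N + 1)) K) (X j) →+* K,
      p = Spec.map (CommRingCat.ofHom ψ) ≫ Proj.awayι _ (X j) hXj one_pos := by
    refine ⟨(Spec.preimage (IsOpenImmersion.lift (Proj.awayι _ (X j) hXj one_pos) p hr)).hom, ?_⟩
    rw [CommRingCat.ofHom_hom, Spec.map_preimage, IsOpenImmersion.lift_fac]
  have hψ1 : Spec.map (CommRingCat.ofHom ψ) ≫ Proj.awayι _ (X j) hXj one_pos ≫ PN.toSpec N K =
      𝟙 _ := by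
    rw [← Category.assoc, ← hψ, hp]
  set x : Fin (N + 1) → K := fun i => ψ (ptY K j i) with hxdef
  have hev : ∀ (n : ℕ) (G : MvPolynomial (Fin (N + 1)) K) (_ : G.IsHomogeneous n)
      (hG' : G ∈ homogeneousSubmodule (Fin (N + 1)) K (n • 1)),
      ψ (HomogeneousLocalization.Away.mk (homogeneousSubmodule (Fin (N + 1)) K) hXj n G hG') =
        eval x G := by
    intro n G hG hG'
    rw [pt_dehom j G hG hG', hom_eval₂]
    have h1 : ψ.comp (ptC K j) = RingHom.id K := by
      ext c
      exact pt_scalar (X j) hXj one_pos ψ hψ1 c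
    rw [h1]
    rfl
  refine ⟨x, ?_, ?_⟩
  · intro h0
    have h1 := hev 1 (X j) (isHomogeneous_X K j) hXj
    rw [h0] at h1
    have h2 : HomogeneousLocalization.Away.mk (homogeneousSubmodule (Fin (N + 1)) K) hXj 1 (X j)
        hXj = 1 := by
      ext
      rw [HomogeneousLocalization.Away.val_mk, HomogeneousLocalization.val_one]
      simp
    rw [h2, map_one] at h1
    simp at h1
  · intro n F hF
    rcases Nat.eq_zero_or_pos n with hn | hn
    · subst hn
      obtain ⟨c, rfl⟩ : ∃ c : K, F = C c :=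
        ⟨_, totalDegree_eq_zero_iff_eq_C.1 ((totalDegree_zero_iff_isHomogeneous _).2 hF)⟩
      rw [eval_C]
      constructor
      · intro h1
        by_contra hc
        have h2 : (1 : MvPolynomial (Fin (N + 1)) K) ∈ (p t).asHomogeneousIdeal.toIdeal := by
          have h3 := Ideal.mul_mem_left (p t).asHomogeneousIdeal.toIdeal (C c⁻¹) h1
          rwa [← C_mul, inv_mul_cancel₀ hc, C_1] at h3
        exact (p t).isPrime.ne_top ((Ideal.eq_top_iff_one _).2 h2)
      · intro h1
        rw [h1, C_0]
        exact Submodule.zero_mem (p t).asHomogeneousIdeal.toIdeal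
    · rw [hψ, pt_mem_away (X j) hXj one_pos ψ t F ((mem_homogeneousSubmodule n F).2 hF) hn]
      have h1 := hev n (F ^ 1) (by rw [pow_one]; exact hF)
        (by rw [pow_one, smul_eq_mul, mul_one]; exact (mem_homogeneousSubmodule n F).2 hF)
      rw [h1, pow_one]

end Pool.Agent.Helper8.LG
end

/- Helper8.LG.Spread -/
section
/-! # LG-SPR: values of regular functions of the generic fibre at sections -/

set_option autoImplicit false

open AlgebraicGeometry CategoryTheory CategoryTheory.Limits

namespace Pool.Agent.Helper8.LG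

universe u

open TensorProduct in
private theorem SPR_tensor {A C K : Type u} [CommRing A] [IsDomain A] [CommRing C] [Field K]
    [Algebra A C] [Algebra A K] [IsFractionRing A K] (t : C ⊗[A] K) :
    ∃ s : A, algebraMap A K s ≠ 0 ∧ ∃ c : C,
      ((1 : C) ⊗ₜ[A] (algebraMap A K s)) * t = c ⊗ₜ[A] (1 : K) := by
  have hinj : Function.Injective (algebraMap A K) := IsFractionRing.injective A K
  induction t using TensorProduct.induction_on with
  | zero => exact ⟨1, by simp, 0, by simp⟩
  | tmul c k =>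
    obtain ⟨a, s, rfl⟩ := IsLocalization.exists_mk'_eq (nonZeroDivisors A) k
    refine ⟨s, ?_, a • c, ?_⟩
    · intro h
      exact nonZeroDivisors.ne_zero s.2 (hinj (by rw [h, map_zero]))
    · rw [Algebra.TensorProduct.tmul_mul_tmul, one_mul, IsLocalization.mk'_spec',
        TensorProduct.smul_tmul, Algebra.smul_def, mul_one]
  | add t₁ t₂ h₁ h₂ =>
    obtain ⟨s₁, hs₁, c₁, e₁⟩ := h₁
    obtain ⟨s₂, hs₂, c₂, e₂⟩ := h₂
    refine ⟨s₁ * s₂, by rw [map_mul]; exact mul_ne_zero hs₁ hs₂,
      s₂ • c₁ + s₁ • c₂, ?_⟩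
    have f₁ : ((1 : C) ⊗ₜ[A] (algebraMap A K (s₁ * s₂))) =
        ((1 : C) ⊗ₜ[A] (algebraMap A K s₂)) * ((1 : C) ⊗ₜ[A] (algebraMap A K s₁)) := by
      rw [Algebra.TensorProduct.tmul_mul_tmul, one_mul, map_mul, mul_comm]
    have f₂ : ((1 : C) ⊗ₜ[A] (algebraMap A K (s₁ * s₂))) =
        ((1 : C) ⊗ₜ[A] (algebraMap A K s₁)) * ((1 : C) ⊗ₜ[A] (algebraMap A K s₂)) := by
      rw [Algebra.TensorProduct.tmul_mul_tmul, one_mul, map_mul]
    rw [mul_add]
    conv_lhs =>
      congr
      · rw [f₁, mul_assoc, e₁]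
      · rw [f₂, mul_assoc, e₂]
    rw [Algebra.TensorProduct.tmul_mul_tmul, Algebra.TensorProduct.tmul_mul_tmul, one_mul,
      one_mul, mul_one, mul_one, TensorProduct.add_tmul, TensorProduct.smul_tmul,
      TensorProduct.smul_tmul, Algebra.smul_def, Algebra.smul_def, mul_one, mul_one]

private theorem SPR_mem {B : Scheme.{u}} [IsIntegral B] (V : B.Opens) (b : B) (hb : b ∈ V) :
    genericPoint B ∈ V :=
  ((genericPoint_spec B).mem_open_set_iff V.isOpen).mpr ⟨b, trivial, hb⟩

private theorem SPR_glue {B : Scheme.{u}} [IsIntegral B] (V : B.Opens) [Nonempty V]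
    (x : B.functionField)
    (h : ∀ b : V, ∃ (W : B.Opens) (_ : (b : B) ∈ W) (hη : genericPoint B ∈ W) (f : Γ(B, W)),
      W ≤ V ∧ B.presheaf.germ W (genericPoint B) hη f = x) :
    ∃ f : Γ(B, V), B.germToFunctionField V f = x := by
  choose W hW hη f hle hf using h
  have hcomp : TopCat.Presheaf.IsCompatible B.presheaf W f := by
    intro i j
    have hij : genericPoint B ∈ W i ⊓ W j := ⟨hη i, hη j⟩
    apply germ_injective_of_isIntegral B (genericPoint B) hij
    rw [TopCat.Presheaf.germ_res_apply, TopCat.Presheaf.germ_res_apply, hf, hf]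
  obtain ⟨s, hs, -⟩ := B.sheaf.existsUnique_gluing' W V (fun b => homOfLE (hle b))
    (fun b hb => TopologicalSpace.Opens.mem_iSup.mpr ⟨⟨b, hb⟩, hW ⟨b, hb⟩⟩) f hcomp
  refine ⟨s, ?_⟩
  obtain ⟨b⟩ := (inferInstance : Nonempty V)
  rw [← hf b, ← hs b]
  exact (TopCat.Presheaf.germ_res_apply B.presheaf (homOfLE (hle b)) (genericPoint B) (hη b)
    s).symm


/-- the value of a regular function of the generic fibre at the rational point of a section -/
noncomputable def genVal {B : Scheme.{u}} [IsIntegral B] {U : Scheme.{u}} (π : U ⟶ B)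
    (σ : B ⟶ U) (hσ : σ ≫ π = 𝟙 B) (φ : Γ(genFib π, ⊤)) : B.functionField :=
  (Scheme.ΓSpecIso B.functionField).hom ((genPt π σ hσ).appTop φ)

private theorem SPR_comm {B : Scheme.{u}} [IsIntegral B] (V W : B.Opens) (f : B ⟶ B)
    (hf : f = 𝟙 B) (e : W ≤ f ⁻¹ᵁ V) (hV : genericPoint B ∈ V) (hW : genericPoint B ∈ W) :
    f.appLE V W e ≫ B.presheaf.germ W (genericPoint B) hW =
      B.presheaf.germ V (genericPoint B) hV := by
  subst hf
  rw [Scheme.Hom.appLE, Scheme.Hom.id_app]
  erw [Category.id_comp]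
  exact TopCat.Presheaf.germ_res _ _ _ _

open TensorProduct in
private theorem SPR_local {B : Scheme.{u}} [IsIntegral B] {U : Scheme.{u}} (π : U ⟶ B)
    (V : B.Opens) [Nonempty V] (hV : IsAffineOpen V) (W : U.Opens) (hW : IsAffineOpen W)
    (hle : W ≤ π ⁻¹ᵁ V) (φ : Γ(genFib π, ⊤)) :
    ∃ s : Γ(B, V), B.germToFunctionField V s ≠ 0 ∧ ∃ c : Γ(U, W),
      ∀ (σ : B ⟶ U) (hσ : σ ≫ π = 𝟙 B) (hη : genericPoint B ∈ σ ⁻¹ᵁ W),
        B.germToFunctionField V s * genVal π σ hσ φ =
          B.presheaf.germ (σ ⁻¹ᵁ W) (genericPoint B) hη (σ.app W c) := by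
  have hηV : genericPoint B ∈ V := by
    obtain ⟨b⟩ := (inferInstance : Nonempty V)
    exact SPR_mem V b.1 b.2
  have : IsFractionRing Γ(B, V) B.functionField :=
    functionField_isFractionRing_of_isAffineOpen B V hV
  let algC : Algebra Γ(B, V) Γ(U, W) := (π.appLE V W hle).hom.toAlgebra
  let iL : Γ(U, W) ⟶ CommRingCat.of (Γ(U, W) ⊗[Γ(B, V)] B.functionField) :=
    CommRingCat.ofHom Algebra.TensorProduct.includeLeftRingHom
  let iR : B.functionField ⟶ CommRingCat.of (Γ(U, W) ⊗[Γ(B, V)] B.functionField) :=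
    CommRingCat.ofHom
      (Algebra.TensorProduct.includeRight (R := Γ(B, V)) (A := Γ(U, W))
        (B := B.functionField)).toRingHom
  have hcomp : π.appLE V W hle ≫ iL = B.germToFunctionField V ≫ iR := by
    ext a
    change (algebraMap Γ(B, V) Γ(U, W) a) ⊗ₜ[Γ(B, V)] (1 : B.functionField) =
      (1 : Γ(U, W)) ⊗ₜ[Γ(B, V)] (algebraMap Γ(B, V) B.functionField a)
    rw [Algebra.algebraMap_eq_smul_one, Algebra.algebraMap_eq_smul_one,
      TensorProduct.smul_tmul]
  have hcompat : (Spec.map iL ≫ hW.fromSpec) ≫ π =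
      Spec.map iR ≫ B.fromSpecStalk (genericPoint B) := by
    rw [Category.assoc, ← IsAffineOpen.SpecMap_appLE_fromSpec π hV hW hle,
      ← Spec.map_comp_assoc, hcomp, Spec.map_comp_assoc,
      ← hV.fromSpecStalk_eq_fromSpecStalk hηV]
    rfl
  let g : Spec (CommRingCat.of (Γ(U, W) ⊗[Γ(B, V)] B.functionField)) ⟶ genFib π :=
    pullback.lift (Spec.map iL ≫ hW.fromSpec) (Spec.map iR) hcompat
  let t : Γ(U, W) ⊗[Γ(B, V)] B.functionField :=
    (Scheme.ΓSpecIso (CommRingCat.of (Γ(U, W) ⊗[Γ(B, V)] B.functionField))).hom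
      (g.appTop φ)
  obtain ⟨s, hs, c, hc⟩ := SPR_tensor t
  refine ⟨s, hs, c, ?_⟩
  intro σ hσ hη
  let τ : Γ(U, W) ⟶ B.functionField :=
    σ.app W ≫ B.presheaf.germ (σ ⁻¹ᵁ W) (genericPoint B) hη
  have hτ : π.appLE V W hle ≫ τ = B.germToFunctionField V := by
    have h1 : σ ⁻¹ᵁ W ≤ (σ ≫ π) ⁻¹ᵁ V := by
      intro b hb
      exact hle hb
    have h2 := SPR_comm V (σ ⁻¹ᵁ W) (σ ≫ π) hσ h1 hηV hη
    refine Eq.trans ?_ h2
    change π.appLE V W hle ≫ σ.app W ≫ _ = _
    rw [Scheme.Hom.app_eq_appLE, ← Category.assoc, Scheme.Hom.appLE_comp_appLE]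
  let τA : Γ(U, W) →ₐ[Γ(B, V)] B.functionField :=
    { τ.hom with
      commutes' := fun a => by
        have := congrArg (fun f => f.hom a) hτ
        exact this }
  let m : (Γ(U, W) ⊗[Γ(B, V)] B.functionField) →ₐ[Γ(B, V)] B.functionField :=
    Algebra.TensorProduct.productMap τA (AlgHom.id _ _)
  let mc : CommRingCat.of (Γ(U, W) ⊗[Γ(B, V)] B.functionField) ⟶ B.functionField :=
    CommRingCat.ofHom m.toRingHom
  have hmL : iL ≫ mc = τ := by
    ext a
    change m (a ⊗ₜ[Γ(B, V)] (1 : B.functionField)) = τ a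
    rw [Algebra.TensorProduct.productMap_apply_tmul]
    simp only [map_one, mul_one]
    rfl
  have hmR : iR ≫ mc = 𝟙 _ := by
    ext a
    change m ((1 : Γ(U, W)) ⊗ₜ[Γ(B, V)] a) = a
    rw [Algebra.TensorProduct.productMap_apply_tmul]
    simp
  have hpt : Spec.map mc ≫ g = genPt π σ hσ := by
    apply pullback.hom_ext
    · rw [Category.assoc, pullback.lift_fst, genPt, pullback.lift_fst, ← Category.assoc,
        ← Spec.map_comp, hmL]
      rw [← Scheme.SpecMap_stalkMap_fromSpecStalk σ (x := genericPoint B),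
        ← hW.fromSpecStalk_eq_fromSpecStalk hη, IsAffineOpen.fromSpecStalk,
        ← Spec.map_comp_assoc, Scheme.Hom.germ_stalkMap]
    · rw [Category.assoc, pullback.lift_snd, genPt, pullback.lift_snd, ← Spec.map_comp, hmR,
        Spec.map_id]
  have hval : genVal π σ hσ φ = m t := by
    have h3 : (genPt π σ hσ).appTop ≫ (Scheme.ΓSpecIso B.functionField).hom =
        g.appTop ≫ (Scheme.ΓSpecIso (CommRingCat.of
          (Γ(U, W) ⊗[Γ(B, V)] B.functionField))).hom ≫ mc := by
      rw [← Scheme.ΓSpecIso_naturality, ← hpt, Scheme.Hom.comp_appTop, Category.assoc]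
    exact congrArg (fun f => f.hom φ) h3
  rw [hval]
  have h4 := congrArg m hc
  rw [map_mul, Algebra.TensorProduct.productMap_apply_tmul,
    Algebra.TensorProduct.productMap_apply_tmul] at h4
  simp only [map_one, mul_one, one_mul] at h4
  exact h4

/-- bounded denominators -/
theorem spread {B : Scheme.{u}} [IsIntegral B] {U : Scheme.{u}} (π : U ⟶ B) [QuasiCompact π]
    (V : B.Opens) [Nonempty V] (hV : IsAffineOpen V) (φ : Γ(genFib π, ⊤)) :
    ∃ s : Γ(B, V), B.germToFunctionField V s ≠ 0 ∧ ∀ (σ : B ⟶ U) (hσ : σ ≫ π = 𝟙 B),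
      ∃ b : Γ(B, V), B.germToFunctionField V s * genVal π σ hσ φ =
        B.germToFunctionField V b := by
  classical
  obtain ⟨Us, hUs, hfin, hsup⟩ := U.isBasis_affineOpens.exists_finite_of_isCompact
    (U := π ⁻¹ᵁ V) (QuasiCompact.isCompact_preimage V.1 V.2 hV.isCompact)
  have hloc : ∀ W : U.Opens, ∃ s : Γ(B, V), B.germToFunctionField V s ≠ 0 ∧
      (W ∈ Us → ∃ c : Γ(U, W),
        ∀ (σ : B ⟶ U) (hσ : σ ≫ π = 𝟙 B) (hη : genericPoint B ∈ σ ⁻¹ᵁ W),
          B.germToFunctionField V s * genVal π σ hσ φ =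
            B.presheaf.germ (σ ⁻¹ᵁ W) (genericPoint B) hη (σ.app W c)) := by
    intro W
    by_cases hW : W ∈ Us
    · have hle : W ≤ π ⁻¹ᵁ V := by
        rw [hsup]
        exact le_sSup hW
      obtain ⟨s, hs, c, hc⟩ := SPR_local π V hV W (hUs hW) hle φ
      exact ⟨s, hs, fun _ => ⟨c, hc⟩⟩
    · exact ⟨1, by rw [map_one]; exact one_ne_zero, fun h => absurd h hW⟩
  choose s hs hc using hloc
  refine ⟨∏ W ∈ hfin.toFinset, s W, ?_, ?_⟩
  · rw [map_prod]
    exact Finset.prod_ne_zero_iff.mpr fun W _ => hs W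
  · intro σ hσ
    obtain ⟨b, hb⟩ := SPR_glue V
      (B.germToFunctionField V (∏ W ∈ hfin.toFinset, s W) * genVal π σ hσ φ) (by
        intro b
        have hπσ : π (σ b.1) = b.1 := by
          rw [← Scheme.Hom.comp_apply, hσ]
          rfl
        have hmem : σ b.1 ∈ π ⁻¹ᵁ V := by
          change π (σ b.1) ∈ V
          rw [hπσ]
          exact b.2
        rw [hsup] at hmem
        obtain ⟨W, hW, hbW⟩ := TopologicalSpace.Opens.mem_sSup.mp hmem
        obtain ⟨c, hc'⟩ := hc W hW
        have hbW' : b.1 ∈ V ⊓ σ ⁻¹ᵁ W := ⟨b.2, hbW⟩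
        have hη : genericPoint B ∈ V ⊓ σ ⁻¹ᵁ W := SPR_mem _ b.1 hbW'
        refine ⟨V ⊓ σ ⁻¹ᵁ W, hbW', hη,
          B.presheaf.map (homOfLE inf_le_left).op (∏ W' ∈ hfin.toFinset.erase W, s W') *
            B.presheaf.map (homOfLE inf_le_right).op (σ.app W c), inf_le_left, ?_⟩
        rw [map_mul, TopCat.Presheaf.germ_res_apply, TopCat.Presheaf.germ_res_apply,
          ← hc' σ hσ hη.2, ← mul_assoc]
        congr 1
        rw [← Finset.prod_erase_mul hfin.toFinset s (hfin.mem_toFinset.mpr hW), map_mul])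
    exact ⟨b, hb.symm⟩

end Pool.Agent.Helper8.LG
end

/- Helper8.LG.SecExt -/
section
/-! # LG-SEX: sections and the generic fibre; the function field -/

set_option autoImplicit false

open AlgebraicGeometry CategoryTheory CategoryTheory.Limits

namespace Pool.Agent.Helper8.LG

universe u

/-- the inclusion of the generic point is dominant -/
theorem isDominant_fromSpecStalk_genericPoint (B : Scheme.{u}) [IsIntegral B] :
    IsDominant (B.fromSpecStalk (genericPoint B)) := by
  constructor
  intro x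
  have h1 : genericPoint B ∈ Set.range (B.fromSpecStalk (genericPoint B)) :=
    ⟨_, Scheme.fromSpecStalk_closedPoint⟩
  exact closure_mono (Set.singleton_subset_iff.2 h1)
    ((genericPoint_spec B).specializes trivial).mem_closure

/-- sections which agree generically are equal -/
theorem section_ext {B : Scheme.{u}} [IsIntegral B] {U : Scheme.{u}} (π : U ⟶ B)
    [IsSeparated π] (σ σ' : B ⟶ U) (hσ : σ ≫ π = 𝟙 B) (hσ' : σ' ≫ π = 𝟙 B)
    (h : genPt π σ hσ = genPt π σ' hσ') : σ = σ' := by
  have := isDominant_fromSpecStalk_genericPoint B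
  refine ext_of_isDominant_of_isSeparated π (hσ.trans hσ'.symm)
    (B.fromSpecStalk (genericPoint B)) ?_
  have h2 := congrArg (fun f => f ≫ pullback.fst _ _) h
  simpa only [genPt, pullback.lift_fst] using h2

/-- the map from the base ring to the function field through an affine open set -/
theorem germ_appLE_eq_preimage (R : CommRingCat.{u}) {B : Scheme.{u}} [IsIntegral B]
    (s : B ⟶ Spec R) (V : B.Opens) [Nonempty V] (hV : IsAffineOpen V) (e : V ≤ s ⁻¹ᵁ ⊤) :
    (Scheme.ΓSpecIso R).inv ≫ s.appLE ⊤ V e ≫ B.germToFunctionField V =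
      Spec.preimage (B.fromSpecStalk (genericPoint B) ≫ s) := by
  apply Spec.map_injective
  have hmem : genericPoint B ∈ V :=
    ((genericPoint_spec B).mem_open_set_iff V.isOpen).mpr (by simpa using ‹Nonempty V›)
  rw [Spec.map_preimage, ← hV.fromSpecStalk_eq_fromSpecStalk hmem, IsAffineOpen.fromSpecStalk,
    Category.assoc, ← IsAffineOpen.SpecMap_appLE_fromSpec s (isAffineOpen_top (Spec R)) hV e,
    IsAffineOpen.fromSpec_top, Scheme.isoSpec_Spec_inv, Spec.map_comp, Spec.map_comp,
    Category.assoc]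

/-- the function field of an integral scheme locally of finite type over `R` -/
theorem exists_affine_ft (R : CommRingCat.{u}) {B : Scheme.{u}} [IsIntegral B]
    (s : B ⟶ Spec R) [LocallyOfFiniteType s] (k₀ : Subfield B.functionField)
    (hk₀ : ∀ r : R,
      (Spec.preimage (B.fromSpecStalk (genericPoint B) ≫ s)).hom r ∈ k₀) :
    ∃ (V : B.Opens) (_ : Nonempty V), IsAffineOpen V ∧
      (∃ A : Subalgebra k₀ B.functionField, A.FG ∧
        ∀ b : Γ(B, V), B.germToFunctionField V b ∈ A) ∧
      (⊤ : IntermediateField k₀ B.functionField).FG := by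
  classical
  obtain ⟨_, ⟨V, hV, rfl⟩, hmem, -⟩ :=
    B.isBasis_affineOpens.exists_subset_of_mem_open (Set.mem_univ (genericPoint B)) isOpen_univ
  have hV' : IsAffineOpen V := hV
  have hne : Nonempty V := ⟨⟨_, hmem⟩⟩
  have e : V ≤ s ⁻¹ᵁ ⊤ := le_top
  have hft : (s.appLE ⊤ V e).hom.FiniteType :=
    s.finiteType_appLE (isAffineOpen_top (Spec R)) hV' e
  have hft2 : ((s.appLE ⊤ V e).hom.comp (Scheme.ΓSpecIso R).inv.hom).FiniteType := by
    apply RingHom.FiniteType.comp hft
    apply RingHom.FiniteType.of_surjective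
    exact (ConcreteCategory.bijective_of_isIso (Scheme.ΓSpecIso R).inv).2
  set φ : R →+* Γ(B, V) := (s.appLE ⊤ V e).hom.comp (Scheme.ΓSpecIso R).inv.hom with hφ
  have hkey : ∀ r : R, B.germToFunctionField V (φ r) ∈ k₀ := by
    intro r
    have h1 := hk₀ r
    rw [← germ_appLE_eq_preimage R s V hV' e] at h1
    simpa [hφ] using h1
  let _ : Algebra R Γ(B, V) := φ.toAlgebra
  obtain ⟨T, hT⟩ := hft2.out
  let γ : Γ(B, V) →+* B.functionField := (B.germToFunctionField V).hom
  let A : Subalgebra k₀ B.functionField := Algebra.adjoin k₀ ((T.image γ : Finset _) : Set _)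
  have hA : ∀ b : Γ(B, V), γ b ∈ A := by
    intro b
    have hb : b ∈ Algebra.adjoin R (T : Set Γ(B, V)) := by
      rw [hT]; trivial
    induction hb using Algebra.adjoin_induction with
    | mem x hx =>
      apply Algebra.subset_adjoin
      simp only [Finset.coe_image]
      exact ⟨x, hx, rfl⟩
    | algebraMap r => exact A.algebraMap_mem ⟨_, hkey r⟩
    | add x y _ _ hx hy => rw [map_add]; exact A.add_mem hx hy
    | mul x y _ _ hx hy => rw [map_mul]; exact A.mul_mem hx hy
  refine ⟨V, hne, hV', ⟨A, ⟨_, rfl⟩, hA⟩, ⟨T.image γ, ?_⟩⟩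
  rw [eq_top_iff]
  intro x _
  have := functionField_isFractionRing_of_isAffineOpen B V hV'
  obtain ⟨a, b, -, hx⟩ := IsFractionRing.div_surjective (A := Γ(B, V)) x
  have hsub : ∀ c : Γ(B, V), γ c ∈ IntermediateField.adjoin k₀
      ((T.image γ : Finset _) : Set B.functionField) := fun c =>
    IntermediateField.algebra_adjoin_le_adjoin k₀ _ (hA c)
  rw [← hx]
  exact IntermediateField.div_mem _ (hsub a) (hsub b)

end Pool.Agent.Helper8.LG
end

/- Helper8.LG.GenFun -/
section
/-! # LG-GFUN: the functions `G / F` on the generic fibre; finite fibres of the morphism `q` -/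

set_option autoImplicit false

open AlgebraicGeometry CategoryTheory CategoryTheory.Limits MvPolynomial

namespace Pool.Agent.Helper8.LG

attribute [local instance] MvPolynomial.gradedAlgebra

universe u

/-- if `F` does not vanish on the image of `q` then `G / F` is a regular function on the generic
fibre, with the expected values at the sections -/
theorem exists_fun {B : Scheme.{u}} [IsIntegral B] {U : Scheme.{u}} (π : U ⟶ B) {N n : ℕ}
    (q : genFib π ⟶ PN N B.functionField) (hq : q ≫ PN.toSpec N _ = pullback.snd _ _)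
    (hn : 0 < n) (F : MvPolynomial (Fin (N + 1)) B.functionField) (hF : F.IsHomogeneous n)
    (hU : ∀ z : genFib π, q z ∈ Proj.basicOpen _ F)
    (G : MvPolynomial (Fin (N + 1)) B.functionField) (hG : G.IsHomogeneous n) :
    ∃ φ : Γ(genFib π, ⊤), ∀ (σ : B ⟶ U) (hσ : σ ≫ π = 𝟙 B) (t : Spec B.functionField)
      (x : Fin (N + 1) → B.functionField), IsCoord (q (genPt π σ hσ t)) x →
      genVal π σ hσ φ = eval x G / eval x F := by
  have hF' : F ∈ homogeneousSubmodule (Fin (N + 1)) B.functionField n := hF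
  have hG' : G ∈ homogeneousSubmodule (Fin (N + 1)) B.functionField n := hG
  let j := Proj.awayι (homogeneousSubmodule (Fin (N + 1)) B.functionField) F hF' hn
  have hr : Set.range q ⊆ Set.range j := by
    rintro _ ⟨z, rfl⟩
    have h1 := hU z
    rw [← Proj.opensRange_awayι _ F hF' hn] at h1
    exact h1
  let qt := IsOpenImmersion.lift j q hr
  have hqt : qt ≫ j = q := IsOpenImmersion.lift_fac j q hr
  let e : HomogeneousLocalization.Away (homogeneousSubmodule (Fin (N + 1)) B.functionField) F :=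
    HomogeneousLocalization.mk ⟨n, ⟨G, hG'⟩, ⟨F, hF'⟩, Submonoid.mem_powers F⟩
  refine ⟨qt.appTop ((Scheme.ΓSpecIso (.of _)).inv e), fun σ hσ t x hx => ?_⟩
  let ψ := Spec.preimage (genPt π σ hσ ≫ qt)
  have hψ : Spec.map ψ = genPt π σ hσ ≫ qt := Spec.map_preimage _
  have h1 : Spec.map ψ ≫ j = genPt π σ hσ ≫ q := by
    rw [hψ, Category.assoc, hqt]
  have h2 : Spec.map ψ ≫ j ≫ PN.toSpec N B.functionField = 𝟙 _ := by
    rw [← Category.assoc, h1, Category.assoc, hq]
    exact pullback.lift_snd _ _ _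
  have h3 := away_eval F hF' hn ψ.hom h2 t x (by
    have h4 : (Spec.map ψ ≫ j) t = q (genPt π σ hσ t) := by
      rw [h1]
      rfl
    change IsCoord ((Spec.map ψ ≫ j) t) x
    rw [h4]
    exact hx) G hG'
  rw [← h3]
  have h5 : (Scheme.ΓSpecIso (.of _)).inv ≫ (Spec.map ψ).appTop ≫
      (Scheme.ΓSpecIso B.functionField).hom = ψ := by
    rw [Scheme.ΓSpecIso_naturality, Iso.inv_hom_id_assoc]
  have h6 : (genPt π σ hσ ≫ qt).appTop = qt.appTop ≫ (genPt π σ hσ).appTop :=
    Scheme.Hom.comp_appTop _ _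
  rw [hψ, h6] at h5
  have h7 := congrArg (fun f => f.hom e) h5
  exact h7

end Pool.Agent.Helper8.LG
end

/- Helper8.LG.FinFib -/
section
/-! # LG-FFIB: finitely many sections over a given point -/

set_option autoImplicit false

open AlgebraicGeometry CategoryTheory CategoryTheory.Limits MvPolynomial

namespace Pool.Agent.Helper8.LG

attribute [local instance] MvPolynomial.gradedAlgebra

universe u

/-- projective space is separated -/
theorem ffib_separated (N : ℕ) (K : Type u) [CommRing K] : IsSeparated (PN.toSpec N K) := by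
  unfold PN.toSpec
  infer_instance

theorem ffib_snd {B : Scheme.{u}} [IsIntegral B] {U : Scheme.{u}} (π : U ⟶ B)
    (σ : B ⟶ U) (hσ : σ ≫ π = 𝟙 B) : genPt π σ hσ ≫ pullback.snd _ _ = 𝟙 _ := by
  unfold genPt
  exact pullback.lift_snd _ _ _

/-- finitely many sections map to a given point of projective space -/
theorem fib_finite {B : Scheme.{u}} [IsIntegral B] {U : Scheme.{u}} (π : U ⟶ B)
    [IsSeparated π] [LocallyOfFiniteType π] [QuasiCompact π] {N : ℕ}
    (q : genFib π ⟶ PN N B.functionField) (hq : q ≫ PN.toSpec N _ = pullback.snd _ _)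
    [LocallyQuasiFinite q] (t : Spec B.functionField) (z : PN N B.functionField) :
    {σ : B ⟶ U | ∃ hσ : σ ≫ π = 𝟙 B, q (genPt π σ hσ t) = z}.Finite := by
  have hsep : IsSeparated (PN.toSpec N B.functionField) := ffib_separated N _
  have hqc' : QuasiCompact (q ≫ PN.toSpec N B.functionField) := by
    rw [hq]
    infer_instance
  have hqc : QuasiCompact q := QuasiCompact.of_comp q (PN.toSpec N B.functionField)
  have hfin : (q ⁻¹' {z}).Finite := q.finite_preimage_singleton z
  have hF : Finite (q ⁻¹' {z} : Set _) := hfin.to_subtype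
  rw [← Set.finite_coe_iff]
  refine Finite.of_injective
    (β := (q ⁻¹' {z} : Set _))
    (fun σ => ⟨genPt π σ.1 σ.2.choose t, σ.2.choose_spec⟩) ?_
  intro σ σ' h
  have h1 : genPt π σ.1 σ.2.choose t = genPt π σ'.1 σ'.2.choose t := congrArg Subtype.val h
  have h2 : genPt π σ.1 σ.2.choose = genPt π σ'.1 σ'.2.choose :=
    kpoint_ext (K := B.functionField) (pullback.snd _ _) _ _
      (ffib_snd π σ.1 σ.2.choose) (ffib_snd π σ'.1 σ'.2.choose) t h1
  exact Subtype.ext (section_ext π σ.1 σ'.1 σ.2.choose σ'.2.choose h2)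

end Pool.Agent.Helper8.LG
end

/- Helper8.LV.WrapCore -/
section
/-! # LV-WRAP: from projective points to sections -/

set_option autoImplicit false

open AlgebraicGeometry CategoryTheory CategoryTheory.Limits MvPolynomial

namespace Pool.Agent.Helper8.LV

open Pool.Agent.Helper8.LG
open scoped LinearAlgebra.Projectivization

attribute [local instance] MvPolynomial.gradedAlgebra

universe u v

theorem wrap_core {κ : Type*} [CommRing κ] {B : Scheme.{u}} [IsIntegral B]
    [Algebra κ B.functionField]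
    (V : B.Opens) [Nonempty V] (hV : IsAffineOpen V) (A₀ : Subalgebra κ B.functionField)
    (hA₀ : A₀.FG) (hVA : ∀ b : Γ(B, V), B.germToFunctionField V b ∈ A₀)
    {U : Scheme.{u}} (π : U ⟶ B) [IsSeparated π] [LocallyOfFiniteType π] [QuasiCompact π]
    {N r : ℕ} (d : Fin r → ℕ) (hd : ∀ i, 0 < d i)
    (F : Fin r → MvPolynomial (Fin (N + 1)) B.functionField)
    (hF : ∀ i, (F i).IsHomogeneous (d i))
    (f : genFib π ⟶ PN N B.functionField) (hf : f ≫ PN.toSpec N _ = pullback.snd _ _)
    [LocallyQuasiFinite f] (W : Finset (Fin r))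
    (hU : ∀ i ∈ W, ∀ z : genFib π, NonVanishing (f z) (F i))
    (M : Type v) [Field M] [Algebra B.functionField M] [Algebra κ M]
    [IsScalarTower κ B.functionField M] (Q : (Fin (N + 1) → B.functionField) → Prop)
    (hfin : ∀ A : Subalgebra κ M, A.FG →
      {x : ℙ B.functionField (Fin (N + 1) → B.functionField) | Q x.rep ∧
        ∀ i ∈ W, eval x.rep (F i) ≠ 0 ∧ ∀ J : Sym (Fin (N + 1)) (d i),
          algebraMap B.functionField M (mon x.rep J / eval x.rep (F i)) ∈ A}.Finite) :
    {σ : B ⟶ U | ∃ hσ : σ ≫ π = 𝟙 B, ∀ (t : Spec B.functionField)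
      (x : Fin (N + 1) → B.functionField), IsCoord (f (genPt π σ hσ t)) x → Q x}.Finite := by
  classical
  obtain ⟨T, hT⟩ := hA₀
  -- the functions
  have hfun : ∀ (i : {i : Fin r // i ∈ W}) (J : Sym (Fin (N + 1)) (d i)),
      ∃ s : Γ(B, V), B.germToFunctionField V s ≠ 0 ∧
      ∀ (σ : B ⟶ U) (hσ : σ ≫ π = 𝟙 B) (t : Spec B.functionField)
        (x : Fin (N + 1) → B.functionField), IsCoord (f (genPt π σ hσ t)) x →
        ∃ b : Γ(B, V), B.germToFunctionField V s * (mon x J / eval x (F i)) =
          B.germToFunctionField V b := by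
    intro i J
    obtain ⟨φ, hφ⟩ := exists_fun π f hf (hd i) (F i) (hF i)
      (fun z => (Proj.mem_basicOpen _ _ _).2 (hU i i.2 z))
      (monX B.functionField J) (monX_hom _ J)
    obtain ⟨s, hs, hsb⟩ := spread π V hV φ
    refine ⟨s, hs, fun σ hσ t x hx => ?_⟩
    obtain ⟨b, hb⟩ := hsb σ hσ
    refine ⟨b, ?_⟩
    rw [← hb, hφ σ hσ t x hx, eval_monX]
  choose sf hsf hsb using hfun
  let ι := algebraMap B.functionField M
  let S : Set M := ι '' T ∪ Set.range fun p : (Σ i : {i : Fin r // i ∈ W},
    Sym (Fin (N + 1)) (d i)) => (ι (B.germToFunctionField V (sf p.1 p.2)))⁻¹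
  have hSfin : S.Finite := (T.finite_toSet.image ι).union (Set.finite_range _)
  let A : Subalgebra κ M := Algebra.adjoin κ S
  have hA : A.FG := Subalgebra.fg_def.mpr ⟨S, hSfin, rfl⟩
  have hιA : ∀ a ∈ A₀, ι a ∈ A := by
    intro a ha
    rw [← hT] at ha
    induction ha using Algebra.adjoin_induction with
    | mem x hx => exact Algebra.subset_adjoin (Or.inl ⟨x, hx, rfl⟩)
    | algebraMap a =>
      have h1 : ι (algebraMap κ B.functionField a) = algebraMap κ M a :=
        (IsScalarTower.algebraMap_apply κ B.functionField M a).symm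
      rw [h1]
      exact A.algebraMap_mem _
    | add x y _ _ hx hy =>
      rw [map_add]
      exact add_mem hx hy
    | mul x y _ _ hx hy =>
      rw [map_mul]
      exact mul_mem hx hy
  have hmain := hfin A hA
  obtain ⟨t⟩ : Nonempty (Spec B.functionField) := inferInstance
  have hfib : ∀ P : Projectivization B.functionField (Fin (N + 1) → B.functionField),
      {σ : B ⟶ U | ∃ hσ : σ ≫ π = 𝟙 B, IsCoord (f (genPt π σ hσ t)) P.rep}.Finite := by
    intro P
    by_cases hne : ∃ σ : B ⟶ U, ∃ hσ : σ ≫ π = 𝟙 B, IsCoord (f (genPt π σ hσ t)) P.rep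
    · obtain ⟨σ₀, hσ₀, h0⟩ := hne
      refine (fib_finite π f hf t (f (genPt π σ₀ hσ₀ t))).subset ?_
      rintro σ ⟨hσ, h1⟩
      exact ⟨hσ, point_unique h1 h0⟩
    · refine Set.Finite.subset Set.finite_empty ?_
      rintro σ ⟨hσ, h1⟩
      exact hne ⟨σ, hσ, h1⟩
  refine (hmain.biUnion fun P _ => hfib P).subset fun σ hσ => ?_
  obtain ⟨hσ', hQ⟩ := hσ
  have hp : (genPt π σ hσ' ≫ f) ≫ PN.toSpec N B.functionField = 𝟙 _ := by
    rw [Category.assoc, hf]
    exact ffib_snd π σ hσ'
  obtain ⟨x, hx⟩ := exists_coord (genPt π σ hσ' ≫ f) hp t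
  have hx' : IsCoord (f (genPt π σ hσ' t)) x := hx
  let P := Projectivization.mk B.functionField x hx'.1
  have hP : IsCoord (f (genPt π σ hσ' t)) P.rep := by
    obtain ⟨a, ha⟩ := Projectivization.exists_smul_eq_mk_rep B.functionField x hx'.1
    have h1 := coord_smul hx' (a : B.functionField) a.ne_zero
    have h2 : (fun i => (a : B.functionField) * x i) = P.rep := ha
    rwa [h2] at h1
  refine Set.mem_biUnion (x := P) ?_ ⟨hσ', hP⟩
  refine ⟨hQ t P.rep hP, fun i hiW => ⟨?_, fun J => ?_⟩⟩
  · have h4 := hU i hiW (genPt π σ hσ' t)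
    intro h5
    exact h4 ((hP.2 (d i) (F i) (hF i)).mpr h5)
  · obtain ⟨b, hb⟩ := hsb ⟨i, hiW⟩ J σ hσ' t P.rep hP
    have hs0 := hsf ⟨i, hiW⟩ J
    have h6 : mon P.rep J / eval P.rep (F i) = B.germToFunctionField V b *
        (B.germToFunctionField V (sf ⟨i, hiW⟩ J))⁻¹ := by
      rw [← hb]
      field_simp
    rw [h6, map_mul, map_inv₀]
    exact mul_mem (hιA _ (hVA b)) (Algebra.subset_adjoin (Or.inr ⟨⟨⟨i, hiW⟩, J⟩, rfl⟩))

end Pool.Agent.Helper8.LV
end
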