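import Pool.Agent.Helper12.LVM.C08
import Pool.Agent.Helper12.LVM.C02
import Pool.Agent.Helper12.LVM.B02

/- Helper8.CO.Cert -/
section
/-! # CO: the Nullstellensatz certificate and its consequence at a valuation ring -/

set_option autoImplicit false

namespace Pool.Agent.Helper8.CO

open scoped BigOperators
open Pool.Agent.Helper8.LG Pool.Agent.Helper6.CO

/-- For `i ∈ Y` a power of every variable is a combination of the `m_t`, `bl t = i`. -/
def NulP {L σ ι κ : Type*} [Field L] [Fintype σ] [DecidableEq σ] [Fintype κ] [DecidableEq ι]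
    (bl : κ → ι) {b : κ → ℕ} (p : (t : κ) → Sym σ (b t) → L) (Y : Finset ι) : Prop :=
  ∀ i ∈ Y, ∀ l : σ, ∃ (R : ℕ) (B : κ → MvPolynomial σ L),
    (MvPolynomial.X l : MvPolynomial σ L) ^ R =
      ∑ t, if bl t = i then B t * form (fun J => MvPolynomial.C (p t J)) MvPolynomial.X else 0

theorem eval_form {L E σ : Type*} [Field L] [Field E] [Fintype σ] [DecidableEq σ] {n : ℕ}
    (f : L →+* E) (a : Sym σ n → L) (x : σ → E) :
    MvPolynomial.eval₂ f x (form (fun J => MvPolynomial.C (a J)) MvPolynomial.X) =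
      form (fun J => f (a J)) x := by
  unfold form
  rw [← MvPolynomial.coe_eval₂Hom, map_sum]
  refine Finset.sum_congr rfl fun J _ => ?_
  rw [map_mul, MvPolynomial.coe_eval₂Hom, MvPolynomial.eval₂_C]
  congr 1
  unfold mon
  rw [← MvPolynomial.coe_eval₂Hom, map_multiset_prod, Multiset.map_map]
  congr 1
  refine Multiset.map_congr rfl fun l _ => ?_
  simp

/-- an element of a valuation ring whose sum is one -/
theorem exists_unit_term {E ι : Type*} [Field E] (O : ValuationSubring E) (s : Finset ι)
    (f : ι → E) (h : ∑ i ∈ s, f i = 1) : ∃ i ∈ s, f i ≠ 0 ∧ (f i)⁻¹ ∈ O := by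
  by_contra hcon
  push Not at hcon
  have h1 : ∀ i ∈ s, O.valuation (f i) < 1 := by
    intro i hi
    by_cases h0 : f i = 0
    · rw [h0, map_zero]
      exact zero_lt_one
    · have h2 := hcon i hi h0
      rw [← O.valuation_le_one_iff, not_le, map_inv₀] at h2
      have h3 : O.valuation (f i) ≠ 0 := (O.valuation.ne_zero_iff).2 h0
      rwa [one_lt_inv₀ (zero_lt_iff.2 h3)] at h2
  have h2 : O.valuation (∑ i ∈ s, f i) < 1 :=
    O.valuation.map_sum_lt one_ne_zero h1
  rw [h, map_one] at h2
  exact lt_irrefl _ h2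

theorem mem_of_coeffs {L E σ : Type*} [Field L] [Field E] (f : L →+* E) (O : ValuationSubring E)
    (Δ : E) (B : MvPolynomial σ L) (hB : ∀ m, Δ * f (B.coeff m) ∈ O) (y : σ → E)
    (hy : ∀ l, y l ∈ O) : Δ * MvPolynomial.eval₂ f y B ∈ O := by
  rw [MvPolynomial.eval₂_eq, Finset.mul_sum]
  refine sum_mem fun m _ => ?_
  rw [← mul_assoc]
  exact mul_mem (hB m) (prod_mem fun l _ => pow_mem (hy l) _)

/-- the certificate bounds the `m_t` from below -/
theorem nul_bound {L E σ ι κ : Type*} [Field L] [Field E] [Fintype σ] [DecidableEq σ]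
    [Fintype κ] [DecidableEq ι] (bl : κ → ι) {b : κ → ℕ} (p : (t : κ) → Sym σ (b t) → L)
    (Y : Finset ι) (hN : NulP bl p Y) :
    ∃ S₀ : Set L, S₀.Finite ∧ ∀ (f : L →+* E) (O : ValuationSubring E) (Δ : E),
      (∀ s ∈ S₀, Δ * f s ∈ O) → ∀ x : σ → E, Nul bl (fun t J => f (p t J)) Y O Δ x := by
  classical
  unfold NulP at hN
  choose! R B hB using hN
  refine ⟨⋃ i ∈ Y, ⋃ l : σ, ⋃ t : κ, insert 0 (((B i l t).support.image (B i l t).coeff : Finset L) : Set L),
    ?_, ?_⟩
  · refine Set.Finite.biUnion Y.finite_toSet fun i _ => Set.finite_iUnion fun l =>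
      Set.finite_iUnion fun t => (Finset.finite_toSet _).insert 0
  · intro f O Δ hS x i hi j hj hxO
    set y : σ → E := fun l => x l / x j with hy
    have hyj : y j = 1 := div_self hj
    have h1 := congrArg (MvPolynomial.eval₂Hom f y) (hB i hi j)
    rw [map_pow, map_sum, MvPolynomial.coe_eval₂Hom, MvPolynomial.eval₂_X, hyj, one_pow] at h1
    obtain ⟨t, -, ht0, ht⟩ := exists_unit_term O Finset.univ _ h1.symm
    have hbl : bl t = i := by
      by_contra hne
      apply ht0
      rw [if_neg hne]
      exact MvPolynomial.eval₂_zero _ _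
    rw [if_pos hbl, MvPolynomial.eval₂_mul, eval_form] at ht0 ht
    refine ⟨t, hbl, right_ne_zero_of_mul ht0, ?_⟩
    have h2 : Δ * MvPolynomial.eval₂ f y (B i j t) ∈ O := by
      refine mem_of_coeffs f O Δ _ (fun m => ?_) y hxO
      apply hS
      refine Set.mem_biUnion hi (Set.mem_iUnion.2 ⟨j, Set.mem_iUnion.2 ⟨t, ?_⟩⟩)
      by_cases hm : (B i j t).coeff m = 0
      · exact Or.inl hm
      · exact Or.inr (Finset.mem_coe.2 (Finset.mem_image.2
          ⟨m, MvPolynomial.mem_support_iff.2 hm, rfl⟩))
    have h3 : Δ * (form (fun J => f (p t J)) y)⁻¹ =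
        (Δ * MvPolynomial.eval₂ f y (B i j t)) *
          (MvPolynomial.eval₂ f y (B i j t) * form (fun J => f (p t J)) y)⁻¹ := by
      have h4 : MvPolynomial.eval₂ f y (B i j t) ≠ 0 := left_ne_zero_of_mul ht0
      rw [mul_inv]
      field_simp
    rw [h3]
    exact mul_mem h2 ht

theorem nul_mul {E σ ι κ : Type*} [Field E] [Fintype σ] [DecidableEq σ]
    (bl : κ → ι) {b : κ → ℕ} (p : (t : κ) → Sym σ (b t) → E)
    (Y : Finset ι) (O : ValuationSubring E) (Δ c : E) (hc : c ∈ O) (x : σ → E)
    (h : Nul bl p Y O Δ x) : Nul bl p Y O (c * Δ) x := by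
  intro i hi j hj hxO
  obtain ⟨t, h1, h2, h3⟩ := h i hi j hj hxO
  refine ⟨t, h1, h2, ?_⟩
  rw [mul_assoc]
  exact mul_mem hc h3

theorem nulP_map {L E σ ι κ : Type*} [Field L] [Field E] [Fintype σ] [DecidableEq σ]
    [Fintype κ] [DecidableEq ι] (bl : κ → ι) {b : κ → ℕ} (p : (t : κ) → Sym σ (b t) → L)
    (Y : Finset ι) (hN : NulP bl p Y) (f : L →+* E) : NulP bl (fun t J => f (p t J)) Y := by
  intro i hi l
  obtain ⟨R, B, h⟩ := hN i hi l
  refine ⟨R, fun t => MvPolynomial.map f (B t), ?_⟩
  have h1 := congrArg (MvPolynomial.map f) h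
  rw [map_pow, MvPolynomial.map_X, map_sum] at h1
  rw [h1]
  refine Finset.sum_congr rfl fun t _ => ?_
  split_ifs
  · rw [map_mul]
    congr 1
    unfold form
    rw [map_sum]
    refine Finset.sum_congr rfl fun J _ => ?_
    rw [map_mul, MvPolynomial.map_C]
    congr 1
    unfold mon
    rw [map_multiset_prod, Multiset.map_map]
    congr 1
    refine Multiset.map_congr rfl fun l _ => ?_
    simp
  · rw [map_zero]

end Pool.Agent.Helper8.CO
end

/- Helper12.LVF.H8.CO.FamMov -/
section
/-! # CO: the chain rule -/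

set_option autoImplicit false

namespace Pool.Agent.Helper8.CO

open scoped BigOperators
open Pool.Agent.Helper8.LG Pool.Agent.Helper6.CO

/-- the chain rule for a derivation that kills `k` -/
theorem der_aeval {k E S : Type*} [Field k] [Field E] [Algebra k E] [Fintype S]
    (D : Derivation ℤ E E) (hD : ∀ c : k, D (algebraMap k E c) = 0) (h : S → E)
    (Q : MvPolynomial S k) :
    D (MvPolynomial.aeval h Q) =
      ∑ s, MvPolynomial.aeval h (MvPolynomial.pderiv s Q) * D (h s) := by
  classical
  induction Q using MvPolynomial.induction_on with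
  | C c =>
    simp [hD]
  | add P Q hP hQ =>
    simp only [map_add, hP, hQ, add_mul, Finset.sum_add_distrib]
  | mul_X P j hP =>
    rw [map_mul, MvPolynomial.aeval_X, Derivation.leibniz, hP]
    have h1 : ∀ s, MvPolynomial.aeval h (MvPolynomial.pderiv s (P * MvPolynomial.X j)) * D (h s) =
        MvPolynomial.aeval h P * (if s = j then D (h j) else 0) +
          h j * (MvPolynomial.aeval h (MvPolynomial.pderiv s P) * D (h s)) := by
      intro s
      rw [Derivation.leibniz, MvPolynomial.pderiv_X]
      simp only [smul_eq_mul, map_add, map_mul, MvPolynomial.aeval_X]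
      by_cases hs : s = j
      · subst hs
        rw [if_pos rfl, Pi.single_eq_same, map_one]
        ring
      · rw [if_neg hs, Pi.single_eq_of_ne (Ne.symm hs), map_zero]
        ring
    rw [Finset.sum_congr rfl fun s _ => h1 s, Finset.sum_add_distrib, ← Finset.mul_sum,
      ← Finset.mul_sum, Finset.sum_ite_eq' Finset.univ j]
    simp only [Finset.mem_univ, if_true, smul_eq_mul]

theorem fam_map {k E E' σ ι κ : Type*} [Field k] [Field E] [Field E'] [Algebra k E]
    [Algebra k E'] [Fintype σ] [DecidableEq σ] [Fintype κ] [DecidableEq ι] {bl : κ → ι}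
    {d : ι → ℕ} {b q : κ → ℕ} {a : (i : ι) → Sym σ (d i) → E} {p : (t : κ) → Sym σ (b t) → E}
    {h : (t : κ) → Sym σ (q t) → E} {Q : (i : ι) → Sym σ (d i) → MvPolynomial (Ix σ q) k}
    (H : Fam k bl d b q a p h Q) (f : E →ₐ[k] E') :
    Fam k bl d b q (fun i J => f (a i J)) (fun t J => f (p t J)) (fun t J => f (h t J)) Q where
  deg := H.deg
  eq := fun i J => by
    rw [← H.eq i J]
    have h1 : f.comp (MvPolynomial.aeval fun s : Ix σ q => h s.1 s.2) =
        MvPolynomial.aeval fun s : Ix σ q => f (h s.1 s.2) :=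
      MvPolynomial.algHom_ext fun s => by simp
    exact (DFunLike.congr_fun h1 (Q i J)).symm
  der := fun i J s => by
    have h1 : f.comp (MvPolynomial.aeval fun s : Ix σ q => h s.1 s.2) =
        MvPolynomial.aeval fun s : Ix σ q => f (h s.1 s.2) :=
      MvPolynomial.algHom_ext fun s => by simp
    have h2 := DFunLike.congr_fun h1 (MvPolynomial.pderiv s (Q i J))
    rw [← h2]
    show f (MvPolynomial.aeval (fun s : Ix σ q => h s.1 s.2) (MvPolynomial.pderiv s (Q i J))) = _
    rw [H.der i J s]
    split_ifs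
    · rw [map_sum]
      refine Finset.sum_congr rfl fun J' _ => ?_
      split_ifs
      · rfl
      · exact map_zero _
    · exact map_zero _

theorem fam_mov {k E σ ι κ P : Type*} [Field k] [Field E] [Algebra k E] [Fintype σ]
    [DecidableEq σ] [Fintype κ] [DecidableEq ι] {bl : κ → ι} {d : ι → ℕ} {b q : κ → ℕ}
    {a : (i : ι) → Sym σ (d i) → E} {p : (t : κ) → Sym σ (b t) → E}
    {h : (t : κ) → Sym σ (q t) → E} {Q : (i : ι) → Sym σ (d i) → MvPolynomial (Ix σ q) k}
    (H : Fam k bl d b q a p h Q) (D : P → Derivation ℤ E E)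
    (hD : ∀ s (c : k), D s (algebraMap k E c) = 0) : Mov bl d b q a p h D where
  deg := H.deg
  der := fun s i x => by
    classical
    have h1 : ∀ J, D s (a i J) = ∑ r : Ix σ q, (if bl r.1 = i then
        ∑ J' : Sym σ (b r.1), (if (J' : Multiset σ) + (r.2 : Multiset σ) = (J : Multiset σ)
          then p r.1 J' else 0) else 0) * D s (h r.1 r.2) := by
      intro J
      rw [← H.eq i J, der_aeval (D s) (hD s)]
      exact Finset.sum_congr rfl fun r _ => by rw [H.der i J r]
    calc ∑ J, D s (a i J) * mon x J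
        = ∑ J : Sym σ (d i), ∑ r : Ix σ q, ((if bl r.1 = i then
          ∑ J' : Sym σ (b r.1), (if (J' : Multiset σ) + (r.2 : Multiset σ) = (J : Multiset σ)
            then p r.1 J' else 0) else 0) * D s (h r.1 r.2)) * mon x J := by
          refine Finset.sum_congr rfl fun J _ => ?_
          rw [h1 J, Finset.sum_mul]
      _ = ∑ r : Ix σ q, ∑ J : Sym σ (d i), ((if bl r.1 = i then
          ∑ J' : Sym σ (b r.1), (if (J' : Multiset σ) + (r.2 : Multiset σ) = (J : Multiset σ)
            then p r.1 J' else 0) else 0) * D s (h r.1 r.2)) * mon x J := Finset.sum_comm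
      _ = ∑ t, ∑ J'' : Sym σ (q t), ∑ J : Sym σ (d i), ((if bl t = i then
          ∑ J' : Sym σ (b t), (if (J' : Multiset σ) + (J'' : Multiset σ) = (J : Multiset σ)
            then p t J' else 0) else 0) * D s (h t J'')) * mon x J := by
          rw [Fintype.sum_sigma]
      _ = ∑ t, if bl t = i then form (p t) x * ∑ J, D s (h t J) * mon x J else 0 := by
          refine Finset.sum_congr rfl fun t _ => ?_
          by_cases ht : bl t = i
          · simp only [if_pos ht]
            have hdeg : d i = b t + q t := by rw [← ht]; exact H.deg t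
            have h2 := Helper8.LV.kf_conv hdeg (p t) (fun J => D s (h t J)) x
            unfold form
            rw [h2, Finset.sum_comm]
            refine Finset.sum_congr rfl fun J _ => ?_
            rw [← Finset.sum_mul]
            congr 1
            rw [Finset.sum_comm (γ := Sym σ (b t))]
            refine Finset.sum_congr rfl fun J'' _ => ?_
            rw [Finset.sum_mul]
            refine Finset.sum_congr rfl fun J' _ => ?_
            split_ifs
            · rfl
            · rw [zero_mul]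
          · simp only [if_neg ht, zero_mul, Finset.sum_const_zero]

end Pool.Agent.Helper8.CO
end

/- Helper91.CO.Stat -/
section
/-!
# CO: weighted substitutions
-/

set_option autoImplicit false

open MvPolynomial

namespace Pool.Agent.Helper91.CO

/-- The derivative `(∂F₀/∂Y_j)(X, H)`, where `F₀` is a polynomial in the variables `X_0, ..., X_N` (`Sum.inl`) and
`Y_0, ..., Y_(n-1)` (`Sum.inr`). -/
noncomputable def mder {k M : Type*} [Field k] [Field M] [Algebra k M] {N n : ℕ}
    (F₀ : MvPolynomial (Fin (N + 1) ⊕ Fin n) k) (H : Fin n → MvPolynomial (Fin (N + 1)) M)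
    (j : Fin n) : MvPolynomial (Fin (N + 1)) M :=
  aeval (Sum.elim X H) (pderiv (Sum.inr j) F₀)

/-- The weights: `X_l` has weight `1`, `Y_j` has weight `h j`. -/
def wts (N : ℕ) {n : ℕ} (h : Fin n → ℕ) : Fin (N + 1) ⊕ Fin n → ℕ :=
  Sum.elim (fun _ => 1) h

end Pool.Agent.Helper91.CO
end
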