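import Mathlib
import Pool.Agent.Helper12.LVM.C01

/- Helper12.LVF.H70.GG.OneVar -/
section
/-!
# Function fields of one variable: the facts used for Theorem G

`E0 ⊆ E` fields of characteristic zero, `s ∈ E` transcendental over `E0`, `E` finite over `E0(s)`.
-/

namespace Pool.Agent.Helper70.GG

open Polynomial

section

variable {E0 E : Type*} [Field E0] [Field E] [Algebra E0 E]

/-- `E0[s]` is integrally closed for `s` transcendental. -/
theorem isIntegrallyClosed_adjoin {s : E} (hs : Transcendental E0 s) :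
    IsIntegrallyClosed (Algebra.adjoin E0 {s}) := by
  have hinj : Function.Injective (aeval s : E0[X] →ₐ[E0] E) := transcendental_iff_injective.mp hs
  exact IsIntegrallyClosed.of_equiv ((AlgEquiv.ofInjective _ hinj).trans
    (Subalgebra.equivOfEq _ _ (Algebra.adjoin_singleton_eq_range_aeval E0 s).symm)).toRingEquiv

open IntermediateField.algebraAdjoinAdjoin in
/-- The trace of an element integral over `E0[s]` is in `E0[s]`. -/
theorem trace_mem {s : E} (hs : Transcendental E0 s) (F : IntermediateField E0 E)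
    (hF : F = IntermediateField.adjoin E0 {s}) [FiniteDimensional F E] {y : E}
    (hy : IsIntegral (Algebra.adjoin E0 {s}) y) :
    ((Algebra.trace F E y : F) : E) ∈ Algebra.adjoin E0 {s} := by
  subst hF
  have := isIntegrallyClosed_adjoin hs
  have h1 : IsIntegral (Algebra.adjoin E0 {s})
      (Algebra.trace (IntermediateField.adjoin E0 {s}) E y) := Algebra.isIntegral_trace hy
  obtain ⟨a, ha⟩ := IsIntegrallyClosed.isIntegral_iff.mp h1
  rw [← ha]
  exact a.2

open IntermediateField.algebraAdjoinAdjoin in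
/-- Every element of `E` has a non-zero multiple by an element of `E0[s]` which is integral over
`E0[s]`. -/
theorem exists_mul_isIntegral {s : E} (F : IntermediateField E0 E)
    (hF : F = IntermediateField.adjoin E0 {s}) [FiniteDimensional F E] (y : E) :
    ∃ a ∈ Algebra.adjoin E0 {s}, a ≠ 0 ∧ IsIntegral (Algebra.adjoin E0 {s}) (a * y) := by
  subst hF
  have h1 : IsAlgebraic (Algebra.adjoin E0 {s}) y := by
    have h2 : IsAlgebraic (IntermediateField.adjoin E0 {s}) y := Algebra.IsAlgebraic.isAlgebraic y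
    exact (IsFractionRing.isAlgebraic_iff (Algebra.adjoin E0 {s})
      (IntermediateField.adjoin E0 {s}) E).mpr h2
  obtain ⟨a, ha, hi⟩ := h1.exists_integral_multiple
  refine ⟨a, a.2, ?_, hi⟩
  intro h
  exact ha (Subtype.ext h)

theorem transcendental_inv {s : E} (hs : Transcendental E0 s) : Transcendental E0 s⁻¹ := by
  intro h
  apply hs
  have := h.inv
  rwa [inv_inv] at this

theorem adjoin_inv (s : E) :
    IntermediateField.adjoin E0 {s} = IntermediateField.adjoin E0 {s⁻¹} := by
  apply le_antisymm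
  · rw [IntermediateField.adjoin_simple_le_iff]
    have := (IntermediateField.adjoin E0 {s⁻¹}).inv_mem
      (IntermediateField.mem_adjoin_simple_self E0 s⁻¹)
    rwa [inv_inv] at this
  · rw [IntermediateField.adjoin_simple_le_iff]
    exact (IntermediateField.adjoin E0 {s}).inv_mem (IntermediateField.mem_adjoin_simple_self E0 s)

/-- Rational functions with poles bounded in both charts. -/
private theorem mem_fg_aux {s : E} (hs : Transcendental E0 s) {a b : E}
    (ha : a ∈ Algebra.adjoin E0 {s}) (hb : b ∈ Algebra.adjoin E0 {s⁻¹}) (ha0 : a ≠ 0)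
    (hb0 : b ≠ 0) : ∃ V : Submodule E0 E, V.FG ∧ ∀ f : E, a * f ∈ Algebra.adjoin E0 {s} →
      b * f ∈ Algebra.adjoin E0 {s⁻¹} → f ∈ V := by
  rw [Algebra.adjoin_singleton_eq_range_aeval] at ha hb
  obtain ⟨p, hp⟩ := ha
  obtain ⟨q, hq⟩ := hb
  change aeval s p = a at hp
  change aeval s⁻¹ q = b at hq
  subst hp hq
  have hinj : Function.Injective (aeval s : E0[X] →ₐ[E0] E) := transcendental_iff_injective.mp hs
  have hs0 : s ≠ 0 := by
    rintro rfl
    exact hs isAlgebraic_zero
  refine ⟨Submodule.span E0 (Set.range fun j : Fin (p.natDegree + q.natDegree + 1) =>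
    s ^ (j : ℕ) * (aeval s p)⁻¹), Submodule.fg_span (Set.finite_range _), fun f h1 h2 => ?_⟩
  rw [Algebra.adjoin_singleton_eq_range_aeval] at h1 h2
  obtain ⟨u, hu⟩ := h1
  obtain ⟨v, hv⟩ := h2
  have hp0 : p ≠ 0 := by
    rintro rfl
    simp at ha0
  have hq0 : q ≠ 0 := by
    rintro rfl
    simp at hb0
  have hu' : aeval s u = aeval s p * f := hu
  have hv' : aeval s⁻¹ v = aeval s⁻¹ q * f := hv
  have hrev : ∀ w : E0[X], aeval s⁻¹ w * s ^ w.natDegree = aeval s w.reverse := by
    intro w
    let _ : Invertible s⁻¹ := invertibleOfNonzero (inv_ne_zero hs0)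
    have h := eval₂_reverse_mul_pow (algebraMap E0 E) s⁻¹ w
    rw [invOf_eq_inv, inv_inv] at h
    rw [aeval_def, aeval_def, ← h, mul_assoc, ← mul_pow, inv_mul_cancel₀ hs0, one_pow, mul_one]
  by_cases hf : f = 0
  · rw [hf]
    exact Submodule.zero_mem _
  have hu0 : u ≠ 0 := by
    rintro rfl
    rw [map_zero] at hu'
    exact (mul_ne_zero ha0 hf) hu'.symm
  have hv0 : v ≠ 0 := by
    rintro rfl
    rw [map_zero] at hv'
    exact (mul_ne_zero hb0 hf) hv'.symm
  have e : u * q.reverse * X ^ v.natDegree = p * v.reverse * X ^ q.natDegree := by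
    apply hinj
    simp only [map_mul, map_pow, aeval_X]
    rw [← hrev, ← hrev, hu', hv']
    ring
  have hqr : q.reverse ≠ 0 := by
    rwa [Ne, reverse_eq_zero]
  have hvr : v.reverse ≠ 0 := by
    rwa [Ne, reverse_eq_zero]
  have e2 := congrArg natDegree e
  rw [natDegree_mul (mul_ne_zero hu0 hqr) (pow_ne_zero _ X_ne_zero), natDegree_mul hu0 hqr,
    natDegree_mul (mul_ne_zero hp0 hvr) (pow_ne_zero _ X_ne_zero), natDegree_mul hp0 hvr,
    natDegree_X_pow, natDegree_X_pow] at e2
  have h3 := v.reverse_natDegree_le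
  have hdeg : u.natDegree ≤ p.natDegree + q.natDegree := by omega
  have hf2 : f = aeval s u * (aeval s p)⁻¹ := by
    rw [hu', mul_comm (aeval s p) f, mul_assoc, mul_inv_cancel₀ ha0, mul_one]
  rw [hf2, aeval_eq_sum_range (p := u), Finset.sum_mul]
  refine Submodule.sum_mem _ fun j hj => ?_
  rw [smul_mul_assoc]
  refine Submodule.smul_mem _ _ (Submodule.subset_span ⟨⟨j, ?_⟩, rfl⟩)
  have := Finset.mem_range.mp hj
  omega

/-- **Bounded poles.** The elements of `E` whose poles are bounded on both charts `E0[s]`,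
`E0[1/s]` lie in a finitely generated `E0`-submodule. -/
theorem exists_fg_of_isIntegral [CharZero E0] {s : E} (hs : Transcendental E0 s)
    (hfin : FiniteDimensional (IntermediateField.adjoin E0 {s}) E) {Δ Δ' : E} (hΔ : Δ ≠ 0)
    (hΔ' : Δ' ≠ 0) : ∃ V : Submodule E0 E, V.FG ∧ ∀ y : E,
      IsIntegral (Algebra.adjoin E0 {s}) (Δ * y) →
      IsIntegral (Algebra.adjoin E0 {s⁻¹}) (Δ' * y) → y ∈ V := by
  classical
  have hs' := transcendental_inv hs
  let F := IntermediateField.adjoin E0 {s}
  have hF' : F = IntermediateField.adjoin E0 {s⁻¹} := adjoin_inv s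
  have hfinF : FiniteDimensional F E := hfin
  let B := Module.finBasis F E
  obtain ⟨a, ha, ha0, hai⟩ := exists_mul_isIntegral F rfl Δ⁻¹
  obtain ⟨a', ha', ha'0, ha'i⟩ := exists_mul_isIntegral F hF' Δ'⁻¹
  have hc : ∀ j, ∃ c ∈ Algebra.adjoin E0 {s}, c ≠ 0 ∧
      IsIntegral (Algebra.adjoin E0 {s}) (c * B j) := fun j => exists_mul_isIntegral F rfl (B j)
  have hc' : ∀ j, ∃ c ∈ Algebra.adjoin E0 {s⁻¹}, c ≠ 0 ∧
      IsIntegral (Algebra.adjoin E0 {s⁻¹}) (c * B j) :=
    fun j => exists_mul_isIntegral F hF' (B j)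
  choose c hcm hc0 hci using hc
  choose c' hc'm hc'0 hc'i using hc'
  have hV : ∀ j, ∃ V : Submodule E0 E, V.FG ∧ ∀ f : E, a * c j * f ∈ Algebra.adjoin E0 {s} →
      a' * c' j * f ∈ Algebra.adjoin E0 {s⁻¹} → f ∈ V := fun j =>
    mem_fg_aux hs (mul_mem ha (hcm j)) (mul_mem ha' (hc'm j)) (mul_ne_zero ha0 (hc0 j))
      (mul_ne_zero ha'0 (hc'0 j))
  choose V hVfg hV using hV
  refine ⟨⨆ j, (V j).map (LinearMap.mulRight E0 (B.traceDual j : E)),
    Submodule.fg_iSup _ fun j => (hVfg j).map _, fun y hy hy' => ?_⟩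
  have e1 : y = ∑ j, (Algebra.trace F E (y * B j) : E) * B.traceDual j := by
    have h := B.traceDual.sum_repr y
    simp only [Module.Basis.traceDual_repr_apply, Algebra.traceForm_apply] at h
    exact h.symm
  rw [e1]
  refine Submodule.sum_mem _ fun j _ => ?_
  refine Submodule.mem_iSup_of_mem j ⟨((Algebra.trace F E (y * B j) : F) : E), ?_, rfl⟩
  have htr : ∀ z : F, (z : E) * ((Algebra.trace F E (y * B j) : F) : E) =
      ((Algebra.trace F E ((z : E) * (y * B j)) : F) : E) := by
    intro z
    have h : Algebra.trace F E (z • (y * B j)) = z • Algebra.trace F E (y * B j) := map_smul _ _ _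
    have h2 : (z : E) * (y * B j) = z • (y * B j) := rfl
    rw [h2, h]
    rfl
  refine hV j _ ?_ ?_
  · have hz : a * c j ∈ F := (IntermediateField.algebra_adjoin_le_adjoin E0 {s})
      (mul_mem ha (hcm j))
    rw [htr ⟨_, hz⟩]
    refine trace_mem hs F rfl ?_
    have e2 : (a * c j) * (y * B j) = (a * Δ⁻¹) * (Δ * y) * (c j * B j) := by
      (clear * - hΔ ha0; field_simp)
    change IsIntegral _ ((a * c j) * (y * B j))
    rw [e2]
    exact (hai.mul hy).mul (hci j)
  · have hz : a' * c' j ∈ F := by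
      rw [hF']
      exact (IntermediateField.algebra_adjoin_le_adjoin E0 {s⁻¹}) (mul_mem ha' (hc'm j))
    rw [htr ⟨_, hz⟩]
    refine trace_mem hs' F hF' ?_
    have e2 : (a' * c' j) * (y * B j) = (a' * Δ'⁻¹) * (Δ' * y) * (c' j * B j) := by
      field_simp
    change IsIntegral _ ((a' * c' j) * (y * B j))
    rw [e2]
    exact (ha'i.mul hy').mul (hc'i j)

/-- An element integral over both charts is algebraic over the constants. -/
theorem isIntegral_of_charts [CharZero E0] {s : E} (hs : Transcendental E0 s)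
    (hfin : FiniteDimensional (IntermediateField.adjoin E0 {s}) E) {x : E}
    (h1 : IsIntegral (Algebra.adjoin E0 {s}) x) (h2 : IsIntegral (Algebra.adjoin E0 {s⁻¹}) x) :
    IsIntegral E0 x := by
  obtain ⟨V, hV, h⟩ := exists_fg_of_isIntegral hs hfin (one_ne_zero (α := E)) one_ne_zero
  have hle : Subalgebra.toSubmodule (Algebra.adjoin E0 {x}) ≤ V := by
    rw [Algebra.adjoin_eq_span, Submodule.span_le]
    intro y hy
    rw [← Submonoid.powers_eq_closure] at hy
    obtain ⟨n, rfl⟩ := hy
    refine h _ ?_ ?_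
    · rw [one_mul]
      exact h1.pow n
    · rw [one_mul]
      exact h2.pow n
  have hVfin : Module.Finite E0 V := Module.Finite.iff_fg.mpr hV
  have hfg : (Subalgebra.toSubmodule (Algebra.adjoin E0 {x})).FG :=
    Submodule.FG.of_le hV hle
  exact IsIntegral.of_mem_of_fg _ hfg x (Algebra.self_mem_adjoin_singleton E0 x)

/-- **Poles of derivatives.** A derivation which maps `E0` to itself and `s` into `E0[s]` maps the
integral closure of `E0[s]` to itself up to a fixed denominator. -/
theorem exists_derivation_bound [CharZero E0] {s : E} (hs : Transcendental E0 s)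
    (hfin : FiniteDimensional (IntermediateField.adjoin E0 {s}) E) (D : Derivation ℤ E E)
    (hD0 : ∀ a : E0, ∃ b : E0, D (algebraMap E0 E a) = algebraMap E0 E b)
    (hDs : D s ∈ Algebra.adjoin E0 {s}) : ∃ Δ ∈ Algebra.adjoin E0 {s}, Δ ≠ 0 ∧ ∀ y : E,
      IsIntegral (Algebra.adjoin E0 {s}) y → IsIntegral (Algebra.adjoin E0 {s}) (Δ * D y) := by
  classical
  let F := IntermediateField.adjoin E0 {s}
  have hfinF : FiniteDimensional F E := hfin
  let B := Module.finBasis F E
  have hDA : ∀ x ∈ Algebra.adjoin E0 {s}, D x ∈ Algebra.adjoin E0 {s} := by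
    intro x hx
    induction hx using Algebra.adjoin_induction with
    | mem x hx =>
      rw [Set.mem_singleton_iff.mp hx]
      exact hDs
    | algebraMap a =>
      obtain ⟨b, hb⟩ := hD0 a
      rw [hb]
      exact Subalgebra.algebraMap_mem _ b
    | add x y _ _ hx hy =>
      rw [map_add]
      exact add_mem hx hy
    | mul x y hx' hy' hx hy =>
      rw [Derivation.leibniz, smul_eq_mul, smul_eq_mul]
      exact add_mem (mul_mem hx' hy) (mul_mem hy' hx)
  have hc : ∀ j, ∃ c ∈ Algebra.adjoin E0 {s}, c ≠ 0 ∧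
      IsIntegral (Algebra.adjoin E0 {s}) (c * B j) := fun j => exists_mul_isIntegral F rfl (B j)
  choose c hcm hc0 hci using hc
  -- the dual elements
  let t : Fin (Module.finrank F E) → E := fun j => (c j)⁻¹ * B.traceDual j
  have hd : ∀ j, ∃ d ∈ Algebra.adjoin E0 {s}, d ≠ 0 ∧
      IsIntegral (Algebra.adjoin E0 {s}) (d * t j) := fun j => exists_mul_isIntegral F rfl (t j)
  have hd' : ∀ j, ∃ d ∈ Algebra.adjoin E0 {s}, d ≠ 0 ∧
      IsIntegral (Algebra.adjoin E0 {s}) (d * D (t j)) :=
    fun j => exists_mul_isIntegral F rfl (D (t j))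
  choose d hdm hd0 hdi using hd
  choose d' hd'm hd'0 hd'i using hd'
  have hA : ∀ {x : E}, x ∈ Algebra.adjoin E0 {s} → IsIntegral (Algebra.adjoin E0 {s}) x :=
    fun {x} hx => isIntegral_algebraMap (R := Algebra.adjoin E0 {s}) (x := ⟨x, hx⟩)
  refine ⟨∏ j, (d j * d' j), prod_mem fun j _ => mul_mem (hdm j) (hd'm j),
    Finset.prod_ne_zero_iff.mpr fun j _ => mul_ne_zero (hd0 j) (hd'0 j), fun y hy => ?_⟩
  have e1 : y = ∑ j, (Algebra.trace F E (c j * (y * B j)) : E) * t j := by
    have h := B.traceDual.sum_repr y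
    simp only [Module.Basis.traceDual_repr_apply, Algebra.traceForm_apply] at h
    refine h.symm.trans (Finset.sum_congr rfl fun j _ => ?_)
    have hz : c j ∈ F := (IntermediateField.algebra_adjoin_le_adjoin E0 {s}) (hcm j)
    have h3 : Algebra.trace F E ((⟨c j, hz⟩ : F) • (y * B j)) =
      (⟨c j, hz⟩ : F) • Algebra.trace F E (y * B j) := map_smul _ _ _
    have h2 : c j * (y * B j) = (⟨c j, hz⟩ : F) • (y * B j) := rfl
    rw [h2, h3]
    change ((Algebra.trace F E (y * B j) : F) : E) * B.traceDual j =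
      (c j * ((Algebra.trace F E (y * B j) : F) : E)) * ((c j)⁻¹ * B.traceDual j)
    have := hc0 j
    field_simp
  have htr : ∀ j, ((Algebra.trace F E (c j * (y * B j)) : F) : E) ∈ Algebra.adjoin E0 {s} := by
    intro j
    refine trace_mem hs F rfl ?_
    have e2 : c j * (y * B j) = y * (c j * B j) := by ring
    rw [e2]
    exact hy.mul (hci j)
  have e3 : (∏ j, (d j * d' j)) * D y = ∑ j, ((∏ i ∈ Finset.univ.erase j, (d i * d' i)) * d' j *
      D ((Algebra.trace F E (c j * (y * B j)) : F) : E) * (d j * t j) +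
      (∏ i ∈ Finset.univ.erase j, (d i * d' i)) * d j *
        ((Algebra.trace F E (c j * (y * B j)) : F) : E) * (d' j * D (t j))) := by
    conv_lhs => rw [e1]
    rw [map_sum, Finset.mul_sum]
    refine Finset.sum_congr rfl fun j _ => ?_
    rw [Derivation.leibniz, smul_eq_mul, smul_eq_mul,
      ← Finset.prod_erase_mul Finset.univ (fun j => d j * d' j) (Finset.mem_univ j)]
    ring
  rw [e3]
  have hprod : ∀ j, ∏ i ∈ Finset.univ.erase j, (d i * d' i) ∈ Algebra.adjoin E0 {s} :=
    fun j => prod_mem fun i _ => mul_mem (hdm i) (hd'm i)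
  refine IsIntegral.sum _ fun j _ => ?_
  refine ((hA (mul_mem (mul_mem (hprod j) (hd'm j)) (hDA _ (htr j)))).mul (hdi j)).add ?_
  exact (hA (mul_mem (mul_mem (hprod j) (hdm j)) (htr j))).mul (hd'i j)

end

end Pool.Agent.Helper70.GG
end

/- Helper12.LVF.H8.LG.Ring -/
section
/-! # LG-RING: the integral closures -/

set_option autoImplicit false

namespace Pool.Agent.Helper8.LG

variable {E : Type*} [Field E] [CharZero E]

theorem ring_closure_eq (E₀ : Subfield E) (t : E) :
    Subring.closure ((E₀ : Set E) ∪ {t}) = (Algebra.adjoin E₀ {t}).toSubring := by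
  rw [Algebra.adjoin_eq_ring_closure]
  congr 2
  ext x
  constructor
  · intro hx
    exact ⟨⟨x, hx⟩, rfl⟩
  · rintro ⟨y, rfl⟩
    exact y.2

theorem ring_fieldClosure_eq (E₀ : Subfield E) (t : E) :
    Subfield.closure ((E₀ : Set E) ∪ {t}) = (IntermediateField.adjoin E₀ {t}).toSubfield := by
  rw [IntermediateField.adjoin_toSubfield]
  congr 2
  ext x
  constructor
  · intro hx
    exact ⟨⟨x, hx⟩, rfl⟩
  · rintro ⟨y, rfl⟩
    exact y.2

theorem ring_finite (E₀ : Subfield E) (t : E)
    (hfin : FiniteDimensional (Subfield.closure ((E₀ : Set E) ∪ {t})) E) :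
    FiniteDimensional (IntermediateField.adjoin E₀ {t}) E := by
  rw [ring_fieldClosure_eq] at hfin
  exact hfin

theorem ring_isIntegral_iff (E₀ : Subfield E) (A : Subring E) (B : Subalgebra E₀ E)
    (h : A = B.toSubring) (f : E) : IsIntegral A f ↔ IsIntegral B f := by
  subst h
  exact Iff.rfl

theorem ring_mem_intCl (E₀ : Subfield E) (t f : E) :
    f ∈ intCl E₀ t ↔ IsIntegral (Algebra.adjoin E₀ {t}) f :=
  ring_isIntegral_iff E₀ _ _ (ring_closure_eq E₀ t) f

theorem ring_intCl_eq (E₀ : Subfield E) (t : E) :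
    intCl E₀ t = (integralClosure (Algebra.adjoin E₀ {t}) E).toSubring := by
  ext f
  exact ring_mem_intCl E₀ t f

theorem ring_adjoin_dedekind (E₀ : Subfield E) (t : E) (ht : Transcendental E₀ t) :
    IsDedekindDomain (Algebra.adjoin E₀ {t}) := by
  have hinj : Function.Injective (Polynomial.aeval t : Polynomial E₀ →ₐ[E₀] E) :=
    transcendental_iff_injective.mp ht
  let e : Polynomial E₀ ≃+* Algebra.adjoin E₀ {t} :=
    ((AlgEquiv.ofInjective _ hinj).trans
      (Subalgebra.equivOfEq _ _
        (Algebra.adjoin_singleton_eq_range_aeval E₀ t).symm)).toRingEquiv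
  have : IsPrincipalIdealRing (Algebra.adjoin E₀ {t}) :=
    IsPrincipalIdealRing.of_surjective (e : Polynomial E₀ →+* Algebra.adjoin E₀ {t}) e.surjective
  infer_instance

open IntermediateField.algebraAdjoinAdjoin in
theorem intCl_dedekind (E₀ : Subfield E) (t : E) (ht : Transcendental E₀ t)
    (hfin : FiniteDimensional (Subfield.closure ((E₀ : Set E) ∪ {t})) E) :
    IsDedekindDomain (intCl E₀ t) ∧ IsFractionRing (intCl E₀ t) E := by
  have hfin' := ring_finite E₀ t hfin
  have hD := ring_adjoin_dedekind E₀ t ht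
  rw [ring_intCl_eq]
  have h1 : IsDedekindDomain (integralClosure (Algebra.adjoin E₀ {t}) E) :=
    integralClosure.isDedekindDomain (Algebra.adjoin E₀ {t}) (IntermediateField.adjoin E₀ {t}) E
  have h2 : IsFractionRing (integralClosure (Algebra.adjoin E₀ {t}) E) E :=
    integralClosure.isFractionRing_of_finite_extension (IntermediateField.adjoin E₀ {t}) E
  exact ⟨h1, h2⟩

/-- one `Δ` for the derivations and for a finite set of elements -/
theorem exists_bound {P : Type*} [Finite P] (E₀ : Subfield E) (t : E)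
    (ht : Transcendental E₀ t)
    (hfin : FiniteDimensional (Subfield.closure ((E₀ : Set E) ∪ {t})) E)
    (D : P → Derivation ℤ E E) (hE₀ : ∀ p, ∀ f ∈ E₀, D p f ∈ E₀)
    (hDt : ∀ p, D p t ∈ Subring.closure ((E₀ : Set E) ∪ {t})) (S : Set E) (hS : S.Finite) :
    ∃ Δ ∈ Subring.closure ((E₀ : Set E) ∪ {t}), Δ ≠ 0 ∧
      (∀ p, ∀ f ∈ intCl E₀ t, Δ * D p f ∈ intCl E₀ t) ∧ ∀ f ∈ S, Δ * f ∈ intCl E₀ t := by
  classical
  have hfin' := ring_finite E₀ t hfin
  have hcl : Subring.closure ((E₀ : Set E) ∪ {t}) ≤ intCl E₀ t := by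
    intro f hf
    exact isIntegral_algebraMap (R := Subring.closure ((E₀ : Set E) ∪ {t})) (x := ⟨f, hf⟩)
  have hmem : ∀ f, f ∈ Subring.closure ((E₀ : Set E) ∪ {t}) ↔ f ∈ Algebra.adjoin E₀ {t} := by
    intro f
    rw [ring_closure_eq]
    exact Iff.rfl
  have h1 : ∀ p, ∃ Δ ∈ Subring.closure ((E₀ : Set E) ∪ {t}), Δ ≠ 0 ∧
      ∀ f ∈ intCl E₀ t, Δ * D p f ∈ intCl E₀ t := by
    intro p
    obtain ⟨Δ, hΔ, hΔ0, h⟩ := Pool.Agent.Helper70.GG.exists_derivation_bound ht hfin' (D p)
      (fun a => ⟨⟨D p a, hE₀ p a a.2⟩, rfl⟩) ((hmem _).1 (hDt p))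
    exact ⟨Δ, (hmem _).2 hΔ, hΔ0, fun f hf =>
      (ring_mem_intCl E₀ t _).2 (h f ((ring_mem_intCl E₀ t f).1 hf))⟩
  have h2 : ∀ f, ∃ c ∈ Subring.closure ((E₀ : Set E) ∪ {t}), c ≠ 0 ∧ c * f ∈ intCl E₀ t := by
    intro f
    obtain ⟨c, hc, hc0, h⟩ := Pool.Agent.Helper70.GG.exists_mul_isIntegral
      (IntermediateField.adjoin E₀ {t}) rfl f
    exact ⟨c, (hmem _).2 hc, hc0, (ring_mem_intCl E₀ t _).2 h⟩
  choose Δ₁ hΔ₁ hΔ₁0 hΔ₁D using h1
  choose c hc hc0 hcf using h2
  have := Fintype.ofFinite P
  refine ⟨(∏ p, Δ₁ p) * ∏ f ∈ hS.toFinset, c f, ?_, ?_, ?_, ?_⟩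
  · exact mul_mem (prod_mem fun p _ => hΔ₁ p) (prod_mem fun f _ => hc f)
  · exact mul_ne_zero (Finset.prod_ne_zero_iff.2 fun p _ => hΔ₁0 p)
      (Finset.prod_ne_zero_iff.2 fun f _ => hc0 f)
  · intro p f hf
    rw [← Finset.mul_prod_erase Finset.univ Δ₁ (Finset.mem_univ p)]
    have h3 : Δ₁ p * (∏ x ∈ Finset.univ.erase p, Δ₁ x) * (∏ f ∈ hS.toFinset, c f) * D p f =
        ((∏ x ∈ Finset.univ.erase p, Δ₁ x) * (∏ f ∈ hS.toFinset, c f)) * (Δ₁ p * D p f) := by
      ring
    rw [h3]
    exact mul_mem (hcl (mul_mem (prod_mem fun p _ => hΔ₁ p) (prod_mem fun f _ => hc f)))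
      (hΔ₁D p f hf)
  · intro f hf
    rw [← Finset.mul_prod_erase hS.toFinset c (hS.mem_toFinset.2 hf)]
    have h3 : (∏ p, Δ₁ p) * (c f * ∏ x ∈ hS.toFinset.erase f, c x) * f =
        ((∏ p, Δ₁ p) * ∏ x ∈ hS.toFinset.erase f, c x) * (c f * f) := by
      ring
    rw [h3]
    exact mul_mem (hcl (mul_mem (prod_mem fun p _ => hΔ₁ p) (prod_mem fun f _ => hc f)))
      (hcf f)

/-- an element integral over `E₀[t]` and over `E₀[1/t]` is algebraic over `E₀` -/
theorem algebraic_of_mem (E₀ : Subfield E) (t : E) (ht : Transcendental E₀ t)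
    (hfin : FiniteDimensional (Subfield.closure ((E₀ : Set E) ∪ {t})) E) (f : E)
    (h1 : f ∈ intCl E₀ t) (h2 : f ∈ intCl E₀ t⁻¹) : IsAlgebraic E₀ f := by
  have hfin' := ring_finite E₀ t hfin
  exact (Pool.Agent.Helper70.GG.isIntegral_of_charts ht hfin' ((ring_mem_intCl E₀ t f).1 h1)
    ((ring_mem_intCl E₀ t⁻¹ f).1 h2)).isAlgebraic

end Pool.Agent.Helper8.LG
end

/- Helper8.LG.Others -/
section
/-! # LG-OTH: the fields generated by all variables but one -/

set_option autoImplicit false

namespace Pool.Agent.Helper8.LG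

/-- `y_i` is transcendental over the field generated by the others and `L` is finite over
the field generated by both. -/
theorem others_transcendental {k L τ : Type*} [Field k] [Field L] [Algebra k L]
    (y : τ → L) (hy : AlgebraicIndependent k y) (i : τ) :
    Transcendental (others (k := k) y i) (y i) ∧
      Transcendental (others (k := k) y i) (y i)⁻¹ := by
  have h1 : Transcendental (IntermediateField.adjoin k (y '' {i}ᶜ)) (y i) :=
    IntermediateField.transcendental_adjoin_iff.mpr
      (hy.transcendental_adjoin (s := {i}ᶜ) (i := i) (by simp))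
  have h2 : Transcendental (others (k := k) y i) (y i) := h1
  refine ⟨h2, fun h => h2 ?_⟩
  have := h.inv
  rwa [inv_inv] at this

private theorem oth_le {k L τ : Type*} [Field k] [Field L] [Algebra k L] (y : τ → L) (i : τ)
    (t : L) (ht : t ∈ IntermediateField.adjoin k (Set.range y)) :
    Subfield.closure ((others (k := k) y i : Set L) ∪ {t}) ≤
      (IntermediateField.adjoin k (Set.range y)).toSubfield := by
  refine Subfield.closure_le.mpr ?_
  rintro z (hz | hz)
  · have hle : IntermediateField.adjoin k (y '' {i}ᶜ) ≤ IntermediateField.adjoin k (Set.range y) :=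
      IntermediateField.adjoin.mono k _ _ (Set.image_subset_range _ _)
    exact hle hz
  · rw [Set.mem_singleton_iff] at hz
    rw [hz]
    exact ht

private theorem oth_ge {k L τ : Type*} [Field k] [Field L] [Algebra k L] (y : τ → L) (i : τ)
    (S : Subfield L) (h1 : (others (k := k) y i : Set L) ⊆ S) (h2 : y i ∈ S) :
    (IntermediateField.adjoin k (Set.range y)).toSubfield ≤ S := by
  have hk : ∀ c : k, algebraMap k L c ∈ S := fun c =>
    h1 ((IntermediateField.adjoin k (y '' {i}ᶜ)).algebraMap_mem c)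
  let T : IntermediateField k L := { S with algebraMap_mem' := hk }
  have hT : IntermediateField.adjoin k (Set.range y) ≤ T := by
    refine IntermediateField.adjoin_le_iff.mpr ?_
    rintro _ ⟨j, rfl⟩
    by_cases hj : j = i
    · rw [hj]; exact h2
    · exact h1 (IntermediateField.subset_adjoin k _ (Set.mem_image_of_mem _ hj))
  exact fun z hz => hT hz

theorem others_finite {k L τ : Type*} [Field k] [Field L] [Algebra k L]
    (y : τ → L) (hfin : FiniteDimensional (IntermediateField.adjoin k (Set.range y)) L)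
    (i : τ) :
    FiniteDimensional (Subfield.closure ((others (k := k) y i : Set L) ∪ {y i})) L ∧
      FiniteDimensional (Subfield.closure ((others (k := k) y i : Set L) ∪ {(y i)⁻¹})) L := by
  have hy : y i ∈ IntermediateField.adjoin k (Set.range y) :=
    IntermediateField.subset_adjoin k _ (Set.mem_range_self i)
  have hfin' : FiniteDimensional (IntermediateField.adjoin k (Set.range y)).toSubfield L := hfin
  have e1 : Subfield.closure ((others (k := k) y i : Set L) ∪ {y i}) =
      (IntermediateField.adjoin k (Set.range y)).toSubfield := by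
    refine le_antisymm (oth_le y i _ hy) (oth_ge y i _ ?_ ?_)
    · exact fun z hz => Subfield.subset_closure (Or.inl hz)
    · exact Subfield.subset_closure (Or.inr rfl)
  have e2 : Subfield.closure ((others (k := k) y i : Set L) ∪ {(y i)⁻¹}) =
      (IntermediateField.adjoin k (Set.range y)).toSubfield := by
    refine le_antisymm (oth_le y i _ (inv_mem hy)) (oth_ge y i _ ?_ ?_)
    · exact fun z hz => Subfield.subset_closure (Or.inl hz)
    · have := inv_mem (Subfield.subset_closure
        (s := (others (k := k) y i : Set L) ∪ {(y i)⁻¹}) (Or.inr rfl))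
      rwa [inv_inv] at this
  constructor
  · rw [e1]; exact hfin'
  · rw [e2]; exact hfin'

end Pool.Agent.Helper8.LG
end

/- Helper12.LVF.H70.GG.FinDim -/
section
/-!
# Finite-dimensionality from one-variable bounds

Let `L` be finite over a rational function field `k(a_i : i ∈ σ)`. A subset of `L` which for every
`i` is contained in a finite-dimensional vector space over `k(a_j : j ≠ i)` is contained in a
finite-dimensional vector space over `k`.
-/

namespace Pool.Agent.Helper70.GG

open MvPolynomial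

private theorem exists_degreeOf_ne {σ k : Type*} [Field k] {p : MvPolynomial σ k} (hp : Prime p) :
    ∃ i, degreeOf i p ≠ 0 := by
  by_contra hcon
  push Not at hcon
  have hv : p.vars = ∅ := by
    rw [Finset.eq_empty_iff_forall_notMem]
    intro i hi
    exact (mem_vars_iff_degreeOf_ne_zero.mp hi) (hcon i)
  have hs : p ∈ supported k (∅ : Set σ) := by
    rw [mem_supported, hv]
    simp
  rw [supported_empty, Algebra.mem_bot] at hs
  obtain ⟨c, rfl⟩ := hs
  refine hp.not_isUnit ?_
  have hc : c ≠ 0 := by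
    rintro rfl
    exact hp.ne_zero (map_zero _)
  exact (IsUnit.mk0 c hc).map (algebraMap k (MvPolynomial σ k))

private theorem dvd_prod {σ k : Type*} [Fintype σ] [Field k] (h : σ → MvPolynomial σ k)
    (q : MvPolynomial σ k) (hq : q ≠ 0)
    (hyp : ∀ i, ∃ b : MvPolynomial σ k, b ≠ 0 ∧ degreeOf i b = 0 ∧ q ∣ b * h i) :
    q ∣ ∏ i, h i := by
  induction q using UniqueFactorizationMonoid.induction_on_coprime with
  | h0 => exact absurd rfl hq
  | h1 hx => exact hx.dvd
  | @hpr p n hp =>
    obtain ⟨i, hi⟩ := exists_degreeOf_ne hp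
    obtain ⟨b, hb, hb0, hd⟩ := hyp i
    have hpb : ¬ p ∣ b := by
      rintro ⟨c, rfl⟩
      have hc : c ≠ 0 := by
        rintro rfl
        simp at hb
      rw [degreeOf_mul_eq hp.ne_zero hc] at hb0
      omega
    exact (hp.pow_dvd_of_dvd_mul_left n hpb hd).trans (Finset.dvd_prod_of_mem h (Finset.mem_univ i))
  | @hcp x y hxy hx hy =>
    have hx0 : x ≠ 0 := left_ne_zero_of_mul hq
    have hy0 : y ≠ 0 := right_ne_zero_of_mul hq
    refine hxy.mul_dvd (hx hx0 fun i => ?_) (hy hy0 fun i => ?_)
    · obtain ⟨b, hb, hb0, hd⟩ := hyp i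
      exact ⟨b, hb, hb0, (dvd_mul_right x y).trans hd⟩
    · obtain ⟨b, hb, hb0, hd⟩ := hyp i
      exact ⟨b, hb, hb0, (dvd_mul_left y x).trans hd⟩

/-- `Bd a i h m f`: over the polynomials free of the variable `i`, the element `f` is a fraction with
denominator `h` and numerator of degree at most `m` in the variable `i`. -/
private def Bd {σ k L : Type*} [Field k] [Field L] [Algebra k L] (a : σ → L) (i : σ)
    (h : MvPolynomial σ k) (m : ℕ) (f : L) : Prop :=
  ∃ b n : MvPolynomial σ k, b ≠ 0 ∧ degreeOf i b = 0 ∧ degreeOf i n ≤ m ∧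
    f * aeval a b * aeval a h = aeval a n

private theorem Bd.mono {σ k L : Type*} [Field k] [Field L] [Algebra k L] {a : σ → L} {i : σ}
    {h : MvPolynomial σ k} {m : ℕ} {f : L} (H : Bd a i h m f) {h' : MvPolynomial σ k} {m' : ℕ}
    (hm : m + degreeOf i h' ≤ m') : Bd a i (h * h') m' f := by
  obtain ⟨b, n, hb, hb0, hn, e⟩ := H
  refine ⟨b, n * h', hb, hb0, ?_, ?_⟩
  · exact (degreeOf_mul_le i n h').trans (by omega)
  · rw [map_mul, map_mul, ← e]
    ring

private theorem Bd.add {σ k L : Type*} [Field k] [Field L] [Algebra k L] {a : σ → L} {i : σ}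
    {h : MvPolynomial σ k} {m : ℕ} {f g : L} (H : Bd a i h m f) (H' : Bd a i h m g) :
    Bd a i h m (f + g) := by
  obtain ⟨b, n, hb, hb0, hn, e⟩ := H
  obtain ⟨b', n', hb', hb0', hn', e'⟩ := H'
  refine ⟨b * b', b' * n + b * n', mul_ne_zero hb hb', ?_, ?_, ?_⟩
  · rw [degreeOf_mul_eq hb hb', hb0, hb0']
  · refine (degreeOf_add_le _ _ _).trans (max_le ?_ ?_)
    · exact (degreeOf_mul_le _ _ _).trans (by omega)
    · exact (degreeOf_mul_le _ _ _).trans (by omega)
  · rw [map_add, map_mul, map_mul, map_mul, ← e, ← e']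
    ring

private theorem Bd.zero {σ k L : Type*} [Field k] [Field L] [Algebra k L] {a : σ → L} {i : σ}
    {h : MvPolynomial σ k} {m : ℕ} : Bd a i h m 0 :=
  ⟨1, 0, one_ne_zero, degreeOf_one i, by simp, by simp⟩

private theorem mem_adjoin_ne {σ k L : Type*} [Field k] [Field L] [Algebra k L] {a : σ → L} {i : σ}
    {e : L} (he : e ∈ IntermediateField.adjoin k (a '' {j | j ≠ i})) :
    ∃ c b : MvPolynomial σ k, degreeOf i c = 0 ∧ degreeOf i b = 0 ∧
      e = aeval a c / aeval a b := by
  rw [IntermediateField.mem_adjoin_iff_div] at he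
  obtain ⟨r, hr, s, hs, rfl⟩ := he
  have key : ∀ r ∈ Algebra.adjoin k (a '' {j | j ≠ i}), ∃ c : MvPolynomial σ k,
      degreeOf i c = 0 ∧ r = aeval a c := by
    intro r hr
    have h1 : Algebra.adjoin k (a '' {j | j ≠ i}) =
        (supported k {j | j ≠ i}).map (aeval a) := by
      rw [supported, AlgHom.map_adjoin, Set.image_image]
      simp
    rw [h1] at hr
    obtain ⟨c, hc, rfl⟩ := hr
    refine ⟨c, ?_, rfl⟩
    have hc' : c ∈ supported k {j | j ≠ i} := hc
    rw [mem_supported] at hc'
    by_contra h0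
    exact hc' (Finset.mem_coe.mpr (mem_vars_iff_degreeOf_ne_zero.mpr h0)) rfl
  obtain ⟨c, hc, rfl⟩ := key r hr
  obtain ⟨b, hb, rfl⟩ := key s hs
  exact ⟨c, b, hc, hb, rfl⟩

private theorem Bd.smul {σ k L : Type*} [Field k] [Field L] [Algebra k L] {a : σ → L} {i : σ}
    {h : MvPolynomial σ k} {m : ℕ} {f : L} (H : Bd a i h m f) {e : L}
    (he : e ∈ IntermediateField.adjoin k (a '' {j | j ≠ i})) : Bd a i h m (e * f) := by
  obtain ⟨b, n, hb, hb0, hn, e1⟩ := H
  obtain ⟨c, b', hc0, hb0', rfl⟩ := mem_adjoin_ne he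
  by_cases hb' : aeval a b' = 0
  · rw [hb', div_zero, zero_mul]
    exact Bd.zero
  have hb1 : b' ≠ 0 := by
    rintro rfl
    simp at hb'
  refine ⟨b' * b, c * n, mul_ne_zero hb1 hb, ?_, ?_, ?_⟩
  · rw [degreeOf_mul_eq hb1 hb, hb0, hb0']
  · exact (degreeOf_mul_le _ _ _).trans (by omega)
  · rw [map_mul, map_mul, ← e1]
    field_simp

private theorem Bd.bound {σ k L : Type*} [Fintype σ] [Field k] [Field L] [Algebra k L] {a : σ → L}
    (ha : AlgebraicIndependent k a) {h : σ → MvPolynomial σ k} (hh : ∀ i, h i ≠ 0) {m : σ → ℕ}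
    {f : L} (hf : f ∈ IntermediateField.adjoin k (Set.range a)) (H : ∀ i, Bd a i (h i) (m i) f) :
    ∃ g : MvPolynomial σ k, (∀ i, degreeOf i g ≤ m i + degreeOf i (∏ j, h j)) ∧
      f * aeval a (∏ j, h j) = aeval a g := by
  have hinj : Function.Injective (aeval a : MvPolynomial σ k →ₐ[k] L) := ha
  rw [IntermediateField.mem_adjoin_range_iff] at hf
  obtain ⟨r, s, rfl⟩ := hf
  by_cases hs : aeval a s = 0
  · exact ⟨0, by simp, by simp [hs]⟩
  have hs0 : s ≠ 0 := by
    rintro rfl
    simp at hs
  obtain ⟨p, q, c, hpq, rfl, rfl⟩ := UniqueFactorizationMonoid.exists_reduced_factors' r s hs0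
  have hc0 : c ≠ 0 := left_ne_zero_of_mul hs0
  have hq0 : q ≠ 0 := right_ne_zero_of_mul hs0
  have hne : ∀ {x : MvPolynomial σ k}, x ≠ 0 → aeval a x ≠ 0 := by
    intro x hx h0
    exact hx (hinj (by rw [h0, map_zero]))
  have hf : aeval a (c * p) / aeval a (c * q) = aeval a p / aeval a q := by
    rw [map_mul, map_mul, mul_div_mul_left _ _ (hne hc0)]
  rw [hf] at H ⊢
  have H' : ∀ i, ∃ b n : MvPolynomial σ k, b ≠ 0 ∧ degreeOf i b = 0 ∧ degreeOf i n ≤ m i ∧
      p * b * h i = n * q := by
    intro i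
    obtain ⟨b, n, hb, hb0, hn, e⟩ := H i
    refine ⟨b, n, hb, hb0, hn, hinj ?_⟩
    rw [map_mul, map_mul, map_mul, ← e]
    have := hne hq0
    (clear * - this; field_simp)
  have hdvd : q ∣ ∏ i, h i := by
    apply dvd_prod h q hq0
    intro i
    obtain ⟨b, n, hb, hb0, hn, e⟩ := H' i
    refine ⟨b, hb, hb0, ?_⟩
    have h1 : q ∣ p * (b * h i) := ⟨n, by rw [← mul_assoc, e, mul_comm]⟩
    exact hpq.symm.dvd_of_dvd_mul_left h1
  have hH0 : ∏ i, h i ≠ 0 := Finset.prod_ne_zero_iff.mpr fun i _ => hh i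
  obtain ⟨q', hq'⟩ := hdvd
  refine ⟨p * q', fun i => ?_, ?_⟩
  · by_cases hp0 : p = 0
    · simp [hp0]
    obtain ⟨b, n, hb, hb0, hn, e⟩ := H' i
    have hq'0 : q' ≠ 0 := by
      rintro rfl
      exact hH0 (by rw [hq', mul_zero])
    have e2 : p * q' * b * h i = n * ∏ j, h j := by
      rw [hq']
      linear_combination q' * e
    have hn0 : n ≠ 0 := by
      rintro rfl
      rw [zero_mul] at e2
      exact (mul_ne_zero (mul_ne_zero (mul_ne_zero hp0 hq'0) hb) (hh i)) e2
    have e3 := congrArg (degreeOf i) e2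
    rw [degreeOf_mul_eq (mul_ne_zero (mul_ne_zero hp0 hq'0) hb) (hh i),
      degreeOf_mul_eq (mul_ne_zero hp0 hq'0) hb, degreeOf_mul_eq hn0 hH0, hb0] at e3
    omega
  · rw [hq', map_mul, map_mul]
    have := hne hq0
    field_simp

/-- The polynomials with bounded degree in every variable are spanned by finitely many
monomials. -/
private theorem mem_span_monomials {σ k : Type*} [Fintype σ] [Field k] (m : ℕ)
    (g : MvPolynomial σ k) (hg : ∀ i, degreeOf i g ≤ m) :
    g ∈ Submodule.span k ((fun s : σ →₀ ℕ => (monomial s (1 : k))) ''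
      {s | s ≤ Finsupp.equivFunOnFinite.symm fun _ => m}) := by
  classical
  rw [g.as_sum]
  refine Submodule.sum_mem _ fun s hs => ?_
  have e : (monomial s (coeff s g) : MvPolynomial σ k) = coeff s g • monomial s (1 : k) := by
    rw [smul_monomial, smul_eq_mul, mul_one]
  rw [e]
  refine Submodule.smul_mem _ _ (Submodule.subset_span ⟨s, ?_, rfl⟩)
  intro i
  exact (monomial_le_degreeOf i hs).trans (hg i)

/-- Let `L` be finite over the rational function field `k(a_i : i ∈ σ)`. A subset of `L` which for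
every `i` is contained in a finite-dimensional vector space over `k(a_j : j ≠ i)` is contained in a
finite-dimensional vector space over `k`. -/
theorem finite_dim_of_directions {σ k L : Type*} [Finite σ] [Field k] [Field L] [Algebra k L]
    (a : σ → L) (ha : AlgebraicIndependent k a)
    (hfin : FiniteDimensional (IntermediateField.adjoin k (Set.range a)) L) (S : Set L)
    (hS : ∀ i, ∃ V : Submodule (IntermediateField.adjoin k (a '' {j | j ≠ i})) L,
      V.FG ∧ S ⊆ V) :
    ∃ W : Submodule k L, W.FG ∧ S ⊆ W := by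
  classical
  have : Fintype σ := Fintype.ofFinite σ
  let K0 := IntermediateField.adjoin k (Set.range a)
  let B := Module.finBasis K0 L
  have hinj : Function.Injective (aeval a : MvPolynomial σ k →ₐ[k] L) := ha
  -- coordinates satisfy uniform bounds
  have key : ∀ i, ∀ s, ∃ h : MvPolynomial σ k, h ≠ 0 ∧ ∃ m : ℕ, ∀ y ∈ S,
      Bd a i h m ((B.repr y s : K0) : L) := by
    intro i s
    obtain ⟨V, ⟨T, hT⟩, hSV⟩ := hS i
    have hle : IntermediateField.adjoin k (a '' {j | j ≠ i}) ≤ K0 :=
      IntermediateField.adjoin.mono k _ _ (Set.image_subset_range a _)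
    have h1 : ∃ h : MvPolynomial σ k, h ≠ 0 ∧ ∃ m : ℕ, ∀ y ∈ T,
        Bd a i h m ((B.repr y s : K0) : L) := by
      clear hT
      induction T using Finset.induction_on with
      | empty => exact ⟨1, one_ne_zero, 0, by simp⟩
      | insert y T _ ih =>
        obtain ⟨h, hh, m, H⟩ := ih
        have h2 : ((B.repr y s : K0) : L) ∈ K0 := (B.repr y s).2
        rw [IntermediateField.mem_adjoin_range_iff] at h2
        obtain ⟨r, q, e⟩ := h2
        by_cases hq : aeval a q = 0
        · refine ⟨h, hh, m, fun z hz => ?_⟩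
          rcases Finset.mem_insert.mp hz with rfl | hz
          · rw [e, hq, div_zero]
            exact Bd.zero
          · exact H z hz
        have hq0 : q ≠ 0 := by
          rintro rfl
          simp at hq
        refine ⟨h * q, mul_ne_zero hh hq0,
          (m + degreeOf i q) + (degreeOf i r + degreeOf i h), fun z hz => ?_⟩
        rcases Finset.mem_insert.mp hz with rfl | hz
        · rw [e, mul_comm h q]
          refine Bd.mono (m := degreeOf i r) ⟨1, r, one_ne_zero, degreeOf_one i, le_rfl, ?_⟩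
            (by omega)
          rw [map_one, mul_one, div_mul_cancel₀ _ hq]
        · exact (H z hz).mono (by omega)
    obtain ⟨h, hh, m, H⟩ := h1
    refine ⟨h, hh, m, fun y hy => ?_⟩
    have hyV : y ∈ Submodule.span (IntermediateField.adjoin k (a '' {j | j ≠ i}))
        (T : Set L) := by
      rw [hT]
      exact hSV hy
    clear hy
    induction hyV using Submodule.span_induction with
    | mem y hy => exact H y hy
    | zero =>
      rw [map_zero]
      exact Bd.zero
    | add x y _ _ hx hy =>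
      rw [map_add]
      exact hx.add hy
    | smul e y _ hy =>
      have e1 : e • y = (⟨e, hle e.2⟩ : K0) • y := rfl
      rw [e1, map_smul]
      exact hy.smul e.2
  choose h hh m H using key
  let M : ℕ := ∑ s, ∑ i, (m i s + degreeOf i (∏ j, h j s))
  let W : Submodule k L := Submodule.span k (Set.range fun t : Fin (Module.finrank K0 L) ×
    {e : σ →₀ ℕ // e ≤ Finsupp.equivFunOnFinite.symm fun _ => M} =>
      (aeval a (∏ j, h j t.1))⁻¹ * aeval a (monomial (t.2 : σ →₀ ℕ) (1 : k)) * B t.1)
  have hfinite : Finite {e : σ →₀ ℕ // e ≤ Finsupp.equivFunOnFinite.symm fun _ => M} :=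
    (Set.finite_Iic _).to_subtype
  refine ⟨W, Submodule.fg_span (Set.finite_range _), fun y hy => ?_⟩
  have e1 : y = ∑ s, ((B.repr y s : K0) : L) * B s := (B.sum_repr y).symm
  rw [e1]
  refine Submodule.sum_mem _ fun s _ => ?_
  obtain ⟨g, hg, e⟩ := Bd.bound ha (fun i => hh i s) (B.repr y s).2 (fun i => H i s y hy)
  have hH : aeval a (∏ j, h j s) ≠ 0 := by
    intro h0
    exact (Finset.prod_ne_zero_iff.mpr fun i _ => hh i s) (hinj (by rw [h0, map_zero]))
  have e2 : ((B.repr y s : K0) : L) = (aeval a (∏ j, h j s))⁻¹ * aeval a g := by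
    rw [← e]
    field_simp
  rw [e2]
  have hg' : g ∈ Submodule.span k ((fun s : σ →₀ ℕ => (monomial s (1 : k))) ''
      {s | s ≤ Finsupp.equivFunOnFinite.symm fun _ => M}) := by
    apply mem_span_monomials
    intro i
    refine (hg i).trans ?_
    refine le_trans ?_ (Finset.single_le_sum (f := fun s => ∑ i, (m i s +
      degreeOf i (∏ j, h j s))) (fun _ _ => Nat.zero_le _) (Finset.mem_univ s))
    exact Finset.single_le_sum (f := fun i => m i s + degreeOf i (∏ j, h j s))
      (fun _ _ => Nat.zero_le _) (Finset.mem_univ i)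
  clear hg e e2
  induction hg' using Submodule.span_induction with
  | mem x hx =>
    obtain ⟨t, ht, rfl⟩ := hx
    exact Submodule.subset_span ⟨(s, ⟨t, ht⟩), rfl⟩
  | zero => simp
  | add x y _ _ hx hy =>
    rw [map_add, mul_add, add_mul]
    exact W.add_mem hx hy
  | smul c x _ hx =>
    rw [map_smul, mul_smul_comm, smul_mul_assoc]
    exact W.smul_mem c hx

end Pool.Agent.Helper70.GG
end

/- Helper12.LVF.H8.LG.FinDim -/
section
/-! # LG-FD: finite dimensionality -/

set_option autoImplicit false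

namespace Pool.Agent.Helper8.LG

theorem fd_isIntegral_mono {E : Type*} [CommRing E] {A B : Subring E} (h : A ≤ B) {x : E}
    (hx : IsIntegral A x) : IsIntegral B x := by
  obtain ⟨p, hp, he⟩ := hx
  refine ⟨p.map (Subring.inclusion h), hp.map _, ?_⟩
  rw [Polynomial.eval₂_map]
  exact he

theorem fd_isIntegral_adjoin {k L : Type*} [Field k] [Field L] [Algebra k L]
    (F : IntermediateField k L) (t : L) {x : L} (hx : x ∈ intCl F.toSubfield t) :
    IsIntegral (Algebra.adjoin F {t}) x := by
  have h1 : IsIntegral (Subring.closure ((F.toSubfield : Set L) ∪ {t})) x := hx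
  have hle : Subring.closure ((F.toSubfield : Set L) ∪ {t}) ≤ (Algebra.adjoin F {t}).toSubring := by
    rw [Subring.closure_le]
    rintro z (hz | hz)
    · exact (Algebra.adjoin F {t}).algebraMap_mem ⟨z, hz⟩
    · exact Algebra.subset_adjoin hz
  exact fd_isIntegral_mono hle h1

theorem fd {k L τ : Type*} [Field k] [Field L] [CharZero L] [Algebra k L] [Finite τ]
    (y : τ → L) (hy : AlgebraicIndependent k y)
    (hfin : FiniteDimensional (IntermediateField.adjoin k (Set.range y)) L)
    (Δ Δ' : τ → L) (h0 : ∀ i, Δ i ≠ 0) (h0' : ∀ i, Δ' i ≠ 0) :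
    ∃ V : Submodule k L, FiniteDimensional k V ∧ ∀ g : L,
      (∀ i, Δ i * g ∈ intCl (others (k := k) y i) (y i) ∧
        Δ' i * g ∈ intCl (others (k := k) y i) (y i)⁻¹) → g ∈ V := by
  have key := Pool.Agent.Helper70.GG.finite_dim_of_directions y hy hfin
    {g : L | ∀ i, Δ i * g ∈ intCl (others (k := k) y i) (y i) ∧
        Δ' i * g ∈ intCl (others (k := k) y i) (y i)⁻¹} ?_
  · obtain ⟨W, hW, hS⟩ := key
    exact ⟨W, Module.Finite.iff_fg.mpr hW, fun g hg => hS hg⟩
  · intro i
    rw [← Set.compl_singleton_eq]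
    set F := IntermediateField.adjoin k (y '' {i}ᶜ) with hF
    have hC : CharZero F := by
      have : CharZero k := (algebraMap k L).charZero_iff (algebraMap k L).injective |>.2 inferInstance
      infer_instance
    have htr : Transcendental F (y i) := (others_transcendental y hy i).1
    have hfd : FiniteDimensional (IntermediateField.adjoin F {y i}) L := by
      have h1 : (IntermediateField.adjoin F {y i}).restrictScalars k
          = IntermediateField.adjoin k (Set.range y) := by
        rw [hF, IntermediateField.adjoin_adjoin_left]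
        congr 1
        rw [← Set.image_singleton, ← Set.image_union]
        rw [Set.compl_union_self, Set.image_univ]
      have h2 : FiniteDimensional ((IntermediateField.adjoin F {y i}).restrictScalars k) L := by
        rw [h1]
        exact hfin
      exact h2
    obtain ⟨V, hV, h⟩ := Pool.Agent.Helper70.GG.exists_fg_of_isIntegral htr hfd (h0 i) (h0' i)
    exact ⟨V, hV, fun g hg => h g (fd_isIntegral_adjoin F (y i) (hg i).1)
      (fd_isIntegral_adjoin F (y i)⁻¹ (hg i).2)⟩

end Pool.Agent.Helper8.LG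
end
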