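import Pool.Agent.Helper12.LVM.C08
import Pool.Agent.Helper12.LVM.C05
import Pool.Agent.Helper12.LVM.B03
import Pool.Agent.Helper12.LVM.B04

/- Helper12.LVF.H8.CO.DirOne -/
section
/-! # CO-DIR1: one direction of the base, first round -/

set_option autoImplicit false

namespace Pool.Agent.Helper8.CO

open Pool.Agent.Helper8.LG Pool.Agent.Helper8.LV Pool.Agent.Helper6.CO

open scoped BigOperators

/-- first round: the poles of `G x_l` are bounded -/
theorem dir_one {L : Type*} [Field L] [CharZero L] {σ ι κ τ P : Type*} [Fintype σ]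
    [DecidableEq σ] [Fintype ι] [DecidableEq ι] [Fintype τ] [Finite P] (bl : κ → ι)
    (b q : κ → ℕ) (d q₀ e m : ι → ℕ) (a : (i : ι) → Sym σ (d i) → L)
    (p : (t : κ) → Sym σ (b t) → L) (D : P → Derivation ℤ L L)
    (θ : τ → P → L)
    (Z C Y : Finset ι) (i₀ : σ) (w c : ℕ) (hnum : NumC bl q d q₀ e m Z C Y w c)
    (E₀ : Subfield L) (t : L) (ht : Transcendental E₀ t)
    (hfin : FiniteDimensional (Subfield.closure ((E₀ : Set L) ∪ {t})) L)
    (hE₀ : ∀ p, ∀ f ∈ E₀, D p f ∈ E₀)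
    (hDt : ∀ p, D p t ∈ Subring.closure ((E₀ : Set L) ∪ {t}))
    (S : Set L) (hS : S.Finite) (hSa : ∀ p : Ix σ d, a p.1 p.2 ∈ S)
    (hSθ : ∀ j s, θ j s ∈ S)
    (hN : ∀ (O : ValuationSubring L) (Δ : L), (∀ f ∈ S, Δ * f ∈ O) → ∀ x : σ → L,
      Nul bl p Y O Δ x) :
    ∃ Δ : L, Δ ≠ 0 ∧ ∀ (x : σ → L) (y : ι → L) (G : L),
      GoodV d m a D Z C i₀ w (Subring.closure ((E₀ : Set L) ∪ S)) x y →
      KeyC bl d e a p D θ Z Y (uu C y) x G →
      ∀ l, Δ * (G * x l) ∈ intCl E₀ t := by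
  obtain ⟨Δ₀, hΔc, hΔ0, hΔD, hΔS⟩ := exists_bound E₀ t ht hfin D hE₀ hDt S hS
  obtain ⟨hDed, hFrac⟩ := intCl_dedekind E₀ t ht hfin
  have hcl : Subring.closure ((E₀ : Set L) ∪ {t}) ≤ intCl E₀ t := by
    intro f hf
    exact isIntegral_algebraMap (R := Subring.closure ((E₀ : Set L) ∪ {t})) (x := ⟨f, hf⟩)
  have hE₀R : ∀ f ∈ E₀, f ∈ intCl E₀ t := fun f hf =>
    hcl (Subring.subset_closure (Or.inl hf))
  have hQ : ∀ n : ℕ, n ≠ 0 → ((n : L))⁻¹ ∈ intCl E₀ t := fun n _ =>
    hE₀R _ (E₀.inv_mem (natCast_mem E₀ n))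
  have hΔR : Δ₀ ∈ intCl E₀ t := hcl hΔc
  refine ⟨(Δ₀ ^ 3) ^ (2 * (Fintype.card σ + Fintype.card ι + Fintype.card τ)), pow_ne_zero _ (pow_ne_zero _ hΔ0), ?_⟩
  intro x y G hgood hkey l
  refine mem_of (intCl E₀ t) _ fun O hO => ?_
  have hb : Bdd D Δ₀ O := bdd_of (intCl E₀ t) D Δ₀ hΔR hΔD O hO
  have hΔO : Δ₀ ∈ O := hb.1
  refine hkey O (Δ₀ ^ 3) ⟨pow_mem hΔO 3, fun p f hf => ?_⟩ (fun j s => ?_) ?_ ?_ l
  · have h1 : Δ₀ ^ 3 * D p f = Δ₀ ^ 2 * (Δ₀ * D p f) := by ring
    rw [h1]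
    exact mul_mem (pow_mem hΔO 2) (hb.2 p f hf)
  · have h1 : Δ₀ ^ 3 * θ j s = Δ₀ ^ 2 * (Δ₀ * θ j s) := by ring
    rw [h1]
    exact mul_mem (pow_mem hΔO 2) (hO (hΔS _ (hSθ j s)))
  swap
  · have h1 : Δ₀ ^ 3 = Δ₀ ^ 2 * Δ₀ := by ring
    rw [h1]
    exact nul_mul bl p Y O Δ₀ _ (pow_mem hΔO 2) x
      (hN O Δ₀ (fun f hf => hO (hΔS f hf)) x)
  intro i hi j hj hxO
  have hane : form (a i) x ≠ 0 := hgood.ne i hi
  have hgeq : form (a i) (fun l => x l / x j) = form (a i) x / x j ^ d i :=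
    dirOne_form_div (a i) x (x j)
  have hg0 : form (a i) (fun l => x l / x j) ≠ 0 := by
    rw [hgeq]
    exact div_ne_zero hane (pow_ne_zero _ hj)
  have haS : ∀ J, Δ₀ * a i J ∈ O := fun J => hO (hΔS _ (hSa ⟨i, J⟩))
  have hΔg : Δ₀ * form (a i) (fun l => x l / x j) ∈ O :=
    dirOne_form_mem O Δ₀ (a i) haS _ hxO
  by_cases hiC : i ∈ C
  · -- ramified case
    have hu : uu C y i = y i := if_pos hiC
    have hdm : d i = m i * e i := hnum.deg i hiC
    have hm : 0 < m i := by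
      rcases Nat.eq_zero_or_pos (m i) with h0 | h0
      · have := hnum.pos i
        rw [hdm, h0, zero_mul] at this
        exact absurd this (lt_irrefl 0)
      · exact h0
    rw [hu]
    generalize hgg : form (a i) (fun l => x l / x j) = g at hg0 hΔg hgeq ⊢
    generalize hyy : y i / x j ^ e i = yt
    have hyg : yt ^ m i = g := by
      have hpw : x j ^ d i = x j ^ (e i * m i) :=
        congrArg (fun r => x j ^ r) (hdm.trans (mul_comm _ _))
      rw [← hyy, div_pow, hgood.root i hiC, hgeq, ← pow_mul, hpw]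
    have hy0 : yt ≠ 0 := by
      intro h0
      rw [h0, zero_pow hm.ne'] at hyg
      exact hg0 hyg.symm
    have hΔy : Δ₀ * yt ∈ O := by
      refine dirOne_pow_mem O hm ?_
      obtain ⟨r, hr⟩ := Nat.exists_eq_succ_of_ne_zero hm.ne'
      have h1 : (Δ₀ * yt) ^ m i = Δ₀ ^ r * (Δ₀ * g) := by
        rw [mul_pow, hyg, hr, pow_succ]
        ring
      rw [h1]
      exact mul_mem (pow_mem hΔO r) hΔg
    refine ⟨?_, fun p => ?_⟩
    · have h1 : Δ₀ ^ 3 * yt = Δ₀ ^ 2 * (Δ₀ * yt) := by ring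
      rw [h1]
      exact mul_mem (pow_mem hΔO 2) hΔy
    · have h2 : D p g = (m i : L) * yt ^ (m i - 1) * D p yt := by
        rw [← hyg, Derivation.leibniz_pow, smul_eq_mul, nsmul_eq_mul]
        ring
      have h3 : yt * (D p g / g) = (m i : L) * D p yt := by
        rw [h2, ← hyg]
        obtain ⟨r, hr⟩ := Nat.exists_eq_succ_of_ne_zero hm.ne'
        rw [hr, Nat.succ_sub_one, pow_succ]
        (clear * - hy0; field_simp)
      have h4 : Δ₀ ^ 3 * D p yt =
          Δ₀ * (Δ₀ * D p (Δ₀ * yt)) - (Δ₀ * yt) * (Δ₀ * D p Δ₀) := by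
        rw [Derivation.leibniz, smul_eq_mul, smul_eq_mul]
        ring
      have h5 : Δ₀ ^ 3 * D p yt ∈ O := by
        rw [h4]
        exact sub_mem (mul_mem hΔO (hb.2 p _ hΔy)) (mul_mem hΔy (hb.2 p _ hΔO))
      have h6 : Δ₀ ^ 3 * (yt * (D p g / g)) = (m i : L) * (Δ₀ ^ 3 * D p yt) := by
        rw [h3]
        ring
      rw [h6]
      exact mul_mem (natCast_mem O (m i)) h5
  · -- unramified case
    have hu : uu C y i = 1 := if_neg hiC
    have he : e i = 0 := hnum.e0 i hiC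
    rw [hu, he, pow_zero, div_one]
    refine ⟨by rw [mul_one]; exact pow_mem hΔO 3, fun p => ?_⟩
    rw [one_mul]
    have key : Δ₀ ^ 2 * (D p (form (a i) fun l => x l / x j) /
        form (a i) fun l => x l / x j) ∈ O := by
      by_cases hinv : Δ₀⁻¹ ∈ O
      · have hSO : ∀ f ∈ S, f ∈ O := fun f hf => by
          have h1 : f = Δ₀⁻¹ * (Δ₀ * f) := by
            rw [← mul_assoc, inv_mul_cancel₀ hΔ0, one_mul]
          rw [h1]
          exact mul_mem hinv (hO (hΔS f hf))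
        have hA : Subring.closure ((E₀ : Set L) ∪ S) ≤ O.toSubring := by
          rw [Subring.closure_le]
          rintro f (hf | hf)
          · exact hO (hE₀R f hf)
          · exact hSO f hf
        have hint := dirOne_int_mem O _ hA (hgood.int i hi hiC (Sym.replicate (d i) j))
        rw [dirOne_mon_replicate] at hint
        have hgi : (form (a i) (fun l => x l / x j))⁻¹ ∈ O := by
          rw [hgeq, inv_div]
          exact hint
        have hgO : form (a i) (fun l => x l / x j) ∈ O := by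
          have h1 := dirOne_form_mem O 1 (a i)
            (fun J => by rw [one_mul]; exact hSO _ (hSa ⟨i, J⟩)) _ hxO
          rwa [one_mul] at h1
        have h2 : Δ₀ ^ 2 * (D p (form (a i) fun l => x l / x j) /
            form (a i) fun l => x l / x j) =
            Δ₀ * ((Δ₀ * D p (form (a i) fun l => x l / x j)) *
              (form (a i) (fun l => x l / x j))⁻¹) := by
          rw [div_eq_mul_inv]
          ring
        rw [h2]
        exact mul_mem hΔO (mul_mem (hb.2 p _ hgO) hgi)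
      · have hb2 : Bdd D (Δ₀ ^ 2) O := by
          refine ⟨pow_mem hΔO 2, fun p f hf => ?_⟩
          have h1 : Δ₀ ^ 2 * D p f = Δ₀ * (Δ₀ * D p f) := by ring
          rw [h1]
          exact mul_mem hΔO (hb.2 p f hf)
        refine log_of (intCl E₀ t) hQ D O hO (Δ₀ ^ 2) hb2 Δ₀ hΔ0 (Or.inr hinv) (fun q => ?_)
          _ hg0 p
        have h1 : Δ₀ ^ 2 * (D q Δ₀ / Δ₀) = Δ₀ * D q Δ₀ := by
          (clear * - hΔ0; field_simp)
        rw [h1]
        exact hb.2 q _ hΔO
    have h3 : Δ₀ ^ 3 * (D p (form (a i) fun l => x l / x j) /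
        form (a i) fun l => x l / x j) =
        Δ₀ * (Δ₀ ^ 2 * (D p (form (a i) fun l => x l / x j) /
        form (a i) fun l => x l / x j)) := by
      ring
    rw [h3]
    exact mul_mem hΔO key

end Pool.Agent.Helper8.CO
end

/- Helper12.LVF.H8.CO.Bound -/
section
/-! # CO-BD: everything lies in a finite-dimensional space -/

set_option autoImplicit false

namespace Pool.Agent.Helper8.CO

open Pool.Agent.Helper8.LG Pool.Agent.Helper8.LV Pool.Agent.Helper6.CO

open scoped BigOperators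

private theorem bdInv {L : Type*} [Field L] (D : Derivation ℤ L L) (f : L) :
    D f⁻¹ = -(f⁻¹ ^ 2) * D f := by
  have h := Derivation.leibniz_inv D f
  rw [h, smul_eq_mul]

private theorem bdDual {L σ ι τ : Type*} [Field L] [DecidableEq σ] [DecidableEq ι] [Fintype τ]
    (d : ι → ℕ) (a : (i : ι) → Sym σ (d i) → L)
    (D : Ix σ d → Derivation ℤ L L) (jj : τ → Ix σ d) (θ : τ → Ix σ d → L)
    (hD : Dual d a D jj θ) (T : Finset (Ix σ d)) (hT : ∀ j, jj j ∉ T) (q : Ix σ d) (p : T) :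
    D q (a p.1.1 p.1.2) = if q = p.1 then 1 else 0 := by
  have h := hD q p.1
  rw [Finset.sum_eq_zero, sub_zero] at h
  · exact h
  · intro j _
    rw [if_neg]
    rintro h1
    exact hT j (h1 ▸ p.2)

private theorem bdStable {k L σ ι τ : Type*} [Field k] [Field L] [Algebra k L]
    [DecidableEq σ] [DecidableEq ι] [Fintype τ]
    (d : ι → ℕ) (a : (i : ι) → Sym σ (d i) → L)
    (D : Ix σ d → Derivation ℤ L L) (jj : τ → Ix σ d) (θ : τ → Ix σ d → L)
    (hD : Dual d a D jj θ) (T : Finset (Ix σ d)) (hT : ∀ j, jj j ∉ T)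
    (hDk : ∀ p (c : k), D p (algebraMap k L c) = 0) (p : T) (q : Ix σ d) :
    ∀ f ∈ others (k := k) (fun p : T => a p.1.1 p.1.2) p,
      D q f ∈ others (k := k) (fun p : T => a p.1.1 p.1.2) p := by
  intro f hf
  have hf' : f ∈ IntermediateField.adjoin k ((fun p : T => a p.1.1 p.1.2) '' {p}ᶜ) := hf
  show D q f ∈ IntermediateField.adjoin k ((fun p : T => a p.1.1 p.1.2) '' {p}ᶜ)
  induction hf' using IntermediateField.adjoin_induction with
  | mem x hx =>
    obtain ⟨r, _, rfl⟩ := hx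
    show D q (a r.1.1 r.1.2) ∈ _
    rw [bdDual d a D jj θ hD T hT q r]
    split_ifs
    · exact one_mem _
    · exact zero_mem _
  | algebraMap c =>
    rw [hDk q c]
    exact zero_mem _
  | add x y hx hy hx' hy' =>
    rw [map_add]
    exact add_mem (hx' hx) (hy' hy)
  | inv x hx hx' =>
    rw [bdInv]
    exact mul_mem (neg_mem (pow_mem (inv_mem hx) 2)) (hx' hx)
  | mul x y hx hy hx' hy' =>
    rw [Derivation.leibniz, smul_eq_mul, smul_eq_mul]
    exact add_mem (mul_mem hx (hy' hy)) (mul_mem hy (hx' hx))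

private theorem bdVar {L σ ι τ : Type*} [Field L] [DecidableEq σ] [DecidableEq ι] [Fintype τ]
    (d : ι → ℕ) (a : (i : ι) → Sym σ (d i) → L)
    (D : Ix σ d → Derivation ℤ L L) (jj : τ → Ix σ d) (θ : τ → Ix σ d → L)
    (hD : Dual d a D jj θ) (T : Finset (Ix σ d)) (hT : ∀ j, jj j ∉ T) (p : T) (q : Ix σ d)
    (R : Subring L) :
    D q (a p.1.1 p.1.2) ∈ R := by
  rw [bdDual d a D jj θ hD T hT q p]
  split_ifs
  · exact one_mem _
  · exact zero_mem _

private theorem bdVarInv {L σ ι τ : Type*} [Field L] [DecidableEq σ] [DecidableEq ι] [Fintype τ]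
    (d : ι → ℕ) (a : (i : ι) → Sym σ (d i) → L)
    (D : Ix σ d → Derivation ℤ L L) (jj : τ → Ix σ d) (θ : τ → Ix σ d → L)
    (hD : Dual d a D jj θ) (T : Finset (Ix σ d)) (hT : ∀ j, jj j ∉ T) (p : T) (q : Ix σ d)
    (R : Subring L) (hR : (a p.1.1 p.1.2)⁻¹ ∈ R) :
    D q (a p.1.1 p.1.2)⁻¹ ∈ R := by
  rw [bdInv]
  exact mul_mem (neg_mem (pow_mem hR 2)) (bdVar d a D jj θ hD T hT p q R)

private theorem bdGood {E σ ι P : Type*} [Field E] [Fintype σ] [DecidableEq σ]
    {d m : ι → ℕ} {a : (i : ι) → Sym σ (d i) → E} {D : P → Derivation ℤ E E}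
    {Z C : Finset ι} {i₀ : σ} {w : ℕ} {A B : Subring E} (hAB : A ≤ B)
    {x : σ → E} {y : ι → E} (h : GoodV d m a D Z C i₀ w A x y) :
    GoodV d m a D Z C i₀ w B x y where
  one := h.one
  zero := h.zero
  ne := h.ne
  root := h.root
  int := fun i hZ hC J =>
    (h.int i hZ hC J).map_of_comp_eq (Subring.inclusion hAB) (RingHom.id E) rfl
  rank := h.rank

private theorem bdLe {k L : Type*} [Field k] [Field L] [Algebra k L] (s : Set L)
    (E₀ : Subfield L) (hk : ∀ c : k, algebraMap k L c ∈ E₀) (S : Set L) (hs : s ⊆ S) :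
    (Algebra.adjoin k s).toSubring ≤ Subring.closure ((E₀ : Set L) ∪ S) := by
  intro f hf
  have hf' : f ∈ Algebra.adjoin k s := hf
  induction hf' using Algebra.adjoin_induction with
  | mem x hx => exact Subring.subset_closure (Or.inr (hs hx))
  | algebraMap c => exact Subring.subset_closure (Or.inl (hk c))
  | add x y hx hy hx' hy' => exact add_mem (hx' hx) (hy' hy)
  | mul x y hx hy hx' hy' => exact mul_mem (hx' hx) (hy' hy)

/-- numerical data for the second round -/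
theorem numV_of {ι κ : Type*} [Fintype ι] [DecidableEq ι] {bl : κ → ι} {q : κ → ℕ}
    {d q₀ e m : ι → ℕ} {Z C Y : Finset ι} {w c : ℕ} (h : NumC bl q d q₀ e m Z C Y w c) :
    NumV d (fun _ => 2 * w + 2 + ∑ i, e i) e m Z C w 0 where
  pos := h.pos
  posq := fun _ => by omega
  disj := h.disj
  deg := h.deg
  e0 := h.e0
  ineq := by
    rcases isEmpty_or_nonempty ι with hι | ⟨⟨i⟩⟩
    · have h1 := h.ineq
      have h2 : Z.card = 0 := by
        rw [Finset.card_eq_zero, Finset.eq_empty_iff_forall_notMem]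
        exact fun i => (hι.false i).elim
      have h3 : ∑ i, qm Y d q₀ i = 0 := by
        rw [Finset.univ_eq_empty, Finset.sum_empty]
      omega
    · have h1 : 2 * w + 2 + ∑ i, e i ≤ ∑ _i : ι, (2 * w + 2 + ∑ i, e i) :=
        Finset.single_le_sum (f := fun _ : ι => 2 * w + 2 + ∑ i, e i)
          (fun _ _ => Nat.zero_le _) (Finset.mem_univ i)
      omega

theorem bounded {k L : Type*} [Field k] [Field L] [CharZero L] [Algebra k L]
    {σ ι κ τ : Type*} [Fintype σ] [DecidableEq σ] [Fintype ι] [DecidableEq ι] [Fintype κ]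
    [DecidableEq κ] [Fintype τ] (bl : κ → ι) (b q : κ → ℕ)
    (d q₀ e m : ι → ℕ) (a : (i : ι) → Sym σ (d i) → L) (ap : (t : κ) → Sym σ (b t) → L)
    (ah : (t : κ) → Sym σ (q t) → L) (F : (i : ι) → Sym σ (d i) → MvPolynomial (Ix σ q) k)
    (hF : Fam k bl d b q a ap ah F) (T : Finset (Ix σ q))
    (hind : AlgebraicIndependent k (fun p : T => ah p.1.1 p.1.2))
    (hfin : FiniteDimensional
      (IntermediateField.adjoin k (Set.range fun p : T => ah p.1.1 p.1.2)) L)
    (D : Ix σ q → Derivation ℤ L L) (jj : τ → Ix σ q) (θ : τ → Ix σ q → L)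
    (hD : Dual q ah D jj θ) (hT : ∀ j, jj j ∉ T)
    (hDk : ∀ p (c : k), D p (algebraMap k L c) = 0)
    (Z C Y : Finset ι) (i₀ : σ) (w : ℕ)
    (hnum : NumC bl q d q₀ e m Z C Y w (Fintype.card τ)) (hN : NulP bl ap Y)
    (A : Subalgebra k L) (hA : A.FG) :
    ∃ V : Submodule k L, FiniteDimensional k V ∧ ∀ (x : σ → L) (y : ι → L),
      GoodV d m a D Z C i₀ w A.toSubring x y → (∀ i, ∃ t, bl t = i ∧ form (ap t) x ≠ 0) →
      ∃ G : L, G ≠ 0 ∧ (∀ l, G * x l ∈ V) ∧
        (∀ i ∉ Z, i ∉ C → ∀ J : Sym σ (d i), mon x J / form (a i) x ∈ V) ∧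
        ∀ i ∈ C, G ^ e i * y i ∈ V := by
  classical
  obtain ⟨s, hs⟩ := hA
  set y₀ : T → L := fun p : T => ah p.1.1 p.1.2 with hy₀
  obtain ⟨S₀, hS₀, hNb⟩ := nul_bound (E := L) bl ap Y hN
  set S : Set L := (s : Set L) ∪ ((Set.range (fun p : Ix σ d => a p.1 p.2) ∪
    Set.range fun r : τ × Ix σ q => θ r.1 r.2) ∪ S₀) with hS
  have hSfin : S.Finite :=
    (s.finite_toSet).union (((Set.finite_range _).union (Set.finite_range _)).union hS₀)
  have hSa : ∀ p : Ix σ d, a p.1 p.2 ∈ S := fun p => Or.inr (Or.inl (Or.inl ⟨p, rfl⟩))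
  have hSθ : ∀ j s, θ j s ∈ S := fun j s => Or.inr (Or.inl (Or.inr ⟨(j, s), rfl⟩))
  have hSN : ∀ (O : ValuationSubring L) (Δ : L), (∀ f ∈ S, Δ * f ∈ O) → ∀ x : σ → L,
      Nul bl ap Y O Δ x := fun O Δ h x =>
    hNb (RingHom.id L) O Δ (fun f hf => h f (Or.inr (Or.inr hf))) x
  have hk : ∀ (p : T) (c : k), algebraMap k L c ∈ others (k := k) y₀ p := by
    intro p c
    exact IntermediateField.algebraMap_mem _ c
  have hAle : ∀ p : T,
      A.toSubring ≤ Subring.closure ((others (k := k) y₀ p : Set L) ∪ S) := by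
    intro p
    rw [← hs]
    exact bdLe (s : Set L) _ (hk p) S Set.subset_union_left
  have htr := others_transcendental (k := k) y₀ hind
  have hof := others_finite (k := k) y₀ hfin
  have hst : ∀ (p : T) (s : Ix σ q), ∀ f ∈ others (k := k) y₀ p,
      D s f ∈ others (k := k) y₀ p :=
    fun p s => bdStable q ah D jj θ hD T hT hDk p s
  -- first round
  have h1 : ∀ p : T, ∃ Δ : L, Δ ≠ 0 ∧ ∀ (x : σ → L) (y : ι → L) (G : L),
      GoodV d m a D Z C i₀ w (Subring.closure ((others (k := k) y₀ p : Set L) ∪ S)) x y →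
      KeyC bl d e a ap D θ Z Y (uu C y) x G →
      ∀ l, Δ * (G * x l) ∈ intCl (others (k := k) y₀ p) (y₀ p) := by
    intro p
    exact dir_one bl b q d q₀ e m a ap D θ Z C Y i₀ w _ hnum (others (k := k) y₀ p) (y₀ p) (htr p).1 (hof p).1
      (fun s => hst p s) (fun s => bdVar q ah D jj θ hD T hT p s _) S hSfin hSa hSθ hSN
  have h1' : ∀ p : T, ∃ Δ : L, Δ ≠ 0 ∧ ∀ (x : σ → L) (y : ι → L) (G : L),
      GoodV d m a D Z C i₀ w (Subring.closure ((others (k := k) y₀ p : Set L) ∪ S)) x y →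
      KeyC bl d e a ap D θ Z Y (uu C y) x G →
      ∀ l, Δ * (G * x l) ∈ intCl (others (k := k) y₀ p) (y₀ p)⁻¹ := by
    intro p
    exact dir_one bl b q d q₀ e m a ap D θ Z C Y i₀ w _ hnum (others (k := k) y₀ p) (y₀ p)⁻¹ (htr p).2 (hof p).2
      (fun s => hst p s)
      (fun s => bdVarInv q ah D jj θ hD T hT p s _ (Subring.subset_closure (Or.inr rfl)))
      S hSfin hSa hSθ hSN
  choose Δ₁ hΔ₁ H₁ using h1
  choose Δ₁' hΔ₁' H₁' using h1'
  obtain ⟨V₁, hV₁, hV₁'⟩ := fd y₀ hind hfin Δ₁ Δ₁' hΔ₁ hΔ₁'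
  -- second round
  have h2 : ∀ p : T, ∃ Δ : L, Δ ≠ 0 ∧ ∀ (x : σ → L) (y : ι → L) (G : L),
      GoodV d m a D Z C i₀ w (Subring.closure ((others (k := k) y₀ p : Set L) ∪ S)) x y →
      G ≠ 0 → (∀ l, G * x l ∈ V₁) →
      (∀ i ∉ Z, i ∉ C → ∀ J : Sym σ (d i),
        Δ * (mon x J / form (a i) x) ∈ intCl (others (k := k) y₀ p) (y₀ p)) ∧
      ∀ i ∈ C, Δ * (G ^ e i * y i) ∈ intCl (others (k := k) y₀ p) (y₀ p) := by
    intro p
    exact dir_two d _ e m a D Z C i₀ w _ (numV_of hnum) (others (k := k) y₀ p) (hk p) (y₀ p) (htr p).1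
      (hof p).1 S hSfin hSa V₁
  have h2' : ∀ p : T, ∃ Δ : L, Δ ≠ 0 ∧ ∀ (x : σ → L) (y : ι → L) (G : L),
      GoodV d m a D Z C i₀ w (Subring.closure ((others (k := k) y₀ p : Set L) ∪ S)) x y →
      G ≠ 0 → (∀ l, G * x l ∈ V₁) →
      (∀ i ∉ Z, i ∉ C → ∀ J : Sym σ (d i),
        Δ * (mon x J / form (a i) x) ∈ intCl (others (k := k) y₀ p) (y₀ p)⁻¹) ∧
      ∀ i ∈ C, Δ * (G ^ e i * y i) ∈ intCl (others (k := k) y₀ p) (y₀ p)⁻¹ := by
    intro p
    exact dir_two d _ e m a D Z C i₀ w _ (numV_of hnum) (others (k := k) y₀ p) (hk p) (y₀ p)⁻¹ (htr p).2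
      (hof p).2 S hSfin hSa V₁
  choose Δ₂ hΔ₂ H₂ using h2
  choose Δ₂' hΔ₂' H₂' using h2'
  obtain ⟨V₂, hV₂, hV₂'⟩ := fd y₀ hind hfin Δ₂ Δ₂' hΔ₂ hΔ₂'
  haveI := hV₁
  haveI := hV₂
  refine ⟨V₁ ⊔ V₂, inferInstance, ?_⟩
  intro x y hgood hP
  have hg : ∀ p : T,
      GoodV d m a D Z C i₀ w (Subring.closure ((others (k := k) y₀ p : Set L) ∪ S)) x y :=
    fun p => bdGood (hAle p) hgood
  have hu : ∀ i ∉ Z, uu C y i ≠ 0 := by
    intro i hi
    unfold uu
    by_cases hC : i ∈ C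
    · rw [if_pos hC]
      intro h0
      have hr := hgood.root i hC
      have hm : m i ≠ 0 := by
        intro hm0
        have h1 := hnum.deg i hC
        have h2 := hnum.pos i
        rw [hm0, zero_mul] at h1
        omega
      rw [h0, zero_pow hm] at hr
      exact hgood.ne i hi hr.symm
    · rw [if_neg hC]
      exact one_ne_zero
  obtain ⟨G, hG, hKey⟩ := key bl d e q₀ b q
    (fun t => (hnum.posq (bl t)).trans_le (hnum.le t)) hnum.le a ap ah D jj θ hD
    (fam_mov hF D hDk) Z Y x i₀ hgood.one hgood.zero hgood.ne hP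
    (uu C y) hu w hnum.ineq hgood.rank
  have hGx : ∀ l, G * x l ∈ V₁ := by
    intro l
    apply hV₁'
    intro p
    exact ⟨H₁ p x y G (hg p) hKey l, H₁' p x y G (hg p) hKey l⟩
  refine ⟨G, hG, fun l => Submodule.mem_sup_left (hGx l), ?_, ?_⟩
  · intro i hi hC J
    apply Submodule.mem_sup_right
    apply hV₂'
    intro p
    exact ⟨(H₂ p x y G (hg p) hG hGx).1 i hi hC J, (H₂' p x y G (hg p) hG hGx).1 i hi hC J⟩
  · intro i hC
    apply Submodule.mem_sup_right
    apply hV₂'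
    intro p
    exact ⟨(H₂ p x y G (hg p) hG hGx).2 i hC, (H₂' p x y G (hg p) hG hGx).2 i hC⟩

end Pool.Agent.Helper8.CO
end

/- Helper12.LVF.H6.CT.Col -/
section
/-! # CT-KEY: the columns, with a family of syzygies -/

set_option autoImplicit false

namespace Pool.Agent.Helper6.CT

open Pool.Agent.Helper8.LG hiding eul syz cv phi eul_scale syz_scale cv_scale exists_functional
open Pool.Agent.Helper8.LV (kf_form_scale)
open Pool.Agent.Helper6.CO

open scoped BigOperators

section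

variable {E : Type*} [Field E] {σ ι κ Tt K : Type*} [Fintype σ] [DecidableEq σ] [DecidableEq ι]
  {n : κ → ℕ} {d : ι → ℕ} {a : (i : ι) → Sym σ (d i) → E}
  {D : Ix σ (fun t => n t + 1) → Derivation ℤ E E}
  {θ : Tt → Ix σ (fun t => n t + 1) → E} {Z : Finset ι} {x : σ → E}

/-- the Euler column and the syzygies `fs k` -/
def colO (n : κ → ℕ) {d : ι → ℕ} (a : (i : ι) → Sym σ (d i) → E)
    (D : Ix σ (fun t => n t + 1) → Derivation ℤ E E)
    (θ : Tt → Ix σ (fun t => n t + 1) → E) (Z : Finset ι)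
    (fs : K → Σ t : κ, Sym σ (n t) × σ × σ) (x : σ → E) (o : Option K) :
    (σ ⊕ ι) ⊕ Tt → E :=
  o.elim (eul d Z x) fun k => syz n a D θ Z x (fs k)

theorem span_tildeO (fs : K → Σ t : κ, Sym σ (n t) × σ × σ)
    (hbsp : ∀ s, syz n a D θ Z x s ∈
      Submodule.span E (Set.range (colO n a D θ Z fs x)))
    (hU : ∀ i ∉ Z, form (a i) x ≠ 0) {c : E} (hc : c ≠ 0)
    (s : Σ t : κ, Sym σ (n t) × σ × σ) :
    syz n a D θ Z (fun l => x l / c) s ∈
      Submodule.span E (Set.range (colO n a D θ Z fs fun l => x l / c)) := by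
  set W := Submodule.span E (Set.range (colO n a D θ Z fs fun l => x l / c)) with hW
  have h0 : eul d Z (fun l => x l / c) ∈ W := Submodule.subset_span ⟨none, rfl⟩
  have h0' : (eul d Z x : (σ ⊕ ι) ⊕ Tt → E) ∈ W.map (phi c) := by
    rw [eul_scale d Z x c hc]
    exact Submodule.mem_map_of_mem h0
  have h1 : Submodule.span E (Set.range (colO n a D θ Z fs x)) ≤
      W.map (phi c) := by
    rw [Submodule.span_le]
    rintro _ ⟨o, rfl⟩
    rcases o with _ | k
    · exact h0'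
    · obtain ⟨bb, hbb⟩ := syz_scale n a D θ Z x hU c hc (fs k)
      change syz n a D θ Z x (fs k) ∈ W.map (phi c)
      rw [hbb]
      exact add_mem (Submodule.smul_mem _ _ (Submodule.mem_map_of_mem
        (Submodule.subset_span ⟨some k, rfl⟩))) (Submodule.smul_mem _ _ h0')
  obtain ⟨bb, hbb⟩ := syz_scale n a D θ Z x hU c hc s
  have h2 := h1 (hbsp s)
  have h3 : c • phi c (syz n a D θ Z (fun l => x l / c) s) ∈ W.map (phi c) := by
    have h4 := sub_mem h2 (Submodule.smul_mem _ bb h0')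
    rwa [hbb, add_sub_cancel_right] at h4
  have h5 : phi c (syz n a D θ Z (fun l => x l / c) s) ∈ W.map (phi c) := by
    have h6 := Submodule.smul_mem _ c⁻¹ h3
    rwa [smul_smul, inv_mul_cancel₀ hc, one_smul] at h6
  obtain ⟨y, hy, hy2⟩ := h5
  rw [← phi_inj hc hy2]
  exact hy

/-- all the columns -/
def colU (n : κ → ℕ) {d : ι → ℕ} (a : (i : ι) → Sym σ (d i) → E)
    (D : Ix σ (fun t => n t + 1) → Derivation ℤ E E)
    (θ : Tt → Ix σ (fun t => n t + 1) → E) (Z : Finset ι)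
    (fs : K → Σ t : κ, Sym σ (n t) × σ × σ) (S : Set κ) (x : σ → E) (j : σ)
    (g : κ → E) (f : κ → κ) : (Option K ⊕ S) → (σ ⊕ ι) ⊕ Tt → E :=
  Sum.elim (colO n a D θ Z fs x) fun t : S => g t • colR n a D θ Z x j (f t)

/-- the ranks of the columns -/
def rkU (K : Type*) (S : Set κ) (r : κ → ℕ) : (Option K ⊕ S) → ℕ :=
  Sum.elim (fun o => o.elim 0 fun _ => 1) fun t : S => 2 + r t

/-- the diagonal entries of the transition matrix -/
def gU (K : Type*) (S : Set κ) (Q : κ → ℕ) (c : E) : (Option K ⊕ S) → E :=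
  Sum.elim (fun o => o.elim 1 fun _ => c) fun t : S => (c ^ Q t)⁻¹

theorem colU_span (fs : K → Σ t : κ, Sym σ (n t) × σ × σ) (S : Set κ)
    (i₀ : σ) (g : κ → E) (f : κ → κ) (t : Option K ⊕ S) :
    (fun l => colU n a D θ Z fs S x i₀ g f t (Sum.inl (Sum.inl l))) ∈
      Submodule.span E (Set.range (col D x)) := by
  have h1 : ∀ q, col D x q ∈ Submodule.span E (Set.range (col D x)) :=
    fun q => Submodule.subset_span ⟨q, rfl⟩
  rcases t with o | t
  · rcases o with _ | k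
    · exact h1 none
    · exact sub_mem (Submodule.smul_mem _ (x (fs k).2.2.1)
          (h1 (some ⟨(fs k).1, (fs k).2.2.2 ::ₛ (fs k).2.1⟩)))
        (Submodule.smul_mem _ (x (fs k).2.2.2)
          (h1 (some ⟨(fs k).1, (fs k).2.2.1 ::ₛ (fs k).2.1⟩)))
  · exact Submodule.smul_mem _ (g t) (h1 (some ⟨f t, Sym.replicate (n (f t) + 1) i₀⟩))

theorem colU_zero (fs : K → Σ t : κ, Sym σ (n t) × σ × σ) (S : Set κ)
    (i₀ : σ) (g : κ → E) (f : κ → κ) (t : Option K ⊕ S) {i : ι} (hi : i ∈ Z) :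
    colU n a D θ Z fs S x i₀ g f t (Sum.inl (Sum.inr i)) = 0 := by
  rcases t with o | t
  · rcases o with _ | k
    · exact eul_row (Tt := Tt) Z x hi
    · exact syz_row n a D θ Z x (fs k) hi
  · have h1 := cv_row n a D θ Z x ⟨f t, Sym.replicate (n (f t) + 1) i₀⟩ hi
    change g t * cv n a D θ Z x ⟨f t, Sym.replicate (n (f t) + 1) i₀⟩ (Sum.inl (Sum.inr i)) = 0
    rw [h1, mul_zero]

omit [DecidableEq ι] [Fintype σ] [DecidableEq σ] in
theorem prod_gU [Fintype K] (S : Set κ) [Fintype S] (Q : κ → ℕ) (c : E) (hc : c ≠ 0) :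
    (∏ t, gU K S Q c t) * c ^ ∑ t : S, Q t = c ^ Fintype.card K := by
  classical
  rw [Fintype.prod_sum_type]
  have h1 : ∏ t : S, gU K S Q c (Sum.inr t) = (c ^ ∑ t : S, Q t)⁻¹ := by
    rw [← Finset.prod_pow_eq_pow_sum, ← Finset.prod_inv_distrib]
    rfl
  have h2 : ∏ o : Option K, gU K S Q c (Sum.inl o) = c ^ Fintype.card K := by
    rw [Fintype.prod_option]
    change 1 * ∏ _k : K, c = _
    rw [one_mul, Finset.prod_const, Finset.card_univ]
  rw [h1, h2, mul_assoc, inv_mul_cancel₀ (pow_ne_zero _ hc), mul_one]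

/-- the basis columns -/
theorem colO_mem (fs : K → Σ t : κ, Sym σ (n t) × σ × σ)
    (hU : ∀ i ∉ Z, form (a i) x ≠ 0) {c : E} (hc : c ≠ 0) (o : Option K) :
    colO n a D θ Z fs x o ∈ Submodule.span E
      (Set.range fun o : Option K => phi c (colO n a D θ Z fs (fun l => x l / c) o)) := by
  have h0 : (eul d Z x : (σ ⊕ ι) ⊕ Tt → E) ∈ Submodule.span E
      (Set.range fun o : Option K => phi c (colO n a D θ Z fs (fun l => x l / c) o)) := by
    rw [eul_scale d Z x c hc]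
    exact Submodule.subset_span ⟨none, rfl⟩
  rcases o with _ | k
  · exact h0
  · obtain ⟨bb, hbb⟩ := syz_scale n a D θ Z x hU c hc (fs k)
    change syz n a D θ Z x (fs k) ∈ _
    rw [hbb]
    exact add_mem (Submodule.smul_mem _ _ (Submodule.subset_span ⟨some k, rfl⟩))
      (Submodule.smul_mem _ _ h0)

/-- the columns of the moving forms -/
theorem colR_memO (fs : K → Σ t : κ, Sym σ (n t) × σ × σ)
    (hbsp : ∀ s, syz n a D θ Z x s ∈
      Submodule.span E (Set.range (colO n a D θ Z fs x)))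
    (hU : ∀ i ∉ Z, form (a i) x ≠ 0) (i₀ : σ) (hx : x i₀ = 1) (j₀ : σ) (hj : x j₀ ≠ 0)
    (t : κ) :
    colR n a D θ Z x i₀ t - (x j₀ ^ (n t + 1))⁻¹ •
        phi (x j₀) (colR n a D θ Z (fun l => x l / x j₀) j₀ t) ∈
      Submodule.span E
        (Set.range fun o : Option K =>
          phi (x j₀) (colO n a D θ Z fs (fun l => x l / x j₀) o)) := by
  set c := x j₀ with hc
  set xt : σ → E := fun l => x l / c with hxt
  have h1 := cv_sub_mem n a D θ Z xt j₀ t (Sym.replicate (n t + 1) i₀)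
  have hxj : xt j₀ = 1 := div_self hj
  rw [hxj, one_pow, one_smul, mon_rep] at h1
  have h2 : Submodule.span E (Set.range (syz n a D θ Z xt)) ≤
      Submodule.span E (Set.range (colO n a D θ Z fs xt)) := by
    rw [Submodule.span_le]
    rintro _ ⟨s, rfl⟩
    exact span_tildeO fs hbsp hU hj s
  have h3 := h2 h1
  have hxi : xt i₀ ^ (n t + 1) = (c ^ (n t + 1))⁻¹ := by
    rw [hxt]
    simp only
    rw [hx, one_div, inv_pow]
  rw [hxi] at h3
  have h4 : ∀ z, z ∈ Submodule.span E (Set.range (colO n a D θ Z fs xt)) →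
      phi c z ∈ Submodule.span E
        (Set.range fun o : Option K => phi c (colO n a D θ Z fs xt o)) := by
    intro z hz
    have h5 := Submodule.mem_map_of_mem (f := phi (σ := σ) (ι := ι) (τ := Tt) c) hz
    rw [Submodule.map_span, ← Set.range_comp] at h5
    exact h5
  have h6 := h4 _ h3
  rw [map_sub, map_smul] at h6
  have h7 := cv_scale n a D θ Z x hU c hj ⟨t, Sym.replicate (n t + 1) i₀⟩
  have h8 : colR n a D θ Z x i₀ t - (c ^ (n t + 1))⁻¹ • phi c (colR n a D θ Z xt j₀ t) =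
      (phi c (cv n a D θ Z xt ⟨t, Sym.replicate (n t + 1) i₀⟩) -
        (c ^ (n t + 1))⁻¹ • phi c (cv n a D θ Z xt ⟨t, Sym.replicate (n t + 1) j₀⟩)) +
        (D ⟨t, Sym.replicate (n t + 1) i₀⟩ c / c) • eul d Z x := by
    change cv n a D θ Z x ⟨t, Sym.replicate (n t + 1) i₀⟩ - _ = _
    rw [h7]
    change _ - (c ^ (n t + 1))⁻¹ • phi c (cv n a D θ Z xt ⟨t, Sym.replicate (n t + 1) j₀⟩) = _
    abel
  rw [h8]
  refine add_mem h6 (Submodule.smul_mem _ _ ?_)
  rw [eul_scale d Z x c hj]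
  exact Submodule.subset_span ⟨none, rfl⟩

theorem trans_memO [Finite κ] (bl : κ → ι) {bb : κ → ℕ} (p : (t : κ) → Sym σ (bb t) → E)
    (hdeg : ∀ t, d (bl t) = bb t + (n t + 1))
    (fs : K → Σ t : κ, Sym σ (n t) × σ × σ)
    (hbsp : ∀ s, syz n a D θ Z x s ∈
      Submodule.span E (Set.range (colO n a D θ Z fs x)))
    (hU : ∀ i ∉ Z, form (a i) x ≠ 0) (i₀ : σ) (hx : x i₀ = 1) (j₀ : σ) (hj : x j₀ ≠ 0)
    (r : κ → ℕ) (S : Set κ)
    (hF2 : ∀ t, colR n a D θ Z x i₀ t ∈
      Submodule.span E (Set.range (colO n a D θ Z fs x)) ⊔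
        Submodule.span E (colR n a D θ Z x i₀ '' {s | s ∈ S ∧ r s ≤ r t}))
    (hF3 : ∀ s t t', bl t = bl t' → bl s ≠ bl t → r s ≤ r t → r s < r t')
    (lam : ((σ ⊕ ι) ⊕ Tt → E) →ₗ[E] (ι → E))
    (hV : ∀ v ∈ Submodule.span E (Set.range (colO n a D θ Z fs x)), lam v = 0)
    (hC : ∀ t, lam (colR n a D θ Z x i₀ t) = Pi.single (bl t) (-(form (p t) x)))
    (sp : ι → Prop) [DecidablePred sp]
    (hone : ∀ t ∈ S, sp (bl t) → ∀ s ∈ S, bl s = bl t → s = t)
    (hne : ∀ t ∈ S, sp (bl t) → form (p t) x ≠ 0)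
    (f : ι → κ) (hf : ∀ i, sp i → bl (f i) = i ∧ form (p (f i)) (fun l => x l / x j₀) ≠ 0)
    (t : Option K ⊕ S) :
    colU n a D θ Z fs S x i₀ (fun t => if sp (bl t) then (form (p t) x)⁻¹ else 1) id t -
      gU K S (fun t => if sp (bl t) then d (bl t) else n t + 1) (x j₀) t •
        phi (x j₀) (colU n a D θ Z fs S (fun l => x l / x j₀) j₀
          (fun t => if sp (bl t) then (form (p (f (bl t))) fun l => x l / x j₀)⁻¹ else 1)
          (fun t => if sp (bl t) then f (bl t) else t) t) ∈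
      Submodule.span E ((fun t' => phi (x j₀) (colU n a D θ Z fs S (fun l => x l / x j₀) j₀
          (fun t => if sp (bl t) then (form (p (f (bl t))) fun l => x l / x j₀)⁻¹ else 1)
          (fun t => if sp (bl t) then f (bl t) else t) t')) ''
            {t' | rkU K S r t' < rkU K S r t}) := by
  set c := x j₀ with hc
  set xt : σ → E := fun l => x l / c with hxt
  set g : κ → E := fun t => if sp (bl t) then (form (p t) x)⁻¹ else 1 with hg
  set gt : κ → E := fun t => if sp (bl t) then (form (p (f (bl t))) xt)⁻¹ else 1 with hgt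
  set ft : κ → κ := fun t => if sp (bl t) then f (bl t) else t with hft
  set Q : κ → ℕ := fun t => if sp (bl t) then d (bl t) else n t + 1 with hQ
  set Kt := colU n a D θ Z fs S xt j₀ gt ft with hKt
  set X2 := Submodule.span E
    (Set.range fun o : Option K => phi c (colO n a D θ Z fs xt o)) with hX2
  -- the part of the basis
  have hX2le : ∀ m, 2 ≤ m → X2 ≤ Submodule.span E ((fun t' => phi c (Kt t')) ''
      {t' | rkU K S r t' < m}) := by
    intro m hm
    rw [hX2, Submodule.span_le]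
    rintro _ ⟨o, rfl⟩
    refine Submodule.subset_span ⟨Sum.inl o, ?_, rfl⟩
    rcases o with _ | s
    · change 0 < m
      omega
    · change 1 < m
      omega
  -- the other columns
  have key : ∀ (N : ℕ) (t : κ) (ht : t ∈ S), r t = N →
      g t • colR n a D θ Z x i₀ t - (c ^ Q t)⁻¹ • phi c (gt t • colR n a D θ Z xt j₀ (ft t)) ∈
      Submodule.span E ((fun t' => phi c (Kt t')) '' {t' | rkU K S r t' < 2 + r t}) := by
    intro N
    induction N using Nat.strong_induction_on with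
    | _ N ih =>
      intro t ht htN
      by_cases hsp : sp (bl t)
      · obtain ⟨hf1, hf2⟩ := hf (bl t) hsp
        obtain ⟨cc, v, w, hv, hw, h1, h2⟩ := flag_one bl _ (colR n a D θ Z x i₀) r S hF2 hF3 lam
          (fun t => form (p t) x) hV hC t (fun s hs hst => hone t ht hsp s hs hst) (f (bl t)) hf1
        have hmt : form (p t) x ≠ 0 := hne t ht hsp
        have hm1 : form (p (f (bl t))) x = c ^ bb (f (bl t)) * form (p (f (bl t))) xt :=
          Pool.Agent.Helper8.LV.kf_form_scale (p (f (bl t))) x c hj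
        have hm1' : form (p (f (bl t))) x ≠ 0 := by
          rw [hm1]
          exact mul_ne_zero (pow_ne_zero _ hj) hf2
        have hcc : cc ≠ 0 := by
          intro h
          apply hm1'
          rw [h2, h, zero_mul]
        have hgt' : g t = (form (p t) x)⁻¹ := if_pos hsp
        have hgtt : gt t = (form (p (f (bl t))) xt)⁻¹ := if_pos hsp
        have hftt : ft t = f (bl t) := if_pos hsp
        have hQt : Q t = bb (f (bl t)) + (n (f (bl t)) + 1) := by
          rw [hQ]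
          simp only [if_pos hsp]
          rw [← hdeg, hf1]
        have h3 : g t • colR n a D θ Z x i₀ t - (c ^ Q t)⁻¹ •
            phi c (gt t • colR n a D θ Z xt j₀ (ft t)) =
            (form (p (f (bl t))) x)⁻¹ • ((colR n a D θ Z x i₀ (f (bl t)) -
              (c ^ (n (f (bl t)) + 1))⁻¹ • phi c (colR n a D θ Z xt j₀ (f (bl t)))) - v - w) := by
          have h4 : g t • colR n a D θ Z x i₀ t = (form (p (f (bl t))) x)⁻¹ •
              (colR n a D θ Z x i₀ (f (bl t)) - v - w) := by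
            rw [h1, hgt']
            have h5 : v + w + cc • colR n a D θ Z x i₀ t - v - w =
                cc • colR n a D θ Z x i₀ t := by abel
            rw [h5, smul_smul, h2]
            congr 1
            field_simp
          have h6 : (c ^ Q t)⁻¹ • phi c (gt t • colR n a D θ Z xt j₀ (ft t)) =
              (form (p (f (bl t))) x)⁻¹ • ((c ^ (n (f (bl t)) + 1))⁻¹ •
                phi c (colR n a D θ Z xt j₀ (f (bl t)))) := by
            rw [hgtt, hftt, map_smul, smul_smul, smul_smul, hQt, hm1, pow_add]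
            congr 1
            have h7 : c ^ bb (f (bl t)) ≠ 0 := pow_ne_zero _ hj
            have h8 : c ^ (n (f (bl t)) + 1) ≠ 0 := pow_ne_zero _ hj
            field_simp
          rw [h4, h6, ← smul_sub]
          congr 1
          abel
        rw [h3]
        refine Submodule.smul_mem _ _ (sub_mem (sub_mem ?_ ?_) ?_)
        · exact hX2le _ (by omega) (colR_memO fs hbsp hU i₀ hx j₀ hj (f (bl t)))
        · refine hX2le _ (by omega) ?_
          have h5 : Submodule.span E (Set.range (colO n a D θ Z fs x)) ≤ X2 := by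
            rw [Submodule.span_le]
            rintro _ ⟨o, rfl⟩
            exact colO_mem fs hU hj o
          exact h5 hv
        · refine (Submodule.span_le.2 ?_ : Submodule.span E
            (colR n a D θ Z x i₀ '' {s | s ∈ S ∧ r s < r t}) ≤ _) hw
          rintro _ ⟨s, ⟨hs1, hs2⟩, rfl⟩
          have h5 := ih (r s) (by rw [← htN]; exact hs2) s hs1 rfl
          have h6 : Submodule.span E ((fun t' => phi c (Kt t')) '' {t' | rkU K S r t' < 2 + r s}) ≤
              Submodule.span E ((fun t' => phi c (Kt t')) '' {t' | rkU K S r t' < 2 + r t}) :=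
            Submodule.span_mono (Set.image_mono fun t' ht' =>
              (show rkU K S r t' < 2 + r s from ht').trans
                (show 2 + r s < 2 + r t from Nat.add_lt_add_left hs2 2))
          have h7 := h6 h5
          have h8 : (c ^ Q s)⁻¹ • phi c (gt s • colR n a D θ Z xt j₀ (ft s)) ∈
              Submodule.span E ((fun t' => phi c (Kt t')) '' {t' | rkU K S r t' < 2 + r t}) := by
            refine Submodule.smul_mem _ _ (Submodule.subset_span ⟨Sum.inr ⟨s, hs1⟩, ?_, rfl⟩)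
            change 2 + r s < 2 + r t
            omega
          have h9 := add_mem h7 h8
          rw [sub_add_cancel] at h9
          have hgs : g s ≠ 0 := by
            rw [hg]
            by_cases hsps : sp (bl s)
            · simp only [if_pos hsps]
              exact inv_ne_zero (hne s hs1 hsps)
            · simp only [if_neg hsps]
              exact one_ne_zero
          have h10 := Submodule.smul_mem _ (g s)⁻¹ h9
          rwa [smul_smul, inv_mul_cancel₀ hgs, one_smul] at h10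
      · have hgt' : g t = 1 := if_neg hsp
        have hgtt : gt t = 1 := if_neg hsp
        have hftt : ft t = t := if_neg hsp
        have hQt : Q t = n t + 1 := if_neg hsp
        rw [hgt', hgtt, hftt, hQt, one_smul, one_smul]
        exact hX2le _ (by omega) (colR_memO fs hbsp hU i₀ hx j₀ hj t)
  rcases t with o | ⟨t, ht⟩
  · rcases o with _ | k
    · change eul d Z x - (1 : E) • phi c (eul d Z xt) ∈ _
      rw [one_smul, ← eul_scale d Z x c hj, sub_self]
      exact zero_mem _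
    · change syz n a D θ Z x (fs k) - c • phi c (syz n a D θ Z xt (fs k)) ∈ _
      obtain ⟨bb', hbb⟩ := syz_scale n a D θ Z x hU c hj (fs k)
      rw [hbb, add_sub_cancel_left]
      refine Submodule.smul_mem _ _ ?_
      rw [eul_scale d Z x c hj]
      exact Submodule.subset_span ⟨Sum.inl none, Nat.zero_lt_one, rfl⟩
  · exact key (r t) t ht rfl

theorem entry_memU (fs : K → Σ t : κ, Sym σ (n t) × σ × σ) (S : Set κ)
    (j₀ : σ) (g : κ → E) (f : κ → κ)
    (O : ValuationSubring E) (Δ : E) (hg : ∀ t : S, Δ * g t ∈ O)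
    (xt : σ → E) (hxt : ∀ l, xt l ∈ O) (hD : Bdd D Δ O) (hθ : ∀ j s, Δ * θ j s ∈ O)
    (r : (σ ⊕ ι) ⊕ Tt)
    (hr : ∀ i, r = Sum.inl (Sum.inr i) → i ∉ Z ∧
      ∀ p, Δ * (D p (form (a i) xt) / form (a i) xt) ∈ O) (t : Option K ⊕ S) :
    Δ ^ 2 * colU n a D θ Z fs S xt j₀ g f t r ∈ O := by
  have h1 : Δ * eul d Z xt r ∈ O := by
    rcases r with (l | i) | j
    · simp only [eul, Sum.elim_inl]
      exact mul_mem hD.1 (hxt l)
    · obtain ⟨h2, _⟩ := hr i rfl
      simp only [eul, Sum.elim_inl, Sum.elim_inr, if_neg h2]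
      exact mul_mem hD.1 (natCast_mem O _)
    · simp only [eul, Sum.elim_inr, mul_zero]
      exact zero_mem O
  have h2 : ∀ p, Δ * cv n a D θ Z xt p r ∈ O := by
    intro p
    rcases r with (l | i) | j
    · simp only [cv, Sum.elim_inl]
      exact hD.2 p _ (hxt l)
    · obtain ⟨h2, h3⟩ := hr i rfl
      simp only [cv, Sum.elim_inl, Sum.elim_inr, if_neg h2]
      exact h3 p
    · simp only [cv, Sum.elim_inr]
      exact hθ j p
  rcases t with o | t
  · rw [pow_two, mul_assoc]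
    refine mul_mem hD.1 ?_
    rcases o with _ | k
    · exact h1
    · have h3 : colU n a D θ Z fs S xt j₀ g f (Sum.inl (some k)) r =
          xt (fs k).2.2.1 * cv n a D θ Z xt ⟨(fs k).1, (fs k).2.2.2 ::ₛ (fs k).2.1⟩ r -
            xt (fs k).2.2.2 * cv n a D θ Z xt ⟨(fs k).1, (fs k).2.2.1 ::ₛ (fs k).2.1⟩ r := rfl
      have h4 := sub_mem
        (mul_mem (hxt (fs k).2.2.1) (h2 ⟨(fs k).1, (fs k).2.2.2 ::ₛ (fs k).2.1⟩))
        (mul_mem (hxt (fs k).2.2.2) (h2 ⟨(fs k).1, (fs k).2.2.1 ::ₛ (fs k).2.1⟩))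
      rw [h3]
      have h5 : Δ * (xt (fs k).2.2.1 *
            cv n a D θ Z xt ⟨(fs k).1, (fs k).2.2.2 ::ₛ (fs k).2.1⟩ r -
            xt (fs k).2.2.2 * cv n a D θ Z xt ⟨(fs k).1, (fs k).2.2.1 ::ₛ (fs k).2.1⟩ r) =
          xt (fs k).2.2.1 * (Δ * cv n a D θ Z xt ⟨(fs k).1, (fs k).2.2.2 ::ₛ (fs k).2.1⟩ r) -
            xt (fs k).2.2.2 *
              (Δ * cv n a D θ Z xt ⟨(fs k).1, (fs k).2.2.1 ::ₛ (fs k).2.1⟩ r) := by
        ring
      rw [h5]
      exact h4
  · have h3 : colU n a D θ Z fs S xt j₀ g f (Sum.inr t) r =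
        g t * cv n a D θ Z xt ⟨f t, Sym.replicate (n (f t) + 1) j₀⟩ r := rfl
    rw [h3]
    have h4 : Δ ^ 2 * (g t * cv n a D θ Z xt ⟨f t, Sym.replicate (n (f t) + 1) j₀⟩ r) =
        (Δ * g t) * (Δ * cv n a D θ Z xt ⟨f t, Sym.replicate (n (f t) + 1) j₀⟩ r) := by ring
    rw [h4]
    exact mul_mem (hg t) (h2 _)

end

/-- the determinant, up to a power of `c` -/
theorem det_estU {E R J : Type*} [Field E] [Fintype J] [DecidableEq J] (O : ValuationSubring E)
    (Δ c : E) (ρ : J → R) (rf : R → E) (K Kt : J → R → E) (rk : J → ℕ)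
    (g : J → E) (nl : ℕ) (hrf : ∏ s, rf (ρ s) = c ^ nl)
    (hT : ∀ t, ∃ τ : J → E, (∀ r, K t r = ∑ t', τ t' * (rf r * Kt t' r)) ∧ τ t = g t ∧
      ∀ t', t' ≠ t → rk t ≤ rk t' → τ t' = 0)
    (M nb : ℕ) (hg : (∏ t, g t) * c ^ M = c ^ nb)
    (hent : ∀ s t, Δ ^ 2 * Kt t (ρ s) ∈ O) :
    ∃ N : E, (Δ ^ 2) ^ Fintype.card J * N ∈ O ∧
      Matrix.det (Matrix.of fun s t => K t (ρ s)) * c ^ M = c ^ (nl + nb) * N := by
  choose τ hτ1 hτ2 hτ3 using hT
  set N : Matrix J J E := Matrix.of fun s t => Kt t (ρ s) with hN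
  set T : Matrix J J E := Matrix.of fun t' t => τ t t' with hT
  have hTdet : T.det = ∏ t, g t :=
    Helper74.LG.det_tri T rk _ (fun t => hτ2 t) fun t' t h1 h2 => hτ3 t t' h1 h2
  have hmat : (Matrix.of fun s t => K t (ρ s)) =
      (Matrix.of fun s t' => rf (ρ s) * N s t') * T := by
    ext s t
    rw [Matrix.mul_apply, Matrix.of_apply, hτ1 t]
    refine Finset.sum_congr rfl fun t' _ => ?_
    simp only [hN, hT, Matrix.of_apply]
    ring
  refine ⟨N.det, ?_, ?_⟩
  · rw [← Matrix.det_smul]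
    refine Helper74.LG.det_mem O.toSubring _ fun s t => ?_
    rw [Matrix.smul_apply, smul_eq_mul]
    exact hent s t
  · rw [hmat, Matrix.det_mul, Matrix.det_mul_column, hTdet, mul_assoc, hg, hrf]
    ring

end Pool.Agent.Helper6.CT
end

/- Helper12.LVF.H6.CT.Minor -/
section
/-! # CT-KEY: the minors of the columns at a place -/

set_option autoImplicit false

namespace Pool.Agent.Helper6.CT

open Pool.Agent.Helper8.LG hiding eul syz cv phi eul_scale syz_scale cv_scale exists_functional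
open Pool.Agent.Helper6.CO

open scoped BigOperators

/-- the number of the rows which are coordinates of the point -/
def nx {σ ι Tt J : Type*} [Fintype J] (ρ : J → (σ ⊕ ι) ⊕ Tt) : ℕ :=
  (Finset.univ.filter fun s =>
    (Sum.elim (Sum.elim (fun _ => true) (fun _ => false)) (fun _ => false) (ρ s) : Bool) =
      true).card

theorem u_minor {E : Type*} [Field E] {σ ι κ Tt K : Type*} [Fintype σ] [DecidableEq σ]
    [DecidableEq ι] [Finite κ] [Fintype K] [DecidableEq K]
    {n : κ → ℕ} {d : ι → ℕ} {a : (i : ι) → Sym σ (d i) → E}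
    {D : Ix σ (fun t => n t + 1) → Derivation ℤ E E}
    {θ : Tt → Ix σ (fun t => n t + 1) → E} {Z Y : Finset ι} {x : σ → E}
    (bl : κ → ι) {bb : κ → ℕ} (p : (t : κ) → Sym σ (bb t) → E)
    (hdeg : ∀ t, d (bl t) = bb t + (n t + 1))
    (fs : K → Σ t : κ, Sym σ (n t) × σ × σ)
    (hbsp : ∀ s, syz n a D θ Z x s ∈
      Submodule.span E (Set.range (colO n a D θ Z fs x)))
    (hU : ∀ i ∉ Z, form (a i) x ≠ 0) (i₀ : σ) (hx : x i₀ = 1)
    (r : κ → ℕ) (S : Set κ) [Fintype S] [DecidableEq (Option K ⊕ S)]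
    (hF2 : ∀ t, colR n a D θ Z x i₀ t ∈
      Submodule.span E (Set.range (colO n a D θ Z fs x)) ⊔
        Submodule.span E (colR n a D θ Z x i₀ '' {s | s ∈ S ∧ r s ≤ r t}))
    (hF3 : ∀ s t t', bl t = bl t' → bl s ≠ bl t → r s ≤ r t → r s < r t')
    (lam : ((σ ⊕ ι) ⊕ Tt → E) →ₗ[E] (ι → E))
    (hV : ∀ v ∈ Submodule.span E (Set.range (colO n a D θ Z fs x)), lam v = 0)
    (hC : ∀ t, lam (colR n a D θ Z x i₀ t) = Pi.single (bl t) (-(form (p t) x)))
    (hSne : ∀ i, ∃ t, bl t = i)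
    (sp : ι → Prop) [DecidablePred sp] (hspY : ∀ i, sp i → i ∈ Y)
    (hone : ∀ t ∈ S, sp (bl t) → ∀ s ∈ S, bl s = bl t → s = t)
    (hne : ∀ t ∈ S, sp (bl t) → form (p t) x ≠ 0)
    (ρ : Option K ⊕ S → (σ ⊕ ι) ⊕ Tt) (hρZ : ∀ s i, ρ s = Sum.inl (Sum.inr i) → i ∉ Z)
    (O : ValuationSubring E) (Δ : E) (hO : Bdd D Δ O) (hθ : ∀ j s, Δ * θ j s ∈ O)
    (hrow : ∀ i ∉ Z, RowBdd D Δ O x (form (a i)) 1 0) (hnul : Nul bl p Y O Δ x)
    (j₀ : σ) (hj : x j₀ ≠ 0) (hjO : ∀ l, x l / x j₀ ∈ O) :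
    ∃ N : E, (Δ ^ 2) ^ Fintype.card (Option K ⊕ S) * N ∈ O ∧
      Matrix.det (Matrix.of fun s t => colU n a D θ Z fs S x i₀
        (fun t => if sp (bl t) then (form (p t) x)⁻¹ else 1) id t (ρ s)) *
        x j₀ ^ (∑ t : S, if sp (bl t) then d (bl t) else n t + 1) =
        x j₀ ^ (nx ρ + Fintype.card K) * N := by
  have hf' : ∀ i, ∃ t, sp i → bl t = i ∧ form (p t) (fun l => x l / x j₀) ≠ 0 ∧
      Δ * (form (p t) fun l => x l / x j₀)⁻¹ ∈ O := by
    intro i
    by_cases hsp : sp i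
    · obtain ⟨t, ht⟩ := hnul i (hspY i hsp) j₀ hj hjO
      exact ⟨t, fun _ => ht⟩
    · obtain ⟨t, _⟩ := hSne i
      exact ⟨t, fun h => absurd h hsp⟩
  choose f hf using hf'
  have hgO : ∀ t : S, Δ * (if sp (bl t) then (form (p (f (bl t))) fun l => x l / x j₀)⁻¹
      else 1) ∈ O := by
    intro t
    by_cases hsp : sp (bl t)
    · rw [if_pos hsp]
      exact (hf (bl t) hsp).2.2
    · rw [if_neg hsp, mul_one]
      exact hO.1
  refine det_estU O Δ (x j₀) ρ
    (Sum.elim (Sum.elim (fun _ => x j₀) (fun _ => 1)) (fun _ => 1))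
    (colU n a D θ Z fs S x i₀ (fun t => if sp (bl t) then (form (p t) x)⁻¹ else 1) id)
    (colU n a D θ Z fs S (fun l => x l / x j₀) j₀
        (fun t => if sp (bl t) then (form (p (f (bl t))) fun l => x l / x j₀)⁻¹ else 1)
        (fun t => if sp (bl t) then f (bl t) else t)) (rkU K S r)
    (gU K S (fun t => if sp (bl t) then d (bl t) else n t + 1) (x j₀)) (nx ρ) ?_ ?_
    _ (Fintype.card K) (prod_gU S _ (x j₀) hj) ?_
  · rw [nx, ← Finset.prod_const, Finset.prod_filter]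
    refine Finset.prod_congr rfl fun s _ => ?_
    rcases h : ρ s with (l | i) | j <;> simp
  · intro t
    have h1 := trans_memO bl p hdeg fs hbsp hU i₀ hx j₀ hj r S hF2 hF3 lam hV hC sp hone hne
      f (fun i hi => ⟨(hf i hi).1, (hf i hi).2.1⟩) t
    obtain ⟨F, hF0, hFs⟩ := exists_coef _ _ h1
    refine ⟨F + Pi.single t (gU K S (fun t => if sp (bl t) then d (bl t) else n t + 1) (x j₀) t),
      ?_, ?_, ?_⟩
    · intro r'
      have h2 := congrFun hFs r'
      rw [Finset.sum_apply] at h2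
      simp only [Pi.smul_apply, Pi.sub_apply, smul_eq_mul, phi_apply] at h2
      simp only [Pi.add_apply, add_mul, Finset.sum_add_distrib]
      rw [h2, Finset.sum_eq_single t]
      · rw [Pi.single_eq_same]
        exact (sub_add_cancel _ _).symm
      · intro t' _ ht'
        rw [Pi.single_eq_of_ne ht', zero_mul]
      · intro h
        exact absurd (Finset.mem_univ t) h
    · rw [Pi.add_apply, Pi.single_eq_same, hF0 t (fun h => lt_irrefl (rkU K S r t) h), zero_add]
    · intro t' ht' hrk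
      rw [Pi.add_apply, Pi.single_eq_of_ne ht', hF0 t' (fun h => absurd h (not_lt.2 hrk)),
        zero_add]
  · intro s t
    refine entry_memU fs S j₀ _ _ O Δ hgO _ hjO hO hθ (ρ s) (fun i hi => ?_) t
    obtain ⟨_, h2⟩ := hrow i (hρZ s i hi) j₀ hj hjO
    refine ⟨hρZ s i hi, fun p => ?_⟩
    have h3 := h2 p
    rwa [pow_zero, div_one, one_mul] at h3

end Pool.Agent.Helper6.CT
end
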