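import Pool.Agent.Helper12.LVM.C07
import Pool.Agent.Helper12.LVM.B03
import Pool.Agent.Helper12.LVM.B04

/- Helper12.LVF.H8.CO.Rigid -/
section
/-! # CO-RIGID: rigidity along constants -/

set_option autoImplicit false

namespace Pool.Agent.Helper8.CO

open Pool.Agent.Helper8.LG Pool.Agent.Helper8.LV Pool.Agent.Helper6.CO

open scoped BigOperators

section RigidAux

variable {E : Type*} [Field E]

/-- One side: `G x_l` is integral over `E₀[t]`. -/
theorem rg_side [CharZero E] {σ ι κ τ P : Type*} [Fintype σ] [DecidableEq σ] [Fintype ι]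
    [DecidableEq ι] [Fintype τ] (bl : κ → ι) (b q : κ → ℕ) (d q₀ e m : ι → ℕ)
    (a : (i : ι) → Sym σ (d i) → E) (ap : (t : κ) → Sym σ (b t) → E)
    (D : P → Derivation ℤ E E) (θ : τ → P → E) (Z C Y : Finset ι) (w cc : ℕ)
    (hnum : NumC bl q d q₀ e m Z C Y w cc)
    (x : σ → E) (y : ι → E) (hU : ∀ i ∉ Z, form (a i) x ≠ 0)
    (hroot : ∀ i ∈ C, y i ^ m i = form (a i) x)
    (E₀ : Subfield E) (t : E) (ht : Transcendental E₀ t)
    (hfin : FiniteDimensional (Subfield.closure ((E₀ : Set E) ∪ {t})) E)
    (hstab : ∀ p, ∀ f ∈ intCl E₀ t, D p f ∈ intCl E₀ t)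
    (ha : ∀ i J, a i J ∈ E₀) (hθ : ∀ j s, θ j s ∈ E₀) {n : ℕ} (c : Fin n → E) (hDc : ∀ p r, D p (c r) = 0)
    (hc : ∀ O : ValuationSubring E, (∀ f ∈ E₀, f ∈ O) → (∀ r, c r ∈ O) →
      ∀ i ∉ Z, i ∉ C → ∀ J : Sym σ (d i), mon x J / form (a i) x ∈ O)
    (hN : ∀ O : ValuationSubring E, (∀ f ∈ E₀, f ∈ O) → Nul bl ap Y O 1 x)
    (G : E) (hG : KeyC bl d e a ap D θ Z Y (uu C y) x G) (l : σ) : G * x l ∈ intCl E₀ t := by
  obtain ⟨h1, h2⟩ := intCl_dedekind E₀ t ht hfin
  haveI := h1
  haveI := h2
  have hE₀R : ∀ f ∈ E₀, f ∈ intCl E₀ t := fun f hf =>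
    rg_mem_intCl E₀ t (Subring.subset_closure (Or.inl hf))
  have hQ : ∀ n : ℕ, n ≠ 0 → ((n : E))⁻¹ ∈ intCl E₀ t := fun n _ =>
    hE₀R _ (inv_mem (natCast_mem E₀ n))
  apply mem_of (intCl E₀ t)
  intro O hO
  have hE₀O : ∀ f ∈ E₀, f ∈ O := fun f hf => hO (hE₀R f hf)
  have hbdd : Bdd D 1 O := bdd_of (intCl E₀ t) D 1 (one_mem _)
    (fun p f hf => by rw [one_mul]; exact hstab p f hf) O hO
  have hDO : ∀ p, ∀ f ∈ O, D p f ∈ O := fun p f hf => by
    have := hbdd.2 p f hf
    rwa [one_mul] at this
  have hrow : ∀ i ∉ Z, RowBdd D 1 O x (form (a i)) (uu C y i) (e i) := by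
    intro i hiZ j hj hprim
    have hform := rg_form_div (a i) x (x j)
    have hform0 : form (a i) (fun l => x l / x j) ≠ 0 := by
      rw [hform]
      exact div_ne_zero (hU i hiZ) (pow_ne_zero _ hj)
    have hformO : form (a i) (fun l => x l / x j) ∈ O := by
      unfold form
      refine sum_mem fun J _ => mul_mem (hE₀O _ (ha i J)) ?_
      unfold mon
      refine multiset_prod_mem _ fun z hz => ?_
      obtain ⟨l, -, rfl⟩ := Multiset.mem_map.1 hz
      exact hprim l
    simp only [one_mul]
    by_cases hiC : i ∈ C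
    · have hu : uu C y i = y i := by unfold uu; rw [if_pos hiC]
      rw [hu]
      have hdeg := hnum.deg i hiC
      have hm : 0 < m i := by
        rcases Nat.eq_zero_or_pos (m i) with h | h
        · have := hnum.pos i
          rw [hdeg, h, zero_mul] at this
          exact absurd this (lt_irrefl 0)
        · exact h
      have hyt : (y i / x j ^ e i) ^ m i = form (a i) (fun l => x l / x j) := by
        have h3 : x j ^ (e i * m i) = x j ^ d i := by rw [hdeg, mul_comm]
        rw [hform, div_pow, hroot i hiC, ← pow_mul, h3]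
      have hytO : y i / x j ^ e i ∈ O := rg_mem_of_pow O hm (by rw [hyt]; exact hformO)
      refine ⟨hytO, fun p => ?_⟩
      have hyt0 : y i / x j ^ e i ≠ 0 := by
        intro h
        rw [h, zero_pow hm.ne'] at hyt
        exact hform0 hyt.symm
      obtain ⟨r, hr⟩ : ∃ r, m i = r + 1 := ⟨m i - 1, by omega⟩
      have hder : y i / x j ^ e i * (D p (form (a i) fun l => x l / x j) /
          form (a i) fun l => x l / x j) = (m i : E) * D p (y i / x j ^ e i) := by
        rw [← hyt, hr]
        exact rg_log (D p) hyt0 r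
      rw [hder]
      exact mul_mem (natCast_mem O _) (hDO p _ hytO)
    · have hu : uu C y i = 1 := by unfold uu; rw [if_neg hiC]
      rw [hu, hnum.e0 i hiC, pow_zero, div_one]
      refine ⟨one_mem O, fun p => ?_⟩
      rw [one_mul]
      by_cases hcO : ∀ r, c r ∈ O
      · have h3 := hc O hE₀O hcO i hiZ hiC (Sym.replicate (d i) j)
        rw [rg_mon_replicate] at h3
        have h4 : x j ^ d i / form (a i) x = (form (a i) fun l => x l / x j)⁻¹ := by
          rw [hform, inv_div]
        rw [h4] at h3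
        rw [div_eq_mul_inv]
        exact mul_mem (hDO p _ hformO) h3
      · push Not at hcO
        obtain ⟨r, hr⟩ := hcO
        have hr0 : c r ≠ 0 := by
          intro h
          rw [h] at hr
          exact hr (zero_mem O)
        have h3 := log_of (intCl E₀ t) hQ D O hO 1 hbdd (c r) hr0 (Or.inl hr)
          (fun p => by rw [hDc, zero_div, mul_zero]; exact zero_mem O) _ hform0 p
        rwa [one_mul] at h3
  have h5 := hG O 1 hbdd (fun j s => by rw [one_mul]; exact hE₀O _ (hθ j s)) hrow
    (hN O hE₀O) l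
  rwa [one_pow, one_mul] at h5

end RigidAux

theorem rigid {k L E : Type*} [Field k] [Field L] [Field E] [CharZero E] [Algebra k L]
    [Algebra L E] [Algebra k E] [IsScalarTower k L E] {n : ℕ} (c : Fin n → E)
    (hgen : IntermediateField.adjoin L (Set.range c) = ⊤) (B : Set (Fin n))
    (hB : AlgebraicIndependent L (fun b : B => c b))
    (halg : ∀ r, IsAlgebraic (IntermediateField.adjoin k (c '' B)) (c r))
    {σ ι κ τ : Type*} [Fintype σ] [DecidableEq σ] [Fintype ι] [DecidableEq ι] [Fintype κ]
    [DecidableEq κ] [Fintype τ] (bl : κ → ι) (bd q : κ → ℕ)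
    (d q₀ e m : ι → ℕ) (a : (i : ι) → Sym σ (d i) → L) (p : (t : κ) → Sym σ (bd t) → L)
    (h : (t : κ) → Sym σ (q t) → L) (F₀ : (i : ι) → Sym σ (d i) → MvPolynomial (Ix σ q) k)
    (hF : Fam k bl d bd q a p h F₀)
    (D : Ix σ q → Derivation ℤ E E) (jj : τ → Ix σ q) (θ : τ → Ix σ q → L)
    (hD : Dual q (fun i J => algebraMap L E (h i J)) D jj fun j s => algebraMap L E (θ j s))
    (hDL : ∀ p b, ∃ b', D p (algebraMap L E b) = algebraMap L E b')
    (hDk : ∀ p (b : k), D p (algebraMap k E b) = 0)
    (hDc : ∀ p r, D p (c r) = 0)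
    (Z C Y : Finset ι) (w : ℕ) (hnum : NumC bl q d q₀ e m Z C Y w (Fintype.card τ))
    (hNP : NulP bl p Y)
    (x : σ → E) (y : ι → E) (i₀ : σ) (hx : x i₀ = 1)
    (hZ : ∀ i ∈ Z, form (fun J => algebraMap L E (a i J)) x = 0)
    (hU : ∀ i ∉ Z, form (fun J => algebraMap L E (a i J)) x ≠ 0)
    (hP : ∀ i, ∃ t, bl t = i ∧ form (fun J => algebraMap L E (p t J)) x ≠ 0)
    (hint : ∀ i ∉ Z, i ∉ C → ∀ J : Sym σ (d i),
      mon x J / form (fun J => algebraMap L E (a i J)) x ∈ Algebra.adjoin L (Set.range c))
    (hroot : ∀ i ∈ C, y i ^ m i = form (fun J => algebraMap L E (a i J)) x)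
    (hm : MinorsVanish D x w) :
    ∀ l, IsAlgebraic L (x l) := by
  classical
  -- the key lemma
  have hu : ∀ i ∉ Z, uu C y i ≠ 0 := by
    intro i hiZ
    unfold uu
    split_ifs with hiC
    · intro h
      have hdeg := hnum.deg i hiC
      have hm0 : m i ≠ 0 := by
        intro h'
        have := hnum.pos i
        rw [hdeg, h', zero_mul] at this
        exact absurd this (lt_irrefl 0)
      have h1 := hroot i hiC
      rw [h, zero_pow hm0] at h1
      exact hU i hiZ h1.symm
    · exact one_ne_zero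
  have hmov : Mov bl d bd q (fun i J => algebraMap L E (a i J))
      (fun t J => algebraMap L E (p t J)) (fun t J => algebraMap L E (h t J)) D :=
    fam_mov (fam_map hF (IsScalarTower.toAlgHom k L E)) D hDk
  obtain ⟨S₀, -, hNb⟩ := nul_bound (E := E) bl p Y hNP
  obtain ⟨G, hG0, hG⟩ := key bl d e q₀ bd q
    (fun t => (hnum.posq (bl t)).trans_le (hnum.le t)) hnum.le (fun i J => algebraMap L E (a i J))
    (fun t J => algebraMap L E (p t J))
    (fun t J => algebraMap L E (h t J)) D jj
    (fun j s => algebraMap L E (θ j s)) hD hmov Z Y x i₀ hx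
    hZ hU hP (uu C y) hu w hnum.ineq hm
  -- the field `F = E₀(t)`
  have hrange : (Set.range fun b : B => c b) = c '' B := by
    ext z
    constructor
    · rintro ⟨b, rfl⟩
      exact ⟨b, b.2, rfl⟩
    · rintro ⟨b, hb, rfl⟩
      exact ⟨⟨b, hb⟩, rfl⟩
  have halgF : ∀ (F : Subfield E), (∀ b : k, algebraMap k E b ∈ F) → (∀ b ∈ B, c b ∈ F) →
      ∀ r, IsAlgebraic F (c r) := by
    intro F hkF hBF r
    refine rg_alg (R₁ := IntermediateField.adjoin k (c '' B)) (fun s => ?_) (halg r)
    have h1 : (IntermediateField.adjoin k (c '' B)).toSubfield ≤ F := by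
      rw [IntermediateField.adjoin_toSubfield, Subfield.closure_le]
      rintro z (⟨b, rfl⟩ | ⟨b, hb, rfl⟩)
      · exact hkF b
      · exact hBF b hb
    exact ⟨⟨s, h1 s.2⟩, rfl⟩
  have hfinF : ∀ (F : Subfield E), (∀ b : L, algebraMap L E b ∈ F) → (∀ b ∈ B, c b ∈ F) →
      FiniteDimensional F E := by
    intro F hLF hBF
    have hkF : ∀ b : k, algebraMap k E b ∈ F := fun b => by
      rw [IsScalarTower.algebraMap_apply k L E]
      exact hLF _
    have h1 : FiniteDimensional F (IntermediateField.adjoin F (Set.range c)) :=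
      IntermediateField.finiteDimensional_adjoin (by
        rintro z ⟨r, rfl⟩
        exact (halgF F hkF hBF r).isIntegral)
    have h2 : IntermediateField.adjoin F (Set.range c) = ⊤ := by
      rw [eq_top_iff]
      intro z _
      have hz : z ∈ IntermediateField.adjoin L (Set.range c) := by rw [hgen]; trivial
      have h3 : (IntermediateField.adjoin L (Set.range c)).toSubfield ≤
          (IntermediateField.adjoin F (Set.range c)).toSubfield := by
        rw [IntermediateField.adjoin_toSubfield, Subfield.closure_le]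
        rintro z (⟨b, rfl⟩ | hz)
        · exact (IntermediateField.adjoin F (Set.range c)).algebraMap_mem ⟨_, hLF b⟩
        · exact IntermediateField.subset_adjoin F _ hz
      exact h3 hz
    rw [h2] at h1
    exact Module.Finite.equiv (IntermediateField.topEquiv (F := F) (E := E)).toLinearEquiv
  intro l
  refine exchange (fun b : B => c b) hB (x l) ?_ fun b => ?_
  · -- algebraic over `L(c_B)`
    have h1 := hfinF (IntermediateField.adjoin L (Set.range fun b : B => c b)).toSubfield
      (fun b => (IntermediateField.adjoin L (Set.range fun b : B => c b)).algebraMap_mem b)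
      (fun b hb => IntermediateField.subset_adjoin L _ ⟨⟨b, hb⟩, rfl⟩)
    have h2 : IsAlgebraic (IntermediateField.adjoin L (Set.range fun b : B => c b)).toSubfield
        (x l) := Algebra.IsAlgebraic.isAlgebraic (x l)
    exact rg_alg (fun s => ⟨⟨s, s.2⟩, rfl⟩) h2
  · -- algebraic over `L(c_(B - b))`
    set S₀ : Set E := (fun b : B => c b) '' {b}ᶜ with hS₀
    set E₀ : Subfield E := (IntermediateField.adjoin L S₀).toSubfield with hE₀
    have hE₀cl : E₀ = Subfield.closure (Set.range (algebraMap L E) ∪ S₀) :=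
      IntermediateField.adjoin_toSubfield L S₀
    have hLE₀ : ∀ z : L, algebraMap L E z ∈ E₀ := fun z =>
      (IntermediateField.adjoin L S₀).algebraMap_mem z
    have hSE₀ : ∀ z ∈ S₀, z ∈ E₀ := fun z hz => IntermediateField.subset_adjoin L _ hz
    have hcE₀ : ∀ b' ∈ B, b' ≠ b → c b' ∈ E₀ := fun b' hb' hne => by
      refine hSE₀ _ ⟨⟨b', hb'⟩, ?_, rfl⟩
      intro h
      apply hne
      rw [Set.mem_singleton_iff] at h
      rw [← h]
    have htr : Transcendental E₀ (c b) := by
      have h1 : Transcendental (Algebra.adjoin L S₀) (c b) :=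
        hB.transcendental_adjoin (s := {b}ᶜ) (i := b) (fun h => h rfl)
      have h2 := (IntermediateField.transcendental_adjoin_iff (F := L) (s := S₀)).2 h1
      intro h3
      exact h2 (rg_alg (fun s => ⟨⟨s, s.2⟩, rfl⟩) h3)
    -- the derivations
    have hDE₀ : ∀ p, ∀ f ∈ E₀, D p f ∈ E₀ := by
      intro p
      rw [hE₀cl]
      apply rg_stable
      rintro f (⟨z, rfl⟩ | hf)
      · obtain ⟨z', hz'⟩ := hDL p z
        rw [hz']
        exact Subfield.subset_closure (Or.inl ⟨z', rfl⟩)
      · obtain ⟨b', -, rfl⟩ := hf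
        show D p (c b') ∈ _
        rw [hDc]
        exact zero_mem _
    set k₀ : Subfield E := (IntermediateField.adjoin k S₀).toSubfield with hk₀
    have hk₀cl : k₀ = Subfield.closure (Set.range (algebraMap k E) ∪ S₀) :=
      IntermediateField.adjoin_toSubfield k S₀
    have hk₀E₀ : k₀ ≤ E₀ := by
      rw [hk₀cl, Subfield.closure_le]
      rintro z (⟨z, rfl⟩ | hz)
      · rw [IsScalarTower.algebraMap_apply k L E]
        exact hLE₀ _
      · exact hSE₀ z hz
    have hDk₀ : ∀ p, ∀ f ∈ k₀, D p f = 0 := by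
      intro p
      rw [hk₀cl]
      apply rg_kill
      rintro f (⟨z, rfl⟩ | hf)
      · exact hDk p z
      · obtain ⟨b', -, rfl⟩ := hf
        exact hDc p b'
    -- both sides
    have hside : ∀ t : E, (t = c b ∨ t = (c b)⁻¹) → Transcendental E₀ t ∧
        FiniteDimensional (Subfield.closure ((E₀ : Set E) ∪ {t})) E ∧
        ∀ l, G * x l ∈ intCl E₀ t := by
      intro t ht
      have htc : c b ∈ Subfield.closure ({t} : Set E) := by
        rcases ht with h | h
        · rw [← h]
          exact Subfield.subset_closure rfl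
        · have h1 : c b = t⁻¹ := by rw [h, inv_inv]
          rw [h1]
          exact inv_mem (Subfield.subset_closure rfl)
      have htt : Transcendental E₀ t := by
        rcases ht with h | h
        · rw [h]
          exact htr
        · rw [h]
          intro h1
          exact htr (by simpa using h1.inv)
      have hF1 : ∀ z : L, algebraMap L E z ∈ Subfield.closure ((E₀ : Set E) ∪ {t}) := fun z =>
        Subfield.subset_closure (Or.inl (hLE₀ z))
      have hF2 : ∀ b' ∈ B, c b' ∈ Subfield.closure ((E₀ : Set E) ∪ {t}) := by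
        intro b' hb'
        by_cases hne : b' = b
        · rw [hne]
          exact Subfield.closure_mono (Set.subset_union_right) htc
        · exact Subfield.subset_closure (Or.inl (hcE₀ b' hb' hne))
      have hfin := hfinF _ hF1 hF2
      refine ⟨htt, hfin, ?_⟩
      have hDt : ∀ p, D p t = 0 := by
        intro p
        rcases ht with h | h
        · rw [h]
          exact hDc p b
        · rw [h, (D p).leibniz_inv, hDc, smul_zero]
      have hstab := intCl_stable E₀ t D hDE₀ hDt k₀ hk₀E₀ hDk₀ (Set.range c)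
        (Set.finite_range c) (by rintro p z ⟨r, rfl⟩; exact hDc p r) (by
          rintro z ⟨r, rfl⟩
          refine halgF _ (fun z => ?_) (fun b' hb' => ?_) r
          · exact Subfield.subset_closure
              (Or.inl ((IntermediateField.adjoin k S₀).algebraMap_mem z))
          · by_cases hne : b' = b
            · rw [hne]
              exact Subfield.closure_mono (Set.subset_union_right) htc
            · refine Subfield.subset_closure (Or.inl ?_)
              refine IntermediateField.subset_adjoin k S₀ ⟨⟨b', hb'⟩, ?_, rfl⟩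
              intro h
              apply hne
              rw [Set.mem_singleton_iff] at h
              rw [← h]) (by
          rw [eq_top_iff]
          intro z _
          have hz : z ∈ (IntermediateField.adjoin L (Set.range c)).toSubfield := by
            rw [hgen]; trivial
          rw [IntermediateField.adjoin_toSubfield] at hz
          refine Subfield.closure_mono ?_ hz
          rintro z (⟨z, rfl⟩ | hz)
          · exact Or.inl (Or.inl (hLE₀ z))
          · exact Or.inr hz)
      intro l
      refine rg_side bl bd q d q₀ e m (fun i J => algebraMap L E (a i J))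
        (fun t J => algebraMap L E (p t J)) D
        (fun j s => algebraMap L E (θ j s)) Z C Y w _ hnum x y hU hroot E₀ t
        htt hfin hstab (fun i J => hLE₀ _) (fun j s => hLE₀ _) c hDc ?_ (fun O hO =>
          hNb (algebraMap L E) O 1 (fun s _ => by rw [one_mul]; exact hO _ (hLE₀ s)) x) G hG l
      intro O hO1 hO2 i hiZ hiC J
      have h1 := hint i hiZ hiC J
      have h2 : (Algebra.adjoin L (Set.range c)).toSubring ≤ O.toSubring := by
        rw [Algebra.adjoin_eq_ring_closure, Subring.closure_le]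
        rintro z (⟨z, rfl⟩ | ⟨r, rfl⟩)
        · exact hO1 _ (hLE₀ z)
        · exact hO2 r
      exact h2 h1
    obtain ⟨ht1, hfin1, h1⟩ := hside (c b) (Or.inl rfl)
    obtain ⟨-, -, h2⟩ := hside (c b)⁻¹ (Or.inr rfl)
    have hGx : ∀ l, IsAlgebraic E₀ (G * x l) := fun l =>
      algebraic_of_mem E₀ (c b) ht1 hfin1 (G * x l) (h1 l) (h2 l)
    have hGa : IsAlgebraic E₀ G := by
      have := hGx i₀
      rwa [hx, mul_one] at this
    have hxl : IsAlgebraic E₀ (x l) := by
      have h3 : x l = (G * x l) * G⁻¹ := by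
        field_simp
      rw [h3]
      exact (hGx l).mul hGa.inv
    exact rg_alg (fun s => ⟨⟨s, s.2⟩, rfl⟩) hxl

end Pool.Agent.Helper8.CO
end

/- Helper12.LVF.H8.CO.UltraCore -/
section
/-! # CO-ULTRA: the ultrapower argument inside a large field -/

set_option autoImplicit false

namespace Pool.Agent.Helper8.CO

open Pool.Agent.Helper8.LG Pool.Agent.Helper8.LV Pool.Agent.Helper6.CO

open scoped BigOperators

theorem ul_core {k L Ω : Type*} [Field k] [Field L] [Field Ω] [CharZero Ω] [Algebra k L]
    [Algebra L Ω] [Algebra k Ω] [IsScalarTower k L Ω]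
    (K : Subring Ω) (hkK : ∀ b : k, algebraMap k Ω b ∈ K) (hLD : UlDisj k (L := L) K)
    {n : ℕ} (c : Fin n → Ω) (hcK : ∀ r, c r ∈ K)
    {σ ι κ τ : Type*} [Fintype σ] [DecidableEq σ] [Fintype ι] [DecidableEq ι] [Fintype κ]
    [DecidableEq κ] [Fintype τ] (bl : κ → ι) (bd q : κ → ℕ)
    (d q₀ e m : ι → ℕ) (a : (i : ι) → Sym σ (d i) → L) (ap : (t : κ) → Sym σ (bd t) → L)
    (h : (t : κ) → Sym σ (q t) → L) (F₀ : (i : ι) → Sym σ (d i) → MvPolynomial (Ix σ q) k)
    (hFam : Fam k bl d bd q a ap h F₀)
    (D : Ix σ q → Derivation ℤ Ω Ω) (jj : τ → Ix σ q) (θ : τ → Ix σ q → L)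
    (hD : Dual q (fun i J => algebraMap L Ω (h i J)) D jj fun j s => algebraMap L Ω (θ j s))
    (hDL : ∀ p b, ∃ b', D p (algebraMap L Ω b) = algebraMap L Ω b')
    (hDk : ∀ p (b : k), D p (algebraMap k Ω b) = 0)
    (hDc : ∀ p r, D p (c r) = 0)
    (Z C Y : Finset ι) (w : ℕ) (hnum : NumC bl q d q₀ e m Z C Y w (Fintype.card τ))
    (hNP : NulP bl ap Y)
    (x : σ → Ω) (y : ι → Ω) (i₀ : σ) (hx : x i₀ = 1) (G : Ω) (hG : G ≠ 0)
    (hGx : ∀ l, G * x l ∈ Algebra.adjoin L (Set.range c))
    (hZ : ∀ i ∈ Z, form (fun J => algebraMap L Ω (a i J)) x = 0)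
    (hU : ∀ i ∉ Z, form (fun J => algebraMap L Ω (a i J)) x ≠ 0)
    (hP : ∀ i, ∃ t, bl t = i ∧ form (fun J => algebraMap L Ω (ap t J)) x ≠ 0)
    (hint : ∀ i ∉ Z, i ∉ C → ∀ J : Sym σ (d i),
      mon x J / form (fun J => algebraMap L Ω (a i J)) x ∈ Algebra.adjoin L (Set.range c))
    (hroot : ∀ i ∈ C, y i ^ m i = form (fun J => algebraMap L Ω (a i J)) x)
    (hGy : ∀ i ∈ C, G ^ e i * y i ∈ Algebra.adjoin L (Set.range c))
    (hm : MinorsVanish D x w) :
    ∀ l, IsAlgebraic L (x l) := by
  classical
  set F : IntermediateField L Ω := IntermediateField.adjoin L (Set.range c) with hF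
  have hsub : ∀ z ∈ Algebra.adjoin L (Set.range c), z ∈ F := fun z hz =>
    IntermediateField.algebra_adjoin_le_adjoin L _ hz
  have hFcl : F.toSubfield = Subfield.closure (Set.range (algebraMap L Ω) ∪ Set.range c) :=
    IntermediateField.adjoin_toSubfield L _
  -- the generators
  set c' : Fin n → F := fun r => ⟨c r, IntermediateField.subset_adjoin L _ ⟨r, rfl⟩⟩ with hc'
  have himg : ∀ B : Set (Fin n), (F.val : F → Ω) '' (c' '' B) = c '' B := by
    intro B
    rw [← Set.image_comp]
    rfl
  have hrange : (F.val : F → Ω) '' (Set.range c') = Set.range c := by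
    rw [← Set.image_univ, himg, Set.image_univ]
  have hgen : IntermediateField.adjoin L (Set.range c') = ⊤ := by
    apply IntermediateField.lift_injective F
    rw [IntermediateField.lift_adjoin, IntermediateField.lift_top]
    have h1 : (Subtype.val : F → Ω) '' (Set.range c') = Set.range c := hrange
    rw [h1]
  obtain ⟨B, hB1, hB2⟩ := ul_basis (k := k) c'
  have hB3 : AlgebraicIndependent k (fun b : B => c b) :=
    (AlgHom.algebraicIndependent_iff (x := fun b : B => c' b) ((F.val).restrictScalars k)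
      Subtype.val_injective).2 hB1
  have hB4 : AlgebraicIndependent L (fun b : B => c b) :=
    ul_algInd K hkK hLD _ (fun b => hcK b) hB3
  have hB5 : AlgebraicIndependent L (fun b : B => c' b) :=
    (AlgHom.algebraicIndependent_iff (x := fun b : B => c' b) F.val Subtype.val_injective).1 hB4
  have halg : ∀ r, IsAlgebraic (IntermediateField.adjoin k (c' '' B)) (c' r) := by
    intro r
    have h1 := hB2 r
    obtain ⟨p, hp0, hp⟩ := h1
    set φ : Algebra.adjoin k (c' '' B) →+* IntermediateField.adjoin k (c' '' B) :=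
      { toFun := fun z => ⟨z, IntermediateField.algebra_adjoin_le_adjoin k _ z.2⟩
        map_one' := rfl
        map_mul' := fun _ _ => rfl
        map_zero' := rfl
        map_add' := fun _ _ => rfl } with hφ
    have hφi : Function.Injective φ := by
      intro u v huv
      apply Subtype.ext
      exact congrArg (fun z : IntermediateField.adjoin k (c' '' B) => (z : F)) huv
    refine ⟨p.map φ, ?_, ?_⟩
    · rwa [Ne, Polynomial.map_eq_zero_iff hφi]
    · rw [Polynomial.aeval_def, Polynomial.eval₂_map]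
      exact hp
  -- the derivations
  have hst : ∀ p, ∀ f ∈ F, D p f ∈ F := by
    intro p f hf
    have hf' : f ∈ F.toSubfield := hf
    rw [hFcl] at hf'
    have h1 := rg_stable (D p) (Set.range (algebraMap L Ω) ∪ Set.range c) ?_ f hf'
    · rw [← hFcl] at h1
      exact h1
    · rintro g (⟨z, rfl⟩ | ⟨r, rfl⟩)
      · obtain ⟨z', hz'⟩ := hDL p z
        rw [hz']
        exact Subfield.subset_closure (Or.inl ⟨z', rfl⟩)
      · rw [hDc]
        exact zero_mem _
  set δ : Ix σ q → Derivation ℤ F F := fun p =>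
    Derivation.mk' (AddMonoidHom.toIntLinearMap
      { toFun := fun f => (⟨D p f, hst p f f.2⟩ : F)
        map_zero' := Subtype.ext (map_zero (D p))
        map_add' := fun f g => Subtype.ext (map_add (D p) (f : Ω) g) })
      (fun f g => Subtype.ext ((D p).leibniz (f : Ω) g)) with hδ
  have hδv : ∀ p (f : F), ((δ p f : F) : Ω) = D p f := fun p f => rfl
  have hamap : ∀ b : L, ((algebraMap L F b : F) : Ω) = algebraMap L Ω b := fun b => rfl
  -- the point
  have hxF : ∀ l, x l ∈ F := by
    intro l
    have h1 : G ∈ F := by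
      have := hsub _ (hGx i₀)
      rwa [hx, mul_one] at this
    have h2 : x l = G * x l / G := by field_simp
    rw [h2]
    exact div_mem (hsub _ (hGx l)) h1
  have hyF : ∀ i ∈ C, y i ∈ F := by
    intro i hi
    have h1 : G ∈ F := by
      have := hsub _ (hGx i₀)
      rwa [hx, mul_one] at this
    have h2 : y i = G ^ e i * y i / G ^ e i := by (clear * - hG; field_simp)
    rw [h2]
    exact div_mem (hsub _ (hGy i hi)) (pow_mem h1 _)
  set x' : σ → F := fun l => ⟨x l, hxF l⟩ with hx'
  set y' : ι → F := fun i => if hi : i ∈ C then ⟨y i, hyF i hi⟩ else 0 with hy'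
  have hform : ∀ i, ((form (fun J => algebraMap L F (a i J)) x' : F) : Ω) =
      form (fun J => algebraMap L Ω (a i J)) x := fun i =>
    ul_map_form (F.val : F →+* Ω) _ _
  have hmon : ∀ {r : ℕ} (J : Sym σ r), ((mon x' J : F) : Ω) = mon x J := fun J =>
    ul_map_mon (F.val : F →+* Ω) _ _
  have hcz : CharZero F := inferInstance
  intro l
  have key := rigid (k := k) (L := L) (E := F) c' hgen B hB5 halg bl bd q d q₀ e m a ap h F₀ hFam
    δ jj θ ?_ ?_ ?_ ?_ Z C Y w hnum hNP x' y' i₀ (Subtype.ext hx) ?_ ?_ ?_ ?_ ?_ ?_ l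
  · exact key.algHom F.val
  · intro s q
    apply Subtype.ext
    have h1 := hD s q
    rw [hδv, hamap, h1]
    push_cast
    congr 1
    · split_ifs <;> rfl
    · refine Finset.sum_congr rfl fun j _ => ?_
      split_ifs <;> rfl
  · intro p b
    obtain ⟨b', hb'⟩ := hDL p b
    exact ⟨b', Subtype.ext hb'⟩
  · intro p b
    exact Subtype.ext (hDk p b)
  · intro p r
    exact Subtype.ext (hDc p r)
  · intro i hi
    exact Subtype.ext ((hform i).trans (hZ i hi))
  · intro i hi h0
    apply hU i hi
    rw [← hform i, h0]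
    rfl
  · intro i
    obtain ⟨t, ht, htP⟩ := hP i
    refine ⟨t, ht, fun h0 => ?_⟩
    apply htP
    have h1 : ((form (fun J => algebraMap L F (ap t J)) x' : F) : Ω) =
      form (fun J => algebraMap L Ω (ap t J)) x := ul_map_form (F.val : F →+* Ω) _ _
    rw [← h1, h0]
    rfl
  · intro i hi1 hi2 J
    have h1 := hint i hi1 hi2 J
    rw [← hrange, ← AlgHom.map_adjoin] at h1
    obtain ⟨z, hz1, hz2⟩ := h1
    have h2 : mon x' J / form (fun J => algebraMap L F (a i J)) x' = z := by
      apply Subtype.ext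
      have h3 : (z : Ω) = mon x J / form (fun J => algebraMap L Ω (a i J)) x := hz2
      rw [h3]
      push_cast
      rw [hmon, hform]
    rw [h2]
    exact hz1
  · intro i hi
    apply Subtype.ext
    have h1 : y' i = ⟨y i, hyF i hi⟩ := by rw [hy']; exact dif_pos hi
    rw [h1, hform i, ← hroot i hi]
    rfl
  · intro r s
    apply Subtype.ext
    have h1 := hm r s
    have h2 := RingHom.map_det (F.val : F →+* Ω) (Matrix.of fun s' t => col δ x' (s t) (r s'))
    have h3 : (F.val : F →+* Ω).mapMatrix (Matrix.of fun s' t => col δ x' (s t) (r s')) =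
        Matrix.of fun s' t => col D x (s t) (r s') := by
      ext s' t
      simp only [RingHom.mapMatrix_apply, Matrix.map_apply, Matrix.of_apply]
      rcases s t with _ | p
      · rfl
      · rfl
    rw [h3, h1] at h2
    exact h2

end Pool.Agent.Helper8.CO
end

/- Helper12.LVF.H8.CO.Ultra -/
section
/-! # CO-ULTRA: the ultrapower argument -/

set_option autoImplicit false

namespace Pool.Agent.Helper8.CO

open Pool.Agent.Helper8.LG Pool.Agent.Helper8.LV Pool.Agent.Helper6.CO

open scoped BigOperators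

theorem ultra {k L : Type*} [Field k] [Field L] [CharZero L] [Algebra k L]
    {σ ι κ τ : Type*} [Fintype σ] [DecidableEq σ] [Fintype ι] [DecidableEq ι] [Fintype κ]
    [DecidableEq κ] [Fintype τ] (bl : κ → ι) (bd q : κ → ℕ)
    (d q₀ e m : ι → ℕ) (a : (i : ι) → Sym σ (d i) → L) (ap : (t : κ) → Sym σ (bd t) → L)
    (ah : (t : κ) → Sym σ (q t) → L) (F₀ : (i : ι) → Sym σ (d i) → MvPolynomial (Ix σ q) k)
    (hFam : Fam k bl d bd q a ap ah F₀)
    (D : Ix σ q → Derivation ℤ L L) (jj : τ → Ix σ q) (θ : τ → Ix σ q → L)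
    (hD : Dual q ah D jj θ)
    (hDk : ∀ p (c : k), D p (algebraMap k L c) = 0)
    (Z C Y₀ : Finset ι) (i₀ : σ) (w : ℕ)
    (hnum : NumC bl q d q₀ e m Z C Y₀ w (Fintype.card τ)) (hNP : NulP bl ap Y₀)
    (V : Submodule k L) [FiniteDimensional k V] (S : Set (σ → L))
    (hS : ∀ x ∈ S, x i₀ = 1 ∧ (∀ i ∈ Z, form (a i) x = 0) ∧ (∀ i ∉ Z, form (a i) x ≠ 0) ∧
      (∀ i, ∃ t, bl t = i ∧ form (ap t) x ≠ 0) ∧ MinorsVanish D x w ∧ ∃ (y : ι → L) (G : L), G ≠ 0 ∧ (∀ l, G * x l ∈ V) ∧
        (∀ i ∉ Z, i ∉ C → ∀ J : Sym σ (d i), mon x J / form (a i) x ∈ V) ∧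
        (∀ i ∈ C, y i ^ m i = form (a i) x) ∧ ∀ i ∈ C, G ^ e i * y i ∈ V) :
    S.Finite := by
  classical
  by_contra hinf
  rw [← Set.Infinite] at hinf
  set X : ℕ → σ → L := fun m => (hinf.natEmbedding S m : σ → L) with hX
  have hXS : ∀ m, X m ∈ S := fun m => (hinf.natEmbedding S m).2
  have hXi : Function.Injective X := fun u v huv =>
    (hinf.natEmbedding S).injective (Subtype.ext huv)
  have hS' := fun m => hS (X m) (hXS m)
  choose hX0 hXZ hXU hXP hXm Y G hG0 hGx hint hroot hGy using hS'
  obtain ⟨Ω, instΩ, Q, hQ, hker⟩ := ul_exists L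
  let algLΩ : Algebra L Ω := (Q.comp (Pi.constRingHom ℕ L)).toAlgebra
  let algkΩ : Algebra k Ω := ((algebraMap L Ω).comp (algebraMap k L)).toAlgebra
  have : IsScalarTower k L Ω := IsScalarTower.of_algebraMap_eq fun _ => rfl
  have : CharZero Ω := charZero_of_injective_algebraMap (algebraMap L Ω).injective
  have halgL : ∀ b : L, algebraMap L Ω b = Q fun _ => b := fun _ => rfl
  have halgk : ∀ b : k, algebraMap k Ω b = Q fun _ => algebraMap k L b := fun _ => rfl
  -- the constants
  set K : Subring Ω := (Q.comp ((algebraMap k L).compLeft ℕ)).range with hK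
  have hQK : ∀ g : ℕ → k, Q (fun m => algebraMap k L (g m)) ∈ K := fun g => ⟨g, rfl⟩
  have hLD : UlDisj k (L := L) K := by
    intro J hJ T z hz hsum
    choose g hg using hz
    have hg' : ∀ b, Q (fun m => algebraMap k L (g b m)) = z b := fun b => hg b
    have h1 := ul_disj Q hker J hJ T g (by
      rw [← hsum]
      exact Finset.sum_congr rfl fun b _ => by rw [hg', halgL])
    intro b hb
    rw [← hg']
    exact h1 b hb
  -- the sequences
  set bV := Module.finBasis k V with hbV
  set r := Module.finrank k V with hr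
  set H : Type _ := σ ⊕ (Ix σ d) ⊕ ι with hH
  set h : H → ℕ → L := fun η m' => Sum.elim (fun l => G m' * X m' l)
    (Sum.elim (fun p : Ix σ d => if p.1 ∉ Z ∧ p.1 ∉ C then mon (X m') p.2 / form (a p.1) (X m')
      else 0) (fun i => if i ∈ C then G m' ^ e i * Y m' i else 0)) η with hh
  have hhV : ∀ η m', h η m' ∈ V := by
    rintro (l | p | i) m'
    · exact hGx m' l
    · show (if p.1 ∉ Z ∧ p.1 ∉ C then mon (X m') p.2 / form (a p.1) (X m') else 0) ∈ V
      split_ifs with hp
      · exact hint m' p.1 hp.1 hp.2 p.2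
      · exact V.zero_mem
    · show (if i ∈ C then G m' ^ e i * Y m' i else 0) ∈ V
      split_ifs with hi
      · exact hGy m' i hi
      · exact V.zero_mem
  set c₀ : H × Fin r → Ω := fun ηj => Q fun m' =>
    algebraMap k L (bV.repr ⟨h ηj.1 m', hhV ηj.1 m'⟩ ηj.2) with hc₀
  set eqv := (Fintype.equivFin (H × Fin r)).symm with heqv
  set c : Fin (Fintype.card (H × Fin r)) → Ω := fun s => c₀ (eqv s) with hc
  have hcmem : ∀ ηj, c₀ ηj ∈ Algebra.adjoin L (Set.range c) := fun ηj =>
    Algebra.subset_adjoin ⟨eqv.symm ηj, by rw [hc]; simp⟩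
  have hhc : ∀ η, Q (h η) ∈ Algebra.adjoin L (Set.range c) := by
    intro η
    have h1 : Q (h η) = ∑ j, algebraMap L Ω (bV j : L) * c₀ (η, j) := by
      have h2 : h η = ∑ j, (fun _ => (bV j : L)) *
          (fun m' => algebraMap k L (bV.repr ⟨h η m', hhV η m'⟩ j)) := by
        funext m'
        rw [Finset.sum_apply]
        have h3 := congrArg (Subtype.val : V → L) (bV.sum_repr ⟨h η m', hhV η m'⟩)
        rw [Submodule.coe_sum] at h3
        have h4 : ((⟨h η m', hhV η m'⟩ : V) : L) = h η m' := rfl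
        rw [h4] at h3
        rw [← h3]
        refine Finset.sum_congr rfl fun j _ => ?_
        show _ = (bV j : L) * algebraMap k L (bV.repr ⟨h η m', hhV η m'⟩ j)
        rw [Submodule.coe_smul, Algebra.smul_def, mul_comm]
      conv_lhs => rw [h2]
      rw [map_sum]
      exact Finset.sum_congr rfl fun j _ => by rw [map_mul]; rfl
    rw [h1]
    exact sum_mem fun j _ => mul_mem (Subalgebra.algebraMap_mem _ _) (hcmem _)
  -- the core
  have hform : ∀ i, form (fun J => algebraMap L Ω (a i J)) (fun l => Q fun m' => X m' l) =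
      Q fun m' => form (a i) (X m') := fun i => (ul_Q_form Q (a i) X).symm
  have hcore := ul_core (k := k) (L := L) K (fun b => by rw [halgk]; exact hQK fun _ => b) hLD c
    (fun s => hQK _) bl bd q d q₀ e m a ap ah F₀ hFam (fun p => ulDer Q hQ hker (D p)) jj θ
    ?_ ?_ ?_ ?_ Z C Y₀ w hnum hNP
    (fun l => Q fun m' => X m' l) (fun i => Q fun m' => Y m' i) i₀ ?_ (Q G) ?_ ?_ ?_ ?_ ?_ ?_ ?_ ?_ ?_
  · -- conclusion
    choose p hp0 hp using hcore
    have h1 : ∀ l, ∀ᶠ m' in (Filter.hyperfilter ℕ : Filter ℕ), (p l).eval (X m' l) = 0 := by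
      intro l
      rw [← hker (fun m' => (p l).eval (X m' l)), ul_Q_eval Q]
      exact hp l
    have h2 : ∀ᶠ m' in (Filter.hyperfilter ℕ : Filter ℕ), ∀ l, (p l).eval (X m' l) = 0 :=
      Filter.eventually_all.2 h1
    have h3 : ({m' : ℕ | ∀ l, (p l).eval (X m' l) = 0}).Finite := by
      have h4 : (Set.pi Set.univ fun l => {z : L | (p l).eval z = 0}).Finite :=
        Set.Finite.pi fun l => by
          refine ((p l).roots.toFinset.finite_toSet).subset fun z hz => ?_
          rw [Finset.mem_coe, Multiset.mem_toFinset, Polynomial.mem_roots (hp0 l)]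
          exact hz
      refine Set.Finite.of_finite_image (f := X) (h4.subset ?_) hXi.injOn
      rintro _ ⟨m', hm', rfl⟩ l -
      exact hm' l
    exact Filter.notMem_hyperfilter_of_finite h3 h2
  · intro s q
    show ulDer Q hQ hker (D s) (Q fun _ => ah q.1 q.2) = _
    rw [ulDer_apply]
    have h1 := hD s q
    have h2 : (Q fun _ => D s (ah q.1 q.2)) = algebraMap L Ω (D s (ah q.1 q.2)) := rfl
    rw [h2, h1, map_sub, map_sum]
    congr 1
    · split_ifs
      · rw [map_one]
      · rw [map_zero]
    · refine Finset.sum_congr rfl fun j _ => ?_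
      split_ifs
      · rfl
      · rw [map_zero]
  · intro p b
    exact ⟨D p b, ulDer_apply Q hQ hker (D p) _⟩
  · intro p b
    rw [halgk, ulDer_apply]
    rw [hker]
    exact Filter.Eventually.of_forall fun m' => hDk p b
  · intro p s
    show ulDer Q hQ hker (D p) (Q _) = 0
    rw [ulDer_apply, hker]
    exact Filter.Eventually.of_forall fun m' => hDk p _
  · show Q (fun m' => X m' i₀) = 1
    have h1 : (fun m' => X m' i₀) = 1 := by
      funext m'
      exact hX0 m'
    rw [h1, map_one]
  · intro h0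
    rw [hker] at h0
    obtain ⟨m', hm'⟩ := h0.exists
    exact hG0 m' hm'
  · intro l
    show Q G * Q (fun m' => X m' l) ∈ _
    rw [← map_mul]
    exact hhc (Sum.inl l)
  · intro i hi
    rw [hform, hker]
    exact Filter.Eventually.of_forall fun m' => hXZ m' i hi
  · intro i hi h0
    rw [hform, hker] at h0
    obtain ⟨m', hm'⟩ := h0.exists
    exact hXU m' i hi hm'
  · intro i
    by_contra hcon
    push Not at hcon
    have h1 : ∀ t, bl t = i → ∀ᶠ m' in (Filter.hyperfilter ℕ : Filter ℕ),
        form (ap t) (X m') = 0 := by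
      intro t ht
      have h2 := hcon t ht
      have h3 : form (fun J => algebraMap L Ω (ap t J)) (fun l => Q fun m' => X m' l) =
        Q fun m' => form (ap t) (X m') := (ul_Q_form Q (ap t) X).symm
      rw [h3, hker] at h2
      exact h2
    have h4 : ∀ᶠ m' in (Filter.hyperfilter ℕ : Filter ℕ), ∀ t, bl t = i →
        form (ap t) (X m') = 0 := by
      rw [Filter.eventually_all]
      intro t
      by_cases ht : bl t = i
      · exact (h1 t ht).mono fun m' hm' _ => hm'
      · exact Filter.Eventually.of_forall fun m' h => absurd h ht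
    obtain ⟨m', hm'⟩ := h4.exists
    obtain ⟨t, ht, htP⟩ := hXP m' i
    exact htP (hm' t ht)
  · intro i hi1 hi2 J
    rw [hform, ← ul_Q_mon Q X J, ← ul_Q_div Q hker _ _ fun m' => hXU m' i hi1]
    have h1 := hhc (Sum.inr (Sum.inl ⟨i, J⟩))
    have h2 : h (Sum.inr (Sum.inl ⟨i, J⟩)) = fun m' => mon (X m') J / form (a i) (X m') := by
      funext m'
      exact if_pos ⟨hi1, hi2⟩
    rw [h2] at h1
    exact h1
  · intro i hi
    show (Q fun m' => Y m' i) ^ m i = _
    rw [hform, ← map_pow]
    congr 1
    funext m'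
    exact hroot m' i hi
  · intro i hi
    show Q G ^ e i * Q (fun m' => Y m' i) ∈ _
    rw [← map_pow, ← map_mul]
    have h1 := hhc (Sum.inr (Sum.inr i))
    have h2 : h (Sum.inr (Sum.inr i)) = G ^ e i * fun m' => Y m' i := by
      funext m'
      exact if_pos hi
    rw [h2] at h1
    exact h1
  · intro rr ss
    have h1 := RingHom.map_det Q (Matrix.of fun s t => fun m' => col D (X m') (ss t) (rr s))
    have h2 : Q.mapMatrix (Matrix.of fun s t => fun m' => col D (X m') (ss t) (rr s)) =
        Matrix.of fun s t => col (fun p => ulDer Q hQ hker (D p)) (fun l => Q fun m' => X m' l)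
          (ss t) (rr s) := by
      ext s t
      simp only [RingHom.mapMatrix_apply, Matrix.map_apply, Matrix.of_apply]
      rcases ss t with _ | p
      · rfl
      · exact (ulDer_apply Q hQ hker (D p) _).symm
    rw [← h2, ← h1, hker]
    refine Filter.Eventually.of_forall fun m' => ?_
    have h3 := RingHom.map_det (Pi.evalRingHom (fun _ : ℕ => L) m')
      (Matrix.of fun s t => fun m' => col D (X m') (ss t) (rr s))
    have h4 : (Pi.evalRingHom (fun _ : ℕ => L) m').mapMatrix
        (Matrix.of fun s t => fun m' => col D (X m') (ss t) (rr s)) =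
        Matrix.of fun s t => col D (X m') (ss t) (rr s) := rfl
    rw [h4, hXm m' rr ss] at h3
    exact h3

end Pool.Agent.Helper8.CO
end
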