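import Mathlib
import Pool.Agent.Helper12.LVM.C01

/- Helper8.LG.Ded -/
section
/-! # LG-DED: valuation rings over a Dedekind domain -/

set_option autoImplicit false

namespace Pool.Agent.Helper8.LG

variable {E : Type*} [Field E]

open IsDedekindDomain

/-- the prime of `R` below the valuation ring `O` -/
private noncomputable def dedPrime (R : Subring E) (O : ValuationSubring E)
    (hO : R ≤ O.toSubring) : Ideal R :=
  Ideal.comap (Subring.inclusion hO : R →+* O.toSubring) (IsLocalRing.maximalIdeal O)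

private theorem dedPrime_isPrime (R : Subring E) (O : ValuationSubring E)
    (hO : R ≤ O.toSubring) : (dedPrime R O hO).IsPrime := by
  unfold dedPrime
  exact Ideal.comap_isPrime (Subring.inclusion hO : R →+* O.toSubring)
    (IsLocalRing.maximalIdeal O)

private theorem dedPrime_inv (R : Subring E) (O : ValuationSubring E)
    (hO : R ≤ O.toSubring) (r : R) (hr : r ∉ dedPrime R O hO) :
    (r : E) ≠ 0 ∧ (r : E)⁻¹ ∈ O := by
  have h1 : IsUnit (⟨(r : E), hO r.2⟩ : O) := by
    by_contra h
    exact hr ((IsLocalRing.mem_maximalIdeal _).2 h)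
  obtain ⟨u, hu⟩ := h1
  have h2 : (r : E) * ((u⁻¹ : Oˣ) : O) = 1 := by
    have h3 : ((u : O) : E) * ((u⁻¹ : Oˣ) : O) = 1 := by
      have := u.mul_inv
      exact congrArg (fun z : O => (z : E)) this
    rw [hu] at h3
    exact h3
  have h4 : (r : E) ≠ 0 := by
    intro h
    rw [h, zero_mul] at h2
    exact zero_ne_one h2
  refine ⟨h4, ?_⟩
  have h5 : (r : E)⁻¹ = ((u⁻¹ : Oˣ) : O) := by
    exact (eq_inv_of_mul_eq_one_right h2).symm
  rw [h5]
  exact ((u⁻¹ : Oˣ) : O).2

private theorem ded_frac (R : Subring E) [IsDedekindDomain R] [IsFractionRing R E]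
    (O : ValuationSubring E) (hO : R ≤ O.toSubring) (f : E) (hf : f ∈ O) :
    ∃ a ∈ R, ∃ b ∈ R, b ≠ 0 ∧ b⁻¹ ∈ O ∧ f = a / b := by
  by_cases hP : dedPrime R O hO = ⊥
  · obtain ⟨a, b, hb, hab⟩ := IsFractionRing.div_surjective (A := R) f
    have hb0 : b ≠ 0 := nonZeroDivisors.ne_zero hb
    have hb1 : b ∉ dedPrime R O hO := by
      rw [hP]
      exact hb0
    obtain ⟨h1, h2⟩ := dedPrime_inv R O hO b hb1
    exact ⟨a, a.2, b, b.2, h1, h2, hab.symm⟩
  · let v : HeightOneSpectrum R := ⟨dedPrime R O hO, dedPrime_isPrime R O hO, hP⟩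
    obtain ⟨n, d, h | h⟩ := v.exists_primeCompl_mul_eq_or_mul_eq (K := E) f
    · obtain ⟨h1, h2⟩ := dedPrime_inv R O hO d d.2
      refine ⟨n, n.2, d, d.1.2, h1, h2, ?_⟩
      rw [eq_div_iff h1]
      exact h
    · obtain ⟨h1, h2⟩ := dedPrime_inv R O hO d d.2
      have h3 : f * (n : E) = ((d : R) : E) := h
      have hn : (n : E) ≠ 0 := by
        intro h0
        rw [h0, mul_zero] at h3
        exact h1 h3.symm
      refine ⟨d, d.1.2, n, n.2, hn, ?_, ?_⟩
      · have h4 : (n : E)⁻¹ = f * ((d : R) : E)⁻¹ := by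
          rw [← h3]
          have hf0 : f ≠ 0 := by
            intro h0
            rw [h0, zero_mul] at h3
            exact h1 h3.symm
          field_simp
        rw [h4]
        exact O.mul_mem _ _ hf h2
      · rw [eq_div_iff hn]
        exact h3

theorem bdd_of {P : Type*} (R : Subring E) [IsDedekindDomain R] [IsFractionRing R E]
    (D : P → Derivation ℤ E E) (Δ : E) (hΔ : Δ ∈ R) (h : ∀ p, ∀ f ∈ R, Δ * D p f ∈ R)
    (O : ValuationSubring E) (hO : R ≤ O.toSubring) : Bdd D Δ O := by
  refine ⟨hO hΔ, ?_⟩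
  intro p f hf
  obtain ⟨a, ha, b, hb, hb0, hbO, rfl⟩ := ded_frac R O hO f hf
  have h1 : Δ * D p (a / b) = b⁻¹ ^ 2 * (b * (Δ * D p a) - a * (Δ * D p b)) := by
    rw [Derivation.leibniz_div]
    simp only [smul_eq_mul]
    ring
  rw [h1]
  have h2 : b * (Δ * D p a) - a * (Δ * D p b) ∈ O :=
    hO (R.sub_mem (R.mul_mem hb (h p a ha)) (R.mul_mem ha (h p b hb)))
  exact O.mul_mem _ _ (pow_mem hbO 2) h2

theorem mem_of (R : Subring E) [IsDedekindDomain R] [IsFractionRing R E] (f : E)
    (h : ∀ O : ValuationSubring E, R ≤ O.toSubring → f ∈ O) : f ∈ R := by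
  have h1 : f ∈ (algebraMap R E).range := by
    apply HeightOneSpectrum.mem_integers_of_valuation_le_one
    intro v
    have h2 := h (v.valuation E).valuationSubring (by
      intro r hr
      exact v.valuation_le_one (K := E) ⟨r, hr⟩)
    exact h2
  obtain ⟨r, hr⟩ := h1
  rw [← hr]
  exact r.2

private theorem dlog_zpow {P : Type*} (D : P → Derivation ℤ E E) (p : P) (x : E) (hx : x ≠ 0)
    (n : ℤ) : D p (x ^ n) / x ^ n = n * (D p x / x) := by
  rw [Derivation.leibniz_zpow, zsmul_eq_mul, smul_eq_mul, zpow_sub_one₀ hx]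
  have : x ^ n ≠ 0 := zpow_ne_zero _ hx
  field_simp

theorem log_of {P : Type*} [CharZero E] (R : Subring E) [IsDedekindDomain R]
    [IsFractionRing R E] (hQ : ∀ n : ℕ, n ≠ 0 → ((n : E))⁻¹ ∈ R)
    (D : P → Derivation ℤ E E) (O : ValuationSubring E) (hO : R ≤ O.toSubring)
    (Δ : E) (hΔ : Bdd D Δ O) (c : E) (hc : c ≠ 0) (hcO : c ∉ O ∨ c⁻¹ ∉ O)
    (hΔc : ∀ p, Δ * (D p c / c) ∈ O) (g : E) (hg : g ≠ 0) (p : P) :
    Δ * (D p g / g) ∈ O := by
  have hP : dedPrime R O hO ≠ ⊥ := by
    intro hP
    have key : ∀ f : E, f ∈ O := by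
      intro f
      obtain ⟨a, b, hb, hab⟩ := IsFractionRing.div_surjective (A := R) f
      have hb0 : b ≠ 0 := nonZeroDivisors.ne_zero hb
      have hb1 : b ∉ dedPrime R O hO := by
        rw [hP]
        exact hb0
      obtain ⟨h1, h2⟩ := dedPrime_inv R O hO b hb1
      rw [← hab, div_eq_mul_inv]
      exact O.mul_mem _ _ (hO a.2) h2
    rcases hcO with h | h
    · exact h (key c)
    · exact h (key c⁻¹)
  let v : HeightOneSpectrum R := ⟨dedPrime R O hO, dedPrime_isPrime R O hO, hP⟩
  have hle : ∀ f : E, v.valuation E f ≤ 1 → f ∈ O := by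
    intro f hf
    obtain ⟨n, d, h⟩ := v.exists_primeCompl_mul_eq_of_integer (K := E) f hf
    obtain ⟨h1, h2⟩ := dedPrime_inv R O hO d d.2
    have h3 : f = (n : E) * ((d : R) : E)⁻¹ := by
      rw [← div_eq_mul_inv, eq_div_iff h1]
      exact h
    rw [h3]
    exact O.mul_mem _ _ (hO n.2) h2
  have hvc : v.valuation E c ≠ 0 := (Valuation.ne_zero_iff _).2 hc
  have hvg : v.valuation E g ≠ 0 := (Valuation.ne_zero_iff _).2 hg
  set k : ℤ := WithZero.log (v.valuation E c) with hk
  set n : ℤ := WithZero.log (v.valuation E g) with hn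
  have hck : v.valuation E c = WithZero.exp k := (WithZero.exp_log hvc).symm
  have hgn : v.valuation E g = WithZero.exp n := (WithZero.exp_log hvg).symm
  have hk0 : k ≠ 0 := by
    intro h0
    rw [h0, WithZero.exp_zero] at hck
    rcases hcO with h | h
    · exact h (hle c hck.le)
    · refine h (hle c⁻¹ ?_)
      rw [map_inv₀, hck, inv_one]
  have hu : v.valuation E (g ^ k * c ^ (-n)) = 1 := by
    rw [map_mul, map_zpow₀, map_zpow₀, hck, hgn, ← WithZero.exp_zsmul, ← WithZero.exp_zsmul,
      ← WithZero.exp_add, ← WithZero.exp_zero]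
    congr 1
    simp only [smul_eq_mul]
    ring
  have hgk : g ^ k ≠ 0 := zpow_ne_zero _ hg
  have hcn : c ^ (-n) ≠ 0 := zpow_ne_zero _ hc
  have huO : g ^ k * c ^ (-n) ∈ O := hle _ hu.le
  have huO' : (g ^ k * c ^ (-n))⁻¹ ∈ O := by
    apply hle
    rw [map_inv₀, hu, inv_one]
  have hDu : Δ * (D p (g ^ k * c ^ (-n)) / (g ^ k * c ^ (-n))) ∈ O := by
    have h1 := O.mul_mem _ _ (hΔ.2 p _ huO) huO'
    rw [div_eq_mul_inv, ← mul_assoc]
    exact h1
  have hsum : D p (g ^ k * c ^ (-n)) / (g ^ k * c ^ (-n)) =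
      k * (D p g / g) + ((-n : ℤ) : E) * (D p c / c) := by
    rw [← dlog_zpow D p g hg k, ← dlog_zpow D p c hc (-n), Derivation.leibniz]
    simp only [smul_eq_mul]
    field_simp
    ring
  have hkE : (k : E) ≠ 0 := by exact_mod_cast hk0
  have hkinv : (k : E)⁻¹ ∈ O := by
    have h1 : ((k.natAbs : ℕ) : E)⁻¹ ∈ O := hO (hQ k.natAbs (Int.natAbs_ne_zero.2 hk0))
    have h2 : (k : E) = ((k.natAbs : ℕ) : E) ∨ (k : E) = -((k.natAbs : ℕ) : E) := by
      rcases Int.natAbs_eq k with h | h
      · left
        calc (k : E) = (((k.natAbs : ℕ) : ℤ) : E) := congrArg _ h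
          _ = _ := Int.cast_natCast _
      · right
        calc (k : E) = ((-((k.natAbs : ℕ) : ℤ) : ℤ) : E) := congrArg _ h
          _ = _ := by rw [Int.cast_neg, Int.cast_natCast]
    rcases h2 with h | h
    · rw [h]
      exact h1
    · rw [h, inv_neg]
      exact O.neg_mem _ h1
  have hfin : Δ * (D p g / g) = (k : E)⁻¹ *
      (Δ * (D p (g ^ k * c ^ (-n)) / (g ^ k * c ^ (-n))) + (n : E) * (Δ * (D p c / c))) := by
    rw [hsum]
    push_cast
    field_simp
    ring
  rw [hfin]
  refine O.mul_mem _ _ hkinv (O.add_mem _ _ hDu (O.mul_mem _ _ ?_ (hΔc p)))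
  exact intCast_mem O n

end Pool.Agent.Helper8.LG
end

/- Helper12.LVF.H8.LG.DedBound -/
section
/-! # LG-DEDB: bounded values on a finite-dimensional space -/

set_option autoImplicit false

namespace Pool.Agent.Helper8.LG

variable {E : Type*} [Field E]

open IsDedekindDomain

/-- the prime of `R` below the valuation ring `O` -/
private noncomputable def dbPrime (R : Subring E) (O : ValuationSubring E)
    (hO : R ≤ O.toSubring) : Ideal R :=
  Ideal.comap (Subring.inclusion hO : R →+* O.toSubring) (IsLocalRing.maximalIdeal O)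

private theorem dbPrime_isPrime (R : Subring E) (O : ValuationSubring E)
    (hO : R ≤ O.toSubring) : (dbPrime R O hO).IsPrime := by
  unfold dbPrime
  exact Ideal.comap_isPrime (Subring.inclusion hO : R →+* O.toSubring)
    (IsLocalRing.maximalIdeal O)

private theorem dbPrime_inv (R : Subring E) (O : ValuationSubring E)
    (hO : R ≤ O.toSubring) (r : R) (hr : r ∉ dbPrime R O hO) :
    (r : E) ≠ 0 ∧ (r : E)⁻¹ ∈ O := by
  have h1 : IsUnit (⟨(r : E), hO r.2⟩ : O) := by
    by_contra h
    exact hr ((IsLocalRing.mem_maximalIdeal _).2 h)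
  obtain ⟨u, hu⟩ := h1
  have h2 : (r : E) * ((u⁻¹ : Oˣ) : O) = 1 := by
    have h3 : ((u : O) : E) * ((u⁻¹ : Oˣ) : O) = 1 := by
      have := u.mul_inv
      exact congrArg (fun z : O => (z : E)) this
    rw [hu] at h3
    exact h3
  have h4 : (r : E) ≠ 0 := by
    intro h
    rw [h, zero_mul] at h2
    exact zero_ne_one h2
  refine ⟨h4, ?_⟩
  have h5 : (r : E)⁻¹ = ((u⁻¹ : Oˣ) : O) := by
    exact (eq_inv_of_mul_eq_one_right h2).symm
  rw [h5]
  exact ((u⁻¹ : Oˣ) : O).2

/-- the elements of `V` of valuation at least `n` -/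
private def dbFil {k : Type*} [Field k] [Algebra k E] (R : Subring E) [IsDedekindDomain R]
    [IsFractionRing R E] (hk : ∀ c : k, algebraMap k E c ∈ R) (V : Submodule k E)
    (v : HeightOneSpectrum R) (n : ℕ) : Submodule k V where
  carrier := {f | v.valuation E (f : E) ≤ WithZero.exp (-(n : ℤ))}
  add_mem' := by
    intro f g hf hg
    have hf' : v.valuation E (f : E) ≤ WithZero.exp (-(n : ℤ)) := hf
    have hg' : v.valuation E (g : E) ≤ WithZero.exp (-(n : ℤ)) := hg
    exact Valuation.map_add_le (v.valuation E) hf' hg'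
  zero_mem' := by
    simp
  smul_mem' := by
    intro c f hf
    show v.valuation E ((c • f : V) : E) ≤ _
    have h1 : ((c • f : V) : E) = algebraMap k E c * (f : E) := by
      rw [Submodule.coe_smul, Algebra.smul_def]
    rw [h1, map_mul]
    have h2 : v.valuation E (algebraMap k E c) ≤ 1 :=
      v.valuation_le_one (K := E) ⟨_, hk c⟩
    calc v.valuation E (algebraMap k E c) * v.valuation E (f : E)
        ≤ 1 * WithZero.exp (-(n : ℤ)) := mul_le_mul' h2 hf
      _ = _ := one_mul _

private theorem dbBound {k : Type*} [Field k] [Algebra k E] (R : Subring E) [IsDedekindDomain R]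
    [IsFractionRing R E] (hk : ∀ c : k, algebraMap k E c ∈ R) (V : Submodule k E)
    [FiniteDimensional k V] (v : HeightOneSpectrum R) :
    ∃ n : ℕ, ∀ f ∈ V, f ≠ 0 → WithZero.exp (-(n : ℤ)) < v.valuation E f := by
  have hanti : Monotone (fun n : ℕ => OrderDual.toDual (dbFil R hk V v n)) := by
    intro m n hmn
    show dbFil R hk V v n ≤ dbFil R hk V v m
    intro f hf
    have h1 : v.valuation E (f : E) ≤ WithZero.exp (-(n : ℤ)) := hf
    show v.valuation E (f : E) ≤ WithZero.exp (-(m : ℤ))
    refine h1.trans (WithZero.exp_le_exp.2 ?_)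
    have : (m : ℤ) ≤ n := by exact_mod_cast hmn
    linarith only [this]
  obtain ⟨n, hn⟩ := IsArtinian.monotone_stabilizes
    (⟨fun n : ℕ => OrderDual.toDual (dbFil R hk V v n), hanti⟩ : ℕ →o (Submodule k V)ᵒᵈ)
  refine ⟨n, ?_⟩
  intro f hfV hf0
  by_contra hle
  have hle' : v.valuation E f ≤ WithZero.exp (-(n : ℤ)) := not_lt.1 hle
  have h1 : ∀ m : ℕ, n ≤ m → v.valuation E f ≤ WithZero.exp (-(m : ℤ)) := by
    intro m hm
    have h2 : dbFil R hk V v n = dbFil R hk V v m := hn m hm
    have h3 : (⟨f, hfV⟩ : V) ∈ dbFil R hk V v n := hle'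
    rw [h2] at h3
    exact h3
  have hv0 : v.valuation E f ≠ 0 := (Valuation.ne_zero_iff _).2 hf0
  have h4 := h1 (max n ((-(WithZero.log (v.valuation E f)) + 1).toNat)) (le_max_left _ _)
  rw [← WithZero.exp_log hv0, WithZero.exp_le_exp, WithZero.exp_log hv0] at h4
  have h5 : (-(WithZero.log (v.valuation E f)) + 1) ≤
      ((max n ((-(WithZero.log (v.valuation E f)) + 1).toNat) : ℕ) : ℤ) := by
    refine (Int.self_le_toNat _).trans ?_
    exact_mod_cast le_max_right _ _
  omega

theorem bounded_of {k : Type*} [Field k] [Algebra k E] (R : Subring E) [IsDedekindDomain R]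
    [IsFractionRing R E] (hk : ∀ c : k, algebraMap k E c ∈ R) (V : Submodule k E)
    [FiniteDimensional k V] (Δ : E) (hΔ : Δ ∈ R) (hΔ0 : Δ ≠ 0) :
    ∃ C : ℕ, ∀ O : ValuationSubring E, R ≤ O.toSubring → Δ⁻¹ ∉ O → ∀ f ∈ V, f ≠ 0 →
      Δ ^ C * f⁻¹ ∈ O := by
  classical
  choose n hn using fun v : HeightOneSpectrum R => dbBound R hk V v
  have hI : (Ideal.span {(⟨Δ, hΔ⟩ : R)}) ≠ 0 := by
    rw [Ne, Ideal.zero_eq_bot, Ideal.span_singleton_eq_bot]
    intro h
    exact hΔ0 (congrArg Subtype.val h)
  have hfin := Ideal.finite_factors hI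
  refine ⟨hfin.toFinset.sup n, ?_⟩
  intro O hO hΔO f hf hf0
  have hmem : (⟨Δ, hΔ⟩ : R) ∈ dbPrime R O hO := by
    by_contra h
    exact hΔO (dbPrime_inv R O hO _ h).2
  have hP : dbPrime R O hO ≠ ⊥ := by
    intro h
    rw [h] at hmem
    exact hΔ0 (congrArg Subtype.val ((Submodule.mem_bot _).1 hmem))
  let v : HeightOneSpectrum R := ⟨dbPrime R O hO, dbPrime_isPrime R O hO, hP⟩
  have hle : ∀ f : E, v.valuation E f ≤ 1 → f ∈ O := by
    intro f hf
    obtain ⟨n, d, h⟩ := v.exists_primeCompl_mul_eq_of_integer (K := E) f hf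
    obtain ⟨h1, h2⟩ := dbPrime_inv R O hO d d.2
    have h3 : f = (n : E) * ((d : R) : E)⁻¹ := by
      rw [← div_eq_mul_inv, eq_div_iff h1]
      exact h
    rw [h3]
    exact O.mul_mem _ _ (hO n.2) h2
  have hvI : v ∈ hfin.toFinset := by
    rw [Set.Finite.mem_toFinset]
    show v.asIdeal ∣ _
    rw [Ideal.dvd_span_singleton]
    exact hmem
  have hC : n v ≤ hfin.toFinset.sup n := Finset.le_sup hvI
  have hv0 : v.valuation E f ≠ 0 := (Valuation.ne_zero_iff _).2 hf0
  have h1 := hn v f hf hf0
  have h2 : v.valuation E Δ ≤ WithZero.exp (-1 : ℤ) := by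
    have h3 : v.valuation E (algebraMap R E ⟨Δ, hΔ⟩) < 1 := by
      rw [HeightOneSpectrum.valuation_lt_one_iff_mem]
      exact hmem
    have h4 : v.valuation E Δ < 1 := h3
    have hv0' : v.valuation E Δ ≠ 0 := (Valuation.ne_zero_iff _).2 hΔ0
    rw [← WithZero.exp_log hv0', ← WithZero.exp_zero, WithZero.exp_lt_exp] at h4
    rw [← WithZero.exp_log hv0', WithZero.exp_le_exp]
    omega
  apply hle
  rw [map_mul, map_pow, map_inv₀]
  rw [← WithZero.exp_log hv0] at h1 ⊢
  rw [WithZero.exp_lt_exp] at h1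
  have hv0' : v.valuation E Δ ≠ 0 := (Valuation.ne_zero_iff _).2 hΔ0
  rw [← WithZero.exp_log hv0', WithZero.exp_le_exp] at h2
  rw [← WithZero.exp_log hv0', ← WithZero.exp_nsmul, ← WithZero.exp_neg, ← WithZero.exp_add,
    ← WithZero.exp_zero, WithZero.exp_le_exp]
  have hC' : ((n v : ℕ) : ℤ) ≤ ((hfin.toFinset.sup n : ℕ) : ℤ) := by exact_mod_cast hC
  rw [nsmul_eq_mul]
  nlinarith only [h1, h2, hC']

end Pool.Agent.Helper8.LG
end

/- Helper8.LG.Sei -/
section
/-! # LG-SEI: Seidenberg's theorem -/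

set_option autoImplicit false

namespace Pool.Agent.Helper8.LG

/-- Iterated differences of the iterates of a derivation. -/
private def sU {E : Type*} [CommRing E] (D : E → E) (y : E) : ℕ → ℕ → E → E
  | 0, m, c => D^[m] c
  | n + 1, m, c => sU D y n m (c * y) - y * sU D y n m c

private theorem sU_zero_right {E : Type*} [CommRing E] (D : E → E) (y : E) (n : ℕ) (c : E) :
    sU D y (n + 1) 0 c = 0 := by
  induction n generalizing c with
  | zero => simp [sU, mul_comm]
  | succ n ih =>
    rw [sU, ih, ih]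
    simp

private theorem sU_succ_right {E : Type*} [CommRing E] (D : Derivation ℤ E E) (y : E) (n m : ℕ)
    (c : E) : sU D y (n + 1) (m + 1) c = D (sU D y (n + 1) m c) + (n + 1) * D y * sU D y n m c := by
  induction n generalizing c with
  | zero =>
    simp only [sU, Function.iterate_succ_apply', map_sub, Derivation.leibniz, smul_eq_mul]
    push_cast
    ring
  | succ n ih =>
    have h1 : sU D y (n + 1 + 1) (m + 1) c =
        sU D y (n + 1) (m + 1) (c * y) - y * sU D y (n + 1) (m + 1) c := rfl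
    have h2 : sU D y (n + 1 + 1) m c = sU D y (n + 1) m (c * y) - y * sU D y (n + 1) m c := rfl
    have h3 : sU D y (n + 1) m c = sU D y n m (c * y) - y * sU D y n m c := rfl
    rw [h1, ih, ih, h2, map_sub, Derivation.leibniz, smul_eq_mul, smul_eq_mul]
    push_cast
    linear_combination (-(n + 1 : E) * D y) * h3

private theorem sU_of_lt {E : Type*} [CommRing E] (D : Derivation ℤ E E) (y : E) (m n : ℕ)
    (h : m < n) (c : E) : sU D y n m c = 0 := by
  induction m generalizing n c with
  | zero =>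
    obtain ⟨n, rfl⟩ := Nat.exists_eq_succ_of_ne_zero h.ne'
    exact sU_zero_right D y n c
  | succ m ih =>
    obtain ⟨n, rfl⟩ := Nat.exists_eq_succ_of_ne_zero (Nat.ne_of_gt (Nat.zero_lt_of_lt h))
    rw [Nat.succ_eq_add_one, sU_succ_right, ih (n + 1) (by omega), ih n (by omega)]
    simp

private theorem sU_diag {E : Type*} [CommRing E] (D : Derivation ℤ E E) (y : E) (n : ℕ) (c : E) :
    sU D y n n c = n.factorial * D y ^ n * c := by
  induction n generalizing c with
  | zero => simp [sU]
  | succ n ih =>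
    rw [sU_succ_right, sU_of_lt D y n (n + 1) (by omega), ih, Nat.factorial_succ, pow_succ]
    push_cast
    simp only [map_zero, zero_add]
    ring

private theorem sU_mem {E : Type*} [CommRing E] (D : E → E) (y : E) (S : Subring E)
    (hD : ∀ x ∈ S, D x ∈ S) (b : E) (hb : ∀ i : ℕ, b * y ^ i ∈ S) (n m : ℕ) (c : E)
    (hc : ∀ i : ℕ, c * y ^ i ∈ S) (i : ℕ) : b * y ^ i * sU D y n m c ∈ S := by
  induction n generalizing c i with
  | zero =>
    refine S.mul_mem (hb i) ?_
    rw [sU]
    have h : ∀ m : ℕ, D^[m] c ∈ S := by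
      intro m
      induction m with
      | zero => simpa using hc 0
      | succ m ih =>
        rw [Function.iterate_succ_apply']
        exact hD _ ih
    exact h m
  | succ n ih =>
    have h1 := ih (c * y) (fun i => by
      have := hc (i + 1)
      rwa [pow_succ', ← mul_assoc] at this) i
    have h2 := ih c hc (i + 1)
    have e : b * y ^ i * sU D y (n + 1) m c =
        b * y ^ i * sU D y n m (c * y) - b * y ^ (i + 1) * sU D y n m c := by
      rw [sU, pow_succ]
      ring
    rw [e]
    exact S.sub_mem h1 h2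

theorem seidenberg {E : Type*} [Field E] [CharZero E] (A : Subring E) [IsNoetherianRing A]
    (hQ : ∀ n : ℕ, n ≠ 0 → ((n : E))⁻¹ ∈ A)
    (hfrac : ∀ f : E, ∃ b ∈ A, b ≠ 0 ∧ f * b ∈ A)
    (D : Derivation ℤ E E) (hD : ∀ f ∈ A, D f ∈ A) (f : E) (hf : IsIntegral A f) :
    IsIntegral A (D f) := by
  have hr : ∀ x : E, x ∈ (algebraMap A E).range ↔ x ∈ A := by
    intro x
    constructor
    · rintro ⟨a, rfl⟩
      exact a.2
    · intro hx
      exact ⟨⟨x, hx⟩, rfl⟩
  have hnz : ∀ {b : A}, (b : E) ≠ 0 → b ∈ nonZeroDivisors A := by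
    intro b hb
    refine mem_nonZeroDivisors_of_ne_zero ?_
    rintro rfl
    exact hb rfl
  obtain ⟨b, hb, hb0, hfb⟩ := hfrac f
  obtain ⟨r, hr0, h⟩ := hf.isAlmostIntegral_of_exists_smul_mem_range
    ⟨⟨b, hb⟩, hnz hb0, (hr _).mpr (by
      rw [Algebra.smul_def, mul_comm]
      exact hfb)⟩
  have hr' : ∀ i : ℕ, (r : E) * f ^ i ∈ A := by
    intro i
    have := (hr _).mp (h i)
    rwa [Algebra.smul_def] at this
  refine IsAlmostIntegral.isIntegral ⟨r * r, mul_mem hr0 hr0, fun n => ?_⟩
  have h1 := sU_mem D f A hD _ hr' n n _ hr' 0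
  rw [sU_diag, pow_zero, mul_one] at h1
  rw [hr, Algebra.smul_def]
  have h2 := A.mul_mem (hQ n.factorial n.factorial_ne_zero) h1
  have h3 : (n.factorial : E) ≠ 0 := by exact_mod_cast n.factorial_ne_zero
  have e : (algebraMap A E) (r * r) * D f ^ n =
      ((n.factorial : E))⁻¹ * ((r : E) * ((n.factorial : E) * D f ^ n * r)) := by
    rw [map_mul]
    change ((r : E) * (r : E)) * D f ^ n = _
    field_simp
  rw [e]
  exact h2

end Pool.Agent.Helper8.LG
end

/- Helper12.LVF.H8.LG.RingStable -/
section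
/-! # LG-RST: stability of the integral closure without poles -/

set_option autoImplicit false

namespace Pool.Agent.Helper8.LG

variable {E : Type*} [Field E] [CharZero E]

private theorem rst_integral_mono {A B : Subring E} (h : A ≤ B) {x : E} (hx : IsIntegral A x) :
    IsIntegral B x := by
  obtain ⟨p, hp, hpx⟩ := hx
  refine ⟨p.map (Subring.inclusion h), hp.map _, ?_⟩
  rw [Polynomial.eval₂_map]
  exact hpx

/-- an algebraic element becomes integral after multiplication by an element of the base; for an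
abstract subring and an abstract subfield (the kernel is slow when it can unfold the closures) -/
private theorem rst_mult_aux (R : Subring E) (K : Subfield E) (hle : R ≤ K.toSubring)
    (hfr : ∀ x ∈ K, ∃ y ∈ R, ∃ z ∈ R, y / z = x) (c : E) (hc : IsAlgebraic K c) :
    ∃ h ∈ R, h ≠ 0 ∧ IsIntegral R (h * c) := by
  letI : Algebra R K := (Subring.inclusion hle).toAlgebra
  haveI : IsScalarTower R K E := IsScalarTower.of_algebraMap_eq (fun _ => rfl)
  haveI : Algebra.IsAlgebraic R K := by
    refine ⟨fun x => ?_⟩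
    obtain ⟨y, hy, z, hz, hyz⟩ := hfr x.1 x.2
    by_cases hz0 : z = 0
    · have hx : x = 0 := by
        apply Subtype.ext
        rw [← hyz, hz0, div_zero]
        rfl
      rw [hx]
      exact isAlgebraic_zero
    · refine ⟨Polynomial.C (⟨z, hz⟩ : R) * Polynomial.X -
        Polynomial.C (⟨y, hy⟩ : R), ?_, ?_⟩
      · intro h0
        have := congrArg (fun q => Polynomial.coeff q 1) h0
        simp only [Polynomial.coeff_sub, Polynomial.coeff_C_mul, Polynomial.coeff_X_one, mul_one,
          Polynomial.coeff_C_succ, sub_zero, Polynomial.coeff_zero] at this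
        exact hz0 (congrArg Subtype.val this)
      · apply Subtype.ext
        simp only [map_sub, map_mul, Polynomial.aeval_C, Polynomial.aeval_X]
        change z * (x : E) - y = 0
        rw [← hyz]
        field_simp
        ring
  have hc' : IsAlgebraic R c := hc.restrictScalars _
  obtain ⟨h, hh0, hh⟩ := hc'.exists_integral_multiple
  refine ⟨h, h.2, ?_, ?_⟩
  · intro h0
    exact hh0 (Subtype.ext h0)
  · rwa [Algebra.smul_def] at hh

/-- an algebraic element becomes integral after multiplication by an element of the base -/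
private theorem rst_mult (s : Set E) (c : E) (hc : IsAlgebraic (Subfield.closure s) c) :
    ∃ h ∈ Subring.closure s, h ≠ 0 ∧ IsIntegral (Subring.closure s) (h * c) :=
  rst_mult_aux (Subring.closure s) (Subfield.closure s)
    (Subring.closure_le.mpr Subfield.subset_closure)
    (fun _ hx => Subfield.mem_closure_iff.mp hx) c hc

/-- stability without poles, when there are enough constants -/
theorem intCl_stable {P : Type*} (E₀ : Subfield E) (t : E)
    (D : P → Derivation ℤ E E) (hE₀ : ∀ p, ∀ f ∈ E₀, D p f ∈ E₀)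
    (hDt : ∀ p, D p t = 0) (k₀ : Subfield E) (hk₀ : k₀ ≤ E₀) (hDk : ∀ p, ∀ f ∈ k₀, D p f = 0)
    (S : Set E) (hS : S.Finite) (hDS : ∀ p, ∀ c ∈ S, D p c = 0)
    (halg : ∀ c ∈ S, IsAlgebraic (Subfield.closure ((k₀ : Set E) ∪ {t})) c)
    (hgen : Subfield.closure ((E₀ : Set E) ∪ {t} ∪ S) = ⊤) :
    ∀ p, ∀ f ∈ intCl E₀ t, D p f ∈ intCl E₀ t := by
  classical
  -- the multipliers
  have hm : ∀ c : E, ∃ h : E, c ∈ S → h ∈ Subring.closure ((k₀ : Set E) ∪ {t}) ∧ h ≠ 0 ∧
      IsIntegral (Subring.closure ((k₀ : Set E) ∪ {t})) (h * c) := by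
    intro c
    by_cases hc : c ∈ S
    · obtain ⟨h, h1, h2, h3⟩ := rst_mult _ c (halg c hc)
      exact ⟨h, fun _ => ⟨h1, h2, h3⟩⟩
    · exact ⟨0, fun h => absurd h hc⟩
  choose H hH using hm
  have hkt : ∀ h ∈ Subring.closure ((k₀ : Set E) ∪ {t}), ∀ p, D p h = 0 := by
    intro h hh p
    induction hh using Subring.closure_induction with
    | mem x hx =>
      rcases hx with hx | hx
      · exact hDk p x hx
      · rw [Set.mem_singleton_iff.mp hx]
        exact hDt p
    | zero => exact map_zero _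
    | one => exact Derivation.map_one_eq_zero _
    | add x y _ _ hx hy => rw [map_add, hx, hy, add_zero]
    | neg x _ hx => rw [map_neg, hx, neg_zero]
    | mul x y _ _ hx hy => rw [Derivation.leibniz, hx, hy, smul_zero, smul_zero, add_zero]
  set C : Subring E := Subring.closure ((E₀ : Set E) ∪ {t}) with hCdef
  set T : Set E := {t} ∪ (fun c => H c * c) '' S with hTdef
  have hT : T.Finite := (Set.finite_singleton t).union (hS.image _)
  set A' : Subalgebra E₀ E := Algebra.adjoin E₀ T with hA'def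
  have hfg : A'.FG := by
    have := Subalgebra.fg_adjoin_finset (R := E₀) hT.toFinset
    rwa [Set.Finite.coe_toFinset] at this
  haveI : Algebra.FiniteType E₀ A' := A'.fg_iff_finiteType.mp hfg
  haveI hN : IsNoetherianRing A' := Algebra.FiniteType.isNoetherianRing E₀ A'
  set A : Subring E := A'.toSubring with hAdef
  haveI : IsNoetherianRing A := hN
  have hE₀A : ∀ f ∈ E₀, f ∈ A := fun f hf => A'.algebraMap_mem ⟨f, hf⟩
  have htA : t ∈ A := Algebra.subset_adjoin (Or.inl rfl)
  have hHA : ∀ c ∈ S, H c * c ∈ A := fun c hc => Algebra.subset_adjoin (Or.inr ⟨c, hc, rfl⟩)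
  have hCA : C ≤ A := by
    rw [hCdef, Subring.closure_le]
    rintro x (hx | hx)
    · exact hE₀A x hx
    · rw [Set.mem_singleton_iff.mp hx]
      exact htA
  have hktC : Subring.closure ((k₀ : Set E) ∪ {t}) ≤ C := by
    refine Subring.closure_mono ?_
    exact Set.union_subset_union_left _ hk₀
  have hQ : ∀ n : ℕ, n ≠ 0 → ((n : E))⁻¹ ∈ A := fun n _ => hE₀A _ (E₀.inv_mem (natCast_mem E₀ n))
  -- fractions
  have hfrac : ∀ f : E, ∃ b ∈ A, b ≠ 0 ∧ f * b ∈ A := by
    intro f
    have hf : f ∈ Subfield.closure ((E₀ : Set E) ∪ {t} ∪ S) := by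
      rw [hgen]
      exact Subfield.mem_top f
    induction hf using Subfield.closure_induction with
    | mem x hx =>
      rcases hx with (hx | hx) | hx
      · exact ⟨1, A.one_mem, one_ne_zero, by rw [mul_one]; exact hE₀A x hx⟩
      · refine ⟨1, A.one_mem, one_ne_zero, ?_⟩
        rw [mul_one, Set.mem_singleton_iff.mp hx]
        exact htA
      · refine ⟨H x, hCA (hktC (hH x hx).1), (hH x hx).2.1, ?_⟩
        rw [mul_comm]
        exact hHA x hx
    | one => exact ⟨1, A.one_mem, one_ne_zero, by rw [mul_one]; exact A.one_mem⟩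
    | add x y _ _ hx hy =>
      obtain ⟨b, hb, hb0, hxb⟩ := hx
      obtain ⟨b', hb', hb0', hyb⟩ := hy
      refine ⟨b * b', A.mul_mem hb hb', mul_ne_zero hb0 hb0', ?_⟩
      have : (x + y) * (b * b') = x * b * b' + y * b' * b := by ring
      rw [this]
      exact A.add_mem (A.mul_mem hxb hb') (A.mul_mem hyb hb)
    | neg x _ hx =>
      obtain ⟨b, hb, hb0, hxb⟩ := hx
      exact ⟨b, hb, hb0, by rw [neg_mul]; exact A.neg_mem hxb⟩
    | inv x _ hx =>
      obtain ⟨b, hb, hb0, hxb⟩ := hx
      by_cases hx0 : x = 0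
      · refine ⟨1, A.one_mem, one_ne_zero, ?_⟩
        rw [hx0, inv_zero, zero_mul]
        exact A.zero_mem
      · refine ⟨x * b, hxb, mul_ne_zero hx0 hb0, ?_⟩
        rw [← mul_assoc, inv_mul_cancel₀ hx0, one_mul]
        exact hb
    | mul x y _ _ hx hy =>
      obtain ⟨b, hb, hb0, hxb⟩ := hx
      obtain ⟨b', hb', hb0', hyb⟩ := hy
      refine ⟨b * b', A.mul_mem hb hb', mul_ne_zero hb0 hb0', ?_⟩
      have : (x * y) * (b * b') = (x * b) * (y * b') := by ring
      rw [this]
      exact A.mul_mem hxb hyb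
  -- stability of A
  have hDA : ∀ p, ∀ f ∈ A, D p f ∈ A := by
    intro p f hf
    have hf' : f ∈ Algebra.adjoin E₀ T := hf
    induction hf' using Algebra.adjoin_induction with
    | mem x hx =>
      rcases hx with hx | ⟨c, hc, rfl⟩
      · rw [Set.mem_singleton_iff.mp hx, hDt]
        exact A.zero_mem
      · have : D p (H c * c) = 0 := by
          rw [Derivation.leibniz, hDS p c hc, hkt _ (hH c hc).1 p, smul_zero, smul_zero, add_zero]
        change D p (H c * c) ∈ A
        rw [this]
        exact A.zero_mem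
    | algebraMap r => exact hE₀A _ (hE₀ p _ r.2)
    | add x y hx hy hx' hy' =>
      rw [map_add]
      exact A.add_mem (hx' hx) (hy' hy)
    | mul x y hx hy hx' hy' =>
      rw [Derivation.leibniz, smul_eq_mul, smul_eq_mul]
      exact A.add_mem (A.mul_mem hx (hy' hy)) (A.mul_mem hy (hx' hx))
  -- A is integral over C
  have hAint : A ≤ (integralClosure C E).toSubring := by
    intro f hf
    have hf' : f ∈ Algebra.adjoin E₀ T := hf
    induction hf' using Algebra.adjoin_induction with
    | mem x hx =>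
      rcases hx with hx | ⟨c, hc, rfl⟩
      · rw [Set.mem_singleton_iff.mp hx]
        exact (integralClosure C E).algebraMap_mem
          ⟨t, Subring.subset_closure (Or.inr rfl)⟩
      · exact rst_integral_mono hktC (hH c hc).2.2
    | algebraMap r =>
      exact (integralClosure C E).algebraMap_mem ⟨r, Subring.subset_closure (Or.inl r.2)⟩
    | add x y hx hy hx' hy' => exact Subring.add_mem _ (hx' hx) (hy' hy)
    | mul x y hx hy hx' hy' => exact Subring.mul_mem _ (hx' hx) (hy' hy)
  intro p f hf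
  have h1 : IsIntegral C f := hf
  have h2 : IsIntegral A (D p f) :=
    seidenberg A hQ hfrac (D p) (hDA p) f (rst_integral_mono hCA h1)
  have h3 : IsIntegral (integralClosure C E).toSubring (D p f) := rst_integral_mono hAint h2
  have h4 : IsIntegral (integralClosure C E) (D p f) := h3
  exact isIntegral_trans (R := C) (A := integralClosure C E) (D p f) h4

end Pool.Agent.Helper8.LG
end

/- Helper8.LG.Exch -/
section
/-! # LG-EXCH: the exchange step -/

set_option autoImplicit false

namespace Pool.Agent.Helper8.LG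

theorem exch_iff {L E : Type*} [Field L] [Field E] [Algebra L E] (S : Set E) (f : E) :
    IsAlgebraic (IntermediateField.adjoin L S) f ↔
      f ∈ (AlgebraicIndependent.matroid L E).closure S := by
  rw [AlgebraicIndependent.matroid_closure_eq, SetLike.mem_coe, Subalgebra.mem_algebraicClosure]
  exact IntermediateField.isAlgebraic_adjoin_iff

/-- The exchange step. -/
theorem exchange {L E : Type*} [Field L] [Field E] [Algebra L E] {β : Type*} [Finite β]
    (c : β → E) (hc : AlgebraicIndependent L c)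
    (f : E) (hf : IsAlgebraic (IntermediateField.adjoin L (Set.range c)) f)
    (h : ∀ b, IsAlgebraic (IntermediateField.adjoin L (c '' {b}ᶜ)) f) : IsAlgebraic L f := by
  have hinj : Function.Injective c := hc.injective
  have hI : (AlgebraicIndependent.matroid L E).Indep (Set.range c) := by
    rw [AlgebraicIndependent.matroid_indep_iff]
    exact hc.to_subtype_range
  have h0 : IsAlgebraic (IntermediateField.adjoin L (∅ : Set E)) f := by
    rw [exch_iff]
    rcases isEmpty_or_nonempty β with hβ | hβ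
    · rw [exch_iff] at hf
      rwa [Set.range_eq_empty] at hf
    · have key := Matroid.Indep.closure_iInter_eq_biInter_closure_of_forall_subset
        (Js := fun b => c '' {b}ᶜ) hI (fun b => Set.image_subset_range _ _)
      have he : (⋂ b, c '' {b}ᶜ) = (∅ : Set E) := by
        ext x
        simp only [Set.mem_iInter, Set.mem_image, Set.mem_compl_iff, Set.mem_singleton_iff,
          Set.mem_empty_iff_false, iff_false]
        intro hx
        obtain ⟨b⟩ := hβ
        obtain ⟨y, -, hy⟩ := hx b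
        obtain ⟨z, hz, hz'⟩ := hx y
        exact hz (hinj (hz'.trans hy.symm))
      rw [he] at key
      rw [key, Set.mem_iInter]
      intro b
      rw [← exch_iff]
      exact h b
  rw [IntermediateField.adjoin_empty] at h0
  exact h0.restrictScalars L

end Pool.Agent.Helper8.LG
end
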