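import Pool.Agent.Helper12.LVM.C01
import Pool.Agent.Helper12.LVM.C03
import Pool.Agent.Helper12.LVM.C04
import Pool.Agent.Helper12.LVM.C05

/- Helper8.LV.Defs -/
section
/-!
# LV: moving linear systems, definitions

`F_i = A_i + P_i H_i`: the coefficients of `H_i` move, those of `A_i` and `P_i` are killed by the
derivations.
-/

set_option autoImplicit false

namespace Pool.Agent.Helper8.LV

open scoped BigOperators
open Pool.Agent.Helper8.LG

section

variable {E : Type*} [Field E] {σ ι P τ : Type*}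

/-- `F_i = A_i + P_i H_i`, where `a i`, `A i`, `p i`, `h i` are the coefficients of `F_i`, `A_i`,
`P_i`, `H_i`. -/
structure Fam [Fintype σ] [DecidableEq σ] (d b q : ι → ℕ) (a A : (i : ι) → Sym σ (d i) → E)
    (p : (i : ι) → Sym σ (b i) → E) (h : (i : ι) → Sym σ (q i) → E) : Prop where
  deg : ∀ i, d i = b i + q i
  eq : ∀ i J, a i J = A i J + ∑ J' : Sym σ (b i), ∑ J'' : Sym σ (q i),
    if (J' : Multiset σ) + (J'' : Multiset σ) = (J : Multiset σ) then p i J' * h i J'' else 0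

/-- Moreover the coefficients of `A_i` and `P_i` are killed by the derivations. -/
structure Mov [Fintype σ] [DecidableEq σ] (d b q : ι → ℕ) (a A : (i : ι) → Sym σ (d i) → E)
    (p : (i : ι) → Sym σ (b i) → E) (h : (i : ι) → Sym σ (q i) → E)
    (D : P → Derivation ℤ E E) : Prop extends Fam d b q a A p h where
  DA : ∀ s i J, D s (A i J) = 0
  Dp : ∀ s i J, D s (p i J) = 0

theorem Fam.map [Fintype σ] [DecidableEq σ] {E' : Type*} [Field E'] {d b q : ι → ℕ}
    {a A : (i : ι) → Sym σ (d i) → E} {p : (i : ι) → Sym σ (b i) → E}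
    {h : (i : ι) → Sym σ (q i) → E} (H : Fam d b q a A p h) (f : E →+* E') :
    Fam d b q (fun i J => f (a i J)) (fun i J => f (A i J)) (fun i J => f (p i J))
      fun i J => f (h i J) where
  deg := H.deg
  eq := fun i J => by
    rw [H.eq i J, map_add, map_sum]
    congr 1
    refine Finset.sum_congr rfl fun J' _ => ?_
    rw [map_sum]
    refine Finset.sum_congr rfl fun J'' _ => ?_
    split_ifs
    · exact map_mul _ _ _
    · exact map_zero _

/-- The coefficients `A i J` come from `k`. -/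
def Over (k : Type*) [Field k] [Algebra k E] {d : ι → ℕ} (A : (i : ι) → Sym σ (d i) → E) : Prop :=
  ∀ i J, ∃ c : k, algebraMap k E c = A i J

theorem Fam.mov [Fintype σ] [DecidableEq σ] {k : Type*} [Field k] [Algebra k E] {d b q : ι → ℕ}
    {a A : (i : ι) → Sym σ (d i) → E} {p : (i : ι) → Sym σ (b i) → E}
    {h : (i : ι) → Sym σ (q i) → E} (H : Fam d b q a A p h) (hA : Over k A) (hp : Over k p)
    (D : P → Derivation ℤ E E) (hD : ∀ s (c : k), D s (algebraMap k E c) = 0) :
    Mov d b q a A p h D where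
  toFam := H
  DA := fun s i J => by
    obtain ⟨c, hc⟩ := hA i J
    rw [← hc]
    exact hD s c
  Dp := fun s i J => by
    obtain ⟨c, hc⟩ := hp i J
    rw [← hc]
    exact hD s c

theorem Over.map {k : Type*} [Field k] [Algebra k E] {d : ι → ℕ} {A : (i : ι) → Sym σ (d i) → E}
    (H : Over k A) {E' : Type*} [Field E'] [Algebra E E'] [Algebra k E'] [IsScalarTower k E E'] :
    Over k fun i J => algebraMap E E' (A i J) := by
  intro i J
  obtain ⟨c, hc⟩ := H i J
  exact ⟨c, (IsScalarTower.algebraMap_apply k E E' c).trans (congrArg _ hc)⟩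

/-- The conclusion of the key lemma: `G x_l` is integral up to a power of `Δ` at all valuation
rings where `Δ` bounds the derivations, the corrections and the rows. -/
def KeyV [Fintype σ] [DecidableEq σ] [Fintype ι] [Fintype τ]
    (d e : ι → ℕ) (a : (i : ι) → Sym σ (d i) → E) (D : P → Derivation ℤ E E)
    (θ : τ → P → E) (Z : Finset ι) (u : ι → E) (x : σ → E) (G : E) : Prop :=
  ∀ (O : ValuationSubring E) (Δ : E), Bdd D Δ O → (∀ j s, Δ * θ j s ∈ O) →
      (∀ i ∉ Z, RowBdd D Δ O x (form (a i)) (u i) (e i)) →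
      ∀ l, Δ ^ (Fintype.card σ + Fintype.card ι + Fintype.card τ) * (G * x l) ∈ O

/-- The numerical hypotheses: `Z` and `C` are disjoint, `d_i > 0`, `q_i > 0`, `d_i = m_i e_i` for
`i ∈ C`, `e_i = 0` for `i ∉ C`, and `∑ q_i + |Z| - ∑ e_i ≥ 2 w + 2 + c`. -/
structure NumV [Fintype ι] (d q e m : ι → ℕ) (Z C : Finset ι) (w c : ℕ) : Prop where
  pos : ∀ i, 0 < d i
  posq : ∀ i, 0 < q i
  disj : ∀ i ∈ C, i ∉ Z
  deg : ∀ i ∈ C, d i = m i * e i
  e0 : ∀ i ∉ C, e i = 0
  ineq : 2 * w + 2 + c + ∑ i, e i ≤ ∑ i, q i + Z.card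

/-- The conditions on a normalised point `x` with roots `y_i`, `i ∈ C`:
`F_i(x) = 0` for `i ∈ Z`, `F_i(x) ≠ 0` for `i ∉ Z`, `y_i ^ m_i = F_i(x)` for `i ∈ C`, all
`x^J/F_i(x)` integral over `A` for the other `i`, rank at most `w + 1`. -/
structure GoodV [Fintype σ] [DecidableEq σ]
    (d m : ι → ℕ) (a : (i : ι) → Sym σ (d i) → E) (D : P → Derivation ℤ E E)
    (Z C : Finset ι) (i₀ : σ) (w : ℕ) (A : Subring E) (x : σ → E) (y : ι → E) : Prop where
  one : x i₀ = 1
  zero : ∀ i ∈ Z, form (a i) x = 0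
  ne : ∀ i ∉ Z, form (a i) x ≠ 0
  root : ∀ i ∈ C, y i ^ m i = form (a i) x
  int : ∀ i ∉ Z, i ∉ C → ∀ J : Sym σ (d i), IsIntegral A (mon x J / form (a i) x)
  rank : MinorsVanish D x w

end

end Pool.Agent.Helper8.LV
end

/- Helper8.LV.KeyDefs -/
section
/-! # LG-KEY: definitions for the linear algebra

The rows are `(σ ⊕ ι) ⊕ τ`: the coordinates of the point, the forms, the corrections. -/

set_option autoImplicit false

namespace Pool.Agent.Helper8.LV

open Pool.Agent.Helper8.LG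

open scoped BigOperators

variable {E : Type*} [Field E] {σ ι τ : Type*} [Fintype σ] [DecidableEq σ]
  [DecidableEq ι]

/-- the Euler column `(x; d_i; 0)`, zero in the rows of `Z` -/
def eul (d : ι → ℕ) (Z : Finset ι) (x : σ → E) : (σ ⊕ ι) ⊕ τ → E :=
  Sum.elim (Sum.elim x fun i => if i ∈ Z then 0 else (d i : E)) fun _ => 0

/-- the column `(D_s x; D_s F_i(x) / F_i(x); θ_s)` of an index `s`, zero in the rows of `Z` -/
def cv (n : ι → ℕ) {d : ι → ℕ} (a : (i : ι) → Sym σ (d i) → E)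
    (D : Ix σ (fun i => n i + 1) → Derivation ℤ E E)
    (θ : τ → Ix σ (fun i => n i + 1) → E) (Z : Finset ι) (x : σ → E)
    (s : Ix σ (fun i => n i + 1)) : (σ ⊕ ι) ⊕ τ → E :=
  Sum.elim (Sum.elim (fun l => D s (x l)) fun i =>
    if i ∈ Z then 0 else D s (form (a i) x) / form (a i) x) fun j => θ j s

/-- the column of the linear syzygy `x_j ∂_(I + e_l) - x_l ∂_(I + e_j)`,
`s = (i, I, j, l)` -/
def syz (n : ι → ℕ) {d : ι → ℕ} (a : (i : ι) → Sym σ (d i) → E)
    (D : Ix σ (fun i => n i + 1) → Derivation ℤ E E)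
    (θ : τ → Ix σ (fun i => n i + 1) → E) (Z : Finset ι) (x : σ → E)
    (s : Σ i : ι, Sym σ (n i) × σ × σ) : (σ ⊕ ι) ⊕ τ → E :=
  x s.2.2.1 • cv n a D θ Z x ⟨s.1, s.2.2.2 ::ₛ s.2.1⟩ -
    x s.2.2.2 • cv n a D θ Z x ⟨s.1, s.2.2.1 ::ₛ s.2.1⟩

/-- multiplication of the `x`-rows by `c` -/
def phi (c : E) : ((σ ⊕ ι) ⊕ τ → E) →ₗ[E] ((σ ⊕ ι) ⊕ τ → E) :=
  LinearMap.pi fun r =>
    (Sum.elim (Sum.elim (fun _ => c) fun _ => 1) (fun _ => 1) r : E) • LinearMap.proj r

end Pool.Agent.Helper8.LV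
end

/- Helper8.LV.KeyPath -/
section
/-! # LG-K2: modulo the linear syzygies all columns of one form are proportional -/

set_option autoImplicit false

namespace Pool.Agent.Helper8.LV

open Pool.Agent.Helper8.LG

open scoped BigOperators

section path

variable {R M τ : Type*} [CommRing R] [AddCommGroup M] [Module R M]

/-- a function on multisets of one size, extended by zero -/
private noncomputable def K2_ext (m : ℕ) (V : Sym τ m → M) (s : Multiset τ) : M := by
  classical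
  exact if h : s.card = m then V (Sym.mk s h) else 0

private theorem K2_ext_coe (m : ℕ) (V : Sym τ m → M) (J : Sym τ m) :
    K2_ext m V (J : Multiset τ) = V J := by
  have h : (J : Multiset τ).card = m := J.2
  unfold K2_ext
  rw [dif_pos h]
  rfl

private theorem K2_path (m : ℕ) (V : Sym τ (m + 1) → M) (W : Submodule R M) (x : τ → R)
    (hW : ∀ (I : Sym τ m) (j l : τ), x j • V (l ::ₛ I) - x l • V (j ::ₛ I) ∈ W) (j₀ : τ)
    (s : Multiset τ) : ∀ t : Multiset τ, s.card + t.card = m + 1 →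
      x j₀ ^ s.card • K2_ext (m + 1) V (s + t) -
        (s.map x).prod • K2_ext (m + 1) V (Multiset.replicate s.card j₀ + t) ∈ W := by
  induction s using Multiset.induction_on with
  | empty =>
    intro t _
    simp
  | cons l s ih =>
    intro t ht
    rw [Multiset.card_cons] at ht
    have h1 := ih (l ::ₘ t) (by rw [Multiset.card_cons]; omega)
    have hI : (Multiset.replicate s.card j₀ + t).card = m := by
      rw [Multiset.card_add, Multiset.card_replicate]; omega
    have h2 := hW (Sym.mk (Multiset.replicate s.card j₀ + t) hI) j₀ l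
    rw [← K2_ext_coe (m + 1) V, ← K2_ext_coe (m + 1) V, Sym.coe_cons, Sym.coe_cons] at h2
    have h3 := W.add_mem (W.smul_mem (x j₀) h1) (W.smul_mem (s.map x).prod h2)
    have e1 : s + l ::ₘ t = l ::ₘ s + t := by
      rw [Multiset.add_cons, Multiset.cons_add]
    have e2 : Multiset.replicate s.card j₀ + l ::ₘ t =
        l ::ₘ (Multiset.replicate s.card j₀ + t) := by
      rw [Multiset.add_cons]
    have e3 : Multiset.replicate (s.card + 1) j₀ + t =
        j₀ ::ₘ (Multiset.replicate s.card j₀ + t) := by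
      rw [Multiset.replicate_succ, Multiset.cons_add]
    rw [e1, e2, Sym.coe_mk] at h3
    rw [Multiset.card_cons, e3, Multiset.map_cons, Multiset.prod_cons]
    have e5 : x j₀ ^ (s.card + 1) • K2_ext (m + 1) V (l ::ₘ s + t) -
        (x l * (s.map x).prod) • K2_ext (m + 1) V
          (j₀ ::ₘ (Multiset.replicate s.card j₀ + t)) =
        x j₀ • (x j₀ ^ s.card • K2_ext (m + 1) V (l ::ₘ s + t) -
          (s.map x).prod • K2_ext (m + 1) V
            (l ::ₘ (Multiset.replicate s.card j₀ + t))) +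
        (s.map x).prod • (x j₀ • K2_ext (m + 1) V
            (l ::ₘ (Multiset.replicate s.card j₀ + t)) -
          x l • K2_ext (m + 1) V
            (j₀ ::ₘ (Multiset.replicate s.card j₀ + t))) := by
      module
    rw [e5]
    exact h3

private theorem K2_main (m : ℕ) (V : Sym τ (m + 1) → M) (W : Submodule R M) (x : τ → R)
    (hW : ∀ (I : Sym τ m) (j l : τ), x j • V (l ::ₛ I) - x l • V (j ::ₛ I) ∈ W) (j₀ : τ)
    (J : Sym τ (m + 1)) :
    x j₀ ^ (m + 1) • V J - mon x J • V (Sym.replicate (m + 1) j₀) ∈ W := by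
  have hc : (J : Multiset τ).card = m + 1 := J.2
  have h := K2_path m V W x hW j₀ (J : Multiset τ) 0 (by rw [hc]; simp)
  rw [hc, add_zero, add_zero, K2_ext_coe] at h
  have hr : (Multiset.replicate (m + 1) j₀ : Multiset τ) =
      ((Sym.replicate (m + 1) j₀ : Sym τ (m + 1)) : Multiset τ) := by
    rw [Sym.coe_replicate]
  rw [hr, K2_ext_coe] at h
  exact h

end path

variable {E : Type*} [Field E] {σ ι τ : Type*} [Fintype σ] [DecidableEq σ]
  [DecidableEq ι]

theorem cv_sub_mem (n : ι → ℕ) {d : ι → ℕ} (a : (i : ι) → Sym σ (d i) → E)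
    (D : Ix σ (fun i => n i + 1) → Derivation ℤ E E)
    (θ : τ → Ix σ (fun i => n i + 1) → E) (Z : Finset ι) (x : σ → E)
    (j₀ : σ) (i : ι) (J : Sym σ (n i + 1)) :
    x j₀ ^ (n i + 1) • cv n a D θ Z x ⟨i, J⟩ -
      mon x J • cv n a D θ Z x ⟨i, Sym.replicate (n i + 1) j₀⟩ ∈
      Submodule.span E (Set.range (syz n a D θ Z x)) := by
  refine K2_main (n i) (fun J => cv n a D θ Z x ⟨i, J⟩) _ x ?_ j₀ J
  intro I j l
  exact Submodule.subset_span ⟨⟨i, I, j, l⟩, rfl⟩

end Pool.Agent.Helper8.LV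
end

/- Helper12.LVF.H8.LV.KeyFun -/
section
/-! # LG-K3: the functionals -/

set_option autoImplicit false

namespace Pool.Agent.Helper8.LV

open Pool.Agent.Helper8.LG

open scoped BigOperators

variable {E : Type*} [Field E] {σ ι τ : Type*} [Fintype σ] [DecidableEq σ]
  [DecidableEq ι]

theorem kf_grad_multiset (x : σ → E) (s : Multiset σ) :
    ∃ g : σ → E, (∀ δ : Derivation ℤ E E, δ (s.map x).prod = ∑ l, g l * δ (x l)) ∧
      ∑ l, g l * x l = (Multiset.card s : E) * (s.map x).prod := by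
  induction s using Multiset.induction_on with
  | empty => exact ⟨fun _ => 0, by intro δ; simp, by simp⟩
  | cons j s ih =>
    obtain ⟨g, hg, he⟩ := ih
    refine ⟨fun l => x j * g l + (if l = j then (s.map x).prod else 0), ?_, ?_⟩
    · intro δ
      rw [Multiset.map_cons, Multiset.prod_cons, Derivation.leibniz, hg δ]
      simp only [smul_eq_mul, add_mul, ite_mul, zero_mul, Finset.sum_add_distrib,
        Finset.sum_ite_eq', Finset.mem_univ, if_true, Finset.mul_sum, mul_assoc]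
    · rw [Multiset.map_cons, Multiset.prod_cons, Multiset.card_cons]
      simp only [add_mul, ite_mul, zero_mul, Finset.sum_add_distrib,
        Finset.sum_ite_eq', Finset.mem_univ, if_true, mul_assoc]
      rw [← Finset.mul_sum, he]
      push_cast
      ring

theorem kf_grad_form {m : ℕ} (a : Sym σ m → E) (x : σ → E) :
    ∃ g : σ → E, (∀ δ : Derivation ℤ E E,
        δ (form a x) = ∑ J, δ (a J) * mon x J + ∑ l, g l * δ (x l)) ∧
      ∑ l, g l * x l = (m : E) * form a x := by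
  choose g hg he using fun J : Sym σ m => kf_grad_multiset x (J : Multiset σ)
  refine ⟨fun l => ∑ J, a J * g J l, ?_, ?_⟩
  · intro δ
    unfold form
    rw [map_sum]
    have h1 : ∀ J : Sym σ m, δ (a J * mon x J) =
        δ (a J) * mon x J + ∑ l, a J * g J l * δ (x l) := by
      intro J
      rw [Derivation.leibniz]
      unfold mon
      rw [hg J δ]
      simp only [smul_eq_mul, Finset.mul_sum, mul_assoc]
      rw [add_comm, mul_comm (δ (a J))]
    simp only [h1]
    rw [Finset.sum_add_distrib, Finset.sum_comm (f := fun J l => a J * g J l * δ (x l))]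
    simp only [Finset.sum_mul]
  · unfold form
    simp only [Finset.sum_mul]
    rw [Finset.sum_comm, Finset.mul_sum]
    refine Finset.sum_congr rfl fun J _ => ?_
    have h2 := he J
    rw [Sym.card_coe] at h2
    simp only [mul_assoc]
    rw [← Finset.mul_sum, h2]
    unfold mon
    ring

theorem kf_mon_cons {m : ℕ} (x : σ → E) (j : σ) (I : Sym σ m) :
    mon x (j ::ₛ I) = x j * mon x I := by
  unfold mon
  rw [Sym.coe_cons, Multiset.map_cons, Multiset.prod_cons]

/-- multiplication of forms -/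
theorem kf_conv {R : Type*} [CommSemiring R] {d b q : ℕ} (hd : d = b + q) (p : Sym σ b → R)
    (h : Sym σ q → R) (x : σ → R) :
    (∑ J', p J' * mon x J') * (∑ J'', h J'' * mon x J'') =
      ∑ J : Sym σ d, (∑ J' : Sym σ b, ∑ J'' : Sym σ q,
        if (J' : Multiset σ) + (J'' : Multiset σ) = (J : Multiset σ) then p J' * h J'' else 0) *
          mon x J := by
  simp only [Finset.sum_mul]
  rw [Finset.sum_comm]
  refine Finset.sum_congr rfl fun J' _ => ?_
  rw [Finset.mul_sum, Finset.sum_comm]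
  refine Finset.sum_congr rfl fun J'' _ => ?_
  have hcard : Multiset.card ((J' : Multiset σ) + (J'' : Multiset σ)) = d := by
    rw [Multiset.card_add, Sym.card_coe, Sym.card_coe, hd]
  rw [Finset.sum_eq_single (Sym.mk ((J' : Multiset σ) + (J'' : Multiset σ)) hcard)]
  · rw [if_pos (Sym.coe_mk _ _).symm]
    unfold mon
    rw [Sym.coe_mk, Multiset.map_add, Multiset.prod_add]
    ring
  · intro J _ hJ
    rw [if_neg, zero_mul]
    intro h1
    apply hJ
    apply Sym.coe_injective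
    rw [Sym.coe_mk, h1]
  · intro h1
    exact absurd (Finset.mem_univ _) h1

theorem mov_form {P : Type*} {d b q : ι → ℕ} {a A : (i : ι) → Sym σ (d i) → E}
    {p : (i : ι) → Sym σ (b i) → E} {h : (i : ι) → Sym σ (q i) → E}
    {D : P → Derivation ℤ E E} (hM : Mov d b q a A p h D) (i : ι) (x : σ → E) :
    form (a i) x = form (A i) x + form (p i) x * form (h i) x := by
  have h1 := kf_conv (hM.deg i) (p i) (h i) x
  unfold form at h1 ⊢
  rw [h1, ← Finset.sum_add_distrib]
  refine Finset.sum_congr rfl fun J _ => ?_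
  rw [hM.eq i J, add_mul]

/-- the derivations of the coefficients of `F_i` -/
theorem mov_der {P : Type*} {d b q : ι → ℕ} {a A : (i : ι) → Sym σ (d i) → E}
    {p : (i : ι) → Sym σ (b i) → E} {h : (i : ι) → Sym σ (q i) → E}
    {D : P → Derivation ℤ E E} (hM : Mov d b q a A p h D) (s : P) (i : ι) (x : σ → E) :
    ∑ J, D s (a i J) * mon x J = form (p i) x * ∑ J, D s (h i J) * mon x J := by
  have h1 := kf_conv (hM.deg i) (p i) (fun J => D s (h i J)) x
  unfold form at h1 ⊢
  rw [h1]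
  refine Finset.sum_congr rfl fun J _ => ?_
  rw [hM.eq i J, map_add, hM.DA, zero_add, map_sum]
  congr 1
  refine Finset.sum_congr rfl fun J' _ => ?_
  rw [map_sum]
  refine Finset.sum_congr rfl fun J'' _ => ?_
  split_ifs
  · rw [Derivation.leibniz, hM.Dp, smul_zero, add_zero, smul_eq_mul]
  · exact map_zero _

theorem exists_functional [Fintype ι] [Fintype τ] (n : ι → ℕ) {d b : ι → ℕ}
    (a A : (i : ι) → Sym σ (d i) → E) (p : (i : ι) → Sym σ (b i) → E)
    (h : (i : ι) → Sym σ (n i + 1) → E)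
    (D : Ix σ (fun i => n i + 1) → Derivation ℤ E E)
    (jj : τ → Ix σ (fun i => n i + 1)) (θ : τ → Ix σ (fun i => n i + 1) → E)
    (hD : Dual (fun i => n i + 1) h D jj θ) (hM : Mov d b (fun i => n i + 1) a A p h D)
    (Z : Finset ι) (x : σ → E)
    (hZ : ∀ i ∈ Z, form (a i) x = 0) (hU : ∀ i ∉ Z, form (a i) x ≠ 0) :
    ∃ lam : ((σ ⊕ ι) ⊕ τ → E) →ₗ[E] (ι → E), lam (eul d Z x) = 0 ∧
      (∀ (i : ι) (J : Sym σ (n i + 1)),
        lam (cv n a D θ Z x ⟨i, J⟩) = Pi.single i (-(form (p i) x * mon x J))) ∧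
      ∀ s, lam (syz n a D θ Z x s) = 0 := by
  choose g hg he using fun i : ι => kf_grad_form (a i) x
  let lam : ((σ ⊕ ι) ⊕ τ → E) →ₗ[E] (ι → E) := LinearMap.pi fun i =>
    (∑ l, g i l • (LinearMap.proj (Sum.inl (Sum.inl l)) : ((σ ⊕ ι) ⊕ τ → E) →ₗ[E] E)) -
      (if i ∈ Z then (0 : E) else form (a i) x) •
        (LinearMap.proj (Sum.inl (Sum.inr i)) : ((σ ⊕ ι) ⊕ τ → E) →ₗ[E] E) -
      ∑ j, (form (p i) x * if (jj j).1 = i then mon x (jj j).2 else 0) •
        (LinearMap.proj (Sum.inr j) : ((σ ⊕ ι) ⊕ τ → E) →ₗ[E] E)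
  have hlam : ∀ (v : (σ ⊕ ι) ⊕ τ → E) (i : ι), lam v i = ∑ l, g i l * v (Sum.inl (Sum.inl l)) -
      (if i ∈ Z then (0 : E) else form (a i) x) * v (Sum.inl (Sum.inr i)) -
      ∑ j, (form (p i) x * if (jj j).1 = i then mon x (jj j).2 else 0) * v (Sum.inr j) := by
    intro v i
    show ((∑ l, g i l • (LinearMap.proj (Sum.inl (Sum.inl l)) : ((σ ⊕ ι) ⊕ τ → E) →ₗ[E] E)) -
      (if i ∈ Z then (0 : E) else form (a i) x) •
        (LinearMap.proj (Sum.inl (Sum.inr i)) : ((σ ⊕ ι) ⊕ τ → E) →ₗ[E] E) -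
      ∑ j, (form (p i) x * if (jj j).1 = i then mon x (jj j).2 else 0) •
        (LinearMap.proj (Sum.inr j) : ((σ ⊕ ι) ⊕ τ → E) →ₗ[E] E)) v = _
    rw [LinearMap.sub_apply, LinearMap.sub_apply, LinearMap.sum_apply, LinearMap.sum_apply,
      LinearMap.smul_apply, LinearMap.proj_apply, smul_eq_mul]
    simp only [LinearMap.smul_apply, LinearMap.proj_apply, smul_eq_mul]
  have hcv : ∀ (s : Ix σ (fun i => n i + 1)) (i : ι),
      lam (cv n a D θ Z x s) i = -∑ J, D s (a i J) * mon x J -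
        ∑ j, (form (p i) x * if (jj j).1 = i then mon x (jj j).2 else 0) * θ j s := by
    intro s i
    rw [hlam]
    have h1 := hg i (D s)
    simp only [cv, Sum.elim_inl, Sum.elim_inr]
    by_cases hi : i ∈ Z
    · rw [if_pos hi, hZ i hi, map_zero] at *
      rw [zero_mul, sub_zero]
      linear_combination -h1
    · rw [if_neg hi, if_neg hi, mul_div_cancel₀ _ (hU i hi), h1]
      ring
  -- the coefficient form of `D_s H_i`
  have hsum : ∀ (s : Ix σ (fun i => n i + 1)) (i : ι), ∑ J, D s (h i J) * mon x J =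
      (if s.1 = i then mon x s.2 else 0) -
        ∑ j, (if (jj j).1 = i then mon x (jj j).2 else 0) * θ j s := by
    intro s i
    have h1 : ∀ J : Sym σ (n i + 1), D s (h i J) * mon x J =
        (if s = ⟨i, J⟩ then mon x J else 0) -
          ∑ j, if jj j = ⟨i, J⟩ then θ j s * mon x J else 0 := by
      intro J
      rw [hD s ⟨i, J⟩, sub_mul, Finset.sum_mul]
      congr 1
      · split_ifs <;> simp
      · refine Finset.sum_congr rfl fun j _ => ?_
        split_ifs <;> simp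
    have h2 : ∀ (q : Ix σ (fun i => n i + 1)) (f : E),
        ∑ J : Sym σ (n i + 1), (if q = ⟨i, J⟩ then f * mon x J else 0) =
          f * if q.1 = i then mon x q.2 else 0 := by
      rintro ⟨k, K⟩ f
      by_cases hk : k = i
      · subst hk
        rw [Finset.sum_eq_single K]
        · simp
        · intro J _ hJ
          rw [if_neg]
          intro h
          apply hJ
          have := eq_of_heq (Sigma.mk.inj h).2
          exact this.symm
        · intro h
          exact absurd (Finset.mem_univ K) h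
      · rw [Finset.sum_eq_zero]
        · simp [hk]
        · intro J _
          rw [if_neg]
          intro h
          exact hk (Sigma.mk.inj h).1
    rw [Finset.sum_congr rfl fun J _ => h1 J, Finset.sum_sub_distrib, Finset.sum_comm]
    congr 1
    · have h3 := h2 s 1
      simpa using h3
    · refine Finset.sum_congr rfl fun j _ => ?_
      rw [h2 (jj j) (θ j s), mul_comm]
  have hcvD : ∀ (i : ι) (J : Sym σ (n i + 1)),
      lam (cv n a D θ Z x ⟨i, J⟩) = Pi.single i (-(form (p i) x * mon x J)) := by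
    intro i J
    funext k
    rw [hcv, mov_der hM, hsum, mul_sub, Finset.mul_sum]
    simp only [← mul_assoc]
    by_cases hk : k = i
    · subst hk
      rw [Pi.single_eq_same, if_pos rfl]
      ring
    · rw [Pi.single_eq_of_ne hk, if_neg (fun h => hk h.symm)]
      ring
  refine ⟨lam, ?_, hcvD, ?_⟩
  · funext i
    rw [hlam]
    have h1 := he i
    simp only [eul, Sum.elim_inl, Sum.elim_inr, Pi.zero_apply, mul_zero, Finset.sum_const_zero,
      sub_zero]
    rw [h1]
    by_cases hi : i ∈ Z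
    · rw [if_pos hi, hZ i hi]
      ring
    · rw [if_neg hi, if_neg hi]
      ring
  · rintro ⟨i, I, j, l⟩
    simp only [syz, map_sub, map_smul, hcvD, kf_mon_cons]
    funext k
    by_cases hk : k = i
    · subst hk
      simp only [Pi.sub_apply, Pi.smul_apply, Pi.single_eq_same, smul_eq_mul, Pi.zero_apply]
      ring
    · simp only [Pi.sub_apply, Pi.smul_apply, Pi.single_eq_of_ne hk, smul_eq_mul, Pi.zero_apply]
      ring

/-- change of normalisation -/
theorem eul_scale (d : ι → ℕ) (Z : Finset ι) (x : σ → E) (c : E) (hc : c ≠ 0) :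
    (eul d Z x : (σ ⊕ ι) ⊕ τ → E) = phi c (eul d Z fun l => x l / c) := by
  funext r
  rcases r with (l | i) | j
  · simp only [eul, phi, LinearMap.pi_apply, LinearMap.smul_apply, LinearMap.proj_apply,
      Sum.elim_inl, smul_eq_mul]
    field_simp
  · simp only [eul, phi, LinearMap.pi_apply, LinearMap.smul_apply, LinearMap.proj_apply,
      Sum.elim_inl, Sum.elim_inr, smul_eq_mul, one_mul]
  · simp only [eul, phi, LinearMap.pi_apply, LinearMap.smul_apply, LinearMap.proj_apply,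
      Sum.elim_inr, smul_eq_mul, one_mul]

theorem kf_form_scale {m : ℕ} (a : Sym σ m → E) (x : σ → E) (c : E) (hc : c ≠ 0) :
    form a x = c ^ m * form a (fun l => x l / c) := by
  unfold form
  rw [Finset.mul_sum]
  refine Finset.sum_congr rfl fun J _ => ?_
  have h1 : mon x J = c ^ m * mon (fun l => x l / c) J := by
    unfold mon
    have h2 : ((J : Multiset σ).map fun l => x l) =
        (J : Multiset σ).map fun l => c * (x l / c) := by
      refine Multiset.map_congr rfl fun l _ => ?_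
      field_simp
    have h3 : ((J : Multiset σ).map x) = ((J : Multiset σ).map fun l => x l) := rfl
    rw [h3, h2, Multiset.prod_map_mul, Multiset.map_const', Multiset.prod_replicate,
      Sym.card_coe]
  rw [h1]
  ring

theorem kf_logderiv (δ : Derivation ℤ E E) (c f : E) (m : ℕ) (hc : c ≠ 0) (hf : f ≠ 0) :
    δ (c ^ m * f) / (c ^ m * f) = δ f / f + δ c / c * (m : E) := by
  rcases m with _ | m
  · simp
  · rw [Derivation.leibniz, Derivation.leibniz_pow]
    simp only [smul_eq_mul, nsmul_eq_mul, Nat.add_sub_cancel]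
    field_simp
    ring

theorem cv_scale (n : ι → ℕ) {d : ι → ℕ} (a : (i : ι) → Sym σ (d i) → E)
    (D : Ix σ (fun i => n i + 1) → Derivation ℤ E E)
    (θ : τ → Ix σ (fun i => n i + 1) → E) (Z : Finset ι) (x : σ → E)
    (hU : ∀ i ∉ Z, form (a i) x ≠ 0) (c : E) (hc : c ≠ 0) (s : Ix σ (fun i => n i + 1)) :
    cv n a D θ Z x s =
      phi c (cv n a D θ Z (fun l => x l / c) s) + (D s c / c) • eul d Z x := by
  funext r
  set δ := D s with hδ
  rcases r with (l | i) | j
  · simp only [eul, cv, phi, LinearMap.pi_apply, LinearMap.smul_apply, LinearMap.proj_apply,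
      Sum.elim_inl, smul_eq_mul, Pi.add_apply, Pi.smul_apply]
    have h1 : x l = c * (x l / c) := by field_simp
    have h2 : δ (x l) = c * δ (x l / c) + (x l / c) * δ c := by
      conv_lhs => rw [h1]
      rw [Derivation.leibniz]
      simp only [smul_eq_mul]
    rw [h2]
    ring
  · simp only [eul, cv, phi, LinearMap.pi_apply, LinearMap.smul_apply, LinearMap.proj_apply,
      Sum.elim_inl, Sum.elim_inr, smul_eq_mul, one_mul, Pi.add_apply, Pi.smul_apply]
    by_cases hi : i ∈ Z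
    · simp only [if_pos hi]
      ring
    · simp only [if_neg hi]
      have h1 := kf_form_scale (a i) x c hc
      have h2 : form (a i) (fun l => x l / c) ≠ 0 := by
        intro h0
        apply hU i hi
        rw [h1, h0, mul_zero]
      have h3 := kf_logderiv δ c (form (a i) (fun l => x l / c)) (d i) hc h2
      rw [← h1] at h3
      exact h3
  · simp only [eul, cv, phi, LinearMap.pi_apply, LinearMap.smul_apply, LinearMap.proj_apply,
      Sum.elim_inr, smul_eq_mul, one_mul, Pi.add_apply, Pi.smul_apply, mul_zero, add_zero]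

theorem syz_scale (n : ι → ℕ) {d : ι → ℕ} (a : (i : ι) → Sym σ (d i) → E)
    (D : Ix σ (fun i => n i + 1) → Derivation ℤ E E)
    (θ : τ → Ix σ (fun i => n i + 1) → E) (Z : Finset ι) (x : σ → E)
    (hU : ∀ i ∉ Z, form (a i) x ≠ 0) (c : E) (hc : c ≠ 0)
    (s : Σ i : ι, Sym σ (n i) × σ × σ) :
    ∃ b : E, syz n a D θ Z x s = c • phi c (syz n a D θ Z (fun l => x l / c) s) +
      b • eul d Z x := by
  obtain ⟨i, I, j, l⟩ := s
  refine ⟨x j * (D ⟨i, l ::ₛ I⟩ c / c) - x l * (D ⟨i, j ::ₛ I⟩ c / c), ?_⟩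
  simp only [syz]
  rw [cv_scale n a D θ Z x hU c hc ⟨i, l ::ₛ I⟩, cv_scale n a D θ Z x hU c hc ⟨i, j ::ₛ I⟩]
  funext r
  simp only [map_sub, map_smul, Pi.sub_apply, Pi.smul_apply, Pi.add_apply, smul_eq_mul]
  have h1 : x j = c * (x j / c) := by field_simp
  have h2 : x l = c * (x l / c) := by (clear * - hc; field_simp)
  field_simp
  ring

end Pool.Agent.Helper8.LV
end

/- Helper12.LVF.H8.LV.Key -/
section
/-! # LG-KEY: the linear algebra -/

set_option autoImplicit false

namespace Pool.Agent.Helper8.LV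

open Pool.Agent.Helper8.LG

open scoped BigOperators

private theorem left_rows_le {E σ κ Q : Type*} [Field E] [Fintype κ] [DecidableEq κ] [Fintype Q]
    (C : Q → σ → E) (w : ℕ)
    (hm : ∀ (r : Fin (w + 2) → σ) (c : Fin (w + 2) → Q),
      Matrix.det (Matrix.of fun s t => C (c t) (r s)) = 0)
    (K : κ → σ → E) (hK : ∀ t, K t ∈ Submodule.span E (Set.range C)) (M : Matrix κ κ E)
    (hM : M.det ≠ 0) (S : Finset κ) (ρ : κ → σ) (hS : ∀ s ∈ S, ∀ t, M s t = K t (ρ s)) :
    S.card ≤ w + 1 := by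
  by_contra hcon
  have hcard : w + 2 ≤ S.card := by omega
  let f : Fin (w + 2) → κ := fun i => (S.equivFin.symm (Fin.castLE hcard i) : S)
  have hf : Function.Injective f := by
    intro i j hij
    have h1 := S.equivFin.symm.injective (Subtype.ext hij)
    exact Fin.castLE_injective hcard h1
  have hfS : ∀ i, f i ∈ S := fun i => (S.equivFin.symm (Fin.castLE hcard i)).2
  have hlin : LinearIndependent E fun i : Fin (w + 2) => fun q : Q => C q (ρ (f i)) := by
    rw [Fintype.linearIndependent_iff]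
    intro c hc
    have h1 : LinearIndependent E fun i : Fin (w + 2) => M (f i) :=
      (Matrix.linearIndependent_rows_of_det_ne_zero hM).comp f hf
    rw [Fintype.linearIndependent_iff] at h1
    refine h1 c ?_
    funext t
    obtain ⟨T, hT⟩ := (Submodule.mem_span_range_iff_exists_fun E).1 (hK t)
    simp only [Finset.sum_apply, Pi.smul_apply, smul_eq_mul, Pi.zero_apply]
    have h2 : ∀ i, M (f i) t = ∑ q, T q * C q (ρ (f i)) := by
      intro i
      rw [hS _ (hfS i), ← hT]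
      simp
    calc ∑ i, c i * M (f i) t = ∑ q, T q * ∑ i, c i * C q (ρ (f i)) := by
          simp only [h2, Finset.mul_sum]
          rw [Finset.sum_comm]
          exact Finset.sum_congr rfl fun q _ => Finset.sum_congr rfl fun i _ => by ring
      _ = 0 := by
          apply Finset.sum_eq_zero
          intro q _
          have h3 := congrFun hc q
          simp only [Finset.sum_apply, Pi.smul_apply, smul_eq_mul, Pi.zero_apply] at h3
          rw [h3, mul_zero]
  obtain ⟨c, _, hc⟩ := exists_minor _ hlin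
  apply hc
  have h4 := hm (fun s => ρ (f s)) c
  rw [← Matrix.det_transpose] at h4
  exact h4

private theorem sum_single_smul {E κ V : Type*} [Semiring E] [AddCommMonoid V] [Module E V]
    [Fintype κ] [DecidableEq κ] (t : κ) (c : E) (v : κ → V) :
    ∑ t', (Pi.single t c : κ → E) t' • v t' = c • v t := by
  rw [Finset.sum_eq_single t]
  · rw [Pi.single_eq_same]
  · intro t' _ h
    rw [Pi.single_eq_of_ne h, zero_smul]
  · intro h
    exact absurd (Finset.mem_univ t) h

section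

variable {E : Type*} [Field E] {σ ι Tt : Type*} [Fintype σ] [DecidableEq σ] [DecidableEq ι]
  (n : ι → ℕ) {d : ι → ℕ} (a : (i : ι) → Sym σ (d i) → E)
  (D : Ix σ (fun i => n i + 1) → Derivation ℤ E E)
  (θ : Tt → Ix σ (fun i => n i + 1) → E) (Z : Finset ι) (x : σ → E)

omit [Fintype σ] [DecidableEq σ] [DecidableEq ι] in
private theorem phi_inj {c : E} (hc : c ≠ 0) :
    Function.Injective (phi (σ := σ) (ι := ι) (τ := Tt) c) := by
  intro f g h
  funext r
  have h1 := congrFun h r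
  rcases r with (l | i) | j
  · simp only [phi, LinearMap.pi_apply, LinearMap.smul_apply, LinearMap.proj_apply, Sum.elim_inl,
      smul_eq_mul] at h1
    exact mul_left_cancel₀ hc h1
  · simpa only [phi, LinearMap.pi_apply, LinearMap.smul_apply, LinearMap.proj_apply, Sum.elim_inl,
      Sum.elim_inr, smul_eq_mul, one_mul] using h1
  · simpa only [phi, LinearMap.pi_apply, LinearMap.smul_apply, LinearMap.proj_apply, Sum.elim_inr,
      smul_eq_mul, one_mul] using h1

omit [Fintype σ] [DecidableEq σ] [DecidableEq ι] in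
private theorem phi_apply (c : E) (f : (σ ⊕ ι) ⊕ Tt → E) (r : (σ ⊕ ι) ⊕ Tt) :
    phi c f r = (Sum.elim (Sum.elim (fun _ => c) (fun _ => 1)) (fun _ => 1) r : E) * f r := rfl

omit [Fintype σ] [DecidableEq σ] in
private theorem eul_row {i : ι} (hi : i ∈ Z) :
    (eul d Z x : (σ ⊕ ι) ⊕ Tt → E) (Sum.inl (Sum.inr i)) = 0 := by
  simp [eul, hi]

private theorem cv_row (s : Ix σ (fun i => n i + 1)) {i : ι} (hi : i ∈ Z) :
    cv n a D θ Z x s (Sum.inl (Sum.inr i)) = 0 := by
  simp [cv, hi]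

private theorem syz_row (s : Σ i : ι, Sym σ (n i) × σ × σ) {i : ι} (hi : i ∈ Z) :
    syz n a D θ Z x s (Sum.inl (Sum.inr i)) = 0 := by
  simp [syz, cv_row n a D θ Z x _ hi]

/-- the column indexed by `o` -/
private def colF (o : Option (Σ i : ι, Sym σ (n i) × σ × σ)) : (σ ⊕ ι) ⊕ Tt → E :=
  o.elim (eul d Z x) (syz n a D θ Z x)

/-- the column indexed by `i` -/
private def colR (j : σ) (i : ι) : (σ ⊕ ι) ⊕ Tt → E :=
  cv n a D θ Z x ⟨i, Sym.replicate (n i + 1) j⟩

omit [Fintype σ] [DecidableEq σ] in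
private theorem mon_rep (x : σ → E) (m : ℕ) (j : σ) : mon x (Sym.replicate m j) = x j ^ m := by
  simp [mon, Sym.coe_replicate]

variable {n a D θ Z x}

private theorem span_tilde (b : Set (Option (Σ i : ι, Sym σ (n i) × σ × σ))) (hb0 : none ∈ b)
    (hbsp : ∀ s, syz n a D θ Z x s ∈
      Submodule.span E (Set.range fun o : b => colF n a D θ Z x (o : Option _)))
    (hU : ∀ i ∉ Z, form (a i) x ≠ 0) {c : E} (hc : c ≠ 0)
    (s : Σ i : ι, Sym σ (n i) × σ × σ) :
    syz n a D θ Z (fun l => x l / c) s ∈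
      Submodule.span E (Set.range fun o : b => colF n a D θ Z (fun l => x l / c) (o : Option _)) := by
  set W := Submodule.span E
    (Set.range fun o : b => colF n a D θ Z (fun l => x l / c) (o : Option _)) with hW
  have h0 : eul d Z (fun l => x l / c) ∈ W := Submodule.subset_span ⟨⟨none, hb0⟩, rfl⟩
  have h0' : (eul d Z x : (σ ⊕ ι) ⊕ Tt → E) ∈ W.map (phi c) := by
    rw [eul_scale d Z x c hc]
    exact Submodule.mem_map_of_mem h0
  have h1 : Submodule.span E (Set.range fun o : b => colF n a D θ Z x (o : Option _)) ≤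
      W.map (phi c) := by
    rw [Submodule.span_le]
    rintro _ ⟨⟨o, ho⟩, rfl⟩
    rcases o with _ | s'
    · exact h0'
    · obtain ⟨bb, hbb⟩ := syz_scale n a D θ Z x hU c hc s'
      change syz n a D θ Z x s' ∈ W.map (phi c)
      rw [hbb]
      exact add_mem (Submodule.smul_mem _ _ (Submodule.mem_map_of_mem
        (Submodule.subset_span ⟨⟨some s', ho⟩, rfl⟩))) (Submodule.smul_mem _ _ h0')
  obtain ⟨bb, hbb⟩ := syz_scale n a D θ Z x hU c hc s
  have h2 := h1 (hbsp s)
  have h3 : c • phi c (syz n a D θ Z (fun l => x l / c) s) ∈ W.map (phi c) := by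
    have h4 := sub_mem h2 (Submodule.smul_mem _ bb h0')
    rwa [hbb, add_sub_cancel_right] at h4
  have h5 : phi c (syz n a D θ Z (fun l => x l / c) s) ∈ W.map (phi c) := by
    have h6 := Submodule.smul_mem _ c⁻¹ h3
    rwa [smul_smul, inv_mul_cancel₀ hc, one_smul] at h6
  obtain ⟨y, hy, hy2⟩ := h5
  rw [← phi_inj hc hy2]
  exact hy

/-- the column indexed by `t` -/
private def colK (n : ι → ℕ) {d : ι → ℕ} (a : (i : ι) → Sym σ (d i) → E)
    (D : Ix σ (fun i => n i + 1) → Derivation ℤ E E)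
    (θ : Tt → Ix σ (fun i => n i + 1) → E) (Z : Finset ι)
    (b : Set (Option (Σ i : ι, Sym σ (n i) × σ × σ))) (x : σ → E) (j : σ) :
    (b ⊕ ι) → (σ ⊕ ι) ⊕ Tt → E :=
  Sum.elim (fun o : b => colF n a D θ Z x (o : Option _)) (colR n a D θ Z x j)

private def rkK {S : Type*} (b : Set (Option S)) : (b ⊕ ι) → ℕ :=
  Sum.elim (fun o : b => (o : Option S).elim 0 fun _ => 1) fun _ => 2

private def gK (n : ι → ℕ) {S : Type*} (b : Set (Option S)) (c : E) : (b ⊕ ι) → E :=
  Sum.elim (fun o : b => (o : Option S).elim 1 fun _ => c) fun i => (c ^ (n i + 1))⁻¹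

private theorem exists_T [Fintype ι] (b : Set (Option (Σ i : ι, Sym σ (n i) × σ × σ)))
    [Fintype b] [DecidableEq (b ⊕ ι)] (hb0 : none ∈ b)
    (hbsp : ∀ s, syz n a D θ Z x s ∈
      Submodule.span E (Set.range fun o : b => colF n a D θ Z x (o : Option _)))
    (hU : ∀ i ∉ Z, form (a i) x ≠ 0) (i₀ : σ) (hx : x i₀ = 1) (j₀ : σ) (hj : x j₀ ≠ 0)
    (t : b ⊕ ι) :
    ∃ τ : (b ⊕ ι) → E,
      colK n a D θ Z b x i₀ t =
        ∑ t', τ t' • phi (x j₀) (colK n a D θ Z b (fun l => x l / x j₀) j₀ t') ∧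
      τ t = gK n b (x j₀) t ∧ ∀ t', t' ≠ t → rkK b t ≤ rkK b t' → τ t' = 0 := by
  set c := x j₀ with hc
  set xt : σ → E := fun l => x l / c with hxt
  set N : b ⊕ ι := Sum.inl ⟨none, hb0⟩ with hN
  have hN1 : phi c (colK n a D θ Z b xt j₀ N) = eul d Z x := (eul_scale d Z x c hj).symm
  rcases t with ⟨o, ho⟩ | i
  · rcases o with _ | s
    · refine ⟨Pi.single N 1, ?_, ?_, ?_⟩
      · rw [sum_single_smul, one_smul, hN1]
        rfl
      · rw [← hN, Pi.single_eq_same]
        rfl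
      · intro t' ht _
        rw [Pi.single_eq_of_ne ht]
    · obtain ⟨bb, hbb⟩ := syz_scale n a D θ Z x hU c hj s
      have hne : (Sum.inl ⟨some s, ho⟩ : b ⊕ ι) ≠ N := by
        intro h
        have h1 := congrArg Subtype.val (Sum.inl_injective h)
        cases h1
      refine ⟨Pi.single (Sum.inl ⟨some s, ho⟩) c + Pi.single N bb, ?_, ?_, ?_⟩
      · simp only [Pi.add_apply, add_smul, Finset.sum_add_distrib, sum_single_smul]
        rw [hN1]
        exact hbb
      · rw [Pi.add_apply, Pi.single_eq_same, Pi.single_eq_of_ne hne, add_zero]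
        rfl
      · intro t' ht hrk
        have h1 : t' ≠ N := by
          intro h
          rw [h] at hrk
          change 1 ≤ 0 at hrk
          omega
        rw [Pi.add_apply, Pi.single_eq_of_ne ht, Pi.single_eq_of_ne h1, add_zero]
  · have h1 := cv_sub_mem n a D θ Z xt j₀ i (Sym.replicate (n i + 1) i₀)
    have hxj : xt j₀ = 1 := div_self hj
    rw [hxj, one_pow, one_smul, mon_rep] at h1
    have h2 : Submodule.span E (Set.range (syz n a D θ Z xt)) ≤
        Submodule.span E (Set.range fun o : b => colF n a D θ Z xt (o : Option _)) := by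
      rw [Submodule.span_le]
      rintro _ ⟨s, rfl⟩
      exact span_tilde b hb0 hbsp hU hj s
    obtain ⟨cf, hcf⟩ := (Submodule.mem_span_range_iff_exists_fun E).1 (h2 h1)
    have hxi : xt i₀ ^ (n i + 1) = (c ^ (n i + 1))⁻¹ := by
      rw [hxt]
      simp only
      rw [hx, one_div, inv_pow]
    rw [hxi] at hcf
    have h3 : cv n a D θ Z xt ⟨i, Sym.replicate (n i + 1) i₀⟩ =
        (c ^ (n i + 1))⁻¹ • colK n a D θ Z b xt j₀ (Sum.inr i) +
          ∑ o : b, cf o • colK n a D θ Z b xt j₀ (Sum.inl o) := by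
      have h4 : ∑ o : b, cf o • colK n a D θ Z b xt j₀ (Sum.inl o) =
          cv n a D θ Z xt ⟨i, Sym.replicate (n i + 1) i₀⟩ -
            (c ^ (n i + 1))⁻¹ • cv n a D θ Z xt ⟨i, Sym.replicate (n i + 1) j₀⟩ := hcf
      rw [h4]
      change _ = (c ^ (n i + 1))⁻¹ • cv n a D θ Z xt ⟨i, Sym.replicate (n i + 1) j₀⟩ + _
      abel
    set bb := D ⟨i, Sym.replicate (n i + 1) i₀⟩ c / c with hbb
    have h5 : colK n a D θ Z b x i₀ (Sum.inr i) =
        (c ^ (n i + 1))⁻¹ • phi c (colK n a D θ Z b xt j₀ (Sum.inr i)) +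
          ∑ o : b, cf o • phi c (colK n a D θ Z b xt j₀ (Sum.inl o)) +
            bb • phi c (colK n a D θ Z b xt j₀ N) := by
      rw [hN1]
      have h6 := cv_scale n a D θ Z x hU c hj ⟨i, Sym.replicate (n i + 1) i₀⟩
      rw [h3, map_add, map_smul, map_sum] at h6
      simp only [map_smul] at h6
      exact h6
    have hNr : (Sum.inr i : b ⊕ ι) ≠ N := Sum.inr_ne_inl
    refine ⟨Pi.single (Sum.inr i) (c ^ (n i + 1))⁻¹ + Sum.elim cf 0 + Pi.single N bb, ?_, ?_, ?_⟩
    · simp only [Pi.add_apply, add_smul, Finset.sum_add_distrib, sum_single_smul]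
      rw [h5]
      congr 2
      rw [Fintype.sum_sum_type]
      simp
    · rw [Pi.add_apply, Pi.add_apply, Pi.single_eq_same, Pi.single_eq_of_ne hNr, add_zero]
      simp [gK]
    · intro t' ht hrk
      rcases t' with o | i'
      · exfalso
        rcases o with ⟨_ | s, ho⟩
        · change 2 ≤ 0 at hrk
          omega
        · change 2 ≤ 1 at hrk
          omega
      · have h7 : (Sum.inr i' : b ⊕ ι) ≠ N := Sum.inr_ne_inl
        rw [Pi.add_apply, Pi.add_apply, Pi.single_eq_of_ne ht, Pi.single_eq_of_ne h7]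
        simp

/-- the weights of the rows -/
private def wt (u : ι → E) (e : ι → ℕ) (c : E) : (σ ⊕ ι) ⊕ Tt → E :=
  Sum.elim (Sum.elim (fun _ => 1) fun i => u i / c ^ e i) fun _ => 1

private theorem entry_mem (b : Set (Option (Σ i : ι, Sym σ (n i) × σ × σ)))
    (u : ι → E) (e : ι → ℕ) (c : E) (j₀ : σ) (O : ValuationSubring E) (Δ : E)
    (xt : σ → E) (hxt : ∀ l, xt l ∈ O) (hD : Bdd D Δ O) (hθ : ∀ j s, Δ * θ j s ∈ O)
    (r : (σ ⊕ ι) ⊕ Tt)
    (hr : ∀ i, r = Sum.inl (Sum.inr i) → i ∉ Z ∧ Δ * (u i / c ^ e i) ∈ O ∧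
      ∀ p, Δ * (u i / c ^ e i * (D p (form (a i) xt) / form (a i) xt)) ∈ O) (t : b ⊕ ι) :
    Δ * (wt u e c r * colK n a D θ Z b xt j₀ t r) ∈ O := by
  have h1 : Δ * (wt u e c r * eul d Z xt r) ∈ O := by
    rcases r with (l | i) | j
    · simp only [wt, eul, Sum.elim_inl, one_mul]
      exact mul_mem hD.1 (hxt l)
    · obtain ⟨h2, h3, _⟩ := hr i rfl
      simp only [wt, eul, Sum.elim_inl, Sum.elim_inr, if_neg h2]
      rw [← mul_assoc]
      exact mul_mem h3 (natCast_mem O _)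
    · simp only [wt, eul, Sum.elim_inr, mul_zero]
      exact zero_mem O
  have h2 : ∀ p, Δ * (wt u e c r * cv n a D θ Z xt p r) ∈ O := by
    intro p
    rcases r with (l | i) | j
    · simp only [wt, cv, Sum.elim_inl, one_mul]
      exact hD.2 p _ (hxt l)
    · obtain ⟨h2, _, h3⟩ := hr i rfl
      simp only [wt, cv, Sum.elim_inl, Sum.elim_inr, if_neg h2]
      exact h3 p
    · simp only [wt, cv, Sum.elim_inr, one_mul]
      exact hθ j p
  rcases t with ⟨o, ho⟩ | i
  · rcases o with _ | s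
    · exact h1
    · have h3 : colK n a D θ Z b xt j₀ (Sum.inl ⟨some s, ho⟩) r =
          xt s.2.2.1 * cv n a D θ Z xt ⟨s.1, s.2.2.2 ::ₛ s.2.1⟩ r -
            xt s.2.2.2 * cv n a D θ Z xt ⟨s.1, s.2.2.1 ::ₛ s.2.1⟩ r := rfl
      have h4 := sub_mem (mul_mem (hxt s.2.2.1) (h2 ⟨s.1, s.2.2.2 ::ₛ s.2.1⟩))
        (mul_mem (hxt s.2.2.2) (h2 ⟨s.1, s.2.2.1 ::ₛ s.2.1⟩))
      rw [h3]
      have h5 : Δ * (wt u e c r * (xt s.2.2.1 * cv n a D θ Z xt ⟨s.1, s.2.2.2 ::ₛ s.2.1⟩ r -
            xt s.2.2.2 * cv n a D θ Z xt ⟨s.1, s.2.2.1 ::ₛ s.2.1⟩ r)) =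
          xt s.2.2.1 * (Δ * (wt u e c r * cv n a D θ Z xt ⟨s.1, s.2.2.2 ::ₛ s.2.1⟩ r)) -
            xt s.2.2.2 * (Δ * (wt u e c r * cv n a D θ Z xt ⟨s.1, s.2.2.1 ::ₛ s.2.1⟩ r)) := by
        ring
      rw [h5]
      exact h4
  · exact h2 _

/-- the columns are linearly independent -/
private theorem li_K [Fintype ι] [Fintype Tt] {bb : ι → ℕ} {A : (i : ι) → Sym σ (d i) → E}
    {p : (i : ι) → Sym σ (bb i) → E} {h : (i : ι) → Sym σ (n i + 1) → E}
    (jj : Tt → Ix σ (fun i => n i + 1))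
    (hD : Dual (fun i => n i + 1) h D jj θ) (hM : Mov d bb (fun i => n i + 1) a A p h D)
    (hP : ∀ i, form (p i) x ≠ 0)
    (hZ : ∀ i ∈ Z, form (a i) x = 0) (hU : ∀ i ∉ Z, form (a i) x ≠ 0)
    (b : Set (Option (Σ i : ι, Sym σ (n i) × σ × σ)))
    (hbli : LinearIndependent E fun o : b => colF n a D θ Z x (o : Option _))
    (i₀ : σ) (hx : x i₀ = 1) : LinearIndependent E (colK n a D θ Z b x i₀) := by
  obtain ⟨lam, hl1, hl2, hl3⟩ := exists_functional n a A p h D jj θ hD hM Z x hZ hU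
  have hlF : ∀ o : b, lam (colF n a D θ Z x (o : Option _)) = 0 := by
    rintro ⟨o, ho⟩
    rcases o with _ | s
    · exact hl1
    · exact hl3 s
  have hlR : ∀ i, lam (colR n a D θ Z x i₀ i) = Pi.single i (-form (p i) x) := by
    intro i
    rw [colR, hl2, mon_rep, hx, one_pow, mul_one]
  have key1 : ∀ f : ι → E, lam (∑ i, f i • colR n a D θ Z x i₀ i) =
      fun i => -(f i * form (p i) x) := by
    intro f
    rw [map_sum]
    simp only [map_smul, hlR]
    funext i
    rw [Finset.sum_apply, Finset.sum_eq_single i]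
    · simp
    · intro i' _ h
      rw [Pi.smul_apply, Pi.single_eq_of_ne h.symm, smul_zero]
    · intro h
      exact absurd (Finset.mem_univ i) h
  have hRli : LinearIndependent E (colR n a D θ Z x i₀) := by
    rw [Fintype.linearIndependent_iff]
    intro f hf i
    have h1 := key1 f
    rw [hf, map_zero] at h1
    have h2 := congrFun h1 i
    rw [Pi.zero_apply] at h2
    exact (mul_eq_zero.1 (neg_eq_zero.1 h2.symm)).resolve_right (hP i)
  refine LinearIndependent.sum_type hbli hRli ?_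
  rw [Submodule.disjoint_def]
  intro z hz1 hz2
  have h1 : lam z = 0 := by
    have h2 : Submodule.span E (Set.range fun o : b => colF n a D θ Z x (o : Option _)) ≤
        LinearMap.ker lam := by
      rw [Submodule.span_le]
      rintro _ ⟨o, rfl⟩
      exact hlF o
    exact h2 hz1
  obtain ⟨f, hf⟩ := (Submodule.mem_span_range_iff_exists_fun E).1 hz2
  have h2 := key1 f
  rw [hf, h1] at h2
  have h3 : f = 0 := by
    funext i
    have h4 := congrFun h2 i
    rw [Pi.zero_apply] at h4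
    exact (mul_eq_zero.1 (neg_eq_zero.1 h4.symm)).resolve_right (hP i)
  rw [← hf, h3]
  simp

/-- the `x`-rows of the columns are combinations of `x` and the `D_p x` -/
private theorem colK_span [Fintype ι] (b : Set (Option (Σ i : ι, Sym σ (n i) × σ × σ)))
    (i₀ : σ) (t : b ⊕ ι) : (fun l => colK n a D θ Z b x i₀ t (Sum.inl (Sum.inl l))) ∈
      Submodule.span E (Set.range (col D x)) := by
  have h1 : ∀ q, col D x q ∈ Submodule.span E (Set.range (col D x)) :=
    fun q => Submodule.subset_span ⟨q, rfl⟩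
  rcases t with ⟨o, ho⟩ | i
  · rcases o with _ | s
    · exact h1 none
    · exact sub_mem (Submodule.smul_mem _ (x s.2.2.1) (h1 (some ⟨s.1, s.2.2.2 ::ₛ s.2.1⟩)))
        (Submodule.smul_mem _ (x s.2.2.2) (h1 (some ⟨s.1, s.2.2.1 ::ₛ s.2.1⟩)))
  · exact h1 (some ⟨i, Sym.replicate (n i + 1) i₀⟩)

private theorem colK_zero (b : Set (Option (Σ i : ι, Sym σ (n i) × σ × σ)))
    (i₀ : σ) (t : b ⊕ ι) {i : ι} (hi : i ∈ Z) : colK n a D θ Z b x i₀ t (Sum.inl (Sum.inr i)) = 0 := by
  rcases t with ⟨o, ho⟩ | i'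
  · rcases o with _ | s
    · exact eul_row (Tt := Tt) Z x hi
    · exact syz_row n a D θ Z x s hi
  · exact cv_row n a D θ Z x _ hi

omit [DecidableEq ι] in
private theorem prod_gK [Fintype ι] {S : Type*} (b : Set (Option S)) [Fintype b]
    (hb0 : none ∈ b) (c : E) (hc : c ≠ 0) :
    (∏ t, gK n b c t) * (c * c ^ ∑ i, (n i + 1)) = c ^ Fintype.card b := by
  classical
  rw [Fintype.prod_sum_type]
  have h1 : ∏ i : ι, gK n b c (Sum.inr i) = (c ^ ∑ i, (n i + 1))⁻¹ := by
    rw [← Finset.prod_pow_eq_pow_sum, ← Finset.prod_inv_distrib]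
    rfl
  have h2 : (∏ o : b, gK n b c (Sum.inl o)) * c = c ^ Fintype.card b := by
    rw [← Finset.mul_prod_erase Finset.univ _ (Finset.mem_univ (⟨none, hb0⟩ : b))]
    have h3 : gK n b c (Sum.inl ⟨none, hb0⟩) = 1 := rfl
    rw [h3, one_mul, Finset.prod_congr rfl (g := fun _ => c)]
    · rw [Finset.prod_const, Finset.card_erase_of_mem (Finset.mem_univ _), Finset.card_univ,
        ← pow_succ]
      congr 1
      have h5 : 0 < Fintype.card b := Fintype.card_pos_iff.2 ⟨⟨none, hb0⟩⟩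
      exact Nat.sub_add_cancel h5
    · rintro ⟨o, ho⟩ h
      rcases o with _ | s
      · exact absurd rfl (Finset.ne_of_mem_erase h)
      · rfl
  rw [h1]
  have h4 : c ^ ∑ i, (n i + 1) ≠ 0 := pow_ne_zero _ hc
  calc (∏ o : b, gK n b c (Sum.inl o)) * (c ^ ∑ i, (n i + 1))⁻¹ * (c * c ^ ∑ i, (n i + 1))
      = ((∏ o : b, gK n b c (Sum.inl o)) * c) * ((c ^ ∑ i, (n i + 1))⁻¹ * c ^ ∑ i, (n i + 1)) := by
        ring
    _ = c ^ Fintype.card b := by rw [inv_mul_cancel₀ h4, mul_one, h2]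

end

private theorem key_aux {E : Type*} [Field E] {σ ι Tt : Type*} [Fintype σ] [DecidableEq σ]
    [Fintype ι] [DecidableEq ι] [Fintype Tt] (n d bb e : ι → ℕ)
    (a A : (i : ι) → Sym σ (d i) → E) (p : (i : ι) → Sym σ (bb i) → E)
    (h : (i : ι) → Sym σ (n i + 1) → E)
    (D : Ix σ (fun i => n i + 1) → Derivation ℤ E E)
    (jj : Tt → Ix σ (fun i => n i + 1)) (θ : Tt → Ix σ (fun i => n i + 1) → E)
    (hD : Dual (fun i => n i + 1) h D jj θ) (hM : Mov d bb (fun i => n i + 1) a A p h D)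
    (Z : Finset ι) (x : σ → E) (i₀ : σ) (hx : x i₀ = 1)
    (hZ : ∀ i ∈ Z, form (a i) x = 0) (hU : ∀ i ∉ Z, form (a i) x ≠ 0)
    (hP : ∀ i, form (p i) x ≠ 0)
    (u : ι → E) (hu : ∀ i ∉ Z, u i ≠ 0)
    (w : ℕ) (hw : 2 * w + 2 + Fintype.card Tt + ∑ i, e i ≤ ∑ i, (n i + 1) + Z.card)
    (hm : MinorsVanish D x w) :
    ∃ G : E, G ≠ 0 ∧ KeyV d e a D θ Z u x G := by
  classical
  have heul : (eul d Z x : (σ ⊕ ι) ⊕ Tt → E) ≠ 0 := by
    intro h
    have h1 := congrFun h (Sum.inl (Sum.inl i₀))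
    simp only [eul, Sum.elim_inl, Pi.zero_apply, hx] at h1
    exact one_ne_zero h1
  obtain ⟨b, hb0, hbli, hbsp⟩ := Helper74.LG.exists_basis_part (E := E) (eul d Z x) heul
    (syz n a D θ Z x)
  have : Fintype b := Fintype.ofFinite b
  have hK := li_K jj hD hM hP hZ hU b hbli i₀ hx
  obtain ⟨r, hrinj, hrdet⟩ := exists_minor _ hK
  have hrZ : ∀ s i, r s = Sum.inl (Sum.inr i) → i ∉ Z := by
    intro s i hs hi
    apply hrdet
    refine Matrix.det_eq_zero_of_row_eq_zero s fun t => ?_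
    rw [Matrix.of_apply, hs]
    exact colK_zero b i₀ t hi
  set uw : (σ ⊕ ι) ⊕ Tt → E := Sum.elim (Sum.elim (fun _ => 1) u) (fun _ => 1) with huw
  set ee : (σ ⊕ ι) ⊕ Tt → ℕ := Sum.elim (Sum.elim (fun _ => 0) e) (fun _ => 0) with hee
  set isx : (σ ⊕ ι) ⊕ Tt → Bool :=
    Sum.elim (Sum.elim (fun _ => true) (fun _ => false)) (fun _ => false) with hisx
  -- counting
  set lft : Finset (b ⊕ ι) := Finset.univ.filter fun s => isx (r s) = true with hlft
  set rgt : Finset (b ⊕ ι) := Finset.univ.filter fun s => ¬ isx (r s) = true with hrgt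
  have hn' : lft.card ≤ w + 1 := by
    refine left_rows_le (col D x) w hm (fun t l => colK n a D θ Z b x i₀ t (Sum.inl (Sum.inl l)))
      (colK_span b i₀) _ hrdet lft
      (fun s => Sum.elim (Sum.elim id (fun _ => i₀)) (fun _ => i₀) (r s)) ?_
    intro s hs t
    rw [hlft, Finset.mem_filter] at hs
    rcases h : r s with (l | i) | j
    · simp [h]
    · rw [h] at hs
      simp [hisx] at hs
    · rw [h] at hs
      simp [hisx] at hs
  have hq' : rgt.card + Z.card ≤ Fintype.card ι + Fintype.card Tt := by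
    have h1 : rgt.image r ⊆ ((Finset.univ \ Z).map ⟨fun i => Sum.inl (Sum.inr i),
          Sum.inl_injective.comp Sum.inr_injective⟩) ∪
        (Finset.univ : Finset Tt).map ⟨Sum.inr, Sum.inr_injective⟩ := by
      intro y hy
      rw [Finset.mem_image] at hy
      obtain ⟨s, hs, rfl⟩ := hy
      rw [hrgt, Finset.mem_filter] at hs
      rw [Finset.mem_union]
      rcases h : r s with (l | i) | j
      · rw [h] at hs
        simp [hisx] at hs
      · left
        rw [Finset.mem_map]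
        exact ⟨i, Finset.mem_sdiff.2 ⟨Finset.mem_univ i, hrZ s i h⟩, rfl⟩
      · right
        rw [Finset.mem_map]
        exact ⟨j, Finset.mem_univ j, rfl⟩
    have h2 := (Finset.card_le_card h1).trans (Finset.card_union_le _ _)
    rw [Finset.card_image_of_injective _ hrinj, Finset.card_map, Finset.card_map,
      Finset.card_sdiff_of_subset (Finset.subset_univ Z), Finset.card_univ,
      Finset.card_univ] at h2
    have h3 : Z.card ≤ Fintype.card ι := Finset.card_le_univ Z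
    omega
  have hcard : Fintype.card b + Fintype.card ι = lft.card + rgt.card := by
    rw [← Fintype.card_sum, ← Finset.card_univ (α := b ⊕ ι)]
    exact (Finset.card_filter_add_card_filter_not _).symm
  have hesum : ∑ s, ee (r s) ≤ ∑ i, e i := by
    calc ∑ s, ee (r s) = ∑ y ∈ Finset.univ.image r, ee y :=
          (Finset.sum_image fun _ _ _ _ h => hrinj h).symm
      _ ≤ ∑ y, ee y := Finset.sum_le_sum_of_subset (Finset.subset_univ _)
      _ = ∑ i, e i := by
          rw [Fintype.sum_sum_type, Fintype.sum_sum_type]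
          simp [hee]
  obtain ⟨m, hmP⟩ : ∃ m, 1 + ∑ i, (n i + 1) = (∑ s, ee (r s) + lft.card + Fintype.card b) + 1 + m :=
    Nat.exists_eq_add_of_le (by omega)
  obtain ⟨k', hk'⟩ : ∃ k', Fintype.card σ + Fintype.card ι + Fintype.card Tt =
      Fintype.card (b ⊕ ι) + k' := by
    apply Nat.exists_eq_add_of_le
    rw [← Fintype.card_sum, ← Fintype.card_sum]
    exact Fintype.card_le_of_injective r hrinj
  refine ⟨Matrix.det (Matrix.of fun s t => uw (r s) * colK n a D θ Z b x i₀ t (r s)), ?_, ?_⟩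
  · have h1 := Matrix.det_mul_column (fun s => uw (r s))
      (Matrix.of fun s t => colK n a D θ Z b x i₀ t (r s))
    simp only [Matrix.of_apply] at h1
    rw [h1]
    refine mul_ne_zero (Finset.prod_ne_zero_iff.2 fun s _ => ?_) hrdet
    rcases h : r s with (l | i) | j
    · rw [huw]
      simp
    · rw [huw]
      simpa using hu i (hrZ s i h)
    · rw [huw]
      simp
  · intro O Δ hO hθ hrow l
    obtain ⟨j₀, hj, hjO⟩ := Helper74.LG.exists_max_coord O x i₀ (by
      rw [hx]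
      exact one_ne_zero)
    set c := x j₀ with hc
    have hci : c⁻¹ ∈ O := by
      have h1 := hjO i₀
      rwa [hx, one_div] at h1
    choose τ hτ1 hτ2 hτ3 using exists_T b hb0 hbsp hU i₀ hx j₀ hj
    set Kt := colK n a D θ Z b (fun l => x l / x j₀) j₀ with hKt
    set rf : (σ ⊕ ι) ⊕ Tt → E := Sum.elim (Sum.elim (fun _ => c) (fun _ => 1)) (fun _ => 1)
      with hrf
    set N : Matrix (b ⊕ ι) (b ⊕ ι) E := Matrix.of fun s t => wt u e c (r s) * Kt t (r s) with hN
    set T : Matrix (b ⊕ ι) (b ⊕ ι) E := Matrix.of fun t' t => τ t t' with hT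
    have hTdet : T.det = ∏ t, gK n b c t :=
      Helper74.LG.det_tri T (rkK b) _ (fun t => hτ2 t) fun t' t h1 h2 => hτ3 t t' h1 h2
    have hdecomp : ∀ s, uw s = c ^ ee s * wt u e c s := by
      rintro ((s | i) | j)
      · simp [huw, hee, wt]
      · have h1 : c ^ e i ≠ 0 := pow_ne_zero _ hj
        simp only [huw, hee, wt, Sum.elim_inl, Sum.elim_inr]
        field_simp
      · simp [huw, hee, wt]
    have hmat : (Matrix.of fun s t => uw (r s) * colK n a D θ Z b x i₀ t (r s)) =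
        (Matrix.of fun s t' => (c ^ ee (r s) * rf (r s)) * N s t') * T := by
      ext s t
      rw [Matrix.mul_apply, Matrix.of_apply, hτ1 t, Finset.sum_apply, Finset.mul_sum]
      refine Finset.sum_congr rfl fun t' _ => ?_
      rw [Pi.smul_apply, smul_eq_mul, phi_apply, hdecomp]
      simp only [hN, hT, Matrix.of_apply]
      change _ * (_ * (rf (r s) * Kt t' (r s))) = _
      ring
    have hdet : Matrix.det (Matrix.of fun s t => uw (r s) * colK n a D θ Z b x i₀ t (r s)) *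
        (c * c ^ ∑ i, (n i + 1)) =
        c ^ (∑ s, ee (r s) + lft.card + Fintype.card b) * N.det := by
      rw [hmat, Matrix.det_mul, Matrix.det_mul_column, hTdet, mul_assoc, prod_gK b hb0 c hj,
        Finset.prod_mul_distrib, Finset.prod_pow_eq_pow_sum]
      have h1 : ∏ s, rf (r s) = c ^ lft.card := by
        rw [hlft, ← Finset.prod_const, Finset.prod_filter]
        refine Finset.prod_congr rfl fun s _ => ?_
        rcases h : r s with (l | i) | j <;> simp [hrf, hisx]
      rw [h1]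
      ring
    set G := Matrix.det (Matrix.of fun s t => uw (r s) * colK n a D θ Z b x i₀ t (r s)) with hG
    have hG2 : G * c ^ (m + 1) = N.det := by
      have h1 : c * c ^ ∑ i, (n i + 1) =
          c ^ (∑ s, ee (r s) + lft.card + Fintype.card b) * c ^ (m + 1) := by
        rw [← pow_succ', ← pow_add]
        congr 1
        omega
      rw [h1] at hdet
      have h2 : c ^ (∑ s, ee (r s) + lft.card + Fintype.card b) ≠ 0 := pow_ne_zero _ hj
      apply mul_left_cancel₀ h2
      rw [← hdet]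
      ring
    have hNdet : Δ ^ Fintype.card (b ⊕ ι) * N.det ∈ O := by
      rw [← Matrix.det_smul]
      refine Helper74.LG.det_mem O.toSubring _ fun s t => ?_
      rw [Matrix.smul_apply, smul_eq_mul]
      refine entry_mem (D := D) b u e c j₀ O Δ _ hjO hO hθ (r s) (fun i hi => ?_) t
      obtain ⟨h1, h2⟩ := hrow i (hrZ s i hi) j₀ hj hjO
      exact ⟨hrZ s i hi, h1, h2⟩
    have hfin : Δ ^ (Fintype.card σ + Fintype.card ι + Fintype.card Tt) * (G * x l) =
        Δ ^ k' * (c⁻¹ ^ m * (x l / c)) * (Δ ^ Fintype.card (b ⊕ ι) * N.det) := by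
      have h1 : c⁻¹ ^ m * c ^ (m + 1) = c := by
        rw [pow_succ, ← mul_assoc, ← mul_pow, inv_mul_cancel₀ hj, one_pow, one_mul]
      have h2 : x l / c * c = x l := div_mul_cancel₀ _ hj
      rw [hk', pow_add, ← hG2]
      calc Δ ^ Fintype.card (b ⊕ ι) * Δ ^ k' * (G * x l)
          = Δ ^ Fintype.card (b ⊕ ι) * Δ ^ k' * (G * (x l / c * (c⁻¹ ^ m * c ^ (m + 1)))) := by
            rw [h1, h2]
        _ = _ := by ring
    rw [hfin]
    exact mul_mem (mul_mem (pow_mem hO.1 _) (mul_mem (pow_mem hci _) (hjO l))) hNdet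

theorem key {E : Type*} [Field E] {σ ι τ : Type*} [Fintype σ] [DecidableEq σ] [Fintype ι]
    [DecidableEq ι] [Fintype τ] (d b q e : ι → ℕ) (hq : ∀ i, 0 < q i)
    (a A : (i : ι) → Sym σ (d i) → E) (p : (i : ι) → Sym σ (b i) → E)
    (h : (i : ι) → Sym σ (q i) → E) (D : Ix σ q → Derivation ℤ E E)
    (jj : τ → Ix σ q) (θ : τ → Ix σ q → E) (hD : Dual q h D jj θ) (hM : Mov d b q a A p h D)
    (Z : Finset ι) (x : σ → E) (i₀ : σ) (hx : x i₀ = 1)
    (hZ : ∀ i ∈ Z, form (a i) x = 0) (hU : ∀ i ∉ Z, form (a i) x ≠ 0)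
    (hP : ∀ i, form (p i) x ≠ 0)
    (u : ι → E) (hu : ∀ i ∉ Z, u i ≠ 0)
    (w : ℕ) (hw : 2 * w + 2 + Fintype.card τ + ∑ i, e i ≤ ∑ i, q i + Z.card)
    (hm : MinorsVanish D x w) :
    ∃ G : E, G ≠ 0 ∧ KeyV d e a D θ Z u x G := by
  obtain ⟨n, rfl⟩ : ∃ n : ι → ℕ, q = fun i => n i + 1 :=
    ⟨fun i => q i - 1, funext fun i => (Nat.sub_add_cancel (hq i)).symm⟩
  exact key_aux n d b e a A p h D jj θ hD hM Z x i₀ hx hZ hU hP u hu w hw hm

end Pool.Agent.Helper8.LV
end

/- Helper12.LVF.H8.LG.DirOne -/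
section
/-! # LG-DIR1: one direction of the base, first round -/

set_option autoImplicit false

namespace Pool.Agent.Helper8.LG

open scoped BigOperators

section DirOneAux

variable {L : Type*} [Field L] {σ : Type*}

theorem dirOne_mon_div {n : ℕ} (x : σ → L) (c : L) (J : Sym σ n) :
    mon (fun l => x l / c) J = mon x J / c ^ n := by
  unfold mon
  rw [Multiset.prod_map_div]
  congr 1
  rw [Multiset.map_const', Multiset.prod_replicate]
  congr 1
  exact J.2

theorem dirOne_form_div [Fintype σ] [DecidableEq σ] {n : ℕ} (a : Sym σ n → L) (x : σ → L)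
    (c : L) : form a (fun l => x l / c) = form a x / c ^ n := by
  unfold form
  rw [Finset.sum_div]
  refine Finset.sum_congr rfl fun J _ => ?_
  rw [dirOne_mon_div, mul_div_assoc]

theorem dirOne_mon_replicate {n : ℕ} (x : σ → L) (j : σ) :
    mon x (Sym.replicate n j) = x j ^ n := by
  unfold mon
  rw [Sym.coe_replicate, Multiset.map_replicate, Multiset.prod_replicate]

theorem dirOne_mon_mem {n : ℕ} (O : ValuationSubring L) (x : σ → L) (hx : ∀ l, x l ∈ O)
    (J : Sym σ n) : mon x J ∈ O := by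
  unfold mon
  refine multiset_prod_mem _ fun c hc => ?_
  obtain ⟨l, _, rfl⟩ := Multiset.mem_map.1 hc
  exact hx l

theorem dirOne_form_mem [Fintype σ] [DecidableEq σ] {n : ℕ} (O : ValuationSubring L)
    (c : L) (a : Sym σ n → L) (ha : ∀ J, c * a J ∈ O) (x : σ → L) (hx : ∀ l, x l ∈ O) :
    c * form a x ∈ O := by
  unfold form
  rw [Finset.mul_sum]
  refine sum_mem fun J _ => ?_
  rw [← mul_assoc]
  exact mul_mem (ha J) (dirOne_mon_mem O x hx J)

theorem dirOne_pow_mem (O : ValuationSubring L) {z : L} {m : ℕ} (hm : 0 < m)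
    (h : z ^ m ∈ O) : z ∈ O := by
  rcases O.mem_or_inv_mem z with h1 | h1
  · exact h1
  · rcases eq_or_ne z 0 with rfl | hz
    · exact zero_mem _
    · obtain ⟨n, rfl⟩ := Nat.exists_eq_succ_of_ne_zero hm.ne'
      have h2 : z = z ^ (n + 1) * (z⁻¹) ^ n := by
        rw [pow_succ, inv_pow]
        field_simp
      rw [h2]
      exact mul_mem h (pow_mem h1 n)

theorem dirOne_int_mem (O : ValuationSubring L) (A : Subring L) (hA : A ≤ O.toSubring)
    {f : L} (hf : IsIntegral A f) : f ∈ O := by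
  have h1 : IsIntegral O f := by
    obtain ⟨p, hp, hpe⟩ := hf
    refine ⟨p.map (Subring.inclusion hA), hp.map _, ?_⟩
    rw [Polynomial.eval₂_map]
    exact hpe
  obtain ⟨y, hy⟩ := (IsIntegrallyClosed.isIntegral_iff (R := O) (K := L)).1 h1
  rw [← hy]
  exact y.2

end DirOneAux

/-- first round: the poles of `G x_l` are bounded -/
theorem dir_one {L : Type*} [Field L] [CharZero L] {σ ι τ : Type*} [Fintype σ]
    [DecidableEq σ] [Fintype ι] [DecidableEq ι] [Fintype τ]
    (d e m : ι → ℕ) (a : (i : ι) → Sym σ (d i) → L) (D : Ix σ d → Derivation ℤ L L)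
    (θ : τ → Ix σ d → L)
    (Z C : Finset ι) (i₀ : σ) (w c : ℕ) (hnum : Num d e m Z C w c)
    (E₀ : Subfield L) (t : L) (ht : Transcendental E₀ t)
    (hfin : FiniteDimensional (Subfield.closure ((E₀ : Set L) ∪ {t})) L)
    (hE₀ : ∀ p, ∀ f ∈ E₀, D p f ∈ E₀)
    (hDt : ∀ p, D p t ∈ Subring.closure ((E₀ : Set L) ∪ {t}))
    (S : Set L) (hS : S.Finite) (hSa : ∀ p : Ix σ d, a p.1 p.2 ∈ S)
    (hSθ : ∀ j s, θ j s ∈ S) :
    ∃ Δ : L, Δ ≠ 0 ∧ ∀ (x : σ → L) (y : ι → L) (G : L),
      Good d m a D Z C i₀ w (Subring.closure ((E₀ : Set L) ∪ S)) x y →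
      KeyG d e a D θ Z (uu C y) x G →
      ∀ l, Δ * (G * x l) ∈ intCl E₀ t := by
  obtain ⟨Δ₀, hΔc, hΔ0, hΔD, hΔS⟩ := exists_bound E₀ t ht hfin D hE₀ hDt S hS
  obtain ⟨hDed, hFrac⟩ := intCl_dedekind E₀ t ht hfin
  have hcl : Subring.closure ((E₀ : Set L) ∪ {t}) ≤ intCl E₀ t := by
    intro f hf
    exact isIntegral_algebraMap (R := Subring.closure ((E₀ : Set L) ∪ {t})) (x := ⟨f, hf⟩)
  have hE₀R : ∀ f ∈ E₀, f ∈ intCl E₀ t := fun f hf =>
    hcl (Subring.subset_closure (Or.inl hf))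
  have hQ : ∀ n : ℕ, n ≠ 0 → ((n : L))⁻¹ ∈ intCl E₀ t := fun n _ =>
    hE₀R _ (E₀.inv_mem (natCast_mem E₀ n))
  have hΔR : Δ₀ ∈ intCl E₀ t := hcl hΔc
  refine ⟨(Δ₀ ^ 3) ^ (Fintype.card σ + Fintype.card ι + Fintype.card τ), pow_ne_zero _ (pow_ne_zero _ hΔ0), ?_⟩
  intro x y G hgood hkey l
  refine mem_of (intCl E₀ t) _ fun O hO => ?_
  have hb : Bdd D Δ₀ O := bdd_of (intCl E₀ t) D Δ₀ hΔR hΔD O hO
  have hΔO : Δ₀ ∈ O := hb.1
  refine hkey O (Δ₀ ^ 3) ⟨pow_mem hΔO 3, fun p f hf => ?_⟩ (fun j s => ?_) ?_ l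
  · have h1 : Δ₀ ^ 3 * D p f = Δ₀ ^ 2 * (Δ₀ * D p f) := by ring
    rw [h1]
    exact mul_mem (pow_mem hΔO 2) (hb.2 p f hf)
  · have h1 : Δ₀ ^ 3 * θ j s = Δ₀ ^ 2 * (Δ₀ * θ j s) := by ring
    rw [h1]
    exact mul_mem (pow_mem hΔO 2) (hO (hΔS _ (hSθ j s)))
  intro i hi j hj hxO
  have hane : form (a i) x ≠ 0 := hgood.ne i hi
  have hgeq : form (a i) (fun l => x l / x j) = form (a i) x / x j ^ d i :=
    dirOne_form_div (a i) x (x j)
  have hg0 : form (a i) (fun l => x l / x j) ≠ 0 := by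
    rw [hgeq]
    exact div_ne_zero hane (pow_ne_zero _ hj)
  have haS : ∀ J, Δ₀ * a i J ∈ O := fun J => hO (hΔS _ (hSa ⟨i, J⟩))
  have hΔg : Δ₀ * form (a i) (fun l => x l / x j) ∈ O :=
    dirOne_form_mem O Δ₀ (a i) haS _ hxO
  by_cases hiC : i ∈ C
  · -- ramified case
    have hu : uu C y i = y i := if_pos hiC
    have hdm : d i = m i * e i := hnum.deg i hiC
    have hm : 0 < m i := by
      rcases Nat.eq_zero_or_pos (m i) with h0 | h0
      · have := hnum.pos i
        rw [hdm, h0, zero_mul] at this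
        exact absurd this (lt_irrefl 0)
      · exact h0
    rw [hu]
    generalize hgg : form (a i) (fun l => x l / x j) = g at hg0 hΔg hgeq ⊢
    generalize hyy : y i / x j ^ e i = yt
    have hyg : yt ^ m i = g := by
      have hpw : x j ^ d i = x j ^ (e i * m i) :=
        congrArg (fun r => x j ^ r) (hdm.trans (mul_comm _ _))
      rw [← hyy, div_pow, hgood.root i hiC, hgeq, ← pow_mul, hpw]
    have hy0 : yt ≠ 0 := by
      intro h0
      rw [h0, zero_pow hm.ne'] at hyg
      exact hg0 hyg.symm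
    have hΔy : Δ₀ * yt ∈ O := by
      refine dirOne_pow_mem O hm ?_
      obtain ⟨r, hr⟩ := Nat.exists_eq_succ_of_ne_zero hm.ne'
      have h1 : (Δ₀ * yt) ^ m i = Δ₀ ^ r * (Δ₀ * g) := by
        rw [mul_pow, hyg, hr, pow_succ]
        ring
      rw [h1]
      exact mul_mem (pow_mem hΔO r) hΔg
    refine ⟨?_, fun p => ?_⟩
    · have h1 : Δ₀ ^ 3 * yt = Δ₀ ^ 2 * (Δ₀ * yt) := by ring
      rw [h1]
      exact mul_mem (pow_mem hΔO 2) hΔy
    · have h2 : D p g = (m i : L) * yt ^ (m i - 1) * D p yt := by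
        rw [← hyg, Derivation.leibniz_pow, smul_eq_mul, nsmul_eq_mul]
        ring
      have h3 : yt * (D p g / g) = (m i : L) * D p yt := by
        rw [h2, ← hyg]
        obtain ⟨r, hr⟩ := Nat.exists_eq_succ_of_ne_zero hm.ne'
        rw [hr, Nat.succ_sub_one, pow_succ]
        (clear * - hy0; field_simp)
      have h4 : Δ₀ ^ 3 * D p yt =
          Δ₀ * (Δ₀ * D p (Δ₀ * yt)) - (Δ₀ * yt) * (Δ₀ * D p Δ₀) := by
        rw [Derivation.leibniz, smul_eq_mul, smul_eq_mul]
        ring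
      have h5 : Δ₀ ^ 3 * D p yt ∈ O := by
        rw [h4]
        exact sub_mem (mul_mem hΔO (hb.2 p _ hΔy)) (mul_mem hΔy (hb.2 p _ hΔO))
      have h6 : Δ₀ ^ 3 * (yt * (D p g / g)) = (m i : L) * (Δ₀ ^ 3 * D p yt) := by
        rw [h3]
        ring
      rw [h6]
      exact mul_mem (natCast_mem O (m i)) h5
  · -- unramified case
    have hu : uu C y i = 1 := if_neg hiC
    have he : e i = 0 := hnum.e0 i hiC
    rw [hu, he, pow_zero, div_one]
    refine ⟨by rw [mul_one]; exact pow_mem hΔO 3, fun p => ?_⟩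
    rw [one_mul]
    have key : Δ₀ ^ 2 * (D p (form (a i) fun l => x l / x j) /
        form (a i) fun l => x l / x j) ∈ O := by
      by_cases hinv : Δ₀⁻¹ ∈ O
      · have hSO : ∀ f ∈ S, f ∈ O := fun f hf => by
          have h1 : f = Δ₀⁻¹ * (Δ₀ * f) := by
            rw [← mul_assoc, inv_mul_cancel₀ hΔ0, one_mul]
          rw [h1]
          exact mul_mem hinv (hO (hΔS f hf))
        have hA : Subring.closure ((E₀ : Set L) ∪ S) ≤ O.toSubring := by
          rw [Subring.closure_le]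
          rintro f (hf | hf)
          · exact hO (hE₀R f hf)
          · exact hSO f hf
        have hint := dirOne_int_mem O _ hA (hgood.int i hi hiC (Sym.replicate (d i) j))
        rw [dirOne_mon_replicate] at hint
        have hgi : (form (a i) (fun l => x l / x j))⁻¹ ∈ O := by
          rw [hgeq, inv_div]
          exact hint
        have hgO : form (a i) (fun l => x l / x j) ∈ O := by
          have h1 := dirOne_form_mem O 1 (a i)
            (fun J => by rw [one_mul]; exact hSO _ (hSa ⟨i, J⟩)) _ hxO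
          rwa [one_mul] at h1
        have h2 : Δ₀ ^ 2 * (D p (form (a i) fun l => x l / x j) /
            form (a i) fun l => x l / x j) =
            Δ₀ * ((Δ₀ * D p (form (a i) fun l => x l / x j)) *
              (form (a i) (fun l => x l / x j))⁻¹) := by
          rw [div_eq_mul_inv]
          ring
        rw [h2]
        exact mul_mem hΔO (mul_mem (hb.2 p _ hgO) hgi)
      · have hb2 : Bdd D (Δ₀ ^ 2) O := by
          refine ⟨pow_mem hΔO 2, fun p f hf => ?_⟩
          have h1 : Δ₀ ^ 2 * D p f = Δ₀ * (Δ₀ * D p f) := by ring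
          rw [h1]
          exact mul_mem hΔO (hb.2 p f hf)
        refine log_of (intCl E₀ t) hQ D O hO (Δ₀ ^ 2) hb2 Δ₀ hΔ0 (Or.inr hinv) (fun q => ?_)
          _ hg0 p
        have h1 : Δ₀ ^ 2 * (D q Δ₀ / Δ₀) = Δ₀ * D q Δ₀ := by
          (clear * - hΔ0; field_simp)
        rw [h1]
        exact hb.2 q _ hΔO
    have h3 : Δ₀ ^ 3 * (D p (form (a i) fun l => x l / x j) /
        form (a i) fun l => x l / x j) =
        Δ₀ * (Δ₀ ^ 2 * (D p (form (a i) fun l => x l / x j) /
        form (a i) fun l => x l / x j)) := by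
      ring
    rw [h3]
    exact mul_mem hΔO key

end Pool.Agent.Helper8.LG
end

/- Helper12.LVF.H8.LV.DirOne -/
section
/-! # LG-DIR1: one direction of the base, first round -/

set_option autoImplicit false

namespace Pool.Agent.Helper8.LV

open Pool.Agent.Helper8.LG

open scoped BigOperators

/-- first round: the poles of `G x_l` are bounded -/
theorem dir_one {L : Type*} [Field L] [CharZero L] {σ ι τ P : Type*} [Fintype σ]
    [DecidableEq σ] [Fintype ι] [DecidableEq ι] [Fintype τ] [Finite P]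
    (d q e m : ι → ℕ) (a : (i : ι) → Sym σ (d i) → L) (D : P → Derivation ℤ L L)
    (θ : τ → P → L)
    (Z C : Finset ι) (i₀ : σ) (w c : ℕ) (hnum : NumV d q e m Z C w c)
    (E₀ : Subfield L) (t : L) (ht : Transcendental E₀ t)
    (hfin : FiniteDimensional (Subfield.closure ((E₀ : Set L) ∪ {t})) L)
    (hE₀ : ∀ p, ∀ f ∈ E₀, D p f ∈ E₀)
    (hDt : ∀ p, D p t ∈ Subring.closure ((E₀ : Set L) ∪ {t}))
    (S : Set L) (hS : S.Finite) (hSa : ∀ p : Ix σ d, a p.1 p.2 ∈ S)
    (hSθ : ∀ j s, θ j s ∈ S) :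
    ∃ Δ : L, Δ ≠ 0 ∧ ∀ (x : σ → L) (y : ι → L) (G : L),
      GoodV d m a D Z C i₀ w (Subring.closure ((E₀ : Set L) ∪ S)) x y →
      KeyV d e a D θ Z (uu C y) x G →
      ∀ l, Δ * (G * x l) ∈ intCl E₀ t := by
  obtain ⟨Δ₀, hΔc, hΔ0, hΔD, hΔS⟩ := exists_bound E₀ t ht hfin D hE₀ hDt S hS
  obtain ⟨hDed, hFrac⟩ := intCl_dedekind E₀ t ht hfin
  have hcl : Subring.closure ((E₀ : Set L) ∪ {t}) ≤ intCl E₀ t := by
    intro f hf
    exact isIntegral_algebraMap (R := Subring.closure ((E₀ : Set L) ∪ {t})) (x := ⟨f, hf⟩)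
  have hE₀R : ∀ f ∈ E₀, f ∈ intCl E₀ t := fun f hf =>
    hcl (Subring.subset_closure (Or.inl hf))
  have hQ : ∀ n : ℕ, n ≠ 0 → ((n : L))⁻¹ ∈ intCl E₀ t := fun n _ =>
    hE₀R _ (E₀.inv_mem (natCast_mem E₀ n))
  have hΔR : Δ₀ ∈ intCl E₀ t := hcl hΔc
  refine ⟨(Δ₀ ^ 3) ^ (Fintype.card σ + Fintype.card ι + Fintype.card τ), pow_ne_zero _ (pow_ne_zero _ hΔ0), ?_⟩
  intro x y G hgood hkey l
  refine mem_of (intCl E₀ t) _ fun O hO => ?_
  have hb : Bdd D Δ₀ O := bdd_of (intCl E₀ t) D Δ₀ hΔR hΔD O hO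
  have hΔO : Δ₀ ∈ O := hb.1
  refine hkey O (Δ₀ ^ 3) ⟨pow_mem hΔO 3, fun p f hf => ?_⟩ (fun j s => ?_) ?_ l
  · have h1 : Δ₀ ^ 3 * D p f = Δ₀ ^ 2 * (Δ₀ * D p f) := by ring
    rw [h1]
    exact mul_mem (pow_mem hΔO 2) (hb.2 p f hf)
  · have h1 : Δ₀ ^ 3 * θ j s = Δ₀ ^ 2 * (Δ₀ * θ j s) := by ring
    rw [h1]
    exact mul_mem (pow_mem hΔO 2) (hO (hΔS _ (hSθ j s)))
  intro i hi j hj hxO
  have hane : form (a i) x ≠ 0 := hgood.ne i hi
  have hgeq : form (a i) (fun l => x l / x j) = form (a i) x / x j ^ d i :=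
    dirOne_form_div (a i) x (x j)
  have hg0 : form (a i) (fun l => x l / x j) ≠ 0 := by
    rw [hgeq]
    exact div_ne_zero hane (pow_ne_zero _ hj)
  have haS : ∀ J, Δ₀ * a i J ∈ O := fun J => hO (hΔS _ (hSa ⟨i, J⟩))
  have hΔg : Δ₀ * form (a i) (fun l => x l / x j) ∈ O :=
    dirOne_form_mem O Δ₀ (a i) haS _ hxO
  by_cases hiC : i ∈ C
  · -- ramified case
    have hu : uu C y i = y i := if_pos hiC
    have hdm : d i = m i * e i := hnum.deg i hiC
    have hm : 0 < m i := by
      rcases Nat.eq_zero_or_pos (m i) with h0 | h0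
      · have := hnum.pos i
        rw [hdm, h0, zero_mul] at this
        exact absurd this (lt_irrefl 0)
      · exact h0
    rw [hu]
    generalize hgg : form (a i) (fun l => x l / x j) = g at hg0 hΔg hgeq ⊢
    generalize hyy : y i / x j ^ e i = yt
    have hyg : yt ^ m i = g := by
      have hpw : x j ^ d i = x j ^ (e i * m i) :=
        congrArg (fun r => x j ^ r) (hdm.trans (mul_comm _ _))
      rw [← hyy, div_pow, hgood.root i hiC, hgeq, ← pow_mul, hpw]
    have hy0 : yt ≠ 0 := by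
      intro h0
      rw [h0, zero_pow hm.ne'] at hyg
      exact hg0 hyg.symm
    have hΔy : Δ₀ * yt ∈ O := by
      refine dirOne_pow_mem O hm ?_
      obtain ⟨r, hr⟩ := Nat.exists_eq_succ_of_ne_zero hm.ne'
      have h1 : (Δ₀ * yt) ^ m i = Δ₀ ^ r * (Δ₀ * g) := by
        rw [mul_pow, hyg, hr, pow_succ]
        ring
      rw [h1]
      exact mul_mem (pow_mem hΔO r) hΔg
    refine ⟨?_, fun p => ?_⟩
    · have h1 : Δ₀ ^ 3 * yt = Δ₀ ^ 2 * (Δ₀ * yt) := by ring
      rw [h1]
      exact mul_mem (pow_mem hΔO 2) hΔy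
    · have h2 : D p g = (m i : L) * yt ^ (m i - 1) * D p yt := by
        rw [← hyg, Derivation.leibniz_pow, smul_eq_mul, nsmul_eq_mul]
        ring
      have h3 : yt * (D p g / g) = (m i : L) * D p yt := by
        rw [h2, ← hyg]
        obtain ⟨r, hr⟩ := Nat.exists_eq_succ_of_ne_zero hm.ne'
        rw [hr, Nat.succ_sub_one, pow_succ]
        (clear * - hy0; field_simp)
      have h4 : Δ₀ ^ 3 * D p yt =
          Δ₀ * (Δ₀ * D p (Δ₀ * yt)) - (Δ₀ * yt) * (Δ₀ * D p Δ₀) := by
        rw [Derivation.leibniz, smul_eq_mul, smul_eq_mul]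
        ring
      have h5 : Δ₀ ^ 3 * D p yt ∈ O := by
        rw [h4]
        exact sub_mem (mul_mem hΔO (hb.2 p _ hΔy)) (mul_mem hΔy (hb.2 p _ hΔO))
      have h6 : Δ₀ ^ 3 * (yt * (D p g / g)) = (m i : L) * (Δ₀ ^ 3 * D p yt) := by
        rw [h3]
        ring
      rw [h6]
      exact mul_mem (natCast_mem O (m i)) h5
  · -- unramified case
    have hu : uu C y i = 1 := if_neg hiC
    have he : e i = 0 := hnum.e0 i hiC
    rw [hu, he, pow_zero, div_one]
    refine ⟨by rw [mul_one]; exact pow_mem hΔO 3, fun p => ?_⟩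
    rw [one_mul]
    have key : Δ₀ ^ 2 * (D p (form (a i) fun l => x l / x j) /
        form (a i) fun l => x l / x j) ∈ O := by
      by_cases hinv : Δ₀⁻¹ ∈ O
      · have hSO : ∀ f ∈ S, f ∈ O := fun f hf => by
          have h1 : f = Δ₀⁻¹ * (Δ₀ * f) := by
            rw [← mul_assoc, inv_mul_cancel₀ hΔ0, one_mul]
          rw [h1]
          exact mul_mem hinv (hO (hΔS f hf))
        have hA : Subring.closure ((E₀ : Set L) ∪ S) ≤ O.toSubring := by
          rw [Subring.closure_le]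
          rintro f (hf | hf)
          · exact hO (hE₀R f hf)
          · exact hSO f hf
        have hint := dirOne_int_mem O _ hA (hgood.int i hi hiC (Sym.replicate (d i) j))
        rw [dirOne_mon_replicate] at hint
        have hgi : (form (a i) (fun l => x l / x j))⁻¹ ∈ O := by
          rw [hgeq, inv_div]
          exact hint
        have hgO : form (a i) (fun l => x l / x j) ∈ O := by
          have h1 := dirOne_form_mem O 1 (a i)
            (fun J => by rw [one_mul]; exact hSO _ (hSa ⟨i, J⟩)) _ hxO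
          rwa [one_mul] at h1
        have h2 : Δ₀ ^ 2 * (D p (form (a i) fun l => x l / x j) /
            form (a i) fun l => x l / x j) =
            Δ₀ * ((Δ₀ * D p (form (a i) fun l => x l / x j)) *
              (form (a i) (fun l => x l / x j))⁻¹) := by
          rw [div_eq_mul_inv]
          ring
        rw [h2]
        exact mul_mem hΔO (mul_mem (hb.2 p _ hgO) hgi)
      · have hb2 : Bdd D (Δ₀ ^ 2) O := by
          refine ⟨pow_mem hΔO 2, fun p f hf => ?_⟩
          have h1 : Δ₀ ^ 2 * D p f = Δ₀ * (Δ₀ * D p f) := by ring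
          rw [h1]
          exact mul_mem hΔO (hb.2 p f hf)
        refine log_of (intCl E₀ t) hQ D O hO (Δ₀ ^ 2) hb2 Δ₀ hΔ0 (Or.inr hinv) (fun q => ?_)
          _ hg0 p
        have h1 : Δ₀ ^ 2 * (D q Δ₀ / Δ₀) = Δ₀ * D q Δ₀ := by
          (clear * - hΔ0; field_simp)
        rw [h1]
        exact hb.2 q _ hΔO
    have h3 : Δ₀ ^ 3 * (D p (form (a i) fun l => x l / x j) /
        form (a i) fun l => x l / x j) =
        Δ₀ * (Δ₀ ^ 2 * (D p (form (a i) fun l => x l / x j) /
        form (a i) fun l => x l / x j)) := by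
      ring
    rw [h3]
    exact mul_mem hΔO key

end Pool.Agent.Helper8.LV
end

/- Helper12.LVF.H8.LG.DirTwo -/
section
/-! # LG-DIR2: one direction of the base, second round -/

set_option autoImplicit false

namespace Pool.Agent.Helper8.LG

open scoped BigOperators

section DirTwoAux

variable {L : Type*} [Field L] {σ : Type*}

theorem dirTwo_mon_mul {n : ℕ} (x : σ → L) (c : L) (J : Sym σ n) :
    mon (fun l => c * x l) J = c ^ n * mon x J := by
  unfold mon
  rw [Multiset.prod_map_mul, Multiset.map_const', Multiset.prod_replicate]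
  congr 2
  exact J.2

theorem dirTwo_form_mul [Fintype σ] [DecidableEq σ] {n : ℕ} (a : Sym σ n → L) (x : σ → L)
    (c : L) : form a (fun l => c * x l) = c ^ n * form a x := by
  unfold form
  rw [Finset.mul_sum]
  refine Finset.sum_congr rfl fun J _ => ?_
  rw [dirTwo_mon_mul]
  ring

theorem dirTwo_mon_mem (R : Subring L) {n : ℕ} (c : L) (x : σ → L) (hx : ∀ l, c * x l ∈ R)
    (J : Sym σ n) : c ^ n * mon x J ∈ R := by
  rw [← dirTwo_mon_mul]
  unfold mon
  refine multiset_prod_mem _ fun b hb => ?_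
  obtain ⟨l, _, rfl⟩ := Multiset.mem_map.1 hb
  exact hx l

theorem dirTwo_int_mem (O : ValuationSubring L) (A : Subring L) (hA : A ≤ O.toSubring)
    {f : L} (hf : IsIntegral A f) : f ∈ O := by
  have h1 : IsIntegral O f := by
    obtain ⟨p, hp, hpe⟩ := hf
    refine ⟨p.map (Subring.inclusion hA), hp.map _, ?_⟩
    rw [Polynomial.eval₂_map]
    exact hpe
  obtain ⟨y, hy⟩ := (IsIntegrallyClosed.isIntegral_iff (R := O) (K := L)).1 h1
  rw [← hy]
  exact y.2

theorem dirTwo_prod_mem {k : Type*} [Field k] [Algebra k L] (V : Submodule k L) (x : σ → L)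
    (hx : ∀ l, x l ∈ V) (J : Multiset σ) : (J.map x).prod ∈ V ^ (Multiset.card J) := by
  induction J using Multiset.induction_on with
  | empty =>
    rw [Multiset.map_zero, Multiset.prod_zero, Multiset.card_zero, pow_zero]
    exact Submodule.one_le.1 le_rfl
  | cons l J ih =>
    rw [Multiset.map_cons, Multiset.prod_cons, Multiset.card_cons, pow_succ']
    exact Submodule.mul_mem_mul (hx l) ih

theorem dirTwo_mon_pow {k : Type*} [Field k] [Algebra k L] (V : Submodule k L) {n : ℕ}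
    (x : σ → L) (hx : ∀ l, x l ∈ V) (J : Sym σ n) : mon x J ∈ V ^ n := by
  have h := dirTwo_prod_mem V x hx (J : Multiset σ)
  have e : Multiset.card (J : Multiset σ) = n := J.2
  rw [e] at h
  exact h

/-- the space containing all values of the form at points with coordinates in `V` -/
noncomputable def dirTwoW {k : Type*} [Field k] [Algebra k L] (V : Submodule k L) {n : ℕ}
    (a : Sym σ n → L) : Submodule k L :=
  Submodule.span k (Set.range a) * V ^ n

theorem dirTwo_form_mem {k : Type*} [Field k] [Algebra k L] [Fintype σ] [DecidableEq σ]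
    (V : Submodule k L) {n : ℕ} (a : Sym σ n → L) (x : σ → L) (hx : ∀ l, x l ∈ V) :
    form a x ∈ dirTwoW V a := by
  unfold form dirTwoW
  refine Submodule.sum_mem _ fun J _ => ?_
  exact Submodule.mul_mem_mul (Submodule.subset_span ⟨J, rfl⟩) (dirTwo_mon_pow V x hx J)

theorem dirTwo_finite {k : Type*} [Field k] [Algebra k L] [Fintype σ] [DecidableEq σ]
    (V : Submodule k L) [FiniteDimensional k V] {n : ℕ} (a : Sym σ n → L) :
    FiniteDimensional k (dirTwoW V a) := by
  have h1 : V.FG := Module.Finite.iff_fg.1 inferInstance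
  have h2 : (Submodule.span k (Set.range a)).FG := Submodule.fg_span (Set.finite_range a)
  exact Module.Finite.iff_fg.2 (h2.mul (h1.pow n))

end DirTwoAux

/-- second round: the poles of `x^J/F_i(x)` and of `G^(e_i) y_i` are bounded -/
theorem dir_two {k L : Type*} [Field k] [Field L] [CharZero L] [Algebra k L]
    {σ ι : Type*} [Fintype σ] [DecidableEq σ] [Fintype ι] [DecidableEq ι]
    (d e m : ι → ℕ) (a : (i : ι) → Sym σ (d i) → L) (D : Ix σ d → Derivation ℤ L L)
    (Z C : Finset ι) (i₀ : σ) (w c : ℕ) (hnum : Num d e m Z C w c)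
    (E₀ : Subfield L) (hk : ∀ c : k, algebraMap k L c ∈ E₀) (t : L) (ht : Transcendental E₀ t)
    (hfin : FiniteDimensional (Subfield.closure ((E₀ : Set L) ∪ {t})) L)
    (S : Set L) (hS : S.Finite) (hSa : ∀ p : Ix σ d, a p.1 p.2 ∈ S)
    (V : Submodule k L) [FiniteDimensional k V] :
    ∃ Δ : L, Δ ≠ 0 ∧ ∀ (x : σ → L) (y : ι → L) (G : L),
      Good d m a D Z C i₀ w (Subring.closure ((E₀ : Set L) ∪ S)) x y →
      G ≠ 0 → (∀ l, G * x l ∈ V) →
      (∀ i ∉ Z, i ∉ C → ∀ J : Sym σ (d i), Δ * (mon x J / form (a i) x) ∈ intCl E₀ t) ∧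
      ∀ i ∈ C, Δ * (G ^ e i * y i) ∈ intCl E₀ t := by
  classical
  obtain ⟨T, hT⟩ : V.FG := Module.Finite.iff_fg.1 inferInstance
  obtain ⟨Δ₀, hΔc, hΔ0, _, hΔS⟩ := exists_bound (P := Empty) E₀ t ht hfin (fun p => p.elim)
    (fun p => p.elim) (fun p => p.elim) (S ∪ (T : Set L)) (hS.union T.finite_toSet)
  obtain ⟨hDed, hFrac⟩ := intCl_dedekind E₀ t ht hfin
  have hcl : Subring.closure ((E₀ : Set L) ∪ {t}) ≤ intCl E₀ t := by
    intro f hf
    exact isIntegral_algebraMap (R := Subring.closure ((E₀ : Set L) ∪ {t})) (x := ⟨f, hf⟩)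
  have hE₀R : ∀ f ∈ E₀, f ∈ intCl E₀ t := fun f hf =>
    hcl (Subring.subset_closure (Or.inl hf))
  have hkR : ∀ c : k, algebraMap k L c ∈ intCl E₀ t := fun c => hE₀R _ (hk c)
  have hΔR : Δ₀ ∈ intCl E₀ t := hcl hΔc
  -- elements of `V` have bounded poles
  have hVR : ∀ v ∈ V, Δ₀ * v ∈ intCl E₀ t := by
    intro v hv
    rw [← hT] at hv
    induction hv using Submodule.span_induction with
    | mem v hv => exact hΔS v (Or.inr hv)
    | zero => rw [mul_zero]; exact zero_mem _
    | add u v _ _ hu hv => rw [mul_add]; exact add_mem hu hv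
    | smul c v _ hv =>
      rw [Algebra.smul_def, mul_left_comm]
      exact mul_mem (hkR c) hv
  -- the constants of `bounded_of`
  have hB : ∀ i : ι, ∃ c : ℕ, ∀ O : ValuationSubring L, intCl E₀ t ≤ O.toSubring →
      Δ₀⁻¹ ∉ O → ∀ f ∈ dirTwoW V (a i), f ≠ 0 → Δ₀ ^ c * f⁻¹ ∈ O := by
    intro i
    have := dirTwo_finite V (a i)
    exact bounded_of (intCl E₀ t) hkR (dirTwoW V (a i)) Δ₀ hΔR hΔ0
  choose B hB using hB
  set N : ℕ := ∑ i, (B i + d i + 1) with hN
  have hNi : ∀ i, B i + d i + 1 ≤ N := fun i =>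
    Finset.single_le_sum (f := fun i => B i + d i + 1) (fun _ _ => Nat.zero_le _)
      (Finset.mem_univ i)
  refine ⟨Δ₀ ^ N, pow_ne_zero _ hΔ0, ?_⟩
  intro x y G hgood hG hGx
  -- the monomials and the forms at `G x`
  have hmon : ∀ i (J : Sym σ (d i)), Δ₀ ^ d i * mon (fun l => G * x l) J ∈ intCl E₀ t :=
    fun i J => dirTwo_mon_mem (intCl E₀ t) Δ₀ _ (fun l => hVR _ (hGx l)) J
  refine ⟨?_, ?_⟩
  · intro i hiZ hiC J
    refine mem_of (intCl E₀ t) _ fun O hO => ?_
    have hΔO : Δ₀ ∈ O := hO hΔR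
    by_cases hinv : Δ₀⁻¹ ∈ O
    · have hA : Subring.closure ((E₀ : Set L) ∪ S) ≤ O.toSubring := by
        rw [Subring.closure_le]
        rintro f (hf | hf)
        · exact hO (hE₀R f hf)
        · have h1 : f = Δ₀⁻¹ * (Δ₀ * f) := by
            rw [← mul_assoc, inv_mul_cancel₀ hΔ0, one_mul]
          rw [h1]
          exact mul_mem (S := ValuationSubring L) hinv (hO (hΔS f (Or.inl hf)))
      exact mul_mem (pow_mem hΔO N) (dirTwo_int_mem O _ hA (hgood.int i hiZ hiC J))
    · have hne : form (a i) (fun l => G * x l) ≠ 0 := by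
        rw [dirTwo_form_mul]
        exact mul_ne_zero (pow_ne_zero _ hG) (hgood.ne i hiZ)
      have h1 := hB i O hO hinv _ (dirTwo_form_mem V (a i) _ hGx) hne
      have h2 : Δ₀ ^ d i * mon (fun l => G * x l) J ∈ O := hO (hmon i J)
      have h3 : mon x J / form (a i) x
          = mon (fun l => G * x l) J * (form (a i) (fun l => G * x l))⁻¹ := by
        rw [dirTwo_mon_mul, dirTwo_form_mul]
        have := hgood.ne i hiZ
        (clear * - hG this; field_simp)
      obtain ⟨r, hr⟩ := Nat.exists_eq_add_of_le (hNi i)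
      have h4 : Δ₀ ^ N * (mon x J / form (a i) x) = Δ₀ ^ (r + 1)
          * ((Δ₀ ^ B i * (form (a i) (fun l => G * x l))⁻¹)
            * (Δ₀ ^ d i * mon (fun l => G * x l) J)) := by
        rw [h3, hr]
        ring
      rw [h4]
      exact mul_mem (pow_mem hΔO _) (mul_mem h1 h2)
  · intro i hiC
    have hdm : d i = m i * e i := hnum.deg i hiC
    have hm : 0 < m i := by
      rcases Nat.eq_zero_or_pos (m i) with h0 | h0
      · have := hnum.pos i
        rw [hdm, h0, zero_mul] at this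
        exact absurd this (lt_irrefl 0)
      · exact h0
    have hroot : (G ^ e i * y i) ^ m i = form (a i) (fun l => G * x l) := by
      have h1 : G ^ d i = G ^ (e i * m i) := congrArg (fun r => G ^ r) (hdm.trans (mul_comm _ _))
      rw [mul_pow, hgood.root i hiC, dirTwo_form_mul, ← pow_mul, h1]
    have hform : Δ₀ ^ (d i + 1) * form (a i) (fun l => G * x l) ∈ intCl E₀ t := by
      unfold form
      rw [Finset.mul_sum]
      refine sum_mem fun J _ => ?_
      have h1 : Δ₀ ^ (d i + 1) * (a i J * mon (fun l => G * x l) J)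
          = (Δ₀ * a i J) * (Δ₀ ^ d i * mon (fun l => G * x l) J) := by ring
      rw [h1]
      exact mul_mem (hΔS _ (Or.inl (hSa ⟨i, J⟩))) (hmon i J)
    have hz : Δ₀ ^ (d i + 1) * (G ^ e i * y i) ∈ intCl E₀ t := by
      have h1 : (Δ₀ ^ (d i + 1) * (G ^ e i * y i)) ^ m i ∈ intCl E₀ t := by
        obtain ⟨r, hr⟩ := Nat.exists_eq_succ_of_ne_zero hm.ne'
        have h2 : (Δ₀ ^ (d i + 1) * (G ^ e i * y i)) ^ m i
            = (Δ₀ ^ (d i + 1)) ^ r * (Δ₀ ^ (d i + 1) * form (a i) (fun l => G * x l)) := by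
          rw [mul_pow, hroot, hr, pow_succ]
          ring
        rw [h2]
        exact mul_mem (pow_mem (pow_mem hΔR _) r) hform
      exact IsIntegral.of_pow hm h1
    obtain ⟨r, hr⟩ := Nat.exists_eq_add_of_le (hNi i)
    have h4 : Δ₀ ^ N * (G ^ e i * y i)
        = Δ₀ ^ (B i + r) * (Δ₀ ^ (d i + 1) * (G ^ e i * y i)) := by
      rw [hr]
      ring
    rw [h4]
    exact mul_mem (pow_mem hΔR _) hz

end Pool.Agent.Helper8.LG
end

/- Helper12.LVF.H8.LV.DirTwo -/
section
/-! # LG-DIR2: one direction of the base, second round -/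

set_option autoImplicit false

namespace Pool.Agent.Helper8.LV

open Pool.Agent.Helper8.LG

open scoped BigOperators

/-- second round: the poles of `x^J/F_i(x)` and of `G^(e_i) y_i` are bounded -/
theorem dir_two {k L : Type*} [Field k] [Field L] [CharZero L] [Algebra k L]
    {σ ι P : Type*} [Fintype σ] [DecidableEq σ] [Fintype ι] [DecidableEq ι]
    (d q e m : ι → ℕ) (a : (i : ι) → Sym σ (d i) → L) (D : P → Derivation ℤ L L)
    (Z C : Finset ι) (i₀ : σ) (w c : ℕ) (hnum : NumV d q e m Z C w c)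
    (E₀ : Subfield L) (hk : ∀ c : k, algebraMap k L c ∈ E₀) (t : L) (ht : Transcendental E₀ t)
    (hfin : FiniteDimensional (Subfield.closure ((E₀ : Set L) ∪ {t})) L)
    (S : Set L) (hS : S.Finite) (hSa : ∀ p : Ix σ d, a p.1 p.2 ∈ S)
    (V : Submodule k L) [FiniteDimensional k V] :
    ∃ Δ : L, Δ ≠ 0 ∧ ∀ (x : σ → L) (y : ι → L) (G : L),
      GoodV d m a D Z C i₀ w (Subring.closure ((E₀ : Set L) ∪ S)) x y →
      G ≠ 0 → (∀ l, G * x l ∈ V) →
      (∀ i ∉ Z, i ∉ C → ∀ J : Sym σ (d i), Δ * (mon x J / form (a i) x) ∈ intCl E₀ t) ∧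
      ∀ i ∈ C, Δ * (G ^ e i * y i) ∈ intCl E₀ t := by
  classical
  obtain ⟨T, hT⟩ : V.FG := Module.Finite.iff_fg.1 inferInstance
  obtain ⟨Δ₀, hΔc, hΔ0, _, hΔS⟩ := exists_bound (P := Empty) E₀ t ht hfin (fun p => p.elim)
    (fun p => p.elim) (fun p => p.elim) (S ∪ (T : Set L)) (hS.union T.finite_toSet)
  obtain ⟨hDed, hFrac⟩ := intCl_dedekind E₀ t ht hfin
  have hcl : Subring.closure ((E₀ : Set L) ∪ {t}) ≤ intCl E₀ t := by
    intro f hf
    exact isIntegral_algebraMap (R := Subring.closure ((E₀ : Set L) ∪ {t})) (x := ⟨f, hf⟩)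
  have hE₀R : ∀ f ∈ E₀, f ∈ intCl E₀ t := fun f hf =>
    hcl (Subring.subset_closure (Or.inl hf))
  have hkR : ∀ c : k, algebraMap k L c ∈ intCl E₀ t := fun c => hE₀R _ (hk c)
  have hΔR : Δ₀ ∈ intCl E₀ t := hcl hΔc
  -- elements of `V` have bounded poles
  have hVR : ∀ v ∈ V, Δ₀ * v ∈ intCl E₀ t := by
    intro v hv
    rw [← hT] at hv
    induction hv using Submodule.span_induction with
    | mem v hv => exact hΔS v (Or.inr hv)
    | zero => rw [mul_zero]; exact zero_mem _
    | add u v _ _ hu hv => rw [mul_add]; exact add_mem hu hv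
    | smul c v _ hv =>
      rw [Algebra.smul_def, mul_left_comm]
      exact mul_mem (hkR c) hv
  -- the constants of `bounded_of`
  have hB : ∀ i : ι, ∃ c : ℕ, ∀ O : ValuationSubring L, intCl E₀ t ≤ O.toSubring →
      Δ₀⁻¹ ∉ O → ∀ f ∈ dirTwoW V (a i), f ≠ 0 → Δ₀ ^ c * f⁻¹ ∈ O := by
    intro i
    have := dirTwo_finite V (a i)
    exact bounded_of (intCl E₀ t) hkR (dirTwoW V (a i)) Δ₀ hΔR hΔ0
  choose B hB using hB
  set N : ℕ := ∑ i, (B i + d i + 1) with hN
  have hNi : ∀ i, B i + d i + 1 ≤ N := fun i =>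
    Finset.single_le_sum (f := fun i => B i + d i + 1) (fun _ _ => Nat.zero_le _)
      (Finset.mem_univ i)
  refine ⟨Δ₀ ^ N, pow_ne_zero _ hΔ0, ?_⟩
  intro x y G hgood hG hGx
  -- the monomials and the forms at `G x`
  have hmon : ∀ i (J : Sym σ (d i)), Δ₀ ^ d i * mon (fun l => G * x l) J ∈ intCl E₀ t :=
    fun i J => dirTwo_mon_mem (intCl E₀ t) Δ₀ _ (fun l => hVR _ (hGx l)) J
  refine ⟨?_, ?_⟩
  · intro i hiZ hiC J
    refine mem_of (intCl E₀ t) _ fun O hO => ?_
    have hΔO : Δ₀ ∈ O := hO hΔR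
    by_cases hinv : Δ₀⁻¹ ∈ O
    · have hA : Subring.closure ((E₀ : Set L) ∪ S) ≤ O.toSubring := by
        rw [Subring.closure_le]
        rintro f (hf | hf)
        · exact hO (hE₀R f hf)
        · have h1 : f = Δ₀⁻¹ * (Δ₀ * f) := by
            rw [← mul_assoc, inv_mul_cancel₀ hΔ0, one_mul]
          rw [h1]
          exact mul_mem (S := ValuationSubring L) hinv (hO (hΔS f (Or.inl hf)))
      exact mul_mem (pow_mem hΔO N) (dirTwo_int_mem O _ hA (hgood.int i hiZ hiC J))
    · have hne : form (a i) (fun l => G * x l) ≠ 0 := by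
        rw [dirTwo_form_mul]
        exact mul_ne_zero (pow_ne_zero _ hG) (hgood.ne i hiZ)
      have h1 := hB i O hO hinv _ (dirTwo_form_mem V (a i) _ hGx) hne
      have h2 : Δ₀ ^ d i * mon (fun l => G * x l) J ∈ O := hO (hmon i J)
      have h3 : mon x J / form (a i) x
          = mon (fun l => G * x l) J * (form (a i) (fun l => G * x l))⁻¹ := by
        rw [dirTwo_mon_mul, dirTwo_form_mul]
        have := hgood.ne i hiZ
        field_simp
      obtain ⟨r, hr⟩ := Nat.exists_eq_add_of_le (hNi i)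
      have h4 : Δ₀ ^ N * (mon x J / form (a i) x) = Δ₀ ^ (r + 1)
          * ((Δ₀ ^ B i * (form (a i) (fun l => G * x l))⁻¹)
            * (Δ₀ ^ d i * mon (fun l => G * x l) J)) := by
        rw [h3, hr]
        ring
      rw [h4]
      exact mul_mem (pow_mem hΔO _) (mul_mem h1 h2)
  · intro i hiC
    have hdm : d i = m i * e i := hnum.deg i hiC
    have hm : 0 < m i := by
      rcases Nat.eq_zero_or_pos (m i) with h0 | h0
      · have := hnum.pos i
        rw [hdm, h0, zero_mul] at this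
        exact absurd this (lt_irrefl 0)
      · exact h0
    have hroot : (G ^ e i * y i) ^ m i = form (a i) (fun l => G * x l) := by
      have h1 : G ^ d i = G ^ (e i * m i) := congrArg (fun r => G ^ r) (hdm.trans (mul_comm _ _))
      rw [mul_pow, hgood.root i hiC, dirTwo_form_mul, ← pow_mul, h1]
    have hform : Δ₀ ^ (d i + 1) * form (a i) (fun l => G * x l) ∈ intCl E₀ t := by
      unfold form
      rw [Finset.mul_sum]
      refine sum_mem fun J _ => ?_
      have h1 : Δ₀ ^ (d i + 1) * (a i J * mon (fun l => G * x l) J)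
          = (Δ₀ * a i J) * (Δ₀ ^ d i * mon (fun l => G * x l) J) := by ring
      rw [h1]
      exact mul_mem (hΔS _ (Or.inl (hSa ⟨i, J⟩))) (hmon i J)
    have hz : Δ₀ ^ (d i + 1) * (G ^ e i * y i) ∈ intCl E₀ t := by
      have h1 : (Δ₀ ^ (d i + 1) * (G ^ e i * y i)) ^ m i ∈ intCl E₀ t := by
        obtain ⟨r, hr⟩ := Nat.exists_eq_succ_of_ne_zero hm.ne'
        have h2 : (Δ₀ ^ (d i + 1) * (G ^ e i * y i)) ^ m i
            = (Δ₀ ^ (d i + 1)) ^ r * (Δ₀ ^ (d i + 1) * form (a i) (fun l => G * x l)) := by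
          rw [mul_pow, hroot, hr, pow_succ]
          ring
        rw [h2]
        exact mul_mem (pow_mem (pow_mem hΔR _) r) hform
      exact IsIntegral.of_pow hm h1
    obtain ⟨r, hr⟩ := Nat.exists_eq_add_of_le (hNi i)
    have h4 : Δ₀ ^ N * (G ^ e i * y i)
        = Δ₀ ^ (B i + r) * (Δ₀ ^ (d i + 1) * (G ^ e i * y i)) := by
      rw [hr]
      ring
    rw [h4]
    exact mul_mem (pow_mem hΔR _) hz

end Pool.Agent.Helper8.LV
end

/- Helper12.LVF.H8.LV.Bound -/
section
/-! # LG-BD: everything lies in a finite-dimensional space -/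

set_option autoImplicit false

namespace Pool.Agent.Helper8.LV

open Pool.Agent.Helper8.LG

open scoped BigOperators

private theorem bdInv {L : Type*} [Field L] (D : Derivation ℤ L L) (f : L) :
    D f⁻¹ = -(f⁻¹ ^ 2) * D f := by
  have h := Derivation.leibniz_inv D f
  rw [h, smul_eq_mul]

private theorem bdDual {L σ ι τ : Type*} [Field L] [DecidableEq σ] [DecidableEq ι] [Fintype τ]
    (d : ι → ℕ) (a : (i : ι) → Sym σ (d i) → L)
    (D : Ix σ d → Derivation ℤ L L) (jj : τ → Ix σ d) (θ : τ → Ix σ d → L)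
    (hD : Dual d a D jj θ) (T : Finset (Ix σ d)) (hT : ∀ j, jj j ∉ T) (q : Ix σ d) (p : T) :
    D q (a p.1.1 p.1.2) = if q = p.1 then 1 else 0 := by
  have h := hD q p.1
  rw [Finset.sum_eq_zero, sub_zero] at h
  · exact h
  · intro j _
    rw [if_neg]
    rintro h1
    exact hT j (h1 ▸ p.2)

private theorem bdStable {k L σ ι τ : Type*} [Field k] [Field L] [Algebra k L]
    [DecidableEq σ] [DecidableEq ι] [Fintype τ]
    (d : ι → ℕ) (a : (i : ι) → Sym σ (d i) → L)
    (D : Ix σ d → Derivation ℤ L L) (jj : τ → Ix σ d) (θ : τ → Ix σ d → L)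
    (hD : Dual d a D jj θ) (T : Finset (Ix σ d)) (hT : ∀ j, jj j ∉ T)
    (hDk : ∀ p (c : k), D p (algebraMap k L c) = 0) (p : T) (q : Ix σ d) :
    ∀ f ∈ others (k := k) (fun p : T => a p.1.1 p.1.2) p,
      D q f ∈ others (k := k) (fun p : T => a p.1.1 p.1.2) p := by
  intro f hf
  have hf' : f ∈ IntermediateField.adjoin k ((fun p : T => a p.1.1 p.1.2) '' {p}ᶜ) := hf
  show D q f ∈ IntermediateField.adjoin k ((fun p : T => a p.1.1 p.1.2) '' {p}ᶜ)
  induction hf' using IntermediateField.adjoin_induction with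
  | mem x hx =>
    obtain ⟨r, _, rfl⟩ := hx
    show D q (a r.1.1 r.1.2) ∈ _
    rw [bdDual d a D jj θ hD T hT q r]
    split_ifs
    · exact one_mem _
    · exact zero_mem _
  | algebraMap c =>
    rw [hDk q c]
    exact zero_mem _
  | add x y hx hy hx' hy' =>
    rw [map_add]
    exact add_mem (hx' hx) (hy' hy)
  | inv x hx hx' =>
    rw [bdInv]
    exact mul_mem (neg_mem (pow_mem (inv_mem hx) 2)) (hx' hx)
  | mul x y hx hy hx' hy' =>
    rw [Derivation.leibniz, smul_eq_mul, smul_eq_mul]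
    exact add_mem (mul_mem hx (hy' hy)) (mul_mem hy (hx' hx))

private theorem bdVar {L σ ι τ : Type*} [Field L] [DecidableEq σ] [DecidableEq ι] [Fintype τ]
    (d : ι → ℕ) (a : (i : ι) → Sym σ (d i) → L)
    (D : Ix σ d → Derivation ℤ L L) (jj : τ → Ix σ d) (θ : τ → Ix σ d → L)
    (hD : Dual d a D jj θ) (T : Finset (Ix σ d)) (hT : ∀ j, jj j ∉ T) (p : T) (q : Ix σ d)
    (R : Subring L) :
    D q (a p.1.1 p.1.2) ∈ R := by
  rw [bdDual d a D jj θ hD T hT q p]
  split_ifs
  · exact one_mem _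
  · exact zero_mem _

private theorem bdVarInv {L σ ι τ : Type*} [Field L] [DecidableEq σ] [DecidableEq ι] [Fintype τ]
    (d : ι → ℕ) (a : (i : ι) → Sym σ (d i) → L)
    (D : Ix σ d → Derivation ℤ L L) (jj : τ → Ix σ d) (θ : τ → Ix σ d → L)
    (hD : Dual d a D jj θ) (T : Finset (Ix σ d)) (hT : ∀ j, jj j ∉ T) (p : T) (q : Ix σ d)
    (R : Subring L) (hR : (a p.1.1 p.1.2)⁻¹ ∈ R) :
    D q (a p.1.1 p.1.2)⁻¹ ∈ R := by
  rw [bdInv]
  exact mul_mem (neg_mem (pow_mem hR 2)) (bdVar d a D jj θ hD T hT p q R)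

private theorem bdGood {E σ ι P : Type*} [Field E] [Fintype σ] [DecidableEq σ]
    {d m : ι → ℕ} {a : (i : ι) → Sym σ (d i) → E} {D : P → Derivation ℤ E E}
    {Z C : Finset ι} {i₀ : σ} {w : ℕ} {A B : Subring E} (hAB : A ≤ B)
    {x : σ → E} {y : ι → E} (h : GoodV d m a D Z C i₀ w A x y) :
    GoodV d m a D Z C i₀ w B x y where
  one := h.one
  zero := h.zero
  ne := h.ne
  root := h.root
  int := fun i hZ hC J =>
    (h.int i hZ hC J).map_of_comp_eq (Subring.inclusion hAB) (RingHom.id E) rfl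
  rank := h.rank

private theorem bdLe {k L : Type*} [Field k] [Field L] [Algebra k L] (s : Set L)
    (E₀ : Subfield L) (hk : ∀ c : k, algebraMap k L c ∈ E₀) (S : Set L) (hs : s ⊆ S) :
    (Algebra.adjoin k s).toSubring ≤ Subring.closure ((E₀ : Set L) ∪ S) := by
  intro f hf
  have hf' : f ∈ Algebra.adjoin k s := hf
  induction hf' using Algebra.adjoin_induction with
  | mem x hx => exact Subring.subset_closure (Or.inr (hs hx))
  | algebraMap c => exact Subring.subset_closure (Or.inl (hk c))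
  | add x y hx hy hx' hy' => exact add_mem (hx' hx) (hy' hy)
  | mul x y hx hy hx' hy' => exact mul_mem (hx' hx) (hy' hy)

theorem bounded {k L : Type*} [Field k] [Field L] [CharZero L] [Algebra k L]
    {σ ι τ : Type*} [Fintype σ] [DecidableEq σ] [Fintype ι] [DecidableEq ι] [Fintype τ]
    (d b q e m : ι → ℕ) (a aA : (i : ι) → Sym σ (d i) → L) (ap : (i : ι) → Sym σ (b i) → L)
    (ah : (i : ι) → Sym σ (q i) → L) (hF : Fam d b q a aA ap ah) (hAk : Over k aA)
    (hpk : Over k ap) (T : Finset (Ix σ q))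
    (hind : AlgebraicIndependent k (fun p : T => ah p.1.1 p.1.2))
    (hfin : FiniteDimensional
      (IntermediateField.adjoin k (Set.range fun p : T => ah p.1.1 p.1.2)) L)
    (D : Ix σ q → Derivation ℤ L L) (jj : τ → Ix σ q) (θ : τ → Ix σ q → L)
    (hD : Dual q ah D jj θ) (hT : ∀ j, jj j ∉ T)
    (hDk : ∀ p (c : k), D p (algebraMap k L c) = 0)
    (Z C : Finset ι) (i₀ : σ) (w : ℕ) (hnum : NumV d q e m Z C w (Fintype.card τ))
    (A : Subalgebra k L) (hA : A.FG) :
    ∃ V : Submodule k L, FiniteDimensional k V ∧ ∀ (x : σ → L) (y : ι → L),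
      GoodV d m a D Z C i₀ w A.toSubring x y → (∀ i, form (ap i) x ≠ 0) →
      ∃ G : L, G ≠ 0 ∧ (∀ l, G * x l ∈ V) ∧
        (∀ i ∉ Z, i ∉ C → ∀ J : Sym σ (d i), mon x J / form (a i) x ∈ V) ∧
        ∀ i ∈ C, G ^ e i * y i ∈ V := by
  classical
  obtain ⟨s, hs⟩ := hA
  set y₀ : T → L := fun p : T => ah p.1.1 p.1.2 with hy₀
  set S : Set L := (s : Set L) ∪ (Set.range (fun p : Ix σ d => a p.1 p.2) ∪
    Set.range fun r : τ × Ix σ q => θ r.1 r.2) with hS
  have hSfin : S.Finite :=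
    (s.finite_toSet).union ((Set.finite_range _).union (Set.finite_range _))
  have hSa : ∀ p : Ix σ d, a p.1 p.2 ∈ S := fun p => Or.inr (Or.inl ⟨p, rfl⟩)
  have hSθ : ∀ j s, θ j s ∈ S := fun j s => Or.inr (Or.inr ⟨(j, s), rfl⟩)
  have hk : ∀ (p : T) (c : k), algebraMap k L c ∈ others (k := k) y₀ p := by
    intro p c
    exact IntermediateField.algebraMap_mem _ c
  have hAle : ∀ p : T,
      A.toSubring ≤ Subring.closure ((others (k := k) y₀ p : Set L) ∪ S) := by
    intro p
    rw [← hs]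
    exact bdLe (s : Set L) _ (hk p) S Set.subset_union_left
  have htr := others_transcendental (k := k) y₀ hind
  have hof := others_finite (k := k) y₀ hfin
  have hst : ∀ (p : T) (s : Ix σ q), ∀ f ∈ others (k := k) y₀ p,
      D s f ∈ others (k := k) y₀ p :=
    fun p s => bdStable q ah D jj θ hD T hT hDk p s
  -- first round
  have h1 : ∀ p : T, ∃ Δ : L, Δ ≠ 0 ∧ ∀ (x : σ → L) (y : ι → L) (G : L),
      GoodV d m a D Z C i₀ w (Subring.closure ((others (k := k) y₀ p : Set L) ∪ S)) x y →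
      KeyV d e a D θ Z (uu C y) x G →
      ∀ l, Δ * (G * x l) ∈ intCl (others (k := k) y₀ p) (y₀ p) := by
    intro p
    exact dir_one d q e m a D θ Z C i₀ w _ hnum (others (k := k) y₀ p) (y₀ p) (htr p).1 (hof p).1
      (fun s => hst p s) (fun s => bdVar q ah D jj θ hD T hT p s _) S hSfin hSa hSθ
  have h1' : ∀ p : T, ∃ Δ : L, Δ ≠ 0 ∧ ∀ (x : σ → L) (y : ι → L) (G : L),
      GoodV d m a D Z C i₀ w (Subring.closure ((others (k := k) y₀ p : Set L) ∪ S)) x y →
      KeyV d e a D θ Z (uu C y) x G →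
      ∀ l, Δ * (G * x l) ∈ intCl (others (k := k) y₀ p) (y₀ p)⁻¹ := by
    intro p
    exact dir_one d q e m a D θ Z C i₀ w _ hnum (others (k := k) y₀ p) (y₀ p)⁻¹ (htr p).2 (hof p).2
      (fun s => hst p s)
      (fun s => bdVarInv q ah D jj θ hD T hT p s _ (Subring.subset_closure (Or.inr rfl)))
      S hSfin hSa hSθ
  choose Δ₁ hΔ₁ H₁ using h1
  choose Δ₁' hΔ₁' H₁' using h1'
  obtain ⟨V₁, hV₁, hV₁'⟩ := fd y₀ hind hfin Δ₁ Δ₁' hΔ₁ hΔ₁'
  -- second round
  have h2 : ∀ p : T, ∃ Δ : L, Δ ≠ 0 ∧ ∀ (x : σ → L) (y : ι → L) (G : L),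
      GoodV d m a D Z C i₀ w (Subring.closure ((others (k := k) y₀ p : Set L) ∪ S)) x y →
      G ≠ 0 → (∀ l, G * x l ∈ V₁) →
      (∀ i ∉ Z, i ∉ C → ∀ J : Sym σ (d i),
        Δ * (mon x J / form (a i) x) ∈ intCl (others (k := k) y₀ p) (y₀ p)) ∧
      ∀ i ∈ C, Δ * (G ^ e i * y i) ∈ intCl (others (k := k) y₀ p) (y₀ p) := by
    intro p
    exact dir_two d q e m a D Z C i₀ w _ hnum (others (k := k) y₀ p) (hk p) (y₀ p) (htr p).1
      (hof p).1 S hSfin hSa V₁
  have h2' : ∀ p : T, ∃ Δ : L, Δ ≠ 0 ∧ ∀ (x : σ → L) (y : ι → L) (G : L),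
      GoodV d m a D Z C i₀ w (Subring.closure ((others (k := k) y₀ p : Set L) ∪ S)) x y →
      G ≠ 0 → (∀ l, G * x l ∈ V₁) →
      (∀ i ∉ Z, i ∉ C → ∀ J : Sym σ (d i),
        Δ * (mon x J / form (a i) x) ∈ intCl (others (k := k) y₀ p) (y₀ p)⁻¹) ∧
      ∀ i ∈ C, Δ * (G ^ e i * y i) ∈ intCl (others (k := k) y₀ p) (y₀ p)⁻¹ := by
    intro p
    exact dir_two d q e m a D Z C i₀ w _ hnum (others (k := k) y₀ p) (hk p) (y₀ p)⁻¹ (htr p).2
      (hof p).2 S hSfin hSa V₁
  choose Δ₂ hΔ₂ H₂ using h2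
  choose Δ₂' hΔ₂' H₂' using h2'
  obtain ⟨V₂, hV₂, hV₂'⟩ := fd y₀ hind hfin Δ₂ Δ₂' hΔ₂ hΔ₂'
  haveI := hV₁
  haveI := hV₂
  refine ⟨V₁ ⊔ V₂, inferInstance, ?_⟩
  intro x y hgood hP
  have hg : ∀ p : T,
      GoodV d m a D Z C i₀ w (Subring.closure ((others (k := k) y₀ p : Set L) ∪ S)) x y :=
    fun p => bdGood (hAle p) hgood
  have hu : ∀ i ∉ Z, uu C y i ≠ 0 := by
    intro i hi
    unfold uu
    by_cases hC : i ∈ C
    · rw [if_pos hC]
      intro h0
      have hr := hgood.root i hC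
      have hm : m i ≠ 0 := by
        intro hm0
        have h1 := hnum.deg i hC
        have h2 := hnum.pos i
        rw [hm0, zero_mul] at h1
        omega
      rw [h0, zero_pow hm] at hr
      exact hgood.ne i hi hr.symm
    · rw [if_neg hC]
      exact one_ne_zero
  obtain ⟨G, hG, hKey⟩ := key d b q e hnum.posq a aA ap ah D jj θ hD
    (hF.mov (k := k) hAk hpk D hDk) Z x i₀ hgood.one hgood.zero hgood.ne hP
    (uu C y) hu w hnum.ineq hgood.rank
  have hGx : ∀ l, G * x l ∈ V₁ := by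
    intro l
    apply hV₁'
    intro p
    exact ⟨H₁ p x y G (hg p) hKey l, H₁' p x y G (hg p) hKey l⟩
  refine ⟨G, hG, fun l => Submodule.mem_sup_left (hGx l), ?_, ?_⟩
  · intro i hi hC J
    apply Submodule.mem_sup_right
    apply hV₂'
    intro p
    exact ⟨(H₂ p x y G (hg p) hG hGx).1 i hi hC J, (H₂' p x y G (hg p) hG hGx).1 i hi hC J⟩
  · intro i hC
    apply Submodule.mem_sup_right
    apply hV₂'
    intro p
    exact ⟨(H₂ p x y G (hg p) hG hGx).2 i hC, (H₂' p x y G (hg p) hG hGx).2 i hC⟩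

end Pool.Agent.Helper8.LV
end

/- Helper12.LVF.H8.LG.Bound -/
section
/-! # LG-BD: everything lies in a finite-dimensional space -/

set_option autoImplicit false

namespace Pool.Agent.Helper8.LG

open scoped BigOperators

private theorem bdInv {L : Type*} [Field L] (D : Derivation ℤ L L) (f : L) :
    D f⁻¹ = -(f⁻¹ ^ 2) * D f := by
  have h := Derivation.leibniz_inv D f
  rw [h, smul_eq_mul]

private theorem bdDual {L σ ι τ : Type*} [Field L] [DecidableEq σ] [DecidableEq ι] [Fintype τ]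
    (d : ι → ℕ) (a : (i : ι) → Sym σ (d i) → L)
    (D : Ix σ d → Derivation ℤ L L) (jj : τ → Ix σ d) (θ : τ → Ix σ d → L)
    (hD : Dual d a D jj θ) (T : Finset (Ix σ d)) (hT : ∀ j, jj j ∉ T) (q : Ix σ d) (p : T) :
    D q (a p.1.1 p.1.2) = if q = p.1 then 1 else 0 := by
  have h := hD q p.1
  rw [Finset.sum_eq_zero, sub_zero] at h
  · exact h
  · intro j _
    rw [if_neg]
    rintro h1
    exact hT j (h1 ▸ p.2)

private theorem bdStable {k L σ ι τ : Type*} [Field k] [Field L] [Algebra k L]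
    [DecidableEq σ] [DecidableEq ι] [Fintype τ]
    (d : ι → ℕ) (a : (i : ι) → Sym σ (d i) → L)
    (D : Ix σ d → Derivation ℤ L L) (jj : τ → Ix σ d) (θ : τ → Ix σ d → L)
    (hD : Dual d a D jj θ) (T : Finset (Ix σ d)) (hT : ∀ j, jj j ∉ T)
    (hDk : ∀ p (c : k), D p (algebraMap k L c) = 0) (p : T) (q : Ix σ d) :
    ∀ f ∈ others (k := k) (fun p : T => a p.1.1 p.1.2) p,
      D q f ∈ others (k := k) (fun p : T => a p.1.1 p.1.2) p := by
  intro f hf
  have hf' : f ∈ IntermediateField.adjoin k ((fun p : T => a p.1.1 p.1.2) '' {p}ᶜ) := hf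
  show D q f ∈ IntermediateField.adjoin k ((fun p : T => a p.1.1 p.1.2) '' {p}ᶜ)
  induction hf' using IntermediateField.adjoin_induction with
  | mem x hx =>
    obtain ⟨r, _, rfl⟩ := hx
    show D q (a r.1.1 r.1.2) ∈ _
    rw [bdDual d a D jj θ hD T hT q r]
    split_ifs
    · exact one_mem _
    · exact zero_mem _
  | algebraMap c =>
    rw [hDk q c]
    exact zero_mem _
  | add x y hx hy hx' hy' =>
    rw [map_add]
    exact add_mem (hx' hx) (hy' hy)
  | inv x hx hx' =>
    rw [bdInv]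
    exact mul_mem (neg_mem (pow_mem (inv_mem hx) 2)) (hx' hx)
  | mul x y hx hy hx' hy' =>
    rw [Derivation.leibniz, smul_eq_mul, smul_eq_mul]
    exact add_mem (mul_mem hx (hy' hy)) (mul_mem hy (hx' hx))

private theorem bdVar {L σ ι τ : Type*} [Field L] [DecidableEq σ] [DecidableEq ι] [Fintype τ]
    (d : ι → ℕ) (a : (i : ι) → Sym σ (d i) → L)
    (D : Ix σ d → Derivation ℤ L L) (jj : τ → Ix σ d) (θ : τ → Ix σ d → L)
    (hD : Dual d a D jj θ) (T : Finset (Ix σ d)) (hT : ∀ j, jj j ∉ T) (p : T) (q : Ix σ d)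
    (R : Subring L) :
    D q (a p.1.1 p.1.2) ∈ R := by
  rw [bdDual d a D jj θ hD T hT q p]
  split_ifs
  · exact one_mem _
  · exact zero_mem _

private theorem bdVarInv {L σ ι τ : Type*} [Field L] [DecidableEq σ] [DecidableEq ι] [Fintype τ]
    (d : ι → ℕ) (a : (i : ι) → Sym σ (d i) → L)
    (D : Ix σ d → Derivation ℤ L L) (jj : τ → Ix σ d) (θ : τ → Ix σ d → L)
    (hD : Dual d a D jj θ) (T : Finset (Ix σ d)) (hT : ∀ j, jj j ∉ T) (p : T) (q : Ix σ d)
    (R : Subring L) (hR : (a p.1.1 p.1.2)⁻¹ ∈ R) :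
    D q (a p.1.1 p.1.2)⁻¹ ∈ R := by
  rw [bdInv]
  exact mul_mem (neg_mem (pow_mem hR 2)) (bdVar d a D jj θ hD T hT p q R)

private theorem bdGood {E σ ι : Type*} [Field E] [Fintype σ] [DecidableEq σ]
    {d m : ι → ℕ} {a : (i : ι) → Sym σ (d i) → E} {D : Ix σ d → Derivation ℤ E E}
    {Z C : Finset ι} {i₀ : σ} {w : ℕ} {A B : Subring E} (hAB : A ≤ B)
    {x : σ → E} {y : ι → E} (h : Good d m a D Z C i₀ w A x y) :
    Good d m a D Z C i₀ w B x y where
  one := h.one
  zero := h.zero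
  ne := h.ne
  root := h.root
  int := fun i hZ hC J =>
    (h.int i hZ hC J).map_of_comp_eq (Subring.inclusion hAB) (RingHom.id E) rfl
  rank := h.rank

private theorem bdLe {k L : Type*} [Field k] [Field L] [Algebra k L] (s : Set L)
    (E₀ : Subfield L) (hk : ∀ c : k, algebraMap k L c ∈ E₀) (S : Set L) (hs : s ⊆ S) :
    (Algebra.adjoin k s).toSubring ≤ Subring.closure ((E₀ : Set L) ∪ S) := by
  intro f hf
  have hf' : f ∈ Algebra.adjoin k s := hf
  induction hf' using Algebra.adjoin_induction with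
  | mem x hx => exact Subring.subset_closure (Or.inr (hs hx))
  | algebraMap c => exact Subring.subset_closure (Or.inl (hk c))
  | add x y hx hy hx' hy' => exact add_mem (hx' hx) (hy' hy)
  | mul x y hx hy hx' hy' => exact mul_mem (hx' hx) (hy' hy)

theorem bounded {k L : Type*} [Field k] [Field L] [CharZero L] [Algebra k L]
    {σ ι τ : Type*} [Fintype σ] [DecidableEq σ] [Fintype ι] [DecidableEq ι] [Fintype τ]
    (d e m : ι → ℕ) (a : (i : ι) → Sym σ (d i) → L) (T : Finset (Ix σ d))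
    (hind : AlgebraicIndependent k (fun p : T => a p.1.1 p.1.2))
    (hfin : FiniteDimensional
      (IntermediateField.adjoin k (Set.range fun p : T => a p.1.1 p.1.2)) L)
    (D : Ix σ d → Derivation ℤ L L) (jj : τ → Ix σ d) (θ : τ → Ix σ d → L)
    (hD : Dual d a D jj θ) (hT : ∀ j, jj j ∉ T)
    (hDk : ∀ p (c : k), D p (algebraMap k L c) = 0)
    (Z C : Finset ι) (i₀ : σ) (w : ℕ) (hnum : Num d e m Z C w (Fintype.card τ))
    (A : Subalgebra k L) (hA : A.FG) :
    ∃ V : Submodule k L, FiniteDimensional k V ∧ ∀ (x : σ → L) (y : ι → L),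
      Good d m a D Z C i₀ w A.toSubring x y →
      ∃ G : L, G ≠ 0 ∧ (∀ l, G * x l ∈ V) ∧
        (∀ i ∉ Z, i ∉ C → ∀ J : Sym σ (d i), mon x J / form (a i) x ∈ V) ∧
        ∀ i ∈ C, G ^ e i * y i ∈ V := by
  classical
  obtain ⟨s, hs⟩ := hA
  set y₀ : T → L := fun p : T => a p.1.1 p.1.2 with hy₀
  set S : Set L := (s : Set L) ∪ (Set.range (fun p : Ix σ d => a p.1 p.2) ∪
    Set.range fun r : τ × Ix σ d => θ r.1 r.2) with hS
  have hSfin : S.Finite :=
    (s.finite_toSet).union ((Set.finite_range _).union (Set.finite_range _))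
  have hSa : ∀ p : Ix σ d, a p.1 p.2 ∈ S := fun p => Or.inr (Or.inl ⟨p, rfl⟩)
  have hSθ : ∀ j s, θ j s ∈ S := fun j s => Or.inr (Or.inr ⟨(j, s), rfl⟩)
  have hk : ∀ (p : T) (c : k), algebraMap k L c ∈ others (k := k) y₀ p := by
    intro p c
    exact IntermediateField.algebraMap_mem _ c
  have hAle : ∀ p : T,
      A.toSubring ≤ Subring.closure ((others (k := k) y₀ p : Set L) ∪ S) := by
    intro p
    rw [← hs]
    exact bdLe (s : Set L) _ (hk p) S Set.subset_union_left
  have htr := others_transcendental (k := k) y₀ hind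
  have hof := others_finite (k := k) y₀ hfin
  have hst : ∀ (p : T) (q : Ix σ d), ∀ f ∈ others (k := k) y₀ p,
      D q f ∈ others (k := k) y₀ p :=
    fun p q => bdStable d a D jj θ hD T hT hDk p q
  -- first round
  have h1 : ∀ p : T, ∃ Δ : L, Δ ≠ 0 ∧ ∀ (x : σ → L) (y : ι → L) (G : L),
      Good d m a D Z C i₀ w (Subring.closure ((others (k := k) y₀ p : Set L) ∪ S)) x y →
      KeyG d e a D θ Z (uu C y) x G →
      ∀ l, Δ * (G * x l) ∈ intCl (others (k := k) y₀ p) (y₀ p) := by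
    intro p
    exact dir_one d e m a D θ Z C i₀ w _ hnum (others (k := k) y₀ p) (y₀ p) (htr p).1 (hof p).1
      (fun q => hst p q) (fun q => bdVar d a D jj θ hD T hT p q _) S hSfin hSa hSθ
  have h1' : ∀ p : T, ∃ Δ : L, Δ ≠ 0 ∧ ∀ (x : σ → L) (y : ι → L) (G : L),
      Good d m a D Z C i₀ w (Subring.closure ((others (k := k) y₀ p : Set L) ∪ S)) x y →
      KeyG d e a D θ Z (uu C y) x G →
      ∀ l, Δ * (G * x l) ∈ intCl (others (k := k) y₀ p) (y₀ p)⁻¹ := by
    intro p
    exact dir_one d e m a D θ Z C i₀ w _ hnum (others (k := k) y₀ p) (y₀ p)⁻¹ (htr p).2 (hof p).2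
      (fun q => hst p q)
      (fun q => bdVarInv d a D jj θ hD T hT p q _ (Subring.subset_closure (Or.inr rfl)))
      S hSfin hSa hSθ
  choose Δ₁ hΔ₁ H₁ using h1
  choose Δ₁' hΔ₁' H₁' using h1'
  obtain ⟨V₁, hV₁, hV₁'⟩ := fd y₀ hind hfin Δ₁ Δ₁' hΔ₁ hΔ₁'
  -- second round
  have h2 : ∀ p : T, ∃ Δ : L, Δ ≠ 0 ∧ ∀ (x : σ → L) (y : ι → L) (G : L),
      Good d m a D Z C i₀ w (Subring.closure ((others (k := k) y₀ p : Set L) ∪ S)) x y →
      G ≠ 0 → (∀ l, G * x l ∈ V₁) →
      (∀ i ∉ Z, i ∉ C → ∀ J : Sym σ (d i),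
        Δ * (mon x J / form (a i) x) ∈ intCl (others (k := k) y₀ p) (y₀ p)) ∧
      ∀ i ∈ C, Δ * (G ^ e i * y i) ∈ intCl (others (k := k) y₀ p) (y₀ p) := by
    intro p
    exact dir_two d e m a D Z C i₀ w _ hnum (others (k := k) y₀ p) (hk p) (y₀ p) (htr p).1
      (hof p).1 S hSfin hSa V₁
  have h2' : ∀ p : T, ∃ Δ : L, Δ ≠ 0 ∧ ∀ (x : σ → L) (y : ι → L) (G : L),
      Good d m a D Z C i₀ w (Subring.closure ((others (k := k) y₀ p : Set L) ∪ S)) x y →
      G ≠ 0 → (∀ l, G * x l ∈ V₁) →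
      (∀ i ∉ Z, i ∉ C → ∀ J : Sym σ (d i),
        Δ * (mon x J / form (a i) x) ∈ intCl (others (k := k) y₀ p) (y₀ p)⁻¹) ∧
      ∀ i ∈ C, Δ * (G ^ e i * y i) ∈ intCl (others (k := k) y₀ p) (y₀ p)⁻¹ := by
    intro p
    exact dir_two d e m a D Z C i₀ w _ hnum (others (k := k) y₀ p) (hk p) (y₀ p)⁻¹ (htr p).2
      (hof p).2 S hSfin hSa V₁
  choose Δ₂ hΔ₂ H₂ using h2
  choose Δ₂' hΔ₂' H₂' using h2'
  obtain ⟨V₂, hV₂, hV₂'⟩ := fd y₀ hind hfin Δ₂ Δ₂' hΔ₂ hΔ₂'
  haveI := hV₁
  haveI := hV₂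
  refine ⟨V₁ ⊔ V₂, inferInstance, ?_⟩
  intro x y hgood
  have hg : ∀ p : T,
      Good d m a D Z C i₀ w (Subring.closure ((others (k := k) y₀ p : Set L) ∪ S)) x y :=
    fun p => bdGood (hAle p) hgood
  have hu : ∀ i ∉ Z, uu C y i ≠ 0 := by
    intro i hi
    unfold uu
    by_cases hC : i ∈ C
    · rw [if_pos hC]
      intro h0
      have hr := hgood.root i hC
      have hm : m i ≠ 0 := by
        intro hm0
        have h1 := hnum.deg i hC
        have h2 := hnum.pos i
        rw [hm0, zero_mul] at h1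
        omega
      rw [h0, zero_pow hm] at hr
      exact hgood.ne i hi hr.symm
    · rw [if_neg hC]
      exact one_ne_zero
  obtain ⟨G, hG, hKey⟩ := key d e hnum.pos a D jj θ hD Z x i₀ hgood.one hgood.zero hgood.ne
    (uu C y) hu w hnum.ineq hgood.rank
  have hGx : ∀ l, G * x l ∈ V₁ := by
    intro l
    apply hV₁'
    intro p
    exact ⟨H₁ p x y G (hg p) hKey l, H₁' p x y G (hg p) hKey l⟩
  refine ⟨G, hG, fun l => Submodule.mem_sup_left (hGx l), ?_, ?_⟩
  · intro i hi hC J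
    apply Submodule.mem_sup_right
    apply hV₂'
    intro p
    exact ⟨(H₂ p x y G (hg p) hG hGx).1 i hi hC J, (H₂' p x y G (hg p) hG hGx).1 i hi hC J⟩
  · intro i hC
    apply Submodule.mem_sup_right
    apply hV₂'
    intro p
    exact ⟨(H₂ p x y G (hg p) hG hGx).2 i hC, (H₂' p x y G (hg p) hG hGx).2 i hC⟩

end Pool.Agent.Helper8.LG
end

/- Helper12.LVF.H49.LG.GenLine -/
section
/-!
# Lines and generic forms

`gen_line`: a line is not contained in all the `F_i = 0`. `no_two`: the `F_i` do not all vanish in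
at most two points of a line.
-/

set_option autoImplicit false

namespace Pool.Agent.Helper49.LG

open scoped BigOperators
open Pool.Agent.Helper8.LG

/-- A binary form which vanishes at the points `p + n q` is zero. -/
theorem zero_of_nat {E : Type*} [Field E] [CharZero E] (m : ℕ) (f : Fin (m + 1) → E)
    (p₁ p₂ q₁ q₂ : E) (hdet : p₁ * q₂ - p₂ * q₁ ≠ 0)
    (h : ∀ n : ℕ, ∑ r : Fin (m + 1), f r * ((p₁ + n * q₁) ^ (m - r) * (p₂ + n * q₂) ^ (r : ℕ)) = 0)
    (r : Fin (m + 1)) : f r = 0 := by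
  classical
  set P : Polynomial E := ∑ r : Fin (m + 1), Polynomial.C (f r) * Polynomial.X ^ (r : ℕ) with hP
  have hcoeff : P.coeff r = f r := by
    rw [hP, Polynomial.finsetSum_coeff]
    rw [Finset.sum_eq_single r]
    · rw [Polynomial.coeff_C_mul, Polynomial.coeff_X_pow_self, mul_one]
    · intro s _ hs
      rw [Polynomial.coeff_C_mul, Polynomial.coeff_X_pow, if_neg, mul_zero]
      intro h1
      exact hs (Fin.ext h1.symm)
    · intro h1
      exact absurd (Finset.mem_univ r) h1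
  -- the good `n`
  have hbad : {n : ℕ | p₁ + n * q₁ = 0}.Finite := by
    refine Set.Subsingleton.finite ?_
    intro n hn n' hn'
    have h1 : (n : E) * q₁ = n' * q₁ := by
      have h2 : p₁ + n * q₁ = p₁ + n' * q₁ := (show p₁ + n * q₁ = 0 from hn).trans
        (show p₁ + n' * q₁ = 0 from hn').symm
      exact add_left_cancel h2
    by_cases hq : q₁ = 0
    · exfalso
      have h3 : p₁ = 0 := by
        have h2 : p₁ + n * q₁ = 0 := hn
        rwa [hq, mul_zero, add_zero] at h2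
      apply hdet
      rw [hq, h3]
      ring
    · exact Nat.cast_injective (mul_right_cancel₀ hq h1)
  have hroot : ∀ n : ℕ, p₁ + n * q₁ ≠ 0 →
      P.IsRoot ((p₂ + n * q₂) / (p₁ + n * q₁)) := by
    intro n hn
    rw [Polynomial.IsRoot, hP, Polynomial.eval_finsetSum]
    have h1 : ∑ r : Fin (m + 1), f r * ((p₂ + n * q₂) / (p₁ + n * q₁)) ^ (r : ℕ) =
        (∑ r : Fin (m + 1), f r * ((p₁ + n * q₁) ^ (m - r) * (p₂ + n * q₂) ^ (r : ℕ))) /
          (p₁ + n * q₁) ^ m := by
      rw [Finset.sum_div]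
      refine Finset.sum_congr rfl fun s _ => ?_
      have h2 : (p₁ + n * q₁) ^ m = (p₁ + n * q₁) ^ (m - s) * (p₁ + n * q₁) ^ (s : ℕ) := by
        rw [← pow_add]
        congr 1
        have := s.2
        omega
      rw [h2, div_pow]
      have h3 : (p₁ + n * q₁) ^ (m - s) ≠ 0 := pow_ne_zero _ hn
      have h4 : (p₁ + n * q₁) ^ (s : ℕ) ≠ 0 := pow_ne_zero _ hn
      field_simp
    simp only [Polynomial.eval_mul, Polynomial.eval_C, Polynomial.eval_pow, Polynomial.eval_X]
    rw [h1, h n, zero_div]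
  have hinj : Set.InjOn (fun n : ℕ => (p₂ + n * q₂) / (p₁ + n * q₁)) {n | p₁ + n * q₁ = 0}ᶜ := by
    intro n hn n' hn' hnn
    have hn1 : p₁ + n * q₁ ≠ 0 := hn
    have hn2 : p₁ + n' * q₁ ≠ 0 := hn'
    simp only at hnn
    rw [div_eq_div_iff hn1 hn2] at hnn
    have h1 : ((n : E) - n') * (p₁ * q₂ - p₂ * q₁) = 0 := by linear_combination hnn
    rcases mul_eq_zero.1 h1 with h2 | h2
    · exact Nat.cast_injective (sub_eq_zero.1 h2)
    · exact absurd h2 hdet
  have hP0 : P = 0 := by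
    refine Polynomial.eq_zero_of_infinite_isRoot P ?_
    refine Set.Infinite.mono ?_ ((hbad.infinite_compl).image hinj)
    rintro _ ⟨n, hn, rfl⟩
    exact hroot n hn
  rw [← hcoeff, hP0, Polynomial.coeff_zero]

/-- A line is not contained in all the hypersurfaces. -/
theorem gen_line {E : Type*} [Field E] [CharZero E] {σ ι τ : Type*} [Fintype σ] [DecidableEq σ]
    [Fintype ι] [DecidableEq ι] [Fintype τ] (d : ι → ℕ)
    (a : (i : ι) → Sym σ (d i) → E) (D : Ix σ d → Derivation ℤ E E)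
    (jj : τ → Ix σ d) (θ : τ → Ix σ d → E) (hD : Dual d a D jj θ) (α β : σ) (hαβ : α ≠ β)
    (p q : σ → E) (hpα : p α = 1) (hpβ : p β = 0) (hqα : q α = 0) (hqβ : q β = 1)
    (hcount : 2 * Fintype.card σ + Fintype.card τ ≤ ∑ i, (d i + 1) + 3) :
    ∃ (i : ι) (n : ℕ), form (a i) (fun l => p l + n * q l) ≠ 0 := by
  classical
  by_contra hcon
  push Not at hcon
  have hcard : Fintype.card {l : σ // l ≠ α ∧ l ≠ β} + 2 = Fintype.card σ := by
    have h1 : Fintype.card {l : σ // l ≠ α ∧ l ≠ β} =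
        (Finset.univ.filter fun l : σ => l ≠ α ∧ l ≠ β).card := Fintype.card_subtype _
    have h2 : (Finset.univ.filter fun l : σ => l ≠ α ∧ l ≠ β) = Finset.univ \ {α, β} := by
      ext l
      simp
    rw [h1, h2, Finset.card_sdiff_of_subset (Finset.subset_univ _), Finset.card_pair hαβ,
      Finset.card_univ]
    have h3 : 2 ≤ Fintype.card σ := by
      rw [← Finset.card_pair hαβ]
      exact Finset.card_le_univ _
    omega
  obtain ⟨f, δ, ⟨i, r, hfr⟩, hδ, hform⟩ := exists_killer d a D jj θ hD α β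
    (κ := {l : σ // l ≠ α ∧ l ≠ β} × Bool) (fun m => if m.2 then p m.1 else q m.1) (by
      rw [Fintype.card_prod, Fintype.card_bool]
      omega)
  have hδp : ∀ l, δ (p l) = 0 := by
    intro l
    by_cases h1 : l = α
    · rw [h1, hpα, Derivation.map_one_eq_zero]
    · by_cases h2 : l = β
      · rw [h2, hpβ, map_zero]
      · exact hδ (⟨l, h1, h2⟩, true)
  have hδq : ∀ l, δ (q l) = 0 := by
    intro l
    by_cases h1 : l = α
    · rw [h1, hqα, map_zero]
    · by_cases h2 : l = β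
      · rw [h2, hqβ, Derivation.map_one_eq_zero]
      · exact hδ (⟨l, h1, h2⟩, false)
  apply hfr
  refine zero_of_nat (d i) (f i) (p α) (p β) (q α) (q β) ?_ ?_ r
  · rw [hpα, hpβ, hqα, hqβ]
    simp
  · intro n
    rw [← hform i (fun l => p l + n * q l), hcon i n, map_zero]
    intro l
    rw [map_add, hδp, zero_add, Derivation.leibniz, hδq, smul_zero, zero_add,
      Derivation.map_natCast, smul_zero]

/-- The forms do not all vanish in at most two points `p`, `q` of a line. -/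
theorem no_two {E : Type*} [Field E] [CharZero E] {σ ι τ : Type*} [Fintype σ] [DecidableEq σ]
    [Fintype ι] [DecidableEq ι] [Fintype τ] (d : ι → ℕ)
    (a : (i : ι) → Sym σ (d i) → E) (D : Ix σ d → Derivation ℤ E E)
    (jj : τ → Ix σ d) (θ : τ → Ix σ d → E) (hD : Dual d a D jj θ)
    (p q : σ → E) (α β : σ) (hdet : p α * q β - p β * q α ≠ 0)
    (ip iq : σ) (hp : p ip = 1) (hq : q iq = 1) (U : Finset ι) (e : ι → E) (c : ι → ℕ)
    (he : ∀ i ∉ U, e i = 0)
    (h : ∀ (i : ι) (n : ℕ), form (a i) (fun l => p l + n * q l) = e i * (n : E) ^ c i)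
    (hcount : 2 * Fintype.card σ + U.card + Fintype.card τ < ∑ i, (d i + 1) + 2) : False := by
  classical
  have hcard : ∀ j : σ, Fintype.card {l : σ // l ≠ j} + 1 = Fintype.card σ := by
    intro j
    have h1 : Fintype.card {l : σ // l ≠ j} = Fintype.card σ - 1 := by
      rw [Fintype.card_subtype_compl (fun l => l = j)]
      simp
    have h2 : 0 < Fintype.card σ := Fintype.card_pos_iff.2 ⟨j⟩
    omega
  obtain ⟨f, δ, ⟨i, r, hfr⟩, hδ, hform⟩ := exists_killer d a D jj θ hD α β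
    (κ := ({l : σ // l ≠ ip} ⊕ {l : σ // l ≠ iq}) ⊕ U)
    (Sum.elim (Sum.elim (fun l => p l) fun l => q l) fun i => e i) (by
      rw [Fintype.card_sum, Fintype.card_sum, Fintype.card_coe]
      have h1 := hcard ip
      have h2 := hcard iq
      omega)
  have hδp : ∀ l, δ (p l) = 0 := by
    intro l
    by_cases h1 : l = ip
    · rw [h1, hp, Derivation.map_one_eq_zero]
    · exact hδ (Sum.inl (Sum.inl ⟨l, h1⟩))
  have hδq : ∀ l, δ (q l) = 0 := by
    intro l
    by_cases h1 : l = iq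
    · rw [h1, hq, Derivation.map_one_eq_zero]
    · exact hδ (Sum.inl (Sum.inr ⟨l, h1⟩))
  have hδe : ∀ i, δ (e i) = 0 := by
    intro i
    by_cases h1 : i ∈ U
    · exact hδ (Sum.inr ⟨i, h1⟩)
    · rw [he i h1, map_zero]
  apply hfr
  refine zero_of_nat (d i) (f i) (p α) (p β) (q α) (q β) hdet ?_ r
  intro n
  rw [← hform i (fun l => p l + n * q l), h i n, Derivation.leibniz, hδe, smul_zero, add_zero]
  · have h1 : δ ((n : E) ^ c i) = 0 := by
      rw [Derivation.leibniz_pow, Derivation.map_natCast, smul_zero, smul_zero]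
    rw [h1, smul_zero]
  · intro l
    rw [map_add, hδp, zero_add, Derivation.leibniz, hδq, smul_zero, zero_add,
      Derivation.map_natCast, smul_zero]

end Pool.Agent.Helper49.LG
end

/- Helper12.LVF.H49.LV.KeyLine -/
section
/-!
# The key lemma for two-vectors `x ∧ δ`, moving linear systems

One degree better than `Helper8.LV.key`: if `∑ q_i + |Z| ≥ 2 w + 1 + c`, the two-vector `x ∧ δ` is
integral up to a power of `Δ` for some `δ` not proportional to `x`.
-/

set_option autoImplicit false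

namespace Pool.Agent.Helper49.LV

open scoped BigOperators
open Pool.Agent.Helper8.LG (Ix Dual form mon col MinorsVanish Bdd RowBdd)
open Pool.Agent.Helper8.LV
open Pool.Agent.Helper49.LG (key_two_abs sy)
open Pool.Agent.Helper74.LG (scl scl_apply Trans exists_max_coord)

/-- The conclusion of the key lemma: the entries `P_jl` are integral up to a power of `Δ` at all
valuation rings where `Δ` bounds the derivations, the corrections and the rows. -/
def KeyP {E : Type*} [Field E] {σ ι τ P : Type*} [Fintype σ] [DecidableEq σ] [Fintype ι]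
    [Fintype τ] (d : ι → ℕ) (a : (i : ι) → Sym σ (d i) → E) (D : P → Derivation ℤ E E)
    (θ : τ → P → E) (Z : Finset ι) (x : σ → E) (M : σ → σ → E) : Prop :=
  ∀ (O : ValuationSubring E) (Δ : E), Bdd D Δ O → (∀ j s, Δ * θ j s ∈ O) →
      (∀ i ∉ Z, RowBdd D Δ O x (form (a i)) 1 0) →
      ∀ j l, Δ ^ (Fintype.card σ + Fintype.card ι + Fintype.card τ) * M j l ∈ O

section

variable {E : Type*} [Field E] {σ ι Tt : Type*}

/-- the reordering of the rows -/
def emb : σ ⊕ (ι ⊕ Tt) → (σ ⊕ ι) ⊕ Tt := (Equiv.sumAssoc σ ι Tt).symm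

theorem phi_emb (c : E) (f : (σ ⊕ ι) ⊕ Tt → E) :
    (fun r => Pool.Agent.Helper8.LV.phi c f (emb r)) = scl c fun r => f (emb r) := by
  funext r
  rcases r with l | (i | j) <;> rfl

variable [Fintype σ] [DecidableEq σ] [DecidableEq ι]
  (n : ι → ℕ) {d : ι → ℕ} (a : (i : ι) → Sym σ (d i) → E)
  (D : Ix σ (fun i => n i + 1) → Derivation ℤ E E)
  (θ : Tt → Ix σ (fun i => n i + 1) → E) (Z : Finset ι) (x : σ → E)

/-- the columns `C_(q,l)` -/
def c0 (q : Σ i : ι, Sym σ (n i)) (l : σ) : σ ⊕ (ι ⊕ Tt) → E :=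
  fun r => Pool.Agent.Helper8.LV.cv n a D θ Z x ⟨q.1, l ::ₛ q.2⟩ (emb r)

/-- the Euler column -/
def e0 (d : ι → ℕ) (Z : Finset ι) (x : σ → E) : σ ⊕ (ι ⊕ Tt) → E := fun r => Pool.Agent.Helper8.LV.eul d Z x (emb r)

/-- the columns of `x_(j₀)^(d_i)` -/
def r0 (j₀ : σ) (i : ι) : σ ⊕ (ι ⊕ Tt) → E :=
  fun r => Pool.Agent.Helper8.LV.cv n a D θ Z x ⟨i, Sym.replicate (n i + 1) j₀⟩ (emb r)

theorem sy_c0 (s : (Σ i : ι, Sym σ (n i)) × σ × σ) :
    sy x (c0 n a D θ Z x) s =
      fun r => Pool.Agent.Helper8.LV.syz n a D θ Z x ⟨s.1.1, s.1.2, s.2.1, s.2.2⟩ (emb r) := rfl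

theorem trans0 (hU : ∀ i ∉ Z, form (a i) x ≠ 0) (i₀ : σ) (hx : x i₀ = 1) (j₀ : σ)
    (hj : x j₀ ≠ 0) :
    Trans (fun i => n i + 1) (x j₀) (e0 d Z x) (e0 d Z fun l => x l / x j₀)
      (sy x (c0 n a D θ Z x)) (sy (fun l => x l / x j₀) (c0 n a D θ Z fun l => x l / x j₀))
      (r0 n a D θ Z x i₀) (r0 n a D θ Z (fun l => x l / x j₀) j₀) := by
  set c := x j₀ with hc
  set xt : σ → E := fun l => x l / c with hxt
  refine ⟨?_, ?_, ?_⟩
  · unfold e0
    rw [Pool.Agent.Helper8.LV.eul_scale d Z x c hj, phi_emb]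
  · intro s
    obtain ⟨bb, hbb⟩ := Pool.Agent.Helper8.LV.syz_scale n a D θ Z x hU c hj ⟨s.1.1, s.1.2, s.2.1, s.2.2⟩
    refine ⟨bb, ?_⟩
    rw [sy_c0, sy_c0, hbb, ← phi_emb]
    rfl
  · intro i
    have h1 := Pool.Agent.Helper8.LV.cv_sub_mem n a D θ Z xt j₀ i (Sym.replicate (n i + 1) i₀)
    have hxj : xt j₀ = 1 := div_self hj
    have hxi : mon xt (Sym.replicate (n i + 1) i₀) = (c ^ (n i + 1))⁻¹ := by
      rw [mon, Sym.coe_replicate, Multiset.map_replicate, Multiset.prod_replicate, hxt]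
      simp only
      rw [hx, one_div, inv_pow]
    rw [hxj, one_pow, one_smul, hxi] at h1
    refine ⟨fun r => (Pool.Agent.Helper8.LV.cv n a D θ Z xt ⟨i, Sym.replicate (n i + 1) i₀⟩ -
      (c ^ (n i + 1))⁻¹ • Pool.Agent.Helper8.LV.cv n a D θ Z xt ⟨i, Sym.replicate (n i + 1) j₀⟩) (emb r),
      ?_, D ⟨i, Sym.replicate (n i + 1) i₀⟩ c / c, ?_⟩
    · have h2 := Submodule.mem_map_of_mem (f := LinearMap.funLeft E E (emb (σ := σ) (ι := ι)
        (Tt := Tt))) h1
      rw [Submodule.map_span, ← Set.range_comp] at h2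
      refine Submodule.span_mono ?_ h2
      rintro _ ⟨⟨i', I, j, l⟩, rfl⟩
      exact ⟨⟨⟨i', I⟩, j, l⟩, rfl⟩
    · have h6 := Pool.Agent.Helper8.LV.cv_scale n a D θ Z x hU c hj ⟨i, Sym.replicate (n i + 1) i₀⟩
      funext r
      have h7 := congrFun (phi_emb c (Pool.Agent.Helper8.LV.cv n a D θ Z xt
        ⟨i, Sym.replicate (n i + 1) i₀⟩)) r
      rw [scl_apply] at h7
      have h8 := congrFun h6 (emb r)
      rw [Pi.add_apply, Pi.smul_apply, smul_eq_mul] at h8
      have h9 : r0 n a D θ Z x i₀ i r = Pool.Agent.Helper8.LV.cv n a D θ Z x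
        ⟨i, Sym.replicate (n i + 1) i₀⟩ (emb r) := rfl
      rw [h9, h8]
      simp only [Pi.add_apply, Pi.smul_apply, smul_eq_mul, scl_apply, Pi.sub_apply]
      change _ = _ * (_ * Pool.Agent.Helper8.LV.cv n a D θ Z xt
        ⟨i, Sym.replicate (n i + 1) j₀⟩ (emb r)) + _ + _ * Pool.Agent.Helper8.LV.eul d Z x (emb r)
      rw [← hxt]
      change Pool.Agent.Helper8.LV.phi c (Pool.Agent.Helper8.LV.cv n a D θ Z xt
        ⟨i, Sym.replicate (n i + 1) i₀⟩) (emb r) + _ = _
      rw [h7]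
      ring

end

private theorem key_line_aux {E : Type*} [Field E] {σ ι Tt : Type*} [Fintype σ] [DecidableEq σ]
    [Fintype ι] [DecidableEq ι] [Fintype Tt] (n d b : ι → ℕ)
    (a A : (i : ι) → Sym σ (d i) → E) (p : (i : ι) → Sym σ (b i) → E)
    (h : (i : ι) → Sym σ (n i + 1) → E)
    (D : Ix σ (fun i => n i + 1) → Derivation ℤ E E)
    (jj : Tt → Ix σ (fun i => n i + 1)) (θ : Tt → Ix σ (fun i => n i + 1) → E)
    (hD : Dual (fun i => n i + 1) h D jj θ) (hM : Mov d b (fun i => n i + 1) a A p h D)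
    (Z : Finset ι) (x : σ → E) (i₀ j₁ : σ) (hx : x i₀ = 1) (hj : j₁ ≠ i₀)
    (hZ : ∀ i ∈ Z, form (a i) x = 0) (hU : ∀ i ∉ Z, form (a i) x ≠ 0)
    (hP : ∀ i, form (p i) x ≠ 0) (w : ℕ)
    (hw1 : 2 * w + 1 + Fintype.card Tt ≤ ∑ i, (n i + 1) + Z.card)
    (hw2 : w + 2 ≤ ∑ i, (n i + 1)) (hm : MinorsVanish D x w) :
    ∃ δ : σ → E, (∃ j l, x j * δ l - x l * δ j ≠ 0) ∧
      KeyP d a D θ Z x fun j l => x j * δ l - x l * δ j := by
  classical
  obtain ⟨lam, hl1, hl2, hl3⟩ := Pool.Agent.Helper8.LV.exists_functional n a A p h D jj θ hD hM Z x hZ hU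
  have hext : ∀ f : (σ ⊕ ι) ⊕ Tt → E,
      LinearMap.funLeft E E (Equiv.sumAssoc σ ι Tt) (fun r => f (emb r)) = f := by
    intro f
    funext r
    rw [LinearMap.funLeft_apply]
    change f ((Equiv.sumAssoc σ ι Tt).symm (Equiv.sumAssoc σ ι Tt r)) = f r
    rw [Equiv.symm_apply_apply]
  have hcv0 : ∀ s, ∀ i ∈ Z, Pool.Agent.Helper8.LV.cv n a D θ Z x s (Sum.inl (Sum.inr i)) = 0 := by
    intro s i hi
    simp [Pool.Agent.Helper8.LV.cv, hi]
  have hCm : ∀ q, col D x q ∈ Submodule.span E (Set.range (col D x)) :=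
    fun q => Submodule.subset_span ⟨q, rfl⟩
  obtain ⟨δ, hδ1, hδ2⟩ := key_two_abs (fun i => n i + 1)
    (Z.map ⟨Sum.inl, Sum.inl_injective⟩ : Finset (ι ⊕ Tt)) x i₀ j₁ hx hj (e0 d Z x)
    (c0 n a D θ Z x) (r0 n a D θ Z x i₀) (by
      change x i₀ ≠ 0
      rw [hx]
      exact one_ne_zero)
    (by
      intro i hi
      obtain ⟨i', hi', rfl⟩ := Finset.mem_map.1 hi
      change Pool.Agent.Helper8.LV.eul d Z x (Sum.inl (Sum.inr i') : (σ ⊕ ι) ⊕ Tt) = 0
      simp [Pool.Agent.Helper8.LV.eul, hi'])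
    (by
      intro q l i hi
      obtain ⟨i', hi', rfl⟩ := Finset.mem_map.1 hi
      exact hcv0 _ i' hi')
    (by
      intro i'' i hi
      obtain ⟨i', hi', rfl⟩ := Finset.mem_map.1 hi
      exact hcv0 _ i' hi')
    (lam ∘ₗ LinearMap.funLeft E E (Equiv.sumAssoc σ ι Tt))
    (by
      rw [LinearMap.comp_apply]
      unfold e0
      rw [hext, hl1])
    (by
      intro s
      rw [LinearMap.comp_apply, sy_c0, hext, hl3])
    (fun i => -form (p i) x) (fun i => neg_ne_zero.2 (hP i))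
    (by
      intro i
      rw [LinearMap.comp_apply]
      unfold r0
      rw [hext, hl2, mon, Sym.coe_replicate, Multiset.map_replicate,
        Multiset.prod_replicate, hx, one_pow, mul_one])
    (col D x) w hm (hCm none)
    (by
      intro s
      exact sub_mem (Submodule.smul_mem _ (x s.2.1) (hCm (some ⟨s.1.1, s.2.2 ::ₛ s.1.2⟩)))
        (Submodule.smul_mem _ (x s.2.2) (hCm (some ⟨s.1.1, s.2.1 ::ₛ s.1.2⟩))))
    (fun i => hCm (some ⟨i, Sym.replicate (n i + 1) i₀⟩))
    (by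
      rw [Finset.card_map, Fintype.card_sum]
      omega) hw2
  refine ⟨δ, hδ1, fun O Δ hO hθ hrow => ?_⟩
  obtain ⟨j₀, hj₀, hjO⟩ := exists_max_coord O x i₀ (by
    rw [hx]
    exact one_ne_zero)
  have hci : (x j₀)⁻¹ ∈ O := by
    have h1 := hjO i₀
    rwa [hx, one_div] at h1
  have hcv : ∀ s r, Δ * Pool.Agent.Helper8.LV.cv n a D θ Z (fun l => x l / x j₀) s (emb r) ∈ O := by
    intro s r
    rcases r with l | (i | j)
    · exact hO.2 s _ (hjO l)
    · change Δ * (if i ∈ Z then 0 else _) ∈ O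
      split_ifs with hi
      · rw [mul_zero]
        exact zero_mem O
      · have h1 := (hrow i hi j₀ hj₀ hjO).2 s
        rwa [pow_zero, div_one, one_mul] at h1
    · exact hθ j s
  have hmain := hδ2 O Δ (x j₀) (e0 d Z fun l => x l / x j₀)
    (sy (fun l => x l / x j₀) (c0 n a D θ Z fun l => x l / x j₀))
    (r0 n a D θ Z (fun l => x l / x j₀) j₀) hj₀ hci hjO hO.1
    (trans0 n a D θ Z x hU i₀ hx j₀ hj₀) ?_ ?_ ?_
  · intro j l
    have h1 := hmain j l
    rwa [Fintype.card_sum, ← add_assoc] at h1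
  · rintro (l | (i | j))
    · exact mul_mem hO.1 (hjO l)
    · change Δ * (if i ∈ Z then 0 else _) ∈ O
      split_ifs with hi
      · rw [mul_zero]
        exact zero_mem O
      · exact mul_mem hO.1 (natCast_mem O _)
    · change Δ * 0 ∈ O
      rw [mul_zero]
      exact zero_mem O
  · intro s r
    have h4 := sub_mem (mul_mem (hjO s.2.1) (hcv ⟨s.1.1, s.2.2 ::ₛ s.1.2⟩ r))
      (mul_mem (hjO s.2.2) (hcv ⟨s.1.1, s.2.1 ::ₛ s.1.2⟩ r))
    have h5 : Δ * sy (fun l => x l / x j₀) (c0 n a D θ Z fun l => x l / x j₀) s r =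
        x s.2.1 / x j₀ * (Δ * Pool.Agent.Helper8.LV.cv n a D θ Z (fun l => x l / x j₀)
          ⟨s.1.1, s.2.2 ::ₛ s.1.2⟩ (emb r)) -
        x s.2.2 / x j₀ * (Δ * Pool.Agent.Helper8.LV.cv n a D θ Z (fun l => x l / x j₀)
          ⟨s.1.1, s.2.1 ::ₛ s.1.2⟩ (emb r)) := by
      simp only [sy, c0, Pi.sub_apply, Pi.smul_apply, smul_eq_mul]
      ring
    rw [h5]
    exact h4
  · intro i r
    exact hcv _ r

/-- **The key lemma for two-vectors**, one degree better than `key`. -/
theorem key_line {E : Type*} [Field E] {σ ι τ : Type*} [Fintype σ] [DecidableEq σ] [Fintype ι]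
    [DecidableEq ι] [Fintype τ] (d b q : ι → ℕ) (hq : ∀ i, 0 < q i)
    (a A : (i : ι) → Sym σ (d i) → E) (p : (i : ι) → Sym σ (b i) → E)
    (h : (i : ι) → Sym σ (q i) → E) (D : Ix σ q → Derivation ℤ E E)
    (jj : τ → Ix σ q) (θ : τ → Ix σ q → E) (hD : Dual q h D jj θ) (hM : Mov d b q a A p h D)
    (Z : Finset ι) (x : σ → E) (i₀ j₁ : σ) (hx : x i₀ = 1) (hj : j₁ ≠ i₀)
    (hZ : ∀ i ∈ Z, form (a i) x = 0) (hU : ∀ i ∉ Z, form (a i) x ≠ 0)
    (hP : ∀ i, form (p i) x ≠ 0) (w : ℕ)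
    (hw1 : 2 * w + 1 + Fintype.card τ ≤ ∑ i, q i + Z.card)
    (hw2 : w + 2 ≤ ∑ i, q i) (hm : MinorsVanish D x w) :
    ∃ δ : σ → E, (∃ j l, x j * δ l - x l * δ j ≠ 0) ∧
      KeyP d a D θ Z x fun j l => x j * δ l - x l * δ j := by
  obtain ⟨n, rfl⟩ : ∃ n : ι → ℕ, q = fun i => n i + 1 :=
    ⟨fun i => q i - 1, funext fun i => (Nat.sub_add_cancel (hq i)).symm⟩
  exact key_line_aux n d b a A p h D jj θ hD hM Z x i₀ j₁ hx hj hZ hU hP w hw1 hw2 hm

end Pool.Agent.Helper49.LV
end

/- Helper12.LVF.H49.LV.Rows -/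
section
/-! # LV-ROWS: the rows are bounded in one direction of the base (`C` empty)

The proof is the one of `Helper8.LG.dir_one` (unramified case). -/

set_option autoImplicit false

namespace Pool.Agent.Helper49.LV

open scoped BigOperators
open Pool.Agent.Helper8.LG
open Pool.Agent.Helper8.LV

/-- In one direction: the derivations, the corrections and the rows of all good points are bounded
by one `Δ` at all valuation rings containing `intCl E₀ t`. -/
theorem dir_rows {L : Type*} [Field L] [CharZero L] {σ ι τ P : Type*} [Fintype σ]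
    [DecidableEq σ] [Fintype ι] [DecidableEq ι] [Fintype τ] [Finite P]
    (d : ι → ℕ)
    (a : (i : ι) → Sym σ (d i) → L) (D : P → Derivation ℤ L L)
    (θ : τ → P → L) (Z : Finset ι)
    (E₀ : Subfield L) (t : L) (ht : Transcendental E₀ t)
    (hfin : FiniteDimensional (Subfield.closure ((E₀ : Set L) ∪ {t})) L)
    (hE₀ : ∀ p, ∀ f ∈ E₀, D p f ∈ E₀)
    (hDt : ∀ p, D p t ∈ Subring.closure ((E₀ : Set L) ∪ {t}))
    (S : Set L) (hS : S.Finite) (hSa : ∀ p : Ix σ d, a p.1 p.2 ∈ S)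
    (hSθ : ∀ j s, θ j s ∈ S) :
    ∃ Δ : L, Δ ≠ 0 ∧ Δ ∈ intCl E₀ t ∧ (∀ f ∈ S, Δ * f ∈ intCl E₀ t) ∧ ∀ x : σ → L,
      (∀ i ∉ Z, form (a i) x ≠ 0) →
      (∀ i ∉ Z, ∀ J : Sym σ (d i),
        IsIntegral (Subring.closure ((E₀ : Set L) ∪ S)) (mon x J / form (a i) x)) →
      ∀ O : ValuationSubring L, intCl E₀ t ≤ O.toSubring →
        Bdd D Δ O ∧ (∀ j s, Δ * θ j s ∈ O) ∧ ∀ i ∉ Z, RowBdd D Δ O x (form (a i)) 1 0 := by
  obtain ⟨Δ₀, hΔc, hΔ0, hΔD, hΔS⟩ := exists_bound E₀ t ht hfin D hE₀ hDt S hS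
  obtain ⟨hDed, hFrac⟩ := intCl_dedekind E₀ t ht hfin
  have hcl : Subring.closure ((E₀ : Set L) ∪ {t}) ≤ intCl E₀ t := by
    intro f hf
    exact isIntegral_algebraMap (R := Subring.closure ((E₀ : Set L) ∪ {t})) (x := ⟨f, hf⟩)
  have hE₀R : ∀ f ∈ E₀, f ∈ intCl E₀ t := fun f hf =>
    hcl (Subring.subset_closure (Or.inl hf))
  have hQ : ∀ n : ℕ, n ≠ 0 → ((n : L))⁻¹ ∈ intCl E₀ t := fun n _ =>
    hE₀R _ (E₀.inv_mem (natCast_mem E₀ n))
  have hΔR : Δ₀ ∈ intCl E₀ t := hcl hΔc
  refine ⟨Δ₀ ^ 3, pow_ne_zero _ hΔ0, pow_mem hΔR 3, fun f hf => ?_, ?_⟩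
  · have h1 : Δ₀ ^ 3 * f = Δ₀ ^ 2 * (Δ₀ * f) := by ring
    rw [h1]
    exact mul_mem (pow_mem hΔR 2) (hΔS f hf)
  intro x hne hint₀ O hO
  have hb : Bdd D Δ₀ O := bdd_of (intCl E₀ t) D Δ₀ hΔR hΔD O hO
  have hΔO : Δ₀ ∈ O := hb.1
  refine ⟨⟨pow_mem hΔO 3, fun p f hf => ?_⟩, fun j s => ?_, ?_⟩
  · have h1 : Δ₀ ^ 3 * D p f = Δ₀ ^ 2 * (Δ₀ * D p f) := by ring
    rw [h1]
    exact mul_mem (pow_mem hΔO 2) (hb.2 p f hf)
  · have h1 : Δ₀ ^ 3 * θ j s = Δ₀ ^ 2 * (Δ₀ * θ j s) := by ring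
    rw [h1]
    exact mul_mem (pow_mem hΔO 2) (hO (hΔS _ (hSθ j s)))
  intro i hi j hj hxO
  have hane : form (a i) x ≠ 0 := hne i hi
  have hgeq : form (a i) (fun l => x l / x j) = form (a i) x / x j ^ d i :=
    dirOne_form_div (a i) x (x j)
  have hg0 : form (a i) (fun l => x l / x j) ≠ 0 := by
    rw [hgeq]
    exact div_ne_zero hane (pow_ne_zero _ hj)
  rw [pow_zero, div_one]
  refine ⟨by rw [mul_one]; exact pow_mem hΔO 3, fun p => ?_⟩
  rw [one_mul]
  have key : Δ₀ ^ 2 * (D p (form (a i) fun l => x l / x j) /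
      form (a i) fun l => x l / x j) ∈ O := by
    by_cases hinv : Δ₀⁻¹ ∈ O
    · have hSO : ∀ f ∈ S, f ∈ O := fun f hf => by
        have h1 : f = Δ₀⁻¹ * (Δ₀ * f) := by
          rw [← mul_assoc, inv_mul_cancel₀ hΔ0, one_mul]
        rw [h1]
        exact mul_mem hinv (hO (hΔS f hf))
      have hA : Subring.closure ((E₀ : Set L) ∪ S) ≤ O.toSubring := by
        rw [Subring.closure_le]
        rintro f (hf | hf)
        · exact hO (hE₀R f hf)
        · exact hSO f hf
      have hint := dirOne_int_mem O _ hA (hint₀ i hi (Sym.replicate (d i) j))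
      rw [dirOne_mon_replicate] at hint
      have hgi : (form (a i) (fun l => x l / x j))⁻¹ ∈ O := by
        rw [hgeq, inv_div]
        exact hint
      have hgO : form (a i) (fun l => x l / x j) ∈ O := by
        have h1 := dirOne_form_mem O 1 (a i)
          (fun J => by rw [one_mul]; exact hSO _ (hSa ⟨i, J⟩)) _ hxO
        rwa [one_mul] at h1
      have h2 : Δ₀ ^ 2 * (D p (form (a i) fun l => x l / x j) /
          form (a i) fun l => x l / x j) =
          Δ₀ * ((Δ₀ * D p (form (a i) fun l => x l / x j)) *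
            (form (a i) (fun l => x l / x j))⁻¹) := by
        rw [div_eq_mul_inv]
        ring
      rw [h2]
      exact mul_mem hΔO (mul_mem (hb.2 p _ hgO) hgi)
    · have hb2 : Bdd D (Δ₀ ^ 2) O := by
        refine ⟨pow_mem hΔO 2, fun p f hf => ?_⟩
        have h1 : Δ₀ ^ 2 * D p f = Δ₀ * (Δ₀ * D p f) := by ring
        rw [h1]
        exact mul_mem hΔO (hb.2 p f hf)
      refine log_of (intCl E₀ t) hQ D O hO (Δ₀ ^ 2) hb2 Δ₀ hΔ0 (Or.inr hinv) (fun q => ?_)
        _ hg0 p
      have h1 : Δ₀ ^ 2 * (D q Δ₀ / Δ₀) = Δ₀ * D q Δ₀ := by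
        field_simp
      rw [h1]
      exact hb.2 q _ hΔO
  have h3 : Δ₀ ^ 3 * (D p (form (a i) fun l => x l / x j) /
      form (a i) fun l => x l / x j) =
      Δ₀ * (Δ₀ ^ 2 * (D p (form (a i) fun l => x l / x j) /
      form (a i) fun l => x l / x j)) := by
    ring
  rw [h3]
  exact mul_mem hΔO key

end Pool.Agent.Helper49.LV
end

/- Helper12.LVF.H49.LV.Killer -/
section
/-!
# A derivation which kills few given elements and moves the forms, moving linear systems

If fewer than `∑ (q_i + 1)` conditions are imposed, there is a combination `δ` of the `D_s`, `s` the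
monomials in two variables `x_α, x_β`, which kills the given elements and acts on the coefficients
of the `H_i` by a non-zero family of binary forms.
-/

set_option autoImplicit false

namespace Pool.Agent.Helper49.LV

open scoped BigOperators
open Pool.Agent.Helper8.LG (Ix Dual form mon)
open Pool.Agent.Helper8.LV
open Pool.Agent.Helper49.LG (ab mon_ab abi zero_of_nat)

/-- a derivation which kills the coefficients and the point kills the value of the form -/
theorem form_killed {E : Type*} [Field E] {σ : Type*} [Fintype σ] [DecidableEq σ] {m : ℕ}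
    (δ : Derivation ℤ E E) (a : Sym σ m → E) (x : σ → E) (ha : ∀ J, δ (a J) = 0)
    (hx : ∀ l, δ (x l) = 0) : δ (form a x) = 0 := by
  classical
  obtain ⟨g, hg, _⟩ := Helper8.LG.kf_grad_form a x
  rw [hg δ, Finset.sum_eq_zero (s := Finset.univ) (f := fun l => g l * δ (x l))
    (fun l _ => by rw [hx, mul_zero]), add_zero]
  exact Finset.sum_eq_zero fun J _ => by rw [ha, zero_mul]

/-- **The killer derivation.** -/
theorem exists_killer {E : Type*} [Field E] {σ ι τ κ : Type*} [Fintype σ] [DecidableEq σ]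
    [Fintype ι] [DecidableEq ι] [Fintype τ] [Fintype κ] (d b q : ι → ℕ)
    (a A : (i : ι) → Sym σ (d i) → E) (p : (i : ι) → Sym σ (b i) → E)
    (h : (i : ι) → Sym σ (q i) → E) (D : Ix σ q → Derivation ℤ E E)
    (jj : τ → Ix σ q) (θ : τ → Ix σ q → E) (hD : Dual q h D jj θ) (hM : Mov d b q a A p h D)
    (α β : σ) (z : κ → E)
    (hcard : Fintype.card κ + Fintype.card τ < ∑ i, (q i + 1)) :
    ∃ (f : (i : ι) → Fin (q i + 1) → E) (δ : Derivation ℤ E E), (∃ i r, f i r ≠ 0) ∧
      (∀ m, δ (z m) = 0) ∧ ∀ (i : ι) (x : σ → E), (∀ l, δ (x l) = 0) →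
        δ (form (a i) x) =
          form (p i) x * ∑ r : Fin (q i + 1), f i r * (x α ^ (q i - r) * x β ^ (r : ℕ)) := by
  classical
  set Λ : ((Σ i : ι, Fin (q i + 1)) → E) →ₗ[E] (κ ⊕ τ → E) :=
    { toFun := fun f => Sum.elim (fun m => ∑ s, f s * D (abi q α β s) (z m))
        fun j => ∑ s, f s * θ j (abi q α β s)
      map_add' := fun f g => by
        funext t
        rcases t with m | j <;> simp [add_mul, Finset.sum_add_distrib]
      map_smul' := fun c f => by
        funext t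
        rcases t with m | j <;> simp [Finset.mul_sum, mul_assoc] } with hΛ
  have hker : LinearMap.ker Λ ≠ ⊥ := by
    apply LinearMap.ker_ne_bot_of_finrank_lt
    rw [Module.finrank_fintype_fun_eq_card, Module.finrank_fintype_fun_eq_card, Fintype.card_sum,
      Fintype.card_sigma]
    simpa using hcard
  obtain ⟨f, hf, hf0⟩ := (Submodule.ne_bot_iff _).1 hker
  have hf1 : ∀ m, ∑ s, f s * D (abi q α β s) (z m) = 0 := fun m =>
    congrFun (LinearMap.mem_ker.1 hf) (Sum.inl m)
  have hf2 : ∀ j, ∑ s, f s * θ j (abi q α β s) = 0 := fun j =>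
    congrFun (LinearMap.mem_ker.1 hf) (Sum.inr j)
  set δ : Derivation ℤ E E := ∑ s, f s • D (abi q α β s) with hδ
  have hδa : ∀ y, δ y = ∑ s, f s * D (abi q α β s) y := by
    intro y
    have h1 : δ y = (Derivation.coeFnAddMonoidHom δ) y := rfl
    rw [h1, hδ, map_sum, Finset.sum_apply]
    rfl
  have hδ0 : ∀ y, (∀ s, D s y = 0) → δ y = 0 := by
    intro y hy
    rw [hδa]
    exact Finset.sum_eq_zero fun s _ => by rw [hy, mul_zero]
  have hδq : ∀ t : Ix σ q, δ (h t.1 t.2) = ∑ s, if abi q α β s = t then f s else 0 := by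
    intro t
    rw [hδa]
    have h1 : ∀ s, f s * D (abi q α β s) (h t.1 t.2) = (if abi q α β s = t then f s else 0) -
        ∑ j, if jj j = t then f s * θ j (abi q α β s) else 0 := by
      intro s
      rw [hD (abi q α β s) t, mul_sub, mul_ite, mul_one, mul_zero, Finset.mul_sum]
      congr 1
      exact Finset.sum_congr rfl fun j _ => by rw [mul_ite, mul_zero]
    rw [Finset.sum_congr rfl fun s _ => h1 s, Finset.sum_sub_distrib, Finset.sum_comm]
    have h2 : ∑ j, ∑ s, (if jj j = t then f s * θ j (abi q α β s) else 0) = 0 := by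
      refine Finset.sum_eq_zero fun j _ => ?_
      split_ifs
      · exact hf2 j
      · exact Finset.sum_const_zero
    rw [h2, sub_zero]
  refine ⟨fun i r => f ⟨i, r⟩, δ, ?_, fun m => by rw [hδa]; exact hf1 m, ?_⟩
  · by_contra h
    push Not at h
    exact hf0 (funext fun s => h s.1 s.2)
  · intro i x hx
    rw [mov_form hM i x, map_add, Derivation.leibniz,
      form_killed δ (A i) x (fun J => hδ0 _ fun s => hM.DA s i J) hx,
      form_killed δ (p i) x (fun J => hδ0 _ fun s => hM.Dp s i J) hx, smul_zero, add_zero,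
      zero_add, smul_eq_mul]
    congr 1
    obtain ⟨g, hg, _⟩ := Helper8.LG.kf_grad_form (h i) x
    rw [hg δ, Finset.sum_eq_zero (s := Finset.univ) (f := fun l => g l * δ (x l))
      (fun l _ => by rw [hx, mul_zero]), add_zero]
    have h1 : ∀ J : Sym σ (q i), δ (h i J) * mon x J =
        ∑ s, if abi q α β s = ⟨i, J⟩ then f s * mon x J else 0 := by
      intro J
      rw [hδq ⟨i, J⟩, Finset.sum_mul]
      exact Finset.sum_congr rfl fun s _ => by rw [ite_mul, zero_mul]
    rw [Finset.sum_congr rfl fun J _ => h1 J, Finset.sum_comm, ← Finset.univ_sigma_univ,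
      Finset.sum_sigma, Finset.sum_eq_single i]
    · refine Finset.sum_congr rfl fun r _ => ?_
      rw [Finset.sum_eq_single (ab α β (q i) r)]
      · rw [if_pos (show abi q α β ⟨i, r⟩ = ⟨i, ab α β (q i) r⟩ from rfl), mon_ab]
      · intro J _ hJ
        rw [if_neg]
        intro h
        apply hJ
        unfold abi at h
        rw [Sigma.mk.injEq] at h
        exact (eq_of_heq h.2).symm
      · intro h
        exact absurd (Finset.mem_univ _) h
    · intro i' _ hi'
      refine Finset.sum_eq_zero fun r _ => Finset.sum_eq_zero fun J _ => ?_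
      rw [if_neg]
      intro h
      exact hi' (congrArg Sigma.fst h)
    · intro h
      exact absurd (Finset.mem_univ _) h

end Pool.Agent.Helper49.LV
end
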