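import Pool.Agent.Helper12.LVM.C06
import Pool.Agent.Helper12.LVM.C02
import Pool.Agent.Helper12.LVM.C08
import Pool.Agent.Helper12.LVM.B05
import Pool.Agent.Helper12.LVM.B06

/- Helper12.LVF.H8.CO.Final -/
section
/-! # CO-FINAL: the theorem over fields -/

set_option autoImplicit false

namespace Pool.Agent.Helper8.CO

open Pool.Agent.Helper8.LG Pool.Agent.Helper8.LV Pool.Agent.Helper6.CO

open scoped BigOperators

theorem num_mono {ι κ : Type*} [Fintype ι] [DecidableEq ι] {bl : κ → ι} {q : κ → ℕ}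
    {d q₀ e m : ι → ℕ} {Z C Y : Finset ι} {w c c' : ℕ}
    (h : NumC bl q d q₀ e m Z C Y w c) (hc : c' ≤ c) : NumC bl q d q₀ e m Z C Y w c' where
  pos := h.pos
  posq := h.posq
  le := h.le
  disj := h.disj
  deg := h.deg
  e0 := h.e0
  ineq := by
    have := h.ineq
    omega

theorem fam_tower {k₀ k L σ ι κ : Type*} [Field k₀] [Field k] [Field L] [Algebra k₀ L]
    [Algebra k L] [Algebra k₀ k] [IsScalarTower k₀ k L] [Fintype σ] [DecidableEq σ] [Fintype κ]
    [DecidableEq ι] {bl : κ → ι} {d : ι → ℕ} {b q : κ → ℕ}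
    {a : (i : ι) → Sym σ (d i) → L} {p : (t : κ) → Sym σ (b t) → L}
    {h : (t : κ) → Sym σ (q t) → L} {Q : (i : ι) → Sym σ (d i) → MvPolynomial (Ix σ q) k₀}
    (H : Fam k₀ bl d b q a p h Q) :
    Fam k bl d b q a p h fun i J => MvPolynomial.map (algebraMap k₀ k) (Q i J) where
  deg := H.deg
  eq := fun i J => by
    rw [MvPolynomial.aeval_map_algebraMap]
    exact H.eq i J
  der := fun i J s => by
    rw [MvPolynomial.pderiv_map, MvPolynomial.aeval_map_algebraMap]
    exact H.der i J s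

/-- normalised points, all roots non-zero -/
theorem final_aux {k₀ L : Type*} [Field k₀] [Field L] [CharZero L] [Algebra k₀ L]
    (hfg : (⊤ : IntermediateField k₀ L).FG)
    {σ ι κ : Type*} [Fintype σ] [DecidableEq σ] [Fintype ι] [DecidableEq ι] [Fintype κ]
    [DecidableEq κ] (bl : κ → ι) (b q : κ → ℕ)
    (d q₀ e m : ι → ℕ) (a : (i : ι) → Sym σ (d i) → L) (ap : (t : κ) → Sym σ (b t) → L)
    (ah : (t : κ) → Sym σ (q t) → L) (F₀ : (i : ι) → Sym σ (d i) → MvPolynomial (Ix σ q) k₀)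
    (hFam : Fam k₀ bl d b q a ap ah F₀) (w c : ℕ)
    (hc : (Fintype.card (Ix σ q) : Cardinal) ≤ Algebra.trdeg k₀
      (IntermediateField.adjoin k₀ (Set.range fun p : Ix σ q => ah p.1 p.2)) + c)
    (Z C Y : Finset ι) (i₀ : σ) (hnum : NumC bl q d q₀ e m Z C Y w c) (hNP : NulP bl ap Y)
    (A : Subalgebra k₀ L) (hA : A.FG) :
    {x : σ → L | x i₀ = 1 ∧
      Algebra.trdeg k₀ (IntermediateField.adjoin k₀ (Set.range x)) ≤ w ∧
      (∀ i, ∃ t, bl t = i ∧ form (ap t) x ≠ 0) ∧
      (∀ i ∈ Z, form (a i) x = 0) ∧ (∀ i ∉ Z, form (a i) x ≠ 0) ∧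
      (∀ i ∈ C, ∃ y : L, y ^ m i = form (a i) x) ∧
      ∀ i ∉ Z, i ∉ C → ∀ J : Sym σ (d i), IsIntegral A (mon x J / form (a i) x)}.Finite := by
  classical
  obtain ⟨T, k, hT, hind, hfin, D, θ, hD, hDk⟩ := reduce hfg q ah c hc
  have hnum' := num_mono hnum hT
  -- the algebra over `k`
  obtain ⟨s, hs⟩ := hA
  set A' : Subalgebra k L := Algebra.adjoin k (s : Set L) with hA'
  have hAA' : ∀ f ∈ A, f ∈ A' := by
    intro f hf
    rw [← hs] at hf
    induction hf using Algebra.adjoin_induction with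
    | mem x hx => exact Algebra.subset_adjoin hx
    | algebraMap r =>
      have h1 : algebraMap k₀ L r = algebraMap k L (algebraMap k₀ k r) :=
        IsScalarTower.algebraMap_apply k₀ k L r
      rw [h1]
      exact A'.algebraMap_mem _
    | add x y _ _ hx hy => exact add_mem hx hy
    | mul x y _ _ hx hy => exact mul_mem hx hy
  have hFam' := fam_tower (k := k) hFam
  obtain ⟨V, hV, hVb⟩ := bounded bl b q d q₀ e m a ap ah _ hFam' T hind hfin D
    (fun j => j.1) θ hD (fun j => j.2) hDk Z C Y i₀ w hnum' hNP A' ⟨s, rfl⟩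
  haveI := hV
  refine ultra (k := k) bl b q d q₀ e m a ap ah _ hFam' D (fun j => j.1) θ hD hDk
    Z C Y i₀ w hnum' hNP V _ ?_
  rintro x ⟨h1, h2, hP, h3, h4, h5, h6⟩
  have hrank : MinorsVanish D x w := by
    refine minors_of_trdeg (k := k₀) D ?_ x i₀ h1 w h2
    intro p r
    have h7 : algebraMap k₀ L r = algebraMap k L (algebraMap k₀ k r) :=
      IsScalarTower.algebraMap_apply k₀ k L r
    rw [h7]
    exact hDk p _
  choose y hy using h5
  set y' : ι → L := fun i => if h : i ∈ C then y i h else 0 with hy'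
  have hyy : ∀ i ∈ C, y' i ^ m i = form (a i) x := by
    intro i hi
    rw [hy']
    simp only [dif_pos hi]
    exact hy i hi
  have hgood : GoodV d m a D Z C i₀ w A'.toSubring x y' := by
    refine ⟨h1, h3, h4, hyy, ?_, hrank⟩
    intro i hiZ hiC J
    have h8 := h6 i hiZ hiC J
    exact h8.map_of_comp_eq (Subring.inclusion (S := A.toSubring) (T := A'.toSubring)
      (fun f hf => hAA' f hf)) (RingHom.id L) rfl
  obtain ⟨G, hG, hG1, hG2, hG3⟩ := hVb x y' hgood hP
  exact ⟨h1, h3, h4, hP, hrank, y', G, hG, hG1, hG2, hyy, hG3⟩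

end Pool.Agent.Helper8.CO
end

/- Helper12.LVF.H10.CT.Defs -/
section
/-! # CT: cases 2 and 3 with `q' = min(d, 2q + 1)`, definitions

`F_i = F0_i(X, H_t : bl t = i)`: the coefficients of the `H_t` move, and
`D_s F_i = ∑ m_t D_s H_t` for all the derivations `D_s` which kill the constants. -/

set_option autoImplicit false

namespace Pool.Agent.Helper10.CT

open scoped BigOperators
open Pool.Agent.Helper8.LG
open Pool.Agent.Helper6.CO (Fam Mov Nul qm)

section

variable {E : Type*} [Field E] {σ ι κ P τ : Type*}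

/-- The chain rule for the coefficients: `D_s F_i = ∑_(bl t = i) m_t D_s H_t`, where `a i`, `p t`,
`h t` are the coefficients of `F_i`, `m_t`, `H_t`. -/
structure MovB [Fintype σ] [DecidableEq σ] [Fintype κ] [DecidableEq ι] (bl : κ → ι) (d : ι → ℕ)
    (b q : κ → ℕ) (a : (i : ι) → Sym σ (d i) → E) (p : (t : κ) → Sym σ (b t) → E)
    (h : (t : κ) → Sym σ (q t) → E) (D : P → Derivation ℤ E E) : Prop where
  deg : ∀ t, d (bl t) = b t + q t
  der : ∀ s i J, D s (a i J) = ∑ t, if bl t = i then ∑ J' : Sym σ (b t), ∑ J'' : Sym σ (q t),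
    (if (J' : Multiset σ) + (J'' : Multiset σ) = (J : Multiset σ) then p t J' * D s (h t J'')
      else 0) else 0

/-- The coefficients of the `F_i` are polynomials over `k` in the coefficients of the `H_t`. -/
def FamB (k : Type*) [Field k] [Algebra k E] [Fintype σ] [DecidableEq σ] [Fintype κ]
    [DecidableEq ι] (bl : κ → ι) (d : ι → ℕ) (b q : κ → ℕ) (a : (i : ι) → Sym σ (d i) → E)
    (p : (t : κ) → Sym σ (b t) → E) (h : (t : κ) → Sym σ (q t) → E) : Prop :=
  ∃ Q : (i : ι) → Sym σ (d i) → MvPolynomial (Ix σ q) k, Fam k bl d b q a p h Q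

/-- `min(d_i, 2 q_i)` for the forms whose `m_t` have no common zero, `q_i` for the others -/
def qn [DecidableEq ι] (Y : Finset ι) (d q : ι → ℕ) (i : ι) : ℕ :=
  if i ∈ Y then min (d i) (2 * q i) else q i

/-- The conclusion of the key lemma for two-vectors. -/
def KeyB [Fintype σ] [DecidableEq σ] [Fintype ι] [Fintype τ] (bl : κ → ι) (d : ι → ℕ)
    {b : κ → ℕ} (a : (i : ι) → Sym σ (d i) → E) (p : (t : κ) → Sym σ (b t) → E)
    (D : P → Derivation ℤ E E) (θ : τ → P → E) (Z Y : Finset ι) (x : σ → E)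
    (M : σ → σ → E) : Prop :=
  ∀ (O : ValuationSubring E) (Δ : E), Bdd D Δ O → (∀ j s, Δ * θ j s ∈ O) →
      (∀ i ∉ Z, RowBdd D Δ O x (form (a i)) 1 0) → Nul bl p Y O Δ x →
      ∀ j l, Δ ^ (2 * (Fintype.card σ + Fintype.card ι + Fintype.card τ)) * M j l ∈ O

/-- change of the field by a ring homomorphism compatible with the derivations -/
theorem MovB.map [Fintype σ] [DecidableEq σ] [Fintype κ] [DecidableEq ι] {E' : Type*} [Field E']
    {bl : κ → ι} {d : ι → ℕ} {b q : κ → ℕ}
    {a : (i : ι) → Sym σ (d i) → E} {p : (t : κ) → Sym σ (b t) → E}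
    {h : (t : κ) → Sym σ (q t) → E} {D : P → Derivation ℤ E E} (H : MovB bl d b q a p h D)
    (f : E →+* E') (D' : P → Derivation ℤ E' E') (hD : ∀ s x, D' s (f x) = f (D s x)) :
    MovB bl d b q (fun i J => f (a i J)) (fun i J => f (p i J)) (fun i J => f (h i J)) D' where
  deg := H.deg
  der := fun s i J => by
    rw [hD, H.der s i J, map_sum]
    refine Finset.sum_congr rfl fun t _ => ?_
    by_cases ht : bl t = i
    · rw [if_pos ht, if_pos ht, map_sum]
      refine Finset.sum_congr rfl fun J' _ => ?_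
      rw [map_sum]
      refine Finset.sum_congr rfl fun J'' _ => ?_
      split_ifs
      · rw [map_mul, hD]
      · exact map_zero _
    · rw [if_neg ht, if_neg ht, map_zero]

/-- the identity for the values -/
theorem MovB.mov [Fintype σ] [DecidableEq σ] [Fintype κ] [DecidableEq ι]
    {bl : κ → ι} {d : ι → ℕ} {b q : κ → ℕ}
    {a : (i : ι) → Sym σ (d i) → E} {p : (t : κ) → Sym σ (b t) → E}
    {h : (t : κ) → Sym σ (q t) → E} {D : P → Derivation ℤ E E} (H : MovB bl d b q a p h D) :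
    Mov bl d b q a p h D where
  deg := H.deg
  der := fun s i x => by
    have h1 : ∀ J, D s (a i J) * mon x J = ∑ t, (if bl t = i then ∑ J' : Sym σ (b t),
        ∑ J'' : Sym σ (q t), (if (J' : Multiset σ) + (J'' : Multiset σ) = (J : Multiset σ)
          then p t J' * D s (h t J'') else 0) else 0) * mon x J := fun J => by
      rw [H.der s i J, Finset.sum_mul]
    rw [Finset.sum_congr rfl fun J _ => h1 J, Finset.sum_comm]
    refine Finset.sum_congr rfl fun t _ => ?_
    by_cases ht : bl t = i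
    · simp only [if_pos ht]
      have h2 := Helper8.LV.kf_conv (by rw [← ht]; exact H.deg t : d i = b t + q t) (p t)
        (fun J => D s (h t J)) x
      unfold form
      rw [h2]
    · simp only [if_neg ht, zero_mul, Finset.sum_const_zero]

theorem FamB.map {k : Type*} [Field k] [Algebra k E] [Fintype σ] [DecidableEq σ] [Fintype κ]
    [DecidableEq ι] {E' : Type*} [Field E'] [Algebra E E'] [Algebra k E'] [IsScalarTower k E E']
    {bl : κ → ι} {d : ι → ℕ} {b q : κ → ℕ}
    {a : (i : ι) → Sym σ (d i) → E} {p : (t : κ) → Sym σ (b t) → E}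
    {h : (t : κ) → Sym σ (q t) → E} (H : FamB k bl d b q a p h) :
    FamB k bl d b q (fun i J => algebraMap E E' (a i J)) (fun i J => algebraMap E E' (p i J))
      fun i J => algebraMap E E' (h i J) := by
  obtain ⟨Q, hQ⟩ := H
  exact ⟨Q, Pool.Agent.Helper8.CO.fam_map hQ (IsScalarTower.toAlgHom k E E')⟩

theorem FamB.mov {k : Type*} [Field k] [Algebra k E] [Fintype σ] [DecidableEq σ] [Fintype κ]
    [DecidableEq ι] {bl : κ → ι} {d : ι → ℕ} {b q : κ → ℕ}
    {a : (i : ι) → Sym σ (d i) → E} {p : (t : κ) → Sym σ (b t) → E}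
    {h : (t : κ) → Sym σ (q t) → E} (H : FamB k bl d b q a p h)
    (D : P → Derivation ℤ E E) (hD : ∀ s (c : k), D s (algebraMap k E c) = 0) :
    MovB bl d b q a p h D := by
  obtain ⟨Q, hQ⟩ := H
  refine ⟨hQ.deg, fun s i J => ?_⟩
  classical
  rw [← hQ.eq i J, Pool.Agent.Helper8.CO.der_aeval (D s) (hD s), Fintype.sum_sigma]
  refine Finset.sum_congr rfl fun t _ => ?_
  split_ifs with ht
  · rw [Finset.sum_comm]
    refine Finset.sum_congr rfl fun J'' _ => ?_
    rw [hQ.der i J ⟨t, J''⟩, if_pos ht, Finset.sum_mul]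
    refine Finset.sum_congr rfl fun J' _ => ?_
    rw [ite_mul, zero_mul]
  · refine Finset.sum_eq_zero fun J'' _ => ?_
    rw [hQ.der i J ⟨t, J''⟩, if_neg ht, zero_mul]

theorem FamB.tower {k₀ k : Type*} [Field k₀] [Field k] [Algebra k₀ E] [Algebra k E]
    [Algebra k₀ k] [IsScalarTower k₀ k E] [Fintype σ] [DecidableEq σ] [Fintype κ]
    [DecidableEq ι] {bl : κ → ι} {d : ι → ℕ} {b q : κ → ℕ}
    {a : (i : ι) → Sym σ (d i) → E} {p : (t : κ) → Sym σ (b t) → E}
    {h : (t : κ) → Sym σ (q t) → E} (H : FamB k₀ bl d b q a p h) :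
    FamB k bl d b q a p h := by
  obtain ⟨Q, hQ⟩ := H
  exact ⟨_, Pool.Agent.Helper8.CO.fam_tower hQ⟩

end

end Pool.Agent.Helper10.CT
end
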