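import Pool.Agent.Helper12.LVM.C01

/- Helper12.LVF.H8.LG.Trd -/
section
/-! # LG-TRD: transcendence degree and rank -/

set_option autoImplicit false

namespace Pool.Agent.Helper8.LG

section Trd

variable {k E : Type*} [Field k] [Field E] [Algebra k E] {P : Type*}

/-- the field of all elements whose derivatives lie in a given space -/
def trdV (D : P → Derivation ℤ E E) (hk : ∀ p (c : k), D p (algebraMap k E c) = 0)
    (W : Submodule E (P → E)) : IntermediateField k E where
  carrier := {f | (fun p => D p f) ∈ W}
  mul_mem' := by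
    intro f g hf hg
    simp only [Set.mem_ofPred_eq] at *
    have h := W.add_mem (W.smul_mem f hg) (W.smul_mem g hf)
    have e : (fun p => D p (f * g)) = f • (fun p => D p g) + g • (fun p => D p f) := by
      funext p
      simp [Derivation.leibniz]
    rw [e]
    exact h
  add_mem' := by
    intro f g hf hg
    simp only [Set.mem_ofPred_eq] at *
    have h := W.add_mem hf hg
    have e : (fun p => D p (f + g)) = (fun p => D p f) + (fun p => D p g) := by
      funext p
      simp
    rw [e]
    exact h
  algebraMap_mem' := by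
    intro c
    simp only [Set.mem_ofPred_eq]
    have e : (fun p => D p (algebraMap k E c)) = 0 := by
      funext p
      simp [hk]
    rw [e]
    exact W.zero_mem
  inv_mem' := by
    intro f hf
    simp only [Set.mem_ofPred_eq] at *
    have e : (fun p => D p f⁻¹) = (-(f⁻¹ ^ 2)) • (fun p => D p f) := by
      funext p
      rw [Derivation.leibniz_inv]
      simp
    rw [e]
    exact W.smul_mem _ hf

theorem mem_trdV {D : P → Derivation ℤ E E} {hk : ∀ p (c : k), D p (algebraMap k E c) = 0}
    {W : Submodule E (P → E)} {f : E} : f ∈ trdV D hk W ↔ (fun p => D p f) ∈ W := Iff.rfl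

theorem trd_aeval {D : P → Derivation ℤ E E} {hk : ∀ p (c : k), D p (algebraMap k E c) = 0}
    {W : Submodule E (P → E)} (y : E) (q : Polynomial (trdV D hk W)) :
    ∃ w ∈ W, ∀ p, D p (Polynomial.aeval y q)
      = w p + Polynomial.aeval y (Polynomial.derivative q) * D p y := by
  induction q using Polynomial.induction_on' with
  | add q r hq hr =>
    obtain ⟨w1, h1, e1⟩ := hq
    obtain ⟨w2, h2, e2⟩ := hr
    refine ⟨w1 + w2, W.add_mem h1 h2, fun p => ?_⟩
    rw [map_add, map_add, e1, e2, Polynomial.derivative_add, map_add, Pi.add_apply]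
    ring
  | monomial n c =>
    refine ⟨y ^ n • (fun p => D p (c : E)), W.smul_mem _ c.2, fun p => ?_⟩
    rw [Polynomial.aeval_monomial, Polynomial.derivative_monomial, Polynomial.aeval_monomial,
      Derivation.leibniz, Derivation.leibniz_pow]
    simp only [Pi.smul_apply, smul_eq_mul, map_mul, map_natCast]
    have e : algebraMap (trdV D hk W) E c = (c : E) := rfl
    rw [e]
    simp only [nsmul_eq_mul]
    ring

theorem trd_closed [CharZero E] {D : P → Derivation ℤ E E}
    {hk : ∀ p (c : k), D p (algebraMap k E c) = 0}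
    {W : Submodule E (P → E)} {y : E} (hy : IsAlgebraic (trdV D hk W) y) :
    y ∈ trdV D hk W := by
  have hint : IsIntegral (trdV D hk W) y := hy.isIntegral
  have hirr := minpoly.irreducible hint
  have hsep : (minpoly (trdV D hk W) y).Separable := hirr.separable
  have h0 := hsep.aeval_derivative_ne_zero (minpoly.aeval (trdV D hk W) y)
  obtain ⟨w, hw, he⟩ := trd_aeval y (minpoly (trdV D hk W) y)
  rw [mem_trdV]
  have e : (fun p => D p y) = (-(Polynomial.aeval y (Polynomial.derivative
      (minpoly (trdV D hk W) y)))⁻¹) • w := by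
    funext p
    have h1 := he p
    rw [minpoly.aeval, map_zero] at h1
    simp only [Pi.smul_apply, smul_eq_mul]
    have h2 : w p = -(Polynomial.aeval y (Polynomial.derivative
      (minpoly (trdV D hk W) y)) * D p y) := by linear_combination -h1
    rw [h2]
    (clear * - h0; field_simp)
  rw [e]
  exact W.smul_mem _ hw

end Trd

theorem minors_of_trdeg {k E : Type*} [Field k] [Field E] [CharZero E] [Algebra k E]
    {σ P : Type*} [Finite σ] (D : P → Derivation ℤ E E)
    (hk : ∀ p (c : k), D p (algebraMap k E c) = 0)
    (x : σ → E) (i₀ : σ) (hx : x i₀ = 1) (w : ℕ)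
    (hw : Algebra.trdeg k (IntermediateField.adjoin k (Set.range x)) ≤ w) :
    MinorsVanish D x w := by
  set K := IntermediateField.adjoin k (Set.range x) with hK
  have hxK : ∀ j, x j ∈ K := fun j => IntermediateField.subset_adjoin _ _ ⟨j, rfl⟩
  set S : Set K := Set.range (fun j => (⟨x j, hxK j⟩ : K)) with hS
  have hSfin : S.Finite := Set.finite_range _
  have hSimg : ((↑) : K → E) '' S = Set.range x := by
    rw [hS, ← Set.range_comp]
    rfl
  have htop : IntermediateField.adjoin k S = ⊤ := by
    apply IntermediateField.map_injective K.val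
    rw [IntermediateField.adjoin_map, ← AlgHom.fieldRange_eq_map, IntermediateField.fieldRange_val]
    have e : (K.val : K → E) '' S = Set.range x := hSimg
    rw [e]
  have halg : Algebra.IsAlgebraic (Algebra.adjoin k S) K := by
    rw [← IntermediateField.isAlgebraic_adjoin_iff_top, htop,
      Algebra.isAlgebraic_iff_isIntegral]
    exact Algebra.isIntegral_of_surjective IntermediateField.topEquiv.surjective
  obtain ⟨t, hts, ht⟩ := exists_isTranscendenceBasis_subset (R := k) S
  have htfin : t.Finite := hSfin.subset hts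
  have hcard : Cardinal.mk t ≤ w := by
    rw [ht.cardinalMk_eq_trdeg]
    exact hw
  have : Fintype t := htfin.fintype
  have hcard' : Fintype.card t ≤ w := by
    rw [Cardinal.mk_fintype] at hcard
    exact_mod_cast hcard
  -- the space
  set W : Submodule E (P → E) :=
    Submodule.span E (Set.range (fun u : t => (fun p => D p ((u : K) : E)))) with hW
  have hWr : Module.finrank E W ≤ w := (finrank_range_le_card _).trans hcard'
  have : Module.Finite E W := Module.Finite.span_of_finite E (Set.finite_range _)
  -- all the coordinates belong to the field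
  have hV : ∀ j, x j ∈ trdV D hk W := by
    intro j
    apply trd_closed
    have := ht.isAlgebraic_field
    have h1 : IsAlgebraic (IntermediateField.adjoin k (Set.range ((↑) : t → K)))
      (⟨x j, hxK j⟩ : K) := Algebra.IsAlgebraic.isAlgebraic _
    have hle : IntermediateField.adjoin k (Set.range ((↑) : t → K))
        ≤ (trdV D hk W).comap K.val := by
      rw [IntermediateField.adjoin_le_iff]
      rintro _ ⟨u, rfl⟩
      change (fun p => D p ((u : K) : E)) ∈ W
      exact Submodule.subset_span ⟨u, rfl⟩
    let φ : IntermediateField.adjoin k (Set.range ((↑) : t → K)) →+* trdV D hk W :=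
      { toFun := fun f => ⟨((f : K) : E), hle f.2⟩
        map_one' := rfl
        map_mul' := fun _ _ => rfl
        map_zero' := rfl
        map_add' := fun _ _ => rfl }
    obtain ⟨q, hq0, hq⟩ := h1
    refine ⟨q.map φ, (Polynomial.map_ne_zero_iff φ.injective).2 hq0, ?_⟩
    have h2 := congrArg (K.val : K →+* E) hq
    rw [map_zero, Polynomial.aeval_def, Polynomial.hom_eval₂] at h2
    rw [Polynomial.aeval_def, Polynomial.eval₂_map]
    exact h2
  intro r c
  -- the rows
  set v : Fin (w + 2) → E × W := fun s => (x (r s), ⟨fun p => D p (x (r s)), hV (r s)⟩) with hv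
  have hdep : ¬ LinearIndependent E v := by
    intro hli
    have h1 := hli.fintype_card_le_finrank
    rw [Module.finrank_prod, Module.finrank_self, Fintype.card_fin] at h1
    omega
  rw [Fintype.not_linearIndependent_iff] at hdep
  obtain ⟨g, hg, i, hi⟩ := hdep
  rw [← Matrix.exists_vecMul_eq_zero_iff]
  refine ⟨g, fun h => hi (by rw [h]; rfl), ?_⟩
  have hg1 : ∑ s, g s * x (r s) = 0 := by
    have := congrArg Prod.fst hg
    rw [Prod.fst_sum] at this
    simpa [hv] using this
  have hg2 : ∀ p, ∑ s, g s * D p (x (r s)) = 0 := by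
    intro p
    have := congrArg (fun z : E × W => ((z.2 : W) : P → E) p) hg
    simp only [Prod.snd_sum, Submodule.coe_sum, Finset.sum_apply] at this
    simpa [hv] using this
  funext o
  simp only [Matrix.vecMul, dotProduct, Matrix.of_apply, Pi.zero_apply]
  cases c o with
  | none => exact hg1
  | some p => exact hg2 p

end Pool.Agent.Helper8.LG
end

/- Helper10.LB.Defs -/
section
/-!
# LB (Theorem B', stage 2 of LG): definitions
-/

set_option autoImplicit false

namespace Pool.Agent.Helper10.LB

open scoped BigOperators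
open Polynomial Pool.Agent.Helper8.LG

/-- a derivation applied to the coefficients of a polynomial -/
noncomputable def mapD {E : Type*} [CommRing E] (D : Derivation ℤ E E) (p : E[X]) : E[X] :=
  p.sum fun i c => monomial i (D c)

theorem coeff_mapD {E : Type*} [CommRing E] (D : Derivation ℤ E E) (p : E[X]) (n : ℕ) :
    (mapD D p).coeff n = D (p.coeff n) := by
  unfold mapD
  rw [Polynomial.sum_def, finset_sum_coeff]
  simp only [coeff_monomial]
  rw [Finset.sum_ite_eq' p.support n]
  split_ifs with h
  · rfl
  · rw [notMem_support_iff.1 h, map_zero]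

/-- `F(u + Y v)` for the form `F` with coefficients `a` -/
noncomputable def lf {E σ : Type*} [CommRing E] [Fintype σ] [DecidableEq σ] {n : ℕ}
    (a : Sym σ n → E) (u v : σ → E) : E[X] :=
  form (fun J => C (a J)) fun l => C (u l) + X * C (v l)

/-- The directions: `y` is a transcendence basis of `L` over `k`, the derivations kill `k` and
have integer values at the `y_i`, and the derivations `∂/∂y_i` are among them. -/
structure Dirs (k : Type*) {L : Type*} [Field k] [Field L] [Algebra k L] {P T : Type*}
    [DecidableEq T] (y : T → L) (D : P → Derivation ℤ L L) : Prop where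
  ind : AlgebraicIndependent k y
  fin : FiniteDimensional (IntermediateField.adjoin k (Set.range y)) L
  ker : ∀ p (c : k), D p (algebraMap k L c) = 0
  int : ∀ p i, ∃ n : ℤ, D p (y i) = n
  dual : ∀ i, ∃ p, ∀ j, D p (y j) = if j = i then 1 else 0

/-- The conditions on a point `x`: `F_i(x) = 0` for `i ∈ Z`, `F_i(x) ≠ 0` and all `x^J/F_i(x)`
integral over `A` for `i ∉ Z`. -/
structure Pt {E σ ι : Type*} [Field E] [Fintype σ] [DecidableEq σ] {d : ι → ℕ}
    (a : (i : ι) → Sym σ (d i) → E) (Z : Finset ι) (A : Subring E) (x : σ → E) : Prop where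
  zero : ∀ i ∈ Z, form (a i) x = 0
  ne : ∀ i ∉ Z, form (a i) x ≠ 0
  int : ∀ i ∉ Z, ∀ J : Sym σ (d i), IsIntegral A (mon x J / form (a i) x)

/-- Bounded Mason data: a point `x = lam (u + z v)` of a line, all objects have the bounded
denominator `e`; `h w = ∏ F_i(u + Y v)`, Bezout relations for `h` and its reversal, and
`h ∣ D h + h' q`. -/
structure MData {k L σ ι : Type*} [Field k] [Field L] [Algebra k L] [Fintype σ] [DecidableEq σ]
    [Fintype ι] [DecidableEq ι] {d : ι → ℕ} (a : (i : ι) → Sym σ (d i) → L) (Z : Finset ι)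
    (V : Submodule k L) (D : Derivation ℤ L L) (x u v : σ → L) (lam z e : L)
    (h w q s α β α' β' : L[X]) : Prop where
  eV : e ∈ V
  e0 : e ≠ 0
  lam0 : lam ≠ 0
  hx : ∀ l, x l = lam * (u l + z * v l)
  uV : ∀ l, e * u l ∈ V
  vV : ∀ l, e * v l ∈ V
  pi : ∃ b b', u b * v b' - u b' * v b ≠ 0 ∧ e * (u b * v b' - u b' * v b)⁻¹ ∈ V
  top : ∀ i ∉ Z, form (a i) v ≠ 0 ∧ e * (form (a i) v)⁻¹ ∈ V
  mon : h.Monic
  deg : 3 ≤ h.natDegree
  hw : h * w = ∏ i ∈ Zᶜ, lf (a i) u v
  hq : q.natDegree < h.natDegree
  hs : mapD D h + derivative h * q = h * s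
  h1 : α * h + β * derivative h = 1
  h2 : α' * h.reverse + β' * derivative h.reverse = 1
  bd : ∀ n, e * h.coeff n ∈ V ∧ e * w.coeff n ∈ V ∧ e * q.coeff n ∈ V ∧ e * s.coeff n ∈ V ∧
    e * α.coeff n ∈ V ∧ e * β.coeff n ∈ V ∧ e * α'.coeff n ∈ V ∧ e * β'.coeff n ∈ V

end Pool.Agent.Helper10.LB
end

/- Helper10.LB.PolyD -/
section
/-! # LB-PD: coefficientwise derivations and restrictions of forms to lines -/

set_option autoImplicit false

namespace Pool.Agent.Helper10.LB

open scoped BigOperators
open Polynomial Pool.Agent.Helper8.LG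

theorem mapD_add {E : Type*} [CommRing E] (D : Derivation ℤ E E) (p q : E[X]) :
    mapD D (p + q) = mapD D p + mapD D q := by
  ext n
  simp only [coeff_mapD, coeff_add, map_add]

theorem pd_mapD_monomial {E : Type*} [CommRing E] (D : Derivation ℤ E E) (n : ℕ) (a : E) :
    mapD D (monomial n a) = monomial n (D a) := by
  ext m
  rw [coeff_mapD, coeff_monomial, coeff_monomial]
  split_ifs
  · rfl
  · rw [map_zero]

theorem mapD_mul {E : Type*} [CommRing E] (D : Derivation ℤ E E) (p q : E[X]) :
    mapD D (p * q) = mapD D p * q + p * mapD D q := by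
  ext n
  rw [coeff_mapD, coeff_add, coeff_mul, coeff_mul, coeff_mul, map_sum, ← Finset.sum_add_distrib]
  refine Finset.sum_congr rfl fun x _ => ?_
  rw [coeff_mapD, coeff_mapD, D.leibniz, smul_eq_mul, smul_eq_mul]
  ring

theorem deriv_eval {E : Type*} [CommRing E] (D : Derivation ℤ E E) (p : E[X]) (z : E) :
    D (p.eval z) = (mapD D p).eval z + (derivative p).eval z * D z := by
  induction p using Polynomial.induction_on' with
  | add p q hp hq =>
    rw [eval_add, map_add, hp, hq, mapD_add, eval_add, derivative_add, eval_add]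
    ring
  | monomial n a =>
    rw [pd_mapD_monomial, eval_monomial, eval_monomial, derivative_monomial, eval_monomial,
      D.leibniz, D.leibniz_pow]
    simp only [smul_eq_mul, nsmul_eq_mul]
    ring

theorem pd_map_form {E E' σ : Type*} [CommRing E] [CommRing E'] [Fintype σ] [DecidableEq σ]
    {n : ℕ} (f : E →+* E') (a : Sym σ n → E) (x : σ → E) :
    f (form a x) = form (fun J => f (a J)) fun l => f (x l) := by
  unfold form mon
  rw [map_sum]
  refine Finset.sum_congr rfl fun J _ => ?_
  rw [map_mul, map_multiset_prod, Multiset.map_map]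
  rfl

theorem lf_eval {E σ : Type*} [CommRing E] [Fintype σ] [DecidableEq σ] {n : ℕ}
    (a : Sym σ n → E) (u v : σ → E) (z : E) :
    (lf a u v).eval z = form a fun l => u l + z * v l := by
  have h := pd_map_form (evalRingHom z) (fun J => C (a J)) fun l => C (u l) + X * C (v l)
  unfold lf
  rw [← coe_evalRingHom, h]
  simp only [coe_evalRingHom, eval_C, eval_add, eval_mul, eval_X]

/-- the product of the linear factors over a multiset -/
theorem pd_prod {E σ : Type*} [CommRing E] (u v : σ → E) (s : Multiset σ) :
    ((s.map fun l => C (u l) + X * C (v l)).prod).natDegree ≤ s.card ∧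
      ((s.map fun l => C (u l) + X * C (v l)).prod).coeff s.card = (s.map v).prod ∧
      ((s.map fun l => C (u l) + X * C (v l)).prod).reflect s.card =
        (s.map fun l => C (v l) + X * C (u l)).prod := by
  have hlin : ∀ l, (C (u l) + X * C (v l)).natDegree ≤ 1 := by
    intro l
    rw [X_mul_C]
    refine natDegree_add_le_of_degree_le ?_ ?_
    · rw [natDegree_C]; exact Nat.zero_le _
    · exact (natDegree_C_mul_le _ _).trans natDegree_X_le
  have hco : ∀ l, (C (u l) + X * C (v l)).coeff 1 = v l := by
    intro l
    rw [coeff_add, X_mul_C, coeff_C_mul, coeff_X_one, mul_one, coeff_C]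
    simp
  have hre : ∀ l, (C (u l) + X * C (v l)).reflect 1 = C (v l) + X * C (u l) := by
    intro l
    rw [reflect_add, reflect_C, X_mul_C, X_mul_C, reflect_C_mul, pow_one]
    have : (X : E[X]).reflect 1 = 1 := by
      have := reflect_monomial 1 1 (R := E)
      rw [pow_one] at this
      rw [this, revAt_le le_rfl]
      simp
    rw [this, mul_one, add_comm]
  induction s using Multiset.induction_on with
  | empty => simp [reflect_one]
  | cons b s ih =>
    obtain ⟨i1, i2, i3⟩ := ih
    rw [Multiset.map_cons, Multiset.prod_cons, Multiset.card_cons, add_comm s.card 1,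
      Multiset.map_cons, Multiset.prod_cons, Multiset.map_cons, Multiset.prod_cons]
    refine ⟨natDegree_mul_le_of_le (hlin b) i1, ?_, ?_⟩
    · rw [coeff_mul_add_eq_of_natDegree_le (hlin b) i1, hco, i2]
    · rw [reflect_mul _ _ (hlin b) i1, hre, i3]

theorem lf_coeff_top {E σ : Type*} [CommRing E] [Fintype σ] [DecidableEq σ] {n : ℕ}
    (a : Sym σ n → E) (u v : σ → E) : (lf a u v).coeff n = form a v := by
  unfold lf form mon
  rw [finsetSum_coeff]
  refine Finset.sum_congr rfl fun J _ => ?_
  have h := (pd_prod u v (J : Multiset σ)).2.1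
  rw [Sym.card_coe] at h
  rw [coeff_C_mul, h]

theorem lf_natDegree_le {E σ : Type*} [CommRing E] [Fintype σ] [DecidableEq σ] {n : ℕ}
    (a : Sym σ n → E) (u v : σ → E) : (lf a u v).natDegree ≤ n := by
  unfold lf form mon
  refine natDegree_sum_le_of_forall_le _ _ fun J _ => ?_
  have h := (pd_prod u v (J : Multiset σ)).1
  rw [Sym.card_coe] at h
  exact (natDegree_C_mul_le _ _).trans h

theorem lf_map {E E' σ : Type*} [CommRing E] [CommRing E'] [Fintype σ] [DecidableEq σ] {n : ℕ}
    (f : E →+* E') (a : Sym σ n → E) (u v : σ → E) :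
    (lf a u v).map f = lf (fun J => f (a J)) (fun l => f (u l)) fun l => f (v l) := by
  have h := pd_map_form (mapRingHom f) (fun J => C (a J)) fun l => C (u l) + X * C (v l)
  unfold lf
  rw [← coe_mapRingHom, h]
  simp

/-- reversal of `F(u + Y v)`: `F(Y u + v)` -/
theorem lf_reflect {E σ : Type*} [CommRing E] [Fintype σ] [DecidableEq σ] {n : ℕ}
    (a : Sym σ n → E) (u v : σ → E) : (lf a u v).reflect n = lf a v u := by
  have hsum : ∀ (s : Finset (Sym σ n)) (g : Sym σ n → E[X]),
      (∑ J ∈ s, g J).reflect n = ∑ J ∈ s, (g J).reflect n := by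
    intro s g
    ext m
    rw [coeff_reflect, finsetSum_coeff, finsetSum_coeff]
    refine Finset.sum_congr rfl fun J _ => ?_
    rw [coeff_reflect]
  unfold lf form mon
  rw [hsum]
  refine Finset.sum_congr rfl fun J _ => ?_
  have h := (pd_prod u v (J : Multiset σ)).2.2
  rw [Sym.card_coe] at h
  rw [reflect_C_mul, h]

end Pool.Agent.Helper10.LB
end
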