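import Mathlib
import Pool.Agent.Helper12.LVM.C06

/- Helper19.UE.Residue -/
section
/-!
Sum of the residues of `1 / ((w - a) ^ p (w - b) ^ q (w - c) ^ r)`, in terms of power series.
-/

open PowerSeries

namespace Pool.Agent.Helper19.UE

variable {K : Type*} [Field K]

/-- The power series `1 / (X + A)`. -/
noncomputable def g (A : K) : K⟦X⟧ := (X + C A)⁻¹

lemma g_mul {A : K} (hA : A ≠ 0) : (X + C A) * g A = 1 :=
  PowerSeries.mul_inv_cancel _ (by simpa using hA)

/-- The sum of the three residues. -/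
noncomputable def T (a b c : K) (p q r : ℕ) : K :=
  coeff p (X * (g (a - b) ^ q * g (a - c) ^ r)) + coeff q (X * (g (b - a) ^ p * g (b - c) ^ r)) +
    coeff r (X * (g (c - a) ^ p * g (c - b) ^ q))

lemma T_swap (a b c : K) (p q r : ℕ) : T a b c p q r = T b a c q p r := by
  unfold T
  rw [mul_comm (g (c - a) ^ p)]
  ring

lemma T_swap' (a b c : K) (p q r : ℕ) : T a b c p q r = T a c b p r q := by
  unfold T
  rw [mul_comm (g (a - b) ^ q)]
  ring

lemma g_sub {A B : K} (hA : A ≠ 0) (hB : B ≠ 0) : C (B - A) * (g A * g B) = g A - g B := by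
  have h1 := g_mul hA
  have h2 := g_mul hB
  rw [map_sub]
  linear_combination (g A) * h2 - (g B) * h1

lemma T_rec {a b c : K} (hab : a ≠ b) (hac : a ≠ c) (hbc : b ≠ c) (p q r : ℕ) :
    (b - c) * T a b c p (q + 1) (r + 1) = T a b c p (q + 1) r - T a b c p q (r + 1) := by
  have hA : a - b ≠ 0 := sub_ne_zero.2 hab
  have hB : a - c ≠ 0 := sub_ne_zero.2 hac
  have hC : b - c ≠ 0 := sub_ne_zero.2 hbc
  have hD : c - b ≠ 0 := sub_ne_zero.2 (Ne.symm hbc)
  have h1 : (b - c) * coeff p (X * (g (a - b) ^ (q + 1) * g (a - c) ^ (r + 1))) =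
      coeff p (X * (g (a - b) ^ (q + 1) * g (a - c) ^ r)) -
        coeff p (X * (g (a - b) ^ q * g (a - c) ^ (r + 1))) := by
    have := g_sub hA hB
    rw [← coeff_C_mul, ← map_sub]
    congr 1
    have e : b - c = (a - c) - (a - b) := by ring
    rw [e]
    linear_combination (X * (g (a - b) ^ q * g (a - c) ^ r)) * this
  have h2 : (b - c) * coeff (q + 1) (X * (g (b - a) ^ p * g (b - c) ^ (r + 1))) =
      coeff (q + 1) (X * (g (b - a) ^ p * g (b - c) ^ r)) -
        coeff q (X * (g (b - a) ^ p * g (b - c) ^ (r + 1))) := by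
    have := g_mul hC
    rw [← coeff_C_mul, ← coeff_succ_X_mul q, ← map_sub]
    congr 1
    linear_combination (X * (g (b - a) ^ p * g (b - c) ^ r)) * this
  have h3 : (b - c) * coeff (r + 1) (X * (g (c - a) ^ p * g (c - b) ^ (q + 1))) =
      coeff r (X * (g (c - a) ^ p * g (c - b) ^ (q + 1))) -
        coeff (r + 1) (X * (g (c - a) ^ p * g (c - b) ^ q)) := by
    have := g_mul hD
    rw [← coeff_C_mul, ← coeff_succ_X_mul r, ← map_sub]
    congr 1
    have e : (C (b - c) : K⟦X⟧) = - C (c - b) := by rw [← map_neg]; congr 1; ring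
    rw [e]
    linear_combination (-X * (g (c - a) ^ p * g (c - b) ^ q)) * this
  unfold T
  rw [mul_add, mul_add, h1, h2, h3]
  ring

/-- Sum of the residues. -/
theorem T_eq (n : ℕ) : ∀ {a b c : K} (_ : a ≠ b) (_ : a ≠ c) (_ : b ≠ c) (p q r : ℕ),
    p + q + r = n + 1 → T a b c p q r = if n = 0 then 1 else 0 := by
  induction n with
  | zero =>
    intro a b c _ _ _ p q r h
    have : (p = 1 ∧ q = 0 ∧ r = 0) ∨ (p = 0 ∧ q = 1 ∧ r = 0) ∨ (p = 0 ∧ q = 0 ∧ r = 1) := by omega
    rcases this with ⟨rfl, rfl, rfl⟩ | ⟨rfl, rfl, rfl⟩ | ⟨rfl, rfl, rfl⟩ <;>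
      simp [T]
  | succ n ih =>
    have key : ∀ {a b c : K} (_ : a ≠ b) (_ : a ≠ c) (_ : b ≠ c) (p q r : ℕ),
        p + (q + 1) + (r + 1) = n + 1 + 1 → T a b c p (q + 1) (r + 1) = 0 := by
      intro a b c hab hac hbc p q r h
      have h0 := T_rec hab hac hbc p q r
      rw [ih hab hac hbc p (q + 1) r (by omega), ih hab hac hbc p q (r + 1) (by omega), sub_self]
        at h0
      exact (mul_eq_zero.1 h0).resolve_left (sub_ne_zero.2 hbc)
    intro a b c hab hac hbc p q r h
    simp only [Nat.succ_ne_zero, if_false]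
    rcases Nat.eq_zero_or_pos p with hp | hp
    · subst hp
      rcases Nat.eq_zero_or_pos q with hq | hq
      · subst hq
        have : r = n + 2 := by omega
        subst this
        simp [T, coeff_X]
      · obtain ⟨q, rfl⟩ : ∃ q', q = q' + 1 := ⟨q - 1, by omega⟩
        rcases Nat.eq_zero_or_pos r with hr | hr
        · subst hr
          have : q + 1 = n + 2 := by omega
          rw [this]
          simp [T, coeff_X]
        · obtain ⟨r, rfl⟩ : ∃ q', r = q' + 1 := ⟨r - 1, by omega⟩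
          exact key hab hac hbc _ _ _ (by omega)
    · obtain ⟨p, rfl⟩ : ∃ q', p = q' + 1 := ⟨p - 1, by omega⟩
      rcases Nat.eq_zero_or_pos q with hq | hq
      · subst hq
        rcases Nat.eq_zero_or_pos r with hr | hr
        · subst hr
          have : p + 1 = n + 2 := by omega
          rw [this]
          simp [T, coeff_X]
        · obtain ⟨r, rfl⟩ : ∃ q', r = q' + 1 := ⟨r - 1, by omega⟩
          rw [T_swap]
          exact key (Ne.symm hab) hbc hac _ _ _ (by omega)
      · obtain ⟨q, rfl⟩ : ∃ q', q = q' + 1 := ⟨q - 1, by omega⟩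
        rw [T_swap', T_swap]
        exact key (Ne.symm hac) (Ne.symm hbc) hab _ _ _ (by omega)

end Pool.Agent.Helper19.UE
end

/- Helper19.UE.Pade -/
section
/-!
Pade approximants: forms `P, Q` of degree `n + 1` with positive integer coefficients (up to signs)
and `∑ x_i ^ (2 (n + 1)) P_i (x) = 0` on `x_0 + x_1 + x_2 = 0`, independent at every point.
-/

open PowerSeries
open Finset.HasAntidiagonal (antidiagonal)

namespace Pool.Agent.Helper19.UE

/-- The form `∑_{i + j = n} C(q + i, q) C(r + j, r) u ^ j v ^ i`. -/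
def S {R : Type*} [CommRing R] (n q r : ℕ) (u v : R) : R :=
  ∑ ij ∈ antidiagonal n, ((Nat.choose (q + ij.1) q : R) * (Nat.choose (r + ij.2) r : R)) *
    (u ^ ij.2 * v ^ ij.1)

lemma map_S {R R' : Type*} [CommRing R] [CommRing R'] (f : R →+* R') (n q r : ℕ) (u v : R) :
    f (S n q r u v) = S n q r (f u) (f v) := by
  simp [S, map_sum, map_mul, map_pow, map_natCast]

section field

variable {K : Type*} [Field K]

lemma g_eq {A : K} (hA : A ≠ 0) : g A = C A⁻¹ * mk (fun n => (-A⁻¹) ^ n) := by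
  have h1 := g_mul hA
  have h2 : (X + C A) * (C A⁻¹ * mk (fun n => (-A⁻¹) ^ n) : K⟦X⟧) = 1 := by
    ext n
    rw [add_mul, map_add, mul_left_comm, coeff_C_mul, coeff_C_mul, coeff_C_mul, coeff_mk]
    rcases n with _ | n
    · simp [hA]
    · rw [coeff_succ_X_mul, coeff_mk, coeff_one, if_neg (Nat.succ_ne_zero n), pow_succ]
      field_simp
      ring
  calc g A = g A * ((X + C A) * (C A⁻¹ * mk (fun n => (-A⁻¹) ^ n))) := by rw [h2, mul_one]
    _ = ((X + C A) * g A) * (C A⁻¹ * mk (fun n => (-A⁻¹) ^ n)) := by ring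
    _ = _ := by rw [h1, one_mul]

lemma geo_pow (v : K) (d : ℕ) :
    (mk (fun n => v ^ n) : K⟦X⟧) ^ (d + 1) = mk (fun n => (Nat.choose (d + n) d : K) * v ^ n) := by
  have h0 : (mk (fun n => v ^ n) : K⟦X⟧) = rescale v (mk 1) := by
    ext n
    simp [coeff_rescale]
  rw [h0, ← map_pow, mk_one_pow_eq_mk_choose_add]
  ext n
  simp [coeff_rescale, mul_comm]

lemma coeff_T {A B : K} (hA : A ≠ 0) (hB : B ≠ 0) (p q r : ℕ) :
    A ^ (p + q + 1) * B ^ (p + r + 1) *
      coeff (p + 1) (X * (g A ^ (q + 1) * g B ^ (r + 1)) : K⟦X⟧) = (-1) ^ p * S p q r A B := by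
  rw [coeff_succ_X_mul, g_eq hA, g_eq hB, mul_pow, mul_pow, geo_pow, geo_pow, ← map_pow, ← map_pow,
    show ∀ (a b c d : K⟦X⟧), a * b * (c * d) = a * (c * (b * d)) by intros; ring,
    coeff_C_mul, coeff_C_mul, coeff_mul, S, Finset.mul_sum, Finset.mul_sum, Finset.mul_sum,
    Finset.mul_sum]
  refine Finset.sum_congr rfl fun ij hij => ?_
  rw [Finset.HasAntidiagonal.mem_antidiagonal] at hij
  obtain ⟨i, j⟩ := ij
  simp only at hij ⊢
  subst hij
  rw [coeff_mk, coeff_mk, neg_pow, neg_pow B⁻¹]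
  have e1 : A ^ (i + j + q + 1) = A ^ (q + 1) * A ^ i * A ^ j := by ring
  have e2 : B ^ (i + j + r + 1) = B ^ (r + 1) * B ^ j * B ^ i := by ring
  rw [e1, e2, inv_pow, inv_pow, inv_pow, inv_pow]
  field_simp
  ring

/-- The identity over a field. -/
lemma S_id_field {x0 x1 x2 : K} (h : x0 + x1 + x2 = 0) (h0 : x0 ≠ 0) (h1 : x1 ≠ 0) (h2 : x2 ≠ 0)
    (p q r : ℕ) :
    (-1) ^ r * x0 ^ (q + r + 1) * S p q r x2 (-x1) + (-1) ^ p * x1 ^ (p + r + 1) * S q p r (-x2) x0 +
      (-1) ^ q * x2 ^ (p + q + 1) * S r p q x1 (-x0) = 0 := by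
  have hT := T_eq (K := K) (p + q + r + 2) (a := -x1) (b := x0) (c := 0)
    (by intro h'; apply h2; linear_combination h + h') (by simpa using h1) h0 (p + 1) (q + 1) (r + 1)
    (by ring)
  simp only [Nat.add_eq_zero_iff, OfNat.ofNat_ne_zero, and_false, if_false] at hT
  unfold T at hT
  have ea : -x1 - x0 = x2 := by linear_combination -h
  have eb : x0 - -x1 = -x2 := by linear_combination h
  rw [ea, eb, sub_zero, sub_zero, zero_sub, zero_sub, neg_neg] at hT
  have c1 := coeff_T h2 (neg_ne_zero.2 h1) p q r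
  have c2 := coeff_T (neg_ne_zero.2 h2) h0 q p r
  have c3 := coeff_T h1 (neg_ne_zero.2 h0) r p q
  generalize coeff (p + 1) (X * (g x2 ^ (q + 1) * g (-x1) ^ (r + 1))) = t1 at *
  generalize coeff (q + 1) (X * (g (-x2) ^ (p + 1) * g x0 ^ (r + 1))) = t2 at *
  generalize coeff (r + 1) (X * (g x1 ^ (p + 1) * g (-x0) ^ (q + 1))) = t3 at *
  have hm := congrArg (fun z => z * (x0 ^ (q + r + 1) * x1 ^ (p + r + 1) * x2 ^ (p + q + 1))) hT
  simp only [zero_mul] at hm
  have s1 : ∀ k : ℕ, ((-1 : K) ^ k) * (-1) ^ k = 1 := fun k => by rw [← mul_pow]; norm_num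
  have d1 : x0 ^ (q + r + 1) * x1 ^ (p + r + 1) * x2 ^ (p + q + 1) * t1 =
      (-1) ^ (r + 1) * x0 ^ (q + r + 1) * S p q r x2 (-x1) := by
    have : S p q r x2 (-x1) = (-1) ^ p * (x2 ^ (p + q + 1) * (-x1) ^ (p + r + 1) * t1) := by
      rw [c1, ← mul_assoc, s1, one_mul]
    rw [this, neg_pow x1, show p + r + 1 = p + (r + 1) by ring, pow_add (-1 : K) p (r + 1)]
    have := s1 p
    have := s1 (r + 1)
    linear_combination (exp := 1) (-(x0 ^ (q + r + 1) * x1 ^ (p + (r + 1)) * x2 ^ (p + q + 1) * t1)) *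
      ((-1) ^ (r + 1) * (-1) ^ (r + 1) * (s1 p) + s1 (r + 1))
  have d2 : x0 ^ (q + r + 1) * x1 ^ (p + r + 1) * x2 ^ (p + q + 1) * t2 =
      (-1) ^ (p + 1) * x1 ^ (p + r + 1) * S q p r (-x2) x0 := by
    have : S q p r (-x2) x0 = (-1) ^ q * ((-x2) ^ (q + p + 1) * x0 ^ (q + r + 1) * t2) := by
      rw [c2, ← mul_assoc, s1, one_mul]
    rw [this, neg_pow x2, show q + p + 1 = q + (p + 1) by ring, show p + q + 1 = q + (p + 1) by ring,
      pow_add (-1 : K) q (p + 1)]
    linear_combination (exp := 1) (-(x0 ^ (q + r + 1) * x1 ^ (p + r + 1) * x2 ^ (q + (p + 1)) * t2)) *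
      ((-1) ^ (p + 1) * (-1) ^ (p + 1) * (s1 q) + s1 (p + 1))
  have d3 : x0 ^ (q + r + 1) * x1 ^ (p + r + 1) * x2 ^ (p + q + 1) * t3 =
      (-1) ^ (q + 1) * x2 ^ (p + q + 1) * S r p q x1 (-x0) := by
    have : S r p q x1 (-x0) = (-1) ^ r * (x1 ^ (r + p + 1) * (-x0) ^ (r + q + 1) * t3) := by
      rw [c3, ← mul_assoc, s1, one_mul]
    rw [this, neg_pow x0, show r + q + 1 = r + (q + 1) by ring, show q + r + 1 = r + (q + 1) by ring,
      show r + p + 1 = p + r + 1 by ring,
      pow_add (-1 : K) r (q + 1)]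
    linear_combination (exp := 1) (-(x0 ^ (r + (q + 1)) * x1 ^ (p + r + 1) * x2 ^ (p + q + 1) * t3)) *
      ((-1) ^ (q + 1) * (-1) ^ (q + 1) * (s1 r) + s1 (q + 1))
  rw [pow_succ (-1 : K) r] at d1
  rw [pow_succ (-1 : K) p] at d2
  rw [pow_succ (-1 : K) q] at d3
  linear_combination (-1) * hm + d1 + d2 + d3

end field

end Pool.Agent.Helper19.UE
end

/- Helper19.UE.Forms -/
section
/-!
The two Pade triples `P, Q`.
-/

open Finset.HasAntidiagonal (antidiagonal)

namespace Pool.Agent.Helper19.UE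

/-- First Pade triple. -/
def P {R : Type*} [CommRing R] (n : ℕ) (x : Fin 3 → R) : Fin 3 → R :=
  ![(-1) ^ (n + 1) * S (n + 1) n (n + 1) (x 2) (-x 1),
    (-1) ^ (n + 1) * (x 1 * S n (n + 1) (n + 1) (-x 2) (x 0)),
    (-1) ^ n * S (n + 1) (n + 1) n (x 1) (-x 0)]

/-- Second Pade triple. -/
def Q {R : Type*} [CommRing R] (n : ℕ) (x : Fin 3 → R) : Fin 3 → R :=
  ![(-1) ^ (n + 1) * (x 0 * S n (n + 1) (n + 1) (x 2) (-x 1)),
    (-1) ^ n * S (n + 1) n (n + 1) (-x 2) (x 0),
    (-1) ^ (n + 1) * S (n + 1) n (n + 1) (x 1) (-x 0)]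

lemma map_P {R R' : Type*} [CommRing R] [CommRing R'] (f : R →+* R') (n : ℕ) (x : Fin 3 → R)
    (i : Fin 3) : f (P n x i) = P n (fun j => f (x j)) i := by
  fin_cases i <;> simp [P, map_S]

lemma map_Q {R R' : Type*} [CommRing R] [CommRing R'] (f : R →+* R') (n : ℕ) (x : Fin 3 → R)
    (i : Fin 3) : f (Q n x i) = Q n (fun j => f (x j)) i := by
  fin_cases i <;> simp [Q, map_S]

lemma P_orth_field {K : Type*} [Field K] (n : ℕ) (x : Fin 3 → K) (h : x 0 + x 1 + x 2 = 0)
    (h0 : x 0 ≠ 0) (h1 : x 1 ≠ 0) (h2 : x 2 ≠ 0) :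
    x 0 ^ (2 * (n + 1)) * P n x 0 + x 1 ^ (2 * (n + 1)) * P n x 1 +
      x 2 ^ (2 * (n + 1)) * P n x 2 = 0 := by
  have := S_id_field h h0 h1 h2 (n + 1) n (n + 1)
  rw [show n + (n + 1) + 1 = 2 * (n + 1) by ring, show n + 1 + (n + 1) + 1 = 2 * (n + 1) + 1 by ring,
    show n + 1 + n + 1 = 2 * (n + 1) by ring] at this
  simp only [P, Matrix.cons_val_zero, Matrix.cons_val_one, Matrix.cons_val]
  linear_combination this

lemma Q_orth_field {K : Type*} [Field K] (n : ℕ) (x : Fin 3 → K) (h : x 0 + x 1 + x 2 = 0)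
    (h0 : x 0 ≠ 0) (h1 : x 1 ≠ 0) (h2 : x 2 ≠ 0) :
    x 0 ^ (2 * (n + 1)) * Q n x 0 + x 1 ^ (2 * (n + 1)) * Q n x 1 +
      x 2 ^ (2 * (n + 1)) * Q n x 2 = 0 := by
  have := S_id_field h h0 h1 h2 n (n + 1) (n + 1)
  rw [show n + (n + 1) + 1 = 2 * (n + 1) by ring,
    show n + 1 + (n + 1) + 1 = 2 * (n + 1) + 1 by ring] at this
  simp only [Q, Matrix.cons_val_zero, Matrix.cons_val_one, Matrix.cons_val]
  linear_combination this

open Polynomial

/-- The generic point of the line. -/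
noncomputable def pt (K : Type*) [Field K] : Fin 3 → K[X] := ![X, 1 - X, -1]

lemma P_orth_poly (K : Type*) [Field K] (n : ℕ) :
    (X : K[X]) ^ (2 * (n + 1)) * P n (pt K) 0 + (1 - X) ^ (2 * (n + 1)) * P n (pt K) 1 +
      P n (pt K) 2 = 0 := by
  apply IsFractionRing.injective K[X] (FractionRing K[X])
  have hx : (1 - X : K[X]) ≠ 0 := by
    intro h
    have := congrArg (eval 0) h
    simp at this
  have := P_orth_field (K := FractionRing K[X]) n (fun j => algebraMap K[X] (FractionRing K[X]) (pt K j))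
    (by simp [pt]) (by simpa [pt] using X_ne_zero)
    (by
      have := (map_ne_zero_iff (algebraMap K[X] (FractionRing K[X]))
        (IsFractionRing.injective K[X] (FractionRing K[X]))).2 hx
      simpa [pt] using this) (by simp [pt])
  simp only [map_add, map_mul, map_pow, map_P, map_zero]
  simpa [pt] using this

lemma Q_orth_poly (K : Type*) [Field K] (n : ℕ) :
    (X : K[X]) ^ (2 * (n + 1)) * Q n (pt K) 0 + (1 - X) ^ (2 * (n + 1)) * Q n (pt K) 1 +
      Q n (pt K) 2 = 0 := by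
  apply IsFractionRing.injective K[X] (FractionRing K[X])
  have hx : (1 - X : K[X]) ≠ 0 := by
    intro h
    have := congrArg (eval 0) h
    simp at this
  have := Q_orth_field (K := FractionRing K[X]) n (fun j => algebraMap K[X] (FractionRing K[X]) (pt K j))
    (by simp [pt]) (by simpa [pt] using X_ne_zero)
    (by
      have := (map_ne_zero_iff (algebraMap K[X] (FractionRing K[X]))
        (IsFractionRing.injective K[X] (FractionRing K[X]))).2 hx
      simpa [pt] using this) (by simp [pt])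
  simp only [map_add, map_mul, map_pow, map_Q, map_zero]
  simpa [pt] using this

lemma natDegree_S {K : Type*} [Field K] (n q r : ℕ) {u v : K[X]} (hu : u.natDegree ≤ 1)
    (hv : v.natDegree ≤ 1) : (S n q r u v).natDegree ≤ n := by
  unfold S
  apply natDegree_sum_le_of_forall_le
  intro ij hij
  rw [Finset.HasAntidiagonal.mem_antidiagonal] at hij
  refine (natDegree_mul_le).trans ?_
  have h1 : (((Nat.choose (q + ij.1) q : ℕ) : K[X]) * ((Nat.choose (r + ij.2) r : ℕ) : K[X])).natDegree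
      ≤ 0 := by
    refine (natDegree_mul_le).trans ?_
    simp
  have h2 : (u ^ ij.2 * v ^ ij.1).natDegree ≤ ij.2 + ij.1 := by
    refine (natDegree_mul_le).trans ?_
    refine add_le_add ((natDegree_pow_le).trans ?_) ((natDegree_pow_le).trans ?_)
    · calc ij.2 * u.natDegree ≤ ij.2 * 1 := Nat.mul_le_mul_left _ hu
        _ = ij.2 := mul_one _
    · calc ij.1 * v.natDegree ≤ ij.1 * 1 := Nat.mul_le_mul_left _ hv
        _ = ij.1 := mul_one _
  omega

lemma natDegree_sign {K : Type*} [Field K] (m : ℕ) (f : K[X]) :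
    ((-1) ^ m * f).natDegree = f.natDegree := by
  rcases neg_one_pow_eq_or K[X] m with h | h <;> simp [h]

lemma pt_deg {K : Type*} [Field K] (i : Fin 3) : (pt K i).natDegree ≤ 1 := by
  fin_cases i
  · simp [pt]
  · simp only [pt]
    exact (natDegree_sub_le _ _).trans (by simp)
  · simp [pt]

lemma natDegree_P {K : Type*} [Field K] (n : ℕ) (i : Fin 3) : (P n (pt K) i).natDegree ≤ n + 1 := by
  have h := fun i => pt_deg (K := K) i
  have h' : ∀ i, (- pt K i).natDegree ≤ 1 := fun i => by rw [natDegree_neg]; exact h i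
  fin_cases i
  · simp only [P, Fin.zero_eta, Matrix.cons_val_zero]
    rw [natDegree_sign]
    exact natDegree_S _ _ _ (h _) (h' _)
  · simp only [P, Fin.mk_one, Matrix.cons_val_one, Matrix.cons_val_zero]
    rw [natDegree_sign]
    refine (natDegree_mul_le).trans ?_
    have := natDegree_S (K := K) n (n + 1) (n + 1) (h' 2) (h 0)
    have := h 1
    omega
  · simp only [P, Fin.reduceFinMk, Matrix.cons_val]
    rw [natDegree_sign]
    exact natDegree_S _ _ _ (h _) (h' _)

lemma natDegree_Q {K : Type*} [Field K] (n : ℕ) (i : Fin 3) : (Q n (pt K) i).natDegree ≤ n + 1 := by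
  have h := fun i => pt_deg (K := K) i
  have h' : ∀ i, (- pt K i).natDegree ≤ 1 := fun i => by rw [natDegree_neg]; exact h i
  fin_cases i
  · simp only [Q, Fin.zero_eta, Matrix.cons_val_zero]
    rw [natDegree_sign]
    refine (natDegree_mul_le).trans ?_
    have := natDegree_S (K := K) n (n + 1) (n + 1) (h 2) (h' 1)
    have := h 0
    omega
  · simp only [Q, Fin.mk_one, Matrix.cons_val_one, Matrix.cons_val_zero]
    rw [natDegree_sign]
    exact natDegree_S _ _ _ (h' _) (h _)
  · simp only [Q, Fin.reduceFinMk, Matrix.cons_val]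
    rw [natDegree_sign]
    exact natDegree_S _ _ _ (h _) (h' _)

/-- The minor is a constant. -/
lemma minor_const (K : Type*) [Field K] (n : ℕ) :
    P n (pt K) 0 * Q n (pt K) 1 - P n (pt K) 1 * Q n (pt K) 0 =
      C ((P n (pt K) 0 * Q n (pt K) 1 - P n (pt K) 1 * Q n (pt K) 0).eval 0) := by
  set D := P n (pt K) 0 * Q n (pt K) 1 - P n (pt K) 1 * Q n (pt K) 0 with hD
  have h1 := P_orth_poly K n
  have h2 := Q_orth_poly K n
  have h3 : P n (pt K) 1 * Q n (pt K) 2 - P n (pt K) 2 * Q n (pt K) 1 =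
      X ^ (2 * (n + 1)) * D := by
    rw [hD]
    linear_combination P n (pt K) 1 * h2 - Q n (pt K) 1 * h1
  have h4 : (P n (pt K) 1 * Q n (pt K) 2 - P n (pt K) 2 * Q n (pt K) 1).natDegree ≤
      2 * (n + 1) := by
    refine (natDegree_sub_le _ _).trans (max_le ?_ ?_) <;>
    · refine (natDegree_mul_le).trans ?_
      have := natDegree_P (K := K) n 1
      have := natDegree_P (K := K) n 2
      have := natDegree_Q (K := K) n 1
      have := natDegree_Q (K := K) n 2
      omega
  have h5 : D.natDegree = 0 := by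
    by_cases hD0 : D = 0
    · simp [hD0]
    · rw [h3, natDegree_mul (pow_ne_zero _ X_ne_zero) hD0, natDegree_X_pow] at h4
      omega
  obtain ⟨c, hc⟩ := natDegree_eq_zero.1 h5
  rw [← hc]
  simp

lemma S_pos {K : Type*} [Field K] [CharZero K] (n q r : ℕ) : S n q r (-1 : K) (-1) ≠ 0 := by
  have h : S n q r (-1 : K) (-1) = (-1) ^ n *
      ((∑ ij ∈ antidiagonal n, Nat.choose (q + ij.1) q * Nat.choose (r + ij.2) r : ℕ) : K) := by
    unfold S
    rw [Nat.cast_sum, Finset.mul_sum]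
    refine Finset.sum_congr rfl fun ij hij => ?_
    rw [Finset.HasAntidiagonal.mem_antidiagonal] at hij
    rw [← hij, ← pow_add, add_comm ij.2, Nat.cast_mul]
    ring
  rw [h]
  refine mul_ne_zero (pow_ne_zero _ (by norm_num)) ?_
  rw [Nat.cast_ne_zero]
  apply ne_of_gt
  apply Finset.sum_pos
  · intro ij _
    exact Nat.mul_pos (Nat.choose_pos (by omega)) (Nat.choose_pos (by omega))
  · exact ⟨(0, n), by simp⟩

lemma S_zero {K : Type*} [Field K] [CharZero K] (n q r : ℕ) : S n q r (1 : K) 0 ≠ 0 := by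
  have h : S n q r (1 : K) 0 = (Nat.choose (r + n) r : K) := by
    unfold S
    rw [Finset.sum_eq_single (0, n)]
    · simp
    · intro ij hij hne
      rw [Finset.HasAntidiagonal.mem_antidiagonal] at hij
      have : ij.1 ≠ 0 := by
        intro h0
        apply hne
        ext <;> simp <;> omega
      simp [this]
    · intro h
      exact absurd (by simp) h
  rw [h, Nat.cast_ne_zero]
  exact ne_of_gt (Nat.choose_pos (by omega))

/-- Independence at every point. -/
theorem minor_ne {K : Type*} [Field K] [CharZero K] (n : ℕ) (t : K) :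
    P n ![t, 1 - t, -1] 0 * Q n ![t, 1 - t, -1] 1 - P n ![t, 1 - t, -1] 1 * Q n ![t, 1 - t, -1] 0
      ≠ 0 := by
  have hev : ∀ t : K, (P n (pt K) 0 * Q n (pt K) 1 - P n (pt K) 1 * Q n (pt K) 0).eval t =
      P n ![t, 1 - t, -1] 0 * Q n ![t, 1 - t, -1] 1 -
        P n ![t, 1 - t, -1] 1 * Q n ![t, 1 - t, -1] 0 := by
    intro t
    have e : (fun j => evalRingHom t (pt K j)) = ![t, 1 - t, -1] := by
      ext j
      fin_cases j <;> simp [pt]
    rw [← coe_evalRingHom, map_sub, map_mul, map_mul, map_P, map_P, map_Q, map_Q, e]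
  rw [← hev, minor_const K n, eval_C, hev]
  have h1 : P n ![(0 : K), 1 - 0, -1] 0 ≠ 0 := by
    simp only [P, Matrix.cons_val_zero, Matrix.cons_val_one, Matrix.cons_val, sub_zero]
    exact mul_ne_zero (pow_ne_zero _ (by norm_num)) (S_pos _ _ _)
  have h2 : Q n ![(0 : K), 1 - 0, -1] 1 ≠ 0 := by
    simp only [Q, Matrix.cons_val_zero, Matrix.cons_val_one, Matrix.cons_val, neg_neg]
    exact mul_ne_zero (pow_ne_zero _ (by norm_num)) (S_zero _ _ _)
  have h3 : Q n ![(0 : K), 1 - 0, -1] 0 = 0 := by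
    simp [Q]
  rw [h3, mul_zero, sub_zero]
  exact mul_ne_zero h1 h2

end Pool.Agent.Helper19.UE
end

/- Helper12.LVF.H19.UE.Local -/
section
/-!
Local bounds for the Pade triples and the global height inequality.
-/

open Finset.HasAntidiagonal (antidiagonal)

namespace Pool.Agent.Helper19.UE

variable {K : Type*} [Field K]

lemma abv_S_le (v : AbsoluteValue K ℝ) (n q r : ℕ) {u w : K} {M : ℝ} (hu : v u ≤ M)
    (hw : v w ≤ M) : v (S n q r u w) ≤ 2 ^ (q + r + 2 * n) * M ^ n := by
  have hM : 0 ≤ M := (v.nonneg u).trans hu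
  unfold S
  calc v (∑ ij ∈ antidiagonal n, ((Nat.choose (q + ij.1) q : K) * (Nat.choose (r + ij.2) r : K)) *
        (u ^ ij.2 * w ^ ij.1))
      ≤ ∑ ij ∈ antidiagonal n, v (((Nat.choose (q + ij.1) q : K) * (Nat.choose (r + ij.2) r : K)) *
        (u ^ ij.2 * w ^ ij.1)) := v.sum_le _ _
    _ ≤ ∑ ij ∈ antidiagonal n, 2 ^ (q + r + n) * M ^ n := by
        refine Finset.sum_le_sum fun ij hij => ?_
        rw [Finset.HasAntidiagonal.mem_antidiagonal] at hij
        rw [map_mul, map_mul, map_mul, map_pow, map_pow]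
        have h1 : v ((Nat.choose (q + ij.1) q : ℕ) : K) ≤ 2 ^ (q + ij.1) :=
          (v.apply_nat_le_self _).trans (by exact_mod_cast Nat.choose_le_two_pow _ _)
        have h2 : v ((Nat.choose (r + ij.2) r : ℕ) : K) ≤ 2 ^ (r + ij.2) :=
          (v.apply_nat_le_self _).trans (by exact_mod_cast Nat.choose_le_two_pow _ _)
        calc v ((Nat.choose (q + ij.1) q : ℕ) : K) * v ((Nat.choose (r + ij.2) r : ℕ) : K) *
              (v u ^ ij.2 * v w ^ ij.1)
            ≤ (2 ^ (q + ij.1) * 2 ^ (r + ij.2)) * (M ^ ij.2 * M ^ ij.1) := by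
              gcongr
          _ = 2 ^ (q + r + n) * M ^ n := by
              rw [← pow_add, ← pow_add, ← hij]
              congr 2 <;> ring
    _ = (n + 1) * (2 ^ (q + r + n) * M ^ n) := by
        rw [Finset.sum_const, Finset.Nat.card_antidiagonal, nsmul_eq_mul]
        push_cast
        ring
    _ ≤ 2 ^ n * (2 ^ (q + r + n) * M ^ n) := by
        gcongr
        exact_mod_cast Nat.lt_two_pow_self
    _ = 2 ^ (q + r + 2 * n) * M ^ n := by ring

lemma nonarch_S_le {v : AbsoluteValue K ℝ} (hv : IsNonarchimedean v) (n q r : ℕ) {u w : K} {M : ℝ}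
    (hu : v u ≤ M) (hw : v w ≤ M) : v (S n q r u w) ≤ M ^ n := by
  have hM : 0 ≤ M := (v.nonneg u).trans hu
  unfold S
  obtain ⟨ij, hij, h⟩ := hv.finset_image_add_of_nonempty
    (fun ij : ℕ × ℕ => ((Nat.choose (q + ij.1) q : K) * (Nat.choose (r + ij.2) r : K)) *
        (u ^ ij.2 * w ^ ij.1)) (t := antidiagonal n) ⟨(0, n), by simp⟩
  refine h.trans ?_
  rw [Finset.HasAntidiagonal.mem_antidiagonal] at hij
  rw [map_mul, map_mul, map_mul, map_pow, map_pow]
  have h1 : v ((Nat.choose (q + ij.1) q : ℕ) : K) ≤ 1 := hv.apply_natCast_le_one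
  have h2 : v ((Nat.choose (r + ij.2) r : ℕ) : K) ≤ 1 := hv.apply_natCast_le_one
  calc v ((Nat.choose (q + ij.1) q : ℕ) : K) * v ((Nat.choose (r + ij.2) r : ℕ) : K) *
        (v u ^ ij.2 * v w ^ ij.1)
      ≤ (1 * 1) * (M ^ ij.2 * M ^ ij.1) := by (clear * - h1 h2 hu hw hM; gcongr)
    _ = M ^ n := by
        rw [← pow_add, ← hij, add_comm ij.2]
        ring

lemma abv_sign (v : AbsoluteValue K ℝ) (m : ℕ) (f : K) : v ((-1) ^ m * f) = v f := by
  rcases neg_one_pow_eq_or K m with h | h <;> simp [h]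

lemma abv_P_le (v : AbsoluteValue K ℝ) (n : ℕ) {x : Fin 3 → K} {M : ℝ} (hx : ∀ i, v (x i) ≤ M)
    (i : Fin 3) : v (P n x i) ≤ 16 ^ (n + 1) * M ^ (n + 1) := by
  have hM : 0 ≤ M := (v.nonneg _).trans (hx 0)
  have hx' : ∀ i, v (- x i) ≤ M := fun i => by rw [map_neg_eq_map]; exact hx i
  have e : ((16 : ℝ)) ^ (n + 1) = 2 ^ (4 * (n + 1)) := by rw [pow_mul]; norm_num
  fin_cases i
  · simp only [P, Fin.zero_eta, Matrix.cons_val_zero]
    rw [abv_sign]
    refine (abv_S_le v _ _ _ (hx _) (hx' _)).trans ?_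
    rw [e]
    gcongr
    · norm_num
    · omega
  · simp only [P, Fin.mk_one, Matrix.cons_val_one, Matrix.cons_val_zero]
    rw [abv_sign, map_mul]
    calc v (x 1) * v (S n (n + 1) (n + 1) (-x 2) (x 0))
        ≤ M * (2 ^ (n + 1 + (n + 1) + 2 * n) * M ^ n) := by
          gcongr
          · exact hx 1
          · exact abv_S_le v _ _ _ (hx' _) (hx _)
      _ = 2 ^ (n + 1 + (n + 1) + 2 * n) * M ^ (n + 1) := by ring
      _ ≤ 16 ^ (n + 1) * M ^ (n + 1) := by
          rw [e]
          gcongr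
          · norm_num
          · omega
  · simp only [P, Fin.reduceFinMk, Matrix.cons_val]
    rw [abv_sign]
    refine (abv_S_le v _ _ _ (hx _) (hx' _)).trans ?_
    rw [e]
    gcongr
    · norm_num
    · omega

lemma abv_Q_le (v : AbsoluteValue K ℝ) (n : ℕ) {x : Fin 3 → K} {M : ℝ} (hx : ∀ i, v (x i) ≤ M)
    (i : Fin 3) : v (Q n x i) ≤ 16 ^ (n + 1) * M ^ (n + 1) := by
  have hM : 0 ≤ M := (v.nonneg _).trans (hx 0)
  have hx' : ∀ i, v (- x i) ≤ M := fun i => by rw [map_neg_eq_map]; exact hx i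
  have e : ((16 : ℝ)) ^ (n + 1) = 2 ^ (4 * (n + 1)) := by rw [pow_mul]; norm_num
  fin_cases i
  · simp only [Q, Fin.zero_eta, Matrix.cons_val_zero]
    rw [abv_sign, map_mul]
    calc v (x 0) * v (S n (n + 1) (n + 1) (x 2) (-x 1))
        ≤ M * (2 ^ (n + 1 + (n + 1) + 2 * n) * M ^ n) := by
          gcongr
          · exact hx 0
          · exact abv_S_le v _ _ _ (hx _) (hx' _)
      _ = 2 ^ (n + 1 + (n + 1) + 2 * n) * M ^ (n + 1) := by ring
      _ ≤ 16 ^ (n + 1) * M ^ (n + 1) := by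
          rw [e]
          gcongr
          · norm_num
          · omega
  · simp only [Q, Fin.mk_one, Matrix.cons_val_one, Matrix.cons_val_zero]
    rw [abv_sign]
    refine (abv_S_le v _ _ _ (hx' _) (hx _)).trans ?_
    rw [e]
    gcongr
    · norm_num
    · omega
  · simp only [Q, Fin.reduceFinMk, Matrix.cons_val]
    rw [abv_sign]
    refine (abv_S_le v _ _ _ (hx _) (hx' _)).trans ?_
    rw [e]
    gcongr
    · norm_num
    · omega

lemma nonarch_P_le {v : AbsoluteValue K ℝ} (hv : IsNonarchimedean v) (n : ℕ) {x : Fin 3 → K} {M : ℝ}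
    (hx : ∀ i, v (x i) ≤ M) (i : Fin 3) : v (P n x i) ≤ M ^ (n + 1) := by
  have hM : 0 ≤ M := (v.nonneg _).trans (hx 0)
  have hx' : ∀ i, v (- x i) ≤ M := fun i => by rw [map_neg_eq_map]; exact hx i
  fin_cases i
  · simp only [P, Fin.zero_eta, Matrix.cons_val_zero]
    rw [abv_sign]
    exact nonarch_S_le hv _ _ _ (hx _) (hx' _)
  · simp only [P, Fin.mk_one, Matrix.cons_val_one, Matrix.cons_val_zero]
    rw [abv_sign, map_mul, pow_succ']
    gcongr
    · exact hx 1
    · exact nonarch_S_le hv _ _ _ (hx' _) (hx _)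
  · simp only [P, Fin.reduceFinMk, Matrix.cons_val]
    rw [abv_sign]
    exact nonarch_S_le hv _ _ _ (hx _) (hx' _)

lemma nonarch_Q_le {v : AbsoluteValue K ℝ} (hv : IsNonarchimedean v) (n : ℕ) {x : Fin 3 → K} {M : ℝ}
    (hx : ∀ i, v (x i) ≤ M) (i : Fin 3) : v (Q n x i) ≤ M ^ (n + 1) := by
  have hM : 0 ≤ M := (v.nonneg _).trans (hx 0)
  have hx' : ∀ i, v (- x i) ≤ M := fun i => by rw [map_neg_eq_map]; exact hx i
  fin_cases i
  · simp only [Q, Fin.zero_eta, Matrix.cons_val_zero]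
    rw [abv_sign, map_mul, pow_succ']
    gcongr
    · exact hx 0
    · exact nonarch_S_le hv _ _ _ (hx _) (hx' _)
  · simp only [Q, Fin.mk_one, Matrix.cons_val_one, Matrix.cons_val_zero]
    rw [abv_sign]
    exact nonarch_S_le hv _ _ _ (hx' _) (hx _)
  · simp only [Q, Fin.reduceFinMk, Matrix.cons_val]
    rw [abv_sign]
    exact nonarch_S_le hv _ _ _ (hx _) (hx' _)

open Height AdmissibleAbsValues Multiset Function

/-- Copy of a private lemma of Mathlib. -/
lemma finSupp_iSup [AdmissibleAbsValues K] {ι : Type*} [Finite ι] {x : ι → K} (hx : x ≠ 0) :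
    (fun v : nonarchAbsVal (K := K) ↦ ⨆ i, v.val (x i)).HasFiniteMulSupport := by
  have : Nonempty {j // x j ≠ 0} := nonempty_subtype.mpr <| ne_iff.mp hx
  suffices (fun v : nonarchAbsVal (K := K) ↦ ⨆ i : {j // x j ≠ 0}, v.val (x i)).HasFiniteMulSupport by
    convert! this with v
    obtain ⟨i, hi⟩ : ∃ j, x j ≠ 0 := Function.ne_iff.mp hx
    have : Nonempty ι := .intro i
    refine le_antisymm (ciSup_le fun j ↦ ?_) (ciSup_le fun ⟨j, hj⟩ ↦ Finite.le_ciSup_of_le j le_rfl)
    rcases eq_or_ne (x j) 0 with h | h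
    · rw [h, v.val.map_zero]
      exact Real.iSup_nonneg' ⟨⟨i, hi⟩, v.val.nonneg ..⟩
    · exact Finite.le_ciSup_of_le ⟨j, h⟩ le_rfl
  fun_prop (disch := grind)

/-- From local bounds to a height bound. -/
lemma mulHeight_le_of_local [AdmissibleAbsValues K] {ι ι' κ : Type*} [Finite ι] [Finite ι']
    [Nonempty ι'] [Finite κ] {x : ι → K} {z : κ → K} {w : ι' → K} (hx : x ≠ 0) (hz : z ≠ 0)
    (hw : w ≠ 0) {C : ℝ} (hC : 0 ≤ C) (N : ℕ)
    (harch : ∀ v ∈ archAbsVal (K := K), ∀ j, v (w j) ≤ C * ((⨆ k, v (z k)) * (⨆ i, v (x i)) ^ N))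
    (hna : ∀ v : nonarchAbsVal (K := K), ∀ j,
      v.val (w j) ≤ (⨆ k, v.val (z k)) * (⨆ i, v.val (x i)) ^ N) :
    mulHeight w ≤ C ^ totalWeight K * mulHeight z * mulHeight x ^ N := by
  simp only [mulHeight_eq hx, mulHeight_eq hz, mulHeight_eq hw]
  have HH₁ (v : AbsoluteValue K ℝ) : 0 ≤ (⨆ i, v (x i)) ^ N :=
    pow_nonneg (Real.iSup_nonneg_of_nonnegHomClass v _) N
  have HH₂ (v : AbsoluteValue K ℝ) : 0 ≤ (⨆ i, v (z i)) := Real.iSup_nonneg_of_nonnegHomClass v _
  have h1 : (archAbsVal.map (fun v : AbsoluteValue K ℝ ↦ ⨆ i, v (w i))).prod ≤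
      C ^ totalWeight K * (archAbsVal.map (fun v : AbsoluteValue K ℝ ↦ ⨆ i, v (z i))).prod *
        (archAbsVal.map (fun v : AbsoluteValue K ℝ ↦ ⨆ i, v (x i))).prod ^ N := by
    have e : C ^ totalWeight K = (archAbsVal.map (fun _ : AbsoluteValue K ℝ ↦ C)).prod := by
      rw [Multiset.map_const', Multiset.prod_replicate, totalWeight]
    rw [e, ← prod_map_pow, ← prod_map_mul, ← prod_map_mul]
    refine prod_map_le_prod_map₀ _ _ (fun _ _ ↦ Real.iSup_nonneg_of_nonnegHomClass ..)
      fun v hv ↦ ciSup_le fun j ↦ ?_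
    rw [mul_assoc]
    exact harch v hv j
  have h2 : ∏ᶠ v : nonarchAbsVal (K := K), ⨆ i, v.val (w i) ≤
      (∏ᶠ v : nonarchAbsVal (K := K), ⨆ i, v.val (z i)) *
        (∏ᶠ v : nonarchAbsVal (K := K), ⨆ i, v.val (x i)) ^ N := by
    have F := finSupp_iSup hx
    have F' := finSupp_iSup hz
    have F'' := finSupp_iSup hw
    rw [finprod_pow F, ← finprod_mul_distrib (by fun_prop) (by fun_prop)]
    exact finprod_le_finprod (by fun_prop)
      (fun _ ↦ Real.iSup_nonneg_of_nonnegHomClass ..) (by fun_prop) fun v ↦ ciSup_le (hna v)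
  have H₂ : 0 ≤ (archAbsVal.map (fun v : AbsoluteValue K ℝ ↦ ⨆ i, v (x i))).prod :=
    prod_map_nonneg fun _ _ ↦ Real.iSup_nonneg_of_nonnegHomClass ..
  have H₂' : 0 ≤ (archAbsVal.map (fun v : AbsoluteValue K ℝ ↦ ⨆ i, v (z i))).prod :=
    prod_map_nonneg fun _ _ ↦ Real.iSup_nonneg_of_nonnegHomClass ..
  have H₃ : 0 ≤ ∏ᶠ v : nonarchAbsVal (K := K), ⨆ i, v.val (w i) :=
    finprod_nonneg fun _ ↦ Real.iSup_nonneg_of_nonnegHomClass ..
  calc _ ≤ (C ^ totalWeight K * (archAbsVal.map (fun v : AbsoluteValue K ℝ ↦ ⨆ i, v (z i))).prod *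
        (archAbsVal.map (fun v : AbsoluteValue K ℝ ↦ ⨆ i, v (x i))).prod ^ N) *
        ((∏ᶠ v : nonarchAbsVal (K := K), ⨆ i, v.val (z i)) *
        (∏ᶠ v : nonarchAbsVal (K := K), ⨆ i, v.val (x i)) ^ N) := by
        (clear * - h1 h2 H₃ hC H₂' H₂; gcongr)
    _ = _ := by ring

end Pool.Agent.Helper19.UE
end

/- Helper12.LVF.H19.UE.Key -/
section
/-!
The key inequality: if `z` is orthogonal to `x ^ (2 (n + 1))`, `x = (t, 1 - t, -1)`, then
`H(x) ^ (n + 1) ≤ C ^ (n + 1) H(z)`.
-/

namespace Pool.Agent.Helper19.UE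

variable {K : Type*} [Field K]

/-- Cross product. -/
def cr (z R : Fin 3 → K) : Fin 3 → K :=
  ![z 1 * R 2 - z 2 * R 1, z 2 * R 0 - z 0 * R 2, z 0 * R 1 - z 1 * R 0]

lemma cr_eq {y z R : Fin 3 → K} (hy : y 2 = 1) (hz : y 0 * z 0 + y 1 * z 1 + y 2 * z 2 = 0)
    (hR : y 0 * R 0 + y 1 * R 1 + y 2 * R 2 = 0) : cr z R = (cr z R 2) • y := by
  rw [hy] at hz hR
  ext i
  fin_cases i
  · simp only [cr, Fin.zero_eta, Matrix.cons_val_zero, Matrix.cons_val, Pi.smul_apply, smul_eq_mul]
    linear_combination z 1 * hR - R 1 * hz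
  · simp only [cr, Fin.mk_one, Matrix.cons_val_one, Matrix.cons_val_zero, Matrix.cons_val,
      Pi.smul_apply, smul_eq_mul]
    linear_combination R 0 * hz - z 0 * hR
  · simp [hy]

open Height AdmissibleAbsValues

variable [AdmissibleAbsValues K]

lemma key_step (n : ℕ) {x z R : Fin 3 → K} (hx2 : x 2 = -1) (hz0 : z ≠ 0)
    (hz : x 0 ^ (2 * (n + 1)) * z 0 + x 1 ^ (2 * (n + 1)) * z 1 + x 2 ^ (2 * (n + 1)) * z 2 = 0)
    (hR : x 0 ^ (2 * (n + 1)) * R 0 + x 1 ^ (2 * (n + 1)) * R 1 + x 2 ^ (2 * (n + 1)) * R 2 = 0)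
    (hRa : ∀ (v : AbsoluteValue K ℝ) {M : ℝ}, (∀ i, v (x i) ≤ M) →
      ∀ i, v (R i) ≤ 16 ^ (n + 1) * M ^ (n + 1))
    (hRn : ∀ (v : AbsoluteValue K ℝ), IsNonarchimedean v → ∀ {M : ℝ}, (∀ i, v (x i) ≤ M) →
      ∀ i, v (R i) ≤ M ^ (n + 1))
    (hw : cr z R ≠ 0) :
    mulHeight x ^ (n + 1) ≤ (2 * 16 ^ (n + 1)) ^ totalWeight K * mulHeight z := by
  have hy : (x ^ (2 * (n + 1))) 2 = 1 := by
    rw [Pi.pow_apply, hx2, pow_mul]
    simp
  have hcr := cr_eq (y := x ^ (2 * (n + 1))) hy (by simpa [Pi.pow_apply] using hz)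
    (by simpa [Pi.pow_apply] using hR)
  have h2 : cr z R 2 ≠ 0 := by
    intro h
    rw [h, zero_smul] at hcr
    exact hw hcr
  have hx : x ≠ 0 := by
    intro h
    rw [h] at hx2
    simp at hx2
  have h1 : mulHeight (cr z R) = mulHeight x ^ (2 * (n + 1)) := by
    rw [hcr, mulHeight_smul_eq_mulHeight _ h2, mulHeight_pow]
  have hsup : ∀ (v : AbsoluteValue K ℝ) (y : Fin 3 → K) (i : Fin 3), v (y i) ≤ ⨆ j, v (y j) :=
    fun v y i => Finite.le_ciSup_of_le i le_rfl
  have h3 : mulHeight (cr z R) ≤ (2 * 16 ^ (n + 1)) ^ totalWeight K * mulHeight z *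
      mulHeight x ^ (n + 1) := by
    refine mulHeight_le_of_local hx hz0 hw (by positivity) (n + 1) ?_ ?_
    · intro v _ j
      have hZ := hsup v z
      have hRR := hRa v (hsup v x)
      set Z := ⨆ j, v (z j)
      set M := ⨆ j, v (x j)
      have hZ0 : 0 ≤ Z := (v.nonneg _).trans (hZ 0)
      have hM0 : 0 ≤ M := (v.nonneg _).trans (hsup v x 0)
      have key : ∀ a b c d : Fin 3, v (z a * R b - z c * R d) ≤
          2 * 16 ^ (n + 1) * (Z * M ^ (n + 1)) := by
        intro a b c d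
        calc v (z a * R b - z c * R d) ≤ v (z a * R b) + v (z c * R d) := by
              rw [sub_eq_add_neg]
              refine (v.add_le _ _).trans ?_
              rw [map_neg_eq_map]
          _ ≤ Z * (16 ^ (n + 1) * M ^ (n + 1)) + Z * (16 ^ (n + 1) * M ^ (n + 1)) := by
              rw [map_mul, map_mul]
              have := v.nonneg (R b)
              have := v.nonneg (R d)
              gcongr
              · exact hZ a
              · exact hRR b
              · exact hZ c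
              · exact hRR d
          _ = _ := by ring
      fin_cases j
      · exact key 1 2 2 1
      · exact key 2 0 0 2
      · exact key 0 1 1 0
    · intro v j
      have hv := AdmissibleAbsValues.isNonarchimedean v.val v.prop
      have hZ := hsup v.val z
      have hRR := hRn v.val hv (hsup v.val x)
      set Z := ⨆ j, v.val (z j)
      set M := ⨆ j, v.val (x j)
      have hZ0 : 0 ≤ Z := (v.val.nonneg _).trans (hZ 0)
      have hM0 : 0 ≤ M := (v.val.nonneg _).trans (hsup v.val x 0)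
      have key : ∀ a b c d : Fin 3, v.val (z a * R b - z c * R d) ≤ Z * M ^ (n + 1) := by
        intro a b c d
        rw [sub_eq_add_neg]
        refine (hv _ _).trans ?_
        rw [map_neg_eq_map, map_mul, map_mul]
        have := v.val.nonneg (R b)
        have := v.val.nonneg (R d)
        refine max_le ?_ ?_
        · gcongr
          · exact hZ a
          · exact hRR b
        · gcongr
          · exact hZ c
          · exact hRR d
      fin_cases j
      · exact key 1 2 2 1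
      · exact key 2 0 0 2
      · exact key 0 1 1 0
  have hpos : 0 < mulHeight x ^ (n + 1) := pow_pos (mulHeight_pos x) _
  rw [h1] at h3
  have h4 : mulHeight x ^ (n + 1) * mulHeight x ^ (n + 1) ≤
      ((2 * 16 ^ (n + 1)) ^ totalWeight K * mulHeight z) * mulHeight x ^ (n + 1) := by
    rw [← pow_add, ← two_mul]
    exact h3
  exact le_of_mul_le_mul_right h4 hpos

/-- The key inequality. -/
theorem key [CharZero K] (n : ℕ) {t : K} (ht0 : t ≠ 0) (ht1 : t ≠ 1) {z : Fin 3 → K} (hz0 : z ≠ 0)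
    (hz : t ^ (2 * (n + 1)) * z 0 + (1 - t) ^ (2 * (n + 1)) * z 1 + z 2 = 0) :
    mulHeight ![t, 1 - t, -1] ^ (n + 1) ≤ (2 * 16 ^ (n + 1)) ^ totalWeight K * mulHeight z := by
  have hsum : (![t, 1 - t, -1] : Fin 3 → K) 0 + (![t, 1 - t, -1] : Fin 3 → K) 1 +
      (![t, 1 - t, -1] : Fin 3 → K) 2 = 0 := by simp
  have h1 : (![t, 1 - t, -1] : Fin 3 → K) 1 ≠ 0 := by
    simpa using sub_ne_zero.2 (Ne.symm ht1)
  have h2 : (![t, 1 - t, -1] : Fin 3 → K) 2 ≠ 0 := by simp
  have hP := P_orth_field n ![t, 1 - t, -1] hsum (by simpa using ht0) h1 h2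
  have hQ := Q_orth_field n ![t, 1 - t, -1] hsum (by simpa using ht0) h1 h2
  have hz' : (![t, 1 - t, -1] : Fin 3 → K) 0 ^ (2 * (n + 1)) * z 0 +
      (![t, 1 - t, -1] : Fin 3 → K) 1 ^ (2 * (n + 1)) * z 1 +
      (![t, 1 - t, -1] : Fin 3 → K) 2 ^ (2 * (n + 1)) * z 2 = 0 := by
    simp only [Matrix.cons_val_zero, Matrix.cons_val_one, Matrix.cons_val]
    rw [pow_mul (-1 : K)]
    simpa using hz
  by_cases hp : cr z (P n ![t, 1 - t, -1]) = 0
  · by_cases hq : cr z (Q n ![t, 1 - t, -1]) = 0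
    · exfalso
      apply minor_ne n t
      set p := P n ![t, 1 - t, -1]
      set q := Q n ![t, 1 - t, -1]
      have p0 := congrFun hp 0
      have p1 := congrFun hp 1
      have p2 := congrFun hp 2
      have q0 := congrFun hq 0
      have q1 := congrFun hq 1
      have q2 := congrFun hq 2
      simp only [cr, Matrix.cons_val_zero, Matrix.cons_val_one, Matrix.cons_val, Pi.zero_apply]
        at p0 p1 p2 q0 q1 q2
      have e0 : z 0 * (p 0 * q 1 - p 1 * q 0) = 0 := by
        linear_combination p 0 * q2 - q 0 * p2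
      have e1 : z 1 * (p 0 * q 1 - p 1 * q 0) = 0 := by
        linear_combination p 1 * q2 - q 1 * p2
      by_contra hne
      have z0 : z 0 = 0 := (mul_eq_zero.1 e0).resolve_right hne
      have z1 : z 1 = 0 := (mul_eq_zero.1 e1).resolve_right hne
      have e2 : z 2 * (p 0 * q 1 - p 1 * q 0) = 0 := by
        linear_combination q 1 * p1 + q 0 * p0 + p 2 * q 1 * z0 - p 2 * q 0 * z1
      apply hz0
      ext i
      fin_cases i
      · exact z0
      · exact z1
      · exact (mul_eq_zero.1 e2).resolve_right hne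
    · exact key_step n (by simp) hz0 hz' hQ (fun v M h => abv_Q_le v n h)
        (fun v hv M h => nonarch_Q_le hv n h) hq
  · exact key_step n (by simp) hz0 hz' hP (fun v M h => abv_P_le v n h)
      (fun v hv M h => nonarch_P_le hv n h) hp

end Pool.Agent.Helper19.UE
end

/- Helper12.LVF.H19.UE.Final -/
section
/-!
Finiteness for the unit equation over a field with a Northcott height.
-/

namespace Pool.Agent.Helper19.UE

open Height AdmissibleAbsValues

variable {K : Type*} [Field K] [AdmissibleAbsValues K]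

lemma le_h1_arch {v : AbsoluteValue K ℝ} (hv : v ∈ archAbsVal (K := K)) (x : K) :
    v x ≤ mulHeight₁ x := by
  classical
  rw [mulHeight₁_eq]
  obtain ⟨t, ht⟩ := Multiset.exists_cons_of_mem hv
  rw [ht, Multiset.map_cons, Multiset.prod_cons]
  have h1 : 1 ≤ (t.map fun v ↦ max (v x) 1).prod := Multiset.one_le_prod_map fun _ _ ↦ le_max_right ..
  have h2 : 1 ≤ ∏ᶠ v : nonarchAbsVal (K := K), max (v.val x) 1 :=
    one_le_finprod fun _ ↦ le_max_right ..
  have h3 : v x ≤ max (v x) 1 := le_max_left _ _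
  have h4 : 0 ≤ max (v x) 1 := zero_le_one.trans (le_max_right _ _)
  calc v x ≤ max (v x) 1 := h3
    _ = max (v x) 1 * 1 * 1 := by ring
    _ ≤ _ := by (clear * - h1 h2; gcongr)

lemma le_h1_nonarch (v : nonarchAbsVal (K := K)) (x : K) : v.val x ≤ mulHeight₁ x := by
  classical
  by_cases hx : x = 0
  · rw [hx, map_zero]
    exact zero_le_one.trans (one_le_mulHeight₁ _)
  rw [mulHeight₁_eq]
  have h1 : 1 ≤ (archAbsVal.map fun v : AbsoluteValue K ℝ ↦ max (v x) 1).prod :=
    Multiset.one_le_prod_map fun _ _ ↦ le_max_right ..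
  have hf : (fun v : nonarchAbsVal (K := K) ↦ max (v.val x) 1).HasFiniteMulSupport := by
    have := AdmissibleAbsValues.hasFiniteMulSupport hx
    refine this.subset fun w hw => ?_
    rw [Function.mem_mulSupport] at hw ⊢
    intro h
    apply hw
    rw [h, max_self]
  have h2 : max (v.val x) 1 ≤ ∏ᶠ v : nonarchAbsVal (K := K), max (v.val x) 1 := by
    have hs : (fun v : nonarchAbsVal (K := K) ↦ max (v.val x) 1).mulSupport ⊆
        ((insert v hf.toFinset : Finset _) : Set _) := by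
      intro w hw
      rw [Finset.coe_insert]
      exact Or.inr (by simpa using hw)
    rw [finprod_eq_finsetProd_of_mulSupport_subset _ hs,
      ← Finset.mul_prod_erase _ _ (Finset.mem_insert_self v _)]
    have : 1 ≤ ∏ w ∈ (insert v hf.toFinset).erase v, max (w.val x) 1 :=
      Finset.one_le_prod fun _ _ => le_max_right _ _
    calc max (v.val x) 1 = max (v.val x) 1 * 1 := by ring
      _ ≤ _ := by
        have := (zero_le_one (α := ℝ)).trans (le_max_right (v.val x) 1)
        gcongr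
  calc v.val x ≤ max (v.val x) 1 := le_max_left _ _
    _ = 1 * max (v.val x) 1 := by ring
    _ ≤ _ := by
        have := (zero_le_one (α := ℝ)).trans (le_max_right (v.val x) 1)
        gcongr

lemma h1_le (X : Fin 3 → K) (h2 : X 2 = -1) (i : Fin 3) : mulHeight₁ (X i) ≤ mulHeight X := by
  have h := mulHeight_comp_le ![i, 2] X
  have e : X ∘ ![i, 2] = -![-X i, 1] := by
    ext j
    fin_cases j
    · simp
    · simp [h2]
  rw [e, mulHeight_neg, ← mulHeight₁_eq_mulHeight, mulHeight₁_neg] at h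
  exact h

/-- Bound for the height of a triple by a bound at finitely many places. -/
lemma mulHeight_le_pow {ι : Type*} [Finite ι] [Nonempty ι] {z : ι → K} (hz : z ≠ 0)
    (S : Finset (nonarchAbsVal (K := K))) {E : ℝ} (hE : 0 < E)
    (ha : ∀ v ∈ archAbsVal (K := K), ∀ i, v (z i) ≤ E)
    (hS : ∀ v ∈ S, ∀ i, v.val (z i) ≤ E)
    (hn : ∀ v : nonarchAbsVal (K := K), v ∉ S → ∀ i, v.val (z i) ≤ 1) :
    mulHeight z ≤ E ^ (totalWeight K + S.card) := by
  classical
  rw [mulHeight_eq hz, pow_add]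
  have h1 : (archAbsVal.map (fun v : AbsoluteValue K ℝ ↦ ⨆ i, v (z i))).prod ≤
      E ^ totalWeight K := by
    have e : E ^ totalWeight K = (archAbsVal.map (fun _ : AbsoluteValue K ℝ ↦ E)).prod := by
      rw [Multiset.map_const', Multiset.prod_replicate, totalWeight]
    rw [e]
    exact Multiset.prod_map_le_prod_map₀ _ _ (fun _ _ ↦ Real.iSup_nonneg_of_nonnegHomClass ..)
      fun v hv ↦ ciSup_le fun j ↦ ha v hv j
  have h2 : ∏ᶠ v : nonarchAbsVal (K := K), ⨆ i, v.val (z i) ≤ E ^ S.card := by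
    have e : E ^ S.card = ∏ᶠ v : nonarchAbsVal (K := K), (if v ∈ S then E else 1) := by
      rw [finprod_eq_finsetProd_of_mulSupport_subset (s := S)]
      · rw [← Finset.prod_const]
        exact Finset.prod_congr rfl fun v hv => by rw [if_pos hv]
      · intro v hv
        rw [Function.mem_mulSupport] at hv
        by_contra h
        exact hv (if_neg (by simpa using h))
    rw [e]
    refine finprod_le_finprod (finSupp_iSup hz) (fun _ ↦ Real.iSup_nonneg_of_nonnegHomClass ..) ?_ ?_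
    · refine (S.finite_toSet).subset fun v hv => ?_
      rw [Function.mem_mulSupport] at hv
      by_contra h
      exact hv (if_neg (by simpa using h))
    · intro v
      dsimp only
      by_cases hv : v ∈ S
      · rw [if_pos hv]
        exact ciSup_le fun j ↦ hS v hv j
      · rw [if_neg hv]
        exact ciSup_le fun j ↦ hn v hv j
  have h3 : 0 ≤ ∏ᶠ v : nonarchAbsVal (K := K), ⨆ i, v.val (z i) :=
    finprod_nonneg fun _ ↦ Real.iSup_nonneg_of_nonnegHomClass ..
  (clear * - h1 h2 h3 hE; gcongr)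

end Pool.Agent.Helper19.UE
end

/- Helper12.LVF.H19.UE.Main -/
section
/-!
The unit equation `u + v = 1` has finitely many solutions in `S`-units.
-/

namespace Pool.Agent.Helper19.UE

open Height AdmissibleAbsValues

variable {K : Type*} [Field K] [AdmissibleAbsValues K]

/-- The point `(u, 1 - u, -1)`. -/
def tri (u : K) : Fin 3 → K := ![u, 1 - u, -1]

lemma tri_two (u : K) : tri u 2 = -1 := by simp [tri]

lemma tri_ne {u : K} (h0 : u ≠ 0) (h1 : u ≠ 1) (i : Fin 3) : tri u i ≠ 0 := by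
  fin_cases i
  · simpa [tri] using h0
  · simpa [tri] using sub_ne_zero.2 (Ne.symm h1)
  · simp [tri]

/-- The height of `(u, 1 - u, -1)`. -/
noncomputable def ht (u : K) : ℝ := Real.log (mulHeight (tri u))

lemma exp_ht (u : K) : Real.exp (ht u) = mulHeight (tri u) := Real.exp_log (mulHeight_pos _)

lemma ht_nonneg (u : K) : 0 ≤ ht u := Real.log_nonneg (one_le_mulHeight _)

/-- A place at which we look: archimedean, or nonarchimedean in `S`. -/
def Look (v : AbsoluteValue K ℝ) : Prop :=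
  v ∈ archAbsVal (K := K) ∨ v ∈ nonarchAbsVal (K := K)

lemma Look.le {v : AbsoluteValue K ℝ} (hv : Look v) (x : K) : v x ≤ mulHeight₁ x := by
  rcases hv with hv | hv
  · exact le_h1_arch hv x
  · exact le_h1_nonarch ⟨v, hv⟩ x

lemma abs_log_le {v : AbsoluteValue K ℝ} (hv : Look v) {u : K} (h0 : u ≠ 0) (h1 : u ≠ 1)
    (i : Fin 3) : |Real.log (v (tri u i))| ≤ ht u := by
  have hne := tri_ne h0 h1 i
  have hpos : 0 < v (tri u i) := v.pos hne
  have hb := h1_le (tri u) (tri_two u) i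
  rw [abs_le]
  constructor
  · have h := (hv.le (tri u i)⁻¹).trans_eq (mulHeight₁_inv _)
    rw [map_inv₀] at h
    have := Real.log_le_log (inv_pos.2 hpos) (h.trans hb)
    rw [Real.log_inv] at this
    have : -Real.log (v (tri u i)) ≤ ht u := this
    linarith only [this]
  · exact Real.log_le_log hpos ((hv.le _).trans hb)

/-- The direction of the log vector. -/
noncomputable def dir (u : K) (v : AbsoluteValue K ℝ) (i : Fin 3) : ℝ :=
  Real.log (v (tri u i)) / ht u

lemma abs_dir_le {v : AbsoluteValue K ℝ} (hv : Look v) {u : K} (h0 : u ≠ 0) (h1 : u ≠ 1)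
    (i : Fin 3) : |dir u v i| ≤ 1 := by
  unfold dir
  rw [abs_div, abs_of_nonneg (ht_nonneg u)]
  exact div_le_one_of_le₀ (abs_log_le hv h0 h1 i) (ht_nonneg u)

lemma log_eq {u : K} (h : 0 < ht u) (v : AbsoluteValue K ℝ) (i : Fin 3) :
    Real.log (v (tri u i)) = ht u * dir u v i := by
  unfold dir
  (clear * - h; field_simp)

/-- The main estimate. -/
lemma main_step [CharZero K] (S : Finset (nonarchAbsVal (K := K))) {x y : K}
    (hx0 : x ≠ 0) (hx1 : x ≠ 1) (hy0 : y ≠ 0) (hy1 : y ≠ 1)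
    (hxS : ∀ v : nonarchAbsVal (K := K), v ∉ S → v.val x = 1 ∧ v.val (1 - x) = 1)
    (hyS : ∀ v : nonarchAbsVal (K := K), v ∉ S → v.val y = 1 ∧ v.val (1 - y) = 1)
    {ε : ℝ} (hε : 0 ≤ ε)
    (hdir : ∀ v : AbsoluteValue K ℝ, (v ∈ archAbsVal (K := K) ∨ ∃ w ∈ S, w.val = v) → ∀ i,
      |dir y v i - dir x v i| ≤ ε)
    (hxp : 0 < ht x) (n : ℕ) (hle : 2 * (n + 1) * ht x ≤ ht y)
    (hlt : ht y ≤ 2 * (n + 1) * ht x + 2 * ht x) :
    (n + 1) * ht x ≤ 4 * (n + 1) * (totalWeight K + S.card : ℕ) +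
      (totalWeight K + S.card : ℕ) * (ht x * (2 + 2 * (n + 1) * ε)) := by
  set w := totalWeight K + S.card with hw
  set B := ht x * (2 + 2 * (n + 1) * ε) with hB
  have hyp : 0 < ht y := lt_of_lt_of_le (by (clear * - hxp; positivity)) hle
  set z : Fin 3 → K := fun i => tri y i / tri x i ^ (2 * (n + 1)) with hz
  have hxn := tri_ne hx0 hx1
  have hyn := tri_ne hy0 hy1
  have hz0 : z ≠ 0 := by
    intro h
    have := congrFun h 0
    simp only [hz, Pi.zero_apply, div_eq_zero_iff] at this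
    rcases this with h' | h'
    · exact hyn 0 h'
    · exact pow_ne_zero _ (hxn 0) h'
  have hlook : ∀ v : AbsoluteValue K ℝ, (v ∈ archAbsVal (K := K) ∨ ∃ w ∈ S, w.val = v) → Look v := by
    rintro v (h | ⟨w, _, rfl⟩)
    · exact Or.inl h
    · exact Or.inr w.prop
  have hloc : ∀ v : AbsoluteValue K ℝ, (v ∈ archAbsVal (K := K) ∨ ∃ w ∈ S, w.val = v) → ∀ i,
      v (z i) ≤ Real.exp B := by
    intro v hv i
    have hvz : 0 < v (z i) := v.pos (div_ne_zero (hyn i) (pow_ne_zero _ (hxn i)))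
    rw [← Real.log_le_iff_le_exp hvz]
    have e : Real.log (v (z i)) = Real.log (v (tri y i)) - 2 * (n + 1) * Real.log (v (tri x i)) := by
      simp only [hz]
      rw [map_div₀, map_pow, Real.log_div (v.pos (hyn i)).ne' (pow_pos (v.pos (hxn i)) _).ne',
        Real.log_pow]
      push_cast
      ring
    rw [e, log_eq hyp, log_eq hxp]
    have h1 := abs_dir_le (hlook v hv) hy0 hy1 i
    have h2 := hdir v hv i
    have h3 : (ht y - 2 * (n + 1) * ht x) * dir y v i ≤ 2 * ht x := by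
      calc (ht y - 2 * (n + 1) * ht x) * dir y v i
          ≤ (ht y - 2 * (n + 1) * ht x) * 1 := by
            apply mul_le_mul_of_nonneg_left ((le_abs_self _).trans h1)
            linarith only [hle]
        _ ≤ 2 * ht x := by linarith only [hlt]
    have h4 : 2 * (n + 1) * ht x * (dir y v i - dir x v i) ≤ 2 * (n + 1) * ht x * ε := by
      apply mul_le_mul_of_nonneg_left ((le_abs_self _).trans h2)
      (clear * - hxp; positivity)
    calc ht y * dir y v i - 2 * (n + 1) * (ht x * dir x v i)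
        = (ht y - 2 * (n + 1) * ht x) * dir y v i +
            2 * (n + 1) * ht x * (dir y v i - dir x v i) := by ring
      _ ≤ 2 * ht x + 2 * (n + 1) * ht x * ε := add_le_add h3 h4
      _ = B := by rw [hB]; ring
  have hmz : mulHeight z ≤ Real.exp B ^ w := by
    refine mulHeight_le_pow hz0 S (Real.exp_pos B) (fun v hv i => hloc v (Or.inl hv) i)
      (fun v hv i => hloc v.val (Or.inr ⟨v, hv, rfl⟩) i) ?_
    intro v hv i
    have hX := hxS v hv
    have hY := hyS v hv
    have e : ∀ (u : K) (hu : v.val u = 1 ∧ v.val (1 - u) = 1), v.val (tri u i) = 1 := by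
      intro u hu
      fin_cases i
      · simpa [tri] using hu.1
      · simpa [tri] using hu.2
      · simp [tri]
    simp only [hz]
    rw [map_div₀, map_pow, e y hY, e x hX]
    simp
  have horth : x ^ (2 * (n + 1)) * z 0 + (1 - x) ^ (2 * (n + 1)) * z 1 + z 2 = 0 := by
    have p0 := pow_ne_zero (2 * (n + 1)) (hxn 0)
    have p1 := pow_ne_zero (2 * (n + 1)) (hxn 1)
    have e0 : x ^ (2 * (n + 1)) * z 0 = y := by
      simp only [hz]
      have : tri x 0 = x := rfl
      rw [this] at p0 ⊢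
      have : tri y 0 = y := rfl
      rw [this]
      field_simp
    have e1 : (1 - x) ^ (2 * (n + 1)) * z 1 = 1 - y := by
      simp only [hz]
      have : tri x 1 = 1 - x := rfl
      rw [this] at p1 ⊢
      have : tri y 1 = 1 - y := rfl
      rw [this]
      field_simp
    have e2 : z 2 = -1 := by
      simp only [hz, tri_two]
      rw [pow_mul]
      simp
    rw [e0, e1, e2]
    ring
  have hkey := key n hx0 hx1 hz0 horth
  have hkey' : Real.exp (ht x) ^ (n + 1) ≤ (2 * 16 ^ (n + 1)) ^ totalWeight K * Real.exp B ^ w := by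
    rw [exp_ht]
    calc mulHeight (tri x) ^ (n + 1) ≤ (2 * 16 ^ (n + 1)) ^ totalWeight K * mulHeight z := hkey
      _ ≤ _ := by (clear * - hmz; gcongr)
  have hlog := Real.log_le_log (by positivity) hkey'
  rw [Real.log_pow, Real.log_exp, Real.log_mul (by positivity) (by positivity), Real.log_pow,
    Real.log_pow, Real.log_exp, Real.log_mul (by norm_num) (by positivity), Real.log_pow] at hlog
  have hl2 : Real.log 2 ≤ 0.7 := by
    have := Real.log_two_lt_d9
    (clear * - this; linarith)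
  have hl16 : Real.log 16 = 4 * Real.log 2 := by
    rw [show (16 : ℝ) = 2 ^ 4 by norm_num, Real.log_pow]
    norm_num
  have hl0 : 0 ≤ Real.log 2 := Real.log_nonneg (by norm_num)
  have hb : Real.log 2 + ((n + 1 : ℕ) : ℝ) * Real.log 16 ≤ 4 * (n + 1) := by
    rw [hl16]
    push_cast
    have hn : (0 : ℝ) ≤ n := Nat.cast_nonneg n
    (clear * - hl2; nlinarith only [hl2])
  have htw : ((totalWeight K : ℕ) : ℝ) ≤ (w : ℕ) := by
    rw [hw]
    exact_mod_cast Nat.le_add_right _ _
  have htw0 : (0 : ℝ) ≤ (totalWeight K : ℕ) := Nat.cast_nonneg _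
  have hn0 : (0 : ℝ) ≤ 4 * (n + 1) := by (clear * -; positivity)
  have h1 : ((totalWeight K : ℕ) : ℝ) * (Real.log 2 + ((n + 1 : ℕ) : ℝ) * Real.log 16) ≤
      (w : ℕ) * (4 * (n + 1)) := by
    calc _ ≤ ((totalWeight K : ℕ) : ℝ) * (4 * (n + 1)) := mul_le_mul_of_nonneg_left hb htw0
      _ ≤ _ := mul_le_mul_of_nonneg_right htw hn0
  push_cast at hlog h1 ⊢
  (clear * - hlog h1; linarith only [hlog, h1])

/-- Finiteness for the unit equation. -/
theorem unit_finite [CharZero K] [Northcott (mulHeight₁ (K := K))]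
    (S : Finset (nonarchAbsVal (K := K))) :
    {u : K | u ≠ 0 ∧ u ≠ 1 ∧ ∀ v : nonarchAbsVal (K := K), v ∉ S →
      v.val u = 1 ∧ v.val (1 - u) = 1}.Finite := by
  classical
  set Sg := {u : K | u ≠ 0 ∧ u ≠ 1 ∧ ∀ v : nonarchAbsVal (K := K), v ∉ S →
      v.val u = 1 ∧ v.val (1 - u) = 1} with hSg
  by_contra hinf
  set w := totalWeight K + S.card with hw
  set ε : ℝ := 1 / (8 * (w + 1)) with hε
  have hεp : 0 < ε := by (clear * -; positivity)
  let W : Finset (AbsoluteValue K ℝ) := (archAbsVal (K := K)).toFinset ∪ S.image Subtype.val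
  have hWlook : ∀ v ∈ W, Look v := by
    intro v hv
    rcases Finset.mem_union.1 hv with h | h
    · exact Or.inl (Multiset.mem_toFinset.1 h)
    · obtain ⟨a, _, rfl⟩ := Finset.mem_image.1 h
      exact Or.inr a.prop
  let f : K → (W × Fin 3 → ℤ) := fun u p => ⌊dir u p.1.val p.2 / ε⌋
  have himg : (f '' Sg).Finite := by
    refine (Set.finite_Icc (fun _ : W × Fin 3 => ⌊-1 / ε⌋) (fun _ => ⌊1 / ε⌋)).subset ?_
    rintro _ ⟨u, hu, rfl⟩
    constructor <;>
    · intro p
      have := abs_le.1 (abs_dir_le (hWlook p.1.val p.1.prop) hu.1 hu.2.1 p.2)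
      apply Int.floor_le_floor
      apply div_le_div_of_nonneg_right _ hεp.le
      first | exact this.1 | exact this.2
  obtain ⟨c, hc⟩ : ∃ c, ¬ (Sg ∩ f ⁻¹' {c}).Finite := by
    by_contra h
    push Not at h
    exact hinf (Set.Finite.of_finite_fibers f himg fun c _ => h c)
  have hunb : ∀ B : ℝ, ∃ u ∈ Sg ∩ f ⁻¹' {c}, B < ht u := by
    intro B
    by_contra h
    push Not at h
    apply hc
    refine (Northcott.finite_le (h := mulHeight₁ (K := K)) (Real.exp B)).subset fun u hu => ?_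
    have h1 := h u hu
    have h2 := h1_le (tri u) (tri_two u) 0
    calc mulHeight₁ u ≤ mulHeight (tri u) := h2
      _ = Real.exp (ht u) := (exp_ht u).symm
      _ ≤ Real.exp B := Real.exp_le_exp.2 h1
  obtain ⟨x, ⟨hxS, hxc⟩, hxB⟩ := hunb (16 * (w + 1))
  have hxp : 0 < ht x := lt_trans (by (clear * -; positivity)) hxB
  obtain ⟨y, ⟨hyS, hyc⟩, hyB⟩ := hunb ((8 * w + 4) * ht x)
  have hdir : ∀ v : AbsoluteValue K ℝ, (v ∈ archAbsVal (K := K) ∨ ∃ w ∈ S, w.val = v) → ∀ i,
      |dir y v i - dir x v i| ≤ ε := by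
    intro v hv i
    have hvW : v ∈ W := by
      rcases hv with h | ⟨a, ha, rfl⟩
      · exact Finset.mem_union_left _ (Multiset.mem_toFinset.2 h)
      · exact Finset.mem_union_right _ (Finset.mem_image_of_mem _ ha)
    have e : f y = f x := by
      rw [Set.mem_preimage, Set.mem_singleton_iff] at hxc hyc
      rw [hxc, hyc]
    have e' := congrFun e (⟨v, hvW⟩, i)
    simp only [f] at e'
    have := Int.abs_sub_lt_one_of_floor_eq_floor e'
    rw [← sub_div, abs_div, abs_of_pos hεp, div_lt_one hεp] at this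
    exact this.le
  set N := ⌊ht y / (2 * ht x)⌋₊ with hN
  have h2x : 0 < 2 * ht x := by positivity
  have hNle : (N : ℝ) ≤ ht y / (2 * ht x) := Nat.floor_le (by have := ht_nonneg y; (clear * - this hxp; positivity))
  have hNlt : ht y / (2 * ht x) < N + 1 := Nat.lt_floor_add_one _
  have hNbig : 4 * w + 1 ≤ N := by
    apply Nat.le_floor
    rw [le_div_iff₀ h2x]
    push_cast
    linarith only [hxp, hyB]
  obtain ⟨n, hn⟩ : ∃ n, N = n + 1 := ⟨N - 1, by (clear * - hNbig; omega)⟩
  rw [hn] at hNle hNlt hNbig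
  push_cast at hNle hNlt
  rw [le_div_iff₀ h2x] at hNle
  rw [div_lt_iff₀ h2x] at hNlt
  have hfin := main_step S hxS.1 hxS.2.1 hyS.1 hyS.2.1 hxS.2.2 hyS.2.2 hεp.le hdir hxp n
    (by linarith only [hNle]) (by linarith only [hNlt])
  rw [← hw] at hfin
  have hbig : (4 * w + 1 : ℝ) ≤ n + 1 := by exact_mod_cast hNbig
  have hw0 : (0 : ℝ) ≤ w := Nat.cast_nonneg _
  have hwe : (w : ℝ) * (2 * (n + 1) * ε) ≤ (n + 1) / 4 := by
    rw [hε]
    rw [mul_one_div, mul_div_assoc', div_le_div_iff₀ (by (clear * -; positivity)) (by norm_num)]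
    have : (0 : ℝ) ≤ n := Nat.cast_nonneg n
    linarith only []
  have h5 : (w : ℝ) * (ht x * (2 + 2 * (n + 1) * ε)) ≤ 2 * w * ht x + ht x * ((n + 1) / 4) := by
    have := mul_le_mul_of_nonneg_left hwe hxp.le
    (clear * - this; linarith only [this])
  have h6 : 4 * ((n : ℝ) + 1) * w ≤ (n + 1) * (ht x / 4) := by
    have : (4 : ℝ) * w ≤ ht x / 4 := by linarith only [hxB]
    have hn1 : (0 : ℝ) ≤ (n : ℝ) + 1 := by (clear * -; positivity)
    (clear * - this; nlinarith only [this])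
  nlinarith only [hNle, hNlt, hfin, hbig, h5, h6]

end Pool.Agent.Helper19.UE
end

/- Helper12.LVF.H19.UE.NumberField -/
section
/-!
The S-unit equation over a number field.
-/

namespace Pool.Agent.Helper19.UE

open Height AdmissibleAbsValues Polynomial

lemma abv_integral_le {K : Type*} [Field K] {v : AbsoluteValue K ℝ} (hv : IsNonarchimedean v)
    {x : K} (hx : IsIntegral ℤ x) : v x ≤ 1 := by
  obtain ⟨p, hp, hpx⟩ := hx
  by_contra hlt
  push Not at hlt
  have hn : p.natDegree ≠ 0 := by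
    intro h
    have h1 : p = 1 := hp.natDegree_eq_zero.1 h
    rw [h1] at hpx
    simp at hpx
  rw [eval₂_eq_sum_range, Finset.sum_range_succ, hp.coeff_natDegree, map_one, one_mul] at hpx
  have e : x ^ p.natDegree = -∑ i ∈ Finset.range p.natDegree, algebraMap ℤ K (p.coeff i) * x ^ i := by
    linear_combination hpx
  obtain ⟨i, hi, h⟩ := hv.finset_image_add_of_nonempty
    (fun i => algebraMap ℤ K (p.coeff i) * x ^ i) (t := Finset.range p.natDegree)
    ⟨0, Finset.mem_range.2 (Nat.pos_of_ne_zero hn)⟩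
  have h1 : v x ^ p.natDegree ≤ v x ^ i := by
    calc v x ^ p.natDegree = v (∑ i ∈ Finset.range p.natDegree, algebraMap ℤ K (p.coeff i) * x ^ i) := by
          rw [← map_pow, e, map_neg_eq_map]
      _ ≤ v (algebraMap ℤ K (p.coeff i) * x ^ i) := h
      _ ≤ 1 * v x ^ i := by
          rw [map_mul, map_pow]
          have := hv.apply_intCast_le_one (n := p.coeff i)
          have h0 : 0 ≤ v x := v.nonneg _
          gcongr
          simpa using this
      _ = v x ^ i := one_mul _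
  have h2 : v x ^ i < v x ^ p.natDegree := pow_lt_pow_right₀ hlt (Finset.mem_range.1 hi)
  exact absurd h1 (not_le.2 h2)

/-- The S-unit equation `u + v = 1` over a number field has finitely many solutions. -/
theorem sunit_finite {K : Type*} [Field K] [NumberField K] (M : ℕ) (hM : M ≠ 0) :
    {u : K | u ≠ 0 ∧ 1 - u ≠ 0 ∧ (∃ n : ℕ, IsIntegral ℤ ((M : K) ^ n * u)) ∧
      (∃ n : ℕ, IsIntegral ℤ ((M : K) ^ n * u⁻¹)) ∧
      (∃ n : ℕ, IsIntegral ℤ ((M : K) ^ n * (1 - u))) ∧
      ∃ n : ℕ, IsIntegral ℤ ((M : K) ^ n * (1 - u)⁻¹)}.Finite := by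
  have hMK : (M : K) ≠ 0 := Nat.cast_ne_zero.2 hM
  have hfin := AdmissibleAbsValues.hasFiniteMulSupport hMK
  refine (unit_finite (K := K) hfin.toFinset).subset ?_
  rintro u ⟨h0, h1, h2, h3, h4, h5⟩
  refine ⟨h0, fun h => h1 (by rw [h, sub_self]), fun v hv => ?_⟩
  have hvM : v.val (M : K) = 1 := by
    by_contra h
    exact hv (by simpa using h)
  have key : ∀ z : K, z ≠ 0 → (∃ n : ℕ, IsIntegral ℤ ((M : K) ^ n * z)) →
      (∃ n : ℕ, IsIntegral ℤ ((M : K) ^ n * z⁻¹)) → v.val z = 1 := by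
    rintro z hz ⟨n, hn⟩ ⟨m, hm⟩
    have hv' := AdmissibleAbsValues.isNonarchimedean v.val v.prop
    have a := abv_integral_le hv' hn
    have b := abv_integral_le hv' hm
    rw [map_mul, map_pow, hvM, one_pow, one_mul] at a b
    rw [map_inv₀] at b
    have hp : 0 < v.val z := v.val.pos hz
    exact le_antisymm a ((inv_le_one₀ hp).1 b)
  exact ⟨key u h0 h2 h3, key (1 - u) h1 h4 h5⟩

end Pool.Agent.Helper19.UE
end

/- Helper12.LVF.H8.UnitSep -/
section
/-!
Units of finitely generated domains of characteristic zero: finitely many number-field points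
separate the units from `1`.  Support file for MP_26d9ad_nt.
-/

namespace Pool.Agent.Helper8.UnitSep

section infinity

open WithZero IsDedekindDomain


noncomputable def degVal (n : ℕ) : Valuation (MvPolynomial (Fin n) ℚ) ℤᵐ⁰ where
  toFun p := if p = 0 then 0 else WithZero.exp (p.totalDegree : ℤ)
  map_zero' := by simp
  map_one' := by simp
  map_mul' x y := by
    by_cases hx : x = 0
    · simp [hx]
    by_cases hy : y = 0
    · simp [hy]
    rw [if_neg (mul_ne_zero hx hy), if_neg hx, if_neg hy,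
      MvPolynomial.totalDegree_mul_of_isDomain hx hy, ← WithZero.exp_add]
    push_cast
    rfl
  map_add_le_max' x y := by
    by_cases hx : x = 0
    · simp [hx]
    by_cases hy : y = 0
    · simp [hy]
    by_cases hxy : x + y = 0
    · simp [hxy]
    rw [if_neg hxy, if_neg hx, if_neg hy]
    have h := MvPolynomial.totalDegree_add x y
    rcases le_max_iff.mp h with h | h
    · exact le_max_of_le_left (by rw [WithZero.exp_le_exp]; exact_mod_cast h)
    · exact le_max_of_le_right (by rw [WithZero.exp_le_exp]; exact_mod_cast h)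

theorem degVal_apply (n : ℕ) (p : MvPolynomial (Fin n) ℚ) (hp : p ≠ 0) :
    degVal n p = WithZero.exp (p.totalDegree : ℤ) := if_neg hp

noncomputable def fracVal (n : ℕ) : Valuation (FractionRing (MvPolynomial (Fin n) ℚ)) ℤᵐ⁰ :=
  (degVal n).extendToLocalization (S := nonZeroDivisors _) (by
    intro x hx
    have hx0 := nonZeroDivisors.ne_zero hx
    simp only [Ideal.primeCompl, Submonoid.mem_mk, Subsemigroup.mem_mk]
    intro hmem
    have : degVal n x = 0 := hmem
    rw [degVal_apply n x hx0] at this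
    exact WithZero.exp_ne_zero this) _

theorem fracVal_algebraMap (n : ℕ) (p : MvPolynomial (Fin n) ℚ) :
    fracVal n (algebraMap _ _ p) = degVal n p :=
  Valuation.extendToLocalization_apply_map_apply _ _ _ _

theorem degree_le_zero (n : ℕ) (p : MvPolynomial (Fin n) ℚ) (h : degVal n p ≤ 1) :
    ∃ c : ℚ, p = MvPolynomial.C c := by
  by_cases hp : p = 0
  · exact ⟨0, by simp [hp]⟩
  rw [degVal_apply n p hp, ← WithZero.exp_zero, WithZero.exp_le_exp] at h
  have h0 : p.totalDegree = 0 := by exact_mod_cast le_antisymm h (by (clear * -; positivity))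
  rw [MvPolynomial.totalDegree_eq_zero_iff_eq_C] at h0
  exact ⟨_, h0⟩

instance (n : ℕ) [NeZero n] : Valuation.IsNontrivial (fracVal n) := by
  refine ⟨algebraMap (MvPolynomial (Fin n) ℚ) _ (MvPolynomial.X 0), ?_, ?_⟩
  · rw [fracVal_algebraMap, degVal_apply _ _ (MvPolynomial.X_ne_zero _)]
    exact WithZero.exp_ne_zero
  · rw [fracVal_algebraMap, degVal_apply _ _ (MvPolynomial.X_ne_zero _), MvPolynomial.totalDegree_X]
    simp

instance (n : ℕ) : IsCyclic (MonoidWithZeroHom.valueGroup (.ofClass (fracVal n))) := by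
  infer_instance

example (n : ℕ) [NeZero n] : IsDiscreteValuationRing (fracVal n).valuationSubring := inferInstance


/-- Valuations at infinity: the units of a domain finite over `ℚ[X₁..Xₙ]`, up to algebraic
elements, inject into a finite product of copies of `ℤ`. -/
theorem exists_infinity_map.{v} (n : ℕ) [NeZero n] (K : Type v) [Field K]
    [Algebra (FractionRing (MvPolynomial (Fin n) ℚ)) K]
    [FiniteDimensional (FractionRing (MvPolynomial (Fin n) ℚ)) K]
    [Algebra (MvPolynomial (Fin n) ℚ) K]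
    [IsScalarTower (MvPolynomial (Fin n) ℚ) (FractionRing (MvPolynomial (Fin n) ℚ)) K] [CharZero K] :
    ∃ (ι : Type v) (_ : Finite ι) (Φ : Kˣ →* (ι → Multiplicative ℤ)), ∀ x : Kˣ,
      Φ x = 1 → IsIntegral (MvPolynomial (Fin n) ℚ) (x : K) → IsAlgebraic ℚ (x : K) := by
  let P := MvPolynomial (Fin n) ℚ
  let F := FractionRing (MvPolynomial (Fin n) ℚ)
  let O := (fracVal n).valuationSubring
  have hdvr : IsDiscreteValuationRing O := inferInstance
  let D := integralClosure O K
  have hded : IsDedekindDomain D := integralClosure.isDedekindDomain O F K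
  have hfrac : IsFractionRing D K := integralClosure.isFractionRing_of_finite_extension F K
  have hfinD : Finite (HeightOneSpectrum D) := by
    have h1 := IsDedekindDomain.primesOver_finite (IsLocalRing.maximalIdeal O) D
    have : Finite ((IsLocalRing.maximalIdeal O).primesOver D) := h1
    refine Finite.of_injective (β := (IsLocalRing.maximalIdeal O).primesOver D)
      (fun Q => ⟨Q.asIdeal, Q.isPrime, ⟨?_⟩⟩) ?_
    · symm
      apply IsLocalRing.eq_maximalIdeal
      have h2 := (HeightOneSpectrum.under O Q).isPrime.isMaximal (HeightOneSpectrum.under O Q).ne_bot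
      exact h2
    · intro Q Q' h
      have := congrArg Subtype.val h
      exact HeightOneSpectrum.ext this
  refine ⟨HeightOneSpectrum D, hfinD, MonoidHom.pi fun Q => Q.valuationOfNeZero, ?_⟩
  intro x hx hxP
  have hxO : IsIntegral O (x : K) := by
    have h3 : (x : K) ∈ (algebraMap D K).range := by
      apply HeightOneSpectrum.mem_integers_of_valuation_le_one
      intro Q
      have h4 : Q.valuationOfNeZero x = 1 := congrFun hx Q
      rw [← HeightOneSpectrum.valuationOfNeZero_eq, h4]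
      exact le_rfl
    obtain ⟨y, hy⟩ := h3
    rw [← hy]
    exact y.2
  have e1 := minpoly.isIntegrallyClosed_eq_field_fractions' (K := F) hxP
  have e2 := minpoly.isIntegrallyClosed_eq_field_fractions' (K := F) hxO
  have hlift : minpoly P (x : K) ∈ Polynomial.lifts (MvPolynomial.C : ℚ →+* P) := by
    rw [Polynomial.lifts_iff_coeff_lifts]
    intro k
    have h5 : algebraMap P F ((minpoly P (x : K)).coeff k) = algebraMap O F ((minpoly O (x : K)).coeff k) := by
      rw [← Polynomial.coeff_map, ← Polynomial.coeff_map, ← e1, ← e2]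
    have h6 : fracVal n (algebraMap P F ((minpoly P (x : K)).coeff k)) ≤ 1 := by
      rw [h5]
      exact ((minpoly O (x : K)).coeff k).2
    rw [fracVal_algebraMap] at h6
    obtain ⟨c, hc⟩ := degree_le_zero n _ h6
    exact ⟨c, hc.symm⟩
  obtain ⟨q, hq, -, hqm⟩ := Polynomial.lifts_and_natDegree_eq_and_monic hlift (minpoly.monic hxP)
  refine ⟨q, hqm.ne_zero, ?_⟩
  have h7 := minpoly.aeval P (x : K)
  rw [← hq] at h7
  rw [Polynomial.aeval_def, Polynomial.eval₂_map] at h7
  rw [Polynomial.aeval_def]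
  have h8 : algebraMap ℚ K = (algebraMap P K).comp MvPolynomial.C := RingHom.ext_rat _ _
  rw [h8]
  exact h7


open scoped nonZeroDivisors in
attribute [local instance] FractionRing.liftAlgebra in
/-- Units of a finitely generated `ℚ`-domain, modulo algebraic ones, inject into `ℤ^ι`. -/
theorem exists_unit_map.{v} (R : Type v) [CommRing R] [IsDomain R] [Algebra ℚ R]
    [Algebra.FiniteType ℚ R] :
    ∃ (ι : Type v) (_ : Finite ι) (Φ : Rˣ →* (ι → Multiplicative ℤ)), ∀ x : Rˣ,
      Φ x = 1 → IsAlgebraic ℚ (x : R) := by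
  obtain ⟨n, g, hg, hgfin⟩ := exists_finite_inj_algHom_of_fg ℚ R
  let P := MvPolynomial (Fin n) ℚ
  let _ : Algebra P R := g.toRingHom.toAlgebra
  have hfin : Module.Finite P R := hgfin
  have hinj : Function.Injective (algebraMap P R) := hg
  rcases Nat.eq_zero_or_pos n with h0 | hn
  · subst h0
    refine ⟨PEmpty, inferInstance, 1, fun x _ => ?_⟩
    have h1 : IsIntegral P (x : R) := Algebra.IsIntegral.isIntegral _
    obtain ⟨p, hpm, hp⟩ := h1
    let e : P →+* ℚ := MvPolynomial.eval (fun i : Fin 0 => i.elim0)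
    refine ⟨p.map e, (hpm.map e).ne_zero, ?_⟩
    rw [Polynomial.aeval_def, Polynomial.eval₂_map]
    have h2 : (algebraMap ℚ R).comp e = algebraMap P R := by
      apply MvPolynomial.ringHom_ext
      · intro r
        have h3 : g (MvPolynomial.C r) = algebraMap ℚ R r := g.commutes r
        change algebraMap ℚ R (e (MvPolynomial.C r)) = g (MvPolynomial.C r)
        rw [h3]
        congr 1
        exact MvPolynomial.eval_C _
      · intro i; exact i.elim0
    rw [h2]
    exact hp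
  · have : NeZero n := ⟨hn.ne'⟩
    let K := FractionRing R
    have htower : IsScalarTower P R K := inferInstance
    have hfaith : FaithfulSMul P K := by
      rw [faithfulSMul_iff_algebraMap_injective, IsScalarTower.algebraMap_eq P R K]
      exact (IsFractionRing.injective R K).comp hinj
    have hfaith' : FaithfulSMul P R := by
      rw [faithfulSMul_iff_algebraMap_injective]
      exact hinj
    let F := FractionRing P
    have hfd : Module.Finite F K := Module.Finite.of_isLocalization P R (P⁰)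
    have hchar : CharZero K := by
      have : CharZero R := algebraRat.charZero R
      exact charZero_of_injective_algebraMap (IsFractionRing.injective R K)
    obtain ⟨ι, hι, Φ, hΦ⟩ := exists_infinity_map n K
    refine ⟨ι, hι, Φ.comp (Units.map (algebraMap R K : R →* K)), ?_⟩
    intro x hx
    obtain ⟨p, hp0, hp⟩ := hΦ _ hx
      ((Algebra.IsIntegral.isIntegral (R := P) (x : R)).map (IsScalarTower.toAlgHom P R K))
    refine ⟨p, hp0, ?_⟩
    apply IsFractionRing.injective R K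
    rw [map_zero, Polynomial.aeval_def, Polynomial.hom_eval₂]
    rw [Polynomial.aeval_def] at hp
    have h8 : (algebraMap R K).comp (algebraMap ℚ R) =
        @algebraMap ℚ K _ _ DivisionRing.toRatAlgebra := RingHom.ext_rat _ _
    rw [h8]
    exact hp


end infinity

section separation

open Polynomial PrimeSpectrum




/-- A transcendental element is not a root of unity modulo some maximal ideal. -/
theorem exists_maximal_not_root {R : Type*} [CommRing R] [IsDomain R] [Algebra ℚ R]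
    [Algebra.FiniteType ℚ R] (v : R) (hv : Transcendental ℚ v) :
    ∃ m : Ideal R, m.IsMaximal ∧ ∀ n : ℕ, 0 < n → v ^ n - 1 ∉ m := by
  let _ : Algebra ℚ[X] R := (aeval v : ℚ[X] →ₐ[ℚ] R).toRingHom.toAlgebra
  have htow : IsScalarTower ℚ ℚ[X] R := IsScalarTower.of_algebraMap_eq' (by
    change _ = (aeval v : ℚ[X] →ₐ[ℚ] R).toRingHom.comp _
    exact RingHom.ext_rat _ _)
  have halg : ∀ p : ℚ[X], algebraMap ℚ[X] R p = aeval v p := fun p => rfl
  have hinj : Function.Injective (algebraMap ℚ[X] R) := by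
    rw [injective_iff_map_eq_zero]
    intro p hp
    by_contra hne
    exact hv ⟨p, hne, hp⟩
  have hft : Algebra.FiniteType ℚ[X] R := Algebra.FiniteType.of_restrictScalars_finiteType ℚ ℚ[X] R
  have hfp : Algebra.FinitePresentation ℚ[X] R := Algebra.FinitePresentation.of_finiteType.mp hft
  have hflat : Module.Flat ℚ[X] R := by
    rw [Module.Flat.flat_iff_torsion_eq_bot_of_isBezout]
    rw [eq_bot_iff]
    intro x hx
    obtain ⟨⟨a, ha⟩, hax⟩ := (Submodule.mem_torsion_iff x).mp hx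
    have h1 : algebraMap ℚ[X] R a * x = 0 := by
      rw [← Algebra.smul_def]; exact hax
    rcases mul_eq_zero.mp h1 with h2 | h2
    · exact absurd (hinj (h2.trans (map_zero _).symm)) (nonZeroDivisors.ne_zero ha)
    · exact h2
  have hopen := isOpenMap_comap_of_hasGoingDown_of_finitePresentation (R := ℚ[X]) (S := R)
  have hU : IsOpen (Set.range (comap (algebraMap ℚ[X] R))) := by
    have := hopen Set.univ isOpen_univ
    rwa [Set.image_univ] at this
  have hbot : (⊥ : PrimeSpectrum ℚ[X]) ∈ Set.range (comap (algebraMap ℚ[X] R)) := by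
    refine ⟨⊥, ?_⟩
    ext1
    change Ideal.comap (algebraMap ℚ[X] R) ⊥ = ⊥
    rw [← RingHom.ker_eq_comap_bot]
    exact (RingHom.injective_iff_ker_eq_bot _).mp hinj
  obtain ⟨_, ⟨_, ⟨g, rfl⟩, rfl⟩, hgbot, hgU⟩ :=
    isBasis_basic_opens.exists_subset_of_mem_open hbot hU
  have hg0 : g ≠ 0 := by
    intro h0
    exact hgbot (by rw [h0]; exact Ideal.zero_mem _)
  -- choose an integer `c ≥ 2` which is not a root of `g`
  obtain ⟨c, hc2, hc⟩ : ∃ c : ℕ, 2 ≤ c ∧ g.eval (c : ℚ) ≠ 0 := by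
    have hfin : {c : ℕ | g.eval (c : ℚ) = 0}.Finite := by
      apply Set.Finite.of_injOn (f := fun c : ℕ => (c : ℚ)) (t := (g.roots.toFinset : Set ℚ))
      · intro c hc
        simp only [Finset.mem_coe, Multiset.mem_toFinset, mem_roots hg0]
        exact hc
      · intro a _ b _ h
        exact Nat.cast_injective h
      · exact Finset.finite_toSet _
    obtain ⟨c, hc⟩ := (hfin.union (Set.finite_lt_nat 2)).infinite_compl.nonempty
    simp only [Set.mem_compl_iff, Set.mem_union, not_or] at hc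
    exact ⟨c, not_lt.mp hc.2, hc.1⟩
  have hprime : (Ideal.span {(X - C (c : ℚ) : ℚ[X])}).IsPrime := by
    rw [Ideal.span_singleton_prime (X_sub_C_ne_zero _)]
    exact prime_X_sub_C _
  have hmem : (⟨Ideal.span {(X - C (c : ℚ) : ℚ[X])}, hprime⟩ : PrimeSpectrum ℚ[X]) ∈
      (basicOpen g : Set (PrimeSpectrum ℚ[X])) := by
    intro hgm
    have h3 : g ∈ Ideal.span {(X - C (c : ℚ) : ℚ[X])} := hgm
    rw [Ideal.mem_span_singleton, dvd_iff_isRoot] at h3
    exact hc h3
  obtain ⟨q, hq⟩ := hgU hmem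
  obtain ⟨m, hm, hqm⟩ := Ideal.exists_le_maximal q.asIdeal q.isPrime.ne_top
  refine ⟨m, hm, ?_⟩
  have h4 : v - algebraMap ℚ R c ∈ m := by
    apply hqm
    have h5 : (X - C (c : ℚ) : ℚ[X]) ∈ (comap (algebraMap ℚ[X] R) q).asIdeal := by
      rw [hq]; exact Ideal.mem_span_singleton_self _
    have h6 : algebraMap ℚ[X] R (X - C (c : ℚ)) ∈ q.asIdeal := h5
    rw [halg] at h6
    simpa using h6
  intro n hn hmem'
  have h7 : v ^ n - (algebraMap ℚ R c) ^ n ∈ m := by
    obtain ⟨w, hw⟩ := sub_dvd_pow_sub_pow v (algebraMap ℚ R c) n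
    rw [hw]; exact Ideal.mul_mem_right _ _ h4
  have h8 : algebraMap ℚ R ((c : ℚ) ^ n - 1) ∈ m := by
    have := Ideal.sub_mem _ hmem' h7
    rw [map_sub, map_pow, map_one]
    convert this using 1
    ring
  have h9 : ((c : ℚ) ^ n - 1) ≠ 0 := by
    have h10 : (1 : ℚ) < (c : ℚ) ^ n := one_lt_pow₀ (by exact_mod_cast hc2) hn.ne'
    exact (sub_pos.mpr h10).ne'
  have h11 : IsUnit (algebraMap ℚ R ((c : ℚ) ^ n - 1)) := (IsUnit.mk0 _ h9).map _
  exact hm.ne_top (Ideal.eq_top_of_isUnit_mem _ h8 h11)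


end separation
/-- nested submodules of the same rank have torsion quotient -/
theorem exists_smul_mem {M : Type*} [AddCommGroup M] [Module.Finite ℤ M]
    (N N' : Submodule ℤ M) (hle : N' ≤ N) (hr : Module.finrank ℤ N = Module.finrank ℤ N')
    (x : M) (hx : x ∈ N) : ∃ n : ℕ, 0 < n ∧ (n : ℤ) • x ∈ N' := by
  have h1 := Submodule.finrank_quotient_add_finrank (N'.submoduleOf N)
  have h2 : Module.finrank ℤ (N'.submoduleOf N) = Module.finrank ℤ N' :=
    LinearEquiv.finrank_eq (Submodule.submoduleOfEquivOfLe hle)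
  have h3 : Module.finrank ℤ (N ⧸ N'.submoduleOf N) = 0 := by omega
  rw [Module.finrank_eq_zero_iff_isTorsion] at h3
  obtain ⟨⟨a, ha⟩, hax⟩ := @h3 (Submodule.Quotient.mk ⟨x, hx⟩)
  have ha0 : a ≠ 0 := nonZeroDivisors.ne_zero ha
  have h4 : a • (⟨x, hx⟩ : N) ∈ N'.submoduleOf N := by
    rw [← Submodule.Quotient.mk_eq_zero, Submodule.Quotient.mk_smul]
    exact hax
  have h5 : a • x ∈ N' := h4
  refine ⟨a.natAbs, Int.natAbs_pos.mpr ha0, ?_⟩
  rcases Int.natAbs_eq a with h | h
  · rw [← h]; exact h5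
  · have h6 : ((a.natAbs : ℕ) : ℤ) = -a := by omega
    rw [h6, neg_smul]
    exact Submodule.neg_mem _ h5

/-- Finitely many maximal ideals separate the units of a finitely generated `ℚ`-domain from 1. -/
theorem exists_finset_maximal.{v} (R : Type v) [CommRing R] [IsDomain R] [Algebra ℚ R]
    [Algebra.FiniteType ℚ R] :
    ∃ S : Finset (MaximalSpectrum R), ∀ x : Rˣ, (∀ m ∈ S, (x : R) - 1 ∈ m.asIdeal) → x = 1 := by
  classical
  obtain ⟨ι, hι, Φ, hΦ⟩ := exists_unit_map R
  obtain ⟨m₀⟩ : Nonempty (MaximalSpectrum R) := inferInstance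
  -- the subgroups
  let N : Finset (MaximalSpectrum R) → Subgroup Rˣ := fun S =>
    { carrier := {x | ∀ m ∈ S, (x : R) - 1 ∈ m.asIdeal}
      mul_mem' := by
        intro x y hx hy m hm
        have : ((x * y : Rˣ) : R) - 1 = x * ((y : R) - 1) + ((x : R) - 1) := by
          push_cast; ring
        rw [this]
        exact Ideal.add_mem _ (Ideal.mul_mem_left _ _ (hy m hm)) (hx m hm)
      one_mem' := by
        intro m _
        simp
      inv_mem' := by
        intro x hx m hm
        have : ((x⁻¹ : Rˣ) : R) - 1 = -((x⁻¹ : Rˣ) : R) * ((x : R) - 1) := by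
          have := x.inv_mul
          linear_combination this
        rw [this]
        exact Ideal.mul_mem_left _ _ (hx m hm) }
  -- the map to `ℤ^ι`
  let f : Additive Rˣ →+ (ι → ℤ) := 
    { toFun := fun x i => Multiplicative.toAdd (Φ x.toMul i)
      map_zero' := by ext i; simp
      map_add' := by intro x y; ext i; simp }
  have hf0 : ∀ x : Rˣ, f (Additive.ofMul x) = 0 → IsAlgebraic ℚ (x : R) := by
    intro x hx
    apply hΦ
    ext i
    exact congrFun hx i
  let M : Finset (MaximalSpectrum R) → Submodule ℤ (ι → ℤ) := fun S =>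
    AddSubgroup.toIntSubmodule ((Subgroup.toAddSubgroup (N S)).map f)
  have hMmem : ∀ S z, z ∈ M S ↔ ∃ x ∈ N S, f (Additive.ofMul x) = z := by
    intro S z
    constructor
    · rintro ⟨x, hx, rfl⟩
      exact ⟨x.toMul, hx, rfl⟩
    · rintro ⟨x, hx, rfl⟩
      exact ⟨Additive.ofMul x, hx, rfl⟩
  have halg : ∀ x : Rˣ, (x : R) - 1 ∈ m₀.asIdeal → IsAlgebraic ℚ (x : R) → x = 1 := by
    intro x hx hxa
    by_contra hne
    have h1 : IsAlgebraic ℚ ((x : R) - 1) := hxa.sub isAlgebraic_one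
    have h2 : (x : R) - 1 ≠ 0 := by
      intro h
      apply hne
      ext
      exact sub_eq_zero.mp h
    obtain ⟨r, hr, hdvd⟩ := h1.exists_nonzero_dvd (mem_nonZeroDivisors_of_ne_zero h2)
    have h3 : algebraMap ℚ R r ∈ m₀.asIdeal := Ideal.mem_of_dvd _ hdvd hx
    exact m₀.isMaximal.ne_top (Ideal.eq_top_of_isUnit_mem _ h3 ((IsUnit.mk0 r hr).map _))
  obtain ⟨S, hS, hmin⟩ : ∃ S : Finset (MaximalSpectrum R), m₀ ∈ S ∧
      ∀ S' : Finset (MaximalSpectrum R), m₀ ∈ S' → Module.finrank ℤ (M S) ≤ Module.finrank ℤ (M S') := by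
    have hne : {k : ℕ | ∃ S : Finset (MaximalSpectrum R), m₀ ∈ S ∧ Module.finrank ℤ (M S) = k}.Nonempty :=
      ⟨_, {m₀}, Finset.mem_singleton_self _, rfl⟩
    obtain ⟨S, hS, hk⟩ := Nat.sInf_mem hne
    refine ⟨S, hS, fun S' hS' => ?_⟩
    rw [hk]
    exact Nat.sInf_le ⟨S', hS', rfl⟩
  refine ⟨S, ?_⟩
  intro v hv
  by_contra hv1
  have hvtr : Transcendental ℚ (v : R) := by
    intro hva
    exact hv1 (halg v (hv m₀ hS) hva)
  obtain ⟨m', hm', hroot⟩ := exists_maximal_not_root (v : R) hvtr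
  let S' := insert (⟨m', hm'⟩ : MaximalSpectrum R) S
  have hS'0 : m₀ ∈ S' := Finset.mem_insert_of_mem hS
  have hle : M S' ≤ M S := by
    intro z hz
    rw [hMmem] at hz ⊢
    obtain ⟨x, hx, rfl⟩ := hz
    exact ⟨x, fun m hm => hx m (Finset.mem_insert_of_mem hm), rfl⟩
  have hrank : Module.finrank ℤ (M S) = Module.finrank ℤ (M S') :=
    le_antisymm (hmin S' hS'0) (Submodule.finrank_mono hle)
  have hvM : f (Additive.ofMul v) ∈ M S := (hMmem _ _).mpr ⟨v, hv, rfl⟩
  obtain ⟨n, hn, hnv⟩ := exists_smul_mem (M S) (M S') hle hrank _ hvM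
  obtain ⟨w, hw, hfw⟩ := (hMmem _ _).mp hnv
  have h1 : f (Additive.ofMul (v ^ n * w⁻¹)) = 0 := by
    have : Additive.ofMul (v ^ n * w⁻¹) = n • Additive.ofMul v - Additive.ofMul w := rfl
    rw [this, map_sub, map_nsmul, hfw]
    simp
  have h2 : v ^ n * w⁻¹ = 1 := by
    apply halg _ _ (hf0 _ h1)
    have h3 : v ^ n * w⁻¹ ∈ N S := by
      refine Subgroup.mul_mem _ (Subgroup.pow_mem _ ?_ _) (Subgroup.inv_mem _ ?_)
      · exact hv
      · exact fun m hm => hw m (Finset.mem_insert_of_mem hm)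
    exact h3 m₀ hS
  have h4 : v ^ n = w := by
    rwa [mul_inv_eq_one] at h2
  apply hroot n hn
  have h5 := hw ⟨m', hm'⟩ (Finset.mem_insert_self _ _)
  rw [← h4] at h5
  simpa using h5


open NumberField

/-- A homomorphism from a finitely generated ring to a number field lands in a ring of
`S`-integers. -/
theorem exists_lift_away {R : Type*} [CommRing R] [Algebra.FiniteType ℤ R] (k : Type*) [Field k]
    [NumberField k] (ψ : R →+* k) : ∃ (M : ℕ) (_ : M ≠ 0)
    (φ : R →+* Localization.Away ((M : ℕ) : 𝓞 k)), ∀ x, φ x = 1 → ψ x = 1 := by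
  classical
  obtain ⟨S, hS⟩ := (inferInstance : Algebra.FiniteType ℤ R).out
  -- common denominator
  have hden : ∀ s : R, ∃ M : ℕ, M ≠ 0 ∧ IsIntegral ℤ ((M : k) * ψ s) := by
    intro s
    have halg : IsAlgebraic ℤ (ψ s) := by
      have := Algebra.IsAlgebraic.isAlgebraic (R := ℚ) (ψ s)
      exact (IsFractionRing.isAlgebraic_iff ℤ ℚ k).mpr this
    obtain ⟨a, ha, hint⟩ := halg.exists_integral_multiple
    refine ⟨a.natAbs, Int.natAbs_ne_zero.mpr ha, ?_⟩
    have h1 : ((a.natAbs : ℕ) : k) * ψ s = a • ψ s ∨ ((a.natAbs : ℕ) : k) * ψ s = -(a • ψ s) := by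
      rw [zsmul_eq_mul]
      rcases Int.natAbs_eq a with h | h
      · left
        congr 1
        rw [h]; simp
      · right
        rw [← neg_mul]
        congr 1
        rw [h]; simp
    rcases h1 with h1 | h1
    · rw [h1]; exact hint
    · rw [h1]; exact hint.neg
  choose D hD0 hD using hden
  let M : ℕ := ∏ s ∈ S, D s
  have hM0 : M ≠ 0 := Finset.prod_ne_zero_iff.mpr fun s _ => hD0 s
  let L := Localization.Away ((M : ℕ) : 𝓞 k)
  have hMk : IsUnit (algebraMap (𝓞 k) k ((M : ℕ) : 𝓞 k)) := by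
    rw [map_natCast]
    exact IsUnit.mk0 _ (by exact_mod_cast hM0)
  let e : L →+* k := IsLocalization.Away.lift (S := L) ((M : ℕ) : 𝓞 k) hMk
  have he : ∀ a, e (algebraMap (𝓞 k) L a) = algebraMap (𝓞 k) k a := fun a =>
    IsLocalization.Away.lift_eq _ hMk a
  have hdomL : IsDomain L := IsLocalization.isDomain_localization
    (powers_le_nonZeroDivisors_of_noZeroDivisors (by exact_mod_cast hM0))
  have heinj : Function.Injective e := by
    rw [injective_iff_map_eq_zero]
    intro a ha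
    obtain ⟨⟨x, s⟩, hs⟩ := IsLocalization.surj (Submonoid.powers ((M : ℕ) : 𝓞 k)) a
    have h1 : algebraMap (𝓞 k) k x = 0 := by
      rw [← he, ← hs, map_mul, ha, zero_mul]
    have h2 : x = 0 := by
      apply IsFractionRing.injective (𝓞 k) k
      rw [h1, map_zero]
    simp only [h2, map_zero] at hs
    exact (IsUnit.mul_left_eq_zero (IsLocalization.map_units L s)).mp hs
  have hrange : ∀ x : R, ψ x ∈ e.range := by
    intro x
    have hx : x ∈ Algebra.adjoin ℤ (S : Set R) := hS ▸ Algebra.mem_top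
    induction hx using Algebra.adjoin_induction with
    | mem s hs =>
      have h1 : IsIntegral ℤ ((M : k) * ψ s) := by
        have : (M : k) * ψ s = ((∏ t ∈ S.erase s, D t : ℕ) : k) * ((D s : k) * ψ s) := by
          rw [← mul_assoc, ← Nat.cast_mul, mul_comm (∏ t ∈ S.erase s, D t),
            Finset.mul_prod_erase S D hs]
        rw [this]
        exact (isIntegral_algebraMap (R := ℤ) (A := k) (x := ((∏ t ∈ S.erase s, D t : ℕ) : ℤ)) |> fun h => by
          have h' : IsIntegral ℤ (((∏ t ∈ S.erase s, D t : ℕ) : k)) := by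
            simpa using h
          exact h'.mul (hD s))
      let a : 𝓞 k := ⟨(M : k) * ψ s, h1⟩
      refine ⟨algebraMap (𝓞 k) L a * IsLocalization.Away.invSelf (S := L) ((M : ℕ) : 𝓞 k), ?_⟩
      have h2 : e (algebraMap (𝓞 k) L ((M : ℕ) : 𝓞 k)) * e (IsLocalization.Away.invSelf (S := L) ((M : ℕ) : 𝓞 k)) = 1 := by
        rw [← map_mul, IsLocalization.Away.mul_invSelf, map_one]
      rw [he, map_natCast] at h2
      rw [map_mul, he]
      have h3 : algebraMap (𝓞 k) k a = (M : k) * ψ s := rfl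
      rw [h3]
      linear_combination (ψ s) * h2
    | algebraMap r => exact ⟨algebraMap ℤ L r, by simp⟩
    | add x y _ _ hx hy => rw [map_add]; exact Subring.add_mem _ hx hy
    | mul x y _ _ hx hy => rw [map_mul]; exact Subring.mul_mem _ hx hy
  let e' : L ≃+* e.range := RingEquiv.ofBijective e.rangeRestrict
    ⟨fun a b h => heinj (congrArg Subtype.val h), e.rangeRestrict_surjective⟩
  refine ⟨M, hM0, e'.symm.toRingHom.comp (ψ.codRestrict e.range hrange), ?_⟩
  intro x hx
  have h1 : e'.symm (ψ.codRestrict e.range hrange x) = 1 := hx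
  have h2 : ψ.codRestrict e.range hrange x = 1 := by
    rw [← e'.apply_symm_apply (ψ.codRestrict e.range hrange x), h1, map_one]
  exact congrArg Subtype.val h2


theorem numberField_of_surjective {A k : Type*} [CommRing A] [Algebra ℚ A]
    [Algebra.FiniteType ℚ A] [Field k] (ψ : A →+* k) (hψ : Function.Surjective ψ) :
    NumberField k := by
  have h1 : CharZero k := 
    charZero_of_injective_ringHom (f := ψ.comp (algebraMap ℚ A)) (RingHom.injective _)
  have hcomm : ∀ r : ℚ, ψ (algebraMap ℚ A r) = algebraMap ℚ k r := by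
    intro r
    have := RingHom.ext_rat (ψ.comp (algebraMap ℚ A)) (algebraMap ℚ k)
    exact congr($this r)
  let g : A →ₐ[ℚ] k := { ψ with commutes' := hcomm }
  have h2 : Algebra.FiniteType ℚ k := Algebra.FiniteType.of_surjective g hψ
  have h3 := finite_of_finite_type_of_isJacobsonRing ℚ k
  exact @NumberField.mk _ _ h1 h3

/-- Finitely many homomorphisms to rings of `S`-integers of number fields separate the units of a
finitely generated domain of characteristic zero from `1`. -/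
theorem exists_family.{v} (R : Type v) [CommRing R] [IsDomain R] [Algebra.FiniteType ℤ R]
    [CharZero R] :
    ∃ (I : Type v) (_ : Finite I) (k : I → Type v) (_ : ∀ i, Field (k i))
      (_ : ∀ i, NumberField (k i)) (M : I → ℕ) (_ : ∀ i, M i ≠ 0)
      (φ : ∀ i, R →+* Localization.Away ((M i : ℕ) : 𝓞 (k i))),
      ∀ x : Rˣ, (∀ i, φ i x = 1) → x = 1 := by
  classical
  let K := FractionRing R
  have hchar : CharZero K := charZero_of_injective_algebraMap (IsFractionRing.injective R K)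
  obtain ⟨S, hS⟩ := (inferInstance : Algebra.FiniteType ℤ R).out
  let A : Subalgebra ℚ K := Algebra.adjoin ℚ ((algebraMap R K) '' (S : Set R))
  have hft : Algebra.FiniteType ℚ A := by
    rw [← Subalgebra.fg_iff_finiteType]
    exact ⟨S.image (algebraMap R K), by simp [A]⟩
  have hrange : ∀ x : R, algebraMap R K x ∈ A := by
    intro x
    have hx : x ∈ Algebra.adjoin ℤ (S : Set R) := hS ▸ Algebra.mem_top
    induction hx using Algebra.adjoin_induction with
    | mem s hs => exact Algebra.subset_adjoin ⟨s, hs, rfl⟩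
    | algebraMap r =>
      have : algebraMap R K (algebraMap ℤ R r) = algebraMap ℚ K (r : ℚ) := by simp
      rw [this]
      exact A.algebraMap_mem _
    | add x y _ _ hx hy => rw [map_add]; exact A.add_mem hx hy
    | mul x y _ _ hx hy => rw [map_mul]; exact A.mul_mem hx hy
  let j : R →+* A := (algebraMap R K).codRestrict A hrange
  have hj : Function.Injective j := by
    intro a b h
    exact IsFractionRing.injective R K (congrArg Subtype.val h)
  obtain ⟨T, hT⟩ := exists_finset_maximal A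
  have hfield : ∀ m : T, ∃ (M : ℕ) (_ : M ≠ 0) (_ : Field (A ⧸ m.1.asIdeal))
      (_ : NumberField (A ⧸ m.1.asIdeal))
      (φ : R →+* Localization.Away ((M : ℕ) : 𝓞 (A ⧸ m.1.asIdeal))), ∀ x, φ x = 1 → j x - 1 ∈ m.1.asIdeal := by
    intro m
    let _ : Field (A ⧸ m.1.asIdeal) := Ideal.Quotient.field _
    have h4 : NumberField (A ⧸ m.1.asIdeal) :=
      numberField_of_surjective (Ideal.Quotient.mk m.1.asIdeal) Ideal.Quotient.mk_surjective
    obtain ⟨M, hM, φ, hφ⟩ := exists_lift_away (A ⧸ m.1.asIdeal) ((Ideal.Quotient.mk m.1.asIdeal).comp j)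
    refine ⟨M, hM, _, h4, φ, ?_⟩
    intro x hx
    have h5 := hφ x hx
    rw [← Ideal.Quotient.eq_zero_iff_mem, map_sub, map_one, sub_eq_zero]
    exact h5
  choose M hM hfl hnf φ hφ using hfield
  refine ⟨T, inferInstance, fun m => A ⧸ m.1.asIdeal, hfl, hnf, M, hM, φ, ?_⟩
  intro x hx
  have h1 : Units.map (j : R →* A) x = 1 := by
    apply hT
    intro m hm
    exact hφ ⟨m, hm⟩ x (hx ⟨m, hm⟩)
  have h2 : j x = 1 := congrArg Units.val h1
  ext
  exact hj (by rw [h2]; simp)


end Pool.Agent.Helper8.UnitSep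
end

/- Helper12.LVF.H74.LG.Units -/
section
/-!
# The unit equation over finitely generated domains of characteristic zero (Lang)
-/

set_option autoImplicit false

namespace Pool.Agent.Helper74.LG

open NumberField

/-- The elements of `𝓞 k [1/M]` in `k`. -/
lemma integral_of_away {k : Type} [Field k] [NumberField k] (M : ℕ)
    (ψ : Localization.Away ((M : ℕ) : 𝓞 k) →+* k)
    (hψ : ∀ a : 𝓞 k, ψ (algebraMap (𝓞 k) _ a) = (a : k))
    (z : Localization.Away ((M : ℕ) : 𝓞 k)) : ∃ n : ℕ, IsIntegral ℤ ((M : k) ^ n * ψ z) := by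
  obtain ⟨⟨a, ⟨_, n, rfl⟩⟩, hz⟩ := IsLocalization.surj (Submonoid.powers ((M : ℕ) : 𝓞 k)) z
  refine ⟨n, ?_⟩
  have h1 := congrArg ψ hz
  simp only [map_mul, hψ, map_pow, map_natCast] at h1
  have h2 : ((M : k) ^ n * ψ z) = (a : k) := by
    rw [mul_comm, ← h1]
  rw [h2]
  exact a.isIntegral_coe

theorem away_units_finite (k : Type) [Field k] [NumberField k] (M : ℕ) (hM : M ≠ 0) :
    {u : Localization.Away ((M : ℕ) : 𝓞 k) | IsUnit u ∧ IsUnit (1 - u)}.Finite := by
  have hM' : ((M : ℕ) : 𝓞 k) ≠ 0 := by exact_mod_cast hM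
  let ψ : Localization.Away ((M : ℕ) : 𝓞 k) →+* k :=
    IsLocalization.Away.lift ((M : ℕ) : 𝓞 k) (g := algebraMap (𝓞 k) k)
      (isUnit_iff_ne_zero.2 (by simpa using hM'))
  have hψ : ∀ a : 𝓞 k, ψ (algebraMap (𝓞 k) _ a) = (a : k) := fun a =>
    IsLocalization.Away.lift_eq _ _ a
  have hinj : Function.Injective ψ := by
    rw [injective_iff_map_eq_zero]
    intro z hz
    obtain ⟨⟨a, ⟨_, n, rfl⟩⟩, h1⟩ := IsLocalization.surj (Submonoid.powers ((M : ℕ) : 𝓞 k)) z
    have h2 := congrArg ψ h1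
    simp only [map_mul, hz, zero_mul, hψ] at h2
    have h3 : a = 0 := by
      apply NumberField.RingOfIntegers.coe_injective
      rw [map_zero]
      exact h2.symm
    simp only [h3, map_zero] at h1
    have h4 : IsUnit (algebraMap (𝓞 k) (Localization.Away ((M : ℕ) : 𝓞 k))
        (((M : ℕ) : 𝓞 k) ^ n)) :=
      IsLocalization.map_units (M := Submonoid.powers ((M : ℕ) : 𝓞 k)) _ ⟨_, n, rfl⟩
    exact (h4.mul_left_eq_zero).1 h1
  refine Set.Finite.of_finite_image ((Pool.Agent.Helper19.UE.sunit_finite (K := k) M hM).subset ?_) hinj.injOn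
  rintro _ ⟨u, ⟨h1, h2⟩, rfl⟩
  have key : ∀ z : Localization.Away ((M : ℕ) : 𝓞 k), IsUnit z → ψ z ≠ 0 ∧
      ∃ n : ℕ, IsIntegral ℤ ((M : k) ^ n * (ψ z)⁻¹) := by
    rintro _ ⟨z, rfl⟩
    have h3 : ψ (z : Localization.Away ((M : ℕ) : 𝓞 k)) *
        ψ ((z⁻¹ : (Localization.Away ((M : ℕ) : 𝓞 k))ˣ) : Localization.Away ((M : ℕ) : 𝓞 k)) = 1 := by
      rw [← map_mul, Units.mul_inv, map_one]
    refine ⟨left_ne_zero_of_mul_eq_one h3, ?_⟩
    rw [← eq_inv_of_mul_eq_one_right h3]
    exact integral_of_away M ψ hψ _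
  have h4 := key u h1
  have h5 := key (1 - u) h2
  rw [map_sub, map_one] at h5
  have h6 := integral_of_away M ψ hψ u
  have h7 := integral_of_away M ψ hψ (1 - u)
  rw [map_sub, map_one] at h7
  exact ⟨h4.1, h5.1, h6, h4.2, h7, h5.2⟩

/-- **Lang's unit theorem**: the equation `u + v = 1` has finitely many solutions in units of a
finitely generated domain of characteristic zero. -/
theorem units_finite (R : Type) [CommRing R] [IsDomain R] [Algebra.FiniteType ℤ R] [CharZero R] :
    {u : R | IsUnit u ∧ IsUnit (1 - u)}.Finite := by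
  obtain ⟨I, hI, k, hk, hnf, M, hM, φ, hφ⟩ := Pool.Agent.Helper8.UnitSep.exists_family R
  let Φ : R → ∀ i, Localization.Away ((M i : ℕ) : 𝓞 (k i)) := fun u i => φ i u
  have hfin : (Set.univ.pi fun i => {u : Localization.Away ((M i : ℕ) : 𝓞 (k i)) |
      IsUnit u ∧ IsUnit (1 - u)}).Finite :=
    Set.Finite.pi fun i => away_units_finite (k i) (M i) (hM i)
  refine Set.Finite.of_finite_image (f := Φ) (hfin.subset ?_) ?_
  · rintro _ ⟨u, ⟨h1, h2⟩, rfl⟩ i _
    refine ⟨h1.map (φ i), ?_⟩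
    have h3 := h2.map (φ i)
    rw [map_sub, map_one] at h3
    exact h3
  · rintro u ⟨⟨x, hx⟩, -⟩ v ⟨⟨y, hy⟩, -⟩ huv
    have h1 : x * y⁻¹ = 1 := by
      apply hφ
      intro i
      have h2 : φ i u = φ i v := congrFun huv i
      rw [← hx, ← hy] at h2
      have h3 : φ i ((x * y⁻¹ : Rˣ) : R) = φ i (x : R) * φ i ((y⁻¹ : Rˣ) : R) := by
        rw [Units.val_mul, map_mul]
      rw [h3, h2, ← map_mul, Units.mul_inv, map_one]
    have h4 : x = y := mul_inv_eq_one.1 h1
    rw [← hx, ← hy, h4]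

end Pool.Agent.Helper74.LG
end

/- Helper12.LVF.H10.LB.UnitsU -/
section
/-! # LB-UU: the unit equation over finitely generated domains in any universe -/

set_option autoImplicit false

namespace Pool.Agent.Helper10.LB

universe u

theorem units_finiteU (R : Type u) [CommRing R] [IsDomain R] [Algebra.FiniteType ℤ R]
    [CharZero R] : {u : R | IsUnit u ∧ IsUnit (1 - u)}.Finite := by
  obtain ⟨n, f, hf⟩ := Algebra.FiniteType.iff_quotient_mvPolynomial''.1
    (inferInstance : Algebra.FiniteType ℤ R)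
  obtain ⟨Q, _, ⟨e⟩⟩ : ∃ (Q : Type) (_ : CommRing Q), Nonempty (Q ≃+* R) :=
    ⟨MvPolynomial (Fin n) ℤ ⧸ RingHom.ker f, inferInstance,
      ⟨RingHom.quotientKerEquivOfSurjective hf⟩⟩
  have : IsDomain Q := e.toMulEquiv.isDomain R
  have : CharZero Q :=
    ⟨fun a b hab => by
      have h := congrArg e hab
      rw [map_natCast, map_natCast] at h
      exact Nat.cast_injective h⟩
  have : Algebra.FiniteType ℤ Q :=
    Algebra.FiniteType.of_surjective (RingHom.toIntAlgHom (e.symm : R →+* Q)) e.symm.surjective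
  have h := Pool.Agent.Helper74.LG.units_finite Q
  refine (h.image e).subset ?_
  rintro u ⟨h1, h2⟩
  refine ⟨e.symm u, ⟨h1.map e.symm, ?_⟩, e.apply_symm_apply u⟩
  have h3 := h2.map e.symm
  rwa [map_sub, map_one] at h3

/-- in a field: units of a finitely generated subring -/
theorem units_field {K : Type u} [Field K] [CharZero K] (A : Subalgebra ℤ K) (hA : A.FG) :
    {u : K | u ≠ 0 ∧ u ≠ 1 ∧ u ∈ A ∧ u⁻¹ ∈ A ∧ (1 - u)⁻¹ ∈ A}.Finite := by
  have : Algebra.FiniteType ℤ A := A.fg_iff_finiteType.1 hA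
  have : CharZero A := ⟨fun a b hab => by
    have h := congrArg (algebraMap A K) hab
    rw [map_natCast, map_natCast] at h
    exact Nat.cast_injective h⟩
  have h := units_finiteU A
  refine (h.image (fun z : A => (z : K))).subset ?_
  rintro u ⟨h0, h1, h2, h3, h4⟩
  refine ⟨⟨u, h2⟩, ⟨?_, ?_⟩, rfl⟩
  · refine IsUnit.of_mul_eq_one ⟨u⁻¹, h3⟩ (Subtype.ext ?_)
    exact mul_inv_cancel₀ h0
  · refine IsUnit.of_mul_eq_one ⟨(1 - u)⁻¹, h4⟩ (Subtype.ext ?_)
    exact mul_inv_cancel₀ (sub_ne_zero.2 (Ne.symm h1))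

end Pool.Agent.Helper10.LB
end

/- Helper12.LVF.H10.LB.LineArith -/
section
/-! # LB-LA: integral points on a line, arithmetic rings -/

set_option autoImplicit false

namespace Pool.Agent.Helper10.LB

open scoped BigOperators
open Polynomial Pool.Agent.Helper8.LG

/-- products of linear combinations of `y`, `y'` -/
theorem la_lin {E : Type*} [Field E] (A : Subalgebra ℤ E) {d : ℕ} {y y' F α β γ δ : E}
    (hy : ∀ m ≤ d, y ^ m * y' ^ (d - m) / F ∈ A)
    (hα : α ∈ A) (hβ : β ∈ A) (hγ : γ ∈ A) (hδ : δ ∈ A) {j : ℕ} (hj : j ≤ d) :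
    (α * y + β * y') ^ j * (γ * y + δ * y') ^ (d - j) / F ∈ A := by
  rw [add_pow, add_pow, Finset.sum_mul_sum, Finset.sum_div]
  refine sum_mem fun p hp => ?_
  rw [Finset.sum_div]
  refine sum_mem fun q hq => ?_
  have hp' : p ≤ j := Nat.lt_succ_iff.1 (Finset.mem_range.1 hp)
  have hq' : q ≤ d - j := Nat.lt_succ_iff.1 (Finset.mem_range.1 hq)
  have h1 := hy (p + q) (by omega)
  have h2 : (α * y) ^ p * (β * y') ^ (j - p) * (j.choose p : E) *
      ((γ * y) ^ q * (δ * y') ^ (d - j - q) * ((d - j).choose q : E)) / F =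
      (α ^ p * β ^ (j - p) * γ ^ q * δ ^ (d - j - q) * (j.choose p : E) *
        ((d - j).choose q : E)) * (y ^ (p + q) * y' ^ (d - (p + q)) / F) := by
    have h3 : d - (p + q) = (j - p) + (d - j - q) := by omega
    rw [h3, mul_pow, mul_pow, mul_pow, mul_pow, pow_add, pow_add]
    ring
  rw [h2]
  exact mul_mem (mul_mem (mul_mem (mul_mem (mul_mem (mul_mem (pow_mem hα _) (pow_mem hβ _))
    (pow_mem hγ _)) (pow_mem hδ _)) (natCast_mem A _)) (natCast_mem A _)) h1

theorem la_prod {E ι : Type*} [Field E] [DecidableEq ι] (A : Subalgebra ℤ E) {d : ι → ℕ}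
    {F : ι → E} {z : E} (s : Finset ι) (h : ∀ i ∈ s, ∀ j ≤ d i, z ^ j / F i ∈ A) :
    ∀ j ≤ ∑ i ∈ s, d i, z ^ j / ∏ i ∈ s, F i ∈ A := by
  induction s using Finset.induction_on with
  | empty =>
    intro j hj
    rw [Finset.sum_empty, Nat.le_zero] at hj
    rw [hj, Finset.prod_empty, pow_zero, div_one]
    exact one_mem A
  | insert i s hi ih =>
    intro j hj
    rw [Finset.sum_insert hi] at hj
    rw [Finset.prod_insert hi]
    have h1 := h i (Finset.mem_insert_self i s) (min j (d i)) (min_le_right _ _)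
    have h2 := ih (fun i' hi' => h i' (Finset.mem_insert_of_mem hi')) (j - min j (d i)) (by omega)
    have h3 : z ^ j / (F i * ∏ i ∈ s, F i) =
        z ^ min j (d i) / F i * (z ^ (j - min j (d i)) / ∏ i ∈ s, F i) := by
      rw [div_mul_div_comm, ← pow_add, Nat.add_sub_cancel' (min_le_left _ _)]
    rw [h3]
    exact mul_mem h1 h2

theorem la_mult {E : Type*} [Field E] (A : Subalgebra ℤ E) {n : ℕ} {F z : E}
    (hz : ∀ j ≤ n, z ^ j / F ∈ A) (s : Multiset E) (hs : ∀ r ∈ s, r ∈ A) :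
    ∀ k, s.card + k ≤ n → (s.map fun r => z - r).prod * z ^ k / F ∈ A := by
  induction s using Multiset.induction_on with
  | empty =>
    intro k hk
    rw [Multiset.map_zero, Multiset.prod_zero, one_mul]
    exact hz k (by simpa using hk)
  | cons r s ih =>
    intro k hk
    rw [Multiset.card_cons] at hk
    have hs' : ∀ r ∈ s, r ∈ A := fun r' hr' => hs r' (Multiset.mem_cons_of_mem hr')
    have h1 := ih hs' (k + 1) (by omega)
    have h2 := ih hs' k (by omega)
    have h3 : ((r ::ₘ s).map fun r => z - r).prod * z ^ k / F =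
        (s.map fun r => z - r).prod * z ^ (k + 1) / F -
          r * ((s.map fun r => z - r).prod * z ^ k / F) := by
      rw [Multiset.map_cons, Multiset.prod_cons]
      ring
    rw [h3]
    exact sub_mem h1 (mul_mem (hs r (Multiset.mem_cons_self r s)) h2)

theorem la_quot {E : Type*} [Field E] (A : Subalgebra ℤ E) {n : ℕ} {F z c : E}
    (hz : ∀ j ≤ n, z ^ j / F ∈ A) (R : Multiset E) (hR : ∀ r ∈ R, r ∈ A) (hn : R.card = n)
    (hc : c ∈ A) (hF : F = c * (R.map fun r => z - r).prod) (hF0 : F ≠ 0) {r₀ r₁ : E}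
    (h0 : r₀ ∈ R) (h1 : r₁ ∈ A) : (z - r₁) / (z - r₀) ∈ A := by
  classical
  obtain ⟨R', rfl⟩ := Multiset.exists_cons_of_mem h0
  rw [Multiset.card_cons] at hn
  rw [Multiset.map_cons, Multiset.prod_cons] at hF
  have h2 := la_mult A hz (r₁ ::ₘ R') (fun r hr => by
    rcases Multiset.mem_cons.1 hr with h | h
    · rw [h]; exact h1
    · exact hR r (Multiset.mem_cons_of_mem h)) 0 (by rw [Multiset.card_cons]; omega)
  rw [Multiset.map_cons, Multiset.prod_cons, pow_zero, mul_one] at h2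
  have h3 : (z - r₁) / (z - r₀) =
      c * ((z - r₁) * (R'.map fun r => z - r).prod / F) := by
    have hc0 : c ≠ 0 := fun h => hF0 (by rw [hF, h, zero_mul])
    have hz0 : z - r₀ ≠ 0 := fun h => hF0 (by rw [hF, h, zero_mul, mul_zero])
    have hP0 : (R'.map fun r => z - r).prod ≠ 0 := fun h =>
      hF0 (by rw [hF, h, mul_zero, mul_zero])
    rw [hF]
    (clear * - hc0 hP0 hz0; field_simp)
  rw [h3]
  exact mul_mem hc h2

theorem la_mon {E σ : Type*} [CommMonoid E] [DecidableEq σ] {d m : ℕ} (hm : m ≤ d) (b b' : σ) :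
    ∃ J : Sym σ d, ∀ x : σ → E, mon x J = x b ^ m * x b' ^ (d - m) := by
  refine ⟨⟨Multiset.replicate m b + Multiset.replicate (d - m) b', ?_⟩, fun x => ?_⟩
  · rw [Multiset.card_add, Multiset.card_replicate, Multiset.card_replicate]
    omega
  · change ((Multiset.replicate m b + Multiset.replicate (d - m) b').map x).prod = _
    rw [Multiset.map_add, Multiset.prod_add, Multiset.map_replicate, Multiset.map_replicate,
      Multiset.prod_replicate, Multiset.prod_replicate]

theorem la_three {K E : Type*} [Field K] [CharZero K] [Field E] [Algebra K E] [IsAlgClosed E]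
    (f : K[X]) (hf : f ≠ 0) (h3 : ∀ h : K[X], h ≠ 0 → (∃ n, f ∣ h ^ n) → 3 ≤ h.natDegree) :
    ∃ r₁ ∈ (f.map (algebraMap K E)).roots, ∃ r₂ ∈ (f.map (algebraMap K E)).roots,
      ∃ r₃ ∈ (f.map (algebraMap K E)).roots, r₁ ≠ r₂ ∧ r₁ ≠ r₃ ∧ r₂ ≠ r₃ := by
  classical
  set h := UniqueFactorizationMonoid.radical f with hh
  have h0 : h ≠ 0 := UniqueFactorizationMonoid.radical_ne_zero
  have h1 := h3 h h0 (UniqueFactorizationMonoid.exists_dvd_radical_self_pow hf)
  have hsep : h.Separable := PerfectField.separable_iff_squarefree.2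
    UniqueFactorizationMonoid.squarefree_radical
  have hdvd : h ∣ f := UniqueFactorizationMonoid.radical_dvd_self
  have hnodup : (h.map (algebraMap K E)).roots.Nodup := nodup_roots hsep.map
  have hcard : (h.map (algebraMap K E)).roots.card = h.natDegree := by
    rw [← (IsAlgClosed.splits (h.map (algebraMap K E))).natDegree_eq_card_roots,
      natDegree_map]
  have hsub : ∀ r ∈ (h.map (algebraMap K E)).roots, r ∈ (f.map (algebraMap K E)).roots := by
    intro r hr
    exact Multiset.mem_of_le (roots.le_of_dvd (map_ne_zero hf) (map_dvd _ hdvd)) hr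
  have h2 : 2 < (h.map (algebraMap K E)).roots.toFinset.card := by
    rw [Multiset.toFinset_card_of_nodup hnodup, hcard]
    omega
  obtain ⟨r₁, hr1, r₂, hr2, r₃, hr3, h12, h13, h23⟩ := Finset.two_lt_card.1 h2
  exact ⟨r₁, hsub _ (Multiset.mem_toFinset.1 hr1), r₂, hsub _ (Multiset.mem_toFinset.1 hr2),
    r₃, hsub _ (Multiset.mem_toFinset.1 hr3), h12, h13, h23⟩

/-- the parameters of the integral points -/
theorem la_param {K : Type*} [Field K] [CharZero K] (E : Type*) [Field E] [CharZero E]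
    [Algebra K E] [IsAlgClosed E] {σ ι : Type*} [Fintype σ] [DecidableEq σ]
    [Fintype ι] [DecidableEq ι] {d : ι → ℕ} (a : (i : ι) → Sym σ (d i) → K) (Z : Finset ι)
    (A : Subalgebra ℤ K) (hA : A.FG) (u v : σ → K) (b b' : σ)
    (hpi : u b * v b' - u b' * v b ≠ 0) (hv : ∀ i ∉ Z, form (a i) v ≠ 0)
    (h3 : ∀ h : K[X], h ≠ 0 → (∀ i ∉ Z, ∃ n, lf (a i) u v ∣ h ^ n) → 3 ≤ h.natDegree) :
    {z : K | ∀ i ∉ Z, form (a i) (fun l => u l + z * v l) ≠ 0 ∧
      ∀ J : Sym σ (d i), mon (fun l => u l + z * v l) J /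
        form (a i) (fun l => u l + z * v l) ∈ A}.Finite := by
  classical
  obtain ⟨φ, hφ⟩ : ∃ φ : K →+* E, φ = algebraMap K E := ⟨_, rfl⟩
  set f : K[X] := ∏ i ∈ Zᶜ, lf (a i) u v with hf
  have hdeg : ∀ i ∉ Z, (lf (a i) u v).natDegree = d i := fun i hi =>
    natDegree_eq_of_le_of_coeff_ne_zero (lf_natDegree_le _ _ _) (by
      rw [lf_coeff_top]
      exact hv i hi)
  have hne : ∀ i ∈ Zᶜ, lf (a i) u v ≠ 0 := fun i hi h => hv i (Finset.mem_compl.1 hi) (by
    rw [← lf_coeff_top (a i) u v, h, coeff_zero])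
  have hf0 : f ≠ 0 := Finset.prod_ne_zero_iff.2 hne
  have hfd : f.natDegree = ∑ i ∈ Zᶜ, d i := by
    rw [hf, natDegree_prod _ _ hne]
    exact Finset.sum_congr rfl fun i hi => hdeg i (Finset.mem_compl.1 hi)
  have hdvd : ∀ i ∉ Z, lf (a i) u v ∣ f := fun i hi =>
    Finset.dvd_prod_of_mem (fun i => lf (a i) u v) (Finset.mem_compl.2 hi)
  have h3' : ∀ h : K[X], h ≠ 0 → (∃ n, f ∣ h ^ n) → 3 ≤ h.natDegree := by
    rintro h h0 ⟨n, hn⟩
    exact h3 h h0 fun i hi => ⟨n, (hdvd i hi).trans hn⟩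
  obtain ⟨r₁, hr1, r₂, hr2, r₃, hr3, h12, h13, h23⟩ := la_three (E := E) f hf0 h3'
  rw [← hφ] at hr1 hr2 hr3
  obtain ⟨R, hR⟩ : ∃ R : Multiset E, R = (f.map φ).roots := ⟨_, rfl⟩
  rw [← hR] at hr1 hr2 hr3
  have hsplit : (f.map φ).Splits := IsAlgClosed.splits _
  have hcard : R.card = ∑ i ∈ Zᶜ, d i := by
    rw [hR, ← hsplit.natDegree_eq_card_roots, natDegree_map, hfd]
  obtain ⟨T, hT⟩ : ∃ T : Set E, T = (R.toFinset : Set E) ∪
    ((fun p : E × E => (p.1 - p.2)⁻¹) '' ((R.toFinset : Set E) ×ˢ (R.toFinset : Set E))) ∪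
    (Set.range fun l => φ (u l)) ∪ (Set.range fun l => φ (v l)) ∪
    {φ (u b * v b' - u b' * v b)⁻¹, (f.map φ).leadingCoeff} := ⟨_, rfl⟩
  have hTfin : T.Finite := by
    rw [hT]
    exact ((((Finset.finite_toSet _).union (((Finset.finite_toSet _).prod
      (Finset.finite_toSet _)).image _)).union (Set.finite_range _)).union
      (Set.finite_range _)).union (Set.toFinite _)
  obtain ⟨A', hA'fg, hTA, hAA⟩ : ∃ A' : Subalgebra ℤ E, A'.FG ∧ (∀ e ∈ T, e ∈ A') ∧
      ∀ e ∈ A, φ e ∈ A' :=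
    ⟨A.map φ.toIntAlgHom ⊔ Algebra.adjoin ℤ T,
      (hA.map _).sup (Subalgebra.fg_def.2 ⟨T, hTfin, rfl⟩),
      fun e he => (le_sup_right : Algebra.adjoin ℤ T ≤ _) (Algebra.subset_adjoin he),
      fun e he => (le_sup_left : A.map φ.toIntAlgHom ≤ _) (Subalgebra.mem_map.2 ⟨e, he, rfl⟩)⟩
  rw [hT] at hTA
  have hRA : ∀ r ∈ R, r ∈ A' := fun r hr => hTA r
    (Or.inl (Or.inl (Or.inl (Or.inl (Multiset.mem_toFinset.2 hr)))))
  have hinv : ∀ r ∈ R, ∀ r' ∈ R, (r - r')⁻¹ ∈ A' := fun r hr r' hr' => hTA _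
    (Or.inl (Or.inl (Or.inl (Or.inr ⟨(r, r'), ⟨Multiset.mem_toFinset.2 hr,
      Multiset.mem_toFinset.2 hr'⟩, rfl⟩))))
  have huA : ∀ l, φ (u l) ∈ A' := fun l => hTA _ (Or.inl (Or.inl (Or.inr ⟨l, rfl⟩)))
  have hvA : ∀ l, φ (v l) ∈ A' := fun l => hTA _ (Or.inl (Or.inr ⟨l, rfl⟩))
  have hpA : φ (u b * v b' - u b' * v b)⁻¹ ∈ A' := hTA _ (Or.inr (Or.inl rfl))
  have hcA : (f.map φ).leadingCoeff ∈ A' := hTA _ (Or.inr (Or.inr rfl))
  -- the powers of `z` divided by the value of `f`
  have key : ∀ z : K, (∀ i ∉ Z, form (a i) (fun l => u l + z * v l) ≠ 0 ∧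
      ∀ J : Sym σ (d i), mon (fun l => u l + z * v l) J /
        form (a i) (fun l => u l + z * v l) ∈ A) →
      (f.map φ).eval (φ z) ≠ 0 ∧
        ∀ j ≤ ∑ i ∈ Zᶜ, d i, φ z ^ j / (f.map φ).eval (φ z) ∈ A' := by
    intro z hz
    have h1 : (f.map φ).eval (φ z) = ∏ i ∈ Zᶜ, φ (form (a i) fun l => u l + z * v l) := by
      rw [eval_map_apply, hf, eval_prod, map_prod]
      refine Finset.prod_congr rfl fun i _ => ?_
      rw [lf_eval]
    rw [h1]
    refine ⟨Finset.prod_ne_zero_iff.2 fun i hi => ?_, la_prod A' _ fun i hi j hj => ?_⟩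
    · rw [Ne, map_eq_zero]
      exact (hz i (Finset.mem_compl.1 hi)).1
    · have hz' := (hz i (Finset.mem_compl.1 hi)).2
      have h2 : ∀ m ≤ d i, φ (u b + z * v b) ^ m * φ (u b' + z * v b') ^ (d i - m) /
          φ (form (a i) fun l => u l + z * v l) ∈ A' := by
        intro m hm
        obtain ⟨J, hJ⟩ := la_mon (E := K) hm b b'
        have h4 := hAA _ (hz' J)
        rw [hJ, map_div₀, map_mul, map_pow, map_pow] at h4
        exact h4
      have hp0 : φ (u b * v b' - u b' * v b) ≠ 0 := by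
        rw [Ne, map_eq_zero]
        exact hpi
      have h5 := la_lin A' (α := -(φ (u b') * φ (u b * v b' - u b' * v b)⁻¹))
        (β := φ (u b) * φ (u b * v b' - u b' * v b)⁻¹)
        (γ := φ (v b') * φ (u b * v b' - u b' * v b)⁻¹)
        (δ := -(φ (v b) * φ (u b * v b' - u b' * v b)⁻¹)) h2
        (neg_mem (mul_mem (huA _) hpA)) (mul_mem (huA _) hpA) (mul_mem (hvA _) hpA)
        (neg_mem (mul_mem (hvA _) hpA)) hj
      have h6 : -(φ (u b') * φ (u b * v b' - u b' * v b)⁻¹) * φ (u b + z * v b) +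
          φ (u b) * φ (u b * v b' - u b' * v b)⁻¹ * φ (u b' + z * v b') = φ z := by
        have h8 : -(u b' * (u b * v b' - u b' * v b)⁻¹) * (u b + z * v b) +
            u b * (u b * v b' - u b' * v b)⁻¹ * (u b' + z * v b') = z := by
          linear_combination z * inv_mul_cancel₀ hpi
        simpa only [map_add, map_mul, map_neg] using congrArg φ h8
      have h7 : φ (v b') * φ (u b * v b' - u b' * v b)⁻¹ * φ (u b + z * v b) +
          -(φ (v b) * φ (u b * v b' - u b' * v b)⁻¹) * φ (u b' + z * v b') = 1 := by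
        have h8 : v b' * (u b * v b' - u b' * v b)⁻¹ * (u b + z * v b) +
            -(v b * (u b * v b' - u b' * v b)⁻¹) * (u b' + z * v b') = 1 := by
          linear_combination inv_mul_cancel₀ hpi
        simpa only [map_add, map_mul, map_neg, map_one] using congrArg φ h8
      rw [h6, h7, one_pow, mul_one] at h5
      exact h5
  have hev : ∀ z : E, (f.map φ).eval z =
      (f.map φ).leadingCoeff * (R.map fun r => z - r).prod := by
    rw [hR]
    exact fun z => hsplit.eval_eq_prod_roots z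
  have hroot : ∀ r ∈ R, (f.map φ).eval r = 0 := by
    rw [hR]
    exact fun r hr => (mem_roots (map_ne_zero hf0)).1 hr
  refine Set.Finite.of_injOn (f := fun z : K => ((φ z - r₁) * (r₂ - r₃)) /
    ((φ z - r₃) * (r₂ - r₁))) ?_ ?_ (units_field A' hA'fg)
  · intro z hz
    obtain ⟨hF0, hF⟩ := key z hz
    have hq : ∀ r₀ ∈ R, ∀ r ∈ R, (φ z - r) / (φ z - r₀) ∈ A' := fun r₀ h0 r h =>
      la_quot A' hF R hRA hcard hcA (hev _) hF0 h0 (hRA r h)
    have hn : ∀ r ∈ R, φ z - r ≠ 0 := by
      intro r hr h0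
      apply hF0
      rw [sub_eq_zero.1 h0]
      exact hroot r hr
    have e1 := hn r₁ hr1
    have e2 := hn r₂ hr2
    have e3 := hn r₃ hr3
    have e21 : r₂ - r₁ ≠ 0 := sub_ne_zero.2 h12.symm
    have e23 : r₂ - r₃ ≠ 0 := sub_ne_zero.2 h23
    have e31 : r₃ - r₁ ≠ 0 := sub_ne_zero.2 h13.symm
    have hw1 : 1 - ((φ z - r₁) * (r₂ - r₃)) / ((φ z - r₃) * (r₂ - r₁)) =
        ((φ z - r₂) / (φ z - r₃)) * ((r₃ - r₁) / (r₂ - r₁)) := by
      field_simp
      ring
    refine ⟨?_, ?_, ?_, ?_, ?_⟩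
    · exact div_ne_zero (mul_ne_zero e1 e23) (mul_ne_zero e3 e21)
    · intro h
      have h4 : (1 : E) - ((φ z - r₁) * (r₂ - r₃)) / ((φ z - r₃) * (r₂ - r₁)) = 0 := by
        rw [sub_eq_zero]
        exact h.symm
      rw [hw1] at h4
      exact mul_ne_zero (div_ne_zero e2 e3) (div_ne_zero e31 e21) h4
    · have h4 : ((φ z - r₁) * (r₂ - r₃)) / ((φ z - r₃) * (r₂ - r₁)) =
          (φ z - r₁) / (φ z - r₃) * ((r₂ - r₃) * (r₂ - r₁)⁻¹) := by
        field_simp
      change ((φ z - r₁) * (r₂ - r₃)) / ((φ z - r₃) * (r₂ - r₁)) ∈ A'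
      rw [h4]
      exact mul_mem (hq r₃ hr3 r₁ hr1) (mul_mem (sub_mem (hRA _ hr2) (hRA _ hr3))
        (hinv _ hr2 _ hr1))
    · have h4 : (((φ z - r₁) * (r₂ - r₃)) / ((φ z - r₃) * (r₂ - r₁)))⁻¹ =
          (φ z - r₃) / (φ z - r₁) * ((r₂ - r₁) * (r₂ - r₃)⁻¹) := by
        field_simp
      change (((φ z - r₁) * (r₂ - r₃)) / ((φ z - r₃) * (r₂ - r₁)))⁻¹ ∈ A'
      rw [h4]
      exact mul_mem (hq r₁ hr1 r₃ hr3) (mul_mem (sub_mem (hRA _ hr2) (hRA _ hr1))
        (hinv _ hr2 _ hr3))
    · change (1 - ((φ z - r₁) * (r₂ - r₃)) / ((φ z - r₃) * (r₂ - r₁)))⁻¹ ∈ A'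
      have h4 : (1 - ((φ z - r₁) * (r₂ - r₃)) / ((φ z - r₃) * (r₂ - r₁)))⁻¹ =
          (φ z - r₃) / (φ z - r₂) * ((r₂ - r₁) * (r₃ - r₁)⁻¹) := by
        rw [hw1]
        (clear * - e21 e31 e3 e2; field_simp)
      rw [h4]
      exact mul_mem (hq r₂ hr2 r₃ hr3) (mul_mem (sub_mem (hRA _ hr2) (hRA _ hr1))
        (hinv _ hr3 _ hr1))
  · intro z hz z' hz' h
    obtain ⟨hF0, -⟩ := key z hz
    obtain ⟨hF0', -⟩ := key z' hz'
    have hn : ∀ y : E, (f.map φ).eval y ≠ 0 → ∀ r ∈ R, y - r ≠ 0 := by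
      intro y hy r hr h0
      apply hy
      rw [sub_eq_zero.1 h0]
      exact hroot r hr
    have e3 := hn _ hF0 r₃ hr3
    have e3' := hn _ hF0' r₃ hr3
    have e21 : r₂ - r₁ ≠ 0 := sub_ne_zero.2 h12.symm
    have e23 : r₂ - r₃ ≠ 0 := sub_ne_zero.2 h23
    have e31 : r₃ - r₁ ≠ 0 := sub_ne_zero.2 h13.symm
    have h4 : ((φ z - r₁) * (r₂ - r₃)) / ((φ z - r₃) * (r₂ - r₁)) =
      ((φ z' - r₁) * (r₂ - r₃)) / ((φ z' - r₃) * (r₂ - r₁)) := h
    rw [div_eq_div_iff (mul_ne_zero e3 e21) (mul_ne_zero e3' e21)] at h4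
    have h5 : (φ z - φ z') * ((r₃ - r₁) * ((r₂ - r₃) * (r₂ - r₁))) = 0 := by
      linear_combination -h4
    have h6 : φ z - φ z' = 0 := by
      rcases mul_eq_zero.1 h5 with h6 | h6
      · exact h6
      · exact absurd h6 (mul_ne_zero e31 (mul_ne_zero e23 e21))
    exact φ.injective (sub_eq_zero.1 h6)

theorem la_mon_smul {K σ : Type*} [CommSemiring K] {n : ℕ} (s : K) (x : σ → K) (J : Sym σ n) :
    mon (fun l => s * x l) J = s ^ n * mon x J := by
  unfold mon
  rw [Multiset.prod_map_mul, Multiset.map_const', Multiset.prod_replicate, Sym.card_coe]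

theorem la_form_smul {K σ : Type*} [CommSemiring K] [Fintype σ] [DecidableEq σ] {n : ℕ}
    (a : Sym σ n → K) (s : K) (x : σ → K) :
    form a (fun l => s * x l) = s ^ n * form a x := by
  unfold form
  rw [Finset.mul_sum]
  refine Finset.sum_congr rfl fun J _ => ?_
  rw [la_mon_smul]
  ring

/-- The forms `F_i`, `i ∉ Z`, have together at least three distinct zeros on the line `u, v`, none
of them the point `v`: there are finitely many integral points on the line. -/
theorem line_arith {K : Type*} [Field K] [CharZero K] {σ ι : Type*} [Fintype σ] [DecidableEq σ]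
    [Fintype ι] [DecidableEq ι] {d : ι → ℕ} (a : (i : ι) → Sym σ (d i) → K) (Z : Finset ι)
    (A : Subalgebra ℤ K) (hA : A.FG) (u v : σ → K) (b b' : σ)
    (hpi : u b * v b' - u b' * v b ≠ 0) (hv : ∀ i ∉ Z, form (a i) v ≠ 0)
    (h3 : ∀ h : K[X], h ≠ 0 → (∀ i ∉ Z, ∃ n, lf (a i) u v ∣ h ^ n) → 3 ≤ h.natDegree)
    (i₀ : σ) :
    {x : σ → K | x i₀ = 1 ∧ (∀ i ∉ Z, form (a i) x ≠ 0 ∧
      ∀ J : Sym σ (d i), mon x J / form (a i) x ∈ A) ∧
      ∃ s t : K, ∀ l, x l = s * u l + t * v l}.Finite := by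
  refine ((la_param (AlgebraicClosure K) a Z A hA u v b b' hpi hv h3).image
    (fun z l => (u l + z * v l) / (u i₀ + z * v i₀))).union (Set.finite_singleton
      (fun l => v l / v i₀)) |>.subset ?_
  rintro x ⟨hx1, hx2, s, t, hst⟩
  by_cases hs : s = 0
  · right
    rw [Set.mem_singleton_iff]
    have h1 : t * v i₀ = 1 := by
      have h2 := hst i₀
      rw [hx1, hs, zero_mul, zero_add] at h2
      exact h2.symm
    have hv0 : v i₀ ≠ 0 := right_ne_zero_of_mul_eq_one h1
    funext l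
    rw [hst l, hs, zero_mul, zero_add, eq_div_iff hv0]
    linear_combination v l * h1
  · left
    have hx : x = fun l => s * (u l + t / s * v l) := by
      funext l
      rw [hst l]
      field_simp
    have h1 : s * (u i₀ + t / s * v i₀) = 1 := by
      rw [← hx1, hx]
    have hd0 : u i₀ + t / s * v i₀ ≠ 0 := right_ne_zero_of_mul_eq_one h1
    refine ⟨t / s, fun i hi => ?_, ?_⟩
    · obtain ⟨h2, h4⟩ := hx2 i hi
      rw [hx, la_form_smul] at h2
      have h5 : form (a i) (fun l => u l + t / s * v l) ≠ 0 := right_ne_zero_of_mul h2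
      refine ⟨h5, fun J => ?_⟩
      have h6 := h4 J
      rw [hx, la_form_smul, la_mon_smul, mul_div_mul_left _ _ (pow_ne_zero _ hs)] at h6
      exact h6
    · funext l
      change (u l + t / s * v l) / (u i₀ + t / s * v i₀) = x l
      rw [hst l, div_eq_iff hd0]
      have h7 : s * u l + t * v l = s * (u l + t / s * v l) := by
        (clear * - hs; field_simp)
      rw [h7]
      linear_combination -(u l + t / s * v l) * h1

end Pool.Agent.Helper10.LB
end
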