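import Mathlib
import Pool.Agent.Helper12.LVM.C03
import Pool.Agent.Helper12.LVM.C04
import Pool.Agent.Helper12.LVM.C05

/- Helper12.LVF.H8.LG.Rigid -/
section
/-! # LG-RIGID: rigidity along constants -/

set_option autoImplicit false

namespace Pool.Agent.Helper8.LG

open scoped BigOperators

section RigidAux

variable {E : Type*} [Field E]

/-- being algebraic only depends on the image of the field of coefficients -/
theorem rg_alg {R₁ R₂ : Type*} [Field R₁] [Field R₂] [Algebra R₁ E] [Algebra R₂ E]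
    (h : ∀ r : R₁, ∃ s : R₂, algebraMap R₂ E s = algebraMap R₁ E r) {z : E}
    (hz : IsAlgebraic R₁ z) : IsAlgebraic R₂ z := by
  obtain ⟨p, hp0, hp⟩ := hz
  have h1 : p.map (algebraMap R₁ E) ∈ Polynomial.lifts (algebraMap R₂ E) := by
    rw [Polynomial.lifts_iff_coeff_lifts]
    intro n
    obtain ⟨s, hs⟩ := h (p.coeff n)
    exact ⟨s, by rw [hs, Polynomial.coeff_map]⟩
  obtain ⟨q, hq⟩ := (Polynomial.mem_lifts _).1 h1
  refine ⟨q, ?_, ?_⟩
  · rintro rfl
    rw [Polynomial.map_zero] at hq
    exact hp0 ((Polynomial.map_eq_zero _).1 hq.symm)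
  · rw [Polynomial.aeval_def, Polynomial.eval₂_eq_eval_map, hq, ← Polynomial.eval₂_eq_eval_map,
      ← Polynomial.aeval_def, hp]

theorem rg_mon_div {σ : Type*} {n : ℕ} (x : σ → E) (c : E) (J : Sym σ n) :
    mon (fun l => x l / c) J = mon x J / c ^ n := by
  unfold mon
  simp only [div_eq_mul_inv]
  rw [Multiset.prod_map_mul, Multiset.map_const', Multiset.prod_replicate, Sym.card_coe, inv_pow]

theorem rg_form_div {σ : Type*} [Fintype σ] [DecidableEq σ] {n : ℕ} (a : Sym σ n → E)
    (x : σ → E) (c : E) : form a (fun l => x l / c) = form a x / c ^ n := by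
  unfold form
  rw [Finset.sum_div]
  exact Finset.sum_congr rfl fun J _ => by rw [rg_mon_div, mul_div_assoc]

theorem rg_mon_replicate {σ : Type*} (x : σ → E) (n : ℕ) (j : σ) :
    mon x (Sym.replicate n j) = x j ^ n := by
  unfold mon
  rw [Sym.coe_replicate, Multiset.map_replicate, Multiset.prod_replicate]

theorem rg_stable (D : Derivation ℤ E E) (T : Set E)
    (h : ∀ f ∈ T, D f ∈ Subfield.closure T) :
    ∀ f ∈ Subfield.closure T, D f ∈ Subfield.closure T := by
  intro f hf
  induction hf using Subfield.closure_induction with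
  | mem x hx => exact h x hx
  | one => rw [D.map_one_eq_zero]; exact zero_mem _
  | add x y hx hy ihx ihy => rw [map_add]; exact add_mem ihx ihy
  | neg x hx ih => rw [map_neg]; exact neg_mem ih
  | inv x hx ih =>
    rw [D.leibniz_inv, smul_eq_mul, neg_mul]
    exact neg_mem (mul_mem (pow_mem (inv_mem hx) 2) ih)
  | mul x y hx hy ihx ihy =>
    rw [D.leibniz, smul_eq_mul, smul_eq_mul]
    exact add_mem (mul_mem hx ihy) (mul_mem hy ihx)

theorem rg_kill (D : Derivation ℤ E E) (T : Set E) (h : ∀ f ∈ T, D f = 0) :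
    ∀ f ∈ Subfield.closure T, D f = 0 := by
  intro f hf
  induction hf using Subfield.closure_induction with
  | mem x hx => exact h x hx
  | one => exact D.map_one_eq_zero
  | add x y hx hy ihx ihy => rw [map_add, ihx, ihy, add_zero]
  | neg x hx ih => rw [map_neg, ih, neg_zero]
  | inv x hx ih => rw [D.leibniz_inv, ih, smul_zero]
  | mul x y hx hy ihx ihy => rw [D.leibniz, ihx, ihy, smul_zero, smul_zero, add_zero]

theorem rg_mem_intCl (E₀ : Subfield E) (t : E) {f : E}
    (hf : f ∈ Subring.closure ((E₀ : Set E) ∪ {t})) : f ∈ intCl E₀ t :=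
  isIntegral_algebraMap (x := (⟨f, hf⟩ : Subring.closure ((E₀ : Set E) ∪ {t})))

theorem rg_mem_of_pow (O : ValuationSubring E) {y : E} {m : ℕ} (hm : 0 < m) (h : y ^ m ∈ O) :
    y ∈ O := by
  rcases O.mem_or_inv_mem y with h1 | h1
  · exact h1
  · by_cases hy : y = 0
    · rw [hy]; exact zero_mem O
    · obtain ⟨r, rfl⟩ : ∃ r, m = r + 1 := ⟨m - 1, by omega⟩
      have h2 : y = y ^ (r + 1) * y⁻¹ ^ r := by
        rw [pow_succ, mul_comm (y ^ r) y, mul_assoc, ← mul_pow, mul_inv_cancel₀ hy, one_pow,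
          mul_one]
      rw [h2]
      exact mul_mem h (pow_mem h1 r)

theorem rg_log (D : Derivation ℤ E E) {z : E} (hz : z ≠ 0) (r : ℕ) :
    z * (D (z ^ (r + 1)) / z ^ (r + 1)) = ((r + 1 : ℕ) : E) * D z := by
  rw [D.leibniz_pow, Nat.add_sub_cancel, nsmul_eq_mul, smul_eq_mul, pow_succ]
  field_simp

/-- One side: `G x_l` is integral over `E₀[t]`. -/
theorem rg_side [CharZero E] {σ ι τ : Type*} [Fintype σ] [DecidableEq σ] [Fintype ι]
    [DecidableEq ι] [Fintype τ] (d e m : ι → ℕ) (a : (i : ι) → Sym σ (d i) → E)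
    (D : Ix σ d → Derivation ℤ E E) (θ : τ → Ix σ d → E) (Z C : Finset ι) (w cc : ℕ)
    (hnum : Num d e m Z C w cc)
    (x : σ → E) (y : ι → E) (hU : ∀ i ∉ Z, form (a i) x ≠ 0)
    (hroot : ∀ i ∈ C, y i ^ m i = form (a i) x)
    (E₀ : Subfield E) (t : E) (ht : Transcendental E₀ t)
    (hfin : FiniteDimensional (Subfield.closure ((E₀ : Set E) ∪ {t})) E)
    (hstab : ∀ p, ∀ f ∈ intCl E₀ t, D p f ∈ intCl E₀ t)
    (ha : ∀ i J, a i J ∈ E₀) (hθ : ∀ j s, θ j s ∈ E₀) {n : ℕ} (c : Fin n → E) (hDc : ∀ p r, D p (c r) = 0)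
    (hc : ∀ O : ValuationSubring E, (∀ f ∈ E₀, f ∈ O) → (∀ r, c r ∈ O) →
      ∀ i ∉ Z, i ∉ C → ∀ J : Sym σ (d i), mon x J / form (a i) x ∈ O)
    (G : E) (hG : KeyG d e a D θ Z (uu C y) x G) (l : σ) : G * x l ∈ intCl E₀ t := by
  obtain ⟨h1, h2⟩ := intCl_dedekind E₀ t ht hfin
  haveI := h1
  haveI := h2
  have hE₀R : ∀ f ∈ E₀, f ∈ intCl E₀ t := fun f hf =>
    rg_mem_intCl E₀ t (Subring.subset_closure (Or.inl hf))
  have hQ : ∀ n : ℕ, n ≠ 0 → ((n : E))⁻¹ ∈ intCl E₀ t := fun n _ =>
    hE₀R _ (inv_mem (natCast_mem E₀ n))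
  apply mem_of (intCl E₀ t)
  intro O hO
  have hE₀O : ∀ f ∈ E₀, f ∈ O := fun f hf => hO (hE₀R f hf)
  have hbdd : Bdd D 1 O := bdd_of (intCl E₀ t) D 1 (one_mem _)
    (fun p f hf => by rw [one_mul]; exact hstab p f hf) O hO
  have hDO : ∀ p, ∀ f ∈ O, D p f ∈ O := fun p f hf => by
    have := hbdd.2 p f hf
    rwa [one_mul] at this
  have hrow : ∀ i ∉ Z, RowBdd D 1 O x (form (a i)) (uu C y i) (e i) := by
    intro i hiZ j hj hprim
    have hform := rg_form_div (a i) x (x j)
    have hform0 : form (a i) (fun l => x l / x j) ≠ 0 := by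
      rw [hform]
      exact div_ne_zero (hU i hiZ) (pow_ne_zero _ hj)
    have hformO : form (a i) (fun l => x l / x j) ∈ O := by
      unfold form
      refine sum_mem fun J _ => mul_mem (hE₀O _ (ha i J)) ?_
      unfold mon
      refine multiset_prod_mem _ fun z hz => ?_
      obtain ⟨l, -, rfl⟩ := Multiset.mem_map.1 hz
      exact hprim l
    simp only [one_mul]
    by_cases hiC : i ∈ C
    · have hu : uu C y i = y i := by unfold uu; rw [if_pos hiC]
      rw [hu]
      have hdeg := hnum.deg i hiC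
      have hm : 0 < m i := by
        rcases Nat.eq_zero_or_pos (m i) with h | h
        · have := hnum.pos i
          rw [hdeg, h, zero_mul] at this
          exact absurd this (lt_irrefl 0)
        · exact h
      have hyt : (y i / x j ^ e i) ^ m i = form (a i) (fun l => x l / x j) := by
        have h3 : x j ^ (e i * m i) = x j ^ d i := by rw [hdeg, mul_comm]
        rw [hform, div_pow, hroot i hiC, ← pow_mul, h3]
      have hytO : y i / x j ^ e i ∈ O := rg_mem_of_pow O hm (by rw [hyt]; exact hformO)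
      refine ⟨hytO, fun p => ?_⟩
      have hyt0 : y i / x j ^ e i ≠ 0 := by
        intro h
        rw [h, zero_pow hm.ne'] at hyt
        exact hform0 hyt.symm
      obtain ⟨r, hr⟩ : ∃ r, m i = r + 1 := ⟨m i - 1, by omega⟩
      have hder : y i / x j ^ e i * (D p (form (a i) fun l => x l / x j) /
          form (a i) fun l => x l / x j) = (m i : E) * D p (y i / x j ^ e i) := by
        rw [← hyt, hr]
        exact rg_log (D p) hyt0 r
      rw [hder]
      exact mul_mem (natCast_mem O _) (hDO p _ hytO)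
    · have hu : uu C y i = 1 := by unfold uu; rw [if_neg hiC]
      rw [hu, hnum.e0 i hiC, pow_zero, div_one]
      refine ⟨one_mem O, fun p => ?_⟩
      rw [one_mul]
      by_cases hcO : ∀ r, c r ∈ O
      · have h3 := hc O hE₀O hcO i hiZ hiC (Sym.replicate (d i) j)
        rw [rg_mon_replicate] at h3
        have h4 : x j ^ d i / form (a i) x = (form (a i) fun l => x l / x j)⁻¹ := by
          rw [hform, inv_div]
        rw [h4] at h3
        rw [div_eq_mul_inv]
        exact mul_mem (hDO p _ hformO) h3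
      · push Not at hcO
        obtain ⟨r, hr⟩ := hcO
        have hr0 : c r ≠ 0 := by
          intro h
          rw [h] at hr
          exact hr (zero_mem O)
        have h3 := log_of (intCl E₀ t) hQ D O hO 1 hbdd (c r) hr0 (Or.inl hr)
          (fun p => by rw [hDc, zero_div, mul_zero]; exact zero_mem O) _ hform0 p
        rwa [one_mul] at h3
  have h5 := hG O 1 hbdd (fun j s => by rw [one_mul]; exact hE₀O _ (hθ j s)) hrow l
  rwa [one_pow, one_mul] at h5

end RigidAux

theorem rigid {k L E : Type*} [Field k] [Field L] [Field E] [CharZero E] [Algebra k L]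
    [Algebra L E] [Algebra k E] [IsScalarTower k L E] {n : ℕ} (c : Fin n → E)
    (hgen : IntermediateField.adjoin L (Set.range c) = ⊤) (B : Set (Fin n))
    (hB : AlgebraicIndependent L (fun b : B => c b))
    (halg : ∀ r, IsAlgebraic (IntermediateField.adjoin k (c '' B)) (c r))
    {σ ι τ : Type*} [Fintype σ] [DecidableEq σ] [Fintype ι] [DecidableEq ι] [Fintype τ]
    (d e m : ι → ℕ) (a : (i : ι) → Sym σ (d i) → L)
    (D : Ix σ d → Derivation ℤ E E) (jj : τ → Ix σ d) (θ : τ → Ix σ d → L)
    (hD : Dual d (fun i J => algebraMap L E (a i J)) D jj fun j s => algebraMap L E (θ j s))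
    (hDL : ∀ p b, ∃ b', D p (algebraMap L E b) = algebraMap L E b')
    (hDk : ∀ p (b : k), D p (algebraMap k E b) = 0)
    (hDc : ∀ p r, D p (c r) = 0)
    (Z C : Finset ι) (w : ℕ) (hnum : Num d e m Z C w (Fintype.card τ))
    (x : σ → E) (y : ι → E) (i₀ : σ) (hx : x i₀ = 1)
    (hZ : ∀ i ∈ Z, form (fun J => algebraMap L E (a i J)) x = 0)
    (hU : ∀ i ∉ Z, form (fun J => algebraMap L E (a i J)) x ≠ 0)
    (hint : ∀ i ∉ Z, i ∉ C → ∀ J : Sym σ (d i),
      mon x J / form (fun J => algebraMap L E (a i J)) x ∈ Algebra.adjoin L (Set.range c))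
    (hroot : ∀ i ∈ C, y i ^ m i = form (fun J => algebraMap L E (a i J)) x)
    (hm : MinorsVanish D x w) :
    ∀ l, IsAlgebraic L (x l) := by
  classical
  -- the key lemma
  have hu : ∀ i ∉ Z, uu C y i ≠ 0 := by
    intro i hiZ
    unfold uu
    split_ifs with hiC
    · intro h
      have hdeg := hnum.deg i hiC
      have hm0 : m i ≠ 0 := by
        intro h'
        have := hnum.pos i
        rw [hdeg, h', zero_mul] at this
        exact absurd this (lt_irrefl 0)
      have h1 := hroot i hiC
      rw [h, zero_pow hm0] at h1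
      exact hU i hiZ h1.symm
    · exact one_ne_zero
  obtain ⟨G, hG0, hG⟩ := key d e hnum.pos (fun i J => algebraMap L E (a i J)) D jj
    (fun j s => algebraMap L E (θ j s)) hD Z x i₀ hx
    hZ hU (uu C y) hu w hnum.ineq hm
  -- the field `F = E₀(t)`
  have hrange : (Set.range fun b : B => c b) = c '' B := by
    ext z
    constructor
    · rintro ⟨b, rfl⟩
      exact ⟨b, b.2, rfl⟩
    · rintro ⟨b, hb, rfl⟩
      exact ⟨⟨b, hb⟩, rfl⟩
  have halgF : ∀ (F : Subfield E), (∀ b : k, algebraMap k E b ∈ F) → (∀ b ∈ B, c b ∈ F) →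
      ∀ r, IsAlgebraic F (c r) := by
    intro F hkF hBF r
    refine rg_alg (R₁ := IntermediateField.adjoin k (c '' B)) (fun s => ?_) (halg r)
    have h1 : (IntermediateField.adjoin k (c '' B)).toSubfield ≤ F := by
      rw [IntermediateField.adjoin_toSubfield, Subfield.closure_le]
      rintro z (⟨b, rfl⟩ | ⟨b, hb, rfl⟩)
      · exact hkF b
      · exact hBF b hb
    exact ⟨⟨s, h1 s.2⟩, rfl⟩
  have hfinF : ∀ (F : Subfield E), (∀ b : L, algebraMap L E b ∈ F) → (∀ b ∈ B, c b ∈ F) →
      FiniteDimensional F E := by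
    intro F hLF hBF
    have hkF : ∀ b : k, algebraMap k E b ∈ F := fun b => by
      rw [IsScalarTower.algebraMap_apply k L E]
      exact hLF _
    have h1 : FiniteDimensional F (IntermediateField.adjoin F (Set.range c)) :=
      IntermediateField.finiteDimensional_adjoin (by
        rintro z ⟨r, rfl⟩
        exact (halgF F hkF hBF r).isIntegral)
    have h2 : IntermediateField.adjoin F (Set.range c) = ⊤ := by
      rw [eq_top_iff]
      intro z _
      have hz : z ∈ IntermediateField.adjoin L (Set.range c) := by rw [hgen]; trivial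
      have h3 : (IntermediateField.adjoin L (Set.range c)).toSubfield ≤
          (IntermediateField.adjoin F (Set.range c)).toSubfield := by
        rw [IntermediateField.adjoin_toSubfield, Subfield.closure_le]
        rintro z (⟨b, rfl⟩ | hz)
        · exact (IntermediateField.adjoin F (Set.range c)).algebraMap_mem ⟨_, hLF b⟩
        · exact IntermediateField.subset_adjoin F _ hz
      exact h3 hz
    rw [h2] at h1
    exact Module.Finite.equiv (IntermediateField.topEquiv (F := F) (E := E)).toLinearEquiv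
  intro l
  refine exchange (fun b : B => c b) hB (x l) ?_ fun b => ?_
  · -- algebraic over `L(c_B)`
    have h1 := hfinF (IntermediateField.adjoin L (Set.range fun b : B => c b)).toSubfield
      (fun b => (IntermediateField.adjoin L (Set.range fun b : B => c b)).algebraMap_mem b)
      (fun b hb => IntermediateField.subset_adjoin L _ ⟨⟨b, hb⟩, rfl⟩)
    have h2 : IsAlgebraic (IntermediateField.adjoin L (Set.range fun b : B => c b)).toSubfield
        (x l) := Algebra.IsAlgebraic.isAlgebraic (x l)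
    exact rg_alg (fun s => ⟨⟨s, s.2⟩, rfl⟩) h2
  · -- algebraic over `L(c_(B - b))`
    set S₀ : Set E := (fun b : B => c b) '' {b}ᶜ with hS₀
    set E₀ : Subfield E := (IntermediateField.adjoin L S₀).toSubfield with hE₀
    have hE₀cl : E₀ = Subfield.closure (Set.range (algebraMap L E) ∪ S₀) :=
      IntermediateField.adjoin_toSubfield L S₀
    have hLE₀ : ∀ z : L, algebraMap L E z ∈ E₀ := fun z =>
      (IntermediateField.adjoin L S₀).algebraMap_mem z
    have hSE₀ : ∀ z ∈ S₀, z ∈ E₀ := fun z hz => IntermediateField.subset_adjoin L _ hz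
    have hcE₀ : ∀ b' ∈ B, b' ≠ b → c b' ∈ E₀ := fun b' hb' hne => by
      refine hSE₀ _ ⟨⟨b', hb'⟩, ?_, rfl⟩
      intro h
      apply hne
      rw [Set.mem_singleton_iff] at h
      rw [← h]
    have htr : Transcendental E₀ (c b) := by
      have h1 : Transcendental (Algebra.adjoin L S₀) (c b) :=
        hB.transcendental_adjoin (s := {b}ᶜ) (i := b) (fun h => h rfl)
      have h2 := (IntermediateField.transcendental_adjoin_iff (F := L) (s := S₀)).2 h1
      intro h3
      exact h2 (rg_alg (fun s => ⟨⟨s, s.2⟩, rfl⟩) h3)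
    -- the derivations
    have hDE₀ : ∀ p, ∀ f ∈ E₀, D p f ∈ E₀ := by
      intro p
      rw [hE₀cl]
      apply rg_stable
      rintro f (⟨z, rfl⟩ | hf)
      · obtain ⟨z', hz'⟩ := hDL p z
        rw [hz']
        exact Subfield.subset_closure (Or.inl ⟨z', rfl⟩)
      · obtain ⟨b', -, rfl⟩ := hf
        show D p (c b') ∈ _
        rw [hDc]
        exact zero_mem _
    set k₀ : Subfield E := (IntermediateField.adjoin k S₀).toSubfield with hk₀
    have hk₀cl : k₀ = Subfield.closure (Set.range (algebraMap k E) ∪ S₀) :=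
      IntermediateField.adjoin_toSubfield k S₀
    have hk₀E₀ : k₀ ≤ E₀ := by
      rw [hk₀cl, Subfield.closure_le]
      rintro z (⟨z, rfl⟩ | hz)
      · rw [IsScalarTower.algebraMap_apply k L E]
        exact hLE₀ _
      · exact hSE₀ z hz
    have hDk₀ : ∀ p, ∀ f ∈ k₀, D p f = 0 := by
      intro p
      rw [hk₀cl]
      apply rg_kill
      rintro f (⟨z, rfl⟩ | hf)
      · exact hDk p z
      · obtain ⟨b', -, rfl⟩ := hf
        exact hDc p b'
    -- both sides
    have hside : ∀ t : E, (t = c b ∨ t = (c b)⁻¹) → Transcendental E₀ t ∧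
        FiniteDimensional (Subfield.closure ((E₀ : Set E) ∪ {t})) E ∧
        ∀ l, G * x l ∈ intCl E₀ t := by
      intro t ht
      have htc : c b ∈ Subfield.closure ({t} : Set E) := by
        rcases ht with h | h
        · rw [← h]
          exact Subfield.subset_closure rfl
        · have h1 : c b = t⁻¹ := by rw [h, inv_inv]
          rw [h1]
          exact inv_mem (Subfield.subset_closure rfl)
      have htt : Transcendental E₀ t := by
        rcases ht with h | h
        · rw [h]
          exact htr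
        · rw [h]
          intro h1
          exact htr (by simpa using h1.inv)
      have hF1 : ∀ z : L, algebraMap L E z ∈ Subfield.closure ((E₀ : Set E) ∪ {t}) := fun z =>
        Subfield.subset_closure (Or.inl (hLE₀ z))
      have hF2 : ∀ b' ∈ B, c b' ∈ Subfield.closure ((E₀ : Set E) ∪ {t}) := by
        intro b' hb'
        by_cases hne : b' = b
        · rw [hne]
          exact Subfield.closure_mono (Set.subset_union_right) htc
        · exact Subfield.subset_closure (Or.inl (hcE₀ b' hb' hne))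
      have hfin := hfinF _ hF1 hF2
      refine ⟨htt, hfin, ?_⟩
      have hDt : ∀ p, D p t = 0 := by
        intro p
        rcases ht with h | h
        · rw [h]
          exact hDc p b
        · rw [h, (D p).leibniz_inv, hDc, smul_zero]
      have hstab := intCl_stable E₀ t D hDE₀ hDt k₀ hk₀E₀ hDk₀ (Set.range c)
        (Set.finite_range c) (by rintro p z ⟨r, rfl⟩; exact hDc p r) (by
          rintro z ⟨r, rfl⟩
          refine halgF _ (fun z => ?_) (fun b' hb' => ?_) r
          · exact Subfield.subset_closure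
              (Or.inl ((IntermediateField.adjoin k S₀).algebraMap_mem z))
          · by_cases hne : b' = b
            · rw [hne]
              exact Subfield.closure_mono (Set.subset_union_right) htc
            · refine Subfield.subset_closure (Or.inl ?_)
              refine IntermediateField.subset_adjoin k S₀ ⟨⟨b', hb'⟩, ?_, rfl⟩
              intro h
              apply hne
              rw [Set.mem_singleton_iff] at h
              rw [← h]) (by
          rw [eq_top_iff]
          intro z _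
          have hz : z ∈ (IntermediateField.adjoin L (Set.range c)).toSubfield := by
            rw [hgen]; trivial
          rw [IntermediateField.adjoin_toSubfield] at hz
          refine Subfield.closure_mono ?_ hz
          rintro z (⟨z, rfl⟩ | hz)
          · exact Or.inl (Or.inl (hLE₀ z))
          · exact Or.inr hz)
      intro l
      refine rg_side d e m (fun i J => algebraMap L E (a i J)) D
        (fun j s => algebraMap L E (θ j s)) Z C w _ hnum x y hU hroot E₀ t
        htt hfin hstab (fun i J => hLE₀ _) (fun j s => hLE₀ _) c hDc ?_ G hG l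
      intro O hO1 hO2 i hiZ hiC J
      have h1 := hint i hiZ hiC J
      have h2 : (Algebra.adjoin L (Set.range c)).toSubring ≤ O.toSubring := by
        rw [Algebra.adjoin_eq_ring_closure, Subring.closure_le]
        rintro z (⟨z, rfl⟩ | ⟨r, rfl⟩)
        · exact hO1 _ (hLE₀ z)
        · exact hO2 r
      exact h2 h1
    obtain ⟨ht1, hfin1, h1⟩ := hside (c b) (Or.inl rfl)
    obtain ⟨-, -, h2⟩ := hside (c b)⁻¹ (Or.inr rfl)
    have hGx : ∀ l, IsAlgebraic E₀ (G * x l) := fun l =>
      algebraic_of_mem E₀ (c b) ht1 hfin1 (G * x l) (h1 l) (h2 l)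
    have hGa : IsAlgebraic E₀ G := by
      have := hGx i₀
      rwa [hx, mul_one] at this
    have hxl : IsAlgebraic E₀ (x l) := by
      have h3 : x l = (G * x l) * G⁻¹ := by
        field_simp
      rw [h3]
      exact (hGx l).mul hGa.inv
    exact rg_alg (fun s => ⟨⟨s, s.2⟩, rfl⟩) hxl

end Pool.Agent.Helper8.LG
end

/- Helper8.LG.UltraDisj -/
section
/-! # LG-ULTRA: algebraic independence under linear disjointness -/

set_option autoImplicit false

namespace Pool.Agent.Helper8.LG

open scoped BigOperators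

section

variable {k L Ω : Type*} [Field k] [Field L] [Field Ω] [Algebra k L] [Algebra L Ω] [Algebra k Ω]

/-- `L` and the ring `K` are linearly disjoint over `k` -/
def UlDisj (k : Type*) {L Ω : Type*} [Field k] [Field L] [Field Ω] [Algebra k L] [Algebra L Ω]
    (K : Subring Ω) : Prop :=
  ∀ (J : Set L), LinearIndependent k (Subtype.val : J → L) → ∀ (T : Finset J) (z : J → Ω),
    (∀ b, z b ∈ K) → ∑ b ∈ T, algebraMap L Ω b * z b = 0 → ∀ b ∈ T, z b = 0

theorem ul_algInd [IsScalarTower k L Ω] (K : Subring Ω) (hkK : ∀ b : k, algebraMap k Ω b ∈ K)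
    (hLD : UlDisj k (L := L) K) {β : Type*} (c : β → Ω) (hc : ∀ b, c b ∈ K)
    (hind : AlgebraicIndependent k c) : AlgebraicIndependent L c := by
  classical
  rw [algebraicIndependent_iff] at hind ⊢
  intro P hP
  set 𝔟 := Module.Basis.ofVectorSpace k L with h𝔟
  set T : Finset (Module.Basis.ofVectorSpaceIndex k L) :=
    P.support.biUnion fun m => (𝔟.repr (P.coeff m)).support with hT
  set R : Module.Basis.ofVectorSpaceIndex k L → MvPolynomial β k := fun j =>
    ∑ m ∈ P.support, MvPolynomial.monomial m (𝔟.repr (P.coeff m) j) with hR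
  have hcoef : ∀ m ∈ P.support, P.coeff m = ∑ j ∈ T, (𝔟.repr (P.coeff m) j) • (j : L) := by
    intro m hm
    conv_lhs => rw [← 𝔟.linearCombination_repr (P.coeff m)]
    rw [Finsupp.linearCombination_apply, Finsupp.sum_of_support_subset (s := T)]
    · exact Finset.sum_congr rfl fun j _ => by rw [h𝔟, Module.Basis.ofVectorSpace_apply_self]
    · exact Finset.subset_biUnion_of_mem (fun m => (𝔟.repr (P.coeff m)).support) hm
    · intro i _
      exact zero_smul _ _
  have hzR : ∀ j, MvPolynomial.aeval c (R j) =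
      ∑ m ∈ P.support, algebraMap k Ω (𝔟.repr (P.coeff m) j) * m.prod fun i e => c i ^ e := by
    intro j
    rw [hR, map_sum]
    exact Finset.sum_congr rfl fun m _ => MvPolynomial.aeval_monomial _ _ _
  have hK : ∀ j, MvPolynomial.aeval c (R j) ∈ K := by
    intro j
    rw [hzR]
    exact sum_mem fun m _ => mul_mem (hkK _) (prod_mem fun i _ => pow_mem (hc i) _)
  have hsum : ∑ j ∈ T, algebraMap L Ω j * MvPolynomial.aeval c (R j) = 0 := by
    rw [← hP]
    conv_rhs => rw [P.as_sum, map_sum]
    simp only [hzR, Finset.mul_sum]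
    rw [Finset.sum_comm]
    refine Finset.sum_congr rfl fun m hm => ?_
    rw [MvPolynomial.aeval_monomial]
    conv_rhs => rw [hcoef m hm]
    rw [map_sum, Finset.sum_mul]
    refine Finset.sum_congr rfl fun j _ => ?_
    rw [Algebra.smul_def, map_mul, ← IsScalarTower.algebraMap_apply k L Ω]
    ring
  have hz := hLD _ (Module.Basis.ofVectorSpaceIndex.linearIndependent k L) T
    (fun j => MvPolynomial.aeval c (R j)) hK hsum
  rw [← MvPolynomial.support_eq_empty, Finset.eq_empty_iff_forall_notMem]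
  intro m hm
  have h1 : P.coeff m = 0 := by
    rw [hcoef m hm]
    refine Finset.sum_eq_zero fun j hj => ?_
    have h2 := hind _ (hz j hj)
    have h3 : MvPolynomial.coeff m (R j) = 𝔟.repr (P.coeff m) j := by
      rw [hR]
      simp only [MvPolynomial.coeff_sum, MvPolynomial.coeff_monomial]
      rw [Finset.sum_ite_eq' P.support m, if_pos hm]
    rw [← h3, h2, MvPolynomial.coeff_zero, zero_smul]
  exact (MvPolynomial.mem_support_iff.1 hm) h1

theorem ul_basis {n : ℕ} (c : Fin n → Ω) : ∃ B : Set (Fin n),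
    AlgebraicIndependent k (fun b : B => c b) ∧
      ∀ r, IsAlgebraic (Algebra.adjoin k (c '' B)) (c r) := by
  have hfin : ({B : Set (Fin n) | AlgebraicIndepOn k c B}).Finite := Set.toFinite _
  have hne : ({B : Set (Fin n) | AlgebraicIndepOn k c B}).Nonempty := by
    refine ⟨∅, ?_⟩
    show AlgebraicIndependent k (fun b : (∅ : Set (Fin n)) => c b)
    rw [algebraicIndependent_empty_type_iff]
    exact (algebraMap k Ω).injective
  obtain ⟨B, hB⟩ := hfin.exists_maximal hne
  refine ⟨B, hB.1, fun r => ?_⟩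
  by_cases hr : r ∈ B
  · exact isAlgebraic_algebraMap
      (⟨c r, Algebra.subset_adjoin ⟨r, hr, rfl⟩⟩ : Algebra.adjoin k (c '' B))
  · by_contra h
    have h1 : AlgebraicIndepOn k c (insert r B) := (AlgebraicIndepOn.insert_iff hr).2 ⟨hB.1, h⟩
    exact hr (hB.2 h1 (Set.subset_insert r B) (Set.mem_insert r B))

end

end Pool.Agent.Helper8.LG
end

/- Helper12.LVF.H8.LG.UltraCore -/
section
/-! # LG-ULTRA: rigidity inside a large field -/

set_option autoImplicit false

namespace Pool.Agent.Helper8.LG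

open scoped BigOperators

theorem ul_map_mon {R R' : Type*} [CommSemiring R] [CommSemiring R'] (f : R →+* R') {σ : Type*}
    {n : ℕ} (x : σ → R) (J : Sym σ n) : f (mon x J) = mon (fun l => f (x l)) J := by
  unfold mon
  rw [map_multiset_prod, Multiset.map_map]
  rfl

theorem ul_map_form {R R' : Type*} [CommSemiring R] [CommSemiring R'] (f : R →+* R') {σ : Type*}
    [Fintype σ] [DecidableEq σ] {n : ℕ} (a : Sym σ n → R) (x : σ → R) :
    f (form a x) = form (fun J => f (a J)) (fun l => f (x l)) := by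
  unfold form
  rw [map_sum]
  exact Finset.sum_congr rfl fun J _ => by rw [map_mul, ul_map_mon]

theorem ul_core {k L Ω : Type*} [Field k] [Field L] [Field Ω] [CharZero Ω] [Algebra k L]
    [Algebra L Ω] [Algebra k Ω] [IsScalarTower k L Ω]
    (K : Subring Ω) (hkK : ∀ b : k, algebraMap k Ω b ∈ K) (hLD : UlDisj k (L := L) K)
    {n : ℕ} (c : Fin n → Ω) (hcK : ∀ r, c r ∈ K)
    {σ ι τ : Type*} [Fintype σ] [DecidableEq σ] [Fintype ι] [DecidableEq ι] [Fintype τ]
    (d e m : ι → ℕ) (a : (i : ι) → Sym σ (d i) → L)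
    (D : Ix σ d → Derivation ℤ Ω Ω) (jj : τ → Ix σ d) (θ : τ → Ix σ d → L)
    (hD : Dual d (fun i J => algebraMap L Ω (a i J)) D jj fun j s => algebraMap L Ω (θ j s))
    (hDL : ∀ p b, ∃ b', D p (algebraMap L Ω b) = algebraMap L Ω b')
    (hDk : ∀ p (b : k), D p (algebraMap k Ω b) = 0)
    (hDc : ∀ p r, D p (c r) = 0)
    (Z C : Finset ι) (w : ℕ) (hnum : Num d e m Z C w (Fintype.card τ))
    (x : σ → Ω) (y : ι → Ω) (i₀ : σ) (hx : x i₀ = 1) (G : Ω) (hG : G ≠ 0)
    (hGx : ∀ l, G * x l ∈ Algebra.adjoin L (Set.range c))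
    (hZ : ∀ i ∈ Z, form (fun J => algebraMap L Ω (a i J)) x = 0)
    (hU : ∀ i ∉ Z, form (fun J => algebraMap L Ω (a i J)) x ≠ 0)
    (hint : ∀ i ∉ Z, i ∉ C → ∀ J : Sym σ (d i),
      mon x J / form (fun J => algebraMap L Ω (a i J)) x ∈ Algebra.adjoin L (Set.range c))
    (hroot : ∀ i ∈ C, y i ^ m i = form (fun J => algebraMap L Ω (a i J)) x)
    (hGy : ∀ i ∈ C, G ^ e i * y i ∈ Algebra.adjoin L (Set.range c))
    (hm : MinorsVanish D x w) :
    ∀ l, IsAlgebraic L (x l) := by
  classical
  set F : IntermediateField L Ω := IntermediateField.adjoin L (Set.range c) with hF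
  have hsub : ∀ z ∈ Algebra.adjoin L (Set.range c), z ∈ F := fun z hz =>
    IntermediateField.algebra_adjoin_le_adjoin L _ hz
  have hFcl : F.toSubfield = Subfield.closure (Set.range (algebraMap L Ω) ∪ Set.range c) :=
    IntermediateField.adjoin_toSubfield L _
  -- the generators
  set c' : Fin n → F := fun r => ⟨c r, IntermediateField.subset_adjoin L _ ⟨r, rfl⟩⟩ with hc'
  have himg : ∀ B : Set (Fin n), (F.val : F → Ω) '' (c' '' B) = c '' B := by
    intro B
    rw [← Set.image_comp]
    rfl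
  have hrange : (F.val : F → Ω) '' (Set.range c') = Set.range c := by
    rw [← Set.image_univ, himg, Set.image_univ]
  have hgen : IntermediateField.adjoin L (Set.range c') = ⊤ := by
    apply IntermediateField.lift_injective F
    rw [IntermediateField.lift_adjoin, IntermediateField.lift_top]
    have h1 : (Subtype.val : F → Ω) '' (Set.range c') = Set.range c := hrange
    rw [h1]
  obtain ⟨B, hB1, hB2⟩ := ul_basis (k := k) c'
  have hB3 : AlgebraicIndependent k (fun b : B => c b) :=
    (AlgHom.algebraicIndependent_iff (x := fun b : B => c' b) ((F.val).restrictScalars k)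
      Subtype.val_injective).2 hB1
  have hB4 : AlgebraicIndependent L (fun b : B => c b) :=
    ul_algInd K hkK hLD _ (fun b => hcK b) hB3
  have hB5 : AlgebraicIndependent L (fun b : B => c' b) :=
    (AlgHom.algebraicIndependent_iff (x := fun b : B => c' b) F.val Subtype.val_injective).1 hB4
  have halg : ∀ r, IsAlgebraic (IntermediateField.adjoin k (c' '' B)) (c' r) := by
    intro r
    have h1 := hB2 r
    obtain ⟨p, hp0, hp⟩ := h1
    set φ : Algebra.adjoin k (c' '' B) →+* IntermediateField.adjoin k (c' '' B) :=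
      { toFun := fun z => ⟨z, IntermediateField.algebra_adjoin_le_adjoin k _ z.2⟩
        map_one' := rfl
        map_mul' := fun _ _ => rfl
        map_zero' := rfl
        map_add' := fun _ _ => rfl } with hφ
    have hφi : Function.Injective φ := by
      intro u v huv
      apply Subtype.ext
      exact congrArg (fun z : IntermediateField.adjoin k (c' '' B) => (z : F)) huv
    refine ⟨p.map φ, ?_, ?_⟩
    · rwa [Ne, Polynomial.map_eq_zero_iff hφi]
    · rw [Polynomial.aeval_def, Polynomial.eval₂_map]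
      exact hp
  -- the derivations
  have hst : ∀ p, ∀ f ∈ F, D p f ∈ F := by
    intro p f hf
    have hf' : f ∈ F.toSubfield := hf
    rw [hFcl] at hf'
    have h1 := rg_stable (D p) (Set.range (algebraMap L Ω) ∪ Set.range c) ?_ f hf'
    · rw [← hFcl] at h1
      exact h1
    · rintro g (⟨z, rfl⟩ | ⟨r, rfl⟩)
      · obtain ⟨z', hz'⟩ := hDL p z
        rw [hz']
        exact Subfield.subset_closure (Or.inl ⟨z', rfl⟩)
      · rw [hDc]
        exact zero_mem _
  set δ : Ix σ d → Derivation ℤ F F := fun p =>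
    Derivation.mk' (AddMonoidHom.toIntLinearMap
      { toFun := fun f => (⟨D p f, hst p f f.2⟩ : F)
        map_zero' := Subtype.ext (map_zero (D p))
        map_add' := fun f g => Subtype.ext (map_add (D p) (f : Ω) g) })
      (fun f g => Subtype.ext ((D p).leibniz (f : Ω) g)) with hδ
  have hδv : ∀ p (f : F), ((δ p f : F) : Ω) = D p f := fun p f => rfl
  have hamap : ∀ b : L, ((algebraMap L F b : F) : Ω) = algebraMap L Ω b := fun b => rfl
  -- the point
  have hxF : ∀ l, x l ∈ F := by
    intro l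
    have h1 : G ∈ F := by
      have := hsub _ (hGx i₀)
      rwa [hx, mul_one] at this
    have h2 : x l = G * x l / G := by field_simp
    rw [h2]
    exact div_mem (hsub _ (hGx l)) h1
  have hyF : ∀ i ∈ C, y i ∈ F := by
    intro i hi
    have h1 : G ∈ F := by
      have := hsub _ (hGx i₀)
      rwa [hx, mul_one] at this
    have h2 : y i = G ^ e i * y i / G ^ e i := by field_simp
    rw [h2]
    exact div_mem (hsub _ (hGy i hi)) (pow_mem h1 _)
  set x' : σ → F := fun l => ⟨x l, hxF l⟩ with hx'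
  set y' : ι → F := fun i => if hi : i ∈ C then ⟨y i, hyF i hi⟩ else 0 with hy'
  have hform : ∀ i, ((form (fun J => algebraMap L F (a i J)) x' : F) : Ω) =
      form (fun J => algebraMap L Ω (a i J)) x := fun i =>
    ul_map_form (F.val : F →+* Ω) _ _
  have hmon : ∀ {r : ℕ} (J : Sym σ r), ((mon x' J : F) : Ω) = mon x J := fun J =>
    ul_map_mon (F.val : F →+* Ω) _ _
  have hcz : CharZero F := inferInstance
  intro l
  have key := rigid (k := k) (L := L) (E := F) c' hgen B hB5 halg d e m a δ jj θ ?_ ?_ ?_ ?_ Z C w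
    hnum x' y' i₀ (Subtype.ext hx) ?_ ?_ ?_ ?_ ?_ l
  · exact key.algHom F.val
  · intro s q
    apply Subtype.ext
    have h1 := hD s q
    rw [hδv, hamap, h1]
    push_cast
    congr 1
    · split_ifs <;> rfl
    · refine Finset.sum_congr rfl fun j _ => ?_
      split_ifs <;> rfl
  · intro p b
    obtain ⟨b', hb'⟩ := hDL p b
    exact ⟨b', Subtype.ext hb'⟩
  · intro p b
    exact Subtype.ext (hDk p b)
  · intro p r
    exact Subtype.ext (hDc p r)
  · intro i hi
    exact Subtype.ext ((hform i).trans (hZ i hi))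
  · intro i hi h0
    apply hU i hi
    rw [← hform i, h0]
    rfl
  · intro i hi1 hi2 J
    have h1 := hint i hi1 hi2 J
    rw [← hrange, ← AlgHom.map_adjoin] at h1
    obtain ⟨z, hz1, hz2⟩ := h1
    have h2 : mon x' J / form (fun J => algebraMap L F (a i J)) x' = z := by
      apply Subtype.ext
      have h3 : (z : Ω) = mon x J / form (fun J => algebraMap L Ω (a i J)) x := hz2
      rw [h3]
      push_cast
      rw [hmon, hform]
    rw [h2]
    exact hz1
  · intro i hi
    apply Subtype.ext
    have h1 : y' i = ⟨y i, hyF i hi⟩ := by rw [hy']; exact dif_pos hi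
    rw [h1, hform i, ← hroot i hi]
    rfl
  · intro r s
    apply Subtype.ext
    have h1 := hm r s
    have h2 := RingHom.map_det (F.val : F →+* Ω) (Matrix.of fun s' t => col δ x' (s t) (r s'))
    have h3 : (F.val : F →+* Ω).mapMatrix (Matrix.of fun s' t => col δ x' (s t) (r s')) =
        Matrix.of fun s' t => col D x (s t) (r s') := by
      ext s' t
      simp only [RingHom.mapMatrix_apply, Matrix.map_apply, Matrix.of_apply]
      rcases s t with _ | p
      · rfl
      · rfl
    rw [h3, h1] at h2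
    exact h2

end Pool.Agent.Helper8.LG
end

/- Helper8.LG.UltraGerm -/
section
/-! # LG-ULTRA: an ultrapower of a field, with its derivations -/

set_option autoImplicit false

namespace Pool.Agent.Helper8.LG

open scoped BigOperators

section

universe u

/-- an ultrapower of the field `L`, as a quotient of the ring of sequences -/
theorem ul_exists (L : Type u) [Field L] : ∃ (Ω : Type u) (_ : Field Ω) (Q : (ℕ → L) →+* Ω),
    Function.Surjective Q ∧
      ∀ f, Q f = 0 ↔ ∀ᶠ m in (Filter.hyperfilter ℕ : Filter ℕ), f m = 0 := by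
  refine ⟨(Filter.hyperfilter ℕ : Filter ℕ).Germ L, inferInstance,
    Filter.Germ.coeRingHom _, ?_, ?_⟩
  · intro x
    induction x using Filter.Germ.inductionOn with
    | _ f => exact ⟨f, rfl⟩
  · intro f
    exact Filter.Germ.coe_eq

variable {L : Type*} [Field L] {Ω : Type*} [Field Ω] (Q : (ℕ → L) →+* Ω)

theorem ul_eq (hker : ∀ f, Q f = 0 ↔ ∀ᶠ m in (Filter.hyperfilter ℕ : Filter ℕ), f m = 0)
    (f g : ℕ → L) : Q f = Q g ↔ ∀ᶠ m in (Filter.hyperfilter ℕ : Filter ℕ), f m = g m := by
  rw [← sub_eq_zero, ← map_sub, hker]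
  simp only [Pi.sub_apply, sub_eq_zero]

/-- the derivation of the ultrapower -/
noncomputable def ulDer (hQ : Function.Surjective Q)
    (hker : ∀ f, Q f = 0 ↔ ∀ᶠ m in (Filter.hyperfilter ℕ : Filter ℕ), f m = 0)
    (D : Derivation ℤ L L) : Derivation ℤ Ω Ω :=
  Derivation.mk' (AddMonoidHom.toIntLinearMap
    { toFun := fun z => Q fun m => D (Function.surjInv hQ z m)
      map_zero' := by
        rw [hker]
        have h : Q (Function.surjInv hQ 0) = 0 := Function.surjInv_eq hQ 0
        rw [hker] at h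
        filter_upwards [h] with m hm
        rw [hm, map_zero]
      map_add' := fun x y => by
        rw [← map_add, ul_eq Q hker]
        have h : Q (Function.surjInv hQ (x + y)) =
            Q (Function.surjInv hQ x + Function.surjInv hQ y) := by
          rw [map_add, Function.surjInv_eq hQ, Function.surjInv_eq hQ, Function.surjInv_eq hQ]
        rw [ul_eq Q hker] at h
        filter_upwards [h] with m hm
        rw [hm, Pi.add_apply, map_add, Pi.add_apply] })
    (fun x y => by
      show Q (fun m => D (Function.surjInv hQ (x * y) m)) =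
        x • Q (fun m => D (Function.surjInv hQ y m)) +
          y • Q (fun m => D (Function.surjInv hQ x m))
      have h : Q (Function.surjInv hQ (x * y)) =
          Q (Function.surjInv hQ x * Function.surjInv hQ y) := by
        rw [map_mul, Function.surjInv_eq hQ, Function.surjInv_eq hQ, Function.surjInv_eq hQ]
      rw [ul_eq Q hker] at h
      rw [smul_eq_mul, smul_eq_mul]
      nth_rewrite 2 [← Function.surjInv_eq hQ x]
      nth_rewrite 3 [← Function.surjInv_eq hQ y]
      rw [← map_mul, ← map_mul, ← map_add, ul_eq Q hker]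
      filter_upwards [h] with m hm
      rw [hm, Pi.mul_apply, D.leibniz]
      simp only [smul_eq_mul, Pi.add_apply, Pi.mul_apply])

theorem ulDer_apply (hQ : Function.Surjective Q)
    (hker : ∀ f, Q f = 0 ↔ ∀ᶠ m in (Filter.hyperfilter ℕ : Filter ℕ), f m = 0)
    (D : Derivation ℤ L L) (f : ℕ → L) :
    ulDer Q hQ hker D (Q f) = Q fun m => D (f m) := by
  show Q (fun m => D (Function.surjInv hQ (Q f) m)) = _
  rw [ul_eq Q hker]
  have h : Q (Function.surjInv hQ (Q f)) = Q f := Function.surjInv_eq hQ _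
  rw [ul_eq Q hker] at h
  filter_upwards [h] with m hm
  rw [hm]

/-- linear disjointness of the constants `L` and the `k`-valued germs -/
theorem ul_disj {k : Type*} [Field k] [Algebra k L]
    (hker : ∀ f, Q f = 0 ↔ ∀ᶠ m in (Filter.hyperfilter ℕ : Filter ℕ), f m = 0)
    (J : Set L) (hJ : LinearIndependent k (Subtype.val : J → L)) (T : Finset J) (g : J → ℕ → k)
    (h : ∑ b ∈ T, Q (fun _ => (b : L)) * Q (fun m => algebraMap k L (g b m)) = 0) :
    ∀ b ∈ T, Q (fun m => algebraMap k L (g b m)) = 0 := by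
  have h1 : Q (fun m => ∑ b ∈ T, (b : L) * algebraMap k L (g b m)) = 0 := by
    rw [← h]
    have h2 : (fun m => ∑ b ∈ T, (b : L) * algebraMap k L (g b m)) =
        ∑ b ∈ T, (fun _ => (b : L)) * (fun m => algebraMap k L (g b m)) := by
      ext m
      rw [Finset.sum_apply]
      rfl
    rw [h2, map_sum]
    exact Finset.sum_congr rfl fun b _ => map_mul Q _ _
  rw [hker] at h1
  intro b hb
  rw [hker]
  filter_upwards [h1] with m hm
  have h3 : ∑ b ∈ T, g b m • (b : L) = 0 := by
    rw [← hm]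
    exact Finset.sum_congr rfl fun b _ => by rw [Algebra.smul_def, mul_comm]
  have h4 := linearIndependent_iff'.1 hJ T (fun b => g b m) h3 b hb
  rw [h4, map_zero]

end

end Pool.Agent.Helper8.LG
end

/- Helper12.LVF.H8.LG.Ultra -/
section
/-! # LG-ULTRA: the ultrapower argument -/

set_option autoImplicit false

namespace Pool.Agent.Helper8.LG

open scoped BigOperators

section UltraAux

variable {L : Type*} [Field L] {Ω : Type*} [Field Ω] (Q : (ℕ → L) →+* Ω)

theorem ul_Q_mon {σ : Type*} {n : ℕ} (X : ℕ → σ → L) (J : Sym σ n) :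
    Q (fun m => mon (X m) J) = mon (fun l => Q fun m => X m l) J := by
  rw [← ul_map_mon Q (fun l => fun m => X m l) J]
  congr 1
  funext m
  have := ul_map_mon (Pi.evalRingHom (fun _ : ℕ => L) m) (fun (l : σ) => fun m => X m l) J
  exact this.symm

theorem ul_Q_form {σ : Type*} [Fintype σ] [DecidableEq σ] {n : ℕ} (a : Sym σ n → L)
    (X : ℕ → σ → L) :
    Q (fun m => form a (X m)) = form (fun J => Q fun _ => a J) (fun l => Q fun m => X m l) := by
  rw [← ul_map_form Q (fun J => fun _ => a J) (fun l => fun m => X m l)]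
  congr 1
  funext m
  have := ul_map_form (Pi.evalRingHom (fun _ : ℕ => L) m) (fun (J : Sym σ n) => fun _ => a J)
    (fun (l : σ) => fun m => X m l)
  exact this.symm

theorem ul_Q_div (hker : ∀ f, Q f = 0 ↔ ∀ᶠ m in (Filter.hyperfilter ℕ : Filter ℕ), f m = 0)
    (f g : ℕ → L) (hg : ∀ m, g m ≠ 0) : Q (fun m => f m / g m) = Q f / Q g := by
  have h1 : Q g ≠ 0 := by
    intro h
    rw [hker] at h
    obtain ⟨m, hm⟩ := h.exists
    exact hg m hm
  rw [eq_div_iff h1, ← map_mul]
  congr 1
  funext m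
  show f m / g m * g m = f m
  rw [div_mul_cancel₀ _ (hg m)]

theorem ul_Q_eval (p : Polynomial L) (f : ℕ → L) :
    Q (fun m => p.eval (f m)) =
      p.eval₂ (Q.comp (Pi.constRingHom ℕ L)) (Q f) := by
  rw [← Polynomial.hom_eval₂]
  congr 1
  funext m
  have := Polynomial.hom_eval₂ p (Pi.constRingHom ℕ L) (Pi.evalRingHom (fun _ : ℕ => L) m) f
  have h2 : (Pi.evalRingHom (fun _ : ℕ => L) m).comp (Pi.constRingHom ℕ L) = RingHom.id L := by
    ext; rfl
  rw [h2] at this
  exact this.symm

end UltraAux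

theorem ultra {k L : Type*} [Field k] [Field L] [CharZero L] [Algebra k L]
    {σ ι τ : Type*} [Fintype σ] [DecidableEq σ] [Fintype ι] [DecidableEq ι] [Fintype τ]
    (d e m : ι → ℕ) (a : (i : ι) → Sym σ (d i) → L)
    (D : Ix σ d → Derivation ℤ L L) (jj : τ → Ix σ d) (θ : τ → Ix σ d → L)
    (hD : Dual d a D jj θ)
    (hDk : ∀ p (c : k), D p (algebraMap k L c) = 0)
    (Z C : Finset ι) (i₀ : σ) (w : ℕ) (hnum : Num d e m Z C w (Fintype.card τ))
    (V : Submodule k L) [FiniteDimensional k V] (S : Set (σ → L))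
    (hS : ∀ x ∈ S, x i₀ = 1 ∧ (∀ i ∈ Z, form (a i) x = 0) ∧ (∀ i ∉ Z, form (a i) x ≠ 0) ∧
      MinorsVanish D x w ∧ ∃ (y : ι → L) (G : L), G ≠ 0 ∧ (∀ l, G * x l ∈ V) ∧
        (∀ i ∉ Z, i ∉ C → ∀ J : Sym σ (d i), mon x J / form (a i) x ∈ V) ∧
        (∀ i ∈ C, y i ^ m i = form (a i) x) ∧ ∀ i ∈ C, G ^ e i * y i ∈ V) :
    S.Finite := by
  classical
  by_contra hinf
  rw [← Set.Infinite] at hinf
  set X : ℕ → σ → L := fun m => (hinf.natEmbedding S m : σ → L) with hX
  have hXS : ∀ m, X m ∈ S := fun m => (hinf.natEmbedding S m).2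
  have hXi : Function.Injective X := fun u v huv =>
    (hinf.natEmbedding S).injective (Subtype.ext huv)
  have hS' := fun m => hS (X m) (hXS m)
  choose hX0 hXZ hXU hXm Y G hG0 hGx hint hroot hGy using hS'
  obtain ⟨Ω, instΩ, Q, hQ, hker⟩ := ul_exists L
  let algLΩ : Algebra L Ω := (Q.comp (Pi.constRingHom ℕ L)).toAlgebra
  let algkΩ : Algebra k Ω := ((algebraMap L Ω).comp (algebraMap k L)).toAlgebra
  have : IsScalarTower k L Ω := IsScalarTower.of_algebraMap_eq fun _ => rfl
  have : CharZero Ω := charZero_of_injective_algebraMap (algebraMap L Ω).injective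
  have halgL : ∀ b : L, algebraMap L Ω b = Q fun _ => b := fun _ => rfl
  have halgk : ∀ b : k, algebraMap k Ω b = Q fun _ => algebraMap k L b := fun _ => rfl
  -- the constants
  set K : Subring Ω := (Q.comp ((algebraMap k L).compLeft ℕ)).range with hK
  have hQK : ∀ g : ℕ → k, Q (fun m => algebraMap k L (g m)) ∈ K := fun g => ⟨g, rfl⟩
  have hLD : UlDisj k (L := L) K := by
    intro J hJ T z hz hsum
    choose g hg using hz
    have hg' : ∀ b, Q (fun m => algebraMap k L (g b m)) = z b := fun b => hg b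
    have h1 := ul_disj Q hker J hJ T g (by
      rw [← hsum]
      exact Finset.sum_congr rfl fun b _ => by rw [hg', halgL])
    intro b hb
    rw [← hg']
    exact h1 b hb
  -- the sequences
  set bV := Module.finBasis k V with hbV
  set r := Module.finrank k V with hr
  set H : Type _ := σ ⊕ (Ix σ d) ⊕ ι with hH
  set h : H → ℕ → L := fun η m' => Sum.elim (fun l => G m' * X m' l)
    (Sum.elim (fun p : Ix σ d => if p.1 ∉ Z ∧ p.1 ∉ C then mon (X m') p.2 / form (a p.1) (X m')
      else 0) (fun i => if i ∈ C then G m' ^ e i * Y m' i else 0)) η with hh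
  have hhV : ∀ η m', h η m' ∈ V := by
    rintro (l | p | i) m'
    · exact hGx m' l
    · show (if p.1 ∉ Z ∧ p.1 ∉ C then mon (X m') p.2 / form (a p.1) (X m') else 0) ∈ V
      split_ifs with hp
      · exact hint m' p.1 hp.1 hp.2 p.2
      · exact V.zero_mem
    · show (if i ∈ C then G m' ^ e i * Y m' i else 0) ∈ V
      split_ifs with hi
      · exact hGy m' i hi
      · exact V.zero_mem
  set c₀ : H × Fin r → Ω := fun ηj => Q fun m' =>
    algebraMap k L (bV.repr ⟨h ηj.1 m', hhV ηj.1 m'⟩ ηj.2) with hc₀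
  set eqv := (Fintype.equivFin (H × Fin r)).symm with heqv
  set c : Fin (Fintype.card (H × Fin r)) → Ω := fun s => c₀ (eqv s) with hc
  have hcmem : ∀ ηj, c₀ ηj ∈ Algebra.adjoin L (Set.range c) := fun ηj =>
    Algebra.subset_adjoin ⟨eqv.symm ηj, by rw [hc]; simp⟩
  have hhc : ∀ η, Q (h η) ∈ Algebra.adjoin L (Set.range c) := by
    intro η
    have h1 : Q (h η) = ∑ j, algebraMap L Ω (bV j : L) * c₀ (η, j) := by
      have h2 : h η = ∑ j, (fun _ => (bV j : L)) *
          (fun m' => algebraMap k L (bV.repr ⟨h η m', hhV η m'⟩ j)) := by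
        funext m'
        rw [Finset.sum_apply]
        have h3 := congrArg (Subtype.val : V → L) (bV.sum_repr ⟨h η m', hhV η m'⟩)
        rw [Submodule.coe_sum] at h3
        have h4 : ((⟨h η m', hhV η m'⟩ : V) : L) = h η m' := rfl
        rw [h4] at h3
        rw [← h3]
        refine Finset.sum_congr rfl fun j _ => ?_
        show _ = (bV j : L) * algebraMap k L (bV.repr ⟨h η m', hhV η m'⟩ j)
        rw [Submodule.coe_smul, Algebra.smul_def, mul_comm]
      conv_lhs => rw [h2]
      rw [map_sum]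
      exact Finset.sum_congr rfl fun j _ => by rw [map_mul]; rfl
    rw [h1]
    exact sum_mem fun j _ => mul_mem (Subalgebra.algebraMap_mem _ _) (hcmem _)
  -- the core
  have hform : ∀ i, form (fun J => algebraMap L Ω (a i J)) (fun l => Q fun m' => X m' l) =
      Q fun m' => form (a i) (X m') := fun i => (ul_Q_form Q (a i) X).symm
  have hcore := ul_core (k := k) (L := L) K (fun b => by rw [halgk]; exact hQK fun _ => b) hLD c
    (fun s => hQK _) d e m a (fun p => ulDer Q hQ hker (D p)) jj θ ?_ ?_ ?_ ?_ Z C w hnum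
    (fun l => Q fun m' => X m' l) (fun i => Q fun m' => Y m' i) i₀ ?_ (Q G) ?_ ?_ ?_ ?_ ?_ ?_ ?_ ?_
  · -- conclusion
    choose p hp0 hp using hcore
    have h1 : ∀ l, ∀ᶠ m' in (Filter.hyperfilter ℕ : Filter ℕ), (p l).eval (X m' l) = 0 := by
      intro l
      rw [← hker (fun m' => (p l).eval (X m' l)), ul_Q_eval Q]
      exact hp l
    have h2 : ∀ᶠ m' in (Filter.hyperfilter ℕ : Filter ℕ), ∀ l, (p l).eval (X m' l) = 0 :=
      Filter.eventually_all.2 h1
    have h3 : ({m' : ℕ | ∀ l, (p l).eval (X m' l) = 0}).Finite := by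
      have h4 : (Set.pi Set.univ fun l => {z : L | (p l).eval z = 0}).Finite :=
        Set.Finite.pi fun l => by
          refine ((p l).roots.toFinset.finite_toSet).subset fun z hz => ?_
          rw [Finset.mem_coe, Multiset.mem_toFinset, Polynomial.mem_roots (hp0 l)]
          exact hz
      refine Set.Finite.of_finite_image (f := X) (h4.subset ?_) hXi.injOn
      rintro _ ⟨m', hm', rfl⟩ l -
      exact hm' l
    exact Filter.notMem_hyperfilter_of_finite h3 h2
  · intro s q
    show ulDer Q hQ hker (D s) (Q fun _ => a q.1 q.2) = _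
    rw [ulDer_apply]
    have h1 := hD s q
    have h2 : (Q fun _ => D s (a q.1 q.2)) = algebraMap L Ω (D s (a q.1 q.2)) := rfl
    rw [h2, h1, map_sub, map_sum]
    congr 1
    · split_ifs
      · rw [map_one]
      · rw [map_zero]
    · refine Finset.sum_congr rfl fun j _ => ?_
      split_ifs
      · rfl
      · rw [map_zero]
  · intro p b
    exact ⟨D p b, ulDer_apply Q hQ hker (D p) _⟩
  · intro p b
    rw [halgk, ulDer_apply]
    rw [hker]
    exact Filter.Eventually.of_forall fun m' => hDk p b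
  · intro p s
    show ulDer Q hQ hker (D p) (Q _) = 0
    rw [ulDer_apply, hker]
    exact Filter.Eventually.of_forall fun m' => hDk p _
  · show Q (fun m' => X m' i₀) = 1
    have h1 : (fun m' => X m' i₀) = 1 := by
      funext m'
      exact hX0 m'
    rw [h1, map_one]
  · intro h0
    rw [hker] at h0
    obtain ⟨m', hm'⟩ := h0.exists
    exact hG0 m' hm'
  · intro l
    show Q G * Q (fun m' => X m' l) ∈ _
    rw [← map_mul]
    exact hhc (Sum.inl l)
  · intro i hi
    rw [hform, hker]
    exact Filter.Eventually.of_forall fun m' => hXZ m' i hi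
  · intro i hi h0
    rw [hform, hker] at h0
    obtain ⟨m', hm'⟩ := h0.exists
    exact hXU m' i hi hm'
  · intro i hi1 hi2 J
    rw [hform, ← ul_Q_mon Q X J, ← ul_Q_div Q hker _ _ fun m' => hXU m' i hi1]
    have h1 := hhc (Sum.inr (Sum.inl ⟨i, J⟩))
    have h2 : h (Sum.inr (Sum.inl ⟨i, J⟩)) = fun m' => mon (X m') J / form (a i) (X m') := by
      funext m'
      exact if_pos ⟨hi1, hi2⟩
    rw [h2] at h1
    exact h1
  · intro i hi
    show (Q fun m' => Y m' i) ^ m i = _
    rw [hform, ← map_pow]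
    congr 1
    funext m'
    exact hroot m' i hi
  · intro i hi
    show Q G ^ e i * Q (fun m' => Y m' i) ∈ _
    rw [← map_pow, ← map_mul]
    have h1 := hhc (Sum.inr (Sum.inr i))
    have h2 : h (Sum.inr (Sum.inr i)) = G ^ e i * fun m' => Y m' i := by
      funext m'
      exact if_pos hi
    rw [h2] at h1
    exact h1
  · intro rr ss
    have h1 := RingHom.map_det Q (Matrix.of fun s t => fun m' => col D (X m') (ss t) (rr s))
    have h2 : Q.mapMatrix (Matrix.of fun s t => fun m' => col D (X m') (ss t) (rr s)) =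
        Matrix.of fun s t => col (fun p => ulDer Q hQ hker (D p)) (fun l => Q fun m' => X m' l)
          (ss t) (rr s) := by
      ext s t
      simp only [RingHom.mapMatrix_apply, Matrix.map_apply, Matrix.of_apply]
      rcases ss t with _ | p
      · rfl
      · exact (ulDer_apply Q hQ hker (D p) _).symm
    rw [← h2, ← h1, hker]
    refine Filter.Eventually.of_forall fun m' => ?_
    have h3 := RingHom.map_det (Pi.evalRingHom (fun _ : ℕ => L) m')
      (Matrix.of fun s t => fun m' => col D (X m') (ss t) (rr s))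
    have h4 : (Pi.evalRingHom (fun _ : ℕ => L) m').mapMatrix
        (Matrix.of fun s t => fun m' => col D (X m') (ss t) (rr s)) =
        Matrix.of fun s t => col D (X m') (ss t) (rr s) := rfl
    rw [h4, hXm m' rr ss] at h3
    exact h3

end Pool.Agent.Helper8.LG
end

/- Helper12.LVF.H49.LG.KeyLine -/
section
/-!
# The key lemma for two-vectors `x ∧ δ`

One degree better than `Helper8.LG.key`: if `∑ d_i + |Z| ≥ 2 w + 1 + c`, the two-vector `x ∧ δ` is
integral up to a power of `Δ` for some `δ` not proportional to `x`.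
-/

set_option autoImplicit false

namespace Pool.Agent.Helper49.LG

open scoped BigOperators
open Pool.Agent.Helper8.LG
open Pool.Agent.Helper74.LG (scl scl_apply Trans exists_max_coord)

/-- The conclusion of the key lemma: the entries `P_jl` are integral up to a power of `Δ` at all
valuation rings where `Δ` bounds the derivations, the corrections and the rows. -/
def KeyP {E : Type*} [Field E] {σ ι τ : Type*} [Fintype σ] [DecidableEq σ] [Fintype ι] [Fintype τ]
    (d : ι → ℕ) (a : (i : ι) → Sym σ (d i) → E) (D : Ix σ d → Derivation ℤ E E)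
    (θ : τ → Ix σ d → E) (Z : Finset ι) (x : σ → E) (P : σ → σ → E) : Prop :=
  ∀ (O : ValuationSubring E) (Δ : E), Bdd D Δ O → (∀ j s, Δ * θ j s ∈ O) →
      (∀ i ∉ Z, RowBdd D Δ O x (form (a i)) 1 0) →
      ∀ j l, Δ ^ (Fintype.card σ + Fintype.card ι + Fintype.card τ) * P j l ∈ O

section

variable {E : Type*} [Field E] {σ ι Tt : Type*}

/-- the reordering of the rows -/
def emb : σ ⊕ (ι ⊕ Tt) → (σ ⊕ ι) ⊕ Tt := (Equiv.sumAssoc σ ι Tt).symm

theorem phi_emb (c : E) (f : (σ ⊕ ι) ⊕ Tt → E) :
    (fun r => phi c f (emb r)) = scl c fun r => f (emb r) := by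
  funext r
  rcases r with l | (i | j) <;> rfl

variable [Fintype σ] [DecidableEq σ] [DecidableEq ι]
  (n : ι → ℕ) (a : (i : ι) → Sym σ (n i + 1) → E)
  (D : Ix σ (fun i => n i + 1) → Derivation ℤ E E)
  (θ : Tt → Ix σ (fun i => n i + 1) → E) (Z : Finset ι) (x : σ → E)

/-- the columns `C_(q,l)` -/
def c0 (q : Σ i : ι, Sym σ (n i)) (l : σ) : σ ⊕ (ι ⊕ Tt) → E :=
  fun r => cv n a D θ Z x ⟨q.1, l ::ₛ q.2⟩ (emb r)

/-- the Euler column -/
def e0 (n : ι → ℕ) (Z : Finset ι) (x : σ → E) : σ ⊕ (ι ⊕ Tt) → E := fun r => eul n Z x (emb r)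

/-- the columns of `x_(j₀)^(d_i)` -/
def r0 (j₀ : σ) (i : ι) : σ ⊕ (ι ⊕ Tt) → E :=
  fun r => cv n a D θ Z x ⟨i, Sym.replicate (n i + 1) j₀⟩ (emb r)

theorem sy_c0 (s : (Σ i : ι, Sym σ (n i)) × σ × σ) :
    sy x (c0 n a D θ Z x) s =
      fun r => syz n a D θ Z x ⟨s.1.1, s.1.2, s.2.1, s.2.2⟩ (emb r) := rfl

theorem trans0 (hU : ∀ i ∉ Z, form (a i) x ≠ 0) (i₀ : σ) (hx : x i₀ = 1) (j₀ : σ)
    (hj : x j₀ ≠ 0) :
    Trans (fun i => n i + 1) (x j₀) (e0 n Z x) (e0 n Z fun l => x l / x j₀)
      (sy x (c0 n a D θ Z x)) (sy (fun l => x l / x j₀) (c0 n a D θ Z fun l => x l / x j₀))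
      (r0 n a D θ Z x i₀) (r0 n a D θ Z (fun l => x l / x j₀) j₀) := by
  set c := x j₀ with hc
  set xt : σ → E := fun l => x l / c with hxt
  refine ⟨?_, ?_, ?_⟩
  · unfold e0
    rw [eul_scale n Z x c hj, phi_emb]
  · intro s
    obtain ⟨bb, hbb⟩ := syz_scale n a D θ Z x hU c hj ⟨s.1.1, s.1.2, s.2.1, s.2.2⟩
    refine ⟨bb, ?_⟩
    rw [sy_c0, sy_c0, hbb, ← phi_emb]
    rfl
  · intro i
    have h1 := cv_sub_mem n a D θ Z xt j₀ i (Sym.replicate (n i + 1) i₀)
    have hxj : xt j₀ = 1 := div_self hj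
    have hxi : mon xt (Sym.replicate (n i + 1) i₀) = (c ^ (n i + 1))⁻¹ := by
      rw [mon, Sym.coe_replicate, Multiset.map_replicate, Multiset.prod_replicate, hxt]
      simp only
      rw [hx, one_div, inv_pow]
    rw [hxj, one_pow, one_smul, hxi] at h1
    refine ⟨fun r => (cv n a D θ Z xt ⟨i, Sym.replicate (n i + 1) i₀⟩ -
      (c ^ (n i + 1))⁻¹ • cv n a D θ Z xt ⟨i, Sym.replicate (n i + 1) j₀⟩) (emb r),
      ?_, D ⟨i, Sym.replicate (n i + 1) i₀⟩ c / c, ?_⟩
    · have h2 := Submodule.mem_map_of_mem (f := LinearMap.funLeft E E (emb (σ := σ) (ι := ι)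
        (Tt := Tt))) h1
      rw [Submodule.map_span, ← Set.range_comp] at h2
      refine Submodule.span_mono ?_ h2
      rintro _ ⟨⟨i', I, j, l⟩, rfl⟩
      exact ⟨⟨⟨i', I⟩, j, l⟩, rfl⟩
    · have h6 := cv_scale n a D θ Z x hU c hj ⟨i, Sym.replicate (n i + 1) i₀⟩
      funext r
      have h7 := congrFun (phi_emb c (cv n a D θ Z xt
        ⟨i, Sym.replicate (n i + 1) i₀⟩)) r
      rw [scl_apply] at h7
      have h8 := congrFun h6 (emb r)
      rw [Pi.add_apply, Pi.smul_apply, smul_eq_mul] at h8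
      have h9 : r0 n a D θ Z x i₀ i r = cv n a D θ Z x
        ⟨i, Sym.replicate (n i + 1) i₀⟩ (emb r) := rfl
      rw [h9, h8]
      simp only [Pi.add_apply, Pi.smul_apply, smul_eq_mul, scl_apply, Pi.sub_apply]
      change _ = _ * (_ * cv n a D θ Z xt
        ⟨i, Sym.replicate (n i + 1) j₀⟩ (emb r)) + _ + _ * eul n Z x (emb r)
      rw [← hxt]
      change phi c (cv n a D θ Z xt
        ⟨i, Sym.replicate (n i + 1) i₀⟩) (emb r) + _ = _
      rw [h7]
      ring

end

private theorem key_line_aux {E : Type*} [Field E] {σ ι Tt : Type*} [Fintype σ] [DecidableEq σ]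
    [Fintype ι] [DecidableEq ι] [Fintype Tt] (n : ι → ℕ)
    (a : (i : ι) → Sym σ (n i + 1) → E)
    (D : Ix σ (fun i => n i + 1) → Derivation ℤ E E)
    (jj : Tt → Ix σ (fun i => n i + 1)) (θ : Tt → Ix σ (fun i => n i + 1) → E)
    (hD : Dual (fun i => n i + 1) a D jj θ)
    (Z : Finset ι) (x : σ → E) (i₀ j₁ : σ) (hx : x i₀ = 1) (hj : j₁ ≠ i₀)
    (hZ : ∀ i ∈ Z, form (a i) x = 0) (hU : ∀ i ∉ Z, form (a i) x ≠ 0) (w : ℕ)
    (hw1 : 2 * w + 1 + Fintype.card Tt ≤ ∑ i, (n i + 1) + Z.card)
    (hw2 : w + 2 ≤ ∑ i, (n i + 1)) (hm : MinorsVanish D x w) :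
    ∃ δ : σ → E, (∃ j l, x j * δ l - x l * δ j ≠ 0) ∧
      KeyP (fun i => n i + 1) a D θ Z x fun j l => x j * δ l - x l * δ j := by
  classical
  obtain ⟨lam, hl1, hl2, hl3⟩ := exists_functional n a D jj θ hD Z x hZ hU
  have hext : ∀ f : (σ ⊕ ι) ⊕ Tt → E,
      LinearMap.funLeft E E (Equiv.sumAssoc σ ι Tt) (fun r => f (emb r)) = f := by
    intro f
    funext r
    rw [LinearMap.funLeft_apply]
    change f ((Equiv.sumAssoc σ ι Tt).symm (Equiv.sumAssoc σ ι Tt r)) = f r
    rw [Equiv.symm_apply_apply]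
  have hcv0 : ∀ s, ∀ i ∈ Z, cv n a D θ Z x s (Sum.inl (Sum.inr i)) = 0 := by
    intro s i hi
    simp [cv, hi]
  have hCm : ∀ q, col D x q ∈ Submodule.span E (Set.range (col D x)) :=
    fun q => Submodule.subset_span ⟨q, rfl⟩
  obtain ⟨δ, hδ1, hδ2⟩ := key_two_abs (fun i => n i + 1)
    (Z.map ⟨Sum.inl, Sum.inl_injective⟩ : Finset (ι ⊕ Tt)) x i₀ j₁ hx hj (e0 n Z x)
    (c0 n a D θ Z x) (r0 n a D θ Z x i₀) (by
      change x i₀ ≠ 0
      rw [hx]
      exact one_ne_zero)
    (by
      intro i hi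
      obtain ⟨i', hi', rfl⟩ := Finset.mem_map.1 hi
      change eul n Z x (Sum.inl (Sum.inr i') : (σ ⊕ ι) ⊕ Tt) = 0
      simp [eul, hi'])
    (by
      intro q l i hi
      obtain ⟨i', hi', rfl⟩ := Finset.mem_map.1 hi
      exact hcv0 _ i' hi')
    (by
      intro i'' i hi
      obtain ⟨i', hi', rfl⟩ := Finset.mem_map.1 hi
      exact hcv0 _ i' hi')
    (lam ∘ₗ LinearMap.funLeft E E (Equiv.sumAssoc σ ι Tt))
    (by
      rw [LinearMap.comp_apply]
      unfold e0
      rw [hext, hl1])
    (by
      intro s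
      rw [LinearMap.comp_apply, sy_c0, hext, hl3])
    (fun _ => -1) (fun _ => neg_ne_zero.2 one_ne_zero)
    (by
      intro i
      rw [LinearMap.comp_apply]
      unfold r0
      rw [hext, hl2, mon, Sym.coe_replicate, Multiset.map_replicate,
        Multiset.prod_replicate, hx, one_pow])
    (col D x) w hm (hCm none)
    (by
      intro s
      exact sub_mem (Submodule.smul_mem _ (x s.2.1) (hCm (some ⟨s.1.1, s.2.2 ::ₛ s.1.2⟩)))
        (Submodule.smul_mem _ (x s.2.2) (hCm (some ⟨s.1.1, s.2.1 ::ₛ s.1.2⟩))))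
    (fun i => hCm (some ⟨i, Sym.replicate (n i + 1) i₀⟩))
    (by
      rw [Finset.card_map, Fintype.card_sum]
      omega) hw2
  refine ⟨δ, hδ1, fun O Δ hO hθ hrow => ?_⟩
  obtain ⟨j₀, hj₀, hjO⟩ := exists_max_coord O x i₀ (by
    rw [hx]
    exact one_ne_zero)
  have hci : (x j₀)⁻¹ ∈ O := by
    have h1 := hjO i₀
    rwa [hx, one_div] at h1
  have hcv : ∀ s r, Δ * cv n a D θ Z (fun l => x l / x j₀) s (emb r) ∈ O := by
    intro s r
    rcases r with l | (i | j)
    · exact hO.2 s _ (hjO l)
    · change Δ * (if i ∈ Z then 0 else _) ∈ O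
      split_ifs with hi
      · rw [mul_zero]
        exact zero_mem O
      · have h1 := (hrow i hi j₀ hj₀ hjO).2 s
        rwa [pow_zero, div_one, one_mul] at h1
    · exact hθ j s
  have hmain := hδ2 O Δ (x j₀) (e0 n Z fun l => x l / x j₀)
    (sy (fun l => x l / x j₀) (c0 n a D θ Z fun l => x l / x j₀))
    (r0 n a D θ Z (fun l => x l / x j₀) j₀) hj₀ hci hjO hO.1
    (trans0 n a D θ Z x hU i₀ hx j₀ hj₀) ?_ ?_ ?_
  · intro j l
    have h1 := hmain j l
    rwa [Fintype.card_sum, ← add_assoc] at h1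
  · rintro (l | (i | j))
    · exact mul_mem hO.1 (hjO l)
    · change Δ * (if i ∈ Z then 0 else _) ∈ O
      split_ifs with hi
      · rw [mul_zero]
        exact zero_mem O
      · exact mul_mem hO.1 (natCast_mem O _)
    · change Δ * 0 ∈ O
      rw [mul_zero]
      exact zero_mem O
  · intro s r
    have h4 := sub_mem (mul_mem (hjO s.2.1) (hcv ⟨s.1.1, s.2.2 ::ₛ s.1.2⟩ r))
      (mul_mem (hjO s.2.2) (hcv ⟨s.1.1, s.2.1 ::ₛ s.1.2⟩ r))
    have h5 : Δ * sy (fun l => x l / x j₀) (c0 n a D θ Z fun l => x l / x j₀) s r =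
        x s.2.1 / x j₀ * (Δ * cv n a D θ Z (fun l => x l / x j₀)
          ⟨s.1.1, s.2.2 ::ₛ s.1.2⟩ (emb r)) -
        x s.2.2 / x j₀ * (Δ * cv n a D θ Z (fun l => x l / x j₀)
          ⟨s.1.1, s.2.1 ::ₛ s.1.2⟩ (emb r)) := by
      simp only [sy, c0, Pi.sub_apply, Pi.smul_apply, smul_eq_mul]
      ring
    rw [h5]
    exact h4
  · intro i r
    exact hcv _ r

/-- **The key lemma for two-vectors**, one degree better than `key`. -/
theorem key_line {E : Type*} [Field E] {σ ι τ : Type*} [Fintype σ] [DecidableEq σ] [Fintype ι]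
    [DecidableEq ι] [Fintype τ] (d : ι → ℕ) (hd : ∀ i, 0 < d i)
    (a : (i : ι) → Sym σ (d i) → E) (D : Ix σ d → Derivation ℤ E E)
    (jj : τ → Ix σ d) (θ : τ → Ix σ d → E) (hD : Dual d a D jj θ)
    (Z : Finset ι) (x : σ → E) (i₀ j₁ : σ) (hx : x i₀ = 1) (hj : j₁ ≠ i₀)
    (hZ : ∀ i ∈ Z, form (a i) x = 0) (hU : ∀ i ∉ Z, form (a i) x ≠ 0) (w : ℕ)
    (hw1 : 2 * w + 1 + Fintype.card τ ≤ ∑ i, d i + Z.card)
    (hw2 : w + 2 ≤ ∑ i, d i) (hm : MinorsVanish D x w) :
    ∃ δ : σ → E, (∃ j l, x j * δ l - x l * δ j ≠ 0) ∧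
      KeyP d a D θ Z x fun j l => x j * δ l - x l * δ j := by
  obtain ⟨n, rfl⟩ : ∃ n : ι → ℕ, d = fun i => n i + 1 :=
    ⟨fun i => d i - 1, funext fun i => (Nat.sub_add_cancel (hd i)).symm⟩
  exact key_line_aux n a D jj θ hD Z x i₀ j₁ hx hj hZ hU w hw1 hw2 hm

end Pool.Agent.Helper49.LG
end
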