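import Pool.Agent.Helper12.LVM.C02
import Pool.Agent.Helper12.LVM.C06
import Pool.Agent.Helper12.LVM.C07
import Pool.Agent.Helper12.LVM.C08

/- Helper12.LVF.H49.LG.Rows -/
section
/-! # LG-ROWS: the rows are bounded in one direction of the base (`C` empty)

The proof is the one of `Helper8.LG.dir_one` (unramified case). -/

set_option autoImplicit false

namespace Pool.Agent.Helper49.LG

open scoped BigOperators
open Pool.Agent.Helper8.LG

/-- In one direction: the derivations, the corrections and the rows of all good points are bounded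
by one `Δ` at all valuation rings containing `intCl E₀ t`. -/
theorem dir_rows {L : Type*} [Field L] [CharZero L] {σ ι τ : Type*} [Fintype σ]
    [DecidableEq σ] [Fintype ι] [DecidableEq ι] [Fintype τ]
    (d : ι → ℕ) (hd : ∀ i, 0 < d i)
    (a : (i : ι) → Sym σ (d i) → L) (D : Ix σ d → Derivation ℤ L L)
    (θ : τ → Ix σ d → L) (Z : Finset ι)
    (E₀ : Subfield L) (t : L) (ht : Transcendental E₀ t)
    (hfin : FiniteDimensional (Subfield.closure ((E₀ : Set L) ∪ {t})) L)
    (hE₀ : ∀ p, ∀ f ∈ E₀, D p f ∈ E₀)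
    (hDt : ∀ p, D p t ∈ Subring.closure ((E₀ : Set L) ∪ {t}))
    (S : Set L) (hS : S.Finite) (hSa : ∀ p : Ix σ d, a p.1 p.2 ∈ S)
    (hSθ : ∀ j s, θ j s ∈ S) :
    ∃ Δ : L, Δ ≠ 0 ∧ Δ ∈ intCl E₀ t ∧ (∀ f ∈ S, Δ * f ∈ intCl E₀ t) ∧ ∀ x : σ → L,
      (∀ i ∉ Z, form (a i) x ≠ 0) →
      (∀ i ∉ Z, ∀ J : Sym σ (d i),
        IsIntegral (Subring.closure ((E₀ : Set L) ∪ S)) (mon x J / form (a i) x)) →
      ∀ O : ValuationSubring L, intCl E₀ t ≤ O.toSubring →
        Bdd D Δ O ∧ (∀ j s, Δ * θ j s ∈ O) ∧ ∀ i ∉ Z, RowBdd D Δ O x (form (a i)) 1 0 := by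
  obtain ⟨Δ₀, hΔc, hΔ0, hΔD, hΔS⟩ := exists_bound E₀ t ht hfin D hE₀ hDt S hS
  obtain ⟨hDed, hFrac⟩ := intCl_dedekind E₀ t ht hfin
  have hcl : Subring.closure ((E₀ : Set L) ∪ {t}) ≤ intCl E₀ t := by
    intro f hf
    exact isIntegral_algebraMap (R := Subring.closure ((E₀ : Set L) ∪ {t})) (x := ⟨f, hf⟩)
  have hE₀R : ∀ f ∈ E₀, f ∈ intCl E₀ t := fun f hf =>
    hcl (Subring.subset_closure (Or.inl hf))
  have hQ : ∀ n : ℕ, n ≠ 0 → ((n : L))⁻¹ ∈ intCl E₀ t := fun n _ =>
    hE₀R _ (E₀.inv_mem (natCast_mem E₀ n))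
  have hΔR : Δ₀ ∈ intCl E₀ t := hcl hΔc
  refine ⟨Δ₀ ^ 3, pow_ne_zero _ hΔ0, pow_mem hΔR 3, fun f hf => ?_, ?_⟩
  · have h1 : Δ₀ ^ 3 * f = Δ₀ ^ 2 * (Δ₀ * f) := by ring
    rw [h1]
    exact mul_mem (pow_mem hΔR 2) (hΔS f hf)
  intro x hne hint₀ O hO
  have hb : Bdd D Δ₀ O := bdd_of (intCl E₀ t) D Δ₀ hΔR hΔD O hO
  have hΔO : Δ₀ ∈ O := hb.1
  refine ⟨⟨pow_mem hΔO 3, fun p f hf => ?_⟩, fun j s => ?_, ?_⟩
  · have h1 : Δ₀ ^ 3 * D p f = Δ₀ ^ 2 * (Δ₀ * D p f) := by ring
    rw [h1]
    exact mul_mem (pow_mem hΔO 2) (hb.2 p f hf)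
  · have h1 : Δ₀ ^ 3 * θ j s = Δ₀ ^ 2 * (Δ₀ * θ j s) := by ring
    rw [h1]
    exact mul_mem (pow_mem hΔO 2) (hO (hΔS _ (hSθ j s)))
  intro i hi j hj hxO
  have hane : form (a i) x ≠ 0 := hne i hi
  have hgeq : form (a i) (fun l => x l / x j) = form (a i) x / x j ^ d i :=
    dirOne_form_div (a i) x (x j)
  have hg0 : form (a i) (fun l => x l / x j) ≠ 0 := by
    rw [hgeq]
    exact div_ne_zero hane (pow_ne_zero _ hj)
  rw [pow_zero, div_one]
  refine ⟨by rw [mul_one]; exact pow_mem hΔO 3, fun p => ?_⟩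
  rw [one_mul]
  have key : Δ₀ ^ 2 * (D p (form (a i) fun l => x l / x j) /
      form (a i) fun l => x l / x j) ∈ O := by
    by_cases hinv : Δ₀⁻¹ ∈ O
    · have hSO : ∀ f ∈ S, f ∈ O := fun f hf => by
        have h1 : f = Δ₀⁻¹ * (Δ₀ * f) := by
          rw [← mul_assoc, inv_mul_cancel₀ hΔ0, one_mul]
        rw [h1]
        exact mul_mem hinv (hO (hΔS f hf))
      have hA : Subring.closure ((E₀ : Set L) ∪ S) ≤ O.toSubring := by
        rw [Subring.closure_le]
        rintro f (hf | hf)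
        · exact hO (hE₀R f hf)
        · exact hSO f hf
      have hint := dirOne_int_mem O _ hA (hint₀ i hi (Sym.replicate (d i) j))
      rw [dirOne_mon_replicate] at hint
      have hgi : (form (a i) (fun l => x l / x j))⁻¹ ∈ O := by
        rw [hgeq, inv_div]
        exact hint
      have hgO : form (a i) (fun l => x l / x j) ∈ O := by
        have h1 := dirOne_form_mem O 1 (a i)
          (fun J => by rw [one_mul]; exact hSO _ (hSa ⟨i, J⟩)) _ hxO
        rwa [one_mul] at h1
      have h2 : Δ₀ ^ 2 * (D p (form (a i) fun l => x l / x j) /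
          form (a i) fun l => x l / x j) =
          Δ₀ * ((Δ₀ * D p (form (a i) fun l => x l / x j)) *
            (form (a i) (fun l => x l / x j))⁻¹) := by
        rw [div_eq_mul_inv]
        ring
      rw [h2]
      exact mul_mem hΔO (mul_mem (hb.2 p _ hgO) hgi)
    · have hb2 : Bdd D (Δ₀ ^ 2) O := by
        refine ⟨pow_mem hΔO 2, fun p f hf => ?_⟩
        have h1 : Δ₀ ^ 2 * D p f = Δ₀ * (Δ₀ * D p f) := by ring
        rw [h1]
        exact mul_mem hΔO (hb.2 p f hf)
      refine log_of (intCl E₀ t) hQ D O hO (Δ₀ ^ 2) hb2 Δ₀ hΔ0 (Or.inr hinv) (fun q => ?_)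
        _ hg0 p
      have h1 : Δ₀ ^ 2 * (D q Δ₀ / Δ₀) = Δ₀ * D q Δ₀ := by
        field_simp
      rw [h1]
      exact hb.2 q _ hΔO
  have h3 : Δ₀ ^ 3 * (D p (form (a i) fun l => x l / x j) /
      form (a i) fun l => x l / x j) =
      Δ₀ * (Δ₀ ^ 2 * (D p (form (a i) fun l => x l / x j) /
      form (a i) fun l => x l / x j)) := by
    ring
  rw [h3]
  exact mul_mem hΔO key

end Pool.Agent.Helper49.LG
end

/- Helper12.LVF.H49.LG.BoundLine -/
section
/-! # LG-BOUNDLINE: the two-vectors lie in a finite-dimensional space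

Copy of the first round of `Helper8.LG.bounded`, with `key_line` instead of `key`. -/

set_option autoImplicit false

namespace Pool.Agent.Helper49.LG

open scoped BigOperators
open Pool.Agent.Helper8.LG

private theorem blInv {L : Type*} [Field L] (D : Derivation ℤ L L) (f : L) :
    D f⁻¹ = -(f⁻¹ ^ 2) * D f := by
  have h := Derivation.leibniz_inv D f
  rw [h, smul_eq_mul]

private theorem blDual {L σ ι τ : Type*} [Field L] [DecidableEq σ] [DecidableEq ι] [Fintype τ]
    (d : ι → ℕ) (a : (i : ι) → Sym σ (d i) → L)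
    (D : Ix σ d → Derivation ℤ L L) (jj : τ → Ix σ d) (θ : τ → Ix σ d → L)
    (hD : Dual d a D jj θ) (T : Finset (Ix σ d)) (hT : ∀ j, jj j ∉ T) (q : Ix σ d) (p : T) :
    D q (a p.1.1 p.1.2) = if q = p.1 then 1 else 0 := by
  have h := hD q p.1
  rw [Finset.sum_eq_zero, sub_zero] at h
  · exact h
  · intro j _
    rw [if_neg]
    rintro h1
    exact hT j (h1 ▸ p.2)

private theorem blStable {k L σ ι τ : Type*} [Field k] [Field L] [Algebra k L]
    [DecidableEq σ] [DecidableEq ι] [Fintype τ]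
    (d : ι → ℕ) (a : (i : ι) → Sym σ (d i) → L)
    (D : Ix σ d → Derivation ℤ L L) (jj : τ → Ix σ d) (θ : τ → Ix σ d → L)
    (hD : Dual d a D jj θ) (T : Finset (Ix σ d)) (hT : ∀ j, jj j ∉ T)
    (hDk : ∀ p (c : k), D p (algebraMap k L c) = 0) (p : T) (q : Ix σ d) :
    ∀ f ∈ others (k := k) (fun p : T => a p.1.1 p.1.2) p,
      D q f ∈ others (k := k) (fun p : T => a p.1.1 p.1.2) p := by
  intro f hf
  have hf' : f ∈ IntermediateField.adjoin k ((fun p : T => a p.1.1 p.1.2) '' {p}ᶜ) := hf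
  show D q f ∈ IntermediateField.adjoin k ((fun p : T => a p.1.1 p.1.2) '' {p}ᶜ)
  induction hf' using IntermediateField.adjoin_induction with
  | mem x hx =>
    obtain ⟨r, _, rfl⟩ := hx
    show D q (a r.1.1 r.1.2) ∈ _
    rw [blDual d a D jj θ hD T hT q r]
    split_ifs
    · exact one_mem _
    · exact zero_mem _
  | algebraMap c =>
    rw [hDk q c]
    exact zero_mem _
  | add x y hx hy hx' hy' =>
    rw [map_add]
    exact add_mem (hx' hx) (hy' hy)
  | inv x hx hx' =>
    rw [blInv]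
    exact mul_mem (neg_mem (pow_mem (inv_mem hx) 2)) (hx' hx)
  | mul x y hx hy hx' hy' =>
    rw [Derivation.leibniz, smul_eq_mul, smul_eq_mul]
    exact add_mem (mul_mem hx (hy' hy)) (mul_mem hy (hx' hx))

private theorem blVar {L σ ι τ : Type*} [Field L] [DecidableEq σ] [DecidableEq ι] [Fintype τ]
    (d : ι → ℕ) (a : (i : ι) → Sym σ (d i) → L)
    (D : Ix σ d → Derivation ℤ L L) (jj : τ → Ix σ d) (θ : τ → Ix σ d → L)
    (hD : Dual d a D jj θ) (T : Finset (Ix σ d)) (hT : ∀ j, jj j ∉ T) (p : T) (q : Ix σ d)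
    (R : Subring L) :
    D q (a p.1.1 p.1.2) ∈ R := by
  rw [blDual d a D jj θ hD T hT q p]
  split_ifs
  · exact one_mem _
  · exact zero_mem _

private theorem blVarInv {L σ ι τ : Type*} [Field L] [DecidableEq σ] [DecidableEq ι] [Fintype τ]
    (d : ι → ℕ) (a : (i : ι) → Sym σ (d i) → L)
    (D : Ix σ d → Derivation ℤ L L) (jj : τ → Ix σ d) (θ : τ → Ix σ d → L)
    (hD : Dual d a D jj θ) (T : Finset (Ix σ d)) (hT : ∀ j, jj j ∉ T) (p : T) (q : Ix σ d)
    (R : Subring L) (hR : (a p.1.1 p.1.2)⁻¹ ∈ R) :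
    D q (a p.1.1 p.1.2)⁻¹ ∈ R := by
  rw [blInv]
  exact mul_mem (neg_mem (pow_mem hR 2)) (blVar d a D jj θ hD T hT p q R)

private theorem blLe {k L : Type*} [Field k] [Field L] [Algebra k L] (s : Set L)
    (E₀ : Subfield L) (hk : ∀ c : k, algebraMap k L c ∈ E₀) (S : Set L) (hs : s ⊆ S) :
    (Algebra.adjoin k s).toSubring ≤ Subring.closure ((E₀ : Set L) ∪ S) := by
  intro f hf
  have hf' : f ∈ Algebra.adjoin k s := hf
  induction hf' using Algebra.adjoin_induction with
  | mem x hx => exact Subring.subset_closure (Or.inr (hs hx))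
  | algebraMap c => exact Subring.subset_closure (Or.inl (hk c))
  | add x y hx hy hx' hy' => exact add_mem (hx' hx) (hy' hy)
  | mul x y hx hy hx' hy' => exact mul_mem (hx' hx) (hy' hy)

/-- In one direction the entries of all the two-vectors have bounded poles. -/
private theorem blDir {L : Type*} [Field L] [CharZero L] {σ ι τ : Type*} [Fintype σ]
    [DecidableEq σ] [Fintype ι] [DecidableEq ι] [Fintype τ]
    (d : ι → ℕ) (hd : ∀ i, 0 < d i)
    (a : (i : ι) → Sym σ (d i) → L) (D : Ix σ d → Derivation ℤ L L)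
    (θ : τ → Ix σ d → L) (Z : Finset ι)
    (E₀ : Subfield L) (t : L) (ht : Transcendental E₀ t)
    (hfin : FiniteDimensional (Subfield.closure ((E₀ : Set L) ∪ {t})) L)
    (hE₀ : ∀ p, ∀ f ∈ E₀, D p f ∈ E₀)
    (hDt : ∀ p, D p t ∈ Subring.closure ((E₀ : Set L) ∪ {t}))
    (S : Set L) (hS : S.Finite) (hSa : ∀ p : Ix σ d, a p.1 p.2 ∈ S)
    (hSθ : ∀ j s, θ j s ∈ S) :
    ∃ Δ : L, Δ ≠ 0 ∧ ∀ (x : σ → L) (P : σ → σ → L),
      (∀ i ∉ Z, form (a i) x ≠ 0) →
      (∀ i ∉ Z, ∀ J : Sym σ (d i),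
        IsIntegral (Subring.closure ((E₀ : Set L) ∪ S)) (mon x J / form (a i) x)) →
      KeyP d a D θ Z x P → ∀ j l, Δ * P j l ∈ intCl E₀ t := by
  obtain ⟨Δ, hΔ0, hΔR, hΔS, hΔ⟩ :=
    dir_rows d hd a D θ Z E₀ t ht hfin hE₀ hDt S hS hSa hSθ
  obtain ⟨hDed, hFrac⟩ := intCl_dedekind E₀ t ht hfin
  refine ⟨Δ ^ (Fintype.card σ + Fintype.card ι + Fintype.card τ), pow_ne_zero _ hΔ0,
    fun x P hne hint hkey j l => ?_⟩
  refine mem_of (intCl E₀ t) _ fun O hO => ?_
  obtain ⟨h1, h2, h3⟩ := hΔ x hne hint O hO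
  exact hkey O Δ h1 h2 h3 j l

theorem bounded_line {k L : Type*} [Field k] [Field L] [CharZero L] [Algebra k L]
    {σ ι τ : Type*} [Fintype σ] [DecidableEq σ] [Fintype ι] [DecidableEq ι] [Fintype τ]
    (d : ι → ℕ) (hd : ∀ i, 0 < d i) (a : (i : ι) → Sym σ (d i) → L) (T : Finset (Ix σ d))
    (hind : AlgebraicIndependent k (fun p : T => a p.1.1 p.1.2))
    (hfin : FiniteDimensional
      (IntermediateField.adjoin k (Set.range fun p : T => a p.1.1 p.1.2)) L)
    (D : Ix σ d → Derivation ℤ L L) (jj : τ → Ix σ d) (θ : τ → Ix σ d → L)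
    (hD : Dual d a D jj θ) (hT : ∀ j, jj j ∉ T)
    (hDk : ∀ p (c : k), D p (algebraMap k L c) = 0)
    (Z : Finset ι) (i₀ j₁ : σ) (hj : j₁ ≠ i₀) (w : ℕ)
    (hw1 : 2 * w + 1 + Fintype.card τ ≤ ∑ i, d i + Z.card) (hw2 : w + 2 ≤ ∑ i, d i)
    (A : Subalgebra k L) (hA : A.FG) :
    ∃ V : Submodule k L, FiniteDimensional k V ∧ ∀ x : σ → L, x i₀ = 1 →
      (∀ i ∈ Z, form (a i) x = 0) → (∀ i ∉ Z, form (a i) x ≠ 0) →
      (∀ i ∉ Z, ∀ J : Sym σ (d i), IsIntegral A (mon x J / form (a i) x)) →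
      MinorsVanish D x w →
      ∃ δ : σ → L, (∃ j l, x j * δ l - x l * δ j ≠ 0) ∧ ∀ j l, x j * δ l - x l * δ j ∈ V := by
  classical
  obtain ⟨s, hs⟩ := hA
  set y₀ : T → L := fun p : T => a p.1.1 p.1.2 with hy₀
  set S : Set L := (s : Set L) ∪ (Set.range (fun p : Ix σ d => a p.1 p.2) ∪
    Set.range fun r : τ × Ix σ d => θ r.1 r.2) with hS
  have hSfin : S.Finite :=
    (s.finite_toSet).union ((Set.finite_range _).union (Set.finite_range _))
  have hSa : ∀ p : Ix σ d, a p.1 p.2 ∈ S := fun p => Or.inr (Or.inl ⟨p, rfl⟩)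
  have hSθ : ∀ j s, θ j s ∈ S := fun j s => Or.inr (Or.inr ⟨(j, s), rfl⟩)
  have hk : ∀ (p : T) (c : k), algebraMap k L c ∈ others (k := k) y₀ p := by
    intro p c
    exact IntermediateField.algebraMap_mem _ c
  have hAle : ∀ p : T,
      A.toSubring ≤ Subring.closure ((others (k := k) y₀ p : Set L) ∪ S) := by
    intro p
    rw [← hs]
    exact blLe (s : Set L) _ (hk p) S Set.subset_union_left
  have htr := others_transcendental (k := k) y₀ hind
  have hof := others_finite (k := k) y₀ hfin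
  have hst : ∀ (p : T) (q : Ix σ d), ∀ f ∈ others (k := k) y₀ p,
      D q f ∈ others (k := k) y₀ p :=
    fun p q => blStable d a D jj θ hD T hT hDk p q
  have h1 := fun p : T => blDir d hd a D θ Z (others (k := k) y₀ p) (y₀ p) (htr p).1 (hof p).1
    (fun q => hst p q) (fun q => blVar d a D jj θ hD T hT p q _) S hSfin hSa hSθ
  have h1' := fun p : T => blDir d hd a D θ Z (others (k := k) y₀ p) (y₀ p)⁻¹ (htr p).2
    (hof p).2 (fun q => hst p q)
    (fun q => blVarInv d a D jj θ hD T hT p q _ (Subring.subset_closure (Or.inr rfl)))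
    S hSfin hSa hSθ
  choose Δ₁ hΔ₁ H₁ using h1
  choose Δ₁' hΔ₁' H₁' using h1'
  obtain ⟨V₁, hV₁, hV₁'⟩ := fd y₀ hind hfin Δ₁ Δ₁' hΔ₁ hΔ₁'
  refine ⟨V₁, hV₁, fun x hx hZ hU hint hm => ?_⟩
  obtain ⟨δ, hδ, hkey⟩ := key_line d hd a D jj θ hD Z x i₀ j₁ hx hj hZ hU w hw1 hw2 hm
  refine ⟨δ, hδ, fun j l => ?_⟩
  have hint' : ∀ p : T, ∀ i ∉ Z, ∀ J : Sym σ (d i),
      IsIntegral (Subring.closure ((others (k := k) y₀ p : Set L) ∪ S))
        (mon x J / form (a i) x) := fun p i hi J =>
    (hint i hi J).map_of_comp_eq (Subring.inclusion (S := A.toSubring) (hAle p))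
      (RingHom.id L) rfl
  apply hV₁'
  intro p
  exact ⟨H₁ p x _ hU (hint' p) hkey j l, H₁' p x _ hU (hint' p) hkey j l⟩

end Pool.Agent.Helper49.LG
end

/- Helper12.LVF.H49.LG.LineBound -/
section
/-!
# Points of the intersection are bounded

If all `F_i(x) = 0` and the two-vector `P = x ∧ δ` is bounded, then `x` is bounded: some `F_i` is
not zero on the line of `P`, and the leading coefficient of the restriction clears the denominators.
-/

set_option autoImplicit false

namespace Pool.Agent.Helper49.LG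

open scoped BigOperators
open Pool.Agent.Helper8.LG

/-- A common denominator of a finite-dimensional space and a finite set. -/
theorem exists_den {k L : Type*} [Field k] [Field L] [Algebra k L] (R : Subring L)
    [IsFractionRing R L] (hk : ∀ c : k, algebraMap k L c ∈ R) (V : Submodule k L)
    [FiniteDimensional k V] (S : Set L) (hS : S.Finite) :
    ∃ Δ : L, Δ ≠ 0 ∧ Δ ∈ R ∧ (∀ f ∈ V, Δ * f ∈ R) ∧ ∀ f ∈ S, Δ * f ∈ R := by
  classical
  obtain ⟨s, hs⟩ := (Submodule.fg_iff_finiteDimensional V).2 inferInstance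
  obtain ⟨b, hb⟩ := IsLocalization.exist_integer_multiples_of_finset (nonZeroDivisors R)
    (s ∪ hS.toFinset : Finset L)
  have hb' : ∀ f ∈ s ∪ hS.toFinset, ((b : R) : L) * f ∈ R := by
    intro f hf
    obtain ⟨r, hr⟩ := hb f hf
    have h1 : ((b : R) : L) * f = (r : L) := by
      rw [show (r : L) = algebraMap R L r from rfl, hr]
      rfl
    rw [h1]
    exact r.2
  refine ⟨((b : R) : L), ?_, (b : R).2, ?_, ?_⟩
  · intro h
    exact nonZeroDivisors.ne_zero b.2 (Subtype.ext h)
  · intro f hf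
    rw [← hs] at hf
    induction hf using Submodule.span_induction with
    | mem x hx => exact hb' x (Finset.mem_union_left _ hx)
    | zero => rw [mul_zero]; exact zero_mem R
    | add x y _ _ hx hy => rw [mul_add]; exact add_mem hx hy
    | smul c x _ hx =>
      rw [Algebra.smul_def, mul_left_comm]
      exact mul_mem (hk c) hx
  · intro f hf
    exact hb' f (Finset.mem_union_right _ (hS.mem_toFinset.2 hf))

/-- the restriction of a form to a line, as a polynomial -/
noncomputable def lineP {L σ : Type*} [CommSemiring L] [Fintype σ] [DecidableEq σ] {n : ℕ}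
    (a : Sym σ n → L) (p q : σ → L) : Polynomial L :=
  form (fun J => Polynomial.C (a J)) fun l => Polynomial.C (p l) + Polynomial.X * Polynomial.C (q l)

theorem mon_map {R R' : Type*} [CommSemiring R] [CommSemiring R'] (f : R →+* R') {σ : Type*}
    {n : ℕ} (x : σ → R) (J : Sym σ n) : f (mon x J) = mon (fun l => f (x l)) J := by
  unfold mon
  rw [map_multiset_prod, Multiset.map_map]
  rfl

theorem form_map {R R' : Type*} [CommSemiring R] [CommSemiring R'] (f : R →+* R') {σ : Type*}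
    [Fintype σ] [DecidableEq σ] {n : ℕ} (a : Sym σ n → R) (x : σ → R) :
    f (form a x) = form (fun J => f (a J)) (fun l => f (x l)) := by
  unfold form
  rw [map_sum]
  exact Finset.sum_congr rfl fun J _ => by rw [map_mul, mon_map]

theorem lineP_eval {L σ : Type*} [CommRing L] [Fintype σ] [DecidableEq σ] {n : ℕ}
    (a : Sym σ n → L) (p q : σ → L) (z : L) :
    (lineP a p q).eval z = form a fun l => p l + z * q l := by
  have h := form_map (Polynomial.evalRingHom z) (fun J => Polynomial.C (a J))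
    (fun l => Polynomial.C (p l) + Polynomial.X * Polynomial.C (q l))
  simp only [Polynomial.coe_evalRingHom, Polynomial.eval_add, Polynomial.eval_mul,
    Polynomial.eval_C, Polynomial.eval_X] at h
  exact h

theorem lineP_map {R L σ : Type*} [CommRing R] [CommRing L] (f : R →+* L) [Fintype σ]
    [DecidableEq σ] {n : ℕ} (a : Sym σ n → R) (p q : σ → R) :
    (lineP a p q).map f = lineP (fun J => f (a J)) (fun l => f (p l)) fun l => f (q l) := by
  have h := form_map (Polynomial.mapRingHom f) (fun J => Polynomial.C (a J))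
    (fun l => Polynomial.C (p l) + Polynomial.X * Polynomial.C (q l))
  simp only [Polynomial.coe_mapRingHom, Polynomial.map_add, Polynomial.map_mul,
    Polynomial.map_C, Polynomial.map_X] at h
  exact h

theorem mon_mul {R σ : Type*} [CommMonoid R] {n : ℕ} (c : R) (x : σ → R) (J : Sym σ n) :
    mon (fun l => c * x l) J = c ^ n * mon x J := by
  unfold mon
  rw [Multiset.prod_map_mul, Multiset.map_const', Multiset.prod_replicate, Sym.card_coe]

theorem form_mul {R σ : Type*} [CommSemiring R] [Fintype σ] [DecidableEq σ] {n : ℕ} (b c : R)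
    (a : Sym σ n → R) (x : σ → R) :
    form (fun J => b * a J) (fun l => c * x l) = b * c ^ n * form a x := by
  unfold form
  rw [Finset.mul_sum]
  exact Finset.sum_congr rfl fun J _ => by rw [mon_mul]; ring

theorem lineP_scale {L σ : Type*} [CommRing L] [Fintype σ] [DecidableEq σ] {n : ℕ}
    (c : L) (a : Sym σ n → L) (p q : σ → L) :
    lineP (fun J => c * a J) (fun l => c * p l) (fun l => c * q l) =
      Polynomial.C (c ^ (n + 1)) * lineP a p q := by
  unfold lineP
  have h1 : (fun J => Polynomial.C (c * a J)) = fun J => Polynomial.C c * Polynomial.C (a J) := by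
    funext J
    rw [Polynomial.C_mul]
  have h2 : (fun l => Polynomial.C (c * p l) + Polynomial.X * Polynomial.C (c * q l)) =
      fun l => Polynomial.C c * (Polynomial.C (p l) + Polynomial.X * Polynomial.C (q l)) := by
    funext l
    rw [Polynomial.C_mul, Polynomial.C_mul]
    ring
  rw [h1, h2, form_mul, Polynomial.C_pow, pow_succ']

/-- The leading coefficient clears the denominator of a root. -/
theorem lead_mem {L σ : Type*} [Field L] [Fintype σ] [DecidableEq σ] {n : ℕ} (R : Subring L)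
    (hR : ∀ z : L, IsIntegral R z → z ∈ R) (Δ : L) (a : Sym σ n → L) (p q : σ → L)
    (hΔ0 : Δ ≠ 0)
    (ha : ∀ J, Δ * a J ∈ R) (hp : ∀ l, Δ * p l ∈ R) (hq : ∀ l, Δ * q l ∈ R) (z : L)
    (hz : form a (fun l => p l + z * q l) = 0) (l : σ) :
    Δ ^ (n + 2) * ((lineP a p q).leadingCoeff * (p l + z * q l)) ∈ R := by
  set Ψ : Polynomial R := lineP (fun J => (⟨Δ * a J, ha J⟩ : R)) (fun l => ⟨Δ * p l, hp l⟩)
    fun l => ⟨Δ * q l, hq l⟩ with hΨ
  have hmap : Ψ.map (algebraMap R L) = Polynomial.C (Δ ^ (n + 1)) * lineP a p q := by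
    rw [hΨ, lineP_map, ← lineP_scale]
    rfl
  have hc0 : Δ ^ (n + 1) ≠ 0 := pow_ne_zero _ hΔ0
  have hinj : Function.Injective (algebraMap R L) := Subtype.val_injective
  have hlead : algebraMap R L Ψ.leadingCoeff = Δ ^ (n + 1) * (lineP a p q).leadingCoeff := by
    rw [← Polynomial.leadingCoeff_map_of_injective hinj, hmap, Polynomial.leadingCoeff_mul,
      Polynomial.leadingCoeff_C]
  have hroot : Polynomial.aeval z Ψ = 0 := by
    rw [Polynomial.aeval_def, Polynomial.eval₂_eq_eval_map, hmap, Polynomial.eval_mul, lineP_eval,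
      hz, mul_zero]
  have hint := hR _ (isIntegral_leadingCoeff_smul Ψ z hroot)
  rw [Algebra.smul_def, hlead] at hint
  have hlR : Δ ^ (n + 1) * (lineP a p q).leadingCoeff ∈ R := by
    rw [← hlead]
    exact Ψ.leadingCoeff.2
  have h1 : Δ ^ (n + 2) * ((lineP a p q).leadingCoeff * (p l + z * q l)) =
      Δ ^ (n + 1) * (lineP a p q).leadingCoeff * (Δ * p l) +
        Δ ^ (n + 1) * (lineP a p q).leadingCoeff * z * (Δ * q l) := by
    ring
  rw [h1]
  exact add_mem (mul_mem hlR (hp l)) (mul_mem hint (hq l))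

end Pool.Agent.Helper49.LG
end

/- Helper12.LVF.H49.LG.BoundPt -/
section
/-!
# Points of the intersection of all the hypersurfaces are bounded
-/

set_option autoImplicit false

namespace Pool.Agent.Helper49.LG

open scoped BigOperators
open Pool.Agent.Helper8.LG

/-- The multiplier of a point: one `G` which works in all directions. -/
theorem exists_lead {L : Type*} [Field L] [CharZero L] {σ ι τ : Type*} [Fintype σ] [DecidableEq σ]
    [Fintype ι] [DecidableEq ι] [Fintype τ] (d : ι → ℕ)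
    (a : (i : ι) → Sym σ (d i) → L) (D : Ix σ d → Derivation ℤ L L)
    (jj : τ → Ix σ d) (θ : τ → Ix σ d → L) (hD : Dual d a D jj θ)
    (hw3 : 2 * Fintype.card σ + Fintype.card τ ≤ ∑ i, (d i + 1) + 3)
    (x δ : σ → L) (hx : ∀ i, form (a i) x = 0) (hP : ∃ j l, x j * δ l - x l * δ j ≠ 0) :
    ∃ G : L, G ≠ 0 ∧ ∀ (R : Subring L) (Δ : L), (∀ z : L, IsIntegral R z → z ∈ R) → Δ ≠ 0 →
      Δ ∈ R → (∀ i J, Δ * a i J ∈ R) → (∀ j l, Δ * (x j * δ l - x l * δ j) ∈ R) →
      ∀ l, Δ ^ (∑ i, d i + 2) * (G * x l) ∈ R := by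
  classical
  obtain ⟨α, β, hαβ, hxα⟩ : ∃ α β, x α * δ β - x β * δ α ≠ 0 ∧ x α ≠ 0 := by
    obtain ⟨j, l, hjl⟩ := hP
    by_cases hj : x j = 0
    · refine ⟨l, j, ?_, ?_⟩
      · intro h
        apply hjl
        linear_combination -h
      · intro h
        apply hjl
        rw [hj, h]
        ring
    · exact ⟨j, l, hjl, hj⟩
  set P : σ → σ → L := fun j l => x j * δ l - x l * δ j with hPdef
  have hP0 : P α β ≠ 0 := hαβ
  have hne : α ≠ β := by
    intro h
    apply hαβ
    rw [h]
    ring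
  have hpp : ∀ j, P j j = 0 := fun j => by
    simp only [hPdef]
    ring
  obtain ⟨i, n, hin⟩ := gen_line d a D jj θ hD α β hne (fun l => P l β / P α β)
    (fun l => P α l / P α β) (div_self hP0) (by rw [hpp, zero_div])
    (by rw [hpp, zero_div]) (div_self hP0) hw3
  set F := lineP (a i) (fun l => P l β) (fun l => P α l) with hF
  have hF0 : F ≠ 0 := by
    intro h0
    have h1 := lineP_eval (a i) (fun l => P l β) (fun l => P α l) (n : L)
    rw [← hF, h0, Polynomial.eval_zero] at h1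
    apply hin
    have h2 := form_mul 1 (P α β)⁻¹ (a i) (fun l => P l β + n * P α l)
    rw [← h1, mul_zero] at h2
    simp only [one_mul] at h2
    rw [← h2]
    congr 1
    funext l
    rw [div_eq_mul_inv, div_eq_mul_inv]
    ring
  set z := x β / x α with hz
  have hpl : ∀ l, P l β + z * P α l = P α β / x α * x l := by
    intro l
    rw [hz]
    simp only [hPdef]
    field_simp
    ring
  have hroot : form (a i) (fun l => P l β + z * P α l) = 0 := by
    have h2 := form_mul 1 (P α β / x α) (a i) x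
    rw [hx i, mul_zero] at h2
    simp only [one_mul] at h2
    rw [← h2]
    congr 1
    funext l
    exact hpl l
  refine ⟨F.leadingCoeff * (P α β / x α),
    mul_ne_zero (Polynomial.leadingCoeff_ne_zero.2 hF0) (div_ne_zero hP0 hxα), ?_⟩
  intro R Δ hR hΔ0 hΔ ha hPR l
  have h1 := lead_mem R hR Δ (a i) (fun l => P l β) (fun l => P α l) hΔ0 (ha i)
    (fun l => hPR l β) (fun l => hPR α l) z hroot l
  rw [hpl l, ← hF] at h1
  obtain ⟨r, hr⟩ : ∃ r, ∑ i, d i + 2 = d i + 2 + r := by
    apply Nat.exists_eq_add_of_le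
    have h2 : d i ≤ ∑ i, d i := Finset.single_le_sum (f := d) (fun _ _ => Nat.zero_le _)
      (Finset.mem_univ i)
    omega
  rw [hr, pow_add]
  have h3 : Δ ^ (d i + 2) * Δ ^ r * (F.leadingCoeff * (P α β / x α) * x l) =
      Δ ^ r * (Δ ^ (d i + 2) * (F.leadingCoeff * (P α β / x α * x l))) := by
    ring
  rw [h3]
  exact mul_mem (pow_mem hΔ r) h1

theorem intCl_closed {L : Type*} [Field L] (E₀ : Subfield L) (t : L)
    (h1 : IsDedekindDomain (intCl E₀ t)) (h2 : IsFractionRing (intCl E₀ t) L) (z : L)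
    (hz : IsIntegral (intCl E₀ t) z) : z ∈ intCl E₀ t := by
  have := h1
  have := h2
  obtain ⟨y, hy⟩ := (IsIntegrallyClosed.isIntegral_iff (R := intCl E₀ t) (K := L)).1 hz
  rw [← hy]
  exact y.2

/-- **Points of the intersection are bounded.** -/
theorem bounded_pt {k L : Type*} [Field k] [Field L] [CharZero L] [Algebra k L]
    {σ ι τ : Type*} [Fintype σ] [DecidableEq σ] [Fintype ι] [DecidableEq ι] [Fintype τ]
    (d : ι → ℕ) (hd : ∀ i, 0 < d i) (a : (i : ι) → Sym σ (d i) → L) (T : Finset (Ix σ d))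
    (hind : AlgebraicIndependent k (fun p : T => a p.1.1 p.1.2))
    (hfin : FiniteDimensional
      (IntermediateField.adjoin k (Set.range fun p : T => a p.1.1 p.1.2)) L)
    (D : Ix σ d → Derivation ℤ L L) (jj : τ → Ix σ d) (θ : τ → Ix σ d → L)
    (hD : Dual d a D jj θ) (hT : ∀ j, jj j ∉ T)
    (hDk : ∀ p (c : k), D p (algebraMap k L c) = 0)
    (i₀ j₁ : σ) (hj : j₁ ≠ i₀) (w : ℕ)
    (hw1 : 2 * w + 1 + Fintype.card τ ≤ ∑ i, (d i + 1)) (hw2 : w + 2 ≤ ∑ i, d i)
    (hw3 : 2 * Fintype.card σ + Fintype.card τ ≤ ∑ i, (d i + 1) + 3) :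
    ∃ V : Submodule k L, FiniteDimensional k V ∧ ∀ x : σ → L, x i₀ = 1 →
      (∀ i, form (a i) x = 0) → MinorsVanish D x w → ∃ G : L, G ≠ 0 ∧ ∀ l, G * x l ∈ V := by
  classical
  obtain ⟨V, hV, hVx⟩ := bounded_line d hd a T hind hfin D jj θ hD hT hDk Finset.univ i₀ j₁ hj w
    (by
      rw [Finset.sum_add_distrib, Finset.sum_const, smul_eq_mul, mul_one] at hw1
      exact hw1) hw2 ⊥ Subalgebra.fg_bot
  have := hV
  set y₀ : T → L := fun p : T => a p.1.1 p.1.2 with hy₀
  have htr := others_transcendental (k := k) y₀ hind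
  have hof := others_finite (k := k) y₀ hfin
  set S : Set L := Set.range fun p : Ix σ d => a p.1 p.2 with hS
  have hSfin : S.Finite := Set.finite_range _
  have hdir : ∀ (p : T) (t : L), Transcendental (others (k := k) y₀ p) t →
      FiniteDimensional (Subfield.closure ((others (k := k) y₀ p : Set L) ∪ {t})) L →
      ∃ Δ : L, Δ ≠ 0 ∧ Δ ∈ intCl (others (k := k) y₀ p) t ∧
        (∀ z : L, IsIntegral (intCl (others (k := k) y₀ p) t) z →
          z ∈ intCl (others (k := k) y₀ p) t) ∧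
        (∀ f ∈ V, Δ * f ∈ intCl (others (k := k) y₀ p) t) ∧
        ∀ f ∈ S, Δ * f ∈ intCl (others (k := k) y₀ p) t := by
    intro p t ht hf
    obtain ⟨h1, h2⟩ := intCl_dedekind (others (k := k) y₀ p) t ht hf
    have hk : ∀ c : k, algebraMap k L c ∈ intCl (others (k := k) y₀ p) t := by
      intro c
      have h3 : algebraMap k L c ∈ Subring.closure ((others (k := k) y₀ p : Set L) ∪ {t}) :=
        Subring.subset_closure (Or.inl (IntermediateField.algebraMap_mem _ c))
      exact isIntegral_algebraMap (x := (⟨algebraMap k L c, h3⟩ :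
        Subring.closure ((others (k := k) y₀ p : Set L) ∪ {t})))
    have := h2
    obtain ⟨Δ, h4, h5, h6, h7⟩ := exists_den (intCl (others (k := k) y₀ p) t) hk V S hSfin
    exact ⟨Δ, h4, h5, intCl_closed _ _ h1 h2, h6, h7⟩
  choose Δ₁ h10 h11 h12 h13 h14 using fun p => hdir p (y₀ p) (htr p).1 (hof p).1
  choose Δ₂ h20 h21 h22 h23 h24 using fun p => hdir p (y₀ p)⁻¹ (htr p).2 (hof p).2
  obtain ⟨V', hV', hV''⟩ := fd y₀ hind hfin (fun p => Δ₁ p ^ (∑ i, d i + 2))
    (fun p => Δ₂ p ^ (∑ i, d i + 2)) (fun p => pow_ne_zero _ (h10 p))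
    (fun p => pow_ne_zero _ (h20 p))
  refine ⟨V', hV', fun x hx0 hx hm => ?_⟩
  obtain ⟨δ, hδ1, hδ2⟩ := hVx x hx0 (fun i _ => hx i) (fun i hi => absurd (Finset.mem_univ i) hi)
    (fun i hi => absurd (Finset.mem_univ i) hi) hm
  obtain ⟨G, hG0, hG⟩ := exists_lead d a D jj θ hD hw3 x δ hx hδ1
  refine ⟨G, hG0, fun l => hV'' _ fun p => ⟨?_, ?_⟩⟩
  · exact hG _ (Δ₁ p) (h12 p) (h10 p) (h11 p) (fun i J => h14 p _ ⟨⟨i, J⟩, rfl⟩)
      (fun j l => h13 p _ (hδ2 j l)) l
  · exact hG _ (Δ₂ p) (h22 p) (h20 p) (h21 p) (fun i J => h24 p _ ⟨⟨i, J⟩, rfl⟩)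
      (fun j l => h23 p _ (hδ2 j l)) l

end Pool.Agent.Helper49.LG
end

/- Helper12.LVF.H49.LG.RigidLine -/
section
/-! # LG-RIGIDLINE: rigidity of the line

Copy of `Helper8.LG.rigid` (`C` empty) with `key_line` instead of `key`. -/

set_option autoImplicit false

namespace Pool.Agent.Helper49.LG

open scoped BigOperators
open Pool.Agent.Helper8.LG

/-- One side: `P j l` is integral over `E₀[t]`. -/
theorem rl_side {E : Type*} [Field E] [CharZero E] {σ ι τ : Type*} [Fintype σ] [DecidableEq σ]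
    [Fintype ι] [Fintype τ] (d : ι → ℕ) (a : (i : ι) → Sym σ (d i) → E)
    (D : Ix σ d → Derivation ℤ E E) (θ : τ → Ix σ d → E) (Z : Finset ι)
    (x : σ → E) (hU : ∀ i ∉ Z, form (a i) x ≠ 0)
    (E₀ : Subfield E) (t : E) (ht : Transcendental E₀ t)
    (hfin : FiniteDimensional (Subfield.closure ((E₀ : Set E) ∪ {t})) E)
    (hstab : ∀ p, ∀ f ∈ intCl E₀ t, D p f ∈ intCl E₀ t)
    (ha : ∀ i J, a i J ∈ E₀) (hθ : ∀ j s, θ j s ∈ E₀) {n : ℕ} (c : Fin n → E)
    (hDc : ∀ p r, D p (c r) = 0)
    (hc : ∀ O : ValuationSubring E, (∀ f ∈ E₀, f ∈ O) → (∀ r, c r ∈ O) →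
      ∀ i ∉ Z, ∀ J : Sym σ (d i), mon x J / form (a i) x ∈ O)
    (P : σ → σ → E) (hP : KeyP d a D θ Z x P) (j l : σ) : P j l ∈ intCl E₀ t := by
  obtain ⟨h1, h2⟩ := intCl_dedekind E₀ t ht hfin
  haveI := h1
  haveI := h2
  have hE₀R : ∀ f ∈ E₀, f ∈ intCl E₀ t := fun f hf =>
    rg_mem_intCl E₀ t (Subring.subset_closure (Or.inl hf))
  have hQ : ∀ n : ℕ, n ≠ 0 → ((n : E))⁻¹ ∈ intCl E₀ t := fun n _ =>
    hE₀R _ (inv_mem (natCast_mem E₀ n))
  apply mem_of (intCl E₀ t)
  intro O hO
  have hE₀O : ∀ f ∈ E₀, f ∈ O := fun f hf => hO (hE₀R f hf)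
  have hbdd : Bdd D 1 O := bdd_of (intCl E₀ t) D 1 (one_mem _)
    (fun p f hf => by rw [one_mul]; exact hstab p f hf) O hO
  have hDO : ∀ p, ∀ f ∈ O, D p f ∈ O := fun p f hf => by
    have := hbdd.2 p f hf
    rwa [one_mul] at this
  have hrow : ∀ i ∉ Z, RowBdd D 1 O x (form (a i)) 1 0 := by
    intro i hiZ j hj hprim
    have hform := rg_form_div (a i) x (x j)
    have hform0 : form (a i) (fun l => x l / x j) ≠ 0 := by
      rw [hform]
      exact div_ne_zero (hU i hiZ) (pow_ne_zero _ hj)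
    have hformO : form (a i) (fun l => x l / x j) ∈ O := by
      unfold form
      refine sum_mem fun J _ => mul_mem (hE₀O _ (ha i J)) ?_
      unfold mon
      refine multiset_prod_mem _ fun z hz => ?_
      obtain ⟨l, -, rfl⟩ := Multiset.mem_map.1 hz
      exact hprim l
    simp only [one_mul, pow_zero, div_one]
    refine ⟨one_mem O, fun p => ?_⟩
    by_cases hcO : ∀ r, c r ∈ O
    · have h3 := hc O hE₀O hcO i hiZ (Sym.replicate (d i) j)
      rw [rg_mon_replicate] at h3
      have h4 : x j ^ d i / form (a i) x = (form (a i) fun l => x l / x j)⁻¹ := by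
        rw [hform, inv_div]
      rw [h4] at h3
      rw [div_eq_mul_inv]
      exact mul_mem (hDO p _ hformO) h3
    · push Not at hcO
      obtain ⟨r, hr⟩ := hcO
      have hr0 : c r ≠ 0 := by
        intro h
        rw [h] at hr
        exact hr (zero_mem O)
      have h3 := log_of (intCl E₀ t) hQ D O hO 1 hbdd (c r) hr0 (Or.inl hr)
        (fun p => by rw [hDc, zero_div, mul_zero]; exact zero_mem O) _ hform0 p
      rwa [one_mul] at h3
  have h5 := hP O 1 hbdd (fun j s => by rw [one_mul]; exact hE₀O _ (hθ j s)) hrow j l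
  rwa [one_pow, one_mul] at h5

theorem rigid_line {k L E : Type*} [Field k] [Field L] [Field E] [CharZero E] [Algebra k L]
    [Algebra L E] [Algebra k E] [IsScalarTower k L E] {n : ℕ} (c : Fin n → E)
    (hgen : IntermediateField.adjoin L (Set.range c) = ⊤) (B : Set (Fin n))
    (hB : AlgebraicIndependent L (fun b : B => c b))
    (halg : ∀ r, IsAlgebraic (IntermediateField.adjoin k (c '' B)) (c r))
    {σ ι τ : Type*} [Fintype σ] [DecidableEq σ] [Fintype ι] [DecidableEq ι] [Fintype τ]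
    (d : ι → ℕ) (hd : ∀ i, 0 < d i) (a : (i : ι) → Sym σ (d i) → L)
    (D : Ix σ d → Derivation ℤ E E) (jj : τ → Ix σ d) (θ : τ → Ix σ d → L)
    (hD : Dual d (fun i J => algebraMap L E (a i J)) D jj fun j s => algebraMap L E (θ j s))
    (hDL : ∀ p b, ∃ b', D p (algebraMap L E b) = algebraMap L E b')
    (hDk : ∀ p (b : k), D p (algebraMap k E b) = 0)
    (hDc : ∀ p r, D p (c r) = 0)
    (Z : Finset ι) (w : ℕ)
    (hw1 : 2 * w + 1 + Fintype.card τ ≤ ∑ i, d i + Z.card) (hw2 : w + 2 ≤ ∑ i, d i)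
    (x : σ → E) (i₀ j₁ : σ) (hx : x i₀ = 1) (hj : j₁ ≠ i₀)
    (hZ : ∀ i ∈ Z, form (fun J => algebraMap L E (a i J)) x = 0)
    (hU : ∀ i ∉ Z, form (fun J => algebraMap L E (a i J)) x ≠ 0)
    (hint : ∀ i ∉ Z, ∀ J : Sym σ (d i),
      mon x J / form (fun J => algebraMap L E (a i J)) x ∈ Algebra.adjoin L (Set.range c))
    (hm : MinorsVanish D x w) :
    ∃ δ : σ → E, (∃ j l, x j * δ l - x l * δ j ≠ 0) ∧
      ∀ j l, IsAlgebraic L (x j * δ l - x l * δ j) := by
  classical
  obtain ⟨δ, hδ, hδ2⟩ := key_line d hd (fun i J => algebraMap L E (a i J)) D jj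
    (fun j s => algebraMap L E (θ j s)) hD Z x i₀ j₁ hx hj hZ hU w hw1 hw2 hm
  -- the field `F = E₀(t)`
  have hrange : (Set.range fun b : B => c b) = c '' B := by
    ext z
    constructor
    · rintro ⟨b, rfl⟩
      exact ⟨b, b.2, rfl⟩
    · rintro ⟨b, hb, rfl⟩
      exact ⟨⟨b, hb⟩, rfl⟩
  have halgF : ∀ (F : Subfield E), (∀ b : k, algebraMap k E b ∈ F) → (∀ b ∈ B, c b ∈ F) →
      ∀ r, IsAlgebraic F (c r) := by
    intro F hkF hBF r
    refine rg_alg (R₁ := IntermediateField.adjoin k (c '' B)) (fun s => ?_) (halg r)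
    have h1 : (IntermediateField.adjoin k (c '' B)).toSubfield ≤ F := by
      rw [IntermediateField.adjoin_toSubfield, Subfield.closure_le]
      rintro z (⟨b, rfl⟩ | ⟨b, hb, rfl⟩)
      · exact hkF b
      · exact hBF b hb
    exact ⟨⟨s, h1 s.2⟩, rfl⟩
  have hfinF : ∀ (F : Subfield E), (∀ b : L, algebraMap L E b ∈ F) → (∀ b ∈ B, c b ∈ F) →
      FiniteDimensional F E := by
    intro F hLF hBF
    have hkF : ∀ b : k, algebraMap k E b ∈ F := fun b => by
      rw [IsScalarTower.algebraMap_apply k L E]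
      exact hLF _
    have h1 : FiniteDimensional F (IntermediateField.adjoin F (Set.range c)) :=
      IntermediateField.finiteDimensional_adjoin (by
        rintro z ⟨r, rfl⟩
        exact (halgF F hkF hBF r).isIntegral)
    have h2 : IntermediateField.adjoin F (Set.range c) = ⊤ := by
      rw [eq_top_iff]
      intro z _
      have hz : z ∈ IntermediateField.adjoin L (Set.range c) := by rw [hgen]; trivial
      have h3 : (IntermediateField.adjoin L (Set.range c)).toSubfield ≤
          (IntermediateField.adjoin F (Set.range c)).toSubfield := by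
        rw [IntermediateField.adjoin_toSubfield, Subfield.closure_le]
        rintro z (⟨b, rfl⟩ | hz)
        · exact (IntermediateField.adjoin F (Set.range c)).algebraMap_mem ⟨_, hLF b⟩
        · exact IntermediateField.subset_adjoin F _ hz
      exact h3 hz
    rw [h2] at h1
    exact Module.Finite.equiv (IntermediateField.topEquiv (F := F) (E := E)).toLinearEquiv
  refine ⟨δ, hδ, fun j l => ?_⟩
  refine exchange (fun b : B => c b) hB (x j * δ l - x l * δ j) ?_ fun b => ?_
  · -- algebraic over `L(c_B)`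
    have h1 := hfinF (IntermediateField.adjoin L (Set.range fun b : B => c b)).toSubfield
      (fun b => (IntermediateField.adjoin L (Set.range fun b : B => c b)).algebraMap_mem b)
      (fun b hb => IntermediateField.subset_adjoin L _ ⟨⟨b, hb⟩, rfl⟩)
    have h2 : IsAlgebraic (IntermediateField.adjoin L (Set.range fun b : B => c b)).toSubfield
        (x j * δ l - x l * δ j) := Algebra.IsAlgebraic.isAlgebraic _
    exact rg_alg (fun s => ⟨⟨s, s.2⟩, rfl⟩) h2
  · -- algebraic over `L(c_(B - b))`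
    set S₀ : Set E := (fun b : B => c b) '' {b}ᶜ with hS₀
    set E₀ : Subfield E := (IntermediateField.adjoin L S₀).toSubfield with hE₀
    have hE₀cl : E₀ = Subfield.closure (Set.range (algebraMap L E) ∪ S₀) :=
      IntermediateField.adjoin_toSubfield L S₀
    have hLE₀ : ∀ z : L, algebraMap L E z ∈ E₀ := fun z =>
      (IntermediateField.adjoin L S₀).algebraMap_mem z
    have hSE₀ : ∀ z ∈ S₀, z ∈ E₀ := fun z hz => IntermediateField.subset_adjoin L _ hz
    have hcE₀ : ∀ b' ∈ B, b' ≠ b → c b' ∈ E₀ := fun b' hb' hne => by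
      refine hSE₀ _ ⟨⟨b', hb'⟩, ?_, rfl⟩
      intro h
      apply hne
      rw [Set.mem_singleton_iff] at h
      rw [← h]
    have htr : Transcendental E₀ (c b) := by
      have h1 : Transcendental (Algebra.adjoin L S₀) (c b) :=
        hB.transcendental_adjoin (s := {b}ᶜ) (i := b) (fun h => h rfl)
      have h2 := (IntermediateField.transcendental_adjoin_iff (F := L) (s := S₀)).2 h1
      intro h3
      exact h2 (rg_alg (fun s => ⟨⟨s, s.2⟩, rfl⟩) h3)
    -- the derivations
    have hDE₀ : ∀ p, ∀ f ∈ E₀, D p f ∈ E₀ := by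
      intro p
      rw [hE₀cl]
      apply rg_stable
      rintro f (⟨z, rfl⟩ | hf)
      · obtain ⟨z', hz'⟩ := hDL p z
        rw [hz']
        exact Subfield.subset_closure (Or.inl ⟨z', rfl⟩)
      · obtain ⟨b', -, rfl⟩ := hf
        show D p (c b') ∈ _
        rw [hDc]
        exact zero_mem _
    set k₀ : Subfield E := (IntermediateField.adjoin k S₀).toSubfield with hk₀
    have hk₀cl : k₀ = Subfield.closure (Set.range (algebraMap k E) ∪ S₀) :=
      IntermediateField.adjoin_toSubfield k S₀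
    have hk₀E₀ : k₀ ≤ E₀ := by
      rw [hk₀cl, Subfield.closure_le]
      rintro z (⟨z, rfl⟩ | hz)
      · rw [IsScalarTower.algebraMap_apply k L E]
        exact hLE₀ _
      · exact hSE₀ z hz
    have hDk₀ : ∀ p, ∀ f ∈ k₀, D p f = 0 := by
      intro p
      rw [hk₀cl]
      apply rg_kill
      rintro f (⟨z, rfl⟩ | hf)
      · exact hDk p z
      · obtain ⟨b', -, rfl⟩ := hf
        exact hDc p b'
    -- both sides
    have hside : ∀ t : E, (t = c b ∨ t = (c b)⁻¹) → Transcendental E₀ t ∧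
        FiniteDimensional (Subfield.closure ((E₀ : Set E) ∪ {t})) E ∧
        x j * δ l - x l * δ j ∈ intCl E₀ t := by
      intro t ht
      have htc : c b ∈ Subfield.closure ({t} : Set E) := by
        rcases ht with h | h
        · rw [← h]
          exact Subfield.subset_closure rfl
        · have h1 : c b = t⁻¹ := by rw [h, inv_inv]
          rw [h1]
          exact inv_mem (Subfield.subset_closure rfl)
      have htt : Transcendental E₀ t := by
        rcases ht with h | h
        · rw [h]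
          exact htr
        · rw [h]
          intro h1
          exact htr (by simpa using h1.inv)
      have hF1 : ∀ z : L, algebraMap L E z ∈ Subfield.closure ((E₀ : Set E) ∪ {t}) := fun z =>
        Subfield.subset_closure (Or.inl (hLE₀ z))
      have hF2 : ∀ b' ∈ B, c b' ∈ Subfield.closure ((E₀ : Set E) ∪ {t}) := by
        intro b' hb'
        by_cases hne : b' = b
        · rw [hne]
          exact Subfield.closure_mono (Set.subset_union_right) htc
        · exact Subfield.subset_closure (Or.inl (hcE₀ b' hb' hne))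
      have hfin := hfinF _ hF1 hF2
      refine ⟨htt, hfin, ?_⟩
      have hDt : ∀ p, D p t = 0 := by
        intro p
        rcases ht with h | h
        · rw [h]
          exact hDc p b
        · rw [h, (D p).leibniz_inv, hDc, smul_zero]
      have hstab := intCl_stable E₀ t D hDE₀ hDt k₀ hk₀E₀ hDk₀ (Set.range c)
        (Set.finite_range c) (by rintro p z ⟨r, rfl⟩; exact hDc p r) (by
          rintro z ⟨r, rfl⟩
          refine halgF _ (fun z => ?_) (fun b' hb' => ?_) r
          · exact Subfield.subset_closure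
              (Or.inl ((IntermediateField.adjoin k S₀).algebraMap_mem z))
          · by_cases hne : b' = b
            · rw [hne]
              exact Subfield.closure_mono (Set.subset_union_right) htc
            · refine Subfield.subset_closure (Or.inl ?_)
              refine IntermediateField.subset_adjoin k S₀ ⟨⟨b', hb'⟩, ?_, rfl⟩
              intro h
              apply hne
              rw [Set.mem_singleton_iff] at h
              rw [← h]) (by
          rw [eq_top_iff]
          intro z _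
          have hz : z ∈ (IntermediateField.adjoin L (Set.range c)).toSubfield := by
            rw [hgen]; trivial
          rw [IntermediateField.adjoin_toSubfield] at hz
          refine Subfield.closure_mono ?_ hz
          rintro z (⟨z, rfl⟩ | hz)
          · exact Or.inl (Or.inl (hLE₀ z))
          · exact Or.inr hz)
      refine rl_side d (fun i J => algebraMap L E (a i J)) D
        (fun j s => algebraMap L E (θ j s)) Z x hU E₀ t
        htt hfin hstab (fun i J => hLE₀ _) (fun j s => hLE₀ _) c hDc ?_ _ hδ2 j l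
      intro O hO1 hO2 i hiZ J
      have h1 := hint i hiZ J
      have h2 : (Algebra.adjoin L (Set.range c)).toSubring ≤ O.toSubring := by
        rw [Algebra.adjoin_eq_ring_closure, Subring.closure_le]
        rintro z (⟨z, rfl⟩ | ⟨r, rfl⟩)
        · exact hO1 _ (hLE₀ z)
        · exact hO2 r
      exact h2 h1
    obtain ⟨ht1, hfin1, h1⟩ := hside (c b) (Or.inl rfl)
    obtain ⟨-, -, h2⟩ := hside (c b)⁻¹ (Or.inr rfl)
    have hP : IsAlgebraic E₀ (x j * δ l - x l * δ j) :=
      algebraic_of_mem E₀ (c b) ht1 hfin1 _ h1 h2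
    exact rg_alg (fun s => ⟨⟨s, s.2⟩, rfl⟩) hP

end Pool.Agent.Helper49.LG
end

/- Helper12.LVF.H49.LG.CoreLine -/
section
/-! # LG-CORELINE: rigidity of the line inside a large field

Copy of `Helper8.LG.ul_core` (`C` empty) with `rigid_line` instead of `rigid`. -/

set_option autoImplicit false

namespace Pool.Agent.Helper49.LG

open scoped BigOperators
open Pool.Agent.Helper8.LG

theorem ul_core_line {k L Ω : Type*} [Field k] [Field L] [Field Ω] [CharZero Ω] [Algebra k L]
    [Algebra L Ω] [Algebra k Ω] [IsScalarTower k L Ω]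
    (K : Subring Ω) (hkK : ∀ b : k, algebraMap k Ω b ∈ K) (hLD : UlDisj k (L := L) K)
    {n : ℕ} (c : Fin n → Ω) (hcK : ∀ r, c r ∈ K)
    {σ ι τ : Type*} [Fintype σ] [DecidableEq σ] [Fintype ι] [DecidableEq ι] [Fintype τ]
    (d : ι → ℕ) (hd : ∀ i, 0 < d i) (a : (i : ι) → Sym σ (d i) → L)
    (D : Ix σ d → Derivation ℤ Ω Ω) (jj : τ → Ix σ d) (θ : τ → Ix σ d → L)
    (hD : Dual d (fun i J => algebraMap L Ω (a i J)) D jj fun j s => algebraMap L Ω (θ j s))
    (hDL : ∀ p b, ∃ b', D p (algebraMap L Ω b) = algebraMap L Ω b')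
    (hDk : ∀ p (b : k), D p (algebraMap k Ω b) = 0)
    (hDc : ∀ p r, D p (c r) = 0)
    (Z : Finset ι) (w : ℕ)
    (hw1 : 2 * w + 1 + Fintype.card τ ≤ ∑ i, d i + Z.card) (hw2 : w + 2 ≤ ∑ i, d i)
    (x : σ → Ω) (i₀ j₁ : σ) (hx : x i₀ = 1) (hj : j₁ ≠ i₀) (G : Ω) (hG : G ≠ 0)
    (hGx : ∀ l, G * x l ∈ Algebra.adjoin L (Set.range c))
    (hZ : ∀ i ∈ Z, form (fun J => algebraMap L Ω (a i J)) x = 0)
    (hU : ∀ i ∉ Z, form (fun J => algebraMap L Ω (a i J)) x ≠ 0)
    (hint : ∀ i ∉ Z, ∀ J : Sym σ (d i),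
      mon x J / form (fun J => algebraMap L Ω (a i J)) x ∈ Algebra.adjoin L (Set.range c))
    (hm : MinorsVanish D x w) :
    ∃ δ : σ → Ω, (∃ j l, x j * δ l - x l * δ j ≠ 0) ∧
      ∀ j l, IsAlgebraic L (x j * δ l - x l * δ j) := by
  classical
  set F : IntermediateField L Ω := IntermediateField.adjoin L (Set.range c) with hF
  have hsub : ∀ z ∈ Algebra.adjoin L (Set.range c), z ∈ F := fun z hz =>
    IntermediateField.algebra_adjoin_le_adjoin L _ hz
  have hFcl : F.toSubfield = Subfield.closure (Set.range (algebraMap L Ω) ∪ Set.range c) :=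
    IntermediateField.adjoin_toSubfield L _
  -- the generators
  set c' : Fin n → F := fun r => ⟨c r, IntermediateField.subset_adjoin L _ ⟨r, rfl⟩⟩ with hc'
  have himg : ∀ B : Set (Fin n), (F.val : F → Ω) '' (c' '' B) = c '' B := by
    intro B
    rw [← Set.image_comp]
    rfl
  have hrange : (F.val : F → Ω) '' (Set.range c') = Set.range c := by
    rw [← Set.image_univ, himg, Set.image_univ]
  have hgen : IntermediateField.adjoin L (Set.range c') = ⊤ := by
    apply IntermediateField.lift_injective F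
    rw [IntermediateField.lift_adjoin, IntermediateField.lift_top]
    have h1 : (Subtype.val : F → Ω) '' (Set.range c') = Set.range c := hrange
    rw [h1]
  obtain ⟨B, hB1, hB2⟩ := ul_basis (k := k) c'
  have hB3 : AlgebraicIndependent k (fun b : B => c b) :=
    (AlgHom.algebraicIndependent_iff (x := fun b : B => c' b) ((F.val).restrictScalars k)
      Subtype.val_injective).2 hB1
  have hB4 : AlgebraicIndependent L (fun b : B => c b) :=
    ul_algInd K hkK hLD _ (fun b => hcK b) hB3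
  have hB5 : AlgebraicIndependent L (fun b : B => c' b) :=
    (AlgHom.algebraicIndependent_iff (x := fun b : B => c' b) F.val Subtype.val_injective).1 hB4
  have halg : ∀ r, IsAlgebraic (IntermediateField.adjoin k (c' '' B)) (c' r) := by
    intro r
    have h1 := hB2 r
    obtain ⟨p, hp0, hp⟩ := h1
    set φ : Algebra.adjoin k (c' '' B) →+* IntermediateField.adjoin k (c' '' B) :=
      { toFun := fun z => ⟨z, IntermediateField.algebra_adjoin_le_adjoin k _ z.2⟩
        map_one' := rfl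
        map_mul' := fun _ _ => rfl
        map_zero' := rfl
        map_add' := fun _ _ => rfl } with hφ
    have hφi : Function.Injective φ := by
      intro u v huv
      apply Subtype.ext
      exact congrArg (fun z : IntermediateField.adjoin k (c' '' B) => (z : F)) huv
    refine ⟨p.map φ, ?_, ?_⟩
    · rwa [Ne, Polynomial.map_eq_zero_iff hφi]
    · rw [Polynomial.aeval_def, Polynomial.eval₂_map]
      exact hp
  -- the derivations
  have hst : ∀ p, ∀ f ∈ F, D p f ∈ F := by
    intro p f hf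
    have hf' : f ∈ F.toSubfield := hf
    rw [hFcl] at hf'
    have h1 := rg_stable (D p) (Set.range (algebraMap L Ω) ∪ Set.range c) ?_ f hf'
    · rw [← hFcl] at h1
      exact h1
    · rintro g (⟨z, rfl⟩ | ⟨r, rfl⟩)
      · obtain ⟨z', hz'⟩ := hDL p z
        rw [hz']
        exact Subfield.subset_closure (Or.inl ⟨z', rfl⟩)
      · rw [hDc]
        exact zero_mem _
  set δ : Ix σ d → Derivation ℤ F F := fun p =>
    Derivation.mk' (AddMonoidHom.toIntLinearMap
      { toFun := fun f => (⟨D p f, hst p f f.2⟩ : F)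
        map_zero' := Subtype.ext (map_zero (D p))
        map_add' := fun f g => Subtype.ext (map_add (D p) (f : Ω) g) })
      (fun f g => Subtype.ext ((D p).leibniz (f : Ω) g)) with hδ
  have hδv : ∀ p (f : F), ((δ p f : F) : Ω) = D p f := fun p f => rfl
  have hamap : ∀ b : L, ((algebraMap L F b : F) : Ω) = algebraMap L Ω b := fun b => rfl
  -- the point
  have hxF : ∀ l, x l ∈ F := by
    intro l
    have h1 : G ∈ F := by
      have := hsub _ (hGx i₀)
      rwa [hx, mul_one] at this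
    have h2 : x l = G * x l / G := by field_simp
    rw [h2]
    exact div_mem (hsub _ (hGx l)) h1
  set x' : σ → F := fun l => ⟨x l, hxF l⟩ with hx'
  have hform : ∀ i, ((form (fun J => algebraMap L F (a i J)) x' : F) : Ω) =
      form (fun J => algebraMap L Ω (a i J)) x := fun i =>
    ul_map_form (F.val : F →+* Ω) _ _
  have hmon : ∀ {r : ℕ} (J : Sym σ r), ((mon x' J : F) : Ω) = mon x J := fun J =>
    ul_map_mon (F.val : F →+* Ω) _ _
  have hcz : CharZero F := inferInstance
  have key := rigid_line (k := k) (L := L) (E := F) c' hgen B hB5 halg d hd a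
    δ jj θ ?_ ?_ ?_ ?_ Z w hw1 hw2 x' i₀ j₁ (Subtype.ext hx) hj ?_ ?_ ?_ ?_
  · obtain ⟨δ', ⟨j, l, hδ'⟩, hδ2⟩ := key
    refine ⟨fun l => (δ' l : Ω), ⟨j, l, fun h0 => hδ' (Subtype.ext h0)⟩, fun j l => ?_⟩
    exact (hδ2 j l).algHom F.val
  · intro s q
    apply Subtype.ext
    have h1 := hD s q
    rw [hδv, hamap, h1]
    push_cast
    congr 1
    · split_ifs <;> rfl
    · refine Finset.sum_congr rfl fun j _ => ?_
      split_ifs <;> rfl
  · intro p b
    obtain ⟨b', hb'⟩ := hDL p b
    exact ⟨b', Subtype.ext hb'⟩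
  · intro p b
    exact Subtype.ext (hDk p b)
  · intro p r
    exact Subtype.ext (hDc p r)
  · intro i hi
    exact Subtype.ext ((hform i).trans (hZ i hi))
  · intro i hi h0
    apply hU i hi
    rw [← hform i, h0]
    rfl
  · intro i hi1 J
    have h1 := hint i hi1 J
    rw [← hrange, ← AlgHom.map_adjoin] at h1
    obtain ⟨z, hz1, hz2⟩ := h1
    have h2 : mon x' J / form (fun J => algebraMap L F (a i J)) x' = z := by
      apply Subtype.ext
      have h3 : (z : Ω) = mon x J / form (fun J => algebraMap L Ω (a i J)) x := hz2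
      rw [h3]
      push_cast
      rw [hmon, hform]
    rw [h2]
    exact hz1
  · intro r s
    apply Subtype.ext
    have h1 := hm r s
    have h2 := RingHom.map_det (F.val : F →+* Ω) (Matrix.of fun s' t => col δ x' (s t) (r s'))
    have h3 : (F.val : F →+* Ω).mapMatrix (Matrix.of fun s' t => col δ x' (s t) (r s')) =
        Matrix.of fun s' t => col D x (s t) (r s') := by
      ext s' t
      simp only [RingHom.mapMatrix_apply, Matrix.map_apply, Matrix.of_apply]
      rcases s t with _ | p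
      · rfl
      · rfl
    rw [h3, h1] at h2
    exact h2

end Pool.Agent.Helper49.LG
end

/- Helper12.LVF.H49.LG.UltraLine -/
section
/-! # LG-ULTRALINE: an infinite bounded set of points has infinitely many points on one line

Copy of `Helper8.LG.ultra` (`C` empty) with `ul_core_line` instead of `ul_core`: the `P*_jl` are
algebraic over `L`, hence constants `P_jl` in `L` (a polynomial has finitely many roots), and
`P_αβ x_l = x_α P_lβ + x_β P_αl` holds for a large set of members of the sequence. -/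

set_option autoImplicit false

namespace Pool.Agent.Helper49.LG

open scoped BigOperators
open Pool.Agent.Helper8.LG

theorem ultra_line {k L : Type*} [Field k] [Field L] [CharZero L] [Algebra k L]
    {σ ι τ : Type*} [Fintype σ] [DecidableEq σ] [Fintype ι] [DecidableEq ι] [Fintype τ]
    (d : ι → ℕ) (hd : ∀ i, 0 < d i) (a : (i : ι) → Sym σ (d i) → L)
    (D : Ix σ d → Derivation ℤ L L) (jj : τ → Ix σ d) (θ : τ → Ix σ d → L)
    (hD : Dual d a D jj θ)
    (hDk : ∀ p (c : k), D p (algebraMap k L c) = 0)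
    (Z : Finset ι) (i₀ j₁ : σ) (hj : j₁ ≠ i₀) (w : ℕ)
    (hw1 : 2 * w + 1 + Fintype.card τ ≤ ∑ i, d i + Z.card) (hw2 : w + 2 ≤ ∑ i, d i)
    (V : Submodule k L) [FiniteDimensional k V] (S : Set (σ → L)) (hinf : S.Infinite)
    (hS : ∀ x ∈ S, x i₀ = 1 ∧ (∀ i ∈ Z, form (a i) x = 0) ∧ (∀ i ∉ Z, form (a i) x ≠ 0) ∧
      MinorsVanish D x w ∧ ∃ G : L, G ≠ 0 ∧ (∀ l, G * x l ∈ V) ∧
        ∀ i ∉ Z, ∀ J : Sym σ (d i), mon x J / form (a i) x ∈ V) :
    ∃ (α β : σ) (p q : σ → L), α ≠ β ∧ p α = 1 ∧ p β = 0 ∧ q α = 0 ∧ q β = 1 ∧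
      {x ∈ S | ∀ l, x l = x α * p l + x β * q l}.Infinite := by
  classical
  set X : ℕ → σ → L := fun m => (hinf.natEmbedding S m : σ → L) with hX
  have hXS : ∀ m, X m ∈ S := fun m => (hinf.natEmbedding S m).2
  have hXi : Function.Injective X := fun u v huv =>
    (hinf.natEmbedding S).injective (Subtype.ext huv)
  have hS' := fun m => hS (X m) (hXS m)
  choose hX0 hXZ hXU hXm G hG0 hGx hint using hS'
  obtain ⟨Ω, instΩ, Q, hQ, hker⟩ := ul_exists L
  let algLΩ : Algebra L Ω := (Q.comp (Pi.constRingHom ℕ L)).toAlgebra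
  let algkΩ : Algebra k Ω := ((algebraMap L Ω).comp (algebraMap k L)).toAlgebra
  have : IsScalarTower k L Ω := IsScalarTower.of_algebraMap_eq fun _ => rfl
  have : CharZero Ω := charZero_of_injective_algebraMap (algebraMap L Ω).injective
  have halgL : ∀ b : L, algebraMap L Ω b = Q fun _ => b := fun _ => rfl
  have halgk : ∀ b : k, algebraMap k Ω b = Q fun _ => algebraMap k L b := fun _ => rfl
  -- the constants
  set K : Subring Ω := (Q.comp ((algebraMap k L).compLeft ℕ)).range with hK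
  have hQK : ∀ g : ℕ → k, Q (fun m => algebraMap k L (g m)) ∈ K := fun g => ⟨g, rfl⟩
  have hLD : UlDisj k (L := L) K := by
    intro J hJ T z hz hsum
    choose g hg using hz
    have hg' : ∀ b, Q (fun m => algebraMap k L (g b m)) = z b := fun b => hg b
    have h1 := ul_disj Q hker J hJ T g (by
      rw [← hsum]
      exact Finset.sum_congr rfl fun b _ => by rw [hg', halgL])
    intro b hb
    rw [← hg']
    exact h1 b hb
  -- the sequences
  set bV := Module.finBasis k V with hbV
  set r := Module.finrank k V with hr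
  set H : Type _ := σ ⊕ (Ix σ d) with hH
  set h : H → ℕ → L := fun η m' => Sum.elim (fun l => G m' * X m' l)
    (fun p : Ix σ d => if p.1 ∉ Z then mon (X m') p.2 / form (a p.1) (X m') else 0) η with hh
  have hhV : ∀ η m', h η m' ∈ V := by
    rintro (l | p) m'
    · exact hGx m' l
    · show (if p.1 ∉ Z then mon (X m') p.2 / form (a p.1) (X m') else 0) ∈ V
      by_cases hp : p.1 ∉ Z
      · rw [if_pos hp]
        exact hint m' p.1 hp p.2
      · rw [if_neg hp]
        exact V.zero_mem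
  set c₀ : H × Fin r → Ω := fun ηj => Q fun m' =>
    algebraMap k L (bV.repr ⟨h ηj.1 m', hhV ηj.1 m'⟩ ηj.2) with hc₀
  set eqv := (Fintype.equivFin (H × Fin r)).symm with heqv
  set c : Fin (Fintype.card (H × Fin r)) → Ω := fun s => c₀ (eqv s) with hc
  have hcmem : ∀ ηj, c₀ ηj ∈ Algebra.adjoin L (Set.range c) := fun ηj =>
    Algebra.subset_adjoin ⟨eqv.symm ηj, by rw [hc]; simp⟩
  have hhc : ∀ η, Q (h η) ∈ Algebra.adjoin L (Set.range c) := by
    intro η
    have h1 : Q (h η) = ∑ j, algebraMap L Ω (bV j : L) * c₀ (η, j) := by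
      have h2 : h η = ∑ j, (fun _ => (bV j : L)) *
          (fun m' => algebraMap k L (bV.repr ⟨h η m', hhV η m'⟩ j)) := by
        funext m'
        rw [Finset.sum_apply]
        have h3 := congrArg (Subtype.val : V → L) (bV.sum_repr ⟨h η m', hhV η m'⟩)
        rw [Submodule.coe_sum] at h3
        have h4 : ((⟨h η m', hhV η m'⟩ : V) : L) = h η m' := rfl
        rw [h4] at h3
        rw [← h3]
        refine Finset.sum_congr rfl fun j _ => ?_
        show _ = (bV j : L) * algebraMap k L (bV.repr ⟨h η m', hhV η m'⟩ j)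
        rw [Submodule.coe_smul, Algebra.smul_def, mul_comm]
      conv_lhs => rw [h2]
      rw [map_sum]
      exact Finset.sum_congr rfl fun j _ => by rw [map_mul]; rfl
    rw [h1]
    exact sum_mem fun j _ => mul_mem (Subalgebra.algebraMap_mem _ _) (hcmem _)
  -- the core
  have hform : ∀ i, form (fun J => algebraMap L Ω (a i J)) (fun l => Q fun m' => X m' l) =
      Q fun m' => form (a i) (X m') := fun i => (ul_Q_form Q (a i) X).symm
  have hcore := ul_core_line (k := k) (L := L) K (fun b => by rw [halgk]; exact hQK fun _ => b)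
    hLD c (fun s => hQK _) d hd a (fun p => ulDer Q hQ hker (D p)) jj θ ?_ ?_ ?_ ?_ Z w hw1 hw2
    (fun l => Q fun m' => X m' l) i₀ j₁ ?_ hj (Q G) ?_ ?_ ?_ ?_ ?_ ?_
  · -- conclusion
    obtain ⟨δ, ⟨α, β, hαβ⟩, halg⟩ := hcore
    have hconst : ∀ z : Ω, IsAlgebraic L z → ∃ b : L, algebraMap L Ω b = z := by
      rintro z ⟨p, hp0, hp⟩
      obtain ⟨f, rfl⟩ := hQ z
      have h1 : ∀ᶠ m' in (Filter.hyperfilter ℕ : Filter ℕ), p.eval (f m') = 0 := by
        rw [← hker (fun m' => p.eval (f m')), ul_Q_eval Q]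
        exact hp
      have h2 : ∃ b ∈ (p.roots.toFinset : Set L),
          ∀ᶠ m' in (Filter.hyperfilter ℕ : Filter ℕ), f m' = b := by
        refine (Ultrafilter.eventually_exists_mem_iff p.roots.toFinset.finite_toSet).mp ?_
        filter_upwards [h1] with m' hm'
        refine ⟨f m', ?_, rfl⟩
        rw [Finset.mem_coe, Multiset.mem_toFinset, Polynomial.mem_roots hp0]
        exact hm'
      obtain ⟨b, -, hb⟩ := h2
      refine ⟨b, ?_⟩
      rw [halgL, ← sub_eq_zero, ← map_sub, hker]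
      filter_upwards [hb] with m' hm'
      show b - f m' = 0
      rw [hm', sub_self]
    choose P hP using fun j l => hconst _ (halg j l)
    have hPαβ : P α β ≠ 0 := by
      intro h0
      apply hαβ
      rw [← hP α β, h0, map_zero]
    have hdiag : ∀ j, P j j = 0 := by
      intro j
      apply (algebraMap L Ω).injective
      rw [hP j j, map_zero]
      ring
    have hne : α ≠ β := by
      rintro rfl
      exact hPαβ (hdiag α)
    refine ⟨α, β, fun l => P l β / P α β, fun l => P α l / P α β, hne, div_self hPαβ, ?_, ?_,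
      div_self hPαβ, ?_⟩
    · show P β β / P α β = 0
      rw [hdiag, zero_div]
    · show P α α / P α β = 0
      rw [hdiag, zero_div]
    have hrel : ∀ l, ∀ᶠ m' in (Filter.hyperfilter ℕ : Filter ℕ),
        X m' l = X m' α * (P l β / P α β) + X m' β * (P α l / P α β) := by
      intro l
      have h1 : (Q fun m' => X m' l - (X m' α * (P l β / P α β) + X m' β * (P α l / P α β))) =
          0 := by
        have h2 : (Q fun m' => X m' l - (X m' α * (P l β / P α β) +
            X m' β * (P α l / P α β))) = (Q fun m' => X m' l) -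
            ((Q fun m' => X m' α) * algebraMap L Ω (P l β / P α β) +
              (Q fun m' => X m' β) * algebraMap L Ω (P α l / P α β)) := by
          rw [halgL, halgL, ← map_mul, ← map_mul, ← map_add, ← map_sub]
          rfl
        rw [h2, map_div₀, map_div₀, hP, hP, hP]
        field_simp
        ring
      rw [hker] at h1
      filter_upwards [h1] with m' hm'
      exact sub_eq_zero.mp hm'
    have hrel' : ∀ᶠ m' in (Filter.hyperfilter ℕ : Filter ℕ), ∀ l,
        X m' l = X m' α * (P l β / P α β) + X m' β * (P α l / P α β) :=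
      Filter.eventually_all.2 hrel
    have hinf' : {m' : ℕ | ∀ l, X m' l = X m' α * (P l β / P α β) +
        X m' β * (P α l / P α β)}.Infinite := by
      intro hfin
      exact Filter.notMem_hyperfilter_of_finite hfin hrel'
    refine (hinf'.image hXi.injOn).mono ?_
    rintro _ ⟨m', hm', rfl⟩
    exact ⟨hXS m', hm'⟩
  · intro s q
    show ulDer Q hQ hker (D s) (Q fun _ => a q.1 q.2) = _
    rw [ulDer_apply]
    have h1 := hD s q
    have h2 : (Q fun _ => D s (a q.1 q.2)) = algebraMap L Ω (D s (a q.1 q.2)) := rfl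
    rw [h2, h1, map_sub, map_sum]
    congr 1
    · split_ifs
      · rw [map_one]
      · rw [map_zero]
    · refine Finset.sum_congr rfl fun j _ => ?_
      split_ifs
      · rfl
      · rw [map_zero]
  · intro p b
    exact ⟨D p b, ulDer_apply Q hQ hker (D p) _⟩
  · intro p b
    rw [halgk, ulDer_apply]
    rw [hker]
    exact Filter.Eventually.of_forall fun m' => hDk p b
  · intro p s
    show ulDer Q hQ hker (D p) (Q _) = 0
    rw [ulDer_apply, hker]
    exact Filter.Eventually.of_forall fun m' => hDk p _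
  · show Q (fun m' => X m' i₀) = 1
    have h1 : (fun m' => X m' i₀) = 1 := by
      funext m'
      exact hX0 m'
    rw [h1, map_one]
  · intro h0
    rw [hker] at h0
    obtain ⟨m', hm'⟩ := h0.exists
    exact hG0 m' hm'
  · intro l
    show Q G * Q (fun m' => X m' l) ∈ _
    rw [← map_mul]
    exact hhc (Sum.inl l)
  · intro i hi
    rw [hform, hker]
    exact Filter.Eventually.of_forall fun m' => hXZ m' i hi
  · intro i hi h0
    rw [hform, hker] at h0
    obtain ⟨m', hm'⟩ := h0.exists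
    exact hXU m' i hi hm'
  · intro i hi1 J
    rw [hform, ← ul_Q_mon Q X J, ← ul_Q_div Q hker _ _ fun m' => hXU m' i hi1]
    have h1 := hhc (Sum.inr ⟨i, J⟩)
    have h2 : h (Sum.inr ⟨i, J⟩) = fun m' => mon (X m') J / form (a i) (X m') := by
      funext m'
      exact if_pos hi1
    rw [h2] at h1
    exact h1
  · intro rr ss
    have h1 := RingHom.map_det Q (Matrix.of fun s t => fun m' => col D (X m') (ss t) (rr s))
    have h2 : Q.mapMatrix (Matrix.of fun s t => fun m' => col D (X m') (ss t) (rr s)) =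
        Matrix.of fun s t => col (fun p => ulDer Q hQ hker (D p)) (fun l => Q fun m' => X m' l)
          (ss t) (rr s) := by
      ext s t
      simp only [RingHom.mapMatrix_apply, Matrix.map_apply, Matrix.of_apply]
      rcases ss t with _ | p
      · rfl
      · exact (ulDer_apply Q hQ hker (D p) _).symm
    rw [← h2, ← h1, hker]
    refine Filter.Eventually.of_forall fun m' => ?_
    have h3 := RingHom.map_det (Pi.evalRingHom (fun _ : ℕ => L) m')
      (Matrix.of fun s t => fun m' => col D (X m') (ss t) (rr s))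
    have h4 : (Pi.evalRingHom (fun _ : ℕ => L) m').mapMatrix
        (Matrix.of fun s t => fun m' => col D (X m') (ss t) (rr s)) =
        Matrix.of fun s t => col D (X m') (ss t) (rr s) := rfl
    rw [h4, hXm m' rr ss] at h3
    exact h3

end Pool.Agent.Helper49.LG
end

/- Helper12.LVF.H49.LG.FinalLine -/
section
/-!
# Rational points of the intersection of all the hypersurfaces, over fields
-/

set_option autoImplicit false

namespace Pool.Agent.Helper49.LG

open scoped BigOperators
open Pool.Agent.Helper8.LG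

/-- Finitely many normalised points of a line lie in a hypersurface which does not contain it. -/
theorem line_finite {L : Type*} [Field L] {σ : Type*} [Fintype σ] [DecidableEq σ] {n : ℕ}
    (a : Sym σ n → L) (α β i₀ : σ) (p q : σ → L) (hF : lineP a p q ≠ 0) :
    {x : σ → L | x i₀ = 1 ∧ form a x = 0 ∧ ∀ l, x l = x α * p l + x β * q l}.Finite := by
  classical
  have h1 : {x : σ → L | (x i₀ = 1 ∧ ∀ l, x l = x α * p l + x β * q l) ∧ x α = 0}.Finite := by
    refine Set.Subsingleton.finite ?_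
    rintro x ⟨⟨h1, h2⟩, h3⟩ y ⟨⟨h4, h5⟩, h6⟩
    have h7 : x β * q i₀ = 1 := by
      have h8 := h2 i₀
      rw [h1, h3, zero_mul, zero_add] at h8
      exact h8.symm
    have h8 : y β * q i₀ = 1 := by
      have h9 := h5 i₀
      rw [h4, h6, zero_mul, zero_add] at h9
      exact h9.symm
    have hq : q i₀ ≠ 0 := by
      intro h
      rw [h, mul_zero] at h7
      exact zero_ne_one h7
    have h9 : x β = y β := mul_right_cancel₀ hq (h7.trans h8.symm)
    funext l
    rw [h2 l, h5 l, h3, h6, h9]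
  have h2 : {x : σ → L | (x i₀ = 1 ∧ form a x = 0 ∧ ∀ l, x l = x α * p l + x β * q l) ∧
      x α ≠ 0}.Finite := by
    have hinj : Set.InjOn (fun x : σ → L => x β / x α)
        {x : σ → L | (x i₀ = 1 ∧ form a x = 0 ∧ ∀ l, x l = x α * p l + x β * q l) ∧
          x α ≠ 0} := by
      rintro x ⟨⟨h1, -, h2⟩, h3⟩ y ⟨⟨h4, -, h5⟩, h6⟩ hxy
      have hxy' : x β / x α = y β / y α := hxy
      have h7 : x α * (p i₀ + x β / x α * q i₀) = 1 := by
        have h8 := h2 i₀
        rw [h1] at h8
        rw [h8]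
        field_simp
      have h8 : y α * (p i₀ + x β / x α * q i₀) = 1 := by
        have h9 := h5 i₀
        rw [h4] at h9
        rw [hxy', h9]
        field_simp
      have h9 : p i₀ + x β / x α * q i₀ ≠ 0 := by
        intro h
        rw [h, mul_zero] at h7
        exact zero_ne_one h7
      have h10 : x α = y α := mul_right_cancel₀ h9 (h7.trans h8.symm)
      have h11 : x β = y β := by
        rw [h10] at hxy'
        field_simp at hxy'
        exact hxy'
      funext l
      rw [h2 l, h5 l, h10, h11]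
    refine Set.Finite.of_finite_image ?_ hinj
    refine ((lineP a p q).roots.toFinset.finite_toSet).subset ?_
    rintro _ ⟨x, ⟨⟨_, h2, h3⟩, h4⟩, rfl⟩
    rw [Finset.mem_coe, Multiset.mem_toFinset, Polynomial.mem_roots hF, Polynomial.IsRoot,
      lineP_eval]
    have h5 := form_mul 1 (x α)⁻¹ a x
    rw [h2, mul_zero] at h5
    simp only [one_mul] at h5
    rw [← h5]
    congr 1
    funext l
    rw [h3 l]
    (clear * - h4; field_simp)
  refine (h1.union h2).subset ?_
  rintro x ⟨h3, h4, h5⟩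
  by_cases h : x α = 0
  · exact Or.inl ⟨⟨h3, h5⟩, h⟩
  · exact Or.inr ⟨⟨h3, h4, h5⟩, h⟩

/-- **Rational points of the intersection**, normalised, over fields. -/
theorem final_line {k₀ L : Type*} [Field k₀] [Field L] [CharZero L] [Algebra k₀ L]
    (hfg : (⊤ : IntermediateField k₀ L).FG)
    {σ ι : Type*} [Fintype σ] [DecidableEq σ] [Fintype ι] [DecidableEq ι]
    (d : ι → ℕ) (hd : ∀ i, 0 < d i) (a : (i : ι) → Sym σ (d i) → L) (w c : ℕ)
    (hc : (Fintype.card (Ix σ d) : Cardinal) ≤ Algebra.trdeg k₀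
      (IntermediateField.adjoin k₀ (Set.range fun p : Ix σ d => a p.1 p.2)) + c)
    (i₀ : σ) (hw1 : 2 * w + 1 + c ≤ ∑ i, (d i + 1)) (hw2 : w + 2 ≤ ∑ i, d i)
    (hw3 : 2 * Fintype.card σ + c ≤ ∑ i, (d i + 1) + 3) :
    {x : σ → L | x i₀ = 1 ∧
      Algebra.trdeg k₀ (IntermediateField.adjoin k₀ (Set.range x)) ≤ w ∧
      ∀ i, form (a i) x = 0}.Finite := by
  classical
  by_cases hj : ∀ j, j = i₀
  · refine Set.Subsingleton.finite ?_
    rintro x ⟨h1, -⟩ y ⟨h2, -⟩
    funext l
    rw [hj l, h1, h2]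
  push Not at hj
  obtain ⟨j₁, hj⟩ := hj
  obtain ⟨T, k, hT, hind, hfin, D, θ, hD, hDk⟩ := reduce hfg d a c hc
  obtain ⟨V, hV, hVb⟩ := bounded_pt d hd a T hind hfin D (fun j => j.1) θ hD (fun j => j.2) hDk
    i₀ j₁ hj w (by omega) hw2 (by omega)
  have := hV
  by_contra hinf
  rw [← Set.Infinite] at hinf
  set S : Set (σ → L) := {x : σ → L | x i₀ = 1 ∧
      Algebra.trdeg k₀ (IntermediateField.adjoin k₀ (Set.range x)) ≤ w ∧
      ∀ i, form (a i) x = 0} with hS
  have hrank : ∀ x ∈ S, MinorsVanish D x w := by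
    rintro x ⟨h1, h2, -⟩
    refine minors_of_trdeg (k := k₀) D ?_ x i₀ h1 w h2
    intro p r
    have h7 : algebraMap k₀ L r = algebraMap k L (algebraMap k₀ k r) :=
      IsScalarTower.algebraMap_apply k₀ k L r
    rw [h7]
    exact hDk p _
  obtain ⟨α, β, p, q, hαβ, hpα, hpβ, hqα, hqβ, hline⟩ := ultra_line (k := k) d hd a D
    (fun j => j.1) θ hD hDk Finset.univ i₀ j₁ hj w (by
      rw [Finset.sum_add_distrib, Finset.sum_const, smul_eq_mul, mul_one] at hw1
      omega) hw2 V S hinf (by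
      intro x hx
      have hx' := hx
      obtain ⟨h1, h2, h3⟩ := hx'
      obtain ⟨G, hG0, hG⟩ := hVb x h1 h3 (hrank x hx)
      exact ⟨h1, fun i _ => h3 i, fun i hi => absurd (Finset.mem_univ i) hi, hrank x hx, G, hG0,
        hG, fun i hi => absurd (Finset.mem_univ i) hi⟩)
  obtain ⟨i, n, hin⟩ := gen_line d a D (fun j => j.1) θ hD α β hαβ p q hpα hpβ hqα hqβ (by omega)
  have hF : lineP (a i) p q ≠ 0 := by
    intro h0
    apply hin
    rw [← lineP_eval, h0, Polynomial.eval_zero]
  refine hline ((line_finite (a i) α β i₀ p q hF).subset ?_)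
  rintro x ⟨⟨h1, _, h3⟩, h4⟩
  exact ⟨h1, h3 i, h4⟩

end Pool.Agent.Helper49.LG
end

/- Helper12.LVF.H49.LV.BoundLine -/
section
/-! # LV-BOUNDLINE: the two-vectors lie in a finite-dimensional space

Copy of the first round of `Helper8.LV.bounded`, with `key_line` instead of `key`. -/

set_option autoImplicit false

namespace Pool.Agent.Helper49.LV

open scoped BigOperators
open Pool.Agent.Helper8.LG
open Pool.Agent.Helper8.LV (Fam Mov Over)

private theorem blInv {L : Type*} [Field L] (D : Derivation ℤ L L) (f : L) :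
    D f⁻¹ = -(f⁻¹ ^ 2) * D f := by
  have h := Derivation.leibniz_inv D f
  rw [h, smul_eq_mul]

private theorem blDual {L σ ι τ : Type*} [Field L] [DecidableEq σ] [DecidableEq ι] [Fintype τ]
    (d : ι → ℕ) (a : (i : ι) → Sym σ (d i) → L)
    (D : Ix σ d → Derivation ℤ L L) (jj : τ → Ix σ d) (θ : τ → Ix σ d → L)
    (hD : Dual d a D jj θ) (T : Finset (Ix σ d)) (hT : ∀ j, jj j ∉ T) (q : Ix σ d) (p : T) :
    D q (a p.1.1 p.1.2) = if q = p.1 then 1 else 0 := by
  have h := hD q p.1
  rw [Finset.sum_eq_zero, sub_zero] at h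
  · exact h
  · intro j _
    rw [if_neg]
    rintro h1
    exact hT j (h1 ▸ p.2)

private theorem blStable {k L σ ι τ : Type*} [Field k] [Field L] [Algebra k L]
    [DecidableEq σ] [DecidableEq ι] [Fintype τ]
    (d : ι → ℕ) (a : (i : ι) → Sym σ (d i) → L)
    (D : Ix σ d → Derivation ℤ L L) (jj : τ → Ix σ d) (θ : τ → Ix σ d → L)
    (hD : Dual d a D jj θ) (T : Finset (Ix σ d)) (hT : ∀ j, jj j ∉ T)
    (hDk : ∀ p (c : k), D p (algebraMap k L c) = 0) (p : T) (q : Ix σ d) :
    ∀ f ∈ others (k := k) (fun p : T => a p.1.1 p.1.2) p,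
      D q f ∈ others (k := k) (fun p : T => a p.1.1 p.1.2) p := by
  intro f hf
  have hf' : f ∈ IntermediateField.adjoin k ((fun p : T => a p.1.1 p.1.2) '' {p}ᶜ) := hf
  show D q f ∈ IntermediateField.adjoin k ((fun p : T => a p.1.1 p.1.2) '' {p}ᶜ)
  induction hf' using IntermediateField.adjoin_induction with
  | mem x hx =>
    obtain ⟨r, _, rfl⟩ := hx
    show D q (a r.1.1 r.1.2) ∈ _
    rw [blDual d a D jj θ hD T hT q r]
    split_ifs
    · exact one_mem _
    · exact zero_mem _
  | algebraMap c =>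
    rw [hDk q c]
    exact zero_mem _
  | add x y hx hy hx' hy' =>
    rw [map_add]
    exact add_mem (hx' hx) (hy' hy)
  | inv x hx hx' =>
    rw [blInv]
    exact mul_mem (neg_mem (pow_mem (inv_mem hx) 2)) (hx' hx)
  | mul x y hx hy hx' hy' =>
    rw [Derivation.leibniz, smul_eq_mul, smul_eq_mul]
    exact add_mem (mul_mem hx (hy' hy)) (mul_mem hy (hx' hx))

private theorem blVar {L σ ι τ : Type*} [Field L] [DecidableEq σ] [DecidableEq ι] [Fintype τ]
    (d : ι → ℕ) (a : (i : ι) → Sym σ (d i) → L)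
    (D : Ix σ d → Derivation ℤ L L) (jj : τ → Ix σ d) (θ : τ → Ix σ d → L)
    (hD : Dual d a D jj θ) (T : Finset (Ix σ d)) (hT : ∀ j, jj j ∉ T) (p : T) (q : Ix σ d)
    (R : Subring L) :
    D q (a p.1.1 p.1.2) ∈ R := by
  rw [blDual d a D jj θ hD T hT q p]
  split_ifs
  · exact one_mem _
  · exact zero_mem _

private theorem blVarInv {L σ ι τ : Type*} [Field L] [DecidableEq σ] [DecidableEq ι] [Fintype τ]
    (d : ι → ℕ) (a : (i : ι) → Sym σ (d i) → L)
    (D : Ix σ d → Derivation ℤ L L) (jj : τ → Ix σ d) (θ : τ → Ix σ d → L)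
    (hD : Dual d a D jj θ) (T : Finset (Ix σ d)) (hT : ∀ j, jj j ∉ T) (p : T) (q : Ix σ d)
    (R : Subring L) (hR : (a p.1.1 p.1.2)⁻¹ ∈ R) :
    D q (a p.1.1 p.1.2)⁻¹ ∈ R := by
  rw [blInv]
  exact mul_mem (neg_mem (pow_mem hR 2)) (blVar d a D jj θ hD T hT p q R)

private theorem blLe {k L : Type*} [Field k] [Field L] [Algebra k L] (s : Set L)
    (E₀ : Subfield L) (hk : ∀ c : k, algebraMap k L c ∈ E₀) (S : Set L) (hs : s ⊆ S) :
    (Algebra.adjoin k s).toSubring ≤ Subring.closure ((E₀ : Set L) ∪ S) := by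
  intro f hf
  have hf' : f ∈ Algebra.adjoin k s := hf
  induction hf' using Algebra.adjoin_induction with
  | mem x hx => exact Subring.subset_closure (Or.inr (hs hx))
  | algebraMap c => exact Subring.subset_closure (Or.inl (hk c))
  | add x y hx hy hx' hy' => exact add_mem (hx' hx) (hy' hy)
  | mul x y hx hy hx' hy' => exact mul_mem (hx' hx) (hy' hy)

/-- In one direction the entries of all the two-vectors have bounded poles. -/
private theorem blDir {L : Type*} [Field L] [CharZero L] {σ ι τ P : Type*} [Fintype σ]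
    [DecidableEq σ] [Fintype ι] [DecidableEq ι] [Fintype τ] [Finite P]
    (d : ι → ℕ)
    (a : (i : ι) → Sym σ (d i) → L) (D : P → Derivation ℤ L L)
    (θ : τ → P → L) (Z : Finset ι)
    (E₀ : Subfield L) (t : L) (ht : Transcendental E₀ t)
    (hfin : FiniteDimensional (Subfield.closure ((E₀ : Set L) ∪ {t})) L)
    (hE₀ : ∀ p, ∀ f ∈ E₀, D p f ∈ E₀)
    (hDt : ∀ p, D p t ∈ Subring.closure ((E₀ : Set L) ∪ {t}))
    (S : Set L) (hS : S.Finite) (hSa : ∀ p : Ix σ d, a p.1 p.2 ∈ S)
    (hSθ : ∀ j s, θ j s ∈ S) :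
    ∃ Δ : L, Δ ≠ 0 ∧ ∀ (x : σ → L) (M : σ → σ → L),
      (∀ i ∉ Z, form (a i) x ≠ 0) →
      (∀ i ∉ Z, ∀ J : Sym σ (d i),
        IsIntegral (Subring.closure ((E₀ : Set L) ∪ S)) (mon x J / form (a i) x)) →
      KeyP d a D θ Z x M → ∀ j l, Δ * M j l ∈ intCl E₀ t := by
  obtain ⟨Δ, hΔ0, hΔR, hΔS, hΔ⟩ :=
    dir_rows d a D θ Z E₀ t ht hfin hE₀ hDt S hS hSa hSθ
  obtain ⟨hDed, hFrac⟩ := intCl_dedekind E₀ t ht hfin
  refine ⟨Δ ^ (Fintype.card σ + Fintype.card ι + Fintype.card τ), pow_ne_zero _ hΔ0,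
    fun x M hne hint hkey j l => ?_⟩
  refine mem_of (intCl E₀ t) _ fun O hO => ?_
  obtain ⟨h1, h2, h3⟩ := hΔ x hne hint O hO
  exact hkey O Δ h1 h2 h3 j l

theorem bounded_line {k L : Type*} [Field k] [Field L] [CharZero L] [Algebra k L]
    {σ ι τ : Type*} [Fintype σ] [DecidableEq σ] [Fintype ι] [DecidableEq ι] [Fintype τ]
    (d b q : ι → ℕ) (hq : ∀ i, 0 < q i) (a aA : (i : ι) → Sym σ (d i) → L)
    (ap : (i : ι) → Sym σ (b i) → L) (ah : (i : ι) → Sym σ (q i) → L)
    (hF : Fam d b q a aA ap ah) (hAk : Over k aA) (hpk : Over k ap) (T : Finset (Ix σ q))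
    (hind : AlgebraicIndependent k (fun p : T => ah p.1.1 p.1.2))
    (hfin : FiniteDimensional
      (IntermediateField.adjoin k (Set.range fun p : T => ah p.1.1 p.1.2)) L)
    (D : Ix σ q → Derivation ℤ L L) (jj : τ → Ix σ q) (θ : τ → Ix σ q → L)
    (hD : Dual q ah D jj θ) (hT : ∀ j, jj j ∉ T)
    (hDk : ∀ p (c : k), D p (algebraMap k L c) = 0)
    (Z : Finset ι) (i₀ j₁ : σ) (hj : j₁ ≠ i₀) (w : ℕ)
    (hw1 : 2 * w + 1 + Fintype.card τ ≤ ∑ i, q i + Z.card) (hw2 : w + 2 ≤ ∑ i, q i)
    (A : Subalgebra k L) (hA : A.FG) :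
    ∃ V : Submodule k L, FiniteDimensional k V ∧ ∀ x : σ → L, x i₀ = 1 →
      (∀ i ∈ Z, form (a i) x = 0) → (∀ i ∉ Z, form (a i) x ≠ 0) → (∀ i, form (ap i) x ≠ 0) →
      (∀ i ∉ Z, ∀ J : Sym σ (d i), IsIntegral A (mon x J / form (a i) x)) →
      MinorsVanish D x w →
      ∃ δ : σ → L, (∃ j l, x j * δ l - x l * δ j ≠ 0) ∧ ∀ j l, x j * δ l - x l * δ j ∈ V := by
  classical
  obtain ⟨s, hs⟩ := hA
  set y₀ : T → L := fun p : T => ah p.1.1 p.1.2 with hy₀
  set S : Set L := (s : Set L) ∪ (Set.range (fun p : Ix σ d => a p.1 p.2) ∪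
    Set.range fun r : τ × Ix σ q => θ r.1 r.2) with hS
  have hSfin : S.Finite :=
    (s.finite_toSet).union ((Set.finite_range _).union (Set.finite_range _))
  have hSa : ∀ p : Ix σ d, a p.1 p.2 ∈ S := fun p => Or.inr (Or.inl ⟨p, rfl⟩)
  have hSθ : ∀ j s, θ j s ∈ S := fun j s => Or.inr (Or.inr ⟨(j, s), rfl⟩)
  have hk : ∀ (p : T) (c : k), algebraMap k L c ∈ others (k := k) y₀ p := by
    intro p c
    exact IntermediateField.algebraMap_mem _ c
  have hAle : ∀ p : T,
      A.toSubring ≤ Subring.closure ((others (k := k) y₀ p : Set L) ∪ S) := by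
    intro p
    rw [← hs]
    exact blLe (s : Set L) _ (hk p) S Set.subset_union_left
  have htr := others_transcendental (k := k) y₀ hind
  have hof := others_finite (k := k) y₀ hfin
  have hst : ∀ (p : T) (s : Ix σ q), ∀ f ∈ others (k := k) y₀ p,
      D s f ∈ others (k := k) y₀ p :=
    fun p s => blStable q ah D jj θ hD T hT hDk p s
  have h1 := fun p : T => blDir d a D θ Z (others (k := k) y₀ p) (y₀ p) (htr p).1 (hof p).1
    (fun s => hst p s) (fun s => blVar q ah D jj θ hD T hT p s _) S hSfin hSa hSθ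
  have h1' := fun p : T => blDir d a D θ Z (others (k := k) y₀ p) (y₀ p)⁻¹ (htr p).2
    (hof p).2 (fun s => hst p s)
    (fun s => blVarInv q ah D jj θ hD T hT p s _ (Subring.subset_closure (Or.inr rfl)))
    S hSfin hSa hSθ
  choose Δ₁ hΔ₁ H₁ using h1
  choose Δ₁' hΔ₁' H₁' using h1'
  obtain ⟨V₁, hV₁, hV₁'⟩ := fd y₀ hind hfin Δ₁ Δ₁' hΔ₁ hΔ₁'
  refine ⟨V₁, hV₁, fun x hx hZ hU hP hint hm => ?_⟩
  obtain ⟨δ, hδ, hkey⟩ := key_line d b q hq a aA ap ah D jj θ hD
    (hF.mov (k := k) hAk hpk D hDk) Z x i₀ j₁ hx hj hZ hU hP w hw1 hw2 hm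
  refine ⟨δ, hδ, fun j l => ?_⟩
  have hint' : ∀ p : T, ∀ i ∉ Z, ∀ J : Sym σ (d i),
      IsIntegral (Subring.closure ((others (k := k) y₀ p : Set L) ∪ S))
        (mon x J / form (a i) x) := fun p i hi J =>
    (hint i hi J).map_of_comp_eq (Subring.inclusion (S := A.toSubring) (hAle p))
      (RingHom.id L) rfl
  apply hV₁'
  intro p
  exact ⟨H₁ p x _ hU (hint' p) hkey j l, H₁' p x _ hU (hint' p) hkey j l⟩

end Pool.Agent.Helper49.LV
end

/- Helper12.LVF.H49.LV.GenLine -/
section
/-!
# Lines and moving linear systems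

`gen_line`: a line with a point `y` where all `P_i(y) ≠ 0` is not contained in all the `F_i = 0`.
`no_two`: the `F_i` do not all vanish in at most two points of such a line.
-/

set_option autoImplicit false

namespace Pool.Agent.Helper49.LV

open scoped BigOperators
open Pool.Agent.Helper8.LG (Ix Dual form mon)
open Pool.Agent.Helper8.LV
open Pool.Agent.Helper49.LG (zero_of_nat lineP lineP_eval form_mul)

/-- If a form vanishes at all `u + z v`, it vanishes at all `v + z u`. -/
theorem lineP_swap {E : Type*} [Field E] [CharZero E] {σ : Type*} [Fintype σ] [DecidableEq σ]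
    {m : ℕ} (a : Sym σ m → E) (u v : σ → E) (h : lineP a u v = 0) : lineP a v u = 0 := by
  refine Polynomial.eq_zero_of_infinite_isRoot _ ?_
  have hinj : Function.Injective fun n : ℕ => ((n : E) + 1)⁻¹ := by
    intro n n' hn
    have h1 : (n : E) + 1 = n' + 1 := inv_injective hn
    exact Nat.cast_injective (add_right_cancel h1)
  refine Set.Infinite.mono ?_ (Set.infinite_range_of_injective hinj)
  rintro _ ⟨n, rfl⟩
  have hn : (n : E) + 1 ≠ 0 := by exact_mod_cast Nat.succ_ne_zero n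
  change Polynomial.IsRoot _ _
  rw [Polynomial.IsRoot, lineP_eval]
  have h1 := form_mul 1 ((n : E) + 1)⁻¹ a fun l => u l + ((n : E) + 1) * v l
  have h2 : form a (fun l => u l + ((n : E) + 1) * v l) = 0 := by
    rw [← lineP_eval, h, Polynomial.eval_zero]
  rw [h2, mul_zero] at h1
  simp only [one_mul] at h1
  rw [← h1]
  congr 1
  funext l
  field_simp
  ring

/-- A form which is not zero at a point of a line is not zero on it. -/
theorem lineP_ne {E : Type*} [Field E] [CharZero E] {σ : Type*} [Fintype σ] [DecidableEq σ]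
    {m : ℕ} (a : Sym σ m → E) (u v : σ → E) (s t : E)
    (h : form a (fun l => s * u l + t * v l) ≠ 0) : lineP a u v ≠ 0 := by
  intro h0
  apply h
  by_cases hs : s = 0
  · have h1 := lineP_swap a u v h0
    have h2 : form a v = 0 := by
      have h3 := lineP_eval a v u 0
      rw [h1, Polynomial.eval_zero] at h3
      rw [h3]
      congr 1
      funext l
      rw [zero_mul, add_zero]
    have h3 := form_mul 1 t a v
    rw [h2, mul_zero] at h3
    simp only [one_mul] at h3
    rw [← h3]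
    congr 1
    funext l
    rw [hs, zero_mul, zero_add]
  · have h1 := form_mul 1 s a fun l => u l + t / s * v l
    have h2 : form a (fun l => u l + t / s * v l) = 0 := by
      rw [← lineP_eval, h0, Polynomial.eval_zero]
    rw [h2, mul_zero] at h1
    simp only [one_mul] at h1
    rw [← h1]
    congr 1
    funext l
    field_simp

/-- A binary form vanishes if its product with a form not zero on the line vanishes. -/
theorem zero_of_mul {E : Type*} [Field E] [CharZero E] {σ : Type*} [Fintype σ] [DecidableEq σ]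
    {b : ℕ} (g : Sym σ b → E) (u v : σ → E) (hg : lineP g u v ≠ 0) (α β : σ)
    (hdet : u α * v β - u β * v α ≠ 0) (m : ℕ) (f : Fin (m + 1) → E)
    (h : ∀ n : ℕ, form g (fun l => u l + n * v l) *
      ∑ r : Fin (m + 1), f r * ((u α + n * v α) ^ (m - r) * (u β + n * v β) ^ (r : ℕ)) = 0)
    (r : Fin (m + 1)) : f r = 0 := by
  set S : Polynomial E := ∑ r : Fin (m + 1), Polynomial.C (f r) *
    ((Polynomial.C (u α) + Polynomial.X * Polynomial.C (v α)) ^ (m - r) *
      (Polynomial.C (u β) + Polynomial.X * Polynomial.C (v β)) ^ (r : ℕ)) with hS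
  have heval : ∀ z : E, S.eval z =
      ∑ r : Fin (m + 1), f r * ((u α + z * v α) ^ (m - r) * (u β + z * v β) ^ (r : ℕ)) := by
    intro z
    rw [hS, Polynomial.eval_finsetSum]
    refine Finset.sum_congr rfl fun r _ => ?_
    simp only [Polynomial.eval_mul, Polynomial.eval_C, Polynomial.eval_pow, Polynomial.eval_add,
      Polynomial.eval_X]
  have h1 : lineP g u v * S = 0 := by
    refine Polynomial.eq_zero_of_infinite_isRoot _ ?_
    refine Set.Infinite.mono ?_ (Set.infinite_range_of_injective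
      (f := fun n : ℕ => (n : E)) Nat.cast_injective)
    rintro _ ⟨n, rfl⟩
    change Polynomial.IsRoot _ _
    rw [Polynomial.IsRoot, Polynomial.eval_mul, lineP_eval, heval]
    exact h n
  have hS0 : S = 0 := (mul_eq_zero.1 h1).resolve_left hg
  refine zero_of_nat m f (u α) (u β) (v α) (v β) hdet (fun n => ?_) r
  rw [← heval, hS0, Polynomial.eval_zero]

/-- A line is not contained in all the hypersurfaces. -/
theorem gen_line {E : Type*} [Field E] [CharZero E] {σ ι τ : Type*} [Fintype σ] [DecidableEq σ]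
    [Fintype ι] [DecidableEq ι] [Fintype τ] (d b q : ι → ℕ)
    (a A : (i : ι) → Sym σ (d i) → E) (p : (i : ι) → Sym σ (b i) → E)
    (h : (i : ι) → Sym σ (q i) → E) (D : Ix σ q → Derivation ℤ E E)
    (jj : τ → Ix σ q) (θ : τ → Ix σ q → E) (hD : Dual q h D jj θ) (hM : Mov d b q a A p h D)
    (α β : σ) (hαβ : α ≠ β)
    (u v : σ → E) (huα : u α = 1) (huβ : u β = 0) (hvα : v α = 0) (hvβ : v β = 1)
    (y : σ → E) (hy : ∀ l, y l = y α * u l + y β * v l) (hPy : ∀ i, form (p i) y ≠ 0)
    (hcount : 2 * Fintype.card σ + Fintype.card τ ≤ ∑ i, (q i + 1) + 3) :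
    ∃ (i : ι) (n : ℕ), form (a i) (fun l => u l + n * v l) ≠ 0 := by
  classical
  by_contra hcon
  push Not at hcon
  have hcard : Fintype.card {l : σ // l ≠ α ∧ l ≠ β} + 2 = Fintype.card σ := by
    have h1 : Fintype.card {l : σ // l ≠ α ∧ l ≠ β} =
        (Finset.univ.filter fun l : σ => l ≠ α ∧ l ≠ β).card := Fintype.card_subtype _
    have h2 : (Finset.univ.filter fun l : σ => l ≠ α ∧ l ≠ β) = Finset.univ \ {α, β} := by
      ext l
      simp
    rw [h1, h2, Finset.card_sdiff_of_subset (Finset.subset_univ _), Finset.card_pair hαβ,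
      Finset.card_univ]
    have h3 : 2 ≤ Fintype.card σ := by
      rw [← Finset.card_pair hαβ]
      exact Finset.card_le_univ _
    omega
  obtain ⟨f, δ, ⟨i, r, hfr⟩, hδ, hform⟩ := exists_killer d b q a A p h D jj θ hD hM α β
    (κ := {l : σ // l ≠ α ∧ l ≠ β} × Bool) (fun m => if m.2 then u m.1 else v m.1) (by
      rw [Fintype.card_prod, Fintype.card_bool]
      omega)
  have hδu : ∀ l, δ (u l) = 0 := by
    intro l
    by_cases h1 : l = α
    · rw [h1, huα, Derivation.map_one_eq_zero]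
    · by_cases h2 : l = β
      · rw [h2, huβ, map_zero]
      · exact hδ (⟨l, h1, h2⟩, true)
  have hδv : ∀ l, δ (v l) = 0 := by
    intro l
    by_cases h1 : l = α
    · rw [h1, hvα, map_zero]
    · by_cases h2 : l = β
      · rw [h2, hvβ, Derivation.map_one_eq_zero]
      · exact hδ (⟨l, h1, h2⟩, false)
  have hPl : lineP (p i) u v ≠ 0 := by
    refine lineP_ne (p i) u v (y α) (y β) ?_
    have h1 : (fun l => y α * u l + y β * v l) = y := by
      funext l
      exact (hy l).symm
    rw [h1]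
    exact hPy i
  apply hfr
  refine zero_of_mul (p i) u v hPl α β ?_ (q i) (f i) ?_ r
  · rw [huα, huβ, hvα, hvβ]
    simp
  · intro n
    rw [← hform i (fun l => u l + n * v l), hcon i n, map_zero]
    intro l
    rw [map_add, hδu, zero_add, Derivation.leibniz, hδv, smul_zero, zero_add,
      Derivation.map_natCast, smul_zero]

/-- The forms do not all vanish in at most two points `u`, `v` of a line. -/
theorem no_two {E : Type*} [Field E] [CharZero E] {σ ι τ : Type*} [Fintype σ] [DecidableEq σ]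
    [Fintype ι] [DecidableEq ι] [Fintype τ] (d b q : ι → ℕ)
    (a A : (i : ι) → Sym σ (d i) → E) (p : (i : ι) → Sym σ (b i) → E)
    (h : (i : ι) → Sym σ (q i) → E) (D : Ix σ q → Derivation ℤ E E)
    (jj : τ → Ix σ q) (θ : τ → Ix σ q → E) (hD : Dual q h D jj θ) (hM : Mov d b q a A p h D)
    (u v : σ → E) (α β : σ) (hdet : u α * v β - u β * v α ≠ 0)
    (iu iv : σ) (hu : u iu = 1) (hv : v iv = 1)
    (s t : E) (hPy : ∀ i, form (p i) (fun l => s * u l + t * v l) ≠ 0)
    (U : Finset ι) (e : ι → E) (c : ι → ℕ)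
    (he : ∀ i ∉ U, e i = 0)
    (heq : ∀ (i : ι) (n : ℕ), form (a i) (fun l => u l + n * v l) = e i * (n : E) ^ c i)
    (hcount : 2 * Fintype.card σ + U.card + Fintype.card τ < ∑ i, (q i + 1) + 2) : False := by
  classical
  have hcard : ∀ j : σ, Fintype.card {l : σ // l ≠ j} + 1 = Fintype.card σ := by
    intro j
    have h1 : Fintype.card {l : σ // l ≠ j} = Fintype.card σ - 1 := by
      rw [Fintype.card_subtype_compl (fun l => l = j)]
      simp
    have h2 : 0 < Fintype.card σ := Fintype.card_pos_iff.2 ⟨j⟩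
    omega
  obtain ⟨f, δ, ⟨i, r, hfr⟩, hδ, hform⟩ := exists_killer d b q a A p h D jj θ hD hM α β
    (κ := ({l : σ // l ≠ iu} ⊕ {l : σ // l ≠ iv}) ⊕ U)
    (Sum.elim (Sum.elim (fun l => u l) fun l => v l) fun i => e i) (by
      rw [Fintype.card_sum, Fintype.card_sum, Fintype.card_coe]
      have h1 := hcard iu
      have h2 := hcard iv
      omega)
  have hδu : ∀ l, δ (u l) = 0 := by
    intro l
    by_cases h1 : l = iu
    · rw [h1, hu, Derivation.map_one_eq_zero]
    · exact hδ (Sum.inl (Sum.inl ⟨l, h1⟩))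
  have hδv : ∀ l, δ (v l) = 0 := by
    intro l
    by_cases h1 : l = iv
    · rw [h1, hv, Derivation.map_one_eq_zero]
    · exact hδ (Sum.inl (Sum.inr ⟨l, h1⟩))
  have hδe : ∀ i, δ (e i) = 0 := by
    intro i
    by_cases h1 : i ∈ U
    · exact hδ (Sum.inr ⟨i, h1⟩)
    · rw [he i h1, map_zero]
  apply hfr
  refine zero_of_mul (p i) u v (lineP_ne (p i) u v s t (hPy i)) α β hdet (q i) (f i) ?_ r
  intro n
  rw [← hform i (fun l => u l + n * v l), heq i n, Derivation.leibniz, hδe, smul_zero, add_zero]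
  · have h1 : δ ((n : E) ^ c i) = 0 := by
      rw [Derivation.leibniz_pow, Derivation.map_natCast, smul_zero, smul_zero]
    rw [h1, smul_zero]
  · intro l
    rw [map_add, hδu, zero_add, Derivation.leibniz, hδv, smul_zero, zero_add,
      Derivation.map_natCast, smul_zero]

end Pool.Agent.Helper49.LV
end

/- Helper12.LVF.H49.LV.BoundPt -/
section
/-!
# Points of the intersection of all the hypersurfaces are bounded, moving linear systems
-/

set_option autoImplicit false

namespace Pool.Agent.Helper49.LV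

open scoped BigOperators
open Pool.Agent.Helper8.LG
open Pool.Agent.Helper8.LV (Fam Mov Over)
open Pool.Agent.Helper49.LG (lineP lineP_eval form_mul lead_mem exists_den intCl_closed)

/-- The multiplier of a point: one `G` which works in all directions. -/
theorem exists_lead {L : Type*} [Field L] [CharZero L] {σ ι τ : Type*} [Fintype σ] [DecidableEq σ]
    [Fintype ι] [DecidableEq ι] [Fintype τ] (d b q : ι → ℕ)
    (a aA : (i : ι) → Sym σ (d i) → L) (ap : (i : ι) → Sym σ (b i) → L)
    (ah : (i : ι) → Sym σ (q i) → L) (D : Ix σ q → Derivation ℤ L L)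
    (jj : τ → Ix σ q) (θ : τ → Ix σ q → L) (hD : Dual q ah D jj θ)
    (hM : Mov d b q a aA ap ah D)
    (hw3 : 2 * Fintype.card σ + Fintype.card τ ≤ ∑ i, (q i + 1) + 3)
    (x δ : σ → L) (hx : ∀ i, form (a i) x = 0) (hPx : ∀ i, form (ap i) x ≠ 0) (hP : ∃ j l, x j * δ l - x l * δ j ≠ 0) :
    ∃ G : L, G ≠ 0 ∧ ∀ (R : Subring L) (Δ : L), (∀ z : L, IsIntegral R z → z ∈ R) → Δ ≠ 0 →
      Δ ∈ R → (∀ i J, Δ * a i J ∈ R) → (∀ j l, Δ * (x j * δ l - x l * δ j) ∈ R) →
      ∀ l, Δ ^ (∑ i, d i + 2) * (G * x l) ∈ R := by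
  classical
  obtain ⟨α, β, hαβ, hxα⟩ : ∃ α β, x α * δ β - x β * δ α ≠ 0 ∧ x α ≠ 0 := by
    obtain ⟨j, l, hjl⟩ := hP
    by_cases hj : x j = 0
    · refine ⟨l, j, ?_, ?_⟩
      · intro h
        apply hjl
        linear_combination -h
      · intro h
        apply hjl
        rw [hj, h]
        ring
    · exact ⟨j, l, hjl, hj⟩
  set P : σ → σ → L := fun j l => x j * δ l - x l * δ j with hPdef
  have hP0 : P α β ≠ 0 := hαβ
  have hne : α ≠ β := by
    intro h
    apply hαβ
    rw [h]
    ring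
  have hpp : ∀ j, P j j = 0 := fun j => by
    simp only [hPdef]
    ring
  obtain ⟨i, n, hin⟩ := gen_line d b q a aA ap ah D jj θ hD hM α β hne
    (fun l => P l β / P α β) (fun l => P α l / P α β) (div_self hP0) (by rw [hpp, zero_div])
    (by rw [hpp, zero_div]) (div_self hP0) x (fun l => by
      have h1 : x l * P α β = x α * P l β + x β * P α l := by
        simp only [hPdef]
        ring
      show x l = x α * (P l β / P α β) + x β * (P α l / P α β)
      rw [mul_div_assoc', mul_div_assoc', ← add_div, eq_div_iff hP0, h1]) hPx hw3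
  set F := lineP (a i) (fun l => P l β) (fun l => P α l) with hF
  have hF0 : F ≠ 0 := by
    intro h0
    have h1 := lineP_eval (a i) (fun l => P l β) (fun l => P α l) (n : L)
    rw [← hF, h0, Polynomial.eval_zero] at h1
    apply hin
    have h2 := form_mul 1 (P α β)⁻¹ (a i) (fun l => P l β + n * P α l)
    rw [← h1, mul_zero] at h2
    simp only [one_mul] at h2
    rw [← h2]
    congr 1
    funext l
    rw [div_eq_mul_inv, div_eq_mul_inv]
    ring
  set z := x β / x α with hz
  have hpl : ∀ l, P l β + z * P α l = P α β / x α * x l := by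
    intro l
    rw [hz]
    simp only [hPdef]
    field_simp
    ring
  have hroot : form (a i) (fun l => P l β + z * P α l) = 0 := by
    have h2 := form_mul 1 (P α β / x α) (a i) x
    rw [hx i, mul_zero] at h2
    simp only [one_mul] at h2
    rw [← h2]
    congr 1
    funext l
    exact hpl l
  refine ⟨F.leadingCoeff * (P α β / x α),
    mul_ne_zero (Polynomial.leadingCoeff_ne_zero.2 hF0) (div_ne_zero hP0 hxα), ?_⟩
  intro R Δ hR hΔ0 hΔ ha hPR l
  have h1 := lead_mem R hR Δ (a i) (fun l => P l β) (fun l => P α l) hΔ0 (ha i)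
    (fun l => hPR l β) (fun l => hPR α l) z hroot l
  rw [hpl l, ← hF] at h1
  obtain ⟨r, hr⟩ : ∃ r, ∑ i, d i + 2 = d i + 2 + r := by
    apply Nat.exists_eq_add_of_le
    have h2 : d i ≤ ∑ i, d i := Finset.single_le_sum (f := d) (fun _ _ => Nat.zero_le _)
      (Finset.mem_univ i)
    omega
  rw [hr, pow_add]
  have h3 : Δ ^ (d i + 2) * Δ ^ r * (F.leadingCoeff * (P α β / x α) * x l) =
      Δ ^ r * (Δ ^ (d i + 2) * (F.leadingCoeff * (P α β / x α * x l))) := by
    ring
  rw [h3]
  exact mul_mem (pow_mem hΔ r) h1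

/-- **Points of the intersection are bounded.** -/
theorem bounded_pt {k L : Type*} [Field k] [Field L] [CharZero L] [Algebra k L]
    {σ ι τ : Type*} [Fintype σ] [DecidableEq σ] [Fintype ι] [DecidableEq ι] [Fintype τ]
    (d b q : ι → ℕ) (hq : ∀ i, 0 < q i) (a aA : (i : ι) → Sym σ (d i) → L)
    (ap : (i : ι) → Sym σ (b i) → L) (ah : (i : ι) → Sym σ (q i) → L)
    (hF : Fam d b q a aA ap ah) (hAk : Over k aA) (hpk : Over k ap) (T : Finset (Ix σ q))
    (hind : AlgebraicIndependent k (fun p : T => ah p.1.1 p.1.2))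
    (hfin : FiniteDimensional
      (IntermediateField.adjoin k (Set.range fun p : T => ah p.1.1 p.1.2)) L)
    (D : Ix σ q → Derivation ℤ L L) (jj : τ → Ix σ q) (θ : τ → Ix σ q → L)
    (hD : Dual q ah D jj θ) (hT : ∀ j, jj j ∉ T)
    (hDk : ∀ p (c : k), D p (algebraMap k L c) = 0)
    (i₀ j₁ : σ) (hj : j₁ ≠ i₀) (w : ℕ)
    (hw1 : 2 * w + 1 + Fintype.card τ ≤ ∑ i, (q i + 1)) (hw2 : w + 2 ≤ ∑ i, q i)
    (hw3 : 2 * Fintype.card σ + Fintype.card τ ≤ ∑ i, (q i + 1) + 3) :
    ∃ V : Submodule k L, FiniteDimensional k V ∧ ∀ x : σ → L, x i₀ = 1 →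
      (∀ i, form (a i) x = 0) → (∀ i, form (ap i) x ≠ 0) → MinorsVanish D x w → ∃ G : L, G ≠ 0 ∧ ∀ l, G * x l ∈ V := by
  classical
  obtain ⟨V, hV, hVx⟩ := bounded_line d b q hq a aA ap ah hF hAk hpk T hind hfin D jj θ hD hT
    hDk Finset.univ i₀ j₁ hj w
    (by
      rw [Finset.sum_add_distrib, Finset.sum_const, smul_eq_mul, mul_one] at hw1
      exact hw1) hw2 ⊥ Subalgebra.fg_bot
  have := hV
  set y₀ : T → L := fun p : T => ah p.1.1 p.1.2 with hy₀
  have htr := others_transcendental (k := k) y₀ hind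
  have hof := others_finite (k := k) y₀ hfin
  set S : Set L := Set.range fun p : Ix σ d => a p.1 p.2 with hS
  have hSfin : S.Finite := Set.finite_range _
  have hdir : ∀ (p : T) (t : L), Transcendental (others (k := k) y₀ p) t →
      FiniteDimensional (Subfield.closure ((others (k := k) y₀ p : Set L) ∪ {t})) L →
      ∃ Δ : L, Δ ≠ 0 ∧ Δ ∈ intCl (others (k := k) y₀ p) t ∧
        (∀ z : L, IsIntegral (intCl (others (k := k) y₀ p) t) z →
          z ∈ intCl (others (k := k) y₀ p) t) ∧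
        (∀ f ∈ V, Δ * f ∈ intCl (others (k := k) y₀ p) t) ∧
        ∀ f ∈ S, Δ * f ∈ intCl (others (k := k) y₀ p) t := by
    intro p t ht hf
    obtain ⟨h1, h2⟩ := intCl_dedekind (others (k := k) y₀ p) t ht hf
    have hk : ∀ c : k, algebraMap k L c ∈ intCl (others (k := k) y₀ p) t := by
      intro c
      have h3 : algebraMap k L c ∈ Subring.closure ((others (k := k) y₀ p : Set L) ∪ {t}) :=
        Subring.subset_closure (Or.inl (IntermediateField.algebraMap_mem _ c))
      exact isIntegral_algebraMap (x := (⟨algebraMap k L c, h3⟩ :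
        Subring.closure ((others (k := k) y₀ p : Set L) ∪ {t})))
    have := h2
    obtain ⟨Δ, h4, h5, h6, h7⟩ := exists_den (intCl (others (k := k) y₀ p) t) hk V S hSfin
    exact ⟨Δ, h4, h5, intCl_closed _ _ h1 h2, h6, h7⟩
  choose Δ₁ h10 h11 h12 h13 h14 using fun p => hdir p (y₀ p) (htr p).1 (hof p).1
  choose Δ₂ h20 h21 h22 h23 h24 using fun p => hdir p (y₀ p)⁻¹ (htr p).2 (hof p).2
  obtain ⟨V', hV', hV''⟩ := fd y₀ hind hfin (fun p => Δ₁ p ^ (∑ i, d i + 2))
    (fun p => Δ₂ p ^ (∑ i, d i + 2)) (fun p => pow_ne_zero _ (h10 p))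
    (fun p => pow_ne_zero _ (h20 p))
  refine ⟨V', hV', fun x hx0 hx hPx hm => ?_⟩
  obtain ⟨δ, hδ1, hδ2⟩ := hVx x hx0 (fun i _ => hx i) (fun i hi => absurd (Finset.mem_univ i) hi)
    hPx (fun i hi => absurd (Finset.mem_univ i) hi) hm
  obtain ⟨G, hG0, hG⟩ := exists_lead d b q a aA ap ah D jj θ hD
    (hF.mov (k := k) hAk hpk D hDk) hw3 x δ hx hPx hδ1
  refine ⟨G, hG0, fun l => hV'' _ fun p => ⟨?_, ?_⟩⟩
  · exact hG _ (Δ₁ p) (h12 p) (h10 p) (h11 p) (fun i J => h14 p _ ⟨⟨i, J⟩, rfl⟩)
      (fun j l => h13 p _ (hδ2 j l)) l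
  · exact hG _ (Δ₂ p) (h22 p) (h20 p) (h21 p) (fun i J => h24 p _ ⟨⟨i, J⟩, rfl⟩)
      (fun j l => h23 p _ (hδ2 j l)) l

end Pool.Agent.Helper49.LV
end

/- Helper12.LVF.H8.LG.Final -/
section
/-! # LG-FINAL: the theorem over fields -/

set_option autoImplicit false

namespace Pool.Agent.Helper8.LG

open scoped BigOperators

private theorem num_mono {ι : Type*} [Fintype ι] {d e m : ι → ℕ} {Z C : Finset ι} {w c c' : ℕ}
    (h : Num d e m Z C w c) (hc : c' ≤ c) : Num d e m Z C w c' where
  pos := h.pos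
  disj := h.disj
  deg := h.deg
  e0 := h.e0
  ineq := by
    have := h.ineq
    omega

/-- normalised points, all roots non-zero -/
theorem final_aux {k₀ L : Type*} [Field k₀] [Field L] [CharZero L] [Algebra k₀ L]
    (hfg : (⊤ : IntermediateField k₀ L).FG)
    {σ ι : Type*} [Fintype σ] [DecidableEq σ] [Fintype ι] [DecidableEq ι]
    (d e m : ι → ℕ) (a : (i : ι) → Sym σ (d i) → L) (w c : ℕ)
    (hc : (Fintype.card (Ix σ d) : Cardinal) ≤ Algebra.trdeg k₀
      (IntermediateField.adjoin k₀ (Set.range fun p : Ix σ d => a p.1 p.2)) + c)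
    (Z C : Finset ι) (i₀ : σ) (hnum : Num d e m Z C w c)
    (A : Subalgebra k₀ L) (hA : A.FG) :
    {x : σ → L | x i₀ = 1 ∧
      Algebra.trdeg k₀ (IntermediateField.adjoin k₀ (Set.range x)) ≤ w ∧
      (∀ i ∈ Z, form (a i) x = 0) ∧ (∀ i ∉ Z, form (a i) x ≠ 0) ∧
      (∀ i ∈ C, ∃ y : L, y ^ m i = form (a i) x) ∧
      ∀ i ∉ Z, i ∉ C → ∀ J : Sym σ (d i), IsIntegral A (mon x J / form (a i) x)}.Finite := by
  classical
  obtain ⟨T, k, hT, hind, hfin, D, θ, hD, hDk⟩ := reduce hfg d a c hc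
  have hnum' := num_mono hnum hT
  -- the algebra over `k`
  obtain ⟨s, hs⟩ := hA
  set A' : Subalgebra k L := Algebra.adjoin k (s : Set L) with hA'
  have hAA' : ∀ f ∈ A, f ∈ A' := by
    intro f hf
    rw [← hs] at hf
    induction hf using Algebra.adjoin_induction with
    | mem x hx => exact Algebra.subset_adjoin hx
    | algebraMap r =>
      have h1 : algebraMap k₀ L r = algebraMap k L (algebraMap k₀ k r) :=
        IsScalarTower.algebraMap_apply k₀ k L r
      rw [h1]
      exact A'.algebraMap_mem _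
    | add x y _ _ hx hy => exact add_mem hx hy
    | mul x y _ _ hx hy => exact mul_mem hx hy
  obtain ⟨V, hV, hVb⟩ := bounded d e m a T hind hfin D (fun j => j.1) θ hD (fun j => j.2) hDk
    Z C i₀ w hnum' A' ⟨s, rfl⟩
  haveI := hV
  refine ultra (k := k) d e m a D (fun j => j.1) θ hD hDk Z C i₀ w hnum' V _ ?_
  rintro x ⟨h1, h2, h3, h4, h5, h6⟩
  have hrank : MinorsVanish D x w := by
    refine minors_of_trdeg (k := k₀) D ?_ x i₀ h1 w h2
    intro p r
    have h7 : algebraMap k₀ L r = algebraMap k L (algebraMap k₀ k r) :=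
      IsScalarTower.algebraMap_apply k₀ k L r
    rw [h7]
    exact hDk p _
  choose y hy using h5
  set y' : ι → L := fun i => if h : i ∈ C then y i h else 0 with hy'
  have hyy : ∀ i ∈ C, y' i ^ m i = form (a i) x := by
    intro i hi
    rw [hy']
    simp only [dif_pos hi]
    exact hy i hi
  have hgood : Good d m a D Z C i₀ w A'.toSubring x y' := by
    refine ⟨h1, h3, h4, hyy, ?_, hrank⟩
    intro i hiZ hiC J
    have h8 := h6 i hiZ hiC J
    exact h8.map_of_comp_eq (Subring.inclusion (S := A.toSubring) (T := A'.toSubring)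
      (fun f hf => hAA' f hf)) (RingHom.id L) rfl
  obtain ⟨G, hG, hG1, hG2, hG3⟩ := hVb x y' hgood
  exact ⟨h1, h3, h4, hrank, y', G, hG, hG1, hG2, hyy, hG3⟩

end Pool.Agent.Helper8.LG
end

/- Helper12.LVF.H8.LG.FieldProj -/
section
/-! # LG-FPROJ: the theorem over one field, in terms of polynomials and projective points -/

set_option autoImplicit false

open MvPolynomial

namespace Pool.Agent.Helper8.LG

open scoped BigOperators LinearAlgebra.Projectivization

private theorem fproj_mon_div {L : Type*} [Field L] {N n : ℕ} (x : Fin (N + 1) → L) (t : L)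
    (J : Sym (Fin (N + 1)) n) : mon (fun i => x i / t) J = mon x J / t ^ n := by
  rw [mon, mon, Multiset.prod_map_div, Multiset.map_const', Multiset.prod_replicate]
  rw [Sym.card_coe]

private theorem fproj_form_div {L : Type*} [Field L] {N n : ℕ} (F : MvPolynomial (Fin (N + 1)) L)
    (hF : F.IsHomogeneous n) (x : Fin (N + 1) → L) (t : L) :
    form (cf n F) (fun i => x i / t) = eval x F / t ^ n := by
  rw [← form_cf F hF x, form, form, Finset.sum_div]
  refine Finset.sum_congr rfl (fun J _ => ?_)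
  rw [fproj_mon_div, mul_div_assoc]

private theorem fproj_inj {L : Type*} [Field L] {N : ℕ} (i₀ : Fin (N + 1))
    {x y : ℙ L (Fin (N + 1) → L)} (hx : x.rep i₀ ≠ 0) (hy : y.rep i₀ ≠ 0)
    (h : (fun i => x.rep i / x.rep i₀) = fun i => y.rep i / y.rep i₀) : x = y := by
  rw [← x.mk_rep, ← y.mk_rep, Projectivization.mk_eq_mk_iff']
  refine ⟨x.rep i₀ / y.rep i₀, ?_⟩
  funext i
  have h1 : x.rep i / x.rep i₀ = y.rep i / y.rep i₀ := congrFun h i
  rw [Pi.smul_apply, smul_eq_mul]
  field_simp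
  field_simp at h1
  linear_combination -h1

private theorem fproj_trdeg {k₀ L : Type*} [Field k₀] [Field L] [Algebra k₀ L]
    {A B : IntermediateField k₀ L} (h : A ≤ B) : Algebra.trdeg k₀ A ≤ Algebra.trdeg k₀ B :=
  trdeg_le_of_injective (IntermediateField.inclusion h)
    (IntermediateField.inclusion_injective h)

/-- projective version over one field, roots may vanish -/
theorem final_proj {k₀ L : Type*} [Field k₀] [Field L] [CharZero L] [Algebra k₀ L]
    (hfg : (⊤ : IntermediateField k₀ L).FG) {N r : ℕ} (d m : Fin r → ℕ)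
    (hd : ∀ i, 0 < d i) (F : Fin r → MvPolynomial (Fin (N + 1)) L)
    (hF : ∀ i, (F i).IsHomogeneous (d i)) (w c : ℕ) (Z C : Finset (Fin r))
    (hZC : Disjoint Z C) (hm : ∀ i ∈ C, m i ∣ d i)
    (hcoef : ((∑ i, (N + d i).choose N : ℕ) : Cardinal) ≤
      Algebra.trdeg k₀ (coeffField k₀ F) + c)
    (hnum : 2 * w + 2 + c + ∑ i ∈ C, d i / m i ≤ ∑ i, d i + Z.card ∨
      Z = Finset.univ ∧ 2 * w + 1 + c ≤ ∑ i, (d i + 1) ∧ w + 2 ≤ ∑ i, d i ∧
        2 * N + c ≤ ∑ i, (d i + 1) + 1)
    (A : Subalgebra k₀ L) (hA : A.FG) :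
    {x : ℙ L (Fin (N + 1) → L) | Algebra.trdeg k₀ (ratioField k₀ x.rep) ≤ w ∧
      (∀ i ∈ Z, eval x.rep (F i) = 0) ∧ (∀ i ∈ C, ∃ y : L, y ^ m i = eval x.rep (F i)) ∧
      ∀ i ∉ Z, i ∉ C → eval x.rep (F i) ≠ 0 ∧
        ∀ J : Sym (Fin (N + 1)) (d i), IsIntegral A (mon x.rep J / eval x.rep (F i))}.Finite := by
  classical
  have hc : (Fintype.card (Ix (Fin (N + 1)) d) : Cardinal) ≤ Algebra.trdeg k₀
      (IntermediateField.adjoin k₀
        (Set.range fun p : Ix (Fin (N + 1)) d => cf (d p.1) (F p.1) p.2)) + c := by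
    rw [card_Ix, ← coeffField_eq k₀ d F hF]
    exact hcoef
  -- the normalised points
  obtain ⟨S, hSdef⟩ : ∃ S : Fin (N + 1) → Finset (Fin r) → Set (Fin (N + 1) → L),
      S = fun i₀ C₀ => {x : Fin (N + 1) → L | x i₀ = 1 ∧
        Algebra.trdeg k₀ (IntermediateField.adjoin k₀ (Set.range x)) ≤ w ∧
        (∀ i ∈ Z ∪ C₀, form (cf (d i) (F i)) x = 0) ∧
        (∀ i ∉ Z ∪ C₀, form (cf (d i) (F i)) x ≠ 0) ∧
        (∀ i ∈ C \ C₀, ∃ y : L, y ^ m i = form (cf (d i) (F i)) x) ∧
        ∀ i ∉ Z ∪ C₀, i ∉ C \ C₀ → ∀ J : Sym (Fin (N + 1)) (d i),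
          IsIntegral A (mon x J / form (cf (d i) (F i)) x)} := ⟨_, rfl⟩
  have hS : ∀ i₀ C₀, (S i₀ C₀).Finite := by
    intro i₀ C₀
    rw [hSdef]
    rcases hnum with hnum | ⟨hZu, hn1, hn2, hn3⟩
    swap
    · refine (Helper49.LG.final_line hfg d hd (fun i => cf (d i) (F i)) w c hc i₀ hn1 hn2
        (by rw [Fintype.card_fin]; omega)).subset ?_
      rintro x ⟨h1, h2, h3, -⟩
      exact ⟨h1, h2, fun i => h3 i (Finset.mem_union_left _ (hZu ▸ Finset.mem_univ i))⟩
    refine final_aux hfg d (fun i => if i ∈ C \ C₀ then d i / m i else 0) m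
      (fun i => cf (d i) (F i)) w c hc (Z ∪ C₀) (C \ C₀) i₀ ?_ A hA
    refine ⟨hd, ?_, ?_, ?_, ?_⟩
    · intro i hi hi'
      rw [Finset.mem_sdiff] at hi
      rcases Finset.mem_union.1 hi' with h | h
      · exact Finset.disjoint_left.1 hZC h hi.1
      · exact hi.2 h
    · intro i hi
      rw [if_pos hi]
      exact (Nat.mul_div_cancel' (hm i (Finset.mem_sdiff.1 hi).1)).symm
    · intro i hi
      exact if_neg hi
    · have h1 : ∑ i, (if i ∈ C \ C₀ then d i / m i else 0) ≤ ∑ i ∈ C, d i / m i := by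
        rw [← Finset.sum_filter]
        refine Finset.sum_le_sum_of_subset (fun i hi => ?_)
        exact (Finset.mem_sdiff.1 (Finset.mem_filter.1 hi).2).1
      have h2 : Z.card ≤ (Z ∪ C₀).card := Finset.card_le_card Finset.subset_union_left
      omega
  -- the covering
  have hcov : {x : ℙ L (Fin (N + 1) → L) | Algebra.trdeg k₀ (ratioField k₀ x.rep) ≤ w ∧
      (∀ i ∈ Z, eval x.rep (F i) = 0) ∧ (∀ i ∈ C, ∃ y : L, y ^ m i = eval x.rep (F i)) ∧
      ∀ i ∉ Z, i ∉ C → eval x.rep (F i) ≠ 0 ∧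
        ∀ J : Sym (Fin (N + 1)) (d i), IsIntegral A (mon x.rep J / eval x.rep (F i))}
      ⊆ ⋃ i₀ : Fin (N + 1), ⋃ C₀ : Finset (Fin r),
        {x : ℙ L (Fin (N + 1) → L) | x.rep i₀ ≠ 0 ∧
          (fun i => x.rep i / x.rep i₀) ∈ S i₀ C₀} := by
    rintro x ⟨h1, h2, h3, h4⟩
    obtain ⟨i₀, hi₀⟩ : ∃ i₀, x.rep i₀ ≠ 0 := by
      by_contra hne
      push Not at hne
      exact x.rep_nonzero (funext hne)
    rw [Set.mem_iUnion]
    refine ⟨i₀, ?_⟩
    rw [Set.mem_iUnion]
    refine ⟨C.filter (fun i => eval x.rep (F i) = 0), hi₀, ?_⟩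
    have hform : ∀ i, form (cf (d i) (F i)) (fun l => x.rep l / x.rep i₀)
        = eval x.rep (F i) / x.rep i₀ ^ d i := fun i => fproj_form_div (F i) (hF i) _ _
    have ht : ∀ n : ℕ, x.rep i₀ ^ n ≠ 0 := fun n => pow_ne_zero n hi₀
    have hnz : ∀ i ∉ Z ∪ C.filter (fun i => eval x.rep (F i) = 0), eval x.rep (F i) ≠ 0 := by
      intro i hi
      rw [Finset.mem_union, Finset.mem_filter] at hi
      push Not at hi
      by_cases hiC : i ∈ C
      · exact hi.2 hiC
      · exact (h4 i hi.1 hiC).1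
    rw [hSdef]
    refine ⟨div_self hi₀, ?_, ?_, ?_, ?_, ?_⟩
    · refine (fproj_trdeg ?_).trans h1
      rw [ratioField]
      refine IntermediateField.adjoin.mono _ _ _ ?_
      rintro _ ⟨i, rfl⟩
      exact ⟨i, i₀, rfl⟩
    · intro i hi
      rw [hform]
      rcases Finset.mem_union.1 hi with h | h
      · rw [h2 i h, zero_div]
      · rw [(Finset.mem_filter.1 h).2, zero_div]
    · intro i hi
      rw [hform]
      exact div_ne_zero (hnz i hi) (ht _)
    · intro i hi
      have hiC := (Finset.mem_sdiff.1 hi).1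
      obtain ⟨y, hy⟩ := h3 i hiC
      refine ⟨y / x.rep i₀ ^ (d i / m i), ?_⟩
      rw [hform, div_pow, hy, ← pow_mul, Nat.div_mul_cancel (hm i hiC)]
    · intro i hi hi' J
      have hiZ : i ∉ Z := fun h => hi (Finset.mem_union_left _ h)
      have hiC : i ∉ C := by
        intro h
        apply hi'
        rw [Finset.mem_sdiff]
        exact ⟨h, fun h' => hi (Finset.mem_union_right _ h')⟩
      rw [hform, fproj_mon_div, div_div_div_cancel_right₀ (ht _)]
      exact (h4 i hiZ hiC).2 J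
  refine Set.Finite.subset ?_ hcov
  refine Set.finite_iUnion (fun i₀ => Set.finite_iUnion (fun C₀ => ?_))
  refine Set.Finite.of_injOn (f := fun x : ℙ L (Fin (N + 1) → L) =>
    fun i => x.rep i / x.rep i₀) (fun x hx => hx.2) ?_ (hS i₀ C₀)
  intro x hx y hy hxy
  exact fproj_inj i₀ hx.1 hy.1 hxy

end Pool.Agent.Helper8.LG
end

/- Helper12.LVF.H8.LG.FieldMain -/
section
/-! # LG-FIELD: the theorem over fields, with a change of coordinates -/

set_option autoImplicit false

open MvPolynomial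

namespace Pool.Agent.Helper8.LG

open scoped BigOperators LinearAlgebra.Projectivization

private theorem fmain_mon_smul {M : Type*} [Field M] {N n : ℕ} (c : M) (x : Fin (N + 1) → M)
    (J : Sym (Fin (N + 1)) n) : mon (fun i => c * x i) J = c ^ n * mon x J := by
  rw [mon, mon, Multiset.prod_map_mul, Multiset.map_const', Multiset.prod_replicate, Sym.card_coe]

private theorem fmain_mon_map {L M : Type*} [Field L] [Field M] [Algebra L M] {N n : ℕ}
    (x : Fin (N + 1) → L) (J : Sym (Fin (N + 1)) n) :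
    mon (fun i => algebraMap L M (x i)) J = algebraMap L M (mon x J) := by
  rw [mon, mon, map_multiset_prod, Multiset.map_map]
  rfl

private theorem fmain_eval_smul {M : Type*} [Field M] {N n : ℕ}
    (F : MvPolynomial (Fin (N + 1)) M) (hF : F.IsHomogeneous n) (c : M)
    (x : Fin (N + 1) → M) : eval (fun i => c * x i) F = c ^ n * eval x F := by
  rw [← form_cf F hF, ← form_cf F hF, form, form, Finset.mul_sum]
  refine Finset.sum_congr rfl (fun J _ => ?_)
  rw [fmain_mon_smul]
  ring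

private theorem fmain_ratio_smul {k₀ M : Type*} [Field k₀] [Field M] [Algebra k₀ M] {N : ℕ}
    (c : M) (hc : c ≠ 0) (x : Fin (N + 1) → M) :
    ratioField k₀ (fun i => c * x i) = ratioField k₀ x := by
  rw [ratioField, ratioField]
  congr 1
  ext z
  simp only [Set.mem_ofPred_eq, mul_div_mul_left _ _ hc]

/-- with a change of coordinates `g` over an extension field `M` -/
theorem field_main {k₀ L M : Type*} [Field k₀] [Field L] [Field M] [CharZero M]
    [Algebra k₀ M] [Algebra L M] (hfg : (⊤ : IntermediateField k₀ M).FG) {N r : ℕ}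
    (d m : Fin r → ℕ) (hd : ∀ i, 0 < d i) (F : Fin r → MvPolynomial (Fin (N + 1)) L)
    (hF : ∀ i, (F i).IsHomogeneous (d i)) (g : GL (Fin (N + 1)) M) (w c : ℕ)
    (Z C : Finset (Fin r)) (hZC : Disjoint Z C) (hm : ∀ i ∈ C, m i ∣ d i)
    (hcoef : ((∑ i, (N + d i).choose N : ℕ) : Cardinal) ≤
      Algebra.trdeg k₀ (coeffField k₀ fun i => subst (g : Matrix _ _ M) (F i)) + c)
    (hnum : 2 * w + 2 + c + ∑ i ∈ C, d i / m i ≤ ∑ i, d i + Z.card ∨
      Z = Finset.univ ∧ 2 * w + 1 + c ≤ ∑ i, (d i + 1) ∧ w + 2 ≤ ∑ i, d i ∧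
        2 * N + c ≤ ∑ i, (d i + 1) + 1)
    (A : Subalgebra k₀ M) (hA : A.FG) :
    {x : ℙ L (Fin (N + 1) → L) |
      Algebra.trdeg k₀ (ratioField k₀
        ((g⁻¹ : GL (Fin (N + 1)) M).1.mulVec fun i => algebraMap L M (x.rep i))) ≤ w ∧
      (∀ i ∈ Z, eval x.rep (F i) = 0) ∧ (∀ i ∈ C, ∃ y : L, y ^ m i = eval x.rep (F i)) ∧
      ∀ i ∉ Z, i ∉ C → eval x.rep (F i) ≠ 0 ∧ ∀ J : Sym (Fin (N + 1)) (d i),
        IsIntegral A (algebraMap L M (mon x.rep J / eval x.rep (F i)))}.Finite := by
  classical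
  obtain ⟨h, hh⟩ : ∃ h : Matrix (Fin (N + 1)) (Fin (N + 1)) M,
      h = (g⁻¹ : GL (Fin (N + 1)) M).1 := ⟨_, rfl⟩
  have hgh : (g : Matrix (Fin (N + 1)) (Fin (N + 1)) M) * h = 1 := by
    rw [hh]; exact Units.mul_inv g
  have hhg : h * (g : Matrix (Fin (N + 1)) (Fin (N + 1)) M) = 1 := by
    rw [hh]; exact Units.inv_mul g
  rw [← hh]
  -- the coordinates over `M`
  obtain ⟨ξ, hξ⟩ : ∃ ξ : ℙ L (Fin (N + 1) → L) → Fin (N + 1) → M,
      ξ = fun x i => algebraMap L M (x.rep i) := ⟨_, rfl⟩
  have hgy : ∀ x, (g : Matrix (Fin (N + 1)) (Fin (N + 1)) M).mulVec (h.mulVec (ξ x)) = ξ x := by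
    intro x
    rw [Matrix.mulVec_mulVec, hgh, Matrix.one_mulVec]
  have hy0 : ∀ x, h.mulVec (ξ x) ≠ 0 := by
    intro x hx
    have h1 := hgy x
    rw [hx, Matrix.mulVec_zero, hξ] at h1
    refine x.rep_nonzero (funext fun i => ?_)
    have h2 := congrFun h1 i
    simp only [Pi.zero_apply] at h2 ⊢
    exact (map_eq_zero_iff _ (algebraMap L M).injective).1 h2.symm
  -- the new polynomials
  obtain ⟨F', hF'⟩ : ∃ F' : Fin r → MvPolynomial (Fin (N + 1)) M,
      F' = fun i => subst (g : Matrix _ _ M) (F i) := ⟨_, rfl⟩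
  have hF'h : ∀ i, (F' i).IsHomogeneous (d i) := by
    intro i; rw [hF']; exact subst_hom _ _ (hF i)
  have hev : ∀ x i, eval (h.mulVec (ξ x)) (F' i) = algebraMap L M (eval x.rep (F i)) := by
    intro x i
    rw [hF']
    simp only
    rw [eval_subst, hgy, hξ]
    simp only
    rw [aeval_def]
    exact (eval₂_comp_left (algebraMap L M) (RingHom.id L) x.rep (F i)).symm
  rw [← hF'] at hcoef
  -- the new algebra
  obtain ⟨A', hA'⟩ : ∃ A' : Subalgebra k₀ M,
      A' = A ⊔ Algebra.adjoin k₀ (Set.range fun p : Fin (N + 1) × Fin (N + 1) => h p.1 p.2) :=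
    ⟨_, rfl⟩
  have hAA' : A ≤ A' := by rw [hA']; exact le_sup_left
  have hhA' : ∀ i j, h i j ∈ A' := by
    intro i j
    rw [hA']
    exact (le_sup_right : _ ≤ A ⊔ Algebra.adjoin k₀ (Set.range fun p : Fin (N + 1) ×
      Fin (N + 1) => h p.1 p.2)) (Algebra.subset_adjoin ⟨(i, j), rfl⟩)
  have hA'fg : A'.FG := by
    rw [hA']
    refine hA.sup ?_
    have h1 := Subalgebra.fg_adjoin_finset (R := k₀) (A := M)
      (Finset.univ.image fun p : Fin (N + 1) × Fin (N + 1) => h p.1 p.2)
    rwa [Finset.coe_image, Finset.coe_univ, Set.image_univ] at h1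
  -- the map
  obtain ⟨φ, hφ⟩ : ∃ φ : ℙ L (Fin (N + 1) → L) → ℙ M (Fin (N + 1) → M),
      φ = fun x => Projectivization.mk M (h.mulVec (ξ x)) (hy0 x) := ⟨_, rfl⟩
  have hfin := final_proj hfg d m hd F' hF'h w c Z C hZC hm hcoef hnum A' hA'fg
  refine Set.Finite.of_injOn (f := φ) ?_ ?_ hfin
  · rintro x ⟨h1, h2, h3, h4⟩
    obtain ⟨u, hu⟩ := Projectivization.exists_smul_eq_mk_rep M (h.mulVec (ξ x)) (hy0 x)
    have hrep : (φ x).rep = fun i => (u : M) * h.mulVec (ξ x) i := by
      rw [hφ]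
      simp only
      rw [← hu]
      rfl
    have hu0 : (u : M) ≠ 0 := u.ne_zero
    have hevφ : ∀ i, eval (φ x).rep (F' i)
        = (u : M) ^ d i * algebraMap L M (eval x.rep (F i)) := by
      intro i
      rw [hrep, fmain_eval_smul (F' i) (hF'h i), hev]
    refine ⟨?_, ?_, ?_, ?_⟩
    · rw [hrep, fmain_ratio_smul _ hu0]
      rw [hξ]
      exact h1
    · intro i hi
      rw [hevφ, h2 i hi, map_zero, mul_zero]
    · intro i hi
      obtain ⟨y, hy⟩ := h3 i hi
      refine ⟨(u : M) ^ (d i / m i) * algebraMap L M y, ?_⟩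
      rw [hevφ, mul_pow, ← pow_mul, Nat.div_mul_cancel (hm i hi), ← map_pow, hy]
    · intro i hiZ hiC
      obtain ⟨h5, h6⟩ := h4 i hiZ hiC
      have hud : (u : M) ^ d i ≠ 0 := pow_ne_zero _ hu0
      refine ⟨?_, ?_⟩
      · rw [hevφ]
        exact mul_ne_zero hud ((map_ne_zero_iff _ (algebraMap L M).injective).2 h5)
      · intro J
        obtain ⟨b, hb, hb'⟩ := mon_mulVec h A'.toSubring hhA' J
        have h7 : mon (φ x).rep J / eval (φ x).rep (F' i)
            = ∑ J', b J' * algebraMap L M (mon x.rep J' / eval x.rep (F i)) := by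
          rw [hevφ, hrep, fmain_mon_smul, mul_div_mul_left _ _ hud, hb' (ξ x), Finset.sum_div]
          refine Finset.sum_congr rfl (fun J' _ => ?_)
          rw [map_div₀, hξ]
          simp only
          rw [fmain_mon_map, mul_div_assoc]
        rw [h7]
        refine IsIntegral.sum _ (fun J' _ => ?_)
        refine IsIntegral.mul ?_ ?_
        · exact isIntegral_algebraMap (R := A') (A := M) (x := ⟨b J', hb J'⟩)
        · exact (h6 J').map_of_comp_eq (Subalgebra.inclusion hAA').toRingHom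
            (RingHom.id M) rfl
  · intro x _ x' _ hxx
    rw [hφ] at hxx
    simp only at hxx
    rw [Projectivization.mk_eq_mk_iff'] at hxx
    obtain ⟨c', hc'⟩ := hxx
    -- `c' • h ξ' = h ξ`
    have hc1 : ∀ i, c' * algebraMap L M (x'.rep i) = algebraMap L M (x.rep i) := by
      have h1 := congrArg ((g : Matrix (Fin (N + 1)) (Fin (N + 1)) M).mulVec) hc'
      rw [Matrix.mulVec_smul, hgy, hgy, hξ] at h1
      intro i
      exact congrFun h1 i
    obtain ⟨i₀, hi₀⟩ : ∃ i₀, x'.rep i₀ ≠ 0 := by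
      by_contra hne
      push Not at hne
      exact x'.rep_nonzero (funext hne)
    have hi₀' : algebraMap L M (x'.rep i₀) ≠ 0 :=
      (map_ne_zero_iff _ (algebraMap L M).injective).2 hi₀
    rw [← x.mk_rep, ← x'.mk_rep, Projectivization.mk_eq_mk_iff']
    refine ⟨x.rep i₀ / x'.rep i₀, ?_⟩
    funext i
    apply (algebraMap L M).injective
    rw [Pi.smul_apply, smul_eq_mul, map_mul, map_div₀, ← hc1 i₀, ← hc1 i,
      mul_div_assoc, div_self hi₀', mul_one]

end Pool.Agent.Helper8.LG
end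

/- Helper12.LVF.H8.LG.Wrap -/
section
/-! # LG-WRAP: the theorem over schemes -/

set_option autoImplicit false

open AlgebraicGeometry CategoryTheory CategoryTheory.Limits MvPolynomial

namespace Pool.Agent.Helper8.LG

attribute [local instance] MvPolynomial.gradedAlgebra

universe u v

theorem wrap_fg_trans {k K M : Type*} [Field k] [Field K] [Field M] [Algebra k K] [Algebra K M]
    [Algebra k M] [IsScalarTower k K M] (h1 : (⊤ : IntermediateField k K).FG)
    (h2 : (⊤ : IntermediateField K M).FG) : (⊤ : IntermediateField k M).FG := by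
  rw [IntermediateField.fg_top_iff] at h1 h2 ⊢
  exact Algebra.EssFiniteType.comp k K M

theorem main (R : CommRingCat.{u}) (B : Scheme.{u}) [IsIntegral B] (s : B ⟶ Spec R)
    [LocallyOfFiniteType s] [CharZero B.functionField]
    (U : Scheme.{u}) (π : U ⟶ B) [IsSeparated π] [LocallyOfFiniteType π] [QuasiCompact π]
    {N r : ℕ} (d m : Fin r → ℕ) (hd : ∀ i, 0 < d i)
    (F : Fin r → MvPolynomial (Fin (N + 1)) B.functionField)
    (hF : ∀ i, (F i).IsHomogeneous (d i))
    (q : genFib π ⟶ PN N B.functionField) (hq : q ≫ PN.toSpec N _ = pullback.snd _ _)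
    [LocallyQuasiFinite q]
    (Z C : Finset (Fin r)) (hZC : Disjoint Z C) (hm : ∀ i ∈ C, m i ∣ d i)
    (k₀ : Subfield B.functionField)
    (hk₀ : ∀ r : R, (Spec.preimage (B.fromSpecStalk (genericPoint B) ≫ s)).hom r ∈ k₀)
    (M : Type v) [Field M] [Algebra B.functionField M]
    (hM : (⊤ : IntermediateField B.functionField M).FG) (g : GL (Fin (N + 1)) M) (w c : ℕ)
    (hcoef : ((∑ i, (N + d i).choose N : ℕ) : Cardinal) ≤
      Algebra.trdeg k₀ (coeffField k₀ fun i => subst (g : Matrix _ _ M) (F i)) + c)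
    (hnum : 2 * w + 2 + c + ∑ i ∈ C, d i / m i ≤ ∑ i, d i + Z.card ∨
      Z = Finset.univ ∧ 2 * w + 1 + c ≤ ∑ i, (d i + 1) ∧ w + 2 ≤ ∑ i, d i ∧
        2 * N + c ≤ ∑ i, (d i + 1) + 1)
    (hU : ∀ i ∉ Z, i ∉ C → ∀ z : genFib π, q z ∈ Proj.basicOpen _ (F i))
    (hpt : ∀ p : Spec B.functionField ⟶ genFib π, p ≫ pullback.snd _ _ = 𝟙 _ →
      ∀ (t : Spec B.functionField) (x : Fin (N + 1) → B.functionField), IsCoord (q (p t)) x →
      Algebra.trdeg k₀ (ratioField k₀ ((g⁻¹ : GL (Fin (N + 1)) M).1.mulVec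
        fun i => algebraMap B.functionField M (x i))) ≤ w ∧
      (∀ i ∈ Z, eval x (F i) = 0) ∧ ∀ i ∈ C, ∃ y : B.functionField, y ^ m i = eval x (F i)) :
    {σ : B ⟶ U | σ ≫ π = 𝟙 B}.Finite := by
  classical
  obtain ⟨V, hVne, hV, ⟨A, ⟨S₀, hS₀⟩, hA⟩, hKfg⟩ := exists_affine_ft R s k₀ hk₀
  haveI := hVne
  haveI : CharZero M :=
    charZero_of_injective_algebraMap (algebraMap B.functionField M).injective
  have hfg : (⊤ : IntermediateField k₀ M).FG := wrap_fg_trans hKfg hM
  -- a point of the spectrum of the function field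
  let t : Spec B.functionField := IsLocalRing.closedPoint B.functionField
  -- the functions `X^J / F_i` and their denominators
  have hfun : ∀ i : Fin r, ∀ J : Sym (Fin (N + 1)) (d i), ∃ f : B.functionField, f ≠ 0 ∧
      (i ∉ Z → i ∉ C → ∀ (σ : B ⟶ U) (hσ : σ ≫ π = 𝟙 B) (x : Fin (N + 1) → B.functionField),
        IsCoord (q (genPt π σ hσ t)) x → ∃ b ∈ A, f * (mon x J / eval x (F i)) = b) := by
    intro i J
    by_cases hi : i ∉ Z ∧ i ∉ C
    · obtain ⟨φ, hφ⟩ := exists_fun π q hq (hd i) (F i) (hF i) (hU i hi.1 hi.2)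
        (monX B.functionField J) (monX_hom _ J)
      obtain ⟨s', hs', hb⟩ := spread π V hV φ
      refine ⟨B.germToFunctionField V s', hs', fun _ _ σ hσ x hx => ?_⟩
      obtain ⟨b, hb⟩ := hb σ hσ
      refine ⟨B.germToFunctionField V b, hA b, ?_⟩
      rw [← hb, hφ σ hσ t x hx, eval_monX]
    · exact ⟨1, one_ne_zero, fun h1 h2 => absurd ⟨h1, h2⟩ hi⟩
  choose f hf0 hfA using hfun
  -- the algebra over `M`
  let A' : Subalgebra k₀ M := Algebra.adjoin k₀
    ((S₀.image (algebraMap B.functionField M) ∪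
      Finset.univ.image (fun p : Ix (Fin (N + 1)) d =>
        algebraMap B.functionField M (f p.1 p.2)⁻¹) : Finset M) : Set M)
  have hAA' : ∀ b ∈ A, algebraMap B.functionField M b ∈ A' := by
    intro b hb
    rw [← hS₀] at hb
    induction hb using Algebra.adjoin_induction with
    | mem x hx =>
      refine Algebra.subset_adjoin ?_
      rw [Finset.coe_union, Finset.coe_image]
      exact Or.inl ⟨x, hx, rfl⟩
    | algebraMap r => exact A'.algebraMap_mem r
    | add x y _ _ hx hy => rw [map_add]; exact add_mem hx hy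
    | mul x y _ _ hx hy => rw [map_mul]; exact mul_mem hx hy
  have hfA' : ∀ i J, algebraMap B.functionField M (f i J)⁻¹ ∈ A' := by
    intro i J
    refine Algebra.subset_adjoin ?_
    rw [Finset.coe_union]
    exact Or.inr (Finset.mem_coe.2 (Finset.mem_image.2 ⟨⟨i, J⟩, Finset.mem_univ _, rfl⟩))
  have hfin := field_main hfg d m hd F hF g w c Z C hZC hm hcoef hnum A' ⟨_, rfl⟩
  refine Set.Finite.subset (Set.Finite.biUnion hfin
    (t := fun y => {σ : B ⟶ U | ∃ hσ : σ ≫ π = 𝟙 B, IsCoord (q (genPt π σ hσ t)) y.rep})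
    (fun y _ => ?_)) ?_
  · by_cases h : ∃ z : PN N B.functionField, IsCoord z y.rep
    · obtain ⟨z, hz⟩ := h
      refine (fib_finite π q hq t z).subset ?_
      rintro σ ⟨hσ, h2⟩
      exact ⟨hσ, point_unique h2 hz⟩
    · refine Set.Finite.subset Set.finite_empty ?_
      rintro σ ⟨hσ, h2⟩
      exact h ⟨_, h2⟩
  · intro σ hσ
    have hσ' : σ ≫ π = 𝟙 B := hσ
    have hsnd : genPt π σ hσ' ≫ pullback.snd _ _ = 𝟙 _ := pullback.lift_snd _ _ _
    obtain ⟨x, hx⟩ := exists_coord (genPt π σ hσ' ≫ q)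
      (by rw [Category.assoc, hq]; exact hsnd) t
    have hx0 : x ≠ 0 := hx.1
    have hx' : IsCoord (q (genPt π σ hσ' t)) x := by
      have h3 : (genPt π σ hσ' ≫ q) t = q (genPt π σ hσ' t) := Scheme.Hom.comp_apply _ _ _
      rw [← h3]
      exact hx
    obtain ⟨a, ha⟩ := Projectivization.exists_smul_eq_mk_rep B.functionField x hx0
    have hrep : IsCoord (q (genPt π σ hσ' t))
        (Projectivization.mk B.functionField x hx0).rep := by
      have h4 : (Projectivization.mk B.functionField x hx0).rep =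
          fun i => (a : B.functionField) * x i := by
        rw [← ha]
        rfl
      rw [h4]
      exact coord_smul hx' a a.ne_zero
    rw [Set.mem_iUnion₂]
    refine ⟨Projectivization.mk B.functionField x hx0, ?_, hσ', hrep⟩
    obtain ⟨h5, h6, h7⟩ := hpt (genPt π σ hσ') hsnd t _ hrep
    refine ⟨h5, h6, h7, ?_⟩
    intro i hiZ hiC
    have h8 : eval (Projectivization.mk B.functionField x hx0).rep (F i) ≠ 0 := by
      intro h9
      have h10 := (hrep.2 (d i) (F i) (hF i)).2 h9
      exact (ProjectiveSpectrum.mem_basicOpen _ _ _).1 (hU i hiZ hiC _) h10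
    refine ⟨h8, fun J => ?_⟩
    obtain ⟨b, hbA, hb⟩ := hfA i J hiZ hiC σ hσ' _ hrep
    have h11 : algebraMap B.functionField M
        (mon (Projectivization.mk B.functionField x hx0).rep J /
          eval (Projectivization.mk B.functionField x hx0).rep (F i)) =
        algebraMap B.functionField M b * algebraMap B.functionField M (f i J)⁻¹ := by
      rw [← map_mul, ← hb]
      congr 1
      have := hf0 i J
      field_simp
    have h12 : algebraMap B.functionField M
        (mon (Projectivization.mk B.functionField x hx0).rep J /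
          eval (Projectivization.mk B.functionField x hx0).rep (F i)) ∈ A' := by
      rw [h11]
      exact mul_mem (hAA' b hbA) (hfA' i J)
    exact isIntegral_algebraMap (x := (⟨_, h12⟩ : A'))

end Pool.Agent.Helper8.LG
end
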