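import Pool.Agent.Helper12.LVM.C02
import Pool.Agent.Helper12.LVM.C06
import Pool.Agent.Helper12.LVM.C07
import Pool.Agent.Helper12.LVM.C08

/- Helper12.LVF.H8.LV.Rigid -/
section
/-! # LV-RIGID: rigidity along constants -/

set_option autoImplicit false

namespace Pool.Agent.Helper8.LV

open Pool.Agent.Helper8.LG

open scoped BigOperators

section RigidAux

variable {E : Type*} [Field E]

/-- One side: `G x_l` is integral over `E₀[t]`. -/
theorem rg_side [CharZero E] {σ ι τ P : Type*} [Fintype σ] [DecidableEq σ] [Fintype ι]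
    [DecidableEq ι] [Fintype τ] (d q e m : ι → ℕ) (a : (i : ι) → Sym σ (d i) → E)
    (D : P → Derivation ℤ E E) (θ : τ → P → E) (Z C : Finset ι) (w cc : ℕ)
    (hnum : NumV d q e m Z C w cc)
    (x : σ → E) (y : ι → E) (hU : ∀ i ∉ Z, form (a i) x ≠ 0)
    (hroot : ∀ i ∈ C, y i ^ m i = form (a i) x)
    (E₀ : Subfield E) (t : E) (ht : Transcendental E₀ t)
    (hfin : FiniteDimensional (Subfield.closure ((E₀ : Set E) ∪ {t})) E)
    (hstab : ∀ p, ∀ f ∈ intCl E₀ t, D p f ∈ intCl E₀ t)
    (ha : ∀ i J, a i J ∈ E₀) (hθ : ∀ j s, θ j s ∈ E₀) {n : ℕ} (c : Fin n → E) (hDc : ∀ p r, D p (c r) = 0)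
    (hc : ∀ O : ValuationSubring E, (∀ f ∈ E₀, f ∈ O) → (∀ r, c r ∈ O) →
      ∀ i ∉ Z, i ∉ C → ∀ J : Sym σ (d i), mon x J / form (a i) x ∈ O)
    (G : E) (hG : KeyV d e a D θ Z (uu C y) x G) (l : σ) : G * x l ∈ intCl E₀ t := by
  obtain ⟨h1, h2⟩ := intCl_dedekind E₀ t ht hfin
  haveI := h1
  haveI := h2
  have hE₀R : ∀ f ∈ E₀, f ∈ intCl E₀ t := fun f hf =>
    rg_mem_intCl E₀ t (Subring.subset_closure (Or.inl hf))
  have hQ : ∀ n : ℕ, n ≠ 0 → ((n : E))⁻¹ ∈ intCl E₀ t := fun n _ =>
    hE₀R _ (inv_mem (natCast_mem E₀ n))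
  apply mem_of (intCl E₀ t)
  intro O hO
  have hE₀O : ∀ f ∈ E₀, f ∈ O := fun f hf => hO (hE₀R f hf)
  have hbdd : Bdd D 1 O := bdd_of (intCl E₀ t) D 1 (one_mem _)
    (fun p f hf => by rw [one_mul]; exact hstab p f hf) O hO
  have hDO : ∀ p, ∀ f ∈ O, D p f ∈ O := fun p f hf => by
    have := hbdd.2 p f hf
    rwa [one_mul] at this
  have hrow : ∀ i ∉ Z, RowBdd D 1 O x (form (a i)) (uu C y i) (e i) := by
    intro i hiZ j hj hprim
    have hform := rg_form_div (a i) x (x j)
    have hform0 : form (a i) (fun l => x l / x j) ≠ 0 := by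
      rw [hform]
      exact div_ne_zero (hU i hiZ) (pow_ne_zero _ hj)
    have hformO : form (a i) (fun l => x l / x j) ∈ O := by
      unfold form
      refine sum_mem fun J _ => mul_mem (hE₀O _ (ha i J)) ?_
      unfold mon
      refine multiset_prod_mem _ fun z hz => ?_
      obtain ⟨l, -, rfl⟩ := Multiset.mem_map.1 hz
      exact hprim l
    simp only [one_mul]
    by_cases hiC : i ∈ C
    · have hu : uu C y i = y i := by unfold uu; rw [if_pos hiC]
      rw [hu]
      have hdeg := hnum.deg i hiC
      have hm : 0 < m i := by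
        rcases Nat.eq_zero_or_pos (m i) with h | h
        · have := hnum.pos i
          rw [hdeg, h, zero_mul] at this
          exact absurd this (lt_irrefl 0)
        · exact h
      have hyt : (y i / x j ^ e i) ^ m i = form (a i) (fun l => x l / x j) := by
        have h3 : x j ^ (e i * m i) = x j ^ d i := by rw [hdeg, mul_comm]
        rw [hform, div_pow, hroot i hiC, ← pow_mul, h3]
      have hytO : y i / x j ^ e i ∈ O := rg_mem_of_pow O hm (by rw [hyt]; exact hformO)
      refine ⟨hytO, fun p => ?_⟩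
      have hyt0 : y i / x j ^ e i ≠ 0 := by
        intro h
        rw [h, zero_pow hm.ne'] at hyt
        exact hform0 hyt.symm
      obtain ⟨r, hr⟩ : ∃ r, m i = r + 1 := ⟨m i - 1, by omega⟩
      have hder : y i / x j ^ e i * (D p (form (a i) fun l => x l / x j) /
          form (a i) fun l => x l / x j) = (m i : E) * D p (y i / x j ^ e i) := by
        rw [← hyt, hr]
        exact rg_log (D p) hyt0 r
      rw [hder]
      exact mul_mem (natCast_mem O _) (hDO p _ hytO)
    · have hu : uu C y i = 1 := by unfold uu; rw [if_neg hiC]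
      rw [hu, hnum.e0 i hiC, pow_zero, div_one]
      refine ⟨one_mem O, fun p => ?_⟩
      rw [one_mul]
      by_cases hcO : ∀ r, c r ∈ O
      · have h3 := hc O hE₀O hcO i hiZ hiC (Sym.replicate (d i) j)
        rw [rg_mon_replicate] at h3
        have h4 : x j ^ d i / form (a i) x = (form (a i) fun l => x l / x j)⁻¹ := by
          rw [hform, inv_div]
        rw [h4] at h3
        rw [div_eq_mul_inv]
        exact mul_mem (hDO p _ hformO) h3
      · push Not at hcO
        obtain ⟨r, hr⟩ := hcO
        have hr0 : c r ≠ 0 := by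
          intro h
          rw [h] at hr
          exact hr (zero_mem O)
        have h3 := log_of (intCl E₀ t) hQ D O hO 1 hbdd (c r) hr0 (Or.inl hr)
          (fun p => by rw [hDc, zero_div, mul_zero]; exact zero_mem O) _ hform0 p
        rwa [one_mul] at h3
  have h5 := hG O 1 hbdd (fun j s => by rw [one_mul]; exact hE₀O _ (hθ j s)) hrow l
  rwa [one_pow, one_mul] at h5

end RigidAux

theorem rigid {k L E : Type*} [Field k] [Field L] [Field E] [CharZero E] [Algebra k L]
    [Algebra L E] [Algebra k E] [IsScalarTower k L E] {n : ℕ} (c : Fin n → E)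
    (hgen : IntermediateField.adjoin L (Set.range c) = ⊤) (B : Set (Fin n))
    (hB : AlgebraicIndependent L (fun b : B => c b))
    (halg : ∀ r, IsAlgebraic (IntermediateField.adjoin k (c '' B)) (c r))
    {σ ι τ : Type*} [Fintype σ] [DecidableEq σ] [Fintype ι] [DecidableEq ι] [Fintype τ]
    (d b q e m : ι → ℕ) (a A : (i : ι) → Sym σ (d i) → L) (p : (i : ι) → Sym σ (b i) → L)
    (h : (i : ι) → Sym σ (q i) → L) (hF : Fam d b q a A p h) (hA : Over k A) (hp : Over k p)
    (D : Ix σ q → Derivation ℤ E E) (jj : τ → Ix σ q) (θ : τ → Ix σ q → L)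
    (hD : Dual q (fun i J => algebraMap L E (h i J)) D jj fun j s => algebraMap L E (θ j s))
    (hDL : ∀ p b, ∃ b', D p (algebraMap L E b) = algebraMap L E b')
    (hDk : ∀ p (b : k), D p (algebraMap k E b) = 0)
    (hDc : ∀ p r, D p (c r) = 0)
    (Z C : Finset ι) (w : ℕ) (hnum : NumV d q e m Z C w (Fintype.card τ))
    (x : σ → E) (y : ι → E) (i₀ : σ) (hx : x i₀ = 1)
    (hZ : ∀ i ∈ Z, form (fun J => algebraMap L E (a i J)) x = 0)
    (hU : ∀ i ∉ Z, form (fun J => algebraMap L E (a i J)) x ≠ 0)
    (hP : ∀ i, form (fun J => algebraMap L E (p i J)) x ≠ 0)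
    (hint : ∀ i ∉ Z, i ∉ C → ∀ J : Sym σ (d i),
      mon x J / form (fun J => algebraMap L E (a i J)) x ∈ Algebra.adjoin L (Set.range c))
    (hroot : ∀ i ∈ C, y i ^ m i = form (fun J => algebraMap L E (a i J)) x)
    (hm : MinorsVanish D x w) :
    ∀ l, IsAlgebraic L (x l) := by
  classical
  -- the key lemma
  have hu : ∀ i ∉ Z, uu C y i ≠ 0 := by
    intro i hiZ
    unfold uu
    split_ifs with hiC
    · intro h
      have hdeg := hnum.deg i hiC
      have hm0 : m i ≠ 0 := by
        intro h'
        have := hnum.pos i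
        rw [hdeg, h', zero_mul] at this
        exact absurd this (lt_irrefl 0)
      have h1 := hroot i hiC
      rw [h, zero_pow hm0] at h1
      exact hU i hiZ h1.symm
    · exact one_ne_zero
  have hmov : Mov d b q (fun i J => algebraMap L E (a i J)) (fun i J => algebraMap L E (A i J))
      (fun i J => algebraMap L E (p i J)) (fun i J => algebraMap L E (h i J)) D :=
    (hF.map (algebraMap L E)).mov (k := k) hA.map hp.map D hDk
  obtain ⟨G, hG0, hG⟩ := key d b q e hnum.posq (fun i J => algebraMap L E (a i J))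
    (fun i J => algebraMap L E (A i J)) (fun i J => algebraMap L E (p i J))
    (fun i J => algebraMap L E (h i J)) D jj
    (fun j s => algebraMap L E (θ j s)) hD hmov Z x i₀ hx
    hZ hU hP (uu C y) hu w hnum.ineq hm
  -- the field `F = E₀(t)`
  have hrange : (Set.range fun b : B => c b) = c '' B := by
    ext z
    constructor
    · rintro ⟨b, rfl⟩
      exact ⟨b, b.2, rfl⟩
    · rintro ⟨b, hb, rfl⟩
      exact ⟨⟨b, hb⟩, rfl⟩
  have halgF : ∀ (F : Subfield E), (∀ b : k, algebraMap k E b ∈ F) → (∀ b ∈ B, c b ∈ F) →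
      ∀ r, IsAlgebraic F (c r) := by
    intro F hkF hBF r
    refine rg_alg (R₁ := IntermediateField.adjoin k (c '' B)) (fun s => ?_) (halg r)
    have h1 : (IntermediateField.adjoin k (c '' B)).toSubfield ≤ F := by
      rw [IntermediateField.adjoin_toSubfield, Subfield.closure_le]
      rintro z (⟨b, rfl⟩ | ⟨b, hb, rfl⟩)
      · exact hkF b
      · exact hBF b hb
    exact ⟨⟨s, h1 s.2⟩, rfl⟩
  have hfinF : ∀ (F : Subfield E), (∀ b : L, algebraMap L E b ∈ F) → (∀ b ∈ B, c b ∈ F) →
      FiniteDimensional F E := by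
    intro F hLF hBF
    have hkF : ∀ b : k, algebraMap k E b ∈ F := fun b => by
      rw [IsScalarTower.algebraMap_apply k L E]
      exact hLF _
    have h1 : FiniteDimensional F (IntermediateField.adjoin F (Set.range c)) :=
      IntermediateField.finiteDimensional_adjoin (by
        rintro z ⟨r, rfl⟩
        exact (halgF F hkF hBF r).isIntegral)
    have h2 : IntermediateField.adjoin F (Set.range c) = ⊤ := by
      rw [eq_top_iff]
      intro z _
      have hz : z ∈ IntermediateField.adjoin L (Set.range c) := by rw [hgen]; trivial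
      have h3 : (IntermediateField.adjoin L (Set.range c)).toSubfield ≤
          (IntermediateField.adjoin F (Set.range c)).toSubfield := by
        rw [IntermediateField.adjoin_toSubfield, Subfield.closure_le]
        rintro z (⟨b, rfl⟩ | hz)
        · exact (IntermediateField.adjoin F (Set.range c)).algebraMap_mem ⟨_, hLF b⟩
        · exact IntermediateField.subset_adjoin F _ hz
      exact h3 hz
    rw [h2] at h1
    exact Module.Finite.equiv (IntermediateField.topEquiv (F := F) (E := E)).toLinearEquiv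
  intro l
  refine exchange (fun b : B => c b) hB (x l) ?_ fun b => ?_
  · -- algebraic over `L(c_B)`
    have h1 := hfinF (IntermediateField.adjoin L (Set.range fun b : B => c b)).toSubfield
      (fun b => (IntermediateField.adjoin L (Set.range fun b : B => c b)).algebraMap_mem b)
      (fun b hb => IntermediateField.subset_adjoin L _ ⟨⟨b, hb⟩, rfl⟩)
    have h2 : IsAlgebraic (IntermediateField.adjoin L (Set.range fun b : B => c b)).toSubfield
        (x l) := Algebra.IsAlgebraic.isAlgebraic (x l)
    exact rg_alg (fun s => ⟨⟨s, s.2⟩, rfl⟩) h2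
  · -- algebraic over `L(c_(B - b))`
    set S₀ : Set E := (fun b : B => c b) '' {b}ᶜ with hS₀
    set E₀ : Subfield E := (IntermediateField.adjoin L S₀).toSubfield with hE₀
    have hE₀cl : E₀ = Subfield.closure (Set.range (algebraMap L E) ∪ S₀) :=
      IntermediateField.adjoin_toSubfield L S₀
    have hLE₀ : ∀ z : L, algebraMap L E z ∈ E₀ := fun z =>
      (IntermediateField.adjoin L S₀).algebraMap_mem z
    have hSE₀ : ∀ z ∈ S₀, z ∈ E₀ := fun z hz => IntermediateField.subset_adjoin L _ hz
    have hcE₀ : ∀ b' ∈ B, b' ≠ b → c b' ∈ E₀ := fun b' hb' hne => by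
      refine hSE₀ _ ⟨⟨b', hb'⟩, ?_, rfl⟩
      intro h
      apply hne
      rw [Set.mem_singleton_iff] at h
      rw [← h]
    have htr : Transcendental E₀ (c b) := by
      have h1 : Transcendental (Algebra.adjoin L S₀) (c b) :=
        hB.transcendental_adjoin (s := {b}ᶜ) (i := b) (fun h => h rfl)
      have h2 := (IntermediateField.transcendental_adjoin_iff (F := L) (s := S₀)).2 h1
      intro h3
      exact h2 (rg_alg (fun s => ⟨⟨s, s.2⟩, rfl⟩) h3)
    -- the derivations
    have hDE₀ : ∀ p, ∀ f ∈ E₀, D p f ∈ E₀ := by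
      intro p
      rw [hE₀cl]
      apply rg_stable
      rintro f (⟨z, rfl⟩ | hf)
      · obtain ⟨z', hz'⟩ := hDL p z
        rw [hz']
        exact Subfield.subset_closure (Or.inl ⟨z', rfl⟩)
      · obtain ⟨b', -, rfl⟩ := hf
        show D p (c b') ∈ _
        rw [hDc]
        exact zero_mem _
    set k₀ : Subfield E := (IntermediateField.adjoin k S₀).toSubfield with hk₀
    have hk₀cl : k₀ = Subfield.closure (Set.range (algebraMap k E) ∪ S₀) :=
      IntermediateField.adjoin_toSubfield k S₀
    have hk₀E₀ : k₀ ≤ E₀ := by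
      rw [hk₀cl, Subfield.closure_le]
      rintro z (⟨z, rfl⟩ | hz)
      · rw [IsScalarTower.algebraMap_apply k L E]
        exact hLE₀ _
      · exact hSE₀ z hz
    have hDk₀ : ∀ p, ∀ f ∈ k₀, D p f = 0 := by
      intro p
      rw [hk₀cl]
      apply rg_kill
      rintro f (⟨z, rfl⟩ | hf)
      · exact hDk p z
      · obtain ⟨b', -, rfl⟩ := hf
        exact hDc p b'
    -- both sides
    have hside : ∀ t : E, (t = c b ∨ t = (c b)⁻¹) → Transcendental E₀ t ∧
        FiniteDimensional (Subfield.closure ((E₀ : Set E) ∪ {t})) E ∧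
        ∀ l, G * x l ∈ intCl E₀ t := by
      intro t ht
      have htc : c b ∈ Subfield.closure ({t} : Set E) := by
        rcases ht with h | h
        · rw [← h]
          exact Subfield.subset_closure rfl
        · have h1 : c b = t⁻¹ := by rw [h, inv_inv]
          rw [h1]
          exact inv_mem (Subfield.subset_closure rfl)
      have htt : Transcendental E₀ t := by
        rcases ht with h | h
        · rw [h]
          exact htr
        · rw [h]
          intro h1
          exact htr (by simpa using h1.inv)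
      have hF1 : ∀ z : L, algebraMap L E z ∈ Subfield.closure ((E₀ : Set E) ∪ {t}) := fun z =>
        Subfield.subset_closure (Or.inl (hLE₀ z))
      have hF2 : ∀ b' ∈ B, c b' ∈ Subfield.closure ((E₀ : Set E) ∪ {t}) := by
        intro b' hb'
        by_cases hne : b' = b
        · rw [hne]
          exact Subfield.closure_mono (Set.subset_union_right) htc
        · exact Subfield.subset_closure (Or.inl (hcE₀ b' hb' hne))
      have hfin := hfinF _ hF1 hF2
      refine ⟨htt, hfin, ?_⟩
      have hDt : ∀ p, D p t = 0 := by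
        intro p
        rcases ht with h | h
        · rw [h]
          exact hDc p b
        · rw [h, (D p).leibniz_inv, hDc, smul_zero]
      have hstab := intCl_stable E₀ t D hDE₀ hDt k₀ hk₀E₀ hDk₀ (Set.range c)
        (Set.finite_range c) (by rintro p z ⟨r, rfl⟩; exact hDc p r) (by
          rintro z ⟨r, rfl⟩
          refine halgF _ (fun z => ?_) (fun b' hb' => ?_) r
          · exact Subfield.subset_closure
              (Or.inl ((IntermediateField.adjoin k S₀).algebraMap_mem z))
          · by_cases hne : b' = b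
            · rw [hne]
              exact Subfield.closure_mono (Set.subset_union_right) htc
            · refine Subfield.subset_closure (Or.inl ?_)
              refine IntermediateField.subset_adjoin k S₀ ⟨⟨b', hb'⟩, ?_, rfl⟩
              intro h
              apply hne
              rw [Set.mem_singleton_iff] at h
              rw [← h]) (by
          rw [eq_top_iff]
          intro z _
          have hz : z ∈ (IntermediateField.adjoin L (Set.range c)).toSubfield := by
            rw [hgen]; trivial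
          rw [IntermediateField.adjoin_toSubfield] at hz
          refine Subfield.closure_mono ?_ hz
          rintro z (⟨z, rfl⟩ | hz)
          · exact Or.inl (Or.inl (hLE₀ z))
          · exact Or.inr hz)
      intro l
      refine rg_side d q e m (fun i J => algebraMap L E (a i J)) D
        (fun j s => algebraMap L E (θ j s)) Z C w _ hnum x y hU hroot E₀ t
        htt hfin hstab (fun i J => hLE₀ _) (fun j s => hLE₀ _) c hDc ?_ G hG l
      intro O hO1 hO2 i hiZ hiC J
      have h1 := hint i hiZ hiC J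
      have h2 : (Algebra.adjoin L (Set.range c)).toSubring ≤ O.toSubring := by
        rw [Algebra.adjoin_eq_ring_closure, Subring.closure_le]
        rintro z (⟨z, rfl⟩ | ⟨r, rfl⟩)
        · exact hO1 _ (hLE₀ z)
        · exact hO2 r
      exact h2 h1
    obtain ⟨ht1, hfin1, h1⟩ := hside (c b) (Or.inl rfl)
    obtain ⟨-, -, h2⟩ := hside (c b)⁻¹ (Or.inr rfl)
    have hGx : ∀ l, IsAlgebraic E₀ (G * x l) := fun l =>
      algebraic_of_mem E₀ (c b) ht1 hfin1 (G * x l) (h1 l) (h2 l)
    have hGa : IsAlgebraic E₀ G := by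
      have := hGx i₀
      rwa [hx, mul_one] at this
    have hxl : IsAlgebraic E₀ (x l) := by
      have h3 : x l = (G * x l) * G⁻¹ := by
        field_simp
      rw [h3]
      exact (hGx l).mul hGa.inv
    exact rg_alg (fun s => ⟨⟨s, s.2⟩, rfl⟩) hxl

end Pool.Agent.Helper8.LV
end

/- Helper12.LVF.H8.LV.UltraCore -/
section
/-! # LV-ULTRA: the ultrapower argument inside a large field -/

set_option autoImplicit false

namespace Pool.Agent.Helper8.LV

open Pool.Agent.Helper8.LG

open scoped BigOperators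

theorem ul_core {k L Ω : Type*} [Field k] [Field L] [Field Ω] [CharZero Ω] [Algebra k L]
    [Algebra L Ω] [Algebra k Ω] [IsScalarTower k L Ω]
    (K : Subring Ω) (hkK : ∀ b : k, algebraMap k Ω b ∈ K) (hLD : UlDisj k (L := L) K)
    {n : ℕ} (c : Fin n → Ω) (hcK : ∀ r, c r ∈ K)
    {σ ι τ : Type*} [Fintype σ] [DecidableEq σ] [Fintype ι] [DecidableEq ι] [Fintype τ]
    (d b q e m : ι → ℕ) (a A : (i : ι) → Sym σ (d i) → L) (ap : (i : ι) → Sym σ (b i) → L)
    (h : (i : ι) → Sym σ (q i) → L) (hFam : Fam d b q a A ap h) (hA : Over k A) (hap : Over k ap)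
    (D : Ix σ q → Derivation ℤ Ω Ω) (jj : τ → Ix σ q) (θ : τ → Ix σ q → L)
    (hD : Dual q (fun i J => algebraMap L Ω (h i J)) D jj fun j s => algebraMap L Ω (θ j s))
    (hDL : ∀ p b, ∃ b', D p (algebraMap L Ω b) = algebraMap L Ω b')
    (hDk : ∀ p (b : k), D p (algebraMap k Ω b) = 0)
    (hDc : ∀ p r, D p (c r) = 0)
    (Z C : Finset ι) (w : ℕ) (hnum : NumV d q e m Z C w (Fintype.card τ))
    (x : σ → Ω) (y : ι → Ω) (i₀ : σ) (hx : x i₀ = 1) (G : Ω) (hG : G ≠ 0)
    (hGx : ∀ l, G * x l ∈ Algebra.adjoin L (Set.range c))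
    (hZ : ∀ i ∈ Z, form (fun J => algebraMap L Ω (a i J)) x = 0)
    (hU : ∀ i ∉ Z, form (fun J => algebraMap L Ω (a i J)) x ≠ 0)
    (hP : ∀ i, form (fun J => algebraMap L Ω (ap i J)) x ≠ 0)
    (hint : ∀ i ∉ Z, i ∉ C → ∀ J : Sym σ (d i),
      mon x J / form (fun J => algebraMap L Ω (a i J)) x ∈ Algebra.adjoin L (Set.range c))
    (hroot : ∀ i ∈ C, y i ^ m i = form (fun J => algebraMap L Ω (a i J)) x)
    (hGy : ∀ i ∈ C, G ^ e i * y i ∈ Algebra.adjoin L (Set.range c))
    (hm : MinorsVanish D x w) :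
    ∀ l, IsAlgebraic L (x l) := by
  classical
  set F : IntermediateField L Ω := IntermediateField.adjoin L (Set.range c) with hF
  have hsub : ∀ z ∈ Algebra.adjoin L (Set.range c), z ∈ F := fun z hz =>
    IntermediateField.algebra_adjoin_le_adjoin L _ hz
  have hFcl : F.toSubfield = Subfield.closure (Set.range (algebraMap L Ω) ∪ Set.range c) :=
    IntermediateField.adjoin_toSubfield L _
  -- the generators
  set c' : Fin n → F := fun r => ⟨c r, IntermediateField.subset_adjoin L _ ⟨r, rfl⟩⟩ with hc'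
  have himg : ∀ B : Set (Fin n), (F.val : F → Ω) '' (c' '' B) = c '' B := by
    intro B
    rw [← Set.image_comp]
    rfl
  have hrange : (F.val : F → Ω) '' (Set.range c') = Set.range c := by
    rw [← Set.image_univ, himg, Set.image_univ]
  have hgen : IntermediateField.adjoin L (Set.range c') = ⊤ := by
    apply IntermediateField.lift_injective F
    rw [IntermediateField.lift_adjoin, IntermediateField.lift_top]
    have h1 : (Subtype.val : F → Ω) '' (Set.range c') = Set.range c := hrange
    rw [h1]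
  obtain ⟨B, hB1, hB2⟩ := ul_basis (k := k) c'
  have hB3 : AlgebraicIndependent k (fun b : B => c b) :=
    (AlgHom.algebraicIndependent_iff (x := fun b : B => c' b) ((F.val).restrictScalars k)
      Subtype.val_injective).2 hB1
  have hB4 : AlgebraicIndependent L (fun b : B => c b) :=
    ul_algInd K hkK hLD _ (fun b => hcK b) hB3
  have hB5 : AlgebraicIndependent L (fun b : B => c' b) :=
    (AlgHom.algebraicIndependent_iff (x := fun b : B => c' b) F.val Subtype.val_injective).1 hB4
  have halg : ∀ r, IsAlgebraic (IntermediateField.adjoin k (c' '' B)) (c' r) := by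
    intro r
    have h1 := hB2 r
    obtain ⟨p, hp0, hp⟩ := h1
    set φ : Algebra.adjoin k (c' '' B) →+* IntermediateField.adjoin k (c' '' B) :=
      { toFun := fun z => ⟨z, IntermediateField.algebra_adjoin_le_adjoin k _ z.2⟩
        map_one' := rfl
        map_mul' := fun _ _ => rfl
        map_zero' := rfl
        map_add' := fun _ _ => rfl } with hφ
    have hφi : Function.Injective φ := by
      intro u v huv
      apply Subtype.ext
      exact congrArg (fun z : IntermediateField.adjoin k (c' '' B) => (z : F)) huv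
    refine ⟨p.map φ, ?_, ?_⟩
    · rwa [Ne, Polynomial.map_eq_zero_iff hφi]
    · rw [Polynomial.aeval_def, Polynomial.eval₂_map]
      exact hp
  -- the derivations
  have hst : ∀ p, ∀ f ∈ F, D p f ∈ F := by
    intro p f hf
    have hf' : f ∈ F.toSubfield := hf
    rw [hFcl] at hf'
    have h1 := rg_stable (D p) (Set.range (algebraMap L Ω) ∪ Set.range c) ?_ f hf'
    · rw [← hFcl] at h1
      exact h1
    · rintro g (⟨z, rfl⟩ | ⟨r, rfl⟩)
      · obtain ⟨z', hz'⟩ := hDL p z
        rw [hz']
        exact Subfield.subset_closure (Or.inl ⟨z', rfl⟩)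
      · rw [hDc]
        exact zero_mem _
  set δ : Ix σ q → Derivation ℤ F F := fun p =>
    Derivation.mk' (AddMonoidHom.toIntLinearMap
      { toFun := fun f => (⟨D p f, hst p f f.2⟩ : F)
        map_zero' := Subtype.ext (map_zero (D p))
        map_add' := fun f g => Subtype.ext (map_add (D p) (f : Ω) g) })
      (fun f g => Subtype.ext ((D p).leibniz (f : Ω) g)) with hδ
  have hδv : ∀ p (f : F), ((δ p f : F) : Ω) = D p f := fun p f => rfl
  have hamap : ∀ b : L, ((algebraMap L F b : F) : Ω) = algebraMap L Ω b := fun b => rfl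
  -- the point
  have hxF : ∀ l, x l ∈ F := by
    intro l
    have h1 : G ∈ F := by
      have := hsub _ (hGx i₀)
      rwa [hx, mul_one] at this
    have h2 : x l = G * x l / G := by field_simp
    rw [h2]
    exact div_mem (hsub _ (hGx l)) h1
  have hyF : ∀ i ∈ C, y i ∈ F := by
    intro i hi
    have h1 : G ∈ F := by
      have := hsub _ (hGx i₀)
      rwa [hx, mul_one] at this
    have h2 : y i = G ^ e i * y i / G ^ e i := by (clear * - hG; field_simp)
    rw [h2]
    exact div_mem (hsub _ (hGy i hi)) (pow_mem h1 _)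
  set x' : σ → F := fun l => ⟨x l, hxF l⟩ with hx'
  set y' : ι → F := fun i => if hi : i ∈ C then ⟨y i, hyF i hi⟩ else 0 with hy'
  have hform : ∀ i, ((form (fun J => algebraMap L F (a i J)) x' : F) : Ω) =
      form (fun J => algebraMap L Ω (a i J)) x := fun i =>
    ul_map_form (F.val : F →+* Ω) _ _
  have hmon : ∀ {r : ℕ} (J : Sym σ r), ((mon x' J : F) : Ω) = mon x J := fun J =>
    ul_map_mon (F.val : F →+* Ω) _ _
  have hcz : CharZero F := inferInstance
  intro l
  have key := rigid (k := k) (L := L) (E := F) c' hgen B hB5 halg d b q e m a A ap h hFam hA hap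
    δ jj θ ?_ ?_ ?_ ?_ Z C w hnum x' y' i₀ (Subtype.ext hx) ?_ ?_ ?_ ?_ ?_ ?_ l
  · exact key.algHom F.val
  · intro s q
    apply Subtype.ext
    have h1 := hD s q
    rw [hδv, hamap, h1]
    push_cast
    congr 1
    · split_ifs <;> rfl
    · refine Finset.sum_congr rfl fun j _ => ?_
      split_ifs <;> rfl
  · intro p b
    obtain ⟨b', hb'⟩ := hDL p b
    exact ⟨b', Subtype.ext hb'⟩
  · intro p b
    exact Subtype.ext (hDk p b)
  · intro p r
    exact Subtype.ext (hDc p r)
  · intro i hi
    exact Subtype.ext ((hform i).trans (hZ i hi))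
  · intro i hi h0
    apply hU i hi
    rw [← hform i, h0]
    rfl
  · intro i h0
    apply hP i
    have h1 : ((form (fun J => algebraMap L F (ap i J)) x' : F) : Ω) =
      form (fun J => algebraMap L Ω (ap i J)) x := ul_map_form (F.val : F →+* Ω) _ _
    rw [← h1, h0]
    rfl
  · intro i hi1 hi2 J
    have h1 := hint i hi1 hi2 J
    rw [← hrange, ← AlgHom.map_adjoin] at h1
    obtain ⟨z, hz1, hz2⟩ := h1
    have h2 : mon x' J / form (fun J => algebraMap L F (a i J)) x' = z := by
      apply Subtype.ext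
      have h3 : (z : Ω) = mon x J / form (fun J => algebraMap L Ω (a i J)) x := hz2
      rw [h3]
      push_cast
      rw [hmon, hform]
    rw [h2]
    exact hz1
  · intro i hi
    apply Subtype.ext
    have h1 : y' i = ⟨y i, hyF i hi⟩ := by rw [hy']; exact dif_pos hi
    rw [h1, hform i, ← hroot i hi]
    rfl
  · intro r s
    apply Subtype.ext
    have h1 := hm r s
    have h2 := RingHom.map_det (F.val : F →+* Ω) (Matrix.of fun s' t => col δ x' (s t) (r s'))
    have h3 : (F.val : F →+* Ω).mapMatrix (Matrix.of fun s' t => col δ x' (s t) (r s')) =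
        Matrix.of fun s' t => col D x (s t) (r s') := by
      ext s' t
      simp only [RingHom.mapMatrix_apply, Matrix.map_apply, Matrix.of_apply]
      rcases s t with _ | p
      · rfl
      · rfl
    rw [h3, h1] at h2
    exact h2

end Pool.Agent.Helper8.LV
end

/- Helper12.LVF.H8.LV.Ultra -/
section
/-! # LV-ULTRA: the ultrapower argument -/

set_option autoImplicit false

namespace Pool.Agent.Helper8.LV

open Pool.Agent.Helper8.LG

open scoped BigOperators

theorem ultra {k L : Type*} [Field k] [Field L] [CharZero L] [Algebra k L]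
    {σ ι τ : Type*} [Fintype σ] [DecidableEq σ] [Fintype ι] [DecidableEq ι] [Fintype τ]
    (d b q e m : ι → ℕ) (a aA : (i : ι) → Sym σ (d i) → L) (ap : (i : ι) → Sym σ (b i) → L)
    (ah : (i : ι) → Sym σ (q i) → L) (hFam : Fam d b q a aA ap ah) (hAk : Over k aA)
    (hpk : Over k ap)
    (D : Ix σ q → Derivation ℤ L L) (jj : τ → Ix σ q) (θ : τ → Ix σ q → L)
    (hD : Dual q ah D jj θ)
    (hDk : ∀ p (c : k), D p (algebraMap k L c) = 0)
    (Z C : Finset ι) (i₀ : σ) (w : ℕ) (hnum : NumV d q e m Z C w (Fintype.card τ))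
    (V : Submodule k L) [FiniteDimensional k V] (S : Set (σ → L))
    (hS : ∀ x ∈ S, x i₀ = 1 ∧ (∀ i ∈ Z, form (a i) x = 0) ∧ (∀ i ∉ Z, form (a i) x ≠ 0) ∧
      (∀ i, form (ap i) x ≠ 0) ∧ MinorsVanish D x w ∧ ∃ (y : ι → L) (G : L), G ≠ 0 ∧ (∀ l, G * x l ∈ V) ∧
        (∀ i ∉ Z, i ∉ C → ∀ J : Sym σ (d i), mon x J / form (a i) x ∈ V) ∧
        (∀ i ∈ C, y i ^ m i = form (a i) x) ∧ ∀ i ∈ C, G ^ e i * y i ∈ V) :
    S.Finite := by
  classical
  by_contra hinf
  rw [← Set.Infinite] at hinf
  set X : ℕ → σ → L := fun m => (hinf.natEmbedding S m : σ → L) with hX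
  have hXS : ∀ m, X m ∈ S := fun m => (hinf.natEmbedding S m).2
  have hXi : Function.Injective X := fun u v huv =>
    (hinf.natEmbedding S).injective (Subtype.ext huv)
  have hS' := fun m => hS (X m) (hXS m)
  choose hX0 hXZ hXU hXP hXm Y G hG0 hGx hint hroot hGy using hS'
  obtain ⟨Ω, instΩ, Q, hQ, hker⟩ := ul_exists L
  let algLΩ : Algebra L Ω := (Q.comp (Pi.constRingHom ℕ L)).toAlgebra
  let algkΩ : Algebra k Ω := ((algebraMap L Ω).comp (algebraMap k L)).toAlgebra
  have : IsScalarTower k L Ω := IsScalarTower.of_algebraMap_eq fun _ => rfl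
  have : CharZero Ω := charZero_of_injective_algebraMap (algebraMap L Ω).injective
  have halgL : ∀ b : L, algebraMap L Ω b = Q fun _ => b := fun _ => rfl
  have halgk : ∀ b : k, algebraMap k Ω b = Q fun _ => algebraMap k L b := fun _ => rfl
  -- the constants
  set K : Subring Ω := (Q.comp ((algebraMap k L).compLeft ℕ)).range with hK
  have hQK : ∀ g : ℕ → k, Q (fun m => algebraMap k L (g m)) ∈ K := fun g => ⟨g, rfl⟩
  have hLD : UlDisj k (L := L) K := by
    intro J hJ T z hz hsum
    choose g hg using hz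
    have hg' : ∀ b, Q (fun m => algebraMap k L (g b m)) = z b := fun b => hg b
    have h1 := ul_disj Q hker J hJ T g (by
      rw [← hsum]
      exact Finset.sum_congr rfl fun b _ => by rw [hg', halgL])
    intro b hb
    rw [← hg']
    exact h1 b hb
  -- the sequences
  set bV := Module.finBasis k V with hbV
  set r := Module.finrank k V with hr
  set H : Type _ := σ ⊕ (Ix σ d) ⊕ ι with hH
  set h : H → ℕ → L := fun η m' => Sum.elim (fun l => G m' * X m' l)
    (Sum.elim (fun p : Ix σ d => if p.1 ∉ Z ∧ p.1 ∉ C then mon (X m') p.2 / form (a p.1) (X m')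
      else 0) (fun i => if i ∈ C then G m' ^ e i * Y m' i else 0)) η with hh
  have hhV : ∀ η m', h η m' ∈ V := by
    rintro (l | p | i) m'
    · exact hGx m' l
    · show (if p.1 ∉ Z ∧ p.1 ∉ C then mon (X m') p.2 / form (a p.1) (X m') else 0) ∈ V
      split_ifs with hp
      · exact hint m' p.1 hp.1 hp.2 p.2
      · exact V.zero_mem
    · show (if i ∈ C then G m' ^ e i * Y m' i else 0) ∈ V
      split_ifs with hi
      · exact hGy m' i hi
      · exact V.zero_mem
  set c₀ : H × Fin r → Ω := fun ηj => Q fun m' =>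
    algebraMap k L (bV.repr ⟨h ηj.1 m', hhV ηj.1 m'⟩ ηj.2) with hc₀
  set eqv := (Fintype.equivFin (H × Fin r)).symm with heqv
  set c : Fin (Fintype.card (H × Fin r)) → Ω := fun s => c₀ (eqv s) with hc
  have hcmem : ∀ ηj, c₀ ηj ∈ Algebra.adjoin L (Set.range c) := fun ηj =>
    Algebra.subset_adjoin ⟨eqv.symm ηj, by rw [hc]; simp⟩
  have hhc : ∀ η, Q (h η) ∈ Algebra.adjoin L (Set.range c) := by
    intro η
    have h1 : Q (h η) = ∑ j, algebraMap L Ω (bV j : L) * c₀ (η, j) := by
      have h2 : h η = ∑ j, (fun _ => (bV j : L)) *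
          (fun m' => algebraMap k L (bV.repr ⟨h η m', hhV η m'⟩ j)) := by
        funext m'
        rw [Finset.sum_apply]
        have h3 := congrArg (Subtype.val : V → L) (bV.sum_repr ⟨h η m', hhV η m'⟩)
        rw [Submodule.coe_sum] at h3
        have h4 : ((⟨h η m', hhV η m'⟩ : V) : L) = h η m' := rfl
        rw [h4] at h3
        rw [← h3]
        refine Finset.sum_congr rfl fun j _ => ?_
        show _ = (bV j : L) * algebraMap k L (bV.repr ⟨h η m', hhV η m'⟩ j)
        rw [Submodule.coe_smul, Algebra.smul_def, mul_comm]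
      conv_lhs => rw [h2]
      rw [map_sum]
      exact Finset.sum_congr rfl fun j _ => by rw [map_mul]; rfl
    rw [h1]
    exact sum_mem fun j _ => mul_mem (Subalgebra.algebraMap_mem _ _) (hcmem _)
  -- the core
  have hform : ∀ i, form (fun J => algebraMap L Ω (a i J)) (fun l => Q fun m' => X m' l) =
      Q fun m' => form (a i) (X m') := fun i => (ul_Q_form Q (a i) X).symm
  have hcore := ul_core (k := k) (L := L) K (fun b => by rw [halgk]; exact hQK fun _ => b) hLD c
    (fun s => hQK _) d b q e m a aA ap ah hFam hAk hpk (fun p => ulDer Q hQ hker (D p)) jj θ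
    ?_ ?_ ?_ ?_ Z C w hnum
    (fun l => Q fun m' => X m' l) (fun i => Q fun m' => Y m' i) i₀ ?_ (Q G) ?_ ?_ ?_ ?_ ?_ ?_ ?_ ?_ ?_
  · -- conclusion
    choose p hp0 hp using hcore
    have h1 : ∀ l, ∀ᶠ m' in (Filter.hyperfilter ℕ : Filter ℕ), (p l).eval (X m' l) = 0 := by
      intro l
      rw [← hker (fun m' => (p l).eval (X m' l)), ul_Q_eval Q]
      exact hp l
    have h2 : ∀ᶠ m' in (Filter.hyperfilter ℕ : Filter ℕ), ∀ l, (p l).eval (X m' l) = 0 :=
      Filter.eventually_all.2 h1
    have h3 : ({m' : ℕ | ∀ l, (p l).eval (X m' l) = 0}).Finite := by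
      have h4 : (Set.pi Set.univ fun l => {z : L | (p l).eval z = 0}).Finite :=
        Set.Finite.pi fun l => by
          refine ((p l).roots.toFinset.finite_toSet).subset fun z hz => ?_
          rw [Finset.mem_coe, Multiset.mem_toFinset, Polynomial.mem_roots (hp0 l)]
          exact hz
      refine Set.Finite.of_finite_image (f := X) (h4.subset ?_) hXi.injOn
      rintro _ ⟨m', hm', rfl⟩ l -
      exact hm' l
    exact Filter.notMem_hyperfilter_of_finite h3 h2
  · intro s q
    show ulDer Q hQ hker (D s) (Q fun _ => ah q.1 q.2) = _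
    rw [ulDer_apply]
    have h1 := hD s q
    have h2 : (Q fun _ => D s (ah q.1 q.2)) = algebraMap L Ω (D s (ah q.1 q.2)) := rfl
    rw [h2, h1, map_sub, map_sum]
    congr 1
    · split_ifs
      · rw [map_one]
      · rw [map_zero]
    · refine Finset.sum_congr rfl fun j _ => ?_
      split_ifs
      · rfl
      · rw [map_zero]
  · intro p b
    exact ⟨D p b, ulDer_apply Q hQ hker (D p) _⟩
  · intro p b
    rw [halgk, ulDer_apply]
    rw [hker]
    exact Filter.Eventually.of_forall fun m' => hDk p b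
  · intro p s
    show ulDer Q hQ hker (D p) (Q _) = 0
    rw [ulDer_apply, hker]
    exact Filter.Eventually.of_forall fun m' => hDk p _
  · show Q (fun m' => X m' i₀) = 1
    have h1 : (fun m' => X m' i₀) = 1 := by
      funext m'
      exact hX0 m'
    rw [h1, map_one]
  · intro h0
    rw [hker] at h0
    obtain ⟨m', hm'⟩ := h0.exists
    exact hG0 m' hm'
  · intro l
    show Q G * Q (fun m' => X m' l) ∈ _
    rw [← map_mul]
    exact hhc (Sum.inl l)
  · intro i hi
    rw [hform, hker]
    exact Filter.Eventually.of_forall fun m' => hXZ m' i hi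
  · intro i hi h0
    rw [hform, hker] at h0
    obtain ⟨m', hm'⟩ := h0.exists
    exact hXU m' i hi hm'
  · intro i h0
    have h1 : form (fun J => algebraMap L Ω (ap i J)) (fun l => Q fun m' => X m' l) =
      Q fun m' => form (ap i) (X m') := (ul_Q_form Q (ap i) X).symm
    rw [h1, hker] at h0
    obtain ⟨m', hm'⟩ := h0.exists
    exact hXP m' i hm'
  · intro i hi1 hi2 J
    rw [hform, ← ul_Q_mon Q X J, ← ul_Q_div Q hker _ _ fun m' => hXU m' i hi1]
    have h1 := hhc (Sum.inr (Sum.inl ⟨i, J⟩))
    have h2 : h (Sum.inr (Sum.inl ⟨i, J⟩)) = fun m' => mon (X m') J / form (a i) (X m') := by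
      funext m'
      exact if_pos ⟨hi1, hi2⟩
    rw [h2] at h1
    exact h1
  · intro i hi
    show (Q fun m' => Y m' i) ^ m i = _
    rw [hform, ← map_pow]
    congr 1
    funext m'
    exact hroot m' i hi
  · intro i hi
    show Q G ^ e i * Q (fun m' => Y m' i) ∈ _
    rw [← map_pow, ← map_mul]
    have h1 := hhc (Sum.inr (Sum.inr i))
    have h2 : h (Sum.inr (Sum.inr i)) = G ^ e i * fun m' => Y m' i := by
      funext m'
      exact if_pos hi
    rw [h2] at h1
    exact h1
  · intro rr ss
    have h1 := RingHom.map_det Q (Matrix.of fun s t => fun m' => col D (X m') (ss t) (rr s))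
    have h2 : Q.mapMatrix (Matrix.of fun s t => fun m' => col D (X m') (ss t) (rr s)) =
        Matrix.of fun s t => col (fun p => ulDer Q hQ hker (D p)) (fun l => Q fun m' => X m' l)
          (ss t) (rr s) := by
      ext s t
      simp only [RingHom.mapMatrix_apply, Matrix.map_apply, Matrix.of_apply]
      rcases ss t with _ | p
      · rfl
      · exact (ulDer_apply Q hQ hker (D p) _).symm
    rw [← h2, ← h1, hker]
    refine Filter.Eventually.of_forall fun m' => ?_
    have h3 := RingHom.map_det (Pi.evalRingHom (fun _ : ℕ => L) m')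
      (Matrix.of fun s t => fun m' => col D (X m') (ss t) (rr s))
    have h4 : (Pi.evalRingHom (fun _ : ℕ => L) m').mapMatrix
        (Matrix.of fun s t => fun m' => col D (X m') (ss t) (rr s)) =
        Matrix.of fun s t => col D (X m') (ss t) (rr s) := rfl
    rw [h4, hXm m' rr ss] at h3
    exact h3

end Pool.Agent.Helper8.LV
end

/- Helper12.LVF.H8.LV.Final -/
section
/-! # LG-FINAL: the theorem over fields -/

set_option autoImplicit false

namespace Pool.Agent.Helper8.LV

open Pool.Agent.Helper8.LG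

open scoped BigOperators

private theorem num_mono {ι : Type*} [Fintype ι] {d q e m : ι → ℕ} {Z C : Finset ι} {w c c' : ℕ}
    (h : NumV d q e m Z C w c) (hc : c' ≤ c) : NumV d q e m Z C w c' where
  pos := h.pos
  posq := h.posq
  disj := h.disj
  deg := h.deg
  e0 := h.e0
  ineq := by
    have := h.ineq
    omega

theorem over_tower {k₀ k L : Type*} [Field k₀] [Field k] [Field L] [Algebra k₀ L] [Algebra k L]
    [Algebra k₀ k] [IsScalarTower k₀ k L] {σ ι : Type*} {d : ι → ℕ}
    {A : (i : ι) → Sym σ (d i) → L} (h : Over k₀ A) : Over k A := by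
  intro i J
  obtain ⟨c, hc⟩ := h i J
  exact ⟨algebraMap k₀ k c, by rw [← hc, ← IsScalarTower.algebraMap_apply k₀ k L]⟩

/-- normalised points, all roots non-zero -/
theorem final_aux {k₀ L : Type*} [Field k₀] [Field L] [CharZero L] [Algebra k₀ L]
    (hfg : (⊤ : IntermediateField k₀ L).FG)
    {σ ι : Type*} [Fintype σ] [DecidableEq σ] [Fintype ι] [DecidableEq ι]
    (d b q e m : ι → ℕ) (a aA : (i : ι) → Sym σ (d i) → L) (ap : (i : ι) → Sym σ (b i) → L)
    (ah : (i : ι) → Sym σ (q i) → L) (hFam : Fam d b q a aA ap ah) (hAk : Over k₀ aA)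
    (hpk : Over k₀ ap) (w c : ℕ)
    (hc : (Fintype.card (Ix σ q) : Cardinal) ≤ Algebra.trdeg k₀
      (IntermediateField.adjoin k₀ (Set.range fun p : Ix σ q => ah p.1 p.2)) + c)
    (Z C : Finset ι) (i₀ : σ) (hnum : NumV d q e m Z C w c)
    (A : Subalgebra k₀ L) (hA : A.FG) :
    {x : σ → L | x i₀ = 1 ∧
      Algebra.trdeg k₀ (IntermediateField.adjoin k₀ (Set.range x)) ≤ w ∧
      (∀ i, form (ap i) x ≠ 0) ∧
      (∀ i ∈ Z, form (a i) x = 0) ∧ (∀ i ∉ Z, form (a i) x ≠ 0) ∧
      (∀ i ∈ C, ∃ y : L, y ^ m i = form (a i) x) ∧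
      ∀ i ∉ Z, i ∉ C → ∀ J : Sym σ (d i), IsIntegral A (mon x J / form (a i) x)}.Finite := by
  classical
  obtain ⟨T, k, hT, hind, hfin, D, θ, hD, hDk⟩ := reduce hfg q ah c hc
  have hnum' := num_mono hnum hT
  -- the algebra over `k`
  obtain ⟨s, hs⟩ := hA
  set A' : Subalgebra k L := Algebra.adjoin k (s : Set L) with hA'
  have hAA' : ∀ f ∈ A, f ∈ A' := by
    intro f hf
    rw [← hs] at hf
    induction hf using Algebra.adjoin_induction with
    | mem x hx => exact Algebra.subset_adjoin hx
    | algebraMap r =>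
      have h1 : algebraMap k₀ L r = algebraMap k L (algebraMap k₀ k r) :=
        IsScalarTower.algebraMap_apply k₀ k L r
      rw [h1]
      exact A'.algebraMap_mem _
    | add x y _ _ hx hy => exact add_mem hx hy
    | mul x y _ _ hx hy => exact mul_mem hx hy
  have hAk' : Over k aA := over_tower hAk
  have hpk' : Over k ap := over_tower hpk
  obtain ⟨V, hV, hVb⟩ := bounded d b q e m a aA ap ah hFam hAk' hpk' T hind hfin D
    (fun j => j.1) θ hD (fun j => j.2) hDk Z C i₀ w hnum' A' ⟨s, rfl⟩
  haveI := hV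
  refine ultra (k := k) d b q e m a aA ap ah hFam hAk' hpk' D (fun j => j.1) θ hD hDk
    Z C i₀ w hnum' V _ ?_
  rintro x ⟨h1, h2, hP, h3, h4, h5, h6⟩
  have hrank : MinorsVanish D x w := by
    refine minors_of_trdeg (k := k₀) D ?_ x i₀ h1 w h2
    intro p r
    have h7 : algebraMap k₀ L r = algebraMap k L (algebraMap k₀ k r) :=
      IsScalarTower.algebraMap_apply k₀ k L r
    rw [h7]
    exact hDk p _
  choose y hy using h5
  set y' : ι → L := fun i => if h : i ∈ C then y i h else 0 with hy'
  have hyy : ∀ i ∈ C, y' i ^ m i = form (a i) x := by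
    intro i hi
    rw [hy']
    simp only [dif_pos hi]
    exact hy i hi
  have hgood : GoodV d m a D Z C i₀ w A'.toSubring x y' := by
    refine ⟨h1, h3, h4, hyy, ?_, hrank⟩
    intro i hiZ hiC J
    have h8 := h6 i hiZ hiC J
    exact h8.map_of_comp_eq (Subring.inclusion (S := A.toSubring) (T := A'.toSubring)
      (fun f hf => hAA' f hf)) (RingHom.id L) rfl
  obtain ⟨G, hG, hG1, hG2, hG3⟩ := hVb x y' hgood hP
  exact ⟨h1, h3, h4, hP, hrank, y', G, hG, hG1, hG2, hyy, hG3⟩

end Pool.Agent.Helper8.LV
end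

/- Helper8.LV.Multi -/
section
/-! # LV-MULTI: from one moving multiplier to several -/

set_option autoImplicit false

open MvPolynomial

namespace Pool.Agent.Helper8.LV

open scoped BigOperators

theorem multi_trdeg_le {F E : Type*} [Field F] [Field E] [Algebra F E] {ι : Type} [Fintype ι]
    (x : ι → E) :
    Algebra.trdeg F (IntermediateField.adjoin F (Set.range x)) ≤
      (Fintype.card ι : Cardinal) := by
  set K := IntermediateField.adjoin F (Set.range x) with hK
  have hxK : ∀ j, x j ∈ K := fun j => IntermediateField.subset_adjoin _ _ ⟨j, rfl⟩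
  set S : Set K := Set.range (fun j => (⟨x j, hxK j⟩ : K)) with hS
  have hSimg : ((↑) : K → E) '' S = Set.range x := by
    rw [hS, ← Set.range_comp]
    rfl
  have htop : IntermediateField.adjoin F S = ⊤ := by
    apply IntermediateField.map_injective K.val
    rw [IntermediateField.adjoin_map, ← AlgHom.fieldRange_eq_map,
      IntermediateField.fieldRange_val]
    have e : (K.val : K → E) '' S = Set.range x := hSimg
    rw [e]
  have halg : Algebra.IsAlgebraic (Algebra.adjoin F S) K := by
    rw [← IntermediateField.isAlgebraic_adjoin_iff_top, htop,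
      Algebra.isAlgebraic_iff_isIntegral]
    exact Algebra.isIntegral_of_surjective IntermediateField.topEquiv.surjective
  refine (Algebra.IsAlgebraic.trdeg_le_cardinalMk F S).trans ?_
  have h1 := Cardinal.mk_range_le_lift (f := fun j => (⟨x j, hxK j⟩ : K))
  rw [Cardinal.mk_fintype ι, Cardinal.lift_natCast] at h1
  have h2 : Cardinal.lift.{0} (Cardinal.mk S) = Cardinal.mk S := Cardinal.lift_uzero _
  rw [← h2]
  exact h1

theorem multi_exists_sym {N n : ℕ} (m : Fin (N + 1) →₀ ℕ) (hm : m.degree = n) :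
    ∃ J : Sym (Fin (N + 1)) n, Multiset.toFinsupp (J : Multiset (Fin (N + 1))) = m := by
  refine ⟨⟨Finsupp.toMultiset m, ?_⟩, ?_⟩
  · rw [Finsupp.card_toMultiset, ← hm, Finsupp.degree_eq_sum]
    exact Finsupp.sum_fintype _ _ fun _ => rfl
  · exact Finsupp.toMultiset_toFinsupp m

theorem multi_tower {k₀ L : Type*} [Field k₀] [Field L] [Algebra k₀ L]
    (K : IntermediateField k₀ L) (M : IntermediateField K L) :
    Algebra.trdeg k₀ K + Algebra.trdeg K M = Algebra.trdeg k₀ (M.restrictScalars k₀) := by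
  have i1 : FaithfulSMul k₀ K := (faithfulSMul_iff_algebraMap_injective k₀ K).2
    (algebraMap k₀ K).injective
  have i2 : FaithfulSMul K M := (faithfulSMul_iff_algebraMap_injective K M).2
    (algebraMap K M).injective
  have i3 : IsScalarTower k₀ K M := IsScalarTower.of_algebraMap_eq fun x => rfl
  have h : Algebra.trdeg k₀ K + Algebra.trdeg K M = Algebra.trdeg k₀ M := trdeg_add_eq k₀ K
  exact h

/-- `A i + ∑ j, P i j * H i j` with all coefficients of the `H i j` moving: fix `j i` for all `i`
and put the other coefficients into the constant field. -/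
theorem multi {k₀ L : Type*} [Field k₀] [Field L] [Algebra k₀ L] {N r s : ℕ}
    (d : Fin r → ℕ) (b : Fin r → Fin s → ℕ) (hb : ∀ i j, b i j ≤ d i)
    (A : Fin r → MvPolynomial (Fin (N + 1)) k₀) (hA : ∀ i, (A i).IsHomogeneous (d i))
    (P : Fin r → Fin s → MvPolynomial (Fin (N + 1)) k₀)
    (hP : ∀ i j, (P i j).IsHomogeneous (b i j))
    (H : Fin r → Fin s → MvPolynomial (Fin (N + 1)) L)
    (hH : ∀ i j, (H i j).IsHomogeneous (d i - b i j)) (c : ℕ)
    (hcoef : ((∑ i, ∑ j, (N + (d i - b i j)).choose N : ℕ) : Cardinal) ≤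
      Algebra.trdeg k₀ (IntermediateField.adjoin k₀ {z | ∃ i j J, z = coeff J (H i j)}) + c)
    (S : Set (Fin (N + 1) → L))
    (E : ∀ (k : IntermediateField k₀ L) (j : Fin r → Fin s)
      (A' : Fin r → MvPolynomial (Fin (N + 1)) k), (∀ i, (A' i).IsHomogeneous (d i)) →
      (∀ i, map (algebraMap k₀ L) (A i) + ∑ l, map (algebraMap k₀ L) (P i l) * H i l =
        map (algebraMap k L) (A' i) + map (algebraMap k₀ L) (P i (j i)) * H i (j i)) →
      ((∑ i, (N + (d i - b i (j i))).choose N : ℕ) : Cardinal) ≤ Algebra.trdeg k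
        (IntermediateField.adjoin k {z | ∃ i J, z = coeff J (H i (j i))}) + c →
      {x ∈ S | ∀ i, aeval x (P i (j i)) ≠ 0}.Finite) :
    {x ∈ S | ∀ i, ∃ j, aeval x (P i j) ≠ 0}.Finite := by
  classical
  suffices h : ∀ j : Fin r → Fin s, {x ∈ S | ∀ i, aeval x (P i (j i)) ≠ 0}.Finite by
    refine (Set.finite_iUnion h).subset ?_
    rintro x ⟨hx, hx2⟩
    choose j hj using hx2
    exact Set.mem_iUnion.2 ⟨j, hx, hj⟩
  intro j
  -- the constant field
  set T : Set L := {z | ∃ i l, l ≠ j i ∧ ∃ J, z = coeff J (H i l)} with hT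
  set k : IntermediateField k₀ L := IntermediateField.adjoin k₀ T with hk
  set T' : Set L := {z | ∃ i J, z = coeff J (H i (j i))} with hT'
  -- descent of the other forms
  have hdesc : ∀ i l, l ≠ j i → ∃ Q : MvPolynomial (Fin (N + 1)) k,
      map (algebraMap k L) Q = H i l := by
    intro i l hl
    have h1 : H i l ∈ Set.range (MvPolynomial.map (σ := Fin (N + 1)) (algebraMap k L)) := by
      rw [mem_range_map_iff_coeffs_subset]
      intro z hz
      obtain ⟨J, -, hJ⟩ := mem_coeffs_iff.1 (Finset.mem_coe.1 hz)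
      exact ⟨⟨z, IntermediateField.subset_adjoin _ _ ⟨i, l, hl, J, hJ⟩⟩, rfl⟩
    exact h1
  choose! Q hQ using hdesc
  set A' : Fin r → MvPolynomial (Fin (N + 1)) k := fun i =>
    map (algebraMap k₀ k) (A i) +
      ∑ l ∈ Finset.univ.erase (j i), map (algebraMap k₀ k) (P i l) * Q i l with hA'
  have hmap : ∀ B : MvPolynomial (Fin (N + 1)) k₀,
      map (algebraMap k L) (map (algebraMap k₀ k) B) = map (algebraMap k₀ L) B := by
    intro B
    rw [map_map, ← IsScalarTower.algebraMap_eq]
  have hA'1 : ∀ i, map (algebraMap k L) (A' i) = map (algebraMap k₀ L) (A i) +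
      ∑ l ∈ Finset.univ.erase (j i), map (algebraMap k₀ L) (P i l) * H i l := by
    intro i
    rw [hA']
    simp only [map_add, map_sum, map_mul, hmap]
    congr 1
    refine Finset.sum_congr rfl fun l hl => ?_
    rw [hQ i l (Finset.ne_of_mem_erase hl)]
  have hinj : Function.Injective (algebraMap k L) := (algebraMap k L).injective
  refine E k j A' (fun i => ?_) (fun i => ?_) ?_
  · refine IsHomogeneous.of_map hinj ?_
    rw [hA'1]
    refine ((hA i).map _).add (IsHomogeneous.sum _ _ _ fun l _ => ?_)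
    have h1 := ((hP i l).map (algebraMap k₀ L)).mul (hH i l)
    rw [Nat.add_sub_cancel' (hb i l)] at h1
    exact h1
  · rw [hA'1, ← Finset.sum_erase_add _ _ (Finset.mem_univ (j i)), add_assoc]
  · -- the transcendence degree
    set ι : Type := Σ p : {p : Fin r × Fin s // p.2 ≠ j p.1},
      Sym (Fin (N + 1)) (d p.1.1 - b p.1.1 p.1.2) with hι
    set y : ι → L := fun q => coeff (Multiset.toFinsupp (q.2 : Multiset (Fin (N + 1))))
      (H q.1.1.1 q.1.1.2) with hy
    have hk' : k = IntermediateField.adjoin k₀ (Set.range y) := by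
      refine le_antisymm (IntermediateField.adjoin_le_iff.2 ?_)
        (IntermediateField.adjoin_le_iff.2 ?_)
      · rintro z ⟨i, l, hl, m, rfl⟩
        by_cases h : m.degree = d i - b i l
        · obtain ⟨J, hJ⟩ := multi_exists_sym m h
          refine IntermediateField.subset_adjoin _ _ ⟨⟨⟨(i, l), hl⟩, J⟩, ?_⟩
          change coeff (Multiset.toFinsupp (J : Multiset (Fin (N + 1)))) (H i l) = _
          rw [hJ]
        · rw [(hH i l).coeff_eq_zero h]
          exact zero_mem _
      · rintro z ⟨q, rfl⟩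
        exact IntermediateField.subset_adjoin _ _ ⟨q.1.1.1, q.1.1.2, q.1.2, _, rfl⟩
    have hcard : Fintype.card ι =
        ∑ i, ∑ l ∈ Finset.univ.erase (j i), (N + (d i - b i l)).choose N := by
      change Fintype.card (Σ p : {p : Fin r × Fin s // p.2 ≠ j p.1},
        Sym (Fin (N + 1)) (d p.1.1 - b p.1.1 p.1.2)) = _
      rw [Fintype.card_sigma]
      have h1 : ∀ p : {p : Fin r × Fin s // p.2 ≠ j p.1},
          Fintype.card (Sym (Fin (N + 1)) (d p.1.1 - b p.1.1 p.1.2)) =
            (fun p : Fin r × Fin s => (N + (d p.1 - b p.1 p.2)).choose N) p.1 := by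
        intro p
        rw [Sym.card_sym_eq_choose, Fintype.card_fin]
        have h : N + 1 + (d p.1.1 - b p.1.1 p.1.2) - 1 = N + (d p.1.1 - b p.1.1 p.1.2) := by
          omega
        rw [h]
        exact Nat.choose_symm_add.symm
      rw [Finset.sum_congr rfl fun p _ => h1 p]
      rw [← Finset.sum_subtype (Finset.univ.filter fun p : Fin r × Fin s => p.2 ≠ j p.1)
        (by simp) (fun p : Fin r × Fin s => (N + (d p.1 - b p.1 p.2)).choose N)]
      rw [Finset.sum_filter, Fintype.sum_prod_type]
      refine Finset.sum_congr rfl fun i _ => ?_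
      rw [← Finset.sum_filter]
      refine Finset.sum_congr ?_ fun l _ => rfl
      ext l
      simp
    have hk1 : Algebra.trdeg k₀ k ≤ (Fintype.card ι : Cardinal) := by
      rw [hk']
      exact multi_trdeg_le y
    have hunion : ({z | ∃ i l J, z = coeff J (H i l)} : Set L) = T ∪ T' := by
      ext z
      constructor
      · rintro ⟨i, l, J, rfl⟩
        by_cases hl : l = j i
        · subst hl
          exact Or.inr ⟨i, J, rfl⟩
        · exact Or.inl ⟨i, l, hl, J, rfl⟩
      · rintro (⟨i, l, -, J, rfl⟩ | ⟨i, J, rfl⟩)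
        · exact ⟨i, l, J, rfl⟩
        · exact ⟨i, j i, J, rfl⟩
    rw [hunion, ← IntermediateField.adjoin_adjoin_left] at hcoef
    have htr : Algebra.trdeg k₀ k + Algebra.trdeg k (IntermediateField.adjoin k T') =
        Algebra.trdeg k₀ ((IntermediateField.adjoin k T').restrictScalars k₀) :=
      multi_tower k (IntermediateField.adjoin k T')
    rw [← htr] at hcoef
    have hsum : ∑ i, ∑ l, (N + (d i - b i l)).choose N =
        Fintype.card ι + ∑ i, (N + (d i - b i (j i))).choose N := by
      rw [hcard, ← Finset.sum_add_distrib]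
      refine Finset.sum_congr rfl fun i _ => ?_
      rw [Finset.sum_erase_add _ _ (Finset.mem_univ (j i))]
    rw [hsum, Nat.cast_add] at hcoef
    have h3 : (Fintype.card ι : Cardinal) + ((∑ i, (N + (d i - b i (j i))).choose N : ℕ) : Cardinal)
        ≤ (Fintype.card ι : Cardinal) +
          (Algebra.trdeg k (IntermediateField.adjoin k T') + c) := by
      refine hcoef.trans ?_
      rw [add_assoc]
      exact add_le_add_left hk1 _
    exact (Cardinal.add_le_add_iff_of_lt_aleph0 (Cardinal.natCast_lt_aleph0)).1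
      (by rw [add_comm _ (Fintype.card ι : Cardinal), add_comm _ (Fintype.card ι : Cardinal)]; exact h3)

end Pool.Agent.Helper8.LV
end

/- Helper12.LVF.H8.LV.EngG -/
section
/-! # LV-ENG: the engine in terms of polynomials -/

set_option autoImplicit false

open MvPolynomial

namespace Pool.Agent.Helper8.LV

open scoped BigOperators
open Pool.Agent.Helper8.LG

/-- the coefficients of `A + P H` -/
theorem cf_add_mul {L : Type*} [Field L] {N d b q : ℕ} (hdb : d = b + q)
    (F A P H : MvPolynomial (Fin (N + 1)) L) (hP : P.IsHomogeneous b) (hH : H.IsHomogeneous q)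
    (h : F = A + P * H) (J : Sym (Fin (N + 1)) d) :
    cf d F J = cf d A J + ∑ J' : Sym (Fin (N + 1)) b, ∑ J'' : Sym (Fin (N + 1)) q,
      if (J' : Multiset (Fin (N + 1))) + (J'' : Multiset (Fin (N + 1))) = (J : Multiset _)
        then cf b P J' * cf q H J'' else 0 := by
  classical
  have h0 : cf d F J = cf d A J +
      coeff (Multiset.toFinsupp (J : Multiset (Fin (N + 1)))) (P * H) := by
    rw [h, cf, coeff_add]
    rfl
  rw [h0, coeff_mul]
  congr 1
  symm
  rw [← Finset.sum_product', ← Finset.sum_filter]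
  refine Finset.sum_bij_ne_zero (fun p _ _ =>
    (Multiset.toFinsupp (p.1 : Multiset (Fin (N + 1))),
      Multiset.toFinsupp (p.2 : Multiset (Fin (N + 1))))) ?_ ?_ ?_ ?_
  · intro p hp _
    rw [Finset.mem_filter] at hp
    rw [Finset.HasAntidiagonal.mem_antidiagonal, ← map_add, hp.2]
  · intro p _ _ p' _ _ hpp
    rw [Prod.mk.injEq] at hpp
    exact Prod.ext (poly_toFinsupp_inj hpp.1) (poly_toFinsupp_inj hpp.2)
  · rintro ⟨m, n⟩ hmn hne
    rw [Finset.HasAntidiagonal.mem_antidiagonal] at hmn
    have h1 : coeff m P ≠ 0 := left_ne_zero_of_mul hne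
    have h2 : coeff n H ≠ 0 := right_ne_zero_of_mul hne
    have h3 : m.degree = b := (DFunLike.congr_fun Finsupp.degree_eq_weight_one m).trans (hP h1)
    have h4 : n.degree = q := (DFunLike.congr_fun Finsupp.degree_eq_weight_one n).trans (hH h2)
    obtain ⟨J', hJ'⟩ := poly_exists_sym m h3
    obtain ⟨J'', hJ''⟩ := poly_exists_sym n h4
    refine ⟨(J', J''), ?_, ?_, ?_⟩
    · rw [Finset.mem_filter]
      refine ⟨Finset.mem_product.2 ⟨Finset.mem_univ _, Finset.mem_univ _⟩, ?_⟩
      apply Multiset.toFinsupp.injective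
      rw [map_add, hJ', hJ'']
      exact hmn
    · change coeff _ P * coeff _ H ≠ 0
      rw [hJ', hJ'']
      exact hne
    · exact Prod.ext hJ' hJ''
  · intro p _ _
    rfl

/-- the family of the coefficients -/
theorem fam_poly {k L : Type*} [Field k] [Field L] [Algebra k L] {N r : ℕ} (d b q : Fin r → ℕ)
    (hdb : ∀ i, d i = b i + q i) (F : Fin r → MvPolynomial (Fin (N + 1)) L)
    (A P : Fin r → MvPolynomial (Fin (N + 1)) k) (H : Fin r → MvPolynomial (Fin (N + 1)) L)
    (hP : ∀ i, (P i).IsHomogeneous (b i)) (hH : ∀ i, (H i).IsHomogeneous (q i))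
    (h : ∀ i, F i = map (algebraMap k L) (A i) + map (algebraMap k L) (P i) * H i) :
    Fam d b q (fun i => cf (d i) (F i)) (fun i => cf (d i) (map (algebraMap k L) (A i)))
      (fun i => cf (b i) (map (algebraMap k L) (P i))) (fun i => cf (q i) (H i)) where
  deg := hdb
  eq := fun i J => cf_add_mul (hdb i) _ _ _ _ ((hP i).map _) (hH i) (h i) J

theorem over_poly {k L : Type*} [Field k] [Field L] [Algebra k L] {N r : ℕ} (d : Fin r → ℕ)
    (A : Fin r → MvPolynomial (Fin (N + 1)) k) :
    Over k fun i => cf (d i) (map (algebraMap k L) (A i)) := fun i J =>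
  ⟨coeff (Multiset.toFinsupp (J : Multiset (Fin (N + 1)))) (A i), (coeff_map _ _ _).symm⟩

theorem form_poly {k L : Type*} [Field k] [Field L] [Algebra k L] {N n : ℕ}
    (P : MvPolynomial (Fin (N + 1)) k) (hP : P.IsHomogeneous n) (x : Fin (N + 1) → L) :
    form (cf n (map (algebraMap k L) P)) x = aeval x P := by
  rw [form_cf _ (hP.map _), aeval_def, eval_map]

/-- the field generated by the coefficients -/
theorem adjoin_poly (k : Type*) {L : Type*} [Field k] [Field L] [Algebra k L] {N r : ℕ}
    (q : Fin r → ℕ) (H : Fin r → MvPolynomial (Fin (N + 1)) L)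
    (hH : ∀ i, (H i).IsHomogeneous (q i)) :
    IntermediateField.adjoin k {z | ∃ i J, z = coeff J (H i)} =
      IntermediateField.adjoin k (Set.range fun p : Ix (Fin (N + 1)) q => cf (q p.1) (H p.1) p.2) :=
  coeffField_eq k q H hH

theorem trdeg_mono' {k₀ L : Type*} [Field k₀] [Field L] [Algebra k₀ L]
    (k : IntermediateField k₀ L) {X : Type*} [Finite X] (x : X → L) :
    Algebra.trdeg k (IntermediateField.adjoin k (Set.range x)) ≤
      Algebra.trdeg k₀ (IntermediateField.adjoin k₀ (Set.range x)) := by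
  classical
  haveI := Fintype.ofFinite X
  obtain ⟨T, hT, hc⟩ := red_subfamily (k := k) x
  rw [← hc]
  have h1 : AlgebraicIndependent k₀ (fun p : T => x p) :=
    hT.restrictScalars (algebraMap k₀ k).injective
  have h2 : AlgebraicIndependent k₀ (fun p : T =>
      (⟨x p, IntermediateField.subset_adjoin _ _ ⟨p, rfl⟩⟩ :
        IntermediateField.adjoin k₀ (Set.range x))) :=
    (AlgHom.algebraicIndependent_iff (IntermediateField.adjoin k₀ (Set.range x)).val
      (IntermediateField.adjoin k₀ (Set.range x)).val.injective).1 h1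
  have h3 := h2.lift_cardinalMk_le_trdeg
  rw [Cardinal.mk_coe_finset, Cardinal.lift_natCast, Cardinal.nat_le_lift_iff] at h3
  exact h3

theorem fg_tower {k₀ L : Type*} [Field k₀] [Field L] [Algebra k₀ L] (k : IntermediateField k₀ L)
    (h : (⊤ : IntermediateField k₀ L).FG) : (⊤ : IntermediateField k L).FG := by
  rw [IntermediateField.fg_top_iff] at h ⊢
  exact Algebra.EssFiniteType.of_comp k₀ k L

theorem subalgebra_tower {k₀ L : Type*} [Field k₀] [Field L] [Algebra k₀ L]
    (k : IntermediateField k₀ L) (R : Subalgebra k₀ L) (hR : R.FG) :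
    ∃ R' : Subalgebra k L, R'.FG ∧ ∀ f ∈ R, f ∈ R' := by
  obtain ⟨s, hs⟩ := hR
  refine ⟨Algebra.adjoin k (s : Set L), ⟨s, rfl⟩, ?_⟩
  intro f hf
  rw [← hs] at hf
  induction hf using Algebra.adjoin_induction with
  | mem x hx => exact Algebra.subset_adjoin hx
  | algebraMap r =>
    have h1 : algebraMap k₀ L r = algebraMap k L (algebraMap k₀ k r) :=
      IsScalarTower.algebraMap_apply k₀ k L r
    rw [h1]
    exact Subalgebra.algebraMap_mem _ _
  | add x y _ _ hx hy => exact add_mem hx hy
  | mul x y _ _ hx hy => exact mul_mem hx hy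

/-- the G engine: polynomials, several multipliers, normalised points -/
theorem eng_G {k₀ L : Type*} [Field k₀] [Field L] [CharZero L] [Algebra k₀ L]
    (hfg : (⊤ : IntermediateField k₀ L).FG) {N r s : ℕ} (d q m : Fin r → ℕ)
    (b : Fin r → Fin s → ℕ) (hq : ∀ i, 0 < q i) (hbq : ∀ i j, b i j + q i ≤ d i)
    (F : Fin r → MvPolynomial (Fin (N + 1)) L)
    (A : Fin r → MvPolynomial (Fin (N + 1)) k₀) (hA : ∀ i, (A i).IsHomogeneous (d i))
    (P : Fin r → Fin s → MvPolynomial (Fin (N + 1)) k₀)
    (hP : ∀ i j, (P i j).IsHomogeneous (b i j))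
    (H : Fin r → Fin s → MvPolynomial (Fin (N + 1)) L)
    (hH : ∀ i j, (H i j).IsHomogeneous (d i - b i j))
    (hFA : ∀ i, F i = map (algebraMap k₀ L) (A i) + ∑ j, map (algebraMap k₀ L) (P i j) * H i j)
    (w c : ℕ)
    (hcoef : ((∑ i, ∑ j, (N + (d i - b i j)).choose N : ℕ) : Cardinal) ≤
      Algebra.trdeg k₀ (IntermediateField.adjoin k₀ {z | ∃ i j J, z = coeff J (H i j)}) + c)
    (Z C : Finset (Fin r)) (hZC : Disjoint Z C) (hm : ∀ i ∈ C, m i ∣ d i)
    (hnum : 2 * w + 2 + c + ∑ i ∈ C, d i / m i ≤ ∑ i, q i + Z.card)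
    (i₀ : Fin (N + 1)) (R : Subalgebra k₀ L) (hR : R.FG) :
    {x : Fin (N + 1) → L | x i₀ = 1 ∧
      (Algebra.trdeg k₀ (IntermediateField.adjoin k₀ (Set.range x)) ≤ w ∧
        (∀ i, ∃ j, aeval x (P i j) ≠ 0) ∧ (∀ i ∈ Z, eval x (F i) = 0) ∧
        ∀ i ∈ C, ∃ y : L, y ^ m i = eval x (F i)) ∧
      ∀ i ∈ (Z ∪ C)ᶜ, eval x (F i) ≠ 0 ∧
        ∀ J : Sym (Fin (N + 1)) (d i), mon x J / eval x (F i) ∈ R}.Finite := by
  classical
  have hdF : ∀ i, (∃ j : Fin s, True) → (F i).IsHomogeneous (d i) := by
    rintro i ⟨j, -⟩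
    rw [hFA i]
    refine ((hA i).map _).add (IsHomogeneous.sum _ _ _ fun j _ => ?_)
    have h1 := ((hP i j).map (algebraMap k₀ L)).mul (hH i j)
    rwa [Nat.add_sub_cancel' ((Nat.le_add_right _ _).trans (hbq i j))] at h1
  have hmulti := multi d b (fun i j => (Nat.le_add_right _ _).trans (hbq i j)) A hA P hP H hH c
    hcoef {x : Fin (N + 1) → L | x i₀ = 1 ∧
      (Algebra.trdeg k₀ (IntermediateField.adjoin k₀ (Set.range x)) ≤ w ∧
        (∀ i ∈ Z, eval x (F i) = 0) ∧ ∀ i ∈ C, ∃ y : L, y ^ m i = eval x (F i)) ∧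
      ∀ i ∈ (Z ∪ C)ᶜ, eval x (F i) ≠ 0 ∧
        ∀ J : Sym (Fin (N + 1)) (d i), mon x J / eval x (F i) ∈ R} ?_
  · refine hmulti.subset ?_
    rintro x ⟨h1, ⟨h2, h3, h4, h5⟩, h6⟩
    exact ⟨⟨h1, ⟨h2, h4, h5⟩, h6⟩, h3⟩
  intro k j A' hA' hFA' hcoef'
  -- the ring over `k`
  have hkfg : (⊤ : IntermediateField k L).FG := fg_tower k hfg
  obtain ⟨R', hR', hRR'⟩ := subalgebra_tower k R hR
  -- the data
  obtain ⟨q', hq'⟩ : ∃ q' : Fin r → ℕ, q' = fun i => d i - b i (j i) := ⟨_, rfl⟩
  have hdb : ∀ i, d i = b i (j i) + q' i := by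
    intro i
    have := hbq i (j i)
    rw [hq']
    simp only
    omega
  have hqq : ∀ i, q i ≤ q' i := by
    intro i
    have := hbq i (j i)
    rw [hq']
    simp only
    omega
  have hFam : Fam d (fun i => b i (j i)) q' (fun i => cf (d i) (F i))
      (fun i => cf (d i) (map (algebraMap k L) (A' i)))
      (fun i => cf (b i (j i)) (map (algebraMap k L) (map (algebraMap k₀ k) (P i (j i)))))
      fun i => cf (q' i) (H i (j i)) := by
    refine fam_poly d (fun i => b i (j i)) q' hdb F A' (fun i => map (algebraMap k₀ k) (P i (j i)))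
      (fun i => H i (j i)) (fun i => (hP i (j i)).map _) (fun i => ?_) (fun i => ?_)
    · rw [hq']
      exact hH i (j i)
    · rw [hFA i, hFA' i, map_map, ← IsScalarTower.algebraMap_eq]
  have hform : ∀ (x : Fin (N + 1) → L) i, form (cf (d i) (F i)) x = eval x (F i) := fun x i =>
    form_cf _ (hdF i ⟨j i, trivial⟩) x
  have hformP : ∀ (x : Fin (N + 1) → L) i,
      form (cf (b i (j i)) (map (algebraMap k L) (map (algebraMap k₀ k) (P i (j i))))) x
        = aeval x (P i (j i)) := by
    intro x i
    rw [form_poly _ ((hP i (j i)).map _), aeval_map_algebraMap]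
  obtain ⟨T, hT⟩ : ∃ T : Finset (Fin r) → Set (Fin (N + 1) → L), T = fun C₀ => {x | x i₀ = 1 ∧
      Algebra.trdeg k (IntermediateField.adjoin k (Set.range x)) ≤ w ∧
      (∀ i, form (cf (b i (j i)) (map (algebraMap k L)
        (map (algebraMap k₀ k) (P i (j i))))) x ≠ 0) ∧
      (∀ i ∈ Z ∪ C₀, form (cf (d i) (F i)) x = 0) ∧
      (∀ i ∉ Z ∪ C₀, form (cf (d i) (F i)) x ≠ 0) ∧
      (∀ i ∈ C \ C₀, ∃ y : L, y ^ m i = form (cf (d i) (F i)) x) ∧
      ∀ i ∉ Z ∪ C₀, i ∉ C \ C₀ → ∀ J : Sym (Fin (N + 1)) (d i),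
        IsIntegral R' (mon x J / form (cf (d i) (F i)) x)} := ⟨_, rfl⟩
  have hTfin : ∀ C₀, (T C₀).Finite := by
    intro C₀
    rw [hT]
    refine final_aux hkfg d (fun i => b i (j i)) q'
      (fun i => if i ∈ C \ C₀ then d i / m i else 0) m (fun i => cf (d i) (F i)) _ _ _ hFam
      (over_poly d A') (over_poly (fun i => b i (j i)) _) w c ?_ (Z ∪ C₀) (C \ C₀) i₀ ?_ R' hR'
    · rw [card_Ix, ← adjoin_poly k q' (fun i => H i (j i)) (fun i => ?_)]
      · rw [hq']
        exact hcoef'
      · rw [hq']
        exact hH i (j i)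
    · refine ⟨fun i => ?_, fun i => (hq i).trans_le (hqq i), ?_, ?_, ?_, ?_⟩
      · have := hq i
        have := hqq i
        rw [hdb i]
        omega
      · intro i hi hi'
        rw [Finset.mem_sdiff] at hi
        rcases Finset.mem_union.1 hi' with h | h
        · exact Finset.disjoint_left.1 hZC h hi.1
        · exact hi.2 h
      · intro i hi
        rw [if_pos hi]
        exact (Nat.mul_div_cancel' (hm i (Finset.mem_sdiff.1 hi).1)).symm
      · intro i hi
        exact if_neg hi
      · have h1 : ∑ i, (if i ∈ C \ C₀ then d i / m i else 0) ≤ ∑ i ∈ C, d i / m i := by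
          rw [← Finset.sum_filter]
          refine Finset.sum_le_sum_of_subset (fun i hi => ?_)
          exact (Finset.mem_sdiff.1 (Finset.mem_filter.1 hi).2).1
        have h2 : Z.card ≤ (Z ∪ C₀).card := Finset.card_le_card Finset.subset_union_left
        have h3 : ∑ i, q i ≤ ∑ i, q' i := Finset.sum_le_sum fun i _ => hqq i
        omega
  refine (Set.finite_iUnion hTfin).subset ?_
  rintro x ⟨⟨h1, ⟨h2, h3, h4⟩, h5⟩, h6⟩
  rw [Set.mem_iUnion]
  refine ⟨C.filter (fun i => eval x (F i) = 0), ?_⟩
  rw [hT]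
  have hnz : ∀ i ∉ Z ∪ C.filter (fun i => eval x (F i) = 0), eval x (F i) ≠ 0 := by
    intro i hi
    rw [Finset.mem_union, Finset.mem_filter] at hi
    push Not at hi
    by_cases hiC : i ∈ C
    · exact hi.2 hiC
    · refine (h5 i ?_).1
      rw [Finset.mem_compl, Finset.mem_union]
      push Not
      exact ⟨hi.1, hiC⟩
  refine ⟨h1, (trdeg_mono' k _).trans h2, ?_, ?_, ?_, ?_, ?_⟩
  · intro i
    rw [hformP]
    exact h6 i
  · intro i hi
    rw [hform]
    rcases Finset.mem_union.1 hi with h | h
    · exact h3 i h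
    · exact (Finset.mem_filter.1 h).2
  · intro i hi
    rw [hform]
    exact hnz i hi
  · intro i hi
    rw [hform]
    exact h4 i (Finset.mem_sdiff.1 hi).1
  · intro i hi hi' J
    have hiZ : i ∉ Z := fun h => hi (Finset.mem_union_left _ h)
    have hiC : i ∉ C := by
      intro h
      apply hi'
      rw [Finset.mem_sdiff]
      exact ⟨h, fun h' => hi (Finset.mem_union_right _ h')⟩
    rw [hform]
    have h7 := (h5 i (by
      rw [Finset.mem_compl, Finset.mem_union]
      push Not
      exact ⟨hiZ, hiC⟩)).2 J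
    exact isIntegral_algebraMap (x := (⟨_, hRR' _ h7⟩ : R'))

end Pool.Agent.Helper8.LV
end

/- Helper12.LVF.H49.LV.RigidLine -/
section
/-! # LV-RIGIDLINE: rigidity of the line

Copy of `Helper8.LV.rigid` (`C` empty) with `key_line` instead of `key`. -/

set_option autoImplicit false

namespace Pool.Agent.Helper49.LV

open scoped BigOperators
open Pool.Agent.Helper8.LG
open Pool.Agent.Helper8.LV (Fam Mov Over)

/-- One side: `P j l` is integral over `E₀[t]`. -/
theorem rl_side {E : Type*} [Field E] [CharZero E] {σ ι τ P : Type*} [Fintype σ]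
    [DecidableEq σ] [Fintype ι] [Fintype τ] (d : ι → ℕ) (a : (i : ι) → Sym σ (d i) → E)
    (D : P → Derivation ℤ E E) (θ : τ → P → E) (Z : Finset ι)
    (x : σ → E) (hU : ∀ i ∉ Z, form (a i) x ≠ 0)
    (E₀ : Subfield E) (t : E) (ht : Transcendental E₀ t)
    (hfin : FiniteDimensional (Subfield.closure ((E₀ : Set E) ∪ {t})) E)
    (hstab : ∀ p, ∀ f ∈ intCl E₀ t, D p f ∈ intCl E₀ t)
    (ha : ∀ i J, a i J ∈ E₀) (hθ : ∀ j s, θ j s ∈ E₀) {n : ℕ} (c : Fin n → E)
    (hDc : ∀ p r, D p (c r) = 0)
    (hc : ∀ O : ValuationSubring E, (∀ f ∈ E₀, f ∈ O) → (∀ r, c r ∈ O) →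
      ∀ i ∉ Z, ∀ J : Sym σ (d i), mon x J / form (a i) x ∈ O)
    (M : σ → σ → E) (hM : KeyP d a D θ Z x M) (j l : σ) : M j l ∈ intCl E₀ t := by
  obtain ⟨h1, h2⟩ := intCl_dedekind E₀ t ht hfin
  haveI := h1
  haveI := h2
  have hE₀R : ∀ f ∈ E₀, f ∈ intCl E₀ t := fun f hf =>
    rg_mem_intCl E₀ t (Subring.subset_closure (Or.inl hf))
  have hQ : ∀ n : ℕ, n ≠ 0 → ((n : E))⁻¹ ∈ intCl E₀ t := fun n _ =>
    hE₀R _ (inv_mem (natCast_mem E₀ n))
  apply mem_of (intCl E₀ t)
  intro O hO
  have hE₀O : ∀ f ∈ E₀, f ∈ O := fun f hf => hO (hE₀R f hf)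
  have hbdd : Bdd D 1 O := bdd_of (intCl E₀ t) D 1 (one_mem _)
    (fun p f hf => by rw [one_mul]; exact hstab p f hf) O hO
  have hDO : ∀ p, ∀ f ∈ O, D p f ∈ O := fun p f hf => by
    have := hbdd.2 p f hf
    rwa [one_mul] at this
  have hrow : ∀ i ∉ Z, RowBdd D 1 O x (form (a i)) 1 0 := by
    intro i hiZ j hj hprim
    have hform := rg_form_div (a i) x (x j)
    have hform0 : form (a i) (fun l => x l / x j) ≠ 0 := by
      rw [hform]
      exact div_ne_zero (hU i hiZ) (pow_ne_zero _ hj)
    have hformO : form (a i) (fun l => x l / x j) ∈ O := by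
      unfold form
      refine sum_mem fun J _ => mul_mem (hE₀O _ (ha i J)) ?_
      unfold mon
      refine multiset_prod_mem _ fun z hz => ?_
      obtain ⟨l, -, rfl⟩ := Multiset.mem_map.1 hz
      exact hprim l
    simp only [one_mul, pow_zero, div_one]
    refine ⟨one_mem O, fun p => ?_⟩
    by_cases hcO : ∀ r, c r ∈ O
    · have h3 := hc O hE₀O hcO i hiZ (Sym.replicate (d i) j)
      rw [rg_mon_replicate] at h3
      have h4 : x j ^ d i / form (a i) x = (form (a i) fun l => x l / x j)⁻¹ := by
        rw [hform, inv_div]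
      rw [h4] at h3
      rw [div_eq_mul_inv]
      exact mul_mem (hDO p _ hformO) h3
    · push Not at hcO
      obtain ⟨r, hr⟩ := hcO
      have hr0 : c r ≠ 0 := by
        intro h
        rw [h] at hr
        exact hr (zero_mem O)
      have h3 := log_of (intCl E₀ t) hQ D O hO 1 hbdd (c r) hr0 (Or.inl hr)
        (fun p => by rw [hDc, zero_div, mul_zero]; exact zero_mem O) _ hform0 p
      rwa [one_mul] at h3
  have h5 := hM O 1 hbdd (fun j s => by rw [one_mul]; exact hE₀O _ (hθ j s)) hrow j l
  rwa [one_pow, one_mul] at h5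

theorem rigid_line {k L E : Type*} [Field k] [Field L] [Field E] [CharZero E] [Algebra k L]
    [Algebra L E] [Algebra k E] [IsScalarTower k L E] {n : ℕ} (c : Fin n → E)
    (hgen : IntermediateField.adjoin L (Set.range c) = ⊤) (B : Set (Fin n))
    (hB : AlgebraicIndependent L (fun b : B => c b))
    (halg : ∀ r, IsAlgebraic (IntermediateField.adjoin k (c '' B)) (c r))
    {σ ι τ : Type*} [Fintype σ] [DecidableEq σ] [Fintype ι] [DecidableEq ι] [Fintype τ]
    (d b q : ι → ℕ) (hq : ∀ i, 0 < q i) (a aA : (i : ι) → Sym σ (d i) → L)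
    (ap : (i : ι) → Sym σ (b i) → L) (ah : (i : ι) → Sym σ (q i) → L)
    (hF : Fam d b q a aA ap ah) (hAk : Over k aA) (hpk : Over k ap)
    (D : Ix σ q → Derivation ℤ E E) (jj : τ → Ix σ q) (θ : τ → Ix σ q → L)
    (hD : Dual q (fun i J => algebraMap L E (ah i J)) D jj fun j s => algebraMap L E (θ j s))
    (hDL : ∀ p b, ∃ b', D p (algebraMap L E b) = algebraMap L E b')
    (hDk : ∀ p (b : k), D p (algebraMap k E b) = 0)
    (hDc : ∀ p r, D p (c r) = 0)
    (Z : Finset ι) (w : ℕ)
    (hw1 : 2 * w + 1 + Fintype.card τ ≤ ∑ i, q i + Z.card) (hw2 : w + 2 ≤ ∑ i, q i)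
    (x : σ → E) (i₀ j₁ : σ) (hx : x i₀ = 1) (hj : j₁ ≠ i₀)
    (hZ : ∀ i ∈ Z, form (fun J => algebraMap L E (a i J)) x = 0)
    (hU : ∀ i ∉ Z, form (fun J => algebraMap L E (a i J)) x ≠ 0)
    (hPx : ∀ i, form (fun J => algebraMap L E (ap i J)) x ≠ 0)
    (hint : ∀ i ∉ Z, ∀ J : Sym σ (d i),
      mon x J / form (fun J => algebraMap L E (a i J)) x ∈ Algebra.adjoin L (Set.range c))
    (hm : MinorsVanish D x w) :
    ∃ δ : σ → E, (∃ j l, x j * δ l - x l * δ j ≠ 0) ∧
      ∀ j l, IsAlgebraic L (x j * δ l - x l * δ j) := by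
  classical
  have hmov : Mov d b q (fun i J => algebraMap L E (a i J)) (fun i J => algebraMap L E (aA i J))
      (fun i J => algebraMap L E (ap i J)) (fun i J => algebraMap L E (ah i J)) D :=
    (hF.map (algebraMap L E)).mov (k := k) hAk.map hpk.map D hDk
  obtain ⟨δ, hδ, hδ2⟩ := key_line d b q hq (fun i J => algebraMap L E (a i J))
    (fun i J => algebraMap L E (aA i J)) (fun i J => algebraMap L E (ap i J))
    (fun i J => algebraMap L E (ah i J)) D jj
    (fun j s => algebraMap L E (θ j s)) hD hmov Z x i₀ j₁ hx hj hZ hU hPx w hw1 hw2 hm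
  -- the field `F = E₀(t)`
  have hrange : (Set.range fun b : B => c b) = c '' B := by
    ext z
    constructor
    · rintro ⟨b, rfl⟩
      exact ⟨b, b.2, rfl⟩
    · rintro ⟨b, hb, rfl⟩
      exact ⟨⟨b, hb⟩, rfl⟩
  have halgF : ∀ (F : Subfield E), (∀ b : k, algebraMap k E b ∈ F) → (∀ b ∈ B, c b ∈ F) →
      ∀ r, IsAlgebraic F (c r) := by
    intro F hkF hBF r
    refine rg_alg (R₁ := IntermediateField.adjoin k (c '' B)) (fun s => ?_) (halg r)
    have h1 : (IntermediateField.adjoin k (c '' B)).toSubfield ≤ F := by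
      rw [IntermediateField.adjoin_toSubfield, Subfield.closure_le]
      rintro z (⟨b, rfl⟩ | ⟨b, hb, rfl⟩)
      · exact hkF b
      · exact hBF b hb
    exact ⟨⟨s, h1 s.2⟩, rfl⟩
  have hfinF : ∀ (F : Subfield E), (∀ b : L, algebraMap L E b ∈ F) → (∀ b ∈ B, c b ∈ F) →
      FiniteDimensional F E := by
    intro F hLF hBF
    have hkF : ∀ b : k, algebraMap k E b ∈ F := fun b => by
      rw [IsScalarTower.algebraMap_apply k L E]
      exact hLF _
    have h1 : FiniteDimensional F (IntermediateField.adjoin F (Set.range c)) :=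
      IntermediateField.finiteDimensional_adjoin (by
        rintro z ⟨r, rfl⟩
        exact (halgF F hkF hBF r).isIntegral)
    have h2 : IntermediateField.adjoin F (Set.range c) = ⊤ := by
      rw [eq_top_iff]
      intro z _
      have hz : z ∈ IntermediateField.adjoin L (Set.range c) := by rw [hgen]; trivial
      have h3 : (IntermediateField.adjoin L (Set.range c)).toSubfield ≤
          (IntermediateField.adjoin F (Set.range c)).toSubfield := by
        rw [IntermediateField.adjoin_toSubfield, Subfield.closure_le]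
        rintro z (⟨b, rfl⟩ | hz)
        · exact (IntermediateField.adjoin F (Set.range c)).algebraMap_mem ⟨_, hLF b⟩
        · exact IntermediateField.subset_adjoin F _ hz
      exact h3 hz
    rw [h2] at h1
    exact Module.Finite.equiv (IntermediateField.topEquiv (F := F) (E := E)).toLinearEquiv
  refine ⟨δ, hδ, fun j l => ?_⟩
  refine exchange (fun b : B => c b) hB (x j * δ l - x l * δ j) ?_ fun b => ?_
  · -- algebraic over `L(c_B)`
    have h1 := hfinF (IntermediateField.adjoin L (Set.range fun b : B => c b)).toSubfield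
      (fun b => (IntermediateField.adjoin L (Set.range fun b : B => c b)).algebraMap_mem b)
      (fun b hb => IntermediateField.subset_adjoin L _ ⟨⟨b, hb⟩, rfl⟩)
    have h2 : IsAlgebraic (IntermediateField.adjoin L (Set.range fun b : B => c b)).toSubfield
        (x j * δ l - x l * δ j) := Algebra.IsAlgebraic.isAlgebraic _
    exact rg_alg (fun s => ⟨⟨s, s.2⟩, rfl⟩) h2
  · -- algebraic over `L(c_(B - b))`
    set S₀ : Set E := (fun b : B => c b) '' {b}ᶜ with hS₀
    set E₀ : Subfield E := (IntermediateField.adjoin L S₀).toSubfield with hE₀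
    have hE₀cl : E₀ = Subfield.closure (Set.range (algebraMap L E) ∪ S₀) :=
      IntermediateField.adjoin_toSubfield L S₀
    have hLE₀ : ∀ z : L, algebraMap L E z ∈ E₀ := fun z =>
      (IntermediateField.adjoin L S₀).algebraMap_mem z
    have hSE₀ : ∀ z ∈ S₀, z ∈ E₀ := fun z hz => IntermediateField.subset_adjoin L _ hz
    have hcE₀ : ∀ b' ∈ B, b' ≠ b → c b' ∈ E₀ := fun b' hb' hne => by
      refine hSE₀ _ ⟨⟨b', hb'⟩, ?_, rfl⟩
      intro h
      apply hne
      rw [Set.mem_singleton_iff] at h
      rw [← h]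
    have htr : Transcendental E₀ (c b) := by
      have h1 : Transcendental (Algebra.adjoin L S₀) (c b) :=
        hB.transcendental_adjoin (s := {b}ᶜ) (i := b) (fun h => h rfl)
      have h2 := (IntermediateField.transcendental_adjoin_iff (F := L) (s := S₀)).2 h1
      intro h3
      exact h2 (rg_alg (fun s => ⟨⟨s, s.2⟩, rfl⟩) h3)
    -- the derivations
    have hDE₀ : ∀ p, ∀ f ∈ E₀, D p f ∈ E₀ := by
      intro p
      rw [hE₀cl]
      apply rg_stable
      rintro f (⟨z, rfl⟩ | hf)
      · obtain ⟨z', hz'⟩ := hDL p z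
        rw [hz']
        exact Subfield.subset_closure (Or.inl ⟨z', rfl⟩)
      · obtain ⟨b', -, rfl⟩ := hf
        show D p (c b') ∈ _
        rw [hDc]
        exact zero_mem _
    set k₀ : Subfield E := (IntermediateField.adjoin k S₀).toSubfield with hk₀
    have hk₀cl : k₀ = Subfield.closure (Set.range (algebraMap k E) ∪ S₀) :=
      IntermediateField.adjoin_toSubfield k S₀
    have hk₀E₀ : k₀ ≤ E₀ := by
      rw [hk₀cl, Subfield.closure_le]
      rintro z (⟨z, rfl⟩ | hz)
      · rw [IsScalarTower.algebraMap_apply k L E]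
        exact hLE₀ _
      · exact hSE₀ z hz
    have hDk₀ : ∀ p, ∀ f ∈ k₀, D p f = 0 := by
      intro p
      rw [hk₀cl]
      apply rg_kill
      rintro f (⟨z, rfl⟩ | hf)
      · exact hDk p z
      · obtain ⟨b', -, rfl⟩ := hf
        exact hDc p b'
    -- both sides
    have hside : ∀ t : E, (t = c b ∨ t = (c b)⁻¹) → Transcendental E₀ t ∧
        FiniteDimensional (Subfield.closure ((E₀ : Set E) ∪ {t})) E ∧
        x j * δ l - x l * δ j ∈ intCl E₀ t := by
      intro t ht
      have htc : c b ∈ Subfield.closure ({t} : Set E) := by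
        rcases ht with h | h
        · rw [← h]
          exact Subfield.subset_closure rfl
        · have h1 : c b = t⁻¹ := by rw [h, inv_inv]
          rw [h1]
          exact inv_mem (Subfield.subset_closure rfl)
      have htt : Transcendental E₀ t := by
        rcases ht with h | h
        · rw [h]
          exact htr
        · rw [h]
          intro h1
          exact htr (by simpa using h1.inv)
      have hF1 : ∀ z : L, algebraMap L E z ∈ Subfield.closure ((E₀ : Set E) ∪ {t}) := fun z =>
        Subfield.subset_closure (Or.inl (hLE₀ z))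
      have hF2 : ∀ b' ∈ B, c b' ∈ Subfield.closure ((E₀ : Set E) ∪ {t}) := by
        intro b' hb'
        by_cases hne : b' = b
        · rw [hne]
          exact Subfield.closure_mono (Set.subset_union_right) htc
        · exact Subfield.subset_closure (Or.inl (hcE₀ b' hb' hne))
      have hfin := hfinF _ hF1 hF2
      refine ⟨htt, hfin, ?_⟩
      have hDt : ∀ p, D p t = 0 := by
        intro p
        rcases ht with h | h
        · rw [h]
          exact hDc p b
        · rw [h, (D p).leibniz_inv, hDc, smul_zero]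
      have hstab := intCl_stable E₀ t D hDE₀ hDt k₀ hk₀E₀ hDk₀ (Set.range c)
        (Set.finite_range c) (by rintro p z ⟨r, rfl⟩; exact hDc p r) (by
          rintro z ⟨r, rfl⟩
          refine halgF _ (fun z => ?_) (fun b' hb' => ?_) r
          · exact Subfield.subset_closure
              (Or.inl ((IntermediateField.adjoin k S₀).algebraMap_mem z))
          · by_cases hne : b' = b
            · rw [hne]
              exact Subfield.closure_mono (Set.subset_union_right) htc
            · refine Subfield.subset_closure (Or.inl ?_)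
              refine IntermediateField.subset_adjoin k S₀ ⟨⟨b', hb'⟩, ?_, rfl⟩
              intro h
              apply hne
              rw [Set.mem_singleton_iff] at h
              rw [← h]) (by
          rw [eq_top_iff]
          intro z _
          have hz : z ∈ (IntermediateField.adjoin L (Set.range c)).toSubfield := by
            rw [hgen]; trivial
          rw [IntermediateField.adjoin_toSubfield] at hz
          refine Subfield.closure_mono ?_ hz
          rintro z (⟨z, rfl⟩ | hz)
          · exact Or.inl (Or.inl (hLE₀ z))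
          · exact Or.inr hz)
      refine rl_side d (fun i J => algebraMap L E (a i J)) D
        (fun j s => algebraMap L E (θ j s)) Z x hU E₀ t
        htt hfin hstab (fun i J => hLE₀ _) (fun j s => hLE₀ _) c hDc ?_ _ hδ2 j l
      intro O hO1 hO2 i hiZ J
      have h1 := hint i hiZ J
      have h2 : (Algebra.adjoin L (Set.range c)).toSubring ≤ O.toSubring := by
        rw [Algebra.adjoin_eq_ring_closure, Subring.closure_le]
        rintro z (⟨z, rfl⟩ | ⟨r, rfl⟩)
        · exact hO1 _ (hLE₀ z)
        · exact hO2 r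
      exact h2 h1
    obtain ⟨ht1, hfin1, h1⟩ := hside (c b) (Or.inl rfl)
    obtain ⟨-, -, h2⟩ := hside (c b)⁻¹ (Or.inr rfl)
    have hP : IsAlgebraic E₀ (x j * δ l - x l * δ j) :=
      algebraic_of_mem E₀ (c b) ht1 hfin1 _ h1 h2
    exact rg_alg (fun s => ⟨⟨s, s.2⟩, rfl⟩) hP

end Pool.Agent.Helper49.LV
end

/- Helper12.LVF.H49.LV.CoreLine -/
section
/-! # LV-CORELINE: rigidity of the line inside a large field

Copy of `Helper8.LV.ul_core` (`C` empty) with `rigid_line` instead of `rigid`. -/

set_option autoImplicit false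

namespace Pool.Agent.Helper49.LV

open scoped BigOperators
open Pool.Agent.Helper8.LG
open Pool.Agent.Helper8.LV (Fam Mov Over)

theorem ul_core_line {k L Ω : Type*} [Field k] [Field L] [Field Ω] [CharZero Ω] [Algebra k L]
    [Algebra L Ω] [Algebra k Ω] [IsScalarTower k L Ω]
    (K : Subring Ω) (hkK : ∀ b : k, algebraMap k Ω b ∈ K) (hLD : UlDisj k (L := L) K)
    {n : ℕ} (c : Fin n → Ω) (hcK : ∀ r, c r ∈ K)
    {σ ι τ : Type*} [Fintype σ] [DecidableEq σ] [Fintype ι] [DecidableEq ι] [Fintype τ]
    (d b q : ι → ℕ) (hq : ∀ i, 0 < q i) (a aA : (i : ι) → Sym σ (d i) → L)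
    (ap : (i : ι) → Sym σ (b i) → L) (ah : (i : ι) → Sym σ (q i) → L)
    (hFam : Fam d b q a aA ap ah) (hAk : Over k aA) (hpk : Over k ap)
    (D : Ix σ q → Derivation ℤ Ω Ω) (jj : τ → Ix σ q) (θ : τ → Ix σ q → L)
    (hD : Dual q (fun i J => algebraMap L Ω (ah i J)) D jj fun j s => algebraMap L Ω (θ j s))
    (hDL : ∀ p b, ∃ b', D p (algebraMap L Ω b) = algebraMap L Ω b')
    (hDk : ∀ p (b : k), D p (algebraMap k Ω b) = 0)
    (hDc : ∀ p r, D p (c r) = 0)
    (Z : Finset ι) (w : ℕ)
    (hw1 : 2 * w + 1 + Fintype.card τ ≤ ∑ i, q i + Z.card) (hw2 : w + 2 ≤ ∑ i, q i)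
    (x : σ → Ω) (i₀ j₁ : σ) (hx : x i₀ = 1) (hj : j₁ ≠ i₀) (G : Ω) (hG : G ≠ 0)
    (hGx : ∀ l, G * x l ∈ Algebra.adjoin L (Set.range c))
    (hZ : ∀ i ∈ Z, form (fun J => algebraMap L Ω (a i J)) x = 0)
    (hU : ∀ i ∉ Z, form (fun J => algebraMap L Ω (a i J)) x ≠ 0)
    (hPx : ∀ i, form (fun J => algebraMap L Ω (ap i J)) x ≠ 0)
    (hint : ∀ i ∉ Z, ∀ J : Sym σ (d i),
      mon x J / form (fun J => algebraMap L Ω (a i J)) x ∈ Algebra.adjoin L (Set.range c))
    (hm : MinorsVanish D x w) :
    ∃ δ : σ → Ω, (∃ j l, x j * δ l - x l * δ j ≠ 0) ∧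
      ∀ j l, IsAlgebraic L (x j * δ l - x l * δ j) := by
  classical
  set F : IntermediateField L Ω := IntermediateField.adjoin L (Set.range c) with hF
  have hsub : ∀ z ∈ Algebra.adjoin L (Set.range c), z ∈ F := fun z hz =>
    IntermediateField.algebra_adjoin_le_adjoin L _ hz
  have hFcl : F.toSubfield = Subfield.closure (Set.range (algebraMap L Ω) ∪ Set.range c) :=
    IntermediateField.adjoin_toSubfield L _
  -- the generators
  set c' : Fin n → F := fun r => ⟨c r, IntermediateField.subset_adjoin L _ ⟨r, rfl⟩⟩ with hc'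
  have himg : ∀ B : Set (Fin n), (F.val : F → Ω) '' (c' '' B) = c '' B := by
    intro B
    rw [← Set.image_comp]
    rfl
  have hrange : (F.val : F → Ω) '' (Set.range c') = Set.range c := by
    rw [← Set.image_univ, himg, Set.image_univ]
  have hgen : IntermediateField.adjoin L (Set.range c') = ⊤ := by
    apply IntermediateField.lift_injective F
    rw [IntermediateField.lift_adjoin, IntermediateField.lift_top]
    have h1 : (Subtype.val : F → Ω) '' (Set.range c') = Set.range c := hrange
    rw [h1]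
  obtain ⟨B, hB1, hB2⟩ := ul_basis (k := k) c'
  have hB3 : AlgebraicIndependent k (fun b : B => c b) :=
    (AlgHom.algebraicIndependent_iff (x := fun b : B => c' b) ((F.val).restrictScalars k)
      Subtype.val_injective).2 hB1
  have hB4 : AlgebraicIndependent L (fun b : B => c b) :=
    ul_algInd K hkK hLD _ (fun b => hcK b) hB3
  have hB5 : AlgebraicIndependent L (fun b : B => c' b) :=
    (AlgHom.algebraicIndependent_iff (x := fun b : B => c' b) F.val Subtype.val_injective).1 hB4
  have halg : ∀ r, IsAlgebraic (IntermediateField.adjoin k (c' '' B)) (c' r) := by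
    intro r
    have h1 := hB2 r
    obtain ⟨p, hp0, hp⟩ := h1
    set φ : Algebra.adjoin k (c' '' B) →+* IntermediateField.adjoin k (c' '' B) :=
      { toFun := fun z => ⟨z, IntermediateField.algebra_adjoin_le_adjoin k _ z.2⟩
        map_one' := rfl
        map_mul' := fun _ _ => rfl
        map_zero' := rfl
        map_add' := fun _ _ => rfl } with hφ
    have hφi : Function.Injective φ := by
      intro u v huv
      apply Subtype.ext
      exact congrArg (fun z : IntermediateField.adjoin k (c' '' B) => (z : F)) huv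
    refine ⟨p.map φ, ?_, ?_⟩
    · rwa [Ne, Polynomial.map_eq_zero_iff hφi]
    · rw [Polynomial.aeval_def, Polynomial.eval₂_map]
      exact hp
  -- the derivations
  have hst : ∀ p, ∀ f ∈ F, D p f ∈ F := by
    intro p f hf
    have hf' : f ∈ F.toSubfield := hf
    rw [hFcl] at hf'
    have h1 := rg_stable (D p) (Set.range (algebraMap L Ω) ∪ Set.range c) ?_ f hf'
    · rw [← hFcl] at h1
      exact h1
    · rintro g (⟨z, rfl⟩ | ⟨r, rfl⟩)
      · obtain ⟨z', hz'⟩ := hDL p z
        rw [hz']
        exact Subfield.subset_closure (Or.inl ⟨z', rfl⟩)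
      · rw [hDc]
        exact zero_mem _
  set δ : Ix σ q → Derivation ℤ F F := fun p =>
    Derivation.mk' (AddMonoidHom.toIntLinearMap
      { toFun := fun f => (⟨D p f, hst p f f.2⟩ : F)
        map_zero' := Subtype.ext (map_zero (D p))
        map_add' := fun f g => Subtype.ext (map_add (D p) (f : Ω) g) })
      (fun f g => Subtype.ext ((D p).leibniz (f : Ω) g)) with hδ
  have hδv : ∀ p (f : F), ((δ p f : F) : Ω) = D p f := fun p f => rfl
  have hamap : ∀ b : L, ((algebraMap L F b : F) : Ω) = algebraMap L Ω b := fun b => rfl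
  -- the point
  have hxF : ∀ l, x l ∈ F := by
    intro l
    have h1 : G ∈ F := by
      have := hsub _ (hGx i₀)
      rwa [hx, mul_one] at this
    have h2 : x l = G * x l / G := by field_simp
    rw [h2]
    exact div_mem (hsub _ (hGx l)) h1
  set x' : σ → F := fun l => ⟨x l, hxF l⟩ with hx'
  have hform : ∀ i, ((form (fun J => algebraMap L F (a i J)) x' : F) : Ω) =
      form (fun J => algebraMap L Ω (a i J)) x := fun i =>
    ul_map_form (F.val : F →+* Ω) _ _
  have hmon : ∀ {r : ℕ} (J : Sym σ r), ((mon x' J : F) : Ω) = mon x J := fun J =>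
    ul_map_mon (F.val : F →+* Ω) _ _
  have hcz : CharZero F := inferInstance
  have key := rigid_line (k := k) (L := L) (E := F) c' hgen B hB5 halg d b q hq a aA ap ah
    hFam hAk hpk δ jj θ ?_ ?_ ?_ ?_ Z w hw1 hw2 x' i₀ j₁ (Subtype.ext hx) hj ?_ ?_ ?_ ?_ ?_
  · obtain ⟨δ', ⟨j, l, hδ'⟩, hδ2⟩ := key
    refine ⟨fun l => (δ' l : Ω), ⟨j, l, fun h0 => hδ' (Subtype.ext h0)⟩, fun j l => ?_⟩
    exact (hδ2 j l).algHom F.val
  · intro s r
    apply Subtype.ext
    have h1 := hD s r
    rw [hδv, hamap, h1]
    push_cast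
    congr 1
    · split_ifs <;> rfl
    · refine Finset.sum_congr rfl fun j _ => ?_
      split_ifs <;> rfl
  · intro p b
    obtain ⟨b', hb'⟩ := hDL p b
    exact ⟨b', Subtype.ext hb'⟩
  · intro p b
    exact Subtype.ext (hDk p b)
  · intro p r
    exact Subtype.ext (hDc p r)
  · intro i hi
    exact Subtype.ext ((hform i).trans (hZ i hi))
  · intro i hi h0
    apply hU i hi
    rw [← hform i, h0]
    rfl
  · intro i h0
    apply hPx i
    have h1 : ((form (fun J => algebraMap L F (ap i J)) x' : F) : Ω) =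
      form (fun J => algebraMap L Ω (ap i J)) x := ul_map_form (F.val : F →+* Ω) _ _
    rw [← h1, h0]
    rfl
  · intro i hi1 J
    have h1 := hint i hi1 J
    rw [← hrange, ← AlgHom.map_adjoin] at h1
    obtain ⟨z, hz1, hz2⟩ := h1
    have h2 : mon x' J / form (fun J => algebraMap L F (a i J)) x' = z := by
      apply Subtype.ext
      have h3 : (z : Ω) = mon x J / form (fun J => algebraMap L Ω (a i J)) x := hz2
      rw [h3]
      push_cast
      rw [hmon, hform]
    rw [h2]
    exact hz1
  · intro r s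
    apply Subtype.ext
    have h1 := hm r s
    have h2 := RingHom.map_det (F.val : F →+* Ω) (Matrix.of fun s' t => col δ x' (s t) (r s'))
    have h3 : (F.val : F →+* Ω).mapMatrix (Matrix.of fun s' t => col δ x' (s t) (r s')) =
        Matrix.of fun s' t => col D x (s t) (r s') := by
      ext s' t
      simp only [RingHom.mapMatrix_apply, Matrix.map_apply, Matrix.of_apply]
      rcases s t with _ | p
      · rfl
      · rfl
    rw [h3, h1] at h2
    exact h2

end Pool.Agent.Helper49.LV
end

/- Helper12.LVF.H49.LV.UltraLine -/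
section
/-! # LV-ULTRALINE: an infinite bounded set of points has infinitely many points on one line

Copy of `Helper8.LV.ultra` (`C` empty) with `ul_core_line` instead of `ul_core`: the `P*_jl` are
algebraic over `L`, hence constants `P_jl` in `L` (a polynomial has finitely many roots), and
`P_αβ x_l = x_α P_lβ + x_β P_αl` holds for a large set of members of the sequence. -/

set_option autoImplicit false

namespace Pool.Agent.Helper49.LV

open scoped BigOperators
open Pool.Agent.Helper8.LG
open Pool.Agent.Helper8.LV (Fam Mov Over)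

theorem ultra_line {k L : Type*} [Field k] [Field L] [CharZero L] [Algebra k L]
    {σ ι τ : Type*} [Fintype σ] [DecidableEq σ] [Fintype ι] [DecidableEq ι] [Fintype τ]
    (d b q : ι → ℕ) (hq : ∀ i, 0 < q i) (a aA : (i : ι) → Sym σ (d i) → L)
    (ap : (i : ι) → Sym σ (b i) → L) (ah : (i : ι) → Sym σ (q i) → L)
    (hFam : Fam d b q a aA ap ah) (hAk : Over k aA) (hpk : Over k ap)
    (D : Ix σ q → Derivation ℤ L L) (jj : τ → Ix σ q) (θ : τ → Ix σ q → L)
    (hD : Dual q ah D jj θ)
    (hDk : ∀ p (c : k), D p (algebraMap k L c) = 0)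
    (Z : Finset ι) (i₀ j₁ : σ) (hj : j₁ ≠ i₀) (w : ℕ)
    (hw1 : 2 * w + 1 + Fintype.card τ ≤ ∑ i, q i + Z.card) (hw2 : w + 2 ≤ ∑ i, q i)
    (V : Submodule k L) [FiniteDimensional k V] (S : Set (σ → L)) (hinf : S.Infinite)
    (hS : ∀ x ∈ S, x i₀ = 1 ∧ (∀ i ∈ Z, form (a i) x = 0) ∧ (∀ i ∉ Z, form (a i) x ≠ 0) ∧
      (∀ i, form (ap i) x ≠ 0) ∧ MinorsVanish D x w ∧ ∃ G : L, G ≠ 0 ∧ (∀ l, G * x l ∈ V) ∧
        ∀ i ∉ Z, ∀ J : Sym σ (d i), mon x J / form (a i) x ∈ V) :
    ∃ (α β : σ) (u v : σ → L), α ≠ β ∧ u α = 1 ∧ u β = 0 ∧ v α = 0 ∧ v β = 1 ∧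
      {x ∈ S | ∀ l, x l = x α * u l + x β * v l}.Infinite := by
  classical
  set X : ℕ → σ → L := fun m => (hinf.natEmbedding S m : σ → L) with hX
  have hXS : ∀ m, X m ∈ S := fun m => (hinf.natEmbedding S m).2
  have hXi : Function.Injective X := fun u v huv =>
    (hinf.natEmbedding S).injective (Subtype.ext huv)
  have hS' := fun m => hS (X m) (hXS m)
  choose hX0 hXZ hXU hXP hXm G hG0 hGx hint using hS'
  obtain ⟨Ω, instΩ, Q, hQ, hker⟩ := ul_exists L
  let algLΩ : Algebra L Ω := (Q.comp (Pi.constRingHom ℕ L)).toAlgebra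
  let algkΩ : Algebra k Ω := ((algebraMap L Ω).comp (algebraMap k L)).toAlgebra
  have : IsScalarTower k L Ω := IsScalarTower.of_algebraMap_eq fun _ => rfl
  have : CharZero Ω := charZero_of_injective_algebraMap (algebraMap L Ω).injective
  have halgL : ∀ b : L, algebraMap L Ω b = Q fun _ => b := fun _ => rfl
  have halgk : ∀ b : k, algebraMap k Ω b = Q fun _ => algebraMap k L b := fun _ => rfl
  -- the constants
  set K : Subring Ω := (Q.comp ((algebraMap k L).compLeft ℕ)).range with hK
  have hQK : ∀ g : ℕ → k, Q (fun m => algebraMap k L (g m)) ∈ K := fun g => ⟨g, rfl⟩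
  have hLD : UlDisj k (L := L) K := by
    intro J hJ T z hz hsum
    choose g hg using hz
    have hg' : ∀ b, Q (fun m => algebraMap k L (g b m)) = z b := fun b => hg b
    have h1 := ul_disj Q hker J hJ T g (by
      rw [← hsum]
      exact Finset.sum_congr rfl fun b _ => by rw [hg', halgL])
    intro b hb
    rw [← hg']
    exact h1 b hb
  -- the sequences
  set bV := Module.finBasis k V with hbV
  set r := Module.finrank k V with hr
  set H : Type _ := σ ⊕ (Ix σ d) with hH
  set h : H → ℕ → L := fun η m' => Sum.elim (fun l => G m' * X m' l)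
    (fun p : Ix σ d => if p.1 ∉ Z then mon (X m') p.2 / form (a p.1) (X m') else 0) η with hh
  have hhV : ∀ η m', h η m' ∈ V := by
    rintro (l | p) m'
    · exact hGx m' l
    · show (if p.1 ∉ Z then mon (X m') p.2 / form (a p.1) (X m') else 0) ∈ V
      by_cases hp : p.1 ∉ Z
      · rw [if_pos hp]
        exact hint m' p.1 hp p.2
      · rw [if_neg hp]
        exact V.zero_mem
  set c₀ : H × Fin r → Ω := fun ηj => Q fun m' =>
    algebraMap k L (bV.repr ⟨h ηj.1 m', hhV ηj.1 m'⟩ ηj.2) with hc₀
  set eqv := (Fintype.equivFin (H × Fin r)).symm with heqv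
  set c : Fin (Fintype.card (H × Fin r)) → Ω := fun s => c₀ (eqv s) with hc
  have hcmem : ∀ ηj, c₀ ηj ∈ Algebra.adjoin L (Set.range c) := fun ηj =>
    Algebra.subset_adjoin ⟨eqv.symm ηj, by rw [hc]; simp⟩
  have hhc : ∀ η, Q (h η) ∈ Algebra.adjoin L (Set.range c) := by
    intro η
    have h1 : Q (h η) = ∑ j, algebraMap L Ω (bV j : L) * c₀ (η, j) := by
      have h2 : h η = ∑ j, (fun _ => (bV j : L)) *
          (fun m' => algebraMap k L (bV.repr ⟨h η m', hhV η m'⟩ j)) := by
        funext m'
        rw [Finset.sum_apply]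
        have h3 := congrArg (Subtype.val : V → L) (bV.sum_repr ⟨h η m', hhV η m'⟩)
        rw [Submodule.coe_sum] at h3
        have h4 : ((⟨h η m', hhV η m'⟩ : V) : L) = h η m' := rfl
        rw [h4] at h3
        rw [← h3]
        refine Finset.sum_congr rfl fun j _ => ?_
        show _ = (bV j : L) * algebraMap k L (bV.repr ⟨h η m', hhV η m'⟩ j)
        rw [Submodule.coe_smul, Algebra.smul_def, mul_comm]
      conv_lhs => rw [h2]
      rw [map_sum]
      exact Finset.sum_congr rfl fun j _ => by rw [map_mul]; rfl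
    rw [h1]
    exact sum_mem fun j _ => mul_mem (Subalgebra.algebraMap_mem _ _) (hcmem _)
  -- the core
  have hform : ∀ i, form (fun J => algebraMap L Ω (a i J)) (fun l => Q fun m' => X m' l) =
      Q fun m' => form (a i) (X m') := fun i => (ul_Q_form Q (a i) X).symm
  have hcore := ul_core_line (k := k) (L := L) K (fun b => by rw [halgk]; exact hQK fun _ => b)
    hLD c (fun s => hQK _) d b q hq a aA ap ah hFam hAk hpk (fun p => ulDer Q hQ hker (D p)) jj θ
    ?_ ?_ ?_ ?_ Z w hw1 hw2
    (fun l => Q fun m' => X m' l) i₀ j₁ ?_ hj (Q G) ?_ ?_ ?_ ?_ ?_ ?_ ?_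
  · -- conclusion
    obtain ⟨δ, ⟨α, β, hαβ⟩, halg⟩ := hcore
    have hconst : ∀ z : Ω, IsAlgebraic L z → ∃ b : L, algebraMap L Ω b = z := by
      rintro z ⟨p, hp0, hp⟩
      obtain ⟨f, rfl⟩ := hQ z
      have h1 : ∀ᶠ m' in (Filter.hyperfilter ℕ : Filter ℕ), p.eval (f m') = 0 := by
        rw [← hker (fun m' => p.eval (f m')), ul_Q_eval Q]
        exact hp
      have h2 : ∃ b ∈ (p.roots.toFinset : Set L),
          ∀ᶠ m' in (Filter.hyperfilter ℕ : Filter ℕ), f m' = b := by
        refine (Ultrafilter.eventually_exists_mem_iff p.roots.toFinset.finite_toSet).mp ?_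
        filter_upwards [h1] with m' hm'
        refine ⟨f m', ?_, rfl⟩
        rw [Finset.mem_coe, Multiset.mem_toFinset, Polynomial.mem_roots hp0]
        exact hm'
      obtain ⟨b, -, hb⟩ := h2
      refine ⟨b, ?_⟩
      rw [halgL, ← sub_eq_zero, ← map_sub, hker]
      filter_upwards [hb] with m' hm'
      show b - f m' = 0
      rw [hm', sub_self]
    choose P hP using fun j l => hconst _ (halg j l)
    have hPαβ : P α β ≠ 0 := by
      intro h0
      apply hαβ
      rw [← hP α β, h0, map_zero]
    have hdiag : ∀ j, P j j = 0 := by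
      intro j
      apply (algebraMap L Ω).injective
      rw [hP j j, map_zero]
      ring
    have hne : α ≠ β := by
      rintro rfl
      exact hPαβ (hdiag α)
    refine ⟨α, β, fun l => P l β / P α β, fun l => P α l / P α β, hne, div_self hPαβ, ?_, ?_,
      div_self hPαβ, ?_⟩
    · show P β β / P α β = 0
      rw [hdiag, zero_div]
    · show P α α / P α β = 0
      rw [hdiag, zero_div]
    have hrel : ∀ l, ∀ᶠ m' in (Filter.hyperfilter ℕ : Filter ℕ),
        X m' l = X m' α * (P l β / P α β) + X m' β * (P α l / P α β) := by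
      intro l
      have h1 : (Q fun m' => X m' l - (X m' α * (P l β / P α β) + X m' β * (P α l / P α β))) =
          0 := by
        have h2 : (Q fun m' => X m' l - (X m' α * (P l β / P α β) +
            X m' β * (P α l / P α β))) = (Q fun m' => X m' l) -
            ((Q fun m' => X m' α) * algebraMap L Ω (P l β / P α β) +
              (Q fun m' => X m' β) * algebraMap L Ω (P α l / P α β)) := by
          rw [halgL, halgL, ← map_mul, ← map_mul, ← map_add, ← map_sub]
          rfl
        rw [h2, map_div₀, map_div₀, hP, hP, hP]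
        field_simp
        ring
      rw [hker] at h1
      filter_upwards [h1] with m' hm'
      exact sub_eq_zero.mp hm'
    have hrel' : ∀ᶠ m' in (Filter.hyperfilter ℕ : Filter ℕ), ∀ l,
        X m' l = X m' α * (P l β / P α β) + X m' β * (P α l / P α β) :=
      Filter.eventually_all.2 hrel
    have hinf' : {m' : ℕ | ∀ l, X m' l = X m' α * (P l β / P α β) +
        X m' β * (P α l / P α β)}.Infinite := by
      intro hfin
      exact Filter.notMem_hyperfilter_of_finite hfin hrel'
    refine (hinf'.image hXi.injOn).mono ?_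
    rintro _ ⟨m', hm', rfl⟩
    exact ⟨hXS m', hm'⟩
  · intro s r'
    show ulDer Q hQ hker (D s) (Q fun _ => ah r'.1 r'.2) = _
    rw [ulDer_apply]
    have h1 := hD s r'
    have h2 : (Q fun _ => D s (ah r'.1 r'.2)) = algebraMap L Ω (D s (ah r'.1 r'.2)) := rfl
    rw [h2, h1, map_sub, map_sum]
    congr 1
    · split_ifs
      · rw [map_one]
      · rw [map_zero]
    · refine Finset.sum_congr rfl fun j _ => ?_
      split_ifs
      · rfl
      · rw [map_zero]
  · intro p b
    exact ⟨D p b, ulDer_apply Q hQ hker (D p) _⟩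
  · intro p b
    rw [halgk, ulDer_apply]
    rw [hker]
    exact Filter.Eventually.of_forall fun m' => hDk p b
  · intro p s
    show ulDer Q hQ hker (D p) (Q _) = 0
    rw [ulDer_apply, hker]
    exact Filter.Eventually.of_forall fun m' => hDk p _
  · show Q (fun m' => X m' i₀) = 1
    have h1 : (fun m' => X m' i₀) = 1 := by
      funext m'
      exact hX0 m'
    rw [h1, map_one]
  · intro h0
    rw [hker] at h0
    obtain ⟨m', hm'⟩ := h0.exists
    exact hG0 m' hm'
  · intro l
    show Q G * Q (fun m' => X m' l) ∈ _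
    rw [← map_mul]
    exact hhc (Sum.inl l)
  · intro i hi
    rw [hform, hker]
    exact Filter.Eventually.of_forall fun m' => hXZ m' i hi
  · intro i hi h0
    rw [hform, hker] at h0
    obtain ⟨m', hm'⟩ := h0.exists
    exact hXU m' i hi hm'
  · intro i h0
    have h1 : form (fun J => algebraMap L Ω (ap i J)) (fun l => Q fun m' => X m' l) =
      Q fun m' => form (ap i) (X m') := (ul_Q_form Q (ap i) X).symm
    rw [h1, hker] at h0
    obtain ⟨m', hm'⟩ := h0.exists
    exact hXP m' i hm'
  · intro i hi1 J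
    rw [hform, ← ul_Q_mon Q X J, ← ul_Q_div Q hker _ _ fun m' => hXU m' i hi1]
    have h1 := hhc (Sum.inr ⟨i, J⟩)
    have h2 : h (Sum.inr ⟨i, J⟩) = fun m' => mon (X m') J / form (a i) (X m') := by
      funext m'
      exact if_pos hi1
    rw [h2] at h1
    exact h1
  · intro rr ss
    have h1 := RingHom.map_det Q (Matrix.of fun s t => fun m' => col D (X m') (ss t) (rr s))
    have h2 : Q.mapMatrix (Matrix.of fun s t => fun m' => col D (X m') (ss t) (rr s)) =
        Matrix.of fun s t => col (fun p => ulDer Q hQ hker (D p)) (fun l => Q fun m' => X m' l)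
          (ss t) (rr s) := by
      ext s t
      simp only [RingHom.mapMatrix_apply, Matrix.map_apply, Matrix.of_apply]
      rcases ss t with _ | p
      · rfl
      · exact (ulDer_apply Q hQ hker (D p) _).symm
    rw [← h2, ← h1, hker]
    refine Filter.Eventually.of_forall fun m' => ?_
    have h3 := RingHom.map_det (Pi.evalRingHom (fun _ : ℕ => L) m')
      (Matrix.of fun s t => fun m' => col D (X m') (ss t) (rr s))
    have h4 : (Pi.evalRingHom (fun _ : ℕ => L) m').mapMatrix
        (Matrix.of fun s t => fun m' => col D (X m') (ss t) (rr s)) =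
        Matrix.of fun s t => col D (X m') (ss t) (rr s) := rfl
    rw [h4, hXm m' rr ss] at h3
    exact h3

end Pool.Agent.Helper49.LV
end
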