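import Mathlib.FieldTheory.Differential.Basic
import Pool.Agent.Helper12.LVM.C02
import Pool.Agent.Helper12.LVM.C04
import Pool.Agent.Helper12.LVM.C05
import Pool.Agent.Helper12.LVM.C06
import Pool.Agent.Helper12.LVM.C07
import Pool.Agent.Helper12.LVM.C08

/- Helper12.LVF.H10.LB.MasonKey -/
section
/-! # LB-MK: the key lemmas at one valuation ring -/

set_option autoImplicit false

namespace Pool.Agent.Helper10.LB

open Polynomial Pool.Agent.Helper8.LG

variable {E : Type*} [Field E] [CharZero E]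

theorem mason_key (O : ValuationSubring E) (D : Derivation ℤ E E) (Δ : E) (hΔ : Δ ∈ O)
    (hD : ∀ f ∈ O, Δ * D f ∈ O) (h q s α β α' β' : E[X]) (hmon : h.Monic)
    (hr : 3 ≤ h.natDegree) (hq : q.natDegree < h.natDegree)
    (hs : mapD D h + derivative h * q = h * s)
    (h1 : α * h + β * derivative h = 1) (h2 : α' * h.reverse + β' * derivative h.reverse = 1)
    (bd : ∀ n, Δ * q.coeff n ∈ O ∧ Δ * s.coeff n ∈ O ∧ Δ * α.coeff n ∈ O ∧
      Δ * β.coeff n ∈ O ∧ Δ * α'.coeff n ∈ O ∧ Δ * β'.coeff n ∈ O)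
    (z : E) (hz : h.eval z ≠ 0)
    (hlog : z ∈ O → Δ * (D (h.eval z) / h.eval z) ∈ O)
    (hlog' : z⁻¹ ∈ O → Δ * (D (h.reverse.eval z⁻¹) / h.reverse.eval z⁻¹) ∈ O) :
    Δ ^ 2 * ((D z - q.eval z) / h.eval z) ∈ O ∧
      Δ ^ 2 * ((D z - q.eval z) / h.eval z * z) ∈ O := by
  have h3 := Pool.Agent.Helper74.LG.mason_key D h.natDegree hr h q s α β α' β' hmon rfl h1 h2 hq
    hs z hz O Δ hD (fun n => (bd n).1) (fun n => (bd n).2.1) (fun n => (bd n).2.2.1)
    (fun n => (bd n).2.2.2.1) (fun n => (bd n).2.2.2.2.1) (fun n => (bd n).2.2.2.2.2)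
    hlog (fun _ => hlog')
  refine ⟨h3.1, ?_⟩
  rw [mul_comm _ z]
  exact h3.2

theorem tail_key (O : ValuationSubring E) (D : Derivation ℤ E E) (Δ : E) (hΔ : Δ ∈ O)
    (hD : ∀ f ∈ O, Δ * D f ∈ O) (q : E[X]) (hq : 3 ≤ q.natDegree)
    (bd : ∀ n, Δ * q.coeff n ∈ O) (z : E) (hz : D z = q.eval z) :
    Δ * q.leadingCoeff ∈ O ∧ Δ * (q.leadingCoeff * z) ∈ O :=
  ⟨bd _, Pool.Agent.Helper74.LG.tail_key D q hq z hz O Δ hD bd⟩

theorem root_key (O : ValuationSubring E) (Δ : E) (g : E[X]) (hg : g ≠ 0)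
    (bd : ∀ n, Δ * g.coeff n ∈ O) (z : E) (hz : g.eval z = 0) :
    Δ * (g.leadingCoeff * z) ∈ O := by
  by_cases hzO : z ∈ O
  · rw [← mul_assoc]
    exact O.mul_mem _ _ (bd _) hzO
  · have hz0 : z ≠ 0 := fun h0 => hzO (h0 ▸ O.zero_mem)
    have hv : z⁻¹ ∈ O := (O.mem_or_inv_mem z).resolve_left hzO
    have hdeg : g.natDegree ≠ 0 := by
      intro h0
      rw [eq_C_of_natDegree_eq_zero h0, eval_C] at hz
      apply hg
      rw [eq_C_of_natDegree_eq_zero h0, hz, C_0]
    obtain ⟨m, hm⟩ : ∃ m, g.natDegree = m + 1 := ⟨g.natDegree - 1, by omega⟩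
    set v := z⁻¹ with hvdef
    have hvz : v * z = 1 := inv_mul_cancel₀ hz0
    have e1 : g.eval z = g.eraseLead.eval z + g.leadingCoeff * z ^ (m + 1) := by
      conv_lhs => rw [← eraseLead_add_C_mul_X_pow g]
      rw [hm]
      simp
    have c1 : ∀ i, Δ * g.eraseLead.coeff i ∈ O := by
      intro i
      rw [eraseLead_coeff]
      split_ifs
      · rw [mul_zero]
        exact O.zero_mem
      · exact bd i
    have h1 := Pool.Agent.Helper74.LG.eval_mem_inv O Δ g.eraseLead c1 hvz hv m (by
      have := eraseLead_natDegree_le g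
      omega)
    have h3 : v ^ m * z ^ m = 1 := by rw [← mul_pow, hvz, one_pow]
    have e2 : Δ * (g.leadingCoeff * z) = -(Δ * (v ^ m * g.eraseLead.eval z)) := by
      rw [hz] at e1
      linear_combination (-Δ * g.leadingCoeff * z) * h3 - Δ * v ^ m * e1
    rw [e2]
    exact O.neg_mem _ h1

end Pool.Agent.Helper10.LB
end

/- Helper12.LVF.H10.LB.DirPrep -/
section
/-! # LB-DP: preparation of the directions -/

set_option autoImplicit false

namespace Pool.Agent.Helper10.LB

open scoped BigOperators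
open Polynomial Pool.Agent.Helper8.LG

private theorem dprep_inv {L : Type*} [Field L] (D : Derivation ℤ L L) (f : L) :
    D f⁻¹ = -(f⁻¹ ^ 2) * D f := by
  have h := Derivation.leibniz_inv D f
  rw [h, smul_eq_mul]

private theorem dprep_stable {k L : Type*} [Field k] [Field L] [Algebra k L] {P T : Type*}
    [DecidableEq T] (y : T → L) (D : P → Derivation ℤ L L) (hy : Dirs k y D) (i : T) (p : P) :
    ∀ f ∈ others (k := k) y i, D p f ∈ others (k := k) y i := by
  intro f hf
  have hf' : f ∈ IntermediateField.adjoin k (y '' {i}ᶜ) := hf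
  change D p f ∈ IntermediateField.adjoin k (y '' {i}ᶜ)
  induction hf' using IntermediateField.adjoin_induction with
  | mem x hx =>
    obtain ⟨j, _, rfl⟩ := hx
    obtain ⟨n, hn⟩ := hy.int p j
    rw [hn]
    exact intCast_mem _ n
  | algebraMap c =>
    rw [hy.ker p c]
    exact zero_mem _
  | add x y hx hy hx' hy' =>
    rw [map_add]
    exact add_mem (hx' hx) (hy' hy)
  | inv x hx hx' =>
    rw [dprep_inv]
    exact mul_mem (neg_mem (pow_mem (inv_mem hx) 2)) (hx' hx)
  | mul x y hx hy hx' hy' =>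
    rw [Derivation.leibniz, smul_eq_mul, smul_eq_mul]
    exact add_mem (mul_mem hx (hy' hy)) (mul_mem hy (hx' hx))

/-- both charts at once: `t` is transcendental and `L` is finite over `others(t)` -/
private theorem dprep_chart {k L : Type*} [Field k] [Field L] [Algebra k L] {P T : Type*}
    [DecidableEq T] (y : T → L) (D : P → Derivation ℤ L L) (hy : Dirs k y D) (i : T) (t : L)
    (ht : t = y i ∨ t = (y i)⁻¹) :
    Transcendental (others (k := k) y i) t ∧
      FiniteDimensional (Subfield.closure ((others (k := k) y i : Set L) ∪ {t})) L := by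
  rcases ht with rfl | rfl
  · exact ⟨(others_transcendental (k := k) y hy.ind i).1, (others_finite (k := k) y hy.fin i).1⟩
  · exact ⟨(others_transcendental (k := k) y hy.ind i).2, (others_finite (k := k) y hy.fin i).2⟩

/-- one `Δ` for a direction `t = y_i` or `t = 1 / y_i` -/
theorem dir_prep {k L : Type*} [Field k] [Field L] [CharZero L] [Algebra k L] {P T : Type*}
    [Finite P] [Finite T] [DecidableEq T] (y : T → L) (D : P → Derivation ℤ L L)
    (hy : Dirs k y D) (V : Submodule k L) [FiniteDimensional k V] (S : Set L) (hS : S.Finite)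
    (i : T) (t : L) (ht : t = y i ∨ t = (y i)⁻¹) :
    ∃ Δ : L, Δ ≠ 0 ∧ Δ ∈ intCl (others (k := k) y i) t ∧
      ∀ O : ValuationSubring L, intCl (others (k := k) y i) t ≤ O.toSubring →
        Bdd D Δ O ∧ (∀ f ∈ V, Δ * f ∈ O) ∧ ∀ f ∈ S, Δ * f ∈ O := by
  classical
  obtain ⟨htr, hfin⟩ := dprep_chart y D hy i t ht
  obtain ⟨B, hB⟩ := (Submodule.fg_iff_finiteDimensional V).2 inferInstance
  have hDt : ∀ p, D p t ∈ Subring.closure ((others (k := k) y i : Set L) ∪ {t}) := by
    intro p
    obtain ⟨n, hn⟩ := hy.int p i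
    rcases ht with rfl | rfl
    · rw [hn]
      exact intCast_mem _ n
    · have h1 : (y i)⁻¹ ∈ Subring.closure ((others (k := k) y i : Set L) ∪ {(y i)⁻¹}) :=
        Subring.subset_closure (Or.inr rfl)
      rw [dprep_inv, hn]
      exact mul_mem (neg_mem (pow_mem h1 2)) (intCast_mem _ n)
  obtain ⟨Δ, hΔ, hΔ0, hΔD, hΔS⟩ := exists_bound (others (k := k) y i) t htr hfin D
    (fun p => dprep_stable y D hy i p) hDt ((B : Set L) ∪ S) (B.finite_toSet.union hS)
  have hcl : Subring.closure ((others (k := k) y i : Set L) ∪ {t}) ≤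
      intCl (others (k := k) y i) t := by
    intro f hf
    exact isIntegral_algebraMap
      (R := Subring.closure ((others (k := k) y i : Set L) ∪ {t})) (x := ⟨f, hf⟩)
  have hk : ∀ c : k, algebraMap k L c ∈ intCl (others (k := k) y i) t := by
    intro c
    refine hcl (Subring.subset_closure (Or.inl ?_))
    exact IntermediateField.algebraMap_mem (IntermediateField.adjoin k (y '' {i}ᶜ)) c
  obtain ⟨hded, hfr⟩ := intCl_dedekind (others (k := k) y i) t htr hfin
  refine ⟨Δ, hΔ0, hcl hΔ, ?_⟩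
  intro O hO
  have := hded
  have := hfr
  refine ⟨bdd_of (intCl (others (k := k) y i) t) D Δ (hcl hΔ) hΔD O hO, ?_, ?_⟩
  · intro f hf
    rw [← hB] at hf
    induction hf using Submodule.span_induction with
    | mem x hx => exact hO (hΔS x (Or.inl hx))
    | zero =>
      rw [mul_zero]
      exact O.zero_mem
    | add x y _ _ hx hy =>
      rw [mul_add]
      exact O.add_mem _ _ hx hy
    | smul c x _ hx =>
      rw [Algebra.smul_def, mul_left_comm]
      exact O.mul_mem _ _ (hO (hk c)) hx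
  · intro f hf
    exact hO (hΔS f (Or.inr hf))

/-- an element with bounded poles in all directions lies in a finite-dimensional space -/
theorem fd_of_dirs {k L : Type*} [Field k] [Field L] [CharZero L] [Algebra k L] {P T : Type*}
    [Finite P] [Finite T] [DecidableEq T] (y : T → L) (D : P → Derivation ℤ L L)
    (hy : Dirs k y D) (Δ : T → Bool → L) (h0 : ∀ i b, Δ i b ≠ 0) :
    ∃ V : Submodule k L, FiniteDimensional k V ∧ ∀ g : L,
      (∀ i b, ∀ O : ValuationSubring L,
        intCl (others (k := k) y i) (if b then y i else (y i)⁻¹) ≤ O.toSubring →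
          Δ i b * g ∈ O) → g ∈ V := by
  obtain ⟨V, hV, h⟩ := fd y hy.ind hy.fin (fun i => Δ i true) (fun i => Δ i false)
    (fun i => h0 i true) (fun i => h0 i false)
  refine ⟨V, hV, ?_⟩
  intro g hg
  apply h
  intro i
  constructor
  · obtain ⟨htr, hfin⟩ := dprep_chart y D hy i (y i) (Or.inl rfl)
    obtain ⟨hded, hfr⟩ := intCl_dedekind (others (k := k) y i) (y i) htr hfin
    have := hded
    have := hfr
    exact mem_of _ _ (fun O hO => hg i true O hO)
  · obtain ⟨htr, hfin⟩ := dprep_chart y D hy i (y i)⁻¹ (Or.inr rfl)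
    obtain ⟨hded, hfr⟩ := intCl_dedekind (others (k := k) y i) (y i)⁻¹ htr hfin
    have := hded
    have := hfr
    exact mem_of _ _ (fun O hO => hg i false O hO)

end Pool.Agent.Helper10.LB
end

/- Helper12.LVF.H10.LB.RootTail -/
section
/-! # LB-RT: roots of bounded polynomials; equations of higher degree -/

set_option autoImplicit false

namespace Pool.Agent.Helper10.LB

open scoped BigOperators
open Polynomial Pool.Agent.Helper8.LG

theorem tail_bound {k L : Type*} [Field k] [Field L] [CharZero L] [Algebra k L] {P T : Type*}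
    [Finite P] [Finite T] [DecidableEq T] (y : T → L) (D : P → Derivation ℤ L L)
    (hy : Dirs k y D) (V : Submodule k L) [FiniteDimensional k V] :
    ∃ V' : Submodule k L, FiniteDimensional k V' ∧ ∀ (p : P) (z e : L) (q : L[X]),
      e ∈ V → e ≠ 0 → (∀ n, e * q.coeff n ∈ V) → 3 ≤ q.natDegree → D p z = q.eval z →
      e * q.leadingCoeff ∈ V' ∧ e * (q.leadingCoeff * z) ∈ V' := by
  have hprep : ∀ (i : T) (b : Bool), ∃ Δ : L, Δ ≠ 0 ∧
      Δ ∈ intCl (others (k := k) y i) (if b then y i else (y i)⁻¹) ∧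
      ∀ O : ValuationSubring L,
        intCl (others (k := k) y i) (if b then y i else (y i)⁻¹) ≤ O.toSubring →
        Bdd D Δ O ∧ (∀ f ∈ V, Δ * f ∈ O) ∧ ∀ f ∈ (∅ : Set L), Δ * f ∈ O := by
    intro i b
    refine dir_prep y D hy V ∅ Set.finite_empty i _ ?_
    cases b
    · right; simp
    · left; simp
  choose Δ h0 _ hΔ using hprep
  obtain ⟨V', hV', hfd⟩ := fd_of_dirs y D hy (fun i b => Δ i b ^ 2)
    (fun i b => pow_ne_zero 2 (h0 i b))
  refine ⟨V', hV', fun p z e q heV _ hq hdeg hz => ?_⟩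
  have key : ∀ (i : T) (b : Bool) (O : ValuationSubring L),
      intCl (others (k := k) y i) (if b then y i else (y i)⁻¹) ≤ O.toSubring →
      Δ i b ^ 2 * e * q.leadingCoeff ∈ O ∧ Δ i b ^ 2 * e * (q.leadingCoeff * z) ∈ O := by
    intro i b O hO
    obtain ⟨⟨hb1, hb2⟩, hV, -⟩ := hΔ i b O hO
    have he : Δ i b * e ∈ O := hV e heV
    refine tail_key O (D p) (Δ i b ^ 2 * e) ?_ ?_ q hdeg ?_ z hz
    · have h := O.mul_mem _ _ hb1 he
      have e1 : Δ i b ^ 2 * e = Δ i b * (Δ i b * e) := by ring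
      rw [e1]; exact h
    · intro f hf
      have h := O.mul_mem _ _ he (hb2 p f hf)
      have e1 : Δ i b ^ 2 * e * D p f = Δ i b * e * (Δ i b * D p f) := by ring
      rw [e1]; exact h
    · intro n
      have h := O.mul_mem _ _ hb1 (hV _ (hq n))
      have e1 : Δ i b ^ 2 * e * q.coeff n = Δ i b * (Δ i b * (e * q.coeff n)) := by ring
      rw [e1]; exact h
  constructor
  · refine hfd _ fun i b O hO => ?_
    have h := (key i b O hO).1
    rwa [mul_assoc] at h
  · refine hfd _ fun i b O hO => ?_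
    have h := (key i b O hO).2
    rwa [mul_assoc] at h

theorem root_bound {k L : Type*} [Field k] [Field L] [CharZero L] [Algebra k L] {P T : Type*}
    [Finite P] [Finite T] [DecidableEq T] (y : T → L) (D : P → Derivation ℤ L L)
    (hy : Dirs k y D) (V : Submodule k L) [FiniteDimensional k V] :
    ∃ V' : Submodule k L, FiniteDimensional k V' ∧ ∀ (z : L) (g : L[X]), g ≠ 0 →
      (∀ n, g.coeff n ∈ V) → g.eval z = 0 → g.leadingCoeff * z ∈ V' := by
  have hprep : ∀ (i : T) (b : Bool), ∃ Δ : L, Δ ≠ 0 ∧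
      Δ ∈ intCl (others (k := k) y i) (if b then y i else (y i)⁻¹) ∧
      ∀ O : ValuationSubring L,
        intCl (others (k := k) y i) (if b then y i else (y i)⁻¹) ≤ O.toSubring →
        Bdd D Δ O ∧ (∀ f ∈ V, Δ * f ∈ O) ∧ ∀ f ∈ (∅ : Set L), Δ * f ∈ O := by
    intro i b
    refine dir_prep y D hy V ∅ Set.finite_empty i _ ?_
    cases b
    · right; simp
    · left; simp
  choose Δ h0 _ hΔ using hprep
  obtain ⟨V', hV', hfd⟩ := fd_of_dirs y D hy Δ h0
  refine ⟨V', hV', fun z g hg hc hz => hfd _ fun i b O hO => ?_⟩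
  obtain ⟨-, hV, -⟩ := hΔ i b O hO
  exact root_key O (Δ i b) g hg (fun n => hV _ (hc n)) z hz

end Pool.Agent.Helper10.LB
end

/- Helper12.LVF.H10.LB.BField -/
section
/-! # LB-BF: the bounded elements of the ultrapower -/

set_option autoImplicit false

namespace Pool.Agent.Helper10.LB

open scoped BigOperators
open Polynomial Pool.Agent.Helper8.LG

universe v

variable (k : Type v) {L Ω : Type*} [Field k] [Field L] [Algebra k L] [Field Ω]
  (Q : (ℕ → L) →+* Ω)

/-- `Q` is the quotient map onto the ultrapower -/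
structure IsUl (Q : (ℕ → L) →+* Ω) : Prop where
  surj : Function.Surjective Q
  ker : ∀ f, Q f = 0 ↔ ∀ᶠ m in (Filter.hyperfilter ℕ : Filter ℕ), f m = 0

/-- the bounded elements: quotients of sequences with values in finite-dimensional `k`-spaces -/
def bset : Set Ω :=
  {z | ∃ V : Submodule k L, FiniteDimensional k V ∧ ∃ n d : ℕ → L,
    (∀ m, n m ∈ V) ∧ (∀ m, d m ∈ V) ∧ (∀ m, d m ≠ 0) ∧ z * Q d = Q n}

variable {k Q}

theorem bf_ne (hQ : IsUl Q) (d : ℕ → L)
    (hd : ∀ᶠ m in (Filter.hyperfilter ℕ : Filter ℕ), d m ≠ 0) : Q d ≠ 0 := by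
  intro h
  rw [hQ.ker] at h
  obtain ⟨m, h1, h2⟩ := (h.and hd).exists
  exact h2 h1

theorem bf_prod {S : Type*} (W : Submodule k L) (T : Finset S) (f : S → L)
    (hf : ∀ s ∈ T, f s ∈ W) : ∏ s ∈ T, f s ∈ W ^ T.card := by
  classical
  induction T using Finset.induction_on with
  | empty =>
    rw [Finset.prod_empty, Finset.card_empty, pow_zero]
    exact Submodule.one_le.1 le_rfl
  | insert a T ha ih =>
    rw [Finset.prod_insert ha, Finset.card_insert_of_notMem ha, pow_succ']
    exact Submodule.mul_mem_mul (hf a (Finset.mem_insert_self a T))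
      (ih fun s hs => hf s (Finset.mem_insert_of_mem hs))

theorem bf_fd_pow (W : Submodule k L) [FiniteDimensional k W] (n : ℕ) :
    FiniteDimensional k ↥(W ^ n) := by
  have h : W.FG := (Submodule.fg_iff_finiteDimensional W).2 inferInstance
  exact (Submodule.fg_iff_finiteDimensional _).1 (h.pow n)

theorem bf_fd_mul (V W : Submodule k L) [FiniteDimensional k V] [FiniteDimensional k W] :
    FiniteDimensional k ↥(V * W) := by
  have h : V.FG := (Submodule.fg_iff_finiteDimensional V).2 inferInstance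
  have h' : W.FG := (Submodule.fg_iff_finiteDimensional W).2 inferInstance
  exact (Submodule.fg_iff_finiteDimensional _).1 (h.mul h')

/-- finitely many bounded elements have a common denominator -/
theorem bset_common (hQ : IsUl Q) {S : Type*} [Finite S] (z : S → Ω) (hz : ∀ s, z s ∈ bset k Q) :
    ∃ V : Submodule k L, FiniteDimensional k V ∧ ∃ (n : S → ℕ → L) (d : ℕ → L),
      (∀ s m, n s m ∈ V) ∧ (∀ m, d m ∈ V) ∧ (∀ m, d m ≠ 0) ∧ ∀ s, z s * Q d = Q (n s) := by
  classical
  have := Fintype.ofFinite S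
  choose V hV n d hn hd hd0 hz' using hz
  let W : Submodule k L := ⨆ s, V s
  have hW : FiniteDimensional k W := inferInstance
  have hVW : ∀ s, V s ≤ W := fun s => le_iSup V s
  let f : S → ℕ → S → L := fun s m t => if t = s then n s m else d t m
  refine ⟨W ^ (Finset.univ : Finset S).card, bf_fd_pow W _, fun s m => ∏ t, f s m t,
    fun m => ∏ t, d t m, fun s m => ?_, fun m => ?_, fun m => ?_, fun s => ?_⟩
  · refine bf_prod W _ _ fun t _ => ?_
    by_cases h : t = s
    · simp only [f, if_pos h]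
      exact hVW s (hn s m)
    · simp only [f, if_neg h]
      exact hVW t (hd t m)
  · exact bf_prod W _ _ fun t _ => hVW t (hd t m)
  · exact Finset.prod_ne_zero_iff.2 fun t _ => hd0 t m
  · have h1 : (fun m => ∏ t, d t m) = d s * fun m => ∏ t ∈ Finset.univ.erase s, d t m := by
      funext m
      exact (Finset.mul_prod_erase _ _ (Finset.mem_univ s)).symm
    have h2 : (fun m => ∏ t, f s m t) = n s * fun m => ∏ t ∈ Finset.univ.erase s, d t m := by
      funext m
      rw [← Finset.mul_prod_erase _ _ (Finset.mem_univ s)]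
      have h3 : f s m s = n s m := if_pos rfl
      rw [h3]
      show _ = n s m * _
      congr 1
      exact Finset.prod_congr rfl fun t ht => if_neg (Finset.ne_of_mem_erase ht)
    show z s * Q (fun m => ∏ t, d t m) = Q (fun m => ∏ t, f s m t)
    rw [h1, h2, map_mul, map_mul, ← mul_assoc, hz' s]

/-- the same with the quotients themselves -/
theorem bset_lift (hQ : IsUl Q) {S : Type*} [Finite S] (z : S → Ω) (hz : ∀ s, z s ∈ bset k Q) :
    ∃ V : Submodule k L, FiniteDimensional k V ∧ ∃ (ζ : S → ℕ → L) (e : ℕ → L),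
      (∀ m, e m ∈ V) ∧ (∀ m, e m ≠ 0) ∧ (∀ s m, e m * ζ s m ∈ V) ∧ ∀ s, Q (ζ s) = z s := by
  obtain ⟨V, hV, n, d, hn, hd, hd0, h⟩ := bset_common hQ z hz
  refine ⟨V, hV, fun s m => n s m / d m, d, hd, hd0, fun s m => ?_, fun s => ?_⟩
  · show d m * (n s m / d m) ∈ V
    rw [mul_div_cancel₀ _ (hd0 m)]
    exact hn s m
  · rw [ul_Q_div Q hQ.ker _ _ hd0, ← h s]
    exact mul_div_cancel_right₀ _ (bf_ne hQ d (Filter.Eventually.of_forall hd0))

theorem bset_of_fd (hQ : IsUl Q) (V : Submodule k L) [FiniteDimensional k V] (n d : ℕ → L)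
    (hn : ∀ᶠ m in (Filter.hyperfilter ℕ : Filter ℕ), n m ∈ V)
    (hd : ∀ᶠ m in (Filter.hyperfilter ℕ : Filter ℕ), d m ∈ V)
    (hd0 : ∀ᶠ m in (Filter.hyperfilter ℕ : Filter ℕ), d m ≠ 0)
    (z : Ω) (hz : z * Q d = Q n) : z ∈ bset k Q := by
  classical
  let G : ℕ → Prop := fun m => n m ∈ V ∧ d m ∈ V ∧ d m ≠ 0
  have hG : ∀ᶠ m in (Filter.hyperfilter ℕ : Filter ℕ), G m := hn.and (hd.and hd0)
  let n' : ℕ → L := fun m => if G m then n m else 1
  let d' : ℕ → L := fun m => if G m then d m else 1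
  have hV1 : V ≤ V ⊔ k ∙ (1 : L) := le_sup_left
  have h1V : (1 : L) ∈ V ⊔ k ∙ (1 : L) :=
    (le_sup_right : k ∙ (1 : L) ≤ V ⊔ k ∙ (1 : L)) (Submodule.mem_span_singleton_self _)
  have e1 : Q d' = Q d := by
    rw [ul_eq Q hQ.ker]
    filter_upwards [hG] with m hm
    exact if_pos hm
  have e2 : Q n' = Q n := by
    rw [ul_eq Q hQ.ker]
    filter_upwards [hG] with m hm
    exact if_pos hm
  refine ⟨V ⊔ k ∙ (1 : L), inferInstance, n', d', fun m => ?_, fun m => ?_, fun m => ?_, ?_⟩
  · by_cases h : G m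
    · simp only [n', if_pos h]
      exact hV1 h.1
    · simp only [n', if_neg h]
      exact h1V
  · by_cases h : G m
    · simp only [d', if_pos h]
      exact hV1 h.2.1
    · simp only [d', if_neg h]
      exact h1V
  · by_cases h : G m
    · simp only [d', if_pos h]
      exact h.2.2
    · simp only [d', if_neg h]
      exact one_ne_zero
  · rw [e1, e2, hz]

theorem bset_const (hQ : IsUl Q) (b : L) : (Q fun _ => b) ∈ bset k Q := by
  have hfd : FiniteDimensional k (Submodule.span k ({b, 1} : Set L)) :=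
    FiniteDimensional.span_of_finite k (Set.toFinite _)
  refine bset_of_fd hQ (Submodule.span k {b, 1}) (fun _ => b) (fun _ => 1)
    (Filter.Eventually.of_forall fun _ => Submodule.subset_span (Set.mem_insert _ _))
    (Filter.Eventually.of_forall fun _ => Submodule.subset_span
      (Set.mem_insert_of_mem _ (Set.mem_singleton _)))
    (Filter.Eventually.of_forall fun _ => one_ne_zero) _ ?_
  have h : Q (fun _ => (1 : L)) = 1 := map_one Q
  rw [h, mul_one]

theorem bset_mul (hQ : IsUl Q) (x y : Ω) (hx : x ∈ bset k Q) (hy : y ∈ bset k Q) :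
    x * y ∈ bset k Q := by
  obtain ⟨V, hV, n, d, hn, hd, hd0, h1⟩ := bset_common hQ (fun b : Bool => if b then x else y)
    (fun b => by cases b <;> assumption)
  have hF := bf_fd_mul V V
  refine bset_of_fd hQ (V * V) (n true * n false) (d * d)
    (Filter.Eventually.of_forall fun m => Submodule.mul_mem_mul (hn _ m) (hn _ m))
    (Filter.Eventually.of_forall fun m => Submodule.mul_mem_mul (hd m) (hd m))
    (Filter.Eventually.of_forall fun m => mul_ne_zero (hd0 m) (hd0 m)) _ ?_
  have e1 : x * Q d = Q (n true) := h1 true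
  have e2 : y * Q d = Q (n false) := h1 false
  rw [map_mul, map_mul, ← e1, ← e2]
  ring

theorem bset_add (hQ : IsUl Q) (x y : Ω) (hx : x ∈ bset k Q) (hy : y ∈ bset k Q) :
    x + y ∈ bset k Q := by
  obtain ⟨V, hV, n, d, hn, hd, hd0, h1⟩ := bset_common hQ (fun b : Bool => if b then x else y)
    (fun b => by cases b <;> assumption)
  refine bset_of_fd hQ V (n true + n false) d
    (Filter.Eventually.of_forall fun m => add_mem (hn _ m) (hn _ m))
    (Filter.Eventually.of_forall fun m => hd m)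
    (Filter.Eventually.of_forall fun m => hd0 m) _ ?_
  have e1 : x * Q d = Q (n true) := h1 true
  have e2 : y * Q d = Q (n false) := h1 false
  rw [map_add, ← e1, ← e2]
  ring

theorem bset_inv (hQ : IsUl Q) (x : Ω) (hx : x ∈ bset k Q) : x⁻¹ ∈ bset k Q := by
  rcases eq_or_ne x 0 with h0 | h0
  · rw [h0, inv_zero, ← h0]
    exact hx
  · obtain ⟨V, hV, n, d, hn, hd, hd0, h1⟩ := hx
    have hd' := bf_ne hQ d (Filter.Eventually.of_forall hd0)
    refine bset_of_fd hQ V d n (Filter.Eventually.of_forall fun m => hd m)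
      (Filter.Eventually.of_forall fun m => hn m) ?_ _ ?_
    · have h2 : Q n ≠ 0 := by
        rw [← h1]
        exact mul_ne_zero h0 hd'
      exact Ultrafilter.eventually_not.2 fun h3 => h2 ((hQ.ker n).2 h3)
    · rw [← h1, inv_mul_cancel_left₀ h0]

variable (k) in
/-- the subfield of the bounded elements -/
theorem exists_BF (hQ : IsUl Q) : ∃ F : Subfield Ω, (F : Set Ω) = bset k Q := by
  have h1 : (1 : Ω) ∈ bset k Q := by
    have h := bset_const (k := k) hQ (1 : L)
    have h' : Q (fun _ => (1 : L)) = 1 := map_one Q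
    rwa [h'] at h
  have h0 : (0 : Ω) ∈ bset k Q := by
    have h := bset_const (k := k) hQ (0 : L)
    have h' : Q (fun _ => (0 : L)) = 0 := map_zero Q
    rwa [h'] at h
  have hm : (-1 : Ω) ∈ bset k Q := by
    have h := bset_const (k := k) hQ (-1 : L)
    have h' : Q (fun _ => (-1 : L)) = -1 := by
      have h2 : (fun _ : ℕ => (-1 : L)) = -1 := rfl
      rw [h2, map_neg, map_one]
    rwa [h'] at h
  exact ⟨{ carrier := bset k Q
           mul_mem' := fun {x y} hx hy => bset_mul hQ x y hx hy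
           one_mem' := h1
           add_mem' := fun {x y} hx hy => bset_add hQ x y hx hy
           zero_mem' := h0
           neg_mem' := fun {x} hx => by
             rw [← neg_one_mul]
             exact bset_mul hQ _ _ hm hx
           inv_mem' := fun x hx => bset_inv hQ x hx }, rfl⟩

variable (k) in
/-- the subfield of the bounded elements -/
noncomputable def BF (hQ : IsUl Q) : Subfield Ω := (exists_BF k hQ).choose

variable (k) in
theorem mem_BF (hQ : IsUl Q) (z : Ω) : z ∈ BF k hQ ↔ z ∈ bset k Q := by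
  have h := (exists_BF k hQ).choose_spec
  rw [← h]
  rfl

theorem const_mem (hQ : IsUl Q) (b : L) : (Q fun _ => b) ∈ BF k hQ := by
  rw [mem_BF]
  exact bset_const hQ b

/-- stable under the derivations which kill `k` -/
theorem der_mem (hQ : IsUl Q) (D : Derivation ℤ L L) (hD : ∀ c : k, D (algebraMap k L c) = 0)
    (z : Ω) (hz : z ∈ BF k hQ) : ulDer Q hQ.surj hQ.ker D z ∈ BF k hQ := by
  rw [mem_BF] at hz ⊢
  obtain ⟨V, hV, n, d, hn, hd, hd0, h1⟩ := hz
  let T : L →ₗ[k] L :=
    { toFun := D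
      map_add' := fun x y => map_add D x y
      map_smul' := fun c x => by
        show D (c • x) = c • D x
        rw [Algebra.smul_def c x, D.leibniz, hD, smul_zero, add_zero, smul_eq_mul,
          Algebra.smul_def c (D x)] }
  let W : Submodule k L := V ⊔ V.map T
  have hW : FiniteDimensional k W := inferInstance
  have hF := bf_fd_mul W W
  have hVW : V ≤ W := le_sup_left
  have hTW : ∀ x ∈ V, D x ∈ W := fun x hx =>
    (le_sup_right : V.map T ≤ W) (Submodule.mem_map_of_mem (f := T) hx)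
  have hd' := bf_ne hQ d (Filter.Eventually.of_forall hd0)
  refine bset_of_fd hQ (W * W) (fun m => D (n m) * d m - n m * D (d m)) (d * d)
    (Filter.Eventually.of_forall fun m => sub_mem
      (Submodule.mul_mem_mul (hTW _ (hn m)) (hVW (hd m)))
      (Submodule.mul_mem_mul (hVW (hn m)) (hTW _ (hd m))))
    (Filter.Eventually.of_forall fun m => Submodule.mul_mem_mul (hVW (hd m)) (hVW (hd m)))
    (Filter.Eventually.of_forall fun m => mul_ne_zero (hd0 m) (hd0 m)) _ ?_
  have e1 : ulDer Q hQ.surj hQ.ker D (z * Q d) = ulDer Q hQ.surj hQ.ker D (Q n) := by rw [h1]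
  rw [Derivation.leibniz, ulDer_apply, ulDer_apply, smul_eq_mul, smul_eq_mul] at e1
  have e2 : (fun m => D (n m) * d m - n m * D (d m)) =
      (fun m => D (n m)) * d - n * (fun m => D (d m)) := rfl
  rw [e2, map_sub, map_mul, map_mul, map_mul, ← e1, ← h1]
  ring

/-- Los for polynomials: a polynomial over the ring of sequences whose image is zero is zero at
almost all places -/
theorem poly_los (hQ : IsUl Q) (p : (ℕ → L)[X]) (hp : p.map Q = 0) :
    ∀ᶠ m in (Filter.hyperfilter ℕ : Filter ℕ),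
      p.map (Pi.evalRingHom (fun _ : ℕ => L) m) = 0 := by
  have h1 : ∀ n ∈ Finset.range (p.natDegree + 1),
      ∀ᶠ m in (Filter.hyperfilter ℕ : Filter ℕ), p.coeff n m = 0 := by
    intro n _
    rw [← hQ.ker, ← coeff_map, hp, coeff_zero]
  rw [← Filter.eventually_all_finset] at h1
  filter_upwards [h1] with m hm
  ext n
  rw [coeff_map, coeff_zero]
  show p.coeff n m = 0
  by_cases hn : n ∈ Finset.range (p.natDegree + 1)
  · exact hm n hn
  · rw [Finset.mem_range, not_lt] at hn
    rw [coeff_eq_zero_of_natDegree_lt hn]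
    rfl

/-- polynomials with bounded coefficients lift to polynomials with bounded coefficients -/
theorem poly_lift (hQ : IsUl Q) {S : Type*} [Finite S] (p : S → Polynomial Ω)
    (hp : ∀ s n, (p s).coeff n ∈ BF k hQ) {S' : Type*} [Finite S'] (z : S' → Ω)
    (hz : ∀ s, z s ∈ BF k hQ) :
    ∃ V : Submodule k L, FiniteDimensional k V ∧
      ∃ (π : S → (ℕ → L)[X]) (ζ : S' → ℕ → L) (e : ℕ → L),
        (∀ m, e m ∈ V) ∧ (∀ m, e m ≠ 0) ∧ (∀ s n m, e m * (π s).coeff n m ∈ V) ∧
        (∀ s m, e m * ζ s m ∈ V) ∧ (∀ s, (π s).map Q = p s) ∧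
        (∀ s, (π s).natDegree ≤ (p s).natDegree) ∧ (∀ s, (p s).Monic → (π s).Monic) ∧
        ∀ s, Q (ζ s) = z s := by
  classical
  have := Fintype.ofFinite S
  have hBS : ∀ x : (Σ s : S, Fin ((p s).natDegree + 1)) ⊕ S',
      Sum.elim (fun y : Σ s : S, Fin ((p s).natDegree + 1) => (p y.1).coeff y.2) z x ∈
        bset k Q := by
    intro x
    rw [← mem_BF (k := k) hQ]
    rcases x with y | s
    · exact hp _ _
    · exact hz s
  obtain ⟨V, hV, ζ, e, he, he0, h1, h2⟩ := bset_lift hQ _ hBS
  let c : S → ℕ → ℕ → L := fun s n => if n = (p s).natDegree ∧ (p s).Monic then 1 else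
    if h : n < (p s).natDegree + 1 then ζ (Sum.inl ⟨s, ⟨n, h⟩⟩) else 0
  let π : S → (ℕ → L)[X] := fun s =>
    ∑ n ∈ Finset.range ((p s).natDegree + 1), monomial n (c s n)
  have hco : ∀ s n, (π s).coeff n = if n < (p s).natDegree + 1 then c s n else 0 := by
    intro s n
    simp only [π]
    rw [finsetSum_coeff]
    simp only [coeff_monomial]
    rw [Finset.sum_ite_eq' (Finset.range ((p s).natDegree + 1)) n]
    simp only [Finset.mem_range]
  refine ⟨V, hV, π, fun s => ζ (Sum.inr s), e, he, he0, fun s n m => ?_, fun s m => h1 _ m,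
    fun s => ?_, fun s => ?_, fun s hs => ?_, fun s => h2 _⟩
  · rw [hco]
    by_cases hn : n < (p s).natDegree + 1
    · rw [if_pos hn]
      by_cases hm : n = (p s).natDegree ∧ (p s).Monic
      · simp only [c, if_pos hm]
        show e m * 1 ∈ V
        rw [mul_one]
        exact he m
      · simp only [c, if_neg hm, dif_pos hn]
        exact h1 _ m
    · rw [if_neg hn]
      show e m * 0 ∈ V
      rw [mul_zero]
      exact zero_mem V
  · ext n
    rw [coeff_map, hco]
    by_cases hn : n < (p s).natDegree + 1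
    · rw [if_pos hn]
      by_cases hm : n = (p s).natDegree ∧ (p s).Monic
      · simp only [c, if_pos hm]
        rw [map_one, hm.1]
        exact hm.2.symm
      · simp only [c, if_neg hm, dif_pos hn]
        exact h2 _
    · rw [if_neg hn, map_zero, coeff_eq_zero_of_natDegree_lt (by omega)]
  · rw [natDegree_le_iff_coeff_eq_zero]
    intro n hn
    rw [hco, if_neg (by omega)]
  · refine monic_of_natDegree_le_of_coeff_eq_one (p s).natDegree ?_ ?_
    · rw [natDegree_le_iff_coeff_eq_zero]
      intro n hn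
      rw [hco, if_neg (by omega)]
    · rw [hco, if_pos (by omega)]
      exact if_pos ⟨rfl, hs⟩

theorem map_mapD (hQ : IsUl Q) (D : Derivation ℤ L L) (p : (ℕ → L)[X]) :
    ∃ p' : (ℕ → L)[X], p'.map Q = mapD (ulDer Q hQ.surj hQ.ker D) (p.map Q) ∧
      ∀ m, p'.map (Pi.evalRingHom (fun _ : ℕ => L) m) =
        mapD D (p.map (Pi.evalRingHom (fun _ : ℕ => L) m)) := by
  classical
  have hco : ∀ n, (∑ i ∈ Finset.range (p.natDegree + 1),
      monomial i (fun m => D (p.coeff i m))).coeff n = fun m => D (p.coeff n m) := by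
    intro n
    rw [finsetSum_coeff]
    simp only [coeff_monomial]
    rw [Finset.sum_ite_eq' (Finset.range (p.natDegree + 1)) n]
    by_cases hn : n ∈ Finset.range (p.natDegree + 1)
    · rw [if_pos hn]
    · rw [if_neg hn]
      rw [Finset.mem_range, not_lt] at hn
      funext m
      rw [coeff_eq_zero_of_natDegree_lt hn]
      exact (map_zero D).symm
  refine ⟨∑ i ∈ Finset.range (p.natDegree + 1), monomial i (fun m => D (p.coeff i m)),
    ?_, fun m => ?_⟩
  · ext n
    rw [coeff_map, hco, coeff_mapD, coeff_map, ulDer_apply]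
  · ext n
    rw [coeff_map, hco, coeff_mapD, coeff_map]
    rfl

end Pool.Agent.Helper10.LB
end

/- Helper12.LVF.H10.LB.OmBdd -/
section
/-! # LB-OB: algebraic elements and solutions of equations of higher degree are bounded -/

set_option autoImplicit false

namespace Pool.Agent.Helper10.LB

open scoped BigOperators
open Polynomial Pool.Agent.Helper8.LG

section

variable {k L Ω : Type*} [Field k] [Field L] [CharZero L] [Algebra k L] [Field Ω]
    {Q : (ℕ → L) →+* Ω}

omit [CharZero L] in
/-- evaluation and the quotient map -/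
theorem ob_eval (π : (ℕ → L)[X]) (ζ : ℕ → L) :
    (π.map Q).eval (Q ζ) = Q fun m => (π.map (Pi.evalRingHom (fun _ : ℕ => L) m)).eval (ζ m) := by
  rw [eval_map, eval₂_at_apply]
  congr 1
  funext m
  have h := eval₂_at_apply (p := π) (Pi.evalRingHom (fun _ : ℕ => L) m) ζ
  rw [eval_map]
  exact h.symm

omit [CharZero L] in
/-- a nonzero coefficient is nonzero almost everywhere -/
theorem ob_ne (hQ : IsUl Q) (f : ℕ → L) (hf : Q f ≠ 0) :
    ∀ᶠ m in (Filter.hyperfilter ℕ : Filter ℕ), f m ≠ 0 :=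
  Ultrafilter.eventually_not.2 fun h => hf ((hQ.ker f).2 h)

/-- an element which is algebraic over the bounded elements is bounded -/
theorem alg_bdd (hQ : IsUl Q) {P T : Type*} [Finite P] [Finite T] [DecidableEq T] (y : T → L)
    (D : P → Derivation ℤ L L) (hy : Dirs k y D) (z : Ω) (hz : IsAlgebraic (BF k hQ) z) :
    z ∈ BF k hQ := by
  obtain ⟨p, hp0, hpz⟩ := hz
  set g : Polynomial Ω := p.map (algebraMap (BF k hQ) Ω) with hg
  have hg0 : g ≠ 0 := by
    rw [hg, Ne, Polynomial.map_eq_zero]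
    exact hp0
  have hgz : g.eval z = 0 := by
    rw [hg, eval_map]
    exact hpz
  have hgc : ∀ n, g.coeff n ∈ BF k hQ := by
    intro n
    rw [hg, coeff_map]
    exact (p.coeff n).2
  obtain ⟨V, hV, π, -, e, heV, he0, hco, -, hmap, -, -, -⟩ :=
    poly_lift (k := k) hQ (fun _ : Unit => g) (fun _ n => hgc n) (fun x : Empty => x.elim)
      (fun x => x.elim)
  obtain ⟨ζ, hζ⟩ := hQ.surj z
  obtain ⟨V', hV', hroot⟩ := root_bound y D hy V
  have hz0 : ∀ᶠ m in (Filter.hyperfilter ℕ : Filter ℕ),
      ((π ()).map (Pi.evalRingHom (fun _ : ℕ => L) m)).eval (ζ m) = 0 := by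
    rw [← hQ.ker, ← ob_eval, hmap, hζ]
    exact hgz
  have hn0 : ∀ᶠ m in (Filter.hyperfilter ℕ : Filter ℕ),
      (π ()).map (Pi.evalRingHom (fun _ : ℕ => L) m) ≠ 0 := by
    have h1 : Q ((π ()).coeff g.natDegree) ≠ 0 := by
      rw [← coeff_map, hmap]
      exact leadingCoeff_ne_zero.2 hg0
    filter_upwards [ob_ne hQ _ h1] with m hm h2
    apply hm
    have h3 := congrArg (fun r => r.coeff g.natDegree) h2
    simp only [coeff_map, coeff_zero] at h3
    exact h3
  let G : ℕ → L[X] := fun m => C (e m) * (π ()).map (Pi.evalRingHom (fun _ : ℕ => L) m)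
  have hGc : ∀ m n, (G m).coeff n ∈ V := by
    intro m n
    show (C (e m) * (π ()).map (Pi.evalRingHom (fun _ : ℕ => L) m)).coeff n ∈ V
    rw [coeff_C_mul, coeff_map]
    exact hco () n m
  rw [mem_BF]
  refine bset_of_fd hQ (V ⊔ V') (fun m => (G m).leadingCoeff * ζ m) (fun m => (G m).leadingCoeff)
    ?_ ?_ ?_ z ?_
  · filter_upwards [hz0, hn0] with m h1 h2
    refine (le_sup_right : V' ≤ V ⊔ V') (hroot (ζ m) (G m) ?_ (hGc m) ?_)
    · exact mul_ne_zero (C_ne_zero.2 (he0 m)) h2
    · show (C (e m) * (π ()).map (Pi.evalRingHom (fun _ : ℕ => L) m)).eval (ζ m) = 0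
      rw [eval_mul, h1, mul_zero]
  · exact Filter.Eventually.of_forall fun m => (le_sup_left : V ≤ V ⊔ V') (hGc m _)
  · filter_upwards [hn0] with m h2
    exact leadingCoeff_ne_zero.2 (mul_ne_zero (C_ne_zero.2 (he0 m)) h2)
  · rw [← hζ, ← map_mul]
    congr 1
    funext m
    exact mul_comm _ _

/-- a solution of `D z = q(z)` with bounded `q` of degree at least three is bounded -/
theorem tail_bdd (hQ : IsUl Q) {P T : Type*} [Finite P] [Finite T] [DecidableEq T] (y : T → L)
    (D : P → Derivation ℤ L L) (hy : Dirs k y D) (p : P) (q : Polynomial Ω)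
    (hq : ∀ n, q.coeff n ∈ BF k hQ) (hdeg : 3 ≤ q.natDegree) (z : Ω)
    (hz : ulDer Q hQ.surj hQ.ker (D p) z = q.eval z) : z ∈ BF k hQ := by
  have hq0 : q ≠ 0 := by
    rintro rfl
    simp at hdeg
  obtain ⟨V, hV, π, -, e, heV, he0, hco, -, hmap, hdegπ, -, -⟩ :=
    poly_lift (k := k) hQ (fun _ : Unit => q) (fun _ n => hq n) (fun x : Empty => x.elim)
      (fun x => x.elim)
  obtain ⟨ζ, hζ⟩ := hQ.surj z
  obtain ⟨V', hV', htail⟩ := tail_bound y D hy V
  let q' : ℕ → L[X] := fun m => (π ()).map (Pi.evalRingHom (fun _ : ℕ => L) m)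
  have hz1 : ∀ᶠ m in (Filter.hyperfilter ℕ : Filter ℕ), D p (ζ m) = (q' m).eval (ζ m) := by
    rw [← ul_eq Q hQ.ker (fun m => D p (ζ m)) (fun m => (q' m).eval (ζ m))]
    show (Q fun m => D p (ζ m)) =
      Q fun m => ((π ()).map (Pi.evalRingHom (fun _ : ℕ => L) m)).eval (ζ m)
    rw [← ob_eval, hmap, ← ulDer_apply Q hQ.surj hQ.ker, hζ]
    exact hz
  have hlead : ∀ᶠ m in (Filter.hyperfilter ℕ : Filter ℕ), (q' m).coeff q.natDegree ≠ 0 := by
    have h1 : Q ((π ()).coeff q.natDegree) ≠ 0 := by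
      rw [← coeff_map, hmap]
      exact leadingCoeff_ne_zero.2 hq0
    filter_upwards [ob_ne hQ _ h1] with m hm
    show ((π ()).map (Pi.evalRingHom (fun _ : ℕ => L) m)).coeff q.natDegree ≠ 0
    rw [coeff_map]
    exact hm
  have hc : ∀ n m, e m * (q' m).coeff n ∈ V := by
    intro n m
    show e m * ((π ()).map (Pi.evalRingHom (fun _ : ℕ => L) m)).coeff n ∈ V
    rw [coeff_map]
    exact hco () n m
  have hkey : ∀ᶠ m in (Filter.hyperfilter ℕ : Filter ℕ),
      (e m * (q' m).leadingCoeff ∈ V' ∧ e m * ((q' m).leadingCoeff * ζ m) ∈ V') ∧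
        e m * (q' m).leadingCoeff ≠ 0 := by
    filter_upwards [hz1, hlead] with m h1 h2
    refine ⟨htail p (ζ m) (e m) (q' m) (heV m) (he0 m) (fun n => hc n m) ?_ h1, ?_⟩
    · exact hdeg.trans (le_natDegree_of_ne_zero h2)
    · refine mul_ne_zero (he0 m) (leadingCoeff_ne_zero.2 fun h3 => h2 ?_)
      rw [h3, coeff_zero]
  rw [mem_BF]
  refine bset_of_fd hQ V' (fun m => e m * ((q' m).leadingCoeff * ζ m))
    (fun m => e m * (q' m).leadingCoeff) ?_ ?_ ?_ z ?_
  · filter_upwards [hkey] with m h using h.1.2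
  · filter_upwards [hkey] with m h using h.1.1
  · filter_upwards [hkey] with m h using h.2
  · rw [← hζ, ← map_mul]
    congr 1
    funext m
    show ζ m * (e m * (q' m).leadingCoeff) = e m * ((q' m).leadingCoeff * ζ m)
    ring

end

end Pool.Agent.Helper10.LB
end

/- Helper12.LVF.H10.LB.MasonBound -/
section
/-! # LB-MB: the Mason bound in all directions -/

set_option autoImplicit false

namespace Pool.Agent.Helper10.LB

open scoped BigOperators
open Polynomial Pool.Agent.Helper8.LG

section MBAux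

/-- one of two integral elements with sum one is a unit -/
theorem mb_unit_of_add {E : Type*} [Field E] (O : ValuationSubring E) {a b : E}
    (hab : a + b = 1) : (a ≠ 0 ∧ a⁻¹ ∈ O) ∨ (b ≠ 0 ∧ b⁻¹ ∈ O) := by
  by_cases h0 : a = 0
  · right
    rw [h0, zero_add] at hab
    rw [hab]
    exact ⟨one_ne_zero, by rw [inv_one]; exact O.one_mem⟩
  by_cases h1 : b = 0
  · left
    rw [h1, add_zero] at hab
    rw [hab]
    exact ⟨one_ne_zero, by rw [inv_one]; exact O.one_mem⟩
  rcases O.mem_or_inv_mem (a / b) with h | h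
  · right
    refine ⟨h1, ?_⟩
    have h2 : b⁻¹ = a / b + 1 := by
      field_simp
      exact hab.symm
    rw [h2]
    exact O.add_mem _ _ h O.one_mem
  · left
    rw [inv_div] at h
    refine ⟨h0, ?_⟩
    have h2 : a⁻¹ = 1 + b / a := by
      field_simp
      exact hab.symm
    rw [h2]
    exact O.add_mem _ _ O.one_mem h

theorem mb_prim {E σ : Type*} [Field E] (O : ValuationSubring E) (y : σ → E) (b b' : σ)
    {α β : E} (hα : α ∈ O) (hβ : β ∈ O) (h : y b * α + y b' * β = 1) :
    ∃ j, y j ≠ 0 ∧ (y j)⁻¹ ∈ O := by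
  rcases mb_unit_of_add O h with ⟨h1, h2⟩ | ⟨h1, h2⟩
  · refine ⟨b, left_ne_zero_of_mul h1, ?_⟩
    have h3 := O.mul_mem _ _ hα h2
    have h4 : α * (y b * α)⁻¹ = (y b)⁻¹ := by
      have := left_ne_zero_of_mul h1
      have := right_ne_zero_of_mul h1
      field_simp
    rwa [h4] at h3
  · refine ⟨b', left_ne_zero_of_mul h1, ?_⟩
    have h3 := O.mul_mem _ _ hβ h2
    have h4 : β * (y b' * β)⁻¹ = (y b')⁻¹ := by
      have := left_ne_zero_of_mul h1
      have := right_ne_zero_of_mul h1
      field_simp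
    rwa [h4] at h3

theorem mb_mon_smul {E σ : Type*} [Field E] {n : ℕ} (c : E) (x : σ → E) (J : Sym σ n) :
    mon (fun l => c * x l) J = c ^ n * mon x J := by
  unfold mon
  rw [Multiset.prod_map_mul, Multiset.map_const', Multiset.prod_replicate, Sym.card_coe]

theorem mb_form_smul {E σ : Type*} [Field E] [Fintype σ] [DecidableEq σ] {n : ℕ}
    (a : Sym σ n → E) (c : E) (x : σ → E) :
    form a (fun l => c * x l) = c ^ n * form a x := by
  unfold form
  rw [Finset.mul_sum]
  refine Finset.sum_congr rfl fun J _ => ?_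
  rw [mb_mon_smul]
  ring

/-- the values of the forms at primitive coordinates are units -/
theorem mb_units {E σ ι : Type*} [Field E] [Fintype σ] [DecidableEq σ]
    {d : ι → ℕ} (a : (i : ι) → Sym σ (d i) → E) (Z : Finset ι) (A : Subring E) (x : σ → E)
    (hP : Pt a Z A x) (O : ValuationSubring E) (hA : A ≤ O.toSubring)
    (ha : ∀ i J, a i J ∈ O) (y : σ → E) (hy : ∀ l, y l ∈ O) (c : E) (hc : c ≠ 0)
    (hx : ∀ l, x l = c * y l) (j : σ) (hj : y j ≠ 0) (hj' : (y j)⁻¹ ∈ O) (i : ι) (hi : i ∉ Z) :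
    form (a i) y ≠ 0 ∧ form (a i) y ∈ O ∧ (form (a i) y)⁻¹ ∈ O := by
  have hxy : x = fun l => c * y l := funext hx
  have h0 : form (a i) x = c ^ d i * form (a i) y := by rw [hxy, mb_form_smul]
  have hne : form (a i) y ≠ 0 := by
    intro h1
    apply hP.ne i hi
    rw [h0, h1, mul_zero]
  have hcd : c ^ d i ≠ 0 := pow_ne_zero _ hc
  refine ⟨hne, ?_, ?_⟩
  · have h1 := dirOne_form_mem O 1 (a i) (fun J => by rw [one_mul]; exact ha i J) _ hy
    rwa [one_mul] at h1
  · have h1 := dirOne_int_mem O A hA (hP.int i hi (Sym.replicate (d i) j))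
    rw [dirOne_mon_replicate, h0, hx j, mul_pow, mul_div_mul_left _ _ hcd] at h1
    have h2 : (form (a i) y)⁻¹ = (y j)⁻¹ ^ d i * (y j ^ d i / form (a i) y) := by
      rw [inv_pow]
      have := pow_ne_zero (d i) hj
      field_simp
    rw [h2]
    exact O.mul_mem _ _ (pow_mem hj' _) h1

theorem mb_prod {E ι : Type*} [Field E] (O : ValuationSubring E) (s : Finset ι) (f : ι → E)
    (h : ∀ i ∈ s, f i ≠ 0 ∧ f i ∈ O ∧ (f i)⁻¹ ∈ O) :
    ∏ i ∈ s, f i ≠ 0 ∧ ∏ i ∈ s, f i ∈ O ∧ (∏ i ∈ s, f i)⁻¹ ∈ O := by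
  refine ⟨Finset.prod_ne_zero_iff.2 fun i hi => (h i hi).1, prod_mem fun i hi => (h i hi).2.1, ?_⟩
  rw [← Finset.prod_inv_distrib]
  exact prod_mem fun i hi => (h i hi).2.2

/-- the logarithmic derivative of a unit -/
theorem mb_log {E : Type*} [Field E] (O : ValuationSubring E) (D : Derivation ℤ E E) (D₂ : E)
    (hD : ∀ f ∈ O, D₂ * D f ∈ O) (g w : E) (hg : g ∈ O) (hw : w ∈ O)
    (h0 : g * w ≠ 0) (h1 : (g * w)⁻¹ ∈ O) : D₂ * (D g / g) ∈ O := by
  have hg0 := left_ne_zero_of_mul h0
  have hw0 := right_ne_zero_of_mul h0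
  have h2 : D₂ * (D g / g) = D₂ * D g * (w * (g * w)⁻¹) := by
    (clear * - hw0 hg0; field_simp)
  rw [h2]
  exact O.mul_mem _ _ (hD g hg) (O.mul_mem _ _ hw h1)

theorem mb_key {k L P σ ι : Type*} [Field k] [Field L] [CharZero L] [Algebra k L]
    [Fintype σ] [DecidableEq σ] [Fintype ι] [DecidableEq ι] {d : ι → ℕ}
    (a : (i : ι) → Sym σ (d i) → L) (Z : Finset ι) (A : Subalgebra k L) (gens : Set L)
    (hgens : Algebra.adjoin k gens = A) (D : P → Derivation ℤ L L) (V : Submodule k L)
    (R : Subring L) [IsDedekindDomain R] [IsFractionRing R L]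
    (hkR : ∀ c : k, algebraMap k L c ∈ R) (O : ValuationSubring L) (hO : R ≤ O.toSubring)
    (Δ : L) (hΔ0 : Δ ≠ 0) (hb : Bdd D Δ O) (hV : ∀ f ∈ V, Δ * f ∈ O)
    (haS : ∀ i J, Δ * a i J ∈ O) (hgS : ∀ f ∈ gens, Δ * f ∈ O)
    (p : P) (x u v : σ → L) (lam z e : L) (h w q s α β α' β' : L[X])
    (hM : MData a Z V (D p) x u v lam z e h w q s α β α' β') (hP : Pt a Z A.toSubring x) :
    Δ ^ 6 * (e ^ 2 * ((D p z - q.eval z) / h.eval z)) ∈ O ∧
      Δ ^ 6 * (e ^ 2 * ((D p z - q.eval z) / h.eval z * z)) ∈ O := by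
  have hΔO : Δ ∈ O := hb.1
  have he0 := hM.e0
  have hlam0 := hM.lam0
  obtain ⟨D₁, hD₁⟩ : ∃ D₁ : L, D₁ = Δ ^ 2 * e := ⟨_, rfl⟩
  have hD₁0 : D₁ ≠ 0 := by
    rw [hD₁]; exact mul_ne_zero (pow_ne_zero _ hΔ0) he0
  have hD₁O : D₁ ∈ O := by
    rw [hD₁, pow_two, mul_assoc]
    exact O.mul_mem _ _ hΔO (hV e hM.eV)
  have hdat : ∀ f, e * f ∈ V → D₁ * f ∈ O := by
    intro f hf
    have h1 : D₁ * f = Δ * (Δ * (e * f)) := by rw [hD₁]; ring
    rw [h1]
    exact O.mul_mem _ _ hΔO (hV _ hf)
  obtain ⟨D₂, hD₂⟩ : ∃ D₂ : L, D₂ = Δ * D₁ := ⟨_, rfl⟩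
  have hD₂O : D₂ ∈ O := by rw [hD₂]; exact O.mul_mem _ _ hΔO hD₁O
  have hD₂D : ∀ p, ∀ f ∈ O, D₂ * D p f ∈ O := by
    intro p f hf
    have h1 : D₂ * D p f = D₁ * (Δ * D p f) := by rw [hD₂]; ring
    rw [h1]
    exact O.mul_mem _ _ hD₁O (hb.2 p f hf)
  have hdat2 : ∀ f, e * f ∈ V → D₂ * f ∈ O := by
    intro f hf
    rw [hD₂, mul_assoc]
    exact O.mul_mem _ _ hΔO (hdat f hf)
  -- the degrees
  have hlfne : ∀ i ∈ Zᶜ, lf (a i) u v ≠ 0 := by
    intro i hi h0
    have h1 := lf_coeff_top (a i) u v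
    rw [h0, coeff_zero] at h1
    exact (hM.top i (Finset.mem_compl.1 hi)).1 h1.symm
  have hlfdeg : ∀ i ∈ Zᶜ, (lf (a i) u v).natDegree = d i := by
    intro i hi
    refine le_antisymm (lf_natDegree_le _ _ _) (le_natDegree_of_ne_zero ?_)
    rw [lf_coeff_top]
    exact (hM.top i (Finset.mem_compl.1 hi)).1
  have hprodne : ∏ i ∈ Zᶜ, lf (a i) u v ≠ 0 := Finset.prod_ne_zero_iff.2 hlfne
  have hh0 : h ≠ 0 := hM.mon.ne_zero
  have hw0 : w ≠ 0 := by
    intro h0
    apply hprodne
    rw [← hM.hw, h0, mul_zero]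
  have hdeg : h.natDegree + w.natDegree = ∑ i ∈ Zᶜ, d i := by
    rw [← natDegree_mul hh0 hw0, hM.hw, natDegree_prod _ _ hlfne]
    exact Finset.sum_congr rfl hlfdeg
  have hxy : ∀ l, x l = lam * (u l + z * v l) := hM.hx
  have hevprod : h.eval z * w.eval z = ∏ i ∈ Zᶜ, form (a i) (fun l => u l + z * v l) := by
    rw [← eval_mul, hM.hw, eval_prod]
    exact Finset.prod_congr rfl fun i _ => lf_eval _ _ _ _
  have hformne : ∀ i ∈ Zᶜ, form (a i) (fun l => u l + z * v l) ≠ 0 := by
    intro i hi h0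
    apply hP.ne i (Finset.mem_compl.1 hi)
    rw [show x = fun l => lam * (u l + z * v l) from funext hxy, mb_form_smul, h0, mul_zero]
  have hhw0 : h.eval z * w.eval z ≠ 0 := by
    rw [hevprod]
    exact Finset.prod_ne_zero_iff.2 hformne
  have hhz : h.eval z ≠ 0 := left_ne_zero_of_mul hhw0
  -- the reversed polynomials
  have hrev : ∀ g : L[X], z ≠ 0 → g.reverse.eval z⁻¹ = z⁻¹ ^ g.natDegree * g.eval z := by
    intro g hz
    exact Pool.Agent.Helper74.LG.eval_reflect (inv_mul_cancel₀ hz) _ g le_rfl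
  have hrev0 : z = 0 → h.reverse.eval z⁻¹ = 1 := by
    intro hz
    rw [hz, inv_zero, ← coeff_zero_eq_eval_zero, coeff_zero_reverse]
    exact hM.mon
  -- the logarithmic derivatives
  have hlogs : (z ∈ O → D₂ * (D p (h.eval z) / h.eval z) ∈ O) ∧
      (z⁻¹ ∈ O → D₂ * (D p (h.reverse.eval z⁻¹) / h.reverse.eval z⁻¹) ∈ O) := by
    by_cases hinv : D₁⁻¹ ∈ O
    · -- good valuation rings
      have hmem : ∀ f, D₁ * f ∈ O → f ∈ O := by
        intro f hf
        have h1 := O.mul_mem _ _ hinv hf
        rwa [← mul_assoc, inv_mul_cancel₀ hD₁0, one_mul] at h1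
      have hΔinv : Δ⁻¹ ∈ O := by
        have h1 := O.mul_mem _ _ hinv (hV e hM.eV)
        have h2 : D₁⁻¹ * (Δ * e) = Δ⁻¹ := by
          rw [hD₁]; field_simp
        rwa [h2] at h1
      have hΔmem : ∀ f, Δ * f ∈ O → f ∈ O := by
        intro f hf
        have h1 := O.mul_mem _ _ hΔinv hf
        rwa [← mul_assoc, inv_mul_cancel₀ hΔ0, one_mul] at h1
      have haO : ∀ i J, a i J ∈ O := fun i J => hΔmem _ (haS i J)
      have hAO : A.toSubring ≤ O.toSubring := by
        intro f hf
        have hf' : f ∈ Algebra.adjoin k gens := by rw [hgens]; exact hf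
        refine Algebra.adjoin_induction (p := fun f _ => f ∈ O.toSubring) ?_ ?_ ?_ ?_ hf'
        · intro g hg
          exact hΔmem g (hgS g hg)
        · intro c
          exact hO (hkR c)
        · intro f g _ _ h1 h2
          exact O.toSubring.add_mem h1 h2
        · intro f g _ _ h1 h2
          exact O.toSubring.mul_mem h1 h2
      have hu : ∀ l, u l ∈ O := fun l => hmem _ (hdat _ (hM.uV l))
      have hv : ∀ l, v l ∈ O := fun l => hmem _ (hdat _ (hM.vV l))
      have hco : ∀ n, h.coeff n ∈ O ∧ w.coeff n ∈ O := fun n =>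
        ⟨hmem _ (hdat _ (hM.bd n).1), hmem _ (hdat _ (hM.bd n).2.1)⟩
      obtain ⟨b, b', hπ0, hπV⟩ := hM.pi
      have hπ : (u b * v b' - u b' * v b)⁻¹ ∈ O := hmem _ (hdat _ hπV)
      refine ⟨fun hz => ?_, fun hz => ?_⟩
      · obtain ⟨j, hj, hj'⟩ := mb_prim O (fun l => u l + z * v l) b b'
          (α := v b' * (u b * v b' - u b' * v b)⁻¹)
          (β := -(v b) * (u b * v b' - u b' * v b)⁻¹)
          (O.mul_mem _ _ (hv _) hπ) (O.mul_mem _ _ (O.neg_mem _ (hv _)) hπ) (by
            have h3 : (u b + z * v b) * (v b' * (u b * v b' - u b' * v b)⁻¹) +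
                (u b' + z * v b') * (-(v b) * (u b * v b' - u b' * v b)⁻¹) =
                (u b * v b' - u b' * v b) * (u b * v b' - u b' * v b)⁻¹ := by ring
            rw [h3, mul_inv_cancel₀ hπ0])
        have hyO : ∀ l, (fun l => u l + z * v l) l ∈ O := fun l =>
          O.add_mem _ _ (hu l) (O.mul_mem _ _ hz (hv l))
        have h4 := mb_prod O Zᶜ (fun i => form (a i) (fun l => u l + z * v l)) (fun i hi =>
          mb_units a Z A.toSubring x hP O hAO haO _ hyO lam hlam0 hxy j hj hj' i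
            (Finset.mem_compl.1 hi))
        rw [← hevprod] at h4
        have h5 := Pool.Agent.Helper74.LG.eval_mem O 1 h
          (fun n => by rw [one_mul]; exact (hco n).1) z hz
        have h6 := Pool.Agent.Helper74.LG.eval_mem O 1 w
          (fun n => by rw [one_mul]; exact (hco n).2) z hz
        rw [one_mul] at h5 h6
        exact mb_log O (D p) D₂ (hD₂D p) _ _ h5 h6 h4.1 h4.2.2
      · by_cases hz0 : z = 0
        · rw [hrev0 hz0, Derivation.map_one_eq_zero, zero_div, mul_zero]
          exact O.zero_mem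
        obtain ⟨j, hj, hj'⟩ := mb_prim O (fun l => z⁻¹ * u l + v l) b b'
          (α := -(u b') * (u b * v b' - u b' * v b)⁻¹)
          (β := u b * (u b * v b' - u b' * v b)⁻¹)
          (O.mul_mem _ _ (O.neg_mem _ (hu _)) hπ) (O.mul_mem _ _ (hu _) hπ) (by
            have h3 : (z⁻¹ * u b + v b) * (-(u b') * (u b * v b' - u b' * v b)⁻¹) +
                (z⁻¹ * u b' + v b') * (u b * (u b * v b' - u b' * v b)⁻¹) =
                (u b * v b' - u b' * v b) * (u b * v b' - u b' * v b)⁻¹ := by ring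
            rw [h3, mul_inv_cancel₀ hπ0])
        have hyO : ∀ l, (fun l => z⁻¹ * u l + v l) l ∈ O := fun l =>
          O.add_mem _ _ (O.mul_mem _ _ hz (hu l)) (hv l)
        have hzy : ∀ l, u l + z * v l = z * (z⁻¹ * u l + v l) := by
          intro l
          field_simp
        have h4 := mb_prod O Zᶜ (fun i => form (a i) (fun l => z⁻¹ * u l + v l)) (fun i hi =>
          mb_units a Z A.toSubring x hP O hAO haO _ hyO (lam * z) (mul_ne_zero hlam0 hz0)
            (fun l => by rw [hxy, hzy, mul_assoc]) j hj hj' i (Finset.mem_compl.1 hi))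
        have h7 : h.reverse.eval z⁻¹ * w.reverse.eval z⁻¹ =
            ∏ i ∈ Zᶜ, form (a i) (fun l => z⁻¹ * u l + v l) := by
          rw [hrev h hz0, hrev w hz0]
          have h8 : ∏ i ∈ Zᶜ, form (a i) (fun l => u l + z * v l) =
              z ^ (∑ i ∈ Zᶜ, d i) * ∏ i ∈ Zᶜ, form (a i) (fun l => z⁻¹ * u l + v l) := by
            rw [← Finset.prod_pow_eq_pow_sum, ← Finset.prod_mul_distrib]
            refine Finset.prod_congr rfl fun i _ => ?_
            rw [← mb_form_smul]
            congr 1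
            funext l
            exact hzy l
          have h9 : z⁻¹ ^ h.natDegree * h.eval z * (z⁻¹ ^ w.natDegree * w.eval z) =
              z⁻¹ ^ (h.natDegree + w.natDegree) * (h.eval z * w.eval z) := by
            rw [pow_add]; ring
          rw [h9, hevprod, h8, hdeg, ← mul_assoc, ← mul_pow, inv_mul_cancel₀ hz0, one_pow,
            one_mul]
        rw [← h7] at h4
        have h5 := Pool.Agent.Helper74.LG.eval_mem O 1 h.reverse
          (fun n => by rw [one_mul, coeff_reverse]; exact (hco _).1) z⁻¹ hz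
        have h6 := Pool.Agent.Helper74.LG.eval_mem O 1 w.reverse
          (fun n => by rw [one_mul, coeff_reverse]; exact (hco _).2) z⁻¹ hz
        rw [one_mul] at h5 h6
        exact mb_log O (D p) D₂ (hD₂D p) _ _ h5 h6 h4.1 h4.2.2
    · -- bad valuation rings
      have hQ : ∀ n : ℕ, n ≠ 0 → ((n : L))⁻¹ ∈ R := by
        intro n _
        have h1 := hkR ((n : k)⁻¹)
        rwa [map_inv₀, map_natCast] at h1
      have hbig : ∀ g : L, g ≠ 0 → D₂ * (D p g / g) ∈ O := by
        intro g hg
        refine log_of R hQ D O hO D₂ ⟨hD₂O, hD₂D⟩ D₁ hD₁0 (Or.inr hinv) (fun q => ?_) g hg p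
        have h1 : D₂ * (D q D₁ / D₁) = Δ * D q D₁ := by
          rw [hD₂]; (clear * - hD₁0 hΔ0; field_simp)
        rw [h1]
        exact hb.2 q _ hD₁O
      refine ⟨fun _ => hbig _ hhz, fun _ => hbig _ ?_⟩
      by_cases hz0 : z = 0
      · rw [hrev0 hz0]
        exact one_ne_zero
      · rw [hrev h hz0]
        exact mul_ne_zero (pow_ne_zero _ (inv_ne_zero hz0)) hhz
  have hfin := mason_key O (D p) D₂ hD₂O (hD₂D p) h q s α β α' β' hM.mon hM.deg hM.hq hM.hs
    hM.h1 hM.h2 (fun n => ⟨hdat2 _ (hM.bd n).2.2.1, hdat2 _ (hM.bd n).2.2.2.1,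
      hdat2 _ (hM.bd n).2.2.2.2.1, hdat2 _ (hM.bd n).2.2.2.2.2.1,
      hdat2 _ (hM.bd n).2.2.2.2.2.2.1, hdat2 _ (hM.bd n).2.2.2.2.2.2.2⟩) z hhz
    hlogs.1 hlogs.2
  have hpow : D₂ ^ 2 = Δ ^ 6 * e ^ 2 := by rw [hD₂, hD₁]; ring
  rw [hpow, mul_assoc, mul_assoc (Δ ^ 6)] at hfin
  exact hfin

end MBAux

theorem mason_bound {k L : Type*} [Field k] [Field L] [CharZero L] [Algebra k L] {P T : Type*}
    [Finite P] [Finite T] [DecidableEq T] (y : T → L) (D : P → Derivation ℤ L L)
    (hy : Dirs k y D) {σ ι : Type*} [Fintype σ] [DecidableEq σ] [Fintype ι] [DecidableEq ι]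
    {d : ι → ℕ} (a : (i : ι) → Sym σ (d i) → L) (Z : Finset ι) (A : Subalgebra k L) (hA : A.FG)
    (V : Submodule k L) [FiniteDimensional k V] :
    ∃ V' : Submodule k L, FiniteDimensional k V' ∧
      ∀ (p : P) (x u v : σ → L) (lam z e : L) (h w q s α β α' β' : L[X]),
        MData a Z V (D p) x u v lam z e h w q s α β α' β' → Pt a Z A.toSubring x →
        e ^ 2 * ((D p z - q.eval z) / h.eval z) ∈ V' ∧
          e ^ 2 * ((D p z - q.eval z) / h.eval z * z) ∈ V' := by
  obtain ⟨gens, hgens⟩ := hA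
  obtain ⟨S, hS⟩ : ∃ S : Set L, S = (Set.range fun q : Ix σ d => a q.1 q.2) ∪ (gens : Set L) :=
    ⟨_, rfl⟩
  have hSfin : S.Finite := by
    rw [hS]
    exact (Set.finite_range _).union gens.finite_toSet
  have ht : ∀ (i : T) (b : Bool), (if b then y i else (y i)⁻¹) = y i ∨
      (if b then y i else (y i)⁻¹) = (y i)⁻¹ := by
    intro i b
    cases b
    · right; rfl
    · left; rfl
  choose Δ hΔ0 _ hΔ using fun (i : T) (b : Bool) =>
    dir_prep (k := k) y D hy V S hSfin i _ (ht i b)
  obtain ⟨V', hV', hmem⟩ := fd_of_dirs (k := k) y D hy (fun i b => Δ i b ^ 6)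
    (fun i b => pow_ne_zero _ (hΔ0 i b))
  refine ⟨V', hV', ?_⟩
  intro p x u v lam z e h w q s α β α' β' hM hP
  have key : ∀ i b, ∀ O : ValuationSubring L,
      intCl (others (k := k) y i) (if b then y i else (y i)⁻¹) ≤ O.toSubring →
      Δ i b ^ 6 * (e ^ 2 * ((D p z - q.eval z) / h.eval z)) ∈ O ∧
      Δ i b ^ 6 * (e ^ 2 * ((D p z - q.eval z) / h.eval z * z)) ∈ O := by
    intro i b O hO
    obtain ⟨h1, h2, h3⟩ := hΔ i b O hO
    have htr : Transcendental (others (k := k) y i) (if b then y i else (y i)⁻¹) := by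
      have h4 := others_transcendental y hy.ind i
      cases b
      · exact h4.2
      · exact h4.1
    have hfd : FiniteDimensional (Subfield.closure ((others (k := k) y i : Set L) ∪
        {if b then y i else (y i)⁻¹})) L := by
      have h4 := others_finite y hy.fin i
      cases b
      · exact h4.2
      · exact h4.1
    obtain ⟨hDed, hFrac⟩ := intCl_dedekind _ _ htr hfd
    have hkR : ∀ c : k, algebraMap k L c ∈
        intCl (others (k := k) y i) (if b then y i else (y i)⁻¹) := by
      intro c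
      have h5 : algebraMap k L c ∈ Subring.closure ((others (k := k) y i : Set L) ∪
          {if b then y i else (y i)⁻¹}) := by
        refine Subring.subset_closure (Or.inl ?_)
        exact (IntermediateField.adjoin k (y '' {i}ᶜ)).algebraMap_mem c
      exact isIntegral_algebraMap (R := Subring.closure ((others (k := k) y i : Set L) ∪
          {if b then y i else (y i)⁻¹})) (x := ⟨_, h5⟩)
    refine mb_key a Z A (gens : Set L) hgens D V
      (intCl (others (k := k) y i) (if b then y i else (y i)⁻¹)) hkR O hO (Δ i b) (hΔ0 i b)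
      h1 h2 (fun i' J => h3 _ ?_) (fun f hf => h3 f ?_) p x u v lam z e h w q s α β α' β' hM hP
    · rw [hS]
      exact Or.inl ⟨⟨i', J⟩, rfl⟩
    · rw [hS]
      exact Or.inr hf
  exact ⟨hmem _ fun i b O hO => (key i b O hO).1, hmem _ fun i b O hO => (key i b O hO).2⟩

end Pool.Agent.Helper10.LB
end

/- Helper12.LVF.H10.LB.OmMason -/
section
/-! # LB-OM: the Mason bound in the ultrapower -/

set_option autoImplicit false

namespace Pool.Agent.Helper10.LB

open scoped BigOperators
open Polynomial Pool.Agent.Helper8.LG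

section OmAux

theorem om_lift {Ω : Type*} [Field Ω] (F : Subfield Ω) (p : Polynomial Ω)
    (hp : ∀ n, p.coeff n ∈ F) : ∃ p' : Polynomial F, p'.map F.subtype = p := by
  have h : p ∈ Polynomial.lifts F.subtype := by
    rw [Polynomial.lifts_iff_coeff_lifts]
    intro n
    exact ⟨⟨p.coeff n, hp n⟩, rfl⟩
  exact (Polynomial.mem_lifts _).1 h

theorem om_coe {Ω : Type*} [Field Ω] (F : Subfield Ω) (p : Polynomial F) (n : ℕ) :
    (p.map F.subtype).coeff n ∈ F := by
  rw [coeff_map]
  exact (p.coeff n).2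

/-- the quotient by a monic polynomial -/
theorem om_quot {Ω : Type*} [Field Ω] (F : Subfield Ω) (h g w : Polynomial Ω)
    (hF : ∀ n, h.coeff n ∈ F) (hg : ∀ n, g.coeff n ∈ F) (hm : h.Monic) (hw : h * w = g) :
    ∀ n, w.coeff n ∈ F := by
  obtain ⟨h', hh'⟩ := om_lift F h hF
  obtain ⟨g', hg'⟩ := om_lift F g hg
  have hm' : h'.Monic := by
    rw [← hh'] at hm
    exact Polynomial.monic_of_injective F.subtype.injective hm
  have h1 : w = (g' /ₘ h').map F.subtype := by
    rw [Polynomial.map_divByMonic _ hm', hh', hg', ← hw, mul_divByMonic_cancel_left _ hm]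
  intro n
  rw [h1]
  exact om_coe F _ n

/-- Bezout over the subfield -/
theorem om_bez {Ω : Type*} [Field Ω] (F : Subfield Ω) (h : Polynomial Ω)
    (hF : ∀ n, h.coeff n ∈ F) (hs : h.Separable) :
    ∃ α β : Polynomial Ω, (∀ n, α.coeff n ∈ F) ∧ (∀ n, β.coeff n ∈ F) ∧
      α * h + β * derivative h = 1 := by
  obtain ⟨h', hh'⟩ := om_lift F h hF
  have hs' : h'.Separable := by
    rw [← hh', Polynomial.separable_map] at hs
    exact hs
  obtain ⟨α, β, hab⟩ := hs'
  refine ⟨α.map F.subtype, β.map F.subtype, om_coe F _, om_coe F _, ?_⟩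
  rw [← hh', Polynomial.derivative_map, ← Polynomial.map_mul, ← Polynomial.map_mul,
    ← Polynomial.map_add, hab, Polynomial.map_one]

theorem om_revAt {N i : ℕ} (h : N < i) : revAt N i = i := by
  show revAtFun N i = i
  unfold revAtFun
  exact if_neg (by omega)

/-- the reversal of a separable monic polynomial -/
theorem om_rev {Ω : Type*} [Field Ω] (h : Polynomial Ω) (hm : h.Monic) (hs : h.Separable)
    (hd : 1 ≤ h.natDegree) : h.reverse.Separable := by
  obtain ⟨α, β, hab⟩ := hs
  obtain ⟨n, hn⟩ : ∃ n, h.natDegree = n + 1 := ⟨h.natDegree - 1, by omega⟩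
  obtain ⟨S, hS⟩ : ∃ S : Polynomial Ω, S = (derivative h).reflect n := ⟨_, rfl⟩
  have hco : ∀ i, h.reverse.coeff i = h.coeff (revAt (n + 1) i) := by
    intro i
    rw [coeff_reverse, hn]
  have h1 : X * derivative h.reverse + S = C ((n : Ω) + 1) * h.reverse := by
    ext i
    rw [coeff_add, coeff_C_mul, hS, coeff_reflect, coeff_derivative]
    rcases Nat.lt_or_ge (n + 1) i with hi | hi
    · obtain ⟨j, rfl⟩ : ∃ j, i = j + 1 := ⟨i - 1, by (clear * - hd hn hi; omega)⟩
      have e1 : revAt n (j + 1) = j + 1 := by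
        exact om_revAt (by omega)
      have e2 : revAt (n + 1) (j + 1) = j + 1 := by
        exact om_revAt (by omega)
      rw [coeff_X_mul, coeff_derivative, hco, e1, e2, coeff_eq_zero_of_natDegree_lt (by omega),
        coeff_eq_zero_of_natDegree_lt (by omega)]
      ring
    · rcases Nat.eq_zero_or_pos i with h0 | h0
      · rw [h0, mul_coeff_zero, coeff_X_zero, zero_mul, zero_add, hco, revAt_le (by omega),
          revAt_le (by omega), Nat.sub_zero, Nat.sub_zero]
        ring
      · obtain ⟨j, rfl⟩ : ∃ j, i = j + 1 := ⟨i - 1, by omega⟩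
        rw [coeff_X_mul, coeff_derivative, hco, revAt_le hi]
        rcases Nat.lt_or_ge n (j + 1) with hj | hj
        · have e0 : j = n := by omega
          have e1 : revAt n (j + 1) = j + 1 := by
            exact om_revAt (by omega)
          rw [e1, coeff_eq_zero_of_natDegree_lt (p := h) (n := j + 1 + 1) (by omega), e0]
          ring
        · rw [revAt_le hj]
          have e3 : n - (j + 1) + 1 = n + 1 - (j + 1) := by omega
          rw [e3]
          have e4 : ((n - (j + 1) : ℕ) : Ω) = (n : Ω) - ((j : Ω) + 1) := by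
            rw [Nat.cast_sub hj]
            push_cast
            ring
          rw [e4]
          ring
  obtain ⟨N, hN⟩ : ∃ N, N = max α.natDegree β.natDegree := ⟨_, rfl⟩
  have hda : α.natDegree ≤ N := by rw [hN]; exact le_max_left _ _
  have hdb : β.natDegree ≤ N + 1 := by rw [hN]; exact (le_max_right _ _).trans (Nat.le_succ _)
  have hder : (derivative h).natDegree ≤ n := by
    have := natDegree_derivative_le h
    (clear * - hd α β hn N this; omega)
  have h2 : α.reflect N * h.reverse + β.reflect (N + 1) * S = X ^ (N + (n + 1)) := by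
    have h3 := congrArg (reflect (N + (n + 1))) hab
    have e5 : N + (n + 1) = (N + 1) + n := by ring
    rw [reflect_add, reflect_mul α h hda (by omega), e5, reflect_mul β _ hdb hder,
      reflect_one] at h3
    rw [hS, e5, ← h3, reverse, hn]
  have h4 : h.reverse.coeff 0 = 1 := by
    rw [coeff_zero_reverse]
    exact hm
  have h5 : IsCoprime h.reverse X := by
    refine ⟨1, -(divX h.reverse), ?_⟩
    have h6 := divX_mul_X_add h.reverse
    rw [h4, C_1] at h6
    linear_combination -h6
  obtain ⟨a, b, hab'⟩ := h5.pow_right (n := N + (n + 1))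
  have h7 : S = C ((n : Ω) + 1) * h.reverse - X * derivative h.reverse := by
    rw [← h1]; ring
  rw [h7] at h2
  refine ⟨a + b * (α.reflect N + β.reflect (N + 1) * C ((n : Ω) + 1)),
    -(b * β.reflect (N + 1) * X), ?_⟩
  linear_combination hab' + b * h2

theorem om_mr {R E : Type*} [CommRing R] [CommRing E] [Nontrivial E] (p : R[X]) (hp : p.Monic)
    (f : R →+* E) : p.reverse.map f = (p.map f).reverse := by
  rw [reverse, reverse, hp.natDegree_map f, reflect_map]

end OmAux

section

variable {k L Ω : Type*} [Field k] [Field L] [CharZero L] [Algebra k L] [Field Ω]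
    {Q : (ℕ → L) →+* Ω}

/-- Los for an equality of polynomials -/
theorem om_los (hQ : IsUl Q) (p q : (ℕ → L)[X]) (h : p.map Q = q.map Q) :
    ∀ᶠ m in (Filter.hyperfilter ℕ : Filter ℕ),
      p.map (Pi.evalRingHom (fun _ : ℕ => L) m) = q.map (Pi.evalRingHom (fun _ : ℕ => L) m) := by
  have h1 := poly_los hQ (p - q) (by rw [Polynomial.map_sub, h, sub_self])
  filter_upwards [h1] with m hm
  rw [Polynomial.map_sub, sub_eq_zero] at hm
  exact hm

/-- Mason: if `z` is the coordinate of an integral point on a bounded line then `z` is bounded or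
`D z = q(z)` -/
theorem mason_bdd (hQ : IsUl Q) {P T : Type*} [Finite P] [Finite T] [DecidableEq T] (y : T → L)
    (D : P → Derivation ℤ L L) (hy : Dirs k y D) {σ ι : Type*} [Fintype σ] [DecidableEq σ]
    [Fintype ι] [DecidableEq ι] {d : ι → ℕ} (a : (i : ι) → Sym σ (d i) → L) (Z : Finset ι)
    (A : Subalgebra k L) (hA : A.FG) (X : ℕ → σ → L) (hX : ∀ m, Pt a Z A.toSubring (X m))
    (u v : σ → Ω) (hu : ∀ l, u l ∈ BF k hQ) (hv : ∀ l, v l ∈ BF k hQ) (b b' : σ)
    (hpi : u b * v b' - u b' * v b ≠ 0)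
    (htop : ∀ i ∉ Z, form (fun J => Q fun _ => a i J) v ≠ 0) (lam z : Ω) (hlam : lam ≠ 0)
    (hx : ∀ l, (Q fun m => X m l) = lam * (u l + z * v l)) (h w : Polynomial Ω)
    (hF : ∀ n, h.coeff n ∈ BF k hQ) (hmon : h.Monic) (hr : 3 ≤ h.natDegree) (hsep : h.Separable)
    (hw : h * w = ∏ i ∈ Zᶜ, lf (fun J => Q fun _ => a i J) u v) (p : P) (q : Polynomial Ω)
    (hqF : ∀ n, q.coeff n ∈ BF k hQ) (hq : q.natDegree < h.natDegree)
    (hdvd : h ∣ mapD (ulDer Q hQ.surj hQ.ker (D p)) h + derivative h * q) :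
    z ∈ BF k hQ ∨ ulDer Q hQ.surj hQ.ker (D p) z = q.eval z := by
  classical
  obtain ⟨s, hs⟩ := hdvd
  -- everything has coefficients in `BF`
  have hprodF : ∀ n, (∏ i ∈ Zᶜ, lf (fun J => Q fun _ => a i J) u v).coeff n ∈ BF k hQ := by
    obtain ⟨g, hg⟩ : ∃ g : Polynomial (BF k hQ), g = ∏ i ∈ Zᶜ,
        lf (E := BF k hQ) (fun J => ⟨Q fun _ => a i J, const_mem hQ (a i J)⟩)
          (fun l => ⟨u l, hu l⟩) (fun l => ⟨v l, hv l⟩) := ⟨_, rfl⟩
    have h1 : (∏ i ∈ Zᶜ, lf (fun J => Q fun _ => a i J) u v) = g.map (BF k hQ).subtype := by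
      rw [hg, Polynomial.map_prod]
      refine Finset.prod_congr rfl fun i _ => ?_
      rw [lf_map]
      rfl
    intro n
    rw [h1]
    exact om_coe _ _ n
  have hwF : ∀ n, w.coeff n ∈ BF k hQ := om_quot _ h _ w hF hprodF hmon hw
  have hsF : ∀ n, s.coeff n ∈ BF k hQ := by
    obtain ⟨h', hh'⟩ := om_lift _ h hF
    obtain ⟨q', hq'⟩ := om_lift _ q hqF
    obtain ⟨e', he'⟩ := om_lift (BF k hQ) (mapD (ulDer Q hQ.surj hQ.ker (D p)) h) (fun n => by
      rw [coeff_mapD]
      exact der_mem hQ (D p) (hy.ker p) _ (hF n))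
    refine om_quot _ h _ s hF ?_ hmon hs.symm
    intro n
    have h1 : mapD (ulDer Q hQ.surj hQ.ker (D p)) h + derivative h * q =
        (e' + derivative h' * q').map (BF k hQ).subtype := by
      rw [Polynomial.map_add, Polynomial.map_mul, ← Polynomial.derivative_map, he', hh', hq']
    rw [h1]
    exact om_coe _ _ n
  obtain ⟨α, β, hαF, hβF, hab⟩ := om_bez (BF k hQ) h hF hsep
  obtain ⟨α', β', hαF', hβF', hab'⟩ := om_bez (BF k hQ) h.reverse
    (fun n => by rw [coeff_reverse]; exact hF _) (om_rev h hmon hsep (by omega))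
  have hform : ∀ i, form (fun J => Q fun _ => a i J) v ∈ BF k hQ := by
    intro i
    have h1 := pd_map_form (BF k hQ).subtype (fun J => ⟨Q fun _ => a i J, const_mem hQ (a i J)⟩)
      (fun l => ⟨v l, hv l⟩)
    have h2 : (BF k hQ).subtype (form (fun J => ⟨Q fun _ => a i J, const_mem hQ (a i J)⟩)
      (fun l => ⟨v l, hv l⟩)) ∈ BF k hQ := Subtype.coe_prop _
    rw [h1] at h2
    exact h2
  -- the lifts
  obtain ⟨V, hV, π, ζ, e, heV, he0, hπV, hζV, hπQ, hπd, hπm, hζQ⟩ := poly_lift hQ
    (S := Fin 8) ![h, w, q, s, α, β, α', β'] (fun i => by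
      fin_cases i
      · exact hF
      · exact hwF
      · exact hqF
      · exact hsF
      · exact hαF
      · exact hβF
      · exact hαF'
      · exact hβF')
    (S' := (σ ⊕ σ) ⊕ (Unit ⊕ ι))
    (Sum.elim (Sum.elim u v) (Sum.elim (fun _ => (u b * v b' - u b' * v b)⁻¹)
      (fun i => (form (fun J => Q fun _ => a i J) v)⁻¹))) (fun i => by
      rcases i with (l | l) | (l | i)
      · exact hu l
      · exact hv l
      · exact inv_mem (sub_mem (mul_mem (hu b) (hv b')) (mul_mem (hu b') (hv b)))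
      · exact inv_mem (hform i))
  have q0 : (π 0).map Q = h := hπQ 0
  have q1 : (π 1).map Q = w := hπQ 1
  have q2 : (π 2).map Q = q := hπQ 2
  have q3 : (π 3).map Q = s := hπQ 3
  have q4 : (π 4).map Q = α := hπQ 4
  have q5 : (π 5).map Q = β := hπQ 5
  have q6 : (π 6).map Q = α' := hπQ 6
  have q7 : (π 7).map Q = β' := hπQ 7
  have m0 : (π 0).Monic := hπm 0 hmon
  have d2 : (π 2).natDegree ≤ q.natDegree := hπd 2
  obtain ⟨U, hU⟩ : ∃ U : σ → ℕ → L, U = fun l => ζ (Sum.inl (Sum.inl l)) := ⟨_, rfl⟩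
  obtain ⟨W, hW⟩ : ∃ W : σ → ℕ → L, W = fun l => ζ (Sum.inl (Sum.inr l)) := ⟨_, rfl⟩
  obtain ⟨c, hc⟩ : ∃ c : ℕ → L, c = ζ (Sum.inr (Sum.inl ())) := ⟨_, rfl⟩
  obtain ⟨t, ht⟩ : ∃ t : ι → ℕ → L, t = fun i => ζ (Sum.inr (Sum.inr i)) := ⟨_, rfl⟩
  have hUQ : ∀ l, Q (U l) = u l := by intro l; rw [hU]; exact hζQ _
  have hWQ : ∀ l, Q (W l) = v l := by intro l; rw [hW]; exact hζQ _
  have hcQ : Q c = (u b * v b' - u b' * v b)⁻¹ := by rw [hc]; exact hζQ _
  have htQ : ∀ i, Q (t i) = (form (fun J => Q fun _ => a i J) v)⁻¹ := by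
    intro i; rw [ht]; exact hζQ _
  have hUV : ∀ l m, e m * U l m ∈ V := by intro l m; rw [hU]; exact hζV _ _
  have hWV : ∀ l m, e m * W l m ∈ V := by intro l m; rw [hW]; exact hζV _ _
  have hcV : ∀ m, e m * c m ∈ V := by intro m; rw [hc]; exact hζV _ _
  have htV : ∀ i m, e m * t i m ∈ V := by intro i m; rw [ht]; exact hζV _ _
  obtain ⟨lam', hlam'⟩ := hQ.surj lam
  obtain ⟨z', hz'⟩ := hQ.surj z
  -- the events
  have E1 : ∀ᶠ m in (Filter.hyperfilter ℕ : Filter ℕ),
      ∀ l, X m l = lam' m * (U l m + z' m * W l m) := by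
    rw [Filter.eventually_all]
    intro l
    have h1 : Q (fun m => X m l) = Q (lam' * (U l + z' * W l)) := by
      rw [hx l, map_mul, map_add, map_mul, hUQ, hWQ, hlam', hz']
    rw [ul_eq Q hQ.ker] at h1
    exact h1
  have E2 : ∀ᶠ m in (Filter.hyperfilter ℕ : Filter ℕ), lam' m ≠ 0 := by
    refine Ultrafilter.eventually_not.2 fun h3 => hlam ?_
    rw [← hlam', hQ.ker]
    exact h3
  have E3 : ∀ᶠ m in (Filter.hyperfilter ℕ : Filter ℕ),
      (U b m * W b' m - U b' m * W b m) * c m = 1 := by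
    have h1 : Q ((U b * W b' - U b' * W b) * c) = Q 1 := by
      rw [map_mul, map_sub, map_mul, map_mul, hUQ, hUQ, hWQ, hWQ, hcQ, mul_inv_cancel₀ hpi,
        map_one]
    rw [ul_eq Q hQ.ker] at h1
    exact h1
  have E4 : ∀ᶠ m in (Filter.hyperfilter ℕ : Filter ℕ),
      ∀ i, i ∉ Z → form (a i) (fun l => W l m) * t i m = 1 := by
    rw [Filter.eventually_all]
    intro i
    by_cases hi : i ∈ Z
    · exact Filter.Eventually.of_forall fun m h => absurd hi h
    · have h1 : Q ((fun m => form (a i) (fun l => W l m)) * t i) = Q 1 := by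
        rw [map_mul, htQ, ul_Q_form Q (a i) (fun m l => W l m)]
        have h2 : (fun l => Q fun m => W l m) = v := funext fun l => hWQ l
        rw [h2, mul_inv_cancel₀ (htop i hi), map_one]
      rw [ul_eq Q hQ.ker] at h1
      filter_upwards [h1] with m hm _
      exact hm
  have E5 : ∀ᶠ m in (Filter.hyperfilter ℕ : Filter ℕ),
      (π 0).map (Pi.evalRingHom (fun _ : ℕ => L) m) * (π 1).map (Pi.evalRingHom (fun _ : ℕ => L) m)
        = ∏ i ∈ Zᶜ, lf (a i) (fun l => U l m) (fun l => W l m) := by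
    have h1 := om_los hQ (π 0 * π 1) (∏ i ∈ Zᶜ, lf (fun J => fun _ : ℕ => a i J) U W) (by
      rw [Polynomial.map_mul, q0, q1, hw, Polynomial.map_prod]
      refine Finset.prod_congr rfl fun i _ => ?_
      rw [lf_map]
      have h2 : (fun l => Q (U l)) = u := funext fun l => hUQ l
      have h3 : (fun l => Q (W l)) = v := funext fun l => hWQ l
      rw [h2, h3])
    filter_upwards [h1] with m hm
    rw [Polynomial.map_mul, Polynomial.map_prod] at hm
    rw [hm]
    refine Finset.prod_congr rfl fun i _ => ?_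
    rw [lf_map]
    rfl
  have E6 : ∀ᶠ m in (Filter.hyperfilter ℕ : Filter ℕ),
      mapD (D p) ((π 0).map (Pi.evalRingHom (fun _ : ℕ => L) m)) +
        derivative ((π 0).map (Pi.evalRingHom (fun _ : ℕ => L) m)) *
          (π 2).map (Pi.evalRingHom (fun _ : ℕ => L) m) =
        (π 0).map (Pi.evalRingHom (fun _ : ℕ => L) m) *
          (π 3).map (Pi.evalRingHom (fun _ : ℕ => L) m) := by
    obtain ⟨p', hp1, hp2⟩ := map_mapD hQ (D p) (π 0)
    have h1 := om_los hQ (p' + derivative (π 0) * π 2) (π 0 * π 3) (by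
      rw [Polynomial.map_add, Polynomial.map_mul, Polynomial.map_mul, hp1,
        ← Polynomial.derivative_map, q0, q2, q3]
      exact hs)
    filter_upwards [h1] with m hm
    rw [Polynomial.map_add, Polynomial.map_mul, Polynomial.map_mul, hp2,
      ← Polynomial.derivative_map] at hm
    exact hm
  have E7 : ∀ᶠ m in (Filter.hyperfilter ℕ : Filter ℕ),
      (π 4).map (Pi.evalRingHom (fun _ : ℕ => L) m) * (π 0).map (Pi.evalRingHom (fun _ : ℕ => L) m)
        + (π 5).map (Pi.evalRingHom (fun _ : ℕ => L) m) *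
          derivative ((π 0).map (Pi.evalRingHom (fun _ : ℕ => L) m)) = 1 := by
    have h1 := om_los hQ (π 4 * π 0 + π 5 * derivative (π 0)) 1 (by
      rw [Polynomial.map_add, Polynomial.map_mul, Polynomial.map_mul,
        ← Polynomial.derivative_map, q0, q4, q5, Polynomial.map_one]
      exact hab)
    filter_upwards [h1] with m hm
    rw [Polynomial.map_add, Polynomial.map_mul, Polynomial.map_mul,
      ← Polynomial.derivative_map, Polynomial.map_one] at hm
    exact hm
  have E8 : ∀ᶠ m in (Filter.hyperfilter ℕ : Filter ℕ),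
      (π 6).map (Pi.evalRingHom (fun _ : ℕ => L) m) *
          ((π 0).map (Pi.evalRingHom (fun _ : ℕ => L) m)).reverse
        + (π 7).map (Pi.evalRingHom (fun _ : ℕ => L) m) *
          derivative ((π 0).map (Pi.evalRingHom (fun _ : ℕ => L) m)).reverse = 1 := by
    have h1 := om_los hQ (π 6 * (π 0).reverse + π 7 * derivative (π 0).reverse) 1 (by
      rw [Polynomial.map_add, Polynomial.map_mul, Polynomial.map_mul,
        ← Polynomial.derivative_map, om_mr _ m0, q0, q6, q7, Polynomial.map_one]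
      exact hab')
    filter_upwards [h1] with m hm
    rw [Polynomial.map_add, Polynomial.map_mul, Polynomial.map_mul,
      ← Polynomial.derivative_map, Polynomial.map_one, om_mr _ m0] at hm
    exact hm
  have hdeg : ∀ m, ((π 0).map (Pi.evalRingHom (fun _ : ℕ => L) m)).natDegree = h.natDegree := by
    intro m
    rw [m0.natDegree_map, ← m0.natDegree_map Q, q0]
  -- the Mason data
  have hM : ∀ᶠ m in (Filter.hyperfilter ℕ : Filter ℕ),
      MData a Z V (D p) (X m) (fun l => U l m) (fun l => W l m) (lam' m) (z' m) (e m)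
        ((π 0).map (Pi.evalRingHom (fun _ : ℕ => L) m))
        ((π 1).map (Pi.evalRingHom (fun _ : ℕ => L) m))
        ((π 2).map (Pi.evalRingHom (fun _ : ℕ => L) m))
        ((π 3).map (Pi.evalRingHom (fun _ : ℕ => L) m))
        ((π 4).map (Pi.evalRingHom (fun _ : ℕ => L) m))
        ((π 5).map (Pi.evalRingHom (fun _ : ℕ => L) m))
        ((π 6).map (Pi.evalRingHom (fun _ : ℕ => L) m))
        ((π 7).map (Pi.evalRingHom (fun _ : ℕ => L) m)) := by
    filter_upwards [E1, E2, E3, E4, E5, E6, E7, E8] with m e1 e2 e3 e4 e5 e6 e7 e8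
    refine ⟨heV m, he0 m, e2, e1, fun l => hUV l m, fun l => hWV l m, ⟨b, b', ?_, ?_⟩,
      fun i hi => ⟨?_, ?_⟩, m0.map _, ?_, e5, ?_, e6, e7, e8, fun n => ?_⟩
    · exact left_ne_zero_of_mul (e3.trans_ne one_ne_zero)
    · rw [← eq_inv_of_mul_eq_one_right e3]
      exact hcV m
    · exact left_ne_zero_of_mul ((e4 i hi).trans_ne one_ne_zero)
    · rw [← eq_inv_of_mul_eq_one_right (e4 i hi)]
      exact htV i m
    · rw [hdeg]
      exact hr
    · rw [hdeg]
      exact (natDegree_map_le.trans d2).trans_lt hq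
    · simp only [coeff_map]
      exact ⟨hπV 0 n m, hπV 1 n m, hπV 2 n m, hπV 3 n m, hπV 4 n m, hπV 5 n m, hπV 6 n m,
        hπV 7 n m⟩
  obtain ⟨V', hV', hmem⟩ := mason_bound y D hy a Z A hA V
  obtain ⟨G, hG⟩ : ∃ G : ℕ → L, G = fun m =>
      (D p (z' m) - ((π 2).map (Pi.evalRingHom (fun _ : ℕ => L) m)).eval (z' m)) /
        ((π 0).map (Pi.evalRingHom (fun _ : ℕ => L) m)).eval (z' m) := ⟨_, rfl⟩
  have hmem1 : ∀ᶠ m in (Filter.hyperfilter ℕ : Filter ℕ), e m ^ 2 * G m ∈ V' ∧
      e m ^ 2 * (G m * z' m) ∈ V' := by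
    filter_upwards [hM] with m hm
    rw [hG]
    exact hmem p _ _ _ _ _ _ _ _ _ _ _ _ _ _ hm (hX m)
  by_cases hG0 : ∀ᶠ m in (Filter.hyperfilter ℕ : Filter ℕ), G m = 0
  · right
    have hzero : ∀ᶠ m in (Filter.hyperfilter ℕ : Filter ℕ),
        D p (z' m) = ((π 2).map (Pi.evalRingHom (fun _ : ℕ => L) m)).eval (z' m) := by
      filter_upwards [hG0, E1, E5] with m g0 e1 e5
      rw [hG] at g0
      have hev : ((π 0).map (Pi.evalRingHom (fun _ : ℕ => L) m)).eval (z' m) ≠ 0 := by
        have h1 := congrArg (eval (z' m)) e5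
        rw [eval_mul, eval_prod] at h1
        have h2 : ∏ i ∈ Zᶜ, (lf (a i) (fun l => U l m) (fun l => W l m)).eval (z' m) ≠ 0 := by
          refine Finset.prod_ne_zero_iff.2 fun i hi h3 => ?_
          rw [lf_eval] at h3
          apply (hX m).ne i (Finset.mem_compl.1 hi)
          rw [show X m = fun l => lam' m * (U l m + z' m * W l m) from funext e1, mb_form_smul,
            h3, mul_zero]
        rw [← h1] at h2
        exact left_ne_zero_of_mul h2
      rcases div_eq_zero_iff.1 g0 with h4 | h4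
      · exact sub_eq_zero.1 h4
      · exact absurd h4 hev
    rw [← hz', ulDer_apply, ← q2, eval_map, eval₂_at_apply, ul_eq Q hQ.ker]
    filter_upwards [hzero] with m hm
    rw [hm, eval_map]
    exact eval₂_at_apply (Pi.evalRingHom (fun _ : ℕ => L) m) z'
  · left
    have hG1 : ∀ᶠ m in (Filter.hyperfilter ℕ : Filter ℕ), G m ≠ 0 :=
      Ultrafilter.eventually_not.2 hG0
    rw [mem_BF]
    refine bset_of_fd hQ V' (fun m => e m ^ 2 * (G m * z' m)) (fun m => e m ^ 2 * G m)
      (hmem1.mono fun m hm => hm.2) (hmem1.mono fun m hm => hm.1)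
      (hG1.mono fun m hm => mul_ne_zero (pow_ne_zero _ (he0 m)) hm) z ?_
    rw [← hz', ← map_mul]
    congr 1
    funext m
    show z' m * (e m ^ 2 * G m) = e m ^ 2 * (G m * z' m)
    ring

end

end Pool.Agent.Helper10.LB
end

/- Helper10.LB.DerExt -/
section
/-! # LB-DE: extension of derivations, constants (proofs by helper66, from Ext.lean) -/

set_option autoImplicit false

namespace Pool.Agent.Helper10.LB

open scoped BigOperators
open Polynomial Pool.Agent.Helper8.LG

/-- derivations extend to finite extensions in characteristic zero -/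
theorem der_ext {F K : Type*} [Field F] [Field K] [CharZero F] [Algebra F K]
    [FiniteDimensional F K] (D : Derivation ℤ F F) :
    ∃ D' : Derivation ℤ K K, ∀ x, D' (algebraMap F K x) = algebraMap F K (D x) := by
  let : Differential F := ⟨D⟩
  let := Differential.differentialFiniteDimensional F K
  have : DifferentialAlgebra F K := Differential.differentialAlgebraFiniteDimensional
  exact ⟨Differential.deriv, fun x => deriv_algebraMap x⟩

theorem mapD_map {F K : Type*} [Field F] [Field K] [Algebra F K] (D : Derivation ℤ F F)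
    (D' : Derivation ℤ K K) (hD : ∀ x, D' (algebraMap F K x) = algebraMap F K (D x)) (g : F[X]) :
    mapD D' (g.map (algebraMap F K)) = (mapD D g).map (algebraMap F K) := by
  ext n
  rw [coeff_mapD, coeff_map, coeff_map, coeff_mapD, hD]

theorem deriv_aeval {F K : Type*} [Field F] [Field K] [Algebra F K] (D : Derivation ℤ F F)
    (D' : Derivation ℤ K K) (hD : ∀ x, D' (algebraMap F K x) = algebraMap F K (D x)) (g : F[X])
    (c : K) : D' (aeval c g) = aeval c (mapD D g) + aeval c (derivative g) * D' c := by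
  have h := deriv_eval D' (g.map (algebraMap F K)) c
  rw [mapD_map D D' hD, derivative_map, eval_map_algebraMap, eval_map_algebraMap,
    eval_map_algebraMap] at h
  exact h

/-- constants of an algebraic extension are algebraic over the constants -/
theorem const_alg {F K : Type*} [Field F] [Field K] [CharZero F] [Algebra F K]
    {P : Type*} (D : P → Derivation ℤ F F) (D' : P → Derivation ℤ K K)
    (hD : ∀ p x, D' p (algebraMap F K x) = algebraMap F K (D p x)) (c : K)
    (hc : IsAlgebraic F c) (h : ∀ p, D' p c = 0) :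
    ∃ g : F[X], g.Monic ∧ (∀ n p, D p (g.coeff n) = 0) ∧ aeval c g = 0 := by
  have hi : IsIntegral F c := hc.isIntegral
  have hm : (minpoly F c).Monic := minpoly.monic hi
  refine ⟨minpoly F c, hm, fun n p => ?_, minpoly.aeval F c⟩
  have h1 : aeval c (mapD (D p) (minpoly F c)) = 0 := by
    have h2 := deriv_aeval (D p) (D' p) (hD p) (minpoly F c) c
    rw [minpoly.aeval, map_zero, h p, mul_zero, add_zero] at h2
    exact h2.symm
  have h3 : mapD (D p) (minpoly F c) = 0 := by
    by_contra h0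
    have h4 : (minpoly F c).degree ≤ (mapD (D p) (minpoly F c)).degree :=
      minpoly.degree_le_of_ne_zero F c h0 h1
    have h5 : (mapD (D p) (minpoly F c)).degree < (minpoly F c).degree := by
      rw [degree_eq_natDegree hm.ne_zero, degree_lt_iff_coeff_zero]
      intro m hmn
      rw [coeff_mapD]
      rcases eq_or_lt_of_le hmn with h6 | h6
      · rw [← h6, hm.coeff_natDegree]
        exact (D p).map_one_eq_zero
      · rw [coeff_eq_zero_of_natDegree_lt h6, map_zero]
    exact absurd h4 (not_le_of_gt h5)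
  rw [← coeff_mapD, h3, coeff_zero]

end Pool.Agent.Helper10.LB
end

/- Helper10.LB.ConstL -/
section
/-! # LB-CL: the constants of `L` -/

set_option autoImplicit false

namespace Pool.Agent.Helper10.LB

open scoped BigOperators
open Polynomial Pool.Agent.Helper8.LG

/-- a derivation which kills `k` and the `y_i` is zero -/
theorem cl_zero {k L : Type*} [Field k] [Field L] [CharZero L] [Algebra k L] {T : Type*}
    (y : T → L) (hfin : FiniteDimensional (IntermediateField.adjoin k (Set.range y)) L)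
    (δ : Derivation ℤ L L) (hk : ∀ c : k, δ (algebraMap k L c) = 0) (hy : ∀ i, δ (y i) = 0)
    (x : L) : δ x = 0 := by
  have hK : ∀ a ∈ IntermediateField.adjoin k (Set.range y), δ a = 0 := by
    intro a ha
    induction ha using IntermediateField.adjoin_induction with
    | mem a ha =>
      obtain ⟨i, rfl⟩ := ha
      exact hy i
    | algebraMap c => exact hk c
    | add a b _ _ ha hb => rw [map_add, ha, hb, add_zero]
    | inv a _ ha => rw [Derivation.leibniz_inv, ha, smul_zero]
    | mul a b _ _ ha hb => rw [Derivation.leibniz, ha, hb, smul_zero, smul_zero, add_zero]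
  have hi : IsIntegral (IntermediateField.adjoin k (Set.range y)) x :=
    Algebra.IsIntegral.isIntegral x
  have h1 := deriv_aeval (0 : Derivation ℤ (IntermediateField.adjoin k (Set.range y))
    (IntermediateField.adjoin k (Set.range y))) δ (fun a => by
      rw [Derivation.zero_apply, map_zero]
      exact hK _ a.2) (minpoly (IntermediateField.adjoin k (Set.range y)) x) x
  have h2 : mapD (0 : Derivation ℤ (IntermediateField.adjoin k (Set.range y))
      (IntermediateField.adjoin k (Set.range y)))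
      (minpoly (IntermediateField.adjoin k (Set.range y)) x) = 0 := by
    ext n
    rw [coeff_mapD, Derivation.zero_apply, coeff_zero]
  rw [minpoly.aeval, map_zero, h2, map_zero, zero_add] at h1
  have h3 : aeval x (derivative (minpoly (IntermediateField.adjoin k (Set.range y)) x)) ≠ 0 := by
    have h4 : (minpoly (IntermediateField.adjoin k (Set.range y)) x).Separable :=
      (minpoly.irreducible hi).separable
    exact h4.aeval_derivative_ne_zero (minpoly.aeval _ _)
  exact (mul_eq_zero.1 h1.symm).resolve_left h3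

theorem cl_sum_apply {L T : Type*} [Field L] (s : Finset T) (f : T → L)
    (D : T → Derivation ℤ L L) (x : L) :
    (∑ i ∈ s, f i • D i) x = ∑ i ∈ s, f i * D i x := by
  classical
  induction s using Finset.induction_on with
  | empty => simp
  | insert a s ha ih =>
    rw [Finset.sum_insert ha, Finset.sum_insert ha, Derivation.add_apply, ih,
      Derivation.smul_apply, smul_eq_mul]

/-- the constants are algebraic over `k` -/
theorem cl_alg {k L : Type*} [Field k] [Field L] [CharZero L] [Algebra k L] {P T : Type*}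
    [Finite T] [DecidableEq T] (y : T → L) (D : P → Derivation ℤ L L)
    (hy : Dirs k y D) (c : L) (hc : ∀ p, D p c = 0) : IsAlgebraic k c := by
  classical
  have := Fintype.ofFinite T
  by_contra hn
  have hn' : Transcendental k c := hn
  have h1 : AlgebraicIndepOn k id ({c} : Set L) := by
    have h2 : AlgebraicIndependent k (fun x : ({c} : Set L) => (x : L)) :=
      (algebraicIndependent_singleton_iff (⟨c, rfl⟩ : ({c} : Set L))).2 hn'
    exact h2
  obtain ⟨t, ht, hb⟩ := exists_isTranscendenceBasis_superset (R := k) h1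
  obtain ⟨δ, hδ⟩ := red_exists_der (Subtype.val : t → L) hb.1 hb.isAlgebraic
    (fun x => if (x : L) = c then 1 else 0)
  have hδc : δ c = 1 := by
    have := hδ ⟨c, ht rfl⟩
    simpa using this
  choose q hq using hy.dual
  let E : Derivation ℤ L L := δ.restrictScalars ℤ - ∑ i, δ (y i) • D (q i)
  have hE : ∀ x, E x = δ x - ∑ i, δ (y i) * D (q i) x := by
    intro x
    simp only [E, Derivation.sub_apply, Derivation.restrictScalars_apply]
    rw [cl_sum_apply]
  have h0 : E c = 0 := by
    refine cl_zero (k := k) y hy.fin E (fun a => ?_) (fun j => ?_) c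
    · rw [hE, Derivation.map_algebraMap]
      simp [hy.ker]
    · rw [hE]
      simp only [hq]
      rw [Finset.sum_eq_single j]
      · simp
      · intro i _ hij
        rw [if_neg (fun h => hij h.symm), mul_zero]
      · intro h
        exact absurd (Finset.mem_univ _) h
  rw [hE, hδc] at h0
  simp only [hc, mul_zero, Finset.sum_const_zero, sub_zero] at h0
  exact one_ne_zero h0

open scoped IntermediateField.algebraAdjoinAdjoin in
/-- powers of an algebraic element stay independent over `k(y)` -/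
theorem cl_deg {k L : Type*} [Field k] [Field L] [Algebra k L] {T : Type*}
    (y : T → L) (hind : AlgebraicIndependent k y)
    (hfin : FiniteDimensional (IntermediateField.adjoin k (Set.range y)) L) (c : L)
    (hc : IsAlgebraic k c) :
    (minpoly k c).natDegree ≤
      Module.finrank (IntermediateField.adjoin k (Set.range y)) L := by
  classical
  have h1 : AlgebraicIndependent (algebraicClosure k L) y := hind.algebraicClosure
  let c' : algebraicClosure k L := ⟨c, mem_algebraicClosure_iff.2 hc⟩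
  have h2 : LinearIndependent (Algebra.adjoin k (Set.range y))
      (fun i : Fin (minpoly k c).natDegree => c ^ (i : ℕ)) := by
    rw [Fintype.linearIndependent_iff]
    intro g hg
    have hp : ∀ i, ∃ p : MvPolynomial T k, MvPolynomial.aeval y p = (g i : L) := by
      intro i
      have h3 : (g i : L) ∈ (MvPolynomial.aeval (R := k) y).range := by
        rw [← Algebra.adjoin_range_eq_range_aeval]
        exact (g i).2
      exact h3
    choose p hp using hp
    have h4 : MvPolynomial.aeval y (∑ i : Fin (minpoly k c).natDegree,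
        MvPolynomial.C (c' ^ (i : ℕ)) *
        MvPolynomial.map (algebraMap k (algebraicClosure k L)) (p i)) = 0 := by
      rw [map_sum]
      rw [← hg]
      refine Finset.sum_congr rfl fun i _ => ?_
      rw [map_mul, MvPolynomial.aeval_map_algebraMap, hp, MvPolynomial.aeval_C]
      rw [Algebra.smul_def, mul_comm]
      rfl
    have h5 := (injective_iff_map_eq_zero _).1 h1 _ h4
    have h6 : ∀ i, p i = 0 := by
      intro i
      ext m
      rw [MvPolynomial.coeff_zero]
      have h7 : ∑ j : Fin (minpoly k c).natDegree,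
          (MvPolynomial.coeff m (p j)) • c ^ (j : ℕ) = 0 := by
        have h8 := congrArg (MvPolynomial.coeff m) h5
        rw [MvPolynomial.coeff_sum, MvPolynomial.coeff_zero] at h8
        simp only [MvPolynomial.coeff_C_mul, MvPolynomial.coeff_map] at h8
        have h9 := congrArg (algebraMap (algebraicClosure k L) L) h8
        rw [map_sum, map_zero] at h9
        rw [← h9]
        refine Finset.sum_congr rfl fun j _ => ?_
        rw [map_mul, map_pow, Algebra.smul_def, mul_comm]
        rfl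
      exact Fintype.linearIndependent_iff.1 (linearIndependent_pow c) _ h7 i
    intro i
    apply Subtype.ext
    rw [← hp i, h6 i, map_zero]
    rfl
  have h3 : LinearIndependent (IntermediateField.adjoin k (Set.range y))
      (fun i : Fin (minpoly k c).natDegree => c ^ (i : ℕ)) :=
    (LinearIndependent.iff_fractionRing (Algebra.adjoin k (Set.range y)) _).1 h2
  have h4 := h3.fintype_card_le_finrank
  rwa [Fintype.card_fin] at h4

/-- a constant of `L` is a root of a monic polynomial over `k` of fixed degree -/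
theorem const_L {k L : Type*} [Field k] [Field L] [CharZero L] [Algebra k L] {P T : Type*}
    [Finite P] [Finite T] [DecidableEq T] (y : T → L) (D : P → Derivation ℤ L L)
    (hy : Dirs k y D) :
    ∃ N : ℕ, ∀ c : L, (∀ p, D p c = 0) → ∃ g : k[X], g.Monic ∧ g.natDegree = N ∧
      aeval c g = 0 := by
  refine ⟨Module.finrank (IntermediateField.adjoin k (Set.range y)) L, fun c hc => ?_⟩
  have h1 := cl_alg y D hy c hc
  have h2 := cl_deg y hy.ind hy.fin c h1
  have h3 : (minpoly k c).Monic := minpoly.monic h1.isIntegral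
  refine ⟨minpoly k c * X ^ (Module.finrank (IntermediateField.adjoin k (Set.range y)) L -
    (minpoly k c).natDegree), h3.mul (monic_X_pow _), ?_, ?_⟩
  · rw [h3.natDegree_mul (monic_X_pow _), natDegree_X_pow]
    omega
  · rw [map_mul, minpoly.aeval, zero_mul]

end Pool.Agent.Helper10.LB
end

/- Helper12.LVF.H10.LB.Consts -/
section
/-! # LB-CO: the constants of the ultrapower -/

set_option autoImplicit false

namespace Pool.Agent.Helper10.LB

open scoped BigOperators
open Polynomial Pool.Agent.Helper8.LG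

/-- `k`-valued sequences are bounded -/
theorem co_mem {k L Ω : Type*} [Field k] [Field L] [Algebra k L] [Field Ω]
    {Q : (ℕ → L) →+* Ω} (hQ : IsUl Q) (g : ℕ → k) :
    Q (fun m => algebraMap k L (g m)) ∈ BF k hQ := by
  rw [mem_BF]
  have hfd : FiniteDimensional k (Submodule.span k ({1} : Set L)) :=
    FiniteDimensional.span_of_finite k (Set.finite_singleton _)
  have h1V : (1 : L) ∈ Submodule.span k ({1} : Set L) := Submodule.mem_span_singleton_self _
  refine bset_of_fd hQ (Submodule.span k {1}) (fun m => algebraMap k L (g m)) (fun _ => 1)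
    (Filter.Eventually.of_forall fun m => ?_)
    (Filter.Eventually.of_forall fun _ => h1V)
    (Filter.Eventually.of_forall fun _ => one_ne_zero) _ ?_
  · rw [Algebra.algebraMap_eq_smul_one]
    exact Submodule.smul_mem _ _ h1V
  · have h : Q (fun _ => (1 : L)) = 1 := map_one Q
    rw [h, mul_one]

/-- the constants of the ultrapower are algebraic over the bounded elements -/
theorem const_Ω {k L Ω : Type*} [Field k] [Field L] [CharZero L] [Algebra k L] [Field Ω]
    {Q : (ℕ → L) →+* Ω} (hQ : IsUl Q) {P T : Type*}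
    [Finite P] [Finite T] [DecidableEq T] (y : T → L) (D : P → Derivation ℤ L L)
    (hy : Dirs k y D) (c : Ω) (hc : ∀ p, ulDer Q hQ.surj hQ.ker (D p) c = 0) :
    IsAlgebraic (BF k hQ) c := by
  classical
  obtain ⟨f, rfl⟩ := hQ.surj c
  obtain ⟨N, hN⟩ := const_L y D hy
  have h1 : ∀ᶠ m in (Filter.hyperfilter ℕ : Filter ℕ), ∀ p, D p (f m) = 0 := by
    rw [Filter.eventually_all]
    intro p
    have h := hc p
    rw [ulDer_apply, hQ.ker] at h
    exact h
  have h2 : ∀ m, ∃ g : k[X], g.Monic ∧ g.natDegree = N ∧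
      ((∀ p, D p (f m) = 0) → aeval (f m) g = 0) := by
    intro m
    by_cases hm : ∀ p, D p (f m) = 0
    · obtain ⟨g, hg1, hg2, hg3⟩ := hN (f m) hm
      exact ⟨g, hg1, hg2, fun _ => hg3⟩
    · exact ⟨X ^ N, monic_X_pow N, natDegree_X_pow N, fun h => absurd h hm⟩
  choose g hg1 hg2 hg3 using h2
  set a : ℕ → BF k hQ := fun j => ⟨Q fun m => algebraMap k L ((g m).coeff j), co_mem hQ _⟩
    with ha
  set G : (BF k hQ)[X] := ∑ j ∈ Finset.range (N + 1), monomial j (a j) with hG
  refine ⟨G, ?_, ?_⟩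
  · intro h0
    have h3 : G.coeff N = a N := by
      rw [hG, finsetSum_coeff]
      simp only [coeff_monomial]
      rw [Finset.sum_ite_eq' (Finset.range (N + 1)) N, if_pos (Finset.mem_range.2 (Nat.lt_succ_self N))]
    rw [h0, coeff_zero] at h3
    have h4 : (a N : Ω) = 1 := by
      have h5 : (fun m => algebraMap k L ((g m).coeff N)) = 1 := by
        funext m
        have h6 : (g m).coeff N = 1 := by
          rw [← hg2 m]
          exact hg1 m
        rw [h6, map_one]
        rfl
      show Q _ = 1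
      rw [h5, map_one]
    rw [← h3] at h4
    exact zero_ne_one h4
  · have h3 : aeval (Q f) G = Q fun m => aeval (f m) (g m) := by
      have h4 : (fun m => aeval (f m) (g m)) =
          ∑ j ∈ Finset.range (N + 1), (fun m => algebraMap k L ((g m).coeff j)) * f ^ j := by
        funext m
        rw [Finset.sum_apply, aeval_eq_sum_range' (n := N + 1) (by rw [hg2 m]; exact Nat.lt_succ_self N)]
        exact Finset.sum_congr rfl fun j _ => Algebra.smul_def _ _
      rw [h4, hG, map_sum, map_sum]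
      refine Finset.sum_congr rfl fun j _ => ?_
      rw [aeval_monomial, map_mul, map_pow]
      rfl
    rw [h3, hQ.ker]
    filter_upwards [h1] with m hm
    exact hg3 m hm

end Pool.Agent.Helper10.LB
end

/- Helper10.LB.Riccati -/
section
/-! # LB-RI: Riccati equations -/

set_option autoImplicit false

namespace Pool.Agent.Helper10.LB

open scoped BigOperators
open Polynomial Pool.Agent.Helper8.LG

/-- `D r = q(r)` for the roots `r` of `h`. -/
theorem riccati_root {Ω K : Type*} [Field Ω] [Field K] [Algebra Ω K] (D : Derivation ℤ Ω Ω)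
    (D' : Derivation ℤ K K) (hD : ∀ x, D' (algebraMap Ω K x) = algebraMap Ω K (D x))
    (h q : Polynomial Ω) (hsep : h.Separable) (hdvd : h ∣ mapD D h + derivative h * q)
    (r : K) (hr : (h.map (algebraMap Ω K)).eval r = 0) :
    D' r = (q.map (algebraMap Ω K)).eval r := by
  have h1 := deriv_eval D' (h.map (algebraMap Ω K)) r
  rw [hr, map_zero] at h1
  have h2 : mapD D' (h.map (algebraMap Ω K)) = (mapD D h).map (algebraMap Ω K) := by
    ext n
    rw [coeff_mapD, coeff_map, coeff_map, coeff_mapD, hD]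
  have h3 : (mapD D h).map (algebraMap Ω K) + derivative (h.map (algebraMap Ω K)) *
      q.map (algebraMap Ω K) = (mapD D h + derivative h * q).map (algebraMap Ω K) := by
    rw [Polynomial.map_add, Polynomial.map_mul, Polynomial.derivative_map]
  have h4 : (h.map (algebraMap Ω K)) ∣ (mapD D h).map (algebraMap Ω K) +
      derivative (h.map (algebraMap Ω K)) * q.map (algebraMap Ω K) := by
    rw [h3]
    exact Polynomial.map_dvd _ hdvd
  have h5 : ((mapD D h).map (algebraMap Ω K) +
      derivative (h.map (algebraMap Ω K)) * q.map (algebraMap Ω K)).eval r = 0 :=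
    Polynomial.eval_eq_zero_of_dvd_of_eval_eq_zero h4 hr
  rw [eval_add, eval_mul] at h5
  rw [h2] at h1
  have h6 : (derivative (h.map (algebraMap Ω K))).eval r ≠ 0 :=
    (Polynomial.Separable.map hsep).eval₂_derivative_ne_zero (RingHom.id K)
      (by simpa [eval₂_id] using hr)
  apply mul_left_cancel₀ h6
  linear_combination -h1 - h5

theorem riccati_quad {K : Type*} [Field K] (g : K[X]) (hg : g.natDegree ≤ 2) (x : K) :
    g.eval x = g.coeff 0 + g.coeff 1 * x + g.coeff 2 * x ^ 2 := by
  rw [eval_eq_sum_range' (n := 3) (by omega)]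
  simp [Finset.sum_range_succ]

/-- Riccati equations: if `z` and all roots of `h` satisfy `D_p z = q_p(z)` with `deg q_p ≤ 2`
and `h` has at least three roots then `z` is algebraic over the field of coefficients, provided
that all constants are. -/
theorem riccati {Ω P : Type*} [Field Ω] [CharZero Ω] (F : Subfield Ω)
    (D : P → Derivation ℤ Ω Ω) (hconst : ∀ c : Ω, (∀ p, D p c = 0) → IsAlgebraic F c)
    (h : Polynomial Ω) (hF : ∀ n, h.coeff n ∈ F) (hsep : h.Separable) (hr : 3 ≤ h.natDegree)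
    (q : P → Polynomial Ω) (hq : ∀ p, (q p).natDegree ≤ 2)
    (hdvd : ∀ p, h ∣ mapD (D p) h + derivative h * q p)
    (z : Ω) (hz : ∀ p, D p z = (q p).eval z) (hhz : h.eval z ≠ 0) : IsAlgebraic F z := by
  classical
  let K := h.SplittingField
  let f := algebraMap Ω K
  have hfinj : Function.Injective f := (algebraMap Ω K).injective
  have hK0 : CharZero K := charZero_of_injective_algebraMap hfinj
  choose D' hD' using fun p => der_ext (K := K) (D p)
  have hh0 : h ≠ 0 := by
    rintro rfl
    simp at hr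
  -- three distinct roots
  have hnd : (h.map f).roots.Nodup := nodup_roots (Polynomial.Separable.map hsep)
  have hcard : (h.map f).roots.card = h.natDegree := by
    have h1 := (Polynomial.SplittingField.splits h).natDegree_eq_card_roots
    rw [← h1]
    exact natDegree_map _
  have hcard' : 3 ≤ (h.map f).roots.toFinset.card := by
    rw [Multiset.toFinset_card_of_nodup hnd, hcard]
    exact hr
  obtain ⟨r1, r2, r3, hr1, hr2, hr3, h12, h13, h23⟩ := Finset.two_lt_card_iff.mp (by omega :
    2 < (h.map f).roots.toFinset.card)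
  have hroot : ∀ r ∈ (h.map f).roots.toFinset, (h.map f).eval r = 0 := by
    intro r hr
    rw [Multiset.mem_toFinset] at hr
    exact (mem_roots'.mp hr).2
  have e1 : ∀ p, D' p r1 = ((q p).map f).eval r1 := fun p =>
    riccati_root (D p) (D' p) (hD' p) h (q p) hsep (hdvd p) r1 (hroot r1 hr1)
  have e2 : ∀ p, D' p r2 = ((q p).map f).eval r2 := fun p =>
    riccati_root (D p) (D' p) (hD' p) h (q p) hsep (hdvd p) r2 (hroot r2 hr2)
  have e3 : ∀ p, D' p r3 = ((q p).map f).eval r3 := fun p =>
    riccati_root (D p) (D' p) (hD' p) h (q p) hsep (hdvd p) r3 (hroot r3 hr3)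
  have ez : ∀ p, D' p (f z) = ((q p).map f).eval (f z) := by
    intro p
    rw [hD', hz, eval_map, eval₂_at_apply]
  have hzr : ∀ r, (h.map f).eval r = 0 → f z - r ≠ 0 := by
    intro r hr0 h0
    rw [sub_eq_zero] at h0
    rw [← h0, eval_map, eval₂_at_apply] at hr0
    exact hhz (hfinj (by rw [hr0, map_zero]))
  have hz1 := hzr r1 (hroot r1 hr1)
  have hz3 := hzr r3 (hroot r3 hr3)
  have h21 : r2 - r1 ≠ 0 := sub_ne_zero.mpr (Ne.symm h12)
  have h23' : r2 - r3 ≠ 0 := sub_ne_zero.mpr h23
  have h31 : r3 - r1 ≠ 0 := sub_ne_zero.mpr (Ne.symm h13)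
  have hM : (f z - r3) * (r2 - r1) ≠ 0 := mul_ne_zero hz3 h21
  -- the cross ratio
  obtain ⟨c, hcM⟩ : ∃ c : K, (f z - r1) * (r2 - r3) = c * ((f z - r3) * (r2 - r1)) :=
    ⟨((f z - r1) * (r2 - r3)) / ((f z - r3) * (r2 - r1)), (div_mul_cancel₀ _ hM).symm⟩
  have hcc : ∀ p, D' p c = 0 := by
    intro p
    have hq2 : ((q p).map f).natDegree ≤ 2 := natDegree_map_le.trans (hq p)
    have h1 := congrArg (D' p) hcM
    rw [Derivation.leibniz, Derivation.leibniz, Derivation.leibniz, map_sub, map_sub, map_sub,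
      map_sub, e1 p, e2 p, e3 p, ez p] at h1
    simp only [smul_eq_mul, riccati_quad _ hq2] at h1
    generalize ((q p).map f).coeff 1 = b1 at h1
    generalize ((q p).map f).coeff 2 = b2 at h1
    generalize ((q p).map f).coeff 0 = b0 at h1
    have h2 : ((f z - r3) * (r2 - r1)) * D' p c = 0 := by
      linear_combination (-1 : K) * h1 + (2 * b1 + b2 * (f z + r1 + r2 + r3)) * hcM
    exact (mul_eq_zero.mp h2).resolve_left hM
  have hcalg : IsAlgebraic Ω c := Algebra.IsAlgebraic.isAlgebraic c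
  obtain ⟨g, hgm, hg, hgc⟩ := const_alg D D' hD' c hcalg hcc
  -- algebraicity over `F`
  have hcF : IsAlgebraic F c := by
    let S : IntermediateField F Ω := algebraicClosure F Ω
    have hmem : ∀ n, g.coeff n ∈ S := fun n => by
      rw [mem_algebraicClosure_iff]
      exact hconst _ (hg n)
    have hlift : g ∈ Polynomial.lifts (algebraMap S Ω) := by
      rw [Polynomial.lifts_iff_coeff_lifts]
      intro n
      exact ⟨⟨g.coeff n, hmem n⟩, rfl⟩
    obtain ⟨g0, hg0⟩ := hlift
    have hg0' : g0.map (algebraMap S Ω) = g := hg0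
    have hcS : IsAlgebraic S c := by
      refine ⟨g0, ?_, ?_⟩
      · rintro rfl
        rw [Polynomial.map_zero] at hg0'
        exact hgm.ne_zero hg0'.symm
      · rw [← hgc, ← hg0', aeval_map_algebraMap]
    have htower : IsScalarTower F S K := IsScalarTower.of_algebraMap_eq (fun x => rfl)
    exact hcS.restrictScalars F
  have hrF : ∀ r, (h.map f).eval r = 0 → IsAlgebraic F r := by
    intro r hr0
    have hlift : h ∈ Polynomial.lifts (algebraMap F Ω) := by
      rw [Polynomial.lifts_iff_coeff_lifts]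
      intro n
      exact ⟨⟨h.coeff n, hF n⟩, rfl⟩
    obtain ⟨g0, hg0⟩ := hlift
    have hg0' : g0.map (algebraMap F Ω) = h := hg0
    refine ⟨g0, ?_, ?_⟩
    · rintro rfl
      rw [Polynomial.map_zero] at hg0'
      exact hh0 hg0'.symm
    · rw [← aeval_map_algebraMap Ω r g0, hg0', aeval_def, ← eval_map]
      exact hr0
  have a1 := hrF r1 (hroot r1 hr1)
  have a2 := hrF r2 (hroot r2 hr2)
  have a3 := hrF r3 (hroot r3 hr3)
  have hden : c * (r2 - r1) - (r2 - r3) ≠ 0 := by
    intro h0
    have h1 : (r2 - r3) * (r3 - r1) = 0 := by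
      linear_combination hcM + (f z - r3) * h0
    rcases mul_eq_zero.mp h1 with h2 | h2
    · exact h23' h2
    · exact h31 h2
  have hzeq : f z = (c * r3 * (r2 - r1) - r1 * (r2 - r3)) / (c * (r2 - r1) - (r2 - r3)) := by
    rw [eq_div_iff hden]
    linear_combination -hcM
  have hzF : IsAlgebraic F (f z) := by
    rw [hzeq, div_eq_mul_inv]
    exact (((hcF.mul a3).mul (a2.sub a1)).sub (a1.mul (a2.sub a3))).mul
      ((hcF.mul (a2.sub a1)).sub (a2.sub a3)).inv
  exact (isAlgebraic_algebraMap_iff (R := F) hfinj).mp hzF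

end Pool.Agent.Helper10.LB
end

/- Helper12.LVF.H10.LV.GenLine -/
section
/-!
# LV-GL: lines and moving linear systems
-/

set_option autoImplicit false

namespace Pool.Agent.Helper10.LV

open scoped BigOperators
open Pool.Agent.Helper8.LG Pool.Agent.Helper8.LV Pool.Agent.Helper49.LG Pool.Agent.Helper10.LB

/-- **The killer derivation.** -/
theorem exists_killer_comb {E : Type*} [Field E] {σ ι τ κ : Type*} [Fintype σ] [DecidableEq σ]
    [Fintype ι] [DecidableEq ι] [Fintype τ] [Fintype κ] (d : ι → ℕ)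
    (a : (i : ι) → Sym σ (d i) → E) (D : Ix σ d → Derivation ℤ E E)
    (jj : τ → Ix σ d) (θ : τ → Ix σ d → E) (hD : Dual d a D jj θ) (α β : σ) (z : κ → E)
    (hcard : Fintype.card κ + Fintype.card τ < ∑ i, (d i + 1)) :
    ∃ (f : (i : ι) → Fin (d i + 1) → E) (δ : Derivation ℤ E E), (∃ i r, f i r ≠ 0) ∧
      (∀ m, δ (z m) = 0) ∧ (∀ y, (∀ s, D s y = 0) → δ y = 0) ∧
      ∀ (i : ι) (x : σ → E), (∀ l, δ (x l) = 0) →
        δ (form (a i) x) = ∑ r : Fin (d i + 1), f i r * (x α ^ (d i - r) * x β ^ (r : ℕ)) := by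
  classical
  set Λ : ((Σ i : ι, Fin (d i + 1)) → E) →ₗ[E] (κ ⊕ τ → E) :=
    { toFun := fun f => Sum.elim (fun m => ∑ s, f s * D (abi d α β s) (z m))
        fun j => ∑ s, f s * θ j (abi d α β s)
      map_add' := fun f g => by
        funext t
        rcases t with m | j <;> simp [add_mul, Finset.sum_add_distrib]
      map_smul' := fun c f => by
        funext t
        rcases t with m | j <;> simp [Finset.mul_sum, mul_assoc] } with hΛ
  have hker : LinearMap.ker Λ ≠ ⊥ := by
    apply LinearMap.ker_ne_bot_of_finrank_lt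
    rw [Module.finrank_fintype_fun_eq_card, Module.finrank_fintype_fun_eq_card, Fintype.card_sum,
      Fintype.card_sigma]
    simpa using hcard
  obtain ⟨f, hf, hf0⟩ := (Submodule.ne_bot_iff _).1 hker
  have hf1 : ∀ m, ∑ s, f s * D (abi d α β s) (z m) = 0 := fun m =>
    congrFun (LinearMap.mem_ker.1 hf) (Sum.inl m)
  have hf2 : ∀ j, ∑ s, f s * θ j (abi d α β s) = 0 := fun j =>
    congrFun (LinearMap.mem_ker.1 hf) (Sum.inr j)
  set δ : Derivation ℤ E E := ∑ s, f s • D (abi d α β s) with hδ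
  have hδa : ∀ y, δ y = ∑ s, f s * D (abi d α β s) y := by
    intro y
    have h1 : δ y = (Derivation.coeFnAddMonoidHom δ) y := rfl
    rw [h1, hδ, map_sum, Finset.sum_apply]
    rfl
  have hδq : ∀ q : Ix σ d, δ (a q.1 q.2) = ∑ s, if abi d α β s = q then f s else 0 := by
    intro q
    rw [hδa]
    have h1 : ∀ s, f s * D (abi d α β s) (a q.1 q.2) = (if abi d α β s = q then f s else 0) -
        ∑ j, if jj j = q then f s * θ j (abi d α β s) else 0 := by
      intro s
      rw [hD (abi d α β s) q, mul_sub, mul_ite, mul_one, mul_zero, Finset.mul_sum]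
      congr 1
      exact Finset.sum_congr rfl fun j _ => by rw [mul_ite, mul_zero]
    rw [Finset.sum_congr rfl fun s _ => h1 s, Finset.sum_sub_distrib, Finset.sum_comm]
    have h2 : ∑ j, ∑ s, (if jj j = q then f s * θ j (abi d α β s) else 0) = 0 := by
      refine Finset.sum_eq_zero fun j _ => ?_
      split_ifs
      · exact hf2 j
      · exact Finset.sum_const_zero
    rw [h2, sub_zero]
  refine ⟨fun i r => f ⟨i, r⟩, δ, ?_, fun m => by rw [hδa]; exact hf1 m, fun y hy => by
    rw [hδa]
    exact Finset.sum_eq_zero fun s _ => by rw [hy, mul_zero], ?_⟩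
  · by_contra h
    push Not at h
    exact hf0 (funext fun s => h s.1 s.2)
  · intro i x hx
    obtain ⟨g, hg, _⟩ := Pool.Agent.Helper8.LG.kf_grad_form (a i) x
    rw [hg δ, Finset.sum_eq_zero (s := Finset.univ) (f := fun l => g l * δ (x l))
      (fun l _ => by rw [hx, mul_zero]), add_zero]
    have h1 : ∀ J : Sym σ (d i), δ (a i J) * mon x J =
        ∑ s, if abi d α β s = ⟨i, J⟩ then f s * mon x J else 0 := by
      intro J
      rw [hδq ⟨i, J⟩, Finset.sum_mul]
      exact Finset.sum_congr rfl fun s _ => by rw [ite_mul, zero_mul]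
    rw [Finset.sum_congr rfl fun J _ => h1 J, Finset.sum_comm, ← Finset.univ_sigma_univ,
      Finset.sum_sigma, Finset.sum_eq_single i]
    · refine Finset.sum_congr rfl fun r _ => ?_
      rw [Finset.sum_eq_single (ab α β (d i) r)]
      · rw [if_pos (show abi d α β ⟨i, r⟩ = ⟨i, ab α β (d i) r⟩ from rfl), mon_ab]
      · intro J _ hJ
        rw [if_neg]
        intro h
        apply hJ
        unfold abi at h
        rw [Sigma.mk.injEq] at h
        exact (eq_of_heq h.2).symm
      · intro h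
        exact absurd (Finset.mem_univ _) h
    · intro i' _ hi'
      refine Finset.sum_eq_zero fun r _ => Finset.sum_eq_zero fun J _ => ?_
      rw [if_neg]
      intro h
      exact hi' (congrArg Sigma.fst h)
    · intro h
      exact absurd (Finset.mem_univ _) h

/-- **The killer derivation**, moving linear systems. -/
theorem exists_killer {E : Type*} [Field E] {σ ι τ κ : Type*} [Fintype σ] [DecidableEq σ]
    [Fintype ι] [DecidableEq ι] [Fintype τ] [Fintype κ] (d b q : ι → ℕ)
    (a aA : (i : ι) → Sym σ (d i) → E) (ap : (i : ι) → Sym σ (b i) → E)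
    (ah : (i : ι) → Sym σ (q i) → E) (D : Ix σ q → Derivation ℤ E E)
    (jj : τ → Ix σ q) (θ : τ → Ix σ q → E) (hD : Dual q ah D jj θ)
    (hM : Mov d b q a aA ap ah D) (α β : σ) (z : κ → E)
    (hcard : Fintype.card κ + Fintype.card τ < ∑ i, (q i + 1)) :
    ∃ (f : (i : ι) → Fin (q i + 1) → E) (δ : Derivation ℤ E E), (∃ i r, f i r ≠ 0) ∧
      (∀ m, δ (z m) = 0) ∧ ∀ (i : ι) (x : σ → E), (∀ l, δ (x l) = 0) →
        δ (form (a i) x) = form (ap i) x *
          ∑ r : Fin (q i + 1), f i r * (x α ^ (q i - r) * x β ^ (r : ℕ)) := by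
  obtain ⟨f, δ, hf, hz, hk, hform⟩ := exists_killer_comb q ah D jj θ hD α β z hcard
  refine ⟨f, δ, hf, hz, fun i x hx => ?_⟩
  have h1 : form (a i) x = form (aA i) x + form (ap i) x * form (ah i) x :=
    mov_form hM i x
  have h0 : ∀ (n : ℕ) (c : Sym σ n → E), (∀ J, δ (c J) = 0) → δ (form c x) = 0 := by
    intro n c hc
    obtain ⟨g, hg, _⟩ := Pool.Agent.Helper8.LG.kf_grad_form c x
    rw [hg δ, Finset.sum_eq_zero fun J _ => by rw [hc, zero_mul],
      Finset.sum_eq_zero fun l _ => by rw [hx, mul_zero], add_zero]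
  rw [h1, map_add, Derivation.leibniz, h0 _ _ fun J => hk _ fun s => hM.DA s i J,
    h0 _ _ fun J => hk _ fun s => hM.Dp s i J, hform i x hx, smul_zero, add_zero, zero_add,
    smul_eq_mul]

/-- a form which vanishes at the points `p + n p'` vanishes on the line -/
theorem line_zero {E : Type*} [Field E] [CharZero E] {σ : Type*} [Fintype σ] [DecidableEq σ]
    {n : ℕ} (a : Sym σ n → E) (p p' : σ → E)
    (h : ∀ m : ℕ, form a (fun l => p l + m * p' l) = 0) (x y : E) :
    form a (fun l => x * p l + y * p' l) = 0 := by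
  have h0 : lf a p p' = 0 := by
    refine Polynomial.eq_zero_of_infinite_isRoot _ ?_
    refine Set.infinite_of_injective_forall_mem (f := fun m : ℕ => (m : E)) Nat.cast_injective
      fun m => ?_
    show (lf a p p').eval (m : E) = 0
    rw [lf_eval]
    exact h m
  by_cases hx : x = 0
  · have h1 : form a p' = 0 := by rw [← lf_coeff_top a p p', h0, Polynomial.coeff_zero]
    have h2 : (fun l => x * p l + y * p' l) = fun l => y * p' l := by
      funext l
      rw [hx, zero_mul, zero_add]
    rw [h2, dirTwo_form_mul, h1, mul_zero]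
  · have h1 : form a (fun l => p l + y / x * p' l) = 0 := by
      rw [← lf_eval, h0, Polynomial.eval_zero]
    have h2 : (fun l => x * p l + y * p' l) = fun l => x * (p l + y / x * p' l) := by
      funext l
      field_simp
    rw [h2, dirTwo_form_mul, h1, mul_zero]

/-- a binary form times a form which is not zero on the line -/
theorem zero_of_nat_mul {E : Type*} [Field E] [CharZero E] {σ : Type*} [Fintype σ]
    [DecidableEq σ] {n : ℕ} (a : Sym σ n → E) (p p' : σ → E)
    (hP : ∃ x y : E, form a (fun l => x * p l + y * p' l) ≠ 0) (m : ℕ) (f : Fin (m + 1) → E)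
    (α β : σ) (hdet : p α * p' β - p β * p' α ≠ 0)
    (h : ∀ t : ℕ, form a (fun l => p l + t * p' l) *
      ∑ r : Fin (m + 1), f r * ((p α + t * p' α) ^ (m - r) * (p β + t * p' β) ^ (r : ℕ)) = 0)
    (r : Fin (m + 1)) : f r = 0 := by
  classical
  set φ : Polynomial E := ∑ r : Fin (m + 1), Polynomial.C (f r) *
    ((Polynomial.C (p α) + Polynomial.X * Polynomial.C (p' α)) ^ (m - r) *
      (Polynomial.C (p β) + Polynomial.X * Polynomial.C (p' β)) ^ (r : ℕ)) with hφ
  have hev : ∀ t : E, φ.eval t = ∑ r : Fin (m + 1),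
      f r * ((p α + t * p' α) ^ (m - r) * (p β + t * p' β) ^ (r : ℕ)) := by
    intro t
    rw [hφ, Polynomial.eval_finsetSum]
    simp only [Polynomial.eval_mul, Polynomial.eval_C, Polynomial.eval_pow, Polynomial.eval_add,
      Polynomial.eval_X]
  have h0 : lf a p p' * φ = 0 := by
    refine Polynomial.eq_zero_of_infinite_isRoot _ ?_
    refine Set.infinite_of_injective_forall_mem (f := fun t : ℕ => (t : E)) Nat.cast_injective
      fun t => ?_
    show (lf a p p' * φ).eval (t : E) = 0
    rw [Polynomial.eval_mul, lf_eval, hev]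
    exact h t
  rcases mul_eq_zero.1 h0 with h1 | h1
  · exfalso
    obtain ⟨x, y, hxy⟩ := hP
    apply hxy
    refine line_zero a p p' (fun t => ?_) x y
    rw [← lf_eval, h1, Polynomial.eval_zero]
  · refine zero_of_nat m f (p α) (p β) (p' α) (p' β) hdet (fun t => ?_) r
    rw [← hev, h1, Polynomial.eval_zero]

/-- The forms do not all vanish in at most two points of a line. -/
theorem no_two {E : Type*} [Field E] [CharZero E] {σ ι τ : Type*} [Fintype σ] [DecidableEq σ]
    [Fintype ι] [DecidableEq ι] [Fintype τ] (d b q : ι → ℕ)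
    (a aA : (i : ι) → Sym σ (d i) → E) (ap : (i : ι) → Sym σ (b i) → E)
    (ah : (i : ι) → Sym σ (q i) → E) (D : Ix σ q → Derivation ℤ E E)
    (jj : τ → Ix σ q) (θ : τ → Ix σ q → E) (hD : Dual q ah D jj θ)
    (hM : Mov d b q a aA ap ah D)
    (p p' : σ → E) (α β : σ) (hdet : p α * p' β - p β * p' α ≠ 0)
    (hP : ∀ i, ∃ x y : E, form (ap i) (fun l => x * p l + y * p' l) ≠ 0)
    (ip iq : σ) (hp : p ip = 1) (hq : p' iq = 1) (U : Finset ι) (e : ι → E) (c : ι → ℕ)
    (he : ∀ i ∉ U, e i = 0)
    (h : ∀ (i : ι) (n : ℕ), form (a i) (fun l => p l + n * p' l) = e i * (n : E) ^ c i)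
    (hcount : 2 * Fintype.card σ + U.card + Fintype.card τ < ∑ i, (q i + 1) + 2) : False := by
  classical
  have hcard : ∀ j : σ, Fintype.card {l : σ // l ≠ j} + 1 = Fintype.card σ := by
    intro j
    have h1 : Fintype.card {l : σ // l ≠ j} = Fintype.card σ - 1 := by
      rw [Fintype.card_subtype_compl (fun l => l = j)]
      simp
    have h2 : 0 < Fintype.card σ := Fintype.card_pos_iff.2 ⟨j⟩
    omega
  obtain ⟨f, δ, ⟨i, r, hfr⟩, hδ, hform⟩ := exists_killer d b q a aA ap ah D jj θ hD hM α β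
    (κ := ({l : σ // l ≠ ip} ⊕ {l : σ // l ≠ iq}) ⊕ U)
    (Sum.elim (Sum.elim (fun l => p l) fun l => p' l) fun i => e i) (by
      rw [Fintype.card_sum, Fintype.card_sum, Fintype.card_coe]
      have h1 := hcard ip
      have h2 := hcard iq
      omega)
  have hδp : ∀ l, δ (p l) = 0 := by
    intro l
    by_cases h1 : l = ip
    · rw [h1, hp, Derivation.map_one_eq_zero]
    · exact hδ (Sum.inl (Sum.inl ⟨l, h1⟩))
  have hδq : ∀ l, δ (p' l) = 0 := by
    intro l
    by_cases h1 : l = iq
    · rw [h1, hq, Derivation.map_one_eq_zero]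
    · exact hδ (Sum.inl (Sum.inr ⟨l, h1⟩))
  have hδe : ∀ i, δ (e i) = 0 := by
    intro i
    by_cases h1 : i ∈ U
    · exact hδ (Sum.inr ⟨i, h1⟩)
    · rw [he i h1, map_zero]
  apply hfr
  refine zero_of_nat_mul (ap i) p p' (hP i) (q i) (f i) α β hdet ?_ r
  intro n
  rw [← hform i (fun l => p l + n * p' l), h i n, Derivation.leibniz, hδe, smul_zero, add_zero]
  · have h1 : δ ((n : E) ^ c i) = 0 := by
      rw [Derivation.leibniz_pow, Derivation.map_natCast, smul_zero, smul_zero]
    rw [h1, smul_zero]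
  · intro l
    rw [map_add, hδp, zero_add, Derivation.leibniz, hδq, smul_zero, zero_add,
      Derivation.map_natCast, smul_zero]

end Pool.Agent.Helper10.LV
end

/- Helper12.LVF.H10.LV.NoTwo -/
section
/-! # LV-NT: lines meet the divisor in at least three points -/

set_option autoImplicit false

namespace Pool.Agent.Helper10.LV

open scoped BigOperators
open Polynomial Pool.Agent.Helper8.LG Pool.Agent.Helper8.LV Pool.Agent.Helper10.LB

private theorem ntv_scale {K σ : Type*} [Field K] [Fintype σ] [DecidableEq σ] {n : ℕ}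
    (a : Sym σ n → K) (c : K) (x : σ → K) : form a (fun l => c * x l) = c ^ n * form a x := by
  unfold form
  rw [Finset.mul_sum]
  refine Finset.sum_congr rfl fun J _ => ?_
  have h : mon (fun l => c * x l) J = c ^ n * mon x J := by
    unfold mon
    rw [Multiset.prod_map_mul, Multiset.map_const', Multiset.prod_replicate, Sym.card_coe]
  rw [h]
  ring

/-- the homogeneous version of `lf` with two roots -/
private theorem ntv_hom {K : Type*} [Field K] {σ : Type*} [Fintype σ] [DecidableEq σ] {n : ℕ}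
    (a : Sym σ n → K) (u v : σ → K) (ρ₁ ρ₂ : K) (α β : ℕ) (hαβ : α + β = n)
    (h : lf a u v = C (form a v) * ((X - C ρ₁) ^ α * (X - C ρ₂) ^ β)) (x y : K) :
    form a (fun l => x * (u l + ρ₁ * v l) + y * (u l + ρ₂ * v l)) =
      form a v * ((y * (ρ₂ - ρ₁)) ^ α * (x * (ρ₁ - ρ₂)) ^ β) := by
  by_cases hxy : x + y = 0
  · have hx : x = -y := by linear_combination hxy
    have h1 : (fun l => x * (u l + ρ₁ * v l) + y * (u l + ρ₂ * v l)) =
        fun l => (y * (ρ₂ - ρ₁)) * v l := by
      funext l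
      rw [hx]
      ring
    have h2 : x * (ρ₁ - ρ₂) = y * (ρ₂ - ρ₁) := by
      rw [hx]
      ring
    rw [h1, ntv_scale, h2, ← pow_add, hαβ]
    ring
  · set z : K := (x * ρ₁ + y * ρ₂) / (x + y) with hz
    have hz1 : (x + y) * z = x * ρ₁ + y * ρ₂ := by
      rw [hz]
      field_simp
    have h1 : (fun l => x * (u l + ρ₁ * v l) + y * (u l + ρ₂ * v l)) =
        fun l => (x + y) * (u l + z * v l) := by
      funext l
      linear_combination (-v l) * hz1
    have h2 : y * (ρ₂ - ρ₁) = (x + y) * (z - ρ₁) := by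
      linear_combination -hz1
    have h3 : x * (ρ₁ - ρ₂) = (x + y) * (z - ρ₂) := by
      linear_combination -hz1
    have h5 : (x + y) ^ n = (x + y) ^ α * (x + y) ^ β := by rw [← pow_add, hαβ]
    rw [h1, ntv_scale, ← lf_eval, h, h2, h3, mul_pow, mul_pow, h5]
    simp only [eval_mul, eval_C, eval_pow, eval_sub, eval_X]
    ring

/-- the factorisation -/
private theorem ntv_fact {K : Type*} [Field K] (f h : K[X]) (hf0 : f ≠ 0) (hh0 : h ≠ 0)
    (hh : h.Splits) (k : ℕ) (hdvd : f ∣ h ^ k) (ρ₁ ρ₂ : K) (hρ : ρ₁ ≠ ρ₂)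
    (hr : ∀ r ∈ h.roots, r = ρ₁ ∨ r = ρ₂) :
    ∃ α β : ℕ, α + β = f.natDegree ∧
      f = C f.leadingCoeff * ((X - C ρ₁) ^ α * (X - C ρ₂) ^ β) := by
  classical
  have hs : f.Splits := (hh.pow k).of_dvd (pow_ne_zero _ hh0) hdvd
  have hsub : f.roots.toFinset ⊆ {ρ₁, ρ₂} := by
    intro r hr1
    rw [Multiset.mem_toFinset, mem_roots hf0] at hr1
    have h1 : (h ^ k).IsRoot r := hr1.dvd hdvd
    rw [IsRoot, eval_pow] at h1
    have h2 : r ∈ h.roots := by
      rw [mem_roots hh0]
      exact eq_zero_of_pow_eq_zero h1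
    rcases hr r h2 with h3 | h3
    · simp [h3]
    · simp [h3]
  refine ⟨f.roots.count ρ₁, f.roots.count ρ₂, ?_, ?_⟩
  · rw [hs.natDegree_eq_card_roots, ← Multiset.toFinset_sum_count_eq,
      Finset.sum_subset hsub fun r _ h1 => ?_, Finset.sum_pair hρ]
    rw [Multiset.mem_toFinset] at h1
    exact Multiset.count_eq_zero_of_notMem h1
  · conv_lhs => rw [hs.eq_prod_roots]
    congr 1
    rw [Finset.prod_multiset_map_count, Finset.prod_subset hsub fun r _ h1 => ?_,
      Finset.prod_pair hρ]
    rw [Multiset.mem_toFinset] at h1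
    rw [Multiset.count_eq_zero_of_notMem h1, pow_zero]

/-- at most two roots -/
private theorem ntv_roots {K : Type*} [Field K] (h : K[X]) (hn : h.natDegree ≤ 2) :
    ∃ ρ₁ ρ₂ : K, ρ₁ ≠ ρ₂ ∧ ∀ r ∈ h.roots, r = ρ₁ ∨ r = ρ₂ := by
  classical
  have h1 : h.roots.toFinset.card ≤ 2 :=
    (Multiset.toFinset_card_le _).trans ((card_roots' h).trans hn)
  rcases Nat.lt_or_ge h.roots.toFinset.card 2 with h2 | h2
  · rcases Nat.eq_zero_or_pos h.roots.toFinset.card with h3 | h3
    · refine ⟨0, 1, zero_ne_one, fun r hr => ?_⟩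
      rw [Finset.card_eq_zero] at h3
      rw [← Multiset.mem_toFinset, h3] at hr
      exact absurd hr (Finset.notMem_empty _)
    · obtain ⟨ρ, hρ⟩ := Finset.card_eq_one.1 (by omega : h.roots.toFinset.card = 1)
      refine ⟨ρ, ρ + 1, fun h4 => ?_, fun r hr => ?_⟩
      · exact one_ne_zero (left_eq_add.1 h4)
      · rw [← Multiset.mem_toFinset, hρ, Finset.mem_singleton] at hr
        exact Or.inl hr
  · obtain ⟨ρ₁, ρ₂, hne, hρ⟩ := Finset.card_eq_two.1 (le_antisymm h1 h2)
    refine ⟨ρ₁, ρ₂, hne, fun r hr => ?_⟩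
    rw [← Multiset.mem_toFinset, hρ, Finset.mem_insert, Finset.mem_singleton] at hr
    exact hr

/-- If `F_i = 0` on the line `u + Y v` for `i ∈ Z` and the `F_i(u + Y v)`, `i ∉ Z`, have full
degree, then together they have at least three distinct roots (over an algebraic closure). -/
theorem three_roots {E : Type*} [Field E] [CharZero E] {σ ι τ : Type*} [Fintype σ]
    [DecidableEq σ] [Fintype ι] [DecidableEq ι] [Fintype τ] (d b q : ι → ℕ)
    (a aA : (i : ι) → Sym σ (d i) → E) (ap : (i : ι) → Sym σ (b i) → E)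
    (ah : (i : ι) → Sym σ (q i) → E) (D : Ix σ q → Derivation ℤ E E)
    (jj : τ → Ix σ q) (θ : τ → Ix σ q → E) (hD : Dual q ah D jj θ)
    (hM : Mov d b q a aA ap ah D) (Z : Finset ι)
    (hnum : 2 * Fintype.card σ + Fintype.card τ ≤ ∑ i, q i + Z.card + 1)
    (u v : σ → E) (β₁ β₂ : σ) (hpi : u β₁ * v β₂ - u β₂ * v β₁ ≠ 0)
    (hP : ∀ i, lf (ap i) u v ≠ 0)
    (hZ : ∀ i ∈ Z, lf (a i) u v = 0) (hU : ∀ i ∉ Z, form (a i) v ≠ 0)
    (h : E[X]) (h0 : h ≠ 0) (hdvd : ∀ i ∉ Z, ∃ n, lf (a i) u v ∣ h ^ n) :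
    3 ≤ h.natDegree := by
  classical
  by_contra hlt
  have hn2 : h.natDegree ≤ 2 := by omega
  let K := h.SplittingField
  let φ : E →+* K := algebraMap E K
  have hφ : Function.Injective φ := φ.injective
  have : CharZero K := charZero_of_injective_algebraMap hφ
  -- the polynomial over `K`
  have hhK0 : h.map φ ≠ 0 := (Polynomial.map_ne_zero_iff hφ).2 h0
  have hhK : (h.map φ).Splits := SplittingField.splits h
  obtain ⟨ρ₁, ρ₂, hρ, hroots⟩ := ntv_roots (h.map φ) (by rw [natDegree_map]; exact hn2)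
  -- derivations
  choose D' hD' using fun s : Ix σ q => der_ext (K := K) (D s)
  have hDual : Dual q (fun i J => φ (ah i J)) D' jj (fun j s => φ (θ j s)) := by
    intro s t
    have h1 := hD' s (ah t.1 t.2)
    rw [hD s t] at h1
    rw [show D' s (φ (ah t.1 t.2)) = _ from h1, map_sub, map_sum]
    congr 1
    · split_ifs
      · exact map_one φ
      · exact map_zero φ
    · refine Finset.sum_congr rfl fun j _ => ?_
      split_ifs
      · rfl
      · exact map_zero φ
  have hMov : Mov d b q (fun i J => φ (a i J)) (fun i J => φ (aA i J))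
      (fun i J => φ (ap i J)) (fun i J => φ (ah i J)) D' := by
    refine ⟨hM.toFam.map φ, fun s i J => ?_, fun s i J => ?_⟩
    · exact (hD' s (aA i J)).trans (by rw [hM.DA, map_zero])
    · exact (hD' s (ap i J)).trans (by rw [hM.Dp, map_zero])
  -- factorisations
  have hfac : ∀ i ∉ Z, ∃ α β : ℕ, α + β = d i ∧
      lf (fun J => φ (a i J)) (fun l => φ (u l)) (fun l => φ (v l)) =
        C (form (fun J => φ (a i J)) fun l => φ (v l)) *
          ((X - C ρ₁) ^ α * (X - C ρ₂) ^ β) := by
    intro i hi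
    obtain ⟨k, hk⟩ := hdvd i hi
    have hv : form (fun J => φ (a i J)) (fun l => φ (v l)) ≠ 0 := by
      rw [← pd_map_form]
      exact (map_ne_zero φ).2 (hU i hi)
    have hc := lf_coeff_top (fun J => φ (a i J)) (fun l => φ (u l)) (fun l => φ (v l))
    have hle := lf_natDegree_le (fun J => φ (a i J)) (fun l => φ (u l)) (fun l => φ (v l))
    have hdeg : (lf (fun J => φ (a i J)) (fun l => φ (u l)) (fun l => φ (v l))).natDegree =
        d i := by
      refine le_antisymm hle (le_natDegree_of_ne_zero ?_)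
      rw [hc]
      exact hv
    have hf0 : lf (fun J => φ (a i J)) (fun l => φ (u l)) (fun l => φ (v l)) ≠ 0 := by
      intro h1
      rw [h1, coeff_zero] at hc
      exact hv hc.symm
    obtain ⟨α, β, h1, h2⟩ := ntv_fact _ _ hf0 hhK0 hhK k (by
      rw [← lf_map, ← Polynomial.map_pow]
      exact Polynomial.map_dvd φ hk) ρ₁ ρ₂ hρ hroots
    refine ⟨α, β, h1.trans hdeg, ?_⟩
    rw [leadingCoeff, hdeg, hc] at h2
    exact h2
  choose! α β hαβ hlf using hfac
  -- the two points
  set p : σ → K := fun l => φ (u l) + ρ₁ * φ (v l) with hp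
  set p' : σ → K := fun l => φ (u l) + ρ₂ * φ (v l) with hp'
  have hdet : p β₁ * p' β₂ - p β₂ * p' β₁ ≠ 0 := by
    have h1 : p β₁ * p' β₂ - p β₂ * p' β₁ = (ρ₂ - ρ₁) * φ (u β₁ * v β₂ - u β₂ * v β₁) := by
      rw [hp, hp', map_sub, map_mul, map_mul]
      ring
    rw [h1]
    exact mul_ne_zero (sub_ne_zero.2 hρ.symm) ((map_ne_zero φ).2 hpi)
  obtain ⟨ip, hip⟩ : ∃ l, p l ≠ 0 := by
    by_contra! h1
    rw [h1 β₁, h1 β₂] at hdet
    simp at hdet
  obtain ⟨iq, hiq⟩ : ∃ l, p' l ≠ 0 := by
    by_contra! h1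
    rw [h1 β₁, h1 β₂] at hdet
    simp at hdet
  have hform : ∀ i (x y : K), form (fun J => φ (a i J)) (fun l => x * p l + y * p' l) =
      if i ∈ Z then 0 else form (fun J => φ (a i J)) (fun l => φ (v l)) *
        ((y * (ρ₂ - ρ₁)) ^ α i * (x * (ρ₁ - ρ₂)) ^ β i) := by
    intro i x y
    split_ifs with hi
    · have h1 : lf (fun J => φ (a i J)) (fun l => φ (u l)) (fun l => φ (v l)) = 0 := by
        rw [← lf_map, hZ i hi, Polynomial.map_zero]
      have h2 : form (fun J => φ (a i J)) (fun l => φ (v l)) = 0 := by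
        rw [← lf_coeff_top (fun J => φ (a i J)) (fun l => φ (u l)) (fun l => φ (v l)), h1,
          coeff_zero]
      have h3 := ntv_hom (fun J => φ (a i J)) (fun l => φ (u l)) (fun l => φ (v l)) ρ₁ ρ₂ (d i) 0
        (Nat.add_zero _) (by rw [h1, h2, C_0, zero_mul]) x y
      rw [h2, zero_mul] at h3
      exact h3
    · exact ntv_hom _ _ _ ρ₁ ρ₂ (α i) (β i) (hαβ i hi) (hlf i hi) x y
  have hPK : ∀ i, ∃ x y : K, form (fun J => φ (ap i J))
      (fun l => x * ((p ip)⁻¹ * p l) + y * ((p' iq)⁻¹ * p' l)) ≠ 0 := by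
    intro i
    by_contra! hcon
    have hlf : lf (fun J => φ (ap i J)) (fun l => φ (u l)) (fun l => φ (v l)) ≠ 0 := by
      rw [← lf_map]
      exact (Polynomial.map_ne_zero_iff hφ).2 (hP i)
    apply hlf
    refine Polynomial.eq_zero_of_infinite_isRoot _ ?_
    refine Set.infinite_of_injective_forall_mem (f := fun n : ℕ => (n : K)) Nat.cast_injective
      fun n => ?_
    show (lf (fun J => φ (ap i J)) (fun l => φ (u l)) (fun l => φ (v l))).eval (n : K) = 0
    rw [lf_eval, ← hcon ((ρ₂ - n) / (ρ₂ - ρ₁) * p ip) ((n - ρ₁) / (ρ₂ - ρ₁) * p' iq)]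
    congr 1
    funext l
    have h1 : ρ₂ - ρ₁ ≠ 0 := sub_ne_zero.2 hρ.symm
    have h2 : (ρ₂ - n) / (ρ₂ - ρ₁) * p ip * ((p ip)⁻¹ * p l) = (ρ₂ - n) / (ρ₂ - ρ₁) * p l := by
      rw [mul_assoc, mul_inv_cancel_left₀ hip]
    have h3 : (n - ρ₁) / (ρ₂ - ρ₁) * p' iq * ((p' iq)⁻¹ * p' l) =
        (n - ρ₁) / (ρ₂ - ρ₁) * p' l := by
      rw [mul_assoc, mul_inv_cancel_left₀ hiq]
    rw [h2, h3, hp, hp']
    have h4 : (ρ₂ - n) / (ρ₂ - ρ₁) + (n - ρ₁) / (ρ₂ - ρ₁) = 1 := by
      rw [← add_div, sub_add_sub_cancel, div_self h1]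
    have h5 : (ρ₂ - n) / (ρ₂ - ρ₁) * ρ₁ + (n - ρ₁) / (ρ₂ - ρ₁) * ρ₂ = n := by
      rw [div_mul_eq_mul_div, div_mul_eq_mul_div, ← add_div, div_eq_iff h1]
      ring
    linear_combination (-φ (u l)) * h4 - φ (v l) * h5
  refine no_two d b q (fun i J => φ (a i J)) (fun i J => φ (aA i J)) (fun i J => φ (ap i J))
    (fun i J => φ (ah i J)) D' jj (fun j s => φ (θ j s))
    hDual hMov (fun l => (p ip)⁻¹ * p l) (fun l => (p' iq)⁻¹ * p' l) β₁ β₂ ?_ hPK ip iq
    (inv_mul_cancel₀ hip) (inv_mul_cancel₀ hiq) Zᶜ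
    (fun i => if i ∈ Z then 0 else form (fun J => φ (a i J)) (fun l => φ (v l)) *
        (((p' iq)⁻¹ * (ρ₂ - ρ₁)) ^ α i * ((p ip)⁻¹ * (ρ₁ - ρ₂)) ^ β i)) α ?_ ?_ ?_
  · have h1 : (p ip)⁻¹ * p β₁ * ((p' iq)⁻¹ * p' β₂) - (p ip)⁻¹ * p β₂ * ((p' iq)⁻¹ * p' β₁) =
        (p ip)⁻¹ * (p' iq)⁻¹ * (p β₁ * p' β₂ - p β₂ * p' β₁) := by ring
    rw [h1]
    exact mul_ne_zero (mul_ne_zero (inv_ne_zero hip) (inv_ne_zero hiq)) hdet
  · intro i hi
    rw [Finset.mem_compl, not_not] at hi
    rw [if_pos hi]
  · intro i n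
    have h1 : (fun l => (p ip)⁻¹ * p l + (n : K) * ((p' iq)⁻¹ * p' l)) =
        fun l => (p ip)⁻¹ * p l + ((n : K) * (p' iq)⁻¹) * p' l := by
      funext l
      ring
    rw [h1, hform]
    split_ifs
    · rw [zero_mul]
    · rw [mul_assoc (n : K), mul_pow (n : K)]
      ring
  · have h1 : Zᶜ.card = Fintype.card ι - Z.card := Finset.card_compl Z
    have h2 : Z.card ≤ Fintype.card ι := Finset.card_le_univ Z
    have h3 : ∑ i, (q i + 1) = ∑ i, q i + Fintype.card ι := by
      rw [Finset.sum_add_distrib, Finset.sum_const, smul_eq_mul, mul_one, Finset.card_univ]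
    omega

end Pool.Agent.Helper10.LV
end

/- Helper12.LVF.H10.LB.NoTwo -/
section
/-! # LB-NT: lines meet the divisor in at least three points -/

set_option autoImplicit false

namespace Pool.Agent.Helper10.LB

open scoped BigOperators
open Polynomial Pool.Agent.Helper8.LG

private theorem nt_scale {K σ : Type*} [Field K] [Fintype σ] [DecidableEq σ] {n : ℕ}
    (a : Sym σ n → K) (c : K) (x : σ → K) : form a (fun l => c * x l) = c ^ n * form a x := by
  unfold form
  rw [Finset.mul_sum]
  refine Finset.sum_congr rfl fun J _ => ?_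
  have h : mon (fun l => c * x l) J = c ^ n * mon x J := by
    unfold mon
    rw [Multiset.prod_map_mul, Multiset.map_const', Multiset.prod_replicate, Sym.card_coe]
  rw [h]
  ring

/-- the homogeneous version of `lf` with two roots -/
private theorem nt_hom {K : Type*} [Field K] {σ : Type*} [Fintype σ] [DecidableEq σ] {n : ℕ}
    (a : Sym σ n → K) (u v : σ → K) (ρ₁ ρ₂ : K) (α β : ℕ) (hαβ : α + β = n)
    (h : lf a u v = C (form a v) * ((X - C ρ₁) ^ α * (X - C ρ₂) ^ β)) (x y : K) :
    form a (fun l => x * (u l + ρ₁ * v l) + y * (u l + ρ₂ * v l)) =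
      form a v * ((y * (ρ₂ - ρ₁)) ^ α * (x * (ρ₁ - ρ₂)) ^ β) := by
  by_cases hxy : x + y = 0
  · have hx : x = -y := by linear_combination hxy
    have h1 : (fun l => x * (u l + ρ₁ * v l) + y * (u l + ρ₂ * v l)) =
        fun l => (y * (ρ₂ - ρ₁)) * v l := by
      funext l
      rw [hx]
      ring
    have h2 : x * (ρ₁ - ρ₂) = y * (ρ₂ - ρ₁) := by
      rw [hx]
      ring
    rw [h1, nt_scale, h2, ← pow_add, hαβ]
    ring
  · set z : K := (x * ρ₁ + y * ρ₂) / (x + y) with hz
    have hz1 : (x + y) * z = x * ρ₁ + y * ρ₂ := by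
      rw [hz]
      field_simp
    have h1 : (fun l => x * (u l + ρ₁ * v l) + y * (u l + ρ₂ * v l)) =
        fun l => (x + y) * (u l + z * v l) := by
      funext l
      linear_combination (-v l) * hz1
    have h2 : y * (ρ₂ - ρ₁) = (x + y) * (z - ρ₁) := by
      linear_combination -hz1
    have h3 : x * (ρ₁ - ρ₂) = (x + y) * (z - ρ₂) := by
      linear_combination -hz1
    have h5 : (x + y) ^ n = (x + y) ^ α * (x + y) ^ β := by rw [← pow_add, hαβ]
    rw [h1, nt_scale, ← lf_eval, h, h2, h3, mul_pow, mul_pow, h5]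
    simp only [eval_mul, eval_C, eval_pow, eval_sub, eval_X]
    ring

/-- the factorisation -/
private theorem nt_fact {K : Type*} [Field K] (f h : K[X]) (hf0 : f ≠ 0) (hh0 : h ≠ 0)
    (hh : h.Splits) (k : ℕ) (hdvd : f ∣ h ^ k) (ρ₁ ρ₂ : K) (hρ : ρ₁ ≠ ρ₂)
    (hr : ∀ r ∈ h.roots, r = ρ₁ ∨ r = ρ₂) :
    ∃ α β : ℕ, α + β = f.natDegree ∧
      f = C f.leadingCoeff * ((X - C ρ₁) ^ α * (X - C ρ₂) ^ β) := by
  classical
  have hs : f.Splits := (hh.pow k).of_dvd (pow_ne_zero _ hh0) hdvd
  have hsub : f.roots.toFinset ⊆ {ρ₁, ρ₂} := by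
    intro r hr1
    rw [Multiset.mem_toFinset, mem_roots hf0] at hr1
    have h1 : (h ^ k).IsRoot r := hr1.dvd hdvd
    rw [IsRoot, eval_pow] at h1
    have h2 : r ∈ h.roots := by
      rw [mem_roots hh0]
      exact eq_zero_of_pow_eq_zero h1
    rcases hr r h2 with h3 | h3
    · simp [h3]
    · simp [h3]
  refine ⟨f.roots.count ρ₁, f.roots.count ρ₂, ?_, ?_⟩
  · rw [hs.natDegree_eq_card_roots, ← Multiset.toFinset_sum_count_eq,
      Finset.sum_subset hsub fun r _ h1 => ?_, Finset.sum_pair hρ]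
    rw [Multiset.mem_toFinset] at h1
    exact Multiset.count_eq_zero_of_notMem h1
  · conv_lhs => rw [hs.eq_prod_roots]
    congr 1
    rw [Finset.prod_multiset_map_count, Finset.prod_subset hsub fun r _ h1 => ?_,
      Finset.prod_pair hρ]
    rw [Multiset.mem_toFinset] at h1
    rw [Multiset.count_eq_zero_of_notMem h1, pow_zero]

/-- at most two roots -/
private theorem nt_roots {K : Type*} [Field K] (h : K[X]) (hn : h.natDegree ≤ 2) :
    ∃ ρ₁ ρ₂ : K, ρ₁ ≠ ρ₂ ∧ ∀ r ∈ h.roots, r = ρ₁ ∨ r = ρ₂ := by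
  classical
  have h1 : h.roots.toFinset.card ≤ 2 :=
    (Multiset.toFinset_card_le _).trans ((card_roots' h).trans hn)
  rcases Nat.lt_or_ge h.roots.toFinset.card 2 with h2 | h2
  · rcases Nat.eq_zero_or_pos h.roots.toFinset.card with h3 | h3
    · refine ⟨0, 1, zero_ne_one, fun r hr => ?_⟩
      rw [Finset.card_eq_zero] at h3
      rw [← Multiset.mem_toFinset, h3] at hr
      exact absurd hr (Finset.notMem_empty _)
    · obtain ⟨ρ, hρ⟩ := Finset.card_eq_one.1 (by omega : h.roots.toFinset.card = 1)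
      refine ⟨ρ, ρ + 1, fun h4 => ?_, fun r hr => ?_⟩
      · exact one_ne_zero (left_eq_add.1 h4)
      · rw [← Multiset.mem_toFinset, hρ, Finset.mem_singleton] at hr
        exact Or.inl hr
  · obtain ⟨ρ₁, ρ₂, hne, hρ⟩ := Finset.card_eq_two.1 (le_antisymm h1 h2)
    refine ⟨ρ₁, ρ₂, hne, fun r hr => ?_⟩
    rw [← Multiset.mem_toFinset, hρ, Finset.mem_insert, Finset.mem_singleton] at hr
    exact hr

/-- If `F_i = 0` on the line `u + Y v` for `i ∈ Z` and the `F_i(u + Y v)`, `i ∉ Z`, have full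
degree, then together they have at least three distinct roots (over an algebraic closure). -/
theorem three_roots {E : Type*} [Field E] [CharZero E] {σ ι τ : Type*} [Fintype σ]
    [DecidableEq σ] [Fintype ι] [DecidableEq ι] [Fintype τ] (d : ι → ℕ) (hd : ∀ i, 0 < d i)
    (a : (i : ι) → Sym σ (d i) → E) (D : Ix σ d → Derivation ℤ E E)
    (jj : τ → Ix σ d) (θ : τ → Ix σ d → E) (hD : Dual d a D jj θ) (Z : Finset ι)
    (hnum : 2 * Fintype.card σ + Fintype.card τ ≤ ∑ i, d i + Z.card + 1)
    (u v : σ → E) (b b' : σ) (hpi : u b * v b' - u b' * v b ≠ 0)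
    (hZ : ∀ i ∈ Z, lf (a i) u v = 0) (hU : ∀ i ∉ Z, form (a i) v ≠ 0)
    (h : E[X]) (h0 : h ≠ 0) (hdvd : ∀ i ∉ Z, ∃ n, lf (a i) u v ∣ h ^ n) :
    3 ≤ h.natDegree := by
  classical
  by_contra hlt
  have hn2 : h.natDegree ≤ 2 := by omega
  let K := h.SplittingField
  let φ : E →+* K := algebraMap E K
  have hφ : Function.Injective φ := φ.injective
  have : CharZero K := charZero_of_injective_algebraMap hφ
  -- the polynomial over `K`
  have hhK0 : h.map φ ≠ 0 := (Polynomial.map_ne_zero_iff hφ).2 h0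
  have hhK : (h.map φ).Splits := SplittingField.splits h
  obtain ⟨ρ₁, ρ₂, hρ, hroots⟩ := nt_roots (h.map φ) (by rw [natDegree_map]; exact hn2)
  -- derivations
  choose D' hD' using fun s : Ix σ d => der_ext (K := K) (D s)
  have hDual : Dual d (fun i J => φ (a i J)) D' jj (fun j s => φ (θ j s)) := by
    intro s q
    have h1 := hD' s (a q.1 q.2)
    rw [hD s q] at h1
    rw [show D' s (φ (a q.1 q.2)) = _ from h1, map_sub, map_sum]
    congr 1
    · split_ifs
      · exact map_one φ
      · exact map_zero φ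
    · refine Finset.sum_congr rfl fun j _ => ?_
      split_ifs
      · rfl
      · exact map_zero φ
  -- factorisations
  have hfac : ∀ i ∉ Z, ∃ α β : ℕ, α + β = d i ∧
      lf (fun J => φ (a i J)) (fun l => φ (u l)) (fun l => φ (v l)) =
        C (form (fun J => φ (a i J)) fun l => φ (v l)) *
          ((X - C ρ₁) ^ α * (X - C ρ₂) ^ β) := by
    intro i hi
    obtain ⟨k, hk⟩ := hdvd i hi
    have hv : form (fun J => φ (a i J)) (fun l => φ (v l)) ≠ 0 := by
      rw [← pd_map_form]
      exact (map_ne_zero φ).2 (hU i hi)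
    have hc := lf_coeff_top (fun J => φ (a i J)) (fun l => φ (u l)) (fun l => φ (v l))
    have hle := lf_natDegree_le (fun J => φ (a i J)) (fun l => φ (u l)) (fun l => φ (v l))
    have hdeg : (lf (fun J => φ (a i J)) (fun l => φ (u l)) (fun l => φ (v l))).natDegree =
        d i := by
      refine le_antisymm hle (le_natDegree_of_ne_zero ?_)
      rw [hc]
      exact hv
    have hf0 : lf (fun J => φ (a i J)) (fun l => φ (u l)) (fun l => φ (v l)) ≠ 0 := by
      intro h1
      rw [h1, coeff_zero] at hc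
      exact hv hc.symm
    obtain ⟨α, β, h1, h2⟩ := nt_fact _ _ hf0 hhK0 hhK k (by
      rw [← lf_map, ← Polynomial.map_pow]
      exact Polynomial.map_dvd φ hk) ρ₁ ρ₂ hρ hroots
    refine ⟨α, β, h1.trans hdeg, ?_⟩
    rw [leadingCoeff, hdeg, hc] at h2
    exact h2
  choose! α β hαβ hlf using hfac
  -- the two points
  set p : σ → K := fun l => φ (u l) + ρ₁ * φ (v l) with hp
  set q : σ → K := fun l => φ (u l) + ρ₂ * φ (v l) with hq
  have hdet : p b * q b' - p b' * q b ≠ 0 := by
    have h1 : p b * q b' - p b' * q b = (ρ₂ - ρ₁) * φ (u b * v b' - u b' * v b) := by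
      rw [hp, hq, map_sub, map_mul, map_mul]
      ring
    rw [h1]
    exact mul_ne_zero (sub_ne_zero.2 hρ.symm) ((map_ne_zero φ).2 hpi)
  obtain ⟨ip, hip⟩ : ∃ l, p l ≠ 0 := by
    by_contra! h1
    rw [h1 b, h1 b'] at hdet
    simp at hdet
  obtain ⟨iq, hiq⟩ : ∃ l, q l ≠ 0 := by
    by_contra! h1
    rw [h1 b, h1 b'] at hdet
    simp at hdet
  have hform : ∀ i (x y : K), form (fun J => φ (a i J)) (fun l => x * p l + y * q l) =
      if i ∈ Z then 0 else form (fun J => φ (a i J)) (fun l => φ (v l)) *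
        ((y * (ρ₂ - ρ₁)) ^ α i * (x * (ρ₁ - ρ₂)) ^ β i) := by
    intro i x y
    split_ifs with hi
    · have h1 : lf (fun J => φ (a i J)) (fun l => φ (u l)) (fun l => φ (v l)) = 0 := by
        rw [← lf_map, hZ i hi, Polynomial.map_zero]
      have h2 : form (fun J => φ (a i J)) (fun l => φ (v l)) = 0 := by
        rw [← lf_coeff_top (fun J => φ (a i J)) (fun l => φ (u l)) (fun l => φ (v l)), h1,
          coeff_zero]
      have h3 := nt_hom (fun J => φ (a i J)) (fun l => φ (u l)) (fun l => φ (v l)) ρ₁ ρ₂ (d i) 0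
        (Nat.add_zero _) (by rw [h1, h2, C_0, zero_mul]) x y
      rw [h2, zero_mul] at h3
      exact h3
    · exact nt_hom _ _ _ ρ₁ ρ₂ (α i) (β i) (hαβ i hi) (hlf i hi) x y
  refine Pool.Agent.Helper49.LG.no_two d (fun i J => φ (a i J)) D' jj (fun j s => φ (θ j s))
    hDual (fun l => (p ip)⁻¹ * p l) (fun l => (q iq)⁻¹ * q l) b b' ?_ ip iq
    (inv_mul_cancel₀ hip) (inv_mul_cancel₀ hiq) Zᶜ
    (fun i => if i ∈ Z then 0 else form (fun J => φ (a i J)) (fun l => φ (v l)) *
        (((q iq)⁻¹ * (ρ₂ - ρ₁)) ^ α i * ((p ip)⁻¹ * (ρ₁ - ρ₂)) ^ β i)) α ?_ ?_ ?_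
  · have h1 : (p ip)⁻¹ * p b * ((q iq)⁻¹ * q b') - (p ip)⁻¹ * p b' * ((q iq)⁻¹ * q b) =
        (p ip)⁻¹ * (q iq)⁻¹ * (p b * q b' - p b' * q b) := by ring
    rw [h1]
    exact mul_ne_zero (mul_ne_zero (inv_ne_zero hip) (inv_ne_zero hiq)) hdet
  · intro i hi
    rw [Finset.mem_compl, not_not] at hi
    rw [if_pos hi]
  · intro i n
    have h1 : (fun l => (p ip)⁻¹ * p l + (n : K) * ((q iq)⁻¹ * q l)) =
        fun l => (p ip)⁻¹ * p l + ((n : K) * (q iq)⁻¹) * q l := by
      funext l
      ring
    rw [h1, hform]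
    split_ifs
    · rw [zero_mul]
    · rw [mul_assoc (n : K), mul_pow (n : K)]
      ring
  · have h1 : Zᶜ.card = Fintype.card ι - Z.card := Finset.card_compl Z
    have h2 : Z.card ≤ Fintype.card ι := Finset.card_le_univ Z
    have h3 : ∑ i, (d i + 1) = ∑ i, d i + Fintype.card ι := by
      rw [Finset.sum_add_distrib, Finset.sum_const, smul_eq_mul, mul_one, Finset.card_univ]
    omega

end Pool.Agent.Helper10.LB
end

/- Helper12.LVF.H10.LB.CaseTwo -/
section
/-! # LB-C2: the coordinate of an integral point on a bounded line is bounded -/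

set_option autoImplicit false

namespace Pool.Agent.Helper10.LB

open scoped BigOperators
open Polynomial Pool.Agent.Helper8.LG

/-- the monic squarefree polynomial with the same roots -/
theorem exists_sqfree {F : Type*} [Field F] [CharZero F] (g : F[X]) (hg : g ≠ 0) :
    ∃ h w : F[X], h.Monic ∧ h.Separable ∧ h * w = g ∧ ∃ n, g ∣ h ^ n := by
  classical
  have hr0 : UniqueFactorizationMonoid.radical g ≠ 0 := UniqueFactorizationMonoid.radical_ne_zero
  have has : Associated (normalize (UniqueFactorizationMonoid.radical g))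
      (UniqueFactorizationMonoid.radical g) := normalize_associated _
  obtain ⟨w, hw⟩ := has.dvd.trans (UniqueFactorizationMonoid.radical_dvd_self (a := g))
  obtain ⟨n, hn⟩ := UniqueFactorizationMonoid.exists_dvd_radical_self_pow hg
  refine ⟨normalize (UniqueFactorizationMonoid.radical g), w, Polynomial.monic_normalize hr0, ?_,
    hw.symm, n, hn.trans (pow_dvd_pow_of_dvd has.symm.dvd n)⟩
  rw [PerfectField.separable_iff_squarefree]
  exact (UniqueFactorizationMonoid.squarefree_radical (a := g)).squarefree_of_dvd has.dvd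

/-- polynomials with coefficients in a subfield -/
theorem exists_lift_sub {Ω : Type*} [Field Ω] (F : Subfield Ω) (p : Polynomial Ω)
    (hp : ∀ n, p.coeff n ∈ F) : ∃ p' : F[X], p'.map F.subtype = p := by
  have h : p ∈ Polynomial.lifts F.subtype := by
    rw [Polynomial.lifts_iff_coeff_lifts]
    intro n
    exact ⟨⟨p.coeff n, hp n⟩, rfl⟩
  exact (Polynomial.mem_lifts _).1 h

/-- the polynomial `q` with `h ∣ e + h' q` -/
theorem exists_q {F : Type*} [Field F] (h e : F[X]) (hm : h.Monic) (hs : h.Separable)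
    (hdeg : h.natDegree ≠ 0) :
    ∃ q : F[X], q.natDegree < h.natDegree ∧ h ∣ e + derivative h * q := by
  obtain ⟨α, β, hab⟩ := hs
  refine ⟨(-(β * e)) %ₘ h, ?_, ?_⟩
  · exact Polynomial.natDegree_modByMonic_lt _ hm (fun h1 => hdeg (by rw [h1, natDegree_one]))
  · have h1 := Polynomial.modByMonic_add_div (-(β * e)) h
    refine ⟨α * e - derivative h * ((-(β * e)) /ₘ h), ?_⟩
    have h2 : (-(β * e)) %ₘ h = -(β * e) - h * ((-(β * e)) /ₘ h) := eq_sub_of_add_eq h1
    rw [h2]
    linear_combination (-e) * hab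

/-- **The coordinate `z` of the integral point `x = lam (u + z v)` on the bounded line `u, v` is
algebraic over the bounded elements.** -/
theorem case_two {k L Ω : Type*} [Field k] [Field L] [CharZero L] [Algebra k L] [Field Ω]
    {Q : (ℕ → L) →+* Ω} (hQ : IsUl Q) {T : Type*} [Finite T] [DecidableEq T] (y : T → L)
    {σ ι τ : Type*} [Fintype σ] [DecidableEq σ]
    [Fintype ι] [DecidableEq ι] [Fintype τ] {d : ι → ℕ} (hd : ∀ i, 0 < d i)
    (a : (i : ι) → Sym σ (d i) → L) (D : Ix σ d → Derivation ℤ L L) (hy : Dirs k y D)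
    (jj : τ → Ix σ d) (θ : τ → Ix σ d → L) (hD : Dual d a D jj θ) (Z : Finset ι)
    (hnum : 2 * Fintype.card σ + Fintype.card τ ≤ ∑ i, d i + Z.card + 1)
    (A : Subalgebra k L) (hA : A.FG) (X : ℕ → σ → L) (hX : ∀ m, Pt a Z A.toSubring (X m))
    (u v : σ → Ω) (hu : ∀ l, u l ∈ BF k hQ) (hv : ∀ l, v l ∈ BF k hQ) (b b' : σ)
    (hpi : u b * v b' - u b' * v b ≠ 0)
    (htop : ∀ i ∉ Z, form (fun J => Q fun _ => a i J) v ≠ 0) (lam z : Ω) (hlam : lam ≠ 0)
    (hx : ∀ l, (Q fun m => X m l) = lam * (u l + z * v l)) :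
    IsAlgebraic (BF k hQ) z := by
  classical
  by_contra hz
  have hz' : Transcendental (BF k hQ) z := hz
  have hzF : z ∉ BF k hQ := by
    intro h
    exact hz (isAlgebraic_algebraMap (⟨z, h⟩ : BF k hQ))
  have : CharZero Ω := by
    have hinj : Function.Injective (Q.comp (Pi.constRingHom ℕ L)) :=
      (Q.comp (Pi.constRingHom ℕ L)).injective
    exact charZero_of_injective_ringHom hinj
  -- the line over the field of the bounded elements
  set F := BF k hQ with hF
  set u' : σ → F := fun l => ⟨u l, hu l⟩ with hu'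
  set v' : σ → F := fun l => ⟨v l, hv l⟩ with hv'
  set a' : (i : ι) → Sym σ (d i) → F := fun i J => ⟨Q fun _ => a i J, const_mem hQ _⟩ with ha'
  have hmap : ∀ i, (lf (a' i) u' v').map F.subtype = lf (fun J => Q fun _ => a i J) u v := by
    intro i
    rw [lf_map]
    rfl
  have hev0 : ∀ p : F[X], (p.map F.subtype).eval z = 0 → p = 0 := by
    intro p hp
    by_contra h0
    refine hz ⟨p, h0, ?_⟩
    rw [Polynomial.aeval_def, Polynomial.eval₂_eq_eval_map]
    exact hp
  have hform : ∀ i, form (fun J => Q fun _ => a i J) (fun l => u l + z * v l) * lam ^ d i =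
      Q fun m => form (a i) (X m) := by
    intro i
    rw [ul_Q_form, funext hx, dirTwo_form_mul, mul_comm]
  have hZ0 : ∀ i ∈ Z, lf (a' i) u' v' = 0 := by
    intro i hi
    refine hev0 _ ?_
    rw [hmap, lf_eval]
    have h1 := hform i
    have h2 : (fun m => form (a i) (X m)) = 0 := by
      funext m
      exact (hX m).zero i hi
    rw [h2, map_zero] at h1
    exact (mul_eq_zero.1 h1).resolve_right (pow_ne_zero _ hlam)
  have hU0 : ∀ i ∉ Z, lf (a' i) u' v' ≠ 0 := by
    intro i hi h0
    apply htop i hi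
    rw [← lf_coeff_top (fun J => Q fun _ => a i J) u v, ← hmap, h0, Polynomial.map_zero,
      Polynomial.coeff_zero]
  set g : F[X] := ∏ i ∈ Zᶜ, lf (a' i) u' v' with hg
  have hg0 : g ≠ 0 := Finset.prod_ne_zero_iff.2 fun i hi => hU0 i (Finset.mem_compl.1 hi)
  obtain ⟨h, w, hmon, hsep, hw, n, hn⟩ := exists_sqfree g hg0
  have hgmap : (h.map F.subtype) * (w.map F.subtype) =
      ∏ i ∈ Zᶜ, lf (fun J => Q fun _ => a i J) u v := by
    rw [← Polynomial.map_mul, hw, hg, Polynomial.map_prod]
    exact Finset.prod_congr rfl fun i _ => hmap i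
  have hr : 3 ≤ (h.map F.subtype).natDegree := by
    have hDual : Dual d (fun i J => Q fun _ => a i J)
        (fun p => ulDer Q hQ.surj hQ.ker (D p)) jj (fun j s => Q fun _ => θ j s) := by
      intro s q
      have h1 := congrArg (Q.comp (Pi.constRingHom ℕ L)) (hD s q)
      show ulDer Q hQ.surj hQ.ker (D s) (Q fun _ => a q.1 q.2) = _
      rw [ulDer_apply]
      rw [map_sub, map_sum] at h1
      have h2 : (Q fun _ => D s (a q.1 q.2)) =
          (Q.comp (Pi.constRingHom ℕ L)) (D s (a q.1 q.2)) := rfl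
      rw [h2, h1]
      congr 1
      · split_ifs
        · exact map_one _
        · exact map_zero _
      · refine Finset.sum_congr rfl fun j _ => ?_
        split_ifs
        · rfl
        · exact map_zero _
    refine three_roots d hd (fun i J => Q fun _ => a i J) _ jj _ hDual Z hnum u v b b' hpi
      (fun i hi => ?_) htop _ ?_ fun i hi => ?_
    · rw [← hmap, hZ0 i hi, Polynomial.map_zero]
    · exact (Polynomial.map_ne_zero_iff F.subtype.injective).2 hmon.ne_zero
    · refine ⟨n, ?_⟩
      have h1 : lf (a' i) u' v' ∣ h ^ n :=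
        (Finset.dvd_prod_of_mem (fun i => lf (a' i) u' v') (Finset.mem_compl.2 hi)).trans hn
      rw [← hmap, ← Polynomial.map_pow]
      exact Polynomial.map_dvd F.subtype h1
  rw [Polynomial.natDegree_map] at hr
  -- the polynomials q
  have hq : ∀ p : Ix σ d, ∃ q : F[X], q.natDegree < h.natDegree ∧
      h.map F.subtype ∣ mapD (ulDer Q hQ.surj hQ.ker (D p)) (h.map F.subtype) +
        derivative (h.map F.subtype) * q.map F.subtype := by
    intro p
    obtain ⟨e, he⟩ := exists_lift_sub F (mapD (ulDer Q hQ.surj hQ.ker (D p)) (h.map F.subtype))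
      (fun n => by
        rw [coeff_mapD, Polynomial.coeff_map]
        exact der_mem hQ (D p) (hy.ker p) _ (h.coeff n).2)
    obtain ⟨q, hq1, hq2⟩ := exists_q h e hmon hsep (by omega)
    refine ⟨q, hq1, ?_⟩
    rw [← he, Polynomial.derivative_map, ← Polynomial.map_mul, ← Polynomial.map_add]
    exact Polynomial.map_dvd _ hq2
  choose q hq1 hq2 using hq
  have hDz : ∀ p, ulDer Q hQ.surj hQ.ker (D p) z = ((q p).map F.subtype).eval z := by
    intro p
    refine (mason_bdd hQ y D hy a Z A hA X hX u v hu hv b b' hpi htop lam z hlam hx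
      (h.map F.subtype) (w.map F.subtype) (fun n => ?_) (hmon.map _)
      (by rw [Polynomial.natDegree_map]; exact hr) hsep.map hgmap p ((q p).map F.subtype)
      (fun n => ?_) (by rw [Polynomial.natDegree_map, Polynomial.natDegree_map]; exact hq1 p)
      (hq2 p)).resolve_left hzF
    · rw [Polynomial.coeff_map]
      exact (h.coeff n).2
    · rw [Polynomial.coeff_map]
      exact ((q p).coeff n).2
  have hdeg : ∀ p, ((q p).map F.subtype).natDegree ≤ 2 := by
    intro p
    by_contra hlt
    exact hzF (tail_bdd hQ y D hy p ((q p).map F.subtype)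
      (fun n => by rw [Polynomial.coeff_map]; exact ((q p).coeff n).2) (by omega) z (hDz p))
  refine hz (riccati F (fun p => ulDer Q hQ.surj hQ.ker (D p))
    (fun c hc => const_Ω hQ y D hy c hc) (h.map F.subtype)
    (fun n => by rw [Polynomial.coeff_map]; exact (h.coeff n).2) hsep.map
    (by rw [Polynomial.natDegree_map]; exact hr) (fun p => (q p).map F.subtype) hdeg hq2 z hDz ?_)
  intro h0
  exact hmon.ne_zero (hev0 h h0)

end Pool.Agent.Helper10.LB
end

/- Helper12.LVF.H10.LV.CaseTwo -/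
section
/-! # LV-C2: the coordinate of an integral point on a bounded line is bounded -/

set_option autoImplicit false

namespace Pool.Agent.Helper10.LV

open scoped BigOperators
open Polynomial Pool.Agent.Helper8.LG Pool.Agent.Helper8.LV Pool.Agent.Helper10.LB

/-- **The coordinate `z` of the integral point `x = lam (u + z v)` on the bounded line `u, v` is
algebraic over the bounded elements.** -/
theorem case_two {k L Ω : Type*} [Field k] [Field L] [CharZero L] [Algebra k L] [Field Ω]
    {Q : (ℕ → L) →+* Ω} (hQ : IsUl Q) {T : Type*} [Finite T] [DecidableEq T] (y : T → L)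
    {σ ι τ : Type*} [Fintype σ] [DecidableEq σ]
    [Fintype ι] [DecidableEq ι] [Fintype τ] {d b q : ι → ℕ}
    (a aA : (i : ι) → Sym σ (d i) → L) (ap : (i : ι) → Sym σ (b i) → L)
    (ah : (i : ι) → Sym σ (q i) → L) (D : Ix σ q → Derivation ℤ L L) (hy : Dirs k y D)
    (jj : τ → Ix σ q) (θ : τ → Ix σ q → L) (hD : Dual q ah D jj θ)
    (hM : Mov d b q a aA ap ah D) (Z : Finset ι)
    (hnum : 2 * Fintype.card σ + Fintype.card τ ≤ ∑ i, q i + Z.card + 1)
    (A : Subalgebra k L) (hA : A.FG) (X : ℕ → σ → L) (hX : ∀ m, Pt a Z A.toSubring (X m))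
    (hXp : ∀ m i, form (ap i) (X m) ≠ 0)
    (u v : σ → Ω) (hu : ∀ l, u l ∈ BF k hQ) (hv : ∀ l, v l ∈ BF k hQ) (β β' : σ)
    (hpi : u β * v β' - u β' * v β ≠ 0)
    (htop : ∀ i ∉ Z, form (fun J => Q fun _ => a i J) v ≠ 0) (lam z : Ω) (hlam : lam ≠ 0)
    (hx : ∀ l, (Q fun m => X m l) = lam * (u l + z * v l)) :
    IsAlgebraic (BF k hQ) z := by
  classical
  by_contra hz
  have hz' : Transcendental (BF k hQ) z := hz
  have hzF : z ∉ BF k hQ := by
    intro h
    exact hz (isAlgebraic_algebraMap (⟨z, h⟩ : BF k hQ))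
  have : CharZero Ω := by
    have hinj : Function.Injective (Q.comp (Pi.constRingHom ℕ L)) :=
      (Q.comp (Pi.constRingHom ℕ L)).injective
    exact charZero_of_injective_ringHom hinj
  -- the line over the field of the bounded elements
  set F := BF k hQ with hF
  set u' : σ → F := fun l => ⟨u l, hu l⟩ with hu'
  set v' : σ → F := fun l => ⟨v l, hv l⟩ with hv'
  set a' : (i : ι) → Sym σ (d i) → F := fun i J => ⟨Q fun _ => a i J, const_mem hQ _⟩ with ha'
  have hmap : ∀ i, (lf (a' i) u' v').map F.subtype = lf (fun J => Q fun _ => a i J) u v := by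
    intro i
    rw [lf_map]
    rfl
  have hev0 : ∀ p : F[X], (p.map F.subtype).eval z = 0 → p = 0 := by
    intro p hp
    by_contra h0
    refine hz ⟨p, h0, ?_⟩
    rw [Polynomial.aeval_def, Polynomial.eval₂_eq_eval_map]
    exact hp
  have hform : ∀ i, form (fun J => Q fun _ => a i J) (fun l => u l + z * v l) * lam ^ d i =
      Q fun m => form (a i) (X m) := by
    intro i
    rw [ul_Q_form, funext hx, dirTwo_form_mul, mul_comm]
  have hZ0 : ∀ i ∈ Z, lf (a' i) u' v' = 0 := by
    intro i hi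
    refine hev0 _ ?_
    rw [hmap, lf_eval]
    have h1 := hform i
    have h2 : (fun m => form (a i) (X m)) = 0 := by
      funext m
      exact (hX m).zero i hi
    rw [h2, map_zero] at h1
    exact (mul_eq_zero.1 h1).resolve_right (pow_ne_zero _ hlam)
  have hU0 : ∀ i ∉ Z, lf (a' i) u' v' ≠ 0 := by
    intro i hi h0
    apply htop i hi
    rw [← lf_coeff_top (fun J => Q fun _ => a i J) u v, ← hmap, h0, Polynomial.map_zero,
      Polynomial.coeff_zero]
  set g : F[X] := ∏ i ∈ Zᶜ, lf (a' i) u' v' with hg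
  have hg0 : g ≠ 0 := Finset.prod_ne_zero_iff.2 fun i hi => hU0 i (Finset.mem_compl.1 hi)
  obtain ⟨h, w, hmon, hsep, hw, n, hn⟩ := exists_sqfree g hg0
  have hgmap : (h.map F.subtype) * (w.map F.subtype) =
      ∏ i ∈ Zᶜ, lf (fun J => Q fun _ => a i J) u v := by
    rw [← Polynomial.map_mul, hw, hg, Polynomial.map_prod]
    exact Finset.prod_congr rfl fun i _ => hmap i
  have hr : 3 ≤ (h.map F.subtype).natDegree := by
    have hDual : Dual q (fun i J => Q fun _ => ah i J)
        (fun p => ulDer Q hQ.surj hQ.ker (D p)) jj (fun j s => Q fun _ => θ j s) := by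
      intro s t
      have h1 := congrArg (Q.comp (Pi.constRingHom ℕ L)) (hD s t)
      show ulDer Q hQ.surj hQ.ker (D s) (Q fun _ => ah t.1 t.2) = _
      rw [ulDer_apply]
      rw [map_sub, map_sum] at h1
      have h2 : (Q fun _ => D s (ah t.1 t.2)) =
          (Q.comp (Pi.constRingHom ℕ L)) (D s (ah t.1 t.2)) := rfl
      rw [h2, h1]
      congr 1
      · split_ifs
        · exact map_one _
        · exact map_zero _
      · refine Finset.sum_congr rfl fun j _ => ?_
        split_ifs
        · rfl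
        · exact map_zero _
    have hMov : Mov d b q (fun i J => Q fun _ => a i J) (fun i J => Q fun _ => aA i J)
        (fun i J => Q fun _ => ap i J) (fun i J => Q fun _ => ah i J)
        (fun p => ulDer Q hQ.surj hQ.ker (D p)) := by
      refine ⟨hM.toFam.map (Q.comp (Pi.constRingHom ℕ L)), fun s i J => ?_, fun s i J => ?_⟩
      · show ulDer Q hQ.surj hQ.ker (D s) (Q fun _ => aA i J) = 0
        rw [ulDer_apply]
        have h1 : (fun _ : ℕ => D s (aA i J)) = 0 := by
          funext m
          exact hM.DA s i J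
        rw [h1, map_zero]
      · show ulDer Q hQ.surj hQ.ker (D s) (Q fun _ => ap i J) = 0
        rw [ulDer_apply]
        have h1 : (fun _ : ℕ => D s (ap i J)) = 0 := by
          funext m
          exact hM.Dp s i J
        rw [h1, map_zero]
    have hP0 : ∀ i, lf (fun J => Q fun _ => ap i J) u v ≠ 0 := by
      intro i h0
      have h1 : (lf (fun J => Q fun _ => ap i J) u v).eval z = 0 := by rw [h0, eval_zero]
      rw [lf_eval] at h1
      have h2 : (Q fun m => form (ap i) (X m)) = 0 := by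
        rw [ul_Q_form, funext hx, dirTwo_form_mul, h1, mul_zero]
      obtain ⟨m, hm⟩ := ((hQ.ker _).1 h2).exists
      exact hXp m i hm
    refine three_roots d b q (fun i J => Q fun _ => a i J) (fun i J => Q fun _ => aA i J)
      (fun i J => Q fun _ => ap i J) (fun i J => Q fun _ => ah i J) _ jj _ hDual hMov Z hnum
      u v β β' hpi hP0 (fun i hi => ?_) htop _ ?_ fun i hi => ?_
    · rw [← hmap, hZ0 i hi, Polynomial.map_zero]
    · exact (Polynomial.map_ne_zero_iff F.subtype.injective).2 hmon.ne_zero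
    · refine ⟨n, ?_⟩
      have h1 : lf (a' i) u' v' ∣ h ^ n :=
        (Finset.dvd_prod_of_mem (fun i => lf (a' i) u' v') (Finset.mem_compl.2 hi)).trans hn
      rw [← hmap, ← Polynomial.map_pow]
      exact Polynomial.map_dvd F.subtype h1
  rw [Polynomial.natDegree_map] at hr
  -- the polynomials q
  have hq : ∀ p : Ix σ q, ∃ r : F[X], r.natDegree < h.natDegree ∧
      h.map F.subtype ∣ mapD (ulDer Q hQ.surj hQ.ker (D p)) (h.map F.subtype) +
        derivative (h.map F.subtype) * r.map F.subtype := by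
    intro p
    obtain ⟨e, he⟩ := exists_lift_sub F (mapD (ulDer Q hQ.surj hQ.ker (D p)) (h.map F.subtype))
      (fun n => by
        rw [coeff_mapD, Polynomial.coeff_map]
        exact der_mem hQ (D p) (hy.ker p) _ (h.coeff n).2)
    obtain ⟨r, hq1, hq2⟩ := exists_q h e hmon hsep (by omega)
    refine ⟨r, hq1, ?_⟩
    rw [← he, Polynomial.derivative_map, ← Polynomial.map_mul, ← Polynomial.map_add]
    exact Polynomial.map_dvd _ hq2
  choose r hq1 hq2 using hq
  have hDz : ∀ p, ulDer Q hQ.surj hQ.ker (D p) z = ((r p).map F.subtype).eval z := by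
    intro p
    refine (mason_bdd hQ y D hy a Z A hA X hX u v hu hv β β' hpi htop lam z hlam hx
      (h.map F.subtype) (w.map F.subtype) (fun n => ?_) (hmon.map _)
      (by rw [Polynomial.natDegree_map]; exact hr) hsep.map hgmap p ((r p).map F.subtype)
      (fun n => ?_) (by rw [Polynomial.natDegree_map, Polynomial.natDegree_map]; exact hq1 p)
      (hq2 p)).resolve_left hzF
    · rw [Polynomial.coeff_map]
      exact (h.coeff n).2
    · rw [Polynomial.coeff_map]
      exact ((r p).coeff n).2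
  have hdeg : ∀ p, ((r p).map F.subtype).natDegree ≤ 2 := by
    intro p
    by_contra hlt
    exact hzF (tail_bdd hQ y D hy p ((r p).map F.subtype)
      (fun n => by rw [Polynomial.coeff_map]; exact ((r p).coeff n).2) (by omega) z (hDz p))
  refine hz (riccati F (fun p => ulDer Q hQ.surj hQ.ker (D p))
    (fun c hc => const_Ω hQ y D hy c hc) (h.map F.subtype)
    (fun n => by rw [Polynomial.coeff_map]; exact (h.coeff n).2) hsep.map
    (by rw [Polynomial.natDegree_map]; exact hr) (fun p => (r p).map F.subtype) hdeg hq2 z hDz ?_)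
  intro h0
  exact hmon.ne_zero (hev0 h h0)

end Pool.Agent.Helper10.LV
end

/- Helper12.LVF.H10.LB.SecRound -/
section
/-! # LB-S2: second round, the quotients `x^J/F_i(x)` of bounded points are bounded -/

set_option autoImplicit false

namespace Pool.Agent.Helper10.LB

open scoped BigOperators
open Pool.Agent.Helper8.LG

private theorem secround_adjoin {k L : Type*} [Field k] [Field L] [Algebra k L] (s : Set L)
    (O : ValuationSubring L) (hk : ∀ c : k, algebraMap k L c ∈ O) (hs : ∀ f ∈ s, f ∈ O) :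
    (Algebra.adjoin k s).toSubring ≤ O.toSubring := by
  intro f hf
  have hf' : f ∈ Algebra.adjoin k s := hf
  induction hf' using Algebra.adjoin_induction with
  | mem x hx => exact hs x hx
  | algebraMap c => exact hk c
  | add x y hx hy hx' hy' => exact O.add_mem _ _ (hx' hx) (hy' hy)
  | mul x y hx hy hx' hy' => exact O.mul_mem _ _ (hx' hx) (hy' hy)

private theorem secround_dir {k L : Type*} [Field k] [Field L] [CharZero L] [Algebra k L]
    {P T : Type*} [Finite P] [Finite T] [DecidableEq T] (y : T → L) (D : P → Derivation ℤ L L)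
    (hy : Dirs k y D) {σ ι : Type*} [Fintype σ] [DecidableEq σ] [Fintype ι] [DecidableEq ι]
    {d : ι → ℕ} (a : (i : ι) → Sym σ (d i) → L) (Z : Finset ι) (A : Subalgebra k L) (hA : A.FG)
    (V : Submodule k L) [FiniteDimensional k V] (j : T) (t : L) (ht : t = y j ∨ t = (y j)⁻¹) :
    ∃ Δ : L, Δ ≠ 0 ∧ ∀ (x : σ → L) (G : L),
      Pt a Z A.toSubring x → G ≠ 0 → (∀ l, G * x l ∈ V) →
        ∀ i ∉ Z, ∀ J : Sym σ (d i), ∀ O : ValuationSubring L,
          intCl (others (k := k) y j) t ≤ O.toSubring →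
          Δ * (mon x J / form (a i) x) ∈ O := by
  classical
  obtain ⟨s, hs⟩ := hA
  set S : Set L := (s : Set L) ∪ Set.range (fun p : Ix σ d => a p.1 p.2) with hS
  have hSfin : S.Finite := s.finite_toSet.union (Set.finite_range _)
  obtain ⟨Δ₀, hΔ0, hΔR, hΔ⟩ := dir_prep y D hy V S hSfin j t ht
  have htr : Transcendental (others (k := k) y j) t := by
    rcases ht with rfl | rfl
    · exact (others_transcendental (k := k) y hy.ind j).1
    · exact (others_transcendental (k := k) y hy.ind j).2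
  have hfin : FiniteDimensional (Subfield.closure ((others (k := k) y j : Set L) ∪ {t})) L := by
    rcases ht with rfl | rfl
    · exact (others_finite (k := k) y hy.fin j).1
    · exact (others_finite (k := k) y hy.fin j).2
  obtain ⟨hDed, hFrac⟩ := intCl_dedekind (others (k := k) y j) t htr hfin
  have hcl : Subring.closure ((others (k := k) y j : Set L) ∪ {t}) ≤
      intCl (others (k := k) y j) t := by
    intro f hf
    exact isIntegral_algebraMap
      (R := Subring.closure ((others (k := k) y j : Set L) ∪ {t})) (x := ⟨f, hf⟩)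
  have hkR : ∀ c : k, algebraMap k L c ∈ intCl (others (k := k) y j) t := by
    intro c
    refine hcl (Subring.subset_closure (Or.inl ?_))
    exact IntermediateField.algebraMap_mem (IntermediateField.adjoin k (y '' {j}ᶜ)) c
  have hB : ∀ i : ι, ∃ c : ℕ, ∀ O : ValuationSubring L,
      intCl (others (k := k) y j) t ≤ O.toSubring →
      Δ₀⁻¹ ∉ O → ∀ f ∈ dirTwoW V (a i), f ≠ 0 → Δ₀ ^ c * f⁻¹ ∈ O := by
    intro i
    have := dirTwo_finite V (a i)
    exact bounded_of (intCl (others (k := k) y j) t) hkR (dirTwoW V (a i)) Δ₀ hΔR hΔ0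
  choose B hB using hB
  set N : ℕ := ∑ i, (B i + d i + 1) with hN
  have hNi : ∀ i, B i + d i + 1 ≤ N := fun i =>
    Finset.single_le_sum (f := fun i => B i + d i + 1) (fun _ _ => Nat.zero_le _)
      (Finset.mem_univ i)
  refine ⟨Δ₀ ^ N, pow_ne_zero _ hΔ0, ?_⟩
  intro x G hx hG hGx i hiZ J O hO
  obtain ⟨-, hΔV, hΔS⟩ := hΔ O hO
  have hΔO : Δ₀ ∈ O := hO hΔR
  by_cases hinv : Δ₀⁻¹ ∈ O
  · have hAO : A.toSubring ≤ O.toSubring := by
      rw [← hs]
      refine secround_adjoin (s : Set L) O (fun c => hO (hkR c)) ?_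
      intro f hf
      have h1 : f = Δ₀⁻¹ * (Δ₀ * f) := by
        rw [← mul_assoc, inv_mul_cancel₀ hΔ0, one_mul]
      rw [h1]
      exact O.mul_mem _ _ hinv (hΔS f (Or.inl hf))
    exact O.mul_mem _ _ (pow_mem hΔO N) (dirTwo_int_mem O _ hAO (hx.int i hiZ J))
  · have hne : form (a i) (fun l => G * x l) ≠ 0 := by
      rw [dirTwo_form_mul]
      exact mul_ne_zero (pow_ne_zero _ hG) (hx.ne i hiZ)
    have h1 := hB i O hO hinv _ (dirTwo_form_mem V (a i) _ hGx) hne
    have h2 : Δ₀ ^ d i * mon (fun l => G * x l) J ∈ O :=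
      dirTwo_mon_mem O.toSubring Δ₀ _ (fun l => hΔV _ (hGx l)) J
    have h3 : mon x J / form (a i) x
        = mon (fun l => G * x l) J * (form (a i) (fun l => G * x l))⁻¹ := by
      rw [dirTwo_mon_mul, dirTwo_form_mul]
      have := hx.ne i hiZ
      field_simp
    obtain ⟨r, hr⟩ := Nat.exists_eq_add_of_le (hNi i)
    have h4 : Δ₀ ^ N * (mon x J / form (a i) x) = Δ₀ ^ (r + 1)
        * ((Δ₀ ^ B i * (form (a i) (fun l => G * x l))⁻¹)
          * (Δ₀ ^ d i * mon (fun l => G * x l) J)) := by
      rw [h3, hr]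
      ring
    rw [h4]
    exact O.mul_mem _ _ (pow_mem hΔO _) (O.mul_mem _ _ h1 h2)

/-- copy of the first part of `Helper8.LG.dir_two` (`C` empty) in all directions -/
theorem second_round {k L : Type*} [Field k] [Field L] [CharZero L] [Algebra k L] {P T : Type*}
    [Finite P] [Finite T] [DecidableEq T] (y : T → L) (D : P → Derivation ℤ L L)
    (hy : Dirs k y D) {σ ι : Type*} [Fintype σ] [DecidableEq σ] [Fintype ι] [DecidableEq ι]
    {d : ι → ℕ} (a : (i : ι) → Sym σ (d i) → L) (Z : Finset ι) (A : Subalgebra k L) (hA : A.FG)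
    (V : Submodule k L) [FiniteDimensional k V] :
    ∃ V' : Submodule k L, FiniteDimensional k V' ∧ ∀ (x : σ → L) (G : L),
      Pt a Z A.toSubring x → G ≠ 0 → (∀ l, G * x l ∈ V) →
        ∀ i ∉ Z, ∀ J : Sym σ (d i), mon x J / form (a i) x ∈ V' := by
  have h1 : ∀ (j : T) (b : Bool), ∃ Δ : L, Δ ≠ 0 ∧ ∀ (x : σ → L) (G : L),
      Pt a Z A.toSubring x → G ≠ 0 → (∀ l, G * x l ∈ V) →
        ∀ i ∉ Z, ∀ J : Sym σ (d i), ∀ O : ValuationSubring L,
          intCl (others (k := k) y j) (if b then y j else (y j)⁻¹) ≤ O.toSubring →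
          Δ * (mon x J / form (a i) x) ∈ O := by
    intro j b
    refine secround_dir y D hy a Z A hA V j _ ?_
    cases b
    · exact Or.inr (by simp)
    · exact Or.inl (by simp)
  choose Δ hΔ0 hΔ using h1
  obtain ⟨V', hV', h⟩ := fd_of_dirs y D hy Δ hΔ0
  exact ⟨V', hV', fun x G hx hG hGx i hi J => h _ fun j b O hO => hΔ j b x G hx hG hGx i hi J O hO⟩

end Pool.Agent.Helper10.LB
end

/- Helper12.LVF.H10.LV.PointBdd -/
section
/-! # LV-PB: sequences of integral points with bounded two-vectors are bounded -/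

set_option autoImplicit false

namespace Pool.Agent.Helper10.LV

open scoped BigOperators
open Polynomial Pool.Agent.Helper8.LG Pool.Agent.Helper8.LV Pool.Agent.Helper10.LB

/-- a nonzero polynomial does not vanish at some natural number -/
private theorem pbv_nat {Ω : Type*} [Field Ω] [CharZero Ω] (p : Polynomial Ω) (hp : p ≠ 0) :
    ∃ n : ℕ, p.eval (n : Ω) ≠ 0 := by
  by_contra h
  push Not at h
  apply hp
  refine Polynomial.eq_zero_of_infinite_isRoot p ?_
  exact Set.infinite_of_injective_forall_mem (f := fun n : ℕ => (n : Ω)) Nat.cast_injective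
    fun n => h n

private theorem pbv_alg1 {F : Type*} [Field F] (u v z n : F) (h : 1 - n * z ≠ 0) :
    u + z * v = (1 - n * z) * (u + z / (1 - n * z) * (v + n * u)) := by
  have h1 : (1 - n * z) * (z / (1 - n * z)) = z := mul_div_cancel₀ z h
  linear_combination -(v + n * u) * h1

private theorem pbv_alg2 {F : Type*} [Field F] (z n : F) (h : 1 - n * z ≠ 0) :
    z = z / (1 - n * z) / (1 + n * (z / (1 - n * z))) := by
  have h1 : (1 - n * z) * (z / (1 - n * z)) = z := mul_div_cancel₀ z h
  generalize z / (1 - n * z) = t at h1 ⊢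
  have h2 : 1 + n * t ≠ 0 := by
    intro h0
    have h3 : t = 0 := by linear_combination h1 + z * h0
    rw [h3, mul_zero, add_zero] at h0
    exact one_ne_zero h0
  rw [eq_div_iff h2]
  linear_combination -h1

/-- `G x_l` is in a finite-dimensional space for infinitely many members of the sequence -/
theorem point_bdd {k L : Type*} [Field k] [Field L] [CharZero L] [Algebra k L]
    {T : Type*} [Finite T] [DecidableEq T] (y : T → L)
    {σ ι τ : Type*} [Fintype σ] [DecidableEq σ]
    [Fintype ι] [DecidableEq ι] [Fintype τ] {d b q : ι → ℕ}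
    (a aA : (i : ι) → Sym σ (d i) → L) (ap : (i : ι) → Sym σ (b i) → L)
    (ah : (i : ι) → Sym σ (q i) → L) (D : Ix σ q → Derivation ℤ L L) (hy : Dirs k y D)
    (jj : τ → Ix σ q) (θ : τ → Ix σ q → L) (hD : Dual q ah D jj θ)
    (hM : Mov d b q a aA ap ah D) (Z : Finset ι)
    (hnum : 2 * Fintype.card σ + Fintype.card τ ≤ ∑ i, q i + Z.card + 1)
    (A : Subalgebra k L) (hA : A.FG) (i₀ : σ)
    (V : Submodule k L) [FiniteDimensional k V] (X : ℕ → σ → L)
    (hX : ∀ m, Pt a Z A.toSubring (X m)) (hXp : ∀ m i, form (ap i) (X m) ≠ 0)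
    (h1 : ∀ m, X m i₀ = 1)
    (hP : ∀ m, ∃ δ : σ → L, (∃ j l, X m j * δ l - X m l * δ j ≠ 0) ∧
      ∀ j l, X m j * δ l - X m l * δ j ∈ V) :
    ∃ V' : Submodule k L, FiniteDimensional k V' ∧
      {m | ∃ G : L, G ≠ 0 ∧ ∀ l, G * X m l ∈ V'}.Infinite := by
  classical
  choose δ hδ hδV using hP
  obtain ⟨Ω, _, Q, hsurj, hker⟩ := ul_exists L
  have hQ : IsUl Q := ⟨hsurj, hker⟩
  have : CharZero Ω := by
    have hinj : Function.Injective (Q.comp (Pi.constRingHom ℕ L)) :=
      (Q.comp (Pi.constRingHom ℕ L)).injective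
    exact charZero_of_injective_ringHom hinj
  set x : σ → Ω := fun l => Q fun m => X m l with hx
  set e : σ → Ω := fun l => Q fun m => δ m l with he
  set P : σ → σ → Ω := fun j l => x j * e l - x l * e j with hPdef
  have hPQ : ∀ j l, P j l = Q fun m => X m j * δ m l - X m l * δ m j := by
    intro j l
    have h2 : (fun m => X m j * δ m l - X m l * δ m j) =
        (fun m => X m j) * (fun m => δ m l) - (fun m => X m l) * (fun m => δ m j) := rfl
    rw [h2, map_sub, map_mul, map_mul]
  have hPF : ∀ j l, P j l ∈ BF k hQ := by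
    intro j l
    rw [mem_BF]
    have h1V : (1 : L) ∈ V ⊔ k ∙ (1 : L) :=
      (le_sup_right : k ∙ (1 : L) ≤ V ⊔ k ∙ (1 : L)) (Submodule.mem_span_singleton_self _)
    refine bset_of_fd hQ (V ⊔ k ∙ (1 : L)) (fun m => X m j * δ m l - X m l * δ m j)
      (fun _ => 1) (Filter.Eventually.of_forall fun m => ?_)
      (Filter.Eventually.of_forall fun m => h1V)
      (Filter.Eventually.of_forall fun m => one_ne_zero) _ ?_
    · exact (le_sup_left : V ≤ V ⊔ k ∙ (1 : L)) (hδV m j l)
    · have h2 : (fun _ : ℕ => (1 : L)) = 1 := rfl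
      rw [hPQ, h2, map_one, mul_one]
  -- some two-vector entry is not zero
  have hP0 : ∃ j l, P j l ≠ 0 := by
    by_contra hcon
    push Not at hcon
    have h2 : ∀ᶠ m in (Filter.hyperfilter ℕ : Filter ℕ), ∀ j l,
        X m j * δ m l - X m l * δ m j = 0 := by
      rw [Filter.eventually_all]
      intro j
      rw [Filter.eventually_all]
      intro l
      have h3 := hcon j l
      rw [hPQ, hker] at h3
      exact h3
    obtain ⟨m, hm⟩ := h2.exists
    obtain ⟨j, l, hjl⟩ := hδ m
    exact hjl (hm j l)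
  have hx0 : x i₀ = 1 := by
    have h2 : (fun m => X m i₀) = 1 := by
      funext m
      exact h1 m
    show (Q fun m => X m i₀) = 1
    rw [h2, map_one]
  obtain ⟨b, hb⟩ : ∃ b, P i₀ b ≠ 0 := by
    by_contra hcon
    push Not at hcon
    have h2 : ∀ l, e l = x l * e i₀ := by
      intro l
      have h3 := hcon l
      simp only [hPdef, hx0, one_mul] at h3
      exact sub_eq_zero.1 h3
    obtain ⟨j, l, hjl⟩ := hP0
    apply hjl
    show x j * e l - x l * e j = 0
    rw [h2 l, h2 j]
    ring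
  set z : Ω := x b with hz
  set lam : Ω := (P i₀ b)⁻¹ with hlam
  have hlam0 : lam ≠ 0 := inv_ne_zero hb
  set u : σ → Ω := fun l => P l b with hu
  set v : σ → Ω := fun l => P i₀ l with hv
  have hxl : ∀ l, x l = lam * (u l + z * v l) := by
    intro l
    rw [hlam, eq_inv_mul_iff_mul_eq₀ hb]
    show (x i₀ * e b - x b * e i₀) * x l =
      (x l * e b - x b * e l) + x b * (x i₀ * e l - x l * e i₀)
    rw [hx0]
    ring
  have hform : ∀ i, form (fun J => Q fun _ => a i J) (fun l => u l + z * v l) * lam ^ d i =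
      Q fun m => form (a i) (X m) := by
    intro i
    rw [ul_Q_form]
    have h2 : (fun l => Q fun m => X m l) = fun l => lam * (u l + z * v l) := funext hxl
    rw [h2, dirTwo_form_mul, mul_comm]
  have hne : ∀ i ∉ Z, lf (fun J => Q fun _ => a i J) v u ≠ 0 := by
    intro i hi h0
    have h2 : (lf (fun J => Q fun _ => a i J) v u).reflect (d i) = 0 := by
      rw [h0, Polynomial.reflect_zero]
    rw [lf_reflect] at h2
    have h3 : (lf (fun J => Q fun _ => a i J) u v).eval z = 0 := by rw [h2, eval_zero]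
    rw [lf_eval] at h3
    have h4 := hform i
    rw [h3, zero_mul] at h4
    have h5 := (hker _).1 h4.symm
    obtain ⟨m, hm⟩ := h5.exists
    exact (hX m).ne i hi hm
  obtain ⟨n, hn⟩ := pbv_nat ((1 - C z * Polynomial.X) *
      ∏ i ∈ Zᶜ, lf (fun J => Q fun _ => a i J) v u) (by
    refine mul_ne_zero ?_ (Finset.prod_ne_zero_iff.2 fun i hi => hne i (Finset.mem_compl.1 hi))
    intro h0
    have h2 : (1 - C z * Polynomial.X : Polynomial Ω).eval 0 = 0 := by rw [h0, eval_zero]
    simp at h2)
  rw [eval_mul, eval_prod] at hn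
  have hn1 : 1 - n * z ≠ 0 := by
    have h2 := left_ne_zero_of_mul hn
    simp only [eval_sub, eval_one, eval_mul, eval_C, eval_X] at h2
    rwa [mul_comm]
  have hn2 : ∀ i ∉ Z, form (fun J => Q fun _ => a i J) (fun l => v l + n * u l) ≠ 0 := by
    intro i hi
    have h2 := Finset.prod_ne_zero_iff.1 (right_ne_zero_of_mul hn) i (Finset.mem_compl.2 hi)
    rwa [lf_eval] at h2
  have huF : ∀ l, u l ∈ BF k hQ := fun l => hPF l b
  have hvF : ∀ l, v l ∈ BF k hQ := fun l => hPF i₀ l
  have hnF : (n : Ω) ∈ BF k hQ := natCast_mem _ n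
  have halg : IsAlgebraic (BF k hQ) (z / (1 - n * z)) := by
    refine case_two hQ y a aA ap ah D hy jj θ hD hM Z hnum A hA X hX hXp u (fun l => v l + n * u l) huF
      (fun l => add_mem (hvF l) (mul_mem hnF (huF l))) i₀ b ?_ hn2 (lam * (1 - n * z)) _
      (mul_ne_zero hlam0 hn1) fun l => ?_
    · have h2 : u i₀ * (v b + n * u b) - u b * (v i₀ + n * u i₀) = P i₀ b ^ 2 := by
        have h3 : u b = 0 := by
          show x b * e b - x b * e b = 0
          ring
        rw [h3]
        show P i₀ b * (P i₀ b + n * 0) - 0 * _ = _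
        ring
      show u i₀ * (v b + n * u b) - u b * (v i₀ + n * u i₀) ≠ 0
      rw [h2]
      exact pow_ne_zero _ hb
    · show x l = _
      rw [hxl l, mul_assoc]
      congr 1
      exact pbv_alg1 _ _ _ _ hn1
  have hz' : z / (1 - n * z) ∈ BF k hQ := alg_bdd hQ y D hy _ halg
  have hzF : z ∈ BF k hQ := by
    rw [pbv_alg2 z n hn1]
    exact div_mem hz' (add_mem (one_mem _) (mul_mem hnF hz'))
  have hxF : ∀ l, x l ∈ bset k Q := by
    intro l
    rw [← mem_BF k hQ, hxl l]
    exact mul_mem (inv_mem (hPF i₀ b)) (add_mem (huF l) (mul_mem hzF (hvF l)))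
  obtain ⟨V', hV', nn, dd, hnn, hdd, hdd0, hxd⟩ := bset_common hQ x hxF
  refine ⟨V', hV', ?_⟩
  have hev : ∀ᶠ m in (Filter.hyperfilter ℕ : Filter ℕ), ∀ l, X m l * dd m = nn l m := by
    rw [Filter.eventually_all]
    intro l
    have h2 : Q ((fun m => X m l) * dd) = Q (nn l) := by
      rw [map_mul]
      exact hxd l
    exact (ul_eq Q hker _ _).1 h2
  intro hfin
  refine Filter.notMem_hyperfilter_of_finite hfin ?_
  filter_upwards [hev] with m hm
  refine ⟨dd m, hdd0 m, fun l => ?_⟩
  rw [mul_comm, hm l]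
  exact hnn l m

end Pool.Agent.Helper10.LV
end

/- Helper12.LVF.H10.LB.PointBdd -/
section
/-! # LB-PB: sequences of integral points with bounded two-vectors are bounded -/

set_option autoImplicit false

namespace Pool.Agent.Helper10.LB

open scoped BigOperators
open Polynomial Pool.Agent.Helper8.LG

/-- a nonzero polynomial does not vanish at some natural number -/
private theorem pb_nat {Ω : Type*} [Field Ω] [CharZero Ω] (p : Polynomial Ω) (hp : p ≠ 0) :
    ∃ n : ℕ, p.eval (n : Ω) ≠ 0 := by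
  by_contra h
  push Not at h
  apply hp
  refine Polynomial.eq_zero_of_infinite_isRoot p ?_
  exact Set.infinite_of_injective_forall_mem (f := fun n : ℕ => (n : Ω)) Nat.cast_injective
    fun n => h n

private theorem pb_alg1 {F : Type*} [Field F] (u v z n : F) (h : 1 - n * z ≠ 0) :
    u + z * v = (1 - n * z) * (u + z / (1 - n * z) * (v + n * u)) := by
  have h1 : (1 - n * z) * (z / (1 - n * z)) = z := mul_div_cancel₀ z h
  linear_combination -(v + n * u) * h1

private theorem pb_alg2 {F : Type*} [Field F] (z n : F) (h : 1 - n * z ≠ 0) :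
    z = z / (1 - n * z) / (1 + n * (z / (1 - n * z))) := by
  have h1 : (1 - n * z) * (z / (1 - n * z)) = z := mul_div_cancel₀ z h
  generalize z / (1 - n * z) = t at h1 ⊢
  have h2 : 1 + n * t ≠ 0 := by
    intro h0
    have h3 : t = 0 := by linear_combination h1 + z * h0
    rw [h3, mul_zero, add_zero] at h0
    exact one_ne_zero h0
  rw [eq_div_iff h2]
  linear_combination -h1

/-- `G x_l` is in a finite-dimensional space for infinitely many members of the sequence -/
theorem point_bdd {k L : Type*} [Field k] [Field L] [CharZero L] [Algebra k L]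
    {T : Type*} [Finite T] [DecidableEq T] (y : T → L)
    {σ ι τ : Type*} [Fintype σ] [DecidableEq σ]
    [Fintype ι] [DecidableEq ι] [Fintype τ] {d : ι → ℕ} (hd : ∀ i, 0 < d i)
    (a : (i : ι) → Sym σ (d i) → L) (D : Ix σ d → Derivation ℤ L L) (hy : Dirs k y D)
    (jj : τ → Ix σ d) (θ : τ → Ix σ d → L) (hD : Dual d a D jj θ) (Z : Finset ι)
    (hnum : 2 * Fintype.card σ + Fintype.card τ ≤ ∑ i, d i + Z.card + 1)
    (A : Subalgebra k L) (hA : A.FG) (i₀ : σ)
    (V : Submodule k L) [FiniteDimensional k V] (X : ℕ → σ → L)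
    (hX : ∀ m, Pt a Z A.toSubring (X m)) (h1 : ∀ m, X m i₀ = 1)
    (hP : ∀ m, ∃ δ : σ → L, (∃ j l, X m j * δ l - X m l * δ j ≠ 0) ∧
      ∀ j l, X m j * δ l - X m l * δ j ∈ V) :
    ∃ V' : Submodule k L, FiniteDimensional k V' ∧
      {m | ∃ G : L, G ≠ 0 ∧ ∀ l, G * X m l ∈ V'}.Infinite := by
  classical
  choose δ hδ hδV using hP
  obtain ⟨Ω, _, Q, hsurj, hker⟩ := ul_exists L
  have hQ : IsUl Q := ⟨hsurj, hker⟩
  have : CharZero Ω := by
    have hinj : Function.Injective (Q.comp (Pi.constRingHom ℕ L)) :=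
      (Q.comp (Pi.constRingHom ℕ L)).injective
    exact charZero_of_injective_ringHom hinj
  set x : σ → Ω := fun l => Q fun m => X m l with hx
  set e : σ → Ω := fun l => Q fun m => δ m l with he
  set P : σ → σ → Ω := fun j l => x j * e l - x l * e j with hPdef
  have hPQ : ∀ j l, P j l = Q fun m => X m j * δ m l - X m l * δ m j := by
    intro j l
    have h2 : (fun m => X m j * δ m l - X m l * δ m j) =
        (fun m => X m j) * (fun m => δ m l) - (fun m => X m l) * (fun m => δ m j) := rfl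
    rw [h2, map_sub, map_mul, map_mul]
  have hPF : ∀ j l, P j l ∈ BF k hQ := by
    intro j l
    rw [mem_BF]
    have h1V : (1 : L) ∈ V ⊔ k ∙ (1 : L) :=
      (le_sup_right : k ∙ (1 : L) ≤ V ⊔ k ∙ (1 : L)) (Submodule.mem_span_singleton_self _)
    refine bset_of_fd hQ (V ⊔ k ∙ (1 : L)) (fun m => X m j * δ m l - X m l * δ m j)
      (fun _ => 1) (Filter.Eventually.of_forall fun m => ?_)
      (Filter.Eventually.of_forall fun m => h1V)
      (Filter.Eventually.of_forall fun m => one_ne_zero) _ ?_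
    · exact (le_sup_left : V ≤ V ⊔ k ∙ (1 : L)) (hδV m j l)
    · have h2 : (fun _ : ℕ => (1 : L)) = 1 := rfl
      rw [hPQ, h2, map_one, mul_one]
  -- some two-vector entry is not zero
  have hP0 : ∃ j l, P j l ≠ 0 := by
    by_contra hcon
    push Not at hcon
    have h2 : ∀ᶠ m in (Filter.hyperfilter ℕ : Filter ℕ), ∀ j l,
        X m j * δ m l - X m l * δ m j = 0 := by
      rw [Filter.eventually_all]
      intro j
      rw [Filter.eventually_all]
      intro l
      have h3 := hcon j l
      rw [hPQ, hker] at h3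
      exact h3
    obtain ⟨m, hm⟩ := h2.exists
    obtain ⟨j, l, hjl⟩ := hδ m
    exact hjl (hm j l)
  have hx0 : x i₀ = 1 := by
    have h2 : (fun m => X m i₀) = 1 := by
      funext m
      exact h1 m
    show (Q fun m => X m i₀) = 1
    rw [h2, map_one]
  obtain ⟨b, hb⟩ : ∃ b, P i₀ b ≠ 0 := by
    by_contra hcon
    push Not at hcon
    have h2 : ∀ l, e l = x l * e i₀ := by
      intro l
      have h3 := hcon l
      simp only [hPdef, hx0, one_mul] at h3
      exact sub_eq_zero.1 h3
    obtain ⟨j, l, hjl⟩ := hP0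
    apply hjl
    show x j * e l - x l * e j = 0
    rw [h2 l, h2 j]
    ring
  set z : Ω := x b with hz
  set lam : Ω := (P i₀ b)⁻¹ with hlam
  have hlam0 : lam ≠ 0 := inv_ne_zero hb
  set u : σ → Ω := fun l => P l b with hu
  set v : σ → Ω := fun l => P i₀ l with hv
  have hxl : ∀ l, x l = lam * (u l + z * v l) := by
    intro l
    rw [hlam, eq_inv_mul_iff_mul_eq₀ hb]
    show (x i₀ * e b - x b * e i₀) * x l =
      (x l * e b - x b * e l) + x b * (x i₀ * e l - x l * e i₀)
    rw [hx0]
    ring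
  have hform : ∀ i, form (fun J => Q fun _ => a i J) (fun l => u l + z * v l) * lam ^ d i =
      Q fun m => form (a i) (X m) := by
    intro i
    rw [ul_Q_form]
    have h2 : (fun l => Q fun m => X m l) = fun l => lam * (u l + z * v l) := funext hxl
    rw [h2, dirTwo_form_mul, mul_comm]
  have hne : ∀ i ∉ Z, lf (fun J => Q fun _ => a i J) v u ≠ 0 := by
    intro i hi h0
    have h2 : (lf (fun J => Q fun _ => a i J) v u).reflect (d i) = 0 := by
      rw [h0, Polynomial.reflect_zero]
    rw [lf_reflect] at h2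
    have h3 : (lf (fun J => Q fun _ => a i J) u v).eval z = 0 := by rw [h2, eval_zero]
    rw [lf_eval] at h3
    have h4 := hform i
    rw [h3, zero_mul] at h4
    have h5 := (hker _).1 h4.symm
    obtain ⟨m, hm⟩ := h5.exists
    exact (hX m).ne i hi hm
  obtain ⟨n, hn⟩ := pb_nat ((1 - C z * Polynomial.X) *
      ∏ i ∈ Zᶜ, lf (fun J => Q fun _ => a i J) v u) (by
    refine mul_ne_zero ?_ (Finset.prod_ne_zero_iff.2 fun i hi => hne i (Finset.mem_compl.1 hi))
    intro h0
    have h2 : (1 - C z * Polynomial.X : Polynomial Ω).eval 0 = 0 := by rw [h0, eval_zero]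
    simp at h2)
  rw [eval_mul, eval_prod] at hn
  have hn1 : 1 - n * z ≠ 0 := by
    have h2 := left_ne_zero_of_mul hn
    simp only [eval_sub, eval_one, eval_mul, eval_C, eval_X] at h2
    rwa [mul_comm]
  have hn2 : ∀ i ∉ Z, form (fun J => Q fun _ => a i J) (fun l => v l + n * u l) ≠ 0 := by
    intro i hi
    have h2 := Finset.prod_ne_zero_iff.1 (right_ne_zero_of_mul hn) i (Finset.mem_compl.2 hi)
    rwa [lf_eval] at h2
  have huF : ∀ l, u l ∈ BF k hQ := fun l => hPF l b
  have hvF : ∀ l, v l ∈ BF k hQ := fun l => hPF i₀ l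
  have hnF : (n : Ω) ∈ BF k hQ := natCast_mem _ n
  have halg : IsAlgebraic (BF k hQ) (z / (1 - n * z)) := by
    refine case_two hQ y hd a D hy jj θ hD Z hnum A hA X hX u (fun l => v l + n * u l) huF
      (fun l => add_mem (hvF l) (mul_mem hnF (huF l))) i₀ b ?_ hn2 (lam * (1 - n * z)) _
      (mul_ne_zero hlam0 hn1) fun l => ?_
    · have h2 : u i₀ * (v b + n * u b) - u b * (v i₀ + n * u i₀) = P i₀ b ^ 2 := by
        have h3 : u b = 0 := by
          show x b * e b - x b * e b = 0
          ring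
        rw [h3]
        show P i₀ b * (P i₀ b + n * 0) - 0 * _ = _
        ring
      show u i₀ * (v b + n * u b) - u b * (v i₀ + n * u i₀) ≠ 0
      rw [h2]
      exact pow_ne_zero _ hb
    · show x l = _
      rw [hxl l, mul_assoc]
      congr 1
      exact pb_alg1 _ _ _ _ hn1
  have hz' : z / (1 - n * z) ∈ BF k hQ := alg_bdd hQ y D hy _ halg
  have hzF : z ∈ BF k hQ := by
    rw [pb_alg2 z n hn1]
    exact div_mem hz' (add_mem (one_mem _) (mul_mem hnF hz'))
  have hxF : ∀ l, x l ∈ bset k Q := by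
    intro l
    rw [← mem_BF k hQ, hxl l]
    exact mul_mem (inv_mem (hPF i₀ b)) (add_mem (huF l) (mul_mem hzF (hvF l)))
  obtain ⟨V', hV', nn, dd, hnn, hdd, hdd0, hxd⟩ := bset_common hQ x hxF
  refine ⟨V', hV', ?_⟩
  have hev : ∀ᶠ m in (Filter.hyperfilter ℕ : Filter ℕ), ∀ l, X m l * dd m = nn l m := by
    rw [Filter.eventually_all]
    intro l
    have h2 : Q ((fun m => X m l) * dd) = Q (nn l) := by
      rw [map_mul]
      exact hxd l
    exact (ul_eq Q hker _ _).1 h2
  intro hfin
  refine Filter.notMem_hyperfilter_of_finite hfin ?_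
  filter_upwards [hev] with m hm
  refine ⟨dd m, hdd0 m, fun l => ?_⟩
  rw [mul_comm, hm l]
  exact hnn l m

end Pool.Agent.Helper10.LB
end

/- Helper10.LB.SecZ -/
section
/-! # LB-SZ: schemes of finite type over a finitely generated ring -/

set_option autoImplicit false

open AlgebraicGeometry CategoryTheory CategoryTheory.Limits

namespace Pool.Agent.Helper10.LB

open Pool.Agent.Helper8.LG

universe u

/-- copy of `Helper8.LG.exists_affine_ft` over `ℤ` -/
theorem exists_affine_ftZ (R : CommRingCat.{u}) [Algebra.FiniteType ℤ R] {B : Scheme.{u}}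
    [IsIntegral B] (s : B ⟶ Spec R) [LocallyOfFiniteType s] [CharZero B.functionField] :
    ∃ (V : B.Opens) (_ : Nonempty V), IsAffineOpen V ∧
      (∃ A : Subalgebra ℤ B.functionField, A.FG ∧
        ∀ b : Γ(B, V), B.germToFunctionField V b ∈ A) ∧
      (⊤ : IntermediateField ℚ B.functionField).FG := by
  classical
  obtain ⟨_, ⟨V, hV, rfl⟩, hmem, -⟩ :=
    B.isBasis_affineOpens.exists_subset_of_mem_open (Set.mem_univ (genericPoint B)) isOpen_univ
  have hV' : IsAffineOpen V := hV
  have hne : Nonempty V := ⟨⟨_, hmem⟩⟩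
  have e : V ≤ s ⁻¹ᵁ ⊤ := le_top
  have hft : (s.appLE ⊤ V e).hom.FiniteType :=
    s.finiteType_appLE (isAffineOpen_top (Spec R)) hV' e
  have hft2 : ((s.appLE ⊤ V e).hom.comp (Scheme.ΓSpecIso R).inv.hom).FiniteType := by
    apply RingHom.FiniteType.comp hft
    apply RingHom.FiniteType.of_surjective
    exact (ConcreteCategory.bijective_of_isIso (Scheme.ΓSpecIso R).inv).2
  have hR : (algebraMap ℤ R).FiniteType :=
    RingHom.finiteType_algebraMap.2 inferInstance
  have hft3 := hft2.comp hR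
  have hZ : ((s.appLE ⊤ V e).hom.comp (Scheme.ΓSpecIso R).inv.hom).comp (algebraMap ℤ R) =
      algebraMap ℤ Γ(B, V) := RingHom.ext_int _ _
  rw [hZ] at hft3
  have hft4 : Algebra.FiniteType ℤ Γ(B, V) := RingHom.finiteType_algebraMap.1 hft3
  obtain ⟨T, hT⟩ := hft4.out
  let γ : Γ(B, V) →+* B.functionField := (B.germToFunctionField V).hom
  let A : Subalgebra ℤ B.functionField := Algebra.adjoin ℤ ((T.image γ : Finset _) : Set _)
  have hA : ∀ b : Γ(B, V), γ b ∈ A := by
    intro b
    have hb : b ∈ Algebra.adjoin ℤ (T : Set Γ(B, V)) := by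
      rw [hT]; trivial
    induction hb using Algebra.adjoin_induction with
    | mem x hx =>
      apply Algebra.subset_adjoin
      simp only [Finset.coe_image]
      exact ⟨x, hx, rfl⟩
    | algebraMap r =>
      have h1 : γ (algebraMap ℤ Γ(B, V) r) = algebraMap ℤ B.functionField r := by
        simp
      rw [h1]
      exact A.algebraMap_mem r
    | add x y _ _ hx hy => rw [map_add]; exact A.add_mem hx hy
    | mul x y _ _ hx hy => rw [map_mul]; exact A.mul_mem hx hy
  refine ⟨V, hne, hV', ⟨A, ⟨_, rfl⟩, hA⟩, ⟨T.image γ, ?_⟩⟩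
  rw [eq_top_iff]
  intro x _
  have := functionField_isFractionRing_of_isAffineOpen B V hV'
  obtain ⟨a, b, -, hx⟩ := IsFractionRing.div_surjective (A := Γ(B, V)) x
  have hsub : ∀ c : Γ(B, V), γ c ∈ IntermediateField.adjoin ℚ
      ((T.image γ : Finset _) : Set B.functionField) := by
    intro c
    have hc : γ c ∈ Algebra.adjoin ℤ ((T.image γ : Finset _) : Set B.functionField) := hA c
    generalize γ c = z at hc
    induction hc using Algebra.adjoin_induction with
    | mem x hx => exact IntermediateField.subset_adjoin ℚ _ hx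
    | algebraMap r =>
      have h1 : algebraMap ℤ B.functionField r = ((r : ℤ) : B.functionField) := by simp
      rw [h1]
      exact intCast_mem _ r
    | add x y _ _ hx hy => exact add_mem hx hy
    | mul x y _ _ hx hy => exact mul_mem hx hy
  rw [← hx]
  exact IntermediateField.div_mem _ (hsub a) (hsub b)

end Pool.Agent.Helper10.LB
end
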