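import Pool.Agent.Helper12.LVM.C02
import Pool.Agent.Helper12.LVM.C09
import Pool.Agent.Helper12.LVM.C10
import Pool.Agent.Helper12.LVM.C11
import Pool.Agent.Helper12.LVM.C12

/- Helper12.LVF.H49.LV.FinalLine -/
section
/-!
# Rational points of the intersection of all the hypersurfaces, over fields

Moving linear systems.
-/

set_option autoImplicit false

namespace Pool.Agent.Helper49.LV

open scoped BigOperators
open Pool.Agent.Helper8.LG
open Pool.Agent.Helper8.LV (Fam Mov Over over_tower)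
open Pool.Agent.Helper49.LG (lineP lineP_eval line_finite)

/-- **Rational points of the intersection**, normalised, over fields. -/
theorem final_line {k₀ L : Type*} [Field k₀] [Field L] [CharZero L] [Algebra k₀ L]
    (hfg : (⊤ : IntermediateField k₀ L).FG)
    {σ ι : Type*} [Fintype σ] [DecidableEq σ] [Fintype ι] [DecidableEq ι]
    (d b q : ι → ℕ) (hq : ∀ i, 0 < q i) (a aA : (i : ι) → Sym σ (d i) → L)
    (ap : (i : ι) → Sym σ (b i) → L) (ah : (i : ι) → Sym σ (q i) → L)
    (hFam : Fam d b q a aA ap ah) (hAk : Over k₀ aA) (hpk : Over k₀ ap) (w c : ℕ)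
    (hc : (Fintype.card (Ix σ q) : Cardinal) ≤ Algebra.trdeg k₀
      (IntermediateField.adjoin k₀ (Set.range fun p : Ix σ q => ah p.1 p.2)) + c)
    (i₀ : σ) (hw1 : 2 * w + 1 + c ≤ ∑ i, (q i + 1)) (hw2 : w + 2 ≤ ∑ i, q i)
    (hw3 : 2 * Fintype.card σ + c ≤ ∑ i, (q i + 1) + 3) :
    {x : σ → L | x i₀ = 1 ∧
      Algebra.trdeg k₀ (IntermediateField.adjoin k₀ (Set.range x)) ≤ w ∧
      (∀ i, form (ap i) x ≠ 0) ∧ ∀ i, form (a i) x = 0}.Finite := by
  classical
  by_cases hj : ∀ j, j = i₀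
  · refine Set.Subsingleton.finite ?_
    rintro x ⟨h1, -⟩ y ⟨h2, -⟩
    funext l
    rw [hj l, h1, h2]
  push Not at hj
  obtain ⟨j₁, hj⟩ := hj
  obtain ⟨T, k, hT, hind, hfin, D, θ, hD, hDk⟩ := reduce hfg q ah c hc
  have hAk' : Over k aA := over_tower hAk
  have hpk' : Over k ap := over_tower hpk
  obtain ⟨V, hV, hVb⟩ := bounded_pt d b q hq a aA ap ah hFam hAk' hpk' T hind hfin D
    (fun j => j.1) θ hD (fun j => j.2) hDk i₀ j₁ hj w (by omega) hw2 (by omega)
  have := hV
  by_contra hinf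
  rw [← Set.Infinite] at hinf
  set S : Set (σ → L) := {x : σ → L | x i₀ = 1 ∧
      Algebra.trdeg k₀ (IntermediateField.adjoin k₀ (Set.range x)) ≤ w ∧
      (∀ i, form (ap i) x ≠ 0) ∧ ∀ i, form (a i) x = 0} with hS
  have hrank : ∀ x ∈ S, MinorsVanish D x w := by
    rintro x ⟨h1, h2, -⟩
    refine minors_of_trdeg (k := k₀) D ?_ x i₀ h1 w h2
    intro p r
    have h7 : algebraMap k₀ L r = algebraMap k L (algebraMap k₀ k r) :=
      IsScalarTower.algebraMap_apply k₀ k L r
    rw [h7]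
    exact hDk p _
  obtain ⟨α, β, u, v, hαβ, huα, huβ, hvα, hvβ, hline⟩ := ultra_line (k := k) d b q hq a aA ap ah
    hFam hAk' hpk' D (fun j => j.1) θ hD hDk Finset.univ i₀ j₁ hj w (by
      rw [Finset.sum_add_distrib, Finset.sum_const, smul_eq_mul, mul_one] at hw1
      omega) hw2 V S hinf (by
      intro x hx
      have hx' := hx
      obtain ⟨h1, h2, hP, h3⟩ := hx'
      obtain ⟨G, hG0, hG⟩ := hVb x h1 h3 hP (hrank x hx)
      exact ⟨h1, fun i _ => h3 i, fun i hi => absurd (Finset.mem_univ i) hi, hP, hrank x hx, G, hG0,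
        hG, fun i hi => absurd (Finset.mem_univ i) hi⟩)
  obtain ⟨y, hyS, hy⟩ := hline.nonempty
  obtain ⟨-, -, hPy, -⟩ := hyS
  obtain ⟨i, n, hin⟩ := gen_line d b q a aA ap ah D (fun j => j.1) θ hD
    (hFam.mov (k := k) hAk' hpk' D hDk) α β hαβ u v huα huβ hvα hvβ y hy hPy (by omega)
  have hF : lineP (a i) u v ≠ 0 := by
    intro h0
    apply hin
    rw [← lineP_eval, h0, Polynomial.eval_zero]
  refine hline ((line_finite (a i) α β i₀ u v hF).subset ?_)
  rintro x ⟨⟨h1, _, _, h3⟩, h4⟩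
  exact ⟨h1, h3 i, h4⟩

end Pool.Agent.Helper49.LV
end

/- Helper12.LVF.H8.LV.EngA -/
section
/-! # LV-ENGA: the A' engine in terms of polynomials -/

set_option autoImplicit false

open MvPolynomial

namespace Pool.Agent.Helper8.LV

open scoped BigOperators
open Pool.Agent.Helper8.LG

/-- the A' engine: polynomials, several multipliers, normalised points -/
theorem eng_A {k₀ L : Type*} [Field k₀] [Field L] [CharZero L] [Algebra k₀ L]
    (hfg : (⊤ : IntermediateField k₀ L).FG) {N r s : ℕ} (d q : Fin r → ℕ)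
    (b : Fin r → Fin s → ℕ) (hq : ∀ i, 0 < q i) (hbq : ∀ i j, b i j + q i ≤ d i)
    (F : Fin r → MvPolynomial (Fin (N + 1)) L)
    (A : Fin r → MvPolynomial (Fin (N + 1)) k₀) (hA : ∀ i, (A i).IsHomogeneous (d i))
    (P : Fin r → Fin s → MvPolynomial (Fin (N + 1)) k₀)
    (hP : ∀ i j, (P i j).IsHomogeneous (b i j))
    (H : Fin r → Fin s → MvPolynomial (Fin (N + 1)) L)
    (hH : ∀ i j, (H i j).IsHomogeneous (d i - b i j))
    (hFA : ∀ i, F i = map (algebraMap k₀ L) (A i) + ∑ j, map (algebraMap k₀ L) (P i j) * H i j)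
    (w c : ℕ)
    (hcoef : ((∑ i, ∑ j, (N + (d i - b i j)).choose N : ℕ) : Cardinal) ≤
      Algebra.trdeg k₀ (IntermediateField.adjoin k₀ {z | ∃ i j J, z = coeff J (H i j)}) + c)
    (h1 : 2 * w + 1 + c ≤ ∑ i, (q i + 1)) (h2 : w + 2 ≤ ∑ i, q i)
    (h3 : 2 * N + c ≤ ∑ i, (q i + 1) + 1) (i₀ : Fin (N + 1)) :
    {x : Fin (N + 1) → L | x i₀ = 1 ∧
      Algebra.trdeg k₀ (IntermediateField.adjoin k₀ (Set.range x)) ≤ w ∧
      (∀ i, ∃ j, aeval x (P i j) ≠ 0) ∧ ∀ i, eval x (F i) = 0}.Finite := by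
  classical
  have hdF : ∀ i, (∃ j : Fin s, True) → (F i).IsHomogeneous (d i) := by
    rintro i ⟨j, -⟩
    rw [hFA i]
    refine ((hA i).map _).add (IsHomogeneous.sum _ _ _ fun j _ => ?_)
    have h1 := ((hP i j).map (algebraMap k₀ L)).mul (hH i j)
    rwa [Nat.add_sub_cancel' ((Nat.le_add_right _ _).trans (hbq i j))] at h1
  have hmulti := multi d b (fun i j => (Nat.le_add_right _ _).trans (hbq i j)) A hA P hP H hH c
    hcoef {x : Fin (N + 1) → L | x i₀ = 1 ∧
      Algebra.trdeg k₀ (IntermediateField.adjoin k₀ (Set.range x)) ≤ w ∧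
      ∀ i, eval x (F i) = 0} ?_
  · refine hmulti.subset ?_
    rintro x ⟨h1, h2, h3, h4⟩
    exact ⟨⟨h1, h2, h4⟩, h3⟩
  intro k j A' hA' hFA' hcoef'
  -- the field over `k`
  have hkfg : (⊤ : IntermediateField k L).FG := fg_tower k hfg
  -- the data
  obtain ⟨q', hq'⟩ : ∃ q' : Fin r → ℕ, q' = fun i => d i - b i (j i) := ⟨_, rfl⟩
  have hdb : ∀ i, d i = b i (j i) + q' i := by
    intro i
    have := hbq i (j i)
    rw [hq']
    simp only
    omega
  have hqq : ∀ i, q i ≤ q' i := by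
    intro i
    have := hbq i (j i)
    rw [hq']
    simp only
    omega
  have hFam : Fam d (fun i => b i (j i)) q' (fun i => cf (d i) (F i))
      (fun i => cf (d i) (map (algebraMap k L) (A' i)))
      (fun i => cf (b i (j i)) (map (algebraMap k L) (map (algebraMap k₀ k) (P i (j i)))))
      fun i => cf (q' i) (H i (j i)) := by
    refine fam_poly d (fun i => b i (j i)) q' hdb F A' (fun i => map (algebraMap k₀ k) (P i (j i)))
      (fun i => H i (j i)) (fun i => (hP i (j i)).map _) (fun i => ?_) (fun i => ?_)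
    · rw [hq']
      exact hH i (j i)
    · rw [hFA i, hFA' i, map_map, ← IsScalarTower.algebraMap_eq]
  have hform : ∀ (x : Fin (N + 1) → L) i, form (cf (d i) (F i)) x = eval x (F i) := fun x i =>
    form_cf _ (hdF i ⟨j i, trivial⟩) x
  have hformP : ∀ (x : Fin (N + 1) → L) i,
      form (cf (b i (j i)) (map (algebraMap k L) (map (algebraMap k₀ k) (P i (j i))))) x
        = aeval x (P i (j i)) := by
    intro x i
    rw [form_poly _ ((hP i (j i)).map _), aeval_map_algebraMap]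
  have hs1 : ∑ i, (q i + 1) ≤ ∑ i, (q' i + 1) :=
    Finset.sum_le_sum fun i _ => Nat.add_le_add_right (hqq i) 1
  have hs2 : ∑ i, q i ≤ ∑ i, q' i := Finset.sum_le_sum fun i _ => hqq i
  have hfin := Pool.Agent.Helper49.LV.final_line hkfg d (fun i => b i (j i)) q'
    (fun i => (hq i).trans_le (hqq i)) (fun i => cf (d i) (F i)) _ _ _ hFam
    (over_poly d A') (over_poly (fun i => b i (j i)) _) w c (by
      rw [card_Ix, ← adjoin_poly k q' (fun i => H i (j i)) (fun i => ?_)]
      · rw [hq']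
        exact hcoef'
      · rw [hq']
        exact hH i (j i)) i₀ (h1.trans hs1) (h2.trans hs2) (by
      rw [Fintype.card_fin]
      omega)
  refine hfin.subset ?_
  rintro x ⟨⟨h4, h5, h6⟩, h7⟩
  refine ⟨h4, (trdeg_mono' k _).trans h5, fun i => ?_, fun i => ?_⟩
  · rw [hformP]
    exact h7 i
  · rw [hform]
    exact h6 i

end Pool.Agent.Helper8.LV
end

/- Helper12.LVF.H10.LB.InfLine -/
section
/-! # LB-IL: infinitely many integral points on one line -/

set_option autoImplicit false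

namespace Pool.Agent.Helper10.LB

open scoped BigOperators
open Pool.Agent.Helper8.LG

/-- minors with more rows than coordinates -/
theorem minors_top {E P σ : Type*} [Field E] [Fintype σ] (D : P → Derivation ℤ E E)
    (x : σ → E) (w : ℕ) (hw : Fintype.card σ ≤ w + 1) : MinorsVanish D x w := by
  intro r c
  have hni : ¬ Function.Injective r := by
    intro hinj
    have h1 := Fintype.card_le_of_injective r hinj
    rw [Fintype.card_fin] at h1
    omega
  rw [Function.Injective] at hni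
  push Not at hni
  obtain ⟨s, s', hss, hne⟩ := hni
  refine Matrix.det_zero_of_row_eq hne ?_
  funext t
  simp only [Matrix.of_apply, hss]

private theorem ilDual {L σ ι τ : Type*} [Field L] [DecidableEq σ] [DecidableEq ι] [Fintype τ]
    (d : ι → ℕ) (a : (i : ι) → Sym σ (d i) → L)
    (D : Ix σ d → Derivation ℤ L L) (jj : τ → Ix σ d) (θ : τ → Ix σ d → L)
    (hD : Dual d a D jj θ) (T : Finset (Ix σ d)) (hT : ∀ j, jj j ∉ T) (q : Ix σ d) (p : T) :
    D q (a p.1.1 p.1.2) = if q = p.1 then 1 else 0 := by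
  have h := hD q p.1
  rw [Finset.sum_eq_zero, sub_zero] at h
  · exact h
  · intro j _
    rw [if_neg]
    rintro h1
    exact hT j (h1 ▸ p.2)

/-- the data of `Helper8.LG.reduce` give `Dirs` -/
theorem dirs_of_dual {k L : Type*} [Field k] [Field L] [Algebra k L]
    {σ ι τ : Type*} [Fintype σ] [DecidableEq σ] [Fintype ι] [DecidableEq ι] [Fintype τ]
    (d : ι → ℕ) (a : (i : ι) → Sym σ (d i) → L) (T : Finset (Ix σ d))
    (hind : AlgebraicIndependent k (fun p : T => a p.1.1 p.1.2))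
    (hfin : FiniteDimensional
      (IntermediateField.adjoin k (Set.range fun p : T => a p.1.1 p.1.2)) L)
    (D : Ix σ d → Derivation ℤ L L) (jj : τ → Ix σ d) (θ : τ → Ix σ d → L)
    (hD : Dual d a D jj θ) (hT : ∀ j, jj j ∉ T)
    (hDk : ∀ p (c : k), D p (algebraMap k L c) = 0) :
    Dirs k (fun p : T => a p.1.1 p.1.2) D := by
  refine ⟨hind, hfin, hDk, fun q p => ?_, fun p => ⟨p.1, fun q => ?_⟩⟩
  · rw [ilDual d a D jj θ hD T hT q p]
    split_ifs
    · exact ⟨1, by rw [Int.cast_one]⟩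
    · exact ⟨0, by rw [Int.cast_zero]⟩
  · rw [ilDual d a D jj θ hD T hT p.1 q]
    by_cases h : q = p
    · rw [if_pos h, if_pos (by rw [h])]
    · rw [if_neg h, if_neg fun h' => h (Subtype.ext h'.symm)]

/-- **An infinite set of integral points has infinitely many points on one line.** -/
theorem inf_line {k L : Type*} [Field k] [Field L] [CharZero L] [Algebra k L]
    {σ ι τ : Type*} [Fintype σ] [DecidableEq σ] [Fintype ι] [DecidableEq ι] [Fintype τ]
    (d : ι → ℕ) (hd : ∀ i, 0 < d i) (a : (i : ι) → Sym σ (d i) → L) (T : Finset (Ix σ d))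
    (hind : AlgebraicIndependent k (fun p : T => a p.1.1 p.1.2))
    (hfin : FiniteDimensional
      (IntermediateField.adjoin k (Set.range fun p : T => a p.1.1 p.1.2)) L)
    (D : Ix σ d → Derivation ℤ L L) (jj : τ → Ix σ d) (θ : τ → Ix σ d → L)
    (hD : Dual d a D jj θ) (hT : ∀ j, jj j ∉ T)
    (hDk : ∀ p (c : k), D p (algebraMap k L c) = 0)
    (Z : Finset ι) (i₀ j₁ : σ) (hj : j₁ ≠ i₀)
    (hw1 : 2 * Fintype.card σ + Fintype.card τ ≤ ∑ i, d i + Z.card + 1)
    (hw2 : Fintype.card σ + 1 ≤ ∑ i, d i)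
    (A : Subalgebra k L) (hA : A.FG) (S : Set (σ → L)) (hinf : S.Infinite)
    (hS : ∀ x ∈ S, x i₀ = 1 ∧ Pt a Z A.toSubring x) :
    ∃ (α β : σ) (p q : σ → L), α ≠ β ∧ p α = 1 ∧ p β = 0 ∧ q α = 0 ∧ q β = 1 ∧
      {x ∈ S | ∀ l, x l = x α * p l + x β * q l}.Infinite := by
  classical
  have hσ : 0 < Fintype.card σ := Fintype.card_pos_iff.2 ⟨i₀⟩
  set w : ℕ := Fintype.card σ - 1 with hw
  have hwσ : w + 1 = Fintype.card σ := by omega
  have hw1' : 2 * w + 1 + Fintype.card τ ≤ ∑ i, d i + Z.card := by omega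
  have hw2' : w + 2 ≤ ∑ i, d i := by omega
  have hmin : ∀ x : σ → L, MinorsVanish D x w := fun x => minors_top D x w (by omega)
  obtain ⟨V, hVfin, hV⟩ := Pool.Agent.Helper49.LG.bounded_line d hd a T hind hfin D jj θ hD hT
    hDk Z i₀ j₁ hj w hw1' hw2' A hA
  set X : ℕ → σ → L := fun m => (hinf.natEmbedding S m : σ → L) with hX
  have hXS : ∀ m, X m ∈ S := fun m => (hinf.natEmbedding S m).2
  have hXi : Function.Injective X := fun u v huv =>
    (hinf.natEmbedding S).injective (Subtype.ext huv)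
  have hX1 : ∀ m, X m i₀ = 1 := fun m => (hS _ (hXS m)).1
  have hXp : ∀ m, Pt a Z A.toSubring (X m) := fun m => (hS _ (hXS m)).2
  have hP : ∀ m, ∃ δ : σ → L, (∃ j l, X m j * δ l - X m l * δ j ≠ 0) ∧
      ∀ j l, X m j * δ l - X m l * δ j ∈ V := fun m =>
    hV (X m) (hX1 m) (hXp m).zero (hXp m).ne (hXp m).int (hmin _)
  have hdir : Dirs k (fun p : T => a p.1.1 p.1.2) D :=
    dirs_of_dual d a T hind hfin D jj θ hD hT hDk
  obtain ⟨V', hV'fin, hV'⟩ := point_bdd (fun p : T => a p.1.1 p.1.2) hd a D hdir jj θ hD Z hw1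
    A hA i₀ V X hXp hX1 hP
  obtain ⟨V'', hV''fin, hV''⟩ := second_round (fun p : T => a p.1.1 p.1.2) D hdir a Z A hA V'
  have hinf1 : (X '' {m | ∃ G : L, G ≠ 0 ∧ ∀ l, G * X m l ∈ V'}).Infinite :=
    hV'.image hXi.injOn
  obtain ⟨α, β, p, q, hαβ, hpα, hpβ, hqα, hqβ, hline⟩ :=
    Pool.Agent.Helper49.LG.ultra_line d hd a D jj θ hD hDk Z i₀ j₁ hj w hw1' hw2' (V' ⊔ V'')
      (X '' {m | ∃ G : L, G ≠ 0 ∧ ∀ l, G * X m l ∈ V'}) hinf1 (by
        rintro _ ⟨m, ⟨G, hG0, hG⟩, rfl⟩
        refine ⟨hX1 m, (hXp m).zero, (hXp m).ne, hmin _, G, hG0, fun l => ?_, fun i hi J => ?_⟩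
        · exact Submodule.mem_sup_left (hG l)
        · exact Submodule.mem_sup_right (hV'' (X m) G (hXp m) hG0 hG i hi J))
  refine ⟨α, β, p, q, hαβ, hpα, hpβ, hqα, hqβ, hline.mono ?_⟩
  rintro _ ⟨⟨m, _, rfl⟩, hx⟩
  exact ⟨hXS m, hx⟩

end Pool.Agent.Helper10.LB
end

/- Helper12.LVF.H10.LV.InfLine -/
section
/-! # LV-IL: infinitely many integral points on one line -/

set_option autoImplicit false

namespace Pool.Agent.Helper10.LV

open scoped BigOperators
open Pool.Agent.Helper8.LG Pool.Agent.Helper8.LV Pool.Agent.Helper10.LB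

/-- **An infinite set of integral points has infinitely many points on one line.** -/
theorem inf_line {k L : Type*} [Field k] [Field L] [CharZero L] [Algebra k L]
    {σ ι τ : Type*} [Fintype σ] [DecidableEq σ] [Fintype ι] [DecidableEq ι] [Fintype τ]
    (d b q : ι → ℕ) (a aA : (i : ι) → Sym σ (d i) → L) (ap : (i : ι) → Sym σ (b i) → L)
    (ah : (i : ι) → Sym σ (q i) → L) (hF : Fam d b q a aA ap ah) (hAk : Over k aA)
    (hpk : Over k ap) (hq : ∀ i, 0 < q i) (T : Finset (Ix σ q))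
    (hind : AlgebraicIndependent k (fun p : T => ah p.1.1 p.1.2))
    (hfin : FiniteDimensional
      (IntermediateField.adjoin k (Set.range fun p : T => ah p.1.1 p.1.2)) L)
    (D : Ix σ q → Derivation ℤ L L) (jj : τ → Ix σ q) (θ : τ → Ix σ q → L)
    (hD : Dual q ah D jj θ) (hT : ∀ j, jj j ∉ T)
    (hDk : ∀ p (c : k), D p (algebraMap k L c) = 0)
    (Z : Finset ι) (i₀ j₁ : σ) (hj : j₁ ≠ i₀)
    (hw1 : 2 * Fintype.card σ + Fintype.card τ ≤ ∑ i, q i + Z.card + 1)
    (hw2 : Fintype.card σ + 1 ≤ ∑ i, q i)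
    (A : Subalgebra k L) (hA : A.FG) (S : Set (σ → L)) (hinf : S.Infinite)
    (hS : ∀ x ∈ S, x i₀ = 1 ∧ Pt a Z A.toSubring x ∧ ∀ i, form (ap i) x ≠ 0) :
    ∃ (α β : σ) (p p' : σ → L), α ≠ β ∧ p α = 1 ∧ p β = 0 ∧ p' α = 0 ∧ p' β = 1 ∧
      {x ∈ S | ∀ l, x l = x α * p l + x β * p' l}.Infinite := by
  classical
  have hσ : 0 < Fintype.card σ := Fintype.card_pos_iff.2 ⟨i₀⟩
  set w : ℕ := Fintype.card σ - 1 with hw
  have hwσ : w + 1 = Fintype.card σ := by omega
  have hw1' : 2 * w + 1 + Fintype.card τ ≤ ∑ i, q i + Z.card := by omega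
  have hw2' : w + 2 ≤ ∑ i, q i := by omega
  have hmin : ∀ x : σ → L, MinorsVanish D x w := fun x => minors_top D x w (by omega)
  obtain ⟨V, hVfin, hV⟩ := Pool.Agent.Helper49.LV.bounded_line d b q hq a aA ap ah hF hAk hpk T
    hind hfin D jj θ hD hT hDk Z i₀ j₁ hj w hw1' hw2' A hA
  set X : ℕ → σ → L := fun m => (hinf.natEmbedding S m : σ → L) with hX
  have hXS : ∀ m, X m ∈ S := fun m => (hinf.natEmbedding S m).2
  have hXi : Function.Injective X := fun u v huv =>
    (hinf.natEmbedding S).injective (Subtype.ext huv)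
  have hX1 : ∀ m, X m i₀ = 1 := fun m => (hS _ (hXS m)).1
  have hXp : ∀ m, Pt a Z A.toSubring (X m) := fun m => (hS _ (hXS m)).2.1
  have hXP : ∀ m i, form (ap i) (X m) ≠ 0 := fun m => (hS _ (hXS m)).2.2
  have hM : Mov d b q a aA ap ah D := hF.mov hAk hpk D hDk
  have hP : ∀ m, ∃ δ : σ → L, (∃ j l, X m j * δ l - X m l * δ j ≠ 0) ∧
      ∀ j l, X m j * δ l - X m l * δ j ∈ V := fun m =>
    hV (X m) (hX1 m) (hXp m).zero (hXp m).ne (hXP m) (hXp m).int (hmin _)
  have hdir : Dirs k (fun p : T => ah p.1.1 p.1.2) D :=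
    dirs_of_dual q ah T hind hfin D jj θ hD hT hDk
  obtain ⟨V', hV'fin, hV'⟩ := point_bdd (fun p : T => ah p.1.1 p.1.2) a aA ap ah D hdir jj θ hD hM Z
    hw1 A hA i₀ V X hXp hXP hX1 hP
  obtain ⟨V'', hV''fin, hV''⟩ := second_round (fun p : T => ah p.1.1 p.1.2) D hdir a Z A hA V'
  have hinf1 : (X '' {m | ∃ G : L, G ≠ 0 ∧ ∀ l, G * X m l ∈ V'}).Infinite :=
    hV'.image hXi.injOn
  obtain ⟨α, β, p, p', hαβ, hpα, hpβ, hqα, hqβ, hline⟩ :=
    Pool.Agent.Helper49.LV.ultra_line d b q hq a aA ap ah hF hAk hpk D jj θ hD hDk Z i₀ j₁ hj w hw1' hw2' (V' ⊔ V'')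
      (X '' {m | ∃ G : L, G ≠ 0 ∧ ∀ l, G * X m l ∈ V'}) hinf1 (by
        rintro _ ⟨m, ⟨G, hG0, hG⟩, rfl⟩
        refine ⟨hX1 m, (hXp m).zero, (hXp m).ne, hXP m, hmin _, G, hG0, fun l => ?_, fun i hi J => ?_⟩
        · exact Submodule.mem_sup_left (hG l)
        · exact Submodule.mem_sup_right (hV'' (X m) G (hXp m) hG0 hG i hi J))
  refine ⟨α, β, p, p', hαβ, hpα, hpβ, hqα, hqβ, hline.mono ?_⟩
  rintro _ ⟨⟨m, _, rfl⟩, hx⟩
  exact ⟨hXS m, hx⟩

end Pool.Agent.Helper10.LV
end

/- Helper12.LVF.H10.LB.FieldArith -/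
section
/-! # LB-FA: finiteness of the integral points over arithmetic rings, over fields -/

set_option autoImplicit false

namespace Pool.Agent.Helper10.LB

open scoped BigOperators
open Polynomial Pool.Agent.Helper8.LG

theorem fa_form_mul {E σ : Type*} [CommRing E] [Fintype σ] [DecidableEq σ] {n : ℕ}
    (a : Sym σ n → E) (lam : E) (y : σ → E) :
    form a (fun l => lam * y l) = lam ^ n * form a y := by
  unfold form mon
  rw [Finset.mul_sum]
  refine Finset.sum_congr rfl fun J _ => ?_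
  rw [Multiset.prod_map_mul, Multiset.map_const', Multiset.prod_replicate, Sym.card_coe]
  ring

/-- a form which vanishes on the affine line `q + Y p` vanishes on the whole line -/
theorem fa_line_zero {E σ : Type*} [Field E] [Fintype σ] [DecidableEq σ] {n : ℕ}
    (a : Sym σ n → E) (p q : σ → E) (h : lf a q p = 0) (s t : E) :
    form a (fun l => s * p l + t * q l) = 0 := by
  by_cases ht : t = 0
  · have h1 : form a p = 0 := by
      rw [← lf_coeff_top a q p, h, coeff_zero]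
    have h2 : (fun l => s * p l + t * q l) = fun l => s * p l := by
      funext l
      rw [ht]
      ring
    rw [h2, fa_form_mul, h1, mul_zero]
  · have h1 : (fun l => s * p l + t * q l) = fun l => t * (q l + s / t * p l) := by
      funext l
      field_simp
      ring
    rw [h1, fa_form_mul, ← lf_eval, h, eval_zero, mul_zero]

theorem fa_adjoin_fg {k L : Type*} [Field k] [Field L] [Algebra k L] (A : Subalgebra ℤ L)
    (hA : A.FG) : (Algebra.adjoin k (A : Set L)).FG := by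
  obtain ⟨t, ht⟩ := hA
  refine ⟨t, le_antisymm ?_ ?_⟩
  · refine Algebra.adjoin_mono ?_
    rw [← ht]
    exact Algebra.subset_adjoin
  · refine Algebra.adjoin_le ?_
    have h1 : A ≤ (Algebra.adjoin k (t : Set L)).restrictScalars ℤ := by
      rw [← ht]
      exact Algebra.adjoin_le Algebra.subset_adjoin
    exact h1

/-- **Finiteness of integral points over finitely generated rings**, normalised coordinates. -/
theorem field_arith {L : Type*} [Field L] [CharZero L] (hfg : (⊤ : IntermediateField ℚ L).FG)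
    {σ ι : Type*} [Fintype σ] [DecidableEq σ] [Fintype ι] [DecidableEq ι]
    (d : ι → ℕ) (hd : ∀ i, 0 < d i) (a : (i : ι) → Sym σ (d i) → L) (c : ℕ)
    (hc : (Fintype.card (Ix σ d) : Cardinal) ≤ Algebra.trdeg ℚ
      (IntermediateField.adjoin ℚ (Set.range fun p : Ix σ d => a p.1 p.2)) + c)
    (Z : Finset ι) (i₀ : σ)
    (hw1 : 2 * Fintype.card σ + c ≤ ∑ i, d i + Z.card + 1)
    (hw2 : Fintype.card σ + 1 ≤ ∑ i, d i)
    (A : Subalgebra ℤ L) (hA : A.FG) :
    {x : σ → L | x i₀ = 1 ∧ (∀ i ∈ Z, form (a i) x = 0) ∧ ∀ i ∉ Z, form (a i) x ≠ 0 ∧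
      ∀ J : Sym σ (d i), mon x J / form (a i) x ∈ A}.Finite := by
  classical
  by_contra hinf
  set S : Set (σ → L) := {x : σ → L | x i₀ = 1 ∧ (∀ i ∈ Z, form (a i) x = 0) ∧
    ∀ i ∉ Z, form (a i) x ≠ 0 ∧ ∀ J : Sym σ (d i), mon x J / form (a i) x ∈ A} with hS
  have hinf' : S.Infinite := hinf
  by_cases hj : ∃ j₁ : σ, j₁ ≠ i₀
  swap
  · push Not at hj
    refine hinf ((Set.finite_singleton (fun _ : σ => (1 : L))).subset fun x hx => ?_)
    rw [Set.mem_singleton_iff]
    funext l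
    rw [hj l]
    exact hx.1
  obtain ⟨j₁, hj₁⟩ := hj
  obtain ⟨T, k, hT, hind, hfin, D, θ, hD, hDk⟩ := reduce hfg d a c hc
  have hnum : 2 * Fintype.card σ + Fintype.card {q : Ix σ d // q ∉ T} ≤
      ∑ i, d i + Z.card + 1 := by omega
  obtain ⟨α, β, p, q, hαβ, hpα, hpβ, hqα, hqβ, hline⟩ := inf_line d hd a T hind hfin D
    (fun j : {q : Ix σ d // q ∉ T} => j.1) θ hD (fun j => j.2) hDk Z i₀ j₁ hj₁ hnum hw2
    (Algebra.adjoin k (A : Set L)) (fa_adjoin_fg A hA) S hinf' (fun x hx =>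
      ⟨hx.1, ⟨hx.2.1, fun i hi => (hx.2.2 i hi).1, fun i hi J =>
        isIntegral_algebraMap (R := (Algebra.adjoin k (A : Set L)).toSubring)
          (x := ⟨_, Algebra.subset_adjoin ((hx.2.2 i hi).2 J)⟩)⟩⟩)
  set S' : Set (σ → L) := {x ∈ S | ∀ l, x l = x α * p l + x β * q l} with hS'
  -- a good second point
  obtain ⟨x₁, hx₁⟩ := hline.nonempty
  have hne : ∀ i ∉ Z, lf (a i) q p ≠ 0 := by
    intro i hi h0
    apply (hx₁.1.2.2 i hi).1
    have h1 := fa_line_zero (a i) p q h0 (x₁ α) (x₁ β)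
    have h2 : x₁ = fun l => x₁ α * p l + x₁ β * q l := funext hx₁.2
    rw [h2]
    exact h1
  have hprod : (∏ i ∈ Zᶜ, lf (a i) q p) ≠ 0 := by
    rw [Finset.prod_ne_zero_iff]
    intro i hi
    exact hne i (Finset.mem_compl.1 hi)
  obtain ⟨n, hn⟩ : ∃ n : L, (∏ i ∈ Zᶜ, lf (a i) q p).eval n ≠ 0 := by
    by_contra hall
    push Not at hall
    exact hprod (Polynomial.funext fun r => by rw [hall r, eval_zero])
  rw [eval_prod, Finset.prod_ne_zero_iff] at hn
  set v : σ → L := fun l => q l + n * p l with hv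
  have hU : ∀ i ∉ Z, form (a i) v ≠ 0 := by
    intro i hi
    have h1 := hn i (Finset.mem_compl.2 hi)
    rw [lf_eval] at h1
    exact h1
  have hpi : p α * v β - p β * v α ≠ 0 := by
    simp only [hv]
    rw [hpα, hpβ, hqα, hqβ]
    norm_num
  have hst : ∀ x ∈ S', ∀ l, x l = (x α - n * x β) * p l + x β * v l := by
    intro x hx l
    have h1 := hx.2 l
    show x l = (x α - n * x β) * p l + x β * (q l + n * p l)
    linear_combination h1
  -- the points off `v`
  set S'' : Set (σ → L) := {x ∈ S' | x α - n * x β ≠ 0} with hS''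
  have hinf2 : S''.Infinite := by
    intro hfin2
    have hsub : {x ∈ S' | x α - n * x β = 0}.Subsingleton := by
      intro x hx y hy
      have ex : ∀ l, x l = x β * v l := by
        intro l
        have h1 := hst x hx.1 l
        rw [hx.2] at h1
        linear_combination h1
      have ey : ∀ l, y l = y β * v l := by
        intro l
        have h1 := hst y hy.1 l
        rw [hy.2] at h1
        linear_combination h1
      have hx1 : x i₀ = 1 := hx.1.1.1
      have hy1 : y i₀ = 1 := hy.1.1.1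
      have hxi := ex i₀
      have hyi := ey i₀
      rw [hx1] at hxi
      rw [hy1] at hyi
      have hv0 : v i₀ ≠ 0 := by
        intro h0
        rw [h0, mul_zero] at hxi
        exact one_ne_zero hxi
      have hb : x β = y β := mul_right_cancel₀ hv0 (by rw [← hxi, ← hyi])
      funext l
      rw [ex l, ey l, hb]
    refine hline ((hfin2.union hsub.finite).subset fun x hx => ?_)
    by_cases h0 : x α - n * x β = 0
    · exact Or.inr ⟨hx, h0⟩
    · exact Or.inl ⟨hx, h0⟩
  have hz0 : ∀ x ∈ S'', ∀ l, x l =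
      (x α - n * x β) * (p l + x β / (x α - n * x β) * v l) := by
    intro x hx l
    have h1 := hst x hx.1 l
    have h2 : (x α - n * x β) * (x β / (x α - n * x β)) = x β := mul_div_cancel₀ _ hx.2
    linear_combination h1 - v l * h2
  have hinj : Set.InjOn (fun x : σ → L => x β / (x α - n * x β)) S'' := by
    intro x hx y hy hxy
    have hxy' : x β / (x α - n * x β) = y β / (y α - n * y β) := hxy
    have hx1 : x i₀ = 1 := hx.1.1.1
    have hy1 : y i₀ = 1 := hy.1.1.1
    have ex := hz0 x hx i₀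
    have ey := hz0 y hy i₀
    rw [hx1] at ex
    rw [hy1, ← hxy'] at ey
    have hv0 : p i₀ + x β / (x α - n * x β) * v i₀ ≠ 0 := by
      intro h0
      rw [h0, mul_zero] at ex
      exact one_ne_zero ex
    have hb : x α - n * x β = y α - n * y β :=
      mul_right_cancel₀ hv0 (by rw [← ex, ← ey])
    funext l
    rw [hz0 x hx l, hz0 y hy l, ← hxy', hb]
  have hZ : ∀ i ∈ Z, lf (a i) p v = 0 := by
    intro i hi
    refine Polynomial.eq_zero_of_infinite_isRoot _ ((hinf2.image hinj).mono ?_)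
    rintro _ ⟨x, hx, rfl⟩
    show (lf (a i) p v).eval _ = 0
    have h1 : form (a i) x = 0 := hx.1.1.2.1 i hi
    have h2 : x = fun l => (x α - n * x β) * (p l + x β / (x α - n * x β) * v l) :=
      funext (hz0 x hx)
    rw [h2, fa_form_mul, mul_eq_zero, or_iff_right (pow_ne_zero _ hx.2)] at h1
    rw [lf_eval]
    exact h1
  have hfinal := line_arith a Z A hA p v α β hpi hU (fun h h0 hdvd =>
    three_roots d hd a D (fun j : {q : Ix σ d // q ∉ T} => j.1) θ hD Z hnum p v α β hpi hZ hU h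
      h0 hdvd) i₀
  exact hline (hfinal.subset fun x hx =>
    ⟨hx.1.1, hx.1.2.2, x α - n * x β, x β, hst x hx⟩)

end Pool.Agent.Helper10.LB
end

/- Helper12.LVF.H10.LV.FieldArith -/
section
/-! # LV-FA: finiteness of the integral points over arithmetic rings, over fields -/

set_option autoImplicit false

namespace Pool.Agent.Helper10.LV

open scoped BigOperators
open Polynomial Pool.Agent.Helper8.LG Pool.Agent.Helper8.LV Pool.Agent.Helper10.LB

/-- **Finiteness of integral points over finitely generated rings**, normalised coordinates. -/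
theorem field_arith {k₀ L : Type*} [Field k₀] [Field L] [CharZero L] [Algebra k₀ L]
    (hfg : (⊤ : IntermediateField k₀ L).FG)
    {σ ι : Type*} [Fintype σ] [DecidableEq σ] [Fintype ι] [DecidableEq ι]
    (d b q : ι → ℕ) (a aA : (i : ι) → Sym σ (d i) → L) (ap : (i : ι) → Sym σ (b i) → L)
    (ah : (i : ι) → Sym σ (q i) → L) (hF : Fam d b q a aA ap ah) (hAk : Over k₀ aA)
    (hpk : Over k₀ ap) (hq : ∀ i, 0 < q i) (c : ℕ)
    (hc : (Fintype.card (Ix σ q) : Cardinal) ≤ Algebra.trdeg k₀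
      (IntermediateField.adjoin k₀ (Set.range fun p : Ix σ q => ah p.1 p.2)) + c)
    (Z : Finset ι) (i₀ : σ)
    (hw1 : 2 * Fintype.card σ + c ≤ ∑ i, q i + Z.card + 1)
    (hw2 : Fintype.card σ + 1 ≤ ∑ i, q i)
    (A : Subalgebra ℤ L) (hA : A.FG) :
    {x : σ → L | x i₀ = 1 ∧ (∀ i, form (ap i) x ≠ 0) ∧ (∀ i ∈ Z, form (a i) x = 0) ∧
      ∀ i ∉ Z, form (a i) x ≠ 0 ∧ ∀ J : Sym σ (d i), mon x J / form (a i) x ∈ A}.Finite := by
  classical
  by_contra hinf
  set S : Set (σ → L) := {x : σ → L | x i₀ = 1 ∧ (∀ i, form (ap i) x ≠ 0) ∧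
    (∀ i ∈ Z, form (a i) x = 0) ∧
    ∀ i ∉ Z, form (a i) x ≠ 0 ∧ ∀ J : Sym σ (d i), mon x J / form (a i) x ∈ A} with hS
  have hinf' : S.Infinite := hinf
  by_cases hj : ∃ j₁ : σ, j₁ ≠ i₀
  swap
  · push Not at hj
    refine hinf ((Set.finite_singleton (fun _ : σ => (1 : L))).subset fun x hx => ?_)
    rw [Set.mem_singleton_iff]
    funext l
    rw [hj l]
    exact hx.1
  obtain ⟨j₁, hj₁⟩ := hj
  obtain ⟨T, k, hT, hind, hfin, D, θ, hD, hDk⟩ := reduce hfg q ah c hc
  have hnum : 2 * Fintype.card σ + Fintype.card {s : Ix σ q // s ∉ T} ≤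
      ∑ i, q i + Z.card + 1 := by omega
  have hM : Mov d b q a aA ap ah D := hF.mov (over_tower hAk) (over_tower hpk) D hDk
  obtain ⟨α, β, p, p', hαβ, hpα, hpβ, hqα, hqβ, hline⟩ := inf_line d b q a aA ap ah hF
    (over_tower hAk) (over_tower hpk) hq T hind hfin D
    (fun j : {s : Ix σ q // s ∉ T} => j.1) θ hD (fun j => j.2) hDk Z i₀ j₁ hj₁ hnum hw2
    (Algebra.adjoin k (A : Set L)) (fa_adjoin_fg A hA) S hinf' (fun x hx =>
      ⟨hx.1, ⟨hx.2.2.1, fun i hi => (hx.2.2.2 i hi).1, fun i hi J =>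
        isIntegral_algebraMap (R := (Algebra.adjoin k (A : Set L)).toSubring)
          (x := ⟨_, Algebra.subset_adjoin ((hx.2.2.2 i hi).2 J)⟩)⟩, hx.2.1⟩)
  set S' : Set (σ → L) := {x ∈ S | ∀ l, x l = x α * p l + x β * p' l} with hS'
  -- a good second point
  obtain ⟨x₁, hx₁⟩ := hline.nonempty
  have hne : ∀ i ∉ Z, lf (a i) p' p ≠ 0 := by
    intro i hi h0
    apply (hx₁.1.2.2.2 i hi).1
    have h1 := fa_line_zero (a i) p p' h0 (x₁ α) (x₁ β)
    have h2 : x₁ = fun l => x₁ α * p l + x₁ β * p' l := funext hx₁.2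
    rw [h2]
    exact h1
  have hprod : (∏ i ∈ Zᶜ, lf (a i) p' p) ≠ 0 := by
    rw [Finset.prod_ne_zero_iff]
    intro i hi
    exact hne i (Finset.mem_compl.1 hi)
  obtain ⟨n, hn⟩ : ∃ n : L, (∏ i ∈ Zᶜ, lf (a i) p' p).eval n ≠ 0 := by
    by_contra hall
    push Not at hall
    exact hprod (Polynomial.funext fun r => by rw [hall r, eval_zero])
  rw [eval_prod, Finset.prod_ne_zero_iff] at hn
  set v : σ → L := fun l => p' l + n * p l with hv
  have hU : ∀ i ∉ Z, form (a i) v ≠ 0 := by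
    intro i hi
    have h1 := hn i (Finset.mem_compl.2 hi)
    rw [lf_eval] at h1
    exact h1
  have hpi : p α * v β - p β * v α ≠ 0 := by
    simp only [hv]
    rw [hpα, hpβ, hqα, hqβ]
    norm_num
  have hst : ∀ x ∈ S', ∀ l, x l = (x α - n * x β) * p l + x β * v l := by
    intro x hx l
    have h1 := hx.2 l
    show x l = (x α - n * x β) * p l + x β * (p' l + n * p l)
    linear_combination h1
  -- the points off `v`
  set S'' : Set (σ → L) := {x ∈ S' | x α - n * x β ≠ 0} with hS''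
  have hinf2 : S''.Infinite := by
    intro hfin2
    have hsub : {x ∈ S' | x α - n * x β = 0}.Subsingleton := by
      intro x hx y hy
      have ex : ∀ l, x l = x β * v l := by
        intro l
        have h1 := hst x hx.1 l
        rw [hx.2] at h1
        linear_combination h1
      have ey : ∀ l, y l = y β * v l := by
        intro l
        have h1 := hst y hy.1 l
        rw [hy.2] at h1
        linear_combination h1
      have hx1 : x i₀ = 1 := hx.1.1.1
      have hy1 : y i₀ = 1 := hy.1.1.1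
      have hxi := ex i₀
      have hyi := ey i₀
      rw [hx1] at hxi
      rw [hy1] at hyi
      have hv0 : v i₀ ≠ 0 := by
        intro h0
        rw [h0, mul_zero] at hxi
        exact one_ne_zero hxi
      have hb : x β = y β := mul_right_cancel₀ hv0 (by rw [← hxi, ← hyi])
      funext l
      rw [ex l, ey l, hb]
    refine hline ((hfin2.union hsub.finite).subset fun x hx => ?_)
    by_cases h0 : x α - n * x β = 0
    · exact Or.inr ⟨hx, h0⟩
    · exact Or.inl ⟨hx, h0⟩
  have hz0 : ∀ x ∈ S'', ∀ l, x l =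
      (x α - n * x β) * (p l + x β / (x α - n * x β) * v l) := by
    intro x hx l
    have h1 := hst x hx.1 l
    have h2 : (x α - n * x β) * (x β / (x α - n * x β)) = x β := mul_div_cancel₀ _ hx.2
    linear_combination h1 - v l * h2
  have hinj : Set.InjOn (fun x : σ → L => x β / (x α - n * x β)) S'' := by
    intro x hx y hy hxy
    have hxy' : x β / (x α - n * x β) = y β / (y α - n * y β) := hxy
    have hx1 : x i₀ = 1 := hx.1.1.1
    have hy1 : y i₀ = 1 := hy.1.1.1
    have ex := hz0 x hx i₀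
    have ey := hz0 y hy i₀
    rw [hx1] at ex
    rw [hy1, ← hxy'] at ey
    have hv0 : p i₀ + x β / (x α - n * x β) * v i₀ ≠ 0 := by
      intro h0
      rw [h0, mul_zero] at ex
      exact one_ne_zero ex
    have hb : x α - n * x β = y α - n * y β :=
      mul_right_cancel₀ hv0 (by rw [← ex, ← ey])
    funext l
    rw [hz0 x hx l, hz0 y hy l, ← hxy', hb]
  have hZ : ∀ i ∈ Z, lf (a i) p v = 0 := by
    intro i hi
    refine Polynomial.eq_zero_of_infinite_isRoot _ ((hinf2.image hinj).mono ?_)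
    rintro _ ⟨x, hx, rfl⟩
    show (lf (a i) p v).eval _ = 0
    have h1 : form (a i) x = 0 := hx.1.1.2.2.1 i hi
    have h2 : x = fun l => (x α - n * x β) * (p l + x β / (x α - n * x β) * v l) :=
      funext (hz0 x hx)
    rw [h2, fa_form_mul, mul_eq_zero, or_iff_right (pow_ne_zero _ hx.2)] at h1
    rw [lf_eval]
    exact h1
  have hPl : ∀ i, lf (ap i) p v ≠ 0 := by
    intro i h0
    obtain ⟨x, hx⟩ := hinf2.nonempty
    apply hx.1.1.2.1 i
    have h2 : x = fun l => (x α - n * x β) * (p l + x β / (x α - n * x β) * v l) :=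
      funext (hz0 x hx)
    rw [h2, fa_form_mul, ← lf_eval, h0, eval_zero, mul_zero]
  have hfinal := line_arith a Z A hA p v α β hpi hU (fun h h0 hdvd =>
    three_roots d b q a aA ap ah D (fun j : {s : Ix σ q // s ∉ T} => j.1) θ hD hM Z hnum p v
      α β hpi hPl hZ hU h h0 hdvd) i₀
  exact hline (hfinal.subset fun x hx =>
    ⟨hx.1.1, hx.1.2.2.2, x α - n * x β, x β, hst x hx⟩)

end Pool.Agent.Helper10.LV
end

/- Helper12.LVF.H8.LV.EngB -/
section
/-! # LV-ENGB: the B' engine (arithmetic bases) in terms of polynomials -/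

set_option autoImplicit false

open MvPolynomial

namespace Pool.Agent.Helper8.LV

open scoped BigOperators
open Pool.Agent.Helper8.LG

/-- the B' engine: polynomials, several multipliers, normalised points, rings of finite type
over the integers -/
theorem eng_B {k₀ L : Type*} [Field k₀] [Field L] [CharZero L] [Algebra k₀ L]
    (hfg : (⊤ : IntermediateField k₀ L).FG) {N r s : ℕ} (d q : Fin r → ℕ)
    (b : Fin r → Fin s → ℕ) (hq : ∀ i, 0 < q i) (hbq : ∀ i j, b i j + q i ≤ d i)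
    (F : Fin r → MvPolynomial (Fin (N + 1)) L)
    (A : Fin r → MvPolynomial (Fin (N + 1)) k₀) (hA : ∀ i, (A i).IsHomogeneous (d i))
    (P : Fin r → Fin s → MvPolynomial (Fin (N + 1)) k₀)
    (hP : ∀ i j, (P i j).IsHomogeneous (b i j))
    (H : Fin r → Fin s → MvPolynomial (Fin (N + 1)) L)
    (hH : ∀ i j, (H i j).IsHomogeneous (d i - b i j))
    (hFA : ∀ i, F i = map (algebraMap k₀ L) (A i) + ∑ j, map (algebraMap k₀ L) (P i j) * H i j)
    (c : ℕ)
    (hcoef : ((∑ i, ∑ j, (N + (d i - b i j)).choose N : ℕ) : Cardinal) ≤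
      Algebra.trdeg k₀ (IntermediateField.adjoin k₀ {z | ∃ i j J, z = coeff J (H i j)}) + c)
    (Z : Finset (Fin r)) (h1 : 2 * N + 1 + c ≤ ∑ i, q i + Z.card) (h2 : N + 2 ≤ ∑ i, q i)
    (i₀ : Fin (N + 1)) (R : Subalgebra ℤ L) (hR : R.FG) :
    {x : Fin (N + 1) → L | x i₀ = 1 ∧
      (∀ i, ∃ j, aeval x (P i j) ≠ 0) ∧ (∀ i ∈ Z, eval x (F i) = 0) ∧
      ∀ i ∉ Z, eval x (F i) ≠ 0 ∧
        ∀ J : Sym (Fin (N + 1)) (d i), mon x J / eval x (F i) ∈ R}.Finite := by
  classical
  have hdF : ∀ i, (∃ j : Fin s, True) → (F i).IsHomogeneous (d i) := by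
    rintro i ⟨j, -⟩
    rw [hFA i]
    refine ((hA i).map _).add (IsHomogeneous.sum _ _ _ fun j _ => ?_)
    have h1 := ((hP i j).map (algebraMap k₀ L)).mul (hH i j)
    rwa [Nat.add_sub_cancel' ((Nat.le_add_right _ _).trans (hbq i j))] at h1
  have hmulti := multi d b (fun i j => (Nat.le_add_right _ _).trans (hbq i j)) A hA P hP H hH c
    hcoef {x : Fin (N + 1) → L | x i₀ = 1 ∧ (∀ i ∈ Z, eval x (F i) = 0) ∧
      ∀ i ∉ Z, eval x (F i) ≠ 0 ∧
        ∀ J : Sym (Fin (N + 1)) (d i), mon x J / eval x (F i) ∈ R} ?_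
  · refine hmulti.subset ?_
    rintro x ⟨h1, h3, h4, h5⟩
    exact ⟨⟨h1, h4, h5⟩, h3⟩
  intro k j A' hA' hFA' hcoef'
  have hkfg : (⊤ : IntermediateField k L).FG := fg_tower k hfg
  -- the data
  obtain ⟨q', hq'⟩ : ∃ q' : Fin r → ℕ, q' = fun i => d i - b i (j i) := ⟨_, rfl⟩
  have hdb : ∀ i, d i = b i (j i) + q' i := by
    intro i
    have := hbq i (j i)
    rw [hq']
    simp only
    omega
  have hqq : ∀ i, q i ≤ q' i := by
    intro i
    have := hbq i (j i)
    rw [hq']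
    simp only
    omega
  have hFam : Fam d (fun i => b i (j i)) q' (fun i => cf (d i) (F i))
      (fun i => cf (d i) (map (algebraMap k L) (A' i)))
      (fun i => cf (b i (j i)) (map (algebraMap k L) (map (algebraMap k₀ k) (P i (j i)))))
      fun i => cf (q' i) (H i (j i)) := by
    refine fam_poly d (fun i => b i (j i)) q' hdb F A' (fun i => map (algebraMap k₀ k) (P i (j i)))
      (fun i => H i (j i)) (fun i => (hP i (j i)).map _) (fun i => ?_) (fun i => ?_)
    · rw [hq']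
      exact hH i (j i)
    · rw [hFA i, hFA' i, map_map, ← IsScalarTower.algebraMap_eq]
  have hform : ∀ (x : Fin (N + 1) → L) i, form (cf (d i) (F i)) x = eval x (F i) := fun x i =>
    form_cf _ (hdF i ⟨j i, trivial⟩) x
  have hformP : ∀ (x : Fin (N + 1) → L) i,
      form (cf (b i (j i)) (map (algebraMap k L) (map (algebraMap k₀ k) (P i (j i))))) x
        = aeval x (P i (j i)) := by
    intro x i
    rw [form_poly _ ((hP i (j i)).map _), aeval_map_algebraMap]
  have h0 := Pool.Agent.Helper10.LV.field_arith hkfg d (fun i => b i (j i)) q'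
    (fun i => cf (d i) (F i)) _ _ _ hFam (over_poly d A') (over_poly (fun i => b i (j i)) _)
    (fun i => (hq i).trans_le (hqq i)) c (by
      rw [card_Ix, ← adjoin_poly k q' (fun i => H i (j i)) (fun i => by rw [hq']; exact hH i (j i))]
      rw [hq']
      exact hcoef') Z i₀ (by
      have h3 : ∑ i, q i ≤ ∑ i, q' i := Finset.sum_le_sum fun i _ => hqq i
      rw [Fintype.card_fin]
      omega) (by
      have h3 : ∑ i, q i ≤ ∑ i, q' i := Finset.sum_le_sum fun i _ => hqq i
      rw [Fintype.card_fin]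
      omega) R hR
  refine h0.subset ?_
  rintro x ⟨⟨h3, h4, h5⟩, h6⟩
  refine ⟨h3, fun i => ?_, fun i hi => ?_, fun i hi => ?_⟩
  · rw [hformP]
    exact h6 i
  · rw [hform]
    exact h4 i hi
  · rw [hform]
    exact h5 i hi


end Pool.Agent.Helper8.LV
end

/- Helper12.LVF.H8.LV.MainV -/
section
/-! # LV-MAIN: generic members of linear systems, over schemes -/

set_option autoImplicit false

open AlgebraicGeometry CategoryTheory CategoryTheory.Limits MvPolynomial

namespace Pool.Agent.Helper8.LV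

open scoped BigOperators LinearAlgebra.Projectivization
open Pool.Agent.Helper8.LG hiding coeffField
open Pool.Agent.Helper10.LB

attribute [local instance] MvPolynomial.gradedAlgebra

universe u v

/-- the conditions on a vector `x` of coordinates over `K` -/
def CondX {k₀ K M : Type*} [Field k₀] [Field K] [Field M] [Algebra k₀ M] [Algebra K M]
    {N r n : ℕ} (m : Fin r → ℕ) (F : Fin r → MvPolynomial (Fin (N + 1)) K)
    (g : GL (Fin (N + 1)) M) (P : Fin r → Fin n → MvPolynomial (Fin (N + 1)) k₀)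
    (Z C : Finset (Fin r)) (w : ℕ) (x : Fin (N + 1) → K) : Prop :=
  (∀ i, ∃ j, aeval ((g⁻¹ : GL (Fin (N + 1)) M).1.mulVec fun l => algebraMap K M (x l))
      (P i j) ≠ 0) ∧
    Algebra.trdeg k₀ (ratioField k₀
      ((g⁻¹ : GL (Fin (N + 1)) M).1.mulVec fun l => algebraMap K M (x l))) ≤ w ∧
    (∀ i ∈ Z, eval x (F i) = 0) ∧ ∀ i ∈ C, ∃ y : K, y ^ m i = eval x (F i)

/-- the conditions on a normalised vector `y` over `M` -/
def CondY {k₀ M : Type*} [Field k₀] [Field M] [Algebra k₀ M]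
    {N r n : ℕ} (m : Fin r → ℕ) (F : Fin r → MvPolynomial (Fin (N + 1)) M)
    (P : Fin r → Fin n → MvPolynomial (Fin (N + 1)) k₀)
    (Z C : Finset (Fin r)) (w : ℕ) (y : Fin (N + 1) → M) : Prop :=
  Algebra.trdeg k₀ (IntermediateField.adjoin k₀ (Set.range y)) ≤ w ∧
    (∀ i, ∃ j, aeval y (P i j) ≠ 0) ∧ (∀ i ∈ Z, eval y (F i) = 0) ∧
    ∀ i ∈ C, ∃ z : M, z ^ m i = eval y (F i)

theorem eval_div_hom {L : Type*} [Field L] {N n : ℕ} (F : MvPolynomial (Fin (N + 1)) L)
    (hF : F.IsHomogeneous n) (x : Fin (N + 1) → L) (t : L) :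
    eval (fun i => x i / t) F = eval x F / t ^ n := by
  rw [← form_cf F hF, ← form_cf F hF, form, form, Finset.sum_div]
  refine Finset.sum_congr rfl (fun J _ => ?_)
  rw [mon, mon, Multiset.prod_map_div, Multiset.map_const', Multiset.prod_replicate,
    Sym.card_coe, mul_div_assoc]

theorem cond_XY {k₀ K M : Type*} [Field k₀] [Field K] [Field M] [Algebra k₀ M] [Algebra K M]
    {N r n : ℕ} (d m : Fin r → ℕ) (b : Fin r → Fin n → ℕ)
    (F : Fin r → MvPolynomial (Fin (N + 1)) K) (hF : ∀ i, (F i).IsHomogeneous (d i))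
    (g : GL (Fin (N + 1)) M) (P : Fin r → Fin n → MvPolynomial (Fin (N + 1)) k₀)
    (hP : ∀ i j, (P i j).IsHomogeneous (b i j))
    (Z C : Finset (Fin r)) (hm : ∀ i ∈ C, m i ∣ d i) (w : ℕ) (x : Fin (N + 1) → K)
    (h : CondX m F g P Z C w x) (i₀ : Fin (N + 1))
    (h0 : (g⁻¹ : GL (Fin (N + 1)) M).1.mulVec (fun l => algebraMap K M (x l)) i₀ ≠ 0) :
    CondY m (fun i => subst (g : Matrix _ _ M) (F i)) P Z C w
      fun i => (g⁻¹ : GL (Fin (N + 1)) M).1.mulVec (fun l => algebraMap K M (x l)) i /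
        (g⁻¹ : GL (Fin (N + 1)) M).1.mulVec (fun l => algebraMap K M (x l)) i₀ := by
  classical
  obtain ⟨h1, h2, h3, h4⟩ := h
  obtain ⟨y, hy⟩ : ∃ y : Fin (N + 1) → M,
      y = (g⁻¹ : GL (Fin (N + 1)) M).1.mulVec (fun l => algebraMap K M (x l)) := ⟨_, rfl⟩
  rw [← hy] at h0 h1 h2 ⊢
  have hgy : (g : Matrix (Fin (N + 1)) (Fin (N + 1)) M).mulVec y =
      fun l => algebraMap K M (x l) := by
    rw [hy, Matrix.mulVec_mulVec, ← Matrix.GeneralLinearGroup.coe_mul, mul_inv_cancel,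
      Matrix.GeneralLinearGroup.coe_one, Matrix.one_mulVec]
  have hev : ∀ i, eval y (subst (g : Matrix _ _ M) (F i)) = algebraMap K M (eval x (F i)) := by
    intro i
    rw [eval_subst, hgy, aeval_def]
    exact (eval₂_comp_left (algebraMap K M) (RingHom.id K) x (F i)).symm
  have hev' : ∀ i, eval (fun l => y l / y i₀) (subst (g : Matrix _ _ M) (F i)) =
      algebraMap K M (eval x (F i)) / y i₀ ^ d i := by
    intro i
    rw [eval_div_hom _ (subst_hom _ _ (hF i)), hev]
  refine ⟨?_, ?_, ?_, ?_⟩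
  · refine (trdeg_le_of_injective (IntermediateField.inclusion ?_)
      (IntermediateField.inclusion_injective _)).trans h2
    rw [ratioField]
    refine IntermediateField.adjoin.mono _ _ _ ?_
    rintro _ ⟨i, rfl⟩
    exact ⟨i, i₀, rfl⟩
  · intro i
    obtain ⟨j, hj⟩ := h1 i
    refine ⟨j, ?_⟩
    have e1 : ∀ z : Fin (N + 1) → M, aeval z (P i j) = eval z (map (algebraMap k₀ M) (P i j)) :=
      fun z => by rw [aeval_def, MvPolynomial.eval_map]
    rw [e1, eval_div_hom _ ((hP i j).map _), ← e1]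
    exact div_ne_zero hj (pow_ne_zero _ h0)
  · intro i hi
    simp only
    rw [hev', h3 i hi, map_zero, zero_div]
  · intro i hi
    obtain ⟨z, hz⟩ := h4 i hi
    refine ⟨algebraMap K M z / y i₀ ^ (d i / m i), ?_⟩
    simp only
    rw [hev', div_pow, ← map_pow, hz, ← pow_mul, Nat.div_mul_cancel (hm i hi)]

set_option maxHeartbeats 400000 in
/-- the passage from fields to schemes -/
theorem main_eng {κ : Type*} [CommRing κ] {B : Scheme.{u}} [IsIntegral B]
    [Algebra κ B.functionField]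
    (V : B.Opens) [Nonempty V] (hV : IsAffineOpen V) (A₀ : Subalgebra κ B.functionField)
    (hA₀ : A₀.FG) (hVA : ∀ b : Γ(B, V), B.germToFunctionField V b ∈ A₀)
    {U : Scheme.{u}} (π : U ⟶ B) [IsSeparated π] [LocallyOfFiniteType π] [QuasiCompact π]
    {N r n : ℕ} (d m : Fin r → ℕ) (b : Fin r → Fin n → ℕ) (hd : ∀ i, 0 < d i)
    (F : Fin r → MvPolynomial (Fin (N + 1)) B.functionField)
    (hF : ∀ i, (F i).IsHomogeneous (d i))
    (f : genFib π ⟶ PN N B.functionField) (hf : f ≫ PN.toSpec N _ = pullback.snd _ _)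
    [LocallyQuasiFinite f] (Z C : Finset (Fin r)) (hm : ∀ i ∈ C, m i ∣ d i)
    (hU : ∀ i ∉ Z, i ∉ C → ∀ z : genFib π, NonVanishing (f z) (F i))
    (k₀ : Subfield B.functionField)
    (M : Type v) [Field M] [Algebra B.functionField M] [Algebra κ M]
    [IsScalarTower κ B.functionField M] (g : GL (Fin (N + 1)) M)
    (P : Fin r → Fin n → MvPolynomial (Fin (N + 1)) k₀)
    (hP : ∀ i j, (P i j).IsHomogeneous (b i j)) (w : ℕ)
    (hfin : ∀ (i₀ : Fin (N + 1)) (A : Subalgebra κ M), A.FG →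
      {y : Fin (N + 1) → M | y i₀ = 1 ∧
        CondY m (fun i => subst (g : Matrix _ _ M) (F i)) P Z C w y ∧
        ∀ i ∈ (Z ∪ C)ᶜ, eval y (subst (g : Matrix _ _ M) (F i)) ≠ 0 ∧
          ∀ J : Sym (Fin (N + 1)) (d i),
            mon y J / eval y (subst (g : Matrix _ _ M) (F i)) ∈ A}.Finite) :
    {σ : B ⟶ U | ∃ hσ : σ ≫ π = 𝟙 B, ∀ (t : Spec B.functionField)
      (x : Fin (N + 1) → B.functionField), IsCoord (f (genPt π σ hσ t)) x →
      CondX m F g P Z C w x}.Finite := by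
  classical
  refine wrap_core (κ := κ) V hV A₀ hA₀ hVA π d hd F hF f hf (Z ∪ C)ᶜ ?_ M
    (CondX m F g P Z C w) ?_
  · intro i hi
    rw [Finset.mem_compl, Finset.mem_union] at hi
    push Not at hi
    exact hU i hi.1 hi.2
  · intro A hA
    have h0 := points (κ := κ) (L := B.functionField) (M := M) d F hF g (Z ∪ C)ᶜ
      (CondY m (fun i => subst (g : Matrix _ _ M) (F i)) P Z C w)
    have h1 := h0 hfin A hA
    refine h1.subset ?_
    rintro x ⟨h1, h2⟩
    exact ⟨fun i₀ h0 => cond_XY d m b F hF g P hP Z C hm w x.rep h1 i₀ h0, h2⟩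

set_option maxHeartbeats 400000 in
theorem main_v (R : CommRingCat.{u}) (B : Scheme.{u}) [IsIntegral B] (s : B ⟶ Spec R)
    [LocallyOfFiniteType s] [CharZero B.functionField]
    (U : Scheme.{u}) (π : U ⟶ B) [IsSeparated π] [LocallyOfFiniteType π] [QuasiCompact π]
    {N r n : ℕ} (d q m : Fin r → ℕ) (b : Fin r → Fin n → ℕ) (hq : ∀ i, 0 < q i)
    (hb : ∀ i j, b i j + q i ≤ d i)
    (F : Fin r → MvPolynomial (Fin (N + 1)) B.functionField)
    (hF : ∀ i, (F i).IsHomogeneous (d i))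
    (f : genFib π ⟶ PN N B.functionField) (hf : f ≫ PN.toSpec N _ = pullback.snd _ _)
    [LocallyQuasiFinite f]
    (Z C : Finset (Fin r)) (hZC : Disjoint Z C) (hm : ∀ i ∈ C, m i ∣ d i)
    (hU : ∀ i ∉ Z, i ∉ C → ∀ z : genFib π, NonVanishing (f z) (F i))
    (k₀ : Subfield B.functionField)
    (hk₀ : ∀ r : R, (Spec.preimage (B.fromSpecStalk (genericPoint B) ≫ s)).hom r ∈ k₀)
    (M : Type v) [Field M] [Algebra B.functionField M]
    (hM : (⊤ : IntermediateField B.functionField M).FG) (g : GL (Fin (N + 1)) M)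
    (A : Fin r → MvPolynomial (Fin (N + 1)) k₀) (hA : ∀ i, (A i).IsHomogeneous (d i))
    (P : Fin r → Fin n → MvPolynomial (Fin (N + 1)) k₀)
    (hP : ∀ i j, (P i j).IsHomogeneous (b i j))
    (H : Fin r → Fin n → MvPolynomial (Fin (N + 1)) M)
    (hH : ∀ i j, (H i j).IsHomogeneous (d i - b i j))
    (hFA : ∀ i, subst (g : Matrix _ _ M) (F i) =
      map (algebraMap k₀ M) (A i) + ∑ j, map (algebraMap k₀ M) (P i j) * H i j)
    (w c : ℕ)
    (hcoef : ((∑ i, ∑ j, (N + (d i - b i j)).choose N : ℕ) : Cardinal) ≤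
      Algebra.trdeg k₀ (coeffField k₀ H) + c)
    (hnum : 2 * w + 2 + c + ∑ i ∈ C, d i / m i ≤ ∑ i, q i + Z.card ∨
      (Z = Finset.univ ∧ 2 * w + 1 + c ≤ ∑ i, (q i + 1) ∧ w + 2 ≤ ∑ i, q i ∧
        2 * N + c ≤ ∑ i, (q i + 1) + 1) ∨
      (Algebra.FiniteType ℤ R ∧ C = ∅ ∧ 2 * N + 1 + c ≤ ∑ i, q i + Z.card ∧
        N + 2 ≤ ∑ i, q i)) :
    {σ : B ⟶ U | ∃ hσ : σ ≫ π = 𝟙 B, ∀ (t : Spec B.functionField)
      (x : Fin (N + 1) → B.functionField), IsCoord (f (genPt π σ hσ t)) x →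
      CondX m F g P Z C w x}.Finite := by
  classical
  haveI : CharZero M :=
    charZero_of_injective_algebraMap (algebraMap B.functionField M).injective
  by_cases hn : Nonempty (Fin r → Fin n)
  swap
  · -- no multipliers
    have hr : ∃ i : Fin r, ∀ j : Fin n, False := by
      by_contra hne
      push Not at hne
      exact hn ⟨fun i => (hne i).choose⟩
    obtain ⟨i, hi⟩ := hr
    refine Set.Finite.subset Set.finite_empty ?_
    rintro σ ⟨hσ, h1⟩
    obtain ⟨t⟩ : Nonempty (Spec B.functionField) := inferInstance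
    obtain ⟨x, hx⟩ := exists_coord (genPt π σ hσ ≫ f)
      (by rw [Category.assoc, hf]; exact ffib_snd π σ hσ) t
    obtain ⟨j, -⟩ := (h1 t x hx).1 i
    exact hi j
  have hd : ∀ i, 0 < d i := by
    obtain ⟨j⟩ := hn
    intro i
    have := hq i
    have := hb i (j i)
    omega
  rcases hnum with hnum | ⟨hZ, h1, h2, h3⟩ | ⟨hR, hC, h1, h2⟩
  · obtain ⟨V, hVne, hV, ⟨A₀, hA₀, hVA⟩, hKfg⟩ := exists_affine_ft R s k₀ hk₀
    haveI := hVne
    have hfg : (⊤ : IntermediateField k₀ M).FG := wrap_fg_trans hKfg hM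
    refine main_eng (κ := k₀) V hV A₀ hA₀ hVA π d m b hd F hF f hf Z C hm hU k₀ M g P hP w ?_
    intro i₀ R' hR'
    have h9 := eng_G (k₀ := k₀) (L := M) hfg d q m b hq hb
      (fun i => subst (g : Matrix _ _ M) (F i))
    have h12 := h9 A hA P hP H hH
    have h13 := h12 hFA
    have h14 := h13 w c hcoef
    have h15 := h14 Z C hZC hm hnum
    have h11 := h15 i₀ R' hR'
    refine h11.subset ?_
    rintro y ⟨h4, ⟨h5, h6, h7, h8⟩, h9⟩
    exact ⟨h4, ⟨h5, h6, h7, h8⟩, h9⟩
  · obtain ⟨V, hVne, hV, ⟨A₀, hA₀, hVA⟩, hKfg⟩ := exists_affine_ft R s k₀ hk₀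
    haveI := hVne
    have hfg : (⊤ : IntermediateField k₀ M).FG := wrap_fg_trans hKfg hM
    refine main_eng (κ := k₀) V hV A₀ hA₀ hVA π d m b hd F hF f hf Z C hm hU k₀ M g P hP w ?_
    intro i₀ R' hR'
    have h9 := eng_A (k₀ := k₀) (L := M) hfg d q b hq hb
      (fun i => subst (g : Matrix _ _ M) (F i))
    have h12 := h9 A hA P hP H hH
    have h13 := h12 hFA
    have h14 := h13 w c hcoef
    have h15 := h14 h1 h2 h3 i₀
    refine h15.subset ?_
    rintro y ⟨h4, ⟨h5, h6, h7, -⟩, -⟩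
    exact ⟨h4, h5, h6, fun i => h7 i (by rw [hZ]; exact Finset.mem_univ i)⟩
  · haveI := hR
    obtain ⟨V, hVne, hV, ⟨A₀, hA₀, hVA⟩, -⟩ := exists_affine_ftZ R s
    haveI := hVne
    obtain ⟨-, -, -, -, hKfg⟩ := exists_affine_ft R s k₀ hk₀
    have hfg : (⊤ : IntermediateField k₀ M).FG := wrap_fg_trans hKfg hM
    have h9 := eng_B (k₀ := k₀) (L := M) hfg d q b hq hb
      (fun i => subst (g : Matrix _ _ M) (F i))
    have h12 := h9 A hA P hP H hH
    have h13 := h12 hFA
    have h14 := h13 c hcoef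
    have h15 := h14 Z h1 h2
    have h10 := main_eng (κ := ℤ) V hV A₀ hA₀ hVA π d m b hd F hF f hf Z C hm hU k₀ M g P hP w
    refine h10 ?_
    intro i₀ R' hR'
    have h11 := h15 i₀ R' hR'
    refine h11.subset ?_
    rintro y ⟨h4, ⟨h5, h6, h7, -⟩, h8⟩
    refine ⟨h4, h6, h7, fun i hi => h8 i ?_⟩
    rw [hC, Finset.union_empty, Finset.mem_compl]
    exact hi

end Pool.Agent.Helper8.LV
end
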