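import Pool.Agent.Helper12.LVM.C02
import Pool.Agent.Helper12.LVM.C13
import Pool.Agent.Helper12.LVM.B04
import Pool.Agent.Helper12.LVM.B07

/- Helper12.LVF.H8.CO.FamPoly -/
section
/-! # CO: the family given by polynomials -/

set_option autoImplicit false

open MvPolynomial

namespace Pool.Agent.Helper8.CO

open scoped BigOperators
open Pool.Agent.Helper8.LG Pool.Agent.Helper6.CO Pool.Agent.Helper91.CO

section

variable {k R σ V : Type*} [CommRing k] [CommRing R] [Algebra k R]

/-- `F'` is `F` with the derivation `δ` applied to the coefficients -/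
def IsD (δ : Derivation k R R) (F F' : MvPolynomial σ R) : Prop :=
  ∀ m, δ (coeff m F) = coeff m F'

theorem IsD.add {δ : Derivation k R R} {F F' G G' : MvPolynomial σ R} (hF : IsD δ F F')
    (hG : IsD δ G G') : IsD δ (F + G) (F' + G') := fun m => by
  rw [coeff_add, map_add, hF m, hG m, coeff_add]

theorem IsD.mul {δ : Derivation k R R} {F F' G G' : MvPolynomial σ R} (hF : IsD δ F F')
    (hG : IsD δ G G') : IsD δ (F * G) (F * G' + G * F') := fun m => by
  classical
  rw [coeff_mul, map_sum, coeff_add, mul_comm G F', coeff_mul, coeff_mul,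
    ← Finset.sum_add_distrib]
  refine Finset.sum_congr rfl fun p _ => ?_
  rw [Derivation.leibniz, hF, hG, smul_eq_mul, smul_eq_mul]
  ring

theorem IsD.const {δ : Derivation k R R} (c : k) :
    IsD δ (algebraMap k (MvPolynomial σ R) c) 0 := fun m => by
  classical
  rw [MvPolynomial.algebraMap_apply, coeff_C, coeff_zero]
  split_ifs
  · exact δ.map_algebraMap c
  · exact map_zero δ

theorem IsD.var {δ : Derivation k R R} (l : σ) : IsD δ (X l : MvPolynomial σ R) 0 := fun m => by
  classical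
  rw [coeff_X, coeff_zero]
  split_ifs
  · exact δ.map_one_eq_zero
  · exact map_zero δ

theorem isD_aeval [Fintype V] (δ : Derivation k R R) (f f' : V → MvPolynomial σ R)
    (hf : ∀ v, IsD δ (f v) (f' v)) (F : MvPolynomial V k) :
    IsD δ (aeval f F) (∑ v, aeval f (pderiv v F) * f' v) := by
  classical
  induction F using MvPolynomial.induction_on with
  | C c =>
    have h1 : (∑ v, aeval f (pderiv v (C c)) * f' v) = 0 :=
      Finset.sum_eq_zero fun v _ => by rw [pderiv_C, map_zero, zero_mul]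
    rw [h1, aeval_C]
    exact IsD.const c
  | add P Q hP hQ =>
    have h1 : (∑ v, aeval f (pderiv v (P + Q)) * f' v) =
        (∑ v, aeval f (pderiv v P) * f' v) + ∑ v, aeval f (pderiv v Q) * f' v := by
      rw [← Finset.sum_add_distrib]
      exact Finset.sum_congr rfl fun v _ => by rw [map_add, map_add, add_mul]
    rw [h1, map_add]
    exact hP.add hQ
  | mul_X P j hP =>
    have h1 : (∑ v, aeval f (pderiv v (P * X j)) * f' v) =
        aeval f P * f' j + f j * ∑ v, aeval f (pderiv v P) * f' v := by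
      have h2 : ∀ v, aeval f (pderiv v (P * X j)) * f' v =
          aeval f P * (if v = j then f' j else 0) + f j * (aeval f (pderiv v P) * f' v) := by
        intro v
        rw [Derivation.leibniz, pderiv_X]
        simp only [smul_eq_mul, map_add, map_mul, aeval_X]
        by_cases hs : v = j
        · subst hs
          rw [if_pos rfl, Pi.single_eq_same, map_one]
          ring
        · rw [if_neg hs, Pi.single_eq_of_ne (Ne.symm hs), map_zero]
          ring
      rw [Finset.sum_congr rfl fun v _ => h2 v, Finset.sum_add_distrib, ← Finset.mul_sum,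
        ← Finset.mul_sum, Finset.sum_ite_eq' Finset.univ j]
      simp only [Finset.mem_univ, if_true]
    rw [h1, map_mul, aeval_X]
    exact hP.mul (hf j)

end

section

variable {k : Type*} [Field k] {N : ℕ} {κ : Type*} [DecidableEq κ]

/-- the generic form of degree `q t` -/
noncomputable def gen (k : Type*) [Field k] {N : ℕ} {κ : Type*} (q : κ → ℕ) (t : κ) :
    MvPolynomial (Fin (N + 1)) (MvPolynomial (Ix (Fin (N + 1)) q) k) :=
  ∑ J : Sym (Fin (N + 1)) (q t),
    monomial (Multiset.toFinsupp (J : Multiset (Fin (N + 1)))) (X (⟨t, J⟩ : Ix (Fin (N + 1)) q))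

omit [DecidableEq κ] in
theorem gen_map {L : Type*} [Field L] [Algebra k L] (q : κ → ℕ)
    (H : κ → MvPolynomial (Fin (N + 1)) L) (hH : ∀ t, (H t).IsHomogeneous (q t)) (t : κ) :
    mapAlgHom (aeval fun s : Ix (Fin (N + 1)) q => cf (q s.1) (H s.1) s.2) (gen k q t) = H t := by
  classical
  rw [gen, map_sum]
  have h1 : ∀ J : Sym (Fin (N + 1)) (q t),
      mapAlgHom (aeval fun s : Ix (Fin (N + 1)) q => cf (q s.1) (H s.1) s.2)
        (monomial (Multiset.toFinsupp (J : Multiset (Fin (N + 1))))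
          (X (⟨t, J⟩ : Ix (Fin (N + 1)) q) : MvPolynomial (Ix (Fin (N + 1)) q) k)) =
      monomial (Multiset.toFinsupp (J : Multiset (Fin (N + 1)))) (cf (q t) (H t) J) := by
    intro J
    rw [mapAlgHom_apply, map_monomial]
    congr 1
    simp
  rw [Finset.sum_congr rfl fun J _ => h1 J]
  ext m
  rw [coeff_sum]
  simp only [coeff_monomial]
  by_cases hm : m.degree = q t
  · obtain ⟨J, hJ⟩ := poly_exists_sym m hm
    rw [Finset.sum_eq_single J]
    · rw [if_pos hJ, cf, hJ]
    · intro J' _ hne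
      rw [if_neg]
      intro h
      exact hne (poly_toFinsupp_inj (h.trans hJ.symm))
    · intro h
      exact absurd (Finset.mem_univ J) h
  · rw [(hH t).coeff_eq_zero hm, Finset.sum_eq_zero]
    intro J _
    rw [if_neg]
    intro h
    apply hm
    rw [← h, Finsupp.degree_eq_sum]
    have h2 : Multiset.card (J : Multiset (Fin (N + 1))) = q t := J.2
    refine Eq.trans ?_ h2
    have h3 := Multiset.toFinsupp_sum_eq (J : Multiset (Fin (N + 1)))
    refine Eq.trans ?_ h3
    exact (Finsupp.sum_fintype _ (fun _ => id) fun _ => rfl).symm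

theorem gen_isD (q : κ → ℕ) (s : Ix (Fin (N + 1)) q) (t : κ) :
    IsD (pderiv s : Derivation k _ _) (gen (N := N) k q t)
      (if s.1 = t then monomial (Multiset.toFinsupp (s.2 : Multiset (Fin (N + 1)))) 1 else 0) := by
  classical
  intro m
  rw [gen, coeff_sum, map_sum]
  have h1 : ∀ J : Sym (Fin (N + 1)) (q t), pderiv s (coeff m
      (monomial (Multiset.toFinsupp (J : Multiset (Fin (N + 1))))
        (X (⟨t, J⟩ : Ix (Fin (N + 1)) q) : MvPolynomial (Ix (Fin (N + 1)) q) k))) =
      if Multiset.toFinsupp (J : Multiset (Fin (N + 1))) = m ∧ s = ⟨t, J⟩ then 1 else 0 := by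
    intro J
    rw [coeff_monomial]
    by_cases h2 : Multiset.toFinsupp (J : Multiset (Fin (N + 1))) = m
    · rw [if_pos h2, pderiv_X]
      by_cases h3 : s = ⟨t, J⟩
      · rw [if_pos ⟨h2, h3⟩, h3, Pi.single_eq_same]
      · rw [if_neg fun h => h3 h.2, Pi.single_eq_of_ne]
        exact fun h => h3 h.symm
    · rw [if_neg h2, map_zero, if_neg fun h => h2 h.1]
  rw [Finset.sum_congr rfl fun J _ => h1 J]
  obtain ⟨s1, s2⟩ := s
  by_cases hs : s1 = t
  · subst hs
    rw [if_pos rfl, coeff_monomial, Finset.sum_eq_single s2]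
    · congr 1
      exact propext ⟨fun h => h.1, fun h => ⟨h, rfl⟩⟩
    · intro J _ hne
      rw [if_neg]
      rintro ⟨-, h⟩
      apply hne
      exact (eq_of_heq (Sigma.mk.inj h).2).symm
    · intro h
      exact absurd (Finset.mem_univ s2) h
  · rw [if_neg hs, coeff_zero, Finset.sum_eq_zero]
    intro J _
    rw [if_neg]
    rintro ⟨-, h⟩
    exact hs (Sigma.mk.inj h).1

end

/-- the coefficients of `P X^J` -/
theorem cf_mul_monomial {L : Type*} [Field L] {N d b q : ℕ} (hdb : d = b + q)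
    (P : MvPolynomial (Fin (N + 1)) L) (J'' : Sym (Fin (N + 1)) q) (J : Sym (Fin (N + 1)) d) :
    cf d (P * monomial (Multiset.toFinsupp (J'' : Multiset (Fin (N + 1)))) 1) J =
      ∑ J' : Sym (Fin (N + 1)) b,
        if (J' : Multiset (Fin (N + 1))) + (J'' : Multiset (Fin (N + 1))) = (J : Multiset _)
          then cf b P J' else 0 := by
  classical
  rw [cf, coeff_mul_monomial', mul_one]
  split_ifs with h
  · -- the complement
    have h1 : (J'' : Multiset (Fin (N + 1))) ≤ (J : Multiset (Fin (N + 1))) := by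
      refine Multiset.le_iff_count.2 fun l => ?_
      have h2 := h l
      simpa using h2
    have hc : Multiset.card ((J : Multiset (Fin (N + 1))) - (J'' : Multiset (Fin (N + 1)))) = b := by
      rw [Multiset.card_sub h1, Sym.card_coe, Sym.card_coe]
      omega
    rw [Finset.sum_eq_single (Sym.mk _ hc)]
    · rw [if_pos (by rw [Sym.coe_mk]; exact tsub_add_cancel_of_le h1), cf, Sym.coe_mk]
      congr 1
      ext l
      simp
    · intro J' _ hne
      rw [if_neg]
      intro h2
      apply hne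
      apply Sym.coe_injective
      rw [Sym.coe_mk, ← h2]
      exact (add_tsub_cancel_right _ _).symm
    · intro h2
      exact absurd (Finset.mem_univ _) h2
  · rw [Finset.sum_eq_zero]
    intro J' _
    rw [if_neg]
    intro h2
    apply h
    rw [← h2]
    intro l
    simp

/-- the family of the coefficients -/
theorem fam_poly {k L : Type*} [Field k] [Field L] [Algebra k L] {N r n : ℕ} (d : Fin r → ℕ)
    (b : Fin r → Fin n → ℕ) (hb : ∀ i j, b i j ≤ d i)
    (F₀ : Fin r → MvPolynomial (Fin (N + 1) ⊕ Fin n) k)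
    (H : Fin r → Fin n → MvPolynomial (Fin (N + 1)) L)
    (hH : ∀ i j, (H i j).IsHomogeneous (d i - b i j)) :
    ∃ Q : (i : Fin r) → Sym (Fin (N + 1)) (d i) →
        MvPolynomial (Ix (Fin (N + 1)) fun s : Fin r × Fin n => d s.1 - b s.1 s.2) k,
      Fam k (fun s : Fin r × Fin n => s.1) d (fun s => b s.1 s.2) (fun s => d s.1 - b s.1 s.2)
        (fun i => cf (d i) (aeval (Sum.elim X (H i)) (F₀ i)))
        (fun s => cf (b s.1 s.2) (mder (F₀ s.1) (H s.1) s.2))
        (fun s => cf (d s.1 - b s.1 s.2) (H s.1 s.2)) Q := by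
  classical
  set κ := Fin r × Fin n with hκ
  set q : κ → ℕ := fun s => d s.1 - b s.1 s.2 with hq
  set f : (i : Fin r) → (Fin (N + 1) ⊕ Fin n) →
      MvPolynomial (Fin (N + 1)) (MvPolynomial (Ix (Fin (N + 1)) q) k) := fun i =>
    Sum.elim X fun j => gen k q (i, j) with hf
  set φ : MvPolynomial (Ix (Fin (N + 1)) q) k →ₐ[k] L :=
    aeval fun s : Ix (Fin (N + 1)) q => cf (q s.1) (H s.1.1 s.1.2) s.2 with hφ
  have hmap : ∀ i, (mapAlgHom φ).comp (aeval (f i)) =
      (aeval (Sum.elim X (H i)) : MvPolynomial (Fin (N + 1) ⊕ Fin n) k →ₐ[k] _) := by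
    intro i
    refine MvPolynomial.algHom_ext fun v => ?_
    rw [AlgHom.comp_apply, aeval_X, aeval_X]
    rcases v with l | j
    · show mapAlgHom φ (X l) = X l
      rw [mapAlgHom_apply, MvPolynomial.map_X]
    · exact gen_map (k := k) q (fun s : κ => H s.1 s.2) (fun t => hH t.1 t.2) (i, j)
  have hmap' : ∀ i (E : MvPolynomial (Fin (N + 1) ⊕ Fin n) k) (m : Fin (N + 1) →₀ ℕ),
      φ (coeff m (aeval (f i) E)) = coeff m (aeval (Sum.elim X (H i)) E) := by
    intro i E m
    rw [← hmap i, AlgHom.comp_apply, mapAlgHom_apply]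
    exact (coeff_map _ _ _).symm
  refine ⟨fun i J => coeff (Multiset.toFinsupp (J : Multiset (Fin (N + 1))))
    (aeval (f i) (F₀ i)), ?_, ?_, ?_⟩
  · rintro ⟨i, j⟩
    exact (Nat.add_sub_cancel' (hb i j)).symm
  · intro i J
    exact hmap' i (F₀ i) _
  · intro i J s
    set f' : (Fin (N + 1) ⊕ Fin n) →
        MvPolynomial (Fin (N + 1)) (MvPolynomial (Ix (Fin (N + 1)) q) k) :=
      Sum.elim (fun _ => 0) fun j => if s.1 = (i, j) then
        monomial (Multiset.toFinsupp (s.2 : Multiset (Fin (N + 1)))) 1 else 0 with hf'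
    have h1 : ∀ v, IsD (pderiv s : Derivation k _ _) (f i v) (f' v) := by
      rintro (l | j)
      · exact IsD.var l
      · exact gen_isD q s (i, j)
    have h2 := isD_aeval (pderiv s : Derivation k _ _) (f i) f' h1 (F₀ i)
      (Multiset.toFinsupp (J : Multiset (Fin (N + 1))))
    show φ (pderiv s (coeff (Multiset.toFinsupp (J : Multiset (Fin (N + 1))))
      (aeval (f i) (F₀ i)))) = _
    rw [h2]
    have h3 : (∑ v, aeval (f i) (pderiv v (F₀ i)) * f' v) =
        if s.1.1 = i then aeval (f i) (pderiv (Sum.inr s.1.2) (F₀ i)) *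
          monomial (Multiset.toFinsupp (s.2 : Multiset (Fin (N + 1)))) 1 else 0 := by
      rw [Fintype.sum_sum_type]
      have h4 : ∀ l : Fin (N + 1), aeval (f i) (pderiv (Sum.inl l) (F₀ i)) * f' (Sum.inl l) = 0 :=
        fun l => mul_zero _
      rw [Finset.sum_congr rfl fun l _ => h4 l, Finset.sum_const_zero, zero_add]
      by_cases hs : s.1.1 = i
      · rw [if_pos hs, Finset.sum_eq_single s.1.2]
        · congr 1
          show (if s.1 = (i, s.1.2) then _ else 0) = _
          have h5 : s.1 = (i, s.1.2) := by rw [← hs]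
          rw [if_pos h5]
        · intro j _ hj
          show _ * (if s.1 = (i, j) then _ else 0) = 0
          rw [if_neg, mul_zero]
          intro h
          apply hj
          rw [h]
        · intro h
          exact absurd (Finset.mem_univ _) h
      · rw [if_neg hs]
        refine Finset.sum_eq_zero fun j _ => ?_
        show _ * (if s.1 = (i, j) then _ else 0) = 0
        rw [if_neg, mul_zero]
        intro h
        apply hs
        rw [h]
    rw [h3]
    by_cases hs : s.1.1 = i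
    · rw [if_pos hs, if_pos hs]
      subst hs
      have h5 : φ (coeff (Multiset.toFinsupp (J : Multiset (Fin (N + 1))))
          (aeval (f s.1.1) (pderiv (Sum.inr s.1.2) (F₀ s.1.1)) *
            monomial (Multiset.toFinsupp (s.2 : Multiset (Fin (N + 1)))) 1)) =
          cf (d s.1.1) (mder (F₀ s.1.1) (H s.1.1) s.1.2 *
            monomial (Multiset.toFinsupp (s.2 : Multiset (Fin (N + 1)))) 1) J := by
        rw [cf, coeff_mul_monomial', coeff_mul_monomial', mul_one, mul_one]
        split_ifs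
        · exact hmap' s.1.1 _ _
        · exact map_zero _
      rw [h5]
      exact cf_mul_monomial (Nat.add_sub_cancel' (hb s.1.1 s.1.2)).symm _ _ _
    · rw [if_neg hs, if_neg hs, coeff_zero, map_zero]

end Pool.Agent.Helper8.CO
end

/- Helper91.CO.Chain -/
section
/-! # CO: degrees of `F₀(X, H)` and of its derivatives -/

set_option autoImplicit false

open MvPolynomial

namespace Pool.Agent.Helper91.CO

open scoped BigOperators

theorem hom_aeval {k L : Type*} [Field k] [Field L] [Algebra k L] {N n D : ℕ} (h : Fin n → ℕ)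
    (F₀ : MvPolynomial (Fin (N + 1) ⊕ Fin n) k) (hF₀ : IsWeightedHomogeneous (wts N h) F₀ D)
    (H : Fin n → MvPolynomial (Fin (N + 1)) L) (hH : ∀ j, (H j).IsHomogeneous (h j)) :
    (aeval (Sum.elim X H) F₀ : MvPolynomial (Fin (N + 1)) L).IsHomogeneous D := by
  rw [aeval_def, eval₂_eq]
  refine IsHomogeneous.sum _ _ _ fun m hm => ?_
  have hw : Finsupp.weight (wts N h) m = D := hF₀ (mem_support_iff.1 hm)
  rw [Finsupp.weight_apply, Finsupp.sum] at hw
  have hs : ∀ i : Fin (N + 1) ⊕ Fin n,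
      (Sum.elim X H i : MvPolynomial (Fin (N + 1)) L).IsHomogeneous (wts N h i) := by
    rintro (i | j)
    · exact isHomogeneous_X L i
    · exact hH j
  have hp : (∏ i ∈ m.support, (Sum.elim X H i : MvPolynomial (Fin (N + 1)) L) ^ m i).IsHomogeneous
      (∑ i ∈ m.support, wts N h i * m i) :=
    IsHomogeneous.prod _ _ _ fun i _ => (hs i).pow (m i)
  have hc : (algebraMap k (MvPolynomial (Fin (N + 1)) L) (coeff m F₀)).IsHomogeneous 0 := by
    rw [IsScalarTower.algebraMap_apply k L (MvPolynomial (Fin (N + 1)) L)]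
    exact isHomogeneous_C _ _
  have := hc.mul hp
  rw [zero_add] at this
  rw [← hw]
  refine (Eq.subst ?_ this)
  exact Finset.sum_congr rfl fun i _ => by rw [smul_eq_mul, mul_comm]

theorem hom_mder {k L : Type*} [Field k] [Field L] [Algebra k L] {N n D b : ℕ} (h : Fin n → ℕ)
    (F₀ : MvPolynomial (Fin (N + 1) ⊕ Fin n) k) (hF₀ : IsWeightedHomogeneous (wts N h) F₀ D)
    (H : Fin n → MvPolynomial (Fin (N + 1)) L) (hH : ∀ j, (H j).IsHomogeneous (h j)) (j : Fin n)
    (hb : D = b + h j) : (mder F₀ H j).IsHomogeneous b :=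
  hom_aeval h _ (hF₀.pderiv hb.symm) H hH

end Pool.Agent.Helper91.CO
end

/- Helper91.CO.NullSt -/
section
/-! # CO: the Nullstellensatz for forms without common zero -/

set_option autoImplicit false

open MvPolynomial

namespace Pool.Agent.Helper91.CO

open scoped BigOperators
open Pool.Agent.Helper8.LG

theorem form_C_cf {L : Type*} [Field L] {N n : ℕ} (P : MvPolynomial (Fin (N + 1)) L)
    (hP : P.IsHomogeneous n) :
    form (fun J => C (cf n P J)) (X : Fin (N + 1) → MvPolynomial (Fin (N + 1)) L) = P := by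
  classical
  have h1 : form (fun J => C (cf n P J)) (X : Fin (N + 1) → MvPolynomial (Fin (N + 1)) L) =
      ∑ m ∈ Finset.univ.image (fun J : Sym (Fin (N + 1)) n =>
        Multiset.toFinsupp (J : Multiset (Fin (N + 1)))), monomial m (coeff m P) := by
    rw [Finset.sum_image fun a _ b _ h => poly_toFinsupp_inj h, form]
    refine Finset.sum_congr rfl fun J _ => ?_
    rw [poly_mon_eq, cf, monomial_eq, Finsupp.prod_fintype _ _ fun _ => pow_zero _]
  rw [h1]
  conv_rhs => rw [P.as_sum]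
  symm
  refine Finset.sum_subset (fun m hm => ?_) fun m _ hm => ?_
  · have h2 : m.degree = n := by
      by_contra h
      exact (mem_support_iff.1 hm) (hP.coeff_eq_zero h)
    obtain ⟨J, hJ⟩ := poly_exists_sym m h2
    exact Finset.mem_image.2 ⟨J, Finset.mem_univ _, hJ⟩
  · rw [notMem_support_iff.1 hm, monomial_zero]

/-- forms without common zero -/
theorem exists_nulP {L : Type*} [Field L] {N r n : ℕ} (b : Fin r → Fin n → ℕ)
    (m : Fin r → Fin n → MvPolynomial (Fin (N + 1)) L)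
    (hm : ∀ i j, (m i j).IsHomogeneous (b i j)) (N₀ : Finset (Fin r))
    (h : ∀ i ∈ N₀, ∀ y : Fin (N + 1) → AlgebraicClosure L, (∀ j, aeval y (m i j) = 0) → y = 0) :
    Pool.Agent.Helper8.CO.NulP (fun s : Fin r × Fin n => s.1)
      (fun s => cf (b s.1 s.2) (m s.1 s.2)) N₀ := by
  classical
  intro i hi l
  have h1 : (X l : MvPolynomial (Fin (N + 1)) L) ∈
      vanishingIdeal L (zeroLocus (AlgebraicClosure L) (Ideal.span (Set.range (m i)))) := by
    rw [mem_vanishingIdeal_iff]
    intro x hx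
    have hx0 : x = 0 := h i hi x fun j =>
      (mem_zeroLocus_iff.1 hx) _ (Ideal.subset_span ⟨j, rfl⟩)
    rw [aeval_X, hx0]
    rfl
  rw [vanishingIdeal_zeroLocus_eq_radical] at h1
  obtain ⟨R, hR⟩ := h1
  obtain ⟨c, hc⟩ := Ideal.mem_span_range_iff_exists_fun.1 hR
  refine ⟨R, fun t => c t.2, ?_⟩
  rw [← hc, Fintype.sum_prod_type]
  rw [Finset.sum_eq_single i]
  · refine Finset.sum_congr rfl fun j _ => ?_
    rw [if_pos rfl]
    rw [form_C_cf (m i j) (hm i j)]
  · intro i' _ hne
    exact Finset.sum_eq_zero fun j _ => if_neg hne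
  · intro hni
    exact absurd (Finset.mem_univ i) hni

end Pool.Agent.Helper91.CO
end

/- Helper12.LVF.H8.CO.EngC -/
section
/-! # CO: the engine in terms of polynomials -/

set_option autoImplicit false

open MvPolynomial

namespace Pool.Agent.Helper8.CO

open scoped BigOperators
open Pool.Agent.Helper8.LG Pool.Agent.Helper6.CO Pool.Agent.Helper91.CO

theorem card_IxC {κ : Type*} [Fintype κ] {N : ℕ} (q : κ → ℕ) :
    Fintype.card (Ix (Fin (N + 1)) q) = ∑ s, (N + q s).choose N := by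
  rw [Fintype.card_sigma]
  refine Finset.sum_congr rfl fun i _ => ?_
  rw [Sym.card_sym_eq_choose, Fintype.card_fin]
  have h : N + 1 + q i - 1 = N + q i := by omega
  rw [h, Nat.choose_symm_add]

theorem adjoinC (k : Type*) {M : Type*} [Field k] [Field M] [Algebra k M] {N r n : ℕ}
    (q : Fin r → Fin n → ℕ) (H : Fin r → Fin n → MvPolynomial (Fin (N + 1)) M)
    (hH : ∀ i j, (H i j).IsHomogeneous (q i j)) :
    IntermediateField.adjoin k {z | ∃ i j J, z = coeff J (H i j)} =
      IntermediateField.adjoin k (Set.range fun p : Ix (Fin (N + 1))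
        (fun s : Fin r × Fin n => q s.1 s.2) => cf (q p.1.1 p.1.2) (H p.1.1 p.1.2) p.2) := by
  refine le_antisymm (IntermediateField.adjoin_le_iff.2 ?_) (IntermediateField.adjoin_le_iff.2 ?_)
  · rintro z ⟨i, j, m, rfl⟩
    by_cases h : m.degree = q i j
    · obtain ⟨J, hJ⟩ := poly_exists_sym m h
      refine IntermediateField.subset_adjoin _ _ ⟨⟨(i, j), J⟩, ?_⟩
      change coeff (Multiset.toFinsupp (J : Multiset (Fin (N + 1)))) (H i j) = _
      rw [hJ]
    · rw [(hH i j).coeff_eq_zero h]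
      exact zero_mem _
  · rintro z ⟨p, rfl⟩
    exact IntermediateField.subset_adjoin _ _ ⟨p.1.1, p.1.2, _, rfl⟩

theorem eng_C {k₀ L : Type*} [Field k₀] [Field L] [CharZero L] [Algebra k₀ L]
    (hfg : (⊤ : IntermediateField k₀ L).FG) {N r n : ℕ} (d q m : Fin r → ℕ)
    (b : Fin r → Fin n → ℕ) (hq : ∀ i, 0 < q i) (hbq : ∀ i j, b i j + q i ≤ d i)
    (F : Fin r → MvPolynomial (Fin (N + 1)) L)
    (F₀ : Fin r → MvPolynomial (Fin (N + 1) ⊕ Fin n) k₀)
    (hF₀ : ∀ i, IsWeightedHomogeneous (wts N fun j => d i - b i j) (F₀ i) (d i))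
    (H : Fin r → Fin n → MvPolynomial (Fin (N + 1)) L)
    (hH : ∀ i j, (H i j).IsHomogeneous (d i - b i j))
    (hFA : ∀ i, F i = aeval (Sum.elim X (H i)) (F₀ i))
    (w c : ℕ)
    (hcoef : ((∑ i, ∑ j, (N + (d i - b i j)).choose N : ℕ) : Cardinal) ≤
      Algebra.trdeg k₀ (IntermediateField.adjoin k₀ {z | ∃ i j J, z = coeff J (H i j)}) + c)
    (Z C T : Finset (Fin r)) (hZC : Disjoint Z C) (hm : ∀ i ∈ C, m i ∣ d i)
    (hT : ∀ i ∈ T, ∀ y : Fin (N + 1) → AlgebraicClosure L,
      (∀ j, aeval y (mder (F₀ i) (H i) j) = 0) → y = 0)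
    (hnum : 2 * w + 2 + c + ∑ i ∈ C, d i / m i ≤ ∑ i, Pool.Agent.Helper6.CO.qm T d q i + Z.card)
    (i₀ : Fin (N + 1)) (R : Subalgebra k₀ L) (hR : R.FG) :
    {x : Fin (N + 1) → L | x i₀ = 1 ∧
      (Algebra.trdeg k₀ (IntermediateField.adjoin k₀ (Set.range x)) ≤ w ∧
        (∀ i, ∃ j, eval x (mder (F₀ i) (H i) j) ≠ 0) ∧ (∀ i ∈ Z, eval x (F i) = 0) ∧
        ∀ i ∈ C, ∃ y : L, y ^ m i = eval x (F i)) ∧
      ∀ i ∈ (Z ∪ C)ᶜ, eval x (F i) ≠ 0 ∧
        ∀ J : Sym (Fin (N + 1)) (d i), mon x J / eval x (F i) ∈ R}.Finite := by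
  classical
  have hb : ∀ i j, b i j ≤ d i := fun i j => (Nat.le_add_right _ _).trans (hbq i j)
  obtain ⟨Q, hQ⟩ := fam_poly d b hb F₀ H hH
  have hdF : ∀ i, (F i).IsHomogeneous (d i) := fun i => by
    rw [hFA i]
    exact hom_aeval _ (F₀ i) (hF₀ i) (H i) (hH i)
  have hmd : ∀ i j, (mder (F₀ i) (H i) j).IsHomogeneous (b i j) := fun i j =>
    hom_mder _ (F₀ i) (hF₀ i) (H i) (hH i) j (Nat.add_sub_cancel' (hb i j)).symm
  have hN := exists_nulP b (fun i j => mder (F₀ i) (H i) j) hmd T hT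
  have hform : ∀ (x : Fin (N + 1) → L) i,
      form (cf (d i) (aeval (Sum.elim X (H i)) (F₀ i))) x = eval x (F i) := fun x i => by
    rw [← hFA i]
    exact form_cf _ (hdF i) x
  have hformP : ∀ (x : Fin (N + 1) → L) i j,
      form (cf (b i j) (mder (F₀ i) (H i) j)) x = eval x (mder (F₀ i) (H i) j) := fun x i j =>
    form_cf _ (hmd i j) x
  obtain ⟨S, hS⟩ : ∃ S : Finset (Fin r) → Set (Fin (N + 1) → L), S = fun C₀ => {x | x i₀ = 1 ∧
      Algebra.trdeg k₀ (IntermediateField.adjoin k₀ (Set.range x)) ≤ w ∧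
      (∀ i, ∃ t : Fin r × Fin n, t.1 = i ∧
        form (cf (b t.1 t.2) (mder (F₀ t.1) (H t.1) t.2)) x ≠ 0) ∧
      (∀ i ∈ Z ∪ C₀, form (cf (d i) (aeval (Sum.elim X (H i)) (F₀ i))) x = 0) ∧
      (∀ i ∉ Z ∪ C₀, form (cf (d i) (aeval (Sum.elim X (H i)) (F₀ i))) x ≠ 0) ∧
      (∀ i ∈ C \ C₀, ∃ y : L, y ^ m i =
        form (cf (d i) (aeval (Sum.elim X (H i)) (F₀ i))) x) ∧
      ∀ i ∉ Z ∪ C₀, i ∉ C \ C₀ → ∀ J : Sym (Fin (N + 1)) (d i),
        IsIntegral R (mon x J / form (cf (d i) (aeval (Sum.elim X (H i)) (F₀ i))) x)} := ⟨_, rfl⟩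
  have hSfin : ∀ C₀, (S C₀).Finite := by
    intro C₀
    by_cases hn : Nonempty (Fin r → Fin n)
    swap
    · -- no multipliers
      have hr : ∃ i : Fin r, ∀ j : Fin n, False := by
        by_contra hne
        push Not at hne
        exact hn ⟨fun i => (hne i).choose⟩
      obtain ⟨i, hi⟩ := hr
      refine Set.Finite.subset Set.finite_empty ?_
      rw [hS]
      rintro x ⟨-, -, h3, -⟩
      obtain ⟨t, -, -⟩ := h3 i
      exact (hi t.2).elim
    obtain ⟨j₀⟩ := hn
    rw [hS]
    refine final_aux hfg (fun s : Fin r × Fin n => s.1) (fun s => b s.1 s.2)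
      (fun s => d s.1 - b s.1 s.2) d q
      (fun i => if i ∈ C \ C₀ then d i / m i else 0) m
      (fun i => cf (d i) (aeval (Sum.elim X (H i)) (F₀ i)))
      (fun s => cf (b s.1 s.2) (mder (F₀ s.1) (H s.1) s.2))
      (fun s => cf (d s.1 - b s.1 s.2) (H s.1 s.2)) Q hQ w c ?_ (Z ∪ C₀) (C \ C₀) T i₀ ?_ hN R hR
    · rw [card_IxC, Fintype.sum_prod_type]
      refine hcoef.trans (le_of_eq ?_)
      congr 1
      rw [adjoinC k₀ (fun i j => d i - b i j) H hH]
    · refine ⟨fun i => ?_, hq, fun t => ?_, ?_, ?_, ?_, ?_⟩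
      · have := hq i
        have := hbq i (j₀ i)
        omega
      · have := hbq t.1 t.2
        omega
      · intro i hi hi'
        rw [Finset.mem_sdiff] at hi
        rcases Finset.mem_union.1 hi' with h | h
        · exact Finset.disjoint_left.1 hZC h hi.1
        · exact hi.2 h
      · intro i hi
        rw [if_pos hi]
        exact (Nat.mul_div_cancel' (hm i (Finset.mem_sdiff.1 hi).1)).symm
      · intro i hi
        exact if_neg hi
      · have h1 : ∑ i, (if i ∈ C \ C₀ then d i / m i else 0) ≤ ∑ i ∈ C, d i / m i := by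
          rw [← Finset.sum_filter]
          refine Finset.sum_le_sum_of_subset (fun i hi => ?_)
          exact (Finset.mem_sdiff.1 (Finset.mem_filter.1 hi).2).1
        have h2 : Z.card ≤ (Z ∪ C₀).card := Finset.card_le_card Finset.subset_union_left
        omega
  refine (Set.finite_iUnion hSfin).subset ?_
  rintro x ⟨h1, ⟨h2, h6, h3, h4⟩, h5⟩
  rw [Set.mem_iUnion]
  refine ⟨C.filter (fun i => eval x (F i) = 0), ?_⟩
  rw [hS]
  have hnz : ∀ i ∉ Z ∪ C.filter (fun i => eval x (F i) = 0), eval x (F i) ≠ 0 := by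
    intro i hi
    rw [Finset.mem_union, Finset.mem_filter] at hi
    push Not at hi
    by_cases hiC : i ∈ C
    · exact hi.2 hiC
    · refine (h5 i ?_).1
      rw [Finset.mem_compl, Finset.mem_union]
      push Not
      exact ⟨hi.1, hiC⟩
  refine ⟨h1, h2, ?_, ?_, ?_, ?_, ?_⟩
  · intro i
    obtain ⟨j, hj⟩ := h6 i
    refine ⟨(i, j), rfl, ?_⟩
    rw [hformP]
    exact hj
  · intro i hi
    rw [hform]
    rcases Finset.mem_union.1 hi with h | h
    · exact h3 i h
    · exact (Finset.mem_filter.1 h).2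
  · intro i hi
    rw [hform]
    exact hnz i hi
  · intro i hi
    rw [hform]
    exact h4 i (Finset.mem_sdiff.1 hi).1
  · intro i hi hi' J
    have hiZ : i ∉ Z := fun h => hi (Finset.mem_union_left _ h)
    have hiC : i ∉ C := by
      intro h
      apply hi'
      rw [Finset.mem_sdiff]
      exact ⟨h, fun h' => hi (Finset.mem_union_right _ h')⟩
    rw [hform]
    have h7 := (h5 i (by
      rw [Finset.mem_compl, Finset.mem_union]
      push Not
      exact ⟨hiZ, hiC⟩)).2 J
    exact isIntegral_algebraMap (x := (⟨_, h7⟩ : R))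

end Pool.Agent.Helper8.CO
end

/- Helper12.LVF.H91.CO.Main -/
section
/-! # CO: generic weighted substitutions, over schemes -/

set_option autoImplicit false

open AlgebraicGeometry CategoryTheory CategoryTheory.Limits MvPolynomial

namespace Pool.Agent.Helper91.CO

open scoped BigOperators LinearAlgebra.Projectivization
open Pool.Agent.Helper8.LG hiding coeffField
open Pool.Agent.Helper8.LV
open Pool.Agent.Helper10.LB

attribute [local instance] MvPolynomial.gradedAlgebra

universe u v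

/-- the conditions on a vector `x` of coordinates over `K` -/
def CondC {k₀ K M : Type*} [Field k₀] [Field K] [Field M] [Algebra k₀ M] [Algebra K M]
    {N r n : ℕ} (m : Fin r → ℕ) (F : Fin r → MvPolynomial (Fin (N + 1)) K)
    (g : GL (Fin (N + 1)) M) (F₀ : Fin r → MvPolynomial (Fin (N + 1) ⊕ Fin n) k₀)
    (H : Fin r → Fin n → MvPolynomial (Fin (N + 1)) M)
    (Z C : Finset (Fin r)) (w : ℕ) (x : Fin (N + 1) → K) : Prop :=
  (∀ i, ∃ j, eval (pull g x) (mder (F₀ i) (H i) j) ≠ 0) ∧
    Algebra.trdeg k₀ (ratioField k₀ (pull g x)) ≤ w ∧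
    (∀ i ∈ Z, eval x (F i) = 0) ∧ ∀ i ∈ C, ∃ y : K, y ^ m i = eval x (F i)

/-- the conditions on a normalised vector `y` over `M` -/
def CondD {k₀ M : Type*} [Field k₀] [Field M] [Algebra k₀ M]
    {N r n : ℕ} (m : Fin r → ℕ) (F : Fin r → MvPolynomial (Fin (N + 1)) M)
    (F₀ : Fin r → MvPolynomial (Fin (N + 1) ⊕ Fin n) k₀)
    (H : Fin r → Fin n → MvPolynomial (Fin (N + 1)) M)
    (Z C : Finset (Fin r)) (w : ℕ) (y : Fin (N + 1) → M) : Prop :=
  Algebra.trdeg k₀ (IntermediateField.adjoin k₀ (Set.range y)) ≤ w ∧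
    (∀ i, ∃ j, eval y (mder (F₀ i) (H i) j) ≠ 0) ∧ (∀ i ∈ Z, eval y (F i) = 0) ∧
    ∀ i ∈ C, ∃ z : M, z ^ m i = eval y (F i)

theorem cond_CD {k₀ K M : Type*} [Field k₀] [Field K] [Field M] [Algebra k₀ M] [Algebra K M]
    {N r n : ℕ} (d m : Fin r → ℕ) (b : Fin r → Fin n → ℕ)
    (F : Fin r → MvPolynomial (Fin (N + 1)) K) (hF : ∀ i, (F i).IsHomogeneous (d i))
    (g : GL (Fin (N + 1)) M) (F₀ : Fin r → MvPolynomial (Fin (N + 1) ⊕ Fin n) k₀)
    (H : Fin r → Fin n → MvPolynomial (Fin (N + 1)) M)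
    (hP : ∀ i j, (mder (F₀ i) (H i) j).IsHomogeneous (b i j))
    (Z C : Finset (Fin r)) (hm : ∀ i ∈ C, m i ∣ d i) (w : ℕ) (x : Fin (N + 1) → K)
    (h : CondC m F g F₀ H Z C w x) (i₀ : Fin (N + 1))
    (h0 : (g⁻¹ : GL (Fin (N + 1)) M).1.mulVec (fun l => algebraMap K M (x l)) i₀ ≠ 0) :
    CondD m (fun i => subst (g : Matrix _ _ M) (F i)) F₀ H Z C w
      fun i => (g⁻¹ : GL (Fin (N + 1)) M).1.mulVec (fun l => algebraMap K M (x l)) i /
        (g⁻¹ : GL (Fin (N + 1)) M).1.mulVec (fun l => algebraMap K M (x l)) i₀ := by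
  classical
  obtain ⟨h1, h2, h3, h4⟩ := h
  unfold pull at h1 h2
  obtain ⟨y, hy⟩ : ∃ y : Fin (N + 1) → M,
      y = (g⁻¹ : GL (Fin (N + 1)) M).1.mulVec (fun l => algebraMap K M (x l)) := ⟨_, rfl⟩
  rw [← hy] at h0 h1 h2 ⊢
  have hgy : (g : Matrix (Fin (N + 1)) (Fin (N + 1)) M).mulVec y =
      fun l => algebraMap K M (x l) := by
    rw [hy, Matrix.mulVec_mulVec, ← Matrix.GeneralLinearGroup.coe_mul, mul_inv_cancel,
      Matrix.GeneralLinearGroup.coe_one, Matrix.one_mulVec]
  have hev : ∀ i, eval y (subst (g : Matrix _ _ M) (F i)) = algebraMap K M (eval x (F i)) := by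
    intro i
    rw [eval_subst, hgy, aeval_def]
    exact (eval₂_comp_left (algebraMap K M) (RingHom.id K) x (F i)).symm
  have hev' : ∀ i, eval (fun l => y l / y i₀) (subst (g : Matrix _ _ M) (F i)) =
      algebraMap K M (eval x (F i)) / y i₀ ^ d i := by
    intro i
    rw [eval_div_hom _ (subst_hom _ _ (hF i)), hev]
  refine ⟨?_, ?_, ?_, ?_⟩
  · refine (trdeg_le_of_injective (IntermediateField.inclusion ?_)
      (IntermediateField.inclusion_injective _)).trans h2
    rw [ratioField]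
    refine IntermediateField.adjoin.mono _ _ _ ?_
    rintro _ ⟨i, rfl⟩
    exact ⟨i, i₀, rfl⟩
  · intro i
    obtain ⟨j, hj⟩ := h1 i
    refine ⟨j, ?_⟩
    rw [eval_div_hom _ (hP i j)]
    exact div_ne_zero hj (pow_ne_zero _ h0)
  · intro i hi
    simp only
    rw [hev', h3 i hi, map_zero, zero_div]
  · intro i hi
    obtain ⟨z, hz⟩ := h4 i hi
    refine ⟨algebraMap K M z / y i₀ ^ (d i / m i), ?_⟩
    simp only
    rw [hev', div_pow, ← map_pow, hz, ← pow_mul, Nat.div_mul_cancel (hm i hi)]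

set_option maxHeartbeats 400000 in
/-- the passage from fields to schemes -/
theorem main_engC {κ : Type*} [CommRing κ] {B : Scheme.{u}} [IsIntegral B]
    [Algebra κ B.functionField]
    (V : B.Opens) [Nonempty V] (hV : IsAffineOpen V) (A₀ : Subalgebra κ B.functionField)
    (hA₀ : A₀.FG) (hVA : ∀ b : Γ(B, V), B.germToFunctionField V b ∈ A₀)
    {U : Scheme.{u}} (π : U ⟶ B) [IsSeparated π] [LocallyOfFiniteType π] [QuasiCompact π]
    {N r n : ℕ} (d m : Fin r → ℕ) (b : Fin r → Fin n → ℕ) (hd : ∀ i, 0 < d i)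
    (F : Fin r → MvPolynomial (Fin (N + 1)) B.functionField)
    (hF : ∀ i, (F i).IsHomogeneous (d i))
    (f : genFib π ⟶ PN N B.functionField) (hf : f ≫ PN.toSpec N _ = pullback.snd _ _)
    [LocallyQuasiFinite f] (Z C : Finset (Fin r)) (hm : ∀ i ∈ C, m i ∣ d i)
    (hU : ∀ i ∉ Z, i ∉ C → ∀ z : genFib π, NonVanishing (f z) (F i))
    (k₀ : Subfield B.functionField)
    (M : Type v) [Field M] [Algebra B.functionField M] [Algebra κ M]
    [IsScalarTower κ B.functionField M] (g : GL (Fin (N + 1)) M)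
    (F₀ : Fin r → MvPolynomial (Fin (N + 1) ⊕ Fin n) k₀)
    (H : Fin r → Fin n → MvPolynomial (Fin (N + 1)) M)
    (hP : ∀ i j, (mder (F₀ i) (H i) j).IsHomogeneous (b i j)) (w : ℕ)
    (hfin : ∀ (i₀ : Fin (N + 1)) (A : Subalgebra κ M), A.FG →
      {y : Fin (N + 1) → M | y i₀ = 1 ∧
        CondD m (fun i => subst (g : Matrix _ _ M) (F i)) F₀ H Z C w y ∧
        ∀ i ∈ (Z ∪ C)ᶜ, eval y (subst (g : Matrix _ _ M) (F i)) ≠ 0 ∧
          ∀ J : Sym (Fin (N + 1)) (d i),
            mon y J / eval y (subst (g : Matrix _ _ M) (F i)) ∈ A}.Finite) :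
    {σ : B ⟶ U | ∃ hσ : σ ≫ π = 𝟙 B, ∀ (t : Spec B.functionField)
      (x : Fin (N + 1) → B.functionField), IsCoord (f (genPt π σ hσ t)) x →
      CondC m F g F₀ H Z C w x}.Finite := by
  classical
  refine wrap_core (κ := κ) V hV A₀ hA₀ hVA π d hd F hF f hf (Z ∪ C)ᶜ ?_ M
    (CondC m F g F₀ H Z C w) ?_
  · intro i hi
    rw [Finset.mem_compl, Finset.mem_union] at hi
    push Not at hi
    exact hU i hi.1 hi.2
  · intro A hA
    have h0 := points (κ := κ) (L := B.functionField) (M := M) d F hF g (Z ∪ C)ᶜ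
      (CondD m (fun i => subst (g : Matrix _ _ M) (F i)) F₀ H Z C w)
    have h1 := h0 hfin A hA
    refine h1.subset ?_
    rintro x ⟨h1, h2⟩
    exact ⟨fun i₀ h0 => cond_CD d m b F hF g F₀ H hP Z C hm w x.rep h1 i₀ h0, h2⟩

theorem aeval_X_map {k M σ : Type*} [CommRing k] [CommRing M] [Algebra k M]
    (A : MvPolynomial σ k) :
    (aeval (X : σ → MvPolynomial σ M) A : MvPolynomial σ M) = map (algebraMap k M) A := by
  induction A using MvPolynomial.induction_on with
  | C c => rw [map_C, ← algebraMap_eq, AlgHom.commutes, IsScalarTower.algebraMap_apply k M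
      (MvPolynomial σ M), algebraMap_eq]
  | add p q hp hq => rw [map_add, map_add, hp, hq]
  | mul_X p i hp => rw [map_mul, map_mul, hp, aeval_X, map_X]

theorem aeval_lin {k M : Type*} [Field k] [Field M] [Algebra k M] {N n : ℕ}
    (A : MvPolynomial (Fin (N + 1)) k) (P : Fin n → MvPolynomial (Fin (N + 1)) k)
    (H : Fin n → MvPolynomial (Fin (N + 1)) M) :
    (aeval (Sum.elim X H) (rename Sum.inl A + ∑ j, rename Sum.inl (P j) * X (Sum.inr j) :
      MvPolynomial (Fin (N + 1) ⊕ Fin n) k) : MvPolynomial (Fin (N + 1)) M) =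
      map (algebraMap k M) A + ∑ j, map (algebraMap k M) (P j) * H j := by
  have h1 : ∀ Q : MvPolynomial (Fin (N + 1)) k,
      (aeval (Sum.elim X H) (rename Sum.inl Q : MvPolynomial (Fin (N + 1) ⊕ Fin n) k) :
        MvPolynomial (Fin (N + 1)) M) = map (algebraMap k M) Q := by
    intro Q
    rw [aeval_rename, ← aeval_X_map]
    rfl
  rw [map_add, map_sum, h1]
  congr 1
  refine Finset.sum_congr rfl fun j _ => ?_
  rw [map_mul, h1, aeval_X, Sum.elim_inr]

theorem pderiv_rename_inl {k : Type*} [Field k] {N n : ℕ} (A : MvPolynomial (Fin (N + 1)) k)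
    (j : Fin n) : pderiv (Sum.inr j) (rename Sum.inl A : MvPolynomial (Fin (N + 1) ⊕ Fin n) k)
      = 0 := by
  induction A using MvPolynomial.induction_on with
  | C c => rw [rename_C, pderiv_C]
  | add p q hp hq => rw [map_add, map_add, hp, hq, add_zero]
  | mul_X p i hp =>
    rw [map_mul, rename_X, Derivation.leibniz, hp, pderiv_X_of_ne (by simp), smul_zero,
      smul_zero, add_zero]

theorem mder_lin {k M : Type*} [Field k] [Field M] [Algebra k M] {N n : ℕ}
    (A : MvPolynomial (Fin (N + 1)) k) (P : Fin n → MvPolynomial (Fin (N + 1)) k)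
    (H : Fin n → MvPolynomial (Fin (N + 1)) M) (j : Fin n) :
    mder (rename Sum.inl A + ∑ j, rename Sum.inl (P j) * X (Sum.inr j) :
      MvPolynomial (Fin (N + 1) ⊕ Fin n) k) H j = map (algebraMap k M) (P j) := by
  classical
  have h1 : pderiv (Sum.inr j) (rename Sum.inl A + ∑ j, rename Sum.inl (P j) * X (Sum.inr j) :
      MvPolynomial (Fin (N + 1) ⊕ Fin n) k) = rename Sum.inl (P j) := by
    rw [map_add, pderiv_rename_inl, zero_add, map_sum, Finset.sum_eq_single j]
    · rw [Derivation.leibniz, pderiv_rename_inl, smul_zero, add_zero, pderiv_X_self, smul_eq_mul,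
        mul_one]
    · intro l _ hl
      rw [Derivation.leibniz, pderiv_rename_inl, smul_zero, add_zero, pderiv_X_of_ne
        (fun h => hl (Sum.inr_injective h)), smul_zero]
    · intro h
      exact absurd (Finset.mem_univ j) h
  rw [mder, h1, aeval_rename, ← aeval_X_map]
  rfl

set_option maxHeartbeats 400000 in
theorem main_c (R : CommRingCat.{u}) (B : Scheme.{u}) [IsIntegral B] (s : B ⟶ Spec R)
    [LocallyOfFiniteType s] [CharZero B.functionField]
    (U : Scheme.{u}) (π : U ⟶ B) [IsSeparated π] [LocallyOfFiniteType π] [QuasiCompact π]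
    {N r n : ℕ} (d q m : Fin r → ℕ) (b : Fin r → Fin n → ℕ) (hq : ∀ i, 0 < q i)
    (hb : ∀ i j, b i j + q i ≤ d i)
    (F : Fin r → MvPolynomial (Fin (N + 1)) B.functionField)
    (hF : ∀ i, (F i).IsHomogeneous (d i))
    (f : genFib π ⟶ PN N B.functionField) (hf : f ≫ PN.toSpec N _ = pullback.snd _ _)
    [LocallyQuasiFinite f]
    (Z C : Finset (Fin r)) (hZC : Disjoint Z C) (hm : ∀ i ∈ C, m i ∣ d i)
    (hU : ∀ i ∉ Z, i ∉ C → ∀ z : genFib π, NonVanishing (f z) (F i))
    (k₀ : Subfield B.functionField)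
    (hk₀ : ∀ r : R, (Spec.preimage (B.fromSpecStalk (genericPoint B) ≫ s)).hom r ∈ k₀)
    (M : Type v) [Field M] [Algebra B.functionField M]
    (hM : (⊤ : IntermediateField B.functionField M).FG) (g : GL (Fin (N + 1)) M)
    (F₀ : Fin r → MvPolynomial (Fin (N + 1) ⊕ Fin n) k₀)
    (hF₀ : ∀ i, IsWeightedHomogeneous (wts N fun j => d i - b i j) (F₀ i) (d i))
    (H : Fin r → Fin n → MvPolynomial (Fin (N + 1)) M)
    (hH : ∀ i j, (H i j).IsHomogeneous (d i - b i j))
    (hFA : ∀ i, subst (g : Matrix _ _ M) (F i) = aeval (Sum.elim X (H i)) (F₀ i))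
    (T : Finset (Fin r)) (hT : ∀ i ∈ T, ∀ y : Fin (N + 1) → AlgebraicClosure M,
      (∀ j, aeval y (mder (F₀ i) (H i) j) = 0) → y = 0)
    (w c : ℕ)
    (hcoef : ((∑ i, ∑ j, (N + (d i - b i j)).choose N : ℕ) : Cardinal) ≤
      Algebra.trdeg k₀ (coeffField k₀ H) + c)
    (hnum : 2 * w + 2 + c + ∑ i ∈ C, d i / m i ≤
        ∑ i, Pool.Agent.Helper6.CO.qm T d q i + Z.card ∨
      ((∃ (A : Fin r → MvPolynomial (Fin (N + 1)) k₀)
          (P : Fin r → Fin n → MvPolynomial (Fin (N + 1)) k₀),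
          (∀ i, (A i).IsHomogeneous (d i)) ∧ (∀ i j, (P i j).IsHomogeneous (b i j)) ∧
          ∀ i, F₀ i = rename Sum.inl (A i) + ∑ j, rename Sum.inl (P i j) * X (Sum.inr j)) ∧
        ((Z = Finset.univ ∧ 2 * w + 1 + c ≤ ∑ i, (q i + 1) ∧ w + 2 ≤ ∑ i, q i ∧
          2 * N + c ≤ ∑ i, (q i + 1) + 1) ∨
        (Algebra.FiniteType ℤ R ∧ C = ∅ ∧ 2 * N + 1 + c ≤ ∑ i, q i + Z.card ∧
          N + 2 ≤ ∑ i, q i)))) :
    {σ : B ⟶ U | ∃ hσ : σ ≫ π = 𝟙 B, ∀ (t : Spec B.functionField)
      (x : Fin (N + 1) → B.functionField), IsCoord (f (genPt π σ hσ t)) x →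
      CondC m F g F₀ H Z C w x}.Finite := by
  classical
  haveI : CharZero M :=
    charZero_of_injective_algebraMap (algebraMap B.functionField M).injective
  by_cases hn : Nonempty (Fin r → Fin n)
  swap
  · -- no multipliers
    have hr : ∃ i : Fin r, ∀ j : Fin n, False := by
      by_contra hne
      push Not at hne
      exact hn ⟨fun i => (hne i).choose⟩
    obtain ⟨i, hi⟩ := hr
    refine Set.Finite.subset Set.finite_empty ?_
    rintro σ ⟨hσ, h1⟩
    obtain ⟨t⟩ : Nonempty (Spec B.functionField) := inferInstance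
    obtain ⟨x, hx⟩ := exists_coord (genPt π σ hσ ≫ f)
      (by rw [Category.assoc, hf]; exact ffib_snd π σ hσ) t
    obtain ⟨j, -⟩ := (h1 t x hx).1 i
    exact hi j
  have hd : ∀ i, 0 < d i := by
    obtain ⟨j⟩ := hn
    intro i
    have := hq i
    have := hb i (j i)
    omega
  rcases hnum with hnum | ⟨⟨A, P, hA, hP, hAP⟩, hnum⟩
  · obtain ⟨V, hVne, hV, ⟨A₀, hA₀, hVA⟩, hKfg⟩ := exists_affine_ft R s k₀ hk₀
    haveI := hVne
    have hfg : (⊤ : IntermediateField k₀ M).FG := wrap_fg_trans hKfg hM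
    have hP : ∀ i j, (mder (F₀ i) (H i) j).IsHomogeneous (b i j) := by
      intro i j
      refine hom_mder (fun j => d i - b i j) (F₀ i) (hF₀ i) (H i) (hH i) j ?_
      have := hb i j
      omega
    refine main_engC (κ := k₀) V hV A₀ hA₀ hVA π d m b hd F hF f hf Z C hm hU k₀ M g F₀ H hP w ?_
    intro i₀ R' hR'
    have h9 := Pool.Agent.Helper8.CO.eng_C (k₀ := k₀) (L := M) hfg d q m b hq hb
      (fun i => subst (g : Matrix _ _ M) (F i))
    have h12 := h9 F₀ hF₀ H hH
    have h13 := h12 hFA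
    have h14 := h13 w c hcoef
    have h15 := h14 Z C T hZC hm hT hnum
    have h11 := h15 i₀ R' hR'
    refine h11.subset ?_
    rintro y ⟨h4, ⟨h5, h6, h7, h8⟩, h9⟩
    exact ⟨h4, ⟨h5, h6, h7, h8⟩, h9⟩
  · have h1 := main_v R B s U π d q m b hq hb F hF f hf Z C hZC hm hU k₀ hk₀ M hM g A hA P hP H hH
      (fun i => by rw [hFA i, hAP i, aeval_lin]) w c hcoef (Or.inr hnum)
    refine h1.subset ?_
    rintro σ ⟨hσ, h2⟩
    refine ⟨hσ, fun t x hx => ?_⟩
    obtain ⟨h3, h4, h5, h6⟩ := h2 t x hx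
    refine ⟨fun i => ?_, h4, h5, h6⟩
    obtain ⟨j, hj⟩ := h3 i
    refine ⟨j, ?_⟩
    rw [hAP i, mder_lin, MvPolynomial.eval_map, ← aeval_def] at hj
    exact hj

end Pool.Agent.Helper91.CO
end
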