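import Pool.Agent.Helper12.LVM.C03
import Pool.Agent.Helper12.LVM.C10
import Pool.Agent.Helper12.LVM.C11
import Pool.Agent.Helper12.LVM.C07
import Pool.Agent.Helper12.LVM.B03
import Pool.Agent.Helper12.LVM.B05
import Pool.Agent.Helper12.LVM.B07

/- Helper12.LVF.H10.CT.KeyTwo -/
section
/-! # CT: the key lemma for two-vectors -/

set_option autoImplicit false

namespace Pool.Agent.Helper10.CT

open scoped BigOperators
open Pool.Agent.Helper8.LG hiding eul cv syz phi exists_functional
open Pool.Agent.Helper6.CO (Fam Mov Nul qm)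

section

open Pool.Agent.Helper6.CO (eul cv syz phi colR exists_flag exists_functional flag_one li_sum
  left_rows_le mon_rep)
open Pool.Agent.Helper6.CT (colO colU colU_span colU_zero nx u_minor)

/-- counting the columns -/
private theorem count_q {κ ι : Type*} [Fintype ι] [DecidableEq ι] (S : Set κ) [Fintype S]
    (bl : κ → ι) (d q₀ : ι → ℕ) (q : κ → ℕ) (hq : ∀ t, q₀ (bl t) ≤ q t) (Y : Finset ι)
    (hS : ∀ i, ∃ t ∈ S, bl t = i) (sp : ι → Prop) [DecidablePred sp]
    (hsp : ∀ i, sp i ↔ i ∈ Y ∧ ∀ s ∈ S, ∀ t ∈ S, bl s = i → bl t = i → s = t) :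
    ∑ i, qm Y d q₀ i + Fintype.card ι ≤
        ∑ t : S, (if sp (bl t) then d (bl t) else q t) + Fintype.card S ∧
      ∑ i, qn Y d q₀ i ≤ ∑ t : S, (if sp (bl t) then d (bl t) else q t) := by
  classical
  have h1 : ∑ i, qm Y d q₀ i + Fintype.card ι = ∑ i, (qm Y d q₀ i + 1) := by
    rw [Finset.sum_add_distrib]
    simp
  have h2 : ∑ t : S, (if sp (bl t) then d (bl t) else q t) + Fintype.card S =
      ∑ t : S, ((if sp (bl t) then d (bl t) else q t) + 1) := by
    rw [Finset.sum_add_distrib]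
    simp
  have main : ∀ (e : ℕ), ∀ i, (if i ∈ Y then min (d i) (2 * q₀ i + e) else q₀ i) + e ≤
      ∑ t ∈ Finset.univ.filter (fun t : S => bl t = i),
        ((if sp (bl t) then d (bl t) else q t) + e) := by
    intro e i
    obtain ⟨t, ht, hti⟩ := hS i
    have htm : (⟨t, ht⟩ : S) ∈ Finset.univ.filter fun t : S => bl t = i :=
      Finset.mem_filter.2 ⟨Finset.mem_univ _, hti⟩
    by_cases hi : sp i
    · have h3 := Finset.single_le_sum
        (f := fun t : S => (if sp (bl t) then d (bl t) else q t) + e)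
        (fun _ _ => Nat.zero_le _) htm
      refine le_trans ?_ h3
      simp only [hti, if_pos hi]
      rw [if_pos ((hsp i).1 hi).1]
      exact Nat.add_le_add_right (min_le_left _ _) e
    · by_cases hY : i ∈ Y
      · have h4 : ¬ ∀ s ∈ S, ∀ t ∈ S, bl s = i → bl t = i → s = t :=
          fun h => hi ((hsp i).2 ⟨hY, h⟩)
        push Not at h4
        obtain ⟨s, hs, t', ht', hsi, hti', hst⟩ := h4
        have h5 : ({⟨s, hs⟩, ⟨t', ht'⟩} : Finset S) ⊆
            Finset.univ.filter fun t : S => bl t = i := by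
          intro y hy
          rw [Finset.mem_insert, Finset.mem_singleton] at hy
          rcases hy with rfl | rfl
          · exact Finset.mem_filter.2 ⟨Finset.mem_univ _, hsi⟩
          · exact Finset.mem_filter.2 ⟨Finset.mem_univ _, hti'⟩
        have h6 := Finset.sum_le_sum_of_subset (f := fun t : S =>
          (if sp (bl t) then d (bl t) else q t) + e) h5
        refine le_trans ?_ h6
        rw [Finset.sum_pair (fun h => hst (congrArg Subtype.val h))]
        simp only [hsi, hti', if_neg hi]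
        rw [if_pos hY]
        have h7 := hq s
        have h8 := hq t'
        rw [hsi] at h7
        rw [hti'] at h8
        have h9 := min_le_right (d i) (2 * q₀ i + e)
        omega
      · have h3 := Finset.single_le_sum
          (f := fun t : S => (if sp (bl t) then d (bl t) else q t) + e)
          (fun _ _ => Nat.zero_le _) htm
        refine le_trans ?_ h3
        simp only [hti, if_neg hi]
        rw [if_neg hY]
        have h7 := hq t
        rw [hti] at h7
        omega
  refine ⟨?_, ?_⟩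
  · rw [h1, h2, ← Finset.sum_fiberwise_of_maps_to (s := Finset.univ (α := S))
      (t := Finset.univ (α := ι)) (g := fun t : S => bl t) (fun _ _ => Finset.mem_univ _)]
    exact Finset.sum_le_sum fun i _ => main 1 i
  · rw [← Finset.sum_fiberwise_of_maps_to (s := Finset.univ (α := S))
      (t := Finset.univ (α := ι)) (g := fun t : S => bl t) (fun _ _ => Finset.mem_univ _)]
    exact Finset.sum_le_sum fun i _ => main 0 i

private theorem key_aux {E : Type*} [Field E] {σ ι κ Tt : Type*} [Fintype σ] [DecidableEq σ]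
    [Fintype ι] [DecidableEq ι] [Fintype κ] [DecidableEq κ] [Fintype Tt] (bl : κ → ι)
    (d q₀ : ι → ℕ) (bb n : κ → ℕ) (hq₀ : ∀ t, q₀ (bl t) ≤ n t + 1)
    (a : (i : ι) → Sym σ (d i) → E) (p : (t : κ) → Sym σ (bb t) → E)
    (h : (t : κ) → Sym σ (n t + 1) → E) (D : Ix σ (fun t => n t + 1) → Derivation ℤ E E)
    (jj : Tt → Ix σ (fun t => n t + 1)) (θ : Tt → Ix σ (fun t => n t + 1) → E)
    (hD : Dual (fun t => n t + 1) h D jj θ)
    (hM : Mov bl d bb (fun t => n t + 1) a p h D)
    (Z Y : Finset ι) (x : σ → E) (i₀ j₁ : σ) (hx : x i₀ = 1) (hj : j₁ ≠ i₀)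
    (hZ : ∀ i ∈ Z, form (a i) x = 0) (hU : ∀ i ∉ Z, form (a i) x ≠ 0)
    (hP : ∀ i, ∃ t, bl t = i ∧ form (p t) x ≠ 0) (w : ℕ)
    (hw1 : 2 * w + 1 + Fintype.card Tt ≤ ∑ i, qm Y d q₀ i + Z.card)
    (hw2 : w + 2 ≤ ∑ i, qn Y d q₀ i) (hm : MinorsVanish D x w) :
    ∃ δ : σ → E, (∃ j l, x j * δ l - x l * δ j ≠ 0) ∧
      KeyB bl d a p D θ Z Y x fun j l => x j * δ l - x l * δ j := by
  classical
  have heul : (eul d Z x : (σ ⊕ ι) ⊕ Tt → E) ≠ 0 := by
    intro h
    have h1 := congrFun h (Sum.inl (Sum.inl i₀))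
    simp only [eul, Sum.elim_inl, Pi.zero_apply, hx] at h1
    exact one_ne_zero h1
  obtain ⟨b, hb0, hbli, hbsp⟩ := Helper74.LG.exists_basis_part (E := E) (eul d Z x) heul
    (syz n a D θ Z x)
  let K := {s : Σ t : κ, Sym σ (n t) × σ × σ // some s ∈ b}
  have hKfin : Fintype K := Fintype.ofFinite K
  let f₀ : K → Σ t : κ, Sym σ (n t) × σ × σ := Subtype.val
  let emb : Option K → b := fun o => o.elim ⟨none, hb0⟩ fun k => ⟨some k.1, k.2⟩
  have hemb : Function.Injective emb := by
    intro o o' h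
    rcases o with _ | k <;> rcases o' with _ | k'
    · rfl
    · exact absurd (congrArg Subtype.val h) (by simp [emb])
    · exact absurd (congrArg Subtype.val h) (by simp [emb])
    · have h1 := congrArg Subtype.val h
      have h2 : k.1 = k'.1 := Option.some_injective _ h1
      rw [Subtype.ext h2]
  have hfli : LinearIndependent E (colO n a D θ Z f₀ x) := by
    have h1 := hbli.comp emb hemb
    have h2 : (fun o : b => (o : Option _).elim (eul d Z x) (syz n a D θ Z x)) ∘ emb =
        colO n a D θ Z f₀ x := by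
      funext o
      rcases o with _ | k <;> rfl
    rwa [h2] at h1
  have hfsp : ∀ s, syz n a D θ Z x s ∈
      Submodule.span E (Set.range (colO n a D θ Z f₀ x)) := by
    intro s
    refine Submodule.span_mono ?_ (hbsp s)
    rintro _ ⟨⟨o, ho⟩, rfl⟩
    rcases o with _ | s'
    · exact ⟨none, rfl⟩
    · exact ⟨some ⟨s', ho⟩, rfl⟩
  set V₀ : Submodule E ((σ ⊕ ι) ⊕ Tt → E) :=
    Submodule.span E (Set.range (colO n a D θ Z f₀ x)) with hV₀
  obtain ⟨r, S, hF1, hF2, hF3, -⟩ := exists_flag (E := E) bl V₀ (colR n a D θ Z x i₀)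
  have : Fintype S := Fintype.ofFinite S
  -- the functionals
  obtain ⟨lam, hl1, hl2, hl3⟩ := exists_functional bl n a p h D jj θ hD hM Z x hZ hU
  have hV : ∀ v ∈ V₀, lam v = 0 := by
    have h2 : V₀ ≤ LinearMap.ker lam := by
      rw [hV₀, Submodule.span_le]
      rintro _ ⟨o, rfl⟩
      rcases o with _ | s
      · exact hl1
      · exact hl3 _
    exact fun v hv => h2 hv
  have hC : ∀ t, lam (colR n a D θ Z x i₀ t) = Pi.single (bl t) (-(form (p t) x)) := by
    intro t
    rw [colR, hl2, mon_rep, hx, one_pow, mul_one]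
  -- every block has a column
  have hlow : ∀ i v, v ∈ V₀ ⊔ Submodule.span E
      (colR n a D θ Z x i₀ '' {s | s ∈ S ∧ bl s ≠ i}) → lam v i = 0 := by
    intro i v hv
    have h3 : V₀ ⊔ Submodule.span E (colR n a D θ Z x i₀ '' {s | s ∈ S ∧ bl s ≠ i}) ≤
        LinearMap.ker ((LinearMap.proj i : (ι → E) →ₗ[E] E).comp lam) := by
      refine sup_le ?_ ?_
      · intro v hv
        rw [LinearMap.mem_ker, LinearMap.comp_apply, hV v hv]
        rfl
      · rw [Submodule.span_le]
        rintro _ ⟨s, ⟨_, hs⟩, rfl⟩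
        rw [SetLike.mem_coe, LinearMap.mem_ker, LinearMap.comp_apply, LinearMap.proj_apply, hC,
          Pi.single_eq_of_ne hs.symm]
    exact h3 hv
  have hSne : ∀ i, ∃ t ∈ S, bl t = i := by
    intro i
    by_contra hcon
    push Not at hcon
    obtain ⟨t, hti, htp⟩ := hP i
    have h1 : V₀ ⊔ Submodule.span E (colR n a D θ Z x i₀ '' {s | s ∈ S ∧ r s ≤ r t}) ≤
        V₀ ⊔ Submodule.span E (colR n a D θ Z x i₀ '' {s | s ∈ S ∧ bl s ≠ i}) :=
      sup_le_sup_left (Submodule.span_mono (Set.image_mono fun s hs =>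
        (⟨hs.1, hcon s hs.1⟩ : s ∈ S ∧ bl s ≠ i))) V₀
    have h2 := hlow i _ (h1 (hF2 t))
    rw [hC, hti, Pi.single_eq_same, neg_eq_zero] at h2
    exact htp h2
  -- the special blocks
  let sp : ι → Prop := fun i => i ∈ Y ∧ ∀ s ∈ S, ∀ t ∈ S, bl s = i → bl t = i → s = t
  have hone : ∀ t ∈ S, sp (bl t) → ∀ s ∈ S, bl s = bl t → s = t :=
    fun t ht hsp s hs hst => hsp.2 s hs t ht hst rfl
  have hne : ∀ t ∈ S, sp (bl t) → form (p t) x ≠ 0 := by
    intro t ht hsp
    obtain ⟨t₁, ht₁, htp⟩ := hP (bl t)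
    obtain ⟨cc, v, w, _, _, _, h2⟩ := flag_one bl _ (colR n a D θ Z x i₀) r S hF2 hF3 lam
      (fun t => form (p t) x) hV hC t (fun s hs hst => hone t ht hsp s hs hst) t₁ ht₁
    intro h0
    apply htp
    rw [h2, h0, mul_zero]
  set g : κ → E := fun t => if sp (bl t) then (form (p t) x)⁻¹ else 1 with hg
  have hg0 : ∀ t ∈ S, g t ≠ 0 := by
    intro t ht
    rw [hg]
    by_cases hsp : sp (bl t)
    · simp only [if_pos hsp]
      exact inv_ne_zero (hne t ht hsp)
    · simp only [if_neg hsp]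
      exact one_ne_zero
  have hK : LinearIndependent E (colU n a D θ Z f₀ S x i₀ g id) :=
    li_sum (colO n a D θ Z f₀ x) (colR n a D θ Z x i₀) S g hg0 hfli hF1
  obtain ⟨ρ, hρinj, hρdet⟩ := exists_minor _ hK
  have hρZ : ∀ s i, ρ s = Sum.inl (Sum.inr i) → i ∉ Z := by
    intro s i hs hi
    apply hρdet
    refine Matrix.det_eq_zero_of_row_eq_zero s fun t => ?_
    rw [Matrix.of_apply, hs]
    exact colU_zero f₀ S i₀ g id t hi
  -- counting
  set isx : (σ ⊕ ι) ⊕ Tt → Bool :=
    Sum.elim (Sum.elim (fun _ => true) (fun _ => false)) (fun _ => false) with hisx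
  set lft : Finset (Option K ⊕ S) := Finset.univ.filter fun s => isx (ρ s) = true with hlft
  set rgt : Finset (Option K ⊕ S) := Finset.univ.filter fun s => ¬ isx (ρ s) = true with hrgt
  have hnx : nx ρ = lft.card := rfl
  have hn' : lft.card ≤ w + 1 := by
    refine left_rows_le (col D x) w hm
      (fun t l => colU n a D θ Z f₀ S x i₀ g id t (Sum.inl (Sum.inl l)))
      (colU_span f₀ S i₀ g id) _ hρdet lft
      (fun s => Sum.elim (Sum.elim id (fun _ => i₀)) (fun _ => i₀) (ρ s)) ?_
    intro s hs t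
    rw [hlft, Finset.mem_filter] at hs
    rcases h : ρ s with (l | i) | j
    · simp [h]
    · rw [h] at hs
      simp [hisx] at hs
    · rw [h] at hs
      simp [hisx] at hs
  have hq' : rgt.card + Z.card ≤ Fintype.card ι + Fintype.card Tt := by
    have h1 : rgt.image ρ ⊆ ((Finset.univ \ Z).map ⟨fun i => Sum.inl (Sum.inr i),
          Sum.inl_injective.comp Sum.inr_injective⟩) ∪
        (Finset.univ : Finset Tt).map ⟨Sum.inr, Sum.inr_injective⟩ := by
      intro y hy
      rw [Finset.mem_image] at hy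
      obtain ⟨s, hs, rfl⟩ := hy
      rw [hrgt, Finset.mem_filter] at hs
      rw [Finset.mem_union]
      rcases h : ρ s with (l | i) | j
      · rw [h] at hs
        simp [hisx] at hs
      · left
        rw [Finset.mem_map]
        exact ⟨i, Finset.mem_sdiff.2 ⟨Finset.mem_univ i, hρZ s i h⟩, rfl⟩
      · right
        rw [Finset.mem_map]
        exact ⟨j, Finset.mem_univ j, rfl⟩
    have h2 := (Finset.card_le_card h1).trans (Finset.card_union_le _ _)
    rw [Finset.card_image_of_injective _ hρinj, Finset.card_map, Finset.card_map,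
      Finset.card_sdiff_of_subset (Finset.subset_univ Z), Finset.card_univ,
      Finset.card_univ] at h2
    have h3 : Z.card ≤ Fintype.card ι := Finset.card_le_univ Z
    omega
  have hcard : Fintype.card K + 1 + Fintype.card S = lft.card + rgt.card := by
    rw [← Fintype.card_option, ← Fintype.card_sum, ← Finset.card_univ (α := Option K ⊕ S)]
    exact (Finset.card_filter_add_card_filter_not _).symm
  obtain ⟨hc1, hc2⟩ := count_q S bl d q₀ (fun t => n t + 1) hq₀ Y hSne sp fun i => Iff.rfl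
  set SQ : ℕ := ∑ t : S, (if sp (bl t) then d (bl t) else n t + 1) with hSQ
  obtain ⟨k', hk'⟩ : ∃ k', Fintype.card σ + Fintype.card ι + Fintype.card Tt =
      Fintype.card (Option K ⊕ S) + k' := by
    apply Nat.exists_eq_add_of_le
    rw [← Fintype.card_sum, ← Fintype.card_sum]
    exact Fintype.card_le_of_injective ρ hρinj
  have hSne' : ∀ i, ∃ t, bl t = i := fun i => by
    obtain ⟨t, _, ht⟩ := hSne i
    exact ⟨t, ht⟩
  by_cases hKne : Nonempty K
  · -- one syzygy is varied
    obtain ⟨k₁⟩ := hKne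
    set t₁ : κ := (f₀ k₁).1 with ht₁
    set I₁ : Sym σ (n t₁) := (f₀ k₁).2.1 with hI₁
    set M := Matrix.of fun s t => colU n a D θ Z f₀ S x i₀ g id t (ρ s) with hMdef
    set c₁ : Option K ⊕ S := Sum.inl (some k₁) with hc₁
    have hup : ∀ j l, Matrix.det (Matrix.of fun s t =>
        colU n a D θ Z (Function.update f₀ k₁ ⟨t₁, I₁, j, l⟩) S x i₀ g id t (ρ s)) =
        x j * Matrix.det (M.updateCol c₁ fun s => cv n a D θ Z x ⟨t₁, l ::ₛ I₁⟩ (ρ s)) -
          x l * Matrix.det (M.updateCol c₁ fun s => cv n a D θ Z x ⟨t₁, j ::ₛ I₁⟩ (ρ s)) := by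
      intro j l
      have h1 : (Matrix.of fun s t =>
          colU n a D θ Z (Function.update f₀ k₁ ⟨t₁, I₁, j, l⟩) S x i₀ g id t (ρ s)) =
          M.updateCol c₁ ((x j • fun s => cv n a D θ Z x ⟨t₁, l ::ₛ I₁⟩ (ρ s)) +
            (-x l) • fun s => cv n a D θ Z x ⟨t₁, j ::ₛ I₁⟩ (ρ s)) := by
        ext s t
        rw [Matrix.updateCol_apply]
        by_cases ht : t = c₁
        · rw [if_pos ht, ht]
          have h2 : colU n a D θ Z (Function.update f₀ k₁ ⟨t₁, I₁, j, l⟩) S x i₀ g id c₁ =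
              syz n a D θ Z x ⟨t₁, I₁, j, l⟩ := by
            change syz n a D θ Z x (Function.update f₀ k₁ ⟨t₁, I₁, j, l⟩ k₁) = _
            rw [Function.update_self]
          rw [Matrix.of_apply, h2]
          simp only [syz, Pi.sub_apply, Pi.add_apply, Pi.smul_apply, smul_eq_mul]
          ring
        · rw [if_neg ht, hMdef, Matrix.of_apply, Matrix.of_apply]
          rcases t with (_ | k) | i
          · rfl
          · have h3 : k ≠ k₁ := fun h => ht (by rw [h])
            change syz n a D θ Z x (Function.update f₀ k₁ ⟨t₁, I₁, j, l⟩ k) _ =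
              syz n a D θ Z x (f₀ k) _
            rw [Function.update_of_ne h3]
          · rfl
      rw [h1, Matrix.det_updateCol_add, Matrix.det_updateCol_smul, Matrix.det_updateCol_smul]
      ring
    refine ⟨fun l => Matrix.det (M.updateCol c₁ fun s => cv n a D θ Z x ⟨t₁, l ::ₛ I₁⟩ (ρ s)),
      ⟨(f₀ k₁).2.2.1, (f₀ k₁).2.2.2, ?_⟩, ?_⟩
    · rw [← hup]
      have h1 : (⟨t₁, I₁, (f₀ k₁).2.2.1, (f₀ k₁).2.2.2⟩ :
          Σ t : κ, Sym σ (n t) × σ × σ) = f₀ k₁ := rfl
      rw [h1, Function.update_eq_self]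
      exact hρdet
    · intro O Δ hO hθ hrow hnul j l
      simp only
      rw [← hup]
      set f' := Function.update f₀ k₁ ⟨t₁, I₁, j, l⟩ with hf'
      by_cases h0 : Matrix.det (Matrix.of fun s t => colU n a D θ Z f' S x i₀ g id t (ρ s)) = 0
      · rw [h0, mul_zero]
        exact zero_mem O
      · obtain ⟨j₀, hj₀, hjO⟩ := Helper74.LG.exists_max_coord O x i₀ (by
          rw [hx]
          exact one_ne_zero)
        have hci : (x j₀)⁻¹ ∈ O := by
          have h1 := hjO i₀
          rwa [hx, one_div] at h1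
        have hli' : LinearIndependent E (colU n a D θ Z f' S x i₀ g id) :=
          Helper49.LG.li_of_minor _ ρ h0
        have hfli' : LinearIndependent E (colO n a D θ Z f' x) :=
          hli'.comp Sum.inl Sum.inl_injective
        have hle' : ∀ o, colO n a D θ Z f' x o ∈
            Submodule.span E (Set.range (colO n a D θ Z f₀ x)) := by
          rintro (_ | k)
          · exact Submodule.subset_span ⟨none, rfl⟩
          · exact hfsp _
        have hfsp' : ∀ s, syz n a D θ Z x s ∈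
            Submodule.span E (Set.range (colO n a D θ Z f' x)) :=
          Helper49.LG.span_of_li _ _ hfli hfli' hle' (syz n a D θ Z x) hfsp
        have hVeq : Submodule.span E (Set.range (colO n a D θ Z f' x)) = V₀ := by
          refine le_antisymm ?_ ?_
          · rw [Submodule.span_le]
            rintro _ ⟨o, rfl⟩
            exact hle' o
          · rw [hV₀, Submodule.span_le]
            rintro _ ⟨o, rfl⟩
            rcases o with _ | k
            · exact Submodule.subset_span ⟨none, rfl⟩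
            · exact hfsp' _
        obtain ⟨N, hN1, hN2⟩ := u_minor bl p hM.deg f' hfsp' hU i₀ hx r S
          (by rw [hVeq]; exact hF2) hF3 lam (by rw [hVeq]; exact hV) hC hSne' sp
          (fun i hi => hi.1) hone hne ρ hρZ O Δ hO hθ hrow hnul j₀ hj₀ hjO
        obtain ⟨m, hm'⟩ : ∃ m, SQ = nx ρ + Fintype.card K + m :=
          Nat.exists_eq_add_of_le (by omega)
        rw [← hSQ, hm', pow_add, mul_comm _ N,
          mul_comm (x j₀ ^ (nx ρ + Fintype.card K)) (x j₀ ^ m), ← mul_assoc] at hN2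
        have hN3 := mul_right_cancel₀ (pow_ne_zero _ hj₀) hN2
        have h1 : Matrix.det (Matrix.of fun s t => colU n a D θ Z f' S x i₀ g id t (ρ s)) =
            (x j₀)⁻¹ ^ m * N := by
          rw [← hN3, mul_comm, mul_assoc, ← mul_pow, mul_inv_cancel₀ hj₀, one_pow, mul_one]
        rw [h1, hk', pow_mul, pow_add]
        have h2 : (Δ ^ 2) ^ Fintype.card (Option K ⊕ S) * (Δ ^ 2) ^ k' * ((x j₀)⁻¹ ^ m * N) =
            (Δ ^ 2) ^ k' * (x j₀)⁻¹ ^ m * ((Δ ^ 2) ^ Fintype.card (Option K ⊕ S) * N) := by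
          ring
        rw [h2]
        exact mul_mem (mul_mem (pow_mem (pow_mem hO.1 _) _) (pow_mem hci _)) hN1
  · -- no syzygy
    have hK0 : Fintype.card K = 0 := by
      rw [Fintype.card_eq_zero_iff]
      exact not_nonempty_iff.1 hKne
    set G := Matrix.det (Matrix.of fun s t => colU n a D θ Z f₀ S x i₀ g id t (ρ s)) with hG
    refine ⟨Pi.single j₁ G, ⟨i₀, j₁, ?_⟩, ?_⟩
    · rw [Pi.single_eq_same, Pi.single_eq_of_ne hj.symm, hx, one_mul, mul_zero, sub_zero]
      exact hρdet
    · intro O Δ hO hθ hrow hnul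
      obtain ⟨j₀, hj₀, hjO⟩ := Helper74.LG.exists_max_coord O x i₀ (by
        rw [hx]
        exact one_ne_zero)
      have hci : (x j₀)⁻¹ ∈ O := by
        have h1 := hjO i₀
        rwa [hx, one_div] at h1
      obtain ⟨N, hN1, hN2⟩ := u_minor bl p hM.deg f₀ hfsp hU i₀ hx r S hF2 hF3 lam hV hC
        hSne' sp (fun i hi => hi.1) hone hne ρ hρZ O Δ hO hθ hrow hnul j₀ hj₀ hjO
      obtain ⟨m, hm'⟩ : ∃ m, SQ = nx ρ + Fintype.card K + (1 + m) := by
        obtain ⟨m, hm'⟩ : ∃ m, SQ = nx ρ + Fintype.card K + 1 + m :=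
          Nat.exists_eq_add_of_le (by omega)
        exact ⟨m, by omega⟩
      rw [← hSQ, hm', pow_add, mul_comm _ N,
        mul_comm (x j₀ ^ (nx ρ + Fintype.card K)) (x j₀ ^ (1 + m)), ← mul_assoc] at hN2
      have hN3 := mul_right_cancel₀ (pow_ne_zero _ hj₀) hN2
      have h1 : G * x j₀ = (x j₀)⁻¹ ^ m * N := by
        rw [← hN3, pow_add, pow_one]
        have h2 : (x j₀)⁻¹ ^ m * x j₀ ^ m = 1 := by
          rw [← mul_pow, inv_mul_cancel₀ hj₀, one_pow]
        calc G * x j₀ = G * x j₀ * ((x j₀)⁻¹ ^ m * x j₀ ^ m) := by rw [h2, mul_one]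
          _ = _ := by ring
      have hGx : ∀ l, Δ ^ (2 * (Fintype.card σ + Fintype.card ι + Fintype.card Tt)) *
          (G * x l) ∈ O := by
        intro l
        have h2 : G * x l = (x j₀)⁻¹ ^ m * N * (x l / x j₀) := by
          rw [← h1]
          field_simp
        rw [h2, hk', pow_mul, pow_add]
        have h3 : (Δ ^ 2) ^ Fintype.card (Option K ⊕ S) * (Δ ^ 2) ^ k' *
            ((x j₀)⁻¹ ^ m * N * (x l / x j₀)) =
            (Δ ^ 2) ^ k' * (x j₀)⁻¹ ^ m * (x l / x j₀) *
              ((Δ ^ 2) ^ Fintype.card (Option K ⊕ S) * N) := by ring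
        rw [h3]
        exact mul_mem (mul_mem (mul_mem (pow_mem (pow_mem hO.1 _) _) (pow_mem hci _))
          (hjO l)) hN1
      have hGx' : ∀ j l, Δ ^ (2 * (Fintype.card σ + Fintype.card ι + Fintype.card Tt)) *
          (x j * (Pi.single j₁ G : σ → E) l) ∈ O := by
        intro j l
        by_cases hl : l = j₁
        · rw [hl, Pi.single_eq_same, mul_comm (x j) G]
          exact hGx j
        · rw [Pi.single_eq_of_ne hl, mul_zero, mul_zero]
          exact zero_mem O
      intro j l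
      simp only
      rw [mul_sub]
      exact sub_mem (hGx' j l) (hGx' l j)

end

/-- **The key lemma for two-vectors.** -/
theorem key_two {E : Type*} [Field E] {σ ι κ τ : Type*} [Fintype σ] [DecidableEq σ] [Fintype ι]
    [DecidableEq ι] [Fintype κ] [DecidableEq κ] [Fintype τ] (bl : κ → ι) (d q₀ : ι → ℕ)
    (b q : κ → ℕ) (hq : ∀ t, 0 < q t) (hq₀ : ∀ t, q₀ (bl t) ≤ q t)
    (a : (i : ι) → Sym σ (d i) → E) (p : (t : κ) → Sym σ (b t) → E)
    (h : (t : κ) → Sym σ (q t) → E) (D : Ix σ q → Derivation ℤ E E)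
    (jj : τ → Ix σ q) (θ : τ → Ix σ q → E) (hD : Dual q h D jj θ)
    (hM : Mov bl d b q a p h D)
    (Z Y : Finset ι) (x : σ → E) (i₀ j₁ : σ) (hx : x i₀ = 1) (hj : j₁ ≠ i₀)
    (hZ : ∀ i ∈ Z, form (a i) x = 0) (hU : ∀ i ∉ Z, form (a i) x ≠ 0)
    (hP : ∀ i, ∃ t, bl t = i ∧ form (p t) x ≠ 0) (w : ℕ)
    (hw1 : 2 * w + 1 + Fintype.card τ ≤ ∑ i, qm Y d q₀ i + Z.card)
    (hw2 : w + 2 ≤ ∑ i, qn Y d q₀ i) (hm : MinorsVanish D x w) :
    ∃ δ : σ → E, (∃ j l, x j * δ l - x l * δ j ≠ 0) ∧
      KeyB bl d a p D θ Z Y x fun j l => x j * δ l - x l * δ j := by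
  obtain ⟨n, rfl⟩ : ∃ n : κ → ℕ, q = fun t => n t + 1 :=
    ⟨fun t => q t - 1, funext fun t => (Nat.sub_add_cancel (hq t)).symm⟩
  exact key_aux bl d q₀ b n hq₀ a p h D jj θ hD hM Z Y x i₀ j₁ hx hj hZ hU hP w hw1 hw2 hm

end Pool.Agent.Helper10.CT
end

/- Helper12.LVF.H10.CT.BoundLine -/
section
/-! # CT: the two-vectors lie in a finite-dimensional space -/

set_option autoImplicit false

namespace Pool.Agent.Helper10.CT

open scoped BigOperators
open Pool.Agent.Helper8.LG
open Pool.Agent.Helper49.LV (dir_rows)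
open Pool.Agent.Helper6.CO (Fam Mov Nul qm)
open Pool.Agent.Helper8.CO (NulP nul_bound)

private theorem blInv {L : Type*} [Field L] (D : Derivation ℤ L L) (f : L) :
    D f⁻¹ = -(f⁻¹ ^ 2) * D f := by
  have h := Derivation.leibniz_inv D f
  rw [h, smul_eq_mul]

private theorem blDual {L σ ι τ : Type*} [Field L] [DecidableEq σ] [DecidableEq ι] [Fintype τ]
    (d : ι → ℕ) (a : (i : ι) → Sym σ (d i) → L)
    (D : Ix σ d → Derivation ℤ L L) (jj : τ → Ix σ d) (θ : τ → Ix σ d → L)
    (hD : Dual d a D jj θ) (T : Finset (Ix σ d)) (hT : ∀ j, jj j ∉ T) (q : Ix σ d) (p : T) :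
    D q (a p.1.1 p.1.2) = if q = p.1 then 1 else 0 := by
  have h := hD q p.1
  rw [Finset.sum_eq_zero, sub_zero] at h
  · exact h
  · intro j _
    rw [if_neg]
    rintro h1
    exact hT j (h1 ▸ p.2)

private theorem blStable {k L σ ι τ : Type*} [Field k] [Field L] [Algebra k L]
    [DecidableEq σ] [DecidableEq ι] [Fintype τ]
    (d : ι → ℕ) (a : (i : ι) → Sym σ (d i) → L)
    (D : Ix σ d → Derivation ℤ L L) (jj : τ → Ix σ d) (θ : τ → Ix σ d → L)
    (hD : Dual d a D jj θ) (T : Finset (Ix σ d)) (hT : ∀ j, jj j ∉ T)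
    (hDk : ∀ p (c : k), D p (algebraMap k L c) = 0) (p : T) (q : Ix σ d) :
    ∀ f ∈ others (k := k) (fun p : T => a p.1.1 p.1.2) p,
      D q f ∈ others (k := k) (fun p : T => a p.1.1 p.1.2) p := by
  intro f hf
  have hf' : f ∈ IntermediateField.adjoin k ((fun p : T => a p.1.1 p.1.2) '' {p}ᶜ) := hf
  show D q f ∈ IntermediateField.adjoin k ((fun p : T => a p.1.1 p.1.2) '' {p}ᶜ)
  induction hf' using IntermediateField.adjoin_induction with
  | mem x hx =>
    obtain ⟨r, _, rfl⟩ := hx
    show D q (a r.1.1 r.1.2) ∈ _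
    rw [blDual d a D jj θ hD T hT q r]
    split_ifs
    · exact one_mem _
    · exact zero_mem _
  | algebraMap c =>
    rw [hDk q c]
    exact zero_mem _
  | add x y hx hy hx' hy' =>
    rw [map_add]
    exact add_mem (hx' hx) (hy' hy)
  | inv x hx hx' =>
    rw [blInv]
    exact mul_mem (neg_mem (pow_mem (inv_mem hx) 2)) (hx' hx)
  | mul x y hx hy hx' hy' =>
    rw [Derivation.leibniz, smul_eq_mul, smul_eq_mul]
    exact add_mem (mul_mem hx (hy' hy)) (mul_mem hy (hx' hx))

private theorem blVar {L σ ι τ : Type*} [Field L] [DecidableEq σ] [DecidableEq ι] [Fintype τ]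
    (d : ι → ℕ) (a : (i : ι) → Sym σ (d i) → L)
    (D : Ix σ d → Derivation ℤ L L) (jj : τ → Ix σ d) (θ : τ → Ix σ d → L)
    (hD : Dual d a D jj θ) (T : Finset (Ix σ d)) (hT : ∀ j, jj j ∉ T) (p : T) (q : Ix σ d)
    (R : Subring L) :
    D q (a p.1.1 p.1.2) ∈ R := by
  rw [blDual d a D jj θ hD T hT q p]
  split_ifs
  · exact one_mem _
  · exact zero_mem _

private theorem blVarInv {L σ ι τ : Type*} [Field L] [DecidableEq σ] [DecidableEq ι] [Fintype τ]
    (d : ι → ℕ) (a : (i : ι) → Sym σ (d i) → L)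
    (D : Ix σ d → Derivation ℤ L L) (jj : τ → Ix σ d) (θ : τ → Ix σ d → L)
    (hD : Dual d a D jj θ) (T : Finset (Ix σ d)) (hT : ∀ j, jj j ∉ T) (p : T) (q : Ix σ d)
    (R : Subring L) (hR : (a p.1.1 p.1.2)⁻¹ ∈ R) :
    D q (a p.1.1 p.1.2)⁻¹ ∈ R := by
  rw [blInv]
  exact mul_mem (neg_mem (pow_mem hR 2)) (blVar d a D jj θ hD T hT p q R)

private theorem blLe {k L : Type*} [Field k] [Field L] [Algebra k L] (s : Set L)
    (E₀ : Subfield L) (hk : ∀ c : k, algebraMap k L c ∈ E₀) (S : Set L) (hs : s ⊆ S) :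
    (Algebra.adjoin k s).toSubring ≤ Subring.closure ((E₀ : Set L) ∪ S) := by
  intro f hf
  have hf' : f ∈ Algebra.adjoin k s := hf
  induction hf' using Algebra.adjoin_induction with
  | mem x hx => exact Subring.subset_closure (Or.inr (hs hx))
  | algebraMap c => exact Subring.subset_closure (Or.inl (hk c))
  | add x y hx hy hx' hy' => exact add_mem (hx' hx) (hy' hy)
  | mul x y hx hy hx' hy' => exact mul_mem (hx' hx) (hy' hy)

/-- In one direction the entries of all the two-vectors have bounded poles. -/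
private theorem blDir {L : Type*} [Field L] [CharZero L] {σ ι κ τ P : Type*} [Fintype σ]
    [DecidableEq σ] [Fintype ι] [DecidableEq ι] [Fintype τ] [Finite P] (bl : κ → ι)
    (d : ι → ℕ) (b : κ → ℕ)
    (a : (i : ι) → Sym σ (d i) → L) (ap : (t : κ) → Sym σ (b t) → L) (D : P → Derivation ℤ L L)
    (θ : τ → P → L) (Z Y : Finset ι)
    (E₀ : Subfield L) (t : L) (ht : Transcendental E₀ t)
    (hfin : FiniteDimensional (Subfield.closure ((E₀ : Set L) ∪ {t})) L)
    (hE₀ : ∀ p, ∀ f ∈ E₀, D p f ∈ E₀)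
    (hDt : ∀ p, D p t ∈ Subring.closure ((E₀ : Set L) ∪ {t}))
    (S : Set L) (hS : S.Finite) (hSa : ∀ p : Ix σ d, a p.1 p.2 ∈ S)
    (hSθ : ∀ j s, θ j s ∈ S)
    (hN : ∀ (O : ValuationSubring L) (Δ : L), (∀ f ∈ S, Δ * f ∈ O) → ∀ x : σ → L,
      Nul bl ap Y O Δ x) :
    ∃ Δ : L, Δ ≠ 0 ∧ ∀ (x : σ → L) (M : σ → σ → L),
      (∀ i ∉ Z, form (a i) x ≠ 0) →
      (∀ i ∉ Z, ∀ J : Sym σ (d i),
        IsIntegral (Subring.closure ((E₀ : Set L) ∪ S)) (mon x J / form (a i) x)) →
      KeyB bl d a ap D θ Z Y x M → ∀ j l, Δ * M j l ∈ intCl E₀ t := by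
  obtain ⟨Δ, hΔ0, hΔR, hΔS, hΔ⟩ :=
    dir_rows d a D θ Z E₀ t ht hfin hE₀ hDt S hS hSa hSθ
  obtain ⟨hDed, hFrac⟩ := intCl_dedekind E₀ t ht hfin
  refine ⟨Δ ^ (2 * (Fintype.card σ + Fintype.card ι + Fintype.card τ)), pow_ne_zero _ hΔ0,
    fun x M hne hint hkey j l => ?_⟩
  refine mem_of (intCl E₀ t) _ fun O hO => ?_
  obtain ⟨h1, h2, h3⟩ := hΔ x hne hint O hO
  exact hkey O Δ h1 h2 h3 (hN O Δ (fun f hf => hO (hΔS f hf)) x) j l

theorem bounded_line {k L : Type*} [Field k] [Field L] [CharZero L] [Algebra k L]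
    {σ ι κ τ : Type*} [Fintype σ] [DecidableEq σ] [Fintype ι] [DecidableEq ι] [Fintype κ]
    [DecidableEq κ] [Fintype τ] (bl : κ → ι) (d q₀ : ι → ℕ) (b q : κ → ℕ)
    (hq : ∀ t, 0 < q t) (hq₀ : ∀ t, q₀ (bl t) ≤ q t) (a : (i : ι) → Sym σ (d i) → L)
    (ap : (t : κ) → Sym σ (b t) → L) (ah : (t : κ) → Sym σ (q t) → L)
    (hF : FamB k bl d b q a ap ah) (T : Finset (Ix σ q))
    (hind : AlgebraicIndependent k (fun p : T => ah p.1.1 p.1.2))
    (hfin : FiniteDimensional
      (IntermediateField.adjoin k (Set.range fun p : T => ah p.1.1 p.1.2)) L)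
    (D : Ix σ q → Derivation ℤ L L) (jj : τ → Ix σ q) (θ : τ → Ix σ q → L)
    (hD : Dual q ah D jj θ) (hT : ∀ j, jj j ∉ T)
    (hDk : ∀ p (c : k), D p (algebraMap k L c) = 0)
    (Z Y : Finset ι) (hN : NulP bl ap Y) (i₀ j₁ : σ) (hj : j₁ ≠ i₀) (w : ℕ)
    (hw1 : 2 * w + 1 + Fintype.card τ ≤ ∑ i, qm Y d q₀ i + Z.card)
    (hw2 : w + 2 ≤ ∑ i, qn Y d q₀ i)
    (A : Subalgebra k L) (hA : A.FG) :
    ∃ V : Submodule k L, FiniteDimensional k V ∧ ∀ x : σ → L, x i₀ = 1 →
      (∀ i ∈ Z, form (a i) x = 0) → (∀ i ∉ Z, form (a i) x ≠ 0) →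
      (∀ i, ∃ t, bl t = i ∧ form (ap t) x ≠ 0) →
      (∀ i ∉ Z, ∀ J : Sym σ (d i), IsIntegral A (mon x J / form (a i) x)) →
      MinorsVanish D x w →
      ∃ δ : σ → L, (∃ j l, x j * δ l - x l * δ j ≠ 0) ∧ ∀ j l, x j * δ l - x l * δ j ∈ V := by
  classical
  obtain ⟨s, hs⟩ := hA
  set y₀ : T → L := fun p : T => ah p.1.1 p.1.2 with hy₀
  obtain ⟨S₀, hS₀, hNb⟩ := nul_bound (E := L) bl ap Y hN
  set S : Set L := (s : Set L) ∪ ((Set.range (fun p : Ix σ d => a p.1 p.2) ∪
    Set.range fun r : τ × Ix σ q => θ r.1 r.2) ∪ S₀) with hS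
  have hSfin : S.Finite :=
    (s.finite_toSet).union (((Set.finite_range _).union (Set.finite_range _)).union hS₀)
  have hSa : ∀ p : Ix σ d, a p.1 p.2 ∈ S := fun p => Or.inr (Or.inl (Or.inl ⟨p, rfl⟩))
  have hSθ : ∀ j s, θ j s ∈ S := fun j s => Or.inr (Or.inl (Or.inr ⟨(j, s), rfl⟩))
  have hSN : ∀ (O : ValuationSubring L) (Δ : L), (∀ f ∈ S, Δ * f ∈ O) → ∀ x : σ → L,
      Nul bl ap Y O Δ x := fun O Δ h x =>
    hNb (RingHom.id L) O Δ (fun f hf => h f (Or.inr (Or.inr hf))) x
  have hk : ∀ (p : T) (c : k), algebraMap k L c ∈ others (k := k) y₀ p := by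
    intro p c
    exact IntermediateField.algebraMap_mem _ c
  have hAle : ∀ p : T,
      A.toSubring ≤ Subring.closure ((others (k := k) y₀ p : Set L) ∪ S) := by
    intro p
    rw [← hs]
    exact blLe (s : Set L) _ (hk p) S Set.subset_union_left
  have htr := others_transcendental (k := k) y₀ hind
  have hof := others_finite (k := k) y₀ hfin
  have hst : ∀ (p : T) (s : Ix σ q), ∀ f ∈ others (k := k) y₀ p,
      D s f ∈ others (k := k) y₀ p :=
    fun p s => blStable q ah D jj θ hD T hT hDk p s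
  have h1 := fun p : T => blDir bl d b a ap D θ Z Y (others (k := k) y₀ p) (y₀ p) (htr p).1
    (hof p).1 (fun s => hst p s) (fun s => blVar q ah D jj θ hD T hT p s _) S hSfin hSa hSθ hSN
  have h1' := fun p : T => blDir bl d b a ap D θ Z Y (others (k := k) y₀ p) (y₀ p)⁻¹ (htr p).2
    (hof p).2 (fun s => hst p s)
    (fun s => blVarInv q ah D jj θ hD T hT p s _ (Subring.subset_closure (Or.inr rfl)))
    S hSfin hSa hSθ hSN
  choose Δ₁ hΔ₁ H₁ using h1
  choose Δ₁' hΔ₁' H₁' using h1'
  obtain ⟨V₁, hV₁, hV₁'⟩ := fd y₀ hind hfin Δ₁ Δ₁' hΔ₁ hΔ₁'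
  refine ⟨V₁, hV₁, fun x hx hZ hU hP hint hm => ?_⟩
  obtain ⟨δ, hδ, hkey⟩ := key_two bl d q₀ b q hq hq₀ a ap ah D jj θ hD
    (hF.mov D hDk).mov Z Y x i₀ j₁ hx hj hZ hU hP w hw1 hw2 hm
  refine ⟨δ, hδ, fun j l => ?_⟩
  have hint' : ∀ p : T, ∀ i ∉ Z, ∀ J : Sym σ (d i),
      IsIntegral (Subring.closure ((others (k := k) y₀ p : Set L) ∪ S))
        (mon x J / form (a i) x) := fun p i hi J =>
    (hint i hi J).map_of_comp_eq (Subring.inclusion (S := A.toSubring) (hAle p))
      (RingHom.id L) rfl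
  apply hV₁'
  intro p
  exact ⟨H₁ p x _ hU (hint' p) hkey j l, H₁' p x _ hU (hint' p) hkey j l⟩

end Pool.Agent.Helper10.CT
end

/- Helper12.LVF.H10.CT.RigidLine -/
section
/-! # CT: rigidity of the line -/

set_option autoImplicit false

namespace Pool.Agent.Helper10.CT

open scoped BigOperators
open Pool.Agent.Helper8.LG
open Pool.Agent.Helper6.CO (Fam Mov Nul qm)
open Pool.Agent.Helper8.CO (NulP nul_bound)

/-- One side: `P j l` is integral over `E₀[t]`. -/
theorem rl_side {E : Type*} [Field E] [CharZero E] {σ ι κ τ P : Type*} [Fintype σ]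
    [DecidableEq σ] [Fintype ι] [Fintype τ] (bl : κ → ι) (d : ι → ℕ) (b : κ → ℕ)
    (a : (i : ι) → Sym σ (d i) → E) (ap : (t : κ) → Sym σ (b t) → E)
    (D : P → Derivation ℤ E E) (θ : τ → P → E) (Z Y : Finset ι)
    (x : σ → E) (hU : ∀ i ∉ Z, form (a i) x ≠ 0)
    (E₀ : Subfield E) (t : E) (ht : Transcendental E₀ t)
    (hfin : FiniteDimensional (Subfield.closure ((E₀ : Set E) ∪ {t})) E)
    (hstab : ∀ p, ∀ f ∈ intCl E₀ t, D p f ∈ intCl E₀ t)
    (ha : ∀ i J, a i J ∈ E₀) (hθ : ∀ j s, θ j s ∈ E₀) {n : ℕ} (c : Fin n → E)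
    (hDc : ∀ p r, D p (c r) = 0)
    (hc : ∀ O : ValuationSubring E, (∀ f ∈ E₀, f ∈ O) → (∀ r, c r ∈ O) →
      ∀ i ∉ Z, ∀ J : Sym σ (d i), mon x J / form (a i) x ∈ O)
    (hN : ∀ O : ValuationSubring E, (∀ f ∈ E₀, f ∈ O) → Nul bl ap Y O 1 x)
    (M : σ → σ → E) (hM : KeyB bl d a ap D θ Z Y x M) (j l : σ) : M j l ∈ intCl E₀ t := by
  obtain ⟨h1, h2⟩ := intCl_dedekind E₀ t ht hfin
  haveI := h1
  haveI := h2
  have hE₀R : ∀ f ∈ E₀, f ∈ intCl E₀ t := fun f hf =>
    rg_mem_intCl E₀ t (Subring.subset_closure (Or.inl hf))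
  have hQ : ∀ n : ℕ, n ≠ 0 → ((n : E))⁻¹ ∈ intCl E₀ t := fun n _ =>
    hE₀R _ (inv_mem (natCast_mem E₀ n))
  apply mem_of (intCl E₀ t)
  intro O hO
  have hE₀O : ∀ f ∈ E₀, f ∈ O := fun f hf => hO (hE₀R f hf)
  have hbdd : Bdd D 1 O := bdd_of (intCl E₀ t) D 1 (one_mem _)
    (fun p f hf => by rw [one_mul]; exact hstab p f hf) O hO
  have hDO : ∀ p, ∀ f ∈ O, D p f ∈ O := fun p f hf => by
    have := hbdd.2 p f hf
    rwa [one_mul] at this
  have hrow : ∀ i ∉ Z, RowBdd D 1 O x (form (a i)) 1 0 := by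
    intro i hiZ j hj hprim
    have hform := rg_form_div (a i) x (x j)
    have hform0 : form (a i) (fun l => x l / x j) ≠ 0 := by
      rw [hform]
      exact div_ne_zero (hU i hiZ) (pow_ne_zero _ hj)
    have hformO : form (a i) (fun l => x l / x j) ∈ O := by
      unfold form
      refine sum_mem fun J _ => mul_mem (hE₀O _ (ha i J)) ?_
      unfold mon
      refine multiset_prod_mem _ fun z hz => ?_
      obtain ⟨l, -, rfl⟩ := Multiset.mem_map.1 hz
      exact hprim l
    simp only [one_mul, pow_zero, div_one]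
    refine ⟨one_mem O, fun p => ?_⟩
    by_cases hcO : ∀ r, c r ∈ O
    · have h3 := hc O hE₀O hcO i hiZ (Sym.replicate (d i) j)
      rw [rg_mon_replicate] at h3
      have h4 : x j ^ d i / form (a i) x = (form (a i) fun l => x l / x j)⁻¹ := by
        rw [hform, inv_div]
      rw [h4] at h3
      rw [div_eq_mul_inv]
      exact mul_mem (hDO p _ hformO) h3
    · push Not at hcO
      obtain ⟨r, hr⟩ := hcO
      have hr0 : c r ≠ 0 := by
        intro h
        rw [h] at hr
        exact hr (zero_mem O)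
      have h3 := log_of (intCl E₀ t) hQ D O hO 1 hbdd (c r) hr0 (Or.inl hr)
        (fun p => by rw [hDc, zero_div, mul_zero]; exact zero_mem O) _ hform0 p
      rwa [one_mul] at h3
  have h5 := hM O 1 hbdd (fun j s => by rw [one_mul]; exact hE₀O _ (hθ j s)) hrow
    (hN O hE₀O) j l
  rwa [one_pow, one_mul] at h5

theorem rigid_line {k L E : Type*} [Field k] [Field L] [Field E] [CharZero E] [Algebra k L]
    [Algebra L E] [Algebra k E] [IsScalarTower k L E] {n : ℕ} (c : Fin n → E)
    (hgen : IntermediateField.adjoin L (Set.range c) = ⊤) (B : Set (Fin n))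
    (hB : AlgebraicIndependent L (fun b : B => c b))
    (halg : ∀ r, IsAlgebraic (IntermediateField.adjoin k (c '' B)) (c r))
    {σ ι κ τ : Type*} [Fintype σ] [DecidableEq σ] [Fintype ι] [DecidableEq ι] [Fintype κ]
    [DecidableEq κ] [Fintype τ] (bl : κ → ι) (d q₀ : ι → ℕ) (b q : κ → ℕ)
    (hq : ∀ t, 0 < q t) (hq₀ : ∀ t, q₀ (bl t) ≤ q t) (a : (i : ι) → Sym σ (d i) → L)
    (ap : (t : κ) → Sym σ (b t) → L) (ah : (t : κ) → Sym σ (q t) → L)
    (hF : FamB k bl d b q a ap ah)
    (D : Ix σ q → Derivation ℤ E E) (jj : τ → Ix σ q) (θ : τ → Ix σ q → L)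
    (hD : Dual q (fun i J => algebraMap L E (ah i J)) D jj fun j s => algebraMap L E (θ j s))
    (hDL : ∀ p b, ∃ b', D p (algebraMap L E b) = algebraMap L E b')
    (hDk : ∀ p (b : k), D p (algebraMap k E b) = 0)
    (hDc : ∀ p r, D p (c r) = 0)
    (Z Y : Finset ι) (hNP : NulP bl ap Y) (w : ℕ)
    (hw1 : 2 * w + 1 + Fintype.card τ ≤ ∑ i, qm Y d q₀ i + Z.card)
    (hw2 : w + 2 ≤ ∑ i, qn Y d q₀ i)
    (x : σ → E) (i₀ j₁ : σ) (hx : x i₀ = 1) (hj : j₁ ≠ i₀)
    (hZ : ∀ i ∈ Z, form (fun J => algebraMap L E (a i J)) x = 0)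
    (hU : ∀ i ∉ Z, form (fun J => algebraMap L E (a i J)) x ≠ 0)
    (hPx : ∀ i, ∃ t, bl t = i ∧ form (fun J => algebraMap L E (ap t J)) x ≠ 0)
    (hint : ∀ i ∉ Z, ∀ J : Sym σ (d i),
      mon x J / form (fun J => algebraMap L E (a i J)) x ∈ Algebra.adjoin L (Set.range c))
    (hm : MinorsVanish D x w) :
    ∃ δ : σ → E, (∃ j l, x j * δ l - x l * δ j ≠ 0) ∧
      ∀ j l, IsAlgebraic L (x j * δ l - x l * δ j) := by
  classical
  have hmov : MovB bl d b q (fun i J => algebraMap L E (a i J))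
      (fun i J => algebraMap L E (ap i J)) (fun i J => algebraMap L E (ah i J)) D :=
    (hF.map (E' := E)).mov D hDk
  obtain ⟨S₁, -, hNb⟩ := nul_bound (E := E) bl ap Y hNP
  obtain ⟨δ, hδ, hδ2⟩ := key_two bl d q₀ b q hq hq₀ (fun i J => algebraMap L E (a i J))
    (fun i J => algebraMap L E (ap i J))
    (fun i J => algebraMap L E (ah i J)) D jj
    (fun j s => algebraMap L E (θ j s)) hD hmov.mov Z Y x i₀ j₁ hx hj hZ hU hPx w hw1 hw2 hm
  -- the field `F = E₀(t)`
  have hrange : (Set.range fun b : B => c b) = c '' B := by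
    ext z
    constructor
    · rintro ⟨b, rfl⟩
      exact ⟨b, b.2, rfl⟩
    · rintro ⟨b, hb, rfl⟩
      exact ⟨⟨b, hb⟩, rfl⟩
  have halgF : ∀ (F : Subfield E), (∀ b : k, algebraMap k E b ∈ F) → (∀ b ∈ B, c b ∈ F) →
      ∀ r, IsAlgebraic F (c r) := by
    intro F hkF hBF r
    refine rg_alg (R₁ := IntermediateField.adjoin k (c '' B)) (fun s => ?_) (halg r)
    have h1 : (IntermediateField.adjoin k (c '' B)).toSubfield ≤ F := by
      rw [IntermediateField.adjoin_toSubfield, Subfield.closure_le]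
      rintro z (⟨b, rfl⟩ | ⟨b, hb, rfl⟩)
      · exact hkF b
      · exact hBF b hb
    exact ⟨⟨s, h1 s.2⟩, rfl⟩
  have hfinF : ∀ (F : Subfield E), (∀ b : L, algebraMap L E b ∈ F) → (∀ b ∈ B, c b ∈ F) →
      FiniteDimensional F E := by
    intro F hLF hBF
    have hkF : ∀ b : k, algebraMap k E b ∈ F := fun b => by
      rw [IsScalarTower.algebraMap_apply k L E]
      exact hLF _
    have h1 : FiniteDimensional F (IntermediateField.adjoin F (Set.range c)) :=
      IntermediateField.finiteDimensional_adjoin (by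
        rintro z ⟨r, rfl⟩
        exact (halgF F hkF hBF r).isIntegral)
    have h2 : IntermediateField.adjoin F (Set.range c) = ⊤ := by
      rw [eq_top_iff]
      intro z _
      have hz : z ∈ IntermediateField.adjoin L (Set.range c) := by rw [hgen]; trivial
      have h3 : (IntermediateField.adjoin L (Set.range c)).toSubfield ≤
          (IntermediateField.adjoin F (Set.range c)).toSubfield := by
        rw [IntermediateField.adjoin_toSubfield, Subfield.closure_le]
        rintro z (⟨b, rfl⟩ | hz)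
        · exact (IntermediateField.adjoin F (Set.range c)).algebraMap_mem ⟨_, hLF b⟩
        · exact IntermediateField.subset_adjoin F _ hz
      exact h3 hz
    rw [h2] at h1
    exact Module.Finite.equiv (IntermediateField.topEquiv (F := F) (E := E)).toLinearEquiv
  refine ⟨δ, hδ, fun j l => ?_⟩
  refine exchange (fun b : B => c b) hB (x j * δ l - x l * δ j) ?_ fun b => ?_
  · -- algebraic over `L(c_B)`
    have h1 := hfinF (IntermediateField.adjoin L (Set.range fun b : B => c b)).toSubfield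
      (fun b => (IntermediateField.adjoin L (Set.range fun b : B => c b)).algebraMap_mem b)
      (fun b hb => IntermediateField.subset_adjoin L _ ⟨⟨b, hb⟩, rfl⟩)
    have h2 : IsAlgebraic (IntermediateField.adjoin L (Set.range fun b : B => c b)).toSubfield
        (x j * δ l - x l * δ j) := Algebra.IsAlgebraic.isAlgebraic _
    exact rg_alg (fun s => ⟨⟨s, s.2⟩, rfl⟩) h2
  · -- algebraic over `L(c_(B - b))`
    set S₀ : Set E := (fun b : B => c b) '' {b}ᶜ with hS₀
    set E₀ : Subfield E := (IntermediateField.adjoin L S₀).toSubfield with hE₀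
    have hE₀cl : E₀ = Subfield.closure (Set.range (algebraMap L E) ∪ S₀) :=
      IntermediateField.adjoin_toSubfield L S₀
    have hLE₀ : ∀ z : L, algebraMap L E z ∈ E₀ := fun z =>
      (IntermediateField.adjoin L S₀).algebraMap_mem z
    have hSE₀ : ∀ z ∈ S₀, z ∈ E₀ := fun z hz => IntermediateField.subset_adjoin L _ hz
    have hcE₀ : ∀ b' ∈ B, b' ≠ b → c b' ∈ E₀ := fun b' hb' hne => by
      refine hSE₀ _ ⟨⟨b', hb'⟩, ?_, rfl⟩
      intro h
      apply hne
      rw [Set.mem_singleton_iff] at h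
      rw [← h]
    have htr : Transcendental E₀ (c b) := by
      have h1 : Transcendental (Algebra.adjoin L S₀) (c b) :=
        hB.transcendental_adjoin (s := {b}ᶜ) (i := b) (fun h => h rfl)
      have h2 := (IntermediateField.transcendental_adjoin_iff (F := L) (s := S₀)).2 h1
      intro h3
      exact h2 (rg_alg (fun s => ⟨⟨s, s.2⟩, rfl⟩) h3)
    -- the derivations
    have hDE₀ : ∀ p, ∀ f ∈ E₀, D p f ∈ E₀ := by
      intro p
      rw [hE₀cl]
      apply rg_stable
      rintro f (⟨z, rfl⟩ | hf)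
      · obtain ⟨z', hz'⟩ := hDL p z
        rw [hz']
        exact Subfield.subset_closure (Or.inl ⟨z', rfl⟩)
      · obtain ⟨b', -, rfl⟩ := hf
        show D p (c b') ∈ _
        rw [hDc]
        exact zero_mem _
    set k₀ : Subfield E := (IntermediateField.adjoin k S₀).toSubfield with hk₀
    have hk₀cl : k₀ = Subfield.closure (Set.range (algebraMap k E) ∪ S₀) :=
      IntermediateField.adjoin_toSubfield k S₀
    have hk₀E₀ : k₀ ≤ E₀ := by
      rw [hk₀cl, Subfield.closure_le]
      rintro z (⟨z, rfl⟩ | hz)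
      · rw [IsScalarTower.algebraMap_apply k L E]
        exact hLE₀ _
      · exact hSE₀ z hz
    have hDk₀ : ∀ p, ∀ f ∈ k₀, D p f = 0 := by
      intro p
      rw [hk₀cl]
      apply rg_kill
      rintro f (⟨z, rfl⟩ | hf)
      · exact hDk p z
      · obtain ⟨b', -, rfl⟩ := hf
        exact hDc p b'
    -- both sides
    have hside : ∀ t : E, (t = c b ∨ t = (c b)⁻¹) → Transcendental E₀ t ∧
        FiniteDimensional (Subfield.closure ((E₀ : Set E) ∪ {t})) E ∧
        x j * δ l - x l * δ j ∈ intCl E₀ t := by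
      intro t ht
      have htc : c b ∈ Subfield.closure ({t} : Set E) := by
        rcases ht with h | h
        · rw [← h]
          exact Subfield.subset_closure rfl
        · have h1 : c b = t⁻¹ := by rw [h, inv_inv]
          rw [h1]
          exact inv_mem (Subfield.subset_closure rfl)
      have htt : Transcendental E₀ t := by
        rcases ht with h | h
        · rw [h]
          exact htr
        · rw [h]
          intro h1
          exact htr (by simpa using h1.inv)
      have hF1 : ∀ z : L, algebraMap L E z ∈ Subfield.closure ((E₀ : Set E) ∪ {t}) := fun z =>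
        Subfield.subset_closure (Or.inl (hLE₀ z))
      have hF2 : ∀ b' ∈ B, c b' ∈ Subfield.closure ((E₀ : Set E) ∪ {t}) := by
        intro b' hb'
        by_cases hne : b' = b
        · rw [hne]
          exact Subfield.closure_mono (Set.subset_union_right) htc
        · exact Subfield.subset_closure (Or.inl (hcE₀ b' hb' hne))
      have hfin := hfinF _ hF1 hF2
      refine ⟨htt, hfin, ?_⟩
      have hDt : ∀ p, D p t = 0 := by
        intro p
        rcases ht with h | h
        · rw [h]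
          exact hDc p b
        · rw [h, (D p).leibniz_inv, hDc, smul_zero]
      have hstab := intCl_stable E₀ t D hDE₀ hDt k₀ hk₀E₀ hDk₀ (Set.range c)
        (Set.finite_range c) (by rintro p z ⟨r, rfl⟩; exact hDc p r) (by
          rintro z ⟨r, rfl⟩
          refine halgF _ (fun z => ?_) (fun b' hb' => ?_) r
          · exact Subfield.subset_closure
              (Or.inl ((IntermediateField.adjoin k S₀).algebraMap_mem z))
          · by_cases hne : b' = b
            · rw [hne]
              exact Subfield.closure_mono (Set.subset_union_right) htc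
            · refine Subfield.subset_closure (Or.inl ?_)
              refine IntermediateField.subset_adjoin k S₀ ⟨⟨b', hb'⟩, ?_, rfl⟩
              intro h
              apply hne
              rw [Set.mem_singleton_iff] at h
              rw [← h]) (by
          rw [eq_top_iff]
          intro z _
          have hz : z ∈ (IntermediateField.adjoin L (Set.range c)).toSubfield := by
            rw [hgen]; trivial
          rw [IntermediateField.adjoin_toSubfield] at hz
          refine Subfield.closure_mono ?_ hz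
          rintro z (⟨z, rfl⟩ | hz)
          · exact Or.inl (Or.inl (hLE₀ z))
          · exact Or.inr hz)
      refine rl_side bl d _ (fun i J => algebraMap L E (a i J))
        (fun t J => algebraMap L E (ap t J)) D
        (fun j s => algebraMap L E (θ j s)) Z Y x hU E₀ t
        htt hfin hstab (fun i J => hLE₀ _) (fun j s => hLE₀ _) c hDc ?_ (fun O hO =>
          hNb (algebraMap L E) O 1 (fun s _ => by rw [one_mul]; exact hO _ (hLE₀ s)) x) _ hδ2 j l
      intro O hO1 hO2 i hiZ J
      have h1 := hint i hiZ J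
      have h2 : (Algebra.adjoin L (Set.range c)).toSubring ≤ O.toSubring := by
        rw [Algebra.adjoin_eq_ring_closure, Subring.closure_le]
        rintro z (⟨z, rfl⟩ | ⟨r, rfl⟩)
        · exact hO1 _ (hLE₀ z)
        · exact hO2 r
      exact h2 h1
    obtain ⟨ht1, hfin1, h1⟩ := hside (c b) (Or.inl rfl)
    obtain ⟨-, -, h2⟩ := hside (c b)⁻¹ (Or.inr rfl)
    have hP : IsAlgebraic E₀ (x j * δ l - x l * δ j) :=
      algebraic_of_mem E₀ (c b) ht1 hfin1 _ h1 h2
    exact rg_alg (fun s => ⟨⟨s, s.2⟩, rfl⟩) hP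

end Pool.Agent.Helper10.CT
end

/- Helper12.LVF.H10.CT.CoreLine -/
section
/-! # CT: rigidity of the line inside a large field -/

set_option autoImplicit false

namespace Pool.Agent.Helper10.CT

open scoped BigOperators
open Pool.Agent.Helper8.LG
open Pool.Agent.Helper6.CO (Fam Mov Nul qm)
open Pool.Agent.Helper8.CO (NulP)

theorem ul_core_line {k L Ω : Type*} [Field k] [Field L] [Field Ω] [CharZero Ω] [Algebra k L]
    [Algebra L Ω] [Algebra k Ω] [IsScalarTower k L Ω]
    (K : Subring Ω) (hkK : ∀ b : k, algebraMap k Ω b ∈ K) (hLD : UlDisj k (L := L) K)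
    {n : ℕ} (c : Fin n → Ω) (hcK : ∀ r, c r ∈ K)
    {σ ι κ τ : Type*} [Fintype σ] [DecidableEq σ] [Fintype ι] [DecidableEq ι] [Fintype κ]
    [DecidableEq κ] [Fintype τ] (bl : κ → ι) (d q₀ : ι → ℕ) (b q : κ → ℕ)
    (hq : ∀ t, 0 < q t) (hq₀ : ∀ t, q₀ (bl t) ≤ q t) (a : (i : ι) → Sym σ (d i) → L)
    (ap : (t : κ) → Sym σ (b t) → L) (ah : (t : κ) → Sym σ (q t) → L)
    (hFam : FamB k bl d b q a ap ah)
    (D : Ix σ q → Derivation ℤ Ω Ω) (jj : τ → Ix σ q) (θ : τ → Ix σ q → L)
    (hD : Dual q (fun i J => algebraMap L Ω (ah i J)) D jj fun j s => algebraMap L Ω (θ j s))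
    (hDL : ∀ p b, ∃ b', D p (algebraMap L Ω b) = algebraMap L Ω b')
    (hDk : ∀ p (b : k), D p (algebraMap k Ω b) = 0)
    (hDc : ∀ p r, D p (c r) = 0)
    (Z Y : Finset ι) (hNP : NulP bl ap Y) (w : ℕ)
    (hw1 : 2 * w + 1 + Fintype.card τ ≤ ∑ i, qm Y d q₀ i + Z.card)
    (hw2 : w + 2 ≤ ∑ i, qn Y d q₀ i)
    (x : σ → Ω) (i₀ j₁ : σ) (hx : x i₀ = 1) (hj : j₁ ≠ i₀) (G : Ω) (hG : G ≠ 0)
    (hGx : ∀ l, G * x l ∈ Algebra.adjoin L (Set.range c))
    (hZ : ∀ i ∈ Z, form (fun J => algebraMap L Ω (a i J)) x = 0)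
    (hU : ∀ i ∉ Z, form (fun J => algebraMap L Ω (a i J)) x ≠ 0)
    (hPx : ∀ i, ∃ t, bl t = i ∧ form (fun J => algebraMap L Ω (ap t J)) x ≠ 0)
    (hint : ∀ i ∉ Z, ∀ J : Sym σ (d i),
      mon x J / form (fun J => algebraMap L Ω (a i J)) x ∈ Algebra.adjoin L (Set.range c))
    (hm : MinorsVanish D x w) :
    ∃ δ : σ → Ω, (∃ j l, x j * δ l - x l * δ j ≠ 0) ∧
      ∀ j l, IsAlgebraic L (x j * δ l - x l * δ j) := by
  classical
  set F : IntermediateField L Ω := IntermediateField.adjoin L (Set.range c) with hF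
  have hsub : ∀ z ∈ Algebra.adjoin L (Set.range c), z ∈ F := fun z hz =>
    IntermediateField.algebra_adjoin_le_adjoin L _ hz
  have hFcl : F.toSubfield = Subfield.closure (Set.range (algebraMap L Ω) ∪ Set.range c) :=
    IntermediateField.adjoin_toSubfield L _
  -- the generators
  set c' : Fin n → F := fun r => ⟨c r, IntermediateField.subset_adjoin L _ ⟨r, rfl⟩⟩ with hc'
  have himg : ∀ B : Set (Fin n), (F.val : F → Ω) '' (c' '' B) = c '' B := by
    intro B
    rw [← Set.image_comp]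
    rfl
  have hrange : (F.val : F → Ω) '' (Set.range c') = Set.range c := by
    rw [← Set.image_univ, himg, Set.image_univ]
  have hgen : IntermediateField.adjoin L (Set.range c') = ⊤ := by
    apply IntermediateField.lift_injective F
    rw [IntermediateField.lift_adjoin, IntermediateField.lift_top]
    have h1 : (Subtype.val : F → Ω) '' (Set.range c') = Set.range c := hrange
    rw [h1]
  obtain ⟨B, hB1, hB2⟩ := ul_basis (k := k) c'
  have hB3 : AlgebraicIndependent k (fun b : B => c b) :=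
    (AlgHom.algebraicIndependent_iff (x := fun b : B => c' b) ((F.val).restrictScalars k)
      Subtype.val_injective).2 hB1
  have hB4 : AlgebraicIndependent L (fun b : B => c b) :=
    ul_algInd K hkK hLD _ (fun b => hcK b) hB3
  have hB5 : AlgebraicIndependent L (fun b : B => c' b) :=
    (AlgHom.algebraicIndependent_iff (x := fun b : B => c' b) F.val Subtype.val_injective).1 hB4
  have halg : ∀ r, IsAlgebraic (IntermediateField.adjoin k (c' '' B)) (c' r) := by
    intro r
    have h1 := hB2 r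
    obtain ⟨p, hp0, hp⟩ := h1
    set φ : Algebra.adjoin k (c' '' B) →+* IntermediateField.adjoin k (c' '' B) :=
      { toFun := fun z => ⟨z, IntermediateField.algebra_adjoin_le_adjoin k _ z.2⟩
        map_one' := rfl
        map_mul' := fun _ _ => rfl
        map_zero' := rfl
        map_add' := fun _ _ => rfl } with hφ
    have hφi : Function.Injective φ := by
      intro u v huv
      apply Subtype.ext
      exact congrArg (fun z : IntermediateField.adjoin k (c' '' B) => (z : F)) huv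
    refine ⟨p.map φ, ?_, ?_⟩
    · rwa [Ne, Polynomial.map_eq_zero_iff hφi]
    · rw [Polynomial.aeval_def, Polynomial.eval₂_map]
      exact hp
  -- the derivations
  have hst : ∀ p, ∀ f ∈ F, D p f ∈ F := by
    intro p f hf
    have hf' : f ∈ F.toSubfield := hf
    rw [hFcl] at hf'
    have h1 := rg_stable (D p) (Set.range (algebraMap L Ω) ∪ Set.range c) ?_ f hf'
    · rw [← hFcl] at h1
      exact h1
    · rintro g (⟨z, rfl⟩ | ⟨r, rfl⟩)
      · obtain ⟨z', hz'⟩ := hDL p z
        rw [hz']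
        exact Subfield.subset_closure (Or.inl ⟨z', rfl⟩)
      · rw [hDc]
        exact zero_mem _
  set δ : Ix σ q → Derivation ℤ F F := fun p =>
    Derivation.mk' (AddMonoidHom.toIntLinearMap
      { toFun := fun f => (⟨D p f, hst p f f.2⟩ : F)
        map_zero' := Subtype.ext (map_zero (D p))
        map_add' := fun f g => Subtype.ext (map_add (D p) (f : Ω) g) })
      (fun f g => Subtype.ext ((D p).leibniz (f : Ω) g)) with hδ
  have hδv : ∀ p (f : F), ((δ p f : F) : Ω) = D p f := fun p f => rfl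
  have hamap : ∀ b : L, ((algebraMap L F b : F) : Ω) = algebraMap L Ω b := fun b => rfl
  -- the point
  have hxF : ∀ l, x l ∈ F := by
    intro l
    have h1 : G ∈ F := by
      have := hsub _ (hGx i₀)
      rwa [hx, mul_one] at this
    have h2 : x l = G * x l / G := by field_simp
    rw [h2]
    exact div_mem (hsub _ (hGx l)) h1
  set x' : σ → F := fun l => ⟨x l, hxF l⟩ with hx'
  have hform : ∀ i, ((form (fun J => algebraMap L F (a i J)) x' : F) : Ω) =
      form (fun J => algebraMap L Ω (a i J)) x := fun i =>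
    ul_map_form (F.val : F →+* Ω) _ _
  have hmon : ∀ {r : ℕ} (J : Sym σ r), ((mon x' J : F) : Ω) = mon x J := fun J =>
    ul_map_mon (F.val : F →+* Ω) _ _
  have hcz : CharZero F := inferInstance
  have key := rigid_line (k := k) (L := L) (E := F) c' hgen B hB5 halg bl d q₀ b q hq
    hq₀ a ap ah hFam δ jj θ ?_ ?_ ?_ ?_ Z Y hNP w hw1 hw2 x' i₀ j₁ (Subtype.ext hx) hj
    ?_ ?_ ?_ ?_ ?_
  · obtain ⟨δ', ⟨j, l, hδ'⟩, hδ2⟩ := key
    refine ⟨fun l => (δ' l : Ω), ⟨j, l, fun h0 => hδ' (Subtype.ext h0)⟩, fun j l => ?_⟩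
    exact (hδ2 j l).algHom F.val
  · intro s r
    apply Subtype.ext
    have h1 := hD s r
    rw [hδv, hamap, h1]
    push_cast
    congr 1
    · split_ifs <;> rfl
    · refine Finset.sum_congr rfl fun j _ => ?_
      split_ifs <;> rfl
  · intro p b
    obtain ⟨b', hb'⟩ := hDL p b
    exact ⟨b', Subtype.ext hb'⟩
  · intro p b
    exact Subtype.ext (hDk p b)
  · intro p r
    exact Subtype.ext (hDc p r)
  · intro i hi
    exact Subtype.ext ((hform i).trans (hZ i hi))
  · intro i hi h0
    apply hU i hi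
    rw [← hform i, h0]
    rfl
  · intro i
    obtain ⟨t, ht, htx⟩ := hPx i
    refine ⟨t, ht, fun h0 => htx ?_⟩
    have h1 : ((form (fun J => algebraMap L F (ap t J)) x' : F) : Ω) =
      form (fun J => algebraMap L Ω (ap t J)) x := ul_map_form (F.val : F →+* Ω) _ _
    rw [← h1, h0]
    rfl
  · intro i hi1 J
    have h1 := hint i hi1 J
    rw [← hrange, ← AlgHom.map_adjoin] at h1
    obtain ⟨z, hz1, hz2⟩ := h1
    have h2 : mon x' J / form (fun J => algebraMap L F (a i J)) x' = z := by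
      apply Subtype.ext
      have h3 : (z : Ω) = mon x J / form (fun J => algebraMap L Ω (a i J)) x := hz2
      rw [h3]
      push_cast
      rw [hmon, hform]
    rw [h2]
    exact hz1
  · intro r s
    apply Subtype.ext
    have h1 := hm r s
    have h2 := RingHom.map_det (F.val : F →+* Ω) (Matrix.of fun s' t => col δ x' (s t) (r s'))
    have h3 : (F.val : F →+* Ω).mapMatrix (Matrix.of fun s' t => col δ x' (s t) (r s')) =
        Matrix.of fun s' t => col D x (s t) (r s') := by
      ext s' t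
      simp only [RingHom.mapMatrix_apply, Matrix.map_apply, Matrix.of_apply]
      rcases s t with _ | p
      · rfl
      · rfl
    rw [h3, h1] at h2
    exact h2

end Pool.Agent.Helper10.CT
end

/- Helper12.LVF.H10.CT.UltraLine -/
section
/-! # CT: an infinite bounded set of points has infinitely many points on one line -/

set_option autoImplicit false

namespace Pool.Agent.Helper10.CT

open scoped BigOperators
open Pool.Agent.Helper8.LG
open Pool.Agent.Helper6.CO (Fam Mov Nul qm)
open Pool.Agent.Helper8.CO (NulP)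

theorem ultra_line {k L : Type*} [Field k] [Field L] [CharZero L] [Algebra k L]
    {σ ι κ τ : Type*} [Fintype σ] [DecidableEq σ] [Fintype ι] [DecidableEq ι] [Fintype κ]
    [DecidableEq κ] [Fintype τ] (bl : κ → ι) (d q₀ : ι → ℕ) (b q : κ → ℕ)
    (hq : ∀ t, 0 < q t) (hq₀ : ∀ t, q₀ (bl t) ≤ q t) (a : (i : ι) → Sym σ (d i) → L)
    (ap : (t : κ) → Sym σ (b t) → L) (ah : (t : κ) → Sym σ (q t) → L)
    (hFam : FamB k bl d b q a ap ah)
    (D : Ix σ q → Derivation ℤ L L) (jj : τ → Ix σ q) (θ : τ → Ix σ q → L)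
    (hD : Dual q ah D jj θ)
    (hDk : ∀ p (c : k), D p (algebraMap k L c) = 0)
    (Z Y : Finset ι) (hNP : NulP bl ap Y) (i₀ j₁ : σ) (hj : j₁ ≠ i₀) (w : ℕ)
    (hw1 : 2 * w + 1 + Fintype.card τ ≤ ∑ i, qm Y d q₀ i + Z.card)
    (hw2 : w + 2 ≤ ∑ i, qn Y d q₀ i)
    (V : Submodule k L) [FiniteDimensional k V] (S : Set (σ → L)) (hinf : S.Infinite)
    (hS : ∀ x ∈ S, x i₀ = 1 ∧ (∀ i ∈ Z, form (a i) x = 0) ∧ (∀ i ∉ Z, form (a i) x ≠ 0) ∧
      (∀ i, ∃ t, bl t = i ∧ form (ap t) x ≠ 0) ∧ MinorsVanish D x w ∧ ∃ G : L, G ≠ 0 ∧ (∀ l, G * x l ∈ V) ∧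
        ∀ i ∉ Z, ∀ J : Sym σ (d i), mon x J / form (a i) x ∈ V) :
    ∃ (α β : σ) (u v : σ → L), α ≠ β ∧ u α = 1 ∧ u β = 0 ∧ v α = 0 ∧ v β = 1 ∧
      {x ∈ S | ∀ l, x l = x α * u l + x β * v l}.Infinite := by
  classical
  set X : ℕ → σ → L := fun m => (hinf.natEmbedding S m : σ → L) with hX
  have hXS : ∀ m, X m ∈ S := fun m => (hinf.natEmbedding S m).2
  have hXi : Function.Injective X := fun u v huv =>
    (hinf.natEmbedding S).injective (Subtype.ext huv)
  have hS' := fun m => hS (X m) (hXS m)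
  choose hX0 hXZ hXU hXP hXm G hG0 hGx hint using hS'
  obtain ⟨Ω, instΩ, Q, hQ, hker⟩ := ul_exists L
  let algLΩ : Algebra L Ω := (Q.comp (Pi.constRingHom ℕ L)).toAlgebra
  let algkΩ : Algebra k Ω := ((algebraMap L Ω).comp (algebraMap k L)).toAlgebra
  have : IsScalarTower k L Ω := IsScalarTower.of_algebraMap_eq fun _ => rfl
  have : CharZero Ω := charZero_of_injective_algebraMap (algebraMap L Ω).injective
  have halgL : ∀ b : L, algebraMap L Ω b = Q fun _ => b := fun _ => rfl
  have halgk : ∀ b : k, algebraMap k Ω b = Q fun _ => algebraMap k L b := fun _ => rfl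
  -- the constants
  set K : Subring Ω := (Q.comp ((algebraMap k L).compLeft ℕ)).range with hK
  have hQK : ∀ g : ℕ → k, Q (fun m => algebraMap k L (g m)) ∈ K := fun g => ⟨g, rfl⟩
  have hLD : UlDisj k (L := L) K := by
    intro J hJ T z hz hsum
    choose g hg using hz
    have hg' : ∀ b, Q (fun m => algebraMap k L (g b m)) = z b := fun b => hg b
    have h1 := ul_disj Q hker J hJ T g (by
      rw [← hsum]
      exact Finset.sum_congr rfl fun b _ => by rw [hg', halgL])
    intro b hb
    rw [← hg']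
    exact h1 b hb
  -- the sequences
  set bV := Module.finBasis k V with hbV
  set r := Module.finrank k V with hr
  set H : Type _ := σ ⊕ (Ix σ d) with hH
  set h : H → ℕ → L := fun η m' => Sum.elim (fun l => G m' * X m' l)
    (fun p : Ix σ d => if p.1 ∉ Z then mon (X m') p.2 / form (a p.1) (X m') else 0) η with hh
  have hhV : ∀ η m', h η m' ∈ V := by
    rintro (l | p) m'
    · exact hGx m' l
    · show (if p.1 ∉ Z then mon (X m') p.2 / form (a p.1) (X m') else 0) ∈ V
      by_cases hp : p.1 ∉ Z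
      · rw [if_pos hp]
        exact hint m' p.1 hp p.2
      · rw [if_neg hp]
        exact V.zero_mem
  set c₀ : H × Fin r → Ω := fun ηj => Q fun m' =>
    algebraMap k L (bV.repr ⟨h ηj.1 m', hhV ηj.1 m'⟩ ηj.2) with hc₀
  set eqv := (Fintype.equivFin (H × Fin r)).symm with heqv
  set c : Fin (Fintype.card (H × Fin r)) → Ω := fun s => c₀ (eqv s) with hc
  have hcmem : ∀ ηj, c₀ ηj ∈ Algebra.adjoin L (Set.range c) := fun ηj =>
    Algebra.subset_adjoin ⟨eqv.symm ηj, by rw [hc]; simp⟩
  have hhc : ∀ η, Q (h η) ∈ Algebra.adjoin L (Set.range c) := by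
    intro η
    have h1 : Q (h η) = ∑ j, algebraMap L Ω (bV j : L) * c₀ (η, j) := by
      have h2 : h η = ∑ j, (fun _ => (bV j : L)) *
          (fun m' => algebraMap k L (bV.repr ⟨h η m', hhV η m'⟩ j)) := by
        funext m'
        rw [Finset.sum_apply]
        have h3 := congrArg (Subtype.val : V → L) (bV.sum_repr ⟨h η m', hhV η m'⟩)
        rw [Submodule.coe_sum] at h3
        have h4 : ((⟨h η m', hhV η m'⟩ : V) : L) = h η m' := rfl
        rw [h4] at h3
        rw [← h3]
        refine Finset.sum_congr rfl fun j _ => ?_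
        show _ = (bV j : L) * algebraMap k L (bV.repr ⟨h η m', hhV η m'⟩ j)
        rw [Submodule.coe_smul, Algebra.smul_def, mul_comm]
      conv_lhs => rw [h2]
      rw [map_sum]
      exact Finset.sum_congr rfl fun j _ => by rw [map_mul]; rfl
    rw [h1]
    exact sum_mem fun j _ => mul_mem (Subalgebra.algebraMap_mem _ _) (hcmem _)
  -- the core
  have hform : ∀ i, form (fun J => algebraMap L Ω (a i J)) (fun l => Q fun m' => X m' l) =
      Q fun m' => form (a i) (X m') := fun i => (ul_Q_form Q (a i) X).symm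
  have hcore := ul_core_line (k := k) (L := L) K (fun b => by rw [halgk]; exact hQK fun _ => b)
    hLD c (fun s => hQK _) bl d q₀ b q hq hq₀ a ap ah hFam (fun p => ulDer Q hQ hker (D p)) jj θ
    ?_ ?_ ?_ ?_ Z Y hNP w hw1 hw2
    (fun l => Q fun m' => X m' l) i₀ j₁ ?_ hj (Q G) ?_ ?_ ?_ ?_ ?_ ?_ ?_
  · -- conclusion
    obtain ⟨δ, ⟨α, β, hαβ⟩, halg⟩ := hcore
    have hconst : ∀ z : Ω, IsAlgebraic L z → ∃ b : L, algebraMap L Ω b = z := by
      rintro z ⟨p, hp0, hp⟩
      obtain ⟨f, rfl⟩ := hQ z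
      have h1 : ∀ᶠ m' in (Filter.hyperfilter ℕ : Filter ℕ), p.eval (f m') = 0 := by
        rw [← hker (fun m' => p.eval (f m')), ul_Q_eval Q]
        exact hp
      have h2 : ∃ b ∈ (p.roots.toFinset : Set L),
          ∀ᶠ m' in (Filter.hyperfilter ℕ : Filter ℕ), f m' = b := by
        refine (Ultrafilter.eventually_exists_mem_iff p.roots.toFinset.finite_toSet).mp ?_
        filter_upwards [h1] with m' hm'
        refine ⟨f m', ?_, rfl⟩
        rw [Finset.mem_coe, Multiset.mem_toFinset, Polynomial.mem_roots hp0]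
        exact hm'
      obtain ⟨b, -, hb⟩ := h2
      refine ⟨b, ?_⟩
      rw [halgL, ← sub_eq_zero, ← map_sub, hker]
      filter_upwards [hb] with m' hm'
      show b - f m' = 0
      rw [hm', sub_self]
    choose P hP using fun j l => hconst _ (halg j l)
    have hPαβ : P α β ≠ 0 := by
      intro h0
      apply hαβ
      rw [← hP α β, h0, map_zero]
    have hdiag : ∀ j, P j j = 0 := by
      intro j
      apply (algebraMap L Ω).injective
      rw [hP j j, map_zero]
      ring
    have hne : α ≠ β := by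
      rintro rfl
      exact hPαβ (hdiag α)
    refine ⟨α, β, fun l => P l β / P α β, fun l => P α l / P α β, hne, div_self hPαβ, ?_, ?_,
      div_self hPαβ, ?_⟩
    · show P β β / P α β = 0
      rw [hdiag, zero_div]
    · show P α α / P α β = 0
      rw [hdiag, zero_div]
    have hrel : ∀ l, ∀ᶠ m' in (Filter.hyperfilter ℕ : Filter ℕ),
        X m' l = X m' α * (P l β / P α β) + X m' β * (P α l / P α β) := by
      intro l
      have h1 : (Q fun m' => X m' l - (X m' α * (P l β / P α β) + X m' β * (P α l / P α β))) =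
          0 := by
        have h2 : (Q fun m' => X m' l - (X m' α * (P l β / P α β) +
            X m' β * (P α l / P α β))) = (Q fun m' => X m' l) -
            ((Q fun m' => X m' α) * algebraMap L Ω (P l β / P α β) +
              (Q fun m' => X m' β) * algebraMap L Ω (P α l / P α β)) := by
          rw [halgL, halgL, ← map_mul, ← map_mul, ← map_add, ← map_sub]
          rfl
        rw [h2, map_div₀, map_div₀, hP, hP, hP]
        field_simp
        ring
      rw [hker] at h1
      filter_upwards [h1] with m' hm'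
      exact sub_eq_zero.mp hm'
    have hrel' : ∀ᶠ m' in (Filter.hyperfilter ℕ : Filter ℕ), ∀ l,
        X m' l = X m' α * (P l β / P α β) + X m' β * (P α l / P α β) :=
      Filter.eventually_all.2 hrel
    have hinf' : {m' : ℕ | ∀ l, X m' l = X m' α * (P l β / P α β) +
        X m' β * (P α l / P α β)}.Infinite := by
      intro hfin
      exact Filter.notMem_hyperfilter_of_finite hfin hrel'
    refine (hinf'.image hXi.injOn).mono ?_
    rintro _ ⟨m', hm', rfl⟩
    exact ⟨hXS m', hm'⟩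
  · intro s r'
    show ulDer Q hQ hker (D s) (Q fun _ => ah r'.1 r'.2) = _
    rw [ulDer_apply]
    have h1 := hD s r'
    have h2 : (Q fun _ => D s (ah r'.1 r'.2)) = algebraMap L Ω (D s (ah r'.1 r'.2)) := rfl
    rw [h2, h1, map_sub, map_sum]
    congr 1
    · split_ifs
      · rw [map_one]
      · rw [map_zero]
    · refine Finset.sum_congr rfl fun j _ => ?_
      split_ifs
      · rfl
      · rw [map_zero]
  · intro p b
    exact ⟨D p b, ulDer_apply Q hQ hker (D p) _⟩
  · intro p b
    rw [halgk, ulDer_apply]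
    rw [hker]
    exact Filter.Eventually.of_forall fun m' => hDk p b
  · intro p s
    show ulDer Q hQ hker (D p) (Q _) = 0
    rw [ulDer_apply, hker]
    exact Filter.Eventually.of_forall fun m' => hDk p _
  · show Q (fun m' => X m' i₀) = 1
    have h1 : (fun m' => X m' i₀) = 1 := by
      funext m'
      exact hX0 m'
    rw [h1, map_one]
  · intro h0
    rw [hker] at h0
    obtain ⟨m', hm'⟩ := h0.exists
    exact hG0 m' hm'
  · intro l
    show Q G * Q (fun m' => X m' l) ∈ _
    rw [← map_mul]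
    exact hhc (Sum.inl l)
  · intro i hi
    rw [hform, hker]
    exact Filter.Eventually.of_forall fun m' => hXZ m' i hi
  · intro i hi h0
    rw [hform, hker] at h0
    obtain ⟨m', hm'⟩ := h0.exists
    exact hXU m' i hi hm'
  · intro i
    by_contra! hcon
    have h2 : ∀ t : {t : κ // bl t = i}, ∀ᶠ m' in (Filter.hyperfilter ℕ : Filter ℕ),
        form (ap t.1) (X m') = 0 := by
      intro t
      have h1 : form (fun J => algebraMap L Ω (ap t.1 J)) (fun l => Q fun m' => X m' l) =
        Q fun m' => form (ap t.1) (X m') := (ul_Q_form Q (ap t.1) X).symm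
      have h3 := hcon t.1 t.2
      rw [h1, hker] at h3
      exact h3
    obtain ⟨m', hm'⟩ := (Filter.eventually_all.2 h2).exists
    obtain ⟨t, ht, htx⟩ := hXP m' i
    exact htx (hm' ⟨t, ht⟩)
  · intro i hi1 J
    rw [hform, ← ul_Q_mon Q X J, ← ul_Q_div Q hker _ _ fun m' => hXU m' i hi1]
    have h1 := hhc (Sum.inr ⟨i, J⟩)
    have h2 : h (Sum.inr ⟨i, J⟩) = fun m' => mon (X m') J / form (a i) (X m') := by
      funext m'
      exact if_pos hi1
    rw [h2] at h1
    exact h1
  · intro rr ss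
    have h1 := RingHom.map_det Q (Matrix.of fun s t => fun m' => col D (X m') (ss t) (rr s))
    have h2 : Q.mapMatrix (Matrix.of fun s t => fun m' => col D (X m') (ss t) (rr s)) =
        Matrix.of fun s t => col (fun p => ulDer Q hQ hker (D p)) (fun l => Q fun m' => X m' l)
          (ss t) (rr s) := by
      ext s t
      simp only [RingHom.mapMatrix_apply, Matrix.map_apply, Matrix.of_apply]
      rcases ss t with _ | p
      · rfl
      · exact (ulDer_apply Q hQ hker (D p) _).symm
    rw [← h2, ← h1, hker]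
    refine Filter.Eventually.of_forall fun m' => ?_
    have h3 := RingHom.map_det (Pi.evalRingHom (fun _ : ℕ => L) m')
      (Matrix.of fun s t => fun m' => col D (X m') (ss t) (rr s))
    have h4 : (Pi.evalRingHom (fun _ : ℕ => L) m').mapMatrix
        (Matrix.of fun s t => fun m' => col D (X m') (ss t) (rr s)) =
        Matrix.of fun s t => col D (X m') (ss t) (rr s) := rfl
    rw [h4, hXm m' rr ss] at h3
    exact h3

end Pool.Agent.Helper10.CT
end
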