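import Pool.Agent.Helper12.LVM.C06
import Pool.Agent.Helper12.LVM.C08
import Pool.Agent.Helper12.LVM.C12
import Pool.Agent.Helper12.LVM.C10
import Pool.Agent.Helper12.LVM.B04
import Pool.Agent.Helper12.LVM.B07

/- Helper12.LVF.H10.CT.LineCore -/
section
/-! # CT: linear algebra of the restrictions to a line -/

set_option autoImplicit false

namespace Pool.Agent.Helper10.CT

open scoped BigOperators
open Pool.Agent.Helper8.LG
open Pool.Agent.Helper6.CO (Fam Mov Nul qm)
open Pool.Agent.Helper8.CO (NulP)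
open Pool.Agent.Helper10.LB (lf)

section aux

variable {E : Type*} [Field E] {σ ι κ : Type*} [Fintype σ] [DecidableEq σ]

/-- the restriction to a line as a linear map -/
noncomputable def lfL (u v : σ → E) (q : ℕ) : (Sym σ q → E) →ₗ[E] Polynomial E where
  toFun a := lf a u v
  map_add' a b := by
    unfold lf form
    rw [← Finset.sum_add_distrib]
    refine Finset.sum_congr rfl fun J _ => ?_
    dsimp only
    rw [Pi.add_apply, Polynomial.C_add, add_mul]
  map_smul' c a := by
    unfold lf form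
    rw [RingHom.id_apply, Finset.smul_sum]
    refine Finset.sum_congr rfl fun J _ => ?_
    dsimp only
    rw [Pi.smul_apply, smul_eq_mul, Polynomial.C_mul, mul_assoc, Polynomial.smul_eq_C_mul]

theorem lfL_apply (u v : σ → E) (q : ℕ) (a : Sym σ q → E) : lfL u v q a = lf a u v := rfl

/-- every polynomial of degree at most `q` is the restriction of a form of degree `q` -/
theorem lf_surj [CharZero E] (u v : σ → E) (β₁ β₂ : σ) (hdet : u β₁ * v β₂ - u β₂ * v β₁ ≠ 0)
    (q : ℕ) (g : Polynomial E) (hg : g ∈ Polynomial.degreeLT E (q + 1)) :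
    ∃ e : Sym σ q → E, lf e u v = g := by
  classical
  set Bm : (Fin (q + 1) → E) →ₗ[E] (Sym σ q → E) :=
    { toFun := fun f J => ∑ r, if Helper49.LG.ab β₁ β₂ q r = J then f r else 0
      map_add' := fun f f' => by
        funext J
        rw [Pi.add_apply, ← Finset.sum_add_distrib]
        refine Finset.sum_congr rfl fun r _ => ?_
        split_ifs
        · rfl
        · rw [add_zero]
      map_smul' := fun c f => by
        funext J
        rw [RingHom.id_apply, Pi.smul_apply, Finset.smul_sum]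
        refine Finset.sum_congr rfl fun r _ => ?_
        split_ifs
        · rfl
        · rw [smul_zero] } with hBm
  have hmem : ∀ f, lfL u v q (Bm f) ∈ Polynomial.degreeLT E (q + 1) := by
    intro f
    rw [Polynomial.mem_degreeLT, lfL_apply]
    refine (Polynomial.degree_le_of_natDegree_le (LB.lf_natDegree_le _ _ _)).trans_lt ?_
    exact_mod_cast Nat.lt_succ_self q
  set T : (Fin (q + 1) → E) →ₗ[E] Polynomial.degreeLT E (q + 1) :=
    ((lfL u v q).comp Bm).codRestrict _ hmem with hT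
  have hinj : Function.Injective T := by
    rw [← LinearMap.ker_eq_bot, LinearMap.ker_eq_bot']
    intro f hf
    have h1 : lf (Bm f) u v = 0 := congrArg Subtype.val hf
    funext r
    refine Helper49.LG.zero_of_nat q f (u β₁) (u β₂) (v β₁) (v β₂) hdet (fun n => ?_) r
    have h2 := congrArg (Polynomial.eval (n : E)) h1
    rw [LB.lf_eval, Polynomial.eval_zero] at h2
    rw [← h2]
    unfold form
    have h3 : ∀ J : Sym σ q, Bm f J * mon (fun l => u l + (n : E) * v l) J =
        ∑ r, if Helper49.LG.ab β₁ β₂ q r = J then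
          f r * mon (fun l => u l + (n : E) * v l) J else 0 := by
      intro J
      show (∑ r, if Helper49.LG.ab β₁ β₂ q r = J then f r else 0) * _ = _
      rw [Finset.sum_mul]
      refine Finset.sum_congr rfl fun r _ => ?_
      rw [ite_mul, zero_mul]
    rw [Finset.sum_congr rfl fun J _ => h3 J, Finset.sum_comm]
    refine Finset.sum_congr rfl fun r _ => ?_
    rw [Finset.sum_ite_eq, if_pos (Finset.mem_univ _), Helper49.LG.mon_ab]
  have hfr : Module.finrank E (Fin (q + 1) → E) =
      Module.finrank E (Polynomial.degreeLT E (q + 1)) :=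
    (LinearEquiv.finrank_eq (Polynomial.degreeLTEquiv E (q + 1))).symm
  have : Module.Finite E (Polynomial.degreeLT E (q + 1)) :=
    Module.Finite.equiv (Polynomial.degreeLTEquiv E (q + 1)).symm
  have hsurj : Function.Surjective T :=
    (LinearMap.injective_iff_surjective_of_finrank_eq_finrank hfr).1 hinj
  obtain ⟨f, hf⟩ := hsurj ⟨g, hg⟩
  exact ⟨Bm f, congrArg Subtype.val hf⟩

/-- a linear section of the restriction to a line -/
theorem exists_section [CharZero E] (u v : σ → E) (β₁ β₂ : σ)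
    (hdet : u β₁ * v β₂ - u β₂ * v β₁ ≠ 0) (q : ℕ) :
    ∃ S : Polynomial E →ₗ[E] (Sym σ q → E),
      ∀ g ∈ Polynomial.degreeLT E (q + 1), lf (S g) u v = g := by
  classical
  have h1 : ∀ j : ℕ, ∃ e : Sym σ q → E, j < q + 1 → lf e u v = Polynomial.X ^ j := by
    intro j
    by_cases hj : j < q + 1
    · obtain ⟨e, he⟩ := lf_surj u v β₁ β₂ hdet q (Polynomial.X ^ j) (by
        rw [Polynomial.mem_degreeLT, Polynomial.degree_X_pow]
        exact_mod_cast hj)
      exact ⟨e, fun _ => he⟩
    · exact ⟨0, fun h => absurd h hj⟩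
  choose e he using h1
  refine ⟨∑ j ∈ Finset.range (q + 1), (Polynomial.lcoeff E j).smulRight (e j), fun g hg => ?_⟩
  rw [← lfL_apply, LinearMap.sum_apply, map_sum]
  have h2 : ∀ j ∈ Finset.range (q + 1), lfL u v q ((Polynomial.lcoeff E j).smulRight (e j) g) =
      Polynomial.C (g.coeff j) * Polynomial.X ^ j := by
    intro j hj
    rw [LinearMap.smulRight_apply, map_smul, lfL_apply, he j (Finset.mem_range.1 hj),
      Polynomial.lcoeff_apply, Polynomial.smul_eq_C_mul]
  rw [Finset.sum_congr rfl h2]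
  by_cases hg0 : g = 0
  · rw [hg0]
    simp
  · refine (Polynomial.as_sum_range_C_mul_X_pow' _ ?_).symm
    rw [Polynomial.mem_degreeLT] at hg
    exact (Polynomial.natDegree_lt_iff_degree_lt hg0).2 hg

end aux

/-- a combination of polynomials without common factor which is coprime to a given one -/
theorem exists_coprime {E : Type*} [Field E] [Infinite E] {κ : Type*} [Fintype κ]
    (m : κ → Polynomial E) (M : Polynomial E) (hM : M ≠ 0)
    (h : ∀ P : Polynomial E, Prime P → P ∣ M → ∃ t, ¬ P ∣ m t) :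
    ∃ s : κ → E, IsCoprime M (∑ t, Polynomial.C (s t) * m t) := by
  classical
  set L : (κ → E) →ₗ[E] Polynomial E :=
    { toFun := fun s => ∑ t, Polynomial.C (s t) * m t
      map_add' := fun s s' => by
        rw [← Finset.sum_add_distrib]
        refine Finset.sum_congr rfl fun t _ => ?_
        rw [Pi.add_apply, Polynomial.C_add, add_mul]
      map_smul' := fun c s => by
        rw [RingHom.id_apply, Finset.smul_sum]
        refine Finset.sum_congr rfl fun t _ => ?_
        rw [Pi.smul_apply, smul_eq_mul, Polynomial.C_mul, mul_assoc,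
          Polynomial.smul_eq_C_mul] } with hL
  have hLs : ∀ t, L (Pi.single t 1) = m t := by
    intro t
    show ∑ t', Polynomial.C ((Pi.single t 1 : κ → E) t') * m t' = m t
    rw [Finset.sum_eq_single t]
    · rw [Pi.single_eq_same, Polynomial.C_1, one_mul]
    · intro t' _ ht'
      rw [Pi.single_eq_of_ne ht', Polynomial.C_0, zero_mul]
    · intro h
      exact absurd (Finset.mem_univ _) h
  set W : Polynomial E → Subspace E (κ → E) := fun P =>
    ((Ideal.span {P}).restrictScalars E).comap L with hW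
  have hWm : ∀ P s, s ∈ W P ↔ P ∣ L s := by
    intro P s
    rw [hW]
    simp only
    rw [Submodule.mem_comap, Submodule.restrictScalars_mem, Ideal.mem_span_singleton]
  set F : Finset (Polynomial E) := (UniqueFactorizationMonoid.normalizedFactors M).toFinset with hF
  have hne := Subspace.biUnion_ne_univ_of_top_notMem (k := E) (s := F.image W) (by
    rw [Finset.mem_image]
    rintro ⟨P, hP, hPtop⟩
    rw [hF, Multiset.mem_toFinset] at hP
    obtain ⟨t, ht⟩ := h P (UniqueFactorizationMonoid.prime_of_normalized_factor P hP)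
      (UniqueFactorizationMonoid.dvd_of_mem_normalizedFactors hP)
    apply ht
    rw [← hLs t, ← hWm, hPtop]
    exact Submodule.mem_top)
  obtain ⟨s, hs⟩ := (Set.ne_univ_iff_exists_notMem _).1 hne
  refine ⟨s, isCoprime_of_irreducible_dvd (fun h0 => hM h0.1) fun P hP hPM hPL => ?_⟩
  obtain ⟨Q, hQ, hPQ⟩ := UniqueFactorizationMonoid.exists_mem_normalizedFactors_of_dvd hM hP hPM
  apply hs
  rw [Set.mem_iUnion₂]
  refine ⟨W Q, Finset.mem_image.2 ⟨Q, Multiset.mem_toFinset.2 hQ, rfl⟩, ?_⟩
  exact (hWm Q s).2 (hPQ.symm.dvd.trans hPL)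

/-- on a line the `m_t` have no common zero: the polynomial certificate -/
theorem nul_line {E : Type*} [Field E] {σ ι κ : Type*} [Fintype σ] [DecidableEq σ]
    [DecidableEq ι] [Fintype κ] (bl : κ → ι)
    {b : κ → ℕ} (ap : (t : κ) → Sym σ (b t) → E) (Y : Finset ι) (hN : NulP bl ap Y) (u v : σ → E)
    (β₁ β₂ : σ) (hdet : u β₁ * v β₂ - u β₂ * v β₁ ≠ 0) (i : ι) (hi : i ∈ Y)
    (P : Polynomial E) (hP : Prime P) :
    ∃ t, ¬ P ∣ (if bl t = i then lf (ap t) u v else 0) := by
  classical
  by_contra hcon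
  push Not at hcon
  have Pool.Agent.Helper8.LG.key : ∀ l, P ∣ Polynomial.C (u l) + Polynomial.X * Polynomial.C (v l) := by
    intro l
    obtain ⟨R, B, hB⟩ := hN i hi l
    have h1 := congrArg (MvPolynomial.eval₂Hom (Polynomial.C : E →+* Polynomial E)
      (fun l => Polynomial.C (u l) + Polynomial.X * Polynomial.C (v l))) hB
    rw [map_pow, MvPolynomial.coe_eval₂Hom, MvPolynomial.eval₂_X, ← MvPolynomial.coe_eval₂Hom,
      map_sum] at h1
    refine hP.dvd_of_dvd_pow (n := R) ?_
    rw [h1]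
    refine Finset.dvd_sum fun t _ => ?_
    have h2 := hcon t
    by_cases ht : bl t = i
    · rw [if_pos ht] at h2 ⊢
      rw [map_mul]
      refine Dvd.dvd.mul_left ?_ _
      have h3 : MvPolynomial.eval₂Hom (Polynomial.C : E →+* Polynomial E)
          (fun l => Polynomial.C (u l) + Polynomial.X * Polynomial.C (v l))
          (form (fun J => MvPolynomial.C (ap t J)) MvPolynomial.X) = lf (ap t) u v := by
        rw [LB.pd_map_form]
        unfold lf
        congr 1
        · funext J
          exact MvPolynomial.eval₂_C _ _ _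
        · funext l
          exact MvPolynomial.eval₂_X _ _ _
      rw [h3]
      exact h2
    · rw [if_neg ht, map_zero]
      exact dvd_zero _
  have h1 : P ∣ Polynomial.C (u β₁ * v β₂ - u β₂ * v β₁) := by
    have h2 := dvd_sub ((Pool.Agent.Helper8.LG.key β₁).mul_left (Polynomial.C (v β₂)))
      ((Pool.Agent.Helper8.LG.key β₂).mul_left (Polynomial.C (v β₁)))
    have h3 : Polynomial.C (v β₂) * (Polynomial.C (u β₁) + Polynomial.X * Polynomial.C (v β₁)) -
        Polynomial.C (v β₁) * (Polynomial.C (u β₂) + Polynomial.X * Polynomial.C (v β₂)) =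
        Polynomial.C (u β₁ * v β₂ - u β₂ * v β₁) := by
      rw [Polynomial.C_sub, Polynomial.C_mul, Polynomial.C_mul]
      ring
    rwa [h3] at h2
  exact hP.not_unit (isUnit_of_dvd_unit h1 (Polynomial.isUnit_C.2 (isUnit_iff_ne_zero.2 hdet)))

/-- one of the `m_t` does not vanish at the point at infinity of the line -/
theorem nul_top {E : Type*} [Field E] {σ ι κ : Type*} [Fintype σ] [DecidableEq σ]
    [DecidableEq ι] [Fintype κ] (bl : κ → ι)
    {b : κ → ℕ} (ap : (t : κ) → Sym σ (b t) → E) (Y : Finset ι) (hN : NulP bl ap Y) (u v : σ → E)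
    (β₁ β₂ : σ) (hdet : u β₁ * v β₂ - u β₂ * v β₁ ≠ 0) (i : ι) (hi : i ∈ Y) :
    ∃ t, bl t = i ∧ (lf (ap t) u v).coeff (b t) ≠ 0 := by
  classical
  obtain ⟨l, hl⟩ : ∃ l, v l ≠ 0 := by
    by_contra hcon
    push Not at hcon
    apply hdet
    rw [hcon, hcon]
    ring
  obtain ⟨R, B, hB⟩ := hN i hi l
  have h1 := congrArg (MvPolynomial.eval v) hB
  rw [map_pow, MvPolynomial.eval_X, map_sum] at h1
  have h2 : ∑ t, MvPolynomial.eval v (if bl t = i then
      B t * form (fun J => MvPolynomial.C (ap t J)) MvPolynomial.X else 0) ≠ 0 := by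
    rw [← h1]
    exact pow_ne_zero _ hl
  obtain ⟨t, -, ht⟩ := Finset.exists_ne_zero_of_sum_ne_zero h2
  have hbl : bl t = i := by
    by_contra hne
    apply ht
    rw [if_neg hne, map_zero]
  refine ⟨t, hbl, ?_⟩
  rw [if_pos hbl, map_mul] at ht
  rw [LB.lf_coeff_top]
  have h3 : MvPolynomial.eval v (form (fun J => MvPolynomial.C (ap t J)) MvPolynomial.X) =
      form (ap t) v := by
    rw [LB.pd_map_form]
    simp only [MvPolynomial.eval_C, MvPolynomial.eval_X]
  rw [h3] at ht
  exact right_ne_zero_of_mul ht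

/-- the space of restrictions `∑ m_t f_t`, `bl t = i`, has dimension at least `q'_i + 1` -/
theorem line_data {E : Type*} [Field E] [CharZero E] {σ ι κ : Type*} [Fintype σ] [DecidableEq σ]
    [DecidableEq ι] [Fintype κ] [DecidableEq κ] (bl : κ → ι) (d q₀ : ι → ℕ)
    (b q : κ → ℕ) (hdeg : ∀ t, d (bl t) = b t + q t) (hq₀ : ∀ t, q₀ (bl t) ≤ q t)
    (ap : (t : κ) → Sym σ (b t) → E) (Y : Finset ι) (hN : NulP bl ap Y) (u v : σ → E)
    (β₁ β₂ : σ) (hdet : u β₁ * v β₂ - u β₂ * v β₁ ≠ 0)
    (hP : ∀ i, ∃ t, bl t = i ∧ lf (ap t) u v ≠ 0) (i : ι) :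
    ∃ (t₁ : κ) (k : ℕ) (s : κ → E), bl t₁ = i ∧ k ≤ q₀ i + 1 ∧
      qm Y d q₀ i + 1 ≤ (q t₁ + 1) + k ∧ ∀ A B : Polynomial E, B ∈ Polynomial.degreeLT E k →
        lf (ap t₁) u v * A +
          (∑ t, Polynomial.C (s t) * if bl t = i then lf (ap t) u v else 0) * B = 0 →
        A = 0 ∧ B = 0 := by
  classical
  by_cases hi : i ∈ Y
  · obtain ⟨t₁, ht₁, htop⟩ := nul_top bl ap Y hN u v β₁ β₂ hdet i hi
    have hM : lf (ap t₁) u v ≠ 0 := by
      intro h
      apply htop
      rw [h, Polynomial.coeff_zero]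
    have hnd : (lf (ap t₁) u v).natDegree = b t₁ :=
      Polynomial.natDegree_eq_of_le_of_coeff_ne_zero (LB.lf_natDegree_le _ _ _) htop
    obtain ⟨s, hs⟩ := exists_coprime (fun t => if bl t = i then lf (ap t) u v else 0)
      (lf (ap t₁) u v) hM fun P hPp _ => nul_line bl ap Y hN u v β₁ β₂ hdet i hi P hPp
    refine ⟨t₁, min (b t₁) (q₀ i + 1), s, ht₁, min_le_right _ _, ?_, fun A B hB h => ?_⟩
    · unfold qm
      rw [if_pos hi]
      have h1 := hdeg t₁
      have h2 := hq₀ t₁
      rw [ht₁] at h1 h2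
      omega
    · have h1 : lf (ap t₁) u v ∣
          (∑ t, Polynomial.C (s t) * if bl t = i then lf (ap t) u v else 0) * B := by
        refine ⟨-A, ?_⟩
        linear_combination h
      have h2 : lf (ap t₁) u v ∣ B := hs.dvd_of_dvd_mul_left h1
      have hB0 : B = 0 := by
        by_contra hB0
        have h3 := Polynomial.natDegree_le_of_dvd h2 hB0
        rw [Polynomial.mem_degreeLT] at hB
        have h4 := (Polynomial.natDegree_lt_iff_degree_lt hB0).2 hB
        rw [hnd] at h3
        omega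
      refine ⟨?_, hB0⟩
      rw [hB0, mul_zero, add_zero] at h
      exact (mul_eq_zero.1 h).resolve_left hM
  · obtain ⟨t₁, ht₁, hM⟩ := hP i
    refine ⟨t₁, 0, 0, ht₁, Nat.zero_le _, ?_, fun A B hB h => ?_⟩
    · unfold qm
      rw [if_neg hi]
      have h2 := hq₀ t₁
      rw [ht₁] at h2
      omega
    · have hB0 : B = 0 := by
        rw [Polynomial.mem_degreeLT] at hB
        by_contra hB0
        rw [Polynomial.degree_eq_natDegree hB0] at hB
        have : (0 : ℕ) ≤ B.natDegree := Nat.zero_le _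
        exact absurd hB (by exact_mod_cast not_lt.2 (Nat.zero_le _))
      refine ⟨?_, hB0⟩
      rw [hB0, mul_zero, add_zero] at h
      exact (mul_eq_zero.1 h).resolve_left hM

theorem finrank_degLT {E : Type*} [Field E] (n : ℕ) :
    Module.finrank E (Polynomial.degreeLT E n) = n := by
  rw [LinearEquiv.finrank_eq (Polynomial.degreeLTEquiv E n)]
  simp

/-- The restrictions `∑_(bl t = i) m_t f_t` to a line, `f_t` a form of degree `q t`: fewer than
`∑ (q'_i + 1)` linear conditions on the `f_t` do not make all of them vanish. -/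
theorem line_core {E : Type*} [Field E] [CharZero E] {σ ι κ : Type*} [Fintype σ] [DecidableEq σ]
    [Fintype ι] [DecidableEq ι] [Fintype κ] [DecidableEq κ] (bl : κ → ι) (d q₀ : ι → ℕ)
    (b q : κ → ℕ) (hdeg : ∀ t, d (bl t) = b t + q t) (hq₀ : ∀ t, q₀ (bl t) ≤ q t)
    (ap : (t : κ) → Sym σ (b t) → E) (Y : Finset ι) (hN : NulP bl ap Y) (u v : σ → E)
    (β₁ β₂ : σ) (hdet : u β₁ * v β₂ - u β₂ * v β₁ ≠ 0)
    (hP : ∀ i, ∃ t, bl t = i ∧ lf (ap t) u v ≠ 0) {V : Type*} [AddCommGroup V] [Module E V]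
    [FiniteDimensional E V] (c : (Ix σ q → E) →ₗ[E] V)
    (hc : Module.finrank E V < ∑ i, (qm Y d q₀ i + 1)) :
    ∃ f : Ix σ q → E, c f = 0 ∧ ∃ i, (∑ t, if bl t = i then
      lf (ap t) u v * lf (fun J => f ⟨t, J⟩) u v else 0) ≠ 0 := by
  classical
  choose t₁ k s hbl hk hcount hinj using
    line_data bl d q₀ b q hdeg hq₀ ap Y hN u v β₁ β₂ hdet hP
  choose S hS using exists_section (E := E) u v β₁ β₂ hdet
  have hfin : ∀ n, Module.Finite E (Polynomial.degreeLT E n) := fun n =>
    Module.Finite.equiv (Polynomial.degreeLTEquiv E n).symm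
  set φ : ((i : ι) → (Polynomial.degreeLT E (q (t₁ i) + 1) × Polynomial.degreeLT E (k i)))
      →ₗ[E] (Ix σ q → E) :=
    { toFun := fun w x => (if x.1 = t₁ (bl x.1) then
          S (q x.1) ((w (bl x.1)).1 : Polynomial E) x.2 else 0) +
        s (bl x.1) x.1 * S (q x.1) ((w (bl x.1)).2 : Polynomial E) x.2
      map_add' := fun w w' => by
        funext x
        simp only [Pi.add_apply, Prod.fst_add, Prod.snd_add, Submodule.coe_add, map_add]
        split_ifs
        · ring
        · ring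
      map_smul' := fun c w => by
        funext x
        simp only [Pi.smul_apply, Prod.smul_fst, Prod.smul_snd, Submodule.coe_smul, map_smul,
          smul_eq_mul, RingHom.id_apply]
        split_ifs
        · ring
        · ring } with hφ
  have hker : LinearMap.ker (c.comp φ) ≠ ⊥ := by
    apply LinearMap.ker_ne_bot_of_finrank_lt
    refine lt_of_lt_of_le hc ?_
    rw [Module.finrank_pi_fintype]
    refine Finset.sum_le_sum fun i _ => ?_
    rw [Module.finrank_prod, finrank_degLT, finrank_degLT]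
    exact hcount i
  obtain ⟨w, hw, hw0⟩ := (Submodule.ne_bot_iff _).1 hker
  refine ⟨φ w, hw, ?_⟩
  by_contra hcon
  push Not at hcon
  apply hw0
  funext i
  have hA : ((w i).1 : Polynomial E) ∈ Polynomial.degreeLT E (q (t₁ i) + 1) := (w i).1.2
  have hB : ((w i).2 : Polynomial E) ∈ Polynomial.degreeLT E (k i) := (w i).2.2
  have hlf : ∀ t, bl t = i → lf (fun J => φ w ⟨t, J⟩) u v =
      (if t = t₁ i then ((w i).1 : Polynomial E) else 0) +
        Polynomial.C (s i t) * ((w i).2 : Polynomial E) := by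
    intro t ht
    have h1 : (fun J => φ w ⟨t, J⟩) = (if t = t₁ i then
        S (q t) ((w i).1 : Polynomial E) else 0) + s i t • S (q t) ((w i).2 : Polynomial E) := by
      funext J
      subst ht
      show (if t = t₁ (bl t) then S (q t) ((w (bl t)).1 : Polynomial E) J else 0) +
        s (bl t) t * S (q t) ((w (bl t)).2 : Polynomial E) J = _
      rw [Pi.add_apply, Pi.smul_apply, smul_eq_mul]
      split_ifs <;> rfl
    rw [← lfL_apply, h1, map_add, map_smul]
    congr 1
    · split_ifs with h2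
      · rw [lfL_apply]
        refine hS (q t) _ ?_
        rw [h2]
        exact hA
      · exact map_zero _
    · rw [Polynomial.smul_eq_C_mul, lfL_apply]
      congr 1
      refine hS (q t) _ (Polynomial.degreeLT_mono ?_ hB)
      have h3 := hq₀ t
      have h4 := hk i
      rw [ht] at h3
      omega
  have h5 := hcon i
  have h6 : (∑ t, if bl t = i then lf (ap t) u v * lf (fun J => φ w ⟨t, J⟩) u v else 0) =
      lf (ap (t₁ i)) u v * ((w i).1 : Polynomial E) +
        (∑ t, Polynomial.C (s i t) * if bl t = i then lf (ap t) u v else 0) *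
          ((w i).2 : Polynomial E) := by
    have h7 : ∀ t, (if bl t = i then lf (ap t) u v * lf (fun J => φ w ⟨t, J⟩) u v else 0) =
        (if t = t₁ i then lf (ap t) u v * ((w i).1 : Polynomial E) else 0) +
          Polynomial.C (s i t) * (if bl t = i then lf (ap t) u v else 0) *
            ((w i).2 : Polynomial E) := by
      intro t
      by_cases ht : bl t = i
      · rw [if_pos ht, if_pos ht, hlf t ht]
        split_ifs
        · ring
        · ring
      · rw [if_neg ht, if_neg ht, if_neg]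
        · ring
        · intro h8
          apply ht
          rw [h8, hbl]
    rw [Finset.sum_congr rfl fun t _ => h7 t, Finset.sum_add_distrib, Finset.sum_ite_eq',
      if_pos (Finset.mem_univ _), Finset.sum_mul]
  rw [h6] at h5
  obtain ⟨h8, h9⟩ := hinj i _ _ hB h5
  exact Prod.ext (Subtype.ext h8) (Subtype.ext h9)

end Pool.Agent.Helper10.CT
end

/- Helper12.LVF.H10.CT.GenLine -/
section
/-! # CT: lines and moving families -/

set_option autoImplicit false

namespace Pool.Agent.Helper10.CT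

open scoped BigOperators
open Pool.Agent.Helper8.LG (Ix Dual form mon)
open Pool.Agent.Helper6.CO (Fam Mov Nul qm)
open Pool.Agent.Helper8.CO (NulP)
open Pool.Agent.Helper10.LB (lf lf_eval)

/-- A combination of the `D_s` which kills few given elements and moves the forms on a line. -/
theorem exists_killer {E : Type*} [Field E] [CharZero E] {σ ι κ τ : Type*} [Fintype σ]
    [DecidableEq σ] [Fintype ι] [DecidableEq ι] [Fintype κ] [DecidableEq κ] [Fintype τ]
    (bl : κ → ι) (d q₀ : ι → ℕ) (b q : κ → ℕ) (hq₀ : ∀ t, q₀ (bl t) ≤ q t)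
    (a : (i : ι) → Sym σ (d i) → E) (ap : (t : κ) → Sym σ (b t) → E)
    (ah : (t : κ) → Sym σ (q t) → E) (D : Ix σ q → Derivation ℤ E E)
    (jj : τ → Ix σ q) (θ : τ → Ix σ q → E) (hD : Dual q ah D jj θ)
    (hM : MovB bl d b q a ap ah D) (Y : Finset ι) (hN : NulP bl ap Y) (u v : σ → E) (β₁ β₂ : σ)
    (hdet : u β₁ * v β₂ - u β₂ * v β₁ ≠ 0) (hP : ∀ i, ∃ t, bl t = i ∧ lf (ap t) u v ≠ 0)
    {ζ : Type*} [Fintype ζ] (z : ζ → E)
    (hcard : Fintype.card ζ + Fintype.card τ < ∑ i, (qm Y d q₀ i + 1)) :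
    ∃ (δ : Derivation ℤ E E) (i : ι) (W : Polynomial E), W ≠ 0 ∧ (∀ m, δ (z m) = 0) ∧
      ∀ n : E, (∀ l, δ (u l + n * v l) = 0) →
        δ (form (a i) fun l => u l + n * v l) = W.eval n := by
  classical
  set Λ : (Ix σ q → E) →ₗ[E] (ζ ⊕ τ → E) :=
    { toFun := fun f => Sum.elim (fun m => ∑ s, f s * D s (z m)) fun j => ∑ s, f s * θ j s
      map_add' := fun f g => by
        funext t
        rcases t with m | j <;> simp [add_mul, Finset.sum_add_distrib]
      map_smul' := fun c f => by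
        funext t
        rcases t with m | j <;> simp [Finset.mul_sum, mul_assoc] } with hΛ
  obtain ⟨f, hf, i, hW⟩ := line_core bl d q₀ b q hM.deg hq₀ ap Y hN u v β₁ β₂ hdet hP Λ (by
    rw [Module.finrank_fintype_fun_eq_card, Fintype.card_sum]
    exact hcard)
  have hf1 : ∀ m, ∑ s, f s * D s (z m) = 0 := fun m => congrFun hf (Sum.inl m)
  have hf2 : ∀ j, ∑ s, f s * θ j s = 0 := fun j => congrFun hf (Sum.inr j)
  set δ : Derivation ℤ E E := ∑ s, f s • D s with hδ
  have hδa : ∀ y, δ y = ∑ s, f s * D s y := by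
    intro y
    have h1 : δ y = (Derivation.coeFnAddMonoidHom δ) y := rfl
    rw [h1, hδ, map_sum, Finset.sum_apply]
    rfl
  have hδh : ∀ (t : κ) (J : Sym σ (q t)), δ (ah t J) = f ⟨t, J⟩ := by
    intro t J
    rw [hδa]
    have h1 : ∀ s, f s * D s (ah t J) = (if s = ⟨t, J⟩ then f s else 0) -
        ∑ j, if jj j = ⟨t, J⟩ then f s * θ j s else 0 := by
      intro s
      rw [hD s ⟨t, J⟩, mul_sub, mul_ite, mul_one, mul_zero, Finset.mul_sum]
      congr 1
      exact Finset.sum_congr rfl fun j _ => by rw [mul_ite, mul_zero]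
    rw [Finset.sum_congr rfl fun s _ => h1 s, Finset.sum_sub_distrib, Finset.sum_comm,
      Finset.sum_ite_eq' Finset.univ, if_pos (Finset.mem_univ _)]
    have h2 : ∑ j, ∑ s, (if jj j = ⟨t, J⟩ then f s * θ j s else 0) = 0 := by
      refine Finset.sum_eq_zero fun j _ => ?_
      split_ifs
      · exact hf2 j
      · exact Finset.sum_const_zero
    rw [h2, sub_zero]
  refine ⟨δ, i, _, hW, fun m => by rw [hδa]; exact hf1 m, fun n hn => ?_⟩
  set x : σ → E := fun l => u l + n * v l with hx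
  obtain ⟨g, hg, _⟩ := Pool.Agent.Helper8.LG.kf_grad_form (a i) x
  rw [hg δ, Finset.sum_eq_zero (s := Finset.univ) (f := fun l => g l * δ (x l))
    (fun l _ => by rw [hn l, mul_zero]), add_zero]
  have hsum : ∀ {m : ℕ} (c : Sym σ m → E), ∑ J, δ (c J) * mon x J =
      ∑ s, f s * ∑ J, D s (c J) * mon x J := by
    intro m c
    have h2 : ∀ J : Sym σ m, δ (c J) * mon x J = ∑ s, f s * (D s (c J) * mon x J) := by
      intro J
      rw [hδa, Finset.sum_mul]
      exact Finset.sum_congr rfl fun s _ => mul_assoc _ _ _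
    rw [Finset.sum_congr rfl fun J _ => h2 J, Finset.sum_comm]
    exact Finset.sum_congr rfl fun s _ => (Finset.mul_sum _ _ _).symm
  have h3 : ∀ s, f s * ∑ J, D s (a i J) * mon x J = ∑ t, if bl t = i then
      form (ap t) x * (f s * ∑ J, D s (ah t J) * mon x J) else 0 := by
    intro s
    rw [hM.mov.der s i x, Finset.mul_sum]
    refine Finset.sum_congr rfl fun t _ => ?_
    split_ifs
    · ring
    · rw [mul_zero]
  rw [hsum, Finset.sum_congr rfl fun s _ => h3 s, Finset.sum_comm, Polynomial.eval_finsetSum]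
  refine Finset.sum_congr rfl fun t _ => ?_
  split_ifs with ht
  · rw [← Finset.mul_sum, ← hsum, Polynomial.eval_mul, lf_eval, lf_eval]
    congr 1
    unfold form
    exact Finset.sum_congr rfl fun J _ => by rw [hδh]
  · rw [Finset.sum_const_zero, Polynomial.eval_zero]

/-- A line is not contained in all the hypersurfaces. -/
theorem gen_line {E : Type*} [Field E] [CharZero E] {σ ι κ τ : Type*} [Fintype σ]
    [DecidableEq σ] [Fintype ι] [DecidableEq ι] [Fintype κ] [DecidableEq κ] [Fintype τ]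
    (bl : κ → ι) (d q₀ : ι → ℕ) (b q : κ → ℕ) (hq₀ : ∀ t, q₀ (bl t) ≤ q t)
    (a : (i : ι) → Sym σ (d i) → E) (p : (t : κ) → Sym σ (b t) → E)
    (h : (t : κ) → Sym σ (q t) → E) (D : Ix σ q → Derivation ℤ E E)
    (jj : τ → Ix σ q) (θ : τ → Ix σ q → E) (hD : Dual q h D jj θ)
    (hM : MovB bl d b q a p h D) (Y : Finset ι) (hN : NulP bl p Y)
    (α β : σ) (hαβ : α ≠ β)
    (u v : σ → E) (huα : u α = 1) (huβ : u β = 0) (hvα : v α = 0) (hvβ : v β = 1)
    (y : σ → E) (hy : ∀ l, y l = y α * u l + y β * v l)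
    (hPy : ∀ i, ∃ t, bl t = i ∧ form (p t) y ≠ 0)
    (hcount : 2 * Fintype.card σ + Fintype.card τ ≤ ∑ i, (qm Y d q₀ i + 1) + 3) :
    ∃ (i : ι) (n : ℕ), form (a i) (fun l => u l + n * v l) ≠ 0 := by
  classical
  by_contra hcon
  push Not at hcon
  have hcard : Fintype.card {l : σ // l ≠ α ∧ l ≠ β} + 2 = Fintype.card σ := by
    have h1 : Fintype.card {l : σ // l ≠ α ∧ l ≠ β} =
        (Finset.univ.filter fun l : σ => l ≠ α ∧ l ≠ β).card := Fintype.card_subtype _
    have h2 : (Finset.univ.filter fun l : σ => l ≠ α ∧ l ≠ β) = Finset.univ \ {α, β} := by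
      ext l
      simp
    rw [h1, h2, Finset.card_sdiff_of_subset (Finset.subset_univ _), Finset.card_pair hαβ,
      Finset.card_univ]
    have h3 : 2 ≤ Fintype.card σ := by
      rw [← Finset.card_pair hαβ]
      exact Finset.card_le_univ _
    omega
  have hPl : ∀ i, ∃ t, bl t = i ∧ lf (p t) u v ≠ 0 := by
    intro i
    obtain ⟨t, ht, hty⟩ := hPy i
    refine ⟨t, ht, fun h0 => hty ?_⟩
    have h1 : y = fun l => y α * u l + y β * v l := funext hy
    rw [h1]
    refine Pool.Agent.Helper10.LV.line_zero (p t) u v (fun m => ?_) (y α) (y β)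
    rw [← lf_eval, h0, Polynomial.eval_zero]
  obtain ⟨δ, i, W, hW, hδ, hform⟩ := exists_killer bl d q₀ b q hq₀ a p h D jj θ hD hM Y hN u v
    α β (by rw [huα, huβ, hvα, hvβ]; simp) hPl
    (ζ := {l : σ // l ≠ α ∧ l ≠ β} × Bool) (fun m => if m.2 then u m.1 else v m.1) (by
      rw [Fintype.card_prod, Fintype.card_bool]
      (clear * - hcount hcard; omega))
  have hδu : ∀ l, δ (u l) = 0 := by
    intro l
    by_cases h1 : l = α
    · rw [h1, huα, Derivation.map_one_eq_zero]
    · by_cases h2 : l = β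
      · rw [h2, huβ, map_zero]
      · exact hδ (⟨l, h1, h2⟩, true)
  have hδv : ∀ l, δ (v l) = 0 := by
    intro l
    by_cases h1 : l = α
    · rw [h1, hvα, map_zero]
    · by_cases h2 : l = β
      · rw [h2, hvβ, Derivation.map_one_eq_zero]
      · exact hδ (⟨l, h1, h2⟩, false)
  apply hW
  refine Polynomial.eq_zero_of_infinite_isRoot _ ?_
  refine Set.infinite_of_injective_forall_mem (f := fun m : ℕ => (m : E)) Nat.cast_injective
    fun m => ?_
  show W.eval (m : E) = 0
  rw [← hform m, hcon i m, map_zero]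
  intro l
  rw [map_add, hδu, zero_add, Derivation.leibniz, hδv, smul_zero, zero_add,
    Derivation.map_natCast, smul_zero]

/-- The forms do not all vanish in at most two points of a line. -/
theorem no_two {E : Type*} [Field E] [CharZero E] {σ ι κ τ : Type*} [Fintype σ]
    [DecidableEq σ] [Fintype ι] [DecidableEq ι] [Fintype κ] [DecidableEq κ] [Fintype τ]
    (bl : κ → ι) (d q₀ : ι → ℕ) (b q : κ → ℕ) (hq₀ : ∀ t, q₀ (bl t) ≤ q t)
    (a : (i : ι) → Sym σ (d i) → E) (ap : (t : κ) → Sym σ (b t) → E)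
    (ah : (t : κ) → Sym σ (q t) → E) (D : Ix σ q → Derivation ℤ E E)
    (jj : τ → Ix σ q) (θ : τ → Ix σ q → E) (hD : Dual q ah D jj θ)
    (hM : MovB bl d b q a ap ah D) (Y : Finset ι) (hN : NulP bl ap Y)
    (p p' : σ → E) (α β : σ) (hdet : p α * p' β - p β * p' α ≠ 0)
    (hP : ∀ i, ∃ t, bl t = i ∧ ∃ x y : E, form (ap t) (fun l => x * p l + y * p' l) ≠ 0)
    (ip iq : σ) (hp : p ip = 1) (hq : p' iq = 1) (U : Finset ι) (e : ι → E) (c : ι → ℕ)
    (he : ∀ i ∉ U, e i = 0)
    (h : ∀ (i : ι) (n : ℕ), form (a i) (fun l => p l + n * p' l) = e i * (n : E) ^ c i)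
    (hcount : 2 * Fintype.card σ + U.card + Fintype.card τ <
      ∑ i, (qm Y d q₀ i + 1) + 2) : False := by
  classical
  have hcard : ∀ j : σ, Fintype.card {l : σ // l ≠ j} + 1 = Fintype.card σ := by
    intro j
    have h1 : Fintype.card {l : σ // l ≠ j} = Fintype.card σ - 1 := by
      rw [Fintype.card_subtype_compl (fun l => l = j)]
      simp
    have h2 : 0 < Fintype.card σ := Fintype.card_pos_iff.2 ⟨j⟩
    omega
  have hPl : ∀ i, ∃ t, bl t = i ∧ lf (ap t) p p' ≠ 0 := by
    intro i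
    obtain ⟨t, ht, x, y, hxy⟩ := hP i
    refine ⟨t, ht, fun h0 => hxy ?_⟩
    refine Pool.Agent.Helper10.LV.line_zero (ap t) p p' (fun m => ?_) x y
    rw [← lf_eval, h0, Polynomial.eval_zero]
  obtain ⟨δ, i, W, hW, hδ, hform⟩ := exists_killer bl d q₀ b q hq₀ a ap ah D jj θ hD hM Y hN
    p p' α β hdet hPl (ζ := ({l : σ // l ≠ ip} ⊕ {l : σ // l ≠ iq}) ⊕ U)
    (Sum.elim (Sum.elim (fun l => p l) fun l => p' l) fun i => e i) (by
      rw [Fintype.card_sum, Fintype.card_sum, Fintype.card_coe]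
      have h1 := hcard ip
      have h2 := hcard iq
      omega)
  have hδp : ∀ l, δ (p l) = 0 := by
    intro l
    by_cases h1 : l = ip
    · rw [h1, hp, Derivation.map_one_eq_zero]
    · exact hδ (Sum.inl (Sum.inl ⟨l, h1⟩))
  have hδq : ∀ l, δ (p' l) = 0 := by
    intro l
    by_cases h1 : l = iq
    · rw [h1, hq, Derivation.map_one_eq_zero]
    · exact hδ (Sum.inl (Sum.inr ⟨l, h1⟩))
  have hδe : ∀ i, δ (e i) = 0 := by
    intro i
    by_cases h1 : i ∈ U
    · exact hδ (Sum.inr ⟨i, h1⟩)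
    · rw [he i h1, map_zero]
  apply hW
  refine Polynomial.eq_zero_of_infinite_isRoot _ ?_
  refine Set.infinite_of_injective_forall_mem (f := fun m : ℕ => (m : E)) Nat.cast_injective
    fun n => ?_
  show W.eval (n : E) = 0
  rw [← hform n, h i n, Derivation.leibniz, hδe, smul_zero, add_zero]
  · have h1 : δ ((n : E) ^ c i) = 0 := by
      rw [Derivation.leibniz_pow, Derivation.map_natCast, smul_zero, smul_zero]
    rw [h1, smul_zero]
  · intro l
    rw [map_add, hδp, zero_add, Derivation.leibniz, hδq, smul_zero, zero_add,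
      Derivation.map_natCast, smul_zero]

end Pool.Agent.Helper10.CT
end

/- Helper12.LVF.H10.CT.NoTwo -/
section
/-! # CT: lines meet the divisor in at least three points, nonlinear families -/

set_option autoImplicit false

namespace Pool.Agent.Helper10.CT

open scoped BigOperators
open Polynomial Pool.Agent.Helper8.LG Pool.Agent.Helper10.LB
open Pool.Agent.Helper6.CO (Fam Mov Nul qm)
open Pool.Agent.Helper8.CO (NulP nulP_map)

private theorem ntv_scale {K σ : Type*} [Field K] [Fintype σ] [DecidableEq σ] {n : ℕ}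
    (a : Sym σ n → K) (c : K) (x : σ → K) : form a (fun l => c * x l) = c ^ n * form a x := by
  unfold form
  rw [Finset.mul_sum]
  refine Finset.sum_congr rfl fun J _ => ?_
  have h : mon (fun l => c * x l) J = c ^ n * mon x J := by
    unfold mon
    rw [Multiset.prod_map_mul, Multiset.map_const', Multiset.prod_replicate, Sym.card_coe]
  rw [h]
  ring

/-- the homogeneous version of `lf` with two roots -/
private theorem ntv_hom {K : Type*} [Field K] {σ : Type*} [Fintype σ] [DecidableEq σ] {n : ℕ}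
    (a : Sym σ n → K) (u v : σ → K) (ρ₁ ρ₂ : K) (α β : ℕ) (hαβ : α + β = n)
    (h : lf a u v = C (form a v) * ((X - C ρ₁) ^ α * (X - C ρ₂) ^ β)) (x y : K) :
    form a (fun l => x * (u l + ρ₁ * v l) + y * (u l + ρ₂ * v l)) =
      form a v * ((y * (ρ₂ - ρ₁)) ^ α * (x * (ρ₁ - ρ₂)) ^ β) := by
  by_cases hxy : x + y = 0
  · have hx : x = -y := by linear_combination hxy
    have h1 : (fun l => x * (u l + ρ₁ * v l) + y * (u l + ρ₂ * v l)) =
        fun l => (y * (ρ₂ - ρ₁)) * v l := by
      funext l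
      rw [hx]
      ring
    have h2 : x * (ρ₁ - ρ₂) = y * (ρ₂ - ρ₁) := by
      rw [hx]
      ring
    rw [h1, ntv_scale, h2, ← pow_add, hαβ]
    ring
  · set z : K := (x * ρ₁ + y * ρ₂) / (x + y) with hz
    have hz1 : (x + y) * z = x * ρ₁ + y * ρ₂ := by
      rw [hz]
      field_simp
    have h1 : (fun l => x * (u l + ρ₁ * v l) + y * (u l + ρ₂ * v l)) =
        fun l => (x + y) * (u l + z * v l) := by
      funext l
      linear_combination (-v l) * hz1
    have h2 : y * (ρ₂ - ρ₁) = (x + y) * (z - ρ₁) := by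
      linear_combination -hz1
    have h3 : x * (ρ₁ - ρ₂) = (x + y) * (z - ρ₂) := by
      linear_combination -hz1
    have h5 : (x + y) ^ n = (x + y) ^ α * (x + y) ^ β := by rw [← pow_add, hαβ]
    rw [h1, ntv_scale, ← lf_eval, h, h2, h3, mul_pow, mul_pow, h5]
    simp only [eval_mul, eval_C, eval_pow, eval_sub, eval_X]
    ring

/-- the factorisation -/
private theorem ntv_fact {K : Type*} [Field K] (f h : K[X]) (hf0 : f ≠ 0) (hh0 : h ≠ 0)
    (hh : h.Splits) (k : ℕ) (hdvd : f ∣ h ^ k) (ρ₁ ρ₂ : K) (hρ : ρ₁ ≠ ρ₂)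
    (hr : ∀ r ∈ h.roots, r = ρ₁ ∨ r = ρ₂) :
    ∃ α β : ℕ, α + β = f.natDegree ∧
      f = C f.leadingCoeff * ((X - C ρ₁) ^ α * (X - C ρ₂) ^ β) := by
  classical
  have hs : f.Splits := (hh.pow k).of_dvd (pow_ne_zero _ hh0) hdvd
  have hsub : f.roots.toFinset ⊆ {ρ₁, ρ₂} := by
    intro r hr1
    rw [Multiset.mem_toFinset, mem_roots hf0] at hr1
    have h1 : (h ^ k).IsRoot r := hr1.dvd hdvd
    rw [IsRoot, eval_pow] at h1
    have h2 : r ∈ h.roots := by
      rw [mem_roots hh0]
      exact eq_zero_of_pow_eq_zero h1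
    rcases hr r h2 with h3 | h3
    · simp [h3]
    · simp [h3]
  refine ⟨f.roots.count ρ₁, f.roots.count ρ₂, ?_, ?_⟩
  · rw [hs.natDegree_eq_card_roots, ← Multiset.toFinset_sum_count_eq,
      Finset.sum_subset hsub fun r _ h1 => ?_, Finset.sum_pair hρ]
    rw [Multiset.mem_toFinset] at h1
    exact Multiset.count_eq_zero_of_notMem h1
  · conv_lhs => rw [hs.eq_prod_roots]
    congr 1
    rw [Finset.prod_multiset_map_count, Finset.prod_subset hsub fun r _ h1 => ?_,
      Finset.prod_pair hρ]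
    rw [Multiset.mem_toFinset] at h1
    rw [Multiset.count_eq_zero_of_notMem h1, pow_zero]

/-- at most two roots -/
private theorem ntv_roots {K : Type*} [Field K] (h : K[X]) (hn : h.natDegree ≤ 2) :
    ∃ ρ₁ ρ₂ : K, ρ₁ ≠ ρ₂ ∧ ∀ r ∈ h.roots, r = ρ₁ ∨ r = ρ₂ := by
  classical
  have h1 : h.roots.toFinset.card ≤ 2 :=
    (Multiset.toFinset_card_le _).trans ((card_roots' h).trans hn)
  rcases Nat.lt_or_ge h.roots.toFinset.card 2 with h2 | h2
  · rcases Nat.eq_zero_or_pos h.roots.toFinset.card with h3 | h3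
    · refine ⟨0, 1, zero_ne_one, fun r hr => ?_⟩
      rw [Finset.card_eq_zero] at h3
      rw [← Multiset.mem_toFinset, h3] at hr
      exact absurd hr (Finset.notMem_empty _)
    · obtain ⟨ρ, hρ⟩ := Finset.card_eq_one.1 (by omega : h.roots.toFinset.card = 1)
      refine ⟨ρ, ρ + 1, fun h4 => ?_, fun r hr => ?_⟩
      · exact one_ne_zero (left_eq_add.1 h4)
      · rw [← Multiset.mem_toFinset, hρ, Finset.mem_singleton] at hr
        exact Or.inl hr
  · obtain ⟨ρ₁, ρ₂, hne, hρ⟩ := Finset.card_eq_two.1 (le_antisymm h1 h2)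
    refine ⟨ρ₁, ρ₂, hne, fun r hr => ?_⟩
    rw [← Multiset.mem_toFinset, hρ, Finset.mem_insert, Finset.mem_singleton] at hr
    exact hr

/-- If `F_i = 0` on the line `u + Y v` for `i ∈ Z` and the `F_i(u + Y v)`, `i ∉ Z`, have full
degree, then together they have at least three distinct roots (over an algebraic closure). -/
theorem three_roots {E : Type*} [Field E] [CharZero E] {σ ι κ τ : Type*} [Fintype σ]
    [DecidableEq σ] [Fintype ι] [DecidableEq ι] [Fintype κ] [DecidableEq κ] [Fintype τ]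
    (bl : κ → ι) (d q₀ : ι → ℕ) (b q : κ → ℕ) (hq₀ : ∀ t, q₀ (bl t) ≤ q t)
    (a : (i : ι) → Sym σ (d i) → E) (ap : (t : κ) → Sym σ (b t) → E)
    (ah : (t : κ) → Sym σ (q t) → E) (D : Ix σ q → Derivation ℤ E E)
    (jj : τ → Ix σ q) (θ : τ → Ix σ q → E) (hD : Dual q ah D jj θ)
    (hM : MovB bl d b q a ap ah D) (Z Y : Finset ι) (hN : NulP bl ap Y)
    (hnum : 2 * Fintype.card σ + Fintype.card τ ≤ ∑ i, qm Y d q₀ i + Z.card + 1)
    (u v : σ → E) (β₁ β₂ : σ) (hpi : u β₁ * v β₂ - u β₂ * v β₁ ≠ 0)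
    (hP : ∀ i, ∃ t, bl t = i ∧ lf (ap t) u v ≠ 0)
    (hZ : ∀ i ∈ Z, lf (a i) u v = 0) (hU : ∀ i ∉ Z, form (a i) v ≠ 0)
    (h : E[X]) (h0 : h ≠ 0) (hdvd : ∀ i ∉ Z, ∃ n, lf (a i) u v ∣ h ^ n) :
    3 ≤ h.natDegree := by
  classical
  by_contra hlt
  have hn2 : h.natDegree ≤ 2 := by omega
  let K := h.SplittingField
  let φ : E →+* K := algebraMap E K
  have hφ : Function.Injective φ := φ.injective
  have : CharZero K := charZero_of_injective_algebraMap hφ
  -- the polynomial over `K`
  have hhK0 : h.map φ ≠ 0 := (Polynomial.map_ne_zero_iff hφ).2 h0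
  have hhK : (h.map φ).Splits := SplittingField.splits h
  obtain ⟨ρ₁, ρ₂, hρ, hroots⟩ := ntv_roots (h.map φ) (by rw [natDegree_map]; exact hn2)
  -- derivations
  choose D' hD' using fun s : Ix σ q => der_ext (K := K) (D s)
  have hDual : Dual q (fun i J => φ (ah i J)) D' jj (fun j s => φ (θ j s)) := by
    intro s t
    have h1 := hD' s (ah t.1 t.2)
    rw [hD s t] at h1
    rw [show D' s (φ (ah t.1 t.2)) = _ from h1, map_sub, map_sum]
    congr 1
    · split_ifs
      · exact map_one φ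
      · exact map_zero φ
    · refine Finset.sum_congr rfl fun j _ => ?_
      split_ifs
      · rfl
      · exact map_zero φ
  have hMov : MovB bl d b q (fun i J => φ (a i J))
      (fun t J => φ (ap t J)) (fun t J => φ (ah t J)) D' :=
    hM.map φ D' fun s x => hD' s x
  -- factorisations
  have hfac : ∀ i ∉ Z, ∃ α β : ℕ, α + β = d i ∧
      lf (fun J => φ (a i J)) (fun l => φ (u l)) (fun l => φ (v l)) =
        C (form (fun J => φ (a i J)) fun l => φ (v l)) *
          ((X - C ρ₁) ^ α * (X - C ρ₂) ^ β) := by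
    intro i hi
    obtain ⟨k, hk⟩ := hdvd i hi
    have hv : form (fun J => φ (a i J)) (fun l => φ (v l)) ≠ 0 := by
      rw [← pd_map_form]
      exact (map_ne_zero φ).2 (hU i hi)
    have hc := lf_coeff_top (fun J => φ (a i J)) (fun l => φ (u l)) (fun l => φ (v l))
    have hle := lf_natDegree_le (fun J => φ (a i J)) (fun l => φ (u l)) (fun l => φ (v l))
    have hdeg : (lf (fun J => φ (a i J)) (fun l => φ (u l)) (fun l => φ (v l))).natDegree =
        d i := by
      refine le_antisymm hle (le_natDegree_of_ne_zero ?_)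
      rw [hc]
      exact hv
    have hf0 : lf (fun J => φ (a i J)) (fun l => φ (u l)) (fun l => φ (v l)) ≠ 0 := by
      intro h1
      rw [h1, coeff_zero] at hc
      exact hv hc.symm
    obtain ⟨α, β, h1, h2⟩ := ntv_fact _ _ hf0 hhK0 hhK k (by
      rw [← lf_map, ← Polynomial.map_pow]
      exact Polynomial.map_dvd φ hk) ρ₁ ρ₂ hρ hroots
    refine ⟨α, β, h1.trans hdeg, ?_⟩
    rw [leadingCoeff, hdeg, hc] at h2
    exact h2
  choose! α β hαβ hlf using hfac
  -- the two points
  set p : σ → K := fun l => φ (u l) + ρ₁ * φ (v l) with hp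
  set p' : σ → K := fun l => φ (u l) + ρ₂ * φ (v l) with hp'
  have hdet : p β₁ * p' β₂ - p β₂ * p' β₁ ≠ 0 := by
    have h1 : p β₁ * p' β₂ - p β₂ * p' β₁ = (ρ₂ - ρ₁) * φ (u β₁ * v β₂ - u β₂ * v β₁) := by
      rw [hp, hp', map_sub, map_mul, map_mul]
      ring
    rw [h1]
    exact mul_ne_zero (sub_ne_zero.2 hρ.symm) ((map_ne_zero φ).2 hpi)
  obtain ⟨ip, hip⟩ : ∃ l, p l ≠ 0 := by
    by_contra! h1
    rw [h1 β₁, h1 β₂] at hdet
    simp at hdet
  obtain ⟨iq, hiq⟩ : ∃ l, p' l ≠ 0 := by
    by_contra! h1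
    rw [h1 β₁, h1 β₂] at hdet
    simp at hdet
  have hform : ∀ i (x y : K), form (fun J => φ (a i J)) (fun l => x * p l + y * p' l) =
      if i ∈ Z then 0 else form (fun J => φ (a i J)) (fun l => φ (v l)) *
        ((y * (ρ₂ - ρ₁)) ^ α i * (x * (ρ₁ - ρ₂)) ^ β i) := by
    intro i x y
    split_ifs with hi
    · have h1 : lf (fun J => φ (a i J)) (fun l => φ (u l)) (fun l => φ (v l)) = 0 := by
        rw [← lf_map, hZ i hi, Polynomial.map_zero]
      have h2 : form (fun J => φ (a i J)) (fun l => φ (v l)) = 0 := by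
        rw [← lf_coeff_top (fun J => φ (a i J)) (fun l => φ (u l)) (fun l => φ (v l)), h1,
          coeff_zero]
      have h3 := ntv_hom (fun J => φ (a i J)) (fun l => φ (u l)) (fun l => φ (v l)) ρ₁ ρ₂ (d i) 0
        (Nat.add_zero _) (by rw [h1, h2, C_0, zero_mul]) x y
      rw [h2, zero_mul] at h3
      exact h3
    · exact ntv_hom _ _ _ ρ₁ ρ₂ (α i) (β i) (hαβ i hi) (hlf i hi) x y
  have hPK : ∀ i, ∃ t, bl t = i ∧ ∃ x y : K, form (fun J => φ (ap t J))
      (fun l => x * ((p ip)⁻¹ * p l) + y * ((p' iq)⁻¹ * p' l)) ≠ 0 := by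
    intro i
    obtain ⟨t, ht, htP⟩ := hP i
    refine ⟨t, ht, ?_⟩
    by_contra! hcon
    have hlf : lf (fun J => φ (ap t J)) (fun l => φ (u l)) (fun l => φ (v l)) ≠ 0 := by
      rw [← lf_map]
      exact (Polynomial.map_ne_zero_iff hφ).2 htP
    apply hlf
    refine Polynomial.eq_zero_of_infinite_isRoot _ ?_
    refine Set.infinite_of_injective_forall_mem (f := fun n : ℕ => (n : K)) Nat.cast_injective
      fun n => ?_
    show (lf (fun J => φ (ap t J)) (fun l => φ (u l)) (fun l => φ (v l))).eval (n : K) = 0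
    rw [lf_eval, ← hcon ((ρ₂ - n) / (ρ₂ - ρ₁) * p ip) ((n - ρ₁) / (ρ₂ - ρ₁) * p' iq)]
    congr 1
    funext l
    have h1 : ρ₂ - ρ₁ ≠ 0 := sub_ne_zero.2 hρ.symm
    have h2 : (ρ₂ - n) / (ρ₂ - ρ₁) * p ip * ((p ip)⁻¹ * p l) = (ρ₂ - n) / (ρ₂ - ρ₁) * p l := by
      rw [mul_assoc, mul_inv_cancel_left₀ hip]
    have h3 : (n - ρ₁) / (ρ₂ - ρ₁) * p' iq * ((p' iq)⁻¹ * p' l) =
        (n - ρ₁) / (ρ₂ - ρ₁) * p' l := by
      rw [mul_assoc, mul_inv_cancel_left₀ hiq]
    rw [h2, h3, hp, hp']
    have h4 : (ρ₂ - n) / (ρ₂ - ρ₁) + (n - ρ₁) / (ρ₂ - ρ₁) = 1 := by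
      rw [← add_div, sub_add_sub_cancel, div_self h1]
    have h5 : (ρ₂ - n) / (ρ₂ - ρ₁) * ρ₁ + (n - ρ₁) / (ρ₂ - ρ₁) * ρ₂ = n := by
      rw [div_mul_eq_mul_div, div_mul_eq_mul_div, ← add_div, div_eq_iff h1]
      ring
    linear_combination (-φ (u l)) * h4 - φ (v l) * h5
  refine no_two bl d q₀ b q hq₀ (fun i J => φ (a i J)) (fun t J => φ (ap t J))
    (fun t J => φ (ah t J)) D' jj (fun j s => φ (θ j s))
    hDual hMov Y (nulP_map bl ap Y hN φ) (fun l => (p ip)⁻¹ * p l) (fun l => (p' iq)⁻¹ * p' l)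
    β₁ β₂ ?_ hPK ip iq
    (inv_mul_cancel₀ hip) (inv_mul_cancel₀ hiq) Zᶜ
    (fun i => if i ∈ Z then 0 else form (fun J => φ (a i J)) (fun l => φ (v l)) *
        (((p' iq)⁻¹ * (ρ₂ - ρ₁)) ^ α i * ((p ip)⁻¹ * (ρ₁ - ρ₂)) ^ β i)) α ?_ ?_ ?_
  · have h1 : (p ip)⁻¹ * p β₁ * ((p' iq)⁻¹ * p' β₂) - (p ip)⁻¹ * p β₂ * ((p' iq)⁻¹ * p' β₁) =
        (p ip)⁻¹ * (p' iq)⁻¹ * (p β₁ * p' β₂ - p β₂ * p' β₁) := by ring
    rw [h1]
    exact mul_ne_zero (mul_ne_zero (inv_ne_zero hip) (inv_ne_zero hiq)) hdet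
  · intro i hi
    rw [Finset.mem_compl, not_not] at hi
    rw [if_pos hi]
  · intro i n
    have h1 : (fun l => (p ip)⁻¹ * p l + (n : K) * ((p' iq)⁻¹ * p' l)) =
        fun l => (p ip)⁻¹ * p l + ((n : K) * (p' iq)⁻¹) * p' l := by
      funext l
      ring
    rw [h1, hform]
    split_ifs
    · rw [zero_mul]
    · rw [mul_assoc (n : K), mul_pow (n : K)]
      ring
  · have h1 : Zᶜ.card = Fintype.card ι - Z.card := Finset.card_compl Z
    have h2 : Z.card ≤ Fintype.card ι := Finset.card_le_univ Z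
    have h3 : ∑ i, (qm Y d q₀ i + 1) = ∑ i, qm Y d q₀ i + Fintype.card ι := by
      rw [Finset.sum_add_distrib, Finset.sum_const, smul_eq_mul, mul_one, Finset.card_univ]
    omega

end Pool.Agent.Helper10.CT
end

/- Helper12.LVF.H10.CT.CaseTwo -/
section
/-! # CT: the coordinate of an integral point on a bounded line is bounded -/

set_option autoImplicit false

namespace Pool.Agent.Helper10.CT

open scoped BigOperators
open Polynomial Pool.Agent.Helper8.LG Pool.Agent.Helper10.LB
open Pool.Agent.Helper6.CO (Fam Mov Nul qm)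
open Pool.Agent.Helper8.CO (NulP nulP_map)

/-- **The coordinate `z` of the integral point `x = lam (u + z v)` on the bounded line `u, v` is
algebraic over the bounded elements.** -/
theorem case_two {k L Ω : Type*} [Field k] [Field L] [CharZero L] [Algebra k L] [Field Ω]
    {Q : (ℕ → L) →+* Ω} (hQ : IsUl Q) {T : Type*} [Finite T] [DecidableEq T] (y : T → L)
    {σ ι κ τ : Type*} [Fintype σ] [DecidableEq σ]
    [Fintype ι] [DecidableEq ι] [Fintype κ] [DecidableEq κ] [Fintype τ]
    {bl : κ → ι} {d q₀ : ι → ℕ} {b q : κ → ℕ} (hq₀ : ∀ t, q₀ (bl t) ≤ q t)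
    (a : (i : ι) → Sym σ (d i) → L) (ap : (t : κ) → Sym σ (b t) → L)
    (ah : (t : κ) → Sym σ (q t) → L) (D : Ix σ q → Derivation ℤ L L) (hy : Dirs k y D)
    (jj : τ → Ix σ q) (θ : τ → Ix σ q → L) (hD : Dual q ah D jj θ)
    (hM : MovB bl d b q a ap ah D) (Z Y : Finset ι) (hN : NulP bl ap Y)
    (hnum : 2 * Fintype.card σ + Fintype.card τ ≤ ∑ i, qm Y d q₀ i + Z.card + 1)
    (A : Subalgebra k L) (hA : A.FG) (X : ℕ → σ → L) (hX : ∀ m, Pt a Z A.toSubring (X m))
    (hXp : ∀ m i, ∃ t, bl t = i ∧ form (ap t) (X m) ≠ 0)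
    (u v : σ → Ω) (hu : ∀ l, u l ∈ BF k hQ) (hv : ∀ l, v l ∈ BF k hQ) (β β' : σ)
    (hpi : u β * v β' - u β' * v β ≠ 0)
    (htop : ∀ i ∉ Z, form (fun J => Q fun _ => a i J) v ≠ 0) (lam z : Ω) (hlam : lam ≠ 0)
    (hx : ∀ l, (Q fun m => X m l) = lam * (u l + z * v l)) :
    IsAlgebraic (BF k hQ) z := by
  classical
  by_contra hz
  have hz' : Transcendental (BF k hQ) z := hz
  have hzF : z ∉ BF k hQ := by
    intro h
    exact hz (isAlgebraic_algebraMap (⟨z, h⟩ : BF k hQ))
  have : CharZero Ω := by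
    have hinj : Function.Injective (Q.comp (Pi.constRingHom ℕ L)) :=
      (Q.comp (Pi.constRingHom ℕ L)).injective
    exact charZero_of_injective_ringHom hinj
  -- the line over the field of the bounded elements
  set F := BF k hQ with hF
  set u' : σ → F := fun l => ⟨u l, hu l⟩ with hu'
  set v' : σ → F := fun l => ⟨v l, hv l⟩ with hv'
  set a' : (i : ι) → Sym σ (d i) → F := fun i J => ⟨Q fun _ => a i J, const_mem hQ _⟩ with ha'
  have hmap : ∀ i, (lf (a' i) u' v').map F.subtype = lf (fun J => Q fun _ => a i J) u v := by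
    intro i
    rw [lf_map]
    rfl
  have hev0 : ∀ p : F[X], (p.map F.subtype).eval z = 0 → p = 0 := by
    intro p hp
    by_contra h0
    refine hz ⟨p, h0, ?_⟩
    rw [Polynomial.aeval_def, Polynomial.eval₂_eq_eval_map]
    exact hp
  have hform : ∀ i, form (fun J => Q fun _ => a i J) (fun l => u l + z * v l) * lam ^ d i =
      Q fun m => form (a i) (X m) := by
    intro i
    rw [ul_Q_form, funext hx, dirTwo_form_mul, mul_comm]
  have hZ0 : ∀ i ∈ Z, lf (a' i) u' v' = 0 := by
    intro i hi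
    refine hev0 _ ?_
    rw [hmap, lf_eval]
    have h1 := hform i
    have h2 : (fun m => form (a i) (X m)) = 0 := by
      funext m
      exact (hX m).zero i hi
    rw [h2, map_zero] at h1
    exact (mul_eq_zero.1 h1).resolve_right (pow_ne_zero _ hlam)
  have hU0 : ∀ i ∉ Z, lf (a' i) u' v' ≠ 0 := by
    intro i hi h0
    apply htop i hi
    rw [← lf_coeff_top (fun J => Q fun _ => a i J) u v, ← hmap, h0, Polynomial.map_zero,
      Polynomial.coeff_zero]
  set g : F[X] := ∏ i ∈ Zᶜ, lf (a' i) u' v' with hg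
  have hg0 : g ≠ 0 := Finset.prod_ne_zero_iff.2 fun i hi => hU0 i (Finset.mem_compl.1 hi)
  obtain ⟨h, w, hmon, hsep, hw, n, hn⟩ := exists_sqfree g hg0
  have hgmap : (h.map F.subtype) * (w.map F.subtype) =
      ∏ i ∈ Zᶜ, lf (fun J => Q fun _ => a i J) u v := by
    rw [← Polynomial.map_mul, hw, hg, Polynomial.map_prod]
    exact Finset.prod_congr rfl fun i _ => hmap i
  have hr : 3 ≤ (h.map F.subtype).natDegree := by
    have hDual : Dual q (fun i J => Q fun _ => ah i J)
        (fun p => ulDer Q hQ.surj hQ.ker (D p)) jj (fun j s => Q fun _ => θ j s) := by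
      intro s t
      have h1 := congrArg (Q.comp (Pi.constRingHom ℕ L)) (hD s t)
      show ulDer Q hQ.surj hQ.ker (D s) (Q fun _ => ah t.1 t.2) = _
      rw [ulDer_apply]
      rw [map_sub, map_sum] at h1
      have h2 : (Q fun _ => D s (ah t.1 t.2)) =
          (Q.comp (Pi.constRingHom ℕ L)) (D s (ah t.1 t.2)) := rfl
      rw [h2, h1]
      congr 1
      · split_ifs
        · exact map_one _
        · exact map_zero _
      · refine Finset.sum_congr rfl fun j _ => ?_
        split_ifs
        · rfl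
        · exact map_zero _
    have hMov : MovB bl d b q (fun i J => Q fun _ => a i J)
        (fun t J => Q fun _ => ap t J) (fun t J => Q fun _ => ah t J)
        (fun p => ulDer Q hQ.surj hQ.ker (D p)) := by
      refine hM.map (Q.comp (Pi.constRingHom ℕ L)) _ fun s x => ?_
      show ulDer Q hQ.surj hQ.ker (D s) (Q fun _ => x) = _
      rw [ulDer_apply]
      rfl
    have hP0 : ∀ i, ∃ t, bl t = i ∧ lf (fun J => Q fun _ => ap t J) u v ≠ 0 := by
      intro i
      by_contra! hcon
      have h2 : ∀ t : {t : κ // bl t = i}, ∀ᶠ m in (Filter.hyperfilter ℕ : Filter ℕ),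
          form (ap t.1) (X m) = 0 := by
        intro t
        have h1 : (lf (fun J => Q fun _ => ap t.1 J) u v).eval z = 0 := by
          rw [hcon t.1 t.2, eval_zero]
        rw [lf_eval] at h1
        have h3 : (Q fun m => form (ap t.1) (X m)) = 0 := by
          rw [ul_Q_form, funext hx, dirTwo_form_mul, h1, mul_zero]
        exact (hQ.ker _).1 h3
      obtain ⟨m, hm⟩ := (Filter.eventually_all.2 h2).exists
      obtain ⟨t, ht, htm⟩ := hXp m i
      exact htm (hm ⟨t, ht⟩)
    refine three_roots bl d q₀ b q hq₀ (fun i J => Q fun _ => a i J)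
      (fun t J => Q fun _ => ap t J) (fun t J => Q fun _ => ah t J) _ jj _ hDual hMov Z Y
      (nulP_map bl ap Y hN (Q.comp (Pi.constRingHom ℕ L))) hnum
      u v β β' hpi hP0 (fun i hi => ?_) htop _ ?_ fun i hi => ?_
    · rw [← hmap, hZ0 i hi, Polynomial.map_zero]
    · exact (Polynomial.map_ne_zero_iff F.subtype.injective).2 hmon.ne_zero
    · refine ⟨n, ?_⟩
      have h1 : lf (a' i) u' v' ∣ h ^ n :=
        (Finset.dvd_prod_of_mem (fun i => lf (a' i) u' v') (Finset.mem_compl.2 hi)).trans hn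
      rw [← hmap, ← Polynomial.map_pow]
      exact Polynomial.map_dvd F.subtype h1
  rw [Polynomial.natDegree_map] at hr
  -- the polynomials q
  have hq : ∀ p : Ix σ q, ∃ r : F[X], r.natDegree < h.natDegree ∧
      h.map F.subtype ∣ mapD (ulDer Q hQ.surj hQ.ker (D p)) (h.map F.subtype) +
        derivative (h.map F.subtype) * r.map F.subtype := by
    intro p
    obtain ⟨e, he⟩ := exists_lift_sub F (mapD (ulDer Q hQ.surj hQ.ker (D p)) (h.map F.subtype))
      (fun n => by
        rw [coeff_mapD, Polynomial.coeff_map]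
        exact der_mem hQ (D p) (hy.ker p) _ (h.coeff n).2)
    obtain ⟨r, hq1, hq2⟩ := exists_q h e hmon hsep (by omega)
    refine ⟨r, hq1, ?_⟩
    rw [← he, Polynomial.derivative_map, ← Polynomial.map_mul, ← Polynomial.map_add]
    exact Polynomial.map_dvd _ hq2
  choose r hq1 hq2 using hq
  have hDz : ∀ p, ulDer Q hQ.surj hQ.ker (D p) z = ((r p).map F.subtype).eval z := by
    intro p
    refine (mason_bdd hQ y D hy a Z A hA X hX u v hu hv β β' hpi htop lam z hlam hx
      (h.map F.subtype) (w.map F.subtype) (fun n => ?_) (hmon.map _)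
      (by rw [Polynomial.natDegree_map]; exact hr) hsep.map hgmap p ((r p).map F.subtype)
      (fun n => ?_) (by rw [Polynomial.natDegree_map, Polynomial.natDegree_map]; exact hq1 p)
      (hq2 p)).resolve_left hzF
    · rw [Polynomial.coeff_map]
      exact (h.coeff n).2
    · rw [Polynomial.coeff_map]
      exact ((r p).coeff n).2
  have hdeg : ∀ p, ((r p).map F.subtype).natDegree ≤ 2 := by
    intro p
    by_contra hlt
    exact hzF (tail_bdd hQ y D hy p ((r p).map F.subtype)
      (fun n => by rw [Polynomial.coeff_map]; exact ((r p).coeff n).2) (by omega) z (hDz p))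
  refine hz (riccati F (fun p => ulDer Q hQ.surj hQ.ker (D p))
    (fun c hc => const_Ω hQ y D hy c hc) (h.map F.subtype)
    (fun n => by rw [Polynomial.coeff_map]; exact (h.coeff n).2) hsep.map
    (by rw [Polynomial.natDegree_map]; exact hr) (fun p => (r p).map F.subtype) hdeg hq2 z hDz ?_)
  intro h0
  exact hmon.ne_zero (hev0 h h0)

end Pool.Agent.Helper10.CT
end

/- Helper12.LVF.H10.CT.PointBdd -/
section
/-! # CT: sequences of integral points with bounded two-vectors are bounded -/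

set_option autoImplicit false

namespace Pool.Agent.Helper10.CT

open scoped BigOperators
open Polynomial Pool.Agent.Helper8.LG Pool.Agent.Helper10.LB
open Pool.Agent.Helper6.CO (Fam Mov Nul qm)
open Pool.Agent.Helper8.CO (NulP nulP_map)

/-- a nonzero polynomial does not vanish at some natural number -/
private theorem pbv_nat {Ω : Type*} [Field Ω] [CharZero Ω] (p : Polynomial Ω) (hp : p ≠ 0) :
    ∃ n : ℕ, p.eval (n : Ω) ≠ 0 := by
  by_contra h
  push Not at h
  apply hp
  refine Polynomial.eq_zero_of_infinite_isRoot p ?_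
  exact Set.infinite_of_injective_forall_mem (f := fun n : ℕ => (n : Ω)) Nat.cast_injective
    fun n => h n

private theorem pbv_alg1 {F : Type*} [Field F] (u v z n : F) (h : 1 - n * z ≠ 0) :
    u + z * v = (1 - n * z) * (u + z / (1 - n * z) * (v + n * u)) := by
  have h1 : (1 - n * z) * (z / (1 - n * z)) = z := mul_div_cancel₀ z h
  linear_combination -(v + n * u) * h1

private theorem pbv_alg2 {F : Type*} [Field F] (z n : F) (h : 1 - n * z ≠ 0) :
    z = z / (1 - n * z) / (1 + n * (z / (1 - n * z))) := by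
  have h1 : (1 - n * z) * (z / (1 - n * z)) = z := mul_div_cancel₀ z h
  generalize z / (1 - n * z) = t at h1 ⊢
  have h2 : 1 + n * t ≠ 0 := by
    intro h0
    have h3 : t = 0 := by linear_combination h1 + z * h0
    rw [h3, mul_zero, add_zero] at h0
    exact one_ne_zero h0
  rw [eq_div_iff h2]
  linear_combination -h1

/-- `G x_l` is in a finite-dimensional space for infinitely many members of the sequence -/
theorem point_bdd {k L : Type*} [Field k] [Field L] [CharZero L] [Algebra k L]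
    {T : Type*} [Finite T] [DecidableEq T] (y : T → L)
    {σ ι κ τ : Type*} [Fintype σ] [DecidableEq σ]
    [Fintype ι] [DecidableEq ι] [Fintype κ] [DecidableEq κ] [Fintype τ]
    {bl : κ → ι} {d q₀ : ι → ℕ} {b q : κ → ℕ} (hq₀ : ∀ t, q₀ (bl t) ≤ q t)
    (a : (i : ι) → Sym σ (d i) → L) (ap : (t : κ) → Sym σ (b t) → L)
    (ah : (t : κ) → Sym σ (q t) → L) (D : Ix σ q → Derivation ℤ L L) (hy : Dirs k y D)
    (jj : τ → Ix σ q) (θ : τ → Ix σ q → L) (hD : Dual q ah D jj θ)
    (hM : MovB bl d b q a ap ah D) (Z Y : Finset ι) (hN : NulP bl ap Y)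
    (hnum : 2 * Fintype.card σ + Fintype.card τ ≤ ∑ i, qm Y d q₀ i + Z.card + 1)
    (A : Subalgebra k L) (hA : A.FG) (i₀ : σ)
    (V : Submodule k L) [FiniteDimensional k V] (X : ℕ → σ → L)
    (hX : ∀ m, Pt a Z A.toSubring (X m)) (hXp : ∀ m i, ∃ t, bl t = i ∧ form (ap t) (X m) ≠ 0)
    (h1 : ∀ m, X m i₀ = 1)
    (hP : ∀ m, ∃ δ : σ → L, (∃ j l, X m j * δ l - X m l * δ j ≠ 0) ∧
      ∀ j l, X m j * δ l - X m l * δ j ∈ V) :
    ∃ V' : Submodule k L, FiniteDimensional k V' ∧
      {m | ∃ G : L, G ≠ 0 ∧ ∀ l, G * X m l ∈ V'}.Infinite := by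
  classical
  choose δ hδ hδV using hP
  obtain ⟨Ω, _, Q, hsurj, hker⟩ := ul_exists L
  have hQ : IsUl Q := ⟨hsurj, hker⟩
  have : CharZero Ω := by
    have hinj : Function.Injective (Q.comp (Pi.constRingHom ℕ L)) :=
      (Q.comp (Pi.constRingHom ℕ L)).injective
    exact charZero_of_injective_ringHom hinj
  set x : σ → Ω := fun l => Q fun m => X m l with hx
  set e : σ → Ω := fun l => Q fun m => δ m l with he
  set P : σ → σ → Ω := fun j l => x j * e l - x l * e j with hPdef
  have hPQ : ∀ j l, P j l = Q fun m => X m j * δ m l - X m l * δ m j := by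
    intro j l
    have h2 : (fun m => X m j * δ m l - X m l * δ m j) =
        (fun m => X m j) * (fun m => δ m l) - (fun m => X m l) * (fun m => δ m j) := rfl
    rw [h2, map_sub, map_mul, map_mul]
  have hPF : ∀ j l, P j l ∈ BF k hQ := by
    intro j l
    rw [mem_BF]
    have h1V : (1 : L) ∈ V ⊔ k ∙ (1 : L) :=
      (le_sup_right : k ∙ (1 : L) ≤ V ⊔ k ∙ (1 : L)) (Submodule.mem_span_singleton_self _)
    refine bset_of_fd hQ (V ⊔ k ∙ (1 : L)) (fun m => X m j * δ m l - X m l * δ m j)
      (fun _ => 1) (Filter.Eventually.of_forall fun m => ?_)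
      (Filter.Eventually.of_forall fun m => h1V)
      (Filter.Eventually.of_forall fun m => one_ne_zero) _ ?_
    · exact (le_sup_left : V ≤ V ⊔ k ∙ (1 : L)) (hδV m j l)
    · have h2 : (fun _ : ℕ => (1 : L)) = 1 := rfl
      rw [hPQ, h2, map_one, mul_one]
  -- some two-vector entry is not zero
  have hP0 : ∃ j l, P j l ≠ 0 := by
    by_contra hcon
    push Not at hcon
    have h2 : ∀ᶠ m in (Filter.hyperfilter ℕ : Filter ℕ), ∀ j l,
        X m j * δ m l - X m l * δ m j = 0 := by
      rw [Filter.eventually_all]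
      intro j
      rw [Filter.eventually_all]
      intro l
      have h3 := hcon j l
      rw [hPQ, hker] at h3
      exact h3
    obtain ⟨m, hm⟩ := h2.exists
    obtain ⟨j, l, hjl⟩ := hδ m
    exact hjl (hm j l)
  have hx0 : x i₀ = 1 := by
    have h2 : (fun m => X m i₀) = 1 := by
      funext m
      exact h1 m
    show (Q fun m => X m i₀) = 1
    rw [h2, map_one]
  obtain ⟨b, hb⟩ : ∃ b, P i₀ b ≠ 0 := by
    by_contra hcon
    push Not at hcon
    have h2 : ∀ l, e l = x l * e i₀ := by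
      intro l
      have h3 := hcon l
      simp only [hPdef, hx0, one_mul] at h3
      exact sub_eq_zero.1 h3
    obtain ⟨j, l, hjl⟩ := hP0
    apply hjl
    show x j * e l - x l * e j = 0
    rw [h2 l, h2 j]
    ring
  set z : Ω := x b with hz
  set lam : Ω := (P i₀ b)⁻¹ with hlam
  have hlam0 : lam ≠ 0 := inv_ne_zero hb
  set u : σ → Ω := fun l => P l b with hu
  set v : σ → Ω := fun l => P i₀ l with hv
  have hxl : ∀ l, x l = lam * (u l + z * v l) := by
    intro l
    rw [hlam, eq_inv_mul_iff_mul_eq₀ hb]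
    show (x i₀ * e b - x b * e i₀) * x l =
      (x l * e b - x b * e l) + x b * (x i₀ * e l - x l * e i₀)
    rw [hx0]
    ring
  have hform : ∀ i, form (fun J => Q fun _ => a i J) (fun l => u l + z * v l) * lam ^ d i =
      Q fun m => form (a i) (X m) := by
    intro i
    rw [ul_Q_form]
    have h2 : (fun l => Q fun m => X m l) = fun l => lam * (u l + z * v l) := funext hxl
    rw [h2, dirTwo_form_mul, mul_comm]
  have hne : ∀ i ∉ Z, lf (fun J => Q fun _ => a i J) v u ≠ 0 := by
    intro i hi h0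
    have h2 : (lf (fun J => Q fun _ => a i J) v u).reflect (d i) = 0 := by
      rw [h0, Polynomial.reflect_zero]
    rw [lf_reflect] at h2
    have h3 : (lf (fun J => Q fun _ => a i J) u v).eval z = 0 := by rw [h2, eval_zero]
    rw [lf_eval] at h3
    have h4 := hform i
    rw [h3, zero_mul] at h4
    have h5 := (hker _).1 h4.symm
    obtain ⟨m, hm⟩ := h5.exists
    exact (hX m).ne i hi hm
  obtain ⟨n, hn⟩ := pbv_nat ((1 - C z * Polynomial.X) *
      ∏ i ∈ Zᶜ, lf (fun J => Q fun _ => a i J) v u) (by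
    refine mul_ne_zero ?_ (Finset.prod_ne_zero_iff.2 fun i hi => hne i (Finset.mem_compl.1 hi))
    intro h0
    have h2 : (1 - C z * Polynomial.X : Polynomial Ω).eval 0 = 0 := by rw [h0, eval_zero]
    simp at h2)
  rw [eval_mul, eval_prod] at hn
  have hn1 : 1 - n * z ≠ 0 := by
    have h2 := left_ne_zero_of_mul hn
    simp only [eval_sub, eval_one, eval_mul, eval_C, eval_X] at h2
    rwa [mul_comm]
  have hn2 : ∀ i ∉ Z, form (fun J => Q fun _ => a i J) (fun l => v l + n * u l) ≠ 0 := by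
    intro i hi
    have h2 := Finset.prod_ne_zero_iff.1 (right_ne_zero_of_mul hn) i (Finset.mem_compl.2 hi)
    rwa [lf_eval] at h2
  have huF : ∀ l, u l ∈ BF k hQ := fun l => hPF l b
  have hvF : ∀ l, v l ∈ BF k hQ := fun l => hPF i₀ l
  have hnF : (n : Ω) ∈ BF k hQ := natCast_mem _ n
  have halg : IsAlgebraic (BF k hQ) (z / (1 - n * z)) := by
    refine case_two hQ y hq₀ a ap ah D hy jj θ hD hM Z Y hN hnum A hA X hX hXp u (fun l => v l + n * u l) huF
      (fun l => add_mem (hvF l) (mul_mem hnF (huF l))) i₀ b ?_ hn2 (lam * (1 - n * z)) _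
      (mul_ne_zero hlam0 hn1) fun l => ?_
    · have h2 : u i₀ * (v b + n * u b) - u b * (v i₀ + n * u i₀) = P i₀ b ^ 2 := by
        have h3 : u b = 0 := by
          show x b * e b - x b * e b = 0
          ring
        rw [h3]
        show P i₀ b * (P i₀ b + n * 0) - 0 * _ = _
        ring
      show u i₀ * (v b + n * u b) - u b * (v i₀ + n * u i₀) ≠ 0
      rw [h2]
      exact pow_ne_zero _ hb
    · show x l = _
      rw [hxl l, mul_assoc]
      congr 1
      exact pbv_alg1 _ _ _ _ hn1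
  have hz' : z / (1 - n * z) ∈ BF k hQ := alg_bdd hQ y D hy _ halg
  have hzF : z ∈ BF k hQ := by
    rw [pbv_alg2 z n hn1]
    exact div_mem hz' (add_mem (one_mem _) (mul_mem hnF hz'))
  have hxF : ∀ l, x l ∈ bset k Q := by
    intro l
    rw [← mem_BF k hQ, hxl l]
    exact mul_mem (inv_mem (hPF i₀ b)) (add_mem (huF l) (mul_mem hzF (hvF l)))
  obtain ⟨V', hV', nn, dd, hnn, hdd, hdd0, hxd⟩ := bset_common hQ x hxF
  refine ⟨V', hV', ?_⟩
  have hev : ∀ᶠ m in (Filter.hyperfilter ℕ : Filter ℕ), ∀ l, X m l * dd m = nn l m := by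
    rw [Filter.eventually_all]
    intro l
    have h2 : Q ((fun m => X m l) * dd) = Q (nn l) := by
      rw [map_mul]
      exact hxd l
    exact (ul_eq Q hker _ _).1 h2
  intro hfin
  refine Filter.notMem_hyperfilter_of_finite hfin ?_
  filter_upwards [hev] with m hm
  refine ⟨dd m, hdd0 m, fun l => ?_⟩
  rw [mul_comm, hm l]
  exact hnn l m

end Pool.Agent.Helper10.CT
end
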