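import Pool.Agent.Helper12.LVM.C13
import Pool.Agent.Helper12.LVM.C11
import Pool.Agent.Helper12.LVM.B08
import Pool.Agent.Helper12.LVM.B09
import Pool.Agent.Helper12.LVM.B10

/- Helper12.LVF.H10.CT.InfLine -/
section
/-! # CT: infinitely many integral points on one line -/

set_option autoImplicit false

namespace Pool.Agent.Helper10.CT

open scoped BigOperators
open Pool.Agent.Helper8.LG Pool.Agent.Helper10.LB
open Pool.Agent.Helper6.CO (Fam Mov Nul qm)
open Pool.Agent.Helper8.CO (NulP)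

/-- **An infinite set of integral points has infinitely many points on one line.** -/
theorem inf_line {k L : Type*} [Field k] [Field L] [CharZero L] [Algebra k L]
    {σ ι κ τ : Type*} [Fintype σ] [DecidableEq σ] [Fintype ι] [DecidableEq ι] [Fintype κ]
    [DecidableEq κ] [Fintype τ] (bl : κ → ι) (d q₀ : ι → ℕ) (b q : κ → ℕ)
    (hq : ∀ t, 0 < q t) (hq₀ : ∀ t, q₀ (bl t) ≤ q t) (a : (i : ι) → Sym σ (d i) → L)
    (ap : (t : κ) → Sym σ (b t) → L) (ah : (t : κ) → Sym σ (q t) → L)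
    (hF : FamB k bl d b q a ap ah) (T : Finset (Ix σ q))
    (hind : AlgebraicIndependent k (fun p : T => ah p.1.1 p.1.2))
    (hfin : FiniteDimensional
      (IntermediateField.adjoin k (Set.range fun p : T => ah p.1.1 p.1.2)) L)
    (D : Ix σ q → Derivation ℤ L L) (jj : τ → Ix σ q) (θ : τ → Ix σ q → L)
    (hD : Dual q ah D jj θ) (hT : ∀ j, jj j ∉ T)
    (hDk : ∀ p (c : k), D p (algebraMap k L c) = 0)
    (Z Y : Finset ι) (hN : NulP bl ap Y) (i₀ j₁ : σ) (hj : j₁ ≠ i₀)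
    (hw1 : 2 * Fintype.card σ + Fintype.card τ ≤ ∑ i, qm Y d q₀ i + Z.card + 1)
    (hw2 : Fintype.card σ + 1 ≤ ∑ i, qn Y d q₀ i)
    (A : Subalgebra k L) (hA : A.FG) (S : Set (σ → L)) (hinf : S.Infinite)
    (hS : ∀ x ∈ S, x i₀ = 1 ∧ Pt a Z A.toSubring x ∧
      ∀ i, ∃ t, bl t = i ∧ form (ap t) x ≠ 0) :
    ∃ (α β : σ) (p p' : σ → L), α ≠ β ∧ p α = 1 ∧ p β = 0 ∧ p' α = 0 ∧ p' β = 1 ∧
      {x ∈ S | ∀ l, x l = x α * p l + x β * p' l}.Infinite := by
  classical
  have hσ : 0 < Fintype.card σ := Fintype.card_pos_iff.2 ⟨i₀⟩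
  set w : ℕ := Fintype.card σ - 1 with hw
  have hwσ : w + 1 = Fintype.card σ := by omega
  have hw1' : 2 * w + 1 + Fintype.card τ ≤ ∑ i, qm Y d q₀ i + Z.card := by omega
  have hw2' : w + 2 ≤ ∑ i, qn Y d q₀ i := by omega
  have hmin : ∀ x : σ → L, MinorsVanish D x w := fun x => minors_top D x w (by omega)
  obtain ⟨V, hVfin, hV⟩ := bounded_line bl d q₀ b q hq hq₀ a ap ah hF T
    hind hfin D jj θ hD hT hDk Z Y hN i₀ j₁ hj w hw1' hw2' A hA
  set X : ℕ → σ → L := fun m => (hinf.natEmbedding S m : σ → L) with hX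
  have hXS : ∀ m, X m ∈ S := fun m => (hinf.natEmbedding S m).2
  have hXi : Function.Injective X := fun u v huv =>
    (hinf.natEmbedding S).injective (Subtype.ext huv)
  have hX1 : ∀ m, X m i₀ = 1 := fun m => (hS _ (hXS m)).1
  have hXp : ∀ m, Pt a Z A.toSubring (X m) := fun m => (hS _ (hXS m)).2.1
  have hXP : ∀ m i, ∃ t, bl t = i ∧ form (ap t) (X m) ≠ 0 := fun m => (hS _ (hXS m)).2.2
  have hM : MovB bl d b q a ap ah D := hF.mov D hDk
  have hP : ∀ m, ∃ δ : σ → L, (∃ j l, X m j * δ l - X m l * δ j ≠ 0) ∧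
      ∀ j l, X m j * δ l - X m l * δ j ∈ V := fun m =>
    hV (X m) (hX1 m) (hXp m).zero (hXp m).ne (hXP m) (hXp m).int (hmin _)
  have hdir : Dirs k (fun p : T => ah p.1.1 p.1.2) D :=
    dirs_of_dual q ah T hind hfin D jj θ hD hT hDk
  obtain ⟨V', hV'fin, hV'⟩ := point_bdd (fun p : T => ah p.1.1 p.1.2) hq₀ a ap ah D hdir
    jj θ hD hM Z Y hN hw1 A hA i₀ V X hXp hXP hX1 hP
  obtain ⟨V'', hV''fin, hV''⟩ := second_round (fun p : T => ah p.1.1 p.1.2) D hdir a Z A hA V'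
  have hinf1 : (X '' {m | ∃ G : L, G ≠ 0 ∧ ∀ l, G * X m l ∈ V'}).Infinite :=
    hV'.image hXi.injOn
  obtain ⟨α, β, p, p', hαβ, hpα, hpβ, hqα, hqβ, hline⟩ :=
    ultra_line bl d q₀ b q hq hq₀ a ap ah hF D jj θ hD hDk Z Y hN i₀ j₁ hj w hw1' hw2'
      (V' ⊔ V'')
      (X '' {m | ∃ G : L, G ≠ 0 ∧ ∀ l, G * X m l ∈ V'}) hinf1 (by
        rintro _ ⟨m, ⟨G, hG0, hG⟩, rfl⟩
        refine ⟨hX1 m, (hXp m).zero, (hXp m).ne, hXP m, hmin _, G, hG0, fun l => ?_, fun i hi J => ?_⟩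
        · exact Submodule.mem_sup_left (hG l)
        · exact Submodule.mem_sup_right (hV'' (X m) G (hXp m) hG0 hG i hi J))
  refine ⟨α, β, p, p', hαβ, hpα, hpβ, hqα, hqβ, hline.mono ?_⟩
  rintro _ ⟨⟨m, _, rfl⟩, hx⟩
  exact ⟨hXS m, hx⟩

end Pool.Agent.Helper10.CT
end

/- Helper12.LVF.H10.CT.FieldArith -/
section
/-! # CT: finiteness of the integral points over arithmetic rings, over fields -/

set_option autoImplicit false

namespace Pool.Agent.Helper10.CT

open scoped BigOperators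
open Polynomial Pool.Agent.Helper8.LG Pool.Agent.Helper10.LB
open Pool.Agent.Helper6.CO (Fam Mov Nul qm)
open Pool.Agent.Helper8.CO (NulP)

/-- **Finiteness of integral points over finitely generated rings**, normalised coordinates. -/
theorem field_arith {k₀ L : Type*} [Field k₀] [Field L] [CharZero L] [Algebra k₀ L]
    (hfg : (⊤ : IntermediateField k₀ L).FG)
    {σ ι κ : Type*} [Fintype σ] [DecidableEq σ] [Fintype ι] [DecidableEq ι] [Fintype κ]
    [DecidableEq κ] (bl : κ → ι) (d q₀ : ι → ℕ) (b q : κ → ℕ)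
    (hq : ∀ t, 0 < q t) (hq₀ : ∀ t, q₀ (bl t) ≤ q t) (a : (i : ι) → Sym σ (d i) → L)
    (ap : (t : κ) → Sym σ (b t) → L) (ah : (t : κ) → Sym σ (q t) → L)
    (hF : FamB k₀ bl d b q a ap ah) (c : ℕ)
    (hc : (Fintype.card (Ix σ q) : Cardinal) ≤ Algebra.trdeg k₀
      (IntermediateField.adjoin k₀ (Set.range fun p : Ix σ q => ah p.1 p.2)) + c)
    (Z Y : Finset ι) (hN : NulP bl ap Y) (i₀ : σ)
    (hw1 : 2 * Fintype.card σ + c ≤ ∑ i, qm Y d q₀ i + Z.card + 1)
    (hw2 : Fintype.card σ + 1 ≤ ∑ i, qn Y d q₀ i)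
    (A : Subalgebra ℤ L) (hA : A.FG) :
    {x : σ → L | x i₀ = 1 ∧ (∀ i, ∃ t, bl t = i ∧ form (ap t) x ≠ 0) ∧ (∀ i ∈ Z, form (a i) x = 0) ∧
      ∀ i ∉ Z, form (a i) x ≠ 0 ∧ ∀ J : Sym σ (d i), mon x J / form (a i) x ∈ A}.Finite := by
  classical
  by_contra hinf
  set S : Set (σ → L) := {x : σ → L | x i₀ = 1 ∧ (∀ i, ∃ t, bl t = i ∧ form (ap t) x ≠ 0) ∧
    (∀ i ∈ Z, form (a i) x = 0) ∧
    ∀ i ∉ Z, form (a i) x ≠ 0 ∧ ∀ J : Sym σ (d i), mon x J / form (a i) x ∈ A} with hS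
  have hinf' : S.Infinite := hinf
  by_cases hj : ∃ j₁ : σ, j₁ ≠ i₀
  swap
  · push Not at hj
    refine hinf ((Set.finite_singleton (fun _ : σ => (1 : L))).subset fun x hx => ?_)
    rw [Set.mem_singleton_iff]
    funext l
    rw [hj l]
    exact hx.1
  obtain ⟨j₁, hj₁⟩ := hj
  obtain ⟨T, k, hT, hind, hfin, D, θ, hD, hDk⟩ := reduce hfg q ah c hc
  have hnum : 2 * Fintype.card σ + Fintype.card {s : Ix σ q // s ∉ T} ≤
      ∑ i, qm Y d q₀ i + Z.card + 1 := by omega
  have hM : MovB bl d b q a ap ah D := (hF.tower (k := k)).mov D hDk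
  obtain ⟨α, β, p, p', hαβ, hpα, hpβ, hqα, hqβ, hline⟩ := inf_line bl d q₀ b q hq hq₀ a ap ah
    (hF.tower (k := k)) T hind hfin D
    (fun j : {s : Ix σ q // s ∉ T} => j.1) θ hD (fun j => j.2) hDk Z Y hN i₀ j₁ hj₁ hnum hw2
    (Algebra.adjoin k (A : Set L)) (fa_adjoin_fg A hA) S hinf' (fun x hx =>
      ⟨hx.1, ⟨hx.2.2.1, fun i hi => (hx.2.2.2 i hi).1, fun i hi J =>
        isIntegral_algebraMap (R := (Algebra.adjoin k (A : Set L)).toSubring)
          (x := ⟨_, Algebra.subset_adjoin ((hx.2.2.2 i hi).2 J)⟩)⟩, hx.2.1⟩)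
  set S' : Set (σ → L) := {x ∈ S | ∀ l, x l = x α * p l + x β * p' l} with hS'
  -- a good second point
  obtain ⟨x₁, hx₁⟩ := hline.nonempty
  have hne : ∀ i ∉ Z, lf (a i) p' p ≠ 0 := by
    intro i hi h0
    apply (hx₁.1.2.2.2 i hi).1
    have h1 := fa_line_zero (a i) p p' h0 (x₁ α) (x₁ β)
    have h2 : x₁ = fun l => x₁ α * p l + x₁ β * p' l := funext hx₁.2
    rw [h2]
    exact h1
  have hprod : (∏ i ∈ Zᶜ, lf (a i) p' p) ≠ 0 := by
    rw [Finset.prod_ne_zero_iff]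
    intro i hi
    exact hne i (Finset.mem_compl.1 hi)
  obtain ⟨n, hn⟩ : ∃ n : L, (∏ i ∈ Zᶜ, lf (a i) p' p).eval n ≠ 0 := by
    by_contra hall
    push Not at hall
    exact hprod (Polynomial.funext fun r => by rw [hall r, eval_zero])
  rw [eval_prod, Finset.prod_ne_zero_iff] at hn
  set v : σ → L := fun l => p' l + n * p l with hv
  have hU : ∀ i ∉ Z, form (a i) v ≠ 0 := by
    intro i hi
    have h1 := hn i (Finset.mem_compl.2 hi)
    rw [lf_eval] at h1
    exact h1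
  have hpi : p α * v β - p β * v α ≠ 0 := by
    simp only [hv]
    rw [hpα, hpβ, hqα, hqβ]
    norm_num
  have hst : ∀ x ∈ S', ∀ l, x l = (x α - n * x β) * p l + x β * v l := by
    intro x hx l
    have h1 := hx.2 l
    show x l = (x α - n * x β) * p l + x β * (p' l + n * p l)
    linear_combination h1
  -- the points off `v`
  set S'' : Set (σ → L) := {x ∈ S' | x α - n * x β ≠ 0} with hS''
  have hinf2 : S''.Infinite := by
    intro hfin2
    have hsub : {x ∈ S' | x α - n * x β = 0}.Subsingleton := by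
      intro x hx y hy
      have ex : ∀ l, x l = x β * v l := by
        intro l
        have h1 := hst x hx.1 l
        rw [hx.2] at h1
        linear_combination h1
      have ey : ∀ l, y l = y β * v l := by
        intro l
        have h1 := hst y hy.1 l
        rw [hy.2] at h1
        linear_combination h1
      have hx1 : x i₀ = 1 := hx.1.1.1
      have hy1 : y i₀ = 1 := hy.1.1.1
      have hxi := ex i₀
      have hyi := ey i₀
      rw [hx1] at hxi
      rw [hy1] at hyi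
      have hv0 : v i₀ ≠ 0 := by
        intro h0
        rw [h0, mul_zero] at hxi
        exact one_ne_zero hxi
      have hb : x β = y β := mul_right_cancel₀ hv0 (by rw [← hxi, ← hyi])
      funext l
      rw [ex l, ey l, hb]
    refine hline ((hfin2.union hsub.finite).subset fun x hx => ?_)
    by_cases h0 : x α - n * x β = 0
    · exact Or.inr ⟨hx, h0⟩
    · exact Or.inl ⟨hx, h0⟩
  have hz0 : ∀ x ∈ S'', ∀ l, x l =
      (x α - n * x β) * (p l + x β / (x α - n * x β) * v l) := by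
    intro x hx l
    have h1 := hst x hx.1 l
    have h2 : (x α - n * x β) * (x β / (x α - n * x β)) = x β := mul_div_cancel₀ _ hx.2
    linear_combination h1 - v l * h2
  have hinj : Set.InjOn (fun x : σ → L => x β / (x α - n * x β)) S'' := by
    intro x hx y hy hxy
    have hxy' : x β / (x α - n * x β) = y β / (y α - n * y β) := hxy
    have hx1 : x i₀ = 1 := hx.1.1.1
    have hy1 : y i₀ = 1 := hy.1.1.1
    have ex := hz0 x hx i₀
    have ey := hz0 y hy i₀
    rw [hx1] at ex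
    rw [hy1, ← hxy'] at ey
    have hv0 : p i₀ + x β / (x α - n * x β) * v i₀ ≠ 0 := by
      intro h0
      rw [h0, mul_zero] at ex
      exact one_ne_zero ex
    have hb : x α - n * x β = y α - n * y β :=
      mul_right_cancel₀ hv0 (by rw [← ex, ← ey])
    funext l
    rw [hz0 x hx l, hz0 y hy l, ← hxy', hb]
  have hZ : ∀ i ∈ Z, lf (a i) p v = 0 := by
    intro i hi
    refine Polynomial.eq_zero_of_infinite_isRoot _ ((hinf2.image hinj).mono ?_)
    rintro _ ⟨x, hx, rfl⟩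
    show (lf (a i) p v).eval _ = 0
    have h1 : form (a i) x = 0 := hx.1.1.2.2.1 i hi
    have h2 : x = fun l => (x α - n * x β) * (p l + x β / (x α - n * x β) * v l) :=
      funext (hz0 x hx)
    rw [h2, fa_form_mul, mul_eq_zero, or_iff_right (pow_ne_zero _ hx.2)] at h1
    rw [lf_eval]
    exact h1
  have hPl : ∀ i, ∃ t, bl t = i ∧ lf (ap t) p v ≠ 0 := by
    intro i
    obtain ⟨x, hx⟩ := hinf2.nonempty
    obtain ⟨t, ht, htx⟩ := hx.1.1.2.1 i
    refine ⟨t, ht, fun h0 => htx ?_⟩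
    have h2 : x = fun l => (x α - n * x β) * (p l + x β / (x α - n * x β) * v l) :=
      funext (hz0 x hx)
    rw [h2, fa_form_mul, ← lf_eval, h0, eval_zero, mul_zero]
  have hfinal := line_arith a Z A hA p v α β hpi hU (fun h h0 hdvd =>
    three_roots bl d q₀ b q hq₀ a ap ah D (fun j : {s : Ix σ q // s ∉ T} => j.1) θ hD hM Z Y hN
      hnum p v α β hpi hPl hZ hU h h0 hdvd) i₀
  exact hline (hfinal.subset fun x hx =>
    ⟨hx.1.1, hx.1.2.2.2, x α - n * x β, x β, hst x hx⟩)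

end Pool.Agent.Helper10.CT
end

/- Helper12.LVF.H10.CT.EngB -/
section
/-! # CT: the engine of case 3 (arithmetic bases) in terms of polynomials -/

set_option autoImplicit false

open MvPolynomial

namespace Pool.Agent.Helper10.CT

open scoped BigOperators
open Pool.Agent.Helper8.LG Pool.Agent.Helper91.CO
open Pool.Agent.Helper6.CO (qm)
open Pool.Agent.Helper8.CO (card_IxC adjoinC)

/-- the integral points over rings of finite type over the integers -/
theorem engB_T {k₀ L : Type*} [Field k₀] [Field L] [CharZero L] [Algebra k₀ L]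
    (hfg : (⊤ : IntermediateField k₀ L).FG) {N r n : ℕ} (d q : Fin r → ℕ)
    (b : Fin r → Fin n → ℕ) (hq : ∀ i, 0 < q i) (hbq : ∀ i j, b i j + q i ≤ d i)
    (F : Fin r → MvPolynomial (Fin (N + 1)) L)
    (F₀ : Fin r → MvPolynomial (Fin (N + 1) ⊕ Fin n) k₀)
    (hF₀ : ∀ i, IsWeightedHomogeneous (wts N fun j => d i - b i j) (F₀ i) (d i))
    (H : Fin r → Fin n → MvPolynomial (Fin (N + 1)) L)
    (hH : ∀ i j, (H i j).IsHomogeneous (d i - b i j))
    (hFA : ∀ i, F i = aeval (Sum.elim X (H i)) (F₀ i))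
    (c : ℕ)
    (hcoef : ((∑ i, ∑ j, (N + (d i - b i j)).choose N : ℕ) : Cardinal) ≤
      Algebra.trdeg k₀ (IntermediateField.adjoin k₀ {z | ∃ i j J, z = coeff J (H i j)}) + c)
    (Z T : Finset (Fin r)) (hT : ∀ i ∈ T, ∀ y : Fin (N + 1) → AlgebraicClosure L,
      (∀ j, aeval y (mder (F₀ i) (H i) j) = 0) → y = 0)
    (h1 : 2 * N + 1 + c ≤ ∑ i, qm T d q i + Z.card) (h2 : N + 2 ≤ ∑ i, qn T d q i)
    (i₀ : Fin (N + 1)) (R : Subalgebra ℤ L) (hR : R.FG) :
    {x : Fin (N + 1) → L | x i₀ = 1 ∧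
      (∀ i, ∃ j, eval x (mder (F₀ i) (H i) j) ≠ 0) ∧ (∀ i ∈ Z, eval x (F i) = 0) ∧
      ∀ i ∉ Z, eval x (F i) ≠ 0 ∧
        ∀ J : Sym (Fin (N + 1)) (d i), mon x J / eval x (F i) ∈ R}.Finite := by
  classical
  have hb : ∀ i j, b i j ≤ d i := fun i j => (Nat.le_add_right _ _).trans (hbq i j)
  have hdF : ∀ i, (F i).IsHomogeneous (d i) := fun i => by
    rw [hFA i]
    exact hom_aeval _ (F₀ i) (hF₀ i) (H i) (hH i)
  have hmd : ∀ i j, (mder (F₀ i) (H i) j).IsHomogeneous (b i j) := fun i j =>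
    hom_mder _ (F₀ i) (hF₀ i) (H i) (hH i) j (Nat.add_sub_cancel' (hb i j)).symm
  obtain ⟨Q, hQ⟩ := Pool.Agent.Helper8.CO.fam_poly d b hb F₀ H hH
  have hN := exists_nulP b (fun i j => mder (F₀ i) (H i) j) hmd T hT
  have hform : ∀ (x : Fin (N + 1) → L) i,
      form (cf (d i) (aeval (Sum.elim X (H i)) (F₀ i))) x = eval x (F i) := fun x i => by
    rw [← hFA i]
    exact form_cf _ (hdF i) x
  have hformP : ∀ (x : Fin (N + 1) → L) i j,
      form (cf (b i j) (mder (F₀ i) (H i) j)) x = eval x (mder (F₀ i) (H i) j) := fun x i j =>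
    form_cf _ (hmd i j) x
  have hfin := field_arith hfg (fun s : Fin r × Fin n => s.1) d q (fun s => b s.1 s.2)
    (fun s => d s.1 - b s.1 s.2) (fun t => by
      have := hbq t.1 t.2
      have := hq t.1
      omega) (fun t => by
      have := hbq t.1 t.2
      omega)
    (fun i => cf (d i) (aeval (Sum.elim X (H i)) (F₀ i)))
    (fun s => cf (b s.1 s.2) (mder (F₀ s.1) (H s.1) s.2))
    (fun s => cf (d s.1 - b s.1 s.2) (H s.1 s.2)) ⟨Q, hQ⟩ c (by
      rw [card_IxC, Fintype.sum_prod_type]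
      refine hcoef.trans (le_of_eq ?_)
      congr 1
      rw [adjoinC k₀ (fun i j => d i - b i j) H hH]) Z T hN i₀ (by
      rw [Fintype.card_fin]
      omega) (by
      rw [Fintype.card_fin]
      omega) R hR
  refine hfin.subset ?_
  rintro x ⟨h4, h5, h6, h7⟩
  refine ⟨h4, fun i => ?_, fun i hi => ?_, fun i hi => ?_⟩
  · obtain ⟨j, hj⟩ := h5 i
    refine ⟨(i, j), rfl, ?_⟩
    rw [hformP]
    exact hj
  · rw [hform]
    exact h6 i hi
  · rw [hform]
    exact h7 i hi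

end Pool.Agent.Helper10.CT
end
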