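import Pool.Agent.Helper12.LVM.B08
import Pool.Agent.Helper12.LVM.B11
import Pool.Agent.Helper12.LVM.B12

/- Helper12.LVF.H10.CT.EngA -/
section
/-! # CT: the engine of case 2 in terms of polynomials -/

set_option autoImplicit false

open MvPolynomial

namespace Pool.Agent.Helper10.CT

open scoped BigOperators
open Pool.Agent.Helper8.LG Pool.Agent.Helper91.CO
open Pool.Agent.Helper6.CO (qm)
open Pool.Agent.Helper8.CO (card_IxC adjoinC)

/-- the rational points of the intersection of all the hypersurfaces -/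
theorem engA_T {k₀ L : Type*} [Field k₀] [Field L] [CharZero L] [Algebra k₀ L]
    (hfg : (⊤ : IntermediateField k₀ L).FG) {N r n : ℕ} (d q : Fin r → ℕ)
    (b : Fin r → Fin n → ℕ) (hq : ∀ i, 0 < q i) (hbq : ∀ i j, b i j + q i ≤ d i)
    (F : Fin r → MvPolynomial (Fin (N + 1)) L)
    (F₀ : Fin r → MvPolynomial (Fin (N + 1) ⊕ Fin n) k₀)
    (hF₀ : ∀ i, IsWeightedHomogeneous (wts N fun j => d i - b i j) (F₀ i) (d i))
    (H : Fin r → Fin n → MvPolynomial (Fin (N + 1)) L)
    (hH : ∀ i j, (H i j).IsHomogeneous (d i - b i j))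
    (hFA : ∀ i, F i = aeval (Sum.elim X (H i)) (F₀ i))
    (w c : ℕ)
    (hcoef : ((∑ i, ∑ j, (N + (d i - b i j)).choose N : ℕ) : Cardinal) ≤
      Algebra.trdeg k₀ (IntermediateField.adjoin k₀ {z | ∃ i j J, z = coeff J (H i j)}) + c)
    (T : Finset (Fin r)) (hT : ∀ i ∈ T, ∀ y : Fin (N + 1) → AlgebraicClosure L,
      (∀ j, aeval y (mder (F₀ i) (H i) j) = 0) → y = 0)
    (h1 : 2 * w + 1 + c ≤ ∑ i, (qm T d q i + 1)) (h2 : w + 2 ≤ ∑ i, qn T d q i)
    (h3 : 2 * N + c ≤ ∑ i, (qm T d q i + 1) + 1) (i₀ : Fin (N + 1)) :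
    {x : Fin (N + 1) → L | x i₀ = 1 ∧
      Algebra.trdeg k₀ (IntermediateField.adjoin k₀ (Set.range x)) ≤ w ∧
      (∀ i, ∃ j, eval x (mder (F₀ i) (H i) j) ≠ 0) ∧ ∀ i, eval x (F i) = 0}.Finite := by
  classical
  have hb : ∀ i j, b i j ≤ d i := fun i j => (Nat.le_add_right _ _).trans (hbq i j)
  have hdF : ∀ i, (F i).IsHomogeneous (d i) := fun i => by
    rw [hFA i]
    exact hom_aeval _ (F₀ i) (hF₀ i) (H i) (hH i)
  have hmd : ∀ i j, (mder (F₀ i) (H i) j).IsHomogeneous (b i j) := fun i j =>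
    hom_mder _ (F₀ i) (hF₀ i) (H i) (hH i) j (Nat.add_sub_cancel' (hb i j)).symm
  obtain ⟨Q, hQ⟩ := Pool.Agent.Helper8.CO.fam_poly d b hb F₀ H hH
  have hN := exists_nulP b (fun i j => mder (F₀ i) (H i) j) hmd T hT
  have hform : ∀ (x : Fin (N + 1) → L) i,
      form (cf (d i) (aeval (Sum.elim X (H i)) (F₀ i))) x = eval x (F i) := fun x i => by
    rw [← hFA i]
    exact form_cf _ (hdF i) x
  have hformP : ∀ (x : Fin (N + 1) → L) i j,
      form (cf (b i j) (mder (F₀ i) (H i) j)) x = eval x (mder (F₀ i) (H i) j) := fun x i j =>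
    form_cf _ (hmd i j) x
  have hfin := final_line hfg (fun s : Fin r × Fin n => s.1) d q (fun s => b s.1 s.2)
    (fun s => d s.1 - b s.1 s.2) (fun t => by
      have := hbq t.1 t.2
      have := hq t.1
      omega) (fun t => by
      have := hbq t.1 t.2
      omega)
    (fun i => cf (d i) (aeval (Sum.elim X (H i)) (F₀ i)))
    (fun s => cf (b s.1 s.2) (mder (F₀ s.1) (H s.1) s.2))
    (fun s => cf (d s.1 - b s.1 s.2) (H s.1 s.2)) ⟨Q, hQ⟩ w c (by
      rw [card_IxC, Fintype.sum_prod_type]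
      refine hcoef.trans (le_of_eq ?_)
      congr 1
      rw [adjoinC k₀ (fun i j => d i - b i j) H hH]) T hN i₀ h1 h2 (by
      rw [Fintype.card_fin]
      omega)
  refine hfin.subset ?_
  rintro x ⟨h4, h5, h6, h7⟩
  refine ⟨h4, h5, fun i => ?_, fun i => ?_⟩
  · obtain ⟨j, hj⟩ := h6 i
    refine ⟨(i, j), rfl, ?_⟩
    rw [hformP]
    exact hj
  · rw [hform]
    exact h7 i

end Pool.Agent.Helper10.CT
end

/- Helper12.LVF.H10.CT.Main -/
section
/-! # CT: generic weighted substitutions, over schemes, all three numerical conditions -/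

set_option autoImplicit false

open AlgebraicGeometry CategoryTheory CategoryTheory.Limits MvPolynomial

namespace Pool.Agent.Helper10.CT

open scoped BigOperators LinearAlgebra.Projectivization
open Pool.Agent.Helper8.LG hiding coeffField
open Pool.Agent.Helper8.LV
open Pool.Agent.Helper10.LB
open Pool.Agent.Helper91.CO

attribute [local instance] MvPolynomial.gradedAlgebra

universe u v

set_option maxHeartbeats 400000 in
/-- Generic weighted substitutions: no linearity in the second and third case. -/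
theorem main_t (R : CommRingCat.{u}) (B : Scheme.{u}) [IsIntegral B] (s : B ⟶ Spec R)
    [LocallyOfFiniteType s] [CharZero B.functionField]
    (U : Scheme.{u}) (π : U ⟶ B) [IsSeparated π] [LocallyOfFiniteType π] [QuasiCompact π]
    {N r n : ℕ} (d q m : Fin r → ℕ) (b : Fin r → Fin n → ℕ) (hq : ∀ i, 0 < q i)
    (hb : ∀ i j, b i j + q i ≤ d i)
    (F : Fin r → MvPolynomial (Fin (N + 1)) B.functionField)
    (hF : ∀ i, (F i).IsHomogeneous (d i))
    (f : genFib π ⟶ PN N B.functionField) (hf : f ≫ PN.toSpec N _ = pullback.snd _ _)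
    [LocallyQuasiFinite f]
    (Z C : Finset (Fin r)) (hZC : Disjoint Z C) (hm : ∀ i ∈ C, m i ∣ d i)
    (hU : ∀ i ∉ Z, i ∉ C → ∀ z : genFib π, NonVanishing (f z) (F i))
    (k₀ : Subfield B.functionField)
    (hk₀ : ∀ r : R, (Spec.preimage (B.fromSpecStalk (genericPoint B) ≫ s)).hom r ∈ k₀)
    (M : Type v) [Field M] [Algebra B.functionField M]
    (hM : (⊤ : IntermediateField B.functionField M).FG) (g : GL (Fin (N + 1)) M)
    (F₀ : Fin r → MvPolynomial (Fin (N + 1) ⊕ Fin n) k₀)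
    (hF₀ : ∀ i, IsWeightedHomogeneous (wts N fun j => d i - b i j) (F₀ i) (d i))
    (H : Fin r → Fin n → MvPolynomial (Fin (N + 1)) M)
    (hH : ∀ i j, (H i j).IsHomogeneous (d i - b i j))
    (hFA : ∀ i, subst (g : Matrix _ _ M) (F i) = aeval (Sum.elim X (H i)) (F₀ i))
    (T : Finset (Fin r)) (hT : ∀ i ∈ T, ∀ y : Fin (N + 1) → AlgebraicClosure M,
      (∀ j, aeval y (mder (F₀ i) (H i) j) = 0) → y = 0)
    (w c : ℕ)
    (hcoef : ((∑ i, ∑ j, (N + (d i - b i j)).choose N : ℕ) : Cardinal) ≤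
      Algebra.trdeg k₀ (coeffField k₀ H) + c)
    (hnum : 2 * w + 2 + c + ∑ i ∈ C, d i / m i ≤
        ∑ i, Pool.Agent.Helper6.CO.qm T d q i + Z.card ∨
      (Z = Finset.univ ∧ 2 * w + 1 + c ≤ ∑ i, (Pool.Agent.Helper6.CO.qm T d q i + 1) ∧
        w + 2 ≤ ∑ i, qn T d q i ∧
        2 * N + c ≤ ∑ i, (Pool.Agent.Helper6.CO.qm T d q i + 1) + 1) ∨
      (Algebra.FiniteType ℤ R ∧ C = ∅ ∧
        2 * N + 1 + c ≤ ∑ i, Pool.Agent.Helper6.CO.qm T d q i + Z.card ∧
        N + 2 ≤ ∑ i, qn T d q i)) :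
    {σ : B ⟶ U | ∃ hσ : σ ≫ π = 𝟙 B, ∀ (t : Spec B.functionField)
      (x : Fin (N + 1) → B.functionField), IsCoord (f (genPt π σ hσ t)) x →
      CondC m F g F₀ H Z C w x}.Finite := by
  classical
  rcases hnum with hnum | hnum
  · exact main_c R B s U π d q m b hq hb F hF f hf Z C hZC hm hU k₀ hk₀ M hM g F₀ hF₀ H hH hFA
      T hT w c hcoef (Or.inl hnum)
  haveI : CharZero M :=
    charZero_of_injective_algebraMap (algebraMap B.functionField M).injective
  by_cases hn : Nonempty (Fin r → Fin n)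
  swap
  · -- no multipliers
    have hr : ∃ i : Fin r, ∀ j : Fin n, False := by
      by_contra hne
      push Not at hne
      exact hn ⟨fun i => (hne i).choose⟩
    obtain ⟨i, hi⟩ := hr
    refine Set.Finite.subset Set.finite_empty ?_
    rintro σ ⟨hσ, h1⟩
    obtain ⟨t⟩ : Nonempty (Spec B.functionField) := inferInstance
    obtain ⟨x, hx⟩ := exists_coord (genPt π σ hσ ≫ f)
      (by rw [Category.assoc, hf]; exact ffib_snd π σ hσ) t
    obtain ⟨j, -⟩ := (h1 t x hx).1 i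
    exact hi j
  have hd : ∀ i, 0 < d i := by
    obtain ⟨j⟩ := hn
    intro i
    have := hq i
    have := hb i (j i)
    omega
  have hP : ∀ i j, (mder (F₀ i) (H i) j).IsHomogeneous (b i j) := by
    intro i j
    refine hom_mder (fun j => d i - b i j) (F₀ i) (hF₀ i) (H i) (hH i) j ?_
    have := hb i j
    omega
  rcases hnum with ⟨hZ, h1, h2, h3⟩ | ⟨hR, hC, h1, h2⟩
  · obtain ⟨V, hVne, hV, ⟨A₀, hA₀, hVA⟩, hKfg⟩ := exists_affine_ft R s k₀ hk₀
    haveI := hVne
    have hfg : (⊤ : IntermediateField k₀ M).FG := wrap_fg_trans hKfg hM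
    refine main_engC (κ := k₀) V hV A₀ hA₀ hVA π d m b hd F hF f hf Z C hm hU k₀ M g F₀ H hP w ?_
    intro i₀ R' hR'
    have h9 := engA_T (k₀ := k₀) (L := M) hfg d q b hq hb
      (fun i => subst (g : Matrix _ _ M) (F i))
    have h12 := h9 F₀ hF₀ H hH
    have h13 := h12 hFA
    have h14 := h13 w c hcoef
    have h15 := h14 T hT h1 h2 h3 i₀
    refine h15.subset ?_
    rintro y ⟨h4, ⟨h5, h6, h7, -⟩, -⟩
    exact ⟨h4, h5, h6, fun i => h7 i (by rw [hZ]; exact Finset.mem_univ i)⟩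
  · haveI := hR
    obtain ⟨V, hVne, hV, ⟨A₀, hA₀, hVA⟩, -⟩ := exists_affine_ftZ R s
    haveI := hVne
    obtain ⟨-, -, -, -, hKfg⟩ := exists_affine_ft R s k₀ hk₀
    have hfg : (⊤ : IntermediateField k₀ M).FG := wrap_fg_trans hKfg hM
    have h9 := engB_T (k₀ := k₀) (L := M) hfg d q b hq hb
      (fun i => subst (g : Matrix _ _ M) (F i))
    have h12 := h9 F₀ hF₀ H hH
    have h13 := h12 hFA
    have h14 := h13 c hcoef
    have h15 := h14 Z T hT h1 h2
    have h10 := main_engC (κ := ℤ) V hV A₀ hA₀ hVA π d m b hd F hF f hf Z C hm hU k₀ M g F₀ H hP w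
    refine h10 ?_
    intro i₀ R' hR'
    have h11 := h15 i₀ R' hR'
    refine h11.subset ?_
    rintro y ⟨h4, ⟨h5, h6, h7, -⟩, h8⟩
    refine ⟨h4, h6, h7, fun i hi => h8 i ?_⟩
    rw [hC, Finset.union_empty, Finset.mem_compl]
    exact hi

end Pool.Agent.Helper10.CT
end
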